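import Mathlib

/-! The parts of this file: H39.HC.Defs, H39.HC.Ideal, H39.HC.Bounds, H5.DG.DerExt, H5.DG.ImplRoot, H5.DG2.Omega. -/

section

/-!
# Covers of projective space branched over hyperplanes: definitions
-/

open MvPolynomial

noncomputable section

namespace Pool.Agent.H39.HC

/-- The value of the linear form with the coefficients `v i` at `x`. -/
def lin {R : Type*} [CommRing R] [Algebra ℂ R] {n : ℕ} (v : Fin (n + 1) → ℂ)
    (x : Fin (n + 1) → R) : R :=
  ∑ i, v i • x i

/-- General position: at most `n + 1` of the vectors `t j` are always linearly independent. -/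
def GenPos {ι : Type} {n : ℕ} (t : ι → Fin (n + 1) → ℂ) : Prop :=
  ∀ S : Finset ι, S.card ≤ n + 1 → LinearIndependent ℂ fun j : S => t j

/-- The points `t j` impose independent conditions on forms of degree `d`: forms of degree `d` take
arbitrary values at them. -/
def Indep {ι : Type} {n : ℕ} (d : ℕ) (t : ι → Fin (n + 1) → ℂ) : Prop :=
  ∀ y : ι → ℂ, ∃ g : MvPolynomial (Fin (n + 1)) ℂ, g.IsHomogeneous d ∧ ∀ j, eval (t j) g = y j

/-- The value at the `r` vectors `u a` of a polynomial in the coordinates of `r` vectors. -/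
def ev {R : Type*} [CommRing R] [Algebra ℂ R] {r n : ℕ} (u : Fin r → Fin (n + 1) → R) :
    MvPolynomial (Fin r × Fin (n + 1)) ℂ →ₐ[ℂ] R :=
  aeval fun p => u p.1 p.2

/-- The polynomial `Q` in the coordinates of `r` vectors is multiplied by `det A ^ K` if the vectors
are transformed by the matrix `A`, and it vanishes if all `r` vectors lie in one of the hyperplanes
`lin (t j) = 0`. -/
structure Good {ι : Type} {r n : ℕ} (t : ι → Fin (n + 1) → ℂ) (K : ℕ)
    (Q : MvPolynomial (Fin r × Fin (n + 1)) ℂ) : Prop where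
  det : ∀ (A : Matrix (Fin r) (Fin r) ℂ) (u : Fin r → Fin (n + 1) → ℂ),
    ev (fun a i => ∑ b, A a b * u b i) Q = A.det ^ K * ev u Q
  van : ∀ (j : ι) (u : Fin r → Fin (n + 1) → ℂ), (∀ a, lin (t j) (u a) = 0) → ev u Q = 0

/-- The points `t j` lie on no hypersurface of degree `d`. -/
def Spans {ι : Type} {n : ℕ} (d : ℕ) (t : ι → Fin (n + 1) → ℂ) : Prop :=
  ∀ g : MvPolynomial (Fin (n + 1)) ℂ, g.IsHomogeneous d → (∀ j, eval (t j) g = 0) → g = 0

/-- The weight of the polynomials in `r` vectors which we construct. -/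
def wtK (n e r : ℕ) : ℕ := (e + n - r).choose (n + 1 - r)

/-- The linear form with coefficient vector `v` in the coordinates of the `a`-th vector. -/
def linX {r n : ℕ} (v : Fin (n + 1) → ℂ) (a : Fin r) : MvPolynomial (Fin r × Fin (n + 1)) ℂ :=
  ∑ i, C (v i) * X (a, i)

/-- The diagonal form `∑ a j * x j ^ m`. -/
def diagForm {N : ℕ} (a : Fin (N + 1) → ℂ) (m : ℕ) : MvPolynomial (Fin (N + 1)) ℂ :=
  ∑ j, C (a j) * X j ^ m

end Pool.Agent.H39.HC

end
end

section

/-!
# Good polynomials over algebras, and the ideals generated by linear forms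
-/

open MvPolynomial

noncomputable section

namespace Pool.Agent.H39.HC

variable {ι : Type} {n r K : ℕ} {t : ι → Fin (n + 1) → ℂ}
  {Q : MvPolynomial (Fin r × Fin (n + 1)) ℂ}

private theorem Ideal_map_ev {R S : Type*} [CommRing R] [Algebra ℂ R] [CommRing S] [Algebra ℂ S]
    (φ : R →ₐ[ℂ] S) (u : Fin r → Fin (n + 1) → R) (Q : MvPolynomial (Fin r × Fin (n + 1)) ℂ) :
    φ (ev u Q) = ev (fun a i => φ (u a i)) Q :=
  MvPolynomial.comp_aeval_apply _ φ Q

private theorem Ideal_eval {σ : Type*} (p : σ → ℂ) (q : MvPolynomial σ ℂ) :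
    eval p q = (aeval p : MvPolynomial σ ℂ →ₐ[ℂ] ℂ) q :=
  (DFunLike.congr_fun (MvPolynomial.coe_aeval_eq_eval p) q).symm

private theorem Ideal_det_map {R S : Type*} [CommRing R] [Algebra ℂ R] [CommRing S] [Algebra ℂ S]
    (φ : R →ₐ[ℂ] S) (A : Matrix (Fin r) (Fin r) R) (u : Fin r → Fin (n + 1) → R) :
    φ (ev (fun a i => ∑ b, A a b * u b i) Q) =
        ev (fun a i => ∑ b, φ (A a b) * φ (u b i)) Q ∧
      φ (A.det ^ K * ev u Q) =
        (Matrix.of fun a b => φ (A a b)).det ^ K * ev (fun a i => φ (u a i)) Q := by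
  constructor
  · rw [Ideal_map_ev]
    congr 2
    funext a i
    rw [map_sum]
    exact Finset.sum_congr rfl fun b _ => map_mul _ _ _
  · rw [map_mul, map_pow, Ideal_map_ev, AlgHom.map_det]
    rfl

private theorem Ideal_generic (hQ : Good t K Q) :
    ev (fun a i => ∑ b, (X (Sum.inl (a, b)) : MvPolynomial ((Fin r × Fin r) ⊕
      (Fin r × Fin (n + 1))) ℂ) * X (Sum.inr (b, i))) Q =
      (Matrix.of fun a b => (X (Sum.inl (a, b)) : MvPolynomial ((Fin r × Fin r) ⊕
      (Fin r × Fin (n + 1))) ℂ)).det ^ K * ev (fun b i => X (Sum.inr (b, i))) Q := by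
  refine MvPolynomial.funext fun p => ?_
  have h := hQ.det (Matrix.of fun a b => p (Sum.inl (a, b))) fun b i => p (Sum.inr (b, i))
  obtain ⟨h1, h2⟩ := Ideal_det_map (Q := Q) (K := K) (aeval p : MvPolynomial ((Fin r × Fin r) ⊕
      (Fin r × Fin (n + 1))) ℂ →ₐ[ℂ] ℂ) (Matrix.of fun a b => X (Sum.inl (a, b)))
      (fun b i => X (Sum.inr (b, i)))
  simp only [Matrix.of_apply, aeval_X] at h h1 h2
  rw [Ideal_eval, Ideal_eval, h1, h2]
  exact h

/-- The transformation rule over any algebra. -/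
theorem Good.det_ring (hQ : Good t K Q) {R : Type*} [CommRing R] [Algebra ℂ R]
    (A : Matrix (Fin r) (Fin r) R) (u : Fin r → Fin (n + 1) → R) :
    ev (fun a i => ∑ b, A a b * u b i) Q = A.det ^ K * ev u Q := by
  have h := congrArg (aeval (Sum.elim (fun p => A p.1 p.2) fun p => u p.1 p.2) :
    MvPolynomial ((Fin r × Fin r) ⊕ (Fin r × Fin (n + 1))) ℂ →ₐ[ℂ] R) (Ideal_generic hQ)
  obtain ⟨h1, h2⟩ := Ideal_det_map (Q := Q) (K := K)
    (aeval (Sum.elim (fun p => A p.1 p.2) fun p => u p.1 p.2) : MvPolynomial ((Fin r × Fin r) ⊕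
      (Fin r × Fin (n + 1))) ℂ →ₐ[ℂ] R) (Matrix.of fun a b => X (Sum.inl (a, b)))
      (fun b i => X (Sum.inr (b, i)))
  simp only [Matrix.of_apply, aeval_X, Sum.elim_inl, Sum.elim_inr] at h1 h2
  rw [h1, h2] at h
  exact h

private theorem Ideal_exists_coords {B : Type} [Finite B] {s : B → Fin (n + 1) → ℂ}
    (hs : LinearIndependent ℂ s) :
    ∃ (G H : Matrix (Fin (n + 1)) (Fin (n + 1)) ℂ) (f : B → Fin (n + 1)), G * H = 1 ∧ H * G = 1 ∧
      Function.Injective f ∧ ∀ j, G (f j) = s j := by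
  classical
  have hs' := hs.linearIndepOn_id
  set bs := Module.Basis.extend hs' with hbs
  set e := bs.indexEquiv (Pi.basisFun ℂ (Fin (n + 1))) with he
  set bs' := bs.reindex e with hbs'
  set Mm := (Pi.basisFun ℂ (Fin (n + 1))).toMatrix bs' with hMm
  set Nn := bs'.toMatrix (Pi.basisFun ℂ (Fin (n + 1))) with hNn
  have h1 : Mm * Nn = 1 := Module.Basis.toMatrix_mul_toMatrix_flip _ _
  have h2 : Nn * Mm = 1 := Module.Basis.toMatrix_mul_toMatrix_flip _ _
  have hmem : ∀ j, s j ∈ hs'.extend (Set.subset_univ _) := fun j =>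
    hs'.subset_extend _ ⟨j, rfl⟩
  refine ⟨Mm.transpose, Nn.transpose, fun j => e ⟨s j, hmem j⟩, ?_, ?_, ?_, ?_⟩
  · rw [← Matrix.transpose_mul, h2, Matrix.transpose_one]
  · rw [← Matrix.transpose_mul, h1, Matrix.transpose_one]
  · intro j j' hj
    exact hs.injective (congrArg Subtype.val (e.injective hj))
  · intro j
    funext l
    rw [Matrix.transpose_apply, hMm, Module.Basis.toMatrix_apply, Pi.basisFun_repr, hbs',
      Module.Basis.reindex_apply, Equiv.symm_apply_apply, hbs, Module.Basis.coe_extend]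

/-- Substitution of the coordinates. -/
private def Ideal_sub (G : Matrix (Fin (n + 1)) (Fin (n + 1)) ℂ) :
    MvPolynomial (Fin r × Fin (n + 1)) ℂ →ₐ[ℂ] MvPolynomial (Fin r × Fin (n + 1)) ℂ :=
  aeval fun p => linX (G p.2) p.1

private theorem Ideal_ev_sub {R : Type*} [CommRing R] [Algebra ℂ R]
    (G : Matrix (Fin (n + 1)) (Fin (n + 1)) ℂ) (u : Fin r → Fin (n + 1) → R)
    (Q : MvPolynomial (Fin r × Fin (n + 1)) ℂ) :
    ev u (Ideal_sub G Q) = ev (fun a i => lin (G i) (u a)) Q := by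
  have h : (ev u).comp (Ideal_sub G) = ev (fun a i => lin (G i) (u a)) := by
    refine MvPolynomial.algHom_ext fun p => ?_
    rw [AlgHom.comp_apply, Ideal_sub, aeval_X, ev, ev, aeval_X]
    unfold linX lin
    rw [map_sum]
    refine Finset.sum_congr rfl fun i _ => ?_
    rw [map_mul, aeval_X, algHom_C, Algebra.smul_def]
  exact congrArg (fun φ => φ Q) h

private theorem Ideal_lin_lin {R : Type*} [CommRing R] [Algebra ℂ R]
    {G H : Matrix (Fin (n + 1)) (Fin (n + 1)) ℂ} (h : H * G = 1) (x : Fin (n + 1) → R)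
    (i : Fin (n + 1)) : lin (H i) (fun l => lin (G l) x) = x i := by
  unfold lin
  have e1 : ∀ l, H i l • ∑ m, G l m • x m = ∑ m, (H i l * G l m) • x m := by
    intro l
    rw [Finset.smul_sum]
    exact Finset.sum_congr rfl fun m _ => smul_smul _ _ _
  have e2 : ∀ m, ∑ l, (H i l * G l m) • x m = (H * G) i m • x m := by
    intro m
    rw [← Finset.sum_smul, Matrix.mul_apply]
  rw [Finset.sum_congr rfl fun l _ => e1 l, Finset.sum_comm,
    Finset.sum_congr rfl fun m _ => e2 m, h, Finset.sum_eq_single i]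
  · rw [Matrix.one_apply_eq, one_smul]
  · intro b _ hb
    rw [Matrix.one_apply_ne (Ne.symm hb), zero_smul]
  · intro hb
    exact absurd (Finset.mem_univ _) hb

private theorem Ideal_ev_X (Q : MvPolynomial (Fin r × Fin (n + 1)) ℂ) :
    ev (fun a i => X (a, i)) Q = Q := by
  have : (ev fun a i => X (a, i)) = AlgHom.id ℂ (MvPolynomial (Fin r × Fin (n + 1)) ℂ) := by
    refine MvPolynomial.algHom_ext fun p => ?_
    rw [AlgHom.id_apply, ev, aeval_X]
  exact congrArg (fun φ => φ Q) this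

private theorem Ideal_sub_sub {G H : Matrix (Fin (n + 1)) (Fin (n + 1)) ℂ} (h : H * G = 1)
    (Q : MvPolynomial (Fin r × Fin (n + 1)) ℂ) : Ideal_sub G (Ideal_sub H Q) = Q := by
  rw [← Ideal_ev_X (Ideal_sub G (Ideal_sub H Q)), Ideal_ev_sub, Ideal_ev_sub]
  conv_rhs => rw [← Ideal_ev_X Q]
  congr 2
  funext a i
  exact Ideal_lin_lin h _ i

/-- A polynomial vanishing where some variables vanish lies in the ideal of these variables. -/
private theorem Ideal_mem_span {σ : Type} {s : Set σ} {q : MvPolynomial σ ℂ}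
    (h : ∀ p : σ → ℂ, (∀ i ∈ s, p i = 0) → eval p q = 0) :
    ∀ m ∈ q.support, ∃ i ∈ s, (m : σ →₀ ℕ) i ≠ 0 := by
  classical
  rw [← MvPolynomial.mem_ideal_span_X_image]
  set ψ : MvPolynomial σ ℂ →ₐ[ℂ] MvPolynomial σ ℂ := aeval fun i => if i ∈ s then 0 else X i
    with hψ
  set I := Ideal.span (MvPolynomial.X '' s : Set (MvPolynomial σ ℂ)) with hI
  have h1 : (Ideal.Quotient.mkₐ ℂ I).comp ψ = Ideal.Quotient.mkₐ ℂ I := by
    refine MvPolynomial.algHom_ext fun i => ?_
    rw [AlgHom.comp_apply, hψ, aeval_X]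
    split_ifs with hi
    · rw [map_zero]
      symm
      rw [Ideal.Quotient.mkₐ_eq_mk, Ideal.Quotient.eq_zero_iff_mem]
      exact Ideal.subset_span ⟨i, hi, rfl⟩
    · rfl
  have h2 : ψ q = 0 := by
    refine MvPolynomial.funext fun p => ?_
    rw [map_zero, ← h (fun i => if i ∈ s then 0 else p i) fun i hi => if_pos hi, Ideal_eval,
      Ideal_eval, hψ, MvPolynomial.comp_aeval_apply]
    have e2 : (fun i => (aeval p : MvPolynomial σ ℂ →ₐ[ℂ] ℂ) (if i ∈ s then 0 else X i)) =
        fun i => if i ∈ s then 0 else p i := by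
      funext i
      split_ifs with hi
      · rw [map_zero]
      · rw [aeval_X]
    rw [e2]
  have h3 := congrArg (fun φ => φ q) h1
  simp only [AlgHom.comp_apply] at h3
  rw [h2, map_zero] at h3
  have h4 : Ideal.Quotient.mkₐ ℂ I q = 0 := h3.symm
  rw [Ideal.Quotient.mkₐ_eq_mk, Ideal.Quotient.eq_zero_iff_mem] at h4
  exact h4

private theorem Ideal_decomp {B : Type} [Fintype B] [DecidableEq B]
    {f : B → Fin (n + 1)} (hf : Function.Injective f) {q : MvPolynomial (Fin r × Fin (n + 1)) ℂ}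
    (h : ∀ m ∈ q.support, ∀ j : B, ∃ a : Fin r, (m : Fin r × Fin (n + 1) →₀ ℕ) (a, f j) ≠ 0) :
    ∃ R : (B → Fin r) → MvPolynomial (Fin r × Fin (n + 1)) ℂ,
      q = ∑ σ, (∏ j : B, X (σ j, f j)) * R σ := by
  classical
  have h' : ∀ m ∈ q.support, ∃ σ : B → Fin r, ∀ j,
      (m : Fin r × Fin (n + 1) →₀ ℕ) (σ j, f j) ≠ 0 := fun m hm =>
    ⟨fun j => (h m hm j).choose, fun j => (h m hm j).choose_spec⟩
  rcases Finset.eq_empty_or_nonempty q.support with hq | ⟨m₀, hm₀⟩
  · refine ⟨fun _ => 0, ?_⟩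
    rw [MvPolynomial.support_eq_empty] at hq
    rw [hq]
    simp
  have : Nonempty (B → Fin r) := ⟨(h' m₀ hm₀).choose⟩
  choose! τ hτ using h'
  refine ⟨fun σ => ∑ m ∈ q.support with τ m = σ,
    monomial (m - ∑ j : B, Finsupp.single (σ j, f j) 1) (coeff m q), ?_⟩
  have e1 : ∀ σ : B → Fin r, (∏ j : B, X (σ j, f j)) *
      (∑ m ∈ q.support with τ m = σ,
        monomial (m - ∑ j : B, Finsupp.single (σ j, f j) 1) (coeff m q)) =
      ∑ m ∈ q.support with τ m = σ, monomial m (coeff m q) := by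
    intro σ
    rw [Finset.mul_sum]
    refine Finset.sum_congr rfl fun m hm => ?_
    obtain ⟨hm1, hm2⟩ := Finset.mem_filter.1 hm
    have e2 : (∏ j : B, X (σ j, f j) : MvPolynomial (Fin r × Fin (n + 1)) ℂ) =
        monomial (∑ j : B, Finsupp.single (σ j, f j) 1) 1 := by
      rw [MvPolynomial.monomial_sum_one]
      rfl
    have e3 : ∑ j : B, Finsupp.single (σ j, f j) 1 ≤ m := by
      intro p
      rw [Finsupp.finsetSum_apply]
      by_cases hp : ∃ j, (σ j, f j) = p
      · obtain ⟨j, hj⟩ := hp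
        rw [Finset.sum_eq_single j]
        · rw [hj, Finsupp.single_eq_same]
          have := hτ m hm1 j
          rw [hm2, hj] at this
          omega
        · intro j' _ hj'
          refine Finsupp.single_eq_of_ne ?_
          intro h0
          have : f j' = f j := by
            rw [← hj] at h0
            exact (congrArg Prod.snd h0).symm
          exact hj' (hf this)
        · intro hb
          exact absurd (Finset.mem_univ _) hb
      · push Not at hp
        rw [Finset.sum_eq_zero fun j _ => Finsupp.single_eq_of_ne (hp j).symm]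
        exact Nat.zero_le _
    rw [e2, MvPolynomial.monomial_mul, one_mul, add_tsub_cancel_of_le e3]
  simp only [e1]
  rw [Finset.sum_fiberwise, MvPolynomial.support_sum_monomial_coeff]

/-- A good polynomial lies in the product of the ideals generated by the values of independent
linear forms. -/
theorem Good.exists_decomp [DecidableEq ι] (hQ : Good t K Q) {B : Finset ι}
    (hB : LinearIndependent ℂ fun j : B => t j) :
    ∃ R : (B → Fin r) → MvPolynomial (Fin r × Fin (n + 1)) ℂ,
      Q = ∑ σ, (∏ j : B, linX (t j) (σ j)) * R σ := by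
  classical
  obtain ⟨G, H, f, hGH, hHG, hf, hGf⟩ := Ideal_exists_coords hB
  have hvan : ∀ m ∈ (Ideal_sub H Q).support, ∀ j : B, ∃ a : Fin r,
      (m : Fin r × Fin (n + 1) →₀ ℕ) (a, f j) ≠ 0 := by
    intro m hm j
    have h := Ideal_mem_span (s := Set.range fun a : Fin r => (a, f j))
      (q := Ideal_sub H Q) (fun p hp => ?_) m hm
    · obtain ⟨_, ⟨a, rfl⟩, ha⟩ := h
      exact ⟨a, ha⟩
    · have e1 : eval p (Ideal_sub H Q) = ev (fun a i => p (a, i)) (Ideal_sub H Q) :=
        Ideal_eval p _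
      rw [e1, Ideal_ev_sub]
      refine hQ.van j _ fun a => ?_
      rw [← hGf j, Ideal_lin_lin hGH]
      exact hp (a, f j) ⟨a, rfl⟩
  obtain ⟨R, hR⟩ := Ideal_decomp hf hvan
  refine ⟨fun σ => Ideal_sub G (R σ), ?_⟩
  have h := congrArg (Ideal_sub G) hR
  rw [Ideal_sub_sub hHG, map_sum] at h
  rw [h]
  refine Finset.sum_congr rfl fun σ _ => ?_
  rw [map_mul, map_prod]
  congr 1
  refine Finset.prod_congr rfl fun j _ => ?_
  rw [Ideal_sub, aeval_X, hGf]

end Pool.Agent.H39.HC

end
end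

section

/-!
# Valuations and absolute values of good polynomials
-/

open MvPolynomial

noncomputable section

namespace Pool.Agent.H39.HC

variable {ι : Type} {n r K : ℕ} {t : ι → Fin (n + 1) → ℂ}
  {Q : MvPolynomial (Fin r × Fin (n + 1)) ℂ}

private theorem Bounds_ev_linX {R : Type*} [CommRing R] [Algebra ℂ R]
    (u : Fin r → Fin (n + 1) → R) (v : Fin (n + 1) → ℂ) (a : Fin r) :
    ev u (linX v a) = lin v (u a) := by
  unfold ev linX lin
  rw [map_sum]
  refine Finset.sum_congr rfl fun i _ => ?_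
  rw [map_mul, aeval_C, aeval_X, Algebra.smul_def]

private theorem Bounds_ord_nonneg {L : Type*} [Field L] [Algebra ℂ L]
    (v : AddValuation L (WithTop ℤ)) (hv : ∀ c : ℂ, 0 ≤ v (algebraMap ℂ L c))
    {u : Fin r → Fin (n + 1) → L} (hu : ∀ a i, 0 ≤ v (u a i))
    (P : MvPolynomial (Fin r × Fin (n + 1)) ℂ) : 0 ≤ v (ev u P) := by
  induction P using MvPolynomial.induction_on with
  | C c =>
    unfold ev
    rw [aeval_C]
    exact hv c
  | add p q hp hq =>
    rw [map_add]
    exact v.map_le_add hp hq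
  | mul_X p i hp =>
    rw [map_mul, v.map_mul]
    refine add_nonneg hp ?_
    unfold ev
    rw [aeval_X]
    exact hu _ _

private theorem Bounds_ord_prod {L α : Type*} [Field L]
    (v : AddValuation L (WithTop ℤ)) (s : Finset α) (f : α → L) (ε : α → ℤ)
    (h : ∀ j ∈ s, (ε j : WithTop ℤ) ≤ v (f j)) :
    ((∑ j ∈ s, ε j : ℤ) : WithTop ℤ) ≤ v (∏ j ∈ s, f j) := by
  classical
  induction s using Finset.induction_on with
  | empty => simp
  | insert a s ha ih =>
    rw [Finset.sum_insert ha, Finset.prod_insert ha, v.map_mul, WithTop.coe_add]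
    exact add_le_add (h a (Finset.mem_insert_self _ _))
      (ih fun j hj => h j (Finset.mem_insert_of_mem hj))

private theorem Bounds_norm (P : MvPolynomial (Fin r × Fin (n + 1)) ℂ) :
    ∃ C : ℝ, 0 ≤ C ∧ ∀ u : Fin r → Fin (n + 1) → ℂ, (∀ a i, ‖u a i‖ ≤ 1) → ‖ev u P‖ ≤ C := by
  induction P using MvPolynomial.induction_on with
  | C c =>
    refine ⟨‖c‖, norm_nonneg _, fun u _ => ?_⟩
    unfold ev
    rw [aeval_C]
    exact le_rfl
  | add p q hp hq =>
    obtain ⟨C1, h1, H1⟩ := hp
    obtain ⟨C2, h2, H2⟩ := hq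
    refine ⟨C1 + C2, add_nonneg h1 h2, fun u hu => ?_⟩
    rw [map_add]
    exact (norm_add_le _ _).trans (add_le_add (H1 u hu) (H2 u hu))
  | mul_X p i hp =>
    obtain ⟨C1, h1, H1⟩ := hp
    refine ⟨C1, h1, fun u hu => ?_⟩
    rw [map_mul, norm_mul]
    have h2 : ‖ev u (X i)‖ ≤ 1 := by
      unfold ev
      rw [aeval_X]
      exact hu _ _
    calc ‖ev u p‖ * ‖ev u (X i)‖ ≤ C1 * 1 :=
          mul_le_mul (H1 u hu) h2 (norm_nonneg _) h1
      _ = C1 := mul_one _

/-- The valuation of a good polynomial. -/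
theorem Good.le_ord (hQ : Good t K Q) {L : Type*} [Field L] [Algebra ℂ L]
    (v : AddValuation L (WithTop ℤ)) (hv : ∀ c : ℂ, 0 ≤ v (algebraMap ℂ L c)) {B : Finset ι}
    (hB : LinearIndependent ℂ fun j : B => t j) {u : Fin r → Fin (n + 1) → L}
    (hu : ∀ a i, 0 ≤ v (u a i)) {ε : ι → ℤ}
    (hε : ∀ j ∈ B, ∀ a, (ε j : WithTop ℤ) ≤ v (lin (t j) (u a))) :
    ((∑ j ∈ B, ε j : ℤ) : WithTop ℤ) ≤ v (ev u Q) := by
  classical
  obtain ⟨R, hR⟩ := hQ.exists_decomp hB
  rw [hR, map_sum]
  refine v.map_le_sum fun σ _ => ?_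
  rw [map_mul, map_prod, v.map_mul]
  have h1 : ((∑ j ∈ B, ε j : ℤ) : WithTop ℤ) ≤ v (∏ j : B, ev u (linX (t j) (σ j))) := by
    rw [← Finset.sum_coe_sort B ε]
    refine Bounds_ord_prod v Finset.univ _ (fun j : B => ε j) fun j _ => ?_
    rw [Bounds_ev_linX]
    exact hε j j.2 (σ j)
  calc ((∑ j ∈ B, ε j : ℤ) : WithTop ℤ) = ((∑ j ∈ B, ε j : ℤ) : WithTop ℤ) + 0 :=
        (add_zero _).symm
    _ ≤ _ := add_le_add h1 (Bounds_ord_nonneg v hv hu (R σ))

/-- The absolute value of a good polynomial. -/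
theorem Good.norm_bound (hQ : Good t K Q) {B : Finset ι}
    (hB : LinearIndependent ℂ fun j : B => t j) :
    ∃ C : ℝ, 0 ≤ C ∧ ∀ (u : Fin r → Fin (n + 1) → ℂ) (δ : ι → ℝ), (∀ a i, ‖u a i‖ ≤ 1) →
      (∀ j ∈ B, ∀ a, ‖lin (t j) (u a)‖ ≤ δ j) → (∀ j ∈ B, 0 ≤ δ j) →
        ‖ev u Q‖ ≤ C * ∏ j ∈ B, δ j := by
  classical
  obtain ⟨R, hR⟩ := hQ.exists_decomp hB
  choose C hC HC using fun σ => Bounds_norm (R σ)
  refine ⟨∑ σ, C σ, Finset.sum_nonneg fun σ _ => hC σ, fun u δ hu hδ hδ0 => ?_⟩
  rw [hR, map_sum, Finset.sum_mul]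
  refine (norm_sum_le _ _).trans (Finset.sum_le_sum fun σ _ => ?_)
  rw [map_mul, map_prod, norm_mul, norm_prod, mul_comm (C σ)]
  refine mul_le_mul ?_ (HC σ u hu) (norm_nonneg _) (Finset.prod_nonneg hδ0)
  rw [← Finset.prod_coe_sort B δ]
  refine Finset.prod_le_prod (fun _ _ => norm_nonneg _) fun j _ => ?_
  rw [Bounds_ev_linX]
  exact hδ j j.2 (σ j)

end Pool.Agent.H39.HC

end
end

section

/-!
# Project DG, E2: extension of derivations to the algebraic closure

A derivation of a field `K` of characteristic `0` extends (uniquely) to an algebraic extension (e.g. `Algebra.FormallyEtale` and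
`KaehlerDifferential.tensorKaehlerEquivOfFormallyEtale`, or `Differential` of algebraic extensions in Mathlib). Constants: let `x ∈ L` with
`D' i x = 0` for all `i`, and `f = X ^ s + ∑_{k < s} c_k X ^ k` its minimal polynomial over `K`. Then `0 = D' i (f (x)) = ∑_{k < s} D i (c_k) x ^ k`, so
`D i (c_k) = 0` for all `i, k` (degree less than `s`), so `c_k ∈ ℂ`, and `x` is algebraic over `ℂ`, so `x ∈ ℂ`.
-/

noncomputable section

namespace Pool.Agent.H5.DG

theorem exists_derivation_ext {K L : Type} [Field K] [Field L] [Algebra ℂ K] [Algebra ℂ L]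
    [Algebra K L] [IsScalarTower ℂ K L] [Algebra.IsAlgebraic K L] (D : Derivation ℂ K K) :
    ∃ D' : Derivation ℂ L L, ∀ x : K, D' (algebraMap K L x) = algebraMap K L (D x) := by
  have : CharZero K := charZero_of_injective_algebraMap (algebraMap ℂ K).injective
  have : Algebra.FormallyEtale K L := Algebra.FormallyEtale.of_isSeparable K L
  let l : Ω[K⁄ℂ] →ₗ[K] L := (Algebra.linearMap K L).comp D.liftKaehlerDifferential
  let e := KaehlerDifferential.tensorKaehlerEquivOfFormallyEtale ℂ K L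
  let l' : Ω[L⁄ℂ] →ₗ[L] L := (l.liftBaseChange L).comp e.symm.toLinearMap
  refine ⟨l'.compDer (KaehlerDifferential.D ℂ L), fun x => ?_⟩
  change l.liftBaseChange L (e.symm (KaehlerDifferential.D ℂ L (algebraMap K L x))) = _
  rw [KaehlerDifferential.tensorKaehlerEquivOfFormallyEtale_symm_D_algebraMap,
    LinearMap.liftBaseChange_tmul, one_smul]
  change algebraMap K L (D.liftKaehlerDifferential (KaehlerDifferential.D ℂ K x)) = _
  rw [Derivation.liftKaehlerDifferential_comp_D]

private lemma DerExt_aeval {K L : Type} [Field K] [Field L] [Algebra ℂ K] [Algebra ℂ L]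
    [Algebra K L] [IsScalarTower ℂ K L] (D : Derivation ℂ K K) (D' : Derivation ℂ L L)
    (h : ∀ x : K, D' (algebraMap K L x) = algebraMap K L (D x)) (x : L) (hx : D' x = 0)
    (p : Polynomial K) :
    D' (Polynomial.aeval x p) =
      Polynomial.aeval x (∑ k ∈ Finset.range (p.natDegree + 1),
        Polynomial.monomial k (D (p.coeff k))) := by
  have hpow : ∀ k : ℕ, D' (x ^ k) = 0 := by
    intro k
    rw [Derivation.leibniz_pow, hx, smul_zero, smul_zero]
  rw [Polynomial.aeval_eq_sum_range, map_sum, map_sum]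
  apply Finset.sum_congr rfl
  intro k _
  rw [Polynomial.aeval_monomial, Algebra.smul_def, Derivation.leibniz, hpow, smul_zero, zero_add, h,
    smul_eq_mul, mul_comm]

theorem exists_derivations_ext {K L : Type} [Field K] [Field L] [Algebra ℂ K] [Algebra ℂ L]
    [Algebra K L] [IsScalarTower ℂ K L] [Algebra.IsAlgebraic K L] {m : ℕ}
    (D : Fin m → Derivation ℂ K K)
    (hD : ∀ f : K, (∀ i, D i f = 0) → ∃ c : ℂ, f = algebraMap ℂ K c) :
    ∃ D' : Fin m → Derivation ℂ L L,
      (∀ i (x : K), D' i (algebraMap K L x) = algebraMap K L (D i x)) ∧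
      ∀ f : L, (∀ i, D' i f = 0) → ∃ c : ℂ, f = algebraMap ℂ L c := by
  choose D' hD' using fun i => exists_derivation_ext (L := L) (D i)
  refine ⟨D', hD', fun x hx => ?_⟩
  have hint : IsIntegral K x := Algebra.IsIntegral.isIntegral x
  have hmon := minpoly.monic hint
  have h1 : ∀ i k, D i ((minpoly K x).coeff k) = 0 := by
    intro i
    set q : Polynomial K := ∑ k ∈ Finset.range ((minpoly K x).natDegree + 1),
      Polynomial.monomial k (D i ((minpoly K x).coeff k)) with hq
    have hcoeff : ∀ k, q.coeff k = D i ((minpoly K x).coeff k) := by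
      intro k
      rw [hq, Polynomial.finsetSum_coeff]
      simp only [Polynomial.coeff_monomial]
      rw [Finset.sum_ite_eq']
      split_ifs with hk
      · rfl
      · rw [Finset.mem_range, not_lt] at hk
        rw [Polynomial.coeff_eq_zero_of_natDegree_lt (by omega), map_zero]
    have h2 : Polynomial.aeval x q = 0 := by
      rw [hq, ← DerExt_aeval (D i) (D' i) (hD' i) x (hx i), minpoly.aeval, map_zero]
    have h3 : q = 0 := by
      by_contra hne
      have h4 := minpoly.degree_le_of_ne_zero K x hne h2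
      have h5 : q.natDegree < (minpoly K x).natDegree := by
        have h6 : q.coeff (minpoly K x).natDegree = 0 := by
          rw [hcoeff, hmon.coeff_natDegree, Derivation.map_one_eq_zero]
        have h7 : q.natDegree ≤ (minpoly K x).natDegree := by
          rw [Polynomial.natDegree_le_iff_coeff_eq_zero]
          intro k hk
          rw [hcoeff, Polynomial.coeff_eq_zero_of_natDegree_lt hk, map_zero]
        rcases h7.lt_or_eq with h8 | h8
        · exact h8
        · exfalso
          rw [← h8] at h6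
          exact hne (Polynomial.leadingCoeff_eq_zero.1 h6)
      have h6 := Polynomial.natDegree_le_natDegree h4
      omega
    intro k
    rw [← hcoeff, h3, Polynomial.coeff_zero]
  have h2 : minpoly K x ∈ Polynomial.lifts (algebraMap ℂ K) := by
    rw [Polynomial.lifts_iff_coeff_lifts]
    intro k
    obtain ⟨c, hc⟩ := hD _ fun i => h1 i k
    exact ⟨c, hc.symm⟩
  obtain ⟨g, hg1, _, hg2⟩ := Polynomial.lifts_and_natDegree_eq_and_monic h2 hmon
  have h3 : IsIntegral ℂ x := by
    refine ⟨g, hg2, ?_⟩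
    rw [← Polynomial.aeval_def, ← Polynomial.aeval_map_algebraMap K x g, hg1, minpoly.aeval]
  have h4 := IsAlgClosed.degree_eq_one_of_irreducible ℂ (minpoly.irreducible h3)
  obtain ⟨c, hc⟩ := minpoly.mem_range_of_degree_eq_one ℂ x h4
  exact ⟨c, hc.symm⟩

end Pool.Agent.H5.DG

end
end

section

/-!
# Project DG, D2: analytic root functions

Implicit function theorem for `F (z, u) = ∑ i ≤ κ, c i z * u ^ i` at `(z₀, u₀)`: e.g. the inverse function theorem for `(z, u) ↦ (z, F (z, u))`
(`ContDiffAt.toOpenPartialHomeomorph`, `ContDiffAt.to_localInverse`), or Mathlib's implicit function theorem for analytic / `C^n` functions;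
a function `ℂ → ℂ` that is `C^1` at `z₀` over `ℂ` is analytic at `z₀` (differentiable in a neighbourhood).
-/

open Filter Topology

noncomputable section

namespace Pool.Agent.H5.DG

theorem exists_root_fun {κ : ℕ} (c : ℕ → ℂ → ℂ) {z₀ u₀ : ℂ} (hc : ∀ i, AnalyticAt ℂ (c i) z₀)
    (h0 : ∑ i ∈ Finset.range (κ + 1), c i z₀ * u₀ ^ i = 0)
    (h1 : ∑ i ∈ Finset.range (κ + 1), c i z₀ * (i * u₀ ^ (i - 1)) ≠ 0) :
    ∃ u : ℂ → ℂ, AnalyticAt ℂ u z₀ ∧ u z₀ = u₀ ∧
      ∀ᶠ z in 𝓝 z₀, ∑ i ∈ Finset.range (κ + 1), c i z * u z ^ i = 0 := by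
  set f : ℂ × ℂ → ℂ := fun p => ∑ i ∈ Finset.range (κ + 1), c i p.1 * p.2 ^ i with hf
  set u : ℂ × ℂ := (z₀, u₀) with hu
  have hfa : AnalyticAt ℂ f u := by
    refine Finset.analyticAt_fun_sum _ fun i _ => ?_
    refine AnalyticAt.mul ?_ (analyticAt_snd.pow i)
    exact AnalyticAt.comp (g := c i) (f := Prod.fst) (hc i) analyticAt_fst
  have hcd : ContDiffAt ℂ ⊤ f u := hfa.contDiffAt
  have hn : (⊤ : WithTop ℕ∞) ≠ 0 := by simp
  have hd : HasFDerivAt f (fderiv ℂ f u) u := hfa.differentiableAt.hasFDerivAt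
  have hd2 : HasFDerivAt (fun y : ℂ => f (z₀, y)) (fderiv ℂ f u ∘L .inr ℂ ℂ ℂ) u₀ := by
    have := HasFDerivAt.comp (x := u₀) (g := f) (f := fun y : ℂ => (z₀, y)) hd
      (hasFDerivAt_prodMk_right z₀ u₀)
    exact this
  have hd3 : HasDerivAt (fun y : ℂ => f (z₀, y))
      (∑ i ∈ Finset.range (κ + 1), c i z₀ * (i * u₀ ^ (i - 1))) u₀ := by
    refine HasDerivAt.fun_sum fun i _ => ?_
    exact (hasDerivAt_pow i u₀).const_mul (c i z₀)
  have hinv : (fderiv ℂ f u ∘L .inr ℂ ℂ ℂ).IsInvertible := by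
    have heq := hd2.unique hd3.hasFDerivAt
    rw [heq]
    refine ⟨ContinuousLinearEquiv.unitsEquivAut ℂ (Units.mk0 _ h1), ?_⟩
    ext
    simp
  refine ⟨hcd.implicitFunction hn hinv, ?_, ?_, ?_⟩
  · have := hcd.contDiffAt_implicitFunction hn hinv
    exact this.analyticAt
  · exact hcd.implicitFunction_apply_self hn hinv
  · have := hcd.eventually_apply_implicitFunction hn hinv
    filter_upwards [this] with z hz
    have h2 : f u = 0 := h0
    rw [h2] at hz
    exact hz

end Pool.Agent.H5.DG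

end
end

section

/-!
# Project DG2, module Omega: the algebraic closure of `ℂ(u)`

`exists_emb`: `u` is transcendental over `ℂ` (`ℂ` is algebraically closed), so `Polynomial.aeval u` is injective and extends to
`RatFunc ℂ →ₐ[ℂ] L` (`RatFunc.liftAlgHom`) and, `L` being algebraically closed, to `Omg` (`IsAlgClosed.lift` with the induced
`RatFunc ℂ`-algebra structure on `L`).
`exists_der`: the derivation `d/dX` of `RatFunc ℂ` (extend `Polynomial.derivative`; e.g. `Derivation` lifts to localizations, or use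
`KaehlerDifferential`) extended by `exists_derivation_ext` (module DerExt).
`der_comp` is not needed.
-/

open MvPolynomial

noncomputable section

namespace Pool.Agent.H5.DG

/-- The algebraic closure of the field of rational functions. -/
abbrev Omg : Type := AlgebraicClosure (RatFunc ℂ)

/-- The variable. -/
def uu : Omg := algebraMap (RatFunc ℂ) Omg RatFunc.X

private theorem Omega_aeval (p : Polynomial ℂ) :
    Polynomial.aeval uu p = algebraMap (RatFunc ℂ) Omg (algebraMap (Polynomial ℂ) (RatFunc ℂ) p) := by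
  unfold uu
  rw [Polynomial.aeval_algebraMap_apply]
  congr 1
  induction p using Polynomial.induction_on' with
  | add p q hp hq => rw [map_add, map_add, hp, hq]
  | monomial n a =>
    rw [Polynomial.aeval_monomial, ← Polynomial.C_mul_X_pow_eq_monomial, map_mul, map_pow,
      RatFunc.algebraMap_X, RatFunc.algebraMap_C, ← RatFunc.algebraMap_eq_C]

private theorem Omega_der : ∃ D : Derivation ℂ (RatFunc ℂ) (RatFunc ℂ), D RatFunc.X = 1 := by
  have : Algebra.FormallyEtale (Polynomial ℂ) (RatFunc ℂ) :=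
    Algebra.FormallyEtale.of_isLocalization (nonZeroDivisors (Polynomial ℂ))
  let D : Derivation ℂ (Polynomial ℂ) (Polynomial ℂ) := Polynomial.derivative'
  let l : Ω[Polynomial ℂ⁄ℂ] →ₗ[Polynomial ℂ] (RatFunc ℂ) :=
    (Algebra.linearMap (Polynomial ℂ) (RatFunc ℂ)).comp D.liftKaehlerDifferential
  let e := KaehlerDifferential.tensorKaehlerEquivOfFormallyEtale ℂ (Polynomial ℂ) (RatFunc ℂ)
  let l' : Ω[RatFunc ℂ⁄ℂ] →ₗ[RatFunc ℂ] (RatFunc ℂ) :=
    (l.liftBaseChange (RatFunc ℂ)).comp e.symm.toLinearMap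
  refine ⟨l'.compDer (KaehlerDifferential.D ℂ (RatFunc ℂ)), ?_⟩
  rw [← RatFunc.algebraMap_X]
  change l.liftBaseChange (RatFunc ℂ) (e.symm (KaehlerDifferential.D ℂ (RatFunc ℂ)
    (algebraMap (Polynomial ℂ) (RatFunc ℂ) Polynomial.X))) = _
  rw [KaehlerDifferential.tensorKaehlerEquivOfFormallyEtale_symm_D_algebraMap,
    LinearMap.liftBaseChange_tmul, one_smul]
  change algebraMap (Polynomial ℂ) (RatFunc ℂ)
    (D.liftKaehlerDifferential (KaehlerDifferential.D ℂ (Polynomial ℂ) Polynomial.X)) = _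
  rw [Derivation.liftKaehlerDifferential_comp_D]
  change algebraMap (Polynomial ℂ) (RatFunc ℂ) (Polynomial.derivative Polynomial.X) = _
  rw [Polynomial.derivative_X, map_one]

theorem exists_emb {L : Type} [Field L] [Algebra ℂ L] [IsAlgClosed L] (u : L)
    (hu : ∀ c : ℂ, u ≠ algebraMap ℂ L c) : ∃ j : Omg →ₐ[ℂ] L, j uu = u := by
  have htr : Transcendental ℂ u := by
    intro hal
    have h1 : IsIntegral ℂ u := hal.isIntegral
    have h2 := IsAlgClosed.degree_eq_one_of_irreducible ℂ (minpoly.irreducible h1)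
    obtain ⟨c, hc⟩ := minpoly.mem_range_of_degree_eq_one ℂ u h2
    exact hu c hc.symm
  have hinj : Function.Injective (Polynomial.aeval u : Polynomial ℂ →ₐ[ℂ] L) :=
    transcendental_iff_injective.1 htr
  let φ : RatFunc ℂ →ₐ[ℂ] L := RatFunc.liftAlgHom (Polynomial.aeval u)
    (nonZeroDivisors_le_comap_nonZeroDivisors_of_injective _ hinj)
  let _ : Algebra (RatFunc ℂ) L := φ.toRingHom.toAlgebra
  have : IsScalarTower ℂ (RatFunc ℂ) L := by
    refine IsScalarTower.of_algebraMap_eq fun c => ?_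
    exact (φ.commutes c).symm
  let j : Omg →ₐ[RatFunc ℂ] L := IsAlgClosed.lift
  refine ⟨j.restrictScalars ℂ, ?_⟩
  change j (algebraMap (RatFunc ℂ) Omg RatFunc.X) = u
  rw [j.commutes]
  change φ RatFunc.X = u
  have h3 : φ (algebraMap (Polynomial ℂ) (RatFunc ℂ) Polynomial.X /
      algebraMap (Polynomial ℂ) (RatFunc ℂ) 1) = u := by
    refine (RatFunc.liftAlgHom_apply_div (Polynomial.aeval u)
      (nonZeroDivisors_le_comap_nonZeroDivisors_of_injective _ hinj) Polynomial.X 1).trans ?_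
    rw [Polynomial.aeval_X, map_one, div_one]
  rw [RatFunc.algebraMap_X, map_one, div_one] at h3
  exact h3

theorem exists_der : ∃ d : Derivation ℂ Omg Omg, d uu = 1 := by
  obtain ⟨D, hD⟩ := Omega_der
  obtain ⟨D', hD'⟩ := exists_derivation_ext (L := Omg) D
  refine ⟨D', ?_⟩
  unfold uu
  rw [hD', hD, map_one]

/-- Elements of `Omg` are algebraic over `ℂ[u]`. -/
theorem omg_algebraic (x : Omg) : ∃ A : Polynomial (Polynomial ℂ), A ≠ 0 ∧
    (A.map (Polynomial.aeval uu : Polynomial ℂ →ₐ[ℂ] Omg).toRingHom).eval x = 0 := by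
  have h1 : IsAlgebraic (RatFunc ℂ) x := Algebra.IsAlgebraic.isAlgebraic x
  have h2 : IsAlgebraic (Polynomial ℂ) x :=
    (IsFractionRing.isAlgebraic_iff (Polynomial ℂ) (RatFunc ℂ) Omg).2 h1
  obtain ⟨A, hA, hAx⟩ := h2
  refine ⟨A, hA, ?_⟩
  have h3 : (Polynomial.aeval uu : Polynomial ℂ →ₐ[ℂ] Omg).toRingHom =
      algebraMap (Polynomial ℂ) Omg := by
    refine RingHom.ext fun p => ?_
    refine (Omega_aeval p).trans ?_
    rw [IsScalarTower.algebraMap_apply (Polynomial ℂ) (RatFunc ℂ) Omg]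
  rw [h3, Polynomial.eval_map_algebraMap]
  exact hAx

theorem aeval_uu_injective :
    Function.Injective (Polynomial.aeval uu : Polynomial ℂ →ₐ[ℂ] Omg) := by
  intro p q h
  rw [Omega_aeval, Omega_aeval] at h
  exact RatFunc.algebraMap_injective ℂ ((algebraMap (RatFunc ℂ) Omg).injective h)

end Pool.Agent.H5.DG

end
end
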