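import Pool.Agent.H94.DG.M05

/-! The parts of this file: H17.BrodyLimit, H17LG.Variety, H5.DG.CoverDefs, H62.FC.Special. -/

section

/-!
# Limits of holomorphic curves in families of projective algebraic sets
-/

open Topology Filter

namespace Pool.Agent.H17

variable {N : ℕ}

/-- The common zero locus of a family of forms. -/
def zeroLocus {κ : Type} (G : κ → MvPolynomial (Fin (N + 1)) ℂ) : Set (PN N) :=
  {x | ∀ l, VanishesAt (G l) x}

lemma exists_norm_eq (v : Fin (N + 1) → ℂ) : ∃ i, ‖v i‖ = ‖v‖ := by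
  obtain ⟨j, -, hj⟩ := Finset.exists_mem_eq_sup (Finset.univ : Finset (Fin (N + 1)))
    Finset.univ_nonempty (fun j => ‖v j‖₊)
  exact ⟨j, by rw [Pi.norm_def, hj]; rfl⟩

lemma vanishesAt_mk_iff {P : MvPolynomial (Fin (N + 1)) ℂ} {d : ℕ} (hP : P.IsHomogeneous d)
    (v : Fin (N + 1) → ℂ) (hv : v ≠ 0) :
    VanishesAt P (Projectivization.mk ℂ v hv) ↔ MvPolynomial.eval v P = 0 := by
  obtain ⟨a, ha, h1⟩ := exists_smul_rep v hv
  unfold VanishesAt
  have h2 : (a • v) = fun k => a * v k := by
    funext k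
    simp
  rw [h1, h2, eval_smul_of_isHomogeneous hP]
  constructor
  · intro h
    exact (mul_eq_zero.mp h).resolve_left (pow_ne_zero _ ha)
  · intro h
    rw [h, mul_zero]

end Pool.Agent.H17

end

section

/-!
# Varieties of log general type, in terms of their function field

The definitions of `Pool.Agent.H17GT.Defs` and `Pool.Agent.H17LG.Defs` in terms of the definitions of
`Pool.Agent.H23.Fano` (rational forms `Form K k`, regular forms, prime divisors).
-/

open MvPolynomial
open Pool.Agent.H23.Fano (Form regularForms PrimeDivisorOver)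
open Pool.Agent.H17GT (coordFun functionField)

noncomputable section

namespace Pool.Agent.H17LG.Variety

section FunctionField

variable {K : Type} [Field K] [Algebra ℂ K] {k : ℕ}

/-- Let `K` be the function field of a variety of dimension `k`, let `ω` be a rational `k`-form and
`f ∈ K`. The rational `m`-canonical form `f ω^m` has a pole of order at most `p` along the prime
divisor `E`: one has `ω = g η` with `η` regular along `E` and `f g ^ m` has a pole of order at
most `p` along `E`. -/
def PoleAtMost (p : ℕ) (E : PrimeDivisorOver K k) (m : ℕ) (f : K) (ω : Form K k) : Prop :=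
  ∃ (g : K) (η : Form K k), η ∈ regularForms k E.localRing ∧ ω = g • η ∧
    0 ≤ E.ord (f * g ^ m) + p

/-- Let `U` be a variety of dimension `k` with function field `K`, and let `B` be the set of the
prime divisors over `K` whose centre lies in the boundary of a compactification of `U`. The variety
`U` is of log general type: for some `m ≥ 1` there are `m`-canonical forms `f₀ ω^m, …, f_r ω^m`,
regular along all prime divisors outside `B`, with poles of order at most `m` along the prime
divisors in `B`, which define a generically finite rational map, that is, `K` is algebraic over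
`ℂ(f₁/f₀, …, f_r/f₀)`. -/
def IsLogGeneralType (B : PrimeDivisorOver K k → Prop) : Prop :=
  ∃ m : ℕ, 1 ≤ m ∧ ∃ ω : Form K k, ω ≠ 0 ∧ ∃ (r : ℕ) (f : Fin (r + 1) → K), f 0 ≠ 0 ∧
    (∀ i E, (¬ B E → PoleAtMost 0 E m (f i) ω) ∧ (B E → PoleAtMost m E m (f i) ω)) ∧
    Algebra.IsAlgebraic (IntermediateField.adjoin ℂ (Set.range fun i => f i / f 0)) K

end FunctionField

section Subvariety

variable {N : ℕ} (P : Ideal (MvPolynomial (Fin (N + 1)) ℂ)) [P.IsPrime]

/-- The function field of the closed subvariety of `ℙ^N` given by `P`. -/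
def FunField : Type := functionField P

instance : Field (FunField P) := (inferInstance : Field (functionField P))

instance : Algebra ℂ (FunField P) := (inferInstance : Algebra ℂ (functionField P))

/-- The function `x_i / x_j` on the subvariety of `ℙ^N` given by `P`. -/
def ratio (i j : Fin (N + 1)) : FunField P :=
  (⟨coordFun P i / coordFun P j, IntermediateField.subset_adjoin _ _ ⟨i, j, rfl⟩⟩ :
    functionField P)

end Subvariety

end Pool.Agent.H17LG.Variety

end
end

section

/-!
# Project DG, module CoverDefs: finite covers of projective space, definitions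

`X ⊆ ℙ^Nn` is given by a homogeneous prime ideal `I`; forms `F 0, …, F (n + 1)` of degree `e`
without common zero on `X` define a finite morphism `X → ℙ^(n + 1)`.
-/

open MvPolynomial
open Pool.Agent.H17 (PN VanishesAt)
open Pool.Agent.H17GT (coordFun)
open Pool.Agent.H17LG.Variety (FunField ratio)
open Pool.Agent.H23.Fano (PrimeDivisorOver)

noncomputable section

namespace Pool.Agent.H5.DG

variable {Nn : ℕ}

/-- The ideal `I` is homogeneous. -/
def Homog (I : Ideal (MvPolynomial (Fin (Nn + 1)) ℂ)) : Prop :=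
  ∀ p ∈ I, ∀ k, homogeneousComponent k p ∈ I

/-- The form `L` vanishes with multiplicity at least two on `X`: for all `i` some `x_i ^ k L` is, on
`X`, a sum of products of two polynomials which vanish on `X ∩ {L = 0}`. -/
def Ram (I : Ideal (MvPolynomial (Fin (Nn + 1)) ℂ)) (L : MvPolynomial (Fin (Nn + 1)) ℂ) : Prop :=
  ∀ i, ∃ k : ℕ, X i ^ k * L ∈ (Ideal.radical (Ideal.span {L} ⊔ I)) ^ 2 ⊔ I

/-- The form `L` vanishes with multiplicity at least `q` on `X`: for all `i` some `x_i ^ k L` is, on
`X`, a sum of products of `q` polynomials which vanish on `X ∩ {L = 0}`. -/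
def RamM (q : ℕ) (I : Ideal (MvPolynomial (Fin (Nn + 1)) ℂ))
    (L : MvPolynomial (Fin (Nn + 1)) ℂ) : Prop :=
  ∀ i, ∃ k : ℕ, X i ^ k * L ∈ (Ideal.radical (Ideal.span {L} ⊔ I)) ^ q ⊔ I

/-- The linear combination of the forms `F a`. -/
def comb {m : ℕ} (l : Fin m → ℂ) (F : Fin m → MvPolynomial (Fin (Nn + 1)) ℂ) :
    MvPolynomial (Fin (Nn + 1)) ℂ :=
  ∑ a, C (l a) * F a

/-- The forms `F a` of degree `e` have no common zero on `X`. -/
structure BaseFree {m : ℕ} (I : Ideal (MvPolynomial (Fin (Nn + 1)) ℂ)) (e : ℕ)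
    (F : Fin m → MvPolynomial (Fin (Nn + 1)) ℂ) : Prop where
  pos : 1 ≤ e
  hom : ∀ a, (F a).IsHomogeneous e
  base : ∀ i, ∃ k : ℕ, X i ^ k ∈ Ideal.span (Set.range F) ⊔ I

/-- The points of `X` where none of the forms `H i`, `i ∈ O`, vanishes. -/
def coverLocus {m : ℕ} (I : Ideal (MvPolynomial (Fin (Nn + 1)) ℂ)) (O : Finset (Fin m))
    (H : Fin m → MvPolynomial (Fin (Nn + 1)) ℂ) : Set (PN Nn) :=
  {x | (∀ Q ∈ I, ∀ k, Q.IsHomogeneous k → VanishesAt Q x) ∧ ∀ i ∈ O, ¬ VanishesAt (H i) x}

/-- The centre of the prime divisor `E` on the closed subvariety given by `P` lies in the union of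
the hypersurfaces `H i = 0`, `i ∈ O`. -/
def OnForms {m : ℕ} (P : Ideal (MvPolynomial (Fin (Nn + 1)) ℂ)) [P.IsPrime] (O : Finset (Fin m))
    (H : Fin m → MvPolynomial (Fin (Nn + 1)) ℂ) {w : ℕ} (E : PrimeDivisorOver (FunField P) w) :
    Prop :=
  ∃ j, coordFun P j ≠ 0 ∧ (∀ i, 0 ≤ E.ord (ratio P i j)) ∧
    ∃ i ∈ O, 0 < E.ord (aeval (fun i' => ratio P i' j) (H i))

theorem RamM.mono {q : ℕ} {I I' : Ideal (MvPolynomial (Fin (Nn + 1)) ℂ)} (h : I ≤ I')
    {L : MvPolynomial (Fin (Nn + 1)) ℂ} (hL : RamM q I L) : RamM q I' L := by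
  intro i
  obtain ⟨k, hk⟩ := hL i
  refine ⟨k, ?_⟩
  have h1 : (Ideal.radical (Ideal.span {L} ⊔ I)) ^ q ⊔ I ≤
      (Ideal.radical (Ideal.span {L} ⊔ I')) ^ q ⊔ I' :=
    sup_le_sup (Ideal.pow_right_mono (Ideal.radical_mono (sup_le_sup_left h _)) q) h
  exact h1 hk

/-- Larger multiplicities. -/
theorem RamM.of_le {q q' : ℕ} (hq : q ≤ q') {I : Ideal (MvPolynomial (Fin (Nn + 1)) ℂ)}
    {L : MvPolynomial (Fin (Nn + 1)) ℂ} (hL : RamM q' I L) : RamM q I L := by
  intro i
  obtain ⟨k, hk⟩ := hL i
  exact ⟨k, sup_le_sup_right (Ideal.pow_le_pow_right hq) I hk⟩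

theorem BaseFree.mono {m : ℕ} {I I' : Ideal (MvPolynomial (Fin (Nn + 1)) ℂ)} (h : I ≤ I') {e : ℕ}
    {F : Fin m → MvPolynomial (Fin (Nn + 1)) ℂ} (hF : BaseFree I e F) : BaseFree I' e F where
  pos := hF.pos
  hom := hF.hom
  base i := by
    obtain ⟨k, hk⟩ := hF.base i
    exact ⟨k, sup_le_sup_left h _ hk⟩

theorem comb_isHomogeneous {m e : ℕ} (l : Fin m → ℂ) {F : Fin m → MvPolynomial (Fin (Nn + 1)) ℂ}
    (hF : ∀ a, (F a).IsHomogeneous e) : (comb l F).IsHomogeneous e := by
  refine MvPolynomial.IsHomogeneous.sum _ _ _ fun a _ => ?_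
  have := (MvPolynomial.isHomogeneous_C (Fin (Nn + 1)) (l a)).mul (hF a)
  rwa [zero_add] at this

end Pool.Agent.H5.DG

end
end

section

/-!
# Fermat covers: the special set
-/

open MvPolynomial Topology Filter
open Pool.Agent.H17 (PN VanishesAt ZariskiClosedIn HolomorphicInto)
open Pool.Agent.H66.Lang (IsAnalyticSubset HolomorphicIntoPN line line_zero line_one analyticAt_line)
open Pool.Agent.H17GT (coordFun functionField)
open Pool.Agent.H17LG.Variety (FunField PoleAtMost)
open Pool.Agent.H23.Fano (Form)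

noncomputable section

namespace Pool.Agent.H62.FC

variable {N : ℕ} {κ : Type} {A : κ → MvPolynomial (Fin (N + 1)) ℂ} {e : κ → ℕ}
  {O : Finset (Fin (N + 1))} {P : Ideal (MvPolynomial (Fin (N + 1)) ℂ)}

/-- A subset of `ℂ^g` has complex codimension at least two: it is empty or its Hausdorff dimension
is at most `2 g - 4`. -/
def CodimAtLeastTwo {g : ℕ} (Z : Set (Fin g → ℂ)) : Prop :=
  Z = ∅ ∨ dimH Z + 4 ≤ 2 * (g : ENNReal)

/-- A meromorphic map from a quotient `ℂ^g / Λ` (`g ≥ 1`, `Λ` a discrete subgroup) to `ℙ^N`: a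
`Λ`-invariant map `f`, holomorphic outside a `Λ`-invariant analytic subset `Z` of `ℂ^g` of
codimension at least two.  A rational map from a semi-abelian variety `A = ℂ^g / Λ` to `ℙ^N` which
is a morphism on a Zariski open subset `A₀` of `A` with complement of codimension at least two
gives such a map, with `Z` the inverse image of the complement of `A₀`. -/
structure SemiAbelianMap (N : ℕ) where
  /-- the dimension of the source -/
  g : ℕ
  one_le : 1 ≤ g
  /-- the period group -/
  Λ : AddSubgroup (Fin g → ℂ)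
  discrete : DiscreteTopology Λ
  /-- the exceptional set -/
  Z : Set (Fin g → ℂ)
  analytic : IsAnalyticSubset Z
  codim : CodimAtLeastTwo Z
  /-- the map -/
  f : (Fin g → ℂ) → PN N
  holomorphic : HolomorphicIntoPN f Zᶜ
  periodic_Z : ∀ a ∈ Λ, ∀ p, p + a ∈ Z ↔ p ∈ Z
  periodic_f : ∀ a ∈ Λ, ∀ p ∉ Z, f (p + a) = f p

/-- The image of a map. -/
def SemiAbelianMap.image (F : SemiAbelianMap N) : Set (PN N) := F.f '' F.Zᶜ

/-- The union of the images of all non-constant maps into `X`. -/
def unionImages (X : Set (PN N)) : Set (PN N) :=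
  {x | ∃ F : SemiAbelianMap N, F.image ⊆ X ∧ (∃ y ∈ F.image, ∃ z ∈ F.image, y ≠ z) ∧ x ∈ F.image}

/-- The special set of `X`: the Zariski closure in `X` of the union of the images of all
non-constant maps from quotients `ℂ^g / Λ` to `X`. -/
def specialSet (X : Set (PN N)) : Set (PN N) := closureIn X (unionImages X)

/-- `K` is the function field of a variety of dimension `k` of general type: for some `m ≥ 1` there
are `m`-canonical forms `f₀ ω^m, …, f_r ω^m`, regular along all prime divisors over `K`, which define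
a generically finite rational map, that is, `K` is algebraic over `ℂ(f₁/f₀, …, f_r/f₀)`. -/
def IsGeneralType (K : Type) [Field K] [Algebra ℂ K] (k : ℕ) : Prop :=
  ∃ m : ℕ, 1 ≤ m ∧ ∃ ω : Form K k, ω ≠ 0 ∧ ∃ (r : ℕ) (f : Fin (r + 1) → K), f 0 ≠ 0 ∧
    (∀ i E, PoleAtMost 0 E m (f i) ω) ∧
    Algebra.IsAlgebraic (IntermediateField.adjoin ℂ (Set.range fun i => f i / f 0)) K

end Pool.Agent.H62.FC

end
end
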