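import Mathlib

/-! The parts of this file: H17.AhlforsCore, H17.AhlforsGlobal, H17.GlobalLift, H17.LinePoly, H17.WeightedVar, H62.FC.Avg, H62.FC.Calculus, H92.GGL.CasWei, H92.GT.Index, H99.Cover.Basic. -/

section

/-!
# The pointwise inequality behind the Ahlfors–Schwarz lemma

If `Re H + α log ∑ exp (Re Lᵢ) + β log (R² - |z|²)` has a local maximum at `z₀`, with `H`, `Lᵢ`
holomorphic, then the curvature term of the middle summand is bounded by that of the last one.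
-/

open Topology Filter Complex ComplexConjugate

namespace Pool.Agent.H17

/-- Second derivative test at a local maximum. -/
lemma second_deriv_nonpos {f f' : ℝ → ℝ} {c : ℝ} (h1 : ∀ᶠ s in 𝓝 (0 : ℝ), HasDerivAt f (f' s) s)
    (h2 : HasDerivAt f' c 0) (hmax : IsLocalMax f 0) : c ≤ 0 := by
  by_contra hc
  push Not at hc
  have hd0 : f' 0 = 0 := hmax.hasDerivAt_eq_zero h1.self_of_nhds
  have hde : deriv f =ᶠ[𝓝 0] f' := h1.mono fun s hs => hs.deriv
  have hdd : deriv (deriv f) 0 = c := by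
    rw [hde.deriv_eq, h2.deriv]
  have hmin : IsLocalMin f 0 := isLocalMin_of_deriv_deriv_pos (by rw [hdd]; exact hc)
    (by rw [h1.self_of_nhds.deriv, hd0]) h1.self_of_nhds.continuousAt
  have hconst : f =ᶠ[𝓝 0] fun _ => f 0 := by
    filter_upwards [hmin, hmax] with s h3 h4
    exact le_antisymm h4 h3
  have h5 : deriv f =ᶠ[𝓝 0] fun _ => (0 : ℝ) := by
    have := hconst.deriv
    refine this.trans ?_
    refine Eventually.of_forall fun s => ?_
    simp
  have h6 : deriv (deriv f) 0 = 0 := by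
    rw [h5.deriv_eq]; simp
  rw [hdd] at h6
  linarith

/-- The real part of a holomorphic function along a real line. -/
lemma hasDerivAt_re_line {L : ℂ → ℂ} {L' : ℂ} {z₀ v : ℂ} {s : ℝ}
    (h : HasDerivAt L L' (z₀ + s * v)) :
    HasDerivAt (fun t : ℝ => (L (z₀ + t * v)).re) (L' * v).re s := by
  have hγ : HasDerivAt (fun t : ℝ => z₀ + (t : ℂ) * v) v s := by
    have h0 : HasDerivAt (fun t : ℝ => (t : ℂ)) 1 s := Complex.ofRealCLM.hasDerivAt
    simpa using (h0.mul_const v).const_add z₀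
  have h1 : HasDerivAt (fun t : ℝ => L (z₀ + (t : ℂ) * v)) (v • L') s := by
    have := HasDerivAt.scomp s h hγ
    exact this
  have h2 := (Complex.reCLM.hasFDerivAt.comp_hasDerivAt s h1)
  have h3 : Complex.reCLM (v • L') = (L' * v).re := by
    simp [mul_comm]
  rw [← h3]
  exact h2

lemma hasDerivAt_line {L : ℂ → ℂ} (z₀ v : ℂ) (hL : AnalyticAt ℂ L z₀) :
    (∀ᶠ s : ℝ in 𝓝 (0 : ℝ), HasDerivAt (fun t : ℝ => (L (z₀ + t * v)).re)
      (deriv L (z₀ + s * v) * v).re s) ∧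
    HasDerivAt (fun s : ℝ => (deriv L (z₀ + s * v) * v).re) (deriv (deriv L) z₀ * v * v).re 0 := by
  constructor
  · have hev : ∀ᶠ z in 𝓝 z₀, HasDerivAt L (deriv L z) z :=
      hL.eventually_analyticAt.mono fun z hz => hz.differentiableAt.hasDerivAt
    have hcont : Tendsto (fun s : ℝ => z₀ + (s : ℂ) * v) (𝓝 0) (𝓝 z₀) := by
      have : Continuous (fun s : ℝ => z₀ + (s : ℂ) * v) := by fun_prop
      have h := this.tendsto 0
      simpa using h
    filter_upwards [hcont.eventually hev] with s hs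
    exact hasDerivAt_re_line hs
  · have h2 : HasDerivAt (fun z => deriv L z * v) (deriv (deriv L) z₀ * v) z₀ :=
      (hL.deriv.differentiableAt.hasDerivAt).mul_const v
    have h3 : HasDerivAt (fun z => deriv L z * v) (deriv (deriv L) z₀ * v) (z₀ + (0 : ℝ) * v) := by
      simpa using h2
    exact hasDerivAt_re_line h3

/-- The second derivative along a line of the function considered in the main lemma. -/
lemma second_deriv_line {ι : Type} [Fintype ι] [Nonempty ι] {z₀ v : ℂ} {R α β : ℝ} {H : ℂ → ℂ}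
    {L : ι → ℂ → ℂ}
    (hH : AnalyticAt ℂ H z₀) (hL : ∀ i, AnalyticAt ℂ (L i) z₀) (hz : ‖z₀‖ < R)
    (hmax : IsLocalMax (fun z => (H z).re + α * Real.log (∑ i, Real.exp (L i z).re) +
      β * Real.log (R ^ 2 - ‖z‖ ^ 2)) z₀) :
    (deriv (deriv H) z₀ * v * v).re +
      α * (((∑ i, Real.exp (L i z₀).re * ((deriv (L i) z₀ * v).re ^ 2 +
          (deriv (deriv (L i)) z₀ * v * v).re)) * (∑ i, Real.exp (L i z₀).re) -
        (∑ i, Real.exp (L i z₀).re * (deriv (L i) z₀ * v).re) ^ 2) /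
          (∑ i, Real.exp (L i z₀).re) ^ 2) +
      β * ((-2 * ‖v‖ ^ 2 * (R ^ 2 - ‖z₀‖ ^ 2) - (2 * (z₀ * conj v).re) ^ 2) /
        (R ^ 2 - ‖z₀‖ ^ 2) ^ 2) ≤ 0 := by
  classical
  -- the restriction to the line
  obtain ⟨hH1, hH2⟩ := hasDerivAt_line z₀ v hH
  have hL1 : ∀ᶠ s : ℝ in 𝓝 (0 : ℝ), ∀ i, HasDerivAt (fun t : ℝ => (L i (z₀ + t * v)).re)
      (deriv (L i) (z₀ + s * v) * v).re s :=
    eventually_all.mpr fun i => (hasDerivAt_line z₀ v (hL i)).1
  have hL2 : ∀ i, HasDerivAt (fun s : ℝ => (deriv (L i) (z₀ + s * v) * v).re)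
      (deriv (deriv (L i)) z₀ * v * v).re 0 := fun i => (hasDerivAt_line z₀ v (hL i)).2
  have hL0 : ∀ i, HasDerivAt (fun t : ℝ => (L i (z₀ + t * v)).re)
      (deriv (L i) (z₀ + (0 : ℝ) * v) * v).re 0 := fun i => hL1.self_of_nhds i
  set h : ι → ℝ → ℝ := fun i t => (L i (z₀ + t * v)).re with hh
  set h' : ι → ℝ → ℝ := fun i t => (deriv (L i) (z₀ + t * v) * v).re with hh'
  set M : ℝ → ℝ := fun t => R ^ 2 - (‖z₀‖ ^ 2 + 2 * t * (z₀ * conj v).re + t ^ 2 * ‖v‖ ^ 2) with hM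
  set M' : ℝ → ℝ := fun t => - (2 * (z₀ * conj v).re + 2 * t * ‖v‖ ^ 2) with hM'
  have hnorm : ∀ t : ℝ, ‖z₀ + (t : ℂ) * v‖ ^ 2 = ‖z₀‖ ^ 2 + 2 * t * (z₀ * conj v).re
      + t ^ 2 * ‖v‖ ^ 2 := by
    intro t
    rw [Complex.sq_norm, Complex.normSq_add, Complex.sq_norm, Complex.sq_norm, Complex.normSq_mul,
      Complex.normSq_ofReal, map_mul, Complex.conj_ofReal]
    have : (z₀ * ((t : ℂ) * conj v)).re = t * (z₀ * conj v).re := by
      rw [← Complex.re_ofReal_mul]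
      congr 1
      ring
    rw [this]
    ring
  have hMd : ∀ t, HasDerivAt M (M' t) t := by
    intro t
    have h1 : HasDerivAt (fun t : ℝ => 2 * t * (z₀ * conj v).re) (2 * (z₀ * conj v).re) t := by
      simpa using ((hasDerivAt_id t).const_mul (2 : ℝ)).mul_const ((z₀ * conj v).re)
    have h2 : HasDerivAt (fun t : ℝ => t ^ 2 * ‖v‖ ^ 2) (2 * t * ‖v‖ ^ 2) t := by
      simpa using (hasDerivAt_pow 2 t).mul_const (‖v‖ ^ 2)
    have h3 := (((hasDerivAt_const t (‖z₀‖ ^ 2)).add h1).add h2).const_sub (R ^ 2)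
    refine h3.congr_deriv ?_
    simp [hM']
  have hM'd : HasDerivAt M' (-(2 * ‖v‖ ^ 2)) 0 := by
    have h1 : HasDerivAt (fun t : ℝ => 2 * t * ‖v‖ ^ 2) (2 * ‖v‖ ^ 2) 0 := by
      simpa using ((hasDerivAt_id (0 : ℝ)).const_mul (2 : ℝ)).mul_const (‖v‖ ^ 2)
    have h3 := ((hasDerivAt_const (0 : ℝ) (2 * (z₀ * conj v).re)).add h1).neg
    refine h3.congr_deriv ?_
    simp
  have hM0 : M 0 = R ^ 2 - ‖z₀‖ ^ 2 := by simp [hM]
  have hMpos : 0 < M 0 := by
    rw [hM0]
    have := norm_nonneg z₀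
    nlinarith
  have hMev : ∀ᶠ t in 𝓝 (0 : ℝ), 0 < M t :=
    (hMd 0).continuousAt.eventually (lt_mem_nhds hMpos)
  set u : ℝ → ℝ := fun t => ∑ i, Real.exp (h i t) with hu
  set u' : ℝ → ℝ := fun t => ∑ i, Real.exp (h i t) * h' i t with hu'
  have hupos : ∀ t, 0 < u t := fun t => Finset.sum_pos (fun i _ => Real.exp_pos _)
    Finset.univ_nonempty
  have hud : ∀ᶠ s in 𝓝 (0 : ℝ), HasDerivAt u (u' s) s := by
    filter_upwards [hL1] with s hs
    exact HasDerivAt.fun_sum fun i _ => (hs i).exp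
  have hu'd : HasDerivAt u' (∑ i, (Real.exp (h i 0) * h' i 0 * h' i 0 +
      Real.exp (h i 0) * (deriv (deriv (L i)) z₀ * v * v).re)) 0 := by
    exact HasDerivAt.fun_sum fun i _ => ((hL0 i).exp).mul (hL2 i)
  have hφ1 : ∀ᶠ s : ℝ in 𝓝 (0 : ℝ), HasDerivAt (fun t : ℝ => (H (z₀ + t * v)).re +
      α * Real.log (u t) + β * Real.log (M t))
      ((deriv H (z₀ + s * v) * v).re + α * (u' s / u s) + β * (M' s / M s)) s := by
    filter_upwards [hH1, hud, hMev] with s h1 h2 h3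
    exact (h1.add ((h2.log (hupos s).ne').const_mul α)).add
      (((hMd s).log h3.ne').const_mul β)
  have hφ2 : HasDerivAt (fun s : ℝ => (deriv H (z₀ + s * v) * v).re + α * (u' s / u s) +
      β * (M' s / M s)) ((deriv (deriv H) z₀ * v * v).re +
      α * (((∑ i, (Real.exp (h i 0) * h' i 0 * h' i 0 +
      Real.exp (h i 0) * (deriv (deriv (L i)) z₀ * v * v).re)) * u 0 - u' 0 * u' 0) / u 0 ^ 2) +
      β * ((-(2 * ‖v‖ ^ 2) * M 0 - M' 0 * M' 0) / M 0 ^ 2)) 0 := by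
    exact (hH2.add ((hu'd.div hud.self_of_nhds (hupos 0).ne').const_mul α)).add
      ((hM'd.div (hMd 0) hMpos.ne').const_mul β)
  have hloc : IsLocalMax (fun t : ℝ => (H (z₀ + t * v)).re +
      α * Real.log (u t) + β * Real.log (M t)) 0 := by
    have hcont : Tendsto (fun s : ℝ => z₀ + (s : ℂ) * v) (𝓝 0) (𝓝 z₀) := by
      have : Continuous (fun s : ℝ => z₀ + (s : ℂ) * v) := by fun_prop
      have h := this.tendsto 0
      simpa using h
    have h1 := hcont.eventually hmax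
    filter_upwards [h1] with t ht
    have e1 : ∀ t : ℝ, M t = R ^ 2 - ‖z₀ + (t : ℂ) * v‖ ^ 2 := by
      intro t
      rw [hnorm t]
    rw [e1, e1]
    simpa [hu, hh] using ht
  have hfin := second_deriv_nonpos hφ1 hφ2 hloc
  have e0 : ∀ i, h i 0 = (L i z₀).re := by
    intro i; simp [hh]
  have e0' : ∀ i, h' i 0 = (deriv (L i) z₀ * v).re := by
    intro i; simp [hh']
  have eu : u 0 = ∑ i, Real.exp (L i z₀).re := by simp [hu, e0]
  have eu' : u' 0 = ∑ i, Real.exp (L i z₀).re * (deriv (L i) z₀ * v).re := by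
    simp only [hu', e0, e0']
  have eM' : M' 0 = - (2 * (z₀ * conj v).re) := by simp [hM']
  rw [eu, eu', eM', hM0] at hfin
  simp only [e0, e0'] at hfin
  convert hfin using 5
  · congr 2
    · apply Finset.sum_congr rfl
      intro i _
      ring
    · ring
  · ring
  · ring

lemma split_identity (a1 a2 S1 S2 T1 T2 U m n1 n2 α β : ℝ) (h : a1 + a2 = 0) :
    α * (((S1 + S2) * U - (T1 + T2)) / U ^ 2) + β * ((n1 + n2) / m ^ 2) =
      (a1 + α * ((S1 * U - T1) / U ^ 2) + β * (n1 / m ^ 2)) +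
        (a2 + α * ((S2 * U - T2) / U ^ 2) + β * (n2 / m ^ 2)) := by
  linear_combination -h

/-- **Core inequality.** -/
theorem core_inequality {ι : Type} [Fintype ι] [Nonempty ι] {z₀ : ℂ} {R α β : ℝ} {H : ℂ → ℂ}
    {L : ι → ℂ → ℂ}
    (hH : AnalyticAt ℂ H z₀) (hL : ∀ i, AnalyticAt ℂ (L i) z₀) (hz : ‖z₀‖ < R)
    (hmax : IsLocalMax (fun z => (H z).re + α * Real.log (∑ i, Real.exp (L i z).re) +
      β * Real.log (R ^ 2 - ‖z‖ ^ 2)) z₀) :
    α * (((∑ i, Real.exp (L i z₀).re * ‖deriv (L i) z₀‖ ^ 2) * (∑ i, Real.exp (L i z₀).re) -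
        ‖∑ i, (Real.exp (L i z₀).re : ℂ) * deriv (L i) z₀‖ ^ 2) /
          (∑ i, Real.exp (L i z₀).re) ^ 2) ≤
      β * (4 * R ^ 2 / (R ^ 2 - ‖z₀‖ ^ 2) ^ 2) := by
  have h1 := second_deriv_line (v := 1) hH hL hz hmax
  have h2 := second_deriv_line (v := Complex.I) hH hL hz hmax
  have hm : 0 < R ^ 2 - ‖z₀‖ ^ 2 := by
    have := norm_nonneg z₀
    nlinarith
  set m := R ^ 2 - ‖z₀‖ ^ 2 with hmdef
  set E : ι → ℝ := fun i => Real.exp (L i z₀).re with hE
  set U : ℝ := ∑ i, E i with hU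
  have hUpos : 0 < U := Finset.sum_pos (fun i _ => Real.exp_pos _) Finset.univ_nonempty
  have e1 : (deriv (deriv H) z₀ * 1 * 1).re + (deriv (deriv H) z₀ * Complex.I * Complex.I).re = 0 := by
    simp
  have e2 : (∑ i, E i * ((deriv (L i) z₀ * 1).re ^ 2 + (deriv (deriv (L i)) z₀ * 1 * 1).re)) +
      (∑ i, E i * ((deriv (L i) z₀ * Complex.I).re ^ 2 +
        (deriv (deriv (L i)) z₀ * Complex.I * Complex.I).re)) =
      ∑ i, E i * ‖deriv (L i) z₀‖ ^ 2 := by
    rw [← Finset.sum_add_distrib]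
    refine Finset.sum_congr rfl fun i _ => ?_
    rw [Complex.sq_norm, Complex.normSq_apply]
    simp
    ring
  have e3 : (∑ i, E i * (deriv (L i) z₀ * 1).re) ^ 2 +
      (∑ i, E i * (deriv (L i) z₀ * Complex.I).re) ^ 2 =
      ‖∑ i, (E i : ℂ) * deriv (L i) z₀‖ ^ 2 := by
    rw [Complex.sq_norm, Complex.normSq_apply, Complex.re_sum, Complex.im_sum]
    have a1 : ∀ i, ((E i : ℂ) * deriv (L i) z₀).re = E i * (deriv (L i) z₀ * 1).re := by
      intro i; simp
    have a2 : ∀ i, ((E i : ℂ) * deriv (L i) z₀).im = - (E i * (deriv (L i) z₀ * Complex.I).re) := by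
      intro i; simp
    simp_rw [a1, a2]
    rw [Finset.sum_neg_distrib]
    ring
  have e4 : (2 * (z₀ * conj (1 : ℂ)).re) ^ 2 + (2 * (z₀ * conj Complex.I).re) ^ 2 = 4 * ‖z₀‖ ^ 2 := by
    rw [Complex.sq_norm, Complex.normSq_apply]
    simp
    ring
  have hsum := add_le_add h1 h2
  have key : α * (((∑ i, E i * ‖deriv (L i) z₀‖ ^ 2) * U -
        ‖∑ i, (E i : ℂ) * deriv (L i) z₀‖ ^ 2) / U ^ 2) + β * (-(4 * R ^ 2) / m ^ 2) ≤ 0 := by
    refine le_trans (le_of_eq ?_) (hsum.trans (by simp))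
    rw [← e2, ← e3]
    have e5 : -(4 * R ^ 2) = (-2 * ‖(1 : ℂ)‖ ^ 2 * m - (2 * (z₀ * conj (1 : ℂ)).re) ^ 2) +
        (-2 * ‖Complex.I‖ ^ 2 * m - (2 * (z₀ * conj Complex.I).re) ^ 2) := by
      have : R ^ 2 = m + ‖z₀‖ ^ 2 := by rw [hmdef]; ring
      rw [this]
      simp only [norm_one, Complex.norm_I]
      linear_combination e4
    rw [e5]
    exact split_identity _ _ _ _ _ _ _ _ _ _ _ _ e1
  have : β * (-(4 * R ^ 2) / m ^ 2) = - (β * (4 * R ^ 2 / m ^ 2)) := by ring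
  rw [this] at key
  linarith

end Pool.Agent.H17

end

section

/-!
# A vanishing theorem of Ahlfors–Schwarz type

`r i` are entire functions (without identically vanishing ones), `U = ∑ |r i|`, and `V` is the
variance of the logarithmic derivatives `r i' / r i` with weights `|r i| / U`.  If an entire
function `g` satisfies `|g|^2 U^a ≤ C ∏ |r i| V^ρ` with `a > 0`, and `V` is locally bounded, then
`g = 0`.
-/

open Topology Filter Complex

namespace Pool.Agent.H17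

/-- A holomorphic logarithm near a point where the function does not vanish. -/
lemma exists_local_log {f : ℂ → ℂ} {z₀ : ℂ} (hf : AnalyticAt ℂ f z₀) (h0 : f z₀ ≠ 0) :
    ∃ L : ℂ → ℂ, AnalyticAt ℂ L z₀ ∧ (∀ᶠ z in 𝓝 z₀, f z = Complex.exp (L z)) ∧
      deriv L z₀ = deriv f z₀ / f z₀ := by
  have h1 : AnalyticAt ℂ (fun z => Complex.log (f z / f z₀) + Complex.log (f z₀)) z₀ := by
    refine AnalyticAt.add (AnalyticAt.clog ?_ ?_) analyticAt_const
    · exact hf.div analyticAt_const h0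
    · rw [div_self h0]
      exact Complex.one_mem_slitPlane
  have h2 : ∀ᶠ z in 𝓝 z₀, f z = Complex.exp (Complex.log (f z / f z₀) + Complex.log (f z₀)) := by
    filter_upwards [hf.continuousAt.eventually_ne h0] with z hz
    rw [Complex.exp_add, Complex.exp_log (div_ne_zero hz h0), Complex.exp_log h0,
      div_mul_cancel₀ _ h0]
  refine ⟨_, h1, h2, ?_⟩
  have h3 : deriv f z₀ = deriv (fun z => Complex.exp
      (Complex.log (f z / f z₀) + Complex.log (f z₀))) z₀ :=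
    Filter.EventuallyEq.deriv_eq h2
  have h4 := (h1.differentiableAt.hasDerivAt.cexp).deriv
  rw [h4] at h3
  have h5 : Complex.exp (Complex.log (f z₀ / f z₀) + Complex.log (f z₀)) = f z₀ :=
    h2.self_of_nhds.symm
  rw [h5] at h3
  rw [h3]
  field_simp

section

variable {ι : Type} [Fintype ι]

lemma le_of_forall_pow_mul_le {x y P Q : ℝ} (hP : 0 < P) (hy : 0 ≤ y)
    (h : ∀ k : ℕ, 0 < k → x ^ k * P ≤ y ^ k * Q) : x ≤ y := by
  by_contra hxy
  push Not at hxy
  have hx : 0 < x := hy.trans_lt hxy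
  have h1 : Tendsto (fun k : ℕ => (y / x) ^ k * Q) atTop (𝓝 (0 * Q)) := by
    apply Tendsto.mul_const
    exact tendsto_pow_atTop_nhds_zero_of_lt_one (by positivity) ((div_lt_one hx).mpr hxy)
  have h2 : ∀ᶠ k : ℕ in atTop, P ≤ (y / x) ^ k * Q := by
    filter_upwards [eventually_gt_atTop 0] with k hk
    have h3 := h k hk
    rw [div_pow, div_mul_eq_mul_div, le_div_iff₀ (by positivity), mul_comm P]
    exact h3
  have h3 := ge_of_tendsto h1 h2
  rw [zero_mul] at h3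
  linarith

end

end Pool.Agent.H17

end

section

/-!
# Global lifts of entire curves in projective space
-/

open Topology Filter

namespace Pool.Agent.H17

/-- Two vectors representing the same point are proportional. -/
lemma mk_eq_mk_cross {N : ℕ} {v w : Fin (N + 1) → ℂ} {hv : v ≠ 0} {hw : w ≠ 0}
    (h : Projectivization.mk ℂ v hv = Projectivization.mk ℂ w hw) :
    ∃ c : ℂ, c ≠ 0 ∧ ∀ j, v j = c * w j := by
  obtain ⟨a, ha⟩ := (Projectivization.mk_eq_mk_iff ℂ v w hv hw).mp h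
  refine ⟨(a : ℂ), a.ne_zero, fun j => ?_⟩
  rw [← ha]
  rfl

end Pool.Agent.H17

end

section

/-!
# Restriction of a polynomial to the lines through a point
-/

open MvPolynomial

namespace Pool.Agent.H17

variable {σ : Type}

/-- Evaluation of a homogeneous polynomial at a multiple of a vector. -/
lemma eval_smul_of_isHomogeneous {P : MvPolynomial σ ℂ} {d : ℕ} (hP : P.IsHomogeneous d)
    (c : ℂ) (x : σ → ℂ) : eval (fun i => c * x i) P = c ^ d * eval x P := by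
  classical
  rw [eval_eq, eval_eq, Finset.mul_sum]
  refine Finset.sum_congr rfl ?_
  intro m hm
  have hdeg : m.degree = d := by
    by_contra hne
    exact (mem_support_iff.mp hm) (hP.coeff_eq_zero hne)
  have : ∏ i ∈ m.support, (c * x i) ^ m i = c ^ d * ∏ i ∈ m.support, x i ^ m i := by
    simp_rw [mul_pow]
    rw [Finset.prod_mul_distrib, Finset.prod_pow_eq_pow_sum]
    congr 2
  rw [this]
  ring

end Pool.Agent.H17

end

section

/-!
# Weighted variance of complex numbers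
-/

open Complex ComplexConjugate

namespace Pool.Agent.H17

variable {ι : Type} [Fintype ι]

/-- The variance of the complex numbers `x i` with weights `w i / ∑ w`. -/
noncomputable def wVar (w : ι → ℝ) (x : ι → ℂ) : ℝ :=
  ((∑ i, w i * ‖x i‖ ^ 2) * (∑ i, w i) - ‖∑ i, (w i : ℂ) * x i‖ ^ 2) / (∑ i, w i) ^ 2

lemma norm_sub_sq_expand (a b : ℂ) : ‖a - b‖ ^ 2 = ‖a‖ ^ 2 - 2 * (a * conj b).re + ‖b‖ ^ 2 := by
  rw [Complex.sq_norm, Complex.sq_norm, Complex.sq_norm, Complex.normSq_sub]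
  ring

lemma wVar_identity (w : ι → ℝ) (x : ι → ℂ) (c : ℂ) :
    (∑ i, w i * ‖x i - c‖ ^ 2) * (∑ i, w i) =
      ((∑ i, w i * ‖x i‖ ^ 2) * (∑ i, w i) - ‖∑ i, (w i : ℂ) * x i‖ ^ 2) +
        ‖∑ i, (w i : ℂ) * x i - (∑ i, w i : ℝ) * c‖ ^ 2 := by
  have h1 : ∑ i, w i * ‖x i - c‖ ^ 2 = ∑ i, w i * ‖x i‖ ^ 2 -
      2 * ((∑ i, (w i : ℂ) * x i) * conj c).re + (∑ i, w i) * ‖c‖ ^ 2 := by
    rw [Finset.sum_mul, Complex.re_sum, Finset.mul_sum, Finset.sum_mul, ← Finset.sum_sub_distrib,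
      ← Finset.sum_add_distrib]
    refine Finset.sum_congr rfl fun i _ => ?_
    rw [norm_sub_sq_expand]
    have : ((w i : ℂ) * x i * conj c).re = w i * (x i * conj c).re := by
      rw [mul_assoc, Complex.re_ofReal_mul]
    rw [this]
    ring
  rw [h1, norm_sub_sq_expand, norm_mul, Complex.norm_real]
  have h2 : ((∑ i, (w i : ℂ) * x i) * conj ((∑ i, w i : ℝ) * c)).re =
      (∑ i, w i) * ((∑ i, (w i : ℂ) * x i) * conj c).re := by
    rw [map_mul, Complex.conj_ofReal, ← Complex.re_ofReal_mul]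
    congr 1
    ring
  have h3 : ‖(∑ i, w i : ℝ)‖ ^ 2 = (∑ i, w i) ^ 2 := by
    rw [Real.norm_eq_abs, sq_abs]
  rw [h2, mul_pow, h3]
  ring

lemma wVar_eq {w : ι → ℝ} (x : ι → ℂ) (hw : (∑ i, w i) ≠ 0) :
    wVar w x = (∑ i, w i * ‖x i - (∑ i, (w i : ℂ) * x i) / (∑ i, w i : ℝ)‖ ^ 2) / (∑ i, w i) := by
  have h1 := wVar_identity w x ((∑ i, (w i : ℂ) * x i) / (∑ i, w i : ℝ))
  have hw' : ((∑ i, w i : ℝ) : ℂ) ≠ 0 := by exact_mod_cast hw
  rw [mul_div_cancel₀ _ hw', sub_self] at h1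
  simp only [norm_zero] at h1
  unfold wVar
  rw [div_eq_div_iff (pow_ne_zero 2 hw) hw]
  linear_combination -(∑ i, w i) * h1

/-- Every weighted deviation is bounded by the variance. -/
lemma exists_center (w : ι → ℝ) (x : ι → ℂ) (hw0 : ∀ i, 0 ≤ w i) (hw : 0 < ∑ i, w i) :
    ∃ c : ℂ, ∀ i, w i * ‖x i - c‖ ^ 2 ≤ (∑ i, w i) * wVar w x := by
  refine ⟨(∑ i, (w i : ℂ) * x i) / (∑ i, w i : ℝ), fun i => ?_⟩
  rw [wVar_eq x hw.ne', mul_div_cancel₀ _ hw.ne']
  exact Finset.single_le_sum (f := fun i => w i * ‖x i -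
    (∑ i, (w i : ℂ) * x i) / (∑ i, w i : ℝ)‖ ^ 2)
    (fun i _ => mul_nonneg (hw0 i) (sq_nonneg _)) (Finset.mem_univ i)

lemma wVar_nonneg {w : ι → ℝ} (x : ι → ℂ) (hw0 : ∀ i, 0 ≤ w i) (hw : 0 < ∑ i, w i) :
    0 ≤ wVar w x := by
  rw [wVar_eq x hw.ne']
  apply div_nonneg (Finset.sum_nonneg fun i _ => mul_nonneg (hw0 i) (sq_nonneg _)) hw.le

end Pool.Agent.H17

end

section

/-!
# Second derivatives of circle means: the smooth case

Taylor's formula with integral remainder in `x` for every fixed `θ`, Fubini, and periodicity.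
-/

noncomputable section

namespace Pool.Agent.H62.FC

open Filter Topology MeasureTheory

/-- directional derivatives -/
def Avg_d (F : ℝ × ℝ → ℝ) (v : ℝ × ℝ) (p : ℝ × ℝ) : ℝ := fderiv ℝ F p v

theorem Avg_d_contDiffAt {F : ℝ × ℝ → ℝ} {p : ℝ × ℝ} (v : ℝ × ℝ) {m n : WithTop ℕ∞}
    (h : ContDiffAt ℝ n F p) (hmn : m + 1 ≤ n) : ContDiffAt ℝ m (Avg_d F v) p :=
  (h.fderiv_right hmn).clm_apply contDiffAt_const

theorem Avg_hasDerivAt_fst {F : ℝ × ℝ → ℝ} {x θ : ℝ} (h : DifferentiableAt ℝ F (x, θ)) :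
    HasDerivAt (fun y => F (y, θ)) (Avg_d F (1, 0) (x, θ)) x :=
  HasFDerivAt.comp_hasDerivAt (f := fun y : ℝ => (y, θ)) x h.hasFDerivAt
    ((hasDerivAt_id x).prodMk (hasDerivAt_const x θ))

theorem Avg_hasDerivAt_snd {F : ℝ × ℝ → ℝ} {x θ : ℝ} (h : DifferentiableAt ℝ F (x, θ)) :
    HasDerivAt (fun φ => F (x, φ)) (Avg_d F (0, 1) (x, θ)) θ :=
  HasFDerivAt.comp_hasDerivAt (f := fun φ : ℝ => (x, φ)) θ h.hasFDerivAt
    ((hasDerivAt_const θ x).prodMk (hasDerivAt_id θ))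

theorem Avg_iter_two {f g : ℝ → ℝ} {x g' : ℝ} (h : ∀ᶠ y in 𝓝 x, HasDerivAt f (g y) y)
    (hg : HasDerivAt g g' x) : iteratedDeriv 2 f x = g' := by
  have h1 : iteratedDeriv 2 f = deriv (deriv f) := by
    rw [iteratedDeriv_succ, iteratedDeriv_one]
  rw [h1]
  have h2 : deriv f =ᶠ[𝓝 x] g := h.mono fun y hy => hy.deriv
  rw [h2.deriv_eq]
  exact hg.deriv

/-- Taylor's formula with integral remainder -/
theorem Avg_taylor {u u' u'' : ℝ → ℝ} {x₀ x : ℝ} (h1 : ∀ y ∈ Set.uIcc x₀ x, HasDerivAt u (u' y) y)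
    (h2 : ∀ y ∈ Set.uIcc x₀ x, HasDerivAt u' (u'' y) y)
    (hc : ContinuousOn u'' (Set.uIcc x₀ x)) :
    ∫ y in x₀..x, (x - y) * u'' y = u x - u x₀ - u' x₀ * (x - x₀) := by
  have h3 : ∀ y ∈ Set.uIcc x₀ x,
      HasDerivAt (fun y => (x - y) * u' y + u y) ((x - y) * u'' y) y := by
    intro y hy
    have h4 := (((hasDerivAt_const y x).sub (hasDerivAt_id y)).mul (h2 y hy)).add (h1 y hy)
    refine HasDerivAt.congr_deriv (f' := _) h4 ?_
    simp only [Pi.sub_apply, id]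
    ring
  rw [intervalIntegral.integral_eq_sub_of_hasDerivAt h3]
  · ring
  · exact ((continuousOn_const.sub continuousOn_id).mul hc).intervalIntegrable

theorem average_second_deriv {Φ L : ℝ → ℝ → ℝ} {α β : ℝ}
    (hΦ : ∀ x ∈ Set.Ioo α β, ∀ θ, ContDiffAt ℝ 2 (fun p : ℝ × ℝ => Φ p.1 p.2) (x, θ))
    (hper : ∀ x θ, Φ x (θ + 2 * Real.pi) = Φ x θ)
    (hL : ∀ x ∈ Set.Ioo α β, ∀ θ, L x θ =
      iteratedDeriv 2 (fun y => Φ y θ) x + iteratedDeriv 2 (fun φ => Φ x φ) θ)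
    {x₀ x : ℝ} (hx₀ : x₀ ∈ Set.Ioo α β) (hx : x ∈ Set.Ioo α β) :
    (∫ θ in (0 : ℝ)..2 * Real.pi, Φ x θ) = (∫ θ in (0 : ℝ)..2 * Real.pi, Φ x₀ θ) +
      (∫ θ in (0 : ℝ)..2 * Real.pi, deriv (fun y => Φ y θ) x₀) * (x - x₀) +
      ∫ y in x₀..x, (x - y) * ∫ θ in (0 : ℝ)..2 * Real.pi, L y θ := by
  set F : ℝ × ℝ → ℝ := fun p => Φ p.1 p.2 with hF
  set G1 : ℝ × ℝ → ℝ := Avg_d F (1, 0) with hG1
  set G2 : ℝ × ℝ → ℝ := Avg_d F (0, 1) with hG2
  set G11 : ℝ × ℝ → ℝ := Avg_d G1 (1, 0) with hG11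
  set G22 : ℝ × ℝ → ℝ := Avg_d G2 (0, 1) with hG22
  have c1 : ∀ y ∈ Set.Ioo α β, ∀ θ, ContDiffAt ℝ 1 G1 (y, θ) := fun y hy θ =>
    Avg_d_contDiffAt _ (hΦ y hy θ) (by norm_num)
  have c2 : ∀ y ∈ Set.Ioo α β, ∀ θ, ContDiffAt ℝ 1 G2 (y, θ) := fun y hy θ =>
    Avg_d_contDiffAt _ (hΦ y hy θ) (by norm_num)
  have c11 : ∀ y ∈ Set.Ioo α β, ∀ θ, ContinuousAt G11 (y, θ) := fun y hy θ =>
    (Avg_d_contDiffAt (m := 0) _ (c1 y hy θ) (by norm_num)).continuousAt
  have c22 : ∀ y ∈ Set.Ioo α β, ∀ θ, ContinuousAt G22 (y, θ) := fun y hy θ =>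
    (Avg_d_contDiffAt (m := 0) _ (c2 y hy θ) (by norm_num)).continuousAt
  have d1 : ∀ y ∈ Set.Ioo α β, ∀ θ, HasDerivAt (fun y => Φ y θ) (G1 (y, θ)) y := fun y hy θ =>
    Avg_hasDerivAt_fst ((hΦ y hy θ).differentiableAt (by norm_num))
  have d2 : ∀ y ∈ Set.Ioo α β, ∀ θ, HasDerivAt (fun φ => Φ y φ) (G2 (y, θ)) θ := fun y hy θ =>
    Avg_hasDerivAt_snd ((hΦ y hy θ).differentiableAt (by norm_num))
  have d11 : ∀ y ∈ Set.Ioo α β, ∀ θ, HasDerivAt (fun y => G1 (y, θ)) (G11 (y, θ)) y :=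
    fun y hy θ => Avg_hasDerivAt_fst ((c1 y hy θ).differentiableAt (by norm_num))
  have d22 : ∀ y ∈ Set.Ioo α β, ∀ θ, HasDerivAt (fun φ => G2 (y, φ)) (G22 (y, θ)) θ :=
    fun y hy θ => Avg_hasDerivAt_snd ((c2 y hy θ).differentiableAt (by norm_num))
  have hsub : Set.uIcc x₀ x ⊆ Set.Ioo α β := Set.OrdConnected.uIcc_subset Set.ordConnected_Ioo hx₀ hx
  have hpair : ∀ y : ℝ, Continuous fun θ : ℝ => ((y, θ) : ℝ × ℝ) := fun y => by fun_prop
  have k0 : ∀ y ∈ Set.Ioo α β, Continuous fun θ => Φ y θ := fun y hy =>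
    continuous_iff_continuousAt.2 fun θ => (d2 y hy θ).continuousAt
  have k1 : ∀ y ∈ Set.Ioo α β, Continuous fun θ => G1 (y, θ) := fun y hy =>
    continuous_iff_continuousAt.2 fun θ =>
      ContinuousAt.comp (f := fun θ : ℝ => ((y, θ) : ℝ × ℝ)) (g := G1) (c1 y hy θ).continuousAt
        (hpair y).continuousAt
  have k11 : ∀ y ∈ Set.Ioo α β, Continuous fun θ => G11 (y, θ) := fun y hy =>
    continuous_iff_continuousAt.2 fun θ =>
      ContinuousAt.comp (f := fun θ : ℝ => ((y, θ) : ℝ × ℝ)) (g := G11) (c11 y hy θ)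
        (hpair y).continuousAt
  have k22 : ∀ y ∈ Set.Ioo α β, Continuous fun θ => G22 (y, θ) := fun y hy =>
    continuous_iff_continuousAt.2 fun θ =>
      ContinuousAt.comp (f := fun θ : ℝ => ((y, θ) : ℝ × ℝ)) (g := G22) (c22 y hy θ)
        (hpair y).continuousAt
  -- the function `L`
  have hL' : ∀ y ∈ Set.Ioo α β, ∀ θ, L y θ = G11 (y, θ) + G22 (y, θ) := by
    intro y hy θ
    rw [hL y hy θ, Avg_iter_two (g := fun y => G1 (y, θ)) ?_ (d11 y hy θ),
      Avg_iter_two (g := fun φ => G2 (y, φ)) ?_ (d22 y hy θ)]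
    · exact Eventually.of_forall fun φ => d2 y hy φ
    · filter_upwards [isOpen_Ioo.mem_nhds hy] with y' hy' using d1 y' hy' θ
  -- periodicity
  have hper2 : ∀ y ∈ Set.Ioo α β, G2 (y, 2 * Real.pi) = G2 (y, 0) := by
    intro y hy
    have e1 := d2 y hy (0 + 2 * Real.pi)
    have e2 : HasDerivAt (fun φ => Φ y (φ + 2 * Real.pi)) (G2 (y, 0 + 2 * Real.pi)) 0 :=
      HasDerivAt.comp_add_const 0 (2 * Real.pi) e1
    simp only [hper] at e2
    rw [zero_add] at e2
    exact e2.unique (d2 y hy 0)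
  have hint22 : ∀ y ∈ Set.Ioo α β, ∫ θ in (0 : ℝ)..2 * Real.pi, G22 (y, θ) = 0 := by
    intro y hy
    rw [intervalIntegral.integral_eq_sub_of_hasDerivAt (fun θ _ => d22 y hy θ)
      ((k22 y hy).intervalIntegrable _ _), hper2 y hy, sub_self]
  have hintL : ∀ y ∈ Set.Ioo α β, ∫ θ in (0 : ℝ)..2 * Real.pi, L y θ =
      ∫ θ in (0 : ℝ)..2 * Real.pi, G11 (y, θ) := by
    intro y hy
    simp only [hL' y hy]
    rw [intervalIntegral.integral_add ((k11 y hy).intervalIntegrable _ _)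
      ((k22 y hy).intervalIntegrable _ _), hint22 y hy, add_zero]
  -- Taylor
  have hT : ∀ θ, ∫ y in x₀..x, (x - y) * G11 (y, θ) =
      Φ x θ - Φ x₀ θ - G1 (x₀, θ) * (x - x₀) := by
    intro θ
    refine Avg_taylor (u := fun y => Φ y θ) (u' := fun y => G1 (y, θ))
      (u'' := fun y => G11 (y, θ)) (fun y hy => d1 y (hsub hy) θ)
      (fun y hy => d11 y (hsub hy) θ) fun y hy => ?_
    exact (ContinuousAt.comp (f := fun y : ℝ => ((y, θ) : ℝ × ℝ)) (g := G11)
      (c11 y (hsub hy) θ) (by fun_prop)).continuousWithinAt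
  -- Fubini
  have hcont : ContinuousOn (Function.uncurry fun y θ : ℝ => (x - y) * G11 (y, θ))
      (Set.uIcc x₀ x ×ˢ Set.uIcc 0 (2 * Real.pi)) := by
    rintro ⟨y, θ⟩ hp
    refine ContinuousAt.continuousWithinAt ?_
    change ContinuousAt (fun p : ℝ × ℝ => (x - p.1) * G11 (p.1, p.2)) (y, θ)
    have h2 : ContinuousAt (fun p : ℝ × ℝ => G11 (p.1, p.2)) (y, θ) := c11 y (hsub hp.1) θ
    exact ContinuousAt.mul (by fun_prop) h2
  have hfub : ∫ y in x₀..x, ∫ θ in (0 : ℝ)..2 * Real.pi, (x - y) * G11 (y, θ) =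
      ∫ θ in (0 : ℝ)..2 * Real.pi, ∫ y in x₀..x, (x - y) * G11 (y, θ) := by
    refine intervalIntegral_intervalIntegral_swap ?_
    refine IntegrableOn.mono_set (hcont.integrableOn_compact
      (isCompact_uIcc.prod isCompact_uIcc)) ?_
    exact Set.prod_mono Set.uIoc_subset_uIcc Set.uIoc_subset_uIcc
  have hR : ∫ y in x₀..x, (x - y) * ∫ θ in (0 : ℝ)..2 * Real.pi, L y θ =
      ∫ y in x₀..x, ∫ θ in (0 : ℝ)..2 * Real.pi, (x - y) * G11 (y, θ) := by
    refine intervalIntegral.integral_congr fun y hy => ?_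
    rw [hintL y (hsub hy), intervalIntegral.integral_const_mul]
  have hD : ∀ θ, deriv (fun y => Φ y θ) x₀ = G1 (x₀, θ) := fun θ => (d1 x₀ hx₀ θ).deriv
  rw [hR, hfub]
  simp only [hT, hD]
  have i0 := (k0 x hx).intervalIntegrable (μ := volume) 0 (2 * Real.pi)
  have i1 := (k0 x₀ hx₀).intervalIntegrable (μ := volume) 0 (2 * Real.pi)
  have i2 := ((k1 x₀ hx₀).mul_const (x - x₀)).intervalIntegrable (μ := volume) 0 (2 * Real.pi)
  rw [intervalIntegral.integral_sub (i0.sub i1) i2, intervalIntegral.integral_sub i0 i1,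
    intervalIntegral.integral_mul_const]
  ring

end Pool.Agent.H62.FC

end
end

section

/-! FC Calculus: Borel's calculus lemma. -/

noncomputable section

namespace Pool.Agent.H62.FC

open Filter Topology MeasureTheory

private theorem Calculus_step {f f' : ℝ → ℝ} {x₀ : ℝ} (hf : ∀ x, HasDerivAt f (f' x) x)
    (hc : Continuous f') (h0 : f x₀ = 0) (hpos : ∀ x, x₀ ≤ x → 0 ≤ f' x) :
    (∀ x, x₀ ≤ x → 0 ≤ f x) ∧ volume {x | x₀ ≤ x ∧ (1 + f x) ^ 2 < f' x} ≤ 1 := by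
  have hfc : Continuous f := continuous_iff_continuousAt.2 fun x => (hf x).continuousAt
  have hnn : ∀ x, x₀ ≤ x → 0 ≤ f x := by
    intro x hx
    have h1 := intervalIntegral.integral_eq_sub_of_hasDerivAt (f := f) (f' := f') (a := x₀)
      (b := x) (fun y _ => hf y) (hc.intervalIntegrable _ _)
    rw [h0, sub_zero] at h1
    rw [← h1]
    exact intervalIntegral.integral_nonneg hx fun y hy => hpos y hy.1
  refine ⟨hnn, ?_⟩
  -- the density
  set g : ℝ → ℝ := fun x => f' x / (1 + f x) ^ 2 with hg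
  have hgc : ContinuousOn g (Set.Ici x₀) := by
    refine ContinuousOn.div hc.continuousOn (by fun_prop) ?_
    intro x hx
    have := hnn x hx
    positivity
  have hgnn : ∀ x, x₀ ≤ x → 0 ≤ g x := fun x hx =>
    div_nonneg (hpos x hx) (sq_nonneg _)
  have hder : ∀ x, x₀ ≤ x → HasDerivAt (fun y => -(1 + f y)⁻¹) (g x) x := by
    intro x hx
    have h1 : 1 + f x ≠ 0 := by
      have := hnn x hx
      positivity
    have h2 := (((hf x).const_add 1).inv h1).neg
    refine h2.congr_deriv ?_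
    rw [hg]
    simp only
    rw [neg_div, neg_neg]
  have hbound : ∀ b, x₀ ≤ b →
      volume ({x | x₀ ≤ x ∧ (1 + f x) ^ 2 < f' x} ∩ Set.Ioc x₀ b) ≤ 1 := by
    intro b hb
    have hgi : IntervalIntegrable g volume x₀ b := by
      refine ContinuousOn.intervalIntegrable (hgc.mono ?_)
      rw [Set.uIcc_of_le hb]
      exact Set.Icc_subset_Ici_self
    have hint : ∫ x in x₀..b, g x = 1 - (1 + f b)⁻¹ := by
      rw [intervalIntegral.integral_eq_sub_of_hasDerivAt (f := fun y => -(1 + f y)⁻¹)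
        (fun y hy => hder y (by rw [Set.uIcc_of_le hb] at hy; exact hy.1)) hgi, h0]
      ring
    have hle1 : ∫ x in x₀..b, g x ≤ 1 := by
      rw [hint]
      have : 0 ≤ (1 + f b)⁻¹ := inv_nonneg.2 (by linarith only [hnn, hb, hnn b hb])
      linarith only [this]
    rw [intervalIntegral.integral_of_le hb] at hle1
    have hgi' : IntegrableOn g (Set.Ioc x₀ b) volume :=
      (intervalIntegrable_iff_integrableOn_Ioc_of_le hb).1 hgi
    have hae : 0 ≤ᵐ[volume.restrict (Set.Ioc x₀ b)] g :=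
      (ae_restrict_iff' measurableSet_Ioc).2 (Eventually.of_forall fun x hx => hgnn x hx.1.le)
    have hL : ∫⁻ x in Set.Ioc x₀ b, ENNReal.ofReal (g x) ≤ 1 := by
      rw [← ofReal_integral_eq_lintegral_ofReal hgi' hae]
      exact (ENNReal.ofReal_le_ofReal hle1).trans_eq ENNReal.ofReal_one
    have hM := mul_meas_ge_le_lintegral₀ (μ := volume.restrict (Set.Ioc x₀ b))
      (f := fun x => ENNReal.ofReal (g x)) hgi'.aestronglyMeasurable.aemeasurable.ennreal_ofReal 1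
    rw [one_mul] at hM
    refine le_trans ?_ (hM.trans hL)
    rw [Measure.restrict_apply' measurableSet_Ioc]
    refine measure_mono ?_
    rintro x ⟨⟨hx1, hx2⟩, hx3⟩
    refine ⟨?_, hx3⟩
    show (1 : ENNReal) ≤ ENNReal.ofReal (g x)
    rw [← ENNReal.ofReal_one]
    refine ENNReal.ofReal_le_ofReal ?_
    have h1 : 0 < 1 + f x := by linarith only [hnn, hx1, hnn x hx1]
    rw [hg]
    simp only
    rw [le_div_iff₀ (by positivity), one_mul]
    exact hx2.le
  set E : Set ℝ := {x | x₀ ≤ x ∧ (1 + f x) ^ 2 < f' x} with hE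
  have hmono : Monotone fun m : ℕ => E ∩ Set.Ioc x₀ (x₀ + m) := by
    intro m m' hmm
    refine Set.inter_subset_inter_right _ (Set.Ioc_subset_Ioc_right ?_)
    have : (m : ℝ) ≤ m' := by exact_mod_cast hmm
    linarith only [this]
  have hcov : E ⊆ {x₀} ∪ ⋃ m : ℕ, E ∩ Set.Ioc x₀ (x₀ + m) := by
    intro x hx
    rcases eq_or_lt_of_le hx.1 with h | h
    · exact Or.inl h.symm
    · right
      obtain ⟨m, hm⟩ := exists_nat_ge (x - x₀)
      exact Set.mem_iUnion.2 ⟨m, hx, h, by linarith⟩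
  calc volume E ≤ volume ({x₀} ∪ ⋃ m : ℕ, E ∩ Set.Ioc x₀ (x₀ + m)) := measure_mono hcov
    _ ≤ volume {x₀} + volume (⋃ m : ℕ, E ∩ Set.Ioc x₀ (x₀ + m)) := measure_union_le _ _
    _ = volume (⋃ m : ℕ, E ∩ Set.Ioc x₀ (x₀ + m)) := by
        rw [Real.volume_singleton, zero_add]
    _ = ⨆ m : ℕ, volume (E ∩ Set.Ioc x₀ (x₀ + m)) := hmono.measure_iUnion
    _ ≤ 1 := iSup_le fun m => hbound _ (by
        have : (0 : ℝ) ≤ m := Nat.cast_nonneg m
        linarith)

/-- Borel's calculus lemma. -/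
theorem calculus_lemma {G : ℝ → ℝ} {x₀ : ℝ} (hG : ContinuousOn G (Set.Ici x₀))
    (hG0 : ∀ x, x₀ ≤ x → 0 ≤ G x) :
    volume {x | x₀ ≤ x ∧ 4 * (1 + ∫ y in x₀..x, (x - y) * G y) ^ 4 < G x} ≤ 2 := by
  -- a continuous extension
  set K : ℝ → ℝ := fun x => G (max x₀ x) with hK
  have hKc : Continuous K := by
    have h1 : Continuous fun x : ℝ => max x₀ x := by fun_prop
    exact hG.comp_continuous h1 fun x => Set.mem_Ici.2 (le_max_left _ _)
  have hKG : ∀ x, x₀ ≤ x → K x = G x := fun x hx => by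
    rw [hK]
    simp only
    rw [max_eq_right hx]
  have hK0 : ∀ x, 0 ≤ K x := fun x => hG0 _ (le_max_left _ _)
  set P : ℝ → ℝ := fun x => ∫ y in x₀..x, K y with hP
  set Q : ℝ → ℝ := fun x => ∫ y in x₀..x, y * K y with hQ
  have hP' : ∀ x, HasDerivAt P (K x) x := fun x =>
    intervalIntegral.integral_hasDerivAt_right (hKc.intervalIntegrable _ _)
      (hKc.stronglyMeasurableAtFilter _ _) hKc.continuousAt
  have hyK : Continuous fun y : ℝ => y * K y := continuous_id.mul hKc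
  have hQ' : ∀ x, HasDerivAt Q (x * K x) x := fun x =>
    intervalIntegral.integral_hasDerivAt_right (hyK.intervalIntegrable _ _)
      (hyK.stronglyMeasurableAtFilter _ _) hyK.continuousAt
  have hPc : Continuous P := continuous_iff_continuousAt.2 fun x => (hP' x).continuousAt
  have hP0 : P x₀ = 0 := intervalIntegral.integral_same
  set H : ℝ → ℝ := fun x => x * P x - Q x with hH
  have hH' : ∀ x, HasDerivAt H (P x) x := by
    intro x
    have h1 := ((hasDerivAt_id x).mul (hP' x)).sub (hQ' x)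
    refine h1.congr_deriv ?_
    simp only [id]
    ring
  have hH0 : H x₀ = 0 := by
    rw [hH]
    simp only
    rw [hP0, hQ]
    simp only
    rw [intervalIntegral.integral_same]
    ring
  have hHeq : ∀ x, x₀ ≤ x → ∫ y in x₀..x, (x - y) * G y = H x := by
    intro x hx
    have h1 : ∫ y in x₀..x, (x - y) * G y = ∫ y in x₀..x, (x * K y - y * K y) := by
      refine intervalIntegral.integral_congr fun y hy => ?_
      rw [Set.uIcc_of_le hx] at hy
      show (x - y) * G y = x * K y - y * K y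
      rw [hKG y hy.1]
      ring
    have h2 : Continuous fun y : ℝ => x * K y := continuous_const.mul hKc
    rw [h1, intervalIntegral.integral_sub (h2.intervalIntegrable _ _)
      (hyK.intervalIntegrable _ _), intervalIntegral.integral_const_mul]
  obtain ⟨hPnn, hE2⟩ := Calculus_step (x₀ := x₀) hP' hKc hP0 (fun x _ => hK0 x)
  obtain ⟨hHnn, hE1⟩ := Calculus_step (x₀ := x₀) hH' hPc hH0 hPnn
  have hsub : {x | x₀ ≤ x ∧ 4 * (1 + ∫ y in x₀..x, (x - y) * G y) ^ 4 < G x} ⊆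
      {x | x₀ ≤ x ∧ (1 + H x) ^ 2 < P x} ∪ {x | x₀ ≤ x ∧ (1 + P x) ^ 2 < K x} := by
    rintro x ⟨hx, hx2⟩
    by_contra hcon
    rw [Set.mem_union, not_or] at hcon
    have h1 : P x ≤ (1 + H x) ^ 2 := by
      by_contra h
      exact hcon.1 ⟨hx, not_le.1 h⟩
    have h2 : K x ≤ (1 + P x) ^ 2 := by
      by_contra h
      exact hcon.2 ⟨hx, not_le.1 h⟩
    rw [hHeq x hx, ← hKG x hx] at hx2
    have h3 := hHnn x hx
    have h4 := hPnn x hx
    have h5 : 1 ≤ (1 + H x) ^ 2 := by nlinarith only [h3]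
    have h6 : 1 + P x ≤ 2 * (1 + H x) ^ 2 := by linarith only [h1, h5]
    have h7 : (1 + P x) ^ 2 ≤ (2 * (1 + H x) ^ 2) ^ 2 :=
      pow_le_pow_left₀ (by linarith) h6 2
    have h8 : (2 * (1 + H x) ^ 2) ^ 2 = 4 * (1 + H x) ^ 4 := by ring
    linarith only [hx2, h2, h7]
  calc _ ≤ volume ({x | x₀ ≤ x ∧ (1 + H x) ^ 2 < P x} ∪ {x | x₀ ≤ x ∧ (1 + P x) ^ 2 < K x}) :=
        measure_mono hsub
    _ ≤ volume {x | x₀ ≤ x ∧ (1 + H x) ^ 2 < P x} + volume {x | x₀ ≤ x ∧ (1 + P x) ^ 2 < K x} :=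
        measure_union_le _ _
    _ ≤ 1 + 1 := add_le_add hE1 hE2
    _ = 2 := by norm_num

end Pool.Agent.H62.FC

end
end

section

/-!
# A function which takes every value finitely often near a puncture
-/

open Complex Metric Set Topology Filter

namespace Pool.Agent.H92.GGL

lemma isPreconnected_punctured (R : ℝ) : IsPreconnected {z : ℂ | 0 < ‖z‖ ∧ ‖z‖ < R} := by
  rcases le_or_gt R 0 with hR | hR
  · have : {z : ℂ | 0 < ‖z‖ ∧ ‖z‖ < R} = ∅ := by
      ext z
      simp only [mem_ofPred_eq, mem_empty_iff_false, iff_false, not_and, not_lt]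
      intro h
      linarith
    rw [this]
    exact isPreconnected_empty
  · have h1 : {z : ℂ | 0 < ‖z‖ ∧ ‖z‖ < R} = exp '' {τ : ℂ | τ.re < Real.log R} := by
      ext z
      constructor
      · rintro ⟨h1, h2⟩
        refine ⟨log z, ?_, exp_log (norm_pos_iff.mp h1)⟩
        rw [mem_ofPred_eq, log_re]
        exact Real.log_lt_log h1 h2
      · rintro ⟨τ, hτ, rfl⟩
        rw [mem_ofPred_eq, norm_exp]
        refine ⟨Real.exp_pos _, ?_⟩
        rw [← Real.exp_log hR]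
        exact Real.exp_lt_exp.mpr hτ
    rw [h1]
    exact ((convex_halfSpace_re_lt _).isPreconnected).image _ continuous_exp.continuousOn

lemma isOpen_punctured (R : ℝ) : IsOpen {z : ℂ | 0 < ‖z‖ ∧ ‖z‖ < R} :=
  (isOpen_lt continuous_const continuous_norm).inter (isOpen_lt continuous_norm continuous_const)

lemma punctured_mem {R : ℝ} (hR : 0 < R) : {z : ℂ | 0 < ‖z‖ ∧ ‖z‖ < R} ∈ 𝓝[≠] (0 : ℂ) := by
  have h1 : Metric.ball (0 : ℂ) R ∈ 𝓝 (0 : ℂ) := Metric.ball_mem_nhds _ hR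
  filter_upwards [mem_nhdsWithin_of_mem_nhds h1, self_mem_nhdsWithin] with z h2 h3
  exact ⟨norm_pos_iff.mpr h3, by simpa using h2⟩

/-- A bounded holomorphic function on a punctured disc is meromorphic at the puncture. -/
lemma meromorphicAt_of_bounded {u : ℂ → ℂ} {ε M : ℝ} (hε : 0 < ε)
    (hu : ∀ z, 0 < ‖z‖ → ‖z‖ < ε → AnalyticAt ℂ u z) (hM : ∀ z, 0 < ‖z‖ → ‖z‖ < ε → ‖u z‖ ≤ M) :
    ∃ w : ℂ → ℂ, AnalyticAt ℂ w 0 ∧ ∀ z, z ≠ 0 → w z = u z := by
  have h1 : Metric.ball (0 : ℂ) ε ∈ 𝓝 (0 : ℂ) := Metric.ball_mem_nhds _ hε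
  have hmem : ∀ z ∈ Metric.ball (0 : ℂ) ε \ {0}, 0 < ‖z‖ ∧ ‖z‖ < ε := by
    intro z hz
    refine ⟨norm_pos_iff.mpr hz.2, by simpa using hz.1⟩
  have h2 := differentiableOn_update_limUnder_of_bddAbove h1 (f := u)
    (fun z hz => (hu z (hmem z hz).1 (hmem z hz).2).differentiableAt.differentiableWithinAt) (by
      refine ⟨M, ?_⟩
      rintro _ ⟨z, hz, rfl⟩
      exact hM z (hmem z hz).1 (hmem z hz).2)
  refine ⟨_, (h2.analyticAt h1), fun z hz => ?_⟩
  rw [Function.update_of_ne hz]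

/-- **A theorem of Casorati–Weierstrass type.** -/
theorem meromorphicAt_of_omits {u : ℂ → ℂ} {ε : ℝ} (hε : 0 < ε)
    (hu : ∀ z, 0 < ‖z‖ → ‖z‖ < ε → AnalyticAt ℂ u z)
    (hom : ∀ c, ∃ δ : ℝ, 0 < δ ∧ ∀ z, 0 < ‖z‖ → ‖z‖ < δ → u z ≠ c) : MeromorphicAt u 0 := by
  set A : ℕ → Set ℂ := fun n => {z : ℂ | 0 < ‖z‖ ∧ ‖z‖ < ε / (n + 1)} with hA
  have hεn : ∀ n : ℕ, 0 < ε / (n + 1) := fun n => by positivity
  have hεle : ∀ n : ℕ, ε / (n + 1) ≤ ε := fun n => by
    apply div_le_self hε.le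
    have : (0 : ℝ) ≤ n := Nat.cast_nonneg n
    linarith
  have hAsub : ∀ n, ∀ z ∈ A n, 0 < ‖z‖ ∧ ‖z‖ < ε := fun n z hz =>
    ⟨hz.1, hz.2.trans_le (hεle n)⟩
  by_cases hdense : ∀ n, Dense (u '' A n)
  · exfalso
    have hopen : ∀ n, IsOpen (u '' A n) := by
      intro n
      have han : AnalyticOnNhd ℂ u (A n) := fun z hz => hu z (hAsub n z hz).1 (hAsub n z hz).2
      rcases han.is_constant_or_isOpen (isPreconnected_punctured _) with ⟨w, hw⟩ | hop
      · exfalso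
        obtain ⟨δ, hδ, hδu⟩ := hom w
        obtain ⟨z, hz1, hz2⟩ := Filter.nonempty_of_mem
          (Filter.inter_mem (punctured_mem (hεn n)) (punctured_mem hδ))
        exact hδu z hz2.1 hz2.2 (hw z hz1)
      · exact hop _ subset_rfl (isOpen_punctured _)
    have hD : Dense (⋂ n, u '' A n) := dense_iInter_of_isOpen hopen hdense
    obtain ⟨c, hc⟩ := hD.nonempty
    rw [mem_iInter] at hc
    obtain ⟨δ, hδ, hδu⟩ := hom c
    obtain ⟨n, hn⟩ := exists_nat_gt (ε / δ)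
    obtain ⟨z, hz, hzc⟩ := hc n
    refine hδu z hz.1 (hz.2.trans ?_) hzc
    rw [div_lt_iff₀ (by positivity)]
    rw [div_lt_iff₀ hδ] at hn
    nlinarith
  · push Not at hdense
    obtain ⟨n, hn⟩ := hdense
    obtain ⟨c, hc⟩ : ∃ c, c ∉ closure (u '' A n) := by
      by_contra h
      push Not at h
      exact hn h
    rw [Metric.mem_closure_iff] at hc
    push Not at hc
    obtain ⟨η, hη, hηu⟩ := hc
    have hlow : ∀ z, 0 < ‖z‖ → ‖z‖ < ε / (n + 1) → η ≤ ‖u z - c‖ := by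
      intro z h1 h2
      have := hηu _ ⟨z, ⟨h1, h2⟩, rfl⟩
      rwa [dist_comm, dist_eq_norm] at this
    have hne : ∀ z, 0 < ‖z‖ → ‖z‖ < ε / (n + 1) → u z - c ≠ 0 := by
      intro z h1 h2 h0
      have := hlow z h1 h2
      rw [h0, norm_zero] at this
      linarith
    obtain ⟨w, hw, hwu⟩ := meromorphicAt_of_bounded (u := fun z => (u z - c)⁻¹) (M := η⁻¹) (hεn n)
      (fun z h1 h2 => ((hu z h1 (h2.trans_le (hεle n))).sub analyticAt_const).inv (hne z h1 h2))
      (fun z h1 h2 => by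
        rw [norm_inv]
        exact inv_anti₀ hη (hlow z h1 h2))
    have h1 : MeromorphicAt (fun z => (w z)⁻¹ + c) 0 :=
      (hw.meromorphicAt.inv).add (MeromorphicAt.const c 0)
    refine h1.congr ?_
    filter_upwards [self_mem_nhdsWithin] with z hz
    rw [hwu z hz]
    simp

end Pool.Agent.H92.GGL

end

section

/-!
# Transcendence bases among the coordinates
-/

noncomputable section

namespace Pool.Agent.H92.GT

open scoped IntermediateField.algebraAdjoinAdjoin in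
/-- If `K` is algebraic over `ℂ(x)` there is a transcendence basis among the coordinates. -/
theorem exists_index {K : Type} [Field K] [Algebra ℂ K] {k n : ℕ} {x : Fin n → K}
    (halg : Algebra.IsAlgebraic (IntermediateField.adjoin ℂ (Set.range x)) K) {z : Fin k → K}
    (hz : IsTranscendenceBasis ℂ z) :
    ∃ J : Fin k → Fin n, IsTranscendenceBasis ℂ fun i => x (J i) := by
  have h1 : Algebra.IsAlgebraic (Algebra.adjoin ℂ (Set.range x)) K :=
    (IsFractionRing.comap_isAlgebraic_iff (A := Algebra.adjoin ℂ (Set.range x))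
      (K := IntermediateField.adjoin ℂ (Set.range x)) (C := K)).mpr halg
  obtain ⟨u, hu, hub⟩ := exists_isTranscendenceBasis_subset (R := ℂ) (Set.range x)
  have h2 := hub.cardinalMk_eq hz
  rw [Cardinal.mk_fin] at h2
  have h3 : Finite u := by
    rw [← Cardinal.lt_aleph0_iff_finite, h2]
    exact Cardinal.natCast_lt_aleph0
  have h4 : Nat.card u = k := by
    rw [Nat.card, h2]
    simp
  let eqv : Fin k ≃ u := (finCongr h4.symm).trans (Finite.equivFin u).symm
  choose J hJ using fun i : Fin k => hu (eqv i).2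
  refine ⟨J, ?_⟩
  have h5 : (fun i => x (J i)) = (Subtype.val : u → K) ∘ eqv := funext hJ
  rw [h5, isTranscendenceBasis_equiv]
  exact hub

open scoped IntermediateField.algebraAdjoinAdjoin in
/-- A criterion for transcendence bases. -/
theorem isTranscendenceBasis_of {K : Type} [Field K] [Algebra ℂ K] {k : ℕ} {z : Fin k → K}
    (hz : AlgebraicIndependent ℂ z)
    (halg : Algebra.IsAlgebraic (IntermediateField.adjoin ℂ (Set.range z)) K) :
    IsTranscendenceBasis ℂ z := by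
  rw [hz.isTranscendenceBasis_iff_isAlgebraic]
  exact (IsFractionRing.comap_isAlgebraic_iff (A := Algebra.adjoin ℂ (Set.range z))
      (K := IntermediateField.adjoin ℂ (Set.range z)) (C := K)).mpr halg

end Pool.Agent.H92.GT

end
end

section

set_option autoImplicit false

/-!
# Basic facts on the total space, and a criterion for non-hyperbolicity
-/

open MvPolynomial Topology Filter

namespace Pool.Agent.H99.Cover

variable {N : ℕ} {ι : Type}

/-- The exponential of the inverse takes every non-zero value near zero. -/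
lemma exists_seq_exp_inv (σ : ℂ) (hσ : σ ≠ 0) :
    ∃ zs : ℕ → ℂ, Tendsto zs atTop (𝓝 0) ∧ ∀ᶠ n in atTop, zs n ≠ 0 ∧ Complex.exp (zs n)⁻¹ = σ := by
  have h : Tendsto (fun n : ℕ => Complex.log σ + n * (2 * Real.pi * Complex.I)) atTop
      (Bornology.cobounded ℂ) := by
    rw [← tendsto_norm_atTop_iff_cobounded]
    have h1 : Tendsto (fun n : ℕ => (n : ℝ) * (2 * Real.pi) - ‖Complex.log σ‖) atTop atTop := by
      refine tendsto_atTop_add_const_right _ _ ?_
      exact (tendsto_natCast_atTop_atTop).atTop_mul_const (by positivity)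
    refine tendsto_atTop_mono ?_ h1
    intro n
    have h2 : ‖(n : ℂ) * (2 * Real.pi * Complex.I)‖ = n * (2 * Real.pi) := by
      rw [norm_mul, norm_mul, norm_mul]
      simp [Real.pi_pos.le, abs_of_nonneg]
    have h3 : ‖(n : ℂ) * (2 * Real.pi * Complex.I)‖ ≤
        ‖Complex.log σ + n * (2 * Real.pi * Complex.I)‖ + ‖Complex.log σ‖ := by
      have := norm_sub_le (Complex.log σ + n * (2 * Real.pi * Complex.I)) (Complex.log σ)
      simpa using this
    linarith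
  refine ⟨fun n => (Complex.log σ + n * (2 * Real.pi * Complex.I))⁻¹,
    Filter.tendsto_inv₀_cobounded.comp h, ?_⟩
  have hne : ∀ᶠ n : ℕ in atTop, Complex.log σ + n * (2 * Real.pi * Complex.I) ≠ 0 := by
    have h5 := h.eventually (Bornology.eventually_ne_cobounded (0 : ℂ))
    exact h5
  filter_upwards [hne] with n hn
  refine ⟨inv_ne_zero hn, ?_⟩
  rw [inv_inv, Complex.exp_add, Complex.exp_log hσ, Complex.exp_nat_mul_two_pi_mul_I, mul_one]

end Pool.Agent.H99.Cover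

end
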