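import Pool.Agent.H94.DG.M02
import Pool.Agent.H94.DG.M04

/-! The parts of this file: H5.DG.SecDim, H5.DG.SplitLem, H5.DG2.TrLt, H62.FC.Nev0, H62.FC.Potential, H92.GGL.DenseLines. -/

section

/-!
# Project DG2, module SecDim: finite covers of the same dimension are dominant

`X → Y` is a finite morphism, given by forms `F a`, and `X` and `Y` have the same dimension.  Then a
form `g` which does not vanish identically on `Y` does not vanish identically on `X` either.  The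
quotients `u a = F a / F a₀` are algebraic functions of some of them, `u (J i)`, which form a
transcendence basis of the function field of `X`.  The coordinate functions `η (J i)` of `Y` are
algebraically independent, so they form a transcendence basis, and `g (η)` satisfies an algebraic
equation over `ℂ(η (J i))` with non-zero constant term, which is also true for `g (u)`.
-/

open MvPolynomial

noncomputable section

namespace Pool.Agent.H5.DG

/-- The values of a form at proportional points. -/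
theorem aeval_eq_pow_mul {m n : ℕ} {K : Type} [Field K] [Algebra ℂ K]
    {G : MvPolynomial (Fin m) ℂ} (hG : G.IsHomogeneous n) {x y : Fin m → K} {c : K}
    (hxy : ∀ i, x i = c * y i) : aeval x G = c ^ n * aeval y G := by
  obtain rfl : x = fun i => c * y i := funext hxy
  rw [aeval_def, aeval_def, eval₂_eq, eval₂_eq, Finset.mul_sum]
  refine Finset.sum_congr rfl fun m hm => ?_
  have h5 : ∑ i ∈ m.support, m i = n := by
    have := hG (mem_support_iff.1 hm)
    rw [Finsupp.weight_apply, Finsupp.sum] at this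
    simpa using this
  simp only [mul_pow, Finset.prod_mul_distrib]
  rw [Finset.prod_pow_eq_pow_sum, h5]
  ring

/-- The homogenisation with respect to the variable `a₀`. -/
theorem exists_homogenise {M : ℕ} (a₀ : Fin (M + 1)) (R : MvPolynomial (Fin (M + 1)) ℂ) :
    ∃ S : MvPolynomial (Fin (M + 1)) ℂ, S.IsHomogeneous R.totalDegree ∧
      ∀ {K : Type} [Field K] [Algebra ℂ K] (x : Fin (M + 1) → K), x a₀ = 1 →
        aeval x S = aeval x R := by
  classical
  refine ⟨∑ d ∈ Finset.range (R.totalDegree + 1),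
    X a₀ ^ (R.totalDegree - d) * homogeneousComponent d R, ?_, ?_⟩
  · refine MvPolynomial.IsHomogeneous.sum _ _ _ fun d hd => ?_
    have h1 := (isHomogeneous_X_pow (R := ℂ) a₀ (R.totalDegree - d)).mul
      (homogeneousComponent_isHomogeneous d R)
    rwa [Nat.sub_add_cancel (Nat.lt_succ_iff.1 (Finset.mem_range.1 hd))] at h1
  · intro K _ _ x hx
    conv_rhs => rw [← sum_homogeneousComponent R]
    rw [map_sum, map_sum]
    refine Finset.sum_congr rfl fun d _ => ?_
    rw [map_mul, map_pow, aeval_X, hx, one_pow, one_mul]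

end Pool.Agent.H5.DG

end
end

section

/-!
# Project DG, A2: polynomials that vanish only on finitely many hyperplanes

Proof. Strong induction on `k` is possible: `P` homogeneous of degree `k`, `P (e₀) = 1`. If `k = 0`, `P = 1`.
Otherwise let `q` be an irreducible factor of `P`. `q` vanishes only on the union of the hyperplanes `t = 0`, `t ∈ T`,
so `∏ t` vanishes on the zero set of `q`, hence (Nullstellensatz, `q` prime) `q` divides `∏ t`, so `q` is associated
with some linear form `t`; thus `t ∣ P`, `P = t * P'`, `P'` is homogeneous of degree `k - 1`, `P' (e₀) = 1`, and its zeros are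
zeros of `P`. (Note `t (e₀) = t 0 = 1`.)
-/

open MvPolynomial

noncomputable section

namespace Pool.Agent.H5.DG

private theorem splitLem_cofactor {K : Type} [Field K] {σ : Type} {k : ℕ}
    {ℓ Q : MvPolynomial σ K} (hℓ : ℓ.IsHomogeneous 1) (hℓ0 : ℓ ≠ 0)
    (h : (ℓ * Q).IsHomogeneous (k + 1)) : Q.IsHomogeneous k := by
  have key : ∀ j, homogeneousComponent (j + 1) (ℓ * Q) = ℓ * homogeneousComponent j Q := by
    intro j
    conv_lhs => rw [← sum_homogeneousComponent Q]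
    rw [Finset.mul_sum, map_sum]
    have h1 : ∀ i, homogeneousComponent (j + 1) (ℓ * homogeneousComponent i Q) =
        if i = j then ℓ * homogeneousComponent j Q else 0 := by
      intro i
      have h2 : (ℓ * homogeneousComponent i Q).IsHomogeneous (1 + i) :=
        hℓ.mul (homogeneousComponent_isHomogeneous i Q)
      rw [homogeneousComponent_of_mem h2]
      by_cases hij : i = j
      · subst hij
        rw [if_pos (by omega), if_pos rfl]
      · rw [if_neg (by omega), if_neg hij]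
    rw [Finset.sum_congr rfl fun i _ => h1 i, Finset.sum_ite_eq']
    split_ifs with hj
    · rfl
    · rw [homogeneousComponent_eq_zero, mul_zero]
      rw [Finset.mem_range] at hj
      omega
  have h3 : ∀ j, j ≠ k → homogeneousComponent j Q = 0 := by
    intro j hj
    have h4 := key j
    rw [homogeneousComponent_of_mem h, if_neg (by omega)] at h4
    rcases mul_eq_zero.1 h4.symm with h5 | h5
    · exact absurd h5 hℓ0
    · exact h5
  have h6 : Q = homogeneousComponent k Q := by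
    ext α
    rw [coeff_homogeneousComponent]
    split_ifs with hα
    · rfl
    · have h7 := h3 α.degree hα
      have h8 := congrArg (coeff α) h7
      rwa [coeff_homogeneousComponent, if_pos rfl, coeff_zero] at h8
  rw [h6]
  exact homogeneousComponent_isHomogeneous k Q

private theorem splitLem_lin_hom {K : Type} [Field K] {m : ℕ} (t : Fin (m + 1) → K) :
    (∑ a, C (t a) * X a : MvPolynomial (Fin (m + 1)) K).IsHomogeneous 1 :=
  MvPolynomial.IsHomogeneous.sum _ _ _ fun a _ => by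
    simpa using (isHomogeneous_C (Fin (m + 1)) (t a)).mul (isHomogeneous_X K a)

private theorem splitLem_lin_eval {K : Type} [Field K] {m : ℕ} (t w : Fin (m + 1) → K) :
    eval w (∑ a, C (t a) * X a : MvPolynomial (Fin (m + 1)) K) = ∑ a, t a * w a := by
  simp

private theorem splitLem_lin_ne {K : Type} [Field K] {m : ℕ} (t : Fin (m + 1) → K)
    (ht : t 0 = 1) : (∑ a, C (t a) * X a : MvPolynomial (Fin (m + 1)) K) ≠ 0 := by
  intro h
  have h1 := splitLem_lin_eval t (Pi.single 0 1)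
  rw [h, map_zero] at h1
  simp [Pi.single_apply, ht] at h1

theorem split_lemma {L : Type} [Field L] [IsAlgClosed L] {m : ℕ} (k : ℕ)
    (P : MvPolynomial (Fin (m + 1)) L) (hP : P.IsHomogeneous k)
    (h0 : eval (Pi.single 0 1) P = 1) (T : Set (Fin (m + 1) → L)) (hTf : T.Finite)
    (hT0 : ∀ t ∈ T, t 0 = 1)
    (hz : ∀ w, eval w P = 0 → ∃ t ∈ T, ∑ a, t a * w a = 0) :
    ∃ t : Fin k → Fin (m + 1) → L, (∀ s, t s ∈ T) ∧ P = ∏ s, ∑ a, C (t s a) * X a := by
  classical
  induction k generalizing P with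
  | zero =>
    refine ⟨fun s => s.elim0, fun s => s.elim0, ?_⟩
    have hP0 : P.totalDegree = 0 := by
      by_cases h : P = 0
      · simp [h]
      · exact hP.totalDegree h
    rw [totalDegree_eq_zero_iff_eq_C] at hP0
    rw [hP0, eval_C] at h0
    rw [hP0, h0]
    simp
  | succ k ih =>
    have hPne : P ≠ 0 := by
      rintro rfl
      simp at h0
    have hPu : ¬ IsUnit P := by
      intro h
      have h1 := (MvPolynomial.isUnit_iff_totalDegree_of_isReduced.1 h).2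
      rw [hP.totalDegree hPne] at h1
      omega
    obtain ⟨q, hq, hqP⟩ := WfDvdMonoid.exists_irreducible_factor hPu hPne
    have hqp : Prime q := hq.prime
    have hmem : (∏ t ∈ hTf.toFinset, ∑ a, C (t a) * X a : MvPolynomial (Fin (m + 1)) L) ∈
        Ideal.span {q} := by
      have hprime : (Ideal.span {q}).IsPrime := (Ideal.span_singleton_prime hqp.ne_zero).2 hqp
      rw [← MvPolynomial.IsPrime.vanishingIdeal_zeroLocus (K := L) (Ideal.span {q})]
      rw [mem_vanishingIdeal_iff]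
      intro w hw
      have hwq : eval w q = 0 := by
        have := hw q (Ideal.subset_span rfl)
        rwa [← MvPolynomial.coe_aeval_eq_eval] 
      have hwP : eval w P = 0 := by
        obtain ⟨s, rfl⟩ := hqP
        rw [map_mul, hwq, zero_mul]
      obtain ⟨t, ht, htw⟩ := hz w hwP
      rw [map_prod]
      refine Finset.prod_eq_zero (hTf.mem_toFinset.2 ht) ?_
      have := splitLem_lin_eval t w
      rw [htw, ← MvPolynomial.coe_aeval_eq_eval] at this
      exact this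
    rw [Ideal.mem_span_singleton] at hmem
    obtain ⟨t, ht, hqt⟩ := hqp.exists_mem_finset_dvd hmem
    have ht' : t ∈ T := hTf.mem_toFinset.1 ht
    set ℓ : MvPolynomial (Fin (m + 1)) L := ∑ a, C (t a) * X a with hℓdef
    have hℓhom : ℓ.IsHomogeneous 1 := splitLem_lin_hom t
    have hℓ0 : ℓ ≠ 0 := splitLem_lin_ne t (hT0 t ht')
    -- `ℓ` divides `P`
    have hℓP : ℓ ∣ P := by
      obtain ⟨r, hr⟩ := hqt
      have hr0 : r ≠ 0 := by
        rintro rfl
        rw [mul_zero] at hr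
        exact hℓ0 hr
      have hdeg := totalDegree_mul_of_isDomain hq.ne_zero hr0
      rw [← hr, hℓhom.totalDegree hℓ0] at hdeg
      have hqd : q.totalDegree ≠ 0 := by
        intro h
        apply hq.not_isUnit
        rw [totalDegree_eq_zero_iff_eq_C] at h
        rw [h]
        apply IsUnit.map
        rw [isUnit_iff_ne_zero]
        intro h2
        rw [h2, map_zero] at h
        exact hq.ne_zero h
      have hrd : r.totalDegree = 0 := by omega
      have hru : IsUnit r := by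
        rw [totalDegree_eq_zero_iff_eq_C] at hrd
        rw [hrd]
        apply IsUnit.map
        rw [isUnit_iff_ne_zero]
        intro h2
        rw [h2, map_zero] at hrd
        exact hr0 hrd
      have hassoc : Associated q ℓ := ⟨hru.unit, by rw [hr]; simp⟩
      exact hassoc.symm.dvd.trans hqP
    obtain ⟨Q, hQ⟩ := hℓP
    have hQhom : Q.IsHomogeneous k := splitLem_cofactor hℓhom hℓ0 (hQ ▸ hP)
    have hQ0 : eval (Pi.single 0 1) Q = 1 := by
      rw [hQ, map_mul, hℓdef, splitLem_lin_eval] at h0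
      simpa [Pi.single_apply, hT0 t ht'] using h0
    obtain ⟨t', ht'', hprod⟩ := ih Q hQhom hQ0 (fun w hw => hz w (by rw [hQ, map_mul, hw, mul_zero]))
    refine ⟨Fin.cons t t', ?_, ?_⟩
    · intro s
      refine Fin.cases ?_ (fun i => ?_) s
      · simpa using ht'
      · simpa using ht'' i
    · rw [Fin.prod_univ_succ]
      simp only [Fin.cons_zero, Fin.cons_succ]
      rw [← hprod]
      exact hQ

end Pool.Agent.H5.DG

end
end

section

/-!
# Project DG2, module TrLt: transcendence degrees of quotients by prime ideals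

`TD.lt`: let `f : Fin (s + 1) → R` be independent modulo `Q₂`; then it is independent modulo `Q₁`.  Take `b ∈ Q₂`, `b ∉ Q₁`.  If
`Fin.snoc f b` were dependent modulo `Q₁`, `b` would be algebraic over `ℂ(f)` modulo `Q₁`: a relation `∑ i, c_i (f) b ^ i ∈ Q₁` with
`c_0 (f) ∉ Q₁` (divide by a power of `b ∉ Q₁`); modulo `Q₂` it gives `c_0 (f) ∈ Q₂`, so `c_0 = 0`, a contradiction.
`TD.not_zero`: take `b ∈ Q₂ \ Q₁`; modulo `Q₁` it is algebraic over `ℂ`, so `b ≡ c`, `c ∈ ℂ` (`Q₁` prime, `ℂ` algebraically closed); `c ∈ Q₂`,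
so `c = 0`, `b ∈ Q₁`.
`exists_TD`: `D = ` the largest number of elements independent modulo `Q` (at most the number of variables, since the images of the
variables generate the quotient: transcendence degree).
-/

open MvPolynomial

noncomputable section

namespace Pool.Agent.H5.DG

variable {σ : Type} [Finite σ]

/-- The transcendence degree of the quotient by `Q` is at most `s`. -/
def TD (Q : Ideal (MvPolynomial σ ℂ)) (s : ℕ) : Prop :=
  ∀ f : Fin (s + 1) → MvPolynomial σ ℂ,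
    ¬ AlgebraicIndependent ℂ fun i => Ideal.Quotient.mkₐ ℂ Q (f i)

/-- A nonzero element of a domain which lies in the kernel of a surjection is transcendental over
every family which stays independent. -/
private theorem TrLt_transc {A B ι : Type} [CommRing A] [CommRing B] [IsDomain A] [Algebra ℂ A]
    [Algebra ℂ B] (π : A →ₐ[ℂ] B) {x : ι → A}
    (hx : AlgebraicIndependent ℂ fun i => π (x i)) {b : A} (hb : b ≠ 0) (hπ : π b = 0) :
    Transcendental (Algebra.adjoin ℂ (Set.range x)) b := by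
  intro halg
  obtain ⟨⟨r, hr⟩, hr0, hdvd⟩ := halg.exists_nonzero_dvd (mem_nonZeroDivisors_of_ne_zero hb)
  rw [Algebra.adjoin_range_eq_range_aeval] at hr
  obtain ⟨P, rfl⟩ := hr
  obtain ⟨c, hc⟩ := hdvd
  have h1 : aeval x P = b * c := hc
  have h2 : aeval (fun i => π (x i)) P = 0 := by
    have h3 := congrArg π h1
    rw [map_mul, hπ, zero_mul] at h3
    rw [← h3]
    exact (comp_aeval_apply (f := x) π P).symm
  have h4 : P = 0 := hx.eq_zero_of_aeval_eq_zero P h2
  apply hr0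
  apply Subtype.ext
  show aeval x P = 0
  rw [h4, map_zero]

theorem TD.lt {Q₁ Q₂ : Ideal (MvPolynomial σ ℂ)} (h₁ : Q₁.IsPrime) (h₂ : Q₂.IsPrime)
    (hlt : Q₁ < Q₂) {s : ℕ} (h : TD Q₁ (s + 1)) : TD Q₂ s := by
  intro f hf
  obtain ⟨b, hb2, hb1⟩ := Set.exists_of_ssubset hlt
  have hb0 : Ideal.Quotient.mkₐ ℂ Q₁ b ≠ 0 := fun h0 => hb1 (Ideal.Quotient.eq_zero_iff_mem.1 h0)
  let π : (MvPolynomial σ ℂ ⧸ Q₁) →ₐ[ℂ] (MvPolynomial σ ℂ ⧸ Q₂) :=
    Ideal.Quotient.factorₐ ℂ hlt.le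
  have hπb : π (Ideal.Quotient.mkₐ ℂ Q₁ b) = 0 := Ideal.Quotient.eq_zero_iff_mem.2 hb2
  have hf2 : AlgebraicIndependent ℂ fun i => π (Ideal.Quotient.mkₐ ℂ Q₁ (f i)) := hf
  have hf1 : AlgebraicIndependent ℂ fun i => Ideal.Quotient.mkₐ ℂ Q₁ (f i) :=
    AlgebraicIndependent.of_comp π hf2
  have ht := TrLt_transc π hf2 hb0 hπb
  have ho := (hf1.option_iff_transcendental _).2 ht
  refine h (fun i => ((finSuccEquivLast i).elim b f)) ?_
  have he := (algebraicIndependent_equiv (R := ℂ) (finSuccEquivLast (n := s + 1))).2 ho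
  convert he using 1
  funext i
  simp only [Function.comp_apply]
  cases finSuccEquivLast i <;> rfl

theorem TD.not_zero {Q₁ Q₂ : Ideal (MvPolynomial σ ℂ)} (h₁ : Q₁.IsPrime) (h₂ : Q₂.IsPrime)
    (hlt : Q₁ < Q₂) : ¬ TD Q₁ 0 := by
  intro h
  obtain ⟨b, hb2, hb1⟩ := Set.exists_of_ssubset hlt
  have hb0 : Ideal.Quotient.mkₐ ℂ Q₁ b ≠ 0 := fun h0 => hb1 (Ideal.Quotient.eq_zero_iff_mem.1 h0)
  refine h (fun _ => b) ?_
  show AlgebraicIndependent ℂ fun _ : Fin 1 => Ideal.Quotient.mkₐ ℂ Q₁ b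
  rw [algebraicIndependent_unique_type_iff]
  intro halg
  obtain ⟨r, hr0, c, hc⟩ := halg.exists_nonzero_dvd (mem_nonZeroDivisors_of_ne_zero hb0)
  obtain ⟨c, rfl⟩ := Ideal.Quotient.mkₐ_surjective ℂ Q₁ c
  have h1 : C r - b * c ∈ Q₁ := by
    rw [← Ideal.Quotient.eq_zero_iff_mem, map_sub, map_mul, sub_eq_zero]
    exact hc
  have h2 : C r ∈ Q₂ := by
    have h3 : C r = (C r - b * c) + b * c := by ring
    rw [h3]
    exact Q₂.add_mem (hlt.le h1) (Q₂.mul_mem_right _ hb2)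
  apply h₂.ne_top
  rw [Ideal.eq_top_iff_one]
  have h3 : (1 : MvPolynomial σ ℂ) = C r⁻¹ * C r := by
    rw [← C_mul, inv_mul_cancel₀ hr0, C_1]
  rw [h3]
  exact Q₂.mul_mem_left _ h2

theorem TD.mono {Q : Ideal (MvPolynomial σ ℂ)} {s s' : ℕ} (hs : s ≤ s') (h : TD Q s) :
    TD Q s' := by
  intro f hf
  refine h (fun i => f (Fin.castLE (by omega) i)) ?_
  exact hf.comp (Fin.castLE (by omega : s + 1 ≤ s' + 1)) (Fin.castLE_injective _)

/-- The transcendence degree. -/
theorem exists_TD {Q : Ideal (MvPolynomial σ ℂ)} (hQ : Q.IsPrime) : ∃ D : ℕ,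
    TD Q D ∧ ∃ f : Fin D → MvPolynomial σ ℂ,
      AlgebraicIndependent ℂ fun i => Ideal.Quotient.mkₐ ℂ Q (f i) := by
  have hfin : Algebra.trdeg ℂ (MvPolynomial σ ℂ ⧸ Q) < Cardinal.aleph0 :=
    trdeg_lt_aleph0_of_finiteType
  obtain ⟨D, hD⟩ := Cardinal.lt_aleph0.1 hfin
  have hinj : Function.Injective (algebraMap ℂ (MvPolynomial σ ℂ ⧸ Q)) := RingHom.injective _
  have : FaithfulSMul ℂ (MvPolynomial σ ℂ ⧸ Q) := (faithfulSMul_iff_algebraMap_injective _ _).2 hinj
  obtain ⟨s, hs⟩ := exists_isTranscendenceBasis ℂ (MvPolynomial σ ℂ ⧸ Q)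
  have hcard : Cardinal.mk s = D := by rw [hs.cardinalMk_eq_trdeg, hD]
  have : Finite s := Cardinal.lt_aleph0_iff_finite.1 (by rw [hcard]; exact Cardinal.natCast_lt_aleph0)
  have hN : Nat.card s = D := by
    rw [Nat.card, hcard, Cardinal.toNat_natCast]
  let e : Fin D ≃ s := (finCongr hN.symm).trans (Finite.equivFin s).symm
  choose g hg using Ideal.Quotient.mkₐ_surjective ℂ Q
  refine ⟨D, ?_, fun i => g (e i), ?_⟩
  · intro f hf
    have h1 := hf.cardinalMk_le_trdeg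
    rw [hD, Cardinal.mk_fin] at h1
    have h2 : D + 1 ≤ D := by exact_mod_cast h1
    omega
  · have h1 := (algebraicIndependent_equiv (R := ℂ) e).2 hs.1
    convert h1 using 1
    funext i
    rw [hg]
    rfl

/-- All elements are constants modulo the irrelevant ideal. -/
theorem TD_of_X_mem {Q : Ideal (MvPolynomial σ ℂ)} (hX : ∀ i, X i ∈ Q) (s : ℕ) : TD Q s := by
  intro f hf
  have h1 : ∀ p : MvPolynomial σ ℂ, p - C (constantCoeff p) ∈ Q := by
    intro p
    induction p using MvPolynomial.induction_on with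
    | C a => simp
    | add p q hp hq =>
      have h2 : p + q - C (constantCoeff (p + q)) =
          (p - C (constantCoeff p)) + (q - C (constantCoeff q)) := by
        rw [map_add, C_add]; ring
      rw [h2]
      exact Q.add_mem hp hq
    | mul_X p i hp =>
      have h2 : p * X i - C (constantCoeff (p * X i)) = p * X i := by simp
      rw [h2]
      exact Q.mul_mem_left _ (hX i)
  have h2 : aeval (fun i => Ideal.Quotient.mkₐ ℂ Q (f i))
      (X 0 - C (constantCoeff (f 0)) : MvPolynomial (Fin (s + 1)) ℂ) = 0 := by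
    rw [map_sub, aeval_X, aeval_C]
    exact Ideal.Quotient.eq_zero_iff_mem.2 (h1 (f 0))
  have h3 := hf.eq_zero_of_aeval_eq_zero _ h2
  have h4 := congrArg (eval fun _ => constantCoeff (f 0) + 1) h3
  simp at h4

end Pool.Agent.H5.DG

end
end

section

/-!
# Nevanlinna theory at a puncture: counting functions and the first main theorem
-/

noncomputable section

namespace Pool.Agent.H62.FC

open Filter Topology MeasureTheory
open Pool.Agent.H92.GGL (ordZ finite_ordZ jensen_punctured)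

variable {R₀ R₁ : ℝ}

theorem cnt_eq_sum {w : ℂ → ℝ} {r : ℝ} {T : Finset ℂ}
    (hT : ∀ s, r < ‖s‖ → ‖s‖ < R₁ → w s ≠ 0 → s ∈ T) (hr : 0 < r) :
    cnt w R₁ r = ∑ s ∈ T with r < ‖s‖ ∧ ‖s‖ < R₁, w s * Real.log (‖s‖ / r) := by
  unfold cnt
  apply finsum_mem_eq_sum_of_inter_support_eq
  ext s
  simp only [Set.mem_inter_iff, Set.mem_ofPred_eq, Finset.coe_filter, Function.mem_support]
  constructor
  · rintro ⟨⟨h1, h2⟩, h3⟩
    exact ⟨⟨hT s h1 h2 (fun h => h3 (by rw [h, zero_mul])), h1, h2⟩, h3⟩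
  · rintro ⟨⟨_, h1, h2⟩, h3⟩
    exact ⟨⟨h1, h2⟩, h3⟩

private theorem Nev0_exists {w : ℂ → ℝ} (h : R₁ < R₀) (hw : LocFin R₀ w) {r : ℝ} (hr : 0 < r) :
    ∃ T : Finset ℂ, ∀ s, r < ‖s‖ → ‖s‖ < R₁ → w s ≠ 0 → s ∈ T :=
  ⟨(hw r R₁ hr h).toFinset, fun _ h1 h2 h3 => (hw r R₁ hr h).mem_toFinset.mpr ⟨h1.le, h2.le, h3⟩⟩

private theorem Nev0_exists2 {w w' : ℂ → ℝ} (h : R₁ < R₀) (hw : LocFin R₀ w)
    (hw' : LocFin R₀ w') {r : ℝ} (hr : 0 < r) :
    ∃ T : Finset ℂ, (∀ s, r < ‖s‖ → ‖s‖ < R₁ → w s ≠ 0 → s ∈ T) ∧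
      ∀ s, r < ‖s‖ → ‖s‖ < R₁ → w' s ≠ 0 → s ∈ T := by
  classical
  obtain ⟨T, hT⟩ := Nev0_exists h hw hr
  obtain ⟨T', hT'⟩ := Nev0_exists h hw' hr
  exact ⟨T ∪ T', fun s h1 h2 h3 => Finset.mem_union_left _ (hT s h1 h2 h3),
    fun s h1 h2 h3 => Finset.mem_union_right _ (hT' s h1 h2 h3)⟩

theorem cnt_add {w w' : ℂ → ℝ} (h : R₁ < R₀) (hw : LocFin R₀ w) (hw' : LocFin R₀ w') {r : ℝ}
    (hr : 0 < r) : cnt (fun s => w s + w' s) R₁ r = cnt w R₁ r + cnt w' R₁ r := by
  obtain ⟨T, hT, hT'⟩ := Nev0_exists2 h hw hw' hr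
  rw [cnt_eq_sum hT hr, cnt_eq_sum hT' hr, cnt_eq_sum (w := fun s => w s + w' s) (T := T) ?_ hr,
    ← Finset.sum_add_distrib]
  · exact Finset.sum_congr rfl fun s _ => add_mul _ _ _
  · intro s h1 h2 h3
    by_cases h4 : w s = 0
    · refine hT' s h1 h2 fun h5 => h3 ?_
      rw [h4, h5, add_zero]
    · exact hT s h1 h2 h4

theorem cnt_mul {w : ℂ → ℝ} (c : ℝ) {r : ℝ} (h : R₁ < R₀) (hw : LocFin R₀ w) (hr : 0 < r) :
    cnt (fun s => c * w s) R₁ r = c * cnt w R₁ r := by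
  obtain ⟨T, hT⟩ := Nev0_exists h hw hr
  rw [cnt_eq_sum hT hr, cnt_eq_sum (w := fun s => c * w s) (T := T) ?_ hr, Finset.mul_sum]
  · exact Finset.sum_congr rfl fun s _ => mul_assoc _ _ _
  · intro s h1 h2 h3
    refine hT s h1 h2 fun h4 => h3 ?_
    rw [h4, mul_zero]

theorem cnt_mono {w w' : ℂ → ℝ} (h : R₁ < R₀) (hw : LocFin R₀ w) (hw' : LocFin R₀ w') {r : ℝ}
    (hr : 0 < r) (hle : ∀ s, r < ‖s‖ → ‖s‖ < R₁ → w s ≤ w' s) : cnt w R₁ r ≤ cnt w' R₁ r := by
  obtain ⟨T, hT, hT'⟩ := Nev0_exists2 h hw hw' hr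
  rw [cnt_eq_sum hT hr, cnt_eq_sum hT' hr]
  refine Finset.sum_le_sum fun s hs => ?_
  obtain ⟨_, h1, h2⟩ := Finset.mem_filter.mp hs
  refine mul_le_mul_of_nonneg_right (hle s h1 h2) (Real.log_nonneg ?_)
  rw [one_le_div hr]
  exact h1.le

theorem cnt_nonneg {w : ℂ → ℝ} {r : ℝ} (hr : 0 < r) (hw : ∀ s, 0 ≤ w s) : 0 ≤ cnt w R₁ r := by
  unfold cnt
  refine finsum_nonneg fun s => finsum_nonneg fun hs => ?_
  refine mul_nonneg (hw s) (Real.log_nonneg ?_)
  rw [one_le_div hr]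
  exact hs.1.le

/-- change of the outer radius -/
theorem cnt_radius {w : ℂ → ℝ} {R₂ : ℝ} (h1 : 0 < R₁) (h12 : R₁ ≤ R₂) (h : R₂ < R₀)
    (hw : LocFin R₀ w) :
    ∃ C : ℝ, ∀ x, Real.exp (-x) < R₁ →
      |cnt w R₂ (Real.exp (-x)) - cnt w R₁ (Real.exp (-x))| ≤ C * (1 + |x|) := by
  classical
  set T₀ : Finset ℂ := (hw R₁ R₂ h1 h).toFinset with hT₀
  refine ⟨∑ s ∈ T₀, |w s| * (|Real.log ‖s‖| + 1), fun x hx => ?_⟩
  have hr : 0 < Real.exp (-x) := Real.exp_pos _
  obtain ⟨T', hT'⟩ := Nev0_exists h hw hr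
  set T : Finset ℂ := T' ∪ T₀ with hTdef
  have hT : ∀ s, Real.exp (-x) < ‖s‖ → ‖s‖ < R₂ → w s ≠ 0 → s ∈ T :=
    fun s h3 h4 h5 => Finset.mem_union_left _ (hT' s h3 h4 h5)
  rw [cnt_eq_sum hT hr, cnt_eq_sum (R₁ := R₁) (T := T)
    (fun s h3 h4 h5 => hT s h3 (h4.trans_le h12) h5) hr, Finset.sum_filter, Finset.sum_filter,
    ← Finset.sum_sub_distrib]
  refine (Finset.abs_sum_le_sum_abs _ _).trans ?_
  have hsub : T₀ ⊆ T := Finset.subset_union_right
  have hz : ∀ s ∈ T, s ∉ T₀ →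
      |(if Real.exp (-x) < ‖s‖ ∧ ‖s‖ < R₂ then w s * Real.log (‖s‖ / Real.exp (-x)) else 0) -
        (if Real.exp (-x) < ‖s‖ ∧ ‖s‖ < R₁ then w s * Real.log (‖s‖ / Real.exp (-x)) else 0)| =
        0 := by
    intro s _ hs
    by_cases hws : w s = 0
    · simp [hws]
    by_cases hs1 : ‖s‖ < R₁
    · have hs2 : ‖s‖ < R₂ := hs1.trans_le h12
      simp [hs1, hs2]
    · by_cases hs2 : ‖s‖ < R₂
      · exact absurd ((hw R₁ R₂ h1 h).mem_toFinset.mpr ⟨not_lt.mp hs1, hs2.le, hws⟩) hs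
      · simp [hs1, hs2]
  rw [← Finset.sum_subset hsub hz, Finset.sum_mul]
  refine Finset.sum_le_sum fun s hs => ?_
  obtain ⟨hs1, hs2, hs3⟩ := (hw R₁ R₂ h1 h).mem_toFinset.mp hs
  have hs0 : 0 < ‖s‖ := h1.trans_le hs1
  have hb : |w s * Real.log (‖s‖ / Real.exp (-x))| ≤
      |w s| * (|Real.log ‖s‖| + 1) * (1 + |x|) := by
    rw [Real.log_div hs0.ne' hr.ne', Real.log_exp, sub_neg_eq_add, abs_mul, mul_assoc]
    refine mul_le_mul_of_nonneg_left ((abs_add_le _ _).trans ?_) (abs_nonneg _)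
    have h4 := abs_nonneg (Real.log ‖s‖)
    have h5 := abs_nonneg x
    nlinarith [mul_nonneg h4 h5]
  have hnn : 0 ≤ |w s| * (|Real.log ‖s‖| + 1) * (1 + |x|) := by positivity
  have hns : ¬ (Real.exp (-x) < ‖s‖ ∧ ‖s‖ < R₁) := fun h6 => not_lt.mpr hs1 h6.2
  rw [if_neg hns, sub_zero]
  split_ifs with h6
  · exact hb
  · rw [abs_zero]
    exact hnn

theorem MeroPunct.locFin {u : ℂ → ℂ} (hu : MeroPunct R₀ u) : LocFin R₀ (fun s => (ordZ u s : ℝ)) := by
  intro r b hr hb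
  refine (finite_ordZ hr hb hu.mero).subset ?_
  rintro s ⟨h1, h2, h3⟩
  exact ⟨h1, h2, fun h => h3 (by change ((ordZ u s : ℤ) : ℝ) = 0; rw [h]; simp)⟩

theorem MeroPunct.jensen {u : ℂ → ℂ} (hu : MeroPunct R₀ u) (h1 : 0 < R₁) (h : R₁ < R₀) :
    ∃ A B : ℝ, ∀ x, Real.exp (-x) < R₁ →
      mean (fun z => Real.log ‖u z‖) x = A + B * x + cnt (fun s => (ordZ u s : ℝ)) R₁ (Real.exp (-x)) := by
  classical
  obtain ⟨A, B, hAB⟩ := jensen_punctured h hu.mero hu.ord
  refine ⟨A, -B, fun x hx => ?_⟩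
  have hr : 0 < Real.exp (-x) := Real.exp_pos _
  obtain ⟨T, hT⟩ := Nev0_exists h hu.locFin hr
  have hT' : ∀ s, Real.exp (-x) < ‖s‖ → ‖s‖ < R₁ → ordZ u s ≠ 0 →
      s ∈ T.filter (fun s => Real.exp (-x) < ‖s‖ ∧ ‖s‖ < R₁) := by
    intro s h3 h4 h5
    exact Finset.mem_filter.mpr ⟨hT s h3 h4 (by exact_mod_cast h5), h3, h4⟩
  unfold mean
  rw [hAB (Real.exp (-x)) hr hx _ (fun s hs => (Finset.mem_filter.mp hs).2.2) hT',
    cnt_eq_sum hT hr, Real.log_exp]
  have e : ∀ s ∈ T.filter (fun s => Real.exp (-x) < ‖s‖ ∧ ‖s‖ < R₁),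
      (ordZ u s : ℝ) * Real.posLog (‖s‖ / Real.exp (-x)) =
      (ordZ u s : ℝ) * Real.log (‖s‖ / Real.exp (-x)) := by
    intro s hs
    have h3 := (Finset.mem_filter.mp hs).2.1
    have h4 : 1 ≤ |‖s‖ / Real.exp (-x)| := by
      rw [abs_of_nonneg (by positivity), one_le_div hr]
      exact h3.le
    rw [Real.posLog_eq_log h4]
  rw [Finset.sum_congr rfl e]
  ring

private theorem Nev0_mem {u : ℂ → ℂ} (hu : MeroPunct R₀ u) {x : ℝ} (hx : Real.exp (-x) < R₀) :
    MeromorphicOn u (Metric.sphere 0 |Real.exp (-x)|) := by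
  intro z hz
  rw [mem_sphere_zero_iff_norm, abs_of_pos (Real.exp_pos _)] at hz
  exact hu.mero z (by rw [hz]; exact Real.exp_pos _) (by rw [hz]; exact hx)

theorem MeroPunct.circleIntegrable_log {u : ℂ → ℂ} (hu : MeroPunct R₀ u) {x : ℝ}
    (hx : Real.exp (-x) < R₀) : CircleIntegrable (fun z => Real.log ‖u z‖) 0 (Real.exp (-x)) :=
  (Nev0_mem hu hx).circleIntegrable_log_norm

theorem MeroPunct.circleIntegrable_posLog {u : ℂ → ℂ} (hu : MeroPunct R₀ u) {x : ℝ}
    (hx : Real.exp (-x) < R₀) : CircleIntegrable (fun z => Real.posLog ‖u z‖) 0 (Real.exp (-x)) :=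
  (Nev0_mem hu hx).circleIntegrable_posLog_norm

theorem MeroPunct.mul {u v : ℂ → ℂ} (hu : MeroPunct R₀ u) (hv : MeroPunct R₀ v) :
    MeroPunct R₀ (fun z => u z * v z) where
  mero z h1 h2 := (hu.mero z h1 h2).mul (hv.mero z h1 h2)
  ord z h1 h2 := by
    have e : meromorphicOrderAt (fun z => u z * v z) z =
        meromorphicOrderAt u z + meromorphicOrderAt v z :=
      meromorphicOrderAt_mul (hu.mero z h1 h2) (hv.mero z h1 h2)
    rw [e]
    exact WithTop.add_ne_top.mpr ⟨hu.ord z h1 h2, hv.ord z h1 h2⟩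

private theorem Nev0_ord_inv (u : ℂ → ℂ) (z : ℂ) :
    meromorphicOrderAt (fun z => (u z)⁻¹) z = -meromorphicOrderAt u z :=
  meromorphicOrderAt_inv

theorem MeroPunct.inv {u : ℂ → ℂ} (hu : MeroPunct R₀ u) : MeroPunct R₀ (fun z => (u z)⁻¹) where
  mero z h1 h2 := (hu.mero z h1 h2).inv
  ord z h1 h2 := by
    rw [Nev0_ord_inv]
    intro h
    have h3 := hu.ord z h1 h2
    obtain ⟨k, hk⟩ := WithTop.ne_top_iff_exists.mp h3
    rw [← hk] at h
    exact absurd h (by exact WithTop.coe_ne_top (a := -k))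

private theorem Nev0_ordZ_inv {u : ℂ → ℂ} {z : ℂ} (h : meromorphicOrderAt u z ≠ ⊤) :
    ordZ (fun z => (u z)⁻¹) z = -ordZ u z := by
  unfold Pool.Agent.H92.GGL.ordZ
  rw [Nev0_ord_inv]
  obtain ⟨k, hk⟩ := WithTop.ne_top_iff_exists.mp h
  rw [← hk]
  have e : -((k : ℤ) : WithTop ℤ) = ((-k : ℤ) : WithTop ℤ) := rfl
  rw [e, WithTop.untop₀_coe, WithTop.untop₀_coe]

private theorem Nev0_locFin_comp {w : ℂ → ℝ} (hw : LocFin R₀ w) {f : ℝ → ℝ} (hf : f 0 = 0) :
    LocFin R₀ (fun s => f (w s)) := by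
  intro r b hr hb
  refine (hw r b hr hb).subset ?_
  rintro s ⟨h1, h2, h3⟩
  refine ⟨h1, h2, fun h => h3 ?_⟩
  change f (w s) = 0
  rw [h, hf]

private theorem Nev0_cnt_congr {w w' : ℂ → ℝ} {r : ℝ}
    (hle : ∀ s, r < ‖s‖ → ‖s‖ < R₁ → w s = w' s) : cnt w R₁ r = cnt w' R₁ r := by
  unfold cnt
  refine finsum_congr fun s => finsum_congr fun hs => ?_
  rw [hle s hs.1 hs.2]

/-- the characteristic function of the inverse -/
private theorem Nev0_inv {u : ℂ → ℂ} (hu : MeroPunct R₀ u) (h : R₁ < R₀) {x : ℝ}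
    (hx : Real.exp (-x) < R₁) :
    nevT (fun z => (u z)⁻¹) R₁ x = mean (fun z => Real.posLog ‖u z‖⁻¹) x +
      cnt (fun s => max (ordZ u s : ℝ) 0) R₁ (Real.exp (-x)) := by
  unfold nevT
  congr 1
  · congr 1
    funext z
    rw [norm_inv]
  · refine Nev0_cnt_congr fun s h1 h2 => ?_
    rw [Nev0_ordZ_inv (hu.ord s ((Real.exp_pos _).trans h1) (h2.trans h))]
    push_cast
    rw [neg_neg]

/-- first main theorem for `0` and `∞` -/
theorem MeroPunct.nevT_inv {u : ℂ → ℂ} (hu : MeroPunct R₀ u) (h1 : 0 < R₁) (h : R₁ < R₀) :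
    ∃ C : ℝ, ∀ x, Real.exp (-x) < R₁ →
      |nevT (fun z => (u z)⁻¹) R₁ x - nevT u R₁ x| ≤ C * (1 + |x|) := by
  obtain ⟨A, B, hAB⟩ := hu.jensen h1 h
  refine ⟨|A| + |B|, fun x hx => ?_⟩
  have hr : 0 < Real.exp (-x) := Real.exp_pos _
  have hx0 : Real.exp (-x) < R₀ := hx.trans h
  have hJ := hAB x hx
  have e1 : mean (fun z => Real.log ‖u z‖) x = mean (fun z => Real.posLog ‖u z‖) x -
      mean (fun z => Real.posLog ‖u z‖⁻¹) x := by
    unfold mean
    rw [← Real.circleAverage_fun_sub (hu.circleIntegrable_posLog hx0)]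
    · congr 1
      funext z
      rw [Real.posLog_sub_posLog_inv]
    · have := hu.inv.circleIntegrable_posLog hx0
      simpa only [norm_inv] using this
  have e2 : cnt (fun s => max (ordZ u s : ℝ) 0) R₁ (Real.exp (-x)) =
      cnt (fun s => (ordZ u s : ℝ)) R₁ (Real.exp (-x)) +
      cnt (fun s => max (-(ordZ u s : ℝ)) 0) R₁ (Real.exp (-x)) := by
    rw [← cnt_add h hu.locFin (Nev0_locFin_comp (f := fun t => max (-t) 0) hu.locFin (by simp)) hr]
    refine Nev0_cnt_congr fun s _ _ => ?_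
    rcases le_total (ordZ u s : ℝ) 0 with h3 | h3
    · rw [max_eq_right h3, max_eq_left (neg_nonneg.mpr h3), add_neg_cancel]
    · rw [max_eq_left h3, max_eq_right (neg_nonpos.mpr h3), add_zero]
  have e3 : nevT (fun z => (u z)⁻¹) R₁ x - nevT u R₁ x = -(A + B * x) := by
    rw [Nev0_inv hu h hx, nevT, e2]
    rw [e1] at hJ
    linarith
  rw [e3, abs_neg]
  have h4 := abs_nonneg A
  have h5 := abs_nonneg B
  have h6 := abs_nonneg x
  calc |A + B * x| ≤ |A| + |B * x| := abs_add_le _ _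
    _ = |A| + |B| * |x| := by rw [abs_mul]
    _ ≤ (|A| + |B|) * (1 + |x|) := by nlinarith [mul_nonneg h4 h6]

/-- the mean of `|log |u||` and the number of zeros and poles -/
theorem MeroPunct.mean_abs_add_cnt {u : ℂ → ℂ} (hu : MeroPunct R₀ u) (h1 : 0 < R₁) (h : R₁ < R₀) :
    ∃ C : ℝ, ∀ x, Real.exp (-x) < R₁ →
      mean (fun z => |Real.log ‖u z‖|) x + cnt (fun s => |(ordZ u s : ℝ)|) R₁ (Real.exp (-x)) ≤
        2 * nevT u R₁ x + C * (1 + |x|) := by
  obtain ⟨C, hC⟩ := hu.nevT_inv h1 h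
  refine ⟨C, fun x hx => ?_⟩
  have hr : 0 < Real.exp (-x) := Real.exp_pos _
  have hx0 : Real.exp (-x) < R₀ := hx.trans h
  have e1 : mean (fun z => |Real.log ‖u z‖|) x = mean (fun z => Real.posLog ‖u z‖) x +
      mean (fun z => Real.posLog ‖u z‖⁻¹) x := by
    unfold mean
    rw [← Real.circleAverage_fun_add (hu.circleIntegrable_posLog hx0)]
    · congr 1
      funext z
      have h2 := Real.half_mul_log_add_log_abs (x := ‖u z‖)
      have h3 := Real.posLog_sub_posLog_inv (x := ‖u z‖)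
      linarith
    · have := hu.inv.circleIntegrable_posLog hx0
      simpa only [norm_inv] using this
  have e2 : cnt (fun s => |(ordZ u s : ℝ)|) R₁ (Real.exp (-x)) =
      cnt (fun s => max (ordZ u s : ℝ) 0) R₁ (Real.exp (-x)) +
      cnt (fun s => max (-(ordZ u s : ℝ)) 0) R₁ (Real.exp (-x)) := by
    rw [← cnt_add h (Nev0_locFin_comp (f := fun t => max t 0) hu.locFin (by simp))
      (Nev0_locFin_comp (f := fun t => max (-t) 0) hu.locFin (by simp)) hr]
    refine Nev0_cnt_congr fun s _ _ => ?_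
    rcases le_total (ordZ u s : ℝ) 0 with h3 | h3
    · rw [max_eq_right h3, max_eq_left (neg_nonneg.mpr h3), zero_add, abs_of_nonpos h3]
    · rw [max_eq_left h3, max_eq_right (neg_nonpos.mpr h3), add_zero, abs_of_nonneg h3]
  have h2 := (abs_le.mp (hC x hx)).2
  have e3 : mean (fun z => |Real.log ‖u z‖|) x +
      cnt (fun s => |(ordZ u s : ℝ)|) R₁ (Real.exp (-x)) =
      nevT u R₁ x + nevT (fun z => (u z)⁻¹) R₁ x := by
    rw [e1, e2, Nev0_inv hu h hx, nevT]
    ring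
  rw [e3]
  linarith

end Pool.Agent.H62.FC

end
end

section

noncomputable section

namespace Pool.Agent.H62.FC

open Filter Topology MeasureTheory
open Pool.Agent.H92.GGL (ordZ)

/-- a branch of the logarithm -/
private theorem Potential_branch {g : ℂ → ℂ} {z₀ : ℂ} (hg : AnalyticAt ℂ g z₀) (h0 : g z₀ ≠ 0) :
    ∃ l : ℂ → ℂ, AnalyticAt ℂ l z₀ ∧ (∀ᶠ z in 𝓝 z₀, (l z).re = Real.log ‖g z‖) ∧
      deriv l z₀ = deriv g z₀ / g z₀ := by
  have h1 : g z₀ / g z₀ ∈ Complex.slitPlane := by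
    rw [div_self h0]
    exact Complex.one_mem_slitPlane
  have h2 : AnalyticAt ℂ (fun z => g z / g z₀) z₀ := hg.div analyticAt_const h0
  refine ⟨fun z => Complex.log (g z / g z₀) + (Real.log ‖g z₀‖ : ℂ), ?_, ?_, ?_⟩
  · exact (h2.clog h1).add analyticAt_const
  · filter_upwards [hg.continuousAt.eventually_ne h0] with z hz
    rw [Complex.add_re, Complex.log_re, Complex.ofReal_re, norm_div,
      Real.log_div (norm_ne_zero_iff.mpr hz) (norm_ne_zero_iff.mpr h0)]
    ring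
  · have h3 : HasDerivAt g (deriv g z₀) z₀ := hg.differentiableAt.hasDerivAt
    have h4 := ((h3.div_const (g z₀)).clog h1).add_const (Real.log ‖g z₀‖ : ℂ)
    rw [h4.deriv, div_self h0, div_one]

/-- the second derivative along a line -/
private theorem Potential_line {F W w : ℝ → ℝ} (hF : ∀ t, HasDerivAt F (W t) t)
    (hW : ∀ t, HasDerivAt W (w t) t) {l m : ℂ → ℂ} {ζ₀ : ℂ} (hl : AnalyticAt ℂ l ζ₀)
    (hm : AnalyticAt ℂ m ζ₀) (ζ₁ c : ℂ) (t₀ : ℝ) (h0 : ζ₁ + c * (t₀ : ℂ) = ζ₀) {g : ℝ → ℝ}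
    (hg : ∀ᶠ t in 𝓝 t₀, g t = F (l (ζ₁ + c * (t : ℂ))).re + (m (ζ₁ + c * (t : ℂ))).re) :
    deriv g t₀ = W (l ζ₀).re * (c * deriv l ζ₀).re + (c * deriv m ζ₀).re ∧
    iteratedDeriv 2 g t₀ = w (l ζ₀).re * (c * deriv l ζ₀).re ^ 2 +
      W (l ζ₀).re * (c ^ 2 * deriv (deriv l) ζ₀).re + (c ^ 2 * deriv (deriv m) ζ₀).re := by
  have hp : ∀ t : ℝ, HasDerivAt (fun t : ℝ => ζ₁ + c * (t : ℂ)) c t := by
    intro t
    have h1 : HasDerivAt (fun t : ℝ => (t : ℂ)) 1 t := Complex.ofRealCLM.hasDerivAt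
    have h2 := (h1.const_mul c).const_add ζ₁
    rwa [mul_one] at h2
  have hpc : ContinuousAt (fun t : ℝ => ζ₁ + c * (t : ℂ)) t₀ := (hp t₀).continuousAt
  have hcomp : ∀ {k : ℂ → ℂ} {t : ℝ}, AnalyticAt ℂ k (ζ₁ + c * (t : ℂ)) →
      HasDerivAt (fun t : ℝ => (k (ζ₁ + c * (t : ℂ))).re)
        (c * deriv k (ζ₁ + c * (t : ℂ))).re t := by
    intro k t hk
    have h1 : HasDerivAt (fun t : ℝ => k (ζ₁ + c * (t : ℂ)))
        (deriv k (ζ₁ + c * (t : ℂ)) * c) t :=
      HasDerivAt.comp t hk.differentiableAt.hasDerivAt (hp t)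
    have h2 := Complex.reCLM.hasFDerivAt.comp_hasDerivAt t h1
    rw [mul_comm] at h2
    exact h2
  have hl' : ∀ᶠ t : ℝ in 𝓝 t₀, AnalyticAt ℂ l (ζ₁ + c * (t : ℂ)) := by
    have h1 : ∀ᶠ z in 𝓝 (ζ₁ + c * (t₀ : ℂ)), AnalyticAt ℂ l z := by
      rw [h0]; exact hl.eventually_analyticAt
    exact hpc.eventually h1
  have hm' : ∀ᶠ t : ℝ in 𝓝 t₀, AnalyticAt ℂ m (ζ₁ + c * (t : ℂ)) := by
    have h1 : ∀ᶠ z in 𝓝 (ζ₁ + c * (t₀ : ℂ)), AnalyticAt ℂ m z := by
      rw [h0]; exact hm.eventually_analyticAt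
    exact hpc.eventually h1
  have hd1 : ∀ᶠ t : ℝ in 𝓝 t₀, HasDerivAt g (W (l (ζ₁ + c * (t : ℂ))).re *
      (c * deriv l (ζ₁ + c * (t : ℂ))).re + (c * deriv m (ζ₁ + c * (t : ℂ))).re) t := by
    filter_upwards [hl', hm', hg.eventually_nhds] with t h1 h2 h3
    have h4 : HasDerivAt (fun t : ℝ => F (l (ζ₁ + c * (t : ℂ))).re + (m (ζ₁ + c * (t : ℂ))).re)
        (W (l (ζ₁ + c * (t : ℂ))).re *
      (c * deriv l (ζ₁ + c * (t : ℂ))).re + (c * deriv m (ζ₁ + c * (t : ℂ))).re) t :=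
      ((hF _).comp t (hcomp h1)).add (hcomp h2)
    exact h4.congr_of_eventuallyEq h3
  constructor
  · have h1 := hd1.self_of_nhds.deriv
    rw [h0] at h1
    exact h1
  · rw [iteratedDeriv_succ, iteratedDeriv_one]
    have h1 : deriv g =ᶠ[𝓝 t₀] fun t : ℝ => W (l (ζ₁ + c * (t : ℂ))).re *
      (c * deriv l (ζ₁ + c * (t : ℂ))).re + (c * deriv m (ζ₁ + c * (t : ℂ))).re := by
      filter_upwards [hd1] with t ht using ht.deriv
    rw [h1.deriv_eq]
    have hl0 : AnalyticAt ℂ l (ζ₁ + c * (t₀ : ℂ)) := by rw [h0]; exact hl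
    have hm0 : AnalyticAt ℂ m (ζ₁ + c * (t₀ : ℂ)) := by rw [h0]; exact hm
    have h2 : HasDerivAt (fun t : ℝ => (c * deriv l (ζ₁ + c * (t : ℂ))).re)
        (c ^ 2 * deriv (deriv l) (ζ₁ + c * (t₀ : ℂ))).re t₀ := by
      have h3 := hcomp (k := fun z => c * deriv l z) (t := t₀) (analyticAt_const.mul hl0.deriv)
      have h4 : deriv (fun z => c * deriv l z) (ζ₁ + c * (t₀ : ℂ)) =
          c * deriv (deriv l) (ζ₁ + c * (t₀ : ℂ)) := by
        rw [deriv_const_mul_field]
      rw [h4, ← mul_assoc, ← pow_two] at h3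
      exact h3
    have h2' : HasDerivAt (fun t : ℝ => (c * deriv m (ζ₁ + c * (t : ℂ))).re)
        (c ^ 2 * deriv (deriv m) (ζ₁ + c * (t₀ : ℂ))).re t₀ := by
      have h3 := hcomp (k := fun z => c * deriv m z) (t := t₀) (analyticAt_const.mul hm0.deriv)
      have h4 : deriv (fun z => c * deriv m z) (ζ₁ + c * (t₀ : ℂ)) =
          c * deriv (deriv m) (ζ₁ + c * (t₀ : ℂ)) := by
        rw [deriv_const_mul_field]
      rw [h4, ← mul_assoc, ← pow_two] at h3
      exact h3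
    have h5 := (((hW _).comp t₀ (hcomp hl0)).mul h2).add h2'
    have h6 := h5.deriv
    rw [h0] at h6
    refine Eq.trans ?_ (h6.trans ?_)
    · rfl
    · simp only [Function.comp_apply, h0]
      ring

/-- the primitives of the weight -/
private structure Potential_Data (w : ℝ → ℝ) (M : ℝ) (F W : ℝ → ℝ) (a b : ℝ) : Prop where
  hF : ∀ t, HasDerivAt F (W t) t
  hW : ∀ t, HasDerivAt W (w t) t
  wc : Continuous w
  a0 : 0 ≤ a
  a1 : a ≤ 1
  W1 : ∀ t, |W t| ≤ 1
  F0 : ∀ t, 0 ≤ F t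
  F1 : ∀ t, F t ≤ |t|
  big : ∀ t, M ≤ |t| → F t = a * |t| - b
  wbig : ∀ t, M ≤ |t| → w t = 0

private theorem Potential_data {w : ℝ → ℝ} {M : ℝ} (hw : Continuous w) (h0 : ∀ t, 0 ≤ w t)
    (he : ∀ t, w (-t) = w t) (hM : 0 ≤ M) (hz : ∀ t, M ≤ t → w t = 0)
    (h1 : (∫ t in (0 : ℝ)..M, w t) ≤ 1) :
    ∃ F W : ℝ → ℝ, ∃ a b : ℝ, Potential_Data w M F W a b := by
  set W : ℝ → ℝ := fun ξ => ∫ t in (0 : ℝ)..ξ, w t with hWdef
  have hW : ∀ t, HasDerivAt W (w t) t := fun t => (hw.integral_hasStrictDerivAt 0 t).hasDerivAt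
  have hWc : Continuous W := continuous_iff_continuousAt.mpr fun t => (hW t).continuousAt
  set F : ℝ → ℝ := fun ξ => ∫ t in (0 : ℝ)..ξ, W t with hFdef
  have hF : ∀ t, HasDerivAt F (W t) t := fun t => (hWc.integral_hasStrictDerivAt 0 t).hasDerivAt
  have hii : ∀ p q, IntervalIntegrable w volume p q := fun p q => hw.intervalIntegrable p q
  have hiW : ∀ p q, IntervalIntegrable W volume p q := fun p q => hWc.intervalIntegrable p q
  have hWodd : ∀ t, W (-t) = -W t := by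
    intro t
    have h2 : (∫ x in (0 : ℝ)..t, w (-x)) = ∫ x in -t..-0, w x :=
      intervalIntegral.integral_comp_neg w
    simp only [he, neg_zero] at h2
    have h3 : (∫ x in (0 : ℝ)..-t, w x) = -∫ x in -t..0, w x := intervalIntegral.integral_symm _ _
    simp only [hWdef]
    rw [h3, h2]
  have hFeven : ∀ t, F (-t) = F t := by
    intro t
    have h2 : (∫ x in (0 : ℝ)..t, W (-x)) = ∫ x in -t..-0, W x :=
      intervalIntegral.integral_comp_neg W
    simp only [hWodd, neg_zero] at h2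
    rw [intervalIntegral.integral_neg] at h2
    have h3 : (∫ x in (0 : ℝ)..-t, W x) = -∫ x in -t..0, W x := intervalIntegral.integral_symm _ _
    simp only [hFdef]
    linarith only [h2, h3]
  have hWM : ∀ t, M ≤ t → W t = W M := by
    intro t ht
    have h2 : W M + (∫ x in M..t, w x) = W t :=
      intervalIntegral.integral_add_adjacent_intervals (hii 0 M) (hii M t)
    have h3 : (∫ x in M..t, w x) = 0 := by
      have : (∫ x in M..t, w x) = ∫ x in M..t, (0 : ℝ) := by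
        apply intervalIntegral.integral_congr
        intro x hx
        rw [Set.uIcc_of_le ht] at hx
        exact hz x hx.1
      rw [this]
      simp
    linarith only [h2, h3]
  have hW0 : ∀ t, 0 ≤ t → 0 ≤ W t := fun t ht =>
    intervalIntegral.integral_nonneg ht fun x _ => h0 x
  have hWle : ∀ t, 0 ≤ t → W t ≤ 1 := by
    intro t ht
    rcases le_total M t with h | h
    · rw [hWM t h]
      exact h1
    · have h2 : W t + (∫ x in t..M, w x) = W M :=
        intervalIntegral.integral_add_adjacent_intervals (hii 0 t) (hii t M)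
      have h3 : 0 ≤ ∫ x in t..M, w x := intervalIntegral.integral_nonneg h fun x _ => h0 x
      have h4 : W M ≤ 1 := h1
      linarith
  have hF0 : ∀ t, 0 ≤ t → 0 ≤ F t := fun t ht =>
    intervalIntegral.integral_nonneg ht fun x hx => hW0 x hx.1
  have hFle : ∀ t, 0 ≤ t → F t ≤ t := by
    intro t ht
    have h2 : F t ≤ ∫ x in (0 : ℝ)..t, (1 : ℝ) :=
      intervalIntegral.integral_mono_on ht (hiW 0 t) (intervalIntegrable_const)
        fun x hx => hWle x hx.1
    simpa using h2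
  have hFM : ∀ t, M ≤ t → F t = W M * t - (W M * M - F M) := by
    intro t ht
    have h2 : F M + (∫ x in M..t, W x) = F t :=
      intervalIntegral.integral_add_adjacent_intervals (hiW 0 M) (hiW M t)
    have h3 : (∫ x in M..t, W x) = W M * (t - M) := by
      have : (∫ x in M..t, W x) = ∫ x in M..t, W M := by
        apply intervalIntegral.integral_congr
        intro x hx
        rw [Set.uIcc_of_le ht] at hx
        exact hWM x hx.1
      rw [this, intervalIntegral.integral_const, smul_eq_mul, mul_comm]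
    rw [← h2, h3]
    ring
  have hFabs : ∀ t, F |t| = F t := by
    intro t
    rcases abs_cases t with ⟨h, _⟩ | ⟨h, _⟩
    · rw [h]
    · rw [h, hFeven]
  refine ⟨F, W, W M, W M * M - F M, ⟨hF, hW, hw, hW0 M hM, h1, ?_, ?_, ?_, ?_, ?_⟩⟩
  · intro t
    rcases le_total 0 t with h | h
    · rw [abs_of_nonneg (hW0 t h)]
      exact hWle t h
    · have h2 : W t = -W (-t) := by rw [hWodd, neg_neg]
      have h3 : 0 ≤ -t := by linarith
      rw [h2, abs_neg, abs_of_nonneg (hW0 _ h3)]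
      exact hWle _ h3
  · intro t
    rw [← hFabs]
    exact hF0 _ (abs_nonneg t)
  · intro t
    rw [← hFabs]
    exact hFle _ (abs_nonneg t)
  · intro t ht
    rw [← hFabs]
    exact hFM _ ht
  · intro t ht
    rcases abs_cases t with ⟨h, _⟩ | ⟨h, _⟩
    · rw [h] at ht
      exact hz t ht
    · rw [h] at ht
      rw [← he]
      exact hz _ ht

/-- normal forms on the punctured disc -/
private structure Potential_NF (R₀ : ℝ) (U : ℂ → ℂ) : Prop where
  mer : ∀ z, 0 < ‖z‖ → ‖z‖ < R₀ → MeromorphicAt U z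
  ana : ∀ z, 0 < ‖z‖ → ‖z‖ < R₀ → U z ≠ 0 → AnalyticAt ℂ U z
  fac : ∀ z, 0 < ‖z‖ → ‖z‖ < R₀ → ∃ h : ℂ → ℂ, AnalyticAt ℂ h z ∧ h z ≠ 0 ∧
    ∀ᶠ z' in 𝓝[≠] z, U z' = (z' - z) ^ (ordZ U z) * h z'
  ord : ∀ z, 0 < ‖z‖ → ‖z‖ < R₀ → (U z = 0 ↔ ordZ U z ≠ 0)

private theorem Potential_exists_nf {R₀ : ℝ} {u : ℂ → ℂ} (hu : MeroPunct R₀ u) :
    ∃ U : ℂ → ℂ, Potential_NF R₀ U ∧ (∀ z, 0 < ‖z‖ → ‖z‖ < R₀ → U =ᶠ[𝓝[≠] z] u) ∧
      ∀ z, 0 < ‖z‖ → ‖z‖ < R₀ → ordZ U z = ordZ u z := by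
  set D : Set ℂ := {z | 0 < ‖z‖ ∧ ‖z‖ < R₀} with hD
  have hm : MeromorphicOn u D := fun z hz => hu.mero z hz.1 hz.2
  have hnf : ∀ z, 0 < ‖z‖ → ‖z‖ < R₀ → MeromorphicNFAt (toMeromorphicNFOn u D) z :=
    fun z h1 h2 => meromorphicNFOn_toMeromorphicNFOn u D ⟨h1, h2⟩
  have hor : ∀ z, 0 < ‖z‖ → ‖z‖ < R₀ →
      meromorphicOrderAt (toMeromorphicNFOn u D) z = meromorphicOrderAt u z :=
    fun z h1 h2 => meromorphicOrderAt_toMeromorphicNFOn hm ⟨h1, h2⟩
  have hcast : ∀ z, 0 < ‖z‖ → ‖z‖ < R₀ → (ordZ (toMeromorphicNFOn u D) z : WithTop ℤ) =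
      meromorphicOrderAt (toMeromorphicNFOn u D) z := fun z h1 h2 =>
    Pool.Agent.H92.GGL.ordZ_cast (by rw [hor z h1 h2]; exact hu.ord z h1 h2)
  refine ⟨toMeromorphicNFOn u D, ⟨fun z h1 h2 => (hnf z h1 h2).meromorphicAt, ?_, ?_, ?_⟩, ?_, ?_⟩
  · intro z h1 h2 h3
    refine (hnf z h1 h2).meromorphicOrderAt_nonneg_iff_analyticAt.mp ?_
    rw [(hnf z h1 h2).meromorphicOrderAt_eq_zero_iff.mpr h3]
  · intro z h1 h2
    obtain ⟨h, ha, hb, hc⟩ := (meromorphicOrderAt_eq_int_iff (hnf z h1 h2).meromorphicAt).mp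
      (hcast z h1 h2).symm
    refine ⟨h, ha, hb, ?_⟩
    filter_upwards [hc] with z' hz'
    rw [hz', smul_eq_mul]
  · intro z h1 h2
    have h3 := (hnf z h1 h2).meromorphicOrderAt_eq_zero_iff
    rw [← hcast z h1 h2] at h3
    have h4 : ((ordZ (toMeromorphicNFOn u D) z : WithTop ℤ) = 0) ↔
        ordZ (toMeromorphicNFOn u D) z = 0 := by
      exact_mod_cast Iff.rfl
    rw [h4] at h3
    tauto
  · intro z h1 h2
    exact hm.toMeromorphicNFOn_eq_self_on_nhdsNE ⟨h1, h2⟩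
  · intro z h1 h2
    unfold ordZ
    rw [hor z h1 h2]

/-- functions which agree off a discrete set have the same means -/
private theorem Potential_mean_congr {f g : ℂ → ℝ} {x : ℝ}
    (h : ∀ z, ‖z‖ = Real.exp (-x) → f =ᶠ[𝓝[≠] z] g) : mean f x = mean g x := by
  unfold mean
  have hr : 0 < Real.exp (-x) := Real.exp_pos _
  refine Real.circleAverage_congr_codiscreteWithin ?_ hr.ne'
  rw [Filter.EventuallyEq, Filter.Eventually, mem_codiscreteWithin]
  intro z hz
  rw [mem_sphere_zero_iff_norm, abs_of_pos hr] at hz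
  rw [disjoint_principal_right]
  filter_upwards [h z hz] with z' hz'
  intro hc
  exact hc.2 hz'

/-- the logarithms of the linear factors -/
private theorem Potential_sumlog (T : Finset ℂ) (c : ℂ → ℝ) (z₀ : ℂ) (hT : z₀ ∉ T) :
    ∃ m : ℂ → ℂ, AnalyticAt ℂ m z₀ ∧
      (∀ᶠ z in 𝓝 z₀, (m z).re = ∑ s ∈ T, c s * Real.log ‖z - s‖) ∧
      deriv m z₀ = ∑ s ∈ T, (c s : ℂ) * (1 / (z₀ - s)) := by
  have h1 : ∀ s : ℂ, ∃ ls : ℂ → ℂ, s ∈ T → (AnalyticAt ℂ ls z₀ ∧
      (∀ᶠ z in 𝓝 z₀, (ls z).re = Real.log ‖z - s‖) ∧ deriv ls z₀ = 1 / (z₀ - s)) := by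
    intro s
    by_cases hs : s ∈ T
    · have hne : z₀ - s ≠ 0 := by
        intro h0
        exact hT (by rw [sub_eq_zero.mp h0]; exact hs)
      obtain ⟨l, hl, hl2, hl3⟩ := Potential_branch (g := fun z => z - s) (z₀ := z₀)
        (analyticAt_id.sub analyticAt_const) hne
      refine ⟨l, fun _ => ⟨hl, hl2, ?_⟩⟩
      have hd : deriv (fun z : ℂ => z - s) z₀ = 1 := by
        rw [deriv_sub_const]
        exact deriv_id z₀
      rw [hl3, hd]
    · exact ⟨0, fun h => absurd h hs⟩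
  choose ls hls using h1
  refine ⟨fun z => ∑ s ∈ T, (c s : ℂ) * ls s z, ?_, ?_, ?_⟩
  · apply Finset.analyticAt_fun_sum
    intro s hs
    exact analyticAt_const.mul (hls s hs).1
  · have h2 : ∀ᶠ z in 𝓝 z₀, ∀ s ∈ T, (ls s z).re = Real.log ‖z - s‖ := by
      rw [Filter.eventually_all_finset]
      exact fun s hs => (hls s hs).2.1
    filter_upwards [h2] with z hz
    rw [Complex.re_sum]
    refine Finset.sum_congr rfl fun s hs => ?_
    rw [Complex.re_ofReal_mul, hz s hs]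
  · rw [deriv_fun_sum fun s hs => (hls s hs).1.differentiableAt.const_mul _]
    refine Finset.sum_congr rfl fun s hs => ?_
    rw [deriv_const_mul_field, (hls s hs).2.2]

/-- the regularised function -/
private def Potential_g (F : ℝ → ℝ) (a : ℝ) (U : ℂ → ℂ) (T : Finset ℂ) (z : ℂ) : ℝ :=
  F (Real.log ‖U z‖) + a * ∑ s ∈ T, |(ordZ U s : ℝ)| * Real.log ‖z - s‖

/-- the local structure of the regularised function -/
private theorem Potential_loc {w : ℝ → ℝ} {M : ℝ} {F W : ℝ → ℝ} {a b : ℝ}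
    (hd : Potential_Data w M F W a b) {R₀ : ℝ} {U : ℂ → ℂ} (hU : Potential_NF R₀ U)
    {T : Finset ℂ} (hT : ∀ s ∈ T, U s = 0) {z₀ : ℂ} (h1 : 0 < ‖z₀‖) (h2 : ‖z₀‖ < R₀)
    (h3 : U z₀ = 0 → z₀ ∈ T) :
    ∃ l m : ℂ → ℂ, AnalyticAt ℂ l z₀ ∧ AnalyticAt ℂ m z₀ ∧
      (∀ᶠ z in 𝓝[≠] z₀, Potential_g F a U T z = F (l z).re + (m z).re) ∧
      w (Real.log ‖U z₀‖) * ‖z₀ * deriv U z₀ / U z₀‖ ^ 2 =
        w (l z₀).re * ‖z₀ * deriv l z₀‖ ^ 2 := by
  by_cases h0 : U z₀ = 0
  · have hz₀T := h3 h0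
    obtain ⟨h, hha, hh0, hfac⟩ := hU.fac z₀ h1 h2
    have hn : ordZ U z₀ ≠ 0 := (hU.ord z₀ h1 h2).mp h0
    obtain ⟨lh, hlha, hlh, -⟩ := Potential_branch hha hh0
    obtain ⟨m, hma, hm, -⟩ := Potential_sumlog (T.erase z₀) (fun s => a * |(ordZ U s : ℝ)|) z₀
      (Finset.notMem_erase z₀ T)
    set n : ℝ := (ordZ U z₀ : ℝ) with hnd
    have hn0 : n ≠ 0 := by
      rw [hnd]
      exact_mod_cast hn
    -- the logarithm of `|U|` near `z₀`
    have hlog : ∀ᶠ z in 𝓝[≠] z₀, Real.log ‖U z‖ = n * Real.log ‖z - z₀‖ + Real.log ‖h z‖ := by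
      filter_upwards [hfac, self_mem_nhdsWithin,
        (hha.continuousAt.eventually_ne hh0).filter_mono nhdsWithin_le_nhds] with z hz hz1 hz2
      have hz3 : z - z₀ ≠ 0 := sub_ne_zero.mpr hz1
      rw [hz, norm_mul, norm_zpow, Real.log_mul (zpow_ne_zero _ (norm_ne_zero_iff.mpr hz3))
        (norm_ne_zero_iff.mpr hz2), Real.log_zpow]
    have htop : Tendsto (fun z : ℂ => Real.log ‖z - z₀‖) (𝓝[≠] z₀) atBot := by
      have ht1 : Tendsto (fun z : ℂ => ‖z - z₀‖) (𝓝[≠] z₀) (𝓝[>] 0) := by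
        refine tendsto_nhdsWithin_iff.mpr ⟨?_, ?_⟩
        · have : Tendsto (fun z : ℂ => ‖z - z₀‖) (𝓝 z₀) (𝓝 ‖z₀ - z₀‖) :=
            (continuous_norm.comp (continuous_id.sub continuous_const)).tendsto z₀
          rw [sub_self, norm_zero] at this
          exact this.mono_left nhdsWithin_le_nhds
        · filter_upwards [self_mem_nhdsWithin] with z hz
          exact norm_pos_iff.mpr (sub_ne_zero.mpr hz)
      exact Real.tendsto_log_nhdsGT_zero.comp ht1
    have hhc : Tendsto (fun z : ℂ => Real.log ‖h z‖) (𝓝[≠] z₀) (𝓝 (Real.log ‖h z₀‖)) := by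
      have : ContinuousAt (fun z : ℂ => Real.log ‖h z‖) z₀ :=
        hha.continuousAt.norm.log (norm_ne_zero_iff.mpr hh0)
      exact this.tendsto.mono_left nhdsWithin_le_nhds
    have hsum : ∀ z, ∑ s ∈ T, |(ordZ U s : ℝ)| * Real.log ‖z - s‖ =
        |n| * Real.log ‖z - z₀‖ + ∑ s ∈ T.erase z₀, |(ordZ U s : ℝ)| * Real.log ‖z - s‖ := by
      intro z
      rw [← Finset.add_sum_erase _ _ hz₀T]
    rcases lt_or_gt_of_ne hn0 with hneg | hpos
    · -- a pole
      have hbig : Tendsto (fun z : ℂ => n * Real.log ‖z - z₀‖ + Real.log ‖h z‖) (𝓝[≠] z₀)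
          atTop := Tendsto.atTop_add (htop.const_mul_atBot_of_neg hneg) hhc
      refine ⟨fun _ => 0, fun z => (a : ℂ) * lh z - (b : ℂ) - (F 0 : ℂ) + m z, analyticAt_const,
        (((analyticAt_const.mul hlha).sub analyticAt_const).sub analyticAt_const).add hma, ?_, ?_⟩
      · filter_upwards [hlog, hbig.eventually_ge_atTop (max M 0),
          hlh.filter_mono nhdsWithin_le_nhds, hm.filter_mono nhdsWithin_le_nhds] with z e1 e2 e3 e4
        rw [← e1] at e2
        have e5 : |Real.log ‖U z‖| = Real.log ‖U z‖ :=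
          abs_of_nonneg ((le_max_right M 0).trans e2)
        have e6 : F (Real.log ‖U z‖) = a * Real.log ‖U z‖ - b := by
          have := hd.big (Real.log ‖U z‖) (by rw [e5]; exact (le_max_left M 0).trans e2)
          rwa [e5] at this
        unfold Potential_g
        rw [e6, hsum, abs_of_neg hneg, e1]
        simp only [Complex.add_re, Complex.sub_re, Complex.re_ofReal_mul, Complex.ofReal_re,
          Complex.zero_re, e3, e4]
        have e7 : ∑ s ∈ T.erase z₀, a * |(ordZ U s : ℝ)| * Real.log ‖z - s‖ =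
            a * ∑ s ∈ T.erase z₀, |(ordZ U s : ℝ)| * Real.log ‖z - s‖ := by
          rw [Finset.mul_sum]
          simp only [mul_assoc]
        rw [e7]
        ring
      · rw [h0]
        simp
    · -- a zero
      have hbig : Tendsto (fun z : ℂ => n * Real.log ‖z - z₀‖ + Real.log ‖h z‖) (𝓝[≠] z₀)
          atBot := Tendsto.atBot_add (htop.const_mul_atBot hpos) hhc
      refine ⟨fun _ => 0, fun z => -((a : ℂ) * lh z) - (b : ℂ) - (F 0 : ℂ) + m z, analyticAt_const,
        (((analyticAt_const.mul hlha).neg.sub analyticAt_const).sub analyticAt_const).add hma,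
        ?_, ?_⟩
      · filter_upwards [hlog, hbig.eventually_le_atBot (min (-M) 0),
          hlh.filter_mono nhdsWithin_le_nhds, hm.filter_mono nhdsWithin_le_nhds] with z e1 e2 e3 e4
        rw [← e1] at e2
        have e5 : |Real.log ‖U z‖| = -Real.log ‖U z‖ :=
          abs_of_nonpos (e2.trans (min_le_right _ _))
        have e6 : F (Real.log ‖U z‖) = -(a * Real.log ‖U z‖) - b := by
          have := hd.big (Real.log ‖U z‖) (by
            rw [e5]
            have := e2.trans (min_le_left _ _)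
            linarith only [this])
          rw [e5] at this
          rw [this]
          ring
        unfold Potential_g
        rw [e6, hsum, abs_of_pos hpos, e1]
        simp only [Complex.add_re, Complex.sub_re, Complex.neg_re, Complex.re_ofReal_mul,
          Complex.ofReal_re, Complex.zero_re, e3, e4]
        have e7 : ∑ s ∈ T.erase z₀, a * |(ordZ U s : ℝ)| * Real.log ‖z - s‖ =
            a * ∑ s ∈ T.erase z₀, |(ordZ U s : ℝ)| * Real.log ‖z - s‖ := by
          rw [Finset.mul_sum]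
          simp only [mul_assoc]
        rw [e7]
        ring
      · rw [h0]
        simp
  · have hz₀T : z₀ ∉ T := fun h => h0 (hT z₀ h)
    obtain ⟨l, hla, hl, hl'⟩ := Potential_branch (hU.ana z₀ h1 h2 h0) h0
    obtain ⟨m, hma, hm, -⟩ := Potential_sumlog T (fun s => a * |(ordZ U s : ℝ)|) z₀ hz₀T
    refine ⟨l, m, hla, hma, ?_, ?_⟩
    · filter_upwards [hl.filter_mono nhdsWithin_le_nhds, hm.filter_mono nhdsWithin_le_nhds]
        with z e1 e2
      unfold Potential_g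
      rw [e1, e2, Finset.mul_sum]
      simp only [mul_assoc]
    · rw [hl.self_of_nhds, hl', mul_div_assoc]

/-- the extension over the zeros and poles -/
private theorem Potential_ext {g k : ℂ → ℝ} {z₀ : ℂ} (h1 : ∀ᶠ z in 𝓝[≠] z₀, g z = k z)
    (h2 : ∀ᶠ z in 𝓝 z₀, ContinuousAt k z) :
    ∀ᶠ z in 𝓝 z₀, limUnder (𝓝[≠] z) g = k z := by
  have h3 : ∀ᶠ z in 𝓝 z₀, ∀ᶠ z' in 𝓝[≠] z, g z' = k z' := by
    rw [eventually_nhdsWithin_iff] at h1
    filter_upwards [h1.eventually_nhds] with z hz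
    by_cases hzz : z = z₀
    · rw [hzz] at hz ⊢
      rw [eventually_nhdsWithin_iff]
      exact hz
    · have h4 : ∀ᶠ z' in 𝓝 z, z' ≠ z₀ := eventually_ne_nhds hzz
      have h5 : ∀ᶠ z' in 𝓝 z, g z' = k z' := by
        filter_upwards [hz, h4] with z' e1 e2 using e1 e2
      exact h5.filter_mono nhdsWithin_le_nhds
  filter_upwards [h2, h3] with z e1 e2
  apply Filter.Tendsto.limUnder_eq
  have h6 : Tendsto k (𝓝[≠] z) (𝓝 (k z)) := e1.tendsto.mono_left nhdsWithin_le_nhds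
  exact h6.congr' (by filter_upwards [e2] with z' hz' using hz'.symm)

private theorem Potential_circleMap (x θ : ℝ) :
    circleMap 0 (Real.exp (-x)) θ = Complex.exp (-(x : ℂ) + (θ : ℂ) * Complex.I) := by
  rw [circleMap, zero_add, Complex.exp_add, Complex.ofReal_exp, Complex.ofReal_neg]

private theorem Potential_norm (x θ : ℝ) :
    ‖Complex.exp (-(x : ℂ) + (θ : ℂ) * Complex.I)‖ = Real.exp (-x) := by
  rw [Complex.norm_exp]
  simp

private theorem Potential_contDiff {F W w : ℝ → ℝ} (hF : ∀ t, HasDerivAt F (W t) t)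
    (hW : ∀ t, HasDerivAt W (w t) t) (hw : Continuous w) : ContDiff ℝ 2 F := by
  have h1 : deriv F = W := funext fun t => (hF t).deriv
  have h2 : deriv W = w := funext fun t => (hW t).deriv
  have h3 : ContDiff ℝ 1 W := by
    rw [contDiff_one_iff_deriv, h2]
    exact ⟨fun t => (hW t).differentiableAt, hw⟩
  have h4 : ContDiff ℝ (1 + 1) F := by
    rw [contDiff_succ_iff_deriv, h1]
    exact ⟨fun t => (hF t).differentiableAt, by simp, h3⟩
  have h5 : (1 + 1 : WithTop ℕ∞) = 2 := by norm_num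
  rwa [h5] at h4

/-- the composition with the exponential map is twice continuously differentiable -/
private theorem Potential_smooth {F W w : ℝ → ℝ} (hF : ∀ t, HasDerivAt F (W t) t)
    (hW : ∀ t, HasDerivAt W (w t) t) (hw : Continuous w) {S : ℂ → ℝ} {l m : ℂ → ℂ} (x θ : ℝ)
    (hl : AnalyticAt ℂ l (Complex.exp (-(x : ℂ) + (θ : ℂ) * Complex.I)))
    (hm : AnalyticAt ℂ m (Complex.exp (-(x : ℂ) + (θ : ℂ) * Complex.I)))
    (hS : ∀ᶠ z in 𝓝 (Complex.exp (-(x : ℂ) + (θ : ℂ) * Complex.I)),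
      S z = F (l z).re + (m z).re) :
    ContDiffAt ℝ 2 (fun p : ℝ × ℝ => S (Complex.exp (-(p.1 : ℂ) + (p.2 : ℂ) * Complex.I)))
      (x, θ) ∧
    deriv (fun y : ℝ => S (Complex.exp (-(y : ℂ) + (θ : ℂ) * Complex.I))) x =
      W (l (Complex.exp (-(x : ℂ) + (θ : ℂ) * Complex.I))).re *
        (-(Complex.exp (-(x : ℂ) + (θ : ℂ) * Complex.I) *
          deriv l (Complex.exp (-(x : ℂ) + (θ : ℂ) * Complex.I)))).re +
        (-(Complex.exp (-(x : ℂ) + (θ : ℂ) * Complex.I) *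
          deriv m (Complex.exp (-(x : ℂ) + (θ : ℂ) * Complex.I)))).re ∧
    iteratedDeriv 2 (fun y : ℝ => S (Complex.exp (-(y : ℂ) + (θ : ℂ) * Complex.I))) x +
      iteratedDeriv 2 (fun φ : ℝ => S (Complex.exp (-(x : ℂ) + (φ : ℂ) * Complex.I))) θ =
      w (l (Complex.exp (-(x : ℂ) + (θ : ℂ) * Complex.I))).re *
        ‖Complex.exp (-(x : ℂ) + (θ : ℂ) * Complex.I) *
          deriv l (Complex.exp (-(x : ℂ) + (θ : ℂ) * Complex.I))‖ ^ 2 := by
  set ζ₀ : ℂ := -(x : ℂ) + (θ : ℂ) * Complex.I with hζ₀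
  set z₀ : ℂ := Complex.exp ζ₀ with hz₀
  have hexp : AnalyticAt ℂ Complex.exp ζ₀ := analyticAt_cexp
  have hle : AnalyticAt ℂ (fun ζ => l (Complex.exp ζ)) ζ₀ := hl.comp hexp
  have hme : AnalyticAt ℂ (fun ζ => m (Complex.exp ζ)) ζ₀ := hm.comp hexp
  have hdle : deriv (fun ζ => l (Complex.exp ζ)) ζ₀ = z₀ * deriv l z₀ := by
    have h1 : HasDerivAt (fun ζ => l (Complex.exp ζ)) (deriv l z₀ * Complex.exp ζ₀) ζ₀ :=
      HasDerivAt.comp ζ₀ hl.differentiableAt.hasDerivAt (Complex.hasDerivAt_exp ζ₀)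
    rw [h1.deriv, mul_comm]
  have hdme : deriv (fun ζ => m (Complex.exp ζ)) ζ₀ = z₀ * deriv m z₀ := by
    have h1 : HasDerivAt (fun ζ => m (Complex.exp ζ)) (deriv m z₀ * Complex.exp ζ₀) ζ₀ :=
      HasDerivAt.comp ζ₀ hm.differentiableAt.hasDerivAt (Complex.hasDerivAt_exp ζ₀)
    rw [h1.deriv, mul_comm]
  have hSe : ∀ᶠ ζ in 𝓝 ζ₀, S (Complex.exp ζ) =
      F (l (Complex.exp ζ)).re + (m (Complex.exp ζ)).re :=
    hexp.continuousAt.eventually hS
  -- the two lines
  have hx0 : (θ : ℂ) * Complex.I + (-1) * (x : ℂ) = ζ₀ := by rw [hζ₀]; ring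
  have hy0 : -(x : ℂ) + Complex.I * (θ : ℂ) = ζ₀ := by rw [hζ₀]; ring
  have hcx : ∀ᶠ y : ℝ in 𝓝 x, S (Complex.exp (-(y : ℂ) + (θ : ℂ) * Complex.I)) =
      F (l (Complex.exp ((θ : ℂ) * Complex.I + (-1) * (y : ℂ)))).re +
        (m (Complex.exp ((θ : ℂ) * Complex.I + (-1) * (y : ℂ)))).re := by
    have h1 : ContinuousAt (fun y : ℝ => -(y : ℂ) + (θ : ℂ) * Complex.I) x := by fun_prop
    have h2 := h1.eventually hSe
    filter_upwards [h2] with y hy
    have h3 : (θ : ℂ) * Complex.I + (-1) * (y : ℂ) = -(y : ℂ) + (θ : ℂ) * Complex.I := by ring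
    rw [h3]
    exact hy
  have hcy : ∀ᶠ φ : ℝ in 𝓝 θ, S (Complex.exp (-(x : ℂ) + (φ : ℂ) * Complex.I)) =
      F (l (Complex.exp (-(x : ℂ) + Complex.I * (φ : ℂ)))).re +
        (m (Complex.exp (-(x : ℂ) + Complex.I * (φ : ℂ)))).re := by
    have h1 : ContinuousAt (fun φ : ℝ => -(x : ℂ) + (φ : ℂ) * Complex.I) θ := by fun_prop
    have h2 := h1.eventually hSe
    filter_upwards [h2] with φ hφ
    have h3 : -(x : ℂ) + Complex.I * (φ : ℂ) = -(x : ℂ) + (φ : ℂ) * Complex.I := by ring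
    rw [h3]
    exact hφ
  obtain ⟨k1, k2⟩ := Potential_line hF hW hle hme _ _ x hx0 hcx
  obtain ⟨-, k3⟩ := Potential_line hF hW hle hme _ _ θ hy0 hcy
  refine ⟨?_, ?_, ?_⟩
  · have hι : ContDiffAt ℝ 2 (fun p : ℝ × ℝ => -(p.1 : ℂ) + (p.2 : ℂ) * Complex.I) (x, θ) := by
      have h1 : ContDiff ℝ 2 (fun p : ℝ × ℝ => (p.1 : ℂ)) :=
        Complex.ofRealCLM.contDiff.comp contDiff_fst
      have h2 : ContDiff ℝ 2 (fun p : ℝ × ℝ => (p.2 : ℂ)) :=
        Complex.ofRealCLM.contDiff.comp contDiff_snd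
      exact (h1.neg.add (h2.mul contDiff_const)).contDiffAt
    have hlr : ContDiffAt ℝ 2 (fun ζ => l (Complex.exp ζ)) ζ₀ :=
      (hle.contDiffAt (n := 2)).restrict_scalars ℝ
    have hmr : ContDiffAt ℝ 2 (fun ζ => m (Complex.exp ζ)) ζ₀ :=
      (hme.contDiffAt (n := 2)).restrict_scalars ℝ
    have h3 : ContDiffAt ℝ 2 (fun p : ℝ × ℝ =>
        l (Complex.exp (-(p.1 : ℂ) + (p.2 : ℂ) * Complex.I))) (x, θ) :=
      ContDiffAt.comp (x, θ) (g := fun ζ => l (Complex.exp ζ))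
        (f := fun p : ℝ × ℝ => -(p.1 : ℂ) + (p.2 : ℂ) * Complex.I) hlr hι
    have h4 : ContDiffAt ℝ 2 (fun p : ℝ × ℝ =>
        m (Complex.exp (-(p.1 : ℂ) + (p.2 : ℂ) * Complex.I))) (x, θ) :=
      ContDiffAt.comp (x, θ) (g := fun ζ => m (Complex.exp ζ))
        (f := fun p : ℝ × ℝ => -(p.1 : ℂ) + (p.2 : ℂ) * Complex.I) hmr hι
    have h5 : ContDiffAt ℝ 2 (fun p : ℝ × ℝ =>
        (l (Complex.exp (-(p.1 : ℂ) + (p.2 : ℂ) * Complex.I))).re) (x, θ) :=
      Complex.reCLM.contDiff.contDiffAt.comp (x, θ) h3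
    have h6 : ContDiffAt ℝ 2 (fun p : ℝ × ℝ =>
        (m (Complex.exp (-(p.1 : ℂ) + (p.2 : ℂ) * Complex.I))).re) (x, θ) :=
      Complex.reCLM.contDiff.contDiffAt.comp (x, θ) h4
    have h7 : ContDiffAt ℝ 2 (fun p : ℝ × ℝ =>
        F (l (Complex.exp (-(p.1 : ℂ) + (p.2 : ℂ) * Complex.I))).re) (x, θ) :=
      (Potential_contDiff hF hW hw).contDiffAt.comp (x, θ) h5
    refine (h7.add h6).congr_of_eventuallyEq ?_
    have h8 : ContinuousAt (fun p : ℝ × ℝ => -(p.1 : ℂ) + (p.2 : ℂ) * Complex.I) (x, θ) :=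
      hι.continuousAt
    exact h8.eventually hSe
  · rw [k1]
    simp only [hdle, hdme, neg_one_mul]
    rfl
  · rw [k2, k3, hdle]
    simp only [Complex.I_sq, neg_one_sq, one_mul, neg_one_mul, Complex.neg_re, Complex.I_mul_re]
    have h9 : ‖z₀ * deriv l z₀‖ ^ 2 = (z₀ * deriv l z₀).re ^ 2 + (z₀ * deriv l z₀).im ^ 2 := by
      rw [← Complex.normSq_eq_norm_sq, Complex.normSq_apply]
      ring
    rw [h9]
    change w (l z₀).re * _ + W (l z₀).re * _ + _ + (w (l z₀).re * _ + W (l z₀).re * _ + _) = _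
    ring

/-- the density -/
private def Potential_L (w : ℝ → ℝ) (U : ℂ → ℂ) (z : ℂ) : ℝ :=
  w (Real.log ‖U z‖) * ‖z * deriv U z / U z‖ ^ 2

/-- the derivative at the outer radius -/
private def Potential_K (W : ℝ → ℝ) (a : ℝ) (U : ℂ → ℂ) (T : Finset ℂ) (z : ℂ) : ℝ :=
  W (Real.log ‖U z‖) * (-(z * (deriv U z / U z))).re +
    (-(z * ∑ s ∈ T, ((a * |(ordZ U s : ℝ)| : ℝ) : ℂ) * (1 / (z - s)))).re

private theorem Potential_mean_eq (f : ℂ → ℝ) (x : ℝ) :
    mean f x = (2 * Real.pi)⁻¹ *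
      ∫ θ in (0 : ℝ)..2 * Real.pi, f (Complex.exp (-(x : ℂ) + (θ : ℂ) * Complex.I)) := by
  unfold mean
  rw [Real.circleAverage_def, smul_eq_mul]
  simp only [Potential_circleMap]

private theorem Potential_S_eq {w : ℝ → ℝ} {M : ℝ} {F W : ℝ → ℝ} {a b : ℝ}
    (hd : Potential_Data w M F W a b) {g : ℂ → ℝ} {l m : ℂ → ℂ} {z₀ : ℂ}
    (hl : AnalyticAt ℂ l z₀) (hm : AnalyticAt ℂ m z₀)
    (hg : ∀ᶠ z in 𝓝[≠] z₀, g z = F (l z).re + (m z).re) :
    ∀ᶠ z in 𝓝 z₀, limUnder (𝓝[≠] z) g = F (l z).re + (m z).re := by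
  refine Potential_ext (k := fun z => F (l z).re + (m z).re) hg ?_
  filter_upwards [hl.eventually_analyticAt, hm.eventually_analyticAt] with z h1 h2
  have h3 : ContinuousAt F (l z).re := (hd.hF _).continuousAt
  have h4 : ContinuousAt (fun z => (l z).re) z :=
    Complex.continuous_re.continuousAt.comp h1.continuousAt
  have h5 : ContinuousAt (fun z => (m z).re) z :=
    Complex.continuous_re.continuousAt.comp h2.continuousAt
  exact (ContinuousAt.comp (f := fun z => (l z).re) h3 h4).add h5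

private theorem Potential_identity {w : ℝ → ℝ} {M : ℝ} {F W : ℝ → ℝ} {a b : ℝ}
    (hd : Potential_Data w M F W a b) {R₀ : ℝ} {U : ℂ → ℂ} (hU : Potential_NF R₀ U)
    {T : Finset ℂ} (hT : ∀ s ∈ T, U s = 0) {α β : ℝ} (hα : Real.exp (-α) ≤ R₀)
    (hTc : ∀ z, Real.exp (-β) < ‖z‖ → ‖z‖ < Real.exp (-α) → U z = 0 → z ∈ T)
    {x₀ x : ℝ} (hx₀ : x₀ ∈ Set.Ioo α β) (hx : x ∈ Set.Ioo α β)
    (hne : ∀ z, ‖z‖ = Real.exp (-x₀) → U z ≠ 0) :
    mean (Potential_g F a U T) x = mean (Potential_g F a U T) x₀ +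
      mean (Potential_K W a U T) x₀ * (x - x₀) +
      ∫ y in x₀..x, (x - y) * mean (Potential_L w U) y := by
  set g : ℂ → ℝ := Potential_g F a U T with hg
  set S : ℂ → ℝ := fun z => limUnder (𝓝[≠] z) g with hSdef
  have hloc : ∀ y ∈ Set.Ioo α β, ∀ z₀ : ℂ, ‖z₀‖ = Real.exp (-y) →
      ∃ l m : ℂ → ℂ, AnalyticAt ℂ l z₀ ∧ AnalyticAt ℂ m z₀ ∧
        (∀ᶠ z in 𝓝[≠] z₀, g z = F (l z).re + (m z).re) ∧
        Potential_L w U z₀ = w (l z₀).re * ‖z₀ * deriv l z₀‖ ^ 2 := by
    intro y hy z₀ hz₀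
    have h1 : Real.exp (-β) < ‖z₀‖ := by
      rw [hz₀]; exact Real.exp_lt_exp.mpr (by linarith [hy.2])
    have h2 : ‖z₀‖ < Real.exp (-α) := by
      rw [hz₀]; exact Real.exp_lt_exp.mpr (by linarith [hy.1])
    exact Potential_loc hd hU hT ((Real.exp_pos _).trans h1) (h2.trans_le hα)
      (hTc z₀ h1 h2)
  have hmeanS : ∀ y ∈ Set.Ioo α β, mean S y = mean g y := by
    intro y hy
    refine Potential_mean_congr fun z₀ hz₀ => ?_
    obtain ⟨l, m, hl, hm, h1, -⟩ := hloc y hy z₀ hz₀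
    have h2 := Potential_S_eq hd hl hm h1
    filter_upwards [h1, h2.filter_mono nhdsWithin_le_nhds] with z e1 e2
    rw [hSdef]
    exact e2.trans e1.symm
  have havg := average_second_deriv
    (Φ := fun y θ => S (Complex.exp (-(y : ℂ) + (θ : ℂ) * Complex.I)))
    (L := fun y θ => Potential_L w U (Complex.exp (-(y : ℂ) + (θ : ℂ) * Complex.I)))
    (α := α) (β := β) ?_ ?_ ?_ hx₀ hx
  · have h2π : (0 : ℝ) < 2 * Real.pi := Real.two_pi_pos
    rw [← hmeanS x hx, ← hmeanS x₀ hx₀, Potential_mean_eq S x, Potential_mean_eq S x₀, havg,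
      Potential_mean_eq (Potential_K W a U T) x₀]
    have hder : (∫ θ in (0 : ℝ)..2 * Real.pi,
        deriv (fun y : ℝ => S (Complex.exp (-(y : ℂ) + (θ : ℂ) * Complex.I))) x₀) =
        ∫ θ in (0 : ℝ)..2 * Real.pi,
          Potential_K W a U T (Complex.exp (-(x₀ : ℂ) + (θ : ℂ) * Complex.I)) := by
      apply intervalIntegral.integral_congr
      intro θ _
      have hn := Potential_norm x₀ θ
      have h0 := hne _ hn
      have h1 : 0 < ‖Complex.exp (-(x₀ : ℂ) + (θ : ℂ) * Complex.I)‖ := by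
        rw [hn]; exact Real.exp_pos _
      have h2 : ‖Complex.exp (-(x₀ : ℂ) + (θ : ℂ) * Complex.I)‖ < R₀ := by
        rw [hn]; exact (Real.exp_lt_exp.mpr (by linarith [hx₀.1])).trans_le hα
      have h3 : Complex.exp (-(x₀ : ℂ) + (θ : ℂ) * Complex.I) ∉ T := fun h => h0 (hT _ h)
      obtain ⟨l, hla, hl, hl'⟩ := Potential_branch (hU.ana _ h1 h2 h0) h0
      obtain ⟨m, hma, hm, hm'⟩ := Potential_sumlog T (fun s => a * |(ordZ U s : ℝ)|) _ h3
      have hgl : ∀ᶠ z in 𝓝[≠] (Complex.exp (-(x₀ : ℂ) + (θ : ℂ) * Complex.I)),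
          g z = F (l z).re + (m z).re := by
        filter_upwards [hl.filter_mono nhdsWithin_le_nhds, hm.filter_mono nhdsWithin_le_nhds]
          with z e1 e2
        rw [hg]
        unfold Potential_g
        rw [e1, e2, Finset.mul_sum]
        simp only [mul_assoc]
      have h4 := (Potential_smooth hd.hF hd.hW hd.wc x₀ θ hla hma
        (Potential_S_eq hd hla hma hgl)).2.1
      refine h4.trans ?_
      unfold Potential_K
      rw [hl.self_of_nhds, hl', hm']
    rw [hder]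
    have hint : (∫ y in x₀..x, (x - y) * mean (Potential_L w U) y) =
        (2 * Real.pi)⁻¹ * ∫ y in x₀..x, (x - y) * ∫ θ in (0 : ℝ)..2 * Real.pi,
          Potential_L w U (Complex.exp (-(y : ℂ) + (θ : ℂ) * Complex.I)) := by
      rw [← intervalIntegral.integral_const_mul]
      apply intervalIntegral.integral_congr
      intro y _
      simp only [Potential_mean_eq]
      ring
    rw [hint]
    ring
  · intro y hy θ
    obtain ⟨l, m, hl, hm, h1, -⟩ := hloc y hy _ (Potential_norm y θ)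
    exact (Potential_smooth hd.hF hd.hW hd.wc y θ hl hm (Potential_S_eq hd hl hm h1)).1
  · intro y θ
    have : Complex.exp (-(y : ℂ) + ((θ + 2 * Real.pi : ℝ) : ℂ) * Complex.I) =
        Complex.exp (-(y : ℂ) + (θ : ℂ) * Complex.I) := by
      have h1 : -(y : ℂ) + ((θ + 2 * Real.pi : ℝ) : ℂ) * Complex.I =
          (-(y : ℂ) + (θ : ℂ) * Complex.I) + 2 * Real.pi * Complex.I := by
        push_cast
        ring
      rw [h1, Complex.exp_periodic]
    simp only [this]
  · intro y hy θ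
    obtain ⟨l, m, hl, hm, h1, h2⟩ := hloc y hy _ (Potential_norm y θ)
    rw [(Potential_smooth hd.hF hd.hW hd.wc y θ hl hm (Potential_S_eq hd hl hm h1)).2.2]
    exact h2

private theorem Potential_big {R₀ : ℝ} {U : ℂ → ℂ} (hU : Potential_NF R₀ U) {z₀ : ℂ}
    (h1 : 0 < ‖z₀‖) (h2 : ‖z₀‖ < R₀) (h0 : U z₀ = 0) (M : ℝ) :
    ∀ᶠ z in 𝓝[≠] z₀, M ≤ |Real.log ‖U z‖| := by
  obtain ⟨h, hha, hh0, hfac⟩ := hU.fac z₀ h1 h2
  have hn : ordZ U z₀ ≠ 0 := (hU.ord z₀ h1 h2).mp h0
  set n : ℝ := (ordZ U z₀ : ℝ) with hnd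
  have hn0 : n ≠ 0 := by
    rw [hnd]
    exact_mod_cast hn
  have hlog : ∀ᶠ z in 𝓝[≠] z₀, Real.log ‖U z‖ = n * Real.log ‖z - z₀‖ + Real.log ‖h z‖ := by
    filter_upwards [hfac, self_mem_nhdsWithin,
      (hha.continuousAt.eventually_ne hh0).filter_mono nhdsWithin_le_nhds] with z hz hz1 hz2
    have hz3 : z - z₀ ≠ 0 := sub_ne_zero.mpr hz1
    rw [hz, norm_mul, norm_zpow, Real.log_mul (zpow_ne_zero _ (norm_ne_zero_iff.mpr hz3))
      (norm_ne_zero_iff.mpr hz2), Real.log_zpow]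
  have htop : Tendsto (fun z : ℂ => Real.log ‖z - z₀‖) (𝓝[≠] z₀) atBot := by
    have ht1 : Tendsto (fun z : ℂ => ‖z - z₀‖) (𝓝[≠] z₀) (𝓝[>] 0) := by
      refine tendsto_nhdsWithin_iff.mpr ⟨?_, ?_⟩
      · have : Tendsto (fun z : ℂ => ‖z - z₀‖) (𝓝 z₀) (𝓝 ‖z₀ - z₀‖) :=
          (continuous_norm.comp (continuous_id.sub continuous_const)).tendsto z₀
        rw [sub_self, norm_zero] at this
        exact this.mono_left nhdsWithin_le_nhds
      · filter_upwards [self_mem_nhdsWithin] with z hz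
        exact norm_pos_iff.mpr (sub_ne_zero.mpr hz)
    exact Real.tendsto_log_nhdsGT_zero.comp ht1
  have hhc : Tendsto (fun z : ℂ => Real.log ‖h z‖) (𝓝[≠] z₀) (𝓝 (Real.log ‖h z₀‖)) := by
    have : ContinuousAt (fun z : ℂ => Real.log ‖h z‖) z₀ :=
      hha.continuousAt.norm.log (norm_ne_zero_iff.mpr hh0)
    exact this.tendsto.mono_left nhdsWithin_le_nhds
  have habs : Tendsto (fun z : ℂ => |n * Real.log ‖z - z₀‖ + Real.log ‖h z‖|) (𝓝[≠] z₀)
      atTop := by
    rcases lt_or_gt_of_ne hn0 with hneg | hpos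
    · exact tendsto_abs_atTop_atTop.comp
        (Tendsto.atTop_add (htop.const_mul_atBot_of_neg hneg) hhc)
    · exact tendsto_abs_atBot_atTop.comp (Tendsto.atBot_add (htop.const_mul_atBot hpos) hhc)
  filter_upwards [hlog, habs.eventually_ge_atTop M] with z e1 e2
  rw [e1]
  exact e2

private theorem Potential_cont {w : ℝ → ℝ} {M : ℝ} (hw : Continuous w)
    (hwb : ∀ t, M ≤ |t| → w t = 0) {R₀ : ℝ} {U : ℂ → ℂ} (hU : Potential_NF R₀ U) {z₀ : ℂ}
    (h1 : 0 < ‖z₀‖) (h2 : ‖z₀‖ < R₀) : ContinuousAt (Potential_L w U) z₀ := by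
  by_cases h0 : U z₀ = 0
  · have h3 : ∀ᶠ z in 𝓝 z₀, Potential_L w U z = 0 := by
      have h4 := Potential_big hU h1 h2 h0 M
      rw [eventually_nhdsWithin_iff] at h4
      filter_upwards [h4] with z hz
      unfold Potential_L
      by_cases hzz : z = z₀
      · rw [hzz, h0]
        simp
      · rw [hwb _ (hz hzz), zero_mul]
    exact (continuousAt_const (y := (0 : ℝ))).congr (by filter_upwards [h3] with z hz using hz.symm)
  · have hana := hU.ana z₀ h1 h2 h0
    have h3 : ContinuousAt (fun z => Real.log ‖U z‖) z₀ :=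
      hana.continuousAt.norm.log (norm_ne_zero_iff.mpr h0)
    have h4 : ContinuousAt (fun z => w (Real.log ‖U z‖)) z₀ := hw.continuousAt.comp h3
    have h5 : ContinuousAt (fun z => ‖z * deriv U z / U z‖ ^ 2) z₀ :=
      (((continuousAt_id.mul hana.deriv.continuousAt).div hana.continuousAt h0).norm).pow 2
    exact h4.mul h5

private theorem Potential_avg_one {s : ℂ} {R : ℝ} (h : ‖s‖ < R) :
    Real.circleAverage (fun z => z * (1 / (z - s))) 0 R = 1 := by
  have hR : 0 < R := (norm_nonneg s).trans_lt h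
  rw [Real.circleAverage_eq_circleIntegral hR.ne']
  have h1 : (∮ z in C(0, R), (z - 0)⁻¹ • (z * (1 / (z - s)))) = ∮ z in C(0, R), (z - s)⁻¹ := by
    refine circleIntegral.integral_congr hR.le fun z hz => ?_
    have hz0 : z ≠ 0 := by
      intro h0
      rw [h0, mem_sphere_zero_iff_norm, norm_zero] at hz
      exact hR.ne hz
    simp only [smul_eq_mul, sub_zero]
    rw [← mul_assoc, inv_mul_cancel₀ hz0, one_mul, one_div]
  rw [h1, circleIntegral.integral_sub_inv_of_mem_ball (by rwa [mem_ball_zero_iff]), smul_eq_mul]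
  exact inv_mul_cancel₀ Complex.two_pi_I_ne_zero

/-- the mean of the regularised function -/
private theorem Potential_mean_g {w : ℝ → ℝ} {M : ℝ} {F W : ℝ → ℝ} {a b : ℝ}
    (hd : Potential_Data w M F W a b) {R₀ : ℝ} {U : ℂ → ℂ} (hU : Potential_NF R₀ U)
    (T : Finset ℂ) {x : ℝ} (hx : Real.exp (-x) < R₀) :
    mean (Potential_g F a U T) x = mean (fun z => F (Real.log ‖U z‖)) x +
      a * ∑ s ∈ T, |(ordZ U s : ℝ)| * (-x + Real.posLog (‖s‖ / Real.exp (-x))) ∧
    0 ≤ mean (fun z => F (Real.log ‖U z‖)) x ∧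
    mean (fun z => F (Real.log ‖U z‖)) x ≤ mean (fun z => |Real.log ‖U z‖|) x := by
  have hr : 0 < Real.exp (-x) := Real.exp_pos _
  have hlog : CircleIntegrable (fun z => Real.log ‖U z‖) 0 (Real.exp (-x)) := by
    apply MeromorphicOn.circleIntegrable_log_norm
    intro z hz
    rw [mem_sphere_zero_iff_norm, abs_of_pos hr] at hz
    exact hU.mer z (by rw [hz]; exact hr) (by rw [hz]; exact hx)
  have hFc : Continuous F := continuous_iff_continuousAt.mpr fun t => (hd.hF t).continuousAt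
  have hFi : CircleIntegrable (fun z => F (Real.log ‖U z‖)) 0 (Real.exp (-x)) := by
    unfold CircleIntegrable at hlog ⊢
    refine hlog.mono_fun ?_ ?_
    · exact hFc.comp_aestronglyMeasurable hlog.aestronglyMeasurable_restrict_uIoc
    · refine Filter.Eventually.of_forall fun θ => ?_
      simp only [Real.norm_eq_abs]
      rw [abs_of_nonneg (hd.F0 _)]
      exact hd.F1 _
  have hsi : CircleIntegrable (fun z => a * ∑ s ∈ T, |(ordZ U s : ℝ)| * Real.log ‖z - s‖) 0
      (Real.exp (-x)) := by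
    refine CircleIntegrable.const_fun_smul (a := a)
      (f := fun z => ∑ s ∈ T, |(ordZ U s : ℝ)| * Real.log ‖z - s‖) ?_
    refine CircleIntegrable.fun_sum T fun s _ => ?_
    exact (circleIntegrable_log_norm_sub_const (Real.exp (-x))).const_fun_smul
      (a := |(ordZ U s : ℝ)|)
  refine ⟨?_, ?_, ?_⟩
  · unfold mean Potential_g
    rw [Real.circleAverage_fun_add hFi hsi]
    congr 1
    have h1 := Real.circleAverage_fun_smul (a := a)
      (f := fun z => ∑ s ∈ T, |(ordZ U s : ℝ)| * Real.log ‖z - s‖) (c := 0) (R := Real.exp (-x))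
    simp only [smul_eq_mul] at h1
    have hsi' : ∀ s ∈ T, CircleIntegrable (fun z => |(ordZ U s : ℝ)| * Real.log ‖z - s‖) 0
        (Real.exp (-x)) := fun s _ =>
      (circleIntegrable_log_norm_sub_const (Real.exp (-x))).const_fun_smul
        (a := |(ordZ U s : ℝ)|)
    rw [h1, Real.circleAverage_fun_sum hsi']
    congr 1
    refine Finset.sum_congr rfl fun s _ => ?_
    have h5 := Real.circleAverage_fun_smul (a := |(ordZ U s : ℝ)|)
      (f := fun z => Real.log ‖z - s‖) (c := 0) (R := Real.exp (-x))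
    simp only [smul_eq_mul] at h5
    rw [h5, circleAverage_log_norm_sub_const_eq_log_radius_add_posLog hr.ne', zero_sub, norm_neg,
      inv_mul_eq_div, Real.log_exp]
  · exact Real.circleAverage_nonneg_of_nonneg fun z _ => hd.F0 _
  · refine Real.circleAverage_mono hFi ?_ fun z _ => hd.F1 _
    unfold CircleIntegrable at hlog ⊢
    exact hlog.abs

/-- the mean of the derivative -/
private theorem Potential_mean_K {w : ℝ → ℝ} {M : ℝ} {F W : ℝ → ℝ} {a b : ℝ}
    (hd : Potential_Data w M F W a b) {R₀ : ℝ} {U : ℂ → ℂ} (hU : Potential_NF R₀ U)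
    {T : Finset ℂ} {x : ℝ} (hx : Real.exp (-x) < R₀)
    (hne : ∀ z, ‖z‖ = Real.exp (-x) → U z ≠ 0) (hT : ∀ s ∈ T, ‖s‖ < Real.exp (-x)) :
    |(mean (Potential_K W a U T) x + a * (∑ s ∈ T, |(ordZ U s : ℝ)|))| ≤
      mean (fun z => ‖z * deriv U z / U z‖) x := by
  have hr : 0 < Real.exp (-x) := Real.exp_pos _
  have hWc : Continuous W := continuous_iff_continuousAt.mpr fun t => (hd.hW t).continuousAt
  have hz0 : ∀ z : ℂ, z ∈ Metric.sphere (0 : ℂ) (Real.exp (-x)) → ‖z‖ = Real.exp (-x) :=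
    fun z hz => mem_sphere_zero_iff_norm.mp hz
  have hana : ∀ z : ℂ, z ∈ Metric.sphere (0 : ℂ) (Real.exp (-x)) → AnalyticAt ℂ U z :=
    fun z hz => hU.ana z (by rw [hz0 z hz]; exact hr) (by rw [hz0 z hz]; exact hx)
      (hne z (hz0 z hz))
  have hc0 : ∀ z : ℂ, z ∈ Metric.sphere (0 : ℂ) (Real.exp (-x)) →
      ContinuousAt (fun z => z * (deriv U z / U z)) z := fun z hz =>
    continuousAt_id.mul ((hana z hz).deriv.continuousAt.div (hana z hz).continuousAt
      (hne z (hz0 z hz)))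
  have hi1 : CircleIntegrable (fun z => W (Real.log ‖U z‖) * (-(z * (deriv U z / U z))).re) 0
      (Real.exp (-x)) := by
    refine ContinuousOn.circleIntegrable hr.le fun z hz => ContinuousAt.continuousWithinAt ?_
    have h1 : ContinuousAt (fun z => W (Real.log ‖U z‖)) z :=
      hWc.continuousAt.comp
        ((hana z hz).continuousAt.norm.log (norm_ne_zero_iff.mpr (hne z (hz0 z hz))))
    have h2 : ContinuousAt (fun z => (-(z * (deriv U z / U z))).re) z :=
      Complex.continuous_re.continuousAt.comp (hc0 z hz).neg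
    exact h1.mul h2
  have hi3 : CircleIntegrable (fun z => ‖z * deriv U z / U z‖) 0 (Real.exp (-x)) := by
    refine ContinuousOn.circleIntegrable hr.le fun z hz => ContinuousAt.continuousWithinAt ?_
    have := (hc0 z hz).norm
    simp only [← mul_div_assoc] at this
    exact this
  have hcs : ∀ s ∈ T, ContinuousOn (fun z : ℂ => z * (1 / (z - s)))
      (Metric.sphere (0 : ℂ) (Real.exp (-x))) := by
    intro s hs z hz
    refine ContinuousAt.continuousWithinAt ?_
    have h1 : z - s ≠ 0 := by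
      intro h
      have h2 := hT s hs
      rw [← sub_eq_zero.mp h, hz0 z hz] at h2
      exact lt_irrefl _ h2
    exact continuousAt_id.mul (continuousAt_const.div (continuousAt_id.sub continuousAt_const) h1)
  have hi4 : ∀ s ∈ T, CircleIntegrable (fun z : ℂ => z * (1 / (z - s))) 0 (Real.exp (-x)) :=
    fun s hs => ContinuousOn.circleIntegrable hr.le (hcs s hs)
  have hfun : (fun z : ℂ => -(z * ∑ s ∈ T, ((a * |(ordZ U s : ℝ)| : ℝ) : ℂ) * (1 / (z - s)))) =
      fun z => ∑ s ∈ T, (-((a * |(ordZ U s : ℝ)| : ℝ) : ℂ)) • (z * (1 / (z - s))) := by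
    funext z
    rw [Finset.mul_sum, ← Finset.sum_neg_distrib]
    refine Finset.sum_congr rfl fun s _ => ?_
    rw [smul_eq_mul]
    ring
  have hi5 : CircleIntegrable (fun z : ℂ =>
      -(z * ∑ s ∈ T, ((a * |(ordZ U s : ℝ)| : ℝ) : ℂ) * (1 / (z - s)))) 0 (Real.exp (-x)) := by
    rw [hfun]
    refine CircleIntegrable.fun_sum T fun s hs => ?_
    exact (hi4 s hs).const_fun_smul
  have hav : Real.circleAverage (fun z : ℂ =>
      -(z * ∑ s ∈ T, ((a * |(ordZ U s : ℝ)| : ℝ) : ℂ) * (1 / (z - s)))) 0 (Real.exp (-x)) =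
      ((-(a * ∑ s ∈ T, |(ordZ U s : ℝ)|) : ℝ) : ℂ) := by
    rw [hfun, Real.circleAverage_fun_sum fun s hs => (hi4 s hs).const_fun_smul]
    have h1 : ∀ s ∈ T, Real.circleAverage (fun z : ℂ =>
        (-((a * |(ordZ U s : ℝ)| : ℝ) : ℂ)) • (z * (1 / (z - s)))) 0 (Real.exp (-x)) =
        -((a * |(ordZ U s : ℝ)| : ℝ) : ℂ) := by
      intro s hs
      rw [Real.circleAverage_fun_smul, Potential_avg_one (hT s hs), smul_eq_mul, mul_one]
    rw [Finset.sum_congr rfl h1, Finset.sum_neg_distrib, Finset.mul_sum]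
    push_cast
    rfl
  have hre : Real.circleAverage (fun z : ℂ =>
      (-(z * ∑ s ∈ T, ((a * |(ordZ U s : ℝ)| : ℝ) : ℂ) * (1 / (z - s)))).re) 0 (Real.exp (-x)) =
      -(a * ∑ s ∈ T, |(ordZ U s : ℝ)|) := by
    have h1 := Complex.reCLM.circleAverage_comp_comm hi5
    rw [hav] at h1
    rw [Complex.reCLM_apply, Complex.ofReal_re] at h1
    exact h1
  have hi6 : CircleIntegrable (fun z : ℂ =>
      (-(z * ∑ s ∈ T, ((a * |(ordZ U s : ℝ)| : ℝ) : ℂ) * (1 / (z - s)))).re) 0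
      (Real.exp (-x)) := by
    refine ContinuousOn.circleIntegrable hr.le ?_
    refine Complex.continuous_re.comp_continuousOn ?_
    rw [hfun]
    refine continuousOn_finsetSum T fun s hs => ?_
    exact continuousOn_const.mul (hcs s hs)
  have hK : mean (Potential_K W a U T) x =
      Real.circleAverage (fun z => W (Real.log ‖U z‖) * (-(z * (deriv U z / U z))).re) 0
        (Real.exp (-x)) + -(a * ∑ s ∈ T, |(ordZ U s : ℝ)|) := by
    unfold mean Potential_K
    rw [Real.circleAverage_fun_add hi1 hi6, hre]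
  rw [hK]
  have h7 : Real.circleAverage (fun z => W (Real.log ‖U z‖) * (-(z * (deriv U z / U z))).re) 0
        (Real.exp (-x)) + -(a * ∑ s ∈ T, |(ordZ U s : ℝ)|) + a * ∑ s ∈ T, |(ordZ U s : ℝ)| =
      Real.circleAverage (fun z => W (Real.log ‖U z‖) * (-(z * (deriv U z / U z))).re) 0
        (Real.exp (-x)) := by ring
  rw [h7]
  refine Real.abs_circleAverage_le_circleAverage_abs.trans ?_
  unfold mean
  refine Real.circleAverage_mono ?_ hi3 fun z _ => ?_
  · unfold CircleIntegrable at hi1 ⊢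
    exact hi1.abs
  · rw [Pi.abs_apply, abs_mul]
    have h8 : |(-(z * (deriv U z / U z))).re| ≤ ‖z * deriv U z / U z‖ := by
      refine (Complex.abs_re_le_norm _).trans ?_
      rw [norm_neg, mul_div_assoc]
    calc |W (Real.log ‖U z‖)| * |(-(z * (deriv U z / U z))).re|
        ≤ 1 * ‖z * deriv U z / U z‖ :=
          mul_le_mul (hd.W1 _) h8 (abs_nonneg _) zero_le_one
      _ = ‖z * deriv U z / U z‖ := one_mul _

/-- radii without zeros and poles -/
private theorem Potential_radii {R₀ : ℝ} (hR₀ : 0 < R₀) {u : ℂ → ℂ} (hu : MeroPunct R₀ u) :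
    ∃ R₁ R₂ : ℝ, 0 < R₁ ∧ R₁ < R₂ ∧ R₂ < R₀ ∧ ∀ z, R₁ ≤ ‖z‖ → ‖z‖ ≤ R₂ → ordZ u z = 0 := by
  have hfin : {s : ℂ | R₀ / 4 ≤ ‖s‖ ∧ ‖s‖ ≤ R₀ / 2 ∧ ordZ u s ≠ 0}.Finite :=
    Pool.Agent.H92.GGL.finite_ordZ (by linarith only [hR₀]) (by linarith only [hR₀]) hu.mero
  set A : Set ℝ := (fun s : ℂ => ‖s‖) '' {s : ℂ | R₀ / 4 ≤ ‖s‖ ∧ ‖s‖ ≤ R₀ / 2 ∧ ordZ u s ≠ 0}
    with hA
  have hAfin : A.Finite := hfin.image _
  have hinf : (Set.Ioo (R₀ / 4) (R₀ / 2) \ A).Infinite :=
    (Set.Ioo_infinite (by linarith)).sdiff hAfin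
  obtain ⟨R₁, ⟨h1, h2⟩, h3⟩ := hinf.nonempty
  have hopen : Aᶜ ∈ 𝓝 R₁ := hAfin.isClosed.isOpen_compl.mem_nhds h3
  obtain ⟨ε, hε, hε2⟩ := Metric.mem_nhds_iff.mp hopen
  refine ⟨R₁, min (R₁ + ε / 2) ((R₁ + R₀ / 2) / 2), by linarith only [h1, h2], ?_, ?_, ?_⟩
  · exact lt_min (by linarith only [hε]) (by linarith only [h2])
  · exact (min_le_right _ _).trans_lt (by linarith only [h1, h2])
  · intro z hz1 hz2
    by_contra h0
    have h4 : ‖z‖ ∈ A := by
      refine ⟨z, ⟨by linarith only [h1, hz1], ?_, h0⟩, rfl⟩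
      have := hz2.trans (min_le_right _ _)
      linarith only [h2, this]
    refine hε2 ?_ h4
    rw [Metric.mem_ball, Real.dist_eq, abs_of_nonneg (by linarith only [hz1])]
    have := hz2.trans (min_le_left _ _)
    linarith only [hε, this]

/-- The potential inequality. -/
theorem potential_ineq {R₀ : ℝ} (hR₀ : 0 < R₀) {u : ℂ → ℂ} (hu : MeroPunct R₀ u) :
    ∃ (R₁ C : ℝ), 0 < R₁ ∧ R₁ < R₀ ∧ ∀ (w : ℝ → ℝ) (M : ℝ), Continuous w → (∀ t, 0 ≤ w t) →
      (∀ t, w (-t) = w t) → 0 ≤ M → (∀ t, M ≤ t → w t = 0) → (∫ t in (0 : ℝ)..M, w t) ≤ 1 →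
      ContinuousOn (fun y => mean (fun z => w (Real.log ‖u z‖) * ‖z * deriv u z / u z‖ ^ 2) y)
        (Set.Ici (-Real.log R₁)) ∧
      ∀ x, -Real.log R₁ ≤ x →
        (∫ y in (-Real.log R₁)..x, (x - y) *
          mean (fun z => w (Real.log ‖u z‖) * ‖z * deriv u z / u z‖ ^ 2) y) ≤
        mean (fun z => |Real.log ‖u z‖|) x +
          cnt (fun s => |(ordZ u s : ℝ)|) R₁ (Real.exp (-x)) + C * (1 + |x|) := by
  obtain ⟨R₁, R₂, hR1, hR12, hR2, hfree⟩ := Potential_radii hR₀ hu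
  obtain ⟨U, hU, hUu, hord⟩ := Potential_exists_nf hu
  have hpl : ∀ t : ℝ, Real.posLog t = max 0 (Real.log t) := fun t => rfl
  set x₀ : ℝ := -Real.log R₁ with hx₀
  have hex₀ : Real.exp (-x₀) = R₁ := by rw [hx₀, neg_neg, Real.exp_log hR1]
  set C₀ : ℝ := mean (fun z => ‖z * deriv U z / U z‖) x₀ with hC₀
  have hC₀0 : 0 ≤ C₀ := Real.circleAverage_nonneg_of_nonneg fun z _ => norm_nonneg _
  refine ⟨R₁, C₀ * (1 + |x₀|), hR1, hR12.trans hR2, ?_⟩
  intro w M hw hw0 hwe hM hwz hwi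
  obtain ⟨F, W, a, b, hd⟩ := Potential_data hw hw0 hwe hM hwz hwi
  have hder : ∀ z, 0 < ‖z‖ → ‖z‖ < R₀ → ∀ᶠ z' in 𝓝[≠] z, U z' = u z' ∧ deriv U z' = deriv u z' := by
    intro z h1 h2
    have h3 := hUu z h1 h2
    have h4 : ∀ᶠ z' in 𝓝[≠] z, U =ᶠ[𝓝 z'] u := by
      rw [Filter.EventuallyEq, eventually_nhdsWithin_iff] at h3
      rw [eventually_nhdsWithin_iff]
      filter_upwards [h3.eventually_nhds] with z' e1 e2
      have e3 : ∀ᶠ y in 𝓝 z', y ≠ z := eventually_ne_nhds e2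
      filter_upwards [e1, e3] with y k1 k2 using k1 k2
    filter_upwards [h4] with z' hz'
    exact ⟨hz'.self_of_nhds, hz'.deriv_eq⟩
  have hG : ∀ y, Real.exp (-y) < R₀ →
      mean (fun z => w (Real.log ‖u z‖) * ‖z * deriv u z / u z‖ ^ 2) y =
        mean (Potential_L w U) y := by
    intro y hy
    refine Potential_mean_congr fun z hz => ?_
    filter_upwards [hder z (by rw [hz]; exact Real.exp_pos _) (by rw [hz]; exact hy)] with z' hz'
    unfold Potential_L
    rw [hz'.1, hz'.2]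
  have hexle : ∀ y, x₀ ≤ y → Real.exp (-y) < R₀ := by
    intro y hy
    have h1 : Real.exp (-y) ≤ Real.exp (-x₀) := Real.exp_le_exp.mpr (by linarith only [hy])
    rw [hex₀] at h1
    exact h1.trans_lt (hR12.trans hR2)
  constructor
  · have h1 : ContinuousOn (Real.circleAverage (Potential_L w U) 0) (Set.Ioo 0 R₀) := by
      refine Real.ContinuousOn.circleAverage (fun z hz => ?_) fun r hr => hr.1.le
      have hz' : 0 < ‖z‖ ∧ ‖z‖ < R₀ := by simpa using hz
      exact (Potential_cont hw hd.wbig hU hz'.1 hz'.2).continuousWithinAt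
    have h2 : ContinuousOn (fun y : ℝ => Real.exp (-y)) (Set.Ici x₀) :=
      (Real.continuous_exp.comp continuous_neg).continuousOn
    have h3 : ContinuousOn (fun y => Real.circleAverage (Potential_L w U) 0 (Real.exp (-y)))
        (Set.Ici x₀) := h1.comp h2 fun y hy => ⟨Real.exp_pos _, hexle y hy⟩
    exact h3.congr fun y hy => hG y (hexle y hy)
  · intro x hx
    -- the zeros and poles
    set β : ℝ := x + 1 with hβ
    set α : ℝ := -Real.log R₂ with hα
    have hR2pos : 0 < R₂ := hR1.trans hR12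
    have heα : Real.exp (-α) = R₂ := by rw [hα, neg_neg, Real.exp_log hR2pos]
    have hαx₀ : α < x₀ := by
      rw [hα, hx₀]
      linarith only [hR1, hR12, Real.log_lt_log hR1 hR12]
    have hfinT : {s : ℂ | Real.exp (-β) ≤ ‖s‖ ∧ ‖s‖ ≤ R₁ ∧ ordZ u s ≠ 0}.Finite :=
      Pool.Agent.H92.GGL.finite_ordZ (Real.exp_pos _) (hR12.trans hR2) hu.mero
    set T : Finset ℂ := hfinT.toFinset with hTdef
    have hTmem : ∀ s, s ∈ T ↔ Real.exp (-β) ≤ ‖s‖ ∧ ‖s‖ ≤ R₁ ∧ ordZ u s ≠ 0 := by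
      intro s
      rw [hTdef, Set.Finite.mem_toFinset]
      rfl
    have hTD : ∀ s ∈ T, 0 < ‖s‖ ∧ ‖s‖ < R₀ := by
      intro s hs
      obtain ⟨h1, h2, -⟩ := (hTmem s).mp hs
      exact ⟨(Real.exp_pos _).trans_le h1, h2.trans_lt (hR12.trans hR2)⟩
    have hTU : ∀ s ∈ T, U s = 0 := by
      intro s hs
      obtain ⟨h1, h2⟩ := hTD s hs
      rw [hU.ord s h1 h2, hord s h1 h2]
      exact ((hTmem s).mp hs).2.2
    have hTlt : ∀ s ∈ T, ‖s‖ < R₁ := by
      intro s hs
      obtain ⟨h1, h2, h3⟩ := (hTmem s).mp hs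
      refine lt_of_le_of_ne h2 fun h4 => h3 (hfree s h4.ge ?_)
      rw [h4]
      exact hR12.le
    have hTc : ∀ z, Real.exp (-β) < ‖z‖ → ‖z‖ < Real.exp (-α) → U z = 0 → z ∈ T := by
      intro z h1 h2 h3
      rw [heα] at h2
      have h4 : 0 < ‖z‖ := (Real.exp_pos _).trans h1
      have h5 : ‖z‖ < R₀ := h2.trans hR2
      rw [hU.ord z h4 h5, hord z h4 h5] at h3
      rw [hTmem]
      refine ⟨h1.le, ?_, h3⟩
      by_contra h6
      exact h3 (hfree z (not_le.mp h6).le h2.le)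
    have hne : ∀ z, ‖z‖ = Real.exp (-x₀) → U z ≠ 0 := by
      intro z hz h0
      rw [hex₀] at hz
      have h4 : 0 < ‖z‖ := by rw [hz]; exact hR1
      have h5 : ‖z‖ < R₀ := by rw [hz]; exact hR12.trans hR2
      rw [hU.ord z h4 h5, hord z h4 h5] at h0
      exact h0 (hfree z hz.ge (by rw [hz]; exact hR12.le))
    have hid := Potential_identity hd hU hTU (α := α) (β := β) (by rw [heα]; exact hR2.le) hTc
      (x₀ := x₀) (x := x) ⟨hαx₀, by rw [hβ]; linarith⟩ ⟨hαx₀.trans_le hx, by rw [hβ]; linarith⟩ hne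
    obtain ⟨hg1, hg2, hg3⟩ := Potential_mean_g hd hU T (hexle x hx)
    obtain ⟨hg4, hg5, hg6⟩ := Potential_mean_g hd hU T (hexle x₀ le_rfl)
    have hK := Potential_mean_K hd hU (T := T) (hexle x₀ le_rfl) hne
      (fun s hs => by rw [hex₀]; exact hTlt s hs)
    rw [hg1, hg4] at hid
    have hint : (∫ y in x₀..x, (x - y) *
        mean (fun z => w (Real.log ‖u z‖) * ‖z * deriv u z / u z‖ ^ 2) y) =
        ∫ y in x₀..x, (x - y) * mean (Potential_L w U) y := by
      apply intervalIntegral.integral_congr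
      intro y hy
      rw [Set.uIcc_of_le hx] at hy
      simp only [hG y (hexle y hy.1)]
    have habs : mean (fun z => |Real.log ‖U z‖|) x = mean (fun z => |Real.log ‖u z‖|) x := by
      refine Potential_mean_congr fun z hz => ?_
      filter_upwards [hUu z (by rw [hz]; exact Real.exp_pos _) (by rw [hz]; exact hexle x hx)]
        with z' hz'
      rw [hz']
    -- the counting function
    have hcnt : cnt (fun s => |(ordZ u s : ℝ)|) R₁ (Real.exp (-x)) =
        ∑ s ∈ T, |(ordZ U s : ℝ)| * Real.posLog (‖s‖ / Real.exp (-x)) := by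
      rw [cnt_eq_sum (T := T) ?_ (Real.exp_pos _), Finset.sum_filter]
      · refine Finset.sum_congr rfl fun s hs => ?_
        have hs2 := hTlt s hs
        obtain ⟨k1, k2⟩ := hTD s hs
        rw [hord s k1 k2, hpl]
        by_cases h1 : Real.exp (-x) < ‖s‖
        · rw [if_pos ⟨h1, hs2⟩, max_eq_right]
          exact Real.log_nonneg ((one_le_div (Real.exp_pos _)).mpr h1.le)
        · rw [if_neg fun h => h1 h.1, max_eq_left, mul_zero]
          exact Real.log_nonpos (div_nonneg (norm_nonneg _) (Real.exp_pos _).le)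
            ((div_le_one (Real.exp_pos _)).mpr (not_lt.mp h1))
      · intro s h1 h2 h3
        rw [hTmem]
        refine ⟨?_, h2.le, ?_⟩
        · have : Real.exp (-β) ≤ Real.exp (-x) := Real.exp_le_exp.mpr (by rw [hβ]; linarith only)
          exact this.trans h1.le
        · intro h4
          exact h3 (by rw [h4]; simp)
    have hpos0 : ∀ s ∈ T, Real.posLog (‖s‖ / Real.exp (-x₀)) = 0 := by
      intro s hs
      rw [hpl, max_eq_left]
      rw [hex₀]
      exact Real.log_nonpos (div_nonneg (norm_nonneg _) hR1.le)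
        ((div_le_one hR1).mpr (hTlt s hs).le)
    have hs1 : ∑ s ∈ T, |(ordZ U s : ℝ)| * (-x + Real.posLog (‖s‖ / Real.exp (-x))) =
        -x * (∑ s ∈ T, |(ordZ U s : ℝ)|) + cnt (fun s => |(ordZ u s : ℝ)|) R₁ (Real.exp (-x)) := by
      rw [hcnt, Finset.mul_sum, ← Finset.sum_add_distrib]
      refine Finset.sum_congr rfl fun s _ => ?_
      ring
    have hs2 : ∑ s ∈ T, |(ordZ U s : ℝ)| * (-x₀ + Real.posLog (‖s‖ / Real.exp (-x₀))) =
        -x₀ * (∑ s ∈ T, |(ordZ U s : ℝ)|) := by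
      rw [Finset.mul_sum]
      refine Finset.sum_congr rfl fun s hs => ?_
      rw [hpos0 s hs]
      ring
    rw [hs1, hs2] at hid
    have hcnt0 : 0 ≤ cnt (fun s => |(ordZ u s : ℝ)|) R₁ (Real.exp (-x)) := by
      rw [hcnt]
      exact Finset.sum_nonneg fun s _ => mul_nonneg (abs_nonneg _) Real.posLog_nonneg
    rw [hint, ← habs]
    set N : ℝ := ∑ s ∈ T, |(ordZ U s : ℝ)| with hN
    have hKle := (abs_le.mp hK).1
    have hxx : 0 ≤ x - x₀ := by linarith only [hx]
    have h1 : -(mean (Potential_K W a U T) x₀ + a * N) * (x - x₀) ≤ C₀ * (x - x₀) :=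
      mul_le_mul_of_nonneg_right (by linarith only [hKle]) hxx
    have h2 : a * cnt (fun s => |(ordZ u s : ℝ)|) R₁ (Real.exp (-x)) ≤
        cnt (fun s => |(ordZ u s : ℝ)|) R₁ (Real.exp (-x)) := by
      have := mul_le_mul_of_nonneg_right hd.a1 hcnt0
      linarith only [this]
    have h3 : C₀ * (x - x₀) ≤ C₀ * (1 + |x₀|) * (1 + |x|) := by
      rw [mul_assoc]
      refine mul_le_mul_of_nonneg_left ?_ hC₀0
      have e1 := le_abs_self x
      have e2 := neg_le_abs x₀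
      have e3 := abs_nonneg x
      have e4 := abs_nonneg x₀
      nlinarith only [e1, e2, e3, e4, mul_nonneg e3 e4]
    nlinarith only [hid, h1, h2, h3, hg3, hg5]

end Pool.Agent.H62.FC

end
end

section

/-!
# Lines which avoid a subset of codimension two
-/

open Topology Filter

namespace Pool.Agent.H92.GGL

open Pool.Agent.H17 Pool.Agent.H66.Lang

/-- A set has complex codimension at least two: it is empty or of Hausdorff dimension at most
`2 g - 4`. -/
def CodimTwo {g : ℕ} (Z : Set (Fin g → ℂ)) : Prop := Z = ∅ ∨ dimH Z + 4 ≤ 2 * (g : ENNReal)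

/-- The lines through a point outside `Z` which do not meet `Z` are dense. -/
theorem dense_lines {g : ℕ} {Z : Set (Fin g → ℂ)} (hZ : CodimTwo Z) {p : Fin g → ℂ} (hp : p ∉ Z) :
    Dense {q : Fin g → ℂ | ∀ s : ℂ, line p q s ∉ Z} := by
  classical
  rcases hZ with rfl | hZ
  · have : {q : Fin g → ℂ | ∀ s : ℂ, line p q s ∉ (∅ : Set (Fin g → ℂ))} = Set.univ := by
      ext q
      simp
    rw [this]
    exact dense_univ
  -- the dimension is at least two
  have hg : 2 ≤ g := by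
    by_contra hcon
    push Not at hcon
    have h1 : (4 : ENNReal) ≤ 2 * (g : ENNReal) := le_trans (by simp) hZ
    have h2 : (4 : ENNReal) ≤ ((2 * g : ℕ) : ENNReal) := by
      push_cast
      exact h1
    have h3 : 4 ≤ 2 * g := by exact_mod_cast h2
    omega
  set i : Fin g := ⟨0, by omega⟩ with hi
  set u : (Fin g → ℂ) → ({j : Fin g // j ≠ i} → ℂ) := fun z j => (z j - p j) / (z i - p i) with hu
  set Z' : Set (Fin g → ℂ) := Z ∩ {z | z i ≠ p i} with hZ'
  set B : Set ({j : Fin g // j ≠ i} → ℂ) := u '' Z' with hB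
  have hlip : ∀ z ∈ Z', ∃ C : NNReal, ∃ s ∈ 𝓝[Z'] z, LipschitzOnWith C u s := by
    intro z hz
    have hzi : z i - p i ≠ 0 := sub_ne_zero.mpr hz.2
    have h1 : ContDiffAt ℂ 1 u z := by
      rw [contDiffAt_pi]
      intro j
      refine ContDiffAt.div ?_ ?_ hzi
      · exact (contDiff_apply ℂ ℂ (j : Fin g)).contDiffAt.sub contDiffAt_const
      · exact (contDiff_apply ℂ ℂ i).contDiffAt.sub contDiffAt_const
    obtain ⟨C, s, hs, hC⟩ := (h1.restrict_scalars ℝ).exists_lipschitzOnWith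
    exact ⟨C, s, mem_nhdsWithin_of_mem_nhds hs, hC⟩
  have hdim : dimH B < Module.finrank ℝ ({j : Fin g // j ≠ i} → ℂ) := by
    have h1 : dimH B ≤ dimH Z :=
      (dimH_image_le_of_locally_lipschitzOn hlip).trans (dimH_mono Set.inter_subset_left)
    have h2 : Module.finrank ℝ ({j : Fin g // j ≠ i} → ℂ) = 2 * (g - 1) := by
      rw [Module.finrank_pi_fintype]
      simp only [Complex.finrank_real_complex, Finset.sum_const, Finset.card_univ,
        Fintype.card_subtype_compl, Fintype.card_fin, Fintype.card_unique, smul_eq_mul]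
      ring
    rw [h2]
    obtain ⟨g', rfl⟩ : ∃ g', g = g' + 2 := ⟨g - 2, by omega⟩
    have h3 : dimH Z + 4 ≤ ((2 * g' : ℕ) : ENNReal) + 4 := by
      refine hZ.trans (le_of_eq ?_)
      push_cast
      ring
    have h4 : dimH Z ≤ ((2 * g' : ℕ) : ENNReal) := by
      rwa [ENNReal.add_le_add_iff_right (by simp)] at h3
    refine (h1.trans h4).trans_lt ?_
    exact_mod_cast (by omega : 2 * g' < 2 * (g' + 2 - 1))
  have hBd : Dense Bᶜ := dense_compl_of_dimH_lt_finrank hdim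
  rw [dense_iff_inter_open]
  intro V hV hVne
  -- a point with a different coordinate
  have hd1 : Dense {q : Fin g → ℂ | q i ≠ p i} :=
    (dense_compl_singleton (p i)).preimage (isOpenMap_eval i)
  obtain ⟨q₁, hq₁V, hq₁⟩ := hd1.inter_open_nonempty V hV hVne
  have hq₁' : q₁ i - p i ≠ 0 := sub_ne_zero.mpr hq₁
  set ψ : ({j : Fin g // j ≠ i} → ℂ) → (Fin g → ℂ) := fun w j =>
    if h : j = i then q₁ i else p j + (q₁ i - p i) * w ⟨j, h⟩ with hψ
  have hψc : Continuous ψ := by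
    refine continuous_pi fun j => ?_
    simp only [hψ]
    by_cases h : j = i
    · simp only [h, dite_true]
      exact continuous_const
    · simp only [h, dite_false]
      fun_prop
  have hψu : ψ (u q₁) = q₁ := by
    funext j
    simp only [hψ, hu]
    by_cases h : j = i
    · rw [dif_pos h, h]
    · rw [dif_neg h]
      field_simp
      ring
  obtain ⟨w, hwV, hwB⟩ := hBd.inter_open_nonempty (ψ ⁻¹' V) (hV.preimage hψc)
    ⟨u q₁, by rw [Set.mem_preimage, hψu]; exact hq₁V⟩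
  refine ⟨ψ w, hwV, ?_⟩
  intro s hs
  have hψi : ψ w i = q₁ i := by
    simp only [hψ, dite_true]
  rcases eq_or_ne s 0 with h0 | h0
  · rw [h0, line_zero] at hs
    exact hp hs
  · apply hwB
    have hli : line p (ψ w) s i - p i = s * (q₁ i - p i) := by
      simp only [line, Pi.add_apply, Pi.smul_apply, Pi.sub_apply, smul_eq_mul, hψi]
      ring
    refine ⟨line p (ψ w) s, ⟨hs, ?_⟩, ?_⟩
    · intro h
      change line p (ψ w) s i = p i at h
      rw [h, sub_self] at hli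
      exact mul_ne_zero h0 hq₁' hli.symm
    · funext j
      have hlj : line p (ψ w) s j - p j = s * ((q₁ i - p i) * w j) := by
        simp only [line, Pi.add_apply, Pi.smul_apply, Pi.sub_apply, smul_eq_mul, hψ, dif_neg j.2]
        ring
      change (line p (ψ w) s j - p j) / (line p (ψ w) s i - p i) = w j
      rw [hlj, hli]
      field_simp

/-- A holomorphic map which is constant on a dense set of points is constant. -/
theorem const_of_dense {g N : ℕ} {Z : Set (Fin g → ℂ)} {f : (Fin g → ℂ) → PN N}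
    (hf : HolomorphicIntoPN f Zᶜ) {D : Set (Fin g → ℂ)} (hD : Dense D) {x : PN N}
    (hx : ∀ q ∈ D, f q = x) {q : Fin g → ℂ} (hq : q ∉ Z) : f q = x := by
  obtain ⟨φ, hφ, hev⟩ := hf q hq
  obtain ⟨h0, h1⟩ := hev.self_of_nhds
  induction x using Projectivization.ind with
  | _ v hv =>
  rw [h1]
  have hne : (𝓝[D] q).NeBot := mem_closure_iff_nhdsWithin_neBot.mp (hD q)
  have hφc : ∀ j, Tendsto (fun y => φ y j) (𝓝[D] q) (𝓝 (φ q j)) := fun j =>
    ((tendsto_pi_nhds.mp hφ.continuousAt.tendsto) j).mono_left nhdsWithin_le_nhds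
  have hcross : ∀ i j, φ q i * v j = φ q j * v i := by
    intro i j
    have h2 : Tendsto (fun y => φ y i * v j) (𝓝[D] q) (𝓝 (φ q i * v j)) :=
      (hφc i).mul_const _
    have h3 : Tendsto (fun y => φ y j * v i) (𝓝[D] q) (𝓝 (φ q j * v i)) :=
      (hφc j).mul_const _
    refine tendsto_nhds_unique (h2.congr' ?_) h3
    filter_upwards [hev.filter_mono nhdsWithin_le_nhds, self_mem_nhdsWithin] with y hy1 hy2
    obtain ⟨h4, h5⟩ := hy1
    rw [hx y hy2] at h5
    obtain ⟨c, hc, h6⟩ := mk_eq_mk_cross h5.symm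
    rw [h6, h6]
    ring
  obtain ⟨i, hi⟩ : ∃ i, v i ≠ 0 := by
    by_contra hcon
    push Not at hcon
    exact hv (funext hcon)
  rw [Projectivization.mk_eq_mk_iff]
  have hφi : φ q i ≠ 0 := by
    intro h
    apply h0
    funext j
    have h2 := hcross i j
    rw [h, zero_mul] at h2
    exact (mul_eq_zero.mp h2.symm).resolve_right hi
  refine ⟨Units.mk0 (φ q i / v i) (div_ne_zero hφi hi), ?_⟩
  funext j
  change φ q i / v i * v j = φ q j
  rw [div_mul_eq_mul_div, hcross i j]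
  field_simp

end Pool.Agent.H92.GGL

end
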