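import Pool.Agent.H94.DG.M13

/-! The parts of this file: H5.DG.DefsC, H5.DG.DirA, H5.DG.NullId, H5.DG.SizeLem. -/

section

/-!
# Project DG, Part C: definitions
-/

open MvPolynomial Polynomial

noncomputable section

namespace Pool.Agent.H5.DG

section

variable {n : ℕ} {L : Type} [Field L] [Algebra ℂ L]

open Classical in
/-- The roots of `N (v; ·)` which do not belong to the points in `T`. -/
def outs (N : (PV n)[X]) (v : Fin (n + 2) → L) (T : Finset (Fin (n + 2) → ℂ)) : Finset L :=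
  (rts N v).filter fun u => ∀ τ ∈ T, algebraMap ℂ L (τ 1) ≠ u

end

/-- The maximum of the values of the coordinates. -/
def vn {L : Type} [Field L] {Γ₀ : Type} [LinearOrderedCommGroupWithZero Γ₀] (ν : Valuation L Γ₀)
    {k : ℕ} (x : Fin k → L) : Γ₀ := Finset.univ.sup fun a => ν (x a)

end Pool.Agent.H5.DG

end
end

section

/-!
# Project DG, B6: directions

Vectors `θ` with `θ 0 = 0`, i.e. vectors of `ℂ^(n+1)`: take `κ n + 1` vectors `θ_k = (0, 1, k, k², …, k^n)` (`k = 0, …, κ n`); any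
`n + 1` of them are a basis of this space (Vandermonde). Complex case: for every set `s` of `n + 1` of them there is a constant
`C` with `‖x‖ ≤ C max_{θ ∈ s} ‖dot θ x‖` for `x 0 = 0` (inverse matrix). Let `C` be the maximum of these constants. For given `x i`
the set of the `θ` with `‖x i‖ > C ‖dot θ (x i)‖` has at most `n` elements, so the union over `i ∈ s` has at most `κ n` elements.
Valuations trivial on `ℂ`: the same with constant `1` (the inverse matrices have complex coefficients).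
-/

open MvPolynomial

noncomputable section

namespace Pool.Agent.H5.DG

/-- The vector `(0, 1, k, k², …, k^n)`. -/
private def DirA_th (n : ℕ) (k : ℕ) : Fin (n + 2) → ℂ :=
  Fin.cons 0 fun i : Fin (n + 1) => (k : ℂ) ^ (i : ℕ)

private theorem DirA_pick {n κ : ℕ} {ι : Type} (s : Finset ι) (bad : ι → Finset ℕ)
    (hs : s.card ≤ κ) (hbad : ∀ i ∈ s, (bad i).card ≤ n) :
    ∃ k ∈ Finset.range (κ * n + 1), ∀ i ∈ s, k ∉ bad i := by
  classical
  have h1 : (s.biUnion bad).card < (Finset.range (κ * n + 1)).card := by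
    rw [Finset.card_range]
    refine lt_of_le_of_lt (Finset.card_biUnion_le_card_mul s bad n hbad) ?_
    exact Nat.lt_succ_of_le (Nat.mul_le_mul_right n hs)
  obtain ⟨k, hk, hk'⟩ := Finset.exists_mem_notMem_of_card_lt_card h1
  refine ⟨k, hk, fun i hi hki => hk' (Finset.mem_biUnion.2 ⟨i, hi, hki⟩)⟩

/-- `n + 1` elements of a set of natural numbers with more than `n` elements. -/
private theorem DirA_emb {n : ℕ} {B : Finset ℕ} (h : n < B.card) :
    ∃ e : Fin (n + 1) → ℕ, Function.Injective e ∧ ∀ i, e i ∈ B := by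
  obtain ⟨t, ht, htc⟩ := Finset.exists_subset_card_eq (Nat.succ_le_of_lt h)
  refine ⟨fun i => t.orderEmbOfFin htc i, (t.orderEmbOfFin htc).injective, fun i => ?_⟩
  exact ht (t.orderEmbOfFin_mem htc i)

private def DirA_M {n : ℕ} (e : Fin (n + 1) → ℕ) : Matrix (Fin (n + 1)) (Fin (n + 1)) ℂ :=
  Matrix.vandermonde fun i => (e i : ℂ)

private theorem DirA_inv {n : ℕ} {e : Fin (n + 1) → ℕ} (he : Function.Injective e) :
    (DirA_M e)⁻¹ * DirA_M e = 1 := by
  apply Matrix.nonsing_inv_mul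
  rw [isUnit_iff_ne_zero, DirA_M, Matrix.det_vandermonde_ne_zero_iff]
  exact Nat.cast_injective.comp he

/-- The coordinates of `x` in terms of the values `dot θ_k x`. -/
private theorem DirA_coord {n : ℕ} {L : Type} [Field L] [Algebra ℂ L] {e : Fin (n + 1) → ℕ}
    (he : Function.Injective e) (x : Fin (n + 2) → L) (j : Fin (n + 1)) :
    x j.succ = ∑ i, algebraMap ℂ L ((DirA_M e)⁻¹ j i) * dot (toL L (DirA_th n (e i))) x := by
  have h1 : ∀ i, dot (toL L (DirA_th n (e i))) x =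
      ∑ l : Fin (n + 1), algebraMap ℂ L (DirA_M e i l) * x l.succ := by
    intro i
    rw [dot, Fin.sum_univ_succ]
    simp only [toL, DirA_th, Fin.cons_zero, map_zero, zero_mul, zero_add, Fin.cons_succ, DirA_M,
      Matrix.vandermonde_apply]
  simp_rw [h1, Finset.mul_sum]
  rw [Finset.sum_comm]
  have h2 : ∀ l : Fin (n + 1), ∑ i, algebraMap ℂ L ((DirA_M e)⁻¹ j i) *
      (algebraMap ℂ L (DirA_M e i l) * x l.succ) = if j = l then x l.succ else 0 := by
    intro l
    have h3 : ∑ i, algebraMap ℂ L ((DirA_M e)⁻¹ j i) *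
        (algebraMap ℂ L (DirA_M e i l) * x l.succ) =
        algebraMap ℂ L (((DirA_M e)⁻¹ * DirA_M e) j l) * x l.succ := by
      rw [Matrix.mul_apply, map_sum, Finset.sum_mul]
      refine Finset.sum_congr rfl fun i _ => ?_
      rw [map_mul]
      ring
    rw [h3, DirA_inv he, Matrix.one_apply]
    split_ifs
    · rw [map_one, one_mul]
    · rw [map_zero, zero_mul]
  rw [Finset.sum_congr rfl fun l _ => h2 l, Finset.sum_ite_eq, if_pos (Finset.mem_univ _)]

private theorem DirA_toL {n : ℕ} (θ : Fin (n + 2) → ℂ) : toL ℂ θ = θ := by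
  funext a
  rfl

theorem dirA (n κ : ℕ) : ∃ (Θ : Finset (Fin (n + 2) → ℂ)) (C : ℝ), 0 < C ∧
    (∀ θ ∈ Θ, θ 0 = 0) ∧
    ∀ {ι : Type} (s : Finset ι) (x : ι → Fin (n + 2) → ℂ), s.card ≤ κ → (∀ i ∈ s, x i 0 = 0) →
      ∃ θ ∈ Θ, ∀ i ∈ s, ‖x i‖ ≤ C * ‖dot θ (x i)‖ := by
  classical
  set C0 : ℝ := ∑ e : Fin (n + 1) → Fin (κ * n + 1), ∑ j, ∑ i,
    ‖(DirA_M fun i => (e i : ℕ))⁻¹ j i‖ with hC0
  have hC0' : 0 ≤ C0 := by positivity
  refine ⟨(Finset.range (κ * n + 1)).image (DirA_th n), C0 + 1, by positivity, ?_, ?_⟩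
  · intro θ hθ
    obtain ⟨k, -, rfl⟩ := Finset.mem_image.1 hθ
    rfl
  intro ι s x hs hx
  obtain ⟨k, hk, hk'⟩ := DirA_pick (n := n) s (fun i => (Finset.range (κ * n + 1)).filter
    fun k => ¬ ‖x i‖ ≤ (C0 + 1) * ‖dot (DirA_th n k) (x i)‖) hs (fun i hi => by
      by_contra hcard
      obtain ⟨e, he, heB⟩ := DirA_emb (not_le.1 hcard)
      have hlt : ∀ l, e l < κ * n + 1 := fun l =>
        Finset.mem_range.1 (Finset.mem_filter.1 (heB l)).1
      have hbad : ∀ l, (C0 + 1) * ‖dot (DirA_th n (e l)) (x i)‖ < ‖x i‖ := fun l =>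
        not_le.1 (Finset.mem_filter.1 (heB l)).2
      have hpos : 0 < ‖x i‖ := lt_of_le_of_lt (by positivity) (hbad 0)
      have hrow : ∀ j, ∑ l, ‖(DirA_M e)⁻¹ j l‖ ≤ C0 := by
        intro j
        set e' : Fin (n + 1) → Fin (κ * n + 1) := fun l => ⟨e l, hlt l⟩ with he'
        have h1 : ∑ l, ‖(DirA_M e)⁻¹ j l‖ ≤ ∑ j, ∑ l, ‖(DirA_M e)⁻¹ j l‖ :=
          Finset.single_le_sum (f := fun j => ∑ l, ‖(DirA_M e)⁻¹ j l‖)
            (fun _ _ => by positivity) (Finset.mem_univ j)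
        have h2 : ∑ j, ∑ l, ‖(DirA_M fun i => (e' i : ℕ))⁻¹ j l‖ ≤ C0 :=
          Finset.single_le_sum (f := fun e : Fin (n + 1) → Fin (κ * n + 1) =>
            ∑ j, ∑ l, ‖(DirA_M fun i => (e i : ℕ))⁻¹ j l‖)
            (fun _ _ => by positivity) (Finset.mem_univ e')
        exact h1.trans h2
      have hlt' : ‖x i‖ < ‖x i‖ := by
        rw [pi_norm_lt_iff hpos]
        intro a
        refine Fin.cases ?_ (fun j => ?_) a
        · rw [hx i hi, norm_zero]
          exact hpos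
        · rw [DirA_coord (L := ℂ) he (x i) j]
          simp only [DirA_toL]
          have hsum : ‖∑ l, algebraMap ℂ ℂ ((DirA_M e)⁻¹ j l) * dot (DirA_th n (e l)) (x i)‖ ≤
              C0 * (‖x i‖ / (C0 + 1)) := by
            refine (norm_sum_le _ _).trans ?_
            refine le_trans (Finset.sum_le_sum (g := fun l =>
              ‖(DirA_M e)⁻¹ j l‖ * (‖x i‖ / (C0 + 1))) fun l _ => ?_) ?_
            · rw [norm_mul]
              refine mul_le_mul_of_nonneg_left ?_ (norm_nonneg _)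
              rw [le_div_iff₀ (by positivity), mul_comm]
              exact (hbad l).le
            · rw [← Finset.sum_mul]
              exact mul_le_mul_of_nonneg_right (hrow j) (by positivity)
          refine lt_of_le_of_lt hsum ?_
          rw [← mul_div_assoc, div_lt_iff₀ (by positivity)]
          nlinarith
      exact lt_irrefl _ hlt')
  refine ⟨DirA_th n k, Finset.mem_image_of_mem _ hk, fun i hi => ?_⟩
  by_contra hcon
  exact hk' i hi (Finset.mem_filter.2 ⟨hk, hcon⟩)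

theorem dirU (n κ : ℕ) : ∃ Θ : Finset (Fin (n + 2) → ℂ), (∀ θ ∈ Θ, θ 0 = 0) ∧
    ∀ (L : Type) [Field L] [Algebra ℂ L] {Γ₀ : Type} [LinearOrderedCommGroupWithZero Γ₀]
      (ν : Valuation L Γ₀), (∀ c : ℂ, c ≠ 0 → ν (algebraMap ℂ L c) = 1) →
      ∀ {ι : Type} (s : Finset ι) (x : ι → Fin (n + 2) → L), s.card ≤ κ →
        (∀ i ∈ s, x i 0 = 0) →
        ∃ θ ∈ Θ, ∀ i ∈ s, vn ν (x i) ≤ ν (dot (toL L θ) (x i)) := by
  classical
  refine ⟨(Finset.range (κ * n + 1)).image (DirA_th n), ?_, ?_⟩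
  · intro θ hθ
    obtain ⟨k, -, rfl⟩ := Finset.mem_image.1 hθ
    rfl
  intro L _ _ Γ₀ _ ν hν ι s x hs hx
  obtain ⟨k, hk, hk'⟩ := DirA_pick (n := n) s (fun i => (Finset.range (κ * n + 1)).filter
    fun k => ¬ vn ν (x i) ≤ ν (dot (toL L (DirA_th n k)) (x i))) hs (fun i hi => by
      by_contra hcard
      obtain ⟨e, he, heB⟩ := DirA_emb (not_le.1 hcard)
      have hbad : ∀ l, ν (dot (toL L (DirA_th n (e l))) (x i)) < vn ν (x i) := fun l =>
        not_le.1 (Finset.mem_filter.1 (heB l)).2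
      have hpos : 0 < vn ν (x i) := lt_of_le_of_lt (zero_le) (hbad 0)
      have hlt' : vn ν (x i) < vn ν (x i) := by
        refine (Finset.sup_lt_iff (by rw [bot_eq_zero]; exact hpos)).2 fun a _ => ?_
        refine Fin.cases ?_ (fun j => ?_) a
        · rw [hx i hi, map_zero]
          exact hpos
        · rw [DirA_coord he (x i) j]
          refine ν.map_sum_lt hpos.ne' fun l _ => ?_
          rw [map_mul]
          have h1 : ν (algebraMap ℂ L ((DirA_M e)⁻¹ j l)) ≤ 1 := by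
            by_cases h : (DirA_M e)⁻¹ j l = 0
            · rw [h, map_zero, map_zero]
              exact zero_le_one
            · exact (hν _ h).le
          exact lt_of_le_of_lt (mul_le_of_le_one_left' h1) (hbad l)
      exact lt_irrefl _ hlt')
  refine ⟨DirA_th n k, Finset.mem_image_of_mem _ hk, fun i hi => ?_⟩
  by_contra hcon
  exact hk' i hi (Finset.mem_filter.2 ⟨hk, hcon⟩)

end Pool.Agent.H5.DG

end
end

section

/-!
# Project DG, B2: the consequence of the Nullstellensatz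

The coefficients `N.coeff b` (`b ≤ κ`) have no common zero except `0`, so by the Nullstellensatz a power of each variable
lies in the ideal they generate. `bound_below`: `max_b |N.coeff b (v)| ≥ c ‖v‖ ^ κ` (compactness of the unit
sphere and homogeneity, or the identity). `val_bound_below`: for a valuation trivial on `ℂ` and `v` with integral
coordinates, one of them a unit: some `N.coeff b (v)` is a unit (the identity `v a ^ m = ∑ G b (v) N.coeff b (v)`).
-/

set_option autoImplicit false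

open MvPolynomial

noncomputable section

namespace Pool.Agent.H5.DG

variable {n κ : ℕ} {N : Polynomial (PV n)}

private theorem nullId_zero (hN : IsPreNorm κ N) (hnd : Nondeg N) (v : Fin (n + 2) → ℂ)
    (h : ∀ b ≤ κ, MvPolynomial.eval v (N.coeff b) = 0) : v = 0 := by
  by_contra hv
  apply hnd v hv
  unfold atV
  ext b
  rw [Polynomial.coeff_map, Polynomial.coeff_zero]
  rcases le_or_gt b κ with hb | hb
  · have := h b hb
    show MvPolynomial.aeval v (N.coeff b) = 0
    rw [MvPolynomial.aeval_eq_eval]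
    exact this
  · rw [Polynomial.coeff_eq_zero_of_natDegree_lt (lt_of_le_of_lt (natDegree_le hN) hb)]
    exact map_zero _

theorem null_identity (hN : IsPreNorm κ N) (hnd : Nondeg N) (a : Fin (n + 2)) :
    ∃ (m : ℕ) (G : Fin (κ + 1) → PV n), (X a : PV n) ^ m = ∑ b, G b * N.coeff b := by
  set I : Ideal (PV n) := Ideal.span (Set.range fun b : Fin (κ + 1) => N.coeff b) with hI
  have hz : (X a : PV n) ∈ I.radical := by
    rw [← MvPolynomial.vanishingIdeal_zeroLocus_eq_radical (K := ℂ) I,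
      MvPolynomial.mem_vanishingIdeal_iff]
    intro v hv
    rw [MvPolynomial.mem_zeroLocus_iff] at hv
    have h0 : v = 0 := by
      apply nullId_zero hN hnd
      intro b hb
      have := hv (N.coeff b) (Ideal.subset_span ⟨⟨b, by omega⟩, rfl⟩)
      rwa [MvPolynomial.aeval_eq_eval] at this
    rw [h0, MvPolynomial.aeval_X]
    rfl
  obtain ⟨m, hm⟩ := hz
  rw [hI, Ideal.mem_span_range_iff_exists_fun] at hm
  obtain ⟨c, hc⟩ := hm
  exact ⟨m, c, hc.symm⟩

private theorem nullId_hom (hN : IsPreNorm κ N) (b : ℕ) (r : ℂ) (v : Fin (n + 2) → ℂ) :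
    MvPolynomial.eval (r • v) (N.coeff b) = r ^ κ * MvPolynomial.eval v (N.coeff b) := by
  rw [MvPolynomial.eval_eq', MvPolynomial.eval_eq', Finset.mul_sum]
  apply Finset.sum_congr rfl
  intro d hd
  have h1 : κ = ∑ i, d i := by
    rw [(hN.hom b).degree_eq_sum_deg_support hd]
    apply Finset.sum_subset (Finset.subset_univ _)
    intro i _ hi
    simpa using hi
  have h2 : ∏ i, (r • v) i ^ d i = r ^ κ * ∏ i, v i ^ d i := by
    conv_rhs => rw [h1, ← Finset.prod_pow_eq_pow_sum]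
    rw [← Finset.prod_mul_distrib]
    apply Finset.prod_congr rfl
    intro i _
    rw [Pi.smul_apply, smul_eq_mul, mul_pow]
  rw [h2]
  ring

private theorem nullId_unit (v : Fin (n + 2) → ℂ) :
    ∃ v' : Fin (n + 2) → ℂ, ‖v'‖ = 1 ∧ v = (‖v‖ : ℂ) • v' := by
  by_cases hv : v = 0
  · refine ⟨fun _ => 1, ?_, ?_⟩
    · rw [pi_norm_const, norm_one]
    · rw [hv]
      simp
  · have h0 : ‖v‖ ≠ 0 := norm_ne_zero_iff.mpr hv
    refine ⟨((‖v‖⁻¹ : ℝ) : ℂ) • v, ?_, ?_⟩
    · rw [norm_smul, Complex.norm_real, norm_inv, norm_norm, inv_mul_cancel₀ h0]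
    · rw [smul_smul, Complex.ofReal_inv, mul_inv_cancel₀ (by exact_mod_cast h0), one_smul]

private theorem nullId_norm (hN : IsPreNorm κ N) (b : ℕ) (v v' : Fin (n + 2) → ℂ)
    (h : v = (‖v‖ : ℂ) • v') :
    ‖MvPolynomial.eval v (N.coeff b)‖ = ‖v‖ ^ κ * ‖MvPolynomial.eval v' (N.coeff b)‖ := by
  conv_lhs => rw [h]
  rw [nullId_hom hN, norm_mul, norm_pow, Complex.norm_real, norm_norm]

private theorem nullId_cont (F : PV n) : Continuous fun v : Fin (n + 2) → ℂ =>
    ‖MvPolynomial.eval v F‖ :=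
  (MvPolynomial.continuous_eval F).norm

theorem bound_below (hN : IsPreNorm κ N) (hnd : Nondeg N) :
    ∃ c : ℝ, 0 < c ∧ ∀ v : Fin (n + 2) → ℂ, ∃ b ≤ κ,
      c * ‖v‖ ^ κ ≤ ‖MvPolynomial.eval v (N.coeff b)‖ := by
  set S : Set (Fin (n + 2) → ℂ) := Metric.sphere 0 1 with hS
  have hSc : IsCompact S := isCompact_sphere 0 1
  have hSne : S.Nonempty := by
    refine ⟨fun _ => 1, ?_⟩
    rw [hS, mem_sphere_zero_iff_norm, pi_norm_const, norm_one]
  set F : (Fin (n + 2) → ℂ) → ℝ := fun v =>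
    ∑ b ∈ Finset.range (κ + 1), ‖MvPolynomial.eval v (N.coeff b)‖ with hF
  have hFc : Continuous F := continuous_finsetSum _ fun b _ => nullId_cont _
  obtain ⟨v0, hv0, hmin⟩ := hSc.exists_isMinOn hSne hFc.continuousOn
  have hF0 : 0 < F v0 := by
    have hnn : 0 ≤ F v0 := Finset.sum_nonneg fun _ _ => norm_nonneg _
    rcases hnn.lt_or_eq with h | h
    · exact h
    · exfalso
      have h2 : ∀ b ∈ Finset.range (κ + 1), ‖MvPolynomial.eval v0 (N.coeff b)‖ = 0 :=
        (Finset.sum_eq_zero_iff_of_nonneg fun _ _ => norm_nonneg _).mp h.symm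
      have h3 : v0 = 0 := by
        apply nullId_zero hN hnd
        intro b hb
        exact norm_eq_zero.mp (h2 b (Finset.mem_range.mpr (by omega)))
      rw [hS, mem_sphere_zero_iff_norm, h3, norm_zero] at hv0
      exact zero_ne_one hv0
  refine ⟨F v0 / (κ + 1), by positivity, fun v => ?_⟩
  obtain ⟨v', hv', hvv'⟩ := nullId_unit v
  have hle : F v0 ≤ F v' := hmin (by rw [hS, mem_sphere_zero_iff_norm]; exact hv')
  -- a large term
  have hex : ∃ b ∈ Finset.range (κ + 1), F v0 / (κ + 1) ≤ ‖MvPolynomial.eval v' (N.coeff b)‖ := by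
    by_contra hcon
    push Not at hcon
    have : F v' < ∑ b ∈ Finset.range (κ + 1), F v0 / (κ + 1) :=
      Finset.sum_lt_sum_of_nonempty ⟨0, Finset.mem_range.mpr (by omega)⟩ hcon
    rw [Finset.sum_const, Finset.card_range, nsmul_eq_mul] at this
    push_cast at this
    have e : ((κ : ℝ) + 1) * (F v0 / (κ + 1)) = F v0 := by field_simp
    rw [e] at this
    linarith
  obtain ⟨b, hb, hb2⟩ := hex
  refine ⟨b, by rw [Finset.mem_range] at hb; omega, ?_⟩
  rw [nullId_norm hN b v v' hvv', mul_comm]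
  exact mul_le_mul_of_nonneg_left hb2 (by positivity)

theorem bound_above (hN : IsPreNorm κ N) :
    ∃ C : ℝ, 0 < C ∧ ∀ (v : Fin (n + 2) → ℂ) (b : ℕ),
      ‖MvPolynomial.eval v (N.coeff b)‖ ≤ C * ‖v‖ ^ κ := by
  set S : Set (Fin (n + 2) → ℂ) := Metric.sphere 0 1 with hS
  have hSc : IsCompact S := isCompact_sphere 0 1
  have hSne : S.Nonempty := by
    refine ⟨fun _ => 1, ?_⟩
    rw [hS, mem_sphere_zero_iff_norm, pi_norm_const, norm_one]
  set F : (Fin (n + 2) → ℂ) → ℝ := fun v =>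
    ∑ b ∈ Finset.range (κ + 1), ‖MvPolynomial.eval v (N.coeff b)‖ with hF
  have hFc : Continuous F := continuous_finsetSum _ fun b _ => nullId_cont _
  obtain ⟨v0, hv0, hmax⟩ := hSc.exists_isMaxOn hSne hFc.continuousOn
  have hnn : 0 ≤ F v0 := Finset.sum_nonneg fun _ _ => norm_nonneg _
  refine ⟨F v0 + 1, by linarith, fun v b => ?_⟩
  obtain ⟨v', hv', hvv'⟩ := nullId_unit v
  have hle : F v' ≤ F v0 := hmax (by rw [hS, mem_sphere_zero_iff_norm]; exact hv')
  rcases le_or_gt b κ with hb | hb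
  · have h1 : ‖MvPolynomial.eval v' (N.coeff b)‖ ≤ F v' :=
      Finset.single_le_sum (f := fun b => ‖MvPolynomial.eval v' (N.coeff b)‖)
        (fun _ _ => norm_nonneg _) (Finset.mem_range.mpr (by omega))
    rw [nullId_norm hN b v v' hvv', mul_comm]
    exact mul_le_mul_of_nonneg_right (by linarith) (by positivity)
  · rw [Polynomial.coeff_eq_zero_of_natDegree_lt (lt_of_le_of_lt (natDegree_le hN) hb), map_zero,
      norm_zero]
    positivity

private theorem nullId_int {L : Type} [Field L] [Algebra ℂ L]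
    {Γ₀ : Type} [LinearOrderedCommGroupWithZero Γ₀] (ν : Valuation L Γ₀)
    (hν : ∀ c : ℂ, c ≠ 0 → ν (algebraMap ℂ L c) = 1) (v : Fin (n + 2) → L)
    (hv : ∀ a, ν (v a) ≤ 1) (F : PV n) : ν (MvPolynomial.aeval v F) ≤ 1 := by
  induction F using MvPolynomial.induction_on with
  | C c =>
    rw [MvPolynomial.aeval_C]
    by_cases hc : c = 0
    · rw [hc, map_zero, map_zero]
      exact zero_le_one
    · exact (hν c hc).le
  | add p q hp hq =>
    rw [map_add]
    exact ν.map_add_le hp hq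
  | mul_X p i hp =>
    rw [map_mul, map_mul, MvPolynomial.aeval_X]
    exact mul_le_one' hp (hv i)

theorem val_bound_below (hN : IsPreNorm κ N) (hnd : Nondeg N) {L : Type} [Field L] [Algebra ℂ L]
    {Γ₀ : Type} [LinearOrderedCommGroupWithZero Γ₀] (ν : Valuation L Γ₀)
    (hν : ∀ c : ℂ, c ≠ 0 → ν (algebraMap ℂ L c) = 1) (v : Fin (n + 2) → L)
    (hv : ∀ a, ν (v a) ≤ 1) (hv1 : ∃ a, ν (v a) = 1) :
    (∀ b, ν (MvPolynomial.aeval v (N.coeff b)) ≤ 1) ∧
      ∃ b ≤ κ, ν (MvPolynomial.aeval v (N.coeff b)) = 1 := by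
  refine ⟨fun b => nullId_int ν hν v hv _, ?_⟩
  obtain ⟨a, ha⟩ := hv1
  obtain ⟨m, G, hG⟩ := null_identity hN hnd a
  have h1 := congrArg (fun p => ν (MvPolynomial.aeval v p)) hG
  simp only [map_pow, MvPolynomial.aeval_X, ha, one_pow, map_sum, map_mul] at h1
  by_contra hcon
  push Not at hcon
  have hlt : ν (∑ b : Fin (κ + 1), MvPolynomial.aeval v (G b) * MvPolynomial.aeval v (N.coeff b))
      < 1 := by
    apply ν.map_sum_lt one_ne_zero
    intro b _
    rw [map_mul]
    have h2 := nullId_int ν hν v hv (G b)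
    have h3 : ν (MvPolynomial.aeval v (N.coeff b)) < 1 :=
      lt_of_le_of_ne (nullId_int ν hν v hv _) (hcon b (by omega))
    calc ν (MvPolynomial.aeval v (G b)) * ν (MvPolynomial.aeval v (N.coeff b))
        ≤ 1 * ν (MvPolynomial.aeval v (N.coeff b)) := mul_le_mul_left h2 _
      _ < 1 := by rw [one_mul]; exact h3
  rw [← h1] at hlt
  exact lt_irrefl _ hlt

end Pool.Agent.H5.DG

end
end

section

/-!
# Project DG, B: the size of the points of the curve

Let `t ∈ Gam N L`, `u = t 1`. The vector `w = e_a - t a e₀` satisfies `dot t w = 0`, so `N (w; u) = 0`. In `N (x e₀ + y e_a; u)` the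
coefficient of `x ^ κ` is `1` (value at `e₀`), and the coefficient of `x ^ j y ^ (κ - j)` is a polynomial `q j (u)` of degree
`≤ κ - j` (`deg`). So `(-t a) ^ κ + ∑_{j < κ} q j (u) (-t a) ^ j = 0`, which gives `|t a| ≤ C max (1, |u|)`
(if `|t a| = x max (1, |u|)` then `x ^ κ ≤ ∑ C x ^ j`), and `≤ max (1, |u|)` for a valuation trivial on `ℂ`
(`ν (q j (u)) ≤ max (1, ν u) ^ (κ - j)`). For `a = 1`, `t 1 = u`; for `a = 0`, `t 0 = 1`.
-/

open MvPolynomial

noncomputable section

namespace Pool.Agent.H5.DG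

variable {n κ : ℕ} {N : Polynomial (PV n)}

private theorem sz_aeval {L : Type} [Field L] [Algebra ℂ L] (f : PV n) (w : Fin (n + 2) → L) :
    MvPolynomial.aeval w f = ∑ α ∈ f.support, algebraMap ℂ L (f.coeff α) * ∏ b, w b ^ α b := by
  rw [MvPolynomial.aeval_def, MvPolynomial.eval₂_eq']

private theorem sz_top (hN : IsPreNorm κ N) {i : ℕ} {α : Fin (n + 2) →₀ ℕ}
    (hα : α ∈ (N.coeff i).support) (h : ¬ α 0 < κ) : i = 0 ∧ α 0 = κ ∧ ∀ b, b ≠ 0 → α b = 0 := by
  have h1 := hN.deg i α hα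
  have h2 : α.degree = κ := by
    rw [Finsupp.degree_eq_weight_one]
    exact hN.hom i (MvPolynomial.mem_support_iff.1 hα)
  have h3 : α 0 = κ := by omega
  refine ⟨by omega, h3, fun b hb => ?_⟩
  rw [Finsupp.degree_eq_sum] at h2
  rw [← Finset.add_sum_erase _ _ (Finset.mem_univ (0 : Fin (n + 2)))] at h2
  have h4 : ∑ x ∈ Finset.univ.erase (0 : Fin (n + 2)), α x = 0 := by omega
  exact Finset.sum_eq_zero_iff.1 h4 b (Finset.mem_erase.2 ⟨hb, Finset.mem_univ b⟩)

private theorem sz_prod_top {L : Type} [Field L] (w : Fin (n + 2) → L) {α : Fin (n + 2) →₀ ℕ}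
    (h1 : α 0 = κ) (h2 : ∀ b, b ≠ 0 → α b = 0) : ∏ b, w b ^ α b = w 0 ^ κ := by
  rw [← Finset.mul_prod_erase _ _ (Finset.mem_univ (0 : Fin (n + 2))), h1]
  have : ∏ b ∈ Finset.univ.erase (0 : Fin (n + 2)), w b ^ α b = 1 := by
    refine Finset.prod_eq_one fun b hb => ?_
    rw [h2 b (Finset.ne_of_mem_erase hb), pow_zero]
  rw [this, mul_one]

private theorem sz_split (hN : IsPreNorm κ N) {L : Type} [Field L] [Algebra ℂ L]
    (w : Fin (n + 2) → L) (u : L) :
    val N w u = (∑ i ∈ Finset.range (κ + 1), ∑ α ∈ (N.coeff i).support with α 0 < κ,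
        algebraMap ℂ L ((N.coeff i).coeff α) * (∏ b, w b ^ α b) * u ^ i) +
      algebraMap ℂ L (∑ i ∈ Finset.range (κ + 1), ∑ α ∈ (N.coeff i).support with ¬ α 0 < κ,
        (N.coeff i).coeff α) * w 0 ^ κ := by
  rw [val_eq_sum (natDegree_le hN), map_sum, Finset.sum_mul, ← Finset.sum_add_distrib]
  refine Finset.sum_congr rfl fun i _ => ?_
  rw [sz_aeval, map_sum, Finset.sum_mul, Finset.sum_mul,
    ← Finset.sum_filter_add_sum_filter_not _ (fun α : Fin (n + 2) →₀ ℕ => α 0 < κ)]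
  congr 1
  refine Finset.sum_congr rfl fun α hα => ?_
  rw [Finset.mem_filter] at hα
  obtain ⟨h1, h2, h3⟩ := sz_top hN hα.1 hα.2
  rw [sz_prod_top w h2 h3, h1, pow_zero, mul_one]

private theorem sz_c0 (hN : IsPreNorm κ N) :
    ∑ i ∈ Finset.range (κ + 1), ∑ α ∈ (N.coeff i).support with ¬ α 0 < κ,
      (N.coeff i).coeff α = 1 := by
  have h1 := sz_split hN (L := ℂ) (Pi.single 0 1) 1
  obtain ⟨t, ht, hv⟩ := hN.split ℂ 1
  have h2 : val N (Pi.single 0 1 : Fin (n + 2) → ℂ) 1 = 1 := by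
    rw [hv]
    refine Finset.prod_eq_one fun s _ => ?_
    unfold dot
    rw [Finset.sum_eq_single 0]
    · rw [(ht s).1, Pi.single_eq_same, mul_one]
    · intro b _ hb
      rw [Pi.single_eq_of_ne hb, mul_zero]
    · intro h
      exact absurd (Finset.mem_univ _) h
  rw [h2] at h1
  have h3 : ∑ i ∈ Finset.range (κ + 1), ∑ α ∈ (N.coeff i).support with α 0 < κ,
        algebraMap ℂ ℂ ((N.coeff i).coeff α) *
          (∏ b, (Pi.single 0 1 : Fin (n + 2) → ℂ) b ^ α b) * 1 ^ i = 0 := by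
    refine Finset.sum_eq_zero fun i _ => Finset.sum_eq_zero fun α hα => ?_
    rw [Finset.mem_filter] at hα
    have h4 : α.degree = κ := by
      rw [Finsupp.degree_eq_weight_one]
      exact hN.hom i (MvPolynomial.mem_support_iff.1 hα.1)
    rw [Finsupp.degree_eq_sum] at h4
    rw [← Finset.add_sum_erase _ _ (Finset.mem_univ (0 : Fin (n + 2)))] at h4
    have h5 : ∑ x ∈ Finset.univ.erase (0 : Fin (n + 2)), α x ≠ 0 := by
      have := hα.2
      omega
    obtain ⟨b, hb, hb2⟩ := Finset.exists_ne_zero_of_sum_ne_zero h5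
    have h6 : ∏ b, (Pi.single 0 1 : Fin (n + 2) → ℂ) b ^ α b = 0 := by
      refine Finset.prod_eq_zero (Finset.mem_univ b) ?_
      rw [Pi.single_eq_of_ne (Finset.ne_of_mem_erase hb), zero_pow hb2]
    rw [h6, mul_zero, zero_mul]
  rw [h3, zero_add, Pi.single_eq_same, one_pow, mul_one] at h1
  exact h1.symm

private theorem sz_key (hN : IsPreNorm κ N) {L : Type} [Field L] [Algebra ℂ L]
    {t : Fin (n + 2) → L} (ht : t ∈ Gam N L) {a : Fin (n + 2)} (ha : a ≠ 0) :
    ∃ e : (Fin (n + 2) →₀ ℕ) → L, (∀ α, e α = 0 ∨ e α = 1) ∧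
      (-(t a)) ^ κ = -∑ i ∈ Finset.range (κ + 1), ∑ α ∈ (N.coeff i).support with α 0 < κ,
        algebraMap ℂ L ((N.coeff i).coeff α) * ((-(t a)) ^ (α 0) * e α) * (t 1) ^ i := by
  classical
  obtain ⟨w, hw⟩ : ∃ w : Fin (n + 2) → L, w = fun b => if b = 0 then -(t a) else
    if b = a then 1 else 0 := ⟨_, rfl⟩
  have hw0 : w 0 = -(t a) := by rw [hw]; simp
  have hwa : w a = 1 := by rw [hw]; simp [ha]
  have hwb : ∀ b, b ≠ 0 → b ≠ a → w b = 0 := by
    intro b h1 h2
    rw [hw]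
    simp [h1, h2]
  have hdot : dot t w = 0 := by
    unfold dot
    rw [← Finset.add_sum_erase _ _ (Finset.mem_univ (0 : Fin (n + 2))),
      ← Finset.add_sum_erase _ _ (Finset.mem_erase.2 ⟨ha, Finset.mem_univ a⟩)]
    have : ∑ x ∈ (Finset.univ.erase (0 : Fin (n + 2))).erase a, t x * w x = 0 := by
      refine Finset.sum_eq_zero fun b hb => ?_
      rw [Finset.mem_erase, Finset.mem_erase] at hb
      rw [hwb b hb.2.1 hb.1, mul_zero]
    rw [this, hw0, hwa, ht.1]
    ring
  have h1 := ht.2 w hdot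
  rw [sz_split hN, sz_c0 hN, map_one, one_mul, hw0] at h1
  refine ⟨fun α => ∏ b ∈ Finset.univ.erase (0 : Fin (n + 2)), w b ^ α b, fun α => ?_, ?_⟩
  · by_cases h : ∃ b, b ≠ 0 ∧ b ≠ a ∧ α b ≠ 0
    · obtain ⟨b, hb1, hb2, hb3⟩ := h
      left
      refine Finset.prod_eq_zero (Finset.mem_erase.2 ⟨hb1, Finset.mem_univ b⟩) ?_
      rw [hwb b hb1 hb2, zero_pow hb3]
    · right
      push Not at h
      refine Finset.prod_eq_one fun b hb => ?_
      by_cases hba : b = a
      · rw [hba, hwa, one_pow]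
      · rw [h b (Finset.ne_of_mem_erase hb) hba, pow_zero]
  · rw [eq_neg_iff_add_eq_zero, add_comm]
    rw [← h1]
    congr 1
    refine Finset.sum_congr rfl fun i _ => Finset.sum_congr rfl fun α _ => ?_
    rw [← hw0, Finset.mul_prod_erase _ (fun b => w b ^ α b) (Finset.mem_univ (0 : Fin (n + 2)))]

theorem size_abs (hκ : 1 ≤ κ) (hN : IsPreNorm κ N) :
    ∃ C : ℝ, 1 ≤ C ∧ ∀ t ∈ Gam N ℂ, ‖t‖ ≤ C * max 1 ‖t 1‖ := by
  obtain ⟨S, hS⟩ : ∃ S : ℝ, S = ∑ i ∈ Finset.range (κ + 1), ∑ α ∈ (N.coeff i).support with α 0 < κ,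
    ‖(N.coeff i).coeff α‖ := ⟨_, rfl⟩
  refine ⟨max 1 S, le_max_left _ _, fun t ht => ?_⟩
  obtain ⟨M, hM⟩ : ∃ M : ℝ, M = max 1 ‖t 1‖ := ⟨_, rfl⟩
  rw [← hM]
  have hM1 : 1 ≤ M := by rw [hM]; exact le_max_left _ _
  have hMu : ‖t 1‖ ≤ M := by rw [hM]; exact le_max_right _ _
  have hC1 : 1 ≤ max 1 S := le_max_left _ _
  have hCM : 1 * M ≤ max 1 S * M := mul_le_mul_of_nonneg_right hC1 (by linarith)
  rw [pi_norm_le_iff_of_nonneg (by linarith)]
  intro a
  by_cases ha : a = 0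
  · rw [ha, ht.1, norm_one]
    linarith
  · by_contra hlt
    push Not at hlt
    obtain ⟨e, he, hk⟩ := sz_key hN ht ha
    obtain ⟨X, hX⟩ : ∃ X : ℝ, X = ‖t a‖ := ⟨_, rfl⟩
    rw [← hX] at hlt
    have hXM : M ≤ X := by linarith
    have hX1 : 1 ≤ X := hM1.trans hXM
    have h1 : X ^ κ ≤ S * (X ^ (κ - 1) * M) := by
      have h2 : X ^ κ = ‖(-(t a)) ^ κ‖ := by rw [norm_pow, norm_neg, hX]
      rw [h2, hk, norm_neg, hS, Finset.sum_mul]
      refine (norm_sum_le _ _).trans (Finset.sum_le_sum fun i _ => ?_)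
      rw [Finset.sum_mul]
      refine (norm_sum_le _ _).trans (Finset.sum_le_sum fun α hα => ?_)
      rw [Finset.mem_filter] at hα
      have h3 := hN.deg i α hα.1
      have h4 := hα.2
      rw [norm_mul, norm_mul, norm_mul, norm_pow, norm_pow, norm_neg, ← hX, mul_assoc]
      have h5 : ‖algebraMap ℂ ℂ ((N.coeff i).coeff α)‖ = ‖(N.coeff i).coeff α‖ := rfl
      rw [h5]
      refine mul_le_mul_of_nonneg_left ?_ (norm_nonneg _)
      have h6 : ‖e α‖ ≤ 1 := by
        rcases he α with h | h <;> rw [h] <;> simp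
      have h7 : X ^ α 0 * ‖e α‖ ≤ X ^ α 0 := mul_le_of_le_one_right (by positivity) h6
      have h8 : ‖t 1‖ ^ i ≤ M ^ i := pow_le_pow_left₀ (norm_nonneg _) hMu i
      have h9 : X ^ α 0 * ‖e α‖ * ‖t 1‖ ^ i ≤ X ^ α 0 * M ^ i :=
        mul_le_mul h7 h8 (by positivity) (by positivity)
      refine h9.trans ?_
      rcases Nat.eq_zero_or_pos i with h0 | h0
      · rw [h0, pow_zero, mul_one]
        have h10 : X ^ α 0 ≤ X ^ (κ - 1) := pow_le_pow_right₀ hX1 (by omega)
        exact h10.trans (le_mul_of_one_le_right (by positivity) hM1)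
      · obtain ⟨k, rfl⟩ : ∃ k, i = k + 1 := ⟨i - 1, by omega⟩
        have h10 : M ^ k ≤ X ^ k := pow_le_pow_left₀ (by linarith) hXM k
        have h11 : X ^ α 0 * X ^ k ≤ X ^ (κ - 1) := by
          rw [← pow_add]
          exact pow_le_pow_right₀ hX1 (by omega)
        calc X ^ α 0 * M ^ (k + 1) = (X ^ α 0 * M ^ k) * M := by ring
          _ ≤ (X ^ α 0 * X ^ k) * M := by
            refine mul_le_mul_of_nonneg_right ?_ (by linarith)
            exact mul_le_mul_of_nonneg_left h10 (by positivity)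
          _ ≤ X ^ (κ - 1) * M := mul_le_mul_of_nonneg_right h11 (by linarith)
    have h2 : X ^ κ = X ^ (κ - 1) * X := by
      rw [← pow_succ]
      congr 1
      omega
    have h3 : X ≤ S * M := by
      have h4 : 0 < X ^ (κ - 1) := by positivity
      have h5 : X ^ (κ - 1) * X ≤ X ^ (κ - 1) * (S * M) := by
        rw [← h2]
        calc X ^ κ ≤ S * (X ^ (κ - 1) * M) := h1
          _ = X ^ (κ - 1) * (S * M) := by ring
      exact le_of_mul_le_mul_left h5 h4
    have h4 : S * M ≤ max 1 S * M := mul_le_mul_of_nonneg_right (le_max_right _ _) (by linarith)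
    linarith

theorem size_val (hκ : 1 ≤ κ) (hN : IsPreNorm κ N) {L : Type} [Field L] [Algebra ℂ L]
    [IsAlgClosed L] {Γ₀ : Type} [LinearOrderedCommGroupWithZero Γ₀] (ν : Valuation L Γ₀)
    (hν : ∀ c : ℂ, c ≠ 0 → ν (algebraMap ℂ L c) = 1) (t : Fin (n + 2) → L) (ht : t ∈ Gam N L)
    (a : Fin (n + 2)) : ν (t a) ≤ max 1 (ν (t 1)) := by
  obtain ⟨M, hM⟩ : ∃ M : Γ₀, M = max 1 (ν (t 1)) := ⟨_, rfl⟩
  rw [← hM]
  have hM1 : 1 ≤ M := by rw [hM]; exact le_max_left _ _
  have hMu : ν (t 1) ≤ M := by rw [hM]; exact le_max_right _ _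
  by_cases ha : a = 0
  · rw [ha, ht.1, map_one]
    exact hM1
  · by_contra hlt
    push Not at hlt
    obtain ⟨e, he, hk⟩ := sz_key hN ht ha
    obtain ⟨X, hX⟩ : ∃ X : Γ₀, X = ν (t a) := ⟨_, rfl⟩
    rw [← hX] at hlt
    have hX1 : 1 < X := lt_of_le_of_lt hM1 hlt
    have hX0 : X ≠ 0 := (lt_trans zero_lt_one hX1).ne'
    have h2 : X ^ κ = ν ((-(t a)) ^ κ) := by rw [map_pow, Valuation.map_neg, hX]
    have h3 : ν ((-(t a)) ^ κ) < X ^ κ := by
      rw [hk, Valuation.map_neg]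
      refine Valuation.map_sum_lt ν (pow_ne_zero _ hX0) fun i _ => ?_
      refine Valuation.map_sum_lt ν (pow_ne_zero _ hX0) fun α hα => ?_
      rw [Finset.mem_filter] at hα
      have h3 := hN.deg i α hα.1
      have h4 := hα.2
      rw [map_mul, map_mul, map_mul, map_pow, map_pow, Valuation.map_neg, ← hX,
        hν _ (MvPolynomial.mem_support_iff.1 hα.1), one_mul]
      have h6 : ν (e α) ≤ 1 := by
        rcases he α with h | h <;> rw [h] <;> simp
      have h7 : X ^ α 0 * ν (e α) ≤ X ^ α 0 := mul_le_of_le_one_right' h6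
      have h8 : ν (t 1) ^ i ≤ M ^ i := pow_le_pow_left₀ zero_le hMu i
      have h9 : X ^ α 0 * ν (e α) * ν (t 1) ^ i ≤ X ^ α 0 * M ^ i := mul_le_mul' h7 h8
      refine lt_of_le_of_lt h9 ?_
      rcases Nat.eq_zero_or_pos i with h0 | h0
      · rw [h0, pow_zero, mul_one]
        exact pow_lt_pow_right₀ hX1 h4
      · have h10 : M ^ i < X ^ i := pow_lt_pow_left₀ hlt zero_le (by omega)
        have h11 : X ^ α 0 * M ^ i < X ^ α 0 * X ^ i :=
          mul_lt_mul_of_pos_left h10 (zero_lt_iff.2 (pow_ne_zero _ hX0))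
        refine lt_of_lt_of_le h11 ?_
        rw [← pow_add]
        exact pow_le_pow_right₀ hX1.le h3
    rw [← h2] at h3
    exact lt_irrefl _ h3

end Pool.Agent.H5.DG

end
end
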