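import Pool.Agent.H94.DG.M13

/-! The parts of this file: H5.DG.PtsRoots, H5.DG.Pts, H5.DG.ResEval, H5.DG.ChowProd. -/

section

/-!
# Project DG, B3: the roots of `N (v; ·)`

`aeval v (Del κ N)` is the product of `aeval v (N.coeff κ)` and of the two resultants of `atV N v` with
`atV (dN 0 N) v` and with the derivative of `atV N v`, formal degrees `κ, κ` (`Polynomial.resultant_map_map`). Use
`natDegree_eq`, `Polynomial.resultant_eq_prod_eval` (`L` algebraically closed): no root of `atV N v` is a root of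
`atV (dN 0 N) v` or of the derivative.
-/

open MvPolynomial

noncomputable section

namespace Pool.Agent.H5.DG

variable {n κ : ℕ} {N : Polynomial (PV n)} {L : Type} [Field L] [Algebra ℂ L]

theorem coeff_ne_zero (v : Fin (n + 2) → L) (hΔ : MvPolynomial.aeval v (Del κ N) ≠ 0) :
    MvPolynomial.aeval v (N.coeff κ) ≠ 0 := by
  intro h
  apply hΔ
  rw [Del, map_mul, map_mul, h, zero_mul, zero_mul]

private theorem atV_coeff (v : Fin (n + 2) → L) (i : ℕ) :
    (atV N v).coeff i = MvPolynomial.aeval v (N.coeff i) := by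
  rw [atV, Polynomial.coeff_map]
  rfl

theorem atV_natDegree (hN : IsPreNorm κ N) (v : Fin (n + 2) → L)
    (hv : MvPolynomial.aeval v (N.coeff κ) ≠ 0) :
    (atV N v).natDegree = κ ∧ (atV N v).leadingCoeff = MvPolynomial.aeval v (N.coeff κ) := by
  have h1 : (atV N v).natDegree ≤ κ := by
    refine (Polynomial.natDegree_map_le).trans ?_
    exact natDegree_le hN
  have h2 : (atV N v).natDegree = κ := by
    refine le_antisymm h1 ?_
    refine Polynomial.le_natDegree_of_ne_zero ?_
    rw [atV_coeff]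
    exact hv
  refine ⟨h2, ?_⟩
  rw [Polynomial.leadingCoeff, h2, atV_coeff]

omit [Algebra ℂ L] in
private theorem common_root {f g : Polynomial L} (hκ : 1 ≤ κ) (hf : f.natDegree ≤ κ)
    (hg : g.natDegree ≤ κ) {u : L} (h1 : f.eval u = 0) (h2 : g.eval u = 0) :
    Polynomial.resultant f g κ κ = 0 := by
  obtain ⟨p, q, -, -, e⟩ := Polynomial.exists_mul_add_mul_eq_C_resultant f g hf hg
    (Or.inl (by omega))
  have h3 := congrArg (fun r => Polynomial.eval u r) e
  simp only [Polynomial.eval_add, Polynomial.eval_mul, h1, h2, zero_mul, add_zero,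
    Polynomial.eval_C] at h3
  exact h3.symm

theorem dN_ne_zero (hκ : 1 ≤ κ) (hN : IsPreNorm κ N) (v : Fin (n + 2) → L)
    (hΔ : MvPolynomial.aeval v (Del κ N) ≠ 0) {u : L} (hu : val N v u = 0) :
    val (dN 0 N) v u ≠ 0 := by
  intro h
  apply hΔ
  have h1 : (atV N v).natDegree ≤ κ := (atV_natDegree hN v (coeff_ne_zero v hΔ)).1.le
  have h2 : (atV (dN 0 N) v).natDegree ≤ κ :=
    (Polynomial.natDegree_map_le).trans (natDegree_dN_le hN 0)
  have h3 := common_root hκ h1 h2 hu h
  have h4 : MvPolynomial.aeval v (res0 κ N) = 0 := by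
    rw [← h3, atV, atV, Polynomial.resultant_map_map]
    rfl
  rw [Del, map_mul, map_mul, h4, mul_zero, zero_mul]

theorem derivative_ne_zero (hκ : 1 ≤ κ) (hN : IsPreNorm κ N) (v : Fin (n + 2) → L)
    (hΔ : MvPolynomial.aeval v (Del κ N) ≠ 0) {u : L} (hu : val N v u = 0) :
    (Polynomial.derivative (atV N v)).eval u ≠ 0 := by
  intro h
  apply hΔ
  have h1 : (atV N v).natDegree ≤ κ := (atV_natDegree hN v (coeff_ne_zero v hΔ)).1.le
  have h2 : (Polynomial.derivative (atV N v)).natDegree ≤ κ :=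
    (Polynomial.natDegree_derivative_le _).trans (by omega)
  have h3 := common_root hκ h1 h2 hu h
  have h4 : MvPolynomial.aeval v (Polynomial.resultant N (Polynomial.derivative N) κ κ) = 0 := by
    rw [← h3, atV, Polynomial.derivative_map, Polynomial.resultant_map_map]
    rfl
  rw [Del, map_mul, h4, mul_zero]

private theorem atV_ne_zero (v : Fin (n + 2) → L) (hΔ : MvPolynomial.aeval v (Del κ N) ≠ 0) :
    atV N v ≠ 0 := by
  intro h
  apply coeff_ne_zero v hΔ
  rw [← atV_coeff, h, Polynomial.coeff_zero]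

theorem roots_nodup (hκ : 1 ≤ κ) (hN : IsPreNorm κ N) (v : Fin (n + 2) → L)
    (hΔ : MvPolynomial.aeval v (Del κ N) ≠ 0) : (atV N v).roots.Nodup := by
  classical
  have h0 := atV_ne_zero v hΔ
  rw [Multiset.nodup_iff_count_le_one]
  intro u
  rw [Polynomial.count_roots]
  by_contra hlt
  rw [not_le] at hlt
  rw [Polynomial.one_lt_rootMultiplicity_iff_isRoot h0] at hlt
  exact derivative_ne_zero hκ hN v hΔ (u := u) hlt.1 hlt.2

theorem card_roots [IsAlgClosed L] (hκ : 1 ≤ κ) (hN : IsPreNorm κ N) (v : Fin (n + 2) → L)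
    (hΔ : MvPolynomial.aeval v (Del κ N) ≠ 0) : (rts N v).card = κ := by
  classical
  have h1 := roots_nodup hκ hN v hΔ
  have h2 : (rts N v).card = Multiset.card (atV N v).roots := by
    rw [rts, Multiset.toFinset_card_of_nodup h1]
  rw [h2, ← (IsAlgClosed.splits (atV N v)).natDegree_eq_card_roots,
    (atV_natDegree hN v (coeff_ne_zero v hΔ)).1]

theorem mem_roots_iff (hN : IsPreNorm κ N) (v : Fin (n + 2) → L)
    (hΔ : MvPolynomial.aeval v (Del κ N) ≠ 0) (u : L) :
    u ∈ rts N v ↔ val N v u = 0 := by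
  classical
  rw [rts, Multiset.mem_toFinset, Polynomial.mem_roots (atV_ne_zero v hΔ)]
  rfl

/-- `N (v; c) = a (v) ∏ (c - u)`. -/
theorem val_eq_prod [IsAlgClosed L] (hκ : 1 ≤ κ) (hN : IsPreNorm κ N) (v : Fin (n + 2) → L)
    (hΔ : MvPolynomial.aeval v (Del κ N) ≠ 0) (c : L) :
    val N v c = MvPolynomial.aeval v (N.coeff κ) *
      ∏ u ∈ rts N v, (c - u) := by
  classical
  have h1 := roots_nodup hκ hN v hΔ
  have h2 := (IsAlgClosed.splits (atV N v)).eq_prod_roots
  rw [val]
  conv_lhs => rw [h2]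
  rw [Polynomial.eval_mul, Polynomial.eval_C, (atV_natDegree hN v (coeff_ne_zero v hΔ)).2,
    Polynomial.eval_multiset_prod]
  congr 1
  rw [Multiset.map_map, Finset.prod, rts, Multiset.toFinset_val, Multiset.dedup_eq_self.mpr h1]
  congr 1
  refine Multiset.map_congr rfl ?_
  intro u _
  simp

end Pool.Agent.H5.DG

end
end

section

/-!
# Project DG, B3: the points of the curve in the hyperplane `v`

Let `u` be a root of `N (v; ·)`, `N (·; u) = ∏ t_s` (`split`). Since `val (dN 0 N) v u ≠ 0` and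
`val (dN 0 N) v u = ∑_s ∏_{s' ≠ s} dot (t s') v` (`val_dN_of_split`, `t s 0 = 1`), exactly one of the factors vanishes
at `v` (with its multiplicity), say `t_s`, and `val (dN a N) v u = t_s a * val (dN 0 N) v u`, so `tpt N v u = t_s`.
-/

set_option autoImplicit false

open MvPolynomial

noncomputable section

namespace Pool.Agent.H5.DG

variable {n κ : ℕ} {N : Polynomial (PV n)} {L : Type} [Field L] [Algebra ℂ L] [IsAlgClosed L]

theorem tpt_facts (hκ : 1 ≤ κ) (hN : IsPreNorm κ N) (v : Fin (n + 2) → L)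
    (hΔ : MvPolynomial.aeval v (Del κ N) ≠ 0) {u : L} (hu : val N v u = 0) :
    tpt N v u ∈ Gam N L ∧ tpt N v u 0 = 1 ∧ tpt N v u 1 = u ∧ dot (tpt N v u) v = 0 ∧
      (∀ t ∈ Gam N L, t 1 = u → dot t v = 0 → t = tpt N v u) ∧
      ∀ w : Fin (n + 2) → L, ∑ a, w a * val (dN a N) v u =
        dot (tpt N v u) w * val (dN 0 N) v u := by
  classical
  have hD := dN_ne_zero hκ hN v hΔ hu
  obtain ⟨t, ht1, ht⟩ := hN.split L u
  have hval := fun a => val_dN_of_split (N := N) ht a v
  -- a vanishing factor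
  have hprod : ∏ s, dot (t s) v = 0 := by rw [← ht v]; exact hu
  obtain ⟨s0, _, hs0⟩ := Finset.prod_eq_zero_iff.mp hprod
  have hval2 : ∀ a, val (dN a N) v u = t s0 a * ∏ s' ∈ Finset.univ.erase s0, dot (t s') v := by
    intro a
    rw [hval a]
    apply Finset.sum_eq_single s0
    · intro s _ hs
      rw [Finset.prod_eq_zero (Finset.mem_erase.mpr ⟨Ne.symm hs, Finset.mem_univ s0⟩) hs0, mul_zero]
    · intro h
      exact absurd (Finset.mem_univ s0) h
  have hD0 : val (dN 0 N) v u = ∏ s' ∈ Finset.univ.erase s0, dot (t s') v := by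
    rw [hval2 0, (ht1 s0).1, one_mul]
  have hval3 : ∀ a, val (dN a N) v u = t s0 a * val (dN 0 N) v u := by
    intro a
    rw [hval2 a, hD0]
  have htpt : tpt N v u = t s0 := by
    funext a
    unfold tpt
    rw [hval3 a, mul_div_assoc, div_self hD, mul_one]
  refine ⟨?_, ?_, ?_, ?_, ?_, ?_⟩
  · rw [htpt, mem_Gam_iff ht1 ht _ (ht1 s0).2]
    exact ⟨s0, rfl⟩
  · rw [htpt]
    exact (ht1 s0).1
  · rw [htpt]
    exact (ht1 s0).2
  · rw [htpt]
    exact hs0
  · intro t' ht' ht'1 ht'v
    rw [mem_Gam_iff ht1 ht _ ht'1] at ht'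
    obtain ⟨s, hs⟩ := ht'
    rw [htpt, hs]
    by_contra hne
    have hss : s ≠ s0 := fun h => hne (by rw [h])
    apply hD
    rw [hD0]
    apply Finset.prod_eq_zero (Finset.mem_erase.mpr ⟨hss, Finset.mem_univ s⟩)
    rw [← hs]
    exact ht'v
  · intro w
    rw [htpt]
    unfold dot
    rw [Finset.sum_mul]
    apply Finset.sum_congr rfl
    intro a _
    rw [hval3 a]
    ring

end Pool.Agent.H5.DG

end
end

section

/-!
# Project DG, B4: the values of the resultants

`res0 κ N` at `v` and `resW κ N` at `(v, w)` are resultants of the specialised polynomials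
(`Polynomial.resultant_map_map`); `Polynomial.resultant_eq_prod_eval` with `atV_natDegree`, `natDegree_dN_le`,
`roots_nodup`. The evaluation at `u` of the specialisation of `∑ a, C (X (inr a)) * dN a N` is
`∑ a, w a * val (dN a N) v u`.
-/

set_option autoImplicit false

open MvPolynomial

noncomputable section

namespace Pool.Agent.H5.DG

variable {n κ : ℕ} {N : Polynomial (PV n)} {L : Type} [Field L] [Algebra ℂ L] [IsAlgClosed L]

/-- The resultant of `atV N v` with a polynomial of degree at most `κ`. -/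
private theorem resEval_main (hκ : 1 ≤ κ) (hN : IsPreNorm κ N) (v : Fin (n + 2) → L)
    (hΔ : MvPolynomial.aeval v (Del κ N) ≠ 0) (g : Polynomial L) (hg : g.natDegree ≤ κ) :
    Polynomial.resultant (atV N v) g κ κ = MvPolynomial.aeval v (N.coeff κ) ^ κ *
      ∏ u ∈ rts N v, g.eval u := by
  classical
  obtain ⟨hdeg, hlead⟩ := atV_natDegree hN v (coeff_ne_zero v hΔ)
  have h := Polynomial.resultant_eq_prod_eval (atV N v) g κ hg (IsAlgClosed.splits _)
  rw [hdeg, hlead] at h
  rw [h]
  congr 1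
  have hnd := roots_nodup hκ hN v hΔ
  unfold rts
  rw [Finset.prod_multiset_map_count]
  apply Finset.prod_congr
  · ext x
    simp
  · intro u hu
    rw [Multiset.count_eq_one_of_mem hnd (by simpa using hu), pow_one]

theorem res0_eval (hκ : 1 ≤ κ) (hN : IsPreNorm κ N) (v : Fin (n + 2) → L)
    (hΔ : MvPolynomial.aeval v (Del κ N) ≠ 0) :
    MvPolynomial.aeval v (res0 κ N) = MvPolynomial.aeval v (N.coeff κ) ^ κ *
      ∏ u ∈ rts N v, val (dN 0 N) v u := by
  have h1 : MvPolynomial.aeval v (res0 κ N)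
      = Polynomial.resultant (atV N v) (atV (dN 0 N) v) κ κ := by
    unfold atV res0
    rw [Polynomial.resultant_map_map]
    rfl
  have h2 : (atV (dN 0 N) v).natDegree ≤ κ :=
    (Polynomial.natDegree_map_le).trans (natDegree_dN_le hN 0)
  rw [h1, resEval_main hκ hN v hΔ _ h2]
  rfl

theorem resW_eval (hκ : 1 ≤ κ) (hN : IsPreNorm κ N) (v w : Fin (n + 2) → L)
    (hΔ : MvPolynomial.aeval v (Del κ N) ≠ 0) :
    evVW (resW κ N) v w = MvPolynomial.aeval v (N.coeff κ) ^ κ *
      ∏ u ∈ rts N v, ∑ a, w a * val (dN a N) v u := by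
  have hcomp : ((MvPolynomial.aeval (Sum.elim v w) : PVW n →ₐ[ℂ] L).toRingHom).comp
      (MvPolynomial.rename Sum.inl : PV n →ₐ[ℂ] PVW n).toRingHom
      = (MvPolynomial.aeval v : PV n →ₐ[ℂ] L).toRingHom := by
    apply RingHom.ext
    intro p
    show MvPolynomial.aeval (Sum.elim v w) (MvPolynomial.rename Sum.inl p) = MvPolynomial.aeval v p
    rw [MvPolynomial.aeval_rename]
    rfl
  set g : Polynomial L := ∑ a, Polynomial.C (w a) * atV (dN a N) v with hg
  have h1 : evVW (resW κ N) v w = Polynomial.resultant (atV N v) g κ κ := by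
    unfold evVW resW
    have h2 := (Polynomial.resultant_map_map
      (N.map (MvPolynomial.rename Sum.inl : PV n →ₐ[ℂ] PVW n).toRingHom)
      (∑ a, Polynomial.C (MvPolynomial.X (Sum.inr a)) *
      (dN a N).map (MvPolynomial.rename Sum.inl : PV n →ₐ[ℂ] PVW n).toRingHom) κ κ
      (MvPolynomial.aeval (Sum.elim v w) : PVW n →ₐ[ℂ] L).toRingHom)
    have h3 : (N.map (MvPolynomial.rename Sum.inl : PV n →ₐ[ℂ] PVW n).toRingHom).map
        (MvPolynomial.aeval (Sum.elim v w) : PVW n →ₐ[ℂ] L).toRingHom = atV N v := by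
      rw [Polynomial.map_map, hcomp]
      rfl
    have h4 : (∑ a, Polynomial.C (MvPolynomial.X (Sum.inr a)) *
        (dN a N).map (MvPolynomial.rename Sum.inl : PV n →ₐ[ℂ] PVW n).toRingHom).map
        (MvPolynomial.aeval (Sum.elim v w) : PVW n →ₐ[ℂ] L).toRingHom = g := by
      rw [Polynomial.map_sum, hg]
      apply Finset.sum_congr rfl
      intro a _
      rw [Polynomial.map_mul, Polynomial.map_C, Polynomial.map_map, hcomp]
      congr 2
      show MvPolynomial.aeval (Sum.elim v w) (MvPolynomial.X (Sum.inr a)) = w a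
      rw [MvPolynomial.aeval_X]
      rfl
    rw [h3, h4] at h2
    exact h2.symm
  have hdeg : g.natDegree ≤ κ := by
    rw [hg]
    apply Polynomial.natDegree_sum_le_of_forall_le
    intro a _
    exact (Polynomial.natDegree_C_mul_le _ _).trans
      ((Polynomial.natDegree_map_le).trans (natDegree_dN_le hN a))
  rw [h1, resEval_main hκ hN v hΔ g hdeg]
  congr 1
  apply Finset.prod_congr rfl
  intro u _
  rw [hg, Polynomial.eval_finsetSum]
  apply Finset.sum_congr rfl
  intro a _
  rw [Polynomial.eval_mul, Polynomial.eval_C]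
  rfl

/-- `a (v) Res (N_v, D_w N_v) = (a (v) ∏ t_u (w)) Res (N_v, D_0 N_v)`. -/
theorem resW_eq (hκ : 1 ≤ κ) (hN : IsPreNorm κ N) (v w : Fin (n + 2) → L)
    (hΔ : MvPolynomial.aeval v (Del κ N) ≠ 0) :
    MvPolynomial.aeval v (N.coeff κ) * evVW (resW κ N) v w =
      (MvPolynomial.aeval v (N.coeff κ) * ∏ u ∈ rts N v, dot (tpt N v u) w) *
        MvPolynomial.aeval v (res0 κ N) := by
  rw [res0_eval hκ hN v hΔ, resW_eval hκ hN v w hΔ]
  have h : ∏ u ∈ rts N v, ∑ a, w a * val (dN a N) v u
      = (∏ u ∈ rts N v, dot (tpt N v u) w) * ∏ u ∈ rts N v, val (dN 0 N) v u := by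
    rw [← Finset.prod_mul_distrib]
    apply Finset.prod_congr rfl
    intro u hu
    exact (tpt_facts hκ hN v hΔ ((mem_roots_iff hN v hΔ u).mp hu)).2.2.2.2.2 w
  rw [h]
  ring

omit [IsAlgClosed L] in
theorem res0_ne (v : Fin (n + 2) → L) (hΔ : MvPolynomial.aeval v (Del κ N) ≠ 0) :
    MvPolynomial.aeval v (res0 κ N) ≠ 0 := by
  unfold Del at hΔ
  rw [map_mul, map_mul] at hΔ
  exact right_ne_zero_of_mul (left_ne_zero_of_mul hΔ)

end Pool.Agent.H5.DG

end
end

section

/-!
# Project DG, B4: product formula and homogeneity of the Chow form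

`chow_prod`: `resW_eq`, `res0_ne`. `chow_hom`: if `Δ (v) ≠ 0` and `a ≠ 0`: `val N (a v) u = a ^ κ val N v u`, so `rts N (a v) = rts N v`,
`tpt N (a v) u = tpt N v u`, `Δ (a v) ≠ 0` (`del` is homogeneous: or use that `Del` is a product of forms in the
coefficients of `N`; simplest: `∃ d, Δ (a v) = a ^ d Δ (v)` is a hypothesis here), and `dot (tpt N v u) v = 0`, so
`φ (a v, b w + c v) = a ^ κ b ^ κ φ (v, w)`. Both sides are polynomials in `v, w, a, b, c` with complex coefficients, so
the identity, true over `ℂ` (infinite field, dense set), holds for all `L`. Formulate it as an identity of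
polynomials over `ℂ` in the variables `v, w, a, b, c` (`MvPolynomial.funext`, complement of the zero set of `Δ (v) * a`) and
specialise to `L`. `evVW_Phi_scale`: replace `w` by `w + (ε / b) e₀`: in `L[ε]`: `φ (a v, b w + c v + ε b e₀) =
a ^ κ b ^ κ φ (v, w + ε e₀)`; compare the coefficients of `ε ^ e`: `b ^ e Phi_e (a v, b w + c v) = a ^ κ b ^ κ Phi_e (v, w)`, for
`e ≤ κ` cancel `b ^ e` (as an identity of polynomials in `b`, so valid for `b = 0`, too). For `e > κ`, `Phi_e = 0` as
polynomial: compare the two sides of `chow_hom` for `v, w + ε e₀`: `φ` is homogeneous of degree `κ` in `w`.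
-/

open MvPolynomial

noncomputable section

namespace Pool.Agent.H5.DG

variable {n κ : ℕ} {N : Polynomial (PV n)} {φ : PVW n} {L : Type} [Field L] [Algebra ℂ L]

private theorem aeval_inl (p : PV n) (v w : Fin (n + 2) → L) :
    MvPolynomial.aeval (Sum.elim v w) (MvPolynomial.rename Sum.inl p : PVW n) =
      MvPolynomial.aeval v p := by
  rw [MvPolynomial.aeval_rename, Sum.elim_comp_inl]

/-- Values of forms at multiples of a point. -/
private theorem aeval_smul_hom {k : ℕ} {p : PV n} (hp : p.IsHomogeneous k) (a : L)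
    (v : Fin (n + 2) → L) :
    MvPolynomial.aeval (fun i => a * v i) p = a ^ k * MvPolynomial.aeval v p := by
  rw [MvPolynomial.aeval_def, MvPolynomial.aeval_def, MvPolynomial.eval₂_eq',
    MvPolynomial.eval₂_eq', Finset.mul_sum]
  refine Finset.sum_congr rfl fun m hm => ?_
  have h1 : ∑ i, m i = k := by
    have h2 := hp (MvPolynomial.mem_support_iff.mp hm)
    rw [← h2, Finsupp.weight_apply, Finsupp.sum_fintype _ _ (by simp)]
    simp
  simp only [mul_pow, Finset.prod_mul_distrib, Finset.prod_pow_eq_pow_sum, h1]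
  ring

/-- Polynomials which agree on the complement of a hypersurface are equal. -/
private theorem eq_of_generic {τ : Type} {P Q D : MvPolynomial τ ℂ} (hD : D ≠ 0)
    (h : ∀ x : τ → ℂ, MvPolynomial.eval x D ≠ 0 →
      MvPolynomial.eval x P = MvPolynomial.eval x Q) : P = Q := by
  have h1 : (P - Q) * D = 0 := by
    refine MvPolynomial.funext fun x => ?_
    rw [map_mul, map_sub, map_zero]
    by_cases hx : MvPolynomial.eval x D = 0
    · rw [hx, mul_zero]
    · rw [h x hx, sub_self, zero_mul]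
  exact sub_eq_zero.mp ((mul_eq_zero.mp h1).resolve_right hD)

/-- Homogeneity relations can be checked at generic complex points. -/
private theorem hom_of_generic {Δ : PV n} (hΔ : Δ ≠ 0) (φ₁ : PVW n) (k l : ℕ)
    (h : ∀ (v w : Fin (n + 2) → ℂ) (a b c : ℂ), MvPolynomial.eval v Δ ≠ 0 → a ≠ 0 → b ≠ 0 →
      evVW φ₁ (fun i => a * v i) (fun i => b * w i + c * v i) = a ^ k * b ^ l * evVW φ₁ v w)
    (v w : Fin (n + 2) → L) (a b c : L) :
    evVW φ₁ (fun i => a * v i) (fun i => b * w i + c * v i) = a ^ k * b ^ l * evVW φ₁ v w := by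
  have key : (MvPolynomial.bind₁ (Sum.elim
      (fun i => MvPolynomial.X (Sum.inr 0) * MvPolynomial.X (Sum.inl (Sum.inl i)))
      (fun i => MvPolynomial.X (Sum.inr 1) * MvPolynomial.X (Sum.inl (Sum.inr i)) +
        MvPolynomial.X (Sum.inr 2) * MvPolynomial.X (Sum.inl (Sum.inl i)))) φ₁ :
        MvPolynomial ((Fin (n + 2) ⊕ Fin (n + 2)) ⊕ Fin 3) ℂ) =
      MvPolynomial.X (Sum.inr 0) ^ k * MvPolynomial.X (Sum.inr 1) ^ l *
        MvPolynomial.rename Sum.inl φ₁ := by
    refine eq_of_generic (D := MvPolynomial.rename (fun i => Sum.inl (Sum.inl i)) Δ *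
      (MvPolynomial.X (Sum.inr 0) * MvPolynomial.X (Sum.inr 1))) ?_ fun x hx => ?_
    · refine mul_ne_zero ?_ (mul_ne_zero (MvPolynomial.X_ne_zero _) (MvPolynomial.X_ne_zero _))
      intro h0
      apply hΔ
      refine MvPolynomial.rename_injective (fun i => (Sum.inl (Sum.inl i) :
        (Fin (n + 2) ⊕ Fin (n + 2)) ⊕ Fin 3)) ?_ ?_
      · intro i j hij
        exact Sum.inl_injective (Sum.inl_injective hij)
      · rw [h0, map_zero]
    · rw [map_mul, map_mul, MvPolynomial.eval_X, MvPolynomial.eval_X,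
        MvPolynomial.eval_rename] at hx
      have h1 := h (fun i => x (Sum.inl (Sum.inl i))) (fun i => x (Sum.inl (Sum.inr i)))
        (x (Sum.inr 0)) (x (Sum.inr 1)) (x (Sum.inr 2)) (left_ne_zero_of_mul hx)
        (left_ne_zero_of_mul (right_ne_zero_of_mul hx))
        (right_ne_zero_of_mul (right_ne_zero_of_mul hx))
      rw [map_mul, map_mul, map_pow, map_pow, MvPolynomial.eval_X, MvPolynomial.eval_X,
        MvPolynomial.eval_rename]
      have h2 : ∀ (p : MvPolynomial ((Fin (n + 2) ⊕ Fin (n + 2)) ⊕ Fin 3) ℂ),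
          MvPolynomial.eval x p = MvPolynomial.aeval x p := fun p => by
        rw [MvPolynomial.aeval_eq_eval]
      rw [h2, MvPolynomial.aeval_bind₁]
      unfold evVW at h1
      convert h1 using 2
      · congr 1
        funext s
        rcases s with i | i <;> simp
      · rw [MvPolynomial.aeval_eq_eval]
        congr 2
        funext s
        rcases s with i | i <;> rfl
  have h3 := congrArg (MvPolynomial.aeval (Sum.elim (Sum.elim v w) ![a, b, c])) key
  rw [MvPolynomial.aeval_bind₁, map_mul, map_mul, map_pow, map_pow, MvPolynomial.aeval_X,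
    MvPolynomial.aeval_X, MvPolynomial.aeval_rename] at h3
  unfold evVW
  convert h3 using 2
  · congr 1
    funext s
    rcases s with i | i <;> simp
  · congr 1
  · rw [Sum.elim_comp_inl]

theorem chow_prod [IsAlgClosed L] (hκ : 1 ≤ κ) (hN : IsPreNorm κ N)
    (hφ : MvPolynomial.rename Sum.inl (N.coeff κ) * resW κ N =
      φ * MvPolynomial.rename Sum.inl (res0 κ N)) (v w : Fin (n + 2) → L)
    (hΔ : MvPolynomial.aeval v (Del κ N) ≠ 0) :
    evVW φ v w = MvPolynomial.aeval v (N.coeff κ) * ∏ u ∈ rts N v, dot (tpt N v u) w := by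
  have h1 := congrArg (MvPolynomial.aeval (Sum.elim v w)) hφ
  rw [map_mul, map_mul, aeval_inl, aeval_inl] at h1
  have h2 := resW_eq hκ hN v w hΔ
  unfold evVW at h2 ⊢
  rw [h1] at h2
  exact mul_right_cancel₀ (res0_ne v hΔ) h2

theorem chow_hom (hκ : 1 ≤ κ) (hN : IsPreNorm κ N) (hΔ : Del κ N ≠ 0)
    (hΔ' : ∃ d, (Del κ N).IsHomogeneous d)
    (hφ : MvPolynomial.rename Sum.inl (N.coeff κ) * resW κ N =
      φ * MvPolynomial.rename Sum.inl (res0 κ N)) (v w : Fin (n + 2) → L) (a b c : L) :
    evVW φ (fun i => a * v i) (fun i => b * w i + c * v i) = a ^ κ * b ^ κ * evVW φ v w := by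
  refine hom_of_generic hΔ φ κ κ (fun v w a b c hv ha _ => ?_) v w a b c
  obtain ⟨d, hd⟩ := hΔ'
  have hv' : MvPolynomial.aeval v (Del κ N) ≠ 0 := by
    rw [MvPolynomial.aeval_eq_eval]
    exact hv
  have hav : MvPolynomial.aeval (fun i => a * v i) (Del κ N) ≠ 0 := by
    rw [aeval_smul_hom hd]
    exact mul_ne_zero (pow_ne_zero _ ha) hv'
  have hrts : rts N (fun i => a * v i) = rts N v := by
    ext u
    rw [mem_roots_iff hN _ hav, mem_roots_iff hN _ hv', val_smul hN]
    constructor
    · intro h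
      exact (mul_eq_zero.mp h).resolve_left (pow_ne_zero _ ha)
    · intro h
      rw [h, mul_zero]
  rw [chow_prod hκ hN hφ _ _ hav, chow_prod hκ hN hφ _ _ hv', aeval_smul_hom (hN.hom κ), hrts]
  have hprod : ∏ u ∈ rts N v, dot (tpt N (fun i => a * v i) u) (fun i => b * w i + c * v i) =
      b ^ κ * ∏ u ∈ rts N v, dot (tpt N v u) w := by
    rw [← card_roots hκ hN v hv', ← Finset.prod_const, ← Finset.prod_mul_distrib]
    refine Finset.prod_congr rfl fun u hu => ?_
    have hu0 := (mem_roots_iff hN v hv' u).mp hu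
    have hu1 : val N (fun i => a * v i) u = 0 := by rw [val_smul hN, hu0, mul_zero]
    obtain ⟨h1, -, h2, h3, -, -⟩ := tpt_facts hκ hN _ hav hu1
    obtain ⟨-, -, -, h4, h5, -⟩ := tpt_facts hκ hN v hv' hu0
    have h6 : dot (tpt N (fun i => a * v i) u) v = 0 := by
      have h7 : dot (tpt N (fun i => a * v i) u) (fun i => a * v i) =
          a * dot (tpt N (fun i => a * v i) u) v := by
        unfold dot
        rw [Finset.mul_sum]
        exact Finset.sum_congr rfl fun i _ => by ring
      rw [h7] at h3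
      exact (mul_eq_zero.mp h3).resolve_left ha
    rw [h5 _ h1 h2 h6]
    have h8 : dot (tpt N v u) (fun i => b * w i + c * v i) =
        b * dot (tpt N v u) w + c * dot (tpt N v u) v := by
      unfold dot
      rw [Finset.mul_sum, Finset.mul_sum, ← Finset.sum_add_distrib]
      exact Finset.sum_congr rfl fun i _ => by ring
    rw [h8, h4, mul_zero, add_zero]
  rw [hprod]
  ring

/-- The polynomial in `ε` whose coefficients are the `Phi φ e`. -/
private theorem phi_expand' (φ : PVW n) : ∃ Q : Polynomial (PVW n),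
    (∀ e, Phi φ e = Q.coeff e) ∧ ∀ (L : Type) [Field L] [Algebra ℂ L]
      (v w : Fin (n + 2) → L) (ε : L),
      (Q.map (MvPolynomial.aeval (Sum.elim v w) : PVW n →ₐ[ℂ] L).toRingHom).eval ε =
        evVW φ v (fun a => w a + if a = 0 then ε else 0) := by
  refine ⟨_, fun e => rfl, fun L _ _ v w ε => ?_⟩
  rw [Polynomial.eval_map]
  unfold evVW
  induction φ using MvPolynomial.induction_on with
  | C a =>
    rw [MvPolynomial.algHom_C, MvPolynomial.algHom_C, Polynomial.algebraMap_apply,
      Polynomial.eval₂_C]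
    simp [MvPolynomial.algebraMap_eq]
  | add p q hp hq => rw [map_add, map_add, Polynomial.eval₂_add, hp, hq]
  | mul_X p s hp =>
    rw [map_mul, map_mul, Polynomial.eval₂_mul, hp, MvPolynomial.aeval_X, MvPolynomial.aeval_X]
    congr 1
    rcases s with i | i
    · simp
    · rw [Sum.elim_inr, Sum.elim_inr, Polynomial.eval₂_add, Polynomial.eval₂_C]
      by_cases hi : i = 0
      · rw [if_pos hi, if_pos hi, Polynomial.eval₂_X]
        simp
      · rw [if_neg hi, if_neg hi, Polynomial.eval₂_zero]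
        simp

/-- The meaning of `Phi`. -/
theorem phi_expand (φ : PVW n) (v w : Fin (n + 2) → L) (ε : L) :
    ∃ d : ℕ, (∀ e, d < e → evVW (Phi φ e) v w = 0) ∧
      evVW φ v (fun a => w a + if a = 0 then ε else 0) =
        ∑ e ∈ Finset.range (d + 1), evVW (Phi φ e) v w * ε ^ e := by
  obtain ⟨Q, hQ1, hQ2⟩ := phi_expand' φ
  refine ⟨Q.natDegree, fun e he => ?_, ?_⟩
  · rw [hQ1, Polynomial.coeff_eq_zero_of_natDegree_lt he]
    unfold evVW
    rw [map_zero]
  · rw [← hQ2, Polynomial.eval_map, Polynomial.eval₂_eq_sum_range]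
    refine Finset.sum_congr rfl fun e _ => ?_
    rw [hQ1]
    rfl

/-- The identity of the coefficients. -/
private theorem scale_aux (hκ : 1 ≤ κ) (hN : IsPreNorm κ N) (hΔ : Del κ N ≠ 0)
    (hΔ' : ∃ d, (Del κ N).IsHomogeneous d)
    (hφ : MvPolynomial.rename Sum.inl (N.coeff κ) * resW κ N =
      φ * MvPolynomial.rename Sum.inl (res0 κ N)) (e : ℕ) (v w : Fin (n + 2) → L) (a b c : L) :
    b ^ e * evVW (Phi φ e) (fun i => a * v i) (fun i => b * w i + c * v i) =
      a ^ κ * b ^ κ * evVW (Phi φ e) v w := by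
  obtain ⟨Q, hQ1, hQ2⟩ := phi_expand' φ
  have : Infinite L := Infinite.of_injective (algebraMap ℂ L) (algebraMap ℂ L).injective
  have h1 : (Q.map (MvPolynomial.aeval (Sum.elim (fun i => a * v i)
      (fun i => b * w i + c * v i)) : PVW n →ₐ[ℂ] L).toRingHom).comp
        (Polynomial.C b * Polynomial.X) =
      Polynomial.C (a ^ κ * b ^ κ) *
        (Q.map (MvPolynomial.aeval (Sum.elim v w) : PVW n →ₐ[ℂ] L).toRingHom) := by
    refine Polynomial.funext fun ε => ?_
    rw [Polynomial.eval_comp, Polynomial.eval_mul, Polynomial.eval_mul, Polynomial.eval_C,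
      Polynomial.eval_C, Polynomial.eval_X, hQ2, hQ2,
      ← chow_hom hκ hN hΔ hΔ' hφ v (fun a => w a + if a = 0 then ε else 0) a b c]
    congr 1
    funext i
    by_cases hi : i = 0
    · rw [if_pos hi, if_pos hi]
      ring
    · rw [if_neg hi, if_neg hi]
      ring
  have h2 := congrArg (fun P => Polynomial.coeff P e) h1
  beta_reduce at h2
  rw [Polynomial.comp_C_mul_X_coeff, Polynomial.coeff_C_mul, Polynomial.coeff_map,
    Polynomial.coeff_map, ← hQ1] at h2
  rw [mul_comm]
  exact h2

theorem evVW_Phi_scale_aux (hκ : 1 ≤ κ) (hN : IsPreNorm κ N) (hΔ : Del κ N ≠ 0)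
    (hΔ' : ∃ d, (Del κ N).IsHomogeneous d)
    (hφ : MvPolynomial.rename Sum.inl (N.coeff κ) * resW κ N =
      φ * MvPolynomial.rename Sum.inl (res0 κ N)) (e : ℕ) (v w : Fin (n + 2) → L) (a b c : L) :
    evVW (Phi φ e) (fun i => a * v i) (fun i => b * w i + c * v i) =
      a ^ κ * b ^ (κ - e) * evVW (Phi φ e) v w := by
  refine hom_of_generic hΔ (Phi φ e) κ (κ - e) (fun v w a b c _ _ hb => ?_) v w a b c
  have h1 := scale_aux hκ hN hΔ hΔ' hφ e v w a b c
  rcases le_or_gt e κ with he | he
  · have h2 : b ^ κ = b ^ e * b ^ (κ - e) := by rw [← pow_add, Nat.add_sub_cancel' he]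
    rw [h2] at h1
    refine mul_left_cancel₀ (pow_ne_zero e hb) ?_
    rw [h1]
    ring
  · -- the coefficient vanishes
    have h3 : ∀ v w : Fin (n + 2) → ℂ, evVW (Phi φ e) v w = 0 := by
      intro v w
      have h4 : ∀ b : ℂ, b ≠ 0 →
          b ^ (e - κ) * evVW (Phi φ e) v (fun i => b * w i) = evVW (Phi φ e) v w := by
        intro b hb
        have h5 := scale_aux hκ hN hΔ hΔ' hφ e v w 1 b 0
        simp only [one_mul, zero_mul, add_zero, one_pow] at h5
        have h6 : b ^ e = b ^ κ * b ^ (e - κ) := by rw [← pow_add, Nat.add_sub_cancel' he.le]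
        rw [h6, mul_assoc] at h5
        exact mul_left_cancel₀ (pow_ne_zero κ hb) h5
      have hcont : Continuous fun b : ℂ =>
          b ^ (e - κ) * evVW (Phi φ e) v (fun i => b * w i) := by
        unfold evVW
        simp only [MvPolynomial.aeval_eq_eval]
        refine (continuous_id.pow _).mul ?_
        refine (MvPolynomial.continuous_eval _).comp ?_
        refine continuous_pi fun s => ?_
        rcases s with i | i
        · exact continuous_const
        · exact continuous_id.mul continuous_const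
      have h7 := (hcont.tendsto 0).mono_left (nhdsWithin_le_nhds (s := {(0 : ℂ)}ᶜ))
      have h8 : Filter.Tendsto (fun b : ℂ =>
          b ^ (e - κ) * evVW (Phi φ e) v (fun i => b * w i)) (nhdsWithin 0 {(0 : ℂ)}ᶜ)
          (nhds (evVW (Phi φ e) v w)) := by
        refine tendsto_const_nhds.congr' ?_
        filter_upwards [self_mem_nhdsWithin] with b hb
        exact (h4 b hb).symm
      have h9 := tendsto_nhds_unique h8 h7
      rw [h9, zero_pow (by omega), zero_mul]
    rw [h3, h3, mul_zero]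

end Pool.Agent.H5.DG

end
end
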