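import Pool.Agent.H94.DG.M13

/-! The parts of this file: H5.DG.Cop, H5.DG.CoreA, H5.DG.DelNe. -/

section

/-!
# Project DG, B1: coprimality over the fraction field

`N` is irreducible in `ℂ[v][u]` of degree `κ ≥ 1` in `u` (`natDegree_eq`), hence primitive, and irreducible over the
fraction field `F` of `ℂ[v]` (Gauss: `Polynomial.IsPrimitive.irreducible_iff_irreducible_map_fraction_map`, needs a
`NormalizedGCDMonoid` / gcd monoid instance of the UFD `ℂ[v]`). If `N` and `g` were not coprime over `F`, then `N ∣ g` over `F`, hence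
`N ∣ g` in `ℂ[v][u]` (`Polynomial.IsPrimitive.dvd_iff_fraction_map_dvd_fraction_map` or the like; `N` is primitive). This
contradicts `natDegree g < κ`, resp. the degrees in `v`: if `g = N * h`, `h ≠ 0`, look at the total degree in `v`
(leading homogeneous components in `v`: all coefficients of `N` are homogeneous of degree `κ`).
`exists_bezout`: clear denominators in `IsCoprime`, or `Polynomial.exists_mul_add_mul_eq_C_resultant`.
-/

open MvPolynomial

noncomputable section

namespace Pool.Agent.H5.DG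

variable {n κ : ℕ} {N : Polynomial (PV n)}

private theorem isCoprime_of_not_dvd {K : Type} [Field K] {p q : Polynomial K}
    (hp : Irreducible p) (h : ¬ p ∣ q) : IsCoprime p q :=
  hp.coprime_iff_not_dvd.2 h

theorem isCoprime_map (hκ : 1 ≤ κ) (hN : IsNormForm κ N) {g : Polynomial (PV n)} (hg : g ≠ 0)
    (h : (∀ i, g.coeff i ≠ 0 → (g.coeff i).totalDegree < κ) ∨ g.natDegree < κ) :
    IsCoprime (N.map (algebraMap (PV n) (FractionRing (PV n))))
      (g.map (algebraMap (PV n) (FractionRing (PV n)))) := by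
  have hN0 : N ≠ 0 := hN.irred.ne_zero
  have hdeg : N.natDegree = κ := natDegree_eq hN.pre
  have hprim : N.IsPrimitive := hN.irred.isPrimitive (by omega)
  have hirr : Irreducible (N.map (algebraMap (PV n) (FractionRing (PV n)))) :=
    hprim.irreducible_iff_irreducible_map_fraction_map.1 hN.irred
  refine isCoprime_of_not_dvd hirr fun hdvd => ?_
  obtain ⟨q, hq⟩ : N ∣ g := hprim.dvd_of_fraction_map_dvd_fraction_map hdvd
  have hq0 : q ≠ 0 := by
    rintro rfl
    exact hg (by rw [hq, mul_zero])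
  rcases h with h | h
  · have hlc : g.leadingCoeff = N.leadingCoeff * q.leadingCoeff := by
      rw [hq, Polynomial.leadingCoeff_mul]
    have hN1 : N.leadingCoeff ≠ 0 := Polynomial.leadingCoeff_ne_zero.2 hN0
    have hq1 : q.leadingCoeff ≠ 0 := Polynomial.leadingCoeff_ne_zero.2 hq0
    have hg1 : g.leadingCoeff ≠ 0 := Polynomial.leadingCoeff_ne_zero.2 hg
    have h1 : g.leadingCoeff.totalDegree = N.leadingCoeff.totalDegree +
        q.leadingCoeff.totalDegree := by
      rw [hlc, MvPolynomial.totalDegree_mul_of_isDomain hN1 hq1]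
    have h2 : N.leadingCoeff.totalDegree = κ := (hN.hom _).totalDegree hN1
    have h3 := h g.natDegree hg1
    rw [Polynomial.coeff_natDegree] at h3
    omega
  · rw [hq, Polynomial.natDegree_mul hN0 hq0] at h
    omega

theorem resultant_ne_zero_of_formal (hκ : 1 ≤ κ) (hN : IsNormForm κ N) {g : Polynomial (PV n)}
    (hg : g ≠ 0)
    (h : (∀ i, g.coeff i ≠ 0 → (g.coeff i).totalDegree < κ) ∨ g.natDegree < κ) {k : ℕ}
    (hk : g.natDegree ≤ k) : Polynomial.resultant N g κ k ≠ 0 := by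
  have hdeg : N.natDegree = κ := natDegree_eq hN.pre
  have hcop := isCoprime_map hκ hN hg h
  have hinj : Function.Injective (algebraMap (PV n) (FractionRing (PV n))) :=
    IsFractionRing.injective _ _
  obtain ⟨m, rfl⟩ := Nat.exists_eq_add_of_le hk
  rw [Polynomial.resultant_add_right_deg _ _ _ _ _ le_rfl]
  refine mul_ne_zero (pow_ne_zero _ ?_) fun h0 => ?_
  · rw [← hdeg, Polynomial.coeff_natDegree]
    exact Polynomial.leadingCoeff_ne_zero.2 hN.irred.ne_zero
  · apply Polynomial.resultant_ne_zero _ _ hcop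
    rw [Polynomial.natDegree_map_eq_of_injective hinj, Polynomial.natDegree_map_eq_of_injective hinj,
      Polynomial.resultant_map_map, hdeg, h0, map_zero]

theorem exists_bezout (hκ : 1 ≤ κ) (hN : IsNormForm κ N) {g : Polynomial (PV n)} (hg : g ≠ 0)
    (h : (∀ i, g.coeff i ≠ 0 → (g.coeff i).totalDegree < κ) ∨ g.natDegree < κ) :
    ∃ (A B : Polynomial (PV n)) (R : PV n), R ≠ 0 ∧ A * N + B * g = Polynomial.C R := by
  have hdeg : N.natDegree = κ := natDegree_eq hN.pre
  obtain ⟨A, B, -, -, hAB⟩ := Polynomial.exists_mul_add_mul_eq_C_resultant N g hdeg.le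
    (le_refl g.natDegree) (Or.inl (by omega : κ ≠ 0))
  exact ⟨A, B, _, resultant_ne_zero_of_formal hκ hN hg h le_rfl, by
    rw [← hAB]
    ring⟩

end Pool.Agent.H5.DG

end
end

section

/-!
# Project DG, C1: the elementary part of the cluster inequality, complex case

All constants depend on `n, κ, J, p, T, c, C, B` only. Let `0 < δ ≤ 1` be less than half the distances of different `p j`, and of the
`p j` and the `τ ∈ T`. `C_j = {u ∈ R : ‖t u - p j‖ < δ}`: these sets are disjoint and contained in `O`. For `u ∈ R`, `‖t u‖ ≥ 1` (coordinate `0`). For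
`u ∉ C_j`: `‖t u - p j‖ ≥ c' ‖t u‖` (if `‖t u‖ ≥ 2 ‖p j‖` then `≥ ‖t u‖ / 2`, otherwise `≥ δ ≥ δ ‖t u‖ / (2 ‖p j‖)`); for `u ∈ C_j`: `‖t u‖ ≤ ‖p j‖ + δ`.
So, from `h5` and `h3`: `∏_{u ∈ C_j} ‖t u - p j‖ ≤ K A_j` (1); if `C_j = ∅` then `1 ≤ K A_j`.
Upper bounds: `u ∈ C_j`: `‖dot (t u) w‖ ≤ ‖dot (p j) w‖ + (n + 2) ‖t u - p j‖ ‖w‖ ≤ (n + 3) lam max (A_j) (‖t u - p j‖)`; other `u ∈ O`:
`‖dot (t u) w‖ ≤ (n + 2) ‖t u‖ lam`. And `∏_{u ∈ C_j} max (A_j) (‖t u - p j‖) ≤ K A_j` (if one of the maxima is `A_j`: the other factors are `≤ max B 1`;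
otherwise (1)). Multiply, and `a ∏_{u ∈ O, in no C_j} ‖t u‖ ≤ a ∏_{u ∈ R} ‖t u‖ ≤ C V ^ κ`.
-/

open MvPolynomial

noncomputable section

namespace Pool.Agent.H5.DG

private theorem CoreA_delta {α : Type} (s : Finset α) (f : α → ℝ) (hf : ∀ x ∈ s, 0 < f x) :
    ∃ δ : ℝ, 0 < δ ∧ δ ≤ 1 ∧ ∀ x ∈ s, 2 * δ ≤ f x := by
  classical
  induction s using Finset.induction_on with
  | empty => exact ⟨1, one_pos, le_refl _, fun x hx => absurd hx (Finset.notMem_empty x)⟩
  | insert a s ha ih =>
    obtain ⟨δ, h1, h2, h3⟩ := ih fun x hx => hf x (Finset.mem_insert_of_mem hx)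
    refine ⟨min δ (f a / 2), lt_min h1 (half_pos (hf a (Finset.mem_insert_self a s))),
      (min_le_left _ _).trans h2, fun x hx => ?_⟩
    rcases Finset.mem_insert.1 hx with rfl | hx
    · have := min_le_right δ (f x / 2)
      linarith
    · have := min_le_left δ (f a / 2)
      have := h3 x hx
      linarith

private theorem CoreA_dot_le {m : ℕ} (t w : Fin m → ℂ) : ‖dot t w‖ ≤ m * ‖t‖ * ‖w‖ := by
  unfold dot
  refine (norm_sum_le _ _).trans ?_
  have : ∀ a ∈ (Finset.univ : Finset (Fin m)), ‖t a * w a‖ ≤ ‖t‖ * ‖w‖ := fun a _ => by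
    rw [norm_mul]
    exact mul_le_mul (norm_le_pi_norm t a) (norm_le_pi_norm w a) (norm_nonneg _) (norm_nonneg _)
  refine (Finset.sum_le_card_nsmul _ _ _ this).trans ?_
  rw [Finset.card_univ, Fintype.card_fin, nsmul_eq_mul, mul_assoc]

private theorem CoreA_dot_sub {m : ℕ} (t p w : Fin m → ℂ) : dot t w = dot p w + dot (t - p) w := by
  simp only [dot, Pi.sub_apply, ← Finset.sum_add_distrib]
  exact Finset.sum_congr rfl fun a _ => by ring

theorem coreA {n : ℕ} (κ : ℕ) (hκ : 1 ≤ κ) {ι : Type} (J : Finset ι) (p : ι → Fin (n + 2) → ℂ)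
    (hinj : Set.InjOn p J) (T : Finset (Fin (n + 2) → ℂ)) (hJT : ∀ j ∈ J, p j ∉ T) (c C B : ℝ)
    (hc : 0 < c) (hC : 0 < C) :
    ∃ K : ℝ, 0 < K ∧ ∀ (R O : Finset ℂ) (t : ℂ → Fin (n + 2) → ℂ) (a V lam : ℝ)
      (w : Fin (n + 2) → ℂ) (A : ι → ℝ), R.card = κ → O ⊆ R → (∀ u ∈ R, t u 0 = 1) →
      (∀ u ∈ R, u ∉ O → t u ∈ T) → 0 ≤ a → 0 < V →
      c * V ^ κ ≤ a * ∏ u ∈ R, ‖t u‖ → a * ∏ u ∈ R, ‖t u‖ ≤ C * V ^ κ →
      (∀ j ∈ J, a * ∏ u ∈ R, ‖t u - p j‖ ≤ C * (V * A j) * V ^ (κ - 1)) →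
      (∀ j ∈ J, 0 ≤ A j ∧ A j ≤ B ∧ ‖dot (p j) w‖ ≤ lam * A j) → ‖w‖ ≤ lam →
      a * ∏ u ∈ O, ‖dot (t u) w‖ ≤ K * lam ^ O.card * V ^ κ * ∏ j ∈ J, A j := by
  classical
  obtain ⟨δ₁, hδ₁, hδ₁1, hδ₁J⟩ := CoreA_delta ((J ×ˢ J).filter fun x => x.1 ≠ x.2)
    (fun x => ‖p x.1 - p x.2‖) (fun x hx => by
      obtain ⟨h1, h2⟩ := Finset.mem_filter.1 hx
      obtain ⟨h3, h4⟩ := Finset.mem_product.1 h1
      rw [norm_pos_iff, sub_ne_zero]
      exact fun h => h2 (hinj h3 h4 h))
  obtain ⟨δ₂, hδ₂, hδ₂1, hδ₂T⟩ := CoreA_delta (J ×ˢ T)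
    (fun x => ‖x.2 - p x.1‖) (fun x hx => by
      obtain ⟨h3, h4⟩ := Finset.mem_product.1 hx
      rw [norm_pos_iff, sub_ne_zero]
      exact fun h => hJT _ h3 (h ▸ h4))
  set δ := min δ₁ δ₂ with hδdef
  have hδ : 0 < δ := lt_min hδ₁ hδ₂
  have hδ1 : δ ≤ 1 := (min_le_left _ _).trans hδ₁1
  have hδJ : ∀ j ∈ J, ∀ j' ∈ J, j ≠ j' → 2 * δ ≤ ‖p j - p j'‖ := fun j hj j' hj' hne => by
    have := hδ₁J (j, j') (Finset.mem_filter.2 ⟨Finset.mem_product.2 ⟨hj, hj'⟩, hne⟩)
    have := min_le_left δ₁ δ₂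
    simp only at *
    linarith
  have hδT : ∀ j ∈ J, ∀ τ ∈ T, 2 * δ ≤ ‖τ - p j‖ := fun j hj τ hτ => by
    have := hδ₂T (j, τ) (Finset.mem_product.2 ⟨hj, hτ⟩)
    have := min_le_right δ₁ δ₂
    simp only at *
    linarith
  set M : ℝ := 1 + ∑ j ∈ J, ‖p j‖ with hM
  have hM1 : 1 ≤ M := by
    have : 0 ≤ ∑ j ∈ J, ‖p j‖ := Finset.sum_nonneg fun j _ => norm_nonneg _
    linarith
  have hMp : ∀ j ∈ J, ‖p j‖ ≤ M := fun j hj => by
    have := Finset.single_le_sum (f := fun j => ‖p j‖) (fun j _ => norm_nonneg _) hj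
    linarith
  have hM0 : 0 < M := lt_of_lt_of_le one_pos hM1
  set b : ℝ := δ / (2 * M) / (2 * M) with hb
  have hb0 : 0 < b := by positivity
  set B' : ℝ := max B 1 with hB'
  have hB'1 : 1 ≤ B' := le_max_right _ _
  set K₁ : ℝ := C / (b ^ κ * c) with hK₁
  set K₂ : ℝ := max K₁ (B' ^ κ) with hK₂
  have hK₂0 : 0 < K₂ := lt_of_lt_of_le (by positivity) (le_max_right _ _)
  refine ⟨(n + 3 : ℝ) ^ κ * C * K₂ ^ J.card, by positivity, ?_⟩
  intro R O t a V lam w A hR hO ht0 hTO ha hV h1 h2 h3 hA hw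
  have hlam : 0 ≤ lam := (norm_nonneg w).trans hw
  have ht1 : ∀ u ∈ R, 1 ≤ ‖t u‖ := fun u hu => by
    have := norm_le_pi_norm (t u) 0
    rwa [ht0 u hu, norm_one] at this
  -- the functions `f` and `g`
  set f : ι → ℂ → ℝ := fun j u => if ‖t u - p j‖ < δ then ‖t u - p j‖ else 1 with hf
  set g : ι → ℂ → ℝ := fun j u => if ‖t u - p j‖ < δ then max (A j) ‖t u - p j‖ else 1 with hg
  have hf0 : ∀ j u, 0 ≤ f j u := fun j u => by
    simp only [hf]; split_ifs
    · exact norm_nonneg _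
    · exact zero_le_one
  have hg0 : ∀ j ∈ J, ∀ u, 0 ≤ g j u := fun j hj u => by
    simp only [hg]; split_ifs
    · exact (norm_nonneg _).trans (le_max_right _ _)
    · exact zero_le_one
  have hfle : ∀ j ∈ J, ∀ u ∈ R, b * ‖t u‖ * f j u ≤ ‖t u - p j‖ := by
    intro j hj u hu
    have hn0 := norm_nonneg (t u)
    have hp := hMp j hj
    simp only [hf]
    split_ifs with h
    · -- `u` close to `p j`
      have h4 : ‖t u‖ ≤ 2 * M := by
        have : ‖t u‖ ≤ ‖t u - p j‖ + ‖p j‖ := by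
          calc ‖t u‖ = ‖(t u - p j) + p j‖ := by rw [sub_add_cancel]
            _ ≤ _ := norm_add_le _ _
        linarith
      have h5 : b * ‖t u‖ ≤ 1 := by
        calc b * ‖t u‖ ≤ b * (2 * M) := mul_le_mul_of_nonneg_left h4 hb0.le
          _ = δ / (2 * M) := by rw [hb]; field_simp
          _ ≤ 1 := by rw [div_le_one (by positivity)]; linarith
      calc b * ‖t u‖ * ‖t u - p j‖ ≤ 1 * ‖t u - p j‖ :=
            mul_le_mul_of_nonneg_right h5 (norm_nonneg _)
        _ = _ := one_mul _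
    · rw [mul_one]
      push Not at h
      have h6 : b * ‖t u‖ ≤ δ / (2 * M) * ‖t u‖ := by
        refine mul_le_mul_of_nonneg_right ?_ hn0
        rw [hb]
        exact div_le_self (by positivity) (by linarith)
      refine h6.trans ?_
      rcases le_or_gt (2 * M) ‖t u‖ with h7 | h7
      · have h8 : ‖t u‖ - ‖p j‖ ≤ ‖t u - p j‖ := norm_sub_norm_le _ _
        have h9 : δ / (2 * M) ≤ 1 / 2 := by
          rw [div_le_div_iff₀ (by positivity) (by norm_num)]
          linarith
        calc δ / (2 * M) * ‖t u‖ ≤ 1 / 2 * ‖t u‖ := mul_le_mul_of_nonneg_right h9 hn0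
          _ ≤ ‖t u‖ - ‖p j‖ := by linarith
          _ ≤ _ := h8
      · calc δ / (2 * M) * ‖t u‖ ≤ δ / (2 * M) * (2 * M) :=
            mul_le_mul_of_nonneg_left h7.le (by positivity)
          _ = δ := by field_simp
          _ ≤ _ := h
  have hVκ : 0 < V ^ κ := pow_pos hV κ
  have hprodf : ∀ j ∈ J, ∏ u ∈ R, f j u ≤ K₁ * A j := by
    intro j hj
    have h4 : b ^ κ * (∏ u ∈ R, ‖t u‖) * ∏ u ∈ R, f j u ≤ ∏ u ∈ R, ‖t u - p j‖ := by
      calc b ^ κ * (∏ u ∈ R, ‖t u‖) * ∏ u ∈ R, f j u = ∏ u ∈ R, (b * ‖t u‖ * f j u) := by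
            rw [Finset.prod_mul_distrib, Finset.prod_mul_distrib, Finset.prod_const, hR]
        _ ≤ _ := Finset.prod_le_prod (fun u _ => mul_nonneg (mul_nonneg hb0.le (norm_nonneg _))
            (hf0 j u)) fun u hu => hfle j hj u hu
    have hf00 : 0 ≤ ∏ u ∈ R, f j u := Finset.prod_nonneg fun u _ => hf0 j u
    have h5 : (c * V ^ κ) * (b ^ κ * ∏ u ∈ R, f j u) ≤ (C * A j) * V ^ κ := by
      calc (c * V ^ κ) * (b ^ κ * ∏ u ∈ R, f j u)
          ≤ (a * ∏ u ∈ R, ‖t u‖) * (b ^ κ * ∏ u ∈ R, f j u) :=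
            mul_le_mul_of_nonneg_right h1 (mul_nonneg (pow_nonneg hb0.le _) hf00)
        _ = a * (b ^ κ * (∏ u ∈ R, ‖t u‖) * ∏ u ∈ R, f j u) := by ring
        _ ≤ a * ∏ u ∈ R, ‖t u - p j‖ := mul_le_mul_of_nonneg_left h4 ha
        _ ≤ C * (V * A j) * V ^ (κ - 1) := h3 j hj
        _ = (C * A j) * V ^ κ := by
            obtain ⟨k, rfl⟩ : ∃ k, κ = k + 1 := ⟨κ - 1, by omega⟩
            rw [Nat.add_sub_cancel, pow_succ]
            ring
    have h6 : c * b ^ κ * ∏ u ∈ R, f j u ≤ C * A j := by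
      refine le_of_mul_le_mul_right ?_ hVκ
      calc c * b ^ κ * (∏ u ∈ R, f j u) * V ^ κ = (c * V ^ κ) * (b ^ κ * ∏ u ∈ R, f j u) := by ring
        _ ≤ _ := h5
    have hcb : 0 < b ^ κ * c := by positivity
    rw [hK₁, div_mul_eq_mul_div, le_div_iff₀ hcb]
    calc (∏ u ∈ R, f j u) * (b ^ κ * c) = c * b ^ κ * ∏ u ∈ R, f j u := by ring
      _ ≤ _ := h6
  have hgB : ∀ j ∈ J, ∀ u, g j u ≤ B' := by
    intro j hj u
    simp only [hg]
    split_ifs with h
    · refine max_le ((hA j hj).2.1.trans (le_max_left _ _)) ?_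
      linarith
    · exact hB'1
  have hprodg : ∀ j ∈ J, ∏ u ∈ R, g j u ≤ K₂ * A j := by
    intro j hj
    have hA0 := (hA j hj).1
    by_cases hcase : ∃ u₀ ∈ R, ‖t u₀ - p j‖ < δ ∧ ‖t u₀ - p j‖ < A j
    · obtain ⟨u₀, hu₀, hu₀1, hu₀2⟩ := hcase
      rw [← Finset.mul_prod_erase R _ hu₀]
      have e1 : g j u₀ = A j := by
        simp only [hg]
        rw [if_pos hu₀1, max_eq_left hu₀2.le]
      have e2 : ∏ u ∈ R.erase u₀, g j u ≤ B' ^ κ := by
        calc ∏ u ∈ R.erase u₀, g j u ≤ ∏ _u ∈ R.erase u₀, B' :=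
              Finset.prod_le_prod (fun u _ => hg0 j hj u) fun u _ => hgB j hj u
          _ = B' ^ (R.erase u₀).card := by rw [Finset.prod_const]
          _ ≤ B' ^ κ := pow_le_pow_right₀ hB'1 (by rw [← hR]; exact Finset.card_erase_le)
      rw [e1, mul_comm]
      exact mul_le_mul_of_nonneg_right (e2.trans (le_max_right _ _)) hA0
    · push Not at hcase
      have e1 : ∏ u ∈ R, g j u = ∏ u ∈ R, f j u := by
        refine Finset.prod_congr rfl fun u hu => ?_
        simp only [hg, hf]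
        split_ifs with h
        · exact max_eq_right (hcase u hu h)
        · rfl
      rw [e1]
      exact (hprodf j hj).trans (mul_le_mul_of_nonneg_right (le_max_left _ _) hA0)
  -- the upper bound for the factors
  have hfac : ∀ u ∈ O, ‖dot (t u) w‖ ≤ (n + 3 : ℝ) * lam * ‖t u‖ * ∏ j ∈ J, g j u := by
    intro u hu
    have hu' := ht1 u (hO hu)
    by_cases hcase : ∃ j ∈ J, ‖t u - p j‖ < δ
    · obtain ⟨j, hj, hju⟩ := hcase
      have e1 : ∏ j' ∈ J, g j' u = max (A j) ‖t u - p j‖ := by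
        rw [Finset.prod_eq_single_of_mem j hj]
        · simp only [hg]
          rw [if_pos hju]
        · intro j' hj' hne
          simp only [hg]
          rw [if_neg]
          intro h
          have h4 := hδJ j hj j' hj' (Ne.symm hne)
          have h5 : ‖p j - p j'‖ ≤ ‖t u - p j‖ + ‖t u - p j'‖ := by
            have : p j - p j' = (t u - p j') - (t u - p j) := by abel
            rw [this]
            exact (norm_sub_le _ _).trans (by linarith)
          linarith
      rw [e1]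
      have h4 := (hA j hj).2.2
      have h5 : ‖dot (t u - p j) w‖ ≤ (n + 2 : ℝ) * ‖t u - p j‖ * ‖w‖ := by
        have := CoreA_dot_le (t u - p j) w
        push_cast at this
        exact this
      have h6 : A j ≤ max (A j) ‖t u - p j‖ := le_max_left _ _
      have h7 : ‖t u - p j‖ ≤ max (A j) ‖t u - p j‖ := le_max_right _ _
      have h8 : 0 ≤ max (A j) ‖t u - p j‖ := (norm_nonneg _).trans h7
      calc ‖dot (t u) w‖ ≤ ‖dot (p j) w‖ + ‖dot (t u - p j) w‖ := by
            rw [CoreA_dot_sub (t u) (p j) w]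
            exact norm_add_le _ _
        _ ≤ lam * max (A j) ‖t u - p j‖ + (n + 2 : ℝ) * max (A j) ‖t u - p j‖ * lam := by
            refine add_le_add (h4.trans (mul_le_mul_of_nonneg_left h6 hlam)) (h5.trans ?_)
            exact mul_le_mul (mul_le_mul_of_nonneg_left h7 (by positivity)) hw (norm_nonneg _)
              (by positivity)
        _ = (n + 3 : ℝ) * lam * 1 * max (A j) ‖t u - p j‖ := by ring
        _ ≤ (n + 3 : ℝ) * lam * ‖t u‖ * max (A j) ‖t u - p j‖ := by
            refine mul_le_mul_of_nonneg_right ?_ h8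
            exact mul_le_mul_of_nonneg_left hu' (by positivity)
    · push Not at hcase
      have e1 : ∏ j' ∈ J, g j' u = 1 := Finset.prod_eq_one fun j hj => by
        simp only [hg]
        rw [if_neg (not_lt.2 (hcase j hj))]
      rw [e1, mul_one]
      have h5 : ‖dot (t u) w‖ ≤ (n + 2 : ℝ) * ‖t u‖ * ‖w‖ := by
        have := CoreA_dot_le (t u) w
        push_cast at this
        exact this
      calc ‖dot (t u) w‖ ≤ (n + 2 : ℝ) * ‖t u‖ * ‖w‖ := h5
        _ ≤ (n + 3 : ℝ) * ‖t u‖ * lam := by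
            refine mul_le_mul ?_ hw (norm_nonneg _) (by positivity)
            exact mul_le_mul_of_nonneg_right (by linarith) (norm_nonneg _)
        _ = _ := by ring
  have hOcard : O.card ≤ κ := hR ▸ Finset.card_le_card hO
  have hprodO : ∏ u ∈ O, ‖t u‖ ≤ ∏ u ∈ R, ‖t u‖ := by
    rw [← Finset.prod_sdiff hO]
    refine le_mul_of_one_le_left (Finset.prod_nonneg fun u _ => norm_nonneg _) ?_
    rw [← Finset.prod_const_one (s := R \ O)]
    exact Finset.prod_le_prod (fun _ _ => zero_le_one) fun u hu => ht1 u (Finset.mem_sdiff.1 hu).1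
  have hgO : ∀ j ∈ J, ∏ u ∈ O, g j u = ∏ u ∈ R, g j u := by
    intro j hj
    refine Finset.prod_subset hO fun u hu huO => ?_
    simp only [hg]
    rw [if_neg]
    intro h
    have := hδT j hj (t u) (hTO u hu huO)
    linarith
  have hprodJ : ∏ j ∈ J, ∏ u ∈ O, g j u ≤ K₂ ^ J.card * ∏ j ∈ J, A j := by
    calc ∏ j ∈ J, ∏ u ∈ O, g j u ≤ ∏ j ∈ J, (K₂ * A j) :=
          Finset.prod_le_prod (fun j hj => Finset.prod_nonneg fun u _ => hg0 j hj u)
            fun j hj => by rw [hgO j hj]; exact hprodg j hj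
      _ = _ := by rw [Finset.prod_mul_distrib, Finset.prod_const]
  have hJ0 : 0 ≤ ∏ j ∈ J, ∏ u ∈ O, g j u :=
    Finset.prod_nonneg fun j hj => Finset.prod_nonneg fun u _ => hg0 j hj u
  calc a * ∏ u ∈ O, ‖dot (t u) w‖
      ≤ a * ∏ u ∈ O, ((n + 3 : ℝ) * lam * ‖t u‖ * ∏ j ∈ J, g j u) :=
        mul_le_mul_of_nonneg_left (Finset.prod_le_prod (fun u _ => norm_nonneg _) hfac) ha
    _ = (n + 3 : ℝ) ^ O.card * lam ^ O.card * (a * ∏ u ∈ O, ‖t u‖) *
          ∏ j ∈ J, ∏ u ∈ O, g j u := by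
        rw [Finset.prod_mul_distrib, Finset.prod_mul_distrib, Finset.prod_const,
          Finset.prod_comm, mul_pow]
        ring
    _ ≤ (n + 3 : ℝ) ^ κ * lam ^ O.card * (C * V ^ κ) * (K₂ ^ J.card * ∏ j ∈ J, A j) := by
        refine mul_le_mul ?_ hprodJ hJ0 (by positivity)
        refine mul_le_mul ?_ ((mul_le_mul_of_nonneg_left hprodO ha).trans h2)
          (mul_nonneg ha (Finset.prod_nonneg fun u _ => norm_nonneg _)) (by positivity)
        refine mul_le_mul_of_nonneg_right ?_ (by positivity)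
        exact pow_le_pow_right₀ (by linarith [(Nat.cast_nonneg n : (0 : ℝ) ≤ n)]) hOcard
    _ = _ := by ring

end Pool.Agent.H5.DG

end
end

section

/-!
# Project DG, B1: the exceptional polynomial is not zero

`dN 0 N ≠ 0` (`N` contains `v 0 ^ κ` with coefficient `1`: `val N (x e₀) u = x ^ κ`, so by `euler` or directly
`val (dN 0 N) (x e₀) u = κ x ^ (κ - 1)`), and its coefficients are homogeneous of degree `κ - 1` in `v`; the derivative in `u` is
not zero and of degree `κ - 1 < κ`. Apply `resultant_ne_zero_of_formal` with `k = κ`. `N.coeff κ ≠ 0` by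
`eval_coeff_line`. Homogeneity: the resultant of polynomials with coefficients homogeneous of degrees `p` and `q`
with formal degrees `m, k` is homogeneous of degree `p * k + q * m` (Sylvester matrix: `k` columns with the
coefficients of `f`, `m` columns with those of `g`).
-/

set_option autoImplicit false

open MvPolynomial

noncomputable section

namespace Pool.Agent.H5.DG

variable {n κ : ℕ} {N : Polynomial (PV n)}

/-- Resultants of polynomials with homogeneous coefficients are homogeneous. -/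
theorem resultant_isHomogeneous {σ : Type} {f g : Polynomial (MvPolynomial σ ℂ)} {p q m k : ℕ}
    (hf : ∀ i, (f.coeff i).IsHomogeneous p) (hg : ∀ i, (g.coeff i).IsHomogeneous q) :
    (Polynomial.resultant f g m k).IsHomogeneous (p * k + q * m) := by
  classical
  set dg : Fin (m + k) → ℕ := fun j => j.addCases (fun _ => q) (fun _ => p) with hdg
  have hentry : ∀ i j, (Polynomial.sylvester f g m k i j).IsHomogeneous (dg j) := by
    intro i j
    rw [Polynomial.sylvester, Matrix.of_apply, hdg]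
    beta_reduce
    refine Fin.addCases (fun j₁ => ?_) (fun j₁ => ?_) j
    · rw [Fin.addCases_left, Fin.addCases_left]
      split_ifs
      · exact hg _
      · exact isHomogeneous_zero _ _ _
    · rw [Fin.addCases_right, Fin.addCases_right]
      split_ifs
      · exact hf _
      · exact isHomogeneous_zero _ _ _
  have hsum : ∑ j, dg j = p * k + q * m := by
    rw [Fin.sum_univ_add]
    simp only [hdg, Fin.addCases_left, Fin.addCases_right]
    simp
    ring
  rw [Polynomial.resultant, Matrix.det_apply, ← mem_homogeneousSubmodule]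
  apply Submodule.sum_mem
  intro σ' _
  rw [Units.smul_def]
  apply zsmul_mem
  rw [mem_homogeneousSubmodule, ← hsum]
  exact IsHomogeneous.prod Finset.univ _ _ fun i _ => hentry _ _

private theorem delNe_hom0 (hN : IsPreNorm κ N) (i : ℕ) :
    ((dN 0 N).coeff i).IsHomogeneous (κ - 1) := by
  rw [coeff_dN]
  exact (hN.hom i).pderiv

private theorem delNe_homD (hN : IsPreNorm κ N) (i : ℕ) :
    ((Polynomial.derivative N).coeff i).IsHomogeneous κ := by
  rw [Polynomial.coeff_derivative]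
  have h : ((i : PV n) + 1) = MvPolynomial.C ((i : ℂ) + 1) := by
    rw [map_add, map_one, map_natCast]
  rw [h]
  have := (hN.hom (i + 1)).mul (isHomogeneous_C (Fin (n + 2)) ((i : ℂ) + 1))
  rwa [add_zero] at this

theorem del_homogeneous (hN : IsPreNorm κ N) : ∃ d, (Del κ N).IsHomogeneous d := by
  unfold Del res0
  exact ⟨_, ((hN.hom κ).mul (resultant_isHomogeneous (m := κ) (k := κ) hN.hom (delNe_hom0 hN))).mul
    (resultant_isHomogeneous (m := κ) (k := κ) hN.hom (delNe_homD hN))⟩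

theorem del_ne_zero (hκ : 1 ≤ κ) (hN : IsNormForm κ N) : Del κ N ≠ 0 := by
  have hP := hN.pre
  unfold Del
  refine mul_ne_zero (mul_ne_zero ?_ ?_) ?_
  · intro h
    have := eval_coeff_line hP
    rw [h, map_zero] at this
    exact zero_ne_one this
  · have hne : dN 0 N ≠ 0 := by
      intro h0
      have h1 := euler hP (Pi.single 0 1 : Fin (n + 2) → ℂ) (0 : ℂ)
      have h2 : val N (Pi.single 0 1 : Fin (n + 2) → ℂ) (0 : ℂ) = 1 := by
        obtain ⟨t, ht1, ht⟩ := hP.split ℂ (0 : ℂ)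
        rw [ht]
        apply Finset.prod_eq_one
        intro s _
        unfold dot
        rw [Finset.sum_eq_single 0]
        · rw [(ht1 s).1, Pi.single_eq_same, one_mul]
        · intro a _ ha
          rw [Pi.single_eq_of_ne ha, mul_zero]
        · intro h
          exact absurd (Finset.mem_univ _) h
      have h3 : ∑ a, (Pi.single 0 1 : Fin (n + 2) → ℂ) a *
          val (dN a N) (Pi.single 0 1 : Fin (n + 2) → ℂ) (0 : ℂ) = 0 := by
        apply Finset.sum_eq_zero
        intro a _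
        by_cases ha : a = 0
        · subst ha
          rw [h0]
          unfold val atV
          rw [Polynomial.map_zero, Polynomial.eval_zero, mul_zero]
        · rw [Pi.single_eq_of_ne ha, zero_mul]
      rw [h3, h2, mul_one] at h1
      have : (κ : ℂ) ≠ 0 := by
        have : κ ≠ 0 := by omega
        exact_mod_cast this
      exact this h1.symm
    unfold res0
    apply resultant_ne_zero_of_formal hκ hN hne _ (natDegree_dN_le hP 0)
    left
    intro i hi
    have := (delNe_hom0 hP i).totalDegree hi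
    omega
  · have hdeg := natDegree_eq hP
    have hne : Polynomial.derivative N ≠ 0 := by
      intro h0
      have := Polynomial.derivative_eq_zero.mp h0
      omega
    have hlt : (Polynomial.derivative N).natDegree < κ := by
      have := Polynomial.natDegree_derivative_lt (p := N) (by omega)
      omega
    exact resultant_ne_zero_of_formal hκ hN hne (Or.inr hlt) hlt.le

end Pool.Agent.H5.DG

end
end
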