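import Mathlib

/-! The parts of this file: H5.DG.Defs, H5.DG.BasicB. -/

section

/-!
# Project DG: definitions

`N (v; u)` is a polynomial in `u` whose coefficients are forms of degree `κ` in
`v 0, …, v (n + 1)`; for fixed `u` it is a product of linear forms in `v`, the points of a curve of
degree `κ` in the dual space that lie over `u`.
-/

open MvPolynomial Polynomial

noncomputable section

namespace Pool.Agent.H5.DG

/-- Polynomials in the coordinates `v 0, …, v (n + 1)`. -/
abbrev PV (n : ℕ) := MvPolynomial (Fin (n + 2)) ℂ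

/-- Polynomials in `v` and `w`. -/
abbrev PVW (n : ℕ) := MvPolynomial (Fin (n + 2) ⊕ Fin (n + 2)) ℂ

section

variable {n : ℕ} {L : Type} [Field L] [Algebra ℂ L]

/-- The product `∑ t a * v a`. -/
def dot {m : ℕ} (t v : Fin m → L) : L := ∑ a, t a * v a

/-- A complex point regarded as a point with coordinates in `L`. -/
def toL (L : Type) [Field L] [Algebra ℂ L] {m : ℕ} (t : Fin m → ℂ) : Fin m → L :=
  fun a => algebraMap ℂ L (t a)

/-- The polynomial `N (v; ·)`. -/
def atV (N : (PV n)[X]) (v : Fin (n + 2) → L) : L[X] :=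
  N.map (MvPolynomial.aeval v : PV n →ₐ[ℂ] L).toRingHom

/-- The value `N (v; u)`. -/
def val (N : (PV n)[X]) (v : Fin (n + 2) → L) (u : L) : L := (atV N v).eval u

/-- The derivative of `N` in the direction of the variable `v a`. -/
def dN (a : Fin (n + 2)) (N : (PV n)[X]) : (PV n)[X] :=
  ∑ i ∈ N.support, Polynomial.monomial i (pderiv a (N.coeff i))

/-- The points of the curve with coordinates in `L`: the linear forms `t` with `t 0 = 1` such that
`N (·; t 1)` vanishes on the kernel of `t`. -/
def Gam (N : (PV n)[X]) (L : Type) [Field L] [Algebra ℂ L] : Set (Fin (n + 2) → L) :=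
  {t | t 0 = 1 ∧ ∀ w : Fin (n + 2) → L, dot t w = 0 → val N w (t 1) = 0}

/-- The point of the curve over the root `u` of `N (v; ·)`. -/
def tpt (N : (PV n)[X]) (v : Fin (n + 2) → L) (u : L) : Fin (n + 2) → L :=
  fun a => val (dN a N) v u / val (dN 0 N) v u

open Classical in
/-- The set of the roots of `N (v; ·)`. -/
def rts (N : (PV n)[X]) (v : Fin (n + 2) → L) : Finset L := (atV N v).roots.toFinset

/-- The value of a polynomial in `v` and `w`. -/
def evVW (φ : PVW n) (v w : Fin (n + 2) → L) : L := MvPolynomial.aeval (Sum.elim v w) φ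

end

section

variable {n : ℕ}

/-- The resultant of `N` and its derivative in the direction `w`, as a polynomial in `v` and `w`. -/
def resW (κ : ℕ) (N : (PV n)[X]) : PVW n :=
  Polynomial.resultant (N.map (MvPolynomial.rename Sum.inl : PV n →ₐ[ℂ] PVW n).toRingHom)
    (∑ a, Polynomial.C (MvPolynomial.X (Sum.inr a)) *
      (dN a N).map (MvPolynomial.rename Sum.inl : PV n →ₐ[ℂ] PVW n).toRingHom) κ κ

/-- The resultant of `N` and `∂N/∂v₀`. -/
def res0 (κ : ℕ) (N : (PV n)[X]) : PV n := Polynomial.resultant N (dN 0 N) κ κ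

/-- The exceptional polynomial. -/
def Del (κ : ℕ) (N : (PV n)[X]) : PV n :=
  N.coeff κ * res0 κ N * Polynomial.resultant N (Polynomial.derivative N) κ κ

/-- `N` is a norm form of degree `κ`. -/
structure IsNormForm (κ : ℕ) (N : (PV n)[X]) : Prop where
  irred : Irreducible N
  hom : ∀ i, (N.coeff i).IsHomogeneous κ
  deg : ∀ i, ∀ α ∈ (N.coeff i).support, α 0 + i ≤ κ
  split : ∀ (L : Type) [Field L] [Algebra ℂ L] [IsAlgClosed L] (u : L),
    ∃ t : Fin κ → Fin (n + 2) → L, (∀ s, t s 0 = 1 ∧ t s 1 = u) ∧
      ∀ w : Fin (n + 2) → L, val N w u = ∏ s, dot (t s) w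

/-- `F` has the properties of a norm form, except for the irreducibility. -/
structure IsPreNorm (k : ℕ) (F : (PV n)[X]) : Prop where
  hom : ∀ i, (F.coeff i).IsHomogeneous k
  deg : ∀ i, ∀ α ∈ (F.coeff i).support, α 0 + i ≤ k
  split : ∀ (L : Type) [Field L] [Algebra ℂ L] [IsAlgClosed L] (u : L),
    ∃ t : Fin k → Fin (n + 2) → L, (∀ s, t s 0 = 1 ∧ t s 1 = u) ∧
      ∀ w : Fin (n + 2) → L, val F w u = ∏ s, dot (t s) w

/-- `N (w; ·)` is not the zero polynomial if `w` is a non-zero complex vector. -/
def Nondeg (N : (PV n)[X]) : Prop := ∀ w : Fin (n + 2) → ℂ, w ≠ 0 → atV N w ≠ 0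

/-- `φ` is the Chow form of the curve. -/
structure IsChow (κ : ℕ) (N : (PV n)[X]) (φ : PVW n) : Prop where
  eq : MvPolynomial.rename Sum.inl (N.coeff κ) * resW κ N = φ * MvPolynomial.rename Sum.inl (res0 κ N)
  dvd : ∀ p ∈ Gam N ℂ, ∀ w : Fin (n + 2) → ℂ, dot p w = 0 → ∃ ψ : PV n,
    MvPolynomial.aeval (Sum.elim MvPolynomial.X fun a => MvPolynomial.C (w a)) φ =
      (∑ a, MvPolynomial.C (p a) * MvPolynomial.X a) * ψ

/-- The coefficient of `ε ^ e` in `φ (v, w + ε e₀)`. -/
def Phi (φ : PVW n) (e : ℕ) : PVW n :=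
  (MvPolynomial.aeval (Sum.elim (fun a => Polynomial.C (MvPolynomial.X (Sum.inl a)))
    fun a => Polynomial.C (MvPolynomial.X (Sum.inr a)) +
      if a = 0 then (Polynomial.X : (PVW n)[X]) else 0) φ : (PVW n)[X]).coeff e

/-- Any `n + 2` of the forms `l j` are linearly independent. -/
def GenPos {m n : ℕ} (l : Fin m → Fin (n + 2) → ℂ) : Prop :=
  ∀ s : Fin (n + 2) → Fin m, Function.Injective s → LinearIndependent ℂ fun i => l (s i)

/-- The value of a polynomial in `u` and `x 0, …, x (n - 1)`. -/
def evG {L : Type} [Field L] [Algebra ℂ L] (G : MvPolynomial (Fin (n + 1)) ℂ) (u : L)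
    (x : Fin n → L) : L := MvPolynomial.aeval (Fin.cons u x : Fin (n + 1) → L) G

/-- The equations `x i ^ a i = g i (u, x)`, in coordinates `u = y 0`, `x i = y (i + 1)`. The weights
`W i` guarantee that the monomials with exponents less than `a i` form a basis of the coordinate
ring over `ℂ[u]`. -/
structure IsSystem (a W : Fin n → ℕ) (g : Fin n → MvPolynomial (Fin (n + 1)) ℂ) : Prop where
  a_pos : ∀ i, 1 ≤ a i
  W_pos : ∀ i, 1 ≤ W i
  deg : ∀ i, (g i).totalDegree ≤ a i
  weight : ∀ i, ∀ γ ∈ (g i).support, ∑ j : Fin n, γ j.succ * W j < a i * W i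

end

end Pool.Agent.H5.DG

end
end

section

/-!
# Project DG, Part B: basic lemmas

All statements are routine. `natDegree_le`: the condition `α 0 + i ≤ κ` forces `N.coeff i = 0` for `i > κ`.
`eval_coeff_line`: for `v = x e₀ + y e₁` one has `val N v u = (x + y u) ^ κ` for all `u ∈ ℂ` (`split`).
`val_dN_of_split`: both sides are polynomial in `v`; or: `val (dN a N) v u` is the derivative at `0` of the polynomial
`λ ↦ val N (v + λ e_a) u = ∏ (dot (t s) v + λ t s a)` (`L` is infinite; work in `L[X]`:
`∑ i, C (u ^ i) * (aeval (C v + X e_a) (N.coeff i))`, whose coefficient of `X` is `val (dN a N) v u`).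
-/

open MvPolynomial

noncomputable section

namespace Pool.Agent.H5.DG

variable {n κ : ℕ} {N : Polynomial (PV n)} {L : Type} [Field L] [Algebra ℂ L]

theorem IsNormForm.pre (h : IsNormForm κ N) : IsPreNorm κ N := ⟨h.hom, h.deg, h.split⟩

private theorem bB_coeff_atV (N : Polynomial (PV n)) (v : Fin (n + 2) → L) (i : ℕ) :
    (atV N v).coeff i = MvPolynomial.aeval v (N.coeff i) := by
  rw [atV, Polynomial.coeff_map]
  rfl

private theorem bB_natDegree_atV (N : Polynomial (PV n)) (v : Fin (n + 2) → L) :
    (atV N v).natDegree ≤ N.natDegree := Polynomial.natDegree_map_le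

private theorem bB_ev (f : Fin (n + 2) → ℂ) (p : PV n) :
    MvPolynomial.aeval f p = MvPolynomial.eval f p := rfl

private theorem bB_coeff_zero (h : IsPreNorm κ N) {i : ℕ} (hi : κ < i) : N.coeff i = 0 := by
  by_contra hne
  obtain ⟨α, hα⟩ := Finset.nonempty_iff_ne_empty.2 (fun he => hne (MvPolynomial.support_eq_empty.1 he))
  have := h.deg i α hα
  omega

/-- chain rule along a line -/
private theorem bB_chain (a : Fin (n + 2)) (v : Fin (n + 2) → L) (φ : PV n) :
    Polynomial.derivative (MvPolynomial.aeval (fun b => Polynomial.C (v b) +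
      if b = a then (Polynomial.X : Polynomial L) else 0) φ) =
    MvPolynomial.aeval (fun b => Polynomial.C (v b) +
      if b = a then (Polynomial.X : Polynomial L) else 0) (pderiv a φ) := by
  induction φ using MvPolynomial.induction_on with
  | C c =>
    rw [MvPolynomial.pderiv_C, map_zero, MvPolynomial.aeval_C]
    have : (algebraMap ℂ (Polynomial L)) c = Polynomial.C (algebraMap ℂ L c) := rfl
    rw [this, Polynomial.derivative_C]
  | add p q hp hq => rw [map_add, Polynomial.derivative_add, hp, hq, map_add, map_add]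
  | mul_X p b hp =>
    rw [map_mul, Polynomial.derivative_mul, hp, MvPolynomial.pderiv_mul, map_add, map_mul, map_mul,
      MvPolynomial.aeval_X, MvPolynomial.pderiv_X]
    congr 2
    by_cases hb : b = a
    · subst hb
      simp
    · simp [hb]

/-- the form `N (·; u)` -/
private theorem bB_line (N : Polynomial (PV n)) (a : Fin (n + 2)) (v : Fin (n + 2) → L) (u c : L) :
    (∑ i ∈ Finset.range (N.natDegree + 1), MvPolynomial.aeval (fun b => Polynomial.C (v b) +
      if b = a then (Polynomial.X : Polynomial L) else 0) (N.coeff i) * Polynomial.C (u ^ i)).eval c =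
      val N (fun b => v b + if b = a then c else 0) u := by
  have h0 : ∀ φ : PV n, (MvPolynomial.aeval (fun b => Polynomial.C (v b) +
      if b = a then (Polynomial.X : Polynomial L) else 0) φ).eval c =
      MvPolynomial.aeval (fun b => v b + if b = a then c else 0) φ := by
    intro φ
    induction φ using MvPolynomial.induction_on with
    | C r =>
      rw [MvPolynomial.aeval_C, MvPolynomial.aeval_C]
      have : (algebraMap ℂ (Polynomial L)) r = Polynomial.C (algebraMap ℂ L r) := rfl
      rw [this, Polynomial.eval_C]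
    | add p q hp hq => rw [map_add, Polynomial.eval_add, hp, hq, map_add]
    | mul_X p b hp =>
      rw [map_mul, Polynomial.eval_mul, hp, map_mul, MvPolynomial.aeval_X, MvPolynomial.aeval_X]
      congr 1
      by_cases hb : b = a
      · simp [hb]
      · simp [hb]
  rw [Polynomial.eval_finsetSum, val, Polynomial.eval_eq_sum_range' (n := N.natDegree + 1)
    (Nat.lt_succ_of_le (bB_natDegree_atV N _))]
  refine Finset.sum_congr rfl fun i _ => ?_
  rw [Polynomial.eval_mul, Polynomial.eval_C, h0, bB_coeff_atV]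

theorem coeff_dN (a : Fin (n + 2)) (i : ℕ) : (dN a N).coeff i = pderiv a (N.coeff i) := by
  rw [dN, Polynomial.finsetSum_coeff]
  simp only [Polynomial.coeff_monomial]
  rw [Finset.sum_ite_eq' N.support i fun j => pderiv a (N.coeff j)]
  split_ifs with h
  · rfl
  · rw [Polynomial.notMem_support_iff.1 h, map_zero]

theorem val_eq_sum (h : N.natDegree ≤ κ) (v : Fin (n + 2) → L) (u : L) :
    val N v u = ∑ i ∈ Finset.range (κ + 1), MvPolynomial.aeval v (N.coeff i) * u ^ i := by
  rw [val, Polynomial.eval_eq_sum_range' (n := κ + 1)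
    (Nat.lt_succ_of_le ((bB_natDegree_atV N _).trans h))]
  exact Finset.sum_congr rfl fun i _ => by rw [bB_coeff_atV]

theorem natDegree_le (h : IsPreNorm κ N) : N.natDegree ≤ κ := by
  rw [Polynomial.natDegree_le_iff_coeff_eq_zero]
  intro i hi
  exact bB_coeff_zero h hi

theorem natDegree_dN_le (h : IsPreNorm κ N) (a : Fin (n + 2)) : (dN a N).natDegree ≤ κ := by
  rw [Polynomial.natDegree_le_iff_coeff_eq_zero]
  intro i hi
  rw [coeff_dN, bB_coeff_zero h hi, map_zero]

/-- `N (λ v; u) = λ ^ κ N (v; u)`. -/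
theorem val_smul (h : IsPreNorm κ N) (v : Fin (n + 2) → L) (u c : L) :
    val N (fun a => c * v a) u = c ^ κ * val N v u := by
  have h0 : ∀ φ : PV n, φ.IsHomogeneous κ → MvPolynomial.aeval (fun a => c * v a) φ =
      c ^ κ * MvPolynomial.aeval v φ := by
    intro φ hφ
    rw [MvPolynomial.aeval_def, MvPolynomial.aeval_def, MvPolynomial.eval₂_eq, MvPolynomial.eval₂_eq,
      Finset.mul_sum]
    refine Finset.sum_congr rfl fun d hd => ?_
    have hdeg : ∑ i ∈ d.support, d i = κ := by
      have := hφ (MvPolynomial.mem_support_iff.1 hd)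
      rw [← this, Finsupp.weight_apply, Finsupp.sum]
      simp
    have : ∏ i ∈ d.support, (c * v i) ^ d i = c ^ κ * ∏ i ∈ d.support, v i ^ d i := by
      rw [← hdeg, ← Finset.prod_pow_eq_pow_sum, ← Finset.prod_mul_distrib]
      exact Finset.prod_congr rfl fun i _ => mul_pow _ _ _
    rw [this]
    ring
  rw [val_eq_sum (natDegree_le h), val_eq_sum (natDegree_le h), Finset.mul_sum]
  refine Finset.sum_congr rfl fun i _ => ?_
  rw [h0 _ (h.hom i)]
  ring

/-- Euler's relation. -/
theorem euler (h : IsPreNorm κ N) (v : Fin (n + 2) → L) (u : L) :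
    ∑ a, v a * val (dN a N) v u = κ * val N v u := by
  have h0 : ∀ i, ∑ a, v a * MvPolynomial.aeval v (pderiv a (N.coeff i)) =
      κ * MvPolynomial.aeval v (N.coeff i) := by
    intro i
    have h1 := congrArg (MvPolynomial.aeval v : PV n →ₐ[ℂ] L) (h.hom i).sum_X_mul_pderiv
    rw [map_sum, map_nsmul, nsmul_eq_mul] at h1
    rw [← h1]
    exact Finset.sum_congr rfl fun a _ => by rw [map_mul, MvPolynomial.aeval_X]
  rw [val_eq_sum (natDegree_le h), Finset.mul_sum]
  have h2 : ∀ a, v a * val (dN a N) v u = ∑ i ∈ Finset.range (κ + 1),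
      v a * MvPolynomial.aeval v (pderiv a (N.coeff i)) * u ^ i := by
    intro a
    rw [val_eq_sum (natDegree_dN_le h a), Finset.mul_sum]
    exact Finset.sum_congr rfl fun i _ => by rw [coeff_dN, mul_assoc]
  rw [Finset.sum_congr rfl fun a _ => h2 a, Finset.sum_comm]
  refine Finset.sum_congr rfl fun i _ => ?_
  rw [← Finset.sum_mul, h0]
  ring

theorem eval_coeff_line (h : IsPreNorm κ N) :
    MvPolynomial.eval (Pi.single 1 1 : Fin (n + 2) → ℂ) (N.coeff κ) = 1 := by
  have h1 : atV N (Pi.single 1 1 : Fin (n + 2) → ℂ) = Polynomial.X ^ κ := by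
    refine Polynomial.funext fun u => ?_
    obtain ⟨t, ht, hs⟩ := h.split ℂ u
    have h2 := hs (Pi.single 1 1)
    rw [val] at h2
    rw [h2, Polynomial.eval_pow, Polynomial.eval_X]
    have h3 : ∀ s, dot (t s) (Pi.single 1 1 : Fin (n + 2) → ℂ) = u := by
      intro s
      rw [dot, Finset.sum_eq_single (1 : Fin (n + 2))]
      · rw [Pi.single_eq_same, mul_one, (ht s).2]
      · intro b _ hb
        rw [Pi.single_eq_of_ne hb, mul_zero]
      · intro hb
        exact absurd (Finset.mem_univ _) hb
    rw [Finset.prod_congr rfl fun s _ => h3 s, Finset.prod_const, Finset.card_univ,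
      Fintype.card_fin]
  have h2 := congrArg (fun p : Polynomial ℂ => p.coeff κ) h1
  simp only [bB_coeff_atV, Polynomial.coeff_X_pow, if_true] at h2
  exact h2

theorem natDegree_eq (h : IsPreNorm κ N) : N.natDegree = κ := by
  refine le_antisymm (natDegree_le h) (Polynomial.le_natDegree_of_ne_zero fun h0 => ?_)
  have h1 := eval_coeff_line h
  rw [h0, map_zero] at h1
  exact zero_ne_one h1

/-- The derivatives of a product of linear forms. -/
theorem val_dN_of_split {u : L} {t : Fin κ → Fin (n + 2) → L}
    (ht : ∀ w : Fin (n + 2) → L, val N w u = ∏ s, dot (t s) w) (a : Fin (n + 2))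
    (v : Fin (n + 2) → L) :
    val (dN a N) v u = ∑ s, t s a * ∏ s' ∈ Finset.univ.erase s, dot (t s') v := by
  have : CharZero L := charZero_of_injective_algebraMap (algebraMap ℂ L).injective
  have : Infinite L := Infinite.of_injective (algebraMap ℂ L) (algebraMap ℂ L).injective
  have h1 : (∑ i ∈ Finset.range (N.natDegree + 1), MvPolynomial.aeval (fun b => Polynomial.C (v b) +
      if b = a then (Polynomial.X : Polynomial L) else 0) (N.coeff i) * Polynomial.C (u ^ i)) =
      ∏ s, (Polynomial.C (dot (t s) v) + Polynomial.C (t s a) * Polynomial.X) := by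
    refine Polynomial.funext fun c => ?_
    rw [bB_line, ht, Polynomial.eval_prod]
    refine Finset.prod_congr rfl fun s _ => ?_
    rw [Polynomial.eval_add, Polynomial.eval_mul, Polynomial.eval_C, Polynomial.eval_C,
      Polynomial.eval_X, dot, dot]
    simp only [mul_add, Finset.sum_add_distrib, mul_ite, mul_zero, Finset.sum_ite_eq',
      Finset.mem_univ, if_true]
  have h2 := congrArg (fun p : Polynomial L => (Polynomial.derivative p).eval 0) h1
  simp only [Polynomial.derivative_sum, Polynomial.derivative_prod_finset, Polynomial.derivative_mul,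
    Polynomial.derivative_C, mul_zero, add_zero, bB_chain, Polynomial.eval_finsetSum,
    Polynomial.eval_mul, Polynomial.eval_C, Polynomial.derivative_add, zero_mul, zero_add,
    Polynomial.derivative_X, mul_one, Polynomial.eval_prod, Polynomial.eval_add,
    Polynomial.eval_X] at h2
  have h0 : ∀ φ : PV n, (MvPolynomial.aeval (fun b => Polynomial.C (v b) +
      if b = a then (Polynomial.X : Polynomial L) else 0) φ).eval 0 = MvPolynomial.aeval v φ := by
    intro φ
    induction φ using MvPolynomial.induction_on with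
    | C r =>
      rw [MvPolynomial.aeval_C, MvPolynomial.aeval_C]
      have : (algebraMap ℂ (Polynomial L)) r = Polynomial.C (algebraMap ℂ L r) := rfl
      rw [this, Polynomial.eval_C]
    | add p q hp hq => rw [map_add, Polynomial.eval_add, hp, hq, map_add]
    | mul_X p b hp =>
      rw [map_mul, Polynomial.eval_mul, hp, map_mul, MvPolynomial.aeval_X, MvPolynomial.aeval_X]
      congr 1
      by_cases hb : b = a
      · simp [hb]
      · simp [hb]
  have h3 : (dN a N).natDegree ≤ N.natDegree := by
    rw [Polynomial.natDegree_le_iff_coeff_eq_zero]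
    intro i hi
    rw [coeff_dN, Polynomial.coeff_eq_zero_of_natDegree_lt hi, map_zero]
  rw [val_eq_sum h3]
  simp only [h0] at h2
  rw [Finset.sum_congr rfl fun i _ => by rw [coeff_dN], h2]
  exact Finset.sum_congr rfl fun s _ => mul_comm _ _

/-- The points of the curve over `u` are the factors of `N (·; u)`. -/
theorem mem_Gam_iff {u : L} {t : Fin κ → Fin (n + 2) → L}
    (ht1 : ∀ s, t s 0 = 1 ∧ t s 1 = u)
    (ht : ∀ w : Fin (n + 2) → L, val N w u = ∏ s, dot (t s) w) (τ : Fin (n + 2) → L)
    (hτ : τ 1 = u) : τ ∈ Gam N L ↔ ∃ s, τ = t s := by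
  have : Infinite L := Infinite.of_injective (algebraMap ℂ L) (algebraMap ℂ L).injective
  constructor
  · rintro ⟨h0, h1⟩
    have h2 : ∏ s, (∑ a, MvPolynomial.C (t s a - τ a) * MvPolynomial.X a :
        MvPolynomial (Fin (n + 2)) L) = 0 := by
      refine MvPolynomial.funext fun w => ?_
      rw [map_zero, map_prod]
      have hw : dot τ (w - dot τ w • (Pi.single 0 1 : Fin (n + 2) → L)) = 0 := by
        have e : dot τ (w - dot τ w • (Pi.single 0 1 : Fin (n + 2) → L)) =
            dot τ w - dot τ w * τ 0 := by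
          simp only [dot, Pi.sub_apply, Pi.smul_apply, smul_eq_mul, mul_sub, Finset.sum_sub_distrib]
          congr 1
          rw [Finset.sum_eq_single (0 : Fin (n + 2))]
          · rw [Pi.single_eq_same]
            ring
          · intro b _ hb
            rw [Pi.single_eq_of_ne hb]
            ring
          · intro hb
            exact absurd (Finset.mem_univ _) hb
        rw [e, h0]
        ring
      have h3 := h1 _ hw
      rw [hτ, ht] at h3
      rw [← h3]
      refine Finset.prod_congr rfl fun s _ => ?_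
      have e : dot (t s) (w - dot τ w • (Pi.single 0 1 : Fin (n + 2) → L)) =
          dot (t s) w - dot τ w * t s 0 := by
        simp only [dot, Pi.sub_apply, Pi.smul_apply, smul_eq_mul, mul_sub, Finset.sum_sub_distrib]
        congr 1
        rw [Finset.sum_eq_single (0 : Fin (n + 2))]
        · rw [Pi.single_eq_same]
          ring
        · intro b _ hb
          rw [Pi.single_eq_of_ne hb]
          ring
        · intro hb
          exact absurd (Finset.mem_univ _) hb
      rw [e, (ht1 s).1, mul_one, map_sum]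
      simp only [dot, map_mul, MvPolynomial.eval_C, MvPolynomial.eval_X, sub_mul,
        Finset.sum_sub_distrib]
    obtain ⟨s, _, hs⟩ := Finset.prod_eq_zero_iff.1 h2
    refine ⟨s, ?_⟩
    funext a
    have h4 := congrArg (MvPolynomial.eval (Pi.single a 1 : Fin (n + 2) → L)) hs
    rw [map_zero, map_sum, Finset.sum_eq_single a] at h4
    · rw [map_mul, MvPolynomial.eval_C, MvPolynomial.eval_X, Pi.single_eq_same, mul_one] at h4
      exact (sub_eq_zero.1 h4).symm
    · intro b _ hb
      rw [map_mul, MvPolynomial.eval_X, Pi.single_eq_of_ne hb, mul_zero]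
    · intro hb
      exact absurd (Finset.mem_univ _) hb
  · rintro ⟨s, rfl⟩
    refine ⟨(ht1 s).1, fun w hw => ?_⟩
    rw [(ht1 s).2, ht]
    exact Finset.prod_eq_zero (Finset.mem_univ s) hw

/-- Complex points of the curve are points of the curve with coordinates in `L`. -/
theorem toL_mem_Gam [IsAlgClosed L] (h : IsPreNorm κ N) {τ : Fin (n + 2) → ℂ} (hτ : τ ∈ Gam N ℂ) :
    toL L τ ∈ Gam N L := by
  obtain ⟨t, ht1, ht⟩ := h.split ℂ (τ 1)
  obtain ⟨s, hs⟩ := (mem_Gam_iff ht1 ht τ rfl).1 hτ
  have h1 : (∑ i ∈ Finset.range (κ + 1), N.coeff i * MvPolynomial.C (τ 1 ^ i)) =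
      ∏ s, (∑ a, MvPolynomial.C (t s a) * MvPolynomial.X a : PV n) := by
    refine MvPolynomial.funext fun w => ?_
    have h2 := ht w
    rw [val_eq_sum (natDegree_le h)] at h2
    rw [map_sum, map_prod]
    simp only [map_mul, MvPolynomial.eval_C, map_sum, MvPolynomial.eval_X]
    simp only [bB_ev] at h2
    exact h2
  refine ⟨?_, fun w hw => ?_⟩
  · show algebraMap ℂ L (τ 0) = 1
    rw [hτ.1, map_one]
  · rw [val_eq_sum (natDegree_le h)]
    have h2 := congrArg (MvPolynomial.aeval w : PV n →ₐ[ℂ] L) h1
    rw [map_sum, map_prod] at h2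
    simp only [map_mul, MvPolynomial.aeval_C, map_sum, MvPolynomial.aeval_X, map_pow] at h2
    show ∑ i ∈ Finset.range (κ + 1), MvPolynomial.aeval w (N.coeff i) *
      (algebraMap ℂ L (τ 1)) ^ i = 0
    rw [h2]
    refine Finset.prod_eq_zero (Finset.mem_univ s) ?_
    rw [← hs]
    exact hw

theorem dot_toL (τ v : Fin (n + 2) → ℂ) : dot (toL L τ) (toL L v) = algebraMap ℂ L (dot τ v) := by
  simp only [dot, toL, map_sum, map_mul]

end Pool.Agent.H5.DG

end
end
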