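import Mathlib

/-! The parts of this file: H13.SM.Pts, H13.SM.Noether, H39.HC.Pairing, H39.HC.SymDet, H5.DG.D2Ord, H92.GT.ValRes. -/

section

/-!
# The complex points of an affine variety with generic point `a`

`a : ι → K` generates the field `K` over `ℂ`.  The affine variety is the spectrum of
`A = Algebra.adjoin ℂ (Set.range a)`; its points are the `w : ι → ℂ` at which all polynomials which
vanish at `a` vanish.

PROOF of `isClosed_pts`.  Intersection of the closed sets `eval w Q = 0`
(`MvPolynomial.continuous_eval`).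

PROOF of `pts_of_algHom`.  `eval (fun i => φ ⟨a i, _⟩) Q = φ ⟨aeval a Q, _⟩` (both sides are algebra
homs of `Q`, or induction on `Q`), and `φ 0 = 0`.

PROOF of `root_at`.  Let `M : Polynomial (MvPolynomial (Fin n) ℂ) →+* MvPolynomial ι ℂ` be
`Polynomial.eval₂RingHom (aeval B).toRingHom Z`.  Then `aeval a (M p) = (p.map (aeval b)).eval (aeval a
Z)` since `aeval a (B j) = b j`, and `eval w (M p) = (p.map (eval (fun j => eval w (B j)))).eval
(eval w Z)` (both by `Polynomial.hom_eval₂` and `MvPolynomial.comp_aeval` / `ringHom_ext`).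
-/

open MvPolynomial

noncomputable section

namespace Pool.Agent.H13.SM

variable {ι K : Type} [Field K] [Algebra ℂ K]

/-- The complex points of the affine variety with generic point `a`. -/
def pts (a : ι → K) : Set (ι → ℂ) :=
  {w | ∀ Q : MvPolynomial ι ℂ, aeval a Q = 0 → eval w Q = 0}

theorem isClosed_pts [Finite ι] (a : ι → K) : IsClosed (pts a) := by
  have h : pts a = ⋂ Q ∈ {Q : MvPolynomial ι ℂ | aeval a Q = 0}, {w : ι → ℂ | eval w Q = 0} := by
    ext w
    simp only [pts, Set.mem_ofPred_eq, Set.mem_iInter]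
  rw [h]
  exact isClosed_biInter fun Q _ => isClosed_eq (MvPolynomial.continuous_eval Q) continuous_const

theorem aeval_mem_adjoin (a : ι → K) (Q : MvPolynomial ι ℂ) :
    aeval a Q ∈ Algebra.adjoin ℂ (Set.range a) := by
  rw [Algebra.adjoin_range_eq_range_aeval]
  exact ⟨Q, rfl⟩

/-- An algebra hom from the ring of functions to `ℂ` is the evaluation at a point. -/
theorem exists_pt_of_algHom (a : ι → K) (φ : Algebra.adjoin ℂ (Set.range a) →ₐ[ℂ] ℂ) :
    ∃ w ∈ pts a, ∀ Q : MvPolynomial ι ℂ, eval w Q = φ ⟨aeval a Q, aeval_mem_adjoin a Q⟩ := by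
  have key : ∀ Q : MvPolynomial ι ℂ,
      eval (fun i => φ ⟨a i, Algebra.subset_adjoin (Set.mem_range_self i)⟩) Q =
        φ ⟨aeval a Q, aeval_mem_adjoin a Q⟩ := by
    intro Q
    have h1 := MvPolynomial.comp_aeval_apply
      (fun i => (⟨a i, Algebra.subset_adjoin (Set.mem_range_self i)⟩ : Algebra.adjoin ℂ (Set.range a)))
      φ Q
    have h2 := MvPolynomial.comp_aeval_apply
      (fun i => (⟨a i, Algebra.subset_adjoin (Set.mem_range_self i)⟩ : Algebra.adjoin ℂ (Set.range a)))
      (Algebra.adjoin ℂ (Set.range a)).val Q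
    have h3 : aeval (fun i => (⟨a i, Algebra.subset_adjoin (Set.mem_range_self i)⟩ :
        Algebra.adjoin ℂ (Set.range a))) Q = ⟨aeval a Q, aeval_mem_adjoin a Q⟩ := by
      apply Subtype.ext
      exact h2
    rw [← h3, h1, MvPolynomial.aeval_eq_eval]
  refine ⟨fun i => φ ⟨a i, Algebra.subset_adjoin (Set.mem_range_self i)⟩, ?_, key⟩
  intro Q hQ
  rw [key Q]
  have h4 : (⟨aeval a Q, aeval_mem_adjoin a Q⟩ : Algebra.adjoin ℂ (Set.range a)) = 0 :=
    Subtype.ext hQ
  rw [h4, map_zero]

/-- If `Z` is a root of `p` on the variety, with coefficients functions of the `b j = aeval a (B j)`,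
then this holds at each point. -/
theorem root_at {n : ℕ} {a : ι → K} {b : Fin n → K} {B : Fin n → MvPolynomial ι ℂ}
    (hB : ∀ j, aeval a (B j) = b j) {Z : MvPolynomial ι ℂ}
    {p : Polynomial (MvPolynomial (Fin n) ℂ)}
    (hp : (p.map (aeval b : MvPolynomial (Fin n) ℂ →ₐ[ℂ] K).toRingHom).eval (aeval a Z) = 0)
    {w : ι → ℂ} (hw : w ∈ pts a) :
    (p.map (eval fun j => eval w (B j))).eval (eval w Z) = 0 := by
  have h1 : aeval a (p.eval₂ (aeval B : MvPolynomial (Fin n) ℂ →ₐ[ℂ] MvPolynomial ι ℂ).toRingHom Z)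
      = 0 := by
    have e1 := Polynomial.hom_eval₂ p
      (aeval B : MvPolynomial (Fin n) ℂ →ₐ[ℂ] MvPolynomial ι ℂ).toRingHom
      (aeval a : MvPolynomial ι ℂ →ₐ[ℂ] K).toRingHom Z
    have e2 : (aeval a : MvPolynomial ι ℂ →ₐ[ℂ] K).toRingHom.comp
        (aeval B : MvPolynomial (Fin n) ℂ →ₐ[ℂ] MvPolynomial ι ℂ).toRingHom =
        (aeval b : MvPolynomial (Fin n) ℂ →ₐ[ℂ] K).toRingHom := by
      have e3 : (aeval a : MvPolynomial ι ℂ →ₐ[ℂ] K).comp
          (aeval B : MvPolynomial (Fin n) ℂ →ₐ[ℂ] MvPolynomial ι ℂ) = aeval b := by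
        apply MvPolynomial.algHom_ext
        intro j
        rw [AlgHom.comp_apply, aeval_X, aeval_X]
        exact hB j
      rw [← e3]
      rfl
    rw [e2] at e1
    rw [Polynomial.eval_map] at hp
    exact e1.trans hp
  have h2 := hw _ h1
  have e4 := Polynomial.hom_eval₂ p
    (aeval B : MvPolynomial (Fin n) ℂ →ₐ[ℂ] MvPolynomial ι ℂ).toRingHom (eval w) Z
  have e5 : (eval w).comp (aeval B : MvPolynomial (Fin n) ℂ →ₐ[ℂ] MvPolynomial ι ℂ).toRingHom =
      eval fun j => eval w (B j) := by
    apply MvPolynomial.ringHom_ext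
    · intro r
      simp
    · intro j
      simp
  rw [e5] at e4
  rw [Polynomial.eval_map, ← e4]
  exact h2

end Pool.Agent.H13.SM

end
end

section

/-!
# Noether normalisation

PROOF.  `A = Algebra.adjoin ℂ (Set.range a)` is an algebra of finite type (`Subalgebra.fg_adjoin_...`,
`Subalgebra.fg_iff_finiteType`) and is nontrivial, so by `exists_finite_inj_algHom_of_fg` there are
`s` and `g : MvPolynomial (Fin s) ℂ →ₐ[ℂ] A` injective and finite.  Let `b' j = g (X j)`, an
algebraically independent family of `K` (`g` and the inclusion are injective).  Each element of `A` is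
integral over the range of `g`, the algebra generated by the `b' j` (`RingHom.Finite.to_isIntegral`).
`K = IntermediateField.adjoin ℂ (Set.range a)` is algebraic over `IntermediateField.adjoin ℂ (Set.range
b')`, since all `a i` are.  So `b'` is a transcendence basis of `K` and `s = n` by
`IsTranscendenceBasis.cardinalMk_eq` (or `lift_cardinalMk_eq_trdeg`).  Write `b' j = aeval a (B j)`.
-/

open MvPolynomial

noncomputable section

namespace Pool.Agent.H13.SM

variable {ι K : Type} [Field K] [Algebra ℂ K]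

/-- The surjection from polynomials to the adjoined algebra. -/
private def Noether_phi {n : ℕ} (b : Fin n → K) :
    MvPolynomial (Fin n) ℂ →ₐ[ℂ] Algebra.adjoin ℂ (Set.range b) :=
  (aeval b : MvPolynomial (Fin n) ℂ →ₐ[ℂ] K).codRestrict (Algebra.adjoin ℂ (Set.range b)) (by
    intro x
    rw [Algebra.adjoin_range_eq_range_aeval]
    exact ⟨x, rfl⟩)

private theorem Noether_phi_coe {n : ℕ} (b : Fin n → K) (x : MvPolynomial (Fin n) ℂ) :
    (Noether_phi b x : K) = aeval b x := rfl

private theorem Noether_phi_surj {n : ℕ} (b : Fin n → K) : Function.Surjective (Noether_phi b) := by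
  rintro ⟨y, hy⟩
  have h := hy
  rw [Algebra.adjoin_range_eq_range_aeval] at h
  obtain ⟨x, hx⟩ := h
  exact ⟨x, Subtype.ext hx⟩

private theorem Noether_algebraic [Finite ι] {a : ι → K}
    (ha : IntermediateField.adjoin ℂ (Set.range a) = ⊤) {s : ℕ} (b : Fin s → K)
    (hb : ∀ i, IsIntegral (Algebra.adjoin ℂ (Set.range b)) (a i)) :
    Algebra.IsAlgebraic (Algebra.adjoin ℂ (Set.range b)) K := by
  constructor
  intro x
  have hx : x ∈ IntermediateField.adjoin ℂ (Set.range a) := by
    rw [ha]; exact IntermediateField.mem_top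
  induction hx using IntermediateField.adjoin_induction with
  | mem y hy =>
    obtain ⟨i, rfl⟩ := hy
    exact (hb i).isAlgebraic
  | algebraMap y =>
    have h1 : algebraMap ℂ K y =
        algebraMap (Algebra.adjoin ℂ (Set.range b)) K (algebraMap ℂ (Algebra.adjoin ℂ (Set.range b)) y) := rfl
    rw [h1]
    exact isAlgebraic_algebraMap _
  | add y z _ _ hy hz => exact hy.add hz
  | inv y _ hy => exact hy.inv
  | mul y z _ _ hy hz => exact hy.mul hz

theorem exists_noether [Finite ι] {a : ι → K}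
    (ha : IntermediateField.adjoin ℂ (Set.range a) = ⊤) {n : ℕ} {z : Fin n → K}
    (hz : IsTranscendenceBasis ℂ z) :
    ∃ (b : Fin n → K) (B : Fin n → MvPolynomial ι ℂ), AlgebraicIndependent ℂ b ∧
      (∀ j, aeval a (B j) = b j) ∧ ∀ i, IsIntegral (Algebra.adjoin ℂ (Set.range b)) (a i) := by
  set A := Algebra.adjoin ℂ (Set.range a) with hA
  have : Algebra.FiniteType ℂ A := by
    refine (Subalgebra.fg_iff_finiteType _).1 ?_
    have h := Subalgebra.fg_adjoin_finset (R := ℂ) (Set.finite_range a).toFinset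
    rwa [Set.Finite.coe_toFinset] at h
  obtain ⟨s, g, ginj, gint⟩ := exists_integral_inj_algHom_of_fg ℂ A
  set b' : Fin s → K := fun j => (g (X j) : K) with hb'
  have haev : (aeval b' : MvPolynomial (Fin s) ℂ →ₐ[ℂ] K) = A.val.comp g := by
    refine MvPolynomial.algHom_ext fun j => ?_
    rw [aeval_X]; rfl
  have hind : AlgebraicIndependent ℂ b' := by
    show Function.Injective (aeval b' : MvPolynomial (Fin s) ℂ →ₐ[ℂ] K)
    rw [haev]
    exact Subtype.val_injective.comp ginj
  have hint : ∀ i, IsIntegral (Algebra.adjoin ℂ (Set.range b')) (a i) := by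
    intro i
    have hai : a i ∈ A := Algebra.subset_adjoin ⟨i, rfl⟩
    obtain ⟨p, hp1, hp2⟩ := gint ⟨a i, hai⟩
    refine ⟨p.map (Noether_phi b').toRingHom, hp1.map _, ?_⟩
    rw [Polynomial.eval₂_map]
    have h1 := congrArg (fun x : A => (x : K)) hp2
    have h2 : A.val.toRingHom (Polynomial.eval₂ g.toRingHom ⟨a i, hai⟩ p) = 0 := h1
    rw [Polynomial.hom_eval₂] at h2
    have h3 : A.val.toRingHom.comp g.toRingHom =
        (algebraMap (Algebra.adjoin ℂ (Set.range b')) K).comp (Noether_phi b').toRingHom := by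
      refine RingHom.ext fun x => ?_
      have h4 : (aeval b' x : K) = A.val (g x) := by rw [haev]; rfl
      show A.val (g x) = (Noether_phi b' x : K)
      rw [Noether_phi_coe, h4]
    rw [← h3]
    exact h2
  have hbas : IsTranscendenceBasis ℂ b' :=
    hind.isTranscendenceBasis_iff_isAlgebraic.2 (Noether_algebraic ha b' hint)
  have hsn : s = n := by
    have h1 := hbas.cardinalMk_eq hz
    simpa using h1
  subst hsn
  have hB : ∀ j, ∃ Q : MvPolynomial ι ℂ, aeval a Q = b' j := by
    intro j
    have h1 : b' j ∈ A := (g (X j)).2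
    rw [hA, Algebra.adjoin_range_eq_range_aeval] at h1
    exact h1
  choose B hB using hB
  exact ⟨b', B, hind, hB, hint⟩

/-- The polynomial form of integrality: `aeval a Z` is a root of a monic polynomial whose
coefficients are polynomials in `b`. -/
theorem exists_monic {a : ι → K} {n : ℕ} {b : Fin n → K}
    (hint : ∀ i, IsIntegral (Algebra.adjoin ℂ (Set.range b)) (a i)) (Z : MvPolynomial ι ℂ) :
    ∃ p : Polynomial (MvPolynomial (Fin n) ℂ), p.Monic ∧
      (p.map (aeval b : MvPolynomial (Fin n) ℂ →ₐ[ℂ] K).toRingHom).eval (aeval a Z) = 0 := by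
  set C₀ := Algebra.adjoin ℂ (Set.range b) with hC₀
  have hZ : IsIntegral C₀ (aeval a Z) := by
    have h1 : aeval a Z ∈ Algebra.adjoin ℂ (Set.range a) := aeval_mem_adjoin a Z
    have h2 : Algebra.adjoin ℂ (Set.range a) ≤ (integralClosure C₀ K).restrictScalars ℂ := by
      refine Algebra.adjoin_le ?_
      rintro _ ⟨i, rfl⟩
      exact hint i
    exact h2 h1
  obtain ⟨p, hp1, hp2⟩ := hZ
  have hlift : p ∈ Polynomial.lifts (Noether_phi b).toRingHom := by
    rw [Polynomial.lifts_iff_coeff_lifts]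
    intro k
    exact Noether_phi_surj b (p.coeff k)
  obtain ⟨P, hP1, -, hP2⟩ := Polynomial.lifts_and_natDegree_eq_and_monic hlift hp1
  refine ⟨P, hP2, ?_⟩
  have h3 : (aeval b : MvPolynomial (Fin n) ℂ →ₐ[ℂ] K).toRingHom =
      (algebraMap C₀ K).comp (Noether_phi b).toRingHom := rfl
  rw [h3, ← Polynomial.map_map, hP1, Polynomial.eval_map]
  exact hp2

end Pool.Agent.H13.SM

end
end

section

/-!
# The apolar pairing of polynomials
-/

open MvPolynomial

noncomputable section

namespace Pool.Agent.H39.HC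

/-- The apolar pairing `∑ α! * g_α * f_α` of two polynomials. -/
def pair {σ R : Type*} [CommRing R] [Algebra ℂ R] (g : MvPolynomial σ R)
    (f : MvPolynomial σ ℂ) : R :=
  ∑ α ∈ f.support, ((α.prod fun _ k => (k.factorial : ℂ)) * coeff α f) • coeff α g

section

variable {σ τ : Type*} [Fintype σ] [DecidableEq σ] [Fintype τ] [DecidableEq τ]

omit [Fintype σ] [DecidableEq σ] in
private theorem Pairing_eq (g f : MvPolynomial σ ℂ) {S : Finset (σ →₀ ℕ)} (h : f.support ⊆ S) :
    pair g f = ∑ α ∈ S, ((α.prod fun _ k => (k.factorial : ℂ)) * coeff α f) * coeff α g := by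
  rw [pair]
  simp only [smul_eq_mul]
  apply Finset.sum_subset h
  intro α _ hα
  rw [notMem_support_iff.1 hα, mul_zero, zero_mul]

omit [Fintype σ] [DecidableEq σ] in
private theorem Pairing_add_left (g g' f : MvPolynomial σ ℂ) :
    pair (g + g') f = pair g f + pair g' f := by
  rw [Pairing_eq _ f (Finset.Subset.refl _), Pairing_eq g f (Finset.Subset.refl _),
    Pairing_eq g' f (Finset.Subset.refl _), ← Finset.sum_add_distrib]
  refine Finset.sum_congr rfl fun α _ => ?_
  rw [coeff_add, mul_add]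

omit [Fintype σ] [DecidableEq σ] in
private theorem Pairing_C_left (a : ℂ) (g f : MvPolynomial σ ℂ) :
    pair (C a * g) f = a * pair g f := by
  rw [Pairing_eq _ f (Finset.Subset.refl _), Pairing_eq g f (Finset.Subset.refl _), Finset.mul_sum]
  refine Finset.sum_congr rfl fun α _ => ?_
  rw [coeff_C_mul]
  ring

omit [Fintype σ] [DecidableEq σ] in
private theorem Pairing_zero_left (f : MvPolynomial σ ℂ) :
    pair (0 : MvPolynomial σ ℂ) f = 0 := by
  have h := Pairing_C_left 0 (0 : MvPolynomial σ ℂ) f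
  rwa [C_0, zero_mul, zero_mul] at h

omit [Fintype σ] [DecidableEq σ] in
private theorem Pairing_sum_left {ι : Type*} (s : Finset ι) (g : ι → MvPolynomial σ ℂ)
    (f : MvPolynomial σ ℂ) : pair (∑ i ∈ s, g i) f = ∑ i ∈ s, pair (g i) f := by
  classical
  induction s using Finset.induction_on with
  | empty => rw [Finset.sum_empty, Finset.sum_empty, Pairing_zero_left]
  | insert i s hi ih => rw [Finset.sum_insert hi, Finset.sum_insert hi, Pairing_add_left, ih]

omit [Fintype σ] in
private theorem Pairing_add_right (g f f' : MvPolynomial σ ℂ) :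
    pair g (f + f') = pair g f + pair g f' := by
  have h1 : f.support ⊆ f.support ∪ f'.support := Finset.subset_union_left
  have h2 : f'.support ⊆ f.support ∪ f'.support := Finset.subset_union_right
  rw [Pairing_eq g (f + f') (support_add (p := f) (q := f')), Pairing_eq g f h1,
    Pairing_eq g f' h2, ← Finset.sum_add_distrib]
  refine Finset.sum_congr rfl fun α _ => ?_
  rw [coeff_add]
  ring

omit [Fintype σ] [DecidableEq σ] in
private theorem Pairing_C_right (a : ℂ) (g f : MvPolynomial σ ℂ) :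
    pair g (C a * f) = a * pair g f := by
  have h1 : (C a * f).support ⊆ f.support := by
    intro α hα
    rw [mem_support_iff] at hα ⊢
    intro h
    apply hα
    rw [coeff_C_mul, h, mul_zero]
  rw [Pairing_eq g _ h1, Pairing_eq g f (Finset.Subset.refl _), Finset.mul_sum]
  refine Finset.sum_congr rfl fun α _ => ?_
  rw [coeff_C_mul]
  ring

omit [Fintype σ] in
private theorem Pairing_sum_right {ι : Type*} (s : Finset ι) (g : MvPolynomial σ ℂ)
    (f : ι → MvPolynomial σ ℂ) : pair g (∑ i ∈ s, f i) = ∑ i ∈ s, pair g (f i) := by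
  classical
  induction s using Finset.induction_on with
  | empty =>
    rw [Finset.sum_empty, Finset.sum_empty]
    have h := Pairing_C_right 0 g (0 : MvPolynomial σ ℂ)
    rwa [C_0, zero_mul, zero_mul] at h
  | insert i s hi ih => rw [Finset.sum_insert hi, Finset.sum_insert hi, Pairing_add_right, ih]

omit [Fintype σ] [DecidableEq σ] in
private theorem Pairing_monomial (g : MvPolynomial σ ℂ) (α : σ →₀ ℕ) (a : ℂ) :
    pair g (monomial α a) = ((α.prod fun _ k => (k.factorial : ℂ)) * a) * coeff α g := by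
  classical
  rw [Pairing_eq g _ support_monomial_subset, Finset.sum_singleton, coeff_monomial, if_pos rfl]

omit [Fintype τ] [DecidableEq τ] in
private theorem Pairing_X (j : σ) (g f : MvPolynomial σ ℂ) :
    pair (X j * g) f = pair g (pderiv j f) := by
  induction f using MvPolynomial.induction_on' with
  | add f f' hf hf' => rw [Pairing_add_right, hf, hf', map_add, Pairing_add_right]
  | monomial α a =>
    rw [pderiv_monomial, Pairing_monomial, Pairing_monomial, coeff_X_mul']
    by_cases hj : α j = 0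
    · rw [if_neg (by rwa [Finsupp.mem_support_iff, not_not]), hj]
      simp
    · rw [if_pos (Finsupp.mem_support_iff.2 hj)]
      have h1 : (α.prod fun _ k => (k.factorial : ℂ)) =
          ((α - Finsupp.single j 1).prod fun _ k => (k.factorial : ℂ)) * (α j : ℂ) := by
        rw [Finsupp.prod_fintype _ _ (fun _ => by simp), Finsupp.prod_fintype _ _ (fun _ => by simp),
          ← Finset.mul_prod_erase _ _ (Finset.mem_univ j), ← Finset.mul_prod_erase _ _ (Finset.mem_univ j)]
        have h2 : ∏ x ∈ Finset.univ.erase j, (((α - Finsupp.single j 1 : σ →₀ ℕ) x).factorial : ℂ) =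
            ∏ x ∈ Finset.univ.erase j, ((α x).factorial : ℂ) := by
          refine Finset.prod_congr rfl fun x hx => ?_
          rw [Finsupp.tsub_apply, Finsupp.single_eq_of_ne (Finset.ne_of_mem_erase hx), Nat.sub_zero]
        rw [h2, Finsupp.tsub_apply, Finsupp.single_eq_same]
        have h3 : ((α j).factorial : ℂ) = ((α j - 1).factorial : ℂ) * (α j : ℂ) := by
          rw [← Nat.mul_factorial_pred hj]
          push_cast
          ring
        rw [h3]
        ring
      rw [h1]
      ring

omit [Fintype σ] [DecidableEq σ] in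
private theorem Pairing_const (a : ℂ) (f : MvPolynomial σ ℂ) :
    pair (C a : MvPolynomial σ ℂ) f = coeff 0 f * a := by
  classical
  rw [Pairing_eq (C a) f (S := insert 0 f.support) (Finset.subset_insert _ _),
    Finset.sum_eq_single 0]
  · rw [coeff_C, if_pos rfl]
    simp
  · intro α _ hα
    rw [coeff_C, if_neg (Ne.symm hα), mul_zero]
  · intro h
    exact absurd (Finset.mem_insert_self _ _) h

omit [DecidableEq σ] [Fintype τ] [DecidableEq τ] in
private theorem Pairing_coeff_zero (L : σ → τ → ℂ) (f : MvPolynomial τ ℂ) :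
    coeff 0 (aeval (fun k => ∑ j, C (L j k) * X j : τ → MvPolynomial σ ℂ) f) = coeff 0 f := by
  rw [← constantCoeff_eq, ← constantCoeff_eq]
  induction f using MvPolynomial.induction_on with
  | C a => rw [aeval_C, algebraMap_eq, constantCoeff_C, constantCoeff_C]
  | add f g hf hg => rw [map_add, map_add, map_add, hf, hg]
  | mul_X f k hf =>
    rw [map_mul, map_mul, map_mul, aeval_X, map_sum, constantCoeff_X, mul_zero,
      Finset.sum_eq_zero, mul_zero]
    intro j _
    rw [map_mul, constantCoeff_X, mul_zero]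

omit [DecidableEq σ] in
private theorem Pairing_chain (L : σ → τ → ℂ) (j : σ) (f : MvPolynomial τ ℂ) :
    pderiv j (aeval (fun k => ∑ j, C (L j k) * X j : τ → MvPolynomial σ ℂ) f) =
      ∑ k, C (L j k) * aeval (fun k => ∑ j, C (L j k) * X j : τ → MvPolynomial σ ℂ)
        (pderiv k f) := by
  set φ : τ → MvPolynomial σ ℂ := fun k => ∑ j, C (L j k) * X j with hφ
  have h1 : ∀ i, pderiv j (φ i) = C (L j i) := by
    intro i
    rw [hφ]
    dsimp only
    rw [map_sum, Finset.sum_eq_single j]
    · rw [pderiv_C_mul, pderiv_X_self, mul_one]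
    · intro b _ hb
      rw [pderiv_C_mul, pderiv_X_of_ne hb, mul_zero]
    · intro h
      exact absurd (Finset.mem_univ _) h
  induction f using MvPolynomial.induction_on with
  | C a =>
    rw [aeval_C, algebraMap_eq, pderiv_C]
    simp only [pderiv_C, map_zero, mul_zero, Finset.sum_const_zero]
  | add f g hf hg =>
    rw [map_add, map_add, hf, hg, ← Finset.sum_add_distrib]
    refine Finset.sum_congr rfl fun k _ => ?_
    rw [map_add, map_add, mul_add]
  | mul_X f i hf =>
    rw [map_mul, aeval_X, pderiv_mul, hf, h1]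
    have h2 : ∀ k, C (L j k) * aeval φ (pderiv k (f * X i)) =
        C (L j k) * aeval φ (pderiv k f) * φ i +
          (if k = i then aeval φ f * C (L j i) else 0) := by
      intro k
      rw [pderiv_mul, map_add, map_mul, map_mul, aeval_X]
      by_cases hk : k = i
      · subst hk
        rw [pderiv_X_self, map_one, if_pos rfl]
        ring
      · rw [pderiv_X_of_ne (Ne.symm hk), map_zero, if_neg hk]
        ring
    rw [Finset.sum_congr rfl fun k _ => h2 k, Finset.sum_add_distrib, Finset.sum_ite_eq',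
      if_pos (Finset.mem_univ _), Finset.sum_mul]

private theorem Pairing_adj (L : σ → τ → ℂ) (g : MvPolynomial σ ℂ) (f : MvPolynomial τ ℂ) :
    pair (aeval (fun j => ∑ k, C (L j k) * X k : σ → MvPolynomial τ ℂ) g) f =
      pair g (aeval (fun k => ∑ j, C (L j k) * X j : τ → MvPolynomial σ ℂ) f) := by
  induction g using MvPolynomial.induction_on generalizing f with
  | C a => rw [aeval_C, algebraMap_eq, Pairing_const, Pairing_const, Pairing_coeff_zero]
  | add g g' hg hg' => rw [map_add, Pairing_add_left, hg, hg', ← Pairing_add_left]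
  | mul_X g j hg =>
    rw [mul_comm g (X j), Pairing_X, Pairing_chain, map_mul, aeval_X, Finset.sum_mul,
      Pairing_sum_left, Pairing_sum_right]
    refine Finset.sum_congr rfl fun k _ => ?_
    rw [mul_assoc, Pairing_C_left, Pairing_X, hg, Pairing_C_right]

end

private theorem Pairing_pos {σ : Type*} [Fintype σ] [DecidableEq σ] {G : MvPolynomial σ ℤ}
    (hG : G ≠ 0) : pair (map (Int.castRingHom ℂ) G) (map (Int.castRingHom ℂ) G) ≠ 0 := by
  rw [Pairing_eq _ _ (support_map_subset (Int.castRingHom ℂ) G)]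
  have h1 : ∑ α ∈ G.support, ((α.prod fun _ k => (k.factorial : ℂ)) *
      coeff α (map (Int.castRingHom ℂ) G)) * coeff α (map (Int.castRingHom ℂ) G) =
      ((∑ α ∈ G.support, ((α.prod fun _ k => (k.factorial : ℤ)) * coeff α G) * coeff α G : ℤ) :
        ℂ) := by
    rw [Int.cast_sum]
    refine Finset.sum_congr rfl fun α _ => ?_
    rw [coeff_map, eq_intCast]
    push_cast
    congr 2
  rw [h1, Int.cast_ne_zero]
  apply ne_of_gt
  apply Finset.sum_pos
  · intro α hα
    have h2 : 0 < coeff α G * coeff α G := mul_self_pos.2 (mem_support_iff.1 hα)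
    have h3 : 0 < (α.prod fun _ k => (k.factorial : ℤ)) :=
      Finset.prod_pos fun x _ => Int.natCast_pos.2 (Nat.factorial_pos _)
    rw [mul_assoc]
    exact mul_pos h3 h2
  · rwa [support_nonempty]

/-- A polynomial `f` in the coordinates of `p` vectors that is multiplied by `det A ^ K` under
transformations by `A` is, up to a constant, the pairing of `f` with a power of a determinant. -/
theorem exists_pairing {p q : ℕ} (K : ℕ) :
    ∃ c : ℂ, c ≠ 0 ∧ ∀ f : MvPolynomial (Fin p × Fin q) ℂ,
      (∀ (A : Matrix (Fin p) (Fin p) ℂ) (s : Fin p → Fin q → ℂ),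
        aeval (fun x : Fin p × Fin q => ∑ b, A x.1 b * s b x.2) f =
          A.det ^ K * aeval (fun x : Fin p × Fin q => s x.1 x.2) f) →
      ∀ s : Fin p → Fin q → ℂ,
        pair ((Matrix.det fun a b => (∑ i, C (s b i) * X (a, i) :
          MvPolynomial (Fin p × Fin q) ℂ)) ^ K) f =
          c * aeval (fun x : Fin p × Fin q => s x.1 x.2) f := by
  classical
  set Gz : MvPolynomial (Fin p × Fin p) ℤ := (Matrix.det (Matrix.mvPolynomialX (Fin p) (Fin p) ℤ)) ^ K
    with hGz
  have hGz0 : Gz ≠ 0 := pow_ne_zero _ (Matrix.det_mvPolynomialX_ne_zero (Fin p) ℤ)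
  set G : MvPolynomial (Fin p × Fin p) ℂ := map (Int.castRingHom ℂ) Gz with hG
  have hG' : G = (Matrix.det (Matrix.mvPolynomialX (Fin p) (Fin p) ℂ)) ^ K := by
    rw [hG, hGz, map_pow, RingHom.map_det]
    congr 2
    refine Matrix.ext fun a b => ?_
    rw [RingHom.mapMatrix_apply, Matrix.map_apply, Matrix.mvPolynomialX_apply,
      Matrix.mvPolynomialX_apply, map_X]
  refine ⟨pair G G, Pairing_pos hGz0, fun f hf s => ?_⟩
  set L : Fin p × Fin p → Fin p × Fin q → ℂ := fun j k => if k.1 = j.1 then s j.2 k.2 else 0 with hL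
  have h1 := Pairing_adj L G f
  have h2 : aeval (fun j => ∑ k, C (L j k) * X k : Fin p × Fin p → MvPolynomial (Fin p × Fin q) ℂ) G =
      (Matrix.det fun a b => (∑ i, C (s b i) * X (a, i) : MvPolynomial (Fin p × Fin q) ℂ)) ^ K := by
    rw [hG', map_pow, AlgHom.map_det]
    congr 2
    refine Matrix.ext fun a b => ?_
    rw [AlgHom.mapMatrix_apply, Matrix.map_apply, Matrix.mvPolynomialX_apply, aeval_X, Fintype.sum_prod_type, Finset.sum_eq_single a]
    · refine Finset.sum_congr rfl fun i _ => ?_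
      rw [hL]
      dsimp only
      rw [if_pos rfl]
    · intro a' _ ha'
      refine Finset.sum_eq_zero fun i _ => ?_
      rw [hL]
      dsimp only
      rw [if_neg ha', C_0, zero_mul]
    · intro h
      exact absurd (Finset.mem_univ _) h
  have h3 : aeval (fun k => ∑ j, C (L j k) * X j : Fin p × Fin q → MvPolynomial (Fin p × Fin p) ℂ) f =
      C (aeval (fun x : Fin p × Fin q => s x.1 x.2) f) * G := by
    apply MvPolynomial.funext
    intro A
    have h4 := hf (fun a b => A (a, b)) s
    have h5 : eval A (aeval (fun k => ∑ j, C (L j k) * X j :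
        Fin p × Fin q → MvPolynomial (Fin p × Fin p) ℂ) f) =
        aeval (fun x : Fin p × Fin q => ∑ b, A (x.1, b) * s b x.2) f := by
      have h6 : eval A (aeval (fun k => ∑ j, C (L j k) * X j :
        Fin p × Fin q → MvPolynomial (Fin p × Fin p) ℂ) f) = aeval A (aeval (fun k => ∑ j, C (L j k) * X j :
        Fin p × Fin q → MvPolynomial (Fin p × Fin p) ℂ) f) := by
        rw [aeval_eq_eval]
      rw [h6, ← AlgHom.comp_apply, comp_aeval]
      congr 2
      funext x
      rw [map_sum, Fintype.sum_prod_type, Finset.sum_eq_single x.1]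
      · refine Finset.sum_congr rfl fun b _ => ?_
        rw [map_mul, aeval_C, aeval_X, hL]
        dsimp only
        rw [if_pos rfl, mul_comm]
        rfl
      · intro a' _ ha'
        refine Finset.sum_eq_zero fun i _ => ?_
        rw [hL]
        dsimp only
        rw [if_neg (Ne.symm ha'), C_0, zero_mul, map_zero]
      · intro h
        exact absurd (Finset.mem_univ _) h
    have h7 : eval A G = (Matrix.det fun a b => A (a, b)) ^ K := by
      rw [hG', map_pow, RingHom.map_det]
      congr 2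
      refine Matrix.ext fun a b => ?_
      rw [RingHom.mapMatrix_apply, Matrix.map_apply, Matrix.mvPolynomialX_apply, eval_X]
    rw [h5, h4, map_mul, eval_C, h7, mul_comm]
  rw [h2, h3, Pairing_C_right, mul_comm] at h1
  exact h1

end Pool.Agent.H39.HC

end
end

section

/-!
# The determinant of the symmetric power of a matrix
-/

open MvPolynomial

noncomputable section

namespace Pool.Agent.H39.HC

/-- The multiindices of degree `e` in `p` variables. -/
abbrev MI (p e : ℕ) : Type :=
  (Finset.finsuppAntidiag (Finset.univ : Finset (Fin p)) e : Finset (Fin p →₀ ℕ))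

/-- The symmetric power of a matrix: the monomials of degree `e` in the linear forms
`∑ l', A l l' * X l'`. -/
def symMat {p : ℕ} (e : ℕ) (A : Matrix (Fin p) (Fin p) ℂ) : Matrix (MI p e) (MI p e) ℂ :=
  fun β β' => coeff β'.1 (∏ l, (∑ l', C (A l l') * X l') ^ β.1 l : MvPolynomial (Fin p) ℂ)

/-- Substitution in a form of degree `e`. -/
theorem coeff_subst {p e : ℕ} {G : MvPolynomial (Fin p) ℂ} (hG : G.IsHomogeneous e)
    (A : Matrix (Fin p) (Fin p) ℂ) (β' : MI p e) :
    coeff β'.1 (aeval (fun l => (∑ l', C (A l l') * X l' : MvPolynomial (Fin p) ℂ)) G) =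
      ∑ β : MI p e, coeff β.1 G * symMat e A β β' := by
  have h1 : aeval (fun l => (∑ l', C (A l l') * X l' : MvPolynomial (Fin p) ℂ)) G =
      ∑ β ∈ G.support, C (coeff β G) * ∏ l, (∑ l', C (A l l') * X l') ^ β l := by
    rw [aeval_def, eval₂_eq']
    rfl
  rw [h1, coeff_sum]
  have h2 : G.support ⊆ Finset.finsuppAntidiag (Finset.univ : Finset (Fin p)) e := by
    intro β hβ
    rw [Finset.mem_finsuppAntidiag]
    refine ⟨?_, Finset.subset_univ _⟩
    have h3 := hG (mem_support_iff.1 hβ)
    rw [← h3, Finsupp.weight_apply, Finsupp.sum_fintype]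
    · simp
    · simp
  have h4 : ∑ β : MI p e, coeff β.1 G * symMat e A β β' =
      ∑ β ∈ Finset.finsuppAntidiag (Finset.univ : Finset (Fin p)) e,
        coeff β G * coeff β'.1 (∏ l, (∑ l', C (A l l') * X l') ^ β l : MvPolynomial (Fin p) ℂ) :=
    Finset.sum_coe_sort (Finset.finsuppAntidiag (Finset.univ : Finset (Fin p)) e)
      (fun β => coeff β G *
        coeff β'.1 (∏ l, (∑ l', C (A l l') * X l') ^ β l : MvPolynomial (Fin p) ℂ))
  rw [h4]
  simp only [coeff_C_mul]
  apply Finset.sum_subset h2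
  intro β _ hβ
  rw [notMem_support_iff.1 hβ, zero_mul]

private theorem SymDet_prod {p e : ℕ} (A : Matrix (Fin p) (Fin p) ℂ) (β : MI p e) :
    (∏ l, (∑ l', C (A l l') * X l') ^ β.1 l : MvPolynomial (Fin p) ℂ).IsHomogeneous e := by
  have h1 : ∑ l, β.1 l = e := (Finset.mem_finsuppAntidiag.1 β.2).1
  have h := IsHomogeneous.prod Finset.univ
    (fun l => ((∑ l', C (A l l') * X l') ^ β.1 l : MvPolynomial (Fin p) ℂ)) (fun l => β.1 l) (by
      intro l _
      have h2 : (∑ l', C (A l l') * X l' : MvPolynomial (Fin p) ℂ).IsHomogeneous 1 := by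
        apply IsHomogeneous.sum
        intro l' _
        exact isHomogeneous_C_mul_X _ _
      have h3 := h2.pow (β.1 l)
      rwa [one_mul] at h3)
  rw [h1] at h
  exact h

private theorem SymDet_mul {p e : ℕ} (A B : Matrix (Fin p) (Fin p) ℂ) :
    symMat e (A * B) = symMat e A * symMat e B := by
  ext β β''
  rw [Matrix.mul_apply]
  have h1 := coeff_subst (SymDet_prod A β) B β''
  change coeff β''.1 (∏ l, (∑ l', C ((A * B) l l') * X l') ^ β.1 l : MvPolynomial (Fin p) ℂ) =
    ∑ β' : MI p e, coeff β'.1 (∏ l, (∑ l', C (A l l') * X l') ^ β.1 l : MvPolynomial (Fin p) ℂ) *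
      symMat e B β' β''
  rw [← h1]
  congr 1
  rw [map_prod]
  refine Finset.prod_congr rfl fun l _ => ?_
  rw [map_pow, map_sum]
  congr 1
  simp only [map_mul, aeval_C, aeval_X, algebraMap_eq, Finset.mul_sum, Matrix.mul_apply, map_sum,
    Finset.sum_mul]
  rw [Finset.sum_comm]
  refine Finset.sum_congr rfl fun i _ => Finset.sum_congr rfl fun j _ => ?_
  ring

private theorem SymDet_diag {p e : ℕ} (D : Fin p → ℂ) :
    symMat e (Matrix.diagonal D) = Matrix.diagonal fun β : MI p e => ∏ l, D l ^ β.1 l := by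
  ext β β'
  change coeff β'.1 _ = _
  have h1 : (∏ l, (∑ l', C (Matrix.diagonal D l l') * X l') ^ β.1 l : MvPolynomial (Fin p) ℂ) =
      monomial β.1 (∏ l, D l ^ β.1 l) := by
    rw [monomial_eq, Finsupp.prod_fintype _ _ (fun _ => pow_zero _), map_prod,
      ← Finset.prod_mul_distrib]
    refine Finset.prod_congr rfl fun l _ => ?_
    rw [Finset.sum_eq_single l]
    · rw [Matrix.diagonal_apply_eq, mul_pow, map_pow]
    · intro l' _ hl'
      rw [Matrix.diagonal_apply_ne _ (Ne.symm hl'), C_0, zero_mul]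
    · intro h
      exact absurd (Finset.mem_univ _) h
  rw [h1, coeff_monomial, Matrix.diagonal_apply]
  by_cases h : β = β'
  · rw [if_pos h, if_pos (congrArg Subtype.val h)]
  · rw [if_neg h, if_neg fun h' => h (Subtype.ext h')]

private theorem SymDet_one {p e : ℕ} : symMat e (1 : Matrix (Fin p) (Fin p) ℂ) = 1 := by
  rw [← Matrix.diagonal_one, SymDet_diag, ← Matrix.diagonal_one]
  congr 1
  funext β
  exact Finset.prod_eq_one fun l _ => one_pow _

private theorem SymDet_det_mul {p e : ℕ} (A B : Matrix (Fin p) (Fin p) ℂ) :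
    (symMat e (A * B)).det = (symMat e A).det * (symMat e B).det := by
  rw [SymDet_mul, Matrix.det_mul]

private theorem SymDet_ne_zero {p e : ℕ} {A B : Matrix (Fin p) (Fin p) ℂ} (h : A * B = 1) :
    (symMat e A).det ≠ 0 := by
  intro h0
  have h1 := SymDet_det_mul (e := e) A B
  rw [h, SymDet_one, Matrix.det_one, h0, zero_mul] at h1
  exact one_ne_zero h1

private theorem SymDet_trans {p e : ℕ} {i j : Fin p} (hij : i ≠ j) (c : ℂ) :
    (symMat e (Matrix.transvection i j c)).det = 1 := by
  set D : Fin p → ℂ := fun l => if l = i then 2 else 1 with hD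
  have h1 : Matrix.diagonal D * Matrix.transvection i j c =
      Matrix.transvection i j (c + c) * Matrix.diagonal D := by
    ext a b
    rw [Matrix.diagonal_mul, Matrix.mul_diagonal]
    have hT : ∀ c : ℂ, Matrix.transvection i j c a b =
        (if a = b then 1 else 0) + (if i = a ∧ j = b then c else 0) := by
      intro c
      simp only [Matrix.transvection, Matrix.add_apply, Matrix.one_apply, Matrix.single_apply]
    rw [hT, hT]
    by_cases h : i = a ∧ j = b
    · obtain ⟨rfl, rfl⟩ := h
      have hDi : D i = 2 := if_pos rfl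
      have hDj : D j = 1 := if_neg (Ne.symm hij)
      rw [if_neg hij, if_pos ⟨rfl, rfl⟩, if_pos ⟨rfl, rfl⟩, hDi, hDj]
      ring
    · rw [if_neg h, if_neg h]
      by_cases hab : a = b
      · rw [hab, mul_comm]
      · rw [if_neg hab]
        ring
  have h2 : (symMat e (Matrix.diagonal D)).det ≠ 0 := by
    apply SymDet_ne_zero (B := Matrix.diagonal fun l => (D l)⁻¹)
    rw [Matrix.diagonal_mul_diagonal, ← Matrix.diagonal_one]
    congr 1
    funext l
    apply mul_inv_cancel₀
    rw [hD]
    dsimp only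
    split_ifs <;> norm_num
  have h3 : (symMat e (Matrix.transvection i j c)).det ≠ 0 := by
    apply SymDet_ne_zero (B := Matrix.transvection i j (-c))
    rw [Matrix.transvection_mul_transvection_same i j hij, add_neg_cancel, Matrix.transvection_zero]
  have h4 := congrArg (fun A => (symMat e A).det) h1
  simp only [SymDet_det_mul] at h4
  rw [← Matrix.transvection_mul_transvection_same i j hij, SymDet_det_mul] at h4
  have h5 : (symMat e (Matrix.diagonal D)).det * ((symMat e (Matrix.transvection i j c)).det) * 1 =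
      (symMat e (Matrix.diagonal D)).det * ((symMat e (Matrix.transvection i j c)).det) *
        (symMat e (Matrix.transvection i j c)).det := by
    rw [mul_one]
    linear_combination h4
  exact (mul_left_cancel₀ (mul_ne_zero h2 h3) h5).symm

private theorem SymDet_sum {p : ℕ} (hp : 1 ≤ p) (e : ℕ) (l : Fin p) :
    ∑ β : MI p e, β.1 l = (e + p - 1).choose p := by
  have hsym : ∀ l' : Fin p, ∑ β : MI p e, β.1 l' = ∑ β : MI p e, β.1 l := by
    intro l'
    have hmem : ∀ β : Fin p →₀ ℕ, β ∈ Finset.finsuppAntidiag (Finset.univ : Finset (Fin p)) e →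
        β.equivMapDomain (Equiv.swap l l') ∈
          Finset.finsuppAntidiag (Finset.univ : Finset (Fin p)) e := by
      intro β hβ
      rw [Finset.mem_finsuppAntidiag] at hβ ⊢
      refine ⟨?_, Finset.subset_univ _⟩
      rw [← hβ.1]
      exact Equiv.sum_comp (Equiv.swap l l').symm β
    let σ : MI p e → MI p e := fun β => ⟨β.1.equivMapDomain (Equiv.swap l l'), hmem β.1 β.2⟩
    have hσ : Function.Involutive σ := by
      intro β
      apply Subtype.ext
      apply Finsupp.ext
      intro a
      change β.1 ((Equiv.swap l l').symm ((Equiv.swap l l').symm a)) = β.1 a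
      rw [Equiv.symm_swap, Equiv.swap_apply_self]
    have h1 := Equiv.sum_comp hσ.toPerm (fun β : MI p e => β.1 l)
    rw [← h1]
    refine Finset.sum_congr rfl fun β _ => ?_
    change β.1 l' = β.1 ((Equiv.swap l l').symm l)
    rw [Equiv.symm_swap, Equiv.swap_apply_left]
  have h1 : ∑ l' : Fin p, ∑ β : MI p e, β.1 l' = p * ∑ β : MI p e, β.1 l := by
    rw [Finset.sum_congr rfl fun l' _ => hsym l', Finset.sum_const, Finset.card_univ,
      Fintype.card_fin, smul_eq_mul]
  have h2 : ∑ l' : Fin p, ∑ β : MI p e, β.1 l' = (p + e - 1).choose e * e := by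
    rw [Finset.sum_comm]
    have h3 : ∀ β : MI p e, ∑ l' : Fin p, β.1 l' = e := fun β =>
      (Finset.mem_finsuppAntidiag.1 β.2).1
    rw [Finset.sum_congr rfl fun β _ => h3 β, Finset.sum_const, Finset.card_univ, smul_eq_mul]
    congr 1
    rw [Fintype.card_coe, Finset.card_finsuppAntidiag_nat_eq_choose, Finset.card_univ,
      Fintype.card_fin]
  obtain ⟨p', rfl⟩ : ∃ p', p = p' + 1 := ⟨p - 1, by omega⟩
  have h4 : (e + (p' + 1) - 1).choose (p' + 1) * (p' + 1) = (e + (p' + 1) - 1).choose p' * e := by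
    have h5 := Nat.choose_succ_right_eq (e + (p' + 1) - 1) p'
    have h6 : e + (p' + 1) - 1 - p' = e := by omega
    rwa [h6] at h5
  have h7 : (p' + 1 + e - 1).choose e = (e + (p' + 1) - 1).choose p' := by
    have h8 : p' + 1 + e - 1 = e + (p' + 1) - 1 := by omega
    rw [h8]
    exact Nat.choose_symm_of_eq_add (by omega)
  have h9 : (p' + 1) * ∑ β : MI (p' + 1) e, β.1 l =
      (p' + 1) * (e + (p' + 1) - 1).choose (p' + 1) := by
    rw [← h1, h2, h7, ← h4, mul_comm]
  exact Nat.eq_of_mul_eq_mul_left (Nat.succ_pos p') h9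

/-- The determinant of the symmetric power of a matrix. -/
theorem det_symMat {p : ℕ} (hp : 1 ≤ p) (e : ℕ) (A : Matrix (Fin p) (Fin p) ℂ) :
    (symMat e A).det = A.det ^ (e + p - 1).choose p := by
  apply Matrix.diagonal_transvection_induction
    (fun A : Matrix (Fin p) (Fin p) ℂ => (symMat e A).det = A.det ^ (e + p - 1).choose p) A
  · intro D _
    rw [SymDet_diag, Matrix.det_diagonal, Matrix.det_diagonal, Finset.prod_comm, ← Finset.prod_pow]
    refine Finset.prod_congr rfl fun l _ => ?_
    rw [Finset.prod_pow_eq_pow_sum, SymDet_sum hp]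
  · intro t
    rw [Matrix.TransvectionStruct.det, one_pow]
    exact SymDet_trans t.hij t.c
  · intro A B hA hB
    rw [SymDet_det_mul, hA, hB, Matrix.det_mul, mul_pow]

end Pool.Agent.H39.HC

end
end

section

/-!
# Project DG, module D2Ord: orders of meromorphic functions and bounds for their norms
-/

open Filter Topology

noncomputable section

namespace Pool.Agent.H5.DG

/-- A bound for the norm gives a bound for the order. -/
theorem le_order_of_norm_le {P : ℂ → ℂ} {s : ℂ} (hP : MeromorphicAt P s) {k : ℤ} {C : ℝ}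
    (h : ∀ᶠ ζ in 𝓝[≠] s, ‖P ζ‖ ≤ C * ‖ζ - s‖ ^ k) :
    ((k : ℤ) : WithTop ℤ) ≤ meromorphicOrderAt P s := by
  have h1 : MeromorphicAt (fun ζ => (ζ - s) ^ (-k)) s := by fun_prop
  have h2 : MeromorphicAt ((fun ζ => (ζ - s) ^ (-k)) * P) s := h1.mul hP
  have h3 : meromorphicOrderAt (fun ζ : ℂ => (ζ - s) ^ (-k)) s = ((-k : ℤ) : WithTop ℤ) := by
    rw [meromorphicOrderAt_eq_int_iff h1]
    refine ⟨fun _ => 1, analyticAt_const, one_ne_zero, ?_⟩
    filter_upwards with z
    simp
  have h4 : 0 ≤ meromorphicOrderAt ((fun ζ => (ζ - s) ^ (-k)) * P) s := by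
    by_contra hcon
    have h5 := (tendsto_cobounded_iff_meromorphicOrderAt_neg h2).2 (not_le.1 hcon)
    have h6 : ∀ᶠ ζ in 𝓝[≠] s, ‖((fun ζ => (ζ - s) ^ (-k)) * P) ζ‖ ≤ C := by
      filter_upwards [h, self_mem_nhdsWithin] with ζ hζ hne
      have hne' : 0 < ‖ζ - s‖ := norm_pos_iff.2 (sub_ne_zero.2 hne)
      rw [Pi.mul_apply, norm_mul, norm_zpow]
      calc ‖ζ - s‖ ^ (-k) * ‖P ζ‖ ≤ ‖ζ - s‖ ^ (-k) * (C * ‖ζ - s‖ ^ k) :=
            mul_le_mul_of_nonneg_left hζ (by positivity)
        _ = C := by
            rw [zpow_neg]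
            field_simp
    have h7 := tendsto_norm_cobounded_atTop.comp h5
    obtain ⟨ζ, h8, h9⟩ := (h6.and (h7.eventually (eventually_gt_atTop C))).exists
    exact absurd h9 (not_lt.2 h8)
  rw [meromorphicOrderAt_mul h1 hP, h3] at h4
  induction hx : meromorphicOrderAt P s using WithTop.recTopCoe with
  | top => exact le_top
  | coe c =>
    rw [hx] at h4
    have h5 : (0 : ℤ) ≤ -k + c := by exact_mod_cast h4
    exact_mod_cast (by omega : k ≤ c)

/-- Local form of finitely many meromorphic functions. -/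
theorem exists_local {ι : Type*} {g : ι → ℂ → ℂ} {s : ℂ} (hg : ∀ a, MeromorphicAt (g a) s)
    {μ : ℤ} (hμ : ∀ a, ((μ : ℤ) : WithTop ℤ) ≤ meromorphicOrderAt (g a) s) :
    ∃ w : ι → ℂ → ℂ, (∀ a, AnalyticAt ℂ (w a) s) ∧
      (∀ a, ∀ᶠ ζ in 𝓝[≠] s, g a ζ = (ζ - s) ^ μ * w a ζ) ∧
      ∀ a, meromorphicOrderAt (g a) s = ((μ : ℤ) : WithTop ℤ) → w a s ≠ 0 := by
  have key : ∀ a, ∃ w : ℂ → ℂ, AnalyticAt ℂ w s ∧
      (∀ᶠ ζ in 𝓝[≠] s, g a ζ = (ζ - s) ^ μ * w ζ) ∧
      (meromorphicOrderAt (g a) s = ((μ : ℤ) : WithTop ℤ) → w s ≠ 0) := by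
    intro a
    by_cases h : meromorphicOrderAt (g a) s = ⊤
    · refine ⟨fun _ => 0, analyticAt_const, ?_, ?_⟩
      · rw [meromorphicOrderAt_eq_top_iff] at h
        filter_upwards [h] with z hz
        rw [hz, mul_zero]
      · intro h'
        rw [h] at h'
        exact absurd h' (by simp)
    · obtain ⟨k, hk⟩ := WithTop.ne_top_iff_exists.mp h
      have hk' := hk.symm
      rw [meromorphicOrderAt_eq_int_iff (hg a)] at hk'
      obtain ⟨u, hu, hus, hgu⟩ := hk'
      have hle : μ ≤ k := by
        have := hμ a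
        rw [← hk] at this
        exact_mod_cast this
      obtain ⟨m, hm⟩ := Int.le.dest hle
      refine ⟨fun z => (z - s) ^ m * u z, by fun_prop, ?_, ?_⟩
      · filter_upwards [hgu, self_mem_nhdsWithin] with z hz hne
        have hne' : z - s ≠ 0 := sub_ne_zero.2 hne
        rw [hz, smul_eq_mul, ← mul_assoc, ← hm, zpow_add₀ hne', zpow_natCast]
      · intro h'
        rw [← hk] at h'
        have h3 : k = μ := by exact_mod_cast h'
        have h4 : m = 0 := by omega
        subst h4
        simpa using hus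
  choose w h1 h2 h3 using key
  exact ⟨w, h1, h2, h3⟩

/-- Bounds for an analytic function and its derivative. -/
theorem exists_bound {k : ℂ → ℂ} {s : ℂ} (hk : AnalyticAt ℂ k s) {o : ℕ}
    (ho : ((o : ℤ) : WithTop ℤ) ≤ meromorphicOrderAt k s) :
    ∃ C : ℝ, ∀ᶠ ζ in 𝓝[≠] s, ‖k ζ‖ + ‖deriv k ζ‖ ≤ C * ‖ζ - s‖ ^ (o - 1) := by
  obtain ⟨w, hw, hkw, -⟩ := exists_local (ι := Unit) (g := fun _ => k) (μ := (o : ℤ))
    (fun _ => hk.meromorphicAt) (fun _ => ho)
  have hkw' : k =ᶠ[𝓝 s] fun ζ => (ζ - s) ^ o * w () ζ := by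
    have h1 : AnalyticAt ℂ (fun ζ => (ζ - s) ^ o * w () ζ) s := by
      have := hw ()
      fun_prop
    have h2 : k =ᶠ[𝓝[≠] s] fun ζ => (ζ - s) ^ o * w () ζ := by
      filter_upwards [hkw ()] with ζ hζ
      rw [hζ, zpow_natCast]
    exact (hk.frequently_eq_iff_eventually_eq h1).1 h2.frequently
  have hd : deriv k =ᶠ[𝓝 s] fun ζ => o * (ζ - s) ^ (o - 1) * w () ζ +
      (ζ - s) ^ o * deriv (w ()) ζ := by
    refine hkw'.deriv.trans ?_
    filter_upwards [(hw ()).eventually_analyticAt] with ζ hζ
    have h1 : HasDerivAt (fun ζ : ℂ => (ζ - s) ^ o) (o * (ζ - s) ^ (o - 1)) ζ := by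
      have h0 : HasDerivAt (fun ζ : ℂ => ζ - s) 1 ζ := (hasDerivAt_id ζ).sub_const s
      have h2 := h0.fun_pow o
      rwa [mul_one] at h2
    exact (h1.mul hζ.differentiableAt.hasDerivAt).deriv
  obtain ⟨A, hA⟩ : ∃ A, A = ‖w () s‖ + 1 := ⟨_, rfl⟩
  obtain ⟨B, hB⟩ : ∃ B, B = ‖deriv (w ()) s‖ + 1 := ⟨_, rfl⟩
  have hwA : ∀ᶠ ζ in 𝓝 s, ‖w () ζ‖ < A := by
    have := (hw ()).continuousAt.norm
    exact this.eventually (gt_mem_nhds (by rw [hA]; linarith))
  have hwB : ∀ᶠ ζ in 𝓝 s, ‖deriv (w ()) ζ‖ < B := by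
    have := (hw ()).deriv.continuousAt.norm
    exact this.eventually (gt_mem_nhds (by rw [hB]; linarith))
  have hball : ∀ᶠ ζ in 𝓝 s, ‖ζ - s‖ < 1 := by
    filter_upwards [Metric.ball_mem_nhds s one_pos] with ζ hζ
    rwa [mem_ball_iff_norm] at hζ
  refine ⟨A + (o * A + B), ?_⟩
  have hall := (hkw'.and (hd.and (hwA.and (hwB.and hball)))).filter_mono
    (nhdsWithin_le_nhds (s := {s}ᶜ))
  filter_upwards [hall] with ζ hζ
  obtain ⟨h1, h2, h3, h4, h5⟩ := hζ
  have h6 : ‖ζ - s‖ ^ o ≤ ‖ζ - s‖ ^ (o - 1) :=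
    pow_le_pow_of_le_one (norm_nonneg _) h5.le (Nat.sub_le _ _)
  have h7 : ‖k ζ‖ ≤ A * ‖ζ - s‖ ^ (o - 1) := by
    rw [h1, norm_mul, norm_pow, mul_comm]
    exact mul_le_mul h3.le h6 (by positivity) ((norm_nonneg _).trans h3.le)
  have h8 : ‖deriv k ζ‖ ≤ (o * A + B) * ‖ζ - s‖ ^ (o - 1) := by
    rw [h2]
    refine (norm_add_le _ _).trans ?_
    rw [norm_mul, norm_mul, norm_mul, norm_pow, norm_pow, Complex.norm_natCast, add_mul]
    refine add_le_add ?_ ?_
    · calc (o : ℝ) * ‖ζ - s‖ ^ (o - 1) * ‖w () ζ‖ ≤ o * ‖ζ - s‖ ^ (o - 1) * A :=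
            mul_le_mul_of_nonneg_left h3.le (by positivity)
        _ = o * A * ‖ζ - s‖ ^ (o - 1) := by ring
    · calc ‖ζ - s‖ ^ o * ‖deriv (w ()) ζ‖ ≤ ‖ζ - s‖ ^ (o - 1) * B :=
            mul_le_mul h6 h4.le (norm_nonneg _) (by positivity)
        _ = B * ‖ζ - s‖ ^ (o - 1) := by ring
  linarith

end Pool.Agent.H5.DG

end
end

section

/-!
# Valuations of polynomials and of resultants
-/

open Polynomial

noncomputable section

namespace Pool.Agent.H92.GT

section Det

variable {K : Type*} [Field K] (v : AddValuation K (WithTop ℤ))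

lemma val_prod {κ : Type*} (S : Finset κ) (f : κ → K) :
    v (∏ i ∈ S, f i) = ∑ i ∈ S, v (f i) := by
  classical
  induction S using Finset.induction_on with
  | empty => simp
  | insert a S ha ih => rw [Finset.prod_insert ha, Finset.sum_insert ha, v.map_mul, ih]

lemma coe_sum {κ : Type*} (S : Finset κ) (f : κ → ℤ) :
    ((∑ i ∈ S, f i : ℤ) : WithTop ℤ) = ∑ i ∈ S, ((f i : ℤ) : WithTop ℤ) := by
  classical
  induction S using Finset.induction_on with
  | empty => simp
  | insert a S ha ih => rw [Finset.sum_insert ha, Finset.sum_insert ha, ← ih]; rfl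

/-- A lower bound for the valuation of a determinant. -/
lemma val_det_ge {n : Type*} [Fintype n] [DecidableEq n] (M : Matrix n n K) (r c : n → ℤ)
    (h : ∀ i j, ((r i + c j : ℤ) : WithTop ℤ) ≤ v (M i j)) :
    ((∑ i, r i + ∑ j, c j : ℤ) : WithTop ℤ) ≤ v M.det := by
  rw [Matrix.det_apply]
  apply v.map_le_sum
  intro σ _
  have h1 : v (Equiv.Perm.sign σ • ∏ i, M (σ i) i) = v (∏ i, M (σ i) i) := by
    rcases Int.units_eq_one_or (Equiv.Perm.sign σ) with h | h
    · rw [h, one_smul]
    · rw [h, Units.neg_smul, one_smul, v.map_neg]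
  rw [h1, val_prod]
  have h2 : ∑ i, r i + ∑ j, c j = ∑ i, (r (σ i) + c i) := by
    rw [Finset.sum_add_distrib, Equiv.sum_comp σ r]
  rw [h2, coe_sum]
  exact Finset.sum_le_sum fun i _ => h _ _

end Det

section Sylv

variable {K : Type*} [Field K]

end Sylv

section Const

variable {K : Type*} [Field K] [Algebra ℂ K] {v : AddValuation K (WithTop ℤ)}

/-- Non-zero constants have valuation zero. -/
lemma val_const (hv : ∀ c : ℂ, 0 ≤ v (algebraMap ℂ K c)) {c : ℂ} (hc : c ≠ 0) :
    v (algebraMap ℂ K c) = 0 := by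
  refine le_antisymm ?_ (hv c)
  have h1 : v (algebraMap ℂ K c) + v (algebraMap ℂ K c⁻¹) = 0 := by
    rw [← v.map_mul, ← map_mul, mul_inv_cancel₀ hc, map_one, v.map_one]
  calc v (algebraMap ℂ K c) ≤ v (algebraMap ℂ K c) + v (algebraMap ℂ K c⁻¹) :=
        le_add_of_nonneg_right (hv _)
    _ = 0 := h1

end Const

end Pool.Agent.H92.GT

end
end
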