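import Pool.Agent.H94.DG.M13

/-! The parts of this file: H5.DG.DefsA, H5.DG.Free. -/

section

/-!
# Project DG, Part A: definitions
-/

noncomputable section

namespace Pool.Agent.H5.DG

/-- The ideal generated by the polynomials `x i ^ a i - g i`. -/
def sysIdeal {R : Type} [CommRing R] {m : ℕ} (a : Fin m → ℕ)
    (g : Fin m → MvPolynomial (Fin m) R) : Ideal (MvPolynomial (Fin m) R) :=
  Ideal.span (Set.range fun i => MvPolynomial.X i ^ a i - g i)

/-- The exponents of the monomials of the basis. -/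
abbrev Idx {m : ℕ} (a : Fin m → ℕ) : Type := (i : Fin m) → Fin (a i)

/-- A polynomial in `u, x 0, …, x (n - 1)` regarded as a polynomial in `x` over `ℂ[u]`. -/
def toX {n : ℕ} (G : MvPolynomial (Fin (n + 1)) ℂ) : MvPolynomial (Fin n) (Polynomial ℂ) :=
  MvPolynomial.aeval (Fin.cons (MvPolynomial.C Polynomial.X) MvPolynomial.X :
    Fin (n + 1) → MvPolynomial (Fin n) (Polynomial ℂ)) G

/-- The determinant of `v 0 + v 1 u + ∑ v (i + 2) U i`. -/
def NA {n : ℕ} {ι : Type} [Fintype ι] [DecidableEq ι] (U : Fin n → Matrix ι ι (Polynomial ℂ)) :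
    Polynomial (PV n) :=
  Matrix.det (Matrix.of fun α β : ι =>
    (if α = β then Polynomial.C (MvPolynomial.X 0) +
      Polynomial.C (MvPolynomial.X 1) * Polynomial.X else 0) +
    ∑ i : Fin n, Polynomial.C (MvPolynomial.X i.succ.succ) *
      (U i α β).map MvPolynomial.C)

/-- `y` is a common eigenvector of the matrices `U i` at `u`, with eigenvalues `x i`. -/
def Eig {n : ℕ} {ι : Type} [Fintype ι] {L : Type} [Field L] [Algebra ℂ L]
    (U : Fin n → Matrix ι ι (Polynomial ℂ)) (u : L) (x : Fin n → L) (y : ι → L) : Prop :=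
  y ≠ 0 ∧ ∀ i α, ∑ β, Polynomial.aeval u (U i α β) * y β = x i * y α

/-- The points `s q` of `ℂ^(n+1)` satisfy equations `y (i + 1) ^ δ i = g i (y)`, where `g i` involves
only `y 0, …, y (i + 1)` and has degree less than `δ i` in `y (i + 1)`, for all `i` with
`m ≤ i + 1`. -/
structure Lvl {n : ℕ} {ι : Type} (m : ℕ) (δ : Fin n → ℕ) (g : Fin n → MvPolynomial (Fin (n + 1)) ℂ)
    (s : ι → Fin (n + 1) → ℂ) : Prop where
  pos : ∀ i : Fin n, m ≤ (i : ℕ) + 1 → 1 ≤ δ i
  deg : ∀ i : Fin n, m ≤ (i : ℕ) + 1 → (g i).totalDegree ≤ δ i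
  tri : ∀ i : Fin n, m ≤ (i : ℕ) + 1 → ∀ γ ∈ (g i).support,
    (∀ j : Fin (n + 1), i.succ < j → γ j = 0) ∧ γ i.succ < δ i
  eq : ∀ i : Fin n, m ≤ (i : ℕ) + 1 → ∀ q, s q i.succ ^ δ i = MvPolynomial.eval (s q) (g i)

/-- The conclusion of the interpolation theorem. -/
def Good {n : ℕ} {ι : Type} (ρ : ℕ) (s : ι → Fin (n + 1) → ℂ) : Prop :=
  ∃ (M : Matrix (Fin (n + 1)) (Fin (n + 1)) ℂ) (a W : Fin n → ℕ)
    (g : Fin n → MvPolynomial (Fin (n + 1)) ℂ) (S : Finset ι),
    IsUnit M.det ∧ IsSystem a W g ∧ ρ * ∏ i, a i < S.card ∧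
      ∀ q ∈ S, ∀ i : Fin n, (M.mulVec (s q)) i.succ ^ a i = MvPolynomial.eval (M.mulVec (s q)) (g i)

/-- The exponents of the monomials in `y 0, …, y (m - 1)` of degree at most `b` in each of these
variables. -/
def Box (n m b : ℕ) : Set (Fin (n + 1) →₀ ℕ) :=
  {γ | ∀ j : Fin (n + 1), γ j ≤ b ∧ (m ≤ (j : ℕ) → γ j = 0)}

end Pool.Agent.H5.DG

end
end

section

/-!
# Project DG, A1: the monomials with small exponents form a basis

`R` a commutative ring, `g i` polynomials all of whose monomials have weight `< a i * W i`. Then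
`R[x] / (x i ^ a i - g i)` is a free `R`-module with basis the monomials `x ^ α`, `α i < a i`.

Proof. Put `Y i = x i ^ a i - g i` and `B γ = ∏ i, Y i ^ (γ i / a i) * x i ^ (γ i % a i)`. The polynomial `B γ - x ^ γ`
has only monomials of weight less than the weight of `γ`, so the linear map `Φ` with `Φ (x ^ γ) = B γ` is
bijective. Since `Y i * B γ = B (γ + a i e i)`, we have `Y i * Φ f = Φ (x i ^ a i * f)`. So the ideal is the image
under `Φ` of the polynomials without reduced monomials, while `B α = x ^ α` for a reduced `α`.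
-/

open MvPolynomial

noncomputable section

namespace Pool.Agent.H5.DG

section

variable {R : Type} [CommRing R] {m : ℕ}

/-- the weight -/
private def frW (W : Fin m → ℕ) (γ : Fin m →₀ ℕ) : ℕ := ∑ j, γ j * W j

private theorem frW_add (W : Fin m → ℕ) (γ δ : Fin m →₀ ℕ) :
    frW W (γ + δ) = frW W γ + frW W δ := by
  unfold frW
  rw [← Finset.sum_add_distrib]
  exact Finset.sum_congr rfl fun j _ => by rw [Finsupp.add_apply, add_mul]

private theorem frW_single (W : Fin m → ℕ) (i : Fin m) (k : ℕ) :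
    frW W (Finsupp.single i k) = k * W i := by
  unfold frW
  rw [Finset.sum_eq_single i]
  · rw [Finsupp.single_eq_same]
  · intro j _ hj
    rw [Finsupp.single_eq_of_ne hj, zero_mul]
  · intro h
    exact absurd (Finset.mem_univ i) h

/-- all monomials have weight less than `k` -/
private def frLow (W : Fin m → ℕ) (k : ℕ) (f : MvPolynomial (Fin m) R) : Prop :=
  ∀ γ, k ≤ frW W γ → coeff γ f = 0

private theorem frLow_add {W : Fin m → ℕ} {k : ℕ} {f g : MvPolynomial (Fin m) R}
    (hf : frLow W k f) (hg : frLow W k g) : frLow W k (f + g) := fun γ hγ => by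
  rw [coeff_add, hf γ hγ, hg γ hγ, add_zero]

private theorem frLow_mono {W : Fin m → ℕ} {k l : ℕ} (h : k ≤ l) {f : MvPolynomial (Fin m) R}
    (hf : frLow W k f) : frLow W l f := fun γ hγ => hf γ (h.trans hγ)

/-- the product of a polynomial of weight less than `k` and a polynomial of weight at most `l` -/
private theorem frLow_mul {W : Fin m → ℕ} {k l : ℕ} {f g : MvPolynomial (Fin m) R}
    (hf : frLow W k f) (hg : frLow W (l + 1) g) : frLow W (k + l) (f * g) := fun γ hγ => by
  classical
  rw [coeff_mul]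
  refine Finset.sum_eq_zero fun p hp => ?_
  rw [Finset.HasAntidiagonal.mem_antidiagonal] at hp
  by_cases h1 : k ≤ frW W p.1
  · rw [hf _ h1, zero_mul]
  · have h2 : l + 1 ≤ frW W p.2 := by
      have h3 := frW_add W p.1 p.2
      rw [hp] at h3
      omega
    rw [hg _ h2, mul_zero]

/-- the leading monomial is `x ^ γ` -/
private def frLead (W : Fin m → ℕ) (γ : Fin m →₀ ℕ) (f : MvPolynomial (Fin m) R) : Prop :=
  frLow W (frW W γ) (f - monomial γ 1)

private theorem frLow_monomial (W : Fin m → ℕ) (γ : Fin m →₀ ℕ) (c : R) :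
    frLow W (frW W γ + 1) (monomial γ c) := fun δ hδ => by
  classical
  rw [coeff_monomial, if_neg]
  rintro rfl
  omega

private theorem frLead_low {W : Fin m → ℕ} {γ : Fin m →₀ ℕ} {f : MvPolynomial (Fin m) R}
    (hf : frLead W γ f) : frLow W (frW W γ + 1) f := by
  have h1 := frLow_add (frLow_mono (Nat.le_succ _) hf) (frLow_monomial W γ (1 : R))
  rwa [sub_add_cancel] at h1

private theorem frLead_mul {W : Fin m → ℕ} {γ δ : Fin m →₀ ℕ} {f g : MvPolynomial (Fin m) R}
    (hf : frLead W γ f) (hg : frLead W δ g) : frLead W (γ + δ) (f * g) := by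
  have h1 : f * g - monomial (γ + δ) 1 = (f - monomial γ 1) * g +
      (g - monomial δ 1) * monomial γ 1 := by
    have h2 : (monomial (γ + δ) 1 : MvPolynomial (Fin m) R) = monomial γ 1 * monomial δ 1 := by
      rw [monomial_mul, one_mul]
    rw [h2]
    ring
  unfold frLead
  rw [h1, frW_add]
  refine frLow_add (frLow_mul hf (frLead_low hg)) ?_
  rw [add_comm]
  exact frLow_mul hg (frLow_monomial W γ 1)

private theorem frLead_one (W : Fin m → ℕ) : frLead W 0 (1 : MvPolynomial (Fin m) R) := by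
  unfold frLead
  intro γ _
  have h1 : (1 : MvPolynomial (Fin m) R) - monomial 0 1 = 0 := sub_self _
  rw [h1, coeff_zero]

private theorem frLead_pow {W : Fin m → ℕ} {γ : Fin m →₀ ℕ} {f : MvPolynomial (Fin m) R}
    (hf : frLead W γ f) (n : ℕ) : frLead W (n • γ) (f ^ n) := by
  induction n with
  | zero =>
    rw [zero_smul, pow_zero]
    exact frLead_one W
  | succ n ih =>
    rw [succ_nsmul, pow_succ]
    exact frLead_mul ih hf

private theorem frLead_prod {W : Fin m → ℕ} {ι : Type} (s : Finset ι) {γ : ι → Fin m →₀ ℕ}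
    {f : ι → MvPolynomial (Fin m) R} (hf : ∀ i, frLead W (γ i) (f i)) :
    frLead W (∑ i ∈ s, γ i) (∏ i ∈ s, f i) := by
  classical
  induction s using Finset.induction_on with
  | empty =>
    rw [Finset.sum_empty, Finset.prod_empty]
    exact frLead_one W
  | insert i s hi ih =>
    rw [Finset.sum_insert hi, Finset.prod_insert hi]
    exact frLead_mul (hf i) ih

private def frY (a : Fin m → ℕ) (g : Fin m → MvPolynomial (Fin m) R) (i : Fin m) :
    MvPolynomial (Fin m) R := X i ^ a i - g i

private def frB (a : Fin m → ℕ) (g : Fin m → MvPolynomial (Fin m) R) (γ : Fin m →₀ ℕ) :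
    MvPolynomial (Fin m) R := ∏ i, (frY a g i ^ (γ i / a i) * X i ^ (γ i % a i))

private theorem frB_lead {a : Fin m → ℕ} {W : Fin m → ℕ} {g : Fin m → MvPolynomial (Fin m) R}
    (hg : ∀ i, ∀ γ ∈ (g i).support, ∑ j, γ j * W j < a i * W i) (γ : Fin m →₀ ℕ) :
    frLead W γ (frB a g γ) := by
  have hY : ∀ i, frLead W (Finsupp.single i (a i)) (frY a g i) := by
    intro i
    unfold frLead frY
    rw [X_pow_eq_monomial, sub_sub_cancel_left, frW_single]
    intro δ hδ
    rw [coeff_neg, neg_eq_zero]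
    by_contra h1
    have h2 := hg i δ (mem_support_iff.2 h1)
    unfold frW at hδ
    omega
  have hX : ∀ i, frLead W (Finsupp.single i 1) (X i : MvPolynomial (Fin m) R) := by
    intro i
    unfold frLead
    intro δ _
    have h1 : (X i : MvPolynomial (Fin m) R) - monomial (Finsupp.single i 1) 1 = 0 := sub_self _
    rw [h1, coeff_zero]
  have h1 : frLead W (∑ i, ((γ i / a i) • Finsupp.single i (a i) +
      (γ i % a i) • Finsupp.single i 1)) (frB a g γ) :=
    frLead_prod Finset.univ fun i => frLead_mul (frLead_pow (hY i) _) (frLead_pow (hX i) _)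
  have h2 : ∑ i, ((γ i / a i) • Finsupp.single i (a i) +
      (γ i % a i) • Finsupp.single i 1 : Fin m →₀ ℕ) = γ := by
    have h3 : ∀ i, ((γ i / a i) • Finsupp.single i (a i) +
        (γ i % a i) • Finsupp.single i 1 : Fin m →₀ ℕ) = Finsupp.single i (γ i) := by
      intro i
      rw [Finsupp.smul_single, Finsupp.smul_single, ← Finsupp.single_add, smul_eq_mul, smul_eq_mul,
        mul_one, mul_comm, Nat.div_add_mod]
    rw [Finset.sum_congr rfl fun i _ => h3 i]
    exact Finsupp.univ_sum_single γ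
  rwa [h2] at h1

private def frPhi (a : Fin m → ℕ) (g : Fin m → MvPolynomial (Fin m) R) :
    MvPolynomial (Fin m) R →ₗ[R] MvPolynomial (Fin m) R :=
  (basisMonomials (Fin m) R).constr R (frB a g)

private theorem frPhi_monomial (a : Fin m → ℕ) (g : Fin m → MvPolynomial (Fin m) R)
    (γ : Fin m →₀ ℕ) (c : R) : frPhi a g (monomial γ c) = c • frB a g γ := by
  have h1 : (monomial γ c : MvPolynomial (Fin m) R) = c • basisMonomials (Fin m) R γ := by
    rw [coe_basisMonomials, smul_monomial, smul_eq_mul, mul_one]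
  rw [h1, map_smul]
  unfold frPhi
  rw [Module.Basis.constr_basis]

private theorem frPhi_eq (a : Fin m → ℕ) (g : Fin m → MvPolynomial (Fin m) R)
    (f : MvPolynomial (Fin m) R) :
    frPhi a g f = ∑ γ ∈ f.support, coeff γ f • frB a g γ := by
  conv_lhs => rw [f.as_sum]
  rw [map_sum]
  exact Finset.sum_congr rfl fun γ _ => frPhi_monomial a g γ _

private theorem frPhi_inj {a : Fin m → ℕ} {W : Fin m → ℕ} {g : Fin m → MvPolynomial (Fin m) R}
    (hg : ∀ i, ∀ γ ∈ (g i).support, ∑ j, γ j * W j < a i * W i) {f : MvPolynomial (Fin m) R}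
    (h : frPhi a g f = 0) : f = 0 := by
  classical
  by_contra hf
  obtain ⟨γ, hγ, hmax⟩ := Finset.exists_max_image f.support (frW W) (support_nonempty.2 hf)
  have h1 := congrArg (coeff γ) h
  rw [frPhi_eq, coeff_sum, coeff_zero, Finset.sum_eq_single γ] at h1
  · rw [coeff_smul, smul_eq_mul] at h1
    have h2 : coeff γ (frB a g γ - monomial γ 1) = 0 := frB_lead hg γ γ le_rfl
    rw [coeff_sub, coeff_monomial, if_pos rfl, sub_eq_zero] at h2
    rw [h2, mul_one] at h1
    exact (mem_support_iff.1 hγ) h1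
  · intro δ hδ hne
    have h2 : coeff γ (frB a g δ - monomial δ 1) = 0 := frB_lead hg δ γ (hmax δ hδ)
    rw [coeff_sub, coeff_monomial, if_neg hne, sub_zero] at h2
    rw [coeff_smul, h2, smul_zero]
  · intro h2
    exact absurd hγ h2

private theorem frPhi_surj {a : Fin m → ℕ} {W : Fin m → ℕ} {g : Fin m → MvPolynomial (Fin m) R}
    (hg : ∀ i, ∀ γ ∈ (g i).support, ∑ j, γ j * W j < a i * W i) (f : MvPolynomial (Fin m) R) :
    ∃ h, frPhi a g h = f := by
  classical
  have key : ∀ n, ∀ f : MvPolynomial (Fin m) R, frLow W n f → ∃ h, frPhi a g h = f := by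
    intro n
    induction n with
    | zero =>
      intro f hf
      refine ⟨0, ?_⟩
      rw [map_zero]
      ext γ
      rw [coeff_zero, hf γ (Nat.zero_le _)]
    | succ n ih =>
      intro f hf
      have h1 : ∀ γ ∈ f.support, ∃ h, frPhi a g h = monomial γ (coeff γ f) := by
        intro γ hγ
        have h2 : frW W γ ≤ n := by
          by_contra h3
          exact (mem_support_iff.1 hγ) (hf γ (by omega))
        obtain ⟨h, hh⟩ := ih _ (frLow_mono h2 (frB_lead hg γ))
        refine ⟨coeff γ f • (monomial γ 1 - h), ?_⟩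
        rw [map_smul, map_sub, hh, frPhi_monomial, one_smul, sub_sub_cancel, smul_monomial,
          smul_eq_mul, mul_one]
      choose! h hh using h1
      refine ⟨∑ γ ∈ f.support, h γ, ?_⟩
      rw [map_sum, Finset.sum_congr rfl hh]
      exact f.as_sum.symm
  refine key (f.support.sup (frW W) + 1) f fun γ hγ => ?_
  by_contra h1
  have h2 := Finset.le_sup (f := frW W) (mem_support_iff.2 h1)
  omega

/-- multiplication by `Y i` -/
private theorem frPhi_mul {a : Fin m → ℕ} (ha : ∀ i, 1 ≤ a i)
    {g : Fin m → MvPolynomial (Fin m) R} (i : Fin m) (f : MvPolynomial (Fin m) R) :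
    frY a g i * frPhi a g f = frPhi a g (X i ^ a i * f) := by
  classical
  have hB : ∀ γ, frB a g (Finsupp.single i (a i) + γ) = frY a g i * frB a g γ := by
    intro γ
    unfold frB
    rw [← Finset.mul_prod_erase _ _ (Finset.mem_univ i),
      ← Finset.mul_prod_erase Finset.univ (fun i => frY a g i ^ (γ i / a i) * X i ^ (γ i % a i))
        (Finset.mem_univ i)]
    have h1 : (Finsupp.single i (a i) + γ) i = a i + γ i := by
      rw [Finsupp.add_apply, Finsupp.single_eq_same]
    rw [h1, Nat.add_div_left _ (ha i), Nat.add_mod_left, pow_succ]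
    have h2 : ∏ x ∈ Finset.univ.erase i, frY a g x ^ ((Finsupp.single i (a i) + γ) x / a x) *
        X x ^ ((Finsupp.single i (a i) + γ) x % a x) =
        ∏ x ∈ Finset.univ.erase i, frY a g x ^ (γ x / a x) * X x ^ (γ x % a x) := by
      refine Finset.prod_congr rfl fun x hx => ?_
      have h3 : (Finsupp.single i (a i) + γ) x = γ x := by
        rw [Finsupp.add_apply, Finsupp.single_eq_of_ne (Finset.ne_of_mem_erase hx), zero_add]
      rw [h3]
    rw [h2]
    ring
  have h1 : X i ^ a i * f = ∑ γ ∈ f.support, monomial (Finsupp.single i (a i) + γ) (coeff γ f) := by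
    conv_lhs => rw [f.as_sum]
    rw [Finset.mul_sum]
    refine Finset.sum_congr rfl fun γ _ => ?_
    rw [X_pow_eq_monomial, monomial_mul, one_mul]
  rw [h1, map_sum, frPhi_eq, Finset.mul_sum]
  refine Finset.sum_congr rfl fun γ _ => ?_
  rw [frPhi_monomial, hB, mul_smul_comm]

private def frE {a : Fin m → ℕ} (α : Idx a) : Fin m →₀ ℕ :=
  Finsupp.equivFunOnFinite.symm fun i => (α i : ℕ)

private theorem frE_apply {a : Fin m → ℕ} (α : Idx a) (i : Fin m) : frE α i = (α i : ℕ) := rfl

private theorem frE_inj {a : Fin m → ℕ} {α β : Idx a} (h : frE α = frE β) : α = β := by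
  funext i
  apply Fin.ext
  have := DFunLike.congr_fun h i
  rwa [frE_apply, frE_apply] at this

private theorem frB_red {a : Fin m → ℕ} {g : Fin m → MvPolynomial (Fin m) R} {γ : Fin m →₀ ℕ}
    (h : ∀ i, γ i < a i) : frB a g γ = monomial γ 1 := by
  unfold frB
  have h1 : ∀ i, frY a g i ^ (γ i / a i) * X i ^ (γ i % a i) = X i ^ γ i := by
    intro i
    rw [Nat.div_eq_of_lt (h i), Nat.mod_eq_of_lt (h i), pow_zero, one_mul]
  rw [Finset.prod_congr rfl fun i _ => h1 i, monomial_eq, C_1, one_mul,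
    Finsupp.prod_fintype _ _ fun _ => pow_zero _]

private theorem frE_monomial {a : Fin m → ℕ} (α : Idx a) :
    (∏ i, X i ^ (α i : ℕ) : MvPolynomial (Fin m) R) = monomial (frE α) 1 := by
  rw [monomial_eq, C_1, one_mul, Finsupp.prod_fintype _ _ fun _ => pow_zero _]
  rfl

end

theorem exists_basis {R : Type} [CommRing R] {m : ℕ} (a : Fin m → ℕ) (ha : ∀ i, 1 ≤ a i)
    (W : Fin m → ℕ) (hW : ∀ i, 1 ≤ W i) (g : Fin m → MvPolynomial (Fin m) R)
    (hg : ∀ i, ∀ γ ∈ (g i).support, ∑ j, γ j * W j < a i * W i) :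
    ∃ b : Module.Basis (Idx a) R (MvPolynomial (Fin m) R ⧸ sysIdeal a g),
      ∀ α : Idx a, b α = Ideal.Quotient.mk (sysIdeal a g) (∏ i, X i ^ (α i : ℕ)) := by
  classical
  have _ := hW
  have hmkY : ∀ i, frY a g i ∈ sysIdeal a g := fun i => Ideal.subset_span ⟨i, rfl⟩
  -- linear independence
  have hli : LinearIndependent R fun α : Idx a =>
      Ideal.Quotient.mk (sysIdeal a g) (∏ i, X i ^ (α i : ℕ)) := by
    rw [Fintype.linearIndependent_iff]
    intro c hc α
    have h1 : Ideal.Quotient.mk (sysIdeal a g) (∑ α : Idx a, monomial (frE α) (c α)) = 0 := by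
      rw [← hc, map_sum]
      refine Finset.sum_congr rfl fun α _ => ?_
      rw [frE_monomial]
      have h2 : (monomial (frE α) (c α) : MvPolynomial (Fin m) R) =
          c α • monomial (frE α) 1 := by
        rw [smul_monomial, smul_eq_mul, mul_one]
      rw [h2]
      rfl
    rw [Ideal.Quotient.eq_zero_iff_mem] at h1
    unfold sysIdeal at h1
    rw [Ideal.mem_span_range_iff_exists_fun] at h1
    obtain ⟨f, hf⟩ := h1
    choose F hF using fun i => frPhi_surj hg (f i)
    have h3 : frPhi a g (∑ i, X i ^ a i * F i) = ∑ α : Idx a, monomial (frE α) (c α) := by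
      rw [← hf, map_sum]
      refine Finset.sum_congr rfl fun i _ => ?_
      rw [← frPhi_mul ha, hF, mul_comm]
      rfl
    have h4 : frPhi a g (∑ α : Idx a, monomial (frE α) (c α)) =
        ∑ α : Idx a, monomial (frE α) (c α) := by
      rw [map_sum]
      refine Finset.sum_congr rfl fun α _ => ?_
      rw [frPhi_monomial, frB_red fun i => (α i).2, smul_monomial, smul_eq_mul, mul_one]
    have h5 : frPhi a g ((∑ i, X i ^ a i * F i) - ∑ α : Idx a, monomial (frE α) (c α)) = 0 := by
      rw [map_sub, h3, h4, sub_self]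
    have h6 := frPhi_inj hg h5
    have h7 := congrArg (coeff (frE α)) h6
    rw [coeff_sub, coeff_zero, coeff_sum, coeff_sum] at h7
    have h8 : ∑ i, coeff (frE α) (X i ^ a i * F i) = 0 := by
      refine Finset.sum_eq_zero fun i _ => ?_
      rw [X_pow_eq_monomial, coeff_monomial_mul', if_neg]
      rw [Finsupp.single_le_iff, frE_apply]
      exact not_le.2 (α i).2
    have h9 : ∑ β : Idx a, coeff (frE α) (monomial (frE β) (c β)) = c α := by
      rw [Finset.sum_eq_single α]
      · rw [coeff_monomial, if_pos rfl]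
      · intro β _ hβ
        rw [coeff_monomial, if_neg fun h => hβ (frE_inj h)]
      · intro h
        exact absurd (Finset.mem_univ α) h
    rw [h8, h9, zero_sub, neg_eq_zero] at h7
    exact h7
  -- span
  have hsp : ⊤ ≤ Submodule.span R (Set.range fun α : Idx a =>
      Ideal.Quotient.mk (sysIdeal a g) (∏ i, X i ^ (α i : ℕ))) := by
    intro y _
    obtain ⟨f, rfl⟩ := Ideal.Quotient.mk_surjective y
    obtain ⟨h, hh⟩ := frPhi_surj hg f
    rw [← hh, frPhi_eq, map_sum]
    refine Submodule.sum_mem _ fun γ _ => ?_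
    have h1 : Ideal.Quotient.mk (sysIdeal a g) (coeff γ h • frB a g γ) =
        coeff γ h • Ideal.Quotient.mk (sysIdeal a g) (frB a g γ) := rfl
    rw [h1]
    refine Submodule.smul_mem _ _ ?_
    by_cases hγ : ∀ i, γ i < a i
    · refine Submodule.subset_span ⟨fun i => ⟨γ i, hγ i⟩, ?_⟩
      show Ideal.Quotient.mk (sysIdeal a g)
        (∏ i, X i ^ (((fun i => ⟨γ i, hγ i⟩ : Idx a) i : Fin (a i)) : ℕ)) = _
      rw [frE_monomial, frB_red hγ]
      have h2 : frE (fun i => ⟨γ i, hγ i⟩ : Idx a) = γ := by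
        ext i
        rfl
      rw [h2]
    · push Not at hγ
      obtain ⟨i, hi⟩ := hγ
      have h2 : frB a g γ ∈ sysIdeal a g := by
        unfold frB
        rw [← Finset.mul_prod_erase _ _ (Finset.mem_univ i)]
        refine Ideal.mul_mem_right _ _ (Ideal.mul_mem_right _ _ ?_)
        have h3 : 0 < γ i / a i := Nat.div_pos hi (ha i)
        exact Ideal.pow_mem_of_mem _ (hmkY i) _ h3
      rw [Ideal.Quotient.eq_zero_iff_mem.2 h2]
      exact Submodule.zero_mem _
  exact ⟨Module.Basis.mk hli hsp, fun α => Module.Basis.mk_apply hli hsp α⟩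

end Pool.Agent.H5.DG

end
end
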