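import Pool.Agent.H94.DG.M01
import Pool.Agent.H94.DG.M04
import Pool.Agent.H94.DG.M15

/-! The parts of this file: H5.DG.NADeg, H5.DG.NAZero, H92.GGL.NevMero, H62.FC.CharMero. -/

section

/-!
# Project DG, A2: degrees of the determinant

The entry `(β, α)` of the matrix is a polynomial in `u` whose coefficients are homogeneous of degree `1`
in `v`, and all of whose monomials `v ^ γ u ^ b` satisfy `γ 0 + b ≤ 1 + w α - w β` (as integers). Both properties are
multiplicative; in the expansion of the determinant the sum of the bounds over `α` (with `β = σ α`) is `card ι`.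
-/

open MvPolynomial

noncomputable section

namespace Pool.Agent.H5.DG

private def PP {n : ℕ} (k : ℕ) (d : ℤ) (p : Polynomial (PV n)) : Prop :=
  (∀ i, (p.coeff i).IsHomogeneous k) ∧
    ∀ i, ∀ γ ∈ (p.coeff i).support, ((γ 0 : ℕ) : ℤ) + (i : ℤ) ≤ d

private lemma pp_zero {n : ℕ} (k : ℕ) (d : ℤ) : PP k d (0 : Polynomial (PV n)) := by
  refine ⟨fun i => ?_, fun i γ hγ => ?_⟩
  · simpa using MvPolynomial.isHomogeneous_zero _ _ _
  · simp at hγ

private lemma pp_add {n : ℕ} {k : ℕ} {d : ℤ} {p q : Polynomial (PV n)} (hp : PP k d p)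
    (hq : PP k d q) : PP k d (p + q) := by
  refine ⟨fun i => ?_, fun i γ hγ => ?_⟩
  · rw [Polynomial.coeff_add]; exact (hp.1 i).add (hq.1 i)
  · rw [Polynomial.coeff_add] at hγ
    rcases Finset.mem_union.1 (MvPolynomial.support_add hγ) with h | h
    · exact hp.2 i γ h
    · exact hq.2 i γ h

private lemma pp_neg {n : ℕ} {k : ℕ} {d : ℤ} {p : Polynomial (PV n)} (hp : PP k d p) :
    PP k d (-p) := by
  refine ⟨fun i => ?_, fun i γ hγ => ?_⟩
  · rw [Polynomial.coeff_neg]; exact (hp.1 i).neg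
  · rw [Polynomial.coeff_neg, MvPolynomial.support_neg] at hγ
    exact hp.2 i γ hγ

private lemma pp_sum {n : ℕ} {k : ℕ} {d : ℤ} {σ : Type} (s : Finset σ)
    (f : σ → Polynomial (PV n)) (h : ∀ x ∈ s, PP k d (f x)) : PP k d (∑ x ∈ s, f x) := by
  classical
  induction s using Finset.induction_on with
  | empty => simpa using pp_zero k d
  | insert a s ha ih =>
    rw [Finset.sum_insert ha]
    exact pp_add (h a (Finset.mem_insert_self a s))
      (ih fun x hx => h x (Finset.mem_insert_of_mem hx))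

private lemma pp_coeff_sum_aux {n : ℕ} {σ : Type} (s : Finset σ) (f : σ → PV n)
    (γ : Fin (n + 2) →₀ ℕ) (h : γ ∈ (∑ x ∈ s, f x).support) : ∃ x ∈ s, γ ∈ (f x).support := by
  classical
  have := MvPolynomial.support_sum (s := s) (f := f) h
  simpa using this

private lemma pp_mul {n : ℕ} {k l : ℕ} {d e : ℤ} {p q : Polynomial (PV n)} (hp : PP k d p)
    (hq : PP l e q) : PP (k + l) (d + e) (p * q) := by
  classical
  refine ⟨fun i => ?_, fun i γ hγ => ?_⟩
  · rw [Polynomial.coeff_mul]
    exact MvPolynomial.IsHomogeneous.sum _ _ _ fun x _ => (hp.1 _).mul (hq.1 _)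
  · rw [Polynomial.coeff_mul] at hγ
    obtain ⟨x, hx, hγ'⟩ := pp_coeff_sum_aux _ _ _ hγ
    have h1 := MvPolynomial.support_mul _ _ hγ'
    obtain ⟨a, ha, b, hb, hab⟩ := Finset.mem_add.1 h1
    have h2 := hp.2 _ a ha
    have h3 := hq.2 _ b hb
    have h4 : x.1 + x.2 = i := Finset.HasAntidiagonal.mem_antidiagonal.1 hx
    subst hab
    rw [← h4, Finsupp.add_apply]
    push_cast
    linarith

private lemma pp_one {n : ℕ} : PP 0 0 (1 : Polynomial (PV n)) := by
  refine ⟨fun i => ?_, fun i γ hγ => ?_⟩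
  · rw [Polynomial.coeff_one]
    split_ifs
    · exact MvPolynomial.isHomogeneous_one _ _
    · exact MvPolynomial.isHomogeneous_zero _ _ _
  · rw [Polynomial.coeff_one] at hγ
    split_ifs at hγ with h
    · rw [MvPolynomial.support_one] at hγ
      rw [Finset.mem_singleton] at hγ
      subst hγ
      subst h
      simp
    · simp at hγ

private lemma pp_prod {n : ℕ} {σ : Type} (s : Finset σ) (k : σ → ℕ) (d : σ → ℤ)
    (f : σ → Polynomial (PV n)) (h : ∀ x ∈ s, PP (k x) (d x) (f x)) :
    PP (∑ x ∈ s, k x) (∑ x ∈ s, d x) (∏ x ∈ s, f x) := by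
  classical
  induction s using Finset.induction_on with
  | empty => simpa using pp_one
  | insert a s ha ih =>
    rw [Finset.prod_insert ha, Finset.sum_insert ha, Finset.sum_insert ha]
    exact pp_mul (h a (Finset.mem_insert_self a s))
      (ih fun x hx => h x (Finset.mem_insert_of_mem hx))

private lemma pp_CX {n : ℕ} (j : Fin (n + 2)) (r : Polynomial ℂ) (d : ℤ)
    (hr : ∀ i, r.coeff i ≠ 0 → (((if j = 0 then 1 else 0 : ℕ) : ℕ) : ℤ) + (i : ℤ) ≤ d) :
    PP 1 d (Polynomial.C (MvPolynomial.X j) * r.map MvPolynomial.C : Polynomial (PV n)) := by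
  classical
  have hc : ∀ i, (Polynomial.C (MvPolynomial.X j) * r.map MvPolynomial.C :
      Polynomial (PV n)).coeff i = MvPolynomial.monomial (Finsupp.single j 1) (r.coeff i) := by
    intro i
    rw [Polynomial.coeff_C_mul, Polynomial.coeff_map, mul_comm, MvPolynomial.C_mul_X_eq_monomial]
  refine ⟨fun i => ?_, fun i γ hγ => ?_⟩
  · rw [hc]
    exact MvPolynomial.isHomogeneous_monomial _ (Finsupp.degree_single _ _)
  · rw [hc] at hγ
    have h0 : r.coeff i ≠ 0 := by
      intro h0
      rw [h0] at hγ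
      simp at hγ
    have h1 := MvPolynomial.support_monomial_subset hγ
    rw [Finset.mem_singleton] at h1
    subst h1
    have h2 := hr i h0
    rw [Finsupp.single_apply]
    exact h2

theorem na_hom_deg {n : ℕ} {ι : Type} [Fintype ι] [DecidableEq ι]
    (U : Fin n → Matrix ι ι (Polynomial ℂ)) (w : ι → ℕ)
    (hU : ∀ i α β, U i β α ≠ 0 → (U i β α).natDegree + w β ≤ 1 + w α) :
    (∀ i, ((NA U).coeff i).IsHomogeneous (Fintype.card ι)) ∧
    ∀ i, ∀ γ ∈ ((NA U).coeff i).support, γ 0 + i ≤ Fintype.card ι := by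
  classical
  have key : PP (Fintype.card ι) (Fintype.card ι : ℤ) (NA U) := by
    unfold NA
    rw [Matrix.det_apply]
    refine pp_sum _ _ fun σ _ => ?_
    have hprod : PP (Fintype.card ι) (Fintype.card ι : ℤ)
        (∏ i : ι, (Matrix.of fun α β : ι =>
          (if α = β then Polynomial.C (MvPolynomial.X 0) +
            Polynomial.C (MvPolynomial.X 1) * Polynomial.X else 0) +
          ∑ i : Fin n, Polynomial.C (MvPolynomial.X i.succ.succ) *
            (U i α β).map MvPolynomial.C : Matrix ι ι (Polynomial (PV n))) (σ i) i) := by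
      have h1 := pp_prod (n := n) (Finset.univ : Finset ι) (fun _ => 1)
        (fun i => 1 + (w i : ℤ) - (w (σ i) : ℤ)) (fun i => (Matrix.of fun α β : ι =>
          (if α = β then Polynomial.C (MvPolynomial.X 0) +
            Polynomial.C (MvPolynomial.X 1) * Polynomial.X else 0) +
          ∑ i : Fin n, Polynomial.C (MvPolynomial.X i.succ.succ) *
            (U i α β).map MvPolynomial.C : Matrix ι ι (Polynomial (PV n))) (σ i) i) ?_
      · have h2 : (∑ _x : ι, 1 : ℕ) = Fintype.card ι := by simp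
        have h3 : (∑ i : ι, (1 + (w i : ℤ) - (w (σ i) : ℤ))) = (Fintype.card ι : ℤ) := by
          rw [Finset.sum_sub_distrib, Finset.sum_add_distrib,
            Equiv.sum_comp σ (fun i => (w i : ℤ))]
          simp
        rw [h2, h3] at h1
        exact h1
      · intro i _
        rw [Matrix.of_apply]
        refine pp_add ?_ ?_
        · split_ifs with h
          · rw [h]
            refine pp_add ?_ ?_
            · have := pp_CX (n := n) 0 (1 : Polynomial ℂ) (1 + (w i : ℤ) - (w i : ℤ)) (by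
                intro j hj
                rw [Polynomial.coeff_one] at hj
                split_ifs at hj with h
                · subst h; simp
                · exact absurd rfl hj)
              simpa using this
            · have := pp_CX (n := n) 1 (Polynomial.X : Polynomial ℂ) (1 + (w i : ℤ) - (w i : ℤ)) (by
                intro j hj
                rw [Polynomial.coeff_X] at hj
                split_ifs at hj with h
                · subst h; simp
                · exact absurd rfl hj)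
              simpa using this
          · exact pp_zero _ _
        · refine pp_sum _ _ fun j _ => ?_
          refine pp_CX _ _ _ ?_
          intro t ht
          have h0 : U j (σ i) i ≠ 0 := by
            intro h0
            rw [h0] at ht
            simp at ht
          have h1 := hU j i (σ i) h0
          have h2 : t ≤ (U j (σ i) i).natDegree := Polynomial.le_natDegree_of_ne_zero ht
          have h3 : (if (j.succ.succ : Fin (n + 2)) = 0 then 1 else 0 : ℕ) = 0 := by
            rw [if_neg (Fin.succ_ne_zero _)]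
          rw [h3]
          push_cast
          have h4 : t + w (σ i) ≤ 1 + w i := by omega
          have h5 : (t : ℤ) + (w (σ i) : ℤ) ≤ 1 + (w i : ℤ) := by exact_mod_cast h4
          linarith
    rcases Int.units_eq_one_or (Equiv.Perm.sign σ) with hs | hs
    · rw [hs, one_smul]; exact hprod
    · rw [hs, Units.neg_smul, one_smul]; exact pp_neg hprod
  refine ⟨key.1, fun i γ hγ => ?_⟩
  have := key.2 i γ hγ
  exact_mod_cast this

end Pool.Agent.H5.DG

end
end

section

/-!
# Project DG, A2: the zeros of the determinant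

`val (NA U) v u` is the determinant of `A = (v 0 + v 1 u) 1 + ∑ v (i + 2) U i (u)`. If it vanishes, the kernel of `A` is
not zero and invariant under the commuting matrices `U i (u)`, so it contains a common eigenvector
(`L` algebraically closed; e.g. by induction on the number of matrices, or
`Module.End.exists_hasEigenvalue` on successive eigenspaces). Conversely `A y = (v 0 + v 1 u + ∑ v (i + 2) x i) y`.
Finiteness: each `x i` is an eigenvalue of `U i (u)`.
-/

open MvPolynomial

noncomputable section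

namespace Pool.Agent.H5.DG

/-- The matrix whose determinant is `val (NA U) v u`. -/
private def AA {n : ℕ} {ι : Type} [Fintype ι] [DecidableEq ι]
    (U : Fin n → Matrix ι ι (Polynomial ℂ)) {L : Type} [Field L] [Algebra ℂ L]
    (v : Fin (n + 2) → L) (u : L) : Matrix ι ι L :=
  Matrix.of fun α β : ι => (if α = β then v 0 + v 1 * u else 0) +
    ∑ i : Fin n, v i.succ.succ * Polynomial.aeval u (U i α β)

private lemma val_NA {n : ℕ} {ι : Type} [Fintype ι] [DecidableEq ι]
    (U : Fin n → Matrix ι ι (Polynomial ℂ)) {L : Type} [Field L] [Algebra ℂ L]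
    (v : Fin (n + 2) → L) (u : L) : val (NA U) v u = (AA U v u).det := by
  have h1 : val (NA U) v u = ((Polynomial.evalRingHom u).comp
      (Polynomial.mapRingHom (MvPolynomial.aeval v : PV n →ₐ[ℂ] L).toRingHom)) (NA U) := rfl
  rw [h1]
  unfold NA
  rw [RingHom.map_det]
  congr 1
  ext α β
  rw [RingHom.mapMatrix_apply, Matrix.map_apply, Matrix.of_apply]
  unfold AA
  rw [Matrix.of_apply, map_add, map_sum]
  have hc : ∀ j : Fin (n + 2), ((Polynomial.evalRingHom u).comp
      (Polynomial.mapRingHom (MvPolynomial.aeval v : PV n →ₐ[ℂ] L).toRingHom))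
      (Polynomial.C (MvPolynomial.X j)) = v j := by
    intro j
    simp
  congr 1
  · split_ifs with h
    · rw [map_add, map_mul, hc, hc]
      simp
    · exact map_zero _
  · refine Finset.sum_congr rfl fun i _ => ?_
    rw [map_mul, hc]
    congr 1
    have h2 : ((Polynomial.evalRingHom u).comp
      (Polynomial.mapRingHom (MvPolynomial.aeval v : PV n →ₐ[ℂ] L).toRingHom))
      ((U i α β).map MvPolynomial.C) = (((U i α β).map MvPolynomial.C).map
        (MvPolynomial.aeval v : PV n →ₐ[ℂ] L).toRingHom).eval u := rfl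
    rw [h2, Polynomial.map_map, Polynomial.aeval_def, Polynomial.eval_map]
    congr 1
    ext z
    simp

/-- The matrix `U i` at `u`. -/
private def BB {n : ℕ} {ι : Type} [Fintype ι] [DecidableEq ι]
    (U : Fin n → Matrix ι ι (Polynomial ℂ)) {L : Type} [Field L] [Algebra ℂ L]
    (u : L) (i : Fin n) : Matrix ι ι L := (Polynomial.aeval u : Polynomial ℂ →ₐ[ℂ] L).toRingHom.mapMatrix (U i)

private lemma AA_eq {n : ℕ} {ι : Type} [Fintype ι] [DecidableEq ι]
    (U : Fin n → Matrix ι ι (Polynomial ℂ)) {L : Type} [Field L] [Algebra ℂ L]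
    (v : Fin (n + 2) → L) (u : L) :
    AA U v u = (v 0 + v 1 * u) • (1 : Matrix ι ι L) + ∑ i : Fin n, v i.succ.succ • BB U u i := by
  ext α β
  rw [Matrix.add_apply, Matrix.sum_apply, Matrix.smul_apply, Matrix.one_apply]
  unfold AA
  rw [Matrix.of_apply]
  congr 1
  split_ifs <;> simp

private lemma AA_mulVec {n : ℕ} {ι : Type} [Fintype ι] [DecidableEq ι]
    (U : Fin n → Matrix ι ι (Polynomial ℂ)) {L : Type} [Field L] [Algebra ℂ L]
    (v : Fin (n + 2) → L) (u : L) (y : ι → L) :
    (AA U v u).mulVec y = (v 0 + v 1 * u) • y +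
      ∑ i : Fin n, v i.succ.succ • (BB U u i).mulVec y := by
  rw [AA_eq, Matrix.add_mulVec, Matrix.smul_mulVec, Matrix.one_mulVec, Matrix.sum_mulVec]
  congr 1
  exact Finset.sum_congr rfl fun i _ => Matrix.smul_mulVec _ _ _

private lemma AA_vecMul {n : ℕ} {ι : Type} [Fintype ι] [DecidableEq ι]
    (U : Fin n → Matrix ι ι (Polynomial ℂ)) {L : Type} [Field L] [Algebra ℂ L]
    (v : Fin (n + 2) → L) (u : L) (y : ι → L) :
    Matrix.vecMul y (AA U v u) = (v 0 + v 1 * u) • y +
      ∑ i : Fin n, v i.succ.succ • Matrix.vecMul y (BB U u i) := by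
  rw [AA_eq, Matrix.vecMul_add, Matrix.vecMul_smul, Matrix.vecMul_one, Matrix.vecMul_sum]
  congr 1
  exact Finset.sum_congr rfl fun i _ => Matrix.vecMul_smul _ _ _

private lemma eig_iff {n : ℕ} {ι : Type} [Fintype ι] [DecidableEq ι]
    (U : Fin n → Matrix ι ι (Polynomial ℂ)) {L : Type} [Field L] [Algebra ℂ L]
    (u : L) (x : Fin n → L) (y : ι → L) :
    Eig U u x y ↔ y ≠ 0 ∧ ∀ i, (BB U u i).mulVec y = x i • y := by
  unfold Eig
  refine and_congr_right fun _ => forall_congr' fun i => ?_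
  rw [funext_iff]
  exact Iff.rfl

/-- Common eigenvectors of commuting endomorphisms in an invariant subspace. -/
private lemma common_eig {L V : Type} [Field L] [IsAlgClosed L] [AddCommGroup V] [Module L V]
    [FiniteDimensional L V] {n : ℕ} (f : Fin n → Module.End L V)
    (hf : ∀ i j y, f i (f j y) = f j (f i y)) (E : Submodule L V)
    (hE : ∀ i, ∀ y ∈ E, f i y ∈ E) (hE0 : E ≠ ⊥) (s : Finset (Fin n)) :
    ∃ (x : Fin n → L) (y : V), y ∈ E ∧ y ≠ 0 ∧ ∀ i ∈ s, f i y = x i • y := by
  classical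
  induction s using Finset.induction_on with
  | empty =>
    obtain ⟨y, hy, hy0⟩ := Submodule.exists_mem_ne_zero_of_ne_bot hE0
    exact ⟨0, y, hy, hy0, fun i hi => absurd hi (Finset.notMem_empty i)⟩
  | insert a s ha ih =>
    obtain ⟨x, y, hy, hy0, hs⟩ := ih
    let G : Submodule L V :=
      { carrier := {z | z ∈ E ∧ ∀ i ∈ s, f i z = x i • z}
        add_mem' := by
          rintro z z' ⟨h1, h2⟩ ⟨h3, h4⟩
          refine ⟨E.add_mem h1 h3, fun i hi => ?_⟩
          rw [map_add, h2 i hi, h4 i hi, smul_add]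
        zero_mem' := ⟨E.zero_mem, fun i _ => by rw [map_zero, smul_zero]⟩
        smul_mem' := by
          rintro c z ⟨h1, h2⟩
          refine ⟨E.smul_mem c h1, fun i hi => ?_⟩
          rw [map_smul, h2 i hi, smul_comm] }
    have hG : ∀ z ∈ G, f a z ∈ G := by
      rintro z ⟨h1, h2⟩
      refine ⟨hE a z h1, fun i hi => ?_⟩
      rw [hf i a z, h2 i hi, map_smul]
    have hyG : y ∈ G := ⟨hy, hs⟩
    have : Nontrivial G := ⟨⟨⟨y, hyG⟩, 0, fun h => hy0 (congrArg Subtype.val h)⟩⟩
    obtain ⟨c, hc⟩ := Module.End.exists_eigenvalue ((f a).restrict hG)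
    obtain ⟨z, hz⟩ := hc.exists_hasEigenvector
    have hz1 : ((f a).restrict hG) z = c • z := hz.apply_eq_smul
    have hz2 : f a z = c • (z : V) := congrArg Subtype.val hz1
    refine ⟨Function.update x a c, z, z.2.1, ?_, ?_⟩
    · intro h
      exact hz.2 (Subtype.ext h)
    · intro i hi
      rcases Finset.mem_insert.1 hi with h | h
      · subst h
        rw [Function.update_self]
        exact hz2
      · have hne : i ≠ a := fun h' => ha (h' ▸ h)
        rw [Function.update_of_ne hne]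
        exact z.2.2 i h

theorem na_zero {n : ℕ} {ι : Type} [Fintype ι] [DecidableEq ι]
    (U : Fin n → Matrix ι ι (Polynomial ℂ)) (hU : ∀ i j, U i * U j = U j * U i)
    {L : Type} [Field L] [Algebra ℂ L] [IsAlgClosed L] (v : Fin (n + 2) → L) (u : L) :
    val (NA U) v u = 0 ↔ ∃ (x : Fin n → L) (y : ι → L), Eig U u x y ∧
      v 0 + v 1 * u + ∑ i : Fin n, v i.succ.succ * x i = 0 := by
  rw [val_NA, ← Matrix.exists_mulVec_eq_zero_iff]
  have hval : ∀ (x : Fin n → L) (y : ι → L), (∀ i, (BB U u i).mulVec y = x i • y) →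
      (AA U v u).mulVec y = (v 0 + v 1 * u + ∑ i : Fin n, v i.succ.succ * x i) • y := by
    intro x y h
    rw [AA_mulVec, add_smul (v 0 + v 1 * u) (∑ i : Fin n, v i.succ.succ * x i) y,
      Finset.sum_smul]
    congr 1
    refine Finset.sum_congr rfl fun i _ => ?_
    rw [h i, smul_smul]
  constructor
  · rintro ⟨y, hy0, hy⟩
    have hcomm : ∀ i j, BB U u i * BB U u j = BB U u j * BB U u i := by
      intro i j
      unfold BB
      rw [← map_mul, hU, map_mul]
    have hcommA : ∀ i, AA U v u * BB U u i = BB U u i * AA U v u := by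
      intro i
      rw [AA_eq, add_mul, mul_add, Finset.sum_mul, Finset.mul_sum]
      congr 1
      · rw [Matrix.smul_mul, Matrix.mul_smul, one_mul, mul_one]
      · refine Finset.sum_congr rfl fun j _ => ?_
        rw [Matrix.smul_mul, Matrix.mul_smul, hcomm]
    obtain ⟨x, z, hz1, hz2, hz3⟩ := common_eig (fun i => (BB U u i).mulVecLin)
      (by
        intro i j y
        simp only [Matrix.mulVecLin_apply, Matrix.mulVec_mulVec]
        rw [hcomm])
      (LinearMap.ker (AA U v u).mulVecLin)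
      (by
        intro i y hy
        rw [LinearMap.mem_ker, Matrix.mulVecLin_apply] at hy ⊢
        rw [Matrix.mulVecLin_apply, Matrix.mulVec_mulVec, hcommA, ← Matrix.mulVec_mulVec, hy,
          Matrix.mulVec_zero])
      (by
        intro h
        have : y ∈ LinearMap.ker (AA U v u).mulVecLin := by
          rw [LinearMap.mem_ker, Matrix.mulVecLin_apply]; exact hy
        rw [h] at this
        exact hy0 ((Submodule.mem_bot L).1 this)) Finset.univ
    have hz3' : ∀ i, (BB U u i).mulVec z = x i • z := fun i => hz3 i (Finset.mem_univ i)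
    refine ⟨x, z, (eig_iff U u x z).2 ⟨hz2, hz3'⟩, ?_⟩
    rw [LinearMap.mem_ker, Matrix.mulVecLin_apply, hval x z hz3'] at hz1
    exact (smul_eq_zero.1 hz1).resolve_right hz2
  · rintro ⟨x, y, hy, hv⟩
    obtain ⟨hy0, hy1⟩ := (eig_iff U u x y).1 hy
    exact ⟨y, hy0, by rw [hval x y hy1, hv, zero_smul]⟩

/-- A left eigenvector suffices for the converse. -/
theorem na_zero_of_left {n : ℕ} {ι : Type} [Fintype ι] [DecidableEq ι]
    (U : Fin n → Matrix ι ι (Polynomial ℂ)) {L : Type} [Field L] [Algebra ℂ L]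
    (v : Fin (n + 2) → L) (u : L) (x : Fin n → L) (y : ι → L) (hy : y ≠ 0)
    (h : ∀ i α, ∑ β, y β * Polynomial.aeval u (U i β α) = x i * y α)
    (hv : v 0 + v 1 * u + ∑ i : Fin n, v i.succ.succ * x i = 0) :
    val (NA U) v u = 0 := by
  rw [val_NA, ← Matrix.exists_vecMul_eq_zero_iff]
  refine ⟨y, hy, ?_⟩
  have h' : ∀ i, Matrix.vecMul y (BB U u i) = x i • y := by
    intro i
    funext α
    exact h i α
  have h2 : (∑ i : Fin n, v i.succ.succ • Matrix.vecMul y (BB U u i)) =
      (∑ i : Fin n, v i.succ.succ * x i) • y := by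
    rw [Finset.sum_smul]
    refine Finset.sum_congr rfl fun i _ => ?_
    rw [h' i, smul_smul]
  rw [AA_vecMul, h2, ← add_smul, hv, zero_smul]

theorem eig_finite {n : ℕ} {ι : Type} [Fintype ι] [DecidableEq ι]
    (U : Fin n → Matrix ι ι (Polynomial ℂ)) {L : Type} [Field L] [Algebra ℂ L] (u : L) :
    {x : Fin n → L | ∃ y : ι → L, Eig U u x y}.Finite := by
  have h1 : ∀ i : Fin n, {c : L | Module.End.HasEigenvalue (BB U u i).mulVecLin c}.Finite :=
    fun i => Module.End.finite_hasEigenvalue _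
  refine (Set.Finite.pi' h1).subset ?_
  rintro x ⟨y, hy⟩ i
  obtain ⟨hy0, hy1⟩ := (eig_iff U u x y).1 hy
  refine Module.End.hasEigenvalue_of_hasEigenvector (x := y) ⟨?_, hy0⟩
  rw [Module.End.mem_eigenspace_iff, Matrix.mulVecLin_apply]
  exact hy1 i

theorem na_one {n : ℕ} {ι : Type} [Fintype ι] [DecidableEq ι]
    (U : Fin n → Matrix ι ι (Polynomial ℂ)) {L : Type} [Field L] [Algebra ℂ L] (u : L) :
    val (NA U) (Pi.single 0 1 : Fin (n + 2) → L) u = 1 := by
  rw [val_NA, AA_eq]
  have h1 : (Pi.single 0 1 : Fin (n + 2) → L) 1 = 0 :=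
    Pi.single_eq_of_ne (by exact Fin.succ_ne_zero (0 : Fin (n + 1))) _
  have h2 : ∀ i : Fin n, (Pi.single 0 1 : Fin (n + 2) → L) i.succ.succ = 0 := fun i =>
    Pi.single_eq_of_ne (Fin.succ_ne_zero _) _
  rw [h1, Pi.single_eq_same]
  simp only [h2, zero_smul, Finset.sum_const_zero, zero_mul, add_zero, one_smul]
  exact Matrix.det_one

end Pool.Agent.H5.DG

end
end

section

/-!
# A meromorphic function on a punctured disc with characteristic `O (log (1 / r))`
-/

open Complex MeasureTheory Metric Set Topology Filter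

namespace Pool.Agent.H92.GGL

/-- A set of points of a punctured disc with small counting function is finite. -/
lemma finite_of_count {P : Set ℂ} {R₁ C D : ℝ} (hR₁ : 0 < R₁) (hP : ∀ s ∈ P, 0 < ‖s‖)
    (h : ∀ r, 0 < r → r < R₁ → ∀ S : Finset ℂ, (∀ s ∈ S, s ∈ P) →
      ∑ s ∈ S, Real.posLog (‖s‖ / r) ≤ C - D * Real.log r) : P.Finite := by
  by_contra hinf
  obtain ⟨n₀, hn₀⟩ := exists_nat_gt D
  obtain ⟨S, hSP, hScard⟩ := (Set.not_finite.mp hinf).exists_subset_card_eq (n₀ + 1)
  have hSne : S.Nonempty := by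
    rw [← Finset.card_pos, hScard]
    omega
  obtain ⟨s₀, hs₀, hmin⟩ := S.exists_min_image (fun s => ‖s‖) hSne
  set δ := ‖s₀‖ with hδ
  have hδ0 : 0 < δ := hP s₀ (hSP hs₀)
  set n : ℝ := ((n₀ + 1 : ℕ) : ℝ) with hn
  have hnD : 1 < n - D := by
    rw [hn]
    push_cast
    linarith only [hn₀]
  have hnpos : 0 ≤ n := Nat.cast_nonneg _
  set t : ℝ := max (1 + max (-Real.log δ) (-Real.log R₁)) (|C - n * Real.log δ| + 1) with ht
  have ht1 : -Real.log δ < t := by
    have h1 := le_max_left (1 + max (-Real.log δ) (-Real.log R₁)) (|C - n * Real.log δ| + 1)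
    have h2 := le_max_left (-Real.log δ) (-Real.log R₁)
    linarith only [h1, h2]
  have ht2 : -Real.log R₁ < t := by
    have h1 := le_max_left (1 + max (-Real.log δ) (-Real.log R₁)) (|C - n * Real.log δ| + 1)
    have h2 := le_max_right (-Real.log δ) (-Real.log R₁)
    linarith
  have ht3 : |C - n * Real.log δ| + 1 ≤ t := le_max_right _ _
  have hr1 : Real.exp (-t) < R₁ := by
    rw [← Real.exp_log hR₁]
    exact Real.exp_lt_exp.mpr (by linarith only [ht2])
  have hr2 : Real.exp (-t) < δ := by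
    rw [← Real.exp_log hδ0]
    exact Real.exp_lt_exp.mpr (by linarith)
  have h1 := h _ (Real.exp_pos (-t)) hr1 S (fun s hs => hSP hs)
  rw [Real.log_exp] at h1
  have h2 : n * (Real.log δ + t) ≤ ∑ s ∈ S, Real.posLog (‖s‖ / Real.exp (-t)) := by
    have h3 : ∑ _s ∈ S, (Real.log δ + t) = n * (Real.log δ + t) := by
      rw [Finset.sum_const, hScard, nsmul_eq_mul]
    rw [← h3]
    refine Finset.sum_le_sum fun s hs => ?_
    have h4 : δ ≤ ‖s‖ := hmin s hs
    have h5 : Real.log δ + t = Real.log (δ / Real.exp (-t)) := by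
      rw [Real.log_div hδ0.ne' (Real.exp_pos _).ne', Real.log_exp]
      ring
    rw [h5]
    refine le_trans ?_ (le_max_right _ _)
    refine Real.log_le_log (by positivity) ?_
    gcongr
  have h6 : (n - D) * t ≤ C - n * Real.log δ := by linarith only [h1, h2]
  have h7 : t ≤ (n - D) * t := by
    have : 0 ≤ t := by
      have := abs_nonneg (C - n * Real.log δ)
      linarith
    nlinarith only [hnD, this]
  have h8 := le_abs_self (C - n * Real.log δ)
  linarith only [ht3, h1, h2, h7, h8]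

lemma exists_radius {P : Set ℂ} (hP : P.Finite) (h0 : ∀ s ∈ P, 0 < ‖s‖) :
    ∃ ε : ℝ, 0 < ε ∧ ∀ s ∈ P, ε ≤ ‖s‖ := by
  rcases hP.toFinset.eq_empty_or_nonempty with h | h
  · refine ⟨1, one_pos, fun s hs => ?_⟩
    have : s ∈ hP.toFinset := hP.mem_toFinset.mpr hs
    rw [h] at this
    exact absurd this (Finset.notMem_empty s)
  · obtain ⟨s₀, hs₀, hmin⟩ := hP.toFinset.exists_min_image (fun s => ‖s‖) h
    exact ⟨‖s₀‖, h0 s₀ (hP.mem_toFinset.mp hs₀), fun s hs => hmin s (hP.mem_toFinset.mpr hs)⟩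

/-- The order of the difference with a constant. -/
lemma neg_ordZ_sub_const_le {u : ℂ → ℂ} {s c : ℂ} (hu : MeromorphicAt u s)
    (ho : meromorphicOrderAt u s ≠ ⊤) (hc : meromorphicOrderAt (fun z => u z - c) s ≠ ⊤) :
    max (-(ordZ (fun z => u z - c) s : ℝ)) 0 ≤ max (-(ordZ u s : ℝ)) 0 := by
  have h1 : min (meromorphicOrderAt u s) (meromorphicOrderAt (fun _ : ℂ => -c) s) ≤
      meromorphicOrderAt (fun z => u z - c) s := by
    have h2 := meromorphicOrderAt_add hu (MeromorphicAt.const (-c) s)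
    have h3 : (u + fun _ : ℂ => -c) = fun z => u z - c := by
      funext z
      simp [sub_eq_add_neg]
    rwa [h3] at h2
  have h4 : (0 : WithTop ℤ) ≤ meromorphicOrderAt (fun _ : ℂ => -c) s :=
    (analyticAt_const).meromorphicOrderAt_nonneg
  have h5 : min (ordZ u s) 0 ≤ ordZ (fun z => u z - c) s := by
    have h6 : min (meromorphicOrderAt u s) 0 ≤ meromorphicOrderAt (fun z => u z - c) s :=
      (min_le_min_left _ h4).trans h1
    rw [← ordZ_cast ho, ← ordZ_cast hc] at h6
    exact_mod_cast h6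
  have h7 : (min (ordZ u s : ℝ) 0) ≤ ordZ (fun z => u z - c) s := by exact_mod_cast h5
  refine max_le ?_ (le_max_right _ _)
  rcases le_total (ordZ u s : ℝ) 0 with h8 | h8
  · rw [min_eq_left h8] at h7
    exact le_trans (by linarith) (le_max_left _ _)
  · rw [min_eq_right h8] at h7
    exact le_trans (by linarith) (le_max_right _ _)

/-- **Small characteristic implies polynomial growth at the puncture.** -/
theorem growth_of_char {u : ℂ → ℂ} {R₀ R₁ : ℝ} (hR₁0 : 0 < R₁) (hR₁ : R₁ < R₀)
    (hu : ∀ z, 0 < ‖z‖ → ‖z‖ < R₀ → MeromorphicAt u z) {C D : ℝ}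
    (hT : ∀ r, 0 < r → r < R₁ → ∀ S : Finset ℂ, (∀ s ∈ S, 0 < ‖s‖ ∧ ‖s‖ < R₁) →
      Real.circleAverage (fun z => Real.posLog ‖u z‖) 0 r +
        ∑ s ∈ S, max (-(ordZ u s : ℝ)) 0 * Real.posLog (‖s‖ / r) ≤ C - D * Real.log r) :
    ∃ (ε M : ℝ) (m : ℕ), 0 < ε ∧ 0 ≤ M ∧ ∀ z, 0 < ‖z‖ → ‖z‖ < ε →
      0 ≤ meromorphicOrderAt u z ∧ (AnalyticAt ℂ u z → ‖u z‖ * ‖z‖ ^ m ≤ M) := by
  classical
  set Ω : Set ℂ := {z : ℂ | 0 < ‖z‖ ∧ ‖z‖ < R₀} with hΩ
  have hΩo : IsOpen Ω := isOpen_punctured R₀
  have hm : MeromorphicOn u Ω := fun z hz => hu z hz.1 hz.2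
  -- the constant case
  by_cases hconst : ∃ c, ∃ z ∈ Ω, meromorphicOrderAt (fun z => u z - c) z = ⊤
  · obtain ⟨c, z₀, hz₀, hc⟩ := hconst
    have hmc : MeromorphicOn (fun z => u z - c) Ω := fun z hz =>
      (hm z hz).sub (MeromorphicAt.const c z)
    have hall : ∀ z ∈ Ω, meromorphicOrderAt (fun z => u z - c) z = ⊤ := by
      intro z hz
      by_contra h
      exact (hmc.meromorphicOrderAt_ne_top_of_isPreconnected (isPreconnected_punctured R₀) hz
        hz₀ h) hc
    refine ⟨R₁, ‖c‖, 0, hR₁0, norm_nonneg c, fun z h1 h2 => ?_⟩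
    have h3 := hall z ⟨h1, h2.trans hR₁⟩
    rw [meromorphicOrderAt_eq_top_iff] at h3
    have h4 : u =ᶠ[𝓝[≠] z] fun _ => c := by
      filter_upwards [h3] with w hw
      exact sub_eq_zero.mp hw
    constructor
    · rw [meromorphicOrderAt_congr h4]
      exact analyticAt_const.meromorphicOrderAt_nonneg
    · intro han
      have h5 : u z = c := by
        have h6 : Tendsto u (𝓝[≠] z) (𝓝 (u z)) := han.continuousAt.tendsto.mono_left
          nhdsWithin_le_nhds
        have h7 : Tendsto u (𝓝[≠] z) (𝓝 c) := (tendsto_congr' h4).mpr tendsto_const_nhds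
        exact tendsto_nhds_unique h6 h7
      rw [h5, pow_zero, mul_one]
  push Not at hconst
  have hord : ∀ z ∈ Ω, meromorphicOrderAt u z ≠ ⊤ := by
    intro z hz
    have := hconst 0 z hz
    simpa using this
  have hsub : ∀ s : ℂ, 0 < ‖s‖ → ‖s‖ < R₁ → s ∈ Ω := fun s h1 h2 => ⟨h1, h2.trans hR₁⟩
  -- integrability
  have hsph : ∀ r, 0 < r → r < R₁ → MeromorphicOn u (sphere 0 |r|) := by
    intro r h1 h2 z hz
    rw [mem_sphere_zero_iff_norm, abs_of_pos h1] at hz
    exact hm z (hsub z (by rw [hz]; exact h1) (by rw [hz]; exact h2))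
  have hposnn : ∀ r, 0 < r → r < R₁ → 0 ≤ Real.circleAverage (fun z => Real.posLog ‖u z‖) 0 r := by
    intro r h1 h2
    exact Real.circleAverage_nonneg_of_nonneg fun z _ => Real.posLog_nonneg
  -- finitely many poles
  have hpoles : {s : ℂ | (0 < ‖s‖ ∧ ‖s‖ < R₁) ∧ ordZ u s < 0}.Finite := by
    refine finite_of_count (C := C) (D := D) hR₁0 (fun s hs => hs.1.1) ?_
    intro r h1 h2 S hS
    have h3 := hT r h1 h2 S (fun s hs => (hS s hs).1)
    have h4 := hposnn r h1 h2
    refine le_trans ?_ (le_trans (by linarith) h3) (b := ∑ s ∈ S, max (-(ordZ u s : ℝ)) 0 *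
      Real.posLog (‖s‖ / r))
    refine Finset.sum_le_sum fun s hs => ?_
    have h5 : ordZ u s ≤ -1 := by
      have := (hS s hs).2
      omega
    have h6 : (ordZ u s : ℝ) ≤ -1 := by exact_mod_cast h5
    have h7 : (1 : ℝ) ≤ max (-(ordZ u s : ℝ)) 0 := le_max_of_le_left (by linarith only [h6])
    have h8 : 0 ≤ Real.posLog (‖s‖ / r) := Real.posLog_nonneg
    nlinarith only [h7, h8]
  -- finitely many zeros of `u - c`
  have hzeros : ∀ c : ℂ, {s : ℂ | (0 < ‖s‖ ∧ ‖s‖ < R₁) ∧ 0 < ordZ (fun z => u z - c) s}.Finite := by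
    intro c
    have hmc : ∀ z, 0 < ‖z‖ → ‖z‖ < R₀ → MeromorphicAt (fun z => u z - c) z := fun z h1 h2 =>
      (hu z h1 h2).sub (MeromorphicAt.const c z)
    obtain ⟨A, B, hJ⟩ := jensen_punctured hR₁ hmc (fun z h1 h2 => hconst c z ⟨h1, h2⟩)
    refine finite_of_count (C := C + Real.posLog ‖c‖ + Real.log 2 - A) (D := D + B) hR₁0
      (fun s hs => hs.1.1) ?_
    intro r h1 h2 S hS
    have hfin := finite_ordZ (a := r) (b := R₁) h1 hR₁ hmc
    set S' : Finset ℂ := S ∪ hfin.toFinset.filter (fun s => ‖s‖ < R₁) with hS'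
    have hS'1 : ∀ s ∈ S', 0 < ‖s‖ ∧ ‖s‖ < R₁ := by
      intro s hs
      rw [hS', Finset.mem_union, Finset.mem_filter, hfin.mem_toFinset] at hs
      rcases hs with hs | hs
      · exact (hS s hs).1
      · exact ⟨h1.trans_le hs.1.1, hs.2⟩
    have hS'2 : ∀ s, r < ‖s‖ → ‖s‖ < R₁ → ordZ (fun z => u z - c) s ≠ 0 → s ∈ S' := by
      intro s h3 h4 h5
      rw [hS', Finset.mem_union, Finset.mem_filter, hfin.mem_toFinset]
      exact Or.inr ⟨⟨h3.le, h4.le, h5⟩, h4⟩
    have h3 := hJ r h1 h2 S' (fun s hs => (hS'1 s hs).2) hS'2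
    have h4 := hT r h1 h2 S' hS'1
    -- comparison of the means
    have hsphc : MeromorphicOn (fun z => u z - c) (sphere 0 |r|) := fun z hz =>
      (hsph r h1 h2 z hz).sub (MeromorphicAt.const c z)
    have h5 : Real.circleAverage (fun z => Real.log ‖u z - c‖) 0 r ≤
        Real.circleAverage (fun z => Real.posLog ‖u z‖) 0 r + (Real.posLog ‖c‖ + Real.log 2) := by
      have h6 : Real.circleAverage (fun z => Real.posLog ‖u z‖ + (Real.posLog ‖c‖ + Real.log 2)) 0 r =
          Real.circleAverage (fun z => Real.posLog ‖u z‖) 0 r +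
            (Real.posLog ‖c‖ + Real.log 2) := by
        rw [Real.circleAverage_fun_add (MeromorphicOn.circleIntegrable_posLog_norm (hsph r h1 h2))
          (circleIntegrable_const _ _ _), Real.circleAverage_const]
      rw [← h6]
      refine Real.circleAverage_mono (MeromorphicOn.circleIntegrable_log_norm hsphc) ?_ ?_
      · exact (MeromorphicOn.circleIntegrable_posLog_norm (hsph r h1 h2)).fun_add
          (circleIntegrable_const _ _ _)
      · intro z _
        have h7 : Real.log ‖u z - c‖ ≤ Real.posLog ‖u z - c‖ := le_max_right _ _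
        have h8 := Real.posLog_norm_add_le (u z) (-c)
        rw [norm_neg, ← sub_eq_add_neg] at h8
        linarith only [h7, h8]
    -- comparison of the sums
    have h6 : ∑ s ∈ S, Real.posLog (‖s‖ / r) ≤
        ∑ s ∈ S', (ordZ (fun z => u z - c) s : ℝ) * Real.posLog (‖s‖ / r) +
        ∑ s ∈ S', max (-(ordZ u s : ℝ)) 0 * Real.posLog (‖s‖ / r) := by
      rw [← Finset.sum_add_distrib]
      have h7 : ∑ s ∈ S, Real.posLog (‖s‖ / r) ≤
          ∑ s ∈ S', max (ordZ (fun z => u z - c) s : ℝ) 0 * Real.posLog (‖s‖ / r) := by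
        refine le_trans (b := ∑ s ∈ S, max (ordZ (fun z => u z - c) s : ℝ) 0 *
          Real.posLog (‖s‖ / r)) ?_ ?_
        · refine Finset.sum_le_sum fun s hs => ?_
          have h8 : 1 ≤ ordZ (fun z => u z - c) s := by
            have := (hS s hs).2
            omega
          have h9 : (1 : ℝ) ≤ ordZ (fun z => u z - c) s := by exact_mod_cast h8
          have h10 : (1 : ℝ) ≤ max (ordZ (fun z => u z - c) s : ℝ) 0 := le_max_of_le_left h9
          have h11 : 0 ≤ Real.posLog (‖s‖ / r) := Real.posLog_nonneg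
          nlinarith only [h10, h11]
        · refine Finset.sum_le_sum_of_subset_of_nonneg Finset.subset_union_left ?_
          intro s _ _
          exact mul_nonneg (le_max_right _ _) Real.posLog_nonneg
      refine h7.trans (Finset.sum_le_sum fun s hs => ?_)
      have hs' := hS'1 s hs
      have h8 := neg_ordZ_sub_const_le (hu s hs'.1 (hs'.2.trans hR₁)) (hord s (hsub s hs'.1 hs'.2))
        (hconst c s (hsub s hs'.1 hs'.2))
      rw [← add_mul]
      refine mul_le_mul_of_nonneg_right ?_ Real.posLog_nonneg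
      have h9 : max (ordZ (fun z => u z - c) s : ℝ) 0 = ordZ (fun z => u z - c) s +
          max (-(ordZ (fun z => u z - c) s : ℝ)) 0 := by
        rcases le_total (ordZ (fun z => u z - c) s : ℝ) 0 with h | h
        · rw [max_eq_right h, max_eq_left (by linarith only [h])]
          ring
        · rw [max_eq_left h, max_eq_right (by linarith)]
          ring
      rw [h9]
      linarith only [h8]
    linarith only [h3, h4, h5, h6]
  -- the normal form
  set v : ℂ → ℂ := toMeromorphicNFOn u Ω with hv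
  have hvNF : MeromorphicNFOn v Ω := meromorphicNFOn_toMeromorphicNFOn u Ω
  have huv : ∀ z ∈ Ω, u =ᶠ[𝓝[≠] z] v := fun z hz =>
    (hm.toMeromorphicNFOn_eq_self_on_nhdsNE hz).symm
  obtain ⟨ε₁, hε₁, hε₁P⟩ := exists_radius hpoles (fun s hs => hs.1.1)
  have hnonneg : ∀ z, 0 < ‖z‖ → ‖z‖ < min ε₁ R₁ → 0 ≤ meromorphicOrderAt u z := by
    intro z h1 h2
    have h3 : ‖z‖ < ε₁ := h2.trans_le (min_le_left _ _)
    have h4 : ‖z‖ < R₁ := h2.trans_le (min_le_right _ _)
    by_contra h
    push Not at h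
    have h5 : ordZ u z < 0 := by
      rw [← ordZ_cast (hord z (hsub z h1 h4))] at h
      exact_mod_cast h
    exact absurd (hε₁P z ⟨⟨h1, h4⟩, h5⟩) (not_le.mpr h3)
  have hvan : ∀ z, 0 < ‖z‖ → ‖z‖ < min ε₁ R₁ → AnalyticAt ℂ v z := by
    intro z h1 h2
    have hz : z ∈ Ω := hsub z h1 (h2.trans_le (min_le_right _ _))
    rw [← (hvNF hz).meromorphicOrderAt_nonneg_iff_analyticAt, ← meromorphicOrderAt_congr (huv z hz)]
    exact hnonneg z h1 h2
  have hmin : 0 < min ε₁ R₁ := lt_min hε₁ hR₁0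
  have hmero : MeromorphicAt v 0 := by
    refine meromorphicAt_of_omits hmin hvan fun c => ?_
    obtain ⟨δ, hδ, hδP⟩ := exists_radius (hzeros c) (fun s hs => hs.1.1)
    refine ⟨min δ (min ε₁ R₁), lt_min hδ hmin, fun z h1 h2 hzc => ?_⟩
    have h3 : ‖z‖ < δ := h2.trans_le (min_le_left _ _)
    have h4 : ‖z‖ < min ε₁ R₁ := h2.trans_le (min_le_right _ _)
    have h5 : ‖z‖ < R₁ := h4.trans_le (min_le_right _ _)
    have hz : z ∈ Ω := hsub z h1 h5
    have h6 : AnalyticAt ℂ (fun w => v w - c) z := (hvan z h1 h4).sub analyticAt_const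
    have h7 : (fun w => u w - c) =ᶠ[𝓝[≠] z] fun w => v w - c := by
      filter_upwards [huv z hz] with w hw
      rw [hw]
    have h8 : 0 < ordZ (fun w => u w - c) z := by
      have h9 : 0 < meromorphicOrderAt (fun w => u w - c) z := by
        rw [meromorphicOrderAt_congr h7, ← tendsto_zero_iff_meromorphicOrderAt_pos h6.meromorphicAt]
        have h10 := h6.continuousAt.tendsto
        simp only [hzc, sub_self] at h10
        exact h10.mono_left nhdsWithin_le_nhds
      rw [← ordZ_cast (hconst c z hz)] at h9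
      exact_mod_cast h9
    exact absurd (hδP z ⟨⟨h1, h5⟩, h8⟩) (not_le.mpr h3)
  -- the growth
  obtain ⟨m, hmm⟩ := hmero
  have hcont := hmm.continuousAt.norm
  have hbd : ∀ᶠ z in 𝓝 (0 : ℂ), ‖(z - 0) ^ m • v z‖ < ‖((0 : ℂ) - 0) ^ m • v 0‖ + 1 :=
    hcont.eventually_lt continuousAt_const (by simp)
  obtain ⟨ε₂, hε₂, hε₂'⟩ := Metric.eventually_nhds_iff.mp hbd
  refine ⟨min ε₂ (min ε₁ R₁), ‖((0 : ℂ) - 0) ^ m • v 0‖ + 1, m, lt_min hε₂ hmin, by positivity,
    fun z h1 h2 => ?_⟩
  have h3 : ‖z‖ < ε₂ := h2.trans_le (min_le_left _ _)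
  have h4 : ‖z‖ < min ε₁ R₁ := h2.trans_le (min_le_right _ _)
  have hz : z ∈ Ω := hsub z h1 (h4.trans_le (min_le_right _ _))
  refine ⟨hnonneg z h1 h4, fun han => ?_⟩
  have h5 : u z = v z := by
    have h6 : Tendsto u (𝓝[≠] z) (𝓝 (u z)) := han.continuousAt.tendsto.mono_left
      nhdsWithin_le_nhds
    have h7 : Tendsto u (𝓝[≠] z) (𝓝 (v z)) := (tendsto_congr' (huv z hz)).mpr
      ((hvan z h1 h4).continuousAt.tendsto.mono_left nhdsWithin_le_nhds)
    exact tendsto_nhds_unique h6 h7
  have h8 := hε₂' (y := z) (by simpa using h3)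
  rw [h5, mul_comm, ← norm_pow, ← norm_mul]
  simpa using h8.le

end Pool.Agent.H92.GGL

end

section

/-!
# FC, module CharMero: small characteristic implies meromorphic at the puncture
-/

open Complex MeasureTheory Metric Set Topology Filter
open Pool.Agent.H92.GGL

noncomputable section

namespace Pool.Agent.H62.FC

/-- A set of points of a punctured disc with small counting function for arbitrarily small
radii is finite. -/
private lemma CharMero_finite_of_count {P : Set ℂ} {C D : ℝ} (hP : ∀ s ∈ P, 0 < ‖s‖)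
    (h : ∀ r₁, 0 < r₁ → ∃ r, 0 < r ∧ r < r₁ ∧ ∀ S : Finset ℂ, (∀ s ∈ S, s ∈ P) →
      ∑ s ∈ S, Real.posLog (‖s‖ / r) ≤ C - D * Real.log r) : P.Finite := by
  by_contra hinf
  obtain ⟨n₀, hn₀⟩ := exists_nat_gt D
  obtain ⟨S, hSP, hScard⟩ := (Set.not_finite.mp hinf).exists_subset_card_eq (n₀ + 1)
  have hSne : S.Nonempty := by
    rw [← Finset.card_pos, hScard]
    omega
  obtain ⟨s₀, hs₀, hmin⟩ := S.exists_min_image (fun s => ‖s‖) hSne
  set δ := ‖s₀‖ with hδ
  have hδ0 : 0 < δ := hP s₀ (hSP hs₀)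
  set n : ℝ := ((n₀ + 1 : ℕ) : ℝ) with hn
  have hnD : 1 < n - D := by
    rw [hn]
    push_cast
    linarith only [hn₀]
  have hnpos : 0 ≤ n := Nat.cast_nonneg _
  set t₀ : ℝ := max (1 + -Real.log δ) (|C - n * Real.log δ| + 1) with ht₀
  obtain ⟨r, hr0, hr1, hr⟩ := h (Real.exp (-t₀)) (Real.exp_pos _)
  set t : ℝ := -Real.log r with ht
  have hrt : r = Real.exp (-t) := by
    rw [ht, neg_neg, Real.exp_log hr0]
  have htt : t₀ < t := by
    have := Real.log_lt_log hr0 hr1
    rw [Real.log_exp] at this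
    linarith only [this]
  have ht1 : -Real.log δ < t := by
    have h1 := le_max_left (1 + -Real.log δ) (|C - n * Real.log δ| + 1)
    linarith
  have ht3 : |C - n * Real.log δ| + 1 ≤ t := (le_max_right _ _).trans htt.le
  have hr2 : Real.exp (-t) < δ := by
    rw [← Real.exp_log hδ0]
    exact Real.exp_lt_exp.mpr (by linarith only [ht1])
  have h1 := hr S (fun s hs => hSP hs)
  rw [hrt, Real.log_exp] at h1
  have h2 : n * (Real.log δ + t) ≤ ∑ s ∈ S, Real.posLog (‖s‖ / Real.exp (-t)) := by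
    have h3 : ∑ _s ∈ S, (Real.log δ + t) = n * (Real.log δ + t) := by
      rw [Finset.sum_const, hScard, nsmul_eq_mul]
    rw [← h3]
    refine Finset.sum_le_sum fun s hs => ?_
    have h4 : δ ≤ ‖s‖ := hmin s hs
    have h5 : Real.log δ + t = Real.log (δ / Real.exp (-t)) := by
      rw [Real.log_div hδ0.ne' (Real.exp_pos _).ne', Real.log_exp]
      ring
    rw [h5]
    refine le_trans ?_ (le_max_right _ _)
    refine Real.log_le_log (by positivity) ?_
    gcongr
  have h6 : (n - D) * t ≤ C - n * Real.log δ := by linarith only [h1, h2]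
  have h7 : t ≤ (n - D) * t := by
    have : 0 ≤ t := by
      have := abs_nonneg (C - n * Real.log δ)
      linarith
    nlinarith only [hnD, this]
  have h8 := le_abs_self (C - n * Real.log δ)
  linarith

private theorem CharMero_core {u : ℂ → ℂ} {R₀ R₁ : ℝ} (hR₁0 : 0 < R₁) (hR₁ : R₁ < R₀)
    (hu : ∀ z, 0 < ‖z‖ → ‖z‖ < R₀ → MeromorphicAt u z) {C D : ℝ}
    (hT : ∀ r₁, 0 < r₁ → ∃ r, 0 < r ∧ r < r₁ ∧ r < R₁ ∧
      ∀ S : Finset ℂ, (∀ s ∈ S, 0 < ‖s‖ ∧ ‖s‖ < R₁) →
      Real.circleAverage (fun z => Real.posLog ‖u z‖) 0 r +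
        ∑ s ∈ S, max (-(ordZ u s : ℝ)) 0 * Real.posLog (‖s‖ / r) ≤ C - D * Real.log r) :
    PunctMero u := by
  classical
  set Ω : Set ℂ := {z : ℂ | 0 < ‖z‖ ∧ ‖z‖ < R₀} with hΩ
  have hΩo : IsOpen Ω := isOpen_punctured R₀
  have hm : MeromorphicOn u Ω := fun z hz => hu z hz.1 hz.2
  -- the constant case
  by_cases hconst : ∃ c, ∃ z ∈ Ω, meromorphicOrderAt (fun z => u z - c) z = ⊤
  · obtain ⟨c, z₀, hz₀, hc⟩ := hconst
    have hmc : MeromorphicOn (fun z => u z - c) Ω := fun z hz =>
      (hm z hz).sub (MeromorphicAt.const c z)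
    have hall : ∀ z ∈ Ω, meromorphicOrderAt (fun z => u z - c) z = ⊤ := by
      intro z hz
      by_contra h
      exact (hmc.meromorphicOrderAt_ne_top_of_isPreconnected (isPreconnected_punctured R₀) hz
        hz₀ h) hc
    refine ⟨fun _ => c, MeromorphicAt.const c 0, ?_⟩
    filter_upwards [punctured_mem (hR₁0.trans hR₁)] with z hz
    have h3 := hall z hz
    rw [meromorphicOrderAt_eq_top_iff] at h3
    filter_upwards [h3] with w hw
    exact sub_eq_zero.mp hw
  push Not at hconst
  have hord : ∀ z ∈ Ω, meromorphicOrderAt u z ≠ ⊤ := by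
    intro z hz
    have := hconst 0 z hz
    simpa using this
  have hsub : ∀ s : ℂ, 0 < ‖s‖ → ‖s‖ < R₁ → s ∈ Ω := fun s h1 h2 => ⟨h1, h2.trans hR₁⟩
  -- integrability
  have hsph : ∀ r, 0 < r → r < R₁ → MeromorphicOn u (sphere 0 |r|) := by
    intro r h1 h2 z hz
    rw [mem_sphere_zero_iff_norm, abs_of_pos h1] at hz
    exact hm z (hsub z (by rw [hz]; exact h1) (by rw [hz]; exact h2))
  have hposnn : ∀ r, 0 < r → r < R₁ → 0 ≤ Real.circleAverage (fun z => Real.posLog ‖u z‖) 0 r := by
    intro r h1 h2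
    exact Real.circleAverage_nonneg_of_nonneg fun z _ => Real.posLog_nonneg
  -- finitely many poles
  have hpoles : {s : ℂ | (0 < ‖s‖ ∧ ‖s‖ < R₁) ∧ ordZ u s < 0}.Finite := by
    refine CharMero_finite_of_count (C := C) (D := D) (fun s hs => hs.1.1) ?_
    intro r₁ hr₁
    obtain ⟨r, h1, h1', h2, hTr⟩ := hT r₁ hr₁
    refine ⟨r, h1, h1', fun S hS => ?_⟩
    have h3 := hTr S (fun s hs => (hS s hs).1)
    have h4 := hposnn r h1 h2
    refine le_trans ?_ (le_trans (by linarith only [h4]) h3) (b := ∑ s ∈ S, max (-(ordZ u s : ℝ)) 0 *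
      Real.posLog (‖s‖ / r))
    refine Finset.sum_le_sum fun s hs => ?_
    have h5 : ordZ u s ≤ -1 := by
      have := (hS s hs).2
      omega
    have h6 : (ordZ u s : ℝ) ≤ -1 := by exact_mod_cast h5
    have h7 : (1 : ℝ) ≤ max (-(ordZ u s : ℝ)) 0 := le_max_of_le_left (by linarith only [h6])
    have h8 : 0 ≤ Real.posLog (‖s‖ / r) := Real.posLog_nonneg
    nlinarith only [h7, h8]
  -- finitely many zeros of `u - c`
  have hzeros : ∀ c : ℂ, {s : ℂ | (0 < ‖s‖ ∧ ‖s‖ < R₁) ∧ 0 < ordZ (fun z => u z - c) s}.Finite := by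
    intro c
    have hmc : ∀ z, 0 < ‖z‖ → ‖z‖ < R₀ → MeromorphicAt (fun z => u z - c) z := fun z h1 h2 =>
      (hu z h1 h2).sub (MeromorphicAt.const c z)
    obtain ⟨A, B, hJ⟩ := jensen_punctured hR₁ hmc (fun z h1 h2 => hconst c z ⟨h1, h2⟩)
    refine CharMero_finite_of_count (C := C + Real.posLog ‖c‖ + Real.log 2 - A) (D := D + B)
      (fun s hs => hs.1.1) ?_
    intro r₁ hr₁
    obtain ⟨r, h1, h1', h2, hTr⟩ := hT r₁ hr₁
    refine ⟨r, h1, h1', fun S hS => ?_⟩
    have hfin := finite_ordZ (a := r) (b := R₁) h1 hR₁ hmc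
    set S' : Finset ℂ := S ∪ hfin.toFinset.filter (fun s => ‖s‖ < R₁) with hS'
    have hS'1 : ∀ s ∈ S', 0 < ‖s‖ ∧ ‖s‖ < R₁ := by
      intro s hs
      rw [hS', Finset.mem_union, Finset.mem_filter, hfin.mem_toFinset] at hs
      rcases hs with hs | hs
      · exact (hS s hs).1
      · exact ⟨h1.trans_le hs.1.1, hs.2⟩
    have hS'2 : ∀ s, r < ‖s‖ → ‖s‖ < R₁ → ordZ (fun z => u z - c) s ≠ 0 → s ∈ S' := by
      intro s h3 h4 h5
      rw [hS', Finset.mem_union, Finset.mem_filter, hfin.mem_toFinset]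
      exact Or.inr ⟨⟨h3.le, h4.le, h5⟩, h4⟩
    have h3 := hJ r h1 h2 S' (fun s hs => (hS'1 s hs).2) hS'2
    have h4 := hTr S' hS'1
    -- comparison of the means
    have hsphc : MeromorphicOn (fun z => u z - c) (sphere 0 |r|) := fun z hz =>
      (hsph r h1 h2 z hz).sub (MeromorphicAt.const c z)
    have h5 : Real.circleAverage (fun z => Real.log ‖u z - c‖) 0 r ≤
        Real.circleAverage (fun z => Real.posLog ‖u z‖) 0 r + (Real.posLog ‖c‖ + Real.log 2) := by
      have h6 : Real.circleAverage (fun z => Real.posLog ‖u z‖ + (Real.posLog ‖c‖ + Real.log 2)) 0 r =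
          Real.circleAverage (fun z => Real.posLog ‖u z‖) 0 r +
            (Real.posLog ‖c‖ + Real.log 2) := by
        rw [Real.circleAverage_fun_add (MeromorphicOn.circleIntegrable_posLog_norm (hsph r h1 h2))
          (circleIntegrable_const _ _ _), Real.circleAverage_const]
      rw [← h6]
      refine Real.circleAverage_mono (MeromorphicOn.circleIntegrable_log_norm hsphc) ?_ ?_
      · exact (MeromorphicOn.circleIntegrable_posLog_norm (hsph r h1 h2)).fun_add
          (circleIntegrable_const _ _ _)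
      · intro z _
        have h7 : Real.log ‖u z - c‖ ≤ Real.posLog ‖u z - c‖ := le_max_right _ _
        have h8 := Real.posLog_norm_add_le (u z) (-c)
        rw [norm_neg, ← sub_eq_add_neg] at h8
        linarith
    -- comparison of the sums
    have h6 : ∑ s ∈ S, Real.posLog (‖s‖ / r) ≤
        ∑ s ∈ S', (ordZ (fun z => u z - c) s : ℝ) * Real.posLog (‖s‖ / r) +
        ∑ s ∈ S', max (-(ordZ u s : ℝ)) 0 * Real.posLog (‖s‖ / r) := by
      rw [← Finset.sum_add_distrib]
      have h7 : ∑ s ∈ S, Real.posLog (‖s‖ / r) ≤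
          ∑ s ∈ S', max (ordZ (fun z => u z - c) s : ℝ) 0 * Real.posLog (‖s‖ / r) := by
        refine le_trans (b := ∑ s ∈ S, max (ordZ (fun z => u z - c) s : ℝ) 0 *
          Real.posLog (‖s‖ / r)) ?_ ?_
        · refine Finset.sum_le_sum fun s hs => ?_
          have h8 : 1 ≤ ordZ (fun z => u z - c) s := by
            have := (hS s hs).2
            omega
          have h9 : (1 : ℝ) ≤ ordZ (fun z => u z - c) s := by exact_mod_cast h8
          have h10 : (1 : ℝ) ≤ max (ordZ (fun z => u z - c) s : ℝ) 0 := le_max_of_le_left h9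
          have h11 : 0 ≤ Real.posLog (‖s‖ / r) := Real.posLog_nonneg
          nlinarith only [h10, h11]
        · refine Finset.sum_le_sum_of_subset_of_nonneg Finset.subset_union_left ?_
          intro s _ _
          exact mul_nonneg (le_max_right _ _) Real.posLog_nonneg
      refine h7.trans (Finset.sum_le_sum fun s hs => ?_)
      have hs' := hS'1 s hs
      have h8 := neg_ordZ_sub_const_le (hu s hs'.1 (hs'.2.trans hR₁)) (hord s (hsub s hs'.1 hs'.2))
        (hconst c s (hsub s hs'.1 hs'.2))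
      rw [← add_mul]
      refine mul_le_mul_of_nonneg_right ?_ Real.posLog_nonneg
      have h9 : max (ordZ (fun z => u z - c) s : ℝ) 0 = ordZ (fun z => u z - c) s +
          max (-(ordZ (fun z => u z - c) s : ℝ)) 0 := by
        rcases le_total (ordZ (fun z => u z - c) s : ℝ) 0 with h | h
        · rw [max_eq_right h, max_eq_left (by linarith)]
          ring
        · rw [max_eq_left h, max_eq_right (by linarith only [h])]
          ring
      rw [h9]
      linarith
    linarith only [h3, h4, h5, h6]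
  -- the normal form
  set v : ℂ → ℂ := toMeromorphicNFOn u Ω with hv
  have hvNF : MeromorphicNFOn v Ω := meromorphicNFOn_toMeromorphicNFOn u Ω
  have huv : ∀ z ∈ Ω, u =ᶠ[𝓝[≠] z] v := fun z hz =>
    (hm.toMeromorphicNFOn_eq_self_on_nhdsNE hz).symm
  obtain ⟨ε₁, hε₁, hε₁P⟩ := exists_radius hpoles (fun s hs => hs.1.1)
  have hnonneg : ∀ z, 0 < ‖z‖ → ‖z‖ < min ε₁ R₁ → 0 ≤ meromorphicOrderAt u z := by
    intro z h1 h2
    have h3 : ‖z‖ < ε₁ := h2.trans_le (min_le_left _ _)
    have h4 : ‖z‖ < R₁ := h2.trans_le (min_le_right _ _)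
    by_contra h
    push Not at h
    have h5 : ordZ u z < 0 := by
      rw [← ordZ_cast (hord z (hsub z h1 h4))] at h
      exact_mod_cast h
    exact absurd (hε₁P z ⟨⟨h1, h4⟩, h5⟩) (not_le.mpr h3)
  have hvan : ∀ z, 0 < ‖z‖ → ‖z‖ < min ε₁ R₁ → AnalyticAt ℂ v z := by
    intro z h1 h2
    have hz : z ∈ Ω := hsub z h1 (h2.trans_le (min_le_right _ _))
    rw [← (hvNF hz).meromorphicOrderAt_nonneg_iff_analyticAt, ← meromorphicOrderAt_congr (huv z hz)]
    exact hnonneg z h1 h2
  have hmin : 0 < min ε₁ R₁ := lt_min hε₁ hR₁0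
  have hmero : MeromorphicAt v 0 := by
    refine meromorphicAt_of_omits hmin hvan fun c => ?_
    obtain ⟨δ, hδ, hδP⟩ := exists_radius (hzeros c) (fun s hs => hs.1.1)
    refine ⟨min δ (min ε₁ R₁), lt_min hδ hmin, fun z h1 h2 hzc => ?_⟩
    have h3 : ‖z‖ < δ := h2.trans_le (min_le_left _ _)
    have h4 : ‖z‖ < min ε₁ R₁ := h2.trans_le (min_le_right _ _)
    have h5 : ‖z‖ < R₁ := h4.trans_le (min_le_right _ _)
    have hz : z ∈ Ω := hsub z h1 h5
    have h6 : AnalyticAt ℂ (fun w => v w - c) z := (hvan z h1 h4).sub analyticAt_const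
    have h7 : (fun w => u w - c) =ᶠ[𝓝[≠] z] fun w => v w - c := by
      filter_upwards [huv z hz] with w hw
      rw [hw]
    have h8 : 0 < ordZ (fun w => u w - c) z := by
      have h9 : 0 < meromorphicOrderAt (fun w => u w - c) z := by
        rw [meromorphicOrderAt_congr h7, ← tendsto_zero_iff_meromorphicOrderAt_pos h6.meromorphicAt]
        have h10 := h6.continuousAt.tendsto
        simp only [hzc, sub_self] at h10
        exact h10.mono_left nhdsWithin_le_nhds
      rw [← ordZ_cast (hconst c z hz)] at h9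
      exact_mod_cast h9
    exact absurd (hδP z ⟨⟨h1, h5⟩, h8⟩) (not_le.mpr h3)
  refine ⟨v, hmero, ?_⟩
  filter_upwards [punctured_mem (hR₁0.trans hR₁)] with z hz
  exact huv z hz

theorem punctMero_of_nevT {R₀ R₁ : ℝ} (h1 : 0 < R₁) (h : R₁ < R₀) {u : ℂ → ℂ}
    (hu : MeroPunct R₀ u) {C : ℝ} {E : Set ℝ} (hE : volume E ≠ ⊤)
    (hT : ∀ x, Real.exp (-x) < R₁ → x ∉ E → nevT u R₁ x ≤ C * (1 + |x|)) : PunctMero u := by
  classical
  refine CharMero_core h1 h hu.mero (C := C) (D := C) ?_
  intro r₁ hr₁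
  -- a good radius
  set a : ℝ := max 0 (max (-Real.log r₁) (-Real.log R₁)) with ha
  obtain ⟨x, hxa, hxE⟩ : ∃ x, a < x ∧ x ∉ E := by
    by_contra hcon
    push Not at hcon
    have h2 : Set.Ioi a ⊆ E := fun x hx => hcon x hx
    have h3 := measure_mono (μ := volume) h2
    rw [Real.volume_Ioi] at h3
    exact hE (top_le_iff.mp h3)
  have hx0 : 0 < x := lt_of_le_of_lt (le_max_left _ _) hxa
  have hxr : -Real.log r₁ < x :=
    lt_of_le_of_lt ((le_max_left _ _).trans (le_max_right _ _)) hxa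
  have hxR : -Real.log R₁ < x :=
    lt_of_le_of_lt ((le_max_right _ _).trans (le_max_right _ _)) hxa
  have hr1 : Real.exp (-x) < r₁ := by
    rw [← Real.exp_log hr₁]
    exact Real.exp_lt_exp.mpr (by linarith)
  have hr2 : Real.exp (-x) < R₁ := by
    rw [← Real.exp_log h1]
    exact Real.exp_lt_exp.mpr (by linarith)
  refine ⟨Real.exp (-x), Real.exp_pos _, hr1, hr2, fun S hS => ?_⟩
  have h2 := hT x hr2 hxE
  rw [abs_of_pos hx0] at h2
  rw [Real.log_exp]
  set r : ℝ := Real.exp (-x) with hr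
  have hr0 : 0 < r := Real.exp_pos _
  -- the counting function as a finite sum
  have hfin := finite_ordZ (a := r) (b := R₁) hr0 h hu.mero
  set T : Finset ℂ := hfin.toFinset.filter (fun s => r < ‖s‖ ∧ ‖s‖ < R₁) with hTd
  have hcnt : cnt (fun s => max (-(ordZ u s : ℝ)) 0) R₁ r =
      ∑ s ∈ T, max (-(ordZ u s : ℝ)) 0 * Real.log (‖s‖ / r) := by
    unfold cnt
    refine finsum_mem_eq_sum_of_inter_support_eq _ ?_
    ext s
    simp only [Set.mem_inter_iff, Function.mem_support, Finset.mem_coe, hTd, Finset.mem_filter,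
      Set.Finite.mem_toFinset]
    constructor
    · rintro ⟨⟨h3, h4⟩, h5⟩
      refine ⟨⟨⟨h3.le, h4.le, ?_⟩, h3, h4⟩, h5⟩
      intro h6
      apply h5
      rw [h6]
      simp
    · rintro ⟨⟨_, h3, h4⟩, h5⟩
      exact ⟨⟨h3, h4⟩, h5⟩
  have hle : ∑ s ∈ S, max (-(ordZ u s : ℝ)) 0 * Real.posLog (‖s‖ / r) ≤
      ∑ s ∈ T, max (-(ordZ u s : ℝ)) 0 * Real.log (‖s‖ / r) := by
    have h3 : ∑ s ∈ T, max (-(ordZ u s : ℝ)) 0 * Real.log (‖s‖ / r) =
        ∑ s ∈ T, max (-(ordZ u s : ℝ)) 0 * Real.posLog (‖s‖ / r) := by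
      refine Finset.sum_congr rfl fun s hs => ?_
      have hs' : r < ‖s‖ := (Finset.mem_filter.mp hs).2.1
      have h4 : Real.posLog (‖s‖ / r) = Real.log (‖s‖ / r) := by
        refine max_eq_right (Real.log_nonneg ?_)
        rw [one_le_div hr0]
        exact hs'.le
      rw [h4]
    rw [h3]
    have h4 : ∑ s ∈ T, max (-(ordZ u s : ℝ)) 0 * Real.posLog (‖s‖ / r) =
        ∑ s ∈ S ∪ T, max (-(ordZ u s : ℝ)) 0 * Real.posLog (‖s‖ / r) := by
      refine Finset.sum_subset Finset.subset_union_right ?_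
      intro s hs hsT
      have hsS : s ∈ S := by
        rcases Finset.mem_union.mp hs with h5 | h5
        · exact h5
        · exact absurd h5 hsT
      have hsn := hS s hsS
      by_cases h5 : r < ‖s‖
      · have h6 : ordZ u s = 0 := by
          by_contra h6
          apply hsT
          rw [hTd, Finset.mem_filter, hfin.mem_toFinset]
          exact ⟨⟨h5.le, hsn.2.le, h6⟩, h5, hsn.2⟩
        rw [h6]
        simp
      · have h6 : Real.posLog (‖s‖ / r) = 0 := by
          rw [Real.posLog_eq_zero_iff, abs_of_nonneg (by positivity), div_le_one hr0]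
          exact not_lt.mp h5
        rw [h6, mul_zero]
    rw [h4]
    exact Finset.sum_le_sum_of_subset_of_nonneg Finset.subset_union_left
      fun s _ _ => mul_nonneg (le_max_right _ _) Real.posLog_nonneg
  have h3 : nevT u R₁ x = Real.circleAverage (fun z => Real.posLog ‖u z‖) 0 r +
      cnt (fun s => max (-(ordZ u s : ℝ)) 0) R₁ r := rfl
  rw [h3, hcnt] at h2
  linarith only [h2, hle]

end Pool.Agent.H62.FC

end
end
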