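import Pool.Agent.H94.DG.M08
import Pool.Agent.H94.DG.M28

/-! The parts of this file: H62.FC.LogDeriv, H5.DG.D1. -/

section

/-!
# The lemma on the logarithmic derivative at a puncture
-/

open Filter Topology MeasureTheory
open Pool.Agent.H92.GGL (ordZ)

noncomputable section

namespace Pool.Agent.H62.FC

/-! ### The weights -/

private def wt (t : ℝ) : ℝ := 1 / (1 + |t|) ^ 2

private def wn (n : ℕ) (t : ℝ) : ℝ := max 0 (wt t - wt n)

private lemma one_add_abs_pos (t : ℝ) : 0 < 1 + |t| := by positivity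

private lemma wt_cont : Continuous wt := by
  unfold wt
  exact continuous_const.div₀ (by fun_prop) fun t => (pow_pos (one_add_abs_pos t) 2).ne'

private lemma wn_cont (n : ℕ) : Continuous (wn n) := by
  unfold wn
  exact continuous_const.max (wt_cont.sub continuous_const)

private lemma wn_nonneg (n : ℕ) (t : ℝ) : 0 ≤ wn n t := le_max_left _ _

private lemma wt_nonneg (t : ℝ) : 0 ≤ wt t := by unfold wt; positivity

private lemma wn_neg (n : ℕ) (t : ℝ) : wn n (-t) = wn n t := by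
  simp only [wn, wt, abs_neg]

private lemma wt_le {s t : ℝ} (h : |s| ≤ |t|) : wt t ≤ wt s := by
  unfold wt
  have h1 := one_add_abs_pos s
  exact one_div_le_one_div_of_le (by positivity) (pow_le_pow_left₀ h1.le (by linarith only [h]) 2)

private lemma wn_zero {n : ℕ} {t : ℝ} (h : (n : ℝ) ≤ |t|) : wn n t = 0 := by
  unfold wn
  refine max_eq_left ?_
  have := wt_le (s := (n : ℝ)) (t := t) (by rwa [Nat.abs_cast])
  linarith only [this]

private lemma wn_le_wt (n : ℕ) (t : ℝ) : wn n t ≤ wt t := by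
  unfold wn
  have := wt_nonneg (n : ℝ)
  have := wt_nonneg t
  exact max_le (by assumption) (by linarith)

private lemma wn_mono {n m : ℕ} (h : n ≤ m) (t : ℝ) : wn n t ≤ wn m t := by
  unfold wn
  refine max_le_max le_rfl ?_
  have : wt (m : ℝ) ≤ wt (n : ℝ) := wt_le (by
    rw [Nat.abs_cast, Nat.abs_cast]
    exact_mod_cast h)
  linarith only [this]

private lemma wt_tendsto : Tendsto (fun n : ℕ => wt (n : ℝ)) atTop (𝓝 0) := by
  have h1 : Tendsto (fun n : ℕ => 1 / ((n : ℝ) + 1)) atTop (𝓝 0) :=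
    tendsto_one_div_add_atTop_nhds_zero_nat
  have h2 := h1.pow 2
  rw [zero_pow two_ne_zero] at h2
  refine h2.congr fun n => ?_
  unfold wt
  rw [Nat.abs_cast, one_div_pow, add_comm]

private lemma wn_tendsto (t : ℝ) : Tendsto (fun n : ℕ => wn n t) atTop (𝓝 (wt t)) := by
  have h : Tendsto (fun n : ℕ => wt t - wt (n : ℝ)) atTop (𝓝 (wt t - 0)) :=
    tendsto_const_nhds.sub wt_tendsto
  rw [sub_zero] at h
  have h2 : Tendsto (fun n : ℕ => max 0 (wt t - wt (n : ℝ))) atTop (𝓝 (max 0 (wt t))) :=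
    (tendsto_const_nhds (x := (0 : ℝ))).max h
  rwa [max_eq_right (wt_nonneg t)] at h2

private lemma wn_integral (n : ℕ) : (∫ t in (0 : ℝ)..n, wn n t) ≤ 1 := by
  have hn : (0 : ℝ) ≤ n := Nat.cast_nonneg n
  have h1 : (∫ t in (0 : ℝ)..n, wn n t) ≤ ∫ t in (0 : ℝ)..n, wt t :=
    intervalIntegral.integral_mono_on hn ((wn_cont n).intervalIntegrable _ _)
      (wt_cont.intervalIntegrable _ _) fun t _ => wn_le_wt n t
  have h2 : ∀ t ∈ Set.uIcc (0 : ℝ) n, HasDerivAt (fun t : ℝ => -(1 + t)⁻¹) (wt t) t := by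
    intro t ht
    rw [Set.uIcc_of_le hn] at ht
    have h0 : (1 : ℝ) + t ≠ 0 := by have := ht.1; positivity
    have h3 : HasDerivAt (fun t : ℝ => (1 + t)⁻¹) (-1 / (1 + t) ^ 2) t := by
      exact ((hasDerivAt_id' t).const_add 1).fun_inv h0
    have h4 := h3.neg
    have h5 : wt t = -(-1 / (1 + t) ^ 2) := by
      unfold wt
      rw [abs_of_nonneg ht.1]
      ring
    rw [h5]
    exact h4
  have h3 := intervalIntegral.integral_eq_sub_of_hasDerivAt h2 (wt_cont.intervalIntegrable _ _)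
  rw [h3] at h1
  refine h1.trans ?_
  have : 0 ≤ (1 + (n : ℝ))⁻¹ := by positivity
  norm_num
  linarith only

/-! ### Integrability on circles -/

private lemma circleIntegrable_of_local {f : ℂ → ℝ} {r : ℝ} (hr : 0 < r)
    (h : ∀ s, ‖s‖ = r → ∃ g : ℂ → ℝ, (∀ᶠ z in 𝓝 s, ContinuousAt g z) ∧ f =ᶠ[𝓝[≠] s] g) :
    CircleIntegrable f 0 r := by
  have hl : LocallyIntegrable (fun θ : ℝ => f (circleMap 0 r θ)) volume := by
    intro θ
    obtain ⟨g, hg1, hg2⟩ := h (circleMap 0 r θ) (by simp [abs_of_pos hr])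
    have hc : ContinuousAt (circleMap 0 r) θ := (continuous_circleMap 0 r).continuousAt
    have h1 : ∀ᶠ φ in 𝓝 θ, ContinuousAt (fun φ => g (circleMap 0 r φ)) φ := by
      filter_upwards [hc.eventually hg1] with φ hφ
      exact hφ.comp (continuous_circleMap 0 r).continuousAt
    have h2 : ∀ᶠ φ in 𝓝 θ, φ ≠ θ → f (circleMap 0 r φ) = g (circleMap 0 r φ) := by
      have h3 : ∀ᶠ z in 𝓝 (circleMap 0 r θ), z ≠ circleMap 0 r θ → f z = g z :=
        eventually_nhdsWithin_iff.1 hg2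
      have h4 : ∀ᶠ φ in 𝓝 θ, |φ - θ| < 2 * Real.pi := by
        have : ContinuousAt (fun φ : ℝ => |φ - θ|) θ := by fun_prop
        have h5 := this.tendsto
        rw [sub_self, abs_zero] at h5
        exact h5.eventually (gt_mem_nhds (by positivity))
      filter_upwards [hc.eventually h3, h4] with φ h5 h6 hne
      refine h5 fun h7 => hne ?_
      exact eq_of_circleMap_eq hr.ne' h6 h7
    obtain ⟨ε, hε, hball⟩ := Metric.eventually_nhds_iff_ball.1 (h1.and h2)
    refine ⟨Set.Icc (θ - ε / 2) (θ + ε / 2), Icc_mem_nhds (by linarith only [hε]) (by linarith only [hε]), ?_⟩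
    have hsub : ∀ φ ∈ Set.Icc (θ - ε / 2) (θ + ε / 2), φ ∈ Metric.ball θ ε := by
      intro φ hφ
      rw [Metric.mem_ball, Real.dist_eq, abs_lt]
      constructor <;> linarith only [hε, hφ, hφ.1, hφ.2]
    have hcont : ContinuousOn (fun φ => g (circleMap 0 r φ)) (Set.Icc (θ - ε / 2) (θ + ε / 2)) :=
      fun φ hφ => (hball φ (hsub φ hφ)).1.continuousWithinAt
    refine hcont.integrableOn_Icc.congr_fun_ae ?_
    rw [EventuallyEq, ae_restrict_iff' measurableSet_Icc]
    have hne : ∀ᵐ φ : ℝ, φ ≠ θ := by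
      rw [ae_iff]
      simp
    filter_upwards [hne] with φ h3 h4
    exact ((hball φ (hsub φ h4)).2 h3).symm
  unfold CircleIntegrable
  rw [intervalIntegrable_iff_integrableOn_Icc_of_le (by positivity)]
  exact hl.integrableOn_isCompact isCompact_Icc

private lemma circleIntegrable_wn {R₀ : ℝ} {u : ℂ → ℂ} (hu : MeroPunct R₀ u) (n : ℕ) {x : ℝ}
    (hx : Real.exp (-x) < R₀) :
    CircleIntegrable (fun z => wn n (Real.log ‖u z‖) * ‖z * deriv u z / u z‖ ^ 2) 0
      (Real.exp (-x)) := by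
  refine circleIntegrable_of_local (Real.exp_pos _) fun s hs => ?_
  have hs0 : 0 < ‖s‖ := by rw [hs]; exact Real.exp_pos _
  have hs1 : ‖s‖ < R₀ := by rw [hs]; exact hx
  have hm := hu.mero s hs0 hs1
  have ho := hu.ord s hs0 hs1
  rcases eq_or_ne (meromorphicOrderAt u s) 0 with h0 | h0
  · obtain ⟨g, hg, hgs, hug⟩ := (meromorphicOrderAt_ne_top_iff hm).1 ho
    rw [h0] at hug
    have hug' : u =ᶠ[𝓝[≠] s] g := by
      filter_upwards [hug] with z hz
      rw [hz]
      simp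
    refine ⟨fun z => wn n (Real.log ‖g z‖) * ‖z * deriv g z / g z‖ ^ 2, ?_, ?_⟩
    · have h1 : ∀ᶠ z in 𝓝 s, g z ≠ 0 := hg.continuousAt.eventually_ne hgs
      filter_upwards [h1, hg.eventually_analyticAt] with z h2 h3
      have h4 := h3.continuousAt
      have h5 := h3.deriv.continuousAt
      refine ((wn_cont n).continuousAt.comp ?_).mul ?_
      · exact h4.norm.log (norm_ne_zero_iff.2 h2)
      · exact ((continuousAt_id.mul h5).div h4 h2).norm.pow 2
    · filter_upwards [hug', hug'.nhdsNE_deriv] with z h1 h2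
      rw [h1, h2]
  · refine ⟨fun _ => 0, Eventually.of_forall fun _ => continuousAt_const, ?_⟩
    have key : ∀ᶠ z in 𝓝[≠] s, (n : ℝ) ≤ |Real.log ‖u z‖| := by
      rcases lt_or_gt_of_ne h0 with h1 | h1
      · have h2 := (tendsto_cobounded_iff_meromorphicOrderAt_neg hm).2 h1
        have h3 : Tendsto (fun z => Real.log ‖u z‖) (𝓝[≠] s) atTop :=
          Real.tendsto_log_atTop.comp (tendsto_norm_cobounded_atTop.comp h2)
        filter_upwards [h3.eventually_ge_atTop (n : ℝ)] with z hz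
        exact hz.trans (le_abs_self _)
      · have h2 := (tendsto_zero_iff_meromorphicOrderAt_pos hm).2 h1
        have hne := (meromorphicOrderAt_ne_top_iff_eventually_ne_zero hm).1 ho
        have h3 : Tendsto (fun z => ‖u z‖) (𝓝[≠] s) (𝓝[>] 0) := by
          rw [tendsto_nhdsWithin_iff]
          refine ⟨by simpa using h2.norm, ?_⟩
          filter_upwards [hne] with z hz
          exact norm_pos_iff.2 hz
        have h4 : Tendsto (fun z => Real.log ‖u z‖) (𝓝[≠] s) atBot :=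
          Real.tendsto_log_nhdsGT_zero.comp h3
        filter_upwards [h4.eventually_le_atBot (-(n : ℝ))] with z hz
        exact (by linarith only [hz] : (n : ℝ) ≤ -Real.log ‖u z‖).trans (neg_le_abs _)
    filter_upwards [key] with z hz
    rw [wn_zero hz, zero_mul]

/-! ### Pointwise inequality -/

private lemma posLog_le_half_log (y : ℝ) : Real.posLog y ≤ 1 / 2 * Real.log (1 + y ^ 2) := by
  unfold Real.posLog
  refine max_le (mul_nonneg (by norm_num) (Real.log_nonneg (by nlinarith only [sq_nonneg y]))) ?_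
  rcases eq_or_ne y 0 with rfl | hy
  · simp
  · have h : Real.log (y ^ 2) ≤ Real.log (1 + y ^ 2) :=
      Real.log_le_log (by positivity) (by linarith only)
    rw [Real.log_pow] at h
    push_cast at h
    linarith only [h]

private lemma log_tangent {a A : ℝ} (ha : 0 ≤ a) (hA : 0 ≤ A) :
    Real.log (1 + a) ≤ Real.log (1 + A) + (a - A) / (1 + A) := by
  have h1 : 0 < 1 + a := by linarith
  have h2 : 0 < 1 + A := by linarith
  have h3 := Real.log_le_sub_one_of_pos (div_pos h1 h2)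
  rw [Real.log_div h1.ne' h2.ne'] at h3
  have h4 : (1 + a) / (1 + A) - 1 = (a - A) / (1 + A) := by
    field_simp
    ring
  linarith only [h3, h4]

/-- The pointwise inequality. -/
private lemma pointwise {z : ℂ} {x : ℝ} (hz : ‖z‖ = Real.exp (-x)) (w d : ℂ) {A B : ℝ}
    (hA : 0 ≤ A) (hB : 0 ≤ B) :
    Real.posLog ‖d / w‖ ≤ 1 / 2 * (Real.log (1 + A) +
      (wt (Real.log ‖w‖) * ‖z * d / w‖ ^ 2 - A) / (1 + A)) +
      (Real.log (1 + B) + (|Real.log ‖w‖| - B) / (1 + B)) + |x| := by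
  set L := Real.log ‖w‖ with hL
  set y := ‖z * d / w‖ with hy
  have hzpos : 0 < ‖z‖ := by rw [hz]; exact Real.exp_pos _
  have e1 : ‖d / w‖ = y * Real.exp x := by
    rw [hy, mul_div_assoc, norm_mul, hz, Real.exp_neg]
    field_simp
  have h1 : Real.posLog ‖d / w‖ ≤ Real.posLog y + |x| := by
    rw [e1]
    refine Real.posLog_mul.trans ?_
    have : Real.posLog (Real.exp x) ≤ |x| := by
      unfold Real.posLog
      rw [Real.log_exp]
      exact max_le (abs_nonneg _) (le_abs_self _)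
    linarith only [this]
  have hy0 : 0 ≤ y := norm_nonneg _
  have hL1 : 0 < 1 + |L| := by positivity
  have hg0 : 0 ≤ wt L * y ^ 2 := mul_nonneg (wt_nonneg _) (sq_nonneg _)
  have h2 : Real.log (1 + y ^ 2) ≤ Real.log (1 + wt L * y ^ 2) + 2 * Real.log (1 + |L|) := by
    have h3 : (1 : ℝ) + y ^ 2 ≤ (1 + wt L * y ^ 2) * (1 + |L|) ^ 2 := by
      have h4 : (1 + wt L * y ^ 2) * (1 + |L|) ^ 2 = (1 + |L|) ^ 2 + y ^ 2 := by
        unfold wt
        field_simp
      rw [h4]
      have : 0 ≤ |L| := abs_nonneg L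
      nlinarith only [this, hL1]
    have h5 := Real.log_le_log (by positivity) h3
    rw [Real.log_mul (by positivity) (by positivity), Real.log_pow] at h5
    push_cast at h5
    exact h5
  have h3 := posLog_le_half_log y
  have h4 := log_tangent hg0 hA
  have h5 := log_tangent (abs_nonneg L) hB
  linarith only [h1, h2, h3, h4, h5]

/-! ### Bounds of logarithms -/

private lemma log_le_eps {η : ℝ} (hη : 0 < η) {t : ℝ} (ht : 0 ≤ t) :
    Real.log (1 + t) ≤ η * t + (η + |Real.log η|) := by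
  have h1 : 0 < 1 + t := by linarith
  have h2 := Real.log_le_sub_one_of_pos (mul_pos hη h1)
  rw [Real.log_mul hη.ne' h1.ne'] at h2
  have := neg_abs_le (Real.log η)
  have h3 : η * (1 + t) = η * t + η := by ring
  rw [h3] at h2
  have := le_abs_self (Real.log η)
  have := neg_le_abs (Real.log η)
  linarith

/-! ### The limit of the weights -/

private lemma limit_wn {R₀ : ℝ} {u : ℂ → ℂ} (hu : MeroPunct R₀ u) {x A : ℝ}
    (hx : Real.exp (-x) < R₀) (hA : 0 ≤ A)
    (h : ∀ n : ℕ, mean (fun z => wn n (Real.log ‖u z‖) * ‖z * deriv u z / u z‖ ^ 2) x ≤ A) :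
    CircleIntegrable (fun z => wt (Real.log ‖u z‖) * ‖z * deriv u z / u z‖ ^ 2) 0
      (Real.exp (-x)) ∧
    mean (fun z => wt (Real.log ‖u z‖) * ‖z * deriv u z / u z‖ ^ 2) x ≤ A := by
  set r := Real.exp (-x) with hr
  set F : ℕ → ℝ → ℝ := fun n θ => wn n (Real.log ‖u (circleMap 0 r θ)‖) *
    ‖circleMap 0 r θ * deriv u (circleMap 0 r θ) / u (circleMap 0 r θ)‖ ^ 2 with hF
  set G : ℝ → ℝ := fun θ => wt (Real.log ‖u (circleMap 0 r θ)‖) *
    ‖circleMap 0 r θ * deriv u (circleMap 0 r θ) / u (circleMap 0 r θ)‖ ^ 2 with hG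
  set μ : Measure ℝ := volume.restrict (Set.Ioc 0 (2 * Real.pi)) with hμ
  have hpi : (0 : ℝ) < 2 * Real.pi := by positivity
  have hFi : ∀ n, Integrable (F n) μ := by
    intro n
    have h1 := circleIntegrable_wn hu n hx
    unfold CircleIntegrable at h1
    rw [intervalIntegrable_iff_integrableOn_Ioc_of_le hpi.le] at h1
    exact h1
  have hF0 : ∀ n θ, 0 ≤ F n θ := fun n θ => mul_nonneg (wn_nonneg _ _) (sq_nonneg _)
  have hG0 : ∀ θ, 0 ≤ G θ := fun θ => mul_nonneg (wt_nonneg _) (sq_nonneg _)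
  have hlim : ∀ θ, Tendsto (fun n => F n θ) atTop (𝓝 (G θ)) := fun θ =>
    (wn_tendsto _).mul_const _
  have hFint : ∀ n, ∫ θ, F n θ ∂μ ≤ 2 * Real.pi * A := by
    intro n
    have h1 := h n
    unfold mean at h1
    rw [Real.circleAverage_def, smul_eq_mul, intervalIntegral.integral_of_le hpi.le] at h1
    have h2 := mul_le_mul_of_nonneg_left h1 hpi.le
    rw [← mul_assoc, mul_inv_cancel₀ hpi.ne', one_mul] at h2
    exact h2
  have hmeas : AEStronglyMeasurable G μ :=
    aestronglyMeasurable_of_tendsto_ae atTop (fun n => (hFi n).aestronglyMeasurable)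
      (Eventually.of_forall hlim)
  have hlint : ∫⁻ θ, ENNReal.ofReal (G θ) ∂μ ≤ ENNReal.ofReal (2 * Real.pi * A) := by
    have h1 := lintegral_liminf_le' (μ := μ) (f := fun n θ => ENNReal.ofReal (F n θ))
      (u := atTop) fun n => (hFi n).aestronglyMeasurable.aemeasurable.ennreal_ofReal
    have h2 : ∀ θ, liminf (fun n => ENNReal.ofReal (F n θ)) atTop = ENNReal.ofReal (G θ) :=
      fun θ => (ENNReal.tendsto_ofReal (hlim θ)).liminf_eq
    simp only [h2] at h1
    refine h1.trans ?_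
    have h3 : liminf (fun n => ∫⁻ θ, ENNReal.ofReal (F n θ) ∂μ) atTop ≤
        liminf (fun _ : ℕ => ENNReal.ofReal (2 * Real.pi * A)) atTop := by
      refine liminf_le_liminf (Eventually.of_forall fun n => ?_)
      rw [← ofReal_integral_eq_lintegral_ofReal (hFi n) (Eventually.of_forall (hF0 n))]
      exact ENNReal.ofReal_le_ofReal (hFint n)
    rwa [liminf_const] at h3
  have hGi : Integrable G μ := by
    refine ⟨hmeas, ?_⟩
    rw [hasFiniteIntegral_iff_ofReal (Eventually.of_forall hG0)]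
    exact hlint.trans_lt ENNReal.ofReal_lt_top
  refine ⟨?_, ?_⟩
  · unfold CircleIntegrable
    rw [intervalIntegrable_iff_integrableOn_Ioc_of_le hpi.le]
    exact hGi
  · unfold mean
    rw [Real.circleAverage_def, smul_eq_mul, intervalIntegral.integral_of_le hpi.le]
    have h1 : ∫ θ, G θ ∂μ ≤ 2 * Real.pi * A := by
      rw [integral_eq_lintegral_of_nonneg_ae (Eventually.of_forall hG0) hmeas]
      have h2 := ENNReal.toReal_mono ENNReal.ofReal_ne_top hlint
      rwa [ENNReal.toReal_ofReal (by positivity)] at h2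
    have h2 := mul_le_mul_of_nonneg_left h1 (inv_nonneg.2 hpi.le)
    rw [← mul_assoc, inv_mul_cancel₀ hpi.ne', one_mul] at h2
    exact h2

/-- The bound of the mean of `posLog ‖u' / u‖`. -/
private lemma mean_bound {R₀ : ℝ} {u : ℂ → ℂ} (hu : MeroPunct R₀ u) {x A B : ℝ}
    (hx : Real.exp (-x) < R₀) (hA : 0 ≤ A)
    (h : ∀ n : ℕ, mean (fun z => wn n (Real.log ‖u z‖) * ‖z * deriv u z / u z‖ ^ 2) x ≤ A)
    (hB : mean (fun z => |Real.log ‖u z‖|) x ≤ B) :
    mean (fun z => Real.posLog ‖deriv u z / u z‖) x ≤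
      1 / 2 * Real.log (1 + A) + Real.log (1 + B) + |x| := by
  obtain ⟨hgi, hgm⟩ := limit_wn hu hx hA h
  have hB0 : 0 ≤ B := (Real.circleAverage_nonneg_of_nonneg fun z _ => abs_nonneg _).trans hB
  have hR0 : 0 ≤ 1 / 2 * Real.log (1 + A) + Real.log (1 + B) + |x| := by
    have h1 := Real.log_nonneg (by linarith only [hA] : (1 : ℝ) ≤ 1 + A)
    have h2 := Real.log_nonneg (by linarith only [hB0] : (1 : ℝ) ≤ 1 + B)
    have := abs_nonneg x
    linarith only [h1, h2, this]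
  by_cases hP : CircleIntegrable (fun z => Real.posLog ‖deriv u z / u z‖) 0 (Real.exp (-x))
  swap
  · unfold mean
    rw [Real.circleAverage.integral_undef hP]
    exact hR0
  have hL : CircleIntegrable (fun z => |Real.log ‖u z‖|) 0 (Real.exp (-x)) :=
    (MeroPunct.circleIntegrable_log hu hx).abs
  set g : ℂ → ℝ := fun z => wt (Real.log ‖u z‖) * ‖z * deriv u z / u z‖ ^ 2 with hg
  set l : ℂ → ℝ := fun z => |Real.log ‖u z‖| with hl
  -- the upper bound as a linear combination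
  set c : ℝ := 1 / 2 * (Real.log (1 + A) - A / (1 + A)) + (Real.log (1 + B) - B / (1 + B)) + |x|
    with hc
  have hci : CircleIntegrable (fun _ : ℂ => c) 0 (Real.exp (-x)) := circleIntegrable_const c 0 _
  have h1i : CircleIntegrable (fun z => (1 / (2 * (1 + A))) • g z) 0 (Real.exp (-x)) :=
    hgi.const_smul
  have h2i : CircleIntegrable (fun z => (1 / (1 + B)) • l z) 0 (Real.exp (-x)) :=
    hL.const_smul
  have hsi : CircleIntegrable (fun z => (1 / (2 * (1 + A))) • g z + (1 / (1 + B)) • l z) 0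
      (Real.exp (-x)) := h1i.add h2i
  have hti : CircleIntegrable
      (fun z => ((1 / (2 * (1 + A))) • g z + (1 / (1 + B)) • l z) + c) 0
      (Real.exp (-x)) := hsi.add hci
  have hmono : Real.circleAverage (fun z => Real.posLog ‖deriv u z / u z‖) 0 (Real.exp (-x)) ≤
      Real.circleAverage (fun z => ((1 / (2 * (1 + A))) • g z + (1 / (1 + B)) • l z) + c) 0
        (Real.exp (-x)) := by
    refine Real.circleAverage_mono hP hti fun z hz => ?_
    rw [abs_of_pos (Real.exp_pos _), mem_sphere_zero_iff_norm] at hz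
    have h1 := pointwise hz (u z) (deriv u z) hA hB0
    refine h1.trans (le_of_eq ?_)
    rw [hc, hg, hl, smul_eq_mul, smul_eq_mul]
    have hA1 : (1 : ℝ) + A ≠ 0 := by linarith only [hA]
    have hB1 : (1 : ℝ) + B ≠ 0 := by linarith only [hB0]
    field_simp
    ring
  unfold mean at hgm hB ⊢
  rw [Real.circleAverage_fun_add hsi hci, Real.circleAverage_fun_add h1i h2i,
    Real.circleAverage_fun_smul, Real.circleAverage_fun_smul, Real.circleAverage_const,
    smul_eq_mul, smul_eq_mul] at hmono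
  refine hmono.trans ?_
  have hA1 : (0 : ℝ) < 1 + A := by linarith only [hA]
  have hB1 : (0 : ℝ) < 1 + B := by linarith only [hB0]
  have e1 : 1 / (2 * (1 + A)) * Real.circleAverage g 0 (Real.exp (-x)) ≤
      1 / (2 * (1 + A)) * A := mul_le_mul_of_nonneg_left hgm (by positivity)
  have e2 : 1 / (1 + B) * Real.circleAverage l 0 (Real.exp (-x)) ≤ 1 / (1 + B) * B :=
    mul_le_mul_of_nonneg_left hB (by positivity)
  have e3 : 1 / (2 * (1 + A)) * A = 1 / 2 * (A / (1 + A)) := by field_simp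
  have e4 : 1 / (1 + B) * B = B / (1 + B) := by field_simp
  rw [hc]
  linarith only [e1, e2, e3, e4]

private lemma locFin_neg {R₀ : ℝ} {u : ℂ → ℂ} (hu : MeroPunct R₀ u) :
    LocFin R₀ (fun s => max (-(ordZ u s : ℝ)) 0) := by
  intro r b hr hb
  refine (MeroPunct.locFin hu r b hr hb).subset fun s hs => ?_
  refine ⟨hs.1, hs.2.1, fun h => hs.2.2 ?_⟩
  simp only [h, neg_zero, max_self]

private lemma nevT_radius {R₀ R₁ R' : ℝ} (h1 : 0 < R₁) (h : R₁ < R₀) (h1' : 0 < R') (h' : R' < R₀)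
    {u : ℂ → ℂ} (hu : MeroPunct R₀ u) :
    ∃ C : ℝ, ∀ x, Real.exp (-x) < R₁ → Real.exp (-x) < R' →
      nevT u R' x ≤ nevT u R₁ x + C * (1 + |x|) := by
  rcases le_total R₁ R' with hle | hle
  · obtain ⟨C, hC⟩ := cnt_radius h1 hle h' (locFin_neg hu)
    refine ⟨C, fun x hx _ => ?_⟩
    have h2 := (abs_le.1 (hC x hx)).2
    unfold nevT
    linarith
  · obtain ⟨C, hC⟩ := cnt_radius h1' hle h (locFin_neg hu)
    refine ⟨C, fun x _ hx => ?_⟩
    have h2 := (abs_le.1 (hC x hx)).1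
    unfold nevT
    linarith

/-- Lemma on the logarithmic derivative. -/
theorem MeroPunct.logDeriv_negl {R₀ R₁ : ℝ} (h1 : 0 < R₁) (h : R₁ < R₀) {u : ℂ → ℂ}
    (hu : MeroPunct R₀ u) :
    Negl R₁ (nevT u R₁) (mean fun z => Real.posLog ‖deriv u z / u z‖) := by
  intro ε hε
  have hR₀ : 0 < R₀ := h1.trans h
  obtain ⟨R', C₀, hR', hR'0, hpot⟩ := potential_ineq hR₀ hu
  obtain ⟨C₁, hC₁⟩ := MeroPunct.mean_abs_add_cnt hu hR' hR'0
  obtain ⟨C₂, hC₂⟩ := nevT_radius h1 h hR' hR'0 hu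
  have hpot' : ∀ n : ℕ, _ := fun n => hpot (wn n) n (wn_cont n) (wn_nonneg n) (wn_neg n)
    (Nat.cast_nonneg n) (fun t ht => wn_zero (ht.trans (le_abs_self t))) (wn_integral n)
  set x₀ : ℝ := -Real.log R' with hx₀
  set G : ℕ → ℝ → ℝ := fun n x =>
    mean (fun z => wn n (Real.log ‖u z‖) * ‖z * deriv u z / u z‖ ^ 2) x with hG
  set Bd : ℝ → ℝ := fun x => mean (fun z => |Real.log ‖u z‖|) x +
    cnt (fun s => |(ordZ u s : ℝ)|) R' (Real.exp (-x)) + |C₀| * (1 + |x|) with hBd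
  have hexp : ∀ x, x₀ ≤ x → Real.exp (-x) < R₀ := by
    intro x hx
    have : Real.exp (-x) ≤ R' := by
      rw [← Real.exp_log hR']
      refine Real.exp_le_exp.2 ?_
      rw [hx₀] at hx
      linarith only [hx]
    linarith only [hR'0, this]
  have hG0 : ∀ n x, 0 ≤ G n x := fun n x =>
    Real.circleAverage_nonneg_of_nonneg fun z _ => mul_nonneg (wn_nonneg _ _) (sq_nonneg _)
  have hH : ∀ n x, x₀ ≤ x → (∫ y in x₀..x, (x - y) * G n y) ≤ Bd x := by
    intro n x hx
    refine ((hpot' n).2 x hx).trans ?_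
    rw [hBd]
    have := le_abs_self C₀
    have := abs_nonneg x
    have h3 : C₀ * (1 + |x|) ≤ |C₀| * (1 + |x|) :=
      mul_le_mul_of_nonneg_right (le_abs_self C₀) (by linarith only [this])
    show _ ≤ mean (fun z => |Real.log ‖u z‖|) x +
      cnt (fun s => |(ordZ u s : ℝ)|) R' (Real.exp (-x)) + |C₀| * (1 + |x|)
    linarith only [h3]
  have hH0 : ∀ n x, x₀ ≤ x → 0 ≤ ∫ y in x₀..x, (x - y) * G n y := by
    intro n x hx
    refine intervalIntegral.integral_nonneg hx fun y hy => ?_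
    exact mul_nonneg (by linarith only [hy, hy.2]) (hG0 n y)
  have hBd0 : ∀ x, x₀ ≤ x → 0 ≤ Bd x := fun x hx => (hH0 0 x hx).trans (hH 0 x hx)
  set En : ℕ → Set ℝ := fun n => {x | x₀ ≤ x ∧ 4 * (1 + Bd x) ^ 4 < G n x} with hEn
  have hEn2 : ∀ n, volume (En n) ≤ 2 := by
    intro n
    refine (measure_mono ?_).trans (calculus_lemma (hpot' n).1 fun x _ => hG0 n x)
    rintro x ⟨hx, hx2⟩
    refine ⟨hx, lt_of_le_of_lt ?_ hx2⟩
    have h3 := hH n x hx
    have h4 := hH0 n x hx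
    refine mul_le_mul_of_nonneg_left (pow_le_pow_left₀ (by linarith only [h4]) (by linarith only [h3]) 4) (by norm_num)
  have hmono : Monotone En := by
    intro n m hnm x hx
    refine ⟨hx.1, lt_of_lt_of_le hx.2 ?_⟩
    refine Real.circleAverage_mono (circleIntegrable_wn hu n (hexp x hx.1))
      (circleIntegrable_wn hu m (hexp x hx.1)) fun z _ => ?_
    exact mul_le_mul_of_nonneg_right (wn_mono hnm _) (sq_nonneg _)
  have hEU : volume (⋃ n, En n) ≤ 2 := by
    rw [hmono.measure_iUnion]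
    exact iSup_le hEn2
  set η : ℝ := ε / 6 with hη
  have hη0 : 0 < η := by positivity
  refine ⟨3 + 3 * (η + |Real.log η|) + ε / 2 * abs (2 * C₂ + C₁ + |C₀|),
    (⋃ n, En n) ∪ Set.Icc (-Real.log R₁) x₀, ?_, ?_⟩
  · refine ne_top_of_le_ne_top ?_ (measure_union_le _ _)
    refine ENNReal.add_ne_top.2 ⟨ne_top_of_le_ne_top (by norm_num) hEU, ?_⟩
    rw [Real.volume_Icc]
    exact ENNReal.ofReal_ne_top
  · intro x hx hxE
    have hx1 : -Real.log R₁ < x := by
      have := Real.log_lt_log (Real.exp_pos _) hx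
      rw [Real.log_exp] at this
      linarith only [this]
    have hx2 : x₀ < x := by
      by_contra hcon
      exact hxE (Or.inr ⟨hx1.le, not_lt.1 hcon⟩)
    have hx3 : Real.exp (-x) < R' := by
      rw [← Real.exp_log hR']
      refine Real.exp_lt_exp.2 ?_
      rw [hx₀] at hx2
      linarith only [hx2]
    have hGA : ∀ n, G n x ≤ 4 * (1 + Bd x) ^ 4 := by
      intro n
      by_contra hcon
      exact hxE (Or.inl (Set.mem_iUnion.2 ⟨n, hx2.le, not_le.1 hcon⟩))
    have ht := hBd0 x hx2.le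
    have hax : 0 ≤ |x| := abs_nonneg x
    have hcnt : 0 ≤ cnt (fun s => |(ordZ u s : ℝ)|) R' (Real.exp (-x)) :=
      cnt_nonneg (Real.exp_pos _) fun s => abs_nonneg _
    have hB : mean (fun z => |Real.log ‖u z‖|) x ≤ Bd x := by
      have h3 : 0 ≤ |C₀| * (1 + |x|) := by positivity
      show _ ≤ mean (fun z => |Real.log ‖u z‖|) x +
        cnt (fun s => |(ordZ u s : ℝ)|) R' (Real.exp (-x)) + |C₀| * (1 + |x|)
      linarith only [hcnt, h3]
    have hmain := mean_bound hu (hexp x hx2.le) (A := 4 * (1 + Bd x) ^ 4) (B := Bd x)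
      (by positivity) hGA hB
    have hlog1 : Real.log (1 + 4 * (1 + Bd x) ^ 4) ≤ 4 + 4 * Real.log (1 + Bd x) := by
      have h3 : 1 + 4 * (1 + Bd x) ^ 4 ≤ 5 * (1 + Bd x) ^ 4 := by
        have : (1 : ℝ) ≤ (1 + Bd x) ^ 4 := one_le_pow₀ (by linarith only [ht])
        linarith only [this]
      have h4 := Real.log_le_log (by positivity) h3
      rw [Real.log_mul (by norm_num) (by positivity), Real.log_pow] at h4
      have h5 := Real.log_le_sub_one_of_pos (by norm_num : (0 : ℝ) < 5)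
      push_cast at h4
      linarith only [h4, h5]
    have hlog2 := log_le_eps hη0 ht
    have hT := hC₁ x hx3
    have hT2 := hC₂ x hx hx3
    have hBdle : Bd x ≤ 2 * nevT u R₁ x + (2 * C₂ + C₁ + |C₀|) * (1 + |x|) := by
      show mean (fun z => |Real.log ‖u z‖|) x +
        cnt (fun s => |(ordZ u s : ℝ)|) R' (Real.exp (-x)) + |C₀| * (1 + |x|) ≤ _
      nlinarith only [hT, hT2]
    have hBdle2 : Bd x ≤ 2 * nevT u R₁ x + abs (2 * C₂ + C₁ + |C₀|) * (1 + |x|) := by
      have : (2 * C₂ + C₁ + |C₀|) * (1 + |x|) ≤ abs (2 * C₂ + C₁ + |C₀|) * (1 + |x|) :=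
        mul_le_mul_of_nonneg_right (le_abs_self _) (by linarith only [hax])
      linarith only [hT, hT2, this]
    have h6 : 3 * (η * Bd x) ≤ ε * nevT u R₁ x +
        ε / 2 * abs (2 * C₂ + C₁ + |C₀|) * (1 + |x|) := by
      have h7 := mul_le_mul_of_nonneg_left hBdle2 (by positivity : 0 ≤ 3 * η)
      rw [hη] at h7 ⊢
      linarith only [h7]
    have h8 : 0 ≤ 3 * (η + |Real.log η|) * |x| := by positivity
    show mean (fun z => Real.posLog ‖deriv u z / u z‖) x ≤ _
    nlinarith only [hax, hmain, hlog1, hlog2, h6, h8]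

end Pool.Agent.H62.FC

end
end

section

/-!
# DG, module D1: a second main theorem with truncation level one at a puncture (abstract form)
-/

noncomputable section

namespace Pool.Agent.H5.DG

open Filter Topology MeasureTheory
open Pool.Agent.H92.GGL (ordZ)
open Pool.Agent.H62.FC

/-! ### Means -/

private theorem circleIntegrable_sup {f g : ℂ → ℝ} {c : ℂ} {R : ℝ} (hf : CircleIntegrable f c R)
    (hg : CircleIntegrable g c R) : CircleIntegrable (f ⊔ g) c R := by
  have h : f ⊔ g = (1 / 2 : ℝ) • (f + g + |g - f|) := by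
    funext z
    simp only [Pi.sup_apply, Pi.smul_apply, Pi.add_apply, Pi.abs_apply, Pi.sub_apply, smul_eq_mul]
    rw [max_def]
    split_ifs with h1
    · rw [abs_of_nonneg (by linarith)]
      ring
    · rw [abs_of_nonpos (by linarith)]
      ring
  rw [h]
  exact ((hf.add hg).add (hg.sub hf).abs).const_smul

private theorem mean_mono {f g : ℂ → ℝ} {x : ℝ} (hf : CircleIntegrable f 0 (Real.exp (-x)))
    (hg : CircleIntegrable g 0 (Real.exp (-x)))
    (h : ∀ z ∈ Metric.sphere (0 : ℂ) |Real.exp (-x)|, ∀ᶠ ζ in 𝓝[≠] z, f ζ ≤ g ζ) :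
    mean f x ≤ mean g x := by
  have h1 : g =ᶠ[codiscreteWithin (Metric.sphere (0 : ℂ) |Real.exp (-x)|)]
      fun z => max (f z) (g z) := by
    rw [Filter.EventuallyEq, Filter.Eventually, mem_codiscreteWithin_iff_forall_mem_nhdsNE]
    intro z hz
    filter_upwards [h z hz] with ζ hζ
    left
    show g ζ = max (f ζ) (g ζ)
    rw [max_eq_right hζ]
  have h2 : mean g x = mean (fun z => max (f z) (g z)) x :=
    Real.circleAverage_congr_codiscreteWithin h1 (Real.exp_ne_zero _)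
  rw [h2]
  exact Real.circleAverage_mono hf (CircleIntegrable.congr_codiscreteWithin h1 hg)
    fun z _ => le_max_left _ _

private theorem exists_T {ι : Type*} [Finite ι] {R₀ R₁ : ℝ} (h : R₁ < R₀) {w : ι → ℂ → ℝ}
    (hw : ∀ i, LocFin R₀ (w i)) {r : ℝ} (hr : 0 < r) :
    ∃ (T : Finset ℂ) (l : ℂ → ℝ), (∀ s ∈ T, r < ‖s‖ ∧ ‖s‖ < R₁ ∧ 0 ≤ l s) ∧
      ∀ w' : ℂ → ℝ, (∀ s, (∀ i, w i s = 0) → w' s = 0) →
        cnt w' R₁ r = ∑ s ∈ T, w' s * l s := by
  classical
  have hfin : (⋃ i, {s : ℂ | r ≤ ‖s‖ ∧ ‖s‖ ≤ R₁ ∧ w i s ≠ 0}).Finite :=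
    Set.finite_iUnion fun i => hw i r R₁ hr h
  refine ⟨hfin.toFinset.filter fun s => r < ‖s‖ ∧ ‖s‖ < R₁, fun s => Real.log (‖s‖ / r),
    fun s hs => ?_, fun w' hw' => ?_⟩
  · rw [Finset.mem_filter] at hs
    refine ⟨hs.2.1, hs.2.2, Real.log_nonneg ?_⟩
    rw [le_div_iff₀ hr, one_mul]
    exact hs.2.1.le
  · refine cnt_eq_sum (fun s h1 h2 h3 => ?_) hr
    rw [Set.Finite.mem_toFinset, Set.mem_iUnion]
    by_contra hcon
    refine h3 (hw' s fun i => ?_)
    by_contra hi
    exact hcon ⟨i, h1.le, h2.le, hi⟩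

private theorem linear_bound (A B x : ℝ) : |A + B * x| ≤ (|A| + |B|) * (1 + |x|) := by
  have h1 : |A + B * x| ≤ |A| + |B| * |x| := by
    rw [← abs_mul]
    exact abs_add_le A (B * x)
  nlinarith only [h1, abs_nonneg A, abs_nonneg B, abs_nonneg x, mul_nonneg (abs_nonneg A) (abs_nonneg x)]

private theorem circleAverage_const_mul (a : ℝ) (f : ℂ → ℝ) (R : ℝ) :
    Real.circleAverage (fun z => a * f z) 0 R = a * Real.circleAverage f 0 R :=
  Real.circleAverage_fun_smul (a := a)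

/-- The sum of the logarithmic derivatives. -/
private def Q {ι : Type} [Fintype ι] (h : ι → ℂ → ℂ) (z : ℂ) : ℝ :=
  ∑ i, Real.posLog ‖deriv (h i) z / h i z‖

private theorem log_one_add_sum {ι : Type} [Fintype ι] (a : ι → ℝ) :
    Real.log (1 + ∑ i, a i) ≤ Real.log (Fintype.card ι + 1) + ∑ i, Real.posLog (a i) := by
  have h1 := Real.posLog_sum (Finset.univ : Finset (Option ι)) (fun o => o.elim 1 a)
  rw [Fintype.sum_option, Fintype.sum_option, Finset.card_univ, Fintype.card_option] at h1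
  simp only [Option.elim_none, Option.elim_some, Real.posLog_one, zero_add] at h1
  push_cast at h1
  exact (le_max_right _ _).trans h1

/-- **Second main theorem at a puncture, abstract form.** -/
theorem smt_punct {ι : Type} [Fintype ι] {R₀ : ℝ} (hR₀ : 0 < R₀) {h : ι → ℂ → ℂ}
    (hh : ∀ i, MeroPunct R₀ (h i)) {i₀ : ι}
    (hi₀ : ∀ z, 0 < ‖z‖ → ‖z‖ < R₀ → ∀ᶠ ζ in 𝓝[≠] z, h i₀ ζ = 1) {P : ℂ → ℂ}
    (hP : MeroPunct R₀ P) {J : Finset ι} {K ρ m : ℕ} {C : ℝ}
    (hpt : ∀ z, 0 < ‖z‖ → ‖z‖ < R₀ → ∀ᶠ ζ in 𝓝[≠] z, ∀ H : ℝ, (∀ i, ‖h i ζ‖ ≤ H) →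
      (∃ i, ‖h i ζ‖ = H) → ‖P ζ‖ * H ^ J.card ≤
        C * H ^ K * (∏ j ∈ J, ‖h j ζ‖) * (1 + ∑ i, ‖deriv (h i) ζ / h i ζ‖) ^ ρ)
    (hloc : ∀ s, 0 < ‖s‖ → ‖s‖ < R₀ → ∀ μ : ℤ, (∀ i, μ ≤ ordZ (h i) s) →
      (∃ i, ordZ (h i) s = μ) →
      K * μ + ∑ j ∈ J, max (ordZ (h j) s - μ - 1) 0 ≤ ordZ P s)
    (hmult : ∀ j ∈ J, ∀ s, 0 < ‖s‖ → ‖s‖ < R₀ → ∀ μ : ℤ, (∀ i, μ ≤ ordZ (h i) s) →
      (∃ i, ordZ (h i) s = μ) → ordZ (h j) s = μ ∨ μ + m ≤ ordZ (h j) s)
    (hm : 1 ≤ m) (hnum : K * m < J.card * (m - 1)) (i : ι) : PunctMero (h i) := by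
  classical
  have : Nonempty ι := ⟨i₀⟩
  obtain ⟨R₁, hR₁⟩ : ∃ R₁, R₁ = R₀ / 2 := ⟨_, rfl⟩
  have h1 : 0 < R₁ := by rw [hR₁]; linarith only [hR₀]
  have h12 : R₁ < R₀ := by rw [hR₁]; linarith only [hR₀]
  -- numbers
  have hmR : (0 : ℝ) < m := by exact_mod_cast hm
  obtain ⟨q, hq⟩ : ∃ q, q = J.card := ⟨_, rfl⟩
  rw [← hq] at hnum
  set δ : ℝ := (q : ℝ) - K - q / m with hδ
  have hδ0 : 0 < δ := by
    have h3 : (K : ℝ) * m < q * (m - 1) := by
      have h4 : ((K * m : ℕ) : ℝ) < ((q * (m - 1) : ℕ) : ℝ) := by exact_mod_cast hnum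
      push_cast [Nat.cast_sub hm] at h4
      exact h4
    have h5 : δ * m = q * (m - 1) - K * m := by
      rw [hδ]
      field_simp
      ring
    nlinarith only [h3, h5]
  -- the minimum of the orders
  obtain ⟨μ, hμ0, hμj, hμ'⟩ : ∃ μ : ℂ → ℤ, (∀ s, 0 < ‖s‖ → ‖s‖ < R₀ → μ s ≤ 0) ∧
      (∀ s j, μ s ≤ ordZ (h j) s) ∧ ∀ s, ∃ j, ordZ (h j) s = μ s := by
    refine ⟨fun s => Finset.univ.inf' Finset.univ_nonempty (fun j => ordZ (h j) s),
      fun s hs1 hs2 => ?_, fun s j => Finset.inf'_le _ (Finset.mem_univ j), fun s => ?_⟩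
    · refine (Finset.inf'_le _ (Finset.mem_univ i₀)).trans (le_of_eq ?_)
      unfold ordZ
      have h3 : h i₀ =ᶠ[𝓝[≠] s] fun _ => 1 := hi₀ s hs1 hs2
      rw [meromorphicOrderAt_congr h3, meromorphicOrderAt_const]
      simp
    · obtain ⟨j, -, hj⟩ := Finset.exists_mem_eq_inf' (Finset.univ_nonempty (α := ι))
        (fun j => ordZ (h j) s)
      exact ⟨j, hj.symm⟩
  -- the characteristic function
  obtain ⟨G, hG⟩ : ∃ G : ℂ → ℝ, ∀ z, G z =
      Finset.univ.sup' Finset.univ_nonempty (fun j => Real.posLog ‖h j z‖) := ⟨_, fun z => rfl⟩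
  have hGj : ∀ z j, Real.posLog ‖h j z‖ ≤ G z := by
    intro z j
    rw [hG]
    exact Finset.le_sup' (fun j => Real.posLog ‖h j z‖) (Finset.mem_univ j)
  have hG0 : ∀ z, 0 ≤ G z := fun z => Real.posLog_nonneg.trans (hGj z i₀)
  -- weights
  have hLoc : ∀ o : Option ι, LocFin R₀ (fun s => (ordZ (o.elim P h) s : ℝ)) := by
    intro o
    cases o with
    | none => exact MeroPunct.locFin hP
    | some j => exact MeroPunct.locFin (hh j)
  -- constants
  choose A B hAB using fun j => MeroPunct.jensen (hh j) h1 h12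
  obtain ⟨A', B', hAB'⟩ := MeroPunct.jensen hP h1 h12
  obtain ⟨L, hL⟩ : ∃ L : ℝ, L = |Real.log C| + ρ * Real.log (Fintype.card ι + 1) := ⟨_, rfl⟩
  have hcard : (0 : ℝ) < Fintype.card ι := by exact_mod_cast Fintype.card_pos
  have hL0 : 0 ≤ L := by
    rw [hL]
    have := Real.log_nonneg (show (1 : ℝ) ≤ Fintype.card ι + 1 by linarith only [hcard])
    positivity
  have hε : 0 < δ / 2 / ((ρ + 1) * Fintype.card ι) := by positivity
  choose Cq E hE hq' using fun i : ι =>
    MeroPunct.logDeriv_negl h1 h12 (hh i) _ hε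
  -- the exceptional set
  have hE' : volume (⋃ i, E i) ≠ ⊤ := by
    refine ((measure_iUnion_fintype_le volume _).trans_lt ?_).ne
    exact ENNReal.sum_lt_top.2 fun p _ => lt_top_iff_ne_top.2 (hE p)
  obtain ⟨C₀, hC₀⟩ : ∃ C₀ : ℝ, C₀ = (∑ j, (|A j| + |B j|)) + (|A'| + |B'|) + L +
    ρ * (∑ i, |Cq i|) + 1 / m * ∑ j, (|A j| + |B j|) := ⟨_, rfl⟩
  refine punctMero_of_nevT h1 h12 (hh i) (C := 2 / δ * C₀) hE' fun x hx hxE => ?_
  have hxR₀ : Real.exp (-x) < R₀ := hx.trans h12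
  have hr : 0 < Real.exp (-x) := Real.exp_pos _
  have hxE' : ∀ i, x ∉ E i := fun i hcon => hxE (Set.mem_iUnion.2 ⟨i, hcon⟩)
  have hsph : ∀ z ∈ Metric.sphere (0 : ℂ) |Real.exp (-x)|, 0 < ‖z‖ ∧ ‖z‖ < R₀ := by
    intro z hz
    rw [mem_sphere_zero_iff_norm, abs_of_pos hr] at hz
    rw [hz]
    exact ⟨hr, hxR₀⟩
  -- integrability
  have hIG : CircleIntegrable G 0 (Real.exp (-x)) := by
    have hsup := Finset.sup'_induction (Finset.univ_nonempty (α := ι))
      (fun j => fun z => Real.posLog ‖h j z‖)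
      (p := fun f : ℂ → ℝ => CircleIntegrable f 0 (Real.exp (-x)))
      (fun f hf g hg => circleIntegrable_sup hf hg)
      (fun j _ => MeroPunct.circleIntegrable_posLog (hh j) hxR₀)
    have e : G = Finset.univ.sup' (Finset.univ_nonempty (α := ι))
        (fun j => fun z => Real.posLog ‖h j z‖) := by
      funext z
      rw [hG, Finset.sup'_apply]
    rw [e]
    exact hsup
  have hIlog : ∀ j, CircleIntegrable (fun z => Real.log ‖h j z‖) 0 (Real.exp (-x)) :=
    fun j => MeroPunct.circleIntegrable_log (hh j) hxR₀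
  have hIP : CircleIntegrable (fun z => Real.log ‖P z‖) 0 (Real.exp (-x)) :=
    MeroPunct.circleIntegrable_log hP hxR₀
  have hIq : ∀ j, CircleIntegrable (fun z => Real.posLog ‖deriv (h j) z / h j z‖) 0
      (Real.exp (-x)) := by
    intro j
    apply MeromorphicOn.circleIntegrable_posLog_norm
    intro z hz
    obtain ⟨hz1, hz2⟩ := hsph z hz
    have hm := (hh j).mero z hz1 hz2
    exact hm.deriv.fun_div hm
  have hIQ : CircleIntegrable (Q h) 0 (Real.exp (-x)) := by
    have e : Q h = ∑ j, fun z => Real.posLog ‖deriv (h j) z / h j z‖ := by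
      funext z
      unfold Q
      simp only [Finset.sum_apply]
    rw [e]
    exact CircleIntegrable.sum _ fun i _ => hIq i
  have hISum : CircleIntegrable (fun z => ∑ j ∈ J, Real.log ‖h j z‖) 0 (Real.exp (-x)) := by
    have e : (fun z => ∑ j ∈ J, Real.log ‖h j z‖) = ∑ j ∈ J, fun z => Real.log ‖h j z‖ := by
      funext z
      simp only [Finset.sum_apply]
    rw [e]
    exact CircleIntegrable.sum _ fun j _ => hIlog j
  have hISP : CircleIntegrable (fun z => (∑ j ∈ J, Real.log ‖h j z‖) - Real.log ‖P z‖) 0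
      (Real.exp (-x)) := hISum.sub hIP
  have hIρQ : CircleIntegrable (fun z => ρ * Q h z) 0 (Real.exp (-x)) :=
    hIQ.const_smul (a := (ρ : ℝ))
  have hILρ : CircleIntegrable (fun z => L + ρ * Q h z) 0 (Real.exp (-x)) :=
    (circleIntegrable_const L 0 _).add hIρQ
  have hIR : CircleIntegrable (fun z => (∑ j ∈ J, Real.log ‖h j z‖) - Real.log ‖P z‖ +
      (L + ρ * Q h z)) 0 (Real.exp (-x)) := hISP.add hILρ
  have hIqG : CircleIntegrable (fun z => ((q : ℝ) - K) * G z) 0 (Real.exp (-x)) :=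
    hIG.const_smul (a := ((q : ℝ) - K))
  -- the mean of `G`
  have hmG : ((q : ℝ) - K) * mean G x ≤ (∑ j ∈ J, mean (fun z => Real.log ‖h j z‖) x) -
      mean (fun z => Real.log ‖P z‖) x +
      (L + ρ * ∑ j, mean (fun z => Real.posLog ‖deriv (h j) z / h j z‖) x) := by
    have h := mean_mono (x := x) hIqG hIR (fun z hz => by
      obtain ⟨hz1, hz2⟩ := hsph z hz
      have e1 : ∀ᶠ ζ in 𝓝[≠] z, ∀ j, h j ζ ≠ 0 :=
        Filter.eventually_all.2 fun j =>
          (meromorphicOrderAt_ne_top_iff_eventually_ne_zero ((hh j).mero z hz1 hz2)).1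
            ((hh j).ord z hz1 hz2)
      have e2 : ∀ᶠ ζ in 𝓝[≠] z, P ζ ≠ 0 :=
        (meromorphicOrderAt_ne_top_iff_eventually_ne_zero (hP.mero z hz1 hz2)).1
          (hP.ord z hz1 hz2)
      filter_upwards [hpt z hz1 hz2, e1, e2, hi₀ z hz1 hz2] with ζ h3 h4 h5 h1'
      obtain ⟨j₁, -, hj₁⟩ := (Finset.univ : Finset ι).exists_max_image (fun j => ‖h j ζ‖)
        ⟨i₀, Finset.mem_univ _⟩
      have hH := h3 ‖h j₁ ζ‖ (fun j => hj₁ j (Finset.mem_univ _)) ⟨j₁, rfl⟩
      have hH1 : 1 ≤ ‖h j₁ ζ‖ := by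
        refine le_trans (le_of_eq ?_) (hj₁ i₀ (Finset.mem_univ _))
        rw [h1', norm_one]
      have hGe : G ζ = Real.log ‖h j₁ ζ‖ := by
        rw [hG]
        refine le_antisymm (Finset.sup'_le _ _ fun j hj => ?_) ?_
        · rw [← Real.posLog_eq_log (by rw [abs_norm]; exact hH1)]
          exact Real.posLog_le_posLog (norm_nonneg _) (hj₁ j hj)
        · rw [← Real.posLog_eq_log (by rw [abs_norm]; exact hH1)]
          exact Finset.le_sup' (fun j => Real.posLog ‖h j ζ‖) (Finset.mem_univ j₁)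
      have hH0 : 0 < ‖h j₁ ζ‖ := by linarith only [hH1]
      have hP0 : 0 < ‖P ζ‖ := norm_pos_iff.2 h5
      have hLHS : 0 < ‖P ζ‖ * ‖h j₁ ζ‖ ^ J.card := by positivity
      have hprod : 0 < ∏ j ∈ J, ‖h j ζ‖ := Finset.prod_pos fun j _ => norm_pos_iff.2 (h4 j)
      have hsum : 0 < (1 + ∑ i, ‖deriv (h i) ζ / h i ζ‖) ^ ρ := by
        have : 0 ≤ ∑ i, ‖deriv (h i) ζ / h i ζ‖ := Finset.sum_nonneg fun _ _ => norm_nonneg _
        positivity
      have hC : 0 < C := by
        by_contra hcon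
        have : C * ‖h j₁ ζ‖ ^ K * (∏ j ∈ J, ‖h j ζ‖) *
            (1 + ∑ i, ‖deriv (h i) ζ / h i ζ‖) ^ ρ ≤ 0 := by
          rw [mul_assoc, mul_assoc]
          exact mul_nonpos_of_nonpos_of_nonneg (not_lt.1 hcon) (by positivity)
        linarith only [hH, hLHS, this]
      have hlog := Real.log_le_log hLHS hH
      rw [Real.log_mul hP0.ne' (pow_ne_zero _ hH0.ne'), Real.log_pow,
        Real.log_mul (by positivity) hsum.ne', Real.log_mul (by positivity) hprod.ne',
        Real.log_mul hC.ne' (pow_ne_zero _ hH0.ne'), Real.log_pow, Real.log_pow,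
        Real.log_prod (fun j _ => norm_ne_zero_iff.2 (h4 j)), ← hq] at hlog
      have h6 := log_one_add_sum (fun i => ‖deriv (h i) ζ / h i ζ‖)
      have h7 : (ρ : ℝ) * Real.log (1 + ∑ i, ‖deriv (h i) ζ / h i ζ‖) ≤
          ρ * (Real.log (Fintype.card ι + 1) + Q h ζ) :=
        mul_le_mul_of_nonneg_left h6 (Nat.cast_nonneg _)
      have h8 := le_abs_self (Real.log C)
      rw [hGe, hL]
      linarith only [hlog, h7, h8])
    have e0 : mean (fun z => ((q : ℝ) - K) * G z) x = ((q : ℝ) - K) * mean G x :=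
      circleAverage_const_mul _ _ _
    rw [← e0]
    refine h.trans (le_of_eq ?_)
    unfold mean
    rw [Real.circleAverage_fun_add hISP hILρ,
      Real.circleAverage_fun_sub hISum hIP, Real.circleAverage_fun_sum fun j _ => hIlog j,
      Real.circleAverage_fun_add (circleIntegrable_const L 0 _) hIρQ,
      Real.circleAverage_const]
    congr 2
    rw [circleAverage_const_mul]
    congr 1
    unfold Q
    exact Real.circleAverage_fun_sum (fun i _ => hIq i)
  have hlogG : ∀ j, mean (fun z => Real.log ‖h j z‖) x ≤ mean G x := fun j =>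
    Real.circleAverage_mono (hIlog j) hIG fun z _ => (le_max_right _ _).trans (hGj z j)
  have hposG : ∀ j, mean (fun z => Real.posLog ‖h j z‖) x ≤ mean G x := fun j =>
    Real.circleAverage_mono (MeroPunct.circleIntegrable_posLog (hh j) hxR₀) hIG
      fun z _ => hGj z j
  have hmG0 : 0 ≤ mean G x := Real.circleAverage_nonneg_of_nonneg fun z _ => hG0 z
  -- the counting functions
  obtain ⟨T, l, hT, hcnt⟩ := exists_T h12 hLoc hr
  have hμz : ∀ s, (∀ o : Option ι, (ordZ (o.elim P h) s : ℝ) = 0) → μ s = 0 := by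
    intro s hs
    obtain ⟨j, h⟩ := hμ' s
    rw [← h]
    exact_mod_cast hs (some j)
  have c1 : ∀ j, cnt (fun s => (ordZ (h j) s : ℝ)) R₁ (Real.exp (-x)) =
      ∑ s ∈ T, (ordZ (h j) s : ℝ) * l s := fun j => hcnt _ fun s hs => hs (some j)
  have c2 : cnt (fun s => (ordZ P s : ℝ)) R₁ (Real.exp (-x)) =
      ∑ s ∈ T, (ordZ P s : ℝ) * l s := hcnt _ fun s hs => hs none
  have c4 : ∀ j, cnt (fun s => max (-(ordZ (h j) s : ℝ)) 0) R₁ (Real.exp (-x)) =
      ∑ s ∈ T, max (-(ordZ (h j) s : ℝ)) 0 * l s := fun j => hcnt _ fun s hs => by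
    have h3 : (ordZ (h j) s : ℝ) = 0 := hs (some j)
    rw [h3]
    simp
  set cμ : ℝ := ∑ s ∈ T, -(μ s : ℝ) * l s with hcμ
  have hcμ0 : 0 ≤ cμ := by
    refine Finset.sum_nonneg fun s hs => mul_nonneg ?_ (hT s hs).2.2
    have := hμ0 s (hr.trans (hT s hs).1) ((hT s hs).2.1.trans h12)
    have h' : (μ s : ℝ) ≤ 0 := by exact_mod_cast this
    linarith only [h']
  have hnev : ∀ j, nevT (h j) R₁ x ≤ mean G x + cμ := by
    intro j
    unfold nevT
    rw [c4]
    refine add_le_add (hposG j) (Finset.sum_le_sum fun s hs => ?_)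
    refine mul_le_mul_of_nonneg_right (max_le ?_ ?_) (hT s hs).2.2
    · have h' : (μ s : ℝ) ≤ ordZ (h j) s := by exact_mod_cast hμj s j
      linarith only [h']
    · have h' : (μ s : ℝ) ≤ 0 := by
        exact_mod_cast hμ0 s (hr.trans (hT s hs).1) ((hT s hs).2.1.trans h12)
      linarith only [h']
  have hloc' : (m : ℝ) * ((∑ j ∈ J, cnt (fun s => (ordZ (h j) s : ℝ)) R₁ (Real.exp (-x))) -
      cnt (fun s => (ordZ P s : ℝ)) R₁ (Real.exp (-x)) + ((q : ℝ) - K) * cμ) ≤
      ∑ j ∈ J, (cnt (fun s => (ordZ (h j) s : ℝ)) R₁ (Real.exp (-x)) + cμ) := by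
    have e1 : (∑ j ∈ J, cnt (fun s => (ordZ (h j) s : ℝ)) R₁ (Real.exp (-x))) -
        cnt (fun s => (ordZ P s : ℝ)) R₁ (Real.exp (-x)) + ((q : ℝ) - K) * cμ =
        ∑ s ∈ T, ((∑ j ∈ J, (ordZ (h j) s : ℝ)) - ordZ P s - ((q : ℝ) - K) * μ s) * l s := by
      simp only [c1]
      rw [c2, hcμ, Finset.sum_comm, ← Finset.sum_sub_distrib, Finset.mul_sum,
        ← Finset.sum_add_distrib]
      refine Finset.sum_congr rfl fun s _ => ?_
      rw [← Finset.sum_mul]
      ring
    have e2 : (∑ j ∈ J, (cnt (fun s => (ordZ (h j) s : ℝ)) R₁ (Real.exp (-x)) + cμ)) =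
        ∑ s ∈ T, (∑ j ∈ J, ((ordZ (h j) s : ℝ) - μ s)) * l s := by
      simp only [c1]
      rw [hcμ]
      have e3 : ∀ j, (∑ s ∈ T, (ordZ (h j) s : ℝ) * l s) + ∑ s ∈ T, -(μ s : ℝ) * l s =
          ∑ s ∈ T, ((ordZ (h j) s : ℝ) - μ s) * l s := by
        intro j
        rw [← Finset.sum_add_distrib]
        refine Finset.sum_congr rfl fun s _ => ?_
        ring
      rw [Finset.sum_congr rfl fun j _ => e3 j, Finset.sum_comm]
      refine Finset.sum_congr rfl fun s _ => ?_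
      rw [← Finset.sum_mul]
    rw [e1, e2, Finset.mul_sum]
    refine Finset.sum_le_sum fun s hs => ?_
    obtain ⟨hs1, hs2, hs3⟩ := hT s hs
    have hs4 : 0 < ‖s‖ := hr.trans hs1
    have hs5 : ‖s‖ < R₀ := hs2.trans h12
    have h3 := hloc s hs4 hs5 (μ s) (hμj s) (hμ' s)
    have h4 : ∀ j ∈ J, (m : ℤ) * (ordZ (h j) s - μ s - max (ordZ (h j) s - μ s - 1) 0) ≤
        ordZ (h j) s - μ s := by
      intro j hj
      rcases hmult j hj s hs4 hs5 (μ s) (hμj s) (hμ' s) with h5 | h5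
      · rw [h5]
        simp
      · have h6 : (1 : ℤ) ≤ m := by exact_mod_cast hm
        rw [max_eq_left (by omega)]
        have h7 : ordZ (h j) s - μ s - (ordZ (h j) s - μ s - 1) = 1 := by ring
        rw [h7]
        omega
    have h5 := Finset.sum_le_sum h4
    rw [← Finset.mul_sum, Finset.sum_sub_distrib] at h5
    have h6 : ∑ j ∈ J, (ordZ (h j) s - μ s) = (∑ j ∈ J, ordZ (h j) s) - q * μ s := by
      rw [Finset.sum_sub_distrib, Finset.sum_const, hq, nsmul_eq_mul]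
    have h7 : (m : ℤ) * ((∑ j ∈ J, ordZ (h j) s) - ordZ P s - ((q : ℤ) - K) * μ s) ≤
        ∑ j ∈ J, (ordZ (h j) s - μ s) := by
      refine le_trans (mul_le_mul_of_nonneg_left ?_ (Int.natCast_nonneg m)) h5
      rw [h6]
      linarith only [h3]
    have h8 : (m : ℝ) * ((∑ j ∈ J, (ordZ (h j) s : ℝ)) - ordZ P s - ((q : ℝ) - K) * μ s) ≤
        ∑ j ∈ J, ((ordZ (h j) s : ℝ) - μ s) := by exact_mod_cast h7
    rw [← mul_assoc]
    exact mul_le_mul_of_nonneg_right h8 hs3
  -- the conclusion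
  have hy : 1 ≤ 1 + |x| := by linarith only [abs_nonneg x]
  obtain ⟨y, hyd⟩ : ∃ y, y = 1 + |x| := ⟨_, rfl⟩
  rw [← hyd] at hy ⊢
  have hy0 : 0 ≤ y := by linarith only [hy]
  obtain ⟨a, ha⟩ : ∃ a, a = ∑ j, (|A j| + |B j|) := ⟨_, rfl⟩
  have hlin : ∀ j, |A j + B j * x| ≤ (|A j| + |B j|) * y := fun j => by
    rw [hyd]
    exact linear_bound _ _ _
  have hlinP : |A' + B' * x| ≤ (|A'| + |B'|) * y := by
    rw [hyd]
    exact linear_bound _ _ _
  have hJ : ∀ j, cnt (fun s => (ordZ (h j) s : ℝ)) R₁ (Real.exp (-x)) =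
      mean (fun z => Real.log ‖h j z‖) x - (A j + B j * x) := fun j => by
    have := hAB j x hx
    linarith only [this]
  have hJP := hAB' x hx
  have hsub : ∑ j ∈ J, (|A j| + |B j|) * y ≤ a * y := by
    rw [← Finset.sum_mul, ha]
    refine mul_le_mul_of_nonneg_right ?_ hy0
    exact Finset.sum_le_sum_of_subset_of_nonneg (Finset.subset_univ _)
      fun j _ _ => by positivity
  have hsum1 : |∑ j ∈ J, (A j + B j * x)| ≤ a * y :=
    (Finset.abs_sum_le_sum_abs _ _).trans ((Finset.sum_le_sum fun j _ => hlin j).trans hsub)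
  have hsum2 : (∑ j ∈ J, (cnt (fun s => (ordZ (h j) s : ℝ)) R₁ (Real.exp (-x)) + cμ)) ≤
      q * (mean G x + cμ) + a * y := by
    have h2 : ∀ j, cnt (fun s => (ordZ (h j) s : ℝ)) R₁ (Real.exp (-x)) + cμ ≤
        (mean G x + cμ) + (|A j| + |B j|) * y := by
      intro j
      rw [hJ j]
      have := (abs_le.1 (hlin j)).1
      linarith only [this, hlogG, hlogG j]
    refine (Finset.sum_le_sum fun j _ => h2 j).trans ?_
    rw [Finset.sum_add_distrib, Finset.sum_const, ← hq, nsmul_eq_mul]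
    linarith only [hsub]
  have hq'' : (ρ : ℝ) * (∑ j, mean (fun z => Real.posLog ‖deriv (h j) z / h j z‖) x) ≤
      δ / 2 * (mean G x + cμ) + ρ * (∑ i, |Cq i|) * y := by
    have hT0 : 0 ≤ mean G x + cμ := by linarith only [hmG0, hcμ0]
    have h2 : ∀ j, mean (fun z => Real.posLog ‖deriv (h j) z / h j z‖) x ≤
        δ / 2 / ((ρ + 1) * Fintype.card ι) * (mean G x + cμ) + |Cq j| * y := by
      intro j
      refine (hq' j x hx (hxE' j)).trans (add_le_add ?_ ?_)
      · exact mul_le_mul_of_nonneg_left (hnev j) hε.le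
      · rw [← hyd]
        exact mul_le_mul_of_nonneg_right (le_abs_self _) hy0
    have h3 := mul_le_mul_of_nonneg_left (Finset.sum_le_sum fun j (_ : j ∈ Finset.univ) => h2 j)
      (Nat.cast_nonneg (α := ℝ) ρ)
    refine h3.trans ?_
    rw [Finset.sum_add_distrib, Finset.sum_const, Finset.card_univ, nsmul_eq_mul,
      ← Finset.sum_mul, mul_add]
    refine add_le_add ?_ (le_of_eq (by ring))
    have h4 : (ρ : ℝ) * (Fintype.card ι * (δ / 2 / ((ρ + 1) * Fintype.card ι) *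
        (mean G x + cμ))) = ρ / (ρ + 1) * (δ / 2 * (mean G x + cμ)) := by
      field_simp
    rw [h4]
    refine mul_le_of_le_one_left (by positivity) ?_
    rw [div_le_one (by positivity)]
    linarith only
  -- final computation
  obtain ⟨t, ht⟩ : ∃ t, t = mean G x + cμ := ⟨_, rfl⟩
  have ht0 : 0 ≤ t := by rw [ht]; linarith only [hmG0, hcμ0]
  have hSc : (∑ j ∈ J, cnt (fun s => (ordZ (h j) s : ℝ)) R₁ (Real.exp (-x))) =
      (∑ j ∈ J, mean (fun z => Real.log ‖h j z‖) x) - ∑ j ∈ J, (A j + B j * x) := by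
    rw [← Finset.sum_sub_distrib]
    exact Finset.sum_congr rfl fun j _ => hJ j
  obtain ⟨b, hb⟩ : ∃ b, b = (∑ j ∈ J, cnt (fun s => (ordZ (h j) s : ℝ)) R₁ (Real.exp (-x))) -
      cnt (fun s => (ordZ P s : ℝ)) R₁ (Real.exp (-x)) + ((q : ℝ) - K) * cμ := ⟨_, rfl⟩
  rw [← hb] at hloc'
  have hb2 : b ≤ q / m * t + 1 / m * a * y := by
    have h2 : (m : ℝ) * b ≤ q * t + a * y := by
      refine hloc'.trans ?_
      rw [ht]
      exact hsum2
    have h3 : (q : ℝ) * t + a * y = m * (q / m * t + 1 / m * a * y) := by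
      field_simp
    rw [h3] at h2
    exact le_of_mul_le_mul_left h2 hmR
  have hfin : ((q : ℝ) - K) * t ≤ a * y + (|A'| + |B'|) * y + L * y + (δ / 2 * t +
      ρ * (∑ i, |Cq i|) * y) + (q / m * t + 1 / m * a * y) := by
    have hLy : L ≤ L * y := by nlinarith only [hL0, hy]
    rw [← ht] at hq''
    have e1 := (abs_le.1 hsum1).2
    have e2 := (abs_le.1 hlinP).1
    have e3 : ((q : ℝ) - K) * t = ((q : ℝ) - K) * mean G x + ((q : ℝ) - K) * cμ := by
      rw [ht]
      ring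
    linarith only [hmG, hJP, hq'', hSc, hb, hb2, hLy, e1, e2, e3]
  have hfin2 : δ / 2 * t ≤ C₀ * y := by
    have e4 : δ * t = ((q : ℝ) - K) * t - q / m * t := by
      rw [hδ]
      ring
    rw [hC₀, ← ha]
    linarith only [hfin]
  refine (hnev i).trans ?_
  rw [← ht]
  have : t = 2 / δ * (δ / 2 * t) := by field_simp
  rw [this, mul_assoc]
  exact mul_le_mul_of_nonneg_left hfin2 (by positivity)

end Pool.Agent.H5.DG

end
end
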