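import Pool.Agent.H94.DG.H5.DG.D2Pt
import Pool.Agent.H94.DG.M14
import Pool.Agent.H94.DG.M27
import Pool.Agent.H94.DG.M33

/-! The parts of this file: H5.DG.D2Loc, H5.DG.D2. -/

section

/-!
# Project DG, module D2Loc: the local inequality

`Palong_meromorphic`: `evVW` is `MvPolynomial.aeval` of a fixed polynomial; write it as a finite sum
of products (or use an induction on the polynomial `Phi φ e`), derivatives of meromorphic functions
are meromorphic.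

Proof of `loc_est`: `exists_local` (D2Ord) gives `w a` analytic at `s` with
`g a ζ = (ζ - s) ^ μ * w a ζ` near `s` (punctured), `w a s ≠ 0` for some `a`.  For `ζ ≠ s` near `s`,
`deriv (g a) ζ = (ζ - s) ^ μ * deriv (w a) ζ + μ * (ζ - s) ^ (μ - 1) * w a ζ` (the identity for
`g a` holds in a neighbourhood of `ζ`), so by `evVW_Phi_scale` (`a = b = (ζ - s) ^ μ`,
`c = μ * (ζ - s) ^ (μ - 1)`):
`Palong φ e g ζ = ((ζ - s) ^ μ) ^ κ * ((ζ - s) ^ μ) ^ (κ - e) * evVW (Phi φ e) (w ζ) (w' ζ)`,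
`e = T.card ≤ κ` by `card_constants_le` with `K = ℂ` at one point `ζ` (so `κ + (κ - e) = 2 * κ - e`).
`cluster_loc` at `(w ζ, w' ζ)` (`Del` at `w ζ` is not zero: `Del κ N` need not be known to be
homogeneous here: use the hypothesis `hom`; the relations `dot τ (w ζ) = 0`, `dot τ (w' ζ) = 0` by
differentiation; `‖w ζ‖`, `‖w' ζ‖` are bounded near `s` and `‖w ζ‖` is bounded from below) gives
`‖evVW ..‖ ≤ K * ∏ j ∈ J, (‖dot (p j) (w ζ)‖ + ‖dot (p j) (w' ζ)‖)`, and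
`dot (lam j) (w ζ) = (ζ - s) ^ (-μ) * dot (lam j) (g ζ)` is analytic at `s` of order `≥ o j`, so
`exists_bound` bounds the factor by `C * ‖ζ - s‖ ^ (o j - 1)`.  Conclude with
`le_order_of_norm_le`.
-/

open MvPolynomial Filter Topology

noncomputable section

namespace Pool.Agent.H5.DG

/-- The form `P (v, w)` along a map. -/
def Palong {n : ℕ} (φ : PVW n) (e : ℕ) (g : Fin (n + 2) → ℂ → ℂ) (z : ℂ) : ℂ :=
  evVW (Phi φ e) (fun a => g a z) (fun a => deriv (g a) z)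

private theorem aeval_mero {σ : Type*} {s : ℂ} (P : MvPolynomial σ ℂ) (F : σ → ℂ → ℂ)
    (hF : ∀ i, MeromorphicAt (F i) s) :
    MeromorphicAt (fun z => MvPolynomial.aeval (fun i => F i z) P) s := by
  induction P using MvPolynomial.induction_on with
  | C a =>
    simp only [MvPolynomial.aeval_C]
    exact MeromorphicAt.const _ _
  | add p q hp hq =>
    simp only [map_add]
    exact hp.add hq
  | mul_X p i hp =>
    simp only [map_mul, MvPolynomial.aeval_X]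
    exact hp.mul (hF i)

private theorem eval_hom {n : ℕ} {F : PV n} {k : ℕ} (hF : F.IsHomogeneous k) (c : ℂ)
    (v : Fin (n + 2) → ℂ) : MvPolynomial.eval (fun a => c * v a) F =
      c ^ k * MvPolynomial.eval v F := by
  rw [MvPolynomial.eval_eq, MvPolynomial.eval_eq, Finset.mul_sum]
  refine Finset.sum_congr rfl fun d hd => ?_
  have h1 : ∑ i ∈ d.support, d i = k := by
    have h2 := hF (MvPolynomial.mem_support_iff.1 hd)
    rw [← h2, Finsupp.weight_apply, Finsupp.sum]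
    exact Finset.sum_congr rfl fun i _ => by simp
  simp_rw [mul_pow]
  rw [Finset.prod_mul_distrib, Finset.prod_pow_eq_pow_sum, h1]
  ring

private theorem dot_smul {n : ℕ} (t v : Fin n → ℂ) (c : ℂ) :
    dot t (fun a => c * v a) = c * dot t v := by
  unfold dot
  rw [Finset.mul_sum]
  exact Finset.sum_congr rfl fun a _ => by ring

private theorem dot_smul' {n : ℕ} (t v : Fin n → ℂ) (c : ℂ) :
    dot (fun a => c * t a) v = c * dot t v := by
  unfold dot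
  rw [Finset.mul_sum]
  exact Finset.sum_congr rfl fun a _ => by ring

private theorem dot_analytic {n : ℕ} (t : Fin n → ℂ) {w : Fin n → ℂ → ℂ} {z : ℂ}
    (hw : ∀ a, AnalyticAt ℂ (w a) z) : AnalyticAt ℂ (fun ζ => dot t fun a => w a ζ) z := by
  unfold dot
  exact Finset.univ.analyticAt_fun_sum fun a _ => analyticAt_const.mul (hw a)

private theorem dot_deriv {n : ℕ} (t : Fin n → ℂ) {w : Fin n → ℂ → ℂ} {z : ℂ}
    (hw : ∀ a, AnalyticAt ℂ (w a) z) :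
    deriv (fun ζ => dot t fun a => w a ζ) z = dot t fun a => deriv (w a) z := by
  unfold dot
  exact (HasDerivAt.fun_sum fun a _ =>
    ((hw a).differentiableAt.hasDerivAt.const_mul (t a))).deriv

theorem Palong_meromorphic {n : ℕ} {φ : PVW n} {e : ℕ} {g : Fin (n + 2) → ℂ → ℂ} {s : ℂ}
    (hg : ∀ a, MeromorphicAt (g a) s) : MeromorphicAt (Palong φ e g) s := by
  unfold Palong evVW
  exact aeval_mero (Phi φ e) (Sum.elim (fun a => g a) fun a => deriv (g a)) (by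
    intro i
    cases i with
    | inl a => exact hg a
    | inr a => exact (hg a).deriv) |>.congr (by
      refine Filter.Eventually.of_forall fun z => ?_
      dsimp only
      congr 2
      funext i
      cases i <;> rfl)

/-- The local inequality. -/
theorem loc_est {n κ : ℕ} {N : Polynomial (PV n)} {φ : PVW n} (hd : DGData κ N φ)
    (hom : ∃ k, (Del κ N).IsHomogeneous k) {ι : Type}
    {lam : ι → Fin (n + 2) → ℂ} {c : ι → ℂ} {J : Finset ι} (hJ : Marked N lam c J)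
    (T : Finset (Fin (n + 2) → ℂ)) (hT : ∀ τ ∈ T, τ ∈ Gam N ℂ)
    (hJT : ∀ j ∈ J, (fun a => c j * lam j a) ∉ T) {g : Fin (n + 2) → ℂ → ℂ} {s : ℂ}
    (hg : ∀ a, MeromorphicAt (g a) s)
    (hΔ : ∀ᶠ ζ in 𝓝[≠] s, MvPolynomial.eval (fun a => g a ζ) (Del κ N) ≠ 0)
    (hTg : ∀ τ ∈ T, ∀ᶠ ζ in 𝓝[≠] s, dot τ (fun a => g a ζ) = 0) {μ : ℤ}
    (hμ : ∀ a, ((μ : ℤ) : WithTop ℤ) ≤ meromorphicOrderAt (g a) s)
    (hμ' : ∃ a, meromorphicOrderAt (g a) s = ((μ : ℤ) : WithTop ℤ)) (o : ι → ℕ)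
    (ho : ∀ j ∈ J, ((μ + o j : ℤ) : WithTop ℤ) ≤
      meromorphicOrderAt (fun ζ => dot (lam j) fun a => g a ζ) s) :
    (((2 * κ - T.card : ℕ) * μ + ∑ j ∈ J, ((o j - 1 : ℕ) : ℤ) : ℤ) : WithTop ℤ) ≤
      meromorphicOrderAt (Palong φ T.card g) s := by
  classical
  obtain ⟨k, hk⟩ := hom
  obtain ⟨w, hw, hgw, hws⟩ := exists_local hg hμ
  obtain ⟨a₀, ha₀⟩ := hμ'
  have hw0 : w a₀ s ≠ 0 := hws a₀ ha₀
  have hκ1 := hd.pos
  -- punctured neighbourhoods
  have hopen : IsOpen ({s}ᶜ : Set ℂ) := isOpen_compl_singleton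
  have hne : ∀ᶠ ζ in 𝓝[≠] s, ζ ≠ s := self_mem_nhdsWithin
  have hev : ∀ {p : ℂ → Prop}, (∀ᶠ ζ in 𝓝[≠] s, p ζ) → ∀ᶠ ζ in 𝓝[≠] s, ∀ᶠ y in 𝓝 ζ, p y := by
    intro p hp
    have h1 := eventually_eventually_nhdsWithin.2 hp
    filter_upwards [h1, hne] with ζ h2 h3
    rwa [hopen.nhdsWithin_eq h3] at h2
  have han : ∀ᶠ ζ in 𝓝[≠] s, ∀ a, AnalyticAt ℂ (w a) ζ :=
    Filter.eventually_all.2 fun a => (hw a).eventually_analyticAt.filter_mono nhdsWithin_le_nhds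
  have hgw' : ∀ᶠ ζ in 𝓝[≠] s, ∀ a, g a ζ = (ζ - s) ^ μ * w a ζ := Filter.eventually_all.2 hgw
  have hder : ∀ᶠ ζ in 𝓝[≠] s, ∀ a, deriv (g a) ζ =
      (ζ - s) ^ μ * deriv (w a) ζ + (μ * (ζ - s) ^ (μ - 1)) * w a ζ := by
    filter_upwards [hev hgw', han, hne] with ζ h1 h2 h3 a
    have h4 : g a =ᶠ[𝓝 ζ] fun y => (y - s) ^ μ * w a y := h1.mono fun y hy => hy a
    rw [h4.deriv_eq]
    have h5 : HasDerivAt (fun y : ℂ => (y - s) ^ μ) (μ * (ζ - s) ^ (μ - 1)) ζ :=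
      HasDerivAt.comp_sub_const ζ s (hasDerivAt_zpow μ (ζ - s) (Or.inl (sub_ne_zero.2 h3)))
    refine (h5.fun_mul (h2 a).differentiableAt.hasDerivAt).deriv.trans ?_
    ring
  -- the number of constants
  have hcard : T.card ≤ κ := by
    have hTg' : ∀ᶠ ζ in 𝓝[≠] s, ∀ τ ∈ T, dot τ (fun a => g a ζ) = 0 :=
      (Filter.eventually_all_finset T).2 hTg
    obtain ⟨ζ, h1, h2⟩ := (hΔ.and hTg').exists
    refine card_constants_le hd.norm (K := ℂ) (fun a => g a ζ) ?_ T fun τ hτ => ⟨hT τ hτ, ?_⟩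
    · rw [MvPolynomial.aeval_eq_eval]
      exact h1
    · exact h2 τ hτ
  -- the form along the map
  have hP : ∀ᶠ ζ in 𝓝[≠] s, Palong φ T.card g ζ = ((ζ - s) ^ μ) ^ κ *
      ((ζ - s) ^ μ) ^ (κ - T.card) *
        evVW (Phi φ T.card) (fun a => w a ζ) (fun a => deriv (w a) ζ) := by
    filter_upwards [hgw', hder] with ζ h1 h2
    unfold Palong
    rw [← evVW_Phi_scale hd.norm hd.chow T.card (fun a => w a ζ) (fun a => deriv (w a) ζ)
      ((ζ - s) ^ μ) ((ζ - s) ^ μ) (μ * (ζ - s) ^ (μ - 1))]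
    congr 1
    · funext a
      exact h1 a
    · funext a
      exact h2 a
  -- bounds
  obtain ⟨B₁, hB₁⟩ : ∃ B₁ : ℝ, B₁ = ∑ a, (‖w a s‖ + 1) := ⟨_, rfl⟩
  obtain ⟨B₂, hB₂⟩ : ∃ B₂ : ℝ, B₂ = ∑ a, (‖deriv (w a) s‖ + 1) := ⟨_, rfl⟩
  obtain ⟨B₃, hB₃⟩ : ∃ B₃ : ℝ, B₃ = 2 / ‖w a₀ s‖ := ⟨_, rfl⟩
  have hw0' : 0 < ‖w a₀ s‖ := norm_pos_iff.2 hw0
  have hB₁0 : 0 ≤ B₁ := by
    rw [hB₁]
    positivity
  have hB₂0 : 0 ≤ B₂ := by
    rw [hB₂]
    positivity
  have hB₃0 : 0 < B₃ := by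
    rw [hB₃]
    positivity
  have hv1 : ∀ᶠ ζ in 𝓝[≠] s, ‖(fun a => w a ζ)‖ ≤ B₁ := by
    have h1 : ∀ᶠ ζ in 𝓝 s, ∀ a, ‖w a ζ‖ < ‖w a s‖ + 1 := Filter.eventually_all.2 fun a =>
      (hw a).continuousAt.norm.eventually (gt_mem_nhds (by linarith))
    filter_upwards [h1.filter_mono nhdsWithin_le_nhds] with ζ h2
    rw [pi_norm_le_iff_of_nonneg hB₁0]
    intro a
    refine (h2 a).le.trans ?_
    rw [hB₁]
    exact Finset.single_le_sum (f := fun a => ‖w a s‖ + 1) (fun i _ => by positivity)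
      (Finset.mem_univ a)
  have hv2 : ∀ᶠ ζ in 𝓝[≠] s, ‖(fun a => deriv (w a) ζ)‖ ≤ B₂ := by
    have h1 : ∀ᶠ ζ in 𝓝 s, ∀ a, ‖deriv (w a) ζ‖ < ‖deriv (w a) s‖ + 1 :=
      Filter.eventually_all.2 fun a =>
        (hw a).deriv.continuousAt.norm.eventually (gt_mem_nhds (by linarith))
    filter_upwards [h1.filter_mono nhdsWithin_le_nhds] with ζ h2
    rw [pi_norm_le_iff_of_nonneg hB₂0]
    intro a
    refine (h2 a).le.trans ?_
    rw [hB₂]
    exact Finset.single_le_sum (f := fun a => ‖deriv (w a) s‖ + 1) (fun i _ => by positivity)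
      (Finset.mem_univ a)
  have hv3 : ∀ᶠ ζ in 𝓝[≠] s, 1 ≤ B₃ * ‖(fun a => w a ζ)‖ := by
    have h1 : ∀ᶠ ζ in 𝓝 s, ‖w a₀ s‖ / 2 < ‖w a₀ ζ‖ :=
      (hw a₀).continuousAt.norm.eventually (lt_mem_nhds (by linarith))
    filter_upwards [h1.filter_mono nhdsWithin_le_nhds] with ζ h2
    have h3 : ‖w a₀ ζ‖ ≤ ‖(fun a => w a ζ)‖ := norm_le_pi_norm (fun a => w a ζ) a₀
    have h4 : B₃ * (‖w a₀ s‖ / 2) = 1 := by
      rw [hB₃]
      field_simp
    rw [← h4]
    exact mul_le_mul_of_nonneg_left (h2.le.trans h3) hB₃0.le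
  -- the estimate
  obtain ⟨K, hK0, hK⟩ := cluster_loc hd.pos hd.norm hd.nondeg hd.chow J
    (fun j a => c j * lam j a) hJ.mem hJ.inj T hT hJT (B₁ + B₂ + B₃)
  have hbd : ∀ j, ∃ C : ℝ, j ∈ J → ∀ᶠ ζ in 𝓝[≠] s,
      ‖dot (fun a => c j * lam j a) (fun a => w a ζ)‖ +
        ‖dot (fun a => c j * lam j a) (fun a => deriv (w a) ζ)‖ ≤ C * ‖ζ - s‖ ^ (o j - 1) := by
    intro j
    by_cases hj : j ∈ J
    · have hk1 : AnalyticAt ℂ (fun ζ => dot (lam j) fun a => w a ζ) s := dot_analytic _ hw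
      have hord : ((o j : ℤ) : WithTop ℤ) ≤
          meromorphicOrderAt (fun ζ => dot (lam j) fun a => w a ζ) s := by
        have h1 : (fun ζ => dot (lam j) fun a => w a ζ) =ᶠ[𝓝[≠] s]
            (fun ζ : ℂ => (ζ - s) ^ (-μ)) * fun ζ => dot (lam j) fun a => g a ζ := by
          filter_upwards [hgw', hne] with ζ h2 h3
          rw [Pi.mul_apply]
          have h4 : (fun a => g a ζ) = fun a => (ζ - s) ^ μ * w a ζ := funext h2
          rw [h4, dot_smul, ← mul_assoc, ← zpow_add₀ (sub_ne_zero.2 h3), neg_add_cancel,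
            zpow_zero, one_mul]
        have h5 : MeromorphicAt (fun ζ : ℂ => (ζ - s) ^ (-μ)) s := by fun_prop
        have h6 : MeromorphicAt (fun ζ => dot (lam j) fun a => g a ζ) s := by
          unfold dot
          exact MeromorphicAt.fun_sum fun a _ => (MeromorphicAt.const _ _).mul (hg a)
        have h7 : meromorphicOrderAt (fun ζ : ℂ => (ζ - s) ^ (-μ)) s =
            ((-μ : ℤ) : WithTop ℤ) := by
          rw [meromorphicOrderAt_eq_int_iff h5]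
          refine ⟨fun _ => 1, analyticAt_const, one_ne_zero, ?_⟩
          filter_upwards with z
          simp
        rw [meromorphicOrderAt_congr h1, meromorphicOrderAt_mul h5 h6, h7]
        have h8 := add_le_add_right (ho j hj) ((-μ : ℤ) : WithTop ℤ)
        refine le_trans (le_of_eq ?_) h8
        rw [← WithTop.coe_add]
        congr 1
        ring
      obtain ⟨C, hC⟩ := exists_bound hk1 hord
      refine ⟨‖c j‖ * C, fun _ => ?_⟩
      filter_upwards [hC, han] with ζ h1 h2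
      rw [dot_deriv _ h2] at h1
      rw [dot_smul', dot_smul', norm_mul, norm_mul, ← mul_add, mul_assoc]
      exact mul_le_mul_of_nonneg_left h1 (norm_nonneg _)
    · exact ⟨0, fun h => absurd h hj⟩
  choose C hC using hbd
  have hC' : ∀ᶠ ζ in 𝓝[≠] s, ∀ j ∈ J, ‖dot (fun a => c j * lam j a) (fun a => w a ζ)‖ +
        ‖dot (fun a => c j * lam j a) (fun a => deriv (w a) ζ)‖ ≤ C j * ‖ζ - s‖ ^ (o j - 1) :=
    (Filter.eventually_all_finset J).2 fun j hj => hC j hj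
  have hTw : ∀ᶠ ζ in 𝓝[≠] s, ∀ τ ∈ T, dot τ (fun a => w a ζ) = 0 := by
    refine (Filter.eventually_all_finset T).2 fun τ hτ => ?_
    filter_upwards [hTg τ hτ, hgw', hne] with ζ h1 h2 h3
    have h4 : (fun a => g a ζ) = fun a => (ζ - s) ^ μ * w a ζ := funext h2
    rw [h4, dot_smul] at h1
    exact (mul_eq_zero.1 h1).resolve_left (zpow_ne_zero _ (sub_ne_zero.2 h3))
  have hTw' : ∀ᶠ ζ in 𝓝[≠] s, ∀ τ ∈ T, dot τ (fun a => deriv (w a) ζ) = 0 := by
    filter_upwards [hev hTw, han] with ζ h1 h2 τ hτ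
    rw [← dot_deriv _ h2]
    have h3 : (fun y => dot τ fun a => w a y) =ᶠ[𝓝 ζ] fun _ => 0 := h1.mono fun y hy => hy τ hτ
    rw [h3.deriv_eq]
    exact deriv_const _ _
  refine le_order_of_norm_le (Palong_meromorphic hg) (C := K * ∏ j ∈ J, C j) ?_
  filter_upwards [hP, hΔ, hgw', hne, hv1, hv2, hv3, hC', hTw, hTw'] with
    ζ e1 e2 e3 e4 e5 e6 e7 e8 e9 e10
  have hζ : 0 < ‖ζ - s‖ := norm_pos_iff.2 (sub_ne_zero.2 e4)
  have hΔw : MvPolynomial.eval (fun a => w a ζ) (Del κ N) ≠ 0 := by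
    intro hcon
    apply e2
    have h4 : (fun a => g a ζ) = fun a => (ζ - s) ^ μ * w a ζ := funext e3
    rw [h4, eval_hom hk, hcon, mul_zero]
  have h1 := hK (fun a => w a ζ) (fun a => deriv (w a) ζ) hΔw e9 e10 (by linarith)
    (e7.trans (mul_le_mul_of_nonneg_right (by linarith) (norm_nonneg _))) (by linarith)
  have h2 : ∏ j ∈ J, (‖dot (fun a => c j * lam j a) (fun a => w a ζ)‖ +
        ‖dot (fun a => c j * lam j a) (fun a => deriv (w a) ζ)‖) ≤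
      (∏ j ∈ J, C j) * ‖ζ - s‖ ^ (∑ j ∈ J, (o j - 1)) := by
    rw [← Finset.prod_pow_eq_pow_sum, ← Finset.prod_mul_distrib]
    exact Finset.prod_le_prod (fun j _ => by positivity) e8
  rw [e1, norm_mul, norm_mul, norm_pow, norm_pow, norm_zpow]
  have h3 : ‖ζ - s‖ ^ (((2 * κ - T.card : ℕ) * μ + ∑ j ∈ J, ((o j - 1 : ℕ) : ℤ) : ℤ)) =
      (‖ζ - s‖ ^ μ) ^ κ * (‖ζ - s‖ ^ μ) ^ (κ - T.card) *
        ‖ζ - s‖ ^ (∑ j ∈ J, (o j - 1)) := by
    rw [zpow_add₀ hζ.ne', ← pow_add]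
    congr 1
    · have h4 : κ + (κ - T.card) = 2 * κ - T.card := by omega
      rw [h4, mul_comm, zpow_mul, zpow_natCast]
    · rw [← zpow_natCast]
      congr 1
      push_cast
      rfl
  rw [h3]
  have h5 : 0 ≤ (‖ζ - s‖ ^ μ) ^ κ * (‖ζ - s‖ ^ μ) ^ (κ - T.card) := by positivity
  calc (‖ζ - s‖ ^ μ) ^ κ * (‖ζ - s‖ ^ μ) ^ (κ - T.card) *
        ‖evVW (Phi φ T.card) (fun a => w a ζ) fun a => deriv (w a) ζ‖
      ≤ (‖ζ - s‖ ^ μ) ^ κ * (‖ζ - s‖ ^ μ) ^ (κ - T.card) *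
        (K * ((∏ j ∈ J, C j) * ‖ζ - s‖ ^ (∑ j ∈ J, (o j - 1)))) :=
        mul_le_mul_of_nonneg_left (h1.trans (mul_le_mul_of_nonneg_left h2 hK0.le)) h5
    _ = _ := by ring

end Pool.Agent.H5.DG

end
end

section

/-!
# Project DG, module D2: maps of the punctured disc

`exists_constants`: take a point `z₀` and a small disc `U` around it on which all `g a` are analytic
(generic points) and `Del (g z₀) ≠ 0`.  `T` = the (finite, by `finite_constants` with `K = ℂ`,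
`v = g z₀`) set of the `τ ∈ Gam N ℂ` with `lin τ g = 0` near every point; `T.card ≤ κ` by
`card_constants_le` at `v = g z₀`.  By the identity theorem for meromorphic functions on the
punctured disc (`MeromorphicOn.meromorphicOrderAt_ne_top_of_isPreconnected`,
`Pool.Agent.H92.GGL.isPreconnected_punctured`) `lin τ g = 0` on `U` implies it near every point; so
`phi_ne_zero_analytic` applies and gives a point where `Palong` is analytic and not zero, and the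
identity theorem shows that its order is finite everywhere.

`analytic_core`: `smt_punct` (D1) with `h i = lin (lam i) g`, `P = Palong φ T.card g`,
`K = 2 * κ - T.card`, `ρ = κ - T.card`, `m = 2`.  For `j ∈ J` the point `p j` is not in `T` (its
linear form does not vanish identically along `g`).  Pointwise inequality: `pt_est` at generic `ζ`
with `v = g ζ`, `w = g' ζ`; local inequality: `loc_est` with `o j = ordZ (h j) s - μ` (natural
number); here `μ ≤ ord (g a)` since `g a = ∑ b a i * h i`, with equality for some `a`.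
-/

open MvPolynomial Filter Topology
open Pool.Agent.H62.FC (MeroPunct PunctMero)
open Pool.Agent.H92.GGL (ordZ)

noncomputable section

namespace Pool.Agent.H5.DG

/-- The value of the linear form `l` along the map `g`. -/
def lin {m : ℕ} (l : Fin m → ℂ) (g : Fin m → ℂ → ℂ) (z : ℂ) : ℂ := dot l fun a => g a z

section

variable {n κ : ℕ} {N : Polynomial (PV n)} {φ : PVW n}

private theorem lin_mero {g : Fin (n + 2) → ℂ → ℂ} {z : ℂ} (hg : ∀ a, MeromorphicAt (g a) z)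
    (τ : Fin (n + 2) → ℂ) : MeromorphicAt (lin τ g) z := by
  have h : lin τ g = ∑ a, fun ζ => τ a * g a ζ := by
    funext ζ
    rw [Finset.sum_apply]
    rfl
  rw [h]
  exact MeromorphicAt.sum fun a _ => (MeromorphicAt.const _ _).mul (hg a)

private theorem lin_analytic {g : Fin (n + 2) → ℂ → ℂ} {z : ℂ} (hg : ∀ a, AnalyticAt ℂ (g a) z)
    (τ : Fin (n + 2) → ℂ) : AnalyticAt ℂ (lin τ g) z := by
  have h : lin τ g = fun ζ => ∑ a, τ a * g a ζ := rfl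
  rw [h]
  exact Finset.analyticAt_fun_sum _ fun a _ => analyticAt_const.mul (hg a)

private theorem lin_deriv {g : Fin (n + 2) → ℂ → ℂ} {z : ℂ} (hg : ∀ a, AnalyticAt ℂ (g a) z)
    (τ : Fin (n + 2) → ℂ) : deriv (lin τ g) z = dot τ fun a => deriv (g a) z := by
  have h : lin τ g = fun ζ => ∑ a, τ a * g a ζ := rfl
  rw [h, deriv_fun_sum (fun a _ => ((hg a).differentiableAt.const_mul _))]
  refine Finset.sum_congr rfl fun a _ => ?_
  rw [deriv_const_mul _ (hg a).differentiableAt]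

private theorem Palong_analytic {φ : PVW n} {e : ℕ} {g : Fin (n + 2) → ℂ → ℂ} {z : ℂ}
    (hg : ∀ a, AnalyticAt ℂ (g a) z) : AnalyticAt ℂ (Palong φ e g) z := by
  have h : Palong φ e g = fun ζ => MvPolynomial.aeval
      (fun i => Sum.elim (fun a => g a ζ) (fun a => deriv (g a) ζ) i) (Phi φ e) := rfl
  rw [h]
  refine AnalyticAt.aeval_mvPolynomial (fun i => ?_) _
  cases i with
  | inl a => exact hg a
  | inr a => exact (hg a).deriv

private theorem zero_of_punctured {u : ℂ → ℂ} {z : ℂ} (hu : AnalyticAt ℂ u z)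
    (h : ∀ᶠ ζ in 𝓝[≠] z, u ζ = 0) : u z = 0 := by
  have h1 : Tendsto u (𝓝[≠] z) (𝓝 (u z)) := hu.continuousAt.tendsto.mono_left nhdsWithin_le_nhds
  have h2 : Tendsto u (𝓝[≠] z) (𝓝 0) := tendsto_const_nhds.congr' (h.mono fun _ h => h.symm)
  exact tendsto_nhds_unique h1 h2

/-- The identity theorem. -/
private theorem identity {R₀ : ℝ} {u : ℂ → ℂ}
    (hu : ∀ z, 0 < ‖z‖ → ‖z‖ < R₀ → MeromorphicAt u z) {z₀ : ℂ} (h0 : 0 < ‖z₀‖)
    (h1 : ‖z₀‖ < R₀) (h : meromorphicOrderAt u z₀ = ⊤) :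
    ∀ z, 0 < ‖z‖ → ‖z‖ < R₀ → ∀ᶠ ζ in 𝓝[≠] z, u ζ = 0 := by
  intro z hz1 hz2
  rw [← meromorphicOrderAt_eq_top_iff]
  by_contra hcon
  have hm : MeromorphicOn u {z : ℂ | 0 < ‖z‖ ∧ ‖z‖ < R₀} := fun z hz => hu z hz.1 hz.2
  exact (hm.meromorphicOrderAt_ne_top_of_isPreconnected
    (Pool.Agent.H92.GGL.isPreconnected_punctured R₀) (x := z) (y := z₀) ⟨hz1, hz2⟩ ⟨h0, h1⟩ hcon) h

/-- The set of the constant points. -/
theorem exists_constants (hd : DGData κ N φ) {R₀ : ℝ} (hR₀ : 0 < R₀) {g : Fin (n + 2) → ℂ → ℂ}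
    (hg : ∀ a z, 0 < ‖z‖ → ‖z‖ < R₀ → MeromorphicAt (g a) z)
    (hΔ : ∀ z, 0 < ‖z‖ → ‖z‖ < R₀ →
      ∀ᶠ ζ in 𝓝[≠] z, MvPolynomial.eval (fun a => g a ζ) (Del κ N) ≠ 0) :
    ∃ T : Finset (Fin (n + 2) → ℂ), T.card ≤ κ ∧
      (∀ τ, τ ∈ T ↔ τ ∈ Gam N ℂ ∧ ∀ z, 0 < ‖z‖ → ‖z‖ < R₀ → ∀ᶠ ζ in 𝓝[≠] z, lin τ g ζ = 0) ∧
      MeroPunct R₀ (Palong φ T.card g) := by
  classical
  -- a generic point
  have hz₁ : 0 < ‖((R₀ / 2 : ℝ) : ℂ)‖ ∧ ‖((R₀ / 2 : ℝ) : ℂ)‖ < R₀ := by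
    rw [Complex.norm_real, Real.norm_of_nonneg (by positivity)]
    constructor <;> linarith
  have hopen : IsOpen {z : ℂ | 0 < ‖z‖ ∧ ‖z‖ < R₀} :=
    (isOpen_lt continuous_const continuous_norm).inter (isOpen_lt continuous_norm continuous_const)
  have hΩ0 : ∀ᶠ ζ in 𝓝 ((R₀ / 2 : ℝ) : ℂ), 0 < ‖ζ‖ ∧ ‖ζ‖ < R₀ := hopen.mem_nhds hz₁
  have hΩ : ∀ᶠ ζ in 𝓝[≠] ((R₀ / 2 : ℝ) : ℂ), 0 < ‖ζ‖ ∧ ‖ζ‖ < R₀ :=
    hΩ0.filter_mono nhdsWithin_le_nhds
  have han : ∀ᶠ ζ in 𝓝[≠] ((R₀ / 2 : ℝ) : ℂ), ∀ a, AnalyticAt ℂ (g a) ζ :=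
    Filter.eventually_all.2 fun a => (hg a _ hz₁.1 hz₁.2).eventually_analyticAt
  obtain ⟨z₀, ⟨hz₀, hgz₀⟩, hΔ₀⟩ := ((hΩ.and han).and (hΔ _ hz₁.1 hz₁.2)).exists
  -- a disc
  have hU0 : ∀ᶠ ζ in 𝓝 z₀, 0 < ‖ζ‖ ∧ ‖ζ‖ < R₀ := hopen.mem_nhds hz₀
  have hU1 : ∀ᶠ ζ in 𝓝 z₀, (0 < ‖ζ‖ ∧ ‖ζ‖ < R₀) ∧ ∀ a, AnalyticAt ℂ (g a) ζ :=
    hU0.and (Filter.eventually_all.2 fun a => (hgz₀ a).eventually_analyticAt)
  obtain ⟨ε, hε, hball⟩ := Metric.eventually_nhds_iff_ball.1 hU1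
  have hz₀U : z₀ ∈ Metric.ball z₀ ε := Metric.mem_ball_self hε
  -- the constants
  set v₀ : Fin (n + 2) → ℂ := fun a => g a z₀ with hv₀
  have hae : MvPolynomial.aeval v₀ (Del κ N) ≠ 0 := by
    rw [MvPolynomial.aeval_eq_eval]
    exact hΔ₀
  have hfin := finite_constants hd.norm v₀ hae
  set S : Set (Fin (n + 2) → ℂ) := {τ | τ ∈ Gam N ℂ ∧
    ∀ z, 0 < ‖z‖ → ‖z‖ < R₀ → ∀ᶠ ζ in 𝓝[≠] z, lin τ g ζ = 0} with hS
  have hdotL : ∀ τ : Fin (n + 2) → ℂ, dot (toL ℂ τ) v₀ = lin τ g z₀ := fun τ => rfl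
  have hSsub : S ⊆ {τ : Fin (n + 2) → ℂ | τ ∈ Gam N ℂ ∧ dot (toL ℂ τ) v₀ = 0} := by
    rintro τ ⟨h1, h2⟩
    refine ⟨h1, ?_⟩
    rw [hdotL]
    exact zero_of_punctured (lin_analytic hgz₀ τ) (h2 z₀ hz₀.1 hz₀.2)
  have hSfin : S.Finite := hfin.subset hSsub
  have hT : ∀ τ, τ ∈ hSfin.toFinset ↔ τ ∈ Gam N ℂ ∧
      ∀ z, 0 < ‖z‖ → ‖z‖ < R₀ → ∀ᶠ ζ in 𝓝[≠] z, lin τ g ζ = 0 := by
    intro τ
    rw [Set.Finite.mem_toFinset]
    rfl
  have hT2 : ∀ τ, τ ∈ hSfin.toFinset ↔ τ ∈ Gam N ℂ ∧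
      ∀ z ∈ Metric.ball z₀ ε, dot τ (fun a => g a z) = 0 := by
    intro τ
    rw [hT]
    refine and_congr_right fun _ => ⟨fun h z hz => ?_, fun h => ?_⟩
    · obtain ⟨h1, h2⟩ := hball z hz
      exact zero_of_punctured (lin_analytic h2 τ) (h z h1.1 h1.2)
    · refine identity (fun z h1 h2 => lin_mero (fun a => hg a z h1 h2) τ) hz₀.1 hz₀.2 ?_
      rw [meromorphicOrderAt_eq_top_iff]
      have h1 : ∀ᶠ ζ in 𝓝 z₀, ζ ∈ Metric.ball z₀ ε := Metric.isOpen_ball.mem_nhds hz₀U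
      exact (h1.mono fun ζ hζ => h ζ hζ).filter_mono nhdsWithin_le_nhds
  refine ⟨hSfin.toFinset, ?_, hT, ?_⟩
  · refine card_constants_le hd.norm v₀ hae _ fun τ hτ => hSsub ?_
    rwa [Set.Finite.mem_toFinset] at hτ
  · obtain ⟨z₂, hz₂, hne⟩ := phi_ne_zero_analytic hd.pos hd.norm hd.chow Metric.isOpen_ball
      (convex_ball z₀ ε).isPreconnected g (fun a z hz => (hball z hz).2 a) hz₀U hΔ₀ _ hT2
    obtain ⟨h1, h2⟩ := hball z₂ hz₂
    have hmero : ∀ z, 0 < ‖z‖ → ‖z‖ < R₀ → MeromorphicAt (Palong φ hSfin.toFinset.card g) z :=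
      fun z h3 h4 => Palong_meromorphic fun a => hg a z h3 h4
    refine ⟨hmero, fun z h3 h4 htop => ?_⟩
    have h5 := identity hmero h3 h4 htop z₂ h1.1 h1.2
    exact hne (zero_of_punctured (Palong_analytic h2) h5)

private theorem le_order_mul {u : ℂ → ℂ} {s : ℂ} (hu : MeromorphicAt u s) (x : ℂ)
    {k : WithTop ℤ} (h : k ≤ meromorphicOrderAt u s) :
    k ≤ meromorphicOrderAt (fun ζ => x * u ζ) s := by
  have h1 : (fun ζ => x * u ζ) = (fun _ => x) * u := rfl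
  rw [h1, meromorphicOrderAt_mul (MeromorphicAt.const _ _) hu]
  have h2 : 0 ≤ meromorphicOrderAt (fun _ : ℂ => x) s := by
    rw [meromorphicOrderAt_const]
    split_ifs
    · exact le_top
    · exact le_rfl
  calc k = 0 + k := (zero_add k).symm
    _ ≤ _ := add_le_add h2 h

private theorem le_order_sum {ι : Type*} (S : Finset ι) {u : ι → ℂ → ℂ} {s : ℂ}
    (hu : ∀ i, MeromorphicAt (u i) s) {k : WithTop ℤ}
    (h : ∀ i, k ≤ meromorphicOrderAt (u i) s) :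
    k ≤ meromorphicOrderAt (∑ i ∈ S, u i) s := by
  classical
  induction S using Finset.induction_on with
  | empty =>
    rw [Finset.sum_empty]
    have : meromorphicOrderAt (0 : ℂ → ℂ) s = ⊤ := by
      rw [meromorphicOrderAt_eq_top_iff]
      exact Filter.Eventually.of_forall fun _ => rfl
    rw [this]
    exact le_top
  | insert a S ha ih =>
    rw [Finset.sum_insert ha]
    have h1 := meromorphicOrderAt_add (hu a) (MeromorphicAt.sum (s := S) fun i _ => hu i)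
    exact (le_min (h a) ih).trans h1

/-- **Analytic core.** -/
theorem analytic_core (hd : DGData κ N φ) (hom : ∃ k, (Del κ N).IsHomogeneous k) {ι : Type}
    [Fintype ι] {lam : ι → Fin (n + 2) → ℂ}
    {b : Fin (n + 2) → ι → ℂ} (hb : ∀ (v : Fin (n + 2) → ℂ) a, v a = ∑ i, b a i * dot (lam i) v)
    {c : ι → ℂ} {J : Finset ι} (hJ : Marked N lam c J) (hcard : 4 * κ < J.card)
    {R₀ : ℝ} (hR₀ : 0 < R₀) {g : Fin (n + 2) → ℂ → ℂ}
    (hg : ∀ a z, 0 < ‖z‖ → ‖z‖ < R₀ → MeromorphicAt (g a) z)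
    (hΔ : ∀ z, 0 < ‖z‖ → ‖z‖ < R₀ →
      ∀ᶠ ζ in 𝓝[≠] z, MvPolynomial.eval (fun a => g a ζ) (Del κ N) ≠ 0)
    (hne : ∀ i, MeroPunct R₀ (lin (lam i) g)) {i₀ : ι}
    (hi₀ : ∀ z, 0 < ‖z‖ → ‖z‖ < R₀ → ∀ᶠ ζ in 𝓝[≠] z, lin (lam i₀) g ζ = 1)
    (hmult : ∀ j ∈ J, ∀ s, 0 < ‖s‖ → ‖s‖ < R₀ → ∀ μ : ℤ, (∀ i, μ ≤ ordZ (lin (lam i) g) s) →
      (∃ i, ordZ (lin (lam i) g) s = μ) →
      ordZ (lin (lam j) g) s = μ ∨ μ + 2 ≤ ordZ (lin (lam j) g) s) (i : ι) :
    PunctMero (lin (lam i) g) := by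
  classical
  obtain ⟨T, hTκ, hT, hP⟩ := exists_constants hd hR₀ hg hΔ
  have hTG : ∀ τ ∈ T, τ ∈ Gam N ℂ := fun τ hτ => ((hT τ).1 hτ).1
  have hTg : ∀ τ ∈ T, ∀ z, 0 < ‖z‖ → ‖z‖ < R₀ → ∀ᶠ ζ in 𝓝[≠] z, lin τ g ζ = 0 := fun τ hτ =>
    ((hT τ).1 hτ).2
  have hlin : ∀ j ζ, lin (fun a => c j * lam j a) g ζ = c j * lin (lam j) g ζ := by
    intro j ζ
    change ∑ a, c j * lam j a * g a ζ = c j * ∑ a, lam j a * g a ζ
    rw [Finset.mul_sum]
    exact Finset.sum_congr rfl fun a _ => by ring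
  have hz₁ : 0 < ‖((R₀ / 2 : ℝ) : ℂ)‖ ∧ ‖((R₀ / 2 : ℝ) : ℂ)‖ < R₀ := by
    rw [Complex.norm_real, Real.norm_of_nonneg (by positivity)]
    constructor <;> linarith
  have hJT : ∀ j ∈ J, (fun a => c j * lam j a) ∉ T := by
    intro j hj hcon
    have h1 := hTg _ hcon _ hz₁.1 hz₁.2
    have h2 := (meromorphicOrderAt_ne_top_iff_eventually_ne_zero ((hne j).mero _ hz₁.1 hz₁.2)).1
      ((hne j).ord _ hz₁.1 hz₁.2)
    obtain ⟨ζ, h3, h4⟩ := (h1.and h2).exists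
    rw [hlin] at h3
    exact (mul_ne_zero (hJ.ne j hj) h4) h3
  obtain ⟨C, hC⟩ := pt_est hd hb hJ T hTG hJT
  refine smt_punct hR₀ (h := fun i => lin (lam i) g) hne hi₀ hP (J := J) (K := 2 * κ - T.card)
    (ρ := κ - T.card) (m := 2) (C := C) ?_ ?_ ?_ one_le_two ?_ i
  · -- the pointwise inequality
    intro z h1 h2
    have e1 : ∀ᶠ ζ in 𝓝[≠] z, ∀ a, AnalyticAt ℂ (g a) ζ :=
      Filter.eventually_all.2 fun a => (hg a _ h1 h2).eventually_analyticAt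
    have e2 : ∀ᶠ ζ in 𝓝[≠] z, ∀ i, lin (lam i) g ζ ≠ 0 :=
      Filter.eventually_all.2 fun i =>
        (meromorphicOrderAt_ne_top_iff_eventually_ne_zero ((hne i).mero _ h1 h2)).1
          ((hne i).ord _ h1 h2)
    have e3 : ∀ᶠ ζ in 𝓝[≠] z, ∀ τ ∈ T, ∀ᶠ y in 𝓝 ζ, lin τ g y = 0 := by
      rw [Filter.eventually_all_finset]
      intro τ hτ
      have := eventually_eventually_nhdsWithin.2 (hTg τ hτ z h1 h2)
      filter_upwards [this, self_mem_nhdsWithin] with ζ hζ hne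
      rwa [IsOpen.nhdsWithin_eq isOpen_compl_singleton hne] at hζ
    filter_upwards [e1, e2, e3, hΔ z h1 h2] with ζ f1 f2 f3 f4 H hH hH'
    have f5 : ∀ τ ∈ T, dot τ (fun a => deriv (g a) ζ) = 0 := by
      intro τ hτ
      rw [← lin_deriv f1 τ]
      have h3 : lin τ g =ᶠ[𝓝 ζ] fun _ => 0 := f3 τ hτ
      rw [h3.deriv_eq, deriv_const]
    have key := hC (fun a => g a ζ) (fun a => deriv (g a) ζ) f4
      (fun τ hτ => (f3 τ hτ).self_of_nhds) f5 f2 H hH hH'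
    refine key.trans (le_of_eq ?_)
    congr 3
    refine Finset.sum_congr rfl fun i _ => ?_
    rw [lin_deriv f1 (lam i)]
    rfl
  · -- the local inequality
    intro s h1 h2 μ hμ hμ'
    have hord : ∀ i, ((ordZ (lin (lam i) g) s : ℤ) : WithTop ℤ) =
        meromorphicOrderAt (lin (lam i) g) s := fun i =>
      Pool.Agent.H92.GGL.ordZ_cast ((hne i).ord s h1 h2)
    have hga : ∀ a, g a = ∑ i, fun ζ => b a i * lin (lam i) g ζ := by
      intro a
      funext ζ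
      rw [Finset.sum_apply]
      exact hb (fun a => g a ζ) a
    have hmi : ∀ a i, MeromorphicAt (fun ζ => b a i * lin (lam i) g ζ) s := fun a i =>
      (MeromorphicAt.const _ _).mul ((hne i).mero s h1 h2)
    have hle : ∀ (μ' : ℤ) a, (∀ i, μ' ≤ ordZ (lin (lam i) g) s) →
        ((μ' : ℤ) : WithTop ℤ) ≤ meromorphicOrderAt (g a) s := by
      intro μ' a h3
      rw [hga a]
      refine le_order_sum _ (hmi a) fun i => le_order_mul ((hne i).mero s h1 h2) _ ?_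
      rw [← hord]
      exact_mod_cast h3 i
    have hle' : ∀ (μ' : ℤ), (∀ a, ((μ' : ℤ) : WithTop ℤ) ≤ meromorphicOrderAt (g a) s) →
        ∀ i, ((μ' : ℤ) : WithTop ℤ) ≤ meromorphicOrderAt (lin (lam i) g) s := by
      intro μ' h3 i
      have h4 : lin (lam i) g = ∑ a, fun ζ => lam i a * g a ζ := by
        funext ζ
        rw [Finset.sum_apply]
        rfl
      rw [h4]
      exact le_order_sum _ (fun a => (MeromorphicAt.const _ _).mul (hg a s h1 h2)) fun a =>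
        le_order_mul (hg a s h1 h2) _ (h3 a)
    have hμa : ∀ a, ((μ : ℤ) : WithTop ℤ) ≤ meromorphicOrderAt (g a) s := fun a => hle μ a hμ
    have hμa' : ∃ a, meromorphicOrderAt (g a) s = ((μ : ℤ) : WithTop ℤ) := by
      by_contra hcon
      push Not at hcon
      obtain ⟨i, hi⟩ := hμ'
      have h3 := hle' (μ + 1) (fun a => by
        have h4 := lt_of_le_of_ne (hμa a) (hcon a).symm
        induction hx : meromorphicOrderAt (g a) s using WithTop.recTopCoe with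
        | top => exact le_top
        | coe x =>
          rw [hx] at h4
          have h5 : μ < x := by exact_mod_cast h4
          exact_mod_cast (by omega : μ + 1 ≤ x)) i
      rw [← hord, hi] at h3
      have h4 : μ + 1 ≤ μ := by exact_mod_cast h3
      omega
    have key := loc_est hd hom hJ T hTG hJT (fun a => hg a s h1 h2) (hΔ s h1 h2)
      (fun τ hτ => hTg τ hτ s h1 h2) hμa hμa' (fun i => (ordZ (lin (lam i) g) s - μ).toNat)
      (fun j hj => by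
        have h3 : (μ + ((ordZ (lin (lam j) g) s - μ).toNat : ℤ) : ℤ) =
            ordZ (lin (lam j) g) s := by
          rw [Int.toNat_of_nonneg (by have := hμ j; omega)]
          ring
        rw [h3, hord]
        exact le_rfl)
    rw [← Pool.Agent.H92.GGL.ordZ_cast (hP.ord s h1 h2)] at key
    have key' : (((2 * κ - T.card : ℕ) : ℤ)) * μ +
        ∑ j ∈ J, (((ordZ (lin (lam j) g) s - μ).toNat - 1 : ℕ) : ℤ) ≤
        ordZ (Palong φ T.card g) s := by exact_mod_cast key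
    refine le_trans (le_of_eq ?_) key'
    congr 1
    refine Finset.sum_congr rfl fun j _ => ?_
    have := hμ j
    omega
  · exact hmult
  · omega

end

end Pool.Agent.H5.DG

end
end
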