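import Pool.Agent.H94.DG.M02

/-! The parts of this file: H13.SM.Inv, H13.SM.Null, H17.ZeroLemma, H17GT.Base, H17GT.ModDERAE, H17GT.ModEXT, H23.Bridge, H92.GGL.LocalRes, H92.GT.GenericPoint, H92.GT.Homogenize, H92.GT.Kummer, H92.GT.KummerEval, H92.GT.MapDer, H92.GT.ProjGeneric. -/

section

/-!
# The implicit function theorem for polynomials, with coordinates as parameters

PROOF.  The gradients `g j = fun i => eval w (pderiv i (f j))` are linearly independent in `ι → ℂ`,
`j : Fin c`.  Extend them by standard basis vectors to a basis: with `s = Set.range g`,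
`t = s ∪ Set.range (fun i => Pi.single i 1)` take `s ⊆ B ⊆ t` linearly independent with
`t ⊆ span B` (`exists_linearIndependent_extension`), so `B` is a basis of `ι → ℂ`, `|B| = c + n`, and
`B \ s` consists of `n` standard basis vectors `Pi.single (I k) 1`.
Let `Φ y = (fun j => eval y (f j), fun k => y (I k) - w (I k))`.  It is analytic, `Φ w = 0` and its
derivative at `w`, `v ↦ (∑ i, g j i * v i, v (I k))`, is injective: if it kills `v` then
`∑ i, u i * v i = 0` for all `u ∈ B`, hence for all `u`, so `v = 0`.  By dimension it is a linear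
equivalence.  Let `Ψ` be the local inverse (`HasStrictFDerivAt.toOpenPartialHomeomorph`), analytic at
`0` (`OpenPartialHomeomorph.hasFPowerSeriesAt_symm` / `analyticAt_symm`); `σ u = Ψ (0, u)`.
-/

open MvPolynomial Topology

noncomputable section

namespace Pool.Agent.H13.SM

/-- The derivative of the evaluation map of a polynomial. -/
theorem Inv_hasFDerivAt_eval {ι : Type} [Fintype ι] (p : MvPolynomial ι ℂ) (w : ι → ℂ) :
    HasFDerivAt (fun y : ι → ℂ => eval y p)
      (∑ i, eval w (pderiv i p) • (ContinuousLinearMap.proj i : (ι → ℂ) →L[ℂ] ℂ)) w := by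
  classical
  induction p using MvPolynomial.induction_on with
  | C a =>
    have h := hasFDerivAt_const (𝕜 := ℂ) a w
    have h2 : HasFDerivAt (fun y : ι → ℂ => eval y (C a : MvPolynomial ι ℂ)) (0 : (ι → ℂ) →L[ℂ] ℂ) w := by
      simpa using h
    refine h2.congr_fderiv ?_
    ext v
    simp
  | add p q hp hq =>
    have h := hp.add hq
    have h2 : (fun y : ι → ℂ => eval y (p + q)) = (fun y => eval y p) + fun y => eval y q := by
      funext y
      exact map_add _ _ _
    rw [h2]
    refine h.congr_fderiv ?_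
    ext v
    simp [Finset.sum_add_distrib, add_mul]
  | mul_X p n hp =>
    have h1 : HasFDerivAt (fun y : ι → ℂ => y n)
        (ContinuousLinearMap.proj n : (ι → ℂ) →L[ℂ] ℂ) w := hasFDerivAt_apply n w
    have h := hp.mul h1
    have h2 : (fun y : ι → ℂ => eval y (p * X n)) = (fun y => eval y p) * fun y => y n := by
      funext y
      simp only [map_mul, eval_X, Pi.mul_apply]
    rw [h2]
    refine h.congr_fderiv ?_
    ext v
    simp only [Derivation.leibniz, pderiv_X, smul_eq_mul, map_add, map_mul, eval_X,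
      FunLike.coe_add, FunLike.coe_smul, Pi.add_apply, Pi.smul_apply, ContinuousLinearMap.proj_apply,
      sum_apply, add_mul]
    rw [Finset.sum_add_distrib]
    congr 1
    · rw [Finset.sum_eq_single n]
      · simp
      · intro b _ hb
        simp [hb.symm]
      · intro h; exact absurd (Finset.mem_univ n) h
    · rw [Finset.mul_sum]
      exact Finset.sum_congr rfl fun i _ => by ring

/-- Completion of independent vectors by standard basis vectors. -/
theorem Inv_exists_coords {ι : Type} [Fintype ι] {c n : ℕ} (hcn : c + n = Fintype.card ι)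
    {g : Fin c → ι → ℂ} (hli : LinearIndependent ℂ g) :
    ∃ I : Fin n → ι, ∀ v : ι → ℂ, (∀ j, ∑ i, g j i * v i = 0) → (∀ k, v (I k) = 0) → v = 0 := by
  classical
  set S : Submodule ℂ (ι → ℂ) := Submodule.span ℂ (Set.range g) with hS
  have hfS : Module.finrank ℂ S = c := by
    rw [hS, finrank_span_eq_card hli, Fintype.card_fin]
  have hfW : Module.finrank ℂ ((ι → ℂ) ⧸ S) = n := by
    have h := Submodule.finrank_quotient_add_finrank S
    rw [hfS, Module.finrank_fintype_fun_eq_card] at h
    omega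
  let q : ι → (ι → ℂ) ⧸ S := fun i => S.mkQ (Pi.single i 1)
  have hspan : Submodule.span ℂ (Set.range q) = ⊤ := by
    have h1 : Set.range q = S.mkQ '' Set.range (fun i : ι => (Pi.single i (1 : ℂ) : ι → ℂ)) := by
      rw [← Set.range_comp]; rfl
    rw [h1, Submodule.span_image]
    have h2 : Submodule.span ℂ (Set.range (fun i : ι => (Pi.single i (1 : ℂ) : ι → ℂ))) = ⊤ := by
      have := (Pi.basisFun ℂ ι).span_eq
      convert this using 2
      ext i
      simp
    rw [h2, Submodule.map_top, Submodule.range_mkQ]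
  obtain ⟨κ, a, ha, hsp, hlin⟩ := exists_linearIndependent' ℂ q
  have hb := Module.Basis.mk hlin (by rw [hsp, hspan])
  have : Finite κ := Finite.of_injective a ha
  have : Fintype κ := Fintype.ofFinite κ
  have hcard : Fintype.card κ = n := by
    rw [← hfW, Module.finrank_eq_card_basis hb]
  let e : Fin n ≃ κ := (Fintype.equivFinOfCardEq hcard).symm
  refine ⟨fun k => a (e k), fun v hv1 hv2 => ?_⟩
  -- the functional
  let φ : (ι → ℂ) →ₗ[ℂ] ℂ := ∑ i, v i • (LinearMap.proj i : (ι → ℂ) →ₗ[ℂ] ℂ)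
  have hφ : ∀ u : ι → ℂ, φ u = ∑ i, v i * u i := by
    intro u
    simp [φ]
  have hφS : S ≤ LinearMap.ker φ := by
    rw [hS, Submodule.span_le]
    rintro _ ⟨j, rfl⟩
    rw [SetLike.mem_coe, LinearMap.mem_ker, hφ, ← hv1 j]
    exact Finset.sum_congr rfl fun i _ => mul_comm _ _
  let ψ : ((ι → ℂ) ⧸ S) →ₗ[ℂ] ℂ := S.liftQ φ hφS
  have hψ : ∀ u, ψ (S.mkQ u) = φ u := fun u => by simp [ψ]
  have hψ0 : ψ = 0 := by
    apply LinearMap.ext_on_range (v := q ∘ a)
    · rw [hsp, hspan]
    · intro k
      obtain ⟨k', rfl⟩ := e.surjective k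
      show ψ (S.mkQ (Pi.single (a (e k')) 1)) = 0
      rw [hψ, hφ, Finset.sum_eq_single (a (e k'))]
      · rw [hv2 k', zero_mul]
      · intro b _ hb
        rw [Pi.single_eq_of_ne hb, mul_zero]
      · intro h; exact absurd (Finset.mem_univ _) h
  ext i
  have h3 : φ (Pi.single i 1) = 0 := by rw [← hψ, hψ0]; rfl
  rw [hφ, Finset.sum_eq_single i] at h3
  · simpa using h3
  · intro b _ hb
    rw [Pi.single_eq_of_ne hb, mul_zero]
  · intro h; exact absurd (Finset.mem_univ _) h

theorem exists_implicit {ι : Type} [Fintype ι] {c n : ℕ} (hcn : c + n = Fintype.card ι)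
    {f : Fin c → MvPolynomial ι ℂ} {w : ι → ℂ} (hf : ∀ j, eval w (f j) = 0)
    (hli : LinearIndependent ℂ fun (j : Fin c) (i : ι) => eval w (pderiv i (f j))) :
    ∃ (I : Fin n → ι) (σ : (Fin n → ℂ) → ι → ℂ), AnalyticAt ℂ σ 0 ∧ σ 0 = w ∧
      (∀ᶠ u in 𝓝 0, (∀ j, eval (σ u) (f j) = 0) ∧ ∀ k, σ u (I k) = w (I k) + u k) ∧
      ∀ᶠ y in 𝓝 w, (∀ j, eval y (f j) = 0) → y = σ (fun k => y (I k) - w (I k)) := by
  classical
  obtain ⟨I, hI⟩ := Inv_exists_coords hcn hli
  let Φ : (ι → ℂ) → (Fin c → ℂ) × (Fin n → ℂ) :=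
    fun y => (fun j => eval y (f j), fun k => y (I k) - w (I k))
  have hΦan : AnalyticAt ℂ Φ w := by
    apply AnalyticAt.prod
    · rw [analyticAt_pi_iff]
      intro j
      exact AnalyticOnNhd.eval_mvPolynomial (f j) w (Set.mem_univ _)
    · rw [analyticAt_pi_iff]
      intro k
      exact ((ContinuousLinearMap.proj (I k) : (ι → ℂ) →L[ℂ] ℂ).analyticAt w).sub analyticAt_const
  have hΦw : Φ w = 0 := by
    apply Prod.ext
    · funext j; exact hf j
    · funext k; exact sub_self _
  let L : (ι → ℂ) →L[ℂ] (Fin c → ℂ) × (Fin n → ℂ) :=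
    (ContinuousLinearMap.pi fun j => ∑ i, eval w (pderiv i (f j)) •
      (ContinuousLinearMap.proj i : (ι → ℂ) →L[ℂ] ℂ)).prod
      (ContinuousLinearMap.pi fun k => (ContinuousLinearMap.proj (I k) : (ι → ℂ) →L[ℂ] ℂ))
  have hL : HasFDerivAt Φ L w := by
    apply HasFDerivAt.prodMk
    · rw [hasFDerivAt_pi]
      intro j
      exact Inv_hasFDerivAt_eval (f j) w
    · rw [hasFDerivAt_pi]
      intro k
      exact (hasFDerivAt_apply (I k) w).sub_const _
  have hLinj : Function.Injective (L : (ι → ℂ) →ₗ[ℂ] (Fin c → ℂ) × (Fin n → ℂ)) := by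
    rw [injective_iff_map_eq_zero]
    intro v hv
    apply hI v
    · intro j
      have h1 := congrFun (congrArg Prod.fst hv) j
      simpa [L] using h1
    · intro k
      have h1 := congrFun (congrArg Prod.snd hv) k
      simpa [L] using h1
  have hdim : Module.finrank ℂ (ι → ℂ) = Module.finrank ℂ ((Fin c → ℂ) × (Fin n → ℂ)) := by
    rw [Module.finrank_prod, Module.finrank_fintype_fun_eq_card, Module.finrank_fintype_fun_eq_card,
      Module.finrank_fintype_fun_eq_card, Fintype.card_fin, Fintype.card_fin, hcn]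
  let Le : (ι → ℂ) ≃ₗ[ℂ] (Fin c → ℂ) × (Fin n → ℂ) :=
    LinearEquiv.ofInjectiveOfFinrankEq (L : (ι → ℂ) →ₗ[ℂ] (Fin c → ℂ) × (Fin n → ℂ)) hLinj hdim
  let Lc : (ι → ℂ) ≃L[ℂ] (Fin c → ℂ) × (Fin n → ℂ) := Le.toContinuousLinearEquiv
  have hLc : (Lc : (ι → ℂ) →L[ℂ] (Fin c → ℂ) × (Fin n → ℂ)) = L := by
    ext1 v; rfl
  have hL' : HasFDerivAt Φ (Lc : (ι → ℂ) →L[ℂ] (Fin c → ℂ) × (Fin n → ℂ)) w := by
    rw [hLc]; exact hL
  have hcd : ContDiffAt ℂ ⊤ Φ w := hΦan.contDiffAt
  have hs := hcd.hasStrictFDerivAt' hL' (by simp)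
  let Ψ := hs.localInverse Φ Lc w
  have hΨan : AnalyticAt ℂ Ψ 0 := by
    have h1 : ContDiffAt ℂ ⊤ (hcd.localInverse hL' (by simp)) (Φ w) := hcd.to_localInverse hL' (by simp)
    rw [hΦw] at h1
    have h2 := contDiffWithinAt_omega_iff_analyticWithinAt.1 (contDiffWithinAt_univ.2 h1)
    exact analyticWithinAt_univ.1 h2
  have hright : ∀ᶠ y in 𝓝 (0 : (Fin c → ℂ) × (Fin n → ℂ)), Φ (Ψ y) = y := by
    have := hs.eventually_right_inverse
    rwa [hΦw] at this
  have hleft : ∀ᶠ y in 𝓝 w, Ψ (Φ y) = y := hs.eventually_left_inverse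
  have hΨ0 : Ψ 0 = w := by
    have := hleft.self_of_nhds
    rwa [hΦw] at this
  have hemb : AnalyticAt ℂ (fun u : Fin n → ℂ => ((0 : Fin c → ℂ), u)) 0 :=
    analyticAt_const.prod analyticAt_id
  have hcont : Filter.Tendsto (fun u : Fin n → ℂ => ((0 : Fin c → ℂ), u)) (𝓝 0) (𝓝 0) := by
    have := hemb.continuousAt
    exact this
  refine ⟨I, fun u => Ψ (0, u), ?_, hΨ0, ?_, ?_⟩
  · exact AnalyticAt.comp (g := Ψ) (f := fun u : Fin n → ℂ => ((0 : Fin c → ℂ), u)) hΨan hemb
  · filter_upwards [hcont.eventually hright] with u hu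
    constructor
    · intro j
      exact congrFun (congrArg Prod.fst hu) j
    · intro k
      have := congrFun (congrArg Prod.snd hu) k
      have h' : Ψ (0, u) (I k) - w (I k) = u k := this
      rw [← h']; ring
  · filter_upwards [hleft] with y hy hy0
    rw [← hy]
    congr 1
    show Φ y = (0, fun k => Ψ (Φ y) (I k) - w (I k))
    rw [hy]
    apply Prod.ext
    · funext j; exact hy0 j
    · rfl

end Pool.Agent.H13.SM

end
end

section

/-!
# The zero set of an analytic function is a null set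

PROOF.  `h` is analytic on a ball of radius `r` around `0` (`AnalyticAt.eventually_analyticAt`; sup norm,
the ball is convex), and since it is not eventually `0` there is `v` with `‖v‖ < r / 2`, `h v ≠ 0`;
`v ≠ 0` since `h 0 = 0`.  By continuity there is `0 < δ ≤ r / 2` with `h (p + v) ≠ 0` for `‖p‖ < δ`.  Take
`W = Metric.ball 0 δ`, `Z' = {x ∈ W | h x = 0}`, measurable since `W \ Z' = {x ∈ W | h x ≠ 0}` is open.
By `MeasureTheory.ae_mem_of_ae_add_linearMap_mem` for `L : ℂ →ₗ[ℝ] (Fin n → ℂ)`, `t ↦ t • v`, and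
`s = Z'ᶜ`, it is enough that for every `y` the set `{t : ℂ | y + t • v ∈ Z'}` is null.  If it is not
empty, let `p = y + t₀ • v ∈ Z'`; the set is the translate by `t₀` of a subset of
`{s ∈ D | h (p + s • v) = 0}`, `D = {s : ℂ | ‖p + s • v‖ < r}`.  `D` is open and convex, contains `0` and
`1`, and `g s = h (p + s • v)` is analytic on `D` with `g 1 ≠ 0`.  So the zeros of `g` in `D` are
isolated (`AnalyticOnNhd.eqOn_zero_of_preconnected_of_frequently_eq_zero`,
`AnalyticAt.eventually_eq_zero_or_eventually_ne_zero`) and the zero set is null: it is codiscrete in `D`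
(`AnalyticOnNhd.preimage_zero_mem_codiscreteWithin` or similar) and
`MeasureTheory.ae_restrict_le_codiscreteWithin`; or it is countable.
-/

open Topology MeasureTheory

noncomputable section

namespace Pool.Agent.H13.SM

private theorem Null_line {n : ℕ} {h : (Fin n → ℂ) → ℂ} {r : ℝ} {v p : Fin n → ℂ}
    (hball : ∀ y ∈ Metric.ball (0 : Fin n → ℂ) r, AnalyticAt ℂ h y)
    (hpv : p + v ∈ Metric.ball (0 : Fin n → ℂ) r) (hv : h (p + v) ≠ 0) :
    ∀ᵐ s : ℂ, p + s • v ∈ Metric.ball (0 : Fin n → ℂ) r → h (p + s • v) ≠ 0 := by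
  have hline : Continuous fun s : ℂ => p + s • v :=
    continuous_const.add (continuous_id.smul continuous_const)
  have hDo : IsOpen {s : ℂ | p + s • v ∈ Metric.ball (0 : Fin n → ℂ) r} :=
    Metric.isOpen_ball.preimage hline
  have hDc : Convex ℝ {s : ℂ | p + s • v ∈ Metric.ball (0 : Fin n → ℂ) r} := by
    intro x hx y hy a b ha hb hab
    have h1 := (convex_ball (0 : Fin n → ℂ) r) hx hy ha hb hab
    have h2 : a • (p + x • v) + b • (p + y • v) = p + (a • x + b • y) • v := by
      have h3 : (a + b) • p = p := by rw [hab, one_smul]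
      calc a • (p + x • v) + b • (p + y • v) = (a + b) • p + (a • x + b • y) • v := by
            rw [smul_add, smul_add, add_smul, add_smul, smul_assoc, smul_assoc]
            abel
        _ = _ := by rw [h3]
    rw [h2] at h1
    exact h1
  have hg : AnalyticOnNhd ℂ (fun s : ℂ => h (p + s • v))
      {s : ℂ | p + s • v ∈ Metric.ball (0 : Fin n → ℂ) r} := by
    intro s hs
    have h1 : AnalyticAt ℂ (fun s : ℂ => p + s • v) s :=
      analyticAt_const.add (analyticAt_id.smul analyticAt_const)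
    exact AnalyticAt.comp (g := h) (f := fun s : ℂ => p + s • v) (hball _ hs) h1
  have h1D : (1 : ℂ) ∈ {s : ℂ | p + s • v ∈ Metric.ball (0 : Fin n → ℂ) r} := by
    show p + (1 : ℂ) • v ∈ Metric.ball (0 : Fin n → ℂ) r
    rw [one_smul]
    exact hpv
  rcases hg.eqOn_zero_or_eventually_ne_zero_of_preconnected hDc.isPreconnected with h2 | h2
  · exfalso
    have h3 := h2 h1D
    apply hv
    simpa using h3
  · have h3 := ae_restrict_le_codiscreteWithin (μ := (volume : Measure ℂ)) hDo.measurableSet h2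
    exact (ae_restrict_iff' hDo.measurableSet).1 h3

theorem exists_null {n : ℕ} {h : (Fin n → ℂ) → ℂ} (hh : AnalyticAt ℂ h 0) (h0 : h 0 = 0)
    (hne : ¬ ∀ᶠ u in 𝓝 0, h u = 0) :
    ∃ W ∈ 𝓝 (0 : Fin n → ℂ), volume {u | u ∈ W ∧ h u = 0} = 0 := by
  obtain ⟨r, hr, hball⟩ := Metric.eventually_nhds_iff_ball.1 hh.eventually_analyticAt
  have hex : ∃ v ∈ Metric.ball (0 : Fin n → ℂ) (r / 2), h v ≠ 0 := by
    by_contra hcon
    push Not at hcon
    exact hne (Filter.mem_of_superset (Metric.ball_mem_nhds 0 (half_pos hr)) fun u hu => hcon u hu)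
  obtain ⟨v, hvr, hv⟩ := hex
  have hvr' : v ∈ Metric.ball (0 : Fin n → ℂ) r := Metric.ball_subset_ball (by linarith) hvr
  have hcont : ContinuousAt (fun p : Fin n → ℂ => h (p + v)) 0 := by
    have h1 : ContinuousAt h ((0 : Fin n → ℂ) + v) := by
      rw [zero_add]
      exact (hball v hvr').continuousAt
    exact ContinuousAt.comp (g := h) (f := fun p : Fin n → ℂ => p + v) h1
      (continuousAt_id.add continuousAt_const)
  have hev : ∀ᶠ p in 𝓝 (0 : Fin n → ℂ), h (p + v) ≠ 0 := hcont.eventually_ne (by rwa [zero_add])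
  obtain ⟨δ0, hδ0, hδ⟩ := Metric.eventually_nhds_iff_ball.1 hev
  have hδpos : 0 < min δ0 (r / 2) := lt_min hδ0 (half_pos hr)
  have hsub : Metric.ball (0 : Fin n → ℂ) (min δ0 (r / 2)) ⊆ Metric.ball 0 r :=
    Metric.ball_subset_ball ((min_le_right _ _).trans (by linarith))
  refine ⟨Metric.ball 0 (min δ0 (r / 2)), Metric.ball_mem_nhds 0 hδpos, ?_⟩
  have hZm : MeasurableSet {u : Fin n → ℂ | u ∈ Metric.ball (0 : Fin n → ℂ) (min δ0 (r / 2)) ∧ h u = 0} := by
    have hc : ContinuousOn h (Metric.ball (0 : Fin n → ℂ) (min δ0 (r / 2))) :=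
      fun u hu => (hball u (hsub hu)).continuousAt.continuousWithinAt
    have ho : IsOpen (Metric.ball (0 : Fin n → ℂ) (min δ0 (r / 2)) ∩ h ⁻¹' {0}ᶜ) :=
      hc.isOpen_inter_preimage Metric.isOpen_ball isOpen_compl_singleton
    have he : {u : Fin n → ℂ | u ∈ Metric.ball (0 : Fin n → ℂ) (min δ0 (r / 2)) ∧ h u = 0} =
        Metric.ball (0 : Fin n → ℂ) (min δ0 (r / 2)) \
          (Metric.ball (0 : Fin n → ℂ) (min δ0 (r / 2)) ∩ h ⁻¹' {0}ᶜ) := by
      ext u
      constructor
      · rintro ⟨h1, h2⟩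
        exact ⟨h1, fun h3 => h3.2 h2⟩
      · rintro ⟨h1, h2⟩
        refine ⟨h1, ?_⟩
        by_contra h3
        exact h2 ⟨h1, h3⟩
    rw [he]
    exact Metric.isOpen_ball.measurableSet.diff ho.measurableSet
  have key : ∀ᵐ y : Fin n → ℂ, y ∈ {u : Fin n → ℂ | u ∈ Metric.ball (0 : Fin n → ℂ) (min δ0 (r / 2)) ∧ h u = 0}ᶜ := by
    refine ae_mem_of_ae_add_linearMap_mem (LinearMap.toSpanSingleton ℂ (Fin n → ℂ) v) volume volume
      hZm.compl fun y => ?_
    by_cases hy : ∃ t0 : ℂ, y + t0 • v ∈ {u : Fin n → ℂ | u ∈ Metric.ball (0 : Fin n → ℂ) (min δ0 (r / 2)) ∧ h u = 0}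
    · obtain ⟨t0, hp1, -⟩ := hy
      have hp2 : ‖y + t0 • v‖ < min δ0 (r / 2) := by simpa using hp1
      have hpv : (y + t0 • v) + v ∈ Metric.ball (0 : Fin n → ℂ) r := by
        rw [mem_ball_zero_iff]
        have h1 := norm_add_le (y + t0 • v) v
        have h2 : ‖v‖ < r / 2 := by simpa using hvr
        have h3 : min δ0 (r / 2) ≤ r / 2 := min_le_right _ _
        linarith
      have hne1 : h ((y + t0 • v) + v) ≠ 0 :=
        hδ _ (Metric.ball_subset_ball (min_le_left _ _) hp1)
      have h1 := Null_line hball hpv hne1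
      have h2 := (measurePreserving_sub_right (volume : Measure ℂ) t0).quasiMeasurePreserving.ae h1
      filter_upwards [h2] with t ht hZ
      have h3 : y + t0 • v + (t - t0) • v = y + t • v := by
        rw [sub_smul]
        abel
      rw [h3] at ht
      have h4 : y + (LinearMap.toSpanSingleton ℂ (Fin n → ℂ) v) t = y + t • v := by
        rw [LinearMap.toSpanSingleton_apply]
      rw [h4] at hZ
      exact ht (hsub hZ.1) hZ.2
    · refine Filter.Eventually.of_forall fun t hZ => hy ⟨t, ?_⟩
      have h4 : y + (LinearMap.toSpanSingleton ℂ (Fin n → ℂ) v) t = y + t • v := by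
        rw [LinearMap.toSpanSingleton_apply]
      rw [h4] at hZ
      exact hZ
  have h5 := mem_ae_iff.1 key
  have h6 : {y : Fin n → ℂ | y ∈ {u : Fin n → ℂ | u ∈ Metric.ball (0 : Fin n → ℂ) (min δ0 (r / 2)) ∧ h u = 0}ᶜ}ᶜ =
      {u : Fin n → ℂ | u ∈ Metric.ball (0 : Fin n → ℂ) (min δ0 (r / 2)) ∧ h u = 0} :=
    compl_compl _
  rw [h6] at h5
  exact h5

end Pool.Agent.H13.SM

end
end

section

/-!
# Fewer equations than unknowns

A system of `m` complex polynomials without constant term in more than `m` unknowns has a common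
zero other than the origin (Krull's height theorem and the Nullstellensatz).
-/

open MvPolynomial

namespace Pool.Agent.H17

/-- The vanishing ideal of the origin in affine space has height at least the dimension. -/
lemma le_height_vanishingIdeal_zero (σ : Type) [Finite σ] :
    (Nat.card σ : ℕ∞) ≤ (vanishingIdeal ℂ ({0} : Set (σ → ℂ))).height := by
  classical
  have hdim : ringKrullDim (MvPolynomial σ ℂ) = (Nat.card σ : WithBot ℕ∞) := by
    rw [MvPolynomial.ringKrullDim_of_isNoetherianRing]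
    simp
  have : FiniteRingKrullDim (MvPolynomial σ ℂ) := by
    rw [finiteRingKrullDim_iff_ne_bot_and_top, hdim]
    constructor
    · exact WithBot.coe_ne_bot
    · intro h
      have := WithBot.coe_injective h
      exact absurd this (by simp)
  obtain ⟨p, hp, hh⟩ := Ideal.exists_isMaximal_height (R := MvPolynomial σ ℂ)
  obtain ⟨x, hx⟩ := isMaximal_iff_eq_vanishingIdeal_singleton.mp hp
  -- translation
  let e : MvPolynomial σ ℂ ≃ₐ[ℂ] MvPolynomial σ ℂ :=
    AlgEquiv.ofAlgHom (aeval (fun i => X i + C (x i))) (aeval (fun i => X i - C (x i)))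
      (by ext i; simp) (by ext i; simp)
  have hcomap : Ideal.comap (e : MvPolynomial σ ℂ ≃+* MvPolynomial σ ℂ)
      (vanishingIdeal ℂ ({0} : Set (σ → ℂ))) = p := by
    rw [hx]
    ext q
    rw [Ideal.mem_comap, mem_vanishingIdeal_singleton_iff, mem_vanishingIdeal_singleton_iff]
    have : aeval (0 : σ → ℂ) ((e : MvPolynomial σ ℂ ≃+* MvPolynomial σ ℂ) q) = aeval x q := by
      have h1 : (aeval (0 : σ → ℂ)).comp (e : MvPolynomial σ ℂ →ₐ[ℂ] MvPolynomial σ ℂ)
          = aeval x := by
        ext i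
        simp [e]
      exact DFunLike.congr_fun h1 q
    rw [this]
  have h2 := RingEquiv.height_comap (e : MvPolynomial σ ℂ ≃+* MvPolynomial σ ℂ)
    (vanishingIdeal ℂ ({0} : Set (σ → ℂ)))
  rw [hcomap] at h2
  rw [← h2]
  have h3 : ((p.height : ℕ∞) : WithBot ℕ∞) = (Nat.card σ : WithBot ℕ∞) := by
    rw [hh, hdim]
  have h4 : p.height = (Nat.card σ : ℕ∞) := by
    exact_mod_cast h3
  rw [h4]

/-- Fewer equations than unknowns: polynomials without constant term have a common zero other
than the origin. -/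
theorem exists_ne_zero_common_zero (σ : Type) [Finite σ] (κ : Type) [Finite κ]
    (hcard : Nat.card κ < Nat.card σ) (f : κ → MvPolynomial σ ℂ)
    (hf : ∀ k, eval (0 : σ → ℂ) (f k) = 0) :
    ∃ x : σ → ℂ, x ≠ 0 ∧ ∀ k, eval x (f k) = 0 := by
  classical
  by_contra hcon
  push Not at hcon
  have : Fintype κ := Fintype.ofFinite κ
  set s : Finset (MvPolynomial σ ℂ) := Finset.univ.image f with hs
  set I : Ideal (MvPolynomial σ ℂ) := Ideal.span (s : Set (MvPolynomial σ ℂ)) with hI
  have hzero : zeroLocus ℂ I = {(0 : σ → ℂ)} := by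
    ext x
    rw [hI, zeroLocus_span]
    constructor
    · intro hx
      by_contra hne
      obtain ⟨k, hk⟩ := hcon x hne
      apply hk
      have := hx (f k) (by simp [hs])
      simpa [MvPolynomial.aeval_eq_eval] using this
    · rintro rfl
      intro p hp
      simp only [hs, Finset.coe_image, Finset.coe_univ, Set.image_univ, Set.mem_range] at hp
      obtain ⟨k, rfl⟩ := hp
      simpa [MvPolynomial.aeval_eq_eval] using hf k
  have hrad : I.radical = vanishingIdeal ℂ ({0} : Set (σ → ℂ)) := by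
    rw [← vanishingIdeal_zeroLocus_eq_radical (K := ℂ) I, hzero]
  have hmax : (vanishingIdeal ℂ ({0} : Set (σ → ℂ))).IsMaximal :=
    isMaximal_iff_eq_vanishingIdeal_singleton.mpr ⟨0, rfl⟩
  have hmin : vanishingIdeal ℂ ({0} : Set (σ → ℂ)) ∈ I.minimalPrimes := by
    refine ⟨⟨hmax.isPrime, ?_⟩, ?_⟩
    · rw [← hrad]; exact Ideal.le_radical
    · rintro J ⟨hJ, hIJ⟩ _
      rw [← hrad]
      exact (Ideal.IsPrime.radical_le_iff hJ).mpr hIJ
  have h1 := Ideal.height_le_card_of_mem_minimalPrimes_span_finset (s := s) hmin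
  have h2 := le_height_vanishingIdeal_zero σ
  have h3 : s.card ≤ Nat.card κ := by
    rw [hs, Nat.card_eq_fintype_card]
    exact Finset.card_image_le
  have h4 : (Nat.card σ : ℕ∞) ≤ (s.card : ℕ∞) := h2.trans h1
  have h5 : Nat.card σ ≤ s.card := by exact_mod_cast h4
  omega

end Pool.Agent.H17

end

section

/-!
# Subvarieties of generic complete intersections: notation
-/

open MvPolynomial

noncomputable section

namespace Pool.Agent.H17GT

variable {K : Type} [Field K] [Algebra ℂ K]

/-- `D'` extends the derivation `D` of `ℂ`. -/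
def Ext (D : Derivation ℤ ℂ ℂ) (D' : Derivation ℤ K K) : Prop :=
  ∀ c : ℂ, D' (algebraMap ℂ K c) = algebraMap ℂ K (D c)

end Pool.Agent.H17GT

end
end

section

/-!
# Derivations and evaluation of polynomials; good derivations
-/

open MvPolynomial

noncomputable section

namespace Pool.Agent.H17GT

variable {K : Type} [Field K] [Algebra ℂ K]

/-- A derivation which vanishes on `ℂ` is a derivation over `ℂ`. -/
def overC (D' : Derivation ℤ K K) (h : ∀ c : ℂ, D' (algebraMap ℂ K c) = 0) : Derivation ℂ K K :=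
  Derivation.mk'
    { toFun := fun f => D' f
      map_add' := fun f g => map_add D' f g
      map_smul' := fun c f => by
        rw [Algebra.smul_def, Derivation.leibniz, h c, smul_zero, add_zero, smul_eq_mul,
          RingHom.id_apply, Algebra.smul_def] }
    (fun f g => D'.leibniz f g)

theorem overC_apply (D' : Derivation ℤ K K) (h : ∀ c : ℂ, D' (algebraMap ℂ K c) = 0) (f : K) :
    overC D' h f = D' f := rfl

end Pool.Agent.H17GT

end
end

section

/-!
# Extension of derivations along a transcendence basis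
-/

open MvPolynomial

noncomputable section

namespace Pool.Agent.H17GT

namespace ExtAux

/-- dual numbers -/
def DN (L : Type*) : Type _ := TrivSqZeroExt L L

instance (L : Type*) [Field L] : CommRing (DN L) :=
  inferInstanceAs (CommRing (TrivSqZeroExt L L))

section

variable {L : Type*} [Field L]

/-- the value -/
def val : DN L →+* L := (TrivSqZeroExt.fstHom L L L).toRingHom

/-- the derivative -/
def der (x : DN L) : L := TrivSqZeroExt.snd x

lemma der_add (x y : DN L) : der (x + y) = der x + der y := rfl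

lemma der_mul (x y : DN L) : der (x * y) = val x * der y + val y * der x := by
  have h := TrivSqZeroExt.snd_mul (R := L) (M := L) x y
  rw [smul_eq_mul, op_smul_eq_smul, smul_eq_mul] at h
  exact h

/-- a dual number -/
def mkDN (a b : L) : DN L := (TrivSqZeroExt.inl a + TrivSqZeroExt.inr b : TrivSqZeroExt L L)

lemma val_mk (a b : L) : val (mkDN a b) = a := by
  change TrivSqZeroExt.fst (TrivSqZeroExt.inl a + TrivSqZeroExt.inr b : TrivSqZeroExt L L) = a
  simp

lemma der_mk (a b : L) : der (mkDN a b) = b := by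
  change TrivSqZeroExt.snd (TrivSqZeroExt.inl a + TrivSqZeroExt.inr b : TrivSqZeroExt L L) = b
  simp

lemma dn_ext {x y : DN L} (h1 : val x = val y) (h2 : der x = der y) : x = y :=
  TrivSqZeroExt.ext h1 h2

lemma val_surjective : Function.Surjective (val : DN L →+* L) := fun a => ⟨mkDN a 0, val_mk a 0⟩

lemma der_one : der (1 : DN L) = 0 := by
  change TrivSqZeroExt.snd (1 : TrivSqZeroExt L L) = 0
  simp

lemma der_zero : der (0 : DN L) = 0 := rfl

lemma ker_nilpotent : IsNilpotent (RingHom.ker (val : DN L →+* L)) := by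
  refine ⟨2, ?_⟩
  rw [pow_two, Ideal.zero_eq_bot, eq_bot_iff, Ideal.mul_le]
  intro r hr s hs
  rw [Ideal.mem_bot]
  rw [RingHom.mem_ker] at hr hs
  refine dn_ext ?_ ?_
  · rw [map_mul, hr, zero_mul, map_zero]
  · rw [der_mul, hr, hs, zero_mul, zero_mul, add_zero, der_zero]

variable {k : Type*} [Field k] [Algebra k L]

/-- the homomorphism to dual numbers attached to a derivation -/
def toDN (D : Derivation ℤ k L) : k →+* DN L where
  toFun c := mkDN (algebraMap k L c) (D c)
  map_one' := by
    refine dn_ext ?_ ?_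
    · rw [val_mk, map_one, map_one]
    · rw [der_mk, der_one, D.map_one_eq_zero]
  map_mul' a b := by
    refine dn_ext ?_ ?_
    · rw [map_mul val, val_mk, val_mk, val_mk, map_mul]
    · rw [der_mul, der_mk, der_mk, der_mk, val_mk, val_mk, D.leibniz, Algebra.smul_def,
        Algebra.smul_def]
  map_zero' := by
    refine dn_ext ?_ ?_
    · rw [val_mk, map_zero, map_zero]
    · rw [der_mk, der_zero, map_zero]
  map_add' a b := by
    refine dn_ext ?_ ?_
    · rw [map_add val, val_mk, val_mk, val_mk, map_add]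
    · rw [der_add, der_mk, der_mk, der_mk, map_add]

/-- extension of derivations along a formally étale map -/
theorem exists_der_of_etale {S : Type*} [CommRing S] [Algebra S L] [Algebra.FormallyEtale S L]
    (φ : S →+* DN L) (hφ : ∀ s, val (φ s) = algebraMap S L s) :
    ∃ D' : Derivation ℤ L L, ∀ s, D' (algebraMap S L s) = der (φ s) := by
  let : Algebra S (DN L) := φ.toAlgebra
  let g : DN L →ₐ[S] L := { val with commutes' := fun s => hφ s }
  have hg : Function.Surjective g := val_surjective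
  have hg' : IsNilpotent (RingHom.ker g) := ker_nilpotent
  let h := Algebra.FormallySmooth.liftOfSurjective (AlgHom.id S L) g hg hg'
  have hh : ∀ x, val (h x) = x := fun x =>
    Algebra.FormallySmooth.liftOfSurjective_apply (AlgHom.id S L) g hg hg' x
  refine ⟨Derivation.mk' (AddMonoidHom.toIntLinearMap
    { toFun := fun x => der (h x)
      map_zero' := by rw [map_zero, der_zero]
      map_add' := fun x y => by rw [map_add, der_add] }) ?_, ?_⟩
  · intro x y
    change der (h (x * y)) = x • der (h y) + y • der (h x)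
    rw [map_mul, der_mul, hh, hh, smul_eq_mul, smul_eq_mul]
  · intro s
    change der (h (algebraMap S L s)) = _
    rw [AlgHom.commutes]
    rfl

open scoped IntermediateField.algebraAdjoinAdjoin in
theorem exists_ext_basis [CharZero k] {ι : Type*} {x : ι → L} (hx : IsTranscendenceBasis k x)
    (D : Derivation ℤ k L) (v : ι → L) :
    ∃ D' : Derivation ℤ L L, (∀ c, D' (algebraMap k L c) = D c) ∧ ∀ i, D' (x i) = v i := by
  classical
  have : CharZero L := charZero_of_injective_algebraMap (algebraMap k L).injective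
  have : Algebra.IsAlgebraic (IntermediateField.adjoin k (Set.range x)) L := hx.isAlgebraic_field
  have e1 : Algebra.FormallyEtale (Algebra.adjoin k (Set.range x))
      (IntermediateField.adjoin k (Set.range x)) :=
    Algebra.FormallyEtale.of_isLocalization
      (nonZeroDivisors (Algebra.adjoin k (Set.range x)))
  have e2 : Algebra.FormallyEtale (IntermediateField.adjoin k (Set.range x)) L :=
    Algebra.FormallyEtale.of_isSeparable _ L
  have e3 : Algebra.FormallyEtale (Algebra.adjoin k (Set.range x)) L :=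
    Algebra.FormallyEtale.comp _ (IntermediateField.adjoin k (Set.range x)) _
  let : Algebra (MvPolynomial ι k) (Algebra.adjoin k (Set.range x)) :=
    hx.1.aevalEquiv.toRingHom.toAlgebra
  let : Algebra (MvPolynomial ι k) L := (MvPolynomial.aeval x).toRingHom.toAlgebra
  have t1 : IsScalarTower (MvPolynomial ι k) (Algebra.adjoin k (Set.range x)) L :=
    IsScalarTower.of_algebraMap_eq' rfl
  have e4 : Algebra.FormallyEtale (MvPolynomial ι k) (Algebra.adjoin k (Set.range x)) :=
    Algebra.FormallyEtale.of_equiv (R := MvPolynomial ι k) (A := MvPolynomial ι k)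
      (AlgEquiv.ofRingEquiv (f := hx.1.aevalEquiv.toRingEquiv) (fun r => rfl))
  have e5 : Algebra.FormallyEtale (MvPolynomial ι k) L :=
    Algebra.FormallyEtale.comp _ (Algebra.adjoin k (Set.range x)) _
  let φ : MvPolynomial ι k →+* DN L := MvPolynomial.eval₂Hom (toDN D) fun i => mkDN (x i) (v i)
  have hφ : ∀ s, val (φ s) = algebraMap (MvPolynomial ι k) L s := by
    intro s
    have h1 : val.comp φ = (MvPolynomial.aeval x).toRingHom := by
      refine MvPolynomial.ringHom_ext (fun c => ?_) (fun i => ?_)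
      · change val (φ (C c)) = MvPolynomial.aeval x (C c)
        rw [MvPolynomial.eval₂Hom_C, aeval_C]
        exact val_mk _ _
      · change val (φ (X i)) = MvPolynomial.aeval x (X i)
        rw [MvPolynomial.eval₂Hom_X', aeval_X]
        exact val_mk _ _
    exact congrArg (fun f => f s) h1
  obtain ⟨D', hD'⟩ := exists_der_of_etale φ hφ
  refine ⟨D', fun c => ?_, fun i => ?_⟩
  · have h1 := hD' (C c)
    have h2 : algebraMap (MvPolynomial ι k) L (C c) = algebraMap k L c := by
      change MvPolynomial.aeval x (C c) = _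
      rw [aeval_C]
    rw [← h2, h1, MvPolynomial.eval₂Hom_C]
    exact der_mk _ _
  · have h1 := hD' (X i)
    have h2 : algebraMap (MvPolynomial ι k) L (X i) = x i := by
      change MvPolynomial.aeval x (X i) = _
      rw [aeval_X]
    rw [← h2, h1, MvPolynomial.eval₂Hom_X']
    exact der_mk _ _

theorem exists_ext_indep [CharZero k] {ι : Type*} {z : ι → L} (hz : AlgebraicIndependent k z)
    (D : Derivation ℤ k L) (v : ι → L) :
    ∃ D' : Derivation ℤ L L, (∀ c, D' (algebraMap k L c) = D c) ∧ ∀ i, D' (z i) = v i := by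
  classical
  obtain ⟨t, hzt, ht⟩ := exists_isTranscendenceBasis_superset (s := Set.range z) hz.coe_range
  have hinj : Function.Injective z := hz.injective
  obtain ⟨D', h1, h2⟩ := exists_ext_basis ht D fun y : t =>
    if h : ∃ i, z i = (y : L) then v h.choose else 0
  refine ⟨D', h1, fun i => ?_⟩
  have h3 := h2 ⟨z i, hzt ⟨i, rfl⟩⟩
  have h4 : ∃ j, z j = z i := ⟨i, rfl⟩
  simp only at h3
  rw [dif_pos h4] at h3
  rw [h3, hinj h4.choose_spec]

end

end ExtAux

theorem exists_ext_values {K : Type} [Field K] [Algebra ℂ K] {ι : Type*} {z : ι → K}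
    (hz : AlgebraicIndependent ℂ z)
    (D : Derivation ℤ ℂ ℂ) (v : ι → K) :
    ∃ D' : Derivation ℤ K K, Ext D D' ∧ ∀ i, D' (z i) = v i := by
  let D₁ : Derivation ℤ ℂ K := Derivation.mk' (AddMonoidHom.toIntLinearMap
    { toFun := fun x => algebraMap ℂ K (D x)
      map_zero' := by rw [map_zero, map_zero]
      map_add' := fun x y => by rw [map_add, map_add] }) fun x y => by
    change algebraMap ℂ K (D (x * y)) = x • algebraMap ℂ K (D y) + y • algebraMap ℂ K (D x)
    rw [D.leibniz, map_add, smul_eq_mul, smul_eq_mul, map_mul, map_mul, Algebra.smul_def,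
      Algebra.smul_def]
  obtain ⟨D', h1, h2⟩ := ExtAux.exists_ext_indep hz D₁ v
  exact ⟨D', h1, h2⟩

end Pool.Agent.H17GT

end
end

section

/-!
# Comparison of two forms of the definitions

The definitions in `Fano.lean` (with subsets of the function field) agree with those in
`Defs.lean` (with subalgebras of the function field).
-/

open AlgebraicGeometry CategoryTheory MeasureTheory Filter
open scoped ENNReal

set_option linter.style.haveILetI false

noncomputable section

namespace Pool.Agent.H23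

section FunctionField

variable {K : Type} [Field K] [Algebra ℂ K] {n : ℕ} {ι : Type} (O : ι → Subalgebra ℂ K)

lemma fano_mem_regularForms {A : Subalgebra ℂ K} {S : Set K} (h : S = (A : Set K))
    (ω : RatForm K n) :
    (show Fano.Form K n from ω) ∈ Fano.regularForms n S ↔ ω ∈ regularForms n A := by
  subst h
  exact Iff.rfl

variable {O' : ι → Set K} (hO : ∀ x, O' x = (O x : Set K))

include hO

omit hO in
/-- the same prime divisor, in the other form of the definition -/
def ofFano (E : Fano.PrimeDivisorOver K n) : PrimeDivisorOver K n :=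
  ⟨E.ord, E.ord_const, E.exists_uniformizer, E.residue_trdeg⟩

omit hO in
/-- the same prime divisor, in the other form of the definition -/
def toFano (E : PrimeDivisorOver K n) : Fano.PrimeDivisorOver K n :=
  ⟨E.ord, E.ord_const, E.exists_uniformizer, E.residue_trdeg⟩

omit hO in
lemma toFano_ofFano (E : Fano.PrimeDivisorOver K n) : toFano (ofFano E) = E := rfl

end FunctionField

section Scheme

variable {X : Scheme.{0}} (s : X ⟶ Spec (.of ℂ)) [IsIntegral X]

end Scheme

end Pool.Agent.H23

end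
end

section

/-!
# Local and pointwise estimates of the resultant, local version
-/

open Polynomial Topology Filter

namespace Pool.Agent.H92.GGL

variable {ι : Type} [Fintype ι]

/-- The choice of the exponents. -/
lemma exists_params {n Θ ρ : ℝ} (hρ : 0 ≤ ρ) (h : Θ + 2 * ρ < n) :
    ∃ κ α : ℝ, 0 < κ ∧ κ < 2 ∧ 0 < α ∧ 4 * ρ + κ * α = (2 - κ) * (n - Θ) := by
  obtain ⟨A, hA⟩ : ∃ A : ℝ, A = n - Θ := ⟨_, rfl⟩
  have hA2 : 2 * ρ < A := by rw [hA]; linarith
  have hApos : 0 < A := by linarith
  have hκ0 : 0 < (A - 2 * ρ) / A := by apply div_pos <;> linarith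
  have hκ1 : (A - 2 * ρ) / A ≤ 1 := by rw [div_le_one hApos]; linarith
  refine ⟨(A - 2 * ρ) / A, A, hκ0, by linarith, hApos, ?_⟩
  rw [← hA, div_mul_cancel₀ _ hApos.ne', sub_mul, div_mul_cancel₀ _ hApos.ne']
  ring

end Pool.Agent.H92.GGL

end

section

/-!
# The generic point of the family
-/

open MvPolynomial

noncomputable section

namespace Pool.Agent.H92.GT.Cover

/-- The generic field. -/
abbrev GenField (r : ℕ) : Type := AlgebraicClosure (FractionRing (MvPolynomial (Fin (r + 1)) ℂ))

section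

variable {N r : ℕ} {ι T : Type} [Fintype ι] [Fintype T] [DecidableEq ι]

end

end Pool.Agent.H92.GT.Cover

end
end

section

/-!
# Homogenisation
-/

open MvPolynomial

noncomputable section

namespace Pool.Agent.H92.GT

variable {r : ℕ}

/-- The homogenised polynomial. -/
def hmg {B : Type} [CommRing B] [Algebra ℂ B] (p : MvPolynomial (Fin r) ℂ) (A : Fin (r + 1) → B) :
    B :=
  ∑ m ∈ p.support, algebraMap ℂ B (p.coeff m) *
    (A 0 ^ (p.totalDegree - ∑ i, m i) * ∏ i : Fin r, A (Fin.succ i) ^ m i)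

lemma map_hmg {B B' : Type} [CommRing B] [Algebra ℂ B] [CommRing B'] [Algebra ℂ B']
    (f : B →ₐ[ℂ] B') (p : MvPolynomial (Fin r) ℂ) (A : Fin (r + 1) → B) :
    f (hmg p A) = hmg p fun i => f (A i) := by
  unfold hmg
  rw [map_sum]
  refine Finset.sum_congr rfl fun m _ => ?_
  rw [map_mul, map_mul, map_pow, map_prod, AlgHom.commutes]
  congr 2
  exact Finset.prod_congr rfl fun i _ => map_pow _ _ _

lemma hmg_eq {K : Type} [Field K] [Algebra ℂ K] (p : MvPolynomial (Fin r) ℂ)
    {A : Fin (r + 1) → K} (h : A 0 ≠ 0) :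
    hmg p A = A 0 ^ p.totalDegree * aeval (fun i : Fin r => A (Fin.succ i) / A 0) p := by
  unfold hmg
  rw [aeval_def, eval₂_eq', Finset.mul_sum]
  refine Finset.sum_congr rfl fun m hm => ?_
  have h1 : ∑ i, m i ≤ p.totalDegree := by
    have h2 := le_totalDegree hm
    rwa [Finsupp.sum_fintype _ _ (fun _ => rfl)] at h2
  have h3 : A 0 ^ p.totalDegree = A 0 ^ (p.totalDegree - ∑ i, m i) * A 0 ^ (∑ i, m i) := by
    rw [← pow_add, Nat.sub_add_cancel h1]
  have h4 : ∏ i : Fin r, (A (Fin.succ i) / A 0) ^ m i =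
      (∏ i : Fin r, A (Fin.succ i) ^ m i) / A 0 ^ (∑ i, m i) := by
    rw [Finset.prod_congr rfl fun i _ => div_pow (A (Fin.succ i)) (A 0) (m i),
      Finset.prod_div_distrib, Finset.prod_pow_eq_pow_sum]
  rw [h3, h4]
  field_simp

lemma hmg_isWeightedHomogeneous {σ : Type} {w : σ → ℕ} {d : ℕ} (p : MvPolynomial (Fin r) ℂ)
    {A : Fin (r + 1) → MvPolynomial σ ℂ} (hA : ∀ i, IsWeightedHomogeneous w (A i) d) :
    IsWeightedHomogeneous w (hmg p A) (p.totalDegree * d) := by
  unfold hmg
  refine IsWeightedHomogeneous.sum _ _ _ fun m hm => ?_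
  have h1 : ∑ i, m i ≤ p.totalDegree := by
    have h2 := le_totalDegree hm
    rwa [Finsupp.sum_fintype _ _ (fun _ => rfl)] at h2
  have h2 := (isWeightedHomogeneous_C w (p.coeff m)).mul
    (((hA 0).pow (p.totalDegree - ∑ i, m i)).mul
      (IsWeightedHomogeneous.prod Finset.univ (fun i : Fin r => A (Fin.succ i) ^ m i)
        (fun i => m i * d) fun i _ => by
          have h3 := (hA (Fin.succ i)).pow (m i)
          rwa [smul_eq_mul] at h3))
  have h3 : 0 + ((p.totalDegree - ∑ i, m i) • d + ∑ i : Fin r, m i * d) = p.totalDegree * d := by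
    rw [zero_add, smul_eq_mul, ← Finset.sum_mul, ← add_mul, Nat.sub_add_cancel h1]
  rw [h3] at h2
  exact h2

/-- If the homogenised polynomial vanishes at the variables the polynomial is zero. -/
lemma eq_zero_of_hmg {p : MvPolynomial (Fin r) ℂ}
    (h : hmg p (fun i : Fin (r + 1) => (X i : MvPolynomial (Fin (r + 1)) ℂ)) = 0) : p = 0 := by
  apply MvPolynomial.funext
  intro c
  have h1 := congrArg (aeval (Fin.cons (1 : ℂ) c : Fin (r + 1) → ℂ) :
    MvPolynomial (Fin (r + 1)) ℂ →ₐ[ℂ] ℂ) h
  rw [map_hmg, map_zero] at h1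
  simp only [aeval_X] at h1
  rw [hmg_eq p (by simp)] at h1
  simp only [Fin.cons_zero, Fin.cons_succ, one_pow, one_mul, div_one] at h1
  rw [map_zero]
  rw [aeval_def] at h1
  exact h1

end Pool.Agent.H92.GT

end
end

section

/-!
# Kummer theory: independence of radicals
-/

noncomputable section

namespace Pool.Agent.H92.GT.Kummer

lemma mem_range_of_isIntegral {L : Type*} [Field L] [Algebra ℂ L] {x : L} (hx : IsIntegral ℂ x) :
    x ∈ (algebraMap ℂ L).range :=
  minpoly.mem_range_of_degree_eq_one ℂ x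
    (IsAlgClosed.degree_eq_one_of_irreducible ℂ (minpoly.irreducible hx))

section

variable {L : Type} [Field L] {σ : Type} [Fintype σ]

/-- The monomials in the radicals. -/
def mono {n : σ → ℕ} (ρ : σ → L) (κ : ∀ i, Fin (n i)) : L := ∏ i, ρ i ^ (κ i : ℕ)

variable {K : Type} [Field K] [Algebra K L] [Algebra ℂ K] [Algebra ℂ L] [IsScalarTower ℂ K L]

lemma smul_root {g : L ≃ₐ[K] L} {n : ℕ} (hn : 0 < n) {ζ : L} (hζ : ζ ^ n = 1) : g ζ = ζ := by
  have h1 : IsIntegral ℂ ζ := IsIntegral.of_pow hn (by rw [hζ]; exact isIntegral_one)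
  obtain ⟨c, hc⟩ := mem_range_of_isIntegral h1
  rw [← hc, IsScalarTower.algebraMap_apply ℂ K L, g.commutes]

/-- The character defined by a radical. -/
def chr {m : L} (hm : m ≠ 0) {n : ℕ} (hn : 0 < n) {a : K} (ha : m ^ n = algebraMap K L a) :
    (L ≃ₐ[K] L) →* L where
  toFun g := g m / m
  map_one' := by rw [AlgEquiv.one_apply, div_self hm]
  map_mul' g h := by
    have h1 : (h m / m) ^ n = 1 := by
      rw [div_pow, ← map_pow, ha, h.commutes, ← ha, div_self (pow_ne_zero _ hm)]
    have h2 : g (h m / m) = h m / m := smul_root hn h1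
    have h3 : g (h m) = g m * (h m / m) := by
      conv_lhs => rw [show h m = (h m / m) * m by field_simp]
      rw [map_mul, h2, mul_comm]
    rw [AlgEquiv.mul_apply, h3]
    field_simp

lemma chr_apply {m : L} (hm : m ≠ 0) {n : ℕ} (hn : 0 < n) {a : K}
    (ha : m ^ n = algebraMap K L a) (g : L ≃ₐ[K] L) : chr hm hn ha g = g m / m := rfl

/-- **Independence of radicals.** -/
theorem indep [DecidableEq σ] [IsGalois K L] {n : σ → ℕ} (hn : ∀ i, 0 < n i) {ρ : σ → L} (hρ : ∀ i, ρ i ≠ 0)
    {u : σ → K} (hu : ∀ i, ρ i ^ n i = algebraMap K L (u i))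
    (hne : ∀ κ κ' : ∀ i, Fin (n i), (∃ c : K, mono ρ κ = algebraMap K L c * mono ρ κ') → κ = κ')
    {g : (∀ i, Fin (n i)) → K} (hg : ∑ κ, algebraMap K L (g κ) * mono ρ κ = 0) (κ) : g κ = 0 := by
  classical
  set M := ∏ i, n i with hM
  have hM0 : 0 < M := Finset.prod_pos fun i _ => hn i
  have hm0 : ∀ κ : ∀ i, Fin (n i), mono ρ κ ≠ 0 := fun κ =>
    Finset.prod_ne_zero_iff.mpr fun i _ => pow_ne_zero _ (hρ i)
  have hpow : ∀ κ : ∀ i, Fin (n i), mono ρ κ ^ M =
      algebraMap K L (∏ i, u i ^ ((M / n i) * (κ i : ℕ))) := by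
    intro κ
    rw [mono, ← Finset.prod_pow, map_prod]
    refine Finset.prod_congr rfl fun i _ => ?_
    have h1 : M = n i * (M / n i) :=
      (Nat.mul_div_cancel' (Finset.dvd_prod_of_mem _ (Finset.mem_univ i))).symm
    rw [map_pow, ← hu i, ← pow_mul, ← pow_mul]
    congr 1
    conv_lhs => rw [h1]
    ring
  set χ : (∀ i, Fin (n i)) → ((L ≃ₐ[K] L) →* L) := fun κ => chr (hm0 κ) hM0 (hpow κ) with hχ
  have hinj : Function.Injective χ := by
    intro κ κ' h
    apply hne
    have h1 : ∀ s : L ≃ₐ[K] L, s (mono ρ κ / mono ρ κ') = mono ρ κ / mono ρ κ' := by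
      intro s
      have h2 := DFunLike.congr_fun h s
      rw [hχ] at h2
      simp only [chr_apply] at h2
      rw [map_div₀, div_eq_div_iff (by simpa using hm0 κ') (hm0 κ')]
      rw [div_eq_div_iff (hm0 κ) (hm0 κ')] at h2
      linear_combination h2
    obtain ⟨c, hc⟩ := (InfiniteGalois.mem_range_algebraMap_iff_fixed (k := K) _).mpr h1
    refine ⟨c, ?_⟩
    rw [hc, div_mul_cancel₀ _ (hm0 κ')]
  have hli := (linearIndependent_monoidHom (L ≃ₐ[K] L) L).comp χ hinj
  rw [Fintype.linearIndependent_iff] at hli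
  have h1 := hli (fun κ => algebraMap K L (g κ) * mono ρ κ) (by
    funext s
    rw [Finset.sum_apply, Pi.zero_apply]
    have h2 := congrArg s hg
    rw [map_sum, map_zero] at h2
    rw [← h2]
    refine Finset.sum_congr rfl fun κ _ => ?_
    rw [map_mul, s.commutes, Pi.smul_apply, Function.comp_apply]
    change algebraMap K L (g κ) * mono ρ κ * (s (mono ρ κ) / mono ρ κ) = _
    field_simp [hm0 κ]) κ
  have h3 := (mul_eq_zero.mp h1).resolve_right (hm0 κ)
  exact (map_eq_zero _).mp h3

end

section UFD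

variable {R : Type} [CommRing R] [IsDomain R] [WfDvdMonoid R] {σ : Type} [Fintype σ]
  [DecidableEq σ]

/-- Radicals of elements with distinct simple prime factors. -/
theorem ratio_ne {L : Type} [Field L] [Algebra R L] [Algebra (FractionRing R) L]
    [IsScalarTower R (FractionRing R) L] {n : σ → ℕ}
    (hn : ∀ i, 0 < n i) {ρ : σ → L} {u : σ → R} (hu0 : ∀ i, u i ≠ 0)
    (hu : ∀ i, ρ i ^ n i = algebraMap R L (u i)) {p : σ → R} (hp : ∀ i, Prime (p i))
    (hmul : ∀ i j, emultiplicity (p i) (u j) = if j = i then 1 else 0)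
    (κ κ' : ∀ i, Fin (n i))
    (h : ∃ c : FractionRing R, mono ρ κ = algebraMap (FractionRing R) L c * mono ρ κ') :
    κ = κ' := by
  classical
  obtain ⟨c, hc⟩ := h
  set M := ∏ i, n i with hM
  have hM0 : 0 < M := Finset.prod_pos fun i _ => hn i
  have hMn : ∀ i, M = n i * (M / n i) := fun i =>
    (Nat.mul_div_cancel' (Finset.dvd_prod_of_mem _ (Finset.mem_univ i))).symm
  have hpow : ∀ κ : ∀ i, Fin (n i), mono ρ κ ^ M =
      algebraMap R L (∏ i, u i ^ ((M / n i) * (κ i : ℕ))) := by
    intro κ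
    rw [mono, ← Finset.prod_pow, map_prod]
    refine Finset.prod_congr rfl fun i _ => ?_
    rw [map_pow, ← hu i, ← pow_mul, ← pow_mul]
    congr 1
    conv_lhs => rw [hMn i]
    ring
  obtain ⟨g, h, hh, rfl⟩ := IsFractionRing.div_surjective (A := R) c
  have hh0 : h ≠ 0 := nonZeroDivisors.ne_zero hh
  have hRL : Function.Injective (algebraMap R L) := by
    rw [IsScalarTower.algebraMap_eq R (FractionRing R) L, RingHom.coe_comp]
    exact (algebraMap (FractionRing R) L).injective.comp (IsFractionRing.injective R _)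
  have hhL : algebraMap R L h ≠ 0 := fun h0 => hh0 (hRL (by rw [h0, map_zero]))
  have hc' : algebraMap (FractionRing R) L (algebraMap R _ g / algebraMap R _ h) =
      algebraMap R L g / algebraMap R L h := by
    rw [map_div₀, ← IsScalarTower.algebraMap_apply, ← IsScalarTower.algebraMap_apply]
  rw [hc'] at hc
  have h1 : h ^ M * ∏ i, u i ^ ((M / n i) * (κ i : ℕ)) =
      g ^ M * ∏ i, u i ^ ((M / n i) * (κ' i : ℕ)) := by
    apply hRL
    rw [map_mul, map_mul, ← hpow, ← hpow, hc, mul_pow, div_pow, map_pow, map_pow]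
    field_simp
  have hg0 : g ≠ 0 := by
    rintro rfl
    rw [zero_pow hM0.ne', zero_mul] at h1
    rcases mul_eq_zero.mp h1 with h2 | h2
    · exact pow_ne_zero _ hh0 h2
    · obtain ⟨i, -, h3⟩ := Finset.prod_eq_zero_iff.mp h2
      exact pow_ne_zero _ (hu0 i) h3
  funext i₀
  have h2 := congrArg (emultiplicity (p i₀)) h1
  have h3 : ∀ κ : ∀ i, Fin (n i), emultiplicity (p i₀) (∏ i, u i ^ ((M / n i) * (κ i : ℕ))) =
      (((M / n i₀) * (κ i₀ : ℕ) : ℕ) : ℕ∞) := by
    intro κ
    rw [Finset.emultiplicity_prod (hp i₀), Finset.sum_eq_single i₀]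
    · rw [emultiplicity_pow (hp i₀), hmul, if_pos rfl, mul_one]
    · intro i _ hi
      rw [emultiplicity_pow (hp i₀), hmul, if_neg hi, mul_zero]
    · intro h4
      exact absurd (Finset.mem_univ _) h4
  rw [emultiplicity_mul (hp i₀), emultiplicity_mul (hp i₀), h3, h3, emultiplicity_pow (hp i₀),
    emultiplicity_pow (hp i₀),
    (FiniteMultiplicity.of_prime_left (hp i₀) hh0).emultiplicity_eq_multiplicity,
    (FiniteMultiplicity.of_prime_left (hp i₀) hg0).emultiplicity_eq_multiplicity] at h2
  set a := multiplicity (p i₀) h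
  set b := multiplicity (p i₀) g
  have h4 : M * a + (M / n i₀) * (κ i₀ : ℕ) = M * b + (M / n i₀) * (κ' i₀ : ℕ) := by
    exact_mod_cast h2
  have hq : 0 < M / n i₀ := by
    rw [Nat.div_pos_iff]
    refine ⟨hn i₀, Nat.le_of_dvd hM0 (Finset.dvd_prod_of_mem _ (Finset.mem_univ i₀))⟩
  have h5 : (M / n i₀) * (n i₀ * a + (κ i₀ : ℕ)) = (M / n i₀) * (n i₀ * b + (κ' i₀ : ℕ)) := by
    have h6 := hMn i₀
    calc (M / n i₀) * (n i₀ * a + (κ i₀ : ℕ)) =
        (n i₀ * (M / n i₀)) * a + (M / n i₀) * (κ i₀ : ℕ) := by ring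
      _ = (n i₀ * (M / n i₀)) * b + (M / n i₀) * (κ' i₀ : ℕ) := by rw [← h6]; exact h4
      _ = _ := by ring
  have h6 := Nat.eq_of_mul_eq_mul_left hq h5
  apply Fin.ext
  have h7 := congrArg (fun x => x % n i₀) h6
  simp only [Nat.mul_add_mod] at h7
  rwa [Nat.mod_eq_of_lt (κ i₀).2, Nat.mod_eq_of_lt (κ' i₀).2] at h7

end UFD

end Pool.Agent.H92.GT.Kummer

end
end

section

/-!
# Relations between radicals specialise to all choices of the roots
-/

noncomputable section

namespace Pool.Agent.H92.GT.Kummer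

open MvPolynomial

variable {R : Type} [CommRing R] [IsDomain R] [WfDvdMonoid R] [Algebra ℂ R] {σ : Type} [Fintype σ]
  [DecidableEq σ] {L : Type} [Field L] [Algebra R L] [Algebra (FractionRing R) L]
  [IsScalarTower R (FractionRing R) L] [Algebra ℂ L] [IsScalarTower ℂ R L]
  [IsScalarTower ℂ (FractionRing R) L] [IsGalois (FractionRing R) L]

/-- The reduction of exponents. -/
def red {n : σ → ℕ} (hn : ∀ i, 0 < n i) (m : σ →₀ ℕ) : ∀ i, Fin (n i) := fun i =>
  ⟨m i % n i, Nat.mod_lt _ (hn i)⟩

/-- The coefficients after the reduction. -/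
def rcoeff {n : σ → ℕ} (hn : ∀ i, 0 < n i) (Q : MvPolynomial σ ℂ) {A : Type} [CommRing A]
    [Algebra ℂ A] (u : σ → A) (κ : ∀ i, Fin (n i)) : A :=
  ∑ m ∈ Q.support.filter (fun m => red hn m = κ), algebraMap ℂ A (Q.coeff m) *
    ∏ i, u i ^ (m i / n i)

omit [DecidableEq σ] in
lemma aeval_eq_sum [DecidableEq σ] {n : σ → ℕ} (hn : ∀ i, 0 < n i) (Q : MvPolynomial σ ℂ)
    {A : Type} [CommRing A] [Algebra ℂ A] {u ρ : σ → A} (hu : ∀ i, ρ i ^ n i = u i) :
    aeval ρ Q = ∑ κ : ∀ i, Fin (n i), rcoeff hn Q u κ * ∏ i, ρ i ^ (κ i : ℕ) := by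
  rw [aeval_def, eval₂_eq', ← Finset.sum_fiberwise Q.support (red hn)]
  refine Finset.sum_congr rfl fun κ _ => ?_
  rw [rcoeff, Finset.sum_mul]
  refine Finset.sum_congr rfl fun m hm => ?_
  have hκ : red hn m = κ := (Finset.mem_filter.mp hm).2
  rw [← hκ, mul_assoc, ← Finset.prod_mul_distrib]
  congr 1
  refine Finset.prod_congr rfl fun i _ => ?_
  rw [← hu i, ← pow_mul, ← pow_add]
  congr 1
  exact (Nat.div_add_mod (m i) (n i)).symm

omit [DecidableEq σ] in
lemma map_rcoeff {n : σ → ℕ} (hn : ∀ i, 0 < n i) (Q : MvPolynomial σ ℂ) {A B : Type}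
    [CommRing A] [Algebra ℂ A] [CommRing B] [Algebra ℂ B] (f : A →ₐ[ℂ] B) (u : σ → A)
    (κ : ∀ i, Fin (n i)) : f (rcoeff hn Q u κ) = rcoeff hn Q (fun i => f (u i)) κ := by
  unfold rcoeff
  rw [map_sum]
  refine Finset.sum_congr rfl fun m _ => ?_
  rw [map_mul, map_prod, AlgHom.commutes]
  congr 1
  exact Finset.prod_congr rfl fun i _ => map_pow _ _ _

/-- **A relation between radicals holds for all choices of the roots at all points.** -/
theorem eval_eq_zero {n : σ → ℕ} (hn : ∀ i, 0 < n i) {ρ : σ → L} {u : σ → R} (hu0 : ∀ i, u i ≠ 0)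
    (hu : ∀ i, ρ i ^ n i = algebraMap R L (u i)) {p : σ → R} (hp : ∀ i, Prime (p i))
    (hmul : ∀ i j, emultiplicity (p i) (u j) = if j = i then 1 else 0)
    {Q : MvPolynomial σ ℂ} (hQ : aeval ρ Q = 0) (ev : R →ₐ[ℂ] ℂ) {q : σ → ℂ}
    (hq : ∀ i, q i ^ n i = ev (u i)) : MvPolynomial.eval q Q = 0 := by
  have hRL : Function.Injective (algebraMap R L) := by
    rw [IsScalarTower.algebraMap_eq R (FractionRing R) L, RingHom.coe_comp]
    exact (algebraMap (FractionRing R) L).injective.comp (IsFractionRing.injective R _)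
  have hρ : ∀ i, ρ i ≠ 0 := by
    intro i h0
    have h1 := hu i
    rw [h0, zero_pow (hn i).ne'] at h1
    exact hu0 i (hRL (by rw [← h1, map_zero]))
  have h1 : ∀ κ : ∀ i, Fin (n i), rcoeff hn Q u κ = 0 := by
    intro κ
    have h2 := indep (K := FractionRing R) (L := L) hn hρ
      (u := fun i => algebraMap R (FractionRing R) (u i))
      (fun i => by rw [hu i, IsScalarTower.algebraMap_apply R (FractionRing R) L])
      (fun κ κ' h => ratio_ne hn hu0 hu hp hmul κ κ' h)
      (g := fun κ => algebraMap R (FractionRing R) (rcoeff hn Q u κ)) (by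
        rw [← hQ, aeval_eq_sum hn Q hu]
        refine Finset.sum_congr rfl fun κ _ => ?_
        rw [← IsScalarTower.algebraMap_apply R (FractionRing R) L]
        congr 1
        exact map_rcoeff hn Q (IsScalarTower.toAlgHom ℂ R L) u κ) κ
    exact IsFractionRing.injective R (FractionRing R) (by rw [map_zero]; exact h2)
  have h3 : MvPolynomial.eval q Q = aeval q Q := by
    rw [aeval_def]
    rfl
  rw [h3, aeval_eq_sum hn Q hq]
  refine Finset.sum_eq_zero fun κ _ => ?_
  rw [← map_rcoeff hn Q ev u κ, h1, map_zero, zero_mul]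

end Pool.Agent.H92.GT.Kummer

end
end

section

/-!
# Derivations applied to the coefficients of polynomials
-/

open Polynomial
open Pool.Agent.H17GT (overC overC_apply)

noncomputable section

namespace Pool.Agent.H92.GT

variable {K : Type} [Field K] [Algebra ℂ K]

/-- Elements killed by all derivations are constant. -/
lemma exists_const_of_D_eq_zero {f : K} (hf : KaehlerDifferential.D ℂ K f = 0) :
    ∃ c : ℂ, algebraMap ℂ K c = f := by
  by_cases halg : IsAlgebraic ℂ f
  · have hint : IsIntegral ℂ f := halg.isIntegral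
    have h : (minpoly ℂ f).degree = 1 :=
      IsAlgClosed.degree_eq_one_of_irreducible ℂ (minpoly.irreducible hint)
    exact minpoly.mem_range_of_degree_eq_one ℂ f h
  · exfalso
    have hind : AlgebraicIndependent ℂ (fun _ : Unit => f) := by
      rw [algebraicIndependent_unique_type_iff]
      exact halg
    obtain ⟨D', h1, h2⟩ := Pool.Agent.H17GT.exists_ext_values hind (0 : Derivation ℤ ℂ ℂ)
      fun _ => (1 : K)
    have h3 : ∀ c : ℂ, D' (algebraMap ℂ K c) = 0 := by
      intro c
      rw [h1 c]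
      simp
    have h4 := h2 ()
    have h5 : overC D' h3 f = (overC D' h3).liftKaehlerDifferential
        (KaehlerDifferential.D ℂ K f) := by
      rw [Derivation.liftKaehlerDifferential_comp_D]
    rw [hf, map_zero, overC_apply, h4] at h5
    exact one_ne_zero h5

end Pool.Agent.H92.GT

end
end

section

/-!
# The diagonal complete intersections are irreducible
-/

open MvPolynomial

noncomputable section

namespace Pool.Agent.H92.GT.Proj

variable {N : ℕ}

section Ideal

variable {L : Type} [Field L] [Algebra ℂ L]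

/-- The homogeneous coordinate ring of a point. -/
def phi (ρ : Fin (N + 1) → L) : MvPolynomial (Fin (N + 1)) ℂ →ₐ[ℂ] Polynomial L :=
  aeval fun i => Polynomial.C (ρ i) * Polynomial.X

lemma phi_coeff (ρ : Fin (N + 1) → L) (Q : MvPolynomial (Fin (N + 1)) ℂ) (n : ℕ) :
    (phi ρ Q).coeff n = aeval ρ (homogeneousComponent n Q) := by
  classical
  rw [homogeneousComponent_apply, map_sum, phi, aeval_def, eval₂_eq,
    Polynomial.finsetSum_coeff, Finset.sum_filter]
  refine Finset.sum_congr rfl fun m _ => ?_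
  have h1 : ∏ i ∈ m.support, (Polynomial.C (ρ i) * Polynomial.X) ^ m i =
      Polynomial.C (∏ i ∈ m.support, ρ i ^ m i) * Polynomial.X ^ m.degree := by
    rw [Finset.prod_congr rfl fun i _ => mul_pow (Polynomial.C (ρ i)) Polynomial.X (m i),
      Finset.prod_mul_distrib, map_prod]
    congr 1
    · exact Finset.prod_congr rfl fun i _ => (Polynomial.C_pow).symm
    · rw [Finset.prod_pow_eq_pow_sum]
      rfl
  rw [h1]
  have h2 : algebraMap ℂ (Polynomial L) (Q.coeff m) =
      Polynomial.C (algebraMap ℂ L (Q.coeff m)) := rfl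
  rw [h2, ← mul_assoc, ← Polynomial.C_mul, Polynomial.coeff_C_mul_X_pow]
  split_ifs with h3 h4 h5
  · rw [aeval_monomial]
    rfl
  · exact absurd h3.symm h4
  · exact absurd h5.symm h3
  · rfl

/-- The ideal of a point. -/
def genIdeal (ρ : Fin (N + 1) → L) : Ideal (MvPolynomial (Fin (N + 1)) ℂ) := RingHom.ker (phi ρ)

instance (ρ : Fin (N + 1) → L) : (genIdeal ρ).IsPrime := RingHom.ker_isPrime _

lemma mem_genIdeal (ρ : Fin (N + 1) → L) (Q : MvPolynomial (Fin (N + 1)) ℂ) :
    Q ∈ genIdeal ρ ↔ ∀ n, aeval ρ (homogeneousComponent n Q) = 0 := by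
  rw [genIdeal, RingHom.mem_ker, Polynomial.ext_iff]
  refine forall_congr' fun n => ?_
  rw [← phi_coeff]
  rfl

lemma mem_genIdeal_of_homogeneous {ρ : Fin (N + 1) → L} {Q : MvPolynomial (Fin (N + 1)) ℂ} {n : ℕ}
    (hQ : Q.IsHomogeneous n) : Q ∈ genIdeal ρ ↔ aeval ρ Q = 0 := by
  classical
  rw [mem_genIdeal]
  constructor
  · intro h
    have h1 := h n
    rwa [homogeneousComponent_of_mem (n := n) (m := n) hQ, if_pos rfl] at h1
  · intro h m
    rw [homogeneousComponent_of_mem (n := n) (m := m) hQ]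
    split_ifs
    · exact h
    · exact map_zero _

lemma genIdeal_homogeneous (ρ : Fin (N + 1) → L) :
    ∀ Q ∈ genIdeal ρ, ∀ n, homogeneousComponent n Q ∈ genIdeal ρ := by
  intro Q hQ n
  rw [mem_genIdeal_of_homogeneous (homogeneousComponent_isHomogeneous n Q)]
  exact (mem_genIdeal ρ Q).mp hQ n

end Ideal

end Pool.Agent.H92.GT.Proj

end
end
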