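import Pool.Agent.H94.DG.M02

/-! The parts of this file: H17LG.Defs, H23.LogDer, H23.Omega, H23.Forms, H17LG.ModLREG, H39.SY.Defs, H5.DG3.Spec, H92.GGL.CoverRigid, H92.GGL.Master, H92.GT.Wrap. -/

section

/-!
# Varieties of log general type, in terms of their function field
-/

open MvPolynomial
open Pool.Agent.H23 (RatForm regularForms PrimeDivisorOver)
open Pool.Agent.H17GT (RegularAlong coordFun functionField)

noncomputable section

namespace Pool.Agent.H17LG

section FunctionField

variable {K : Type} [Field K] [Algebra ℂ K] {k : ℕ}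

/-- The rational `m`-canonical form `f ω^m` has at most logarithmic poles along the prime divisor
`E`: one has `ω = g η` with `η` regular along `E` and `f g ^ m` has a pole of order at most `m`
along `E`. -/
def LogRegularAlong (E : PrimeDivisorOver K k) (m : ℕ) (f : K) (ω : RatForm K k) : Prop :=
  ∃ (g : K) (η : RatForm K k), η ∈ regularForms k E.localRing ∧ ω = g • η ∧
    0 ≤ E.ord (f * g ^ m) + m

/-- Let `U` be a variety of dimension `k` with function field `K`, and let `B` be the set of the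
prime divisors over `K` whose centre lies in the boundary of a compactification of `U`. The variety
`U` is of log general type: for some `m ≥ 1` there are `m`-canonical forms `f₀ ω^m, …, f_r ω^m`,
regular along all prime divisors outside `B`, with at most logarithmic poles along the prime
divisors in `B`, which define a generically finite rational map. -/
def IsLogGeneralType (B : PrimeDivisorOver K k → Prop) : Prop :=
  ∃ m : ℕ, 1 ≤ m ∧ ∃ ω : RatForm K k, ω ≠ 0 ∧ ∃ (r : ℕ) (f : Fin (r + 1) → K), f 0 ≠ 0 ∧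
    (∀ i, ∀ E : PrimeDivisorOver K k, (¬ B E → RegularAlong E m (f i) ω) ∧
      (B E → LogRegularAlong E m (f i) ω)) ∧
    Algebra.IsAlgebraic (IntermediateField.adjoin ℂ (Set.range fun i => f i / f 0)) K

end FunctionField

end Pool.Agent.H17LG

end
end

section

open Polynomial

set_option linter.style.haveILetI false

noncomputable section

namespace Pool.Agent.H23

variable {K : Type*} [Field K] [Algebra ℂ K] (v : AddValuation K (WithTop ℤ))

/-! ### elementary facts on discrete valuations -/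

omit [Algebra ℂ K] in
lemma exists_int {f : K} (h : f ≠ 0) : ∃ k : ℤ, v f = k := by
  have := (v.ne_top_iff).2 h
  exact ⟨(v f).untop this, by simp⟩

lemma one_le_of_pos {a : WithTop ℤ} (h : 0 < a) : 1 ≤ a := by
  induction a using WithTop.recTopCoe with
  | top => exact le_top
  | coe a =>
    have : (0 : ℤ) < a := by exact_mod_cast h
    exact_mod_cast this

section poly

variable {σ : Type*} (s : σ → K) (t : K)

/-- evaluation `ℂ[s][t] → K` -/
def ev : (MvPolynomial σ ℂ)[X] →+* K :=
  Polynomial.eval₂RingHom (MvPolynomial.aeval s).toRingHom t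

lemma ev_C (p : MvPolynomial σ ℂ) : ev s t (C p) = MvPolynomial.aeval s p := by
  simp [ev]

lemma ev_X : ev s t X = t := by simp [ev]

lemma ev_decomp (q : (MvPolynomial σ ℂ)[X]) :
    ev s t q = ev s t q.divX * t + MvPolynomial.aeval s (q.coeff 0) := by
  conv_lhs => rw [← Polynomial.divX_mul_X_add q]
  rw [map_add, map_mul, ev_X, ev_C]

variable {s t} (hs : ∀ p : MvPolynomial σ ℂ, p ≠ 0 → v (MvPolynomial.aeval s p) = 0)
  (ht : v t = 1)

include hs in
lemma val_aeval_nonneg (p : MvPolynomial σ ℂ) : 0 ≤ v (MvPolynomial.aeval s p) := by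
  by_cases h : p = 0
  · simp [h]
  · rw [hs p h]

include hs ht in
lemma val_ev_nonneg (q : (MvPolynomial σ ℂ)[X]) : 0 ≤ v (ev s t q) := by
  induction q using Polynomial.induction_on' with
  | add p q hp hq =>
    rw [map_add]
    exact v.map_le_add hp hq
  | monomial n a =>
    rw [← Polynomial.C_mul_X_pow_eq_monomial, map_mul, map_pow, ev_X, ev_C, v.map_mul, v.map_pow, ht]
    have := val_aeval_nonneg v hs a
    exact add_nonneg this (by simp)

include hs ht in
lemma val_ev_sub (q : (MvPolynomial σ ℂ)[X]) :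
    1 ≤ v (ev s t q - MvPolynomial.aeval s (q.coeff 0)) := by
  rw [ev_decomp, add_sub_cancel_right, v.map_mul, ht]
  exact le_add_of_nonneg_left (val_ev_nonneg v hs ht _)

include hs ht in
lemma val_ev_eq_zero {q : (MvPolynomial σ ℂ)[X]} (hq : q.coeff 0 ≠ 0) : v (ev s t q) = 0 := by
  have h1 := val_ev_sub v hs ht q
  have h2 : ev s t q = MvPolynomial.aeval s (q.coeff 0) +
    (ev s t q - MvPolynomial.aeval s (q.coeff 0)) := by ring
  rw [h2, v.map_add_eq_of_lt_left, hs _ hq]
  rw [hs _ hq]
  exact lt_of_lt_of_le (by norm_num) h1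

include hs ht in
lemma ev_injective : Function.Injective (ev s t) := by
  rw [injective_iff_map_eq_zero]
  intro q hq
  by_contra hne
  obtain ⟨n, q', h1, h2⟩ := WfDvdMonoid.max_power_factor hne (Polynomial.prime_X (R := MvPolynomial σ ℂ)).irreducible
  have h3 : q'.coeff 0 ≠ 0 := fun h => h1 (Polynomial.X_dvd_iff.2 h)
  have h4 := val_ev_eq_zero v hs ht h3
  have ht0 : t ≠ 0 := by
    rintro rfl
    simp at ht
  rw [h2, map_mul, map_pow, ev_X] at hq
  rcases mul_eq_zero.1 hq with h | h
  · exact pow_ne_zero n ht0 h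
  · rw [h] at h4; simp at h4

end poly

/-! ### algebraic elements -/

section alg

variable {σ : Type*} {s : σ → K} {t : K}
  (hs : ∀ p : MvPolynomial σ ℂ, p ≠ 0 → v (MvPolynomial.aeval s p) = 0)
  (ht : v t = 1)

/-- an element which is algebraic over `ℂ[s,t]` satisfies an equation one of whose coefficients
is a unit at `v` -/
lemma exists_primitive {f : K} {F : (MvPolynomial σ ℂ)[X][X]} (hF : F ≠ 0)
    (hFf : F.eval₂ (ev s t) f = 0) (ht0 : t ≠ 0) :
    ∃ G : (MvPolynomial σ ℂ)[X][X], G.eval₂ (ev s t) f = 0 ∧ ∃ i, (G.coeff i).coeff 0 ≠ 0 := by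
  obtain ⟨n, G, h1, h2⟩ := WfDvdMonoid.max_power_factor hF
    (Polynomial.prime_C_iff.2 (Polynomial.prime_X (R := MvPolynomial σ ℂ))).irreducible
  refine ⟨G, ?_, ?_⟩
  · rw [h2, eval₂_mul, eval₂_pow, eval₂_C, ev_X] at hFf
    rcases mul_eq_zero.1 hFf with h | h
    · exact absurd h (pow_ne_zero n ht0)
    · exact h
  · by_contra hcon
    push Not at hcon
    apply h1
    rw [Polynomial.C_dvd_iff_dvd_coeff]
    intro i
    exact Polynomial.X_dvd_iff.2 (hcon i)

include hs ht in
/-- reduction of the equation modulo `t` -/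
lemma exists_red {f : K} (hf : 0 ≤ v f) {F : (MvPolynomial σ ℂ)[X][X]} (hF : F ≠ 0)
    (hFf : F.eval₂ (ev s t) f = 0) :
    ∃ G : (MvPolynomial σ ℂ)[X], G ≠ 0 ∧ 1 ≤ v (G.eval₂ (MvPolynomial.aeval s).toRingHom f) := by
  have ht0 : t ≠ 0 := by
    rintro rfl
    simp at ht
  obtain ⟨G, hG1, i, hG2⟩ := exists_primitive hF hFf ht0
  refine ⟨G.map (Polynomial.constantCoeff), ?_, ?_⟩
  · intro h
    apply hG2
    have := congrArg (fun q => q.coeff i) h
    simpa using this
  · have h3 : (G.map (Polynomial.constantCoeff)).eval₂ (MvPolynomial.aeval s).toRingHom f =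
        - ∑ e ∈ G.support, (ev s t (G.coeff e) - MvPolynomial.aeval s ((G.coeff e).coeff 0)) * f ^ e := by
      have h4 : G.eval₂ (ev s t) f = ∑ e ∈ G.support, (ev s t (G.coeff e)) * f ^ e := by
        rw [eval₂_eq_sum, Polynomial.sum_def]
      rw [Polynomial.eval₂_map, eval₂_eq_sum, Polynomial.sum_def]
      simp only [sub_mul, Finset.sum_sub_distrib]
      rw [← h4, hG1]
      simp
    rw [h3, v.map_neg]
    apply v.map_le_sum
    intro e _
    rw [v.map_mul, v.map_pow]
    exact le_trans (val_ev_sub v hs ht _) (le_add_of_nonneg_right (nsmul_nonneg hf _))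

lemma eval2_nonneg (hs : ∀ p : MvPolynomial σ ℂ, 0 ≤ v (MvPolynomial.aeval s p))
    {f : K} (hf : 0 ≤ v f) (G : (MvPolynomial σ ℂ)[X]) :
    0 ≤ v (G.eval₂ (MvPolynomial.aeval s).toRingHom f) := by
  rw [eval₂_eq_sum, Polynomial.sum_def]
  apply v.map_le_sum
  intro e _
  rw [v.map_mul, v.map_pow]
  exact add_nonneg (hs _) (nsmul_nonneg hf _)

include hs ht in
/-- a separable equation modulo `t` -/
lemma exists_sep {f : K} (hf : 0 ≤ v f) {F : (MvPolynomial σ ℂ)[X][X]} (hF : F ≠ 0)
    (hFf : F.eval₂ (ev s t) f = 0) :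
    ∃ G : (MvPolynomial σ ℂ)[X], 1 ≤ v (G.eval₂ (MvPolynomial.aeval s).toRingHom f) ∧
      v (G.derivative.eval₂ (MvPolynomial.aeval s).toRingHom f) = 0 := by
  classical
  have hex := exists_red v hs ht hf hF hFf
  have hex' : ∃ d : ℕ, ∃ G : (MvPolynomial σ ℂ)[X], G.natDegree = d ∧ G ≠ 0 ∧
      1 ≤ v (G.eval₂ (MvPolynomial.aeval s).toRingHom f) := by
    obtain ⟨G, h⟩ := hex
    exact ⟨_, G, rfl, h⟩
  obtain ⟨G, h1, h2, h3⟩ := Nat.find_spec hex'
  refine ⟨G, h3, ?_⟩
  have hdeg : G.natDegree ≠ 0 := by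
    intro h0
    rw [Polynomial.eq_C_of_natDegree_eq_zero h0] at h3 h2
    rw [eval₂_C] at h3
    have h4 : G.coeff 0 ≠ 0 := by
      intro h; apply h2; rw [h]; simp
    have h5 := hs _ h4
    change 1 ≤ v (MvPolynomial.aeval s (G.coeff 0)) at h3
    rw [h5] at h3
    exact absurd h3 (by norm_num)
  have hder : G.derivative ≠ 0 := by
    intro h
    exact hdeg (Polynomial.derivative_eq_zero.1 h)
  have hlt : G.derivative.natDegree < G.natDegree := Polynomial.natDegree_derivative_lt hdeg
  have hmin := Nat.find_min hex' (m := G.derivative.natDegree) (by rw [← h1]; exact hlt)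
  have h6 : ¬ (1 ≤ v (G.derivative.eval₂ (MvPolynomial.aeval s).toRingHom f)) := fun h =>
    hmin ⟨_, rfl, hder, h⟩
  have h7 := eval2_nonneg v (val_aeval_nonneg v hs) hf G.derivative
  rcases h7.lt_or_eq with h | h
  · exact absurd (one_le_of_pos h) h6
  · exact h.symm

end alg

/-! ### elements of the valuation ring are fractions of integral elements -/

section horner

variable {R : Type*} [CommRing R] [Algebra R K]

omit [Algebra ℂ K] in
lemma horner_aux (hB : ∀ b ∈ integralClosure R K, 0 ≤ v b) {f : K} (hf : 0 ≤ v f) :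
    ∀ (d : ℕ) (G : (integralClosure R K)[X]), G.natDegree ≤ d → aeval f G = 0 →
      (∃ i, v (G.coeff i : K) = 0) →
      ∃ b ∈ integralClosure R K, ∃ c ∈ integralClosure R K, v c = 0 ∧ f * c = b := by
  intro d
  induction d with
  | zero =>
    intro G hd h0 hi
    obtain ⟨i, hi⟩ := hi
    rw [Polynomial.eq_C_of_natDegree_eq_zero (Nat.le_zero.1 hd)] at h0 hi
    rw [aeval_C] at h0
    rcases Nat.eq_zero_or_pos i with rfl | hpos
    · rw [Polynomial.coeff_C_zero] at hi
      change ((G.coeff 0 : K)) = 0 at h0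
      rw [h0] at hi
      simp at hi
    · rw [Polynomial.coeff_C_of_ne_zero (by omega)] at hi
      simp at hi
  | succ d ih =>
    intro G hd' h0 hi
    rcases hd'.lt_or_eq with hd' | hd
    · exact ih G (by omega) h0 hi
    have hint : IsIntegral R (f * (G.leadingCoeff : K)) := by
      have h1 := isIntegral_leadingCoeff_smul G f h0
      have h2 := isIntegral_trans (R := R) _ h1
      rwa [Algebra.smul_def, mul_comm] at h2
    by_cases hlc : v (G.leadingCoeff : K) = 0
    · exact ⟨_, hint, G.leadingCoeff, G.leadingCoeff.2, hlc, rfl⟩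
    · have hlc' : 0 < v (G.leadingCoeff : K) :=
        lt_of_le_of_ne (hB _ G.leadingCoeff.2) (Ne.symm hlc)
      set a : integralClosure R K := ⟨f * (G.leadingCoeff : K), hint⟩ with ha
      set G' : (integralClosure R K)[X] := G.eraseLead + C a * X ^ d with hG'
      have hdeg : G'.natDegree ≤ d := by
        rw [hG']
        refine (Polynomial.natDegree_add_le _ _).trans (max_le ?_ ?_)
        · exact (eraseLead_natDegree_le G).trans (by omega)
        · exact natDegree_C_mul_X_pow_le _ _
      have h0' : aeval f G' = 0 := by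
        have h1 : G = G.eraseLead + C G.leadingCoeff * X ^ (d + 1) := by
          rw [← hd, Polynomial.eraseLead_add_C_mul_X_pow]
        have h2 := h0
        rw [h1, map_add, map_mul, aeval_C, map_pow, aeval_X] at h2
        rw [hG', map_add, map_mul, aeval_C, map_pow, aeval_X]
        rw [← h2]
        congr 1
        change (f * (G.leadingCoeff : K)) * f ^ d = (G.leadingCoeff : K) * f ^ (d + 1)
        ring
      have hi' : ∃ i, v (G'.coeff i : K) = 0 := by
        obtain ⟨i, hi⟩ := hi
        refine ⟨i, ?_⟩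
        have hne : i ≠ G.natDegree := by
          rintro rfl
          exact hlc hi
        rw [hG', coeff_add, eraseLead_coeff_of_ne i hne, coeff_C_mul, coeff_X_pow]
        by_cases hid : i = d
        · subst hid
          simp only [if_true, mul_one]
          push_cast
          rw [ha, v.map_add_eq_of_lt_left]
          · exact hi
          · rw [hi, v.map_mul]
            exact lt_of_lt_of_le hlc' (le_add_of_nonneg_left hf)
        · simpa [hid] using hi
      exact ih G' hdeg h0' hi'

omit [Algebra ℂ K] in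
lemma val_nonneg_of_isIntegral (hR : ∀ r : R, 0 ≤ v (algebraMap R K r)) {b : K}
    (hb : IsIntegral R b) : 0 ≤ v b := by
  obtain ⟨p, hp, hpb⟩ := hb
  by_contra hcon
  push Not at hcon
  have hb0 : b ≠ 0 := by
    rintro rfl
    simp at hcon
  obtain ⟨k, hk⟩ := exists_int v hb0
  rw [hk] at hcon
  have hk0 : k < 0 := by exact_mod_cast hcon
  rw [Polynomial.eval₂_eq_sum_range, Finset.sum_range_succ, hp.coeff_natDegree, map_one, one_mul,
    add_comm, add_eq_zero_iff_eq_neg] at hpb
  have hsm : ∀ i : ℕ, i • (k : WithTop ℤ) = ((i * k : ℤ) : WithTop ℤ) := by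
    intro i
    rw [← WithTop.coe_nsmul, nsmul_eq_mul]
  have h1 : v (b ^ p.natDegree) = ((p.natDegree * k : ℤ) : WithTop ℤ) := by
    rw [v.map_pow, hk, hsm]
  have h2 : (((p.natDegree - 1) * k : ℤ) : WithTop ℤ) ≤ v (b ^ p.natDegree) := by
    rw [hpb, v.map_neg]
    apply v.map_le_sum
    intro i hi
    rw [v.map_mul, v.map_pow, hk]
    have h3 : (((p.natDegree - 1) * k : ℤ) : WithTop ℤ) ≤ i • (k : WithTop ℤ) := by
      rw [hsm]
      have h5 : (i : ℤ) ≤ p.natDegree - 1 := by
        have := Finset.mem_range.1 hi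
        omega
      exact WithTop.coe_le_coe.2 (by nlinarith)
    exact le_trans h3 (le_add_of_nonneg_left (hR _))
  rw [h1] at h2
  have h6 : ((p.natDegree - 1) * k : ℤ) ≤ p.natDegree * k := WithTop.coe_le_coe.1 h2
  nlinarith

end horner

/-! ### the main result -/

section main

variable {σ : Type*} {s : σ → K} {t : K}

lemma der_ev_nonneg
    (hs : ∀ p : MvPolynomial σ ℂ, p ≠ 0 → v (MvPolynomial.aeval s p) = 0)
    (ht : v t = 1)
    (D : Derivation ℂ K K) (hDt : 0 ≤ v (D t)) (hDs : ∀ i, 0 ≤ v (D (s i)))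
    (q : (MvPolynomial σ ℂ)[X]) : 0 ≤ v (D (ev s t q)) := by
  have h0 : ∀ p : MvPolynomial σ ℂ, 0 ≤ v (D (MvPolynomial.aeval s p)) := by
    intro p
    induction p using MvPolynomial.induction_on with
    | C a =>
      rw [MvPolynomial.aeval_C, D.map_algebraMap]
      simp
    | add p q hp hq =>
      rw [map_add, map_add]
      exact v.map_le_add hp hq
    | mul_X p i hp =>
      rw [map_mul, MvPolynomial.aeval_X, D.leibniz, smul_eq_mul, smul_eq_mul]
      apply v.map_le_add
      · rw [v.map_mul]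
        exact add_nonneg (val_aeval_nonneg v hs _) (hDs i)
      · rw [v.map_mul]
        have : 0 ≤ v (s i) := by
          have := val_aeval_nonneg v hs (MvPolynomial.X i)
          rwa [MvPolynomial.aeval_X] at this
        exact add_nonneg this hp
  induction q using Polynomial.induction_on' with
  | add p q hp hq =>
    rw [map_add, map_add]
    exact v.map_le_add hp hq
  | monomial n a =>
    have hDtn : 0 ≤ v (D (t ^ n)) := by
      rw [D.leibniz_pow, nsmul_eq_mul, smul_eq_mul, v.map_mul, v.map_mul, v.map_pow, ht]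
      have h1 : 0 ≤ v ((n : K)) := by
        have := val_aeval_nonneg v hs (n : MvPolynomial σ ℂ)
        simpa using this
      exact add_nonneg h1 (add_nonneg (by simp) hDt)
    rw [← Polynomial.C_mul_X_pow_eq_monomial, map_mul, map_pow, ev_X, ev_C, D.leibniz,
      smul_eq_mul, smul_eq_mul]
    apply v.map_le_add
    · rw [v.map_mul]
      exact add_nonneg (val_aeval_nonneg v hs _) hDtn
    · rw [v.map_mul, v.map_pow, ht]
      exact add_nonneg (by simp) (h0 _)

/-- The loss of a derivation on the valuation ring is bounded. -/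
lemma exists_bound [Algebra.EssFiniteType ℂ K]
    (hs : ∀ p : MvPolynomial σ ℂ, p ≠ 0 → v (MvPolynomial.aeval s p) = 0)
    (ht : v t = 1)
    [Finite σ]
    (halg : ∀ f : K, ∃ F : (MvPolynomial σ ℂ)[X][X], F ≠ 0 ∧ F.eval₂ (ev s t) f = 0)
    (D : Derivation ℂ K K) (hDt : 0 ≤ v (D t)) (hDs : ∀ i, 0 ≤ v (D (s i))) :
    ∃ ℓ : ℕ, ∀ f, 0 ≤ v f → ((-(ℓ : ℤ) : ℤ) : WithTop ℤ) ≤ v (D f) := by
  classical
  letI alg1 : Algebra (MvPolynomial σ ℂ)[X] K := (ev s t).toAlgebra
  have hmap : ∀ r, algebraMap (MvPolynomial σ ℂ)[X] K r = ev s t r := fun _ => rfl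
  haveI : FaithfulSMul (MvPolynomial σ ℂ)[X] K := by
    rw [faithfulSMul_iff_algebraMap_injective]
    exact ev_injective v hs ht
  haveI : IsScalarTower ℂ (MvPolynomial σ ℂ)[X] K := by
    apply IsScalarTower.of_algebraMap_eq
    intro c
    rw [hmap, Polynomial.algebraMap_apply, ev_C, MvPolynomial.algebraMap_eq, MvPolynomial.aeval_C]
  letI alg2 : Algebra (FractionRing (MvPolynomial σ ℂ)[X]) K := FractionRing.liftAlgebra _ K
  haveI : IsScalarTower (MvPolynomial σ ℂ)[X] (FractionRing (MvPolynomial σ ℂ)[X]) K :=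
    inferInstance
  haveI : IsScalarTower ℂ (FractionRing (MvPolynomial σ ℂ)[X]) K := by
    apply IsScalarTower.of_algebraMap_eq
    intro c
    rw [IsScalarTower.algebraMap_apply ℂ (MvPolynomial σ ℂ)[X] K,
      IsScalarTower.algebraMap_apply ℂ (MvPolynomial σ ℂ)[X] (FractionRing (MvPolynomial σ ℂ)[X]),
      ← IsScalarTower.algebraMap_apply (MvPolynomial σ ℂ)[X]
        (FractionRing (MvPolynomial σ ℂ)[X]) K]
  haveI : Algebra.EssFiniteType (FractionRing (MvPolynomial σ ℂ)[X]) K :=
    Algebra.EssFiniteType.of_comp ℂ _ K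
  haveI : Algebra.IsAlgebraic (MvPolynomial σ ℂ)[X] K := ⟨fun f => by
    obtain ⟨F, h1, h2⟩ := halg f
    exact ⟨F, h1, h2⟩⟩
  haveI : Algebra.IsAlgebraic (FractionRing (MvPolynomial σ ℂ)[X]) K :=
    (IsFractionRing.comap_isAlgebraic_iff (A := (MvPolynomial σ ℂ)[X])).1 this
  haveI : Module.Finite (FractionRing (MvPolynomial σ ℂ)[X]) K :=
    Algebra.finite_of_essFiniteType_of_isAlgebraic
  haveI : CharZero (FractionRing (MvPolynomial σ ℂ)[X]) :=
    algebraRat.charZero _
  haveI : Algebra.IsSeparable (FractionRing (MvPolynomial σ ℂ)[X]) K := inferInstance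
  haveI : Module.Finite (MvPolynomial σ ℂ)[X] (integralClosure (MvPolynomial σ ℂ)[X] K) :=
    IsIntegralClosure.finite (A := (MvPolynomial σ ℂ)[X])
      (K := (FractionRing (MvPolynomial σ ℂ)[X])) (L := K)
      (C := (integralClosure (MvPolynomial σ ℂ)[X] K))
  obtain ⟨S, hS⟩ := Module.Finite.fg_top (R := (MvPolynomial σ ℂ)[X])
    (M := (integralClosure (MvPolynomial σ ℂ)[X] K))
  have hint : ∀ b ∈ integralClosure (MvPolynomial σ ℂ)[X] K, 0 ≤ v b := fun b hb =>
    val_nonneg_of_isIntegral v (fun r => val_ev_nonneg v hs ht r) hb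
  -- a bound on generators
  have hbd : ∀ x : K, ∃ ℓ : ℕ, ((-(ℓ : ℤ) : ℤ) : WithTop ℤ) ≤ v x := by
    intro x
    by_cases hx : x = 0
    · exact ⟨0, by simp [hx]⟩
    · obtain ⟨k, hk⟩ := exists_int v hx
      refine ⟨k.natAbs, ?_⟩
      rw [hk]
      exact WithTop.coe_le_coe.2 (by omega)
  choose! bd hbd using hbd
  set ℓ : ℕ := S.sup (fun x => bd (D (x : K))) with hℓ
  have hℓS : ∀ x ∈ S, ((-(ℓ : ℤ) : ℤ) : WithTop ℤ) ≤ v (D (x : K)) := by
    intro x hx
    refine le_trans ?_ (hbd _)
    have : bd (D (x : K)) ≤ ℓ := Finset.le_sup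
      (f := fun x : integralClosure (MvPolynomial σ ℂ)[X] K => bd (D (x : K))) hx
    exact WithTop.coe_le_coe.2 (by omega)
  have hℓ0 : ((-(ℓ : ℤ) : ℤ) : WithTop ℤ) ≤ 0 := by
    exact_mod_cast (show (-(ℓ : ℤ) : ℤ) ≤ 0 by omega)
  have hB : ∀ b : integralClosure (MvPolynomial σ ℂ)[X] K,
      ((-(ℓ : ℤ) : ℤ) : WithTop ℤ) ≤ v (D (b : K)) := by
    intro b
    have hb : b ∈ Submodule.span (MvPolynomial σ ℂ)[X] (S : Set (integralClosure (MvPolynomial σ ℂ)[X] K)) := by
      rw [hS]; trivial
    induction hb using Submodule.span_induction with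
    | mem x hx => exact hℓS x hx
    | zero => simp
    | add x y _ _ hx hy =>
      push_cast
      rw [map_add]
      exact v.map_le_add hx hy
    | smul r x _ hx =>
      have h1 : ((r • x : integralClosure (MvPolynomial σ ℂ)[X] K) : K) = ev s t r * (x : K) := by
        rw [Subalgebra.coe_smul, Algebra.smul_def]; rfl
      rw [h1, D.leibniz, smul_eq_mul, smul_eq_mul]
      apply v.map_le_add
      · rw [v.map_mul]
        exact le_trans hx (le_add_of_nonneg_left (val_ev_nonneg v hs ht r))
      · rw [v.map_mul]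
        exact le_trans hℓ0 (add_nonneg (hint _ x.2) (der_ev_nonneg v hs ht D hDt hDs r))
  refine ⟨ℓ, fun f hf => ?_⟩
  have ht0 : t ≠ 0 := by
    rintro rfl
    simp at ht
  obtain ⟨F, hF, hFf⟩ := halg f
  obtain ⟨G, hG1, i, hG2⟩ := exists_primitive hF hFf ht0
  obtain ⟨b, hb, c, hc, hvc, hfc⟩ := horner_aux (R := (MvPolynomial σ ℂ)[X]) v hint hf _
    (G.map (algebraMap (MvPolynomial σ ℂ)[X] (integralClosure (MvPolynomial σ ℂ)[X] K))) le_rfl
    (by
      rw [aeval_map_algebraMap]
      exact hG1)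
    ⟨i, by
      rw [coeff_map]
      exact val_ev_eq_zero v hs ht hG2⟩
  have hc0 : c ≠ 0 := by
    rintro rfl
    simp at hvc
  have h1 : D b = f * D c + c * D f := by
    rw [← hfc, D.leibniz, smul_eq_mul, smul_eq_mul]
  have h2 : c * D f = D b - f * D c := by rw [h1]; ring
  have h3 : v (D f) = v (D b - f * D c) := by
    rw [← h2, v.map_mul, hvc, zero_add]
  rw [h3]
  apply v.map_le_sub (hB ⟨b, hb⟩)
  rw [v.map_mul]
  exact le_trans (hB ⟨c, hc⟩) (le_add_of_nonneg_left hf)

lemma der_eval2 (D : Derivation ℂ K K) (hD : ∀ p : MvPolynomial σ ℂ, 0 ≤ v (D (MvPolynomial.aeval s p)))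
    {f : K} (hf : 0 ≤ v f) (G : (MvPolynomial σ ℂ)[X]) :
    ∃ r : K, 0 ≤ v r ∧ D (G.eval₂ (MvPolynomial.aeval s).toRingHom f) =
      r + G.derivative.eval₂ (MvPolynomial.aeval s).toRingHom f * D f := by
  induction G using Polynomial.induction_on' with
  | add p q hp hq =>
    obtain ⟨r, hr, h1⟩ := hp
    obtain ⟨r', hr', h2⟩ := hq
    refine ⟨r + r', v.map_le_add hr hr', ?_⟩
    rw [eval₂_add, map_add, h1, h2, derivative_add, eval₂_add]
    ring
  | monomial n a =>
    refine ⟨f ^ n * D (MvPolynomial.aeval s a), ?_, ?_⟩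
    · rw [v.map_mul, v.map_pow]
      exact add_nonneg (nsmul_nonneg hf _) (hD a)
    · rw [eval₂_monomial, derivative_monomial, eval₂_monomial, D.leibniz, D.leibniz_pow]
      change _ + _ = _ + (MvPolynomial.aeval s (a * (n : MvPolynomial σ ℂ))) * f ^ (n - 1) * D f
      rw [map_mul, map_natCast]
      change (MvPolynomial.aeval s a) • n • f ^ (n - 1) • D f + f ^ n • D (MvPolynomial.aeval s a) = _
      simp only [nsmul_eq_mul, smul_eq_mul]
      ring

/-- **Derivations preserve divisorial valuation rings.** If the discrete valuation `v` of a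
finitely generated field `K` over `ℂ` has uniformizer `t`, the elements `s` have algebraically
independent residues, and `K` is algebraic over `ℂ(s,t)`, then a derivation which sends `t` and
`s` into the valuation ring preserves the valuation ring. -/
theorem der_nonneg [Algebra.EssFiniteType ℂ K]
    (hs : ∀ p : MvPolynomial σ ℂ, p ≠ 0 → v (MvPolynomial.aeval s p) = 0)
    (ht : v t = 1) [Finite σ]
    (halg : ∀ f : K, ∃ F : (MvPolynomial σ ℂ)[X][X], F ≠ 0 ∧ F.eval₂ (ev s t) f = 0)
    (D : Derivation ℂ K K) (hDt : 0 ≤ v (D t)) (hDs : ∀ i, 0 ≤ v (D (s i))) :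
    ∀ f, 0 ≤ v f → 0 ≤ v (D f) := by
  classical
  have hex := exists_bound v hs ht halg D hDt hDs
  have hmin := fun m => Nat.find_min hex (m := m)
  obtain hspec := Nat.find_spec hex
  set ℓ := Nat.find hex with hℓ
  have ht0 : t ≠ 0 := by
    rintro rfl
    simp at ht
  have hDa : ∀ p : MvPolynomial σ ℂ, 0 ≤ v (D (MvPolynomial.aeval s p)) := by
    intro p
    have := der_ev_nonneg v hs ht D hDt hDs (C p)
    rwa [ev_C] at this
  rcases Nat.eq_zero_or_pos ℓ with h0 | hpos
  · intro f hf
    have := hspec f hf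
    rw [h0] at this
    simpa using this
  · exfalso
    refine hmin (ℓ - 1) (by omega) (fun f hf => ?_)
    have hle : ((-((ℓ - 1 : ℕ) : ℤ) : ℤ) : WithTop ℤ) ≤ 0 :=
      WithTop.coe_le_coe.2 (show (-((ℓ - 1 : ℕ) : ℤ) : ℤ) ≤ 0 by omega)
    obtain ⟨F, hF, hFf⟩ := halg f
    obtain ⟨G, hG1, hG2⟩ := exists_sep v hs ht hf hF hFf
    obtain ⟨r, hr, hDG⟩ := der_eval2 v D hDa hf G
    set g := G.eval₂ (MvPolynomial.aeval s).toRingHom f with hg
    set g' := G.derivative.eval₂ (MvPolynomial.aeval s).toRingHom f with hg'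
    have hh : 0 ≤ v (g / t) := by
      rw [v.map_div, ht]
      induction hx : v g using WithTop.recTopCoe with
      | top => simp
      | coe a =>
        rw [hx] at hG1
        have : (1 : ℤ) ≤ a := by exact_mod_cast hG1
        have h2 : ((a : WithTop ℤ) - 1) = ((a - 1 : ℤ) : WithTop ℤ) := by
          push_cast; rfl
        rw [h2]
        exact_mod_cast (show (0 : ℤ) ≤ a - 1 by omega)
    have h1 : g = t * (g / t) := by field_simp
    have h2 : ((-((ℓ - 1 : ℕ) : ℤ) : ℤ) : WithTop ℤ) ≤ v (D g) := by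
      rw [h1, D.leibniz, smul_eq_mul, smul_eq_mul]
      apply v.map_le_add
      · rw [v.map_mul, ht]
        have h3 := hspec _ hh
        have h4 : ((-((ℓ - 1 : ℕ) : ℤ) : ℤ) : WithTop ℤ) = 1 + ((-(ℓ : ℤ) : ℤ) : WithTop ℤ) := by
          have : (-((ℓ - 1 : ℕ) : ℤ) : ℤ) = 1 + (-(ℓ : ℤ)) := by omega
          rw [this]
          push_cast
          rfl
        rw [h4]
        exact add_le_add le_rfl h3
      · rw [v.map_mul]
        exact le_trans hle (add_nonneg hh hDt)
    have h5 : g' * D f = D g - r := by rw [hDG]; ring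
    have h6 : v (D f) = v (D g - r) := by
      rw [← h5, v.map_mul, hG2, zero_add]
    rw [h6]
    exact v.map_le_sub h2 (le_trans hle hr)

end main

end Pool.Agent.H23

end
end

section

set_option linter.style.haveILetI false

noncomputable section

namespace Pool.Agent.H23

open scoped TensorProduct

variable {K : Type*} [Field K] [Algebra ℂ K]

lemma exists_poly_of_basis {σ : Type*} {g : σ → K} (hg : IsTranscendenceBasis ℂ g) (a : K) :
    ∃ F : Polynomial (MvPolynomial σ ℂ), F ≠ 0 ∧
      F.eval₂ (MvPolynomial.aeval g).toRingHom a = 0 := by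
  have h1 := hg.isAlgebraic
  obtain ⟨p, hp, hpa⟩ := h1.isAlgebraic a
  let e : Algebra.adjoin ℂ (Set.range g) →+* MvPolynomial σ ℂ :=
    (hg.1.aevalEquiv.symm : Algebra.adjoin ℂ (Set.range g) →+* MvPolynomial σ ℂ)
  have he : (MvPolynomial.aeval g).toRingHom.comp e =
      algebraMap (Algebra.adjoin ℂ (Set.range g)) K := by
    ext x
    have h2 := hg.1.algebraMap_aevalEquiv (hg.1.aevalEquiv.symm x)
    rw [AlgEquiv.apply_symm_apply] at h2
    exact h2.symm
  refine ⟨p.map e, ?_, ?_⟩
  · rwa [Ne, Polynomial.map_eq_zero_iff]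
    exact hg.1.aevalEquiv.symm.injective
  · rw [Polynomial.eval₂_map, he]
    exact hpa

/-- For a transcendence basis `g` of `K/ℂ`, the differentials `dg i` form a basis of `Ω_{K/ℂ}`. -/
theorem exists_basis_kaehler {σ : Type*} {g : σ → K} (hg : IsTranscendenceBasis ℂ g) :
    ∃ b : Module.Basis σ K Ω[K⁄ℂ], ∀ i, b i = KaehlerDifferential.D ℂ K (g i) := by
  classical
  letI alg1 : Algebra (MvPolynomial σ ℂ) K := (MvPolynomial.aeval g).toRingHom.toAlgebra
  have hmap : ∀ r, algebraMap (MvPolynomial σ ℂ) K r = MvPolynomial.aeval g r := fun _ => rfl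
  haveI : FaithfulSMul (MvPolynomial σ ℂ) K := by
    rw [faithfulSMul_iff_algebraMap_injective]
    exact hg.1
  haveI : IsScalarTower ℂ (MvPolynomial σ ℂ) K := by
    apply IsScalarTower.of_algebraMap_eq
    intro c
    rw [hmap, MvPolynomial.algebraMap_eq, MvPolynomial.aeval_C]
  letI alg2 : Algebra (FractionRing (MvPolynomial σ ℂ)) K := FractionRing.liftAlgebra _ K
  haveI : IsScalarTower (MvPolynomial σ ℂ) (FractionRing (MvPolynomial σ ℂ)) K :=
    inferInstance
  haveI : Algebra.IsAlgebraic (MvPolynomial σ ℂ) K := by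
    refine ⟨fun a => ?_⟩
    obtain ⟨F, h1, h2⟩ := exists_poly_of_basis hg a
    exact ⟨F, h1, h2⟩
  haveI : Algebra.IsAlgebraic (FractionRing (MvPolynomial σ ℂ)) K :=
    (IsFractionRing.comap_isAlgebraic_iff (A := (MvPolynomial σ ℂ))).1 this
  haveI : CharZero (FractionRing (MvPolynomial σ ℂ)) :=
    algebraRat.charZero _
  haveI : Algebra.IsSeparable (FractionRing (MvPolynomial σ ℂ)) K := inferInstance
  haveI : Algebra.FormallyEtale (MvPolynomial σ ℂ) (FractionRing (MvPolynomial σ ℂ)) :=
    Algebra.FormallyEtale.of_isLocalization (nonZeroDivisors _)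
  haveI : Algebra.FormallyEtale (FractionRing (MvPolynomial σ ℂ)) K :=
    Algebra.FormallyEtale.of_isSeparable _ K
  haveI : Algebra.FormallyEtale (MvPolynomial σ ℂ) K :=
    Algebra.FormallyEtale.comp _ (FractionRing (MvPolynomial σ ℂ)) _
  let e := KaehlerDifferential.tensorKaehlerEquivOfFormallyEtale ℂ (MvPolynomial σ ℂ) K
  let b := ((KaehlerDifferential.mvPolynomialBasis ℂ σ).baseChange K).map e
  refine ⟨b, fun i => ?_⟩
  simp only [b, Module.Basis.map_apply, Module.Basis.baseChange_apply,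
    KaehlerDifferential.mvPolynomialBasis_apply]
  rw [KaehlerDifferential.tensorKaehlerEquivOfFormallyEtale_apply]
  rw [KaehlerDifferential.mapBaseChange_tmul, one_smul, KaehlerDifferential.map_D, hmap,
    MvPolynomial.aeval_X]

end Pool.Agent.H23

end
end

section

set_option linter.style.haveILetI false

noncomputable section

namespace Pool.Agent.H23

section top

variable {K : Type*} [Field K] {M : Type*} [AddCommGroup M] [Module K M] {n : ℕ}
  (b : Module.Basis (Fin n) K M)

lemma ιMulti_eq (v : Fin n → M) :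
    exteriorPower.ιMulti K n v = b.det v • exteriorPower.ιMulti K n (fun i => b i) := by
  have h : (exteriorPower.ιMulti K n : M [⋀^Fin n]→ₗ[K] ⋀[K]^n M) =
      (LinearMap.toSpanSingleton K (⋀[K]^n M) (exteriorPower.ιMulti K n (fun i => b i))).compAlternatingMap
        b.det := by
    apply Module.Basis.ext_alternating b
    intro σ hσ
    have hbij : Function.Bijective σ := (Finite.injective_iff_bijective).1 hσ
    let e : Equiv.Perm (Fin n) := Equiv.ofBijective σ hbij
    have h1 : (fun i => b (σ i)) = (fun i => b i) ∘ e := rfl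
    rw [h1, AlternatingMap.map_perm, LinearMap.compAlternatingMap_apply, AlternatingMap.map_perm,
      Module.Basis.det_self]
    simp
  conv_lhs => rw [h]
  rw [LinearMap.compAlternatingMap_apply, LinearMap.toSpanSingleton_apply]

/-- coordinate of a top form -/
def fc : (⋀[K]^n M) →ₗ[K] K := exteriorPower.alternatingMapLinearEquiv b.det

lemma fc_ιMulti (v : Fin n → M) : fc b (exteriorPower.ιMulti K n v) = b.det v := by
  rw [fc, exteriorPower.alternatingMapLinearEquiv_apply_ιMulti]

lemma fc_self : fc b (exteriorPower.ιMulti K n (fun i => b i)) = 1 := by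
  rw [fc_ιMulti]
  exact b.det_self

end top

section coords

variable {K : Type} [Field K] [Algebra ℂ K] {n : ℕ}

/-- the derivation dual to a basis of differentials -/
def dualDer {σ : Type*} (b : Module.Basis σ K Ω[K⁄ℂ]) (i : σ) : Derivation ℂ K K :=
  (b.coord i).compDer (KaehlerDifferential.D ℂ K)

lemma dualDer_apply {σ : Type*} (b : Module.Basis σ K Ω[K⁄ℂ]) (i : σ) (f : K) :
    dualDer b i f = b.repr (KaehlerDifferential.D ℂ K f) i := rfl

lemma dualDer_coord {σ : Type*} [DecidableEq σ] (b : Module.Basis σ K Ω[K⁄ℂ]) {a : σ → K}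
    (hb : ∀ i, b i = KaehlerDifferential.D ℂ K (a i)) (i j : σ) :
    dualDer b i (a j) = if i = j then 1 else 0 := by
  rw [dualDer_apply, ← hb, Module.Basis.repr_self, Finsupp.single_apply]
  simp [eq_comm]

end coords

section primeDivisor

variable {K : Type} [Field K] [Algebra ℂ K]

lemma aeval_cons {k : ℕ} (s : Fin k → K) (t : K) (p : MvPolynomial (Fin (k + 1)) ℂ) :
    MvPolynomial.aeval (Fin.cons t s : Fin (k + 1) → K) p =
      ev s t (MvPolynomial.finSuccEquiv ℂ k p) := by
  induction p using MvPolynomial.induction_on with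
  | C a =>
    rw [MvPolynomial.aeval_C, MvPolynomial.finSuccEquiv_apply, MvPolynomial.eval₂Hom_C]
    change _ = ev s t (Polynomial.C (MvPolynomial.C a))
    rw [ev_C, MvPolynomial.aeval_C]
  | add p q hp hq => rw [map_add, hp, hq, map_add, map_add]
  | mul_X p i hp =>
    rw [map_mul, hp, map_mul, map_mul, MvPolynomial.aeval_X]
    congr 1
    refine Fin.cases ?_ (fun j => ?_) i
    · rw [Fin.cons_zero, MvPolynomial.finSuccEquiv_X_zero, ev_X]
    · rw [Fin.cons_succ, MvPolynomial.finSuccEquiv_X_succ, ev_C, MvPolynomial.aeval_X]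

/-- Coordinates adapted to a prime divisor. -/
theorem exists_divisorCoords [Algebra.EssFiniteType ℂ K] {k : ℕ} {z : Fin (k + 1) → K}
    (hz : IsTranscendenceBasis ℂ z) (E : PrimeDivisorOver K (k + 1)) :
    ∃ (g : Fin (k + 1) → K) (b : Module.Basis (Fin (k + 1)) K Ω[K⁄ℂ]),
      (∀ i, b i = KaehlerDifferential.D ℂ K (g i)) ∧ E.ord (g 0) = 1 ∧ (∀ i, 0 ≤ E.ord (g i)) ∧
      (∀ i f, 0 ≤ E.ord f → 0 ≤ E.ord (dualDer b i f)) := by
  obtain ⟨t, ht⟩ := E.exists_uniformizer
  obtain ⟨s, hs0, hs⟩ := E.residue_trdeg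
  change Fin k → K at s
  change ∀ i : Fin k, 0 ≤ E.ord (s i) at hs0
  change ∀ p : MvPolynomial (Fin k) ℂ, p ≠ 0 → E.ord (MvPolynomial.aeval s p) = 0 at hs
  set g : Fin (k + 1) → K := Fin.cons t s with hg
  have hind : AlgebraicIndependent ℂ g := by
    rw [algebraicIndependent_iff_injective_aeval]
    have h1 : (MvPolynomial.aeval g : MvPolynomial (Fin (k + 1)) ℂ → K) =
        ev s t ∘ MvPolynomial.finSuccEquiv ℂ k := by
      funext p
      exact aeval_cons s t p
    rw [h1]
    exact (ev_injective E.ord hs ht).comp (MvPolynomial.finSuccEquiv ℂ k).injective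
  have hbasis : IsTranscendenceBasis ℂ g := by
    apply hind.isTranscendenceBasis_of_trdeg_le_of_finite
    rw [← hz.cardinalMk_eq_trdeg]
  obtain ⟨b, hb⟩ := exists_basis_kaehler hbasis
  refine ⟨g, b, hb, ht, ?_, ?_⟩
  · intro i
    refine Fin.cases ?_ (fun j => ?_) i
    · rw [hg, Fin.cons_zero, ht]; norm_num
    · rw [hg, Fin.cons_succ]; exact hs0 j
  · intro i
    apply der_nonneg E.ord hs ht
    · intro f
      obtain ⟨F, h1, h2⟩ := exists_poly_of_basis hbasis f
      refine ⟨F.map (MvPolynomial.finSuccEquiv ℂ k).toRingEquiv.toRingHom, ?_, ?_⟩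
      · rwa [Ne, Polynomial.map_eq_zero_iff]
        exact (MvPolynomial.finSuccEquiv ℂ k).injective
      · rw [Polynomial.eval₂_map]
        have h3 : (ev s t).comp (MvPolynomial.finSuccEquiv ℂ k).toRingEquiv.toRingHom =
            (MvPolynomial.aeval g).toRingHom :=
          RingHom.ext fun p => (aeval_cons s t p).symm
        rw [h3]
        exact h2
    · have := dualDer_coord b hb i 0
      rw [hg, Fin.cons_zero] at this
      rw [this]
      split_ifs <;> simp
    · intro j
      have := dualDer_coord b hb i j.succ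
      rw [hg, Fin.cons_succ] at this
      rw [this]
      split_ifs <;> simp

end primeDivisor

end Pool.Agent.H23

end
end

section

/-!
# Logarithmic extension of derivations and logarithmic coordinates at a prime divisor
-/

open Pool.Agent.H23 (RatForm regularForms PrimeDivisorOver dualDer dualDer_coord exists_int ev ev_injective aeval_cons exists_poly_of_basis exists_divisorCoords)

noncomputable section

namespace Pool.Agent.H17LG

variable {K : Type} [Field K] [Algebra ℂ K]

omit [Algebra ℂ K] in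
private lemma lreg_val_zpow (v : AddValuation K (WithTop ℤ)) {t : K} (ht : v t = 1) (n : ℤ) :
    v (t ^ n) = (n : WithTop ℤ) := by
  have h0 : ∀ m : ℕ, v (t ^ m) = ((m : ℤ) : WithTop ℤ) := by
    intro m
    rw [v.map_pow, ht]
    simp
  have ht0 : t ≠ 0 := by
    rintro rfl
    simp at ht
  obtain ⟨m, rfl | rfl⟩ := n.eq_nat_or_neg
  · rw [zpow_natCast]
    exact h0 m
  · have h1 : t ^ (-(m : ℤ)) * t ^ m = 1 := by
      rw [← zpow_natCast, ← zpow_add₀ ht0]
      simp
    have h2 : v (t ^ (-(m : ℤ))) + v (t ^ m) = 0 := by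
      rw [← v.map_mul, h1, v.map_one]
    obtain ⟨a, ha⟩ := exists_int v (zpow_ne_zero (-(m : ℤ)) ht0)
    rw [ha, h0] at h2
    rw [ha]
    have h3 : a + (m : ℤ) = 0 := by exact_mod_cast h2
    exact congrArg _ (by omega : a = -(m : ℤ))

omit [Algebra ℂ K] in
private lemma lreg_log (v : AddValuation K (WithTop ℤ)) {t : K} (ht : v t = 1)
    (D : Derivation ℤ K K) (h : ∀ f, 0 ≤ v f → 0 ≤ v (D f)) (hDt : 1 ≤ v (D t)) (f : K) :
    v f ≤ v (D f) := by
  have ht0 : t ≠ 0 := by
    rintro rfl
    simp at ht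
  by_cases hf : f = 0
  · rw [hf, D.map_zero]
  obtain ⟨μ, hμ⟩ := exists_int v hf
  have hfu : f = t ^ μ * (t ^ (-μ) * f) := by
    rw [← mul_assoc, ← zpow_add₀ ht0]
    simp
  obtain ⟨u, hu⟩ : ∃ u, u = t ^ (-μ) * f := ⟨_, rfl⟩
  rw [← hu] at hfu
  have hvu : v u = 0 := by
    rw [hu, v.map_mul, lreg_val_zpow v ht, hμ]
    have : ((-μ + μ : ℤ) : WithTop ℤ) = 0 := by
      rw [neg_add_cancel]
      rfl
    exact_mod_cast this
  have hD : D f = t ^ μ * D u + u * (μ * (t ^ (μ - 1) * D t)) := by
    conv_lhs => rw [hfu]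
    rw [D.leibniz, D.leibniz_zpow]
    simp only [smul_eq_mul, zsmul_eq_mul]
  rw [hD, hμ]
  apply v.map_le_add
  · rw [v.map_mul, lreg_val_zpow v ht]
    exact le_add_of_nonneg_right (h u (by rw [hvu]))
  · have hμ0 : 0 ≤ v ((μ : ℤ) : K) := by
      have h0 : ∀ m : ℕ, 0 ≤ v ((m : ℕ) : K) := by
        intro m
        induction m with
        | zero => simp
        | succ m ih =>
          push_cast
          exact v.map_le_add ih (by rw [v.map_one])
      obtain ⟨m, rfl | rfl⟩ := μ.eq_nat_or_neg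
      · simpa using h0 m
      · simpa using h0 m
    rw [v.map_mul u, hvu, v.map_mul, v.map_mul, lreg_val_zpow v ht, zero_add]
    have h1 : ((μ : ℤ) : WithTop ℤ) = ((μ - 1 : ℤ) : WithTop ℤ) + 1 := by
      have : (μ : ℤ) = (μ - 1) + 1 := by ring
      conv_lhs => rw [this]
      push_cast
      rfl
    rw [h1]
    exact le_trans (add_le_add le_rfl hDt) (le_add_of_nonneg_left hμ0)

theorem exists_logDivisorCoords [Algebra.EssFiniteType ℂ K] {k : ℕ} {z : Fin (k + 1) → K}
    (hz : IsTranscendenceBasis ℂ z) (E : PrimeDivisorOver K (k + 1)) :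
    ∃ (g : Fin (k + 1) → K) (b : Module.Basis (Fin (k + 1)) K Ω[K⁄ℂ]),
      (∀ i, b i = KaehlerDifferential.D ℂ K (g i)) ∧ E.ord (g 0) = 1 ∧ (∀ i, 0 ≤ E.ord (g i)) ∧
      (∀ i f, 0 ≤ E.ord f → 0 ≤ E.ord (dualDer b i f)) ∧
      (∀ i, i ≠ 0 → ∀ f, E.ord f ≤ E.ord (dualDer b i f)) ∧
      ∀ f, E.ord f ≤ E.ord (g 0 * dualDer b 0 f) := by
  obtain ⟨g, b, h1, h2, h3, h4⟩ := exists_divisorCoords hz E
  refine ⟨g, b, h1, h2, h3, h4, ?_, ?_⟩
  · intro i hi
    refine lreg_log E.ord h2 ((dualDer b i).restrictScalars ℤ) (h4 i) ?_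
    change 1 ≤ E.ord (dualDer b i (g 0))
    rw [dualDer_coord b h1, if_neg hi]
    simp
  · refine lreg_log E.ord h2 ((g 0 • dualDer b 0).restrictScalars ℤ) (fun f hf => ?_) ?_
    · change 0 ≤ E.ord (g 0 * dualDer b 0 f)
      rw [E.ord.map_mul, h2]
      exact add_nonneg (by norm_num) (h4 0 f hf)
    · change 1 ≤ E.ord (g 0 * dualDer b 0 (g 0))
      rw [dualDer_coord b h1, if_pos rfl, mul_one, h2]

end Pool.Agent.H17LG

end
end

section

/-!
# Project SY: smooth varieties with a finite morphism onto a fixed variety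

Definitions.  `X` is the projective variety given by `I`, `Y` the projective variety given by `P`,
`F` is a finite morphism from `X` to `Y`.
-/

open MvPolynomial Filter Topology

noncomputable section

namespace Pool.Agent.H39.SY

variable {N M n s : ℕ}

/-- The cone of the variety given by `I`. -/
def Zer (I : Ideal (MvPolynomial (Fin (N + 1)) ℂ)) : Set (Fin (N + 1) → ℂ) :=
  {x | ∀ Q ∈ I, eval x Q = 0}

/-- The affine coordinates of the image of `x` under the tuple `F`; the coordinate `b` is `1`. -/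
def aff (F : Fin (M + 1) → MvPolynomial (Fin (N + 1)) ℂ) (b : Fin (M + 1))
    (x : Fin (N + 1) → ℂ) : Fin (M + 1) → ℂ := fun a => eval x (F a) / eval x (F b)

/-- `σ` is a chart of the variety at `x`, `x l ≠ 0`, with linear coordinates. -/
structure Chart (I : Ideal (MvPolynomial (Fin (N + 1)) ℂ)) (x : Fin (N + 1) → ℂ)
    (l : Fin (N + 1)) (J : Fin n → Fin (N + 1)) (σ : (Fin n → ℂ) → Fin (N + 1) → ℂ) : Prop where
  ne : x l ≠ 0
  an : AnalyticAt ℂ σ 0
  zero : σ 0 = x
  coord : ∀ᶠ u in 𝓝 0, σ u ∈ Zer I ∧ σ u l = x l ∧ ∀ k, σ u (J k) = x (J k) + x l * u k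
  near : ∀ᶠ y in 𝓝 x, y ∈ Zer I →
    y = (y l / x l) • σ (fun k => y (J k) / y l - x (J k) / x l)
  nz : ∀ (d : ℕ) (Q : MvPolynomial (Fin (N + 1)) ℂ), Q.IsHomogeneous d → Q ∉ I →
    ¬ ∀ᶠ u in 𝓝 0, eval (σ u) Q = 0

/-- `W` is a local expression of the morphism given by the tuples `F α` at a point over `y`. -/
def IsPiece (I : Ideal (MvPolynomial (Fin (N + 1)) ℂ))
    (F : Fin s → Fin (M + 1) → MvPolynomial (Fin (N + 1)) ℂ) (b : Fin (M + 1))
    (y : Fin (M + 1) → ℂ) (W : (Fin n → ℂ) → Fin (M + 1) → ℂ) : Prop :=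
  ∃ (x : Fin (N + 1) → ℂ) (l : Fin (N + 1)) (J : Fin n → Fin (N + 1))
    (σ : (Fin n → ℂ) → Fin (N + 1) → ℂ) (α : Fin s), Chart I x l J σ ∧ eval x (F α b) ≠ 0 ∧
    (W = fun u => aff (F α) b (σ u)) ∧ W 0 = y

end Pool.Agent.H39.SY

end
end

section

/-!
# Project DG3, module Spec: specialisation of algebraic functions

Let `z` be algebraically independent and let the `x i` be algebraic over `ℂ(z)`.  There is a
polynomial `f ≠ 0` such that every point `c` with `f (c) ≠ 0` extends to a point `(c, y)` at which all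
polynomial relations of `(z, x)` hold.

Proof.  `R₀ = Algebra.adjoin ℂ (range z)` (isomorphic to the polynomial ring).  For all `i` there is
`f i ≠ 0` in the polynomial ring such that `f i (z) * x i` is integral over `R₀`
(`exists_integral_multiple`, `x i` is algebraic over `R₀`: `IsFractionRing` / `IntermediateField.
algebraAdjoinAdjoin`, see `exists_index` in `Pool.Agent.H92.GT.Index`).  `f = ∏ f i`.  Given `c` with
`f (c) ≠ 0`: let `R₁ = Algebra.adjoin ℂ (range z ∪ {(f (z))⁻¹})`, `S = Algebra.adjoin R₁ (range x)`,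
integral over `R₁`.  The evaluation at `c` is a ring homomorphism `R₁ → ℂ` (`R₁` is the localisation
of the polynomial ring; or use the maximal ideal of the elements `g (z) / f (z) ^ k` with `g (c) = 0`);
its kernel is a maximal ideal, which is the contraction of a maximal ideal `𝔫` of `S`
(`Ideal.exists_ideal_over_maximal_of_isIntegral`), and `S ⧸ 𝔫` is integral over `ℂ`, so it is `ℂ`
(`IsAlgClosed.algebraMap_bijective_of_isIntegral`).  `y i` = the class of `x i`.
Alternative: multiply by powers of `f` and work with polynomial relations.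
-/

open MvPolynomial

noncomputable section

namespace Pool.Agent.H5.DG3

open scoped IntermediateField.algebraAdjoinAdjoin in
/-- a multiple of an algebraic element is integral over the polynomials in `z` -/
private theorem Spec_int {K : Type} [Field K] [Algebra ℂ K] {ι : Type}
    {z : ι → K} (hz : AlgebraicIndependent ℂ z) (x : K)
    (halg : IsAlgebraic (IntermediateField.adjoin ℂ (Set.range z)) x) :
    ∃ f : MvPolynomial ι ℂ, f ≠ 0 ∧
      (aeval z : MvPolynomial ι ℂ →ₐ[ℂ] K).toRingHom.IsIntegralElem (aeval z f * x) := by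
  have h1 : IsAlgebraic (Algebra.adjoin ℂ (Set.range z)) x :=
    (IsFractionRing.isAlgebraic_iff (Algebra.adjoin ℂ (Set.range z))
      (IntermediateField.adjoin ℂ (Set.range z)) K).mpr halg
  let _ : Algebra (MvPolynomial ι ℂ) K :=
    (aeval z : MvPolynomial ι ℂ →ₐ[ℂ] K).toRingHom.toAlgebra
  have h2 : IsAlgebraic (MvPolynomial ι ℂ) x := by
    refine IsAlgebraic.of_ringHom_of_comp_eq hz.aevalEquiv (RingHom.id K) h1
      hz.aevalEquiv.surjective Function.injective_id ?_
    refine RingHom.ext fun f => ?_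
    change ((hz.aevalEquiv f : Algebra.adjoin ℂ (Set.range z)) : K) = aeval z f
    rw [hz.aevalEquiv_apply_coe]
  obtain ⟨f, hf0, hf⟩ := h2.exists_integral_multiple
  exact ⟨f, hf0, hf⟩

/-- the extension of an evaluation to the integral closure -/
private theorem Spec_ext {A K : Type} [CommRing A] [Field K] (φ : A →+* K)
    (hinj : Function.Injective φ) (ev : A →+* ℂ) (hev : Function.Surjective ev) (j : ℂ →+* A)
    (hj : ev.comp j = RingHom.id ℂ) :
    ∃ (B : Type) (_ : CommRing B) (_ : IsDomain B) (a : A →+* B) (b : B →+* K) (ψ : B →+* ℂ),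
      Function.Injective b ∧ b.comp a = φ ∧ ψ.comp a = ev ∧
      ∀ w : K, φ.IsIntegralElem w → ∃ w' : B, b w' = w := by
  let _ : Algebra A K := φ.toAlgebra
  have hmax : (RingHom.ker ev).IsMaximal := RingHom.ker_isMaximal_of_surjective ev hev
  have hker : RingHom.ker (algebraMap A (integralClosure A K)) ≤ RingHom.ker ev := by
    intro x hx
    rw [RingHom.mem_ker] at hx
    have h1 : φ x = 0 := congrArg (Subtype.val) hx
    rw [hinj (h1.trans (map_zero φ).symm), RingHom.mem_ker, map_zero]
  obtain ⟨Q, hQ, hQ2⟩ := Ideal.exists_ideal_over_maximal_of_isIntegral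
    (S := integralClosure A K) (RingHom.ker ev) hker
  have hQA : ∀ x : A, algebraMap A (integralClosure A K) x ∈ Q ↔ ev x = 0 := by
    intro x
    rw [← RingHom.mem_ker, ← hQ2, Ideal.mem_comap]
  let q : integralClosure A K →+* integralClosure A K ⧸ Q := Ideal.Quotient.mk Q
  let _ : Algebra ℂ (integralClosure A K ⧸ Q) :=
    ((q.comp (algebraMap A (integralClosure A K))).comp j).toAlgebra
  have hcomp : (algebraMap ℂ (integralClosure A K ⧸ Q)).comp ev =
      q.comp (algebraMap A (integralClosure A K)) := by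
    refine RingHom.ext fun x => ?_
    change q (algebraMap A (integralClosure A K) (j (ev x))) =
      q (algebraMap A (integralClosure A K) x)
    rw [← sub_eq_zero, ← map_sub, ← map_sub]
    refine Ideal.Quotient.eq_zero_iff_mem.2 ((hQA _).2 ?_)
    rw [map_sub, sub_eq_zero]
    exact RingHom.congr_fun hj (ev x)
  have hint : Algebra.IsIntegral ℂ (integralClosure A K ⧸ Q) := by
    refine ⟨fun y => ?_⟩
    obtain ⟨y, rfl⟩ := Ideal.Quotient.mk_surjective y
    have hy : IsIntegral A y := Algebra.IsIntegral.isIntegral y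
    obtain ⟨P, hP, hP2⟩ := hy
    refine ⟨P.map ev, hP.map ev, ?_⟩
    rw [Polynomial.eval₂_map, hcomp]
    change Polynomial.eval₂ (q.comp (algebraMap A (integralClosure A K))) (q y) P = 0
    rw [← Polynomial.hom_eval₂, hP2, map_zero]
  have hbij : Function.Bijective (algebraMap ℂ (integralClosure A K ⧸ Q)) :=
    IsAlgClosed.algebraMap_bijective_of_isIntegral
  refine ⟨integralClosure A K, inferInstance, inferInstance,
    algebraMap A (integralClosure A K), (integralClosure A K).val.toRingHom,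
    ((RingEquiv.ofBijective _ hbij).symm : _ →+* ℂ).comp q, Subtype.val_injective, rfl, ?_, ?_⟩
  · rw [RingHom.comp_assoc, ← hcomp]
    refine RingHom.ext fun x => ?_
    exact (RingEquiv.ofBijective _ hbij).symm_apply_apply (ev x)
  · intro w hw
    exact ⟨⟨w, hw⟩, rfl⟩

theorem exists_spec {K : Type} [Field K] [Algebra ℂ K] {ι κ : Type} [Finite ι] [Finite κ]
    {z : ι → K} (hz : AlgebraicIndependent ℂ z) (x : κ → K)
    (halg : ∀ i, IsAlgebraic (IntermediateField.adjoin ℂ (Set.range z)) (x i)) :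
    ∃ f : MvPolynomial ι ℂ, f ≠ 0 ∧ ∀ c : ι → ℂ, eval c f ≠ 0 → ∃ y : κ → ℂ,
      ∀ R : MvPolynomial (ι ⊕ κ) ℂ, aeval (Sum.elim z x) R = 0 → eval (Sum.elim c y) R = 0 := by
  classical
  choose f hf0 hf using fun i => Spec_int hz (x i) (halg i)
  have := Fintype.ofFinite κ
  refine ⟨∏ i, f i, Finset.prod_ne_zero_iff.2 fun i _ => hf0 i, fun c hc => ?_⟩
  have hc' : ∀ i, eval c (f i) ≠ 0 := by
    rw [map_prod, Finset.prod_ne_zero_iff] at hc
    exact fun i => hc i (Finset.mem_univ i)
  obtain ⟨B, _, _, a, b, ψ, hb, hab, hψ, hw⟩ := Spec_ext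
    (aeval z : MvPolynomial ι ℂ →ₐ[ℂ] K).toRingHom hz (eval c)
    (fun t => ⟨C t, eval_C t⟩) C (RingHom.ext fun t => eval_C t)
  choose w hw' using fun i => hw _ (hf i)
  have hker : (RingHom.ker ψ).IsPrime := RingHom.ker_isPrime ψ
  obtain ⟨S, hS⟩ : ∃ S : Submonoid B, S = (RingHom.ker ψ).primeCompl := ⟨_, rfl⟩
  have hSm : ∀ s : B, s ∈ S ↔ ψ s ≠ 0 := by
    intro s
    rw [hS]
    exact Iff.rfl
  have hψS : ∀ s : S, IsUnit (ψ s) := fun s => isUnit_iff_ne_zero.2 ((hSm s).1 s.2)
  have hbS : ∀ s : S, IsUnit (b s) := by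
    intro s
    refine isUnit_iff_ne_zero.2 fun h => (hSm s).1 s.2 ?_
    rw [hb (h.trans (map_zero b).symm), map_zero]
  let φK : Localization S →+* K := IsLocalization.lift hbS
  let φC : Localization S →+* ℂ := IsLocalization.lift hψS
  have hSle : S ≤ nonZeroDivisors B := by
    intro s hs
    rw [mem_nonZeroDivisors_iff_ne_zero]
    rintro rfl
    exact (hSm 0).1 hs (map_zero ψ)
  have hφK : Function.Injective φK := by
    rw [IsLocalization.lift_injective_iff hbS]
    intro u v
    rw [(IsLocalization.injective (Localization S) hSle).eq_iff, hb.eq_iff]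
  have hfS : ∀ i, a (f i) ∈ S := by
    intro i
    rw [hSm]
    have h1 := RingHom.congr_fun hψ (f i)
    rw [RingHom.comp_apply] at h1
    rw [h1]
    exact hc' i
  -- the elements of the localization
  let zt : ι → Localization S := fun i => algebraMap B (Localization S) (a (X i))
  let xt : κ → Localization S := fun i => IsLocalization.mk' (Localization S) (w i) ⟨_, hfS i⟩
  have hzK : ∀ i, φK (zt i) = z i := by
    intro i
    have h1 := RingHom.congr_fun hab (X i)
    rw [RingHom.comp_apply] at h1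
    rw [IsLocalization.lift_eq, h1]
    exact aeval_X z i
  have hzC : ∀ i, φC (zt i) = c i := by
    intro i
    have h1 := RingHom.congr_fun hψ (X i)
    rw [RingHom.comp_apply] at h1
    rw [IsLocalization.lift_eq, h1, eval_X]
  have hxK : ∀ i, φK (xt i) = x i := by
    intro i
    have h1 : b (a (f i)) = aeval z (f i) := RingHom.congr_fun hab (f i)
    have h2 : aeval z (f i) ≠ 0 := by
      intro h3
      exact hf0 i (hz (h3.trans (map_zero (aeval z)).symm))
    have h4 : b (w i) = b (a (f i)) * x i := by rw [hw' i, h1]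
    refine (IsLocalization.lift_mk'_spec hbS (w i) (x i) ⟨_, hfS i⟩).2 ?_
    exact h4
  let cB : ℂ →+* Localization S := (algebraMap B (Localization S)).comp (a.comp C)
  have hcK : φK.comp cB = algebraMap ℂ K := by
    refine RingHom.ext fun t => ?_
    change φK (algebraMap B (Localization S) (a (C t))) = _
    have h1 := RingHom.congr_fun hab (C t)
    rw [RingHom.comp_apply] at h1
    rw [IsLocalization.lift_eq, h1]
    exact aeval_C z t
  have hcC : φC.comp cB = RingHom.id ℂ := by
    refine RingHom.ext fun t => ?_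
    change φC (algebraMap B (Localization S) (a (C t))) = _
    have h1 := RingHom.congr_fun hψ (C t)
    rw [RingHom.comp_apply] at h1
    rw [IsLocalization.lift_eq, h1, eval_C]
    rfl
  refine ⟨fun i => φC (xt i), fun R hR => ?_⟩
  have hR0 : eval₂ cB (Sum.elim zt xt) R = 0 := by
    apply hφK
    rw [map_zero, eval₂_comp_left, hcK, ← hR, aeval_def]
    congr 1
    funext i
    rcases i with i | i
    · exact hzK i
    · exact hxK i
  have h1 := congrArg φC hR0
  rw [map_zero, eval₂_comp_left, hcC] at h1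
  rw [← h1]
  change eval₂ (RingHom.id ℂ) (Sum.elim c fun i => φC (xt i)) R = _
  congr 1
  funext i
  rcases i with i | i
  · exact (hzC i).symm
  · rfl

end Pool.Agent.H5.DG3

end
end

section

/-!
# Polynomials over the entire functions with divisibility conditions on the values
-/

open Polynomial Topology Filter

namespace Pool.Agent.H92.GGL

open Differential

/-- The indicator of the nonzero natural numbers. -/
def indN (n : ℕ) : ℝ := if n = 0 then 0 else 1

lemma indN_zero : indN 0 = 0 := rfl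

lemma indN_of_ne {n : ℕ} (h : n ≠ 0) : indN n = 1 := by
  unfold indN
  rw [if_neg h]

end Pool.Agent.H92.GGL

end

section

/-!
# The resultant of `R` and `∂R/∂z` vanishes if the zeros of the values are weighted enough

`R` is a polynomial in `t` whose coefficients are entire functions of `z`.
-/

open Polynomial Topology Filter

namespace Pool.Agent.H92.GGL

variable {ι : Type} [Fintype ι]

/-- An analytic function is bounded near a point. -/
lemma exists_bound_near {f : ℂ → ℂ} {s : ℂ} (hf : ContinuousAt f s) :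
    ∃ B : ℝ, 1 ≤ B ∧ ∀ᶠ z in 𝓝 s, ‖f z‖ ≤ B := by
  refine ⟨‖f s‖ + 1, by linarith [norm_nonneg (f s)], ?_⟩
  filter_upwards [hf.norm.eventually (gt_mem_nhds (lt_add_one _))] with z hz using hz.le

open Differential

end Pool.Agent.H92.GGL

end

section

/-!
# Log general type from one function
-/

open Pool.Agent.H23 (RatForm regularForms PrimeDivisorOver dualDer fc)
open Pool.Agent.H17LG (IsLogGeneralType LogRegularAlong exists_logDivisorCoords)
open Pool.Agent.H17GT (RegularAlong)

noncomputable section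

namespace Pool.Agent.H92.GT

variable {K : Type} [Field K] [Algebra ℂ K] {k : ℕ}

lemma algebraic_of_le {F F' : IntermediateField ℂ K} (h : F ≤ F')
    (halg : Algebra.IsAlgebraic F K) : Algebra.IsAlgebraic F' K := by
  constructor
  intro a
  obtain ⟨p, hp, hpa⟩ := halg.isAlgebraic a
  refine ⟨p.map (IntermediateField.inclusion h).toRingHom, ?_, ?_⟩
  · rwa [Ne, Polynomial.map_eq_zero_iff (IntermediateField.inclusion h).toRingHom.injective]
  · rw [← hpa, Polynomial.aeval_def, Polynomial.aeval_def, Polynomial.eval₂_map]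
    rfl

/-- Log general type from a function with the required poles. -/
theorem isLogGeneralType_of_function [Algebra.EssFiniteType ℂ K] {z : Fin (k + 1) → K}
    (hz : IsTranscendenceBasis ℂ z) {b : Module.Basis (Fin (k + 1)) K Ω[K⁄ℂ]}
    {Bd : PrimeDivisorOver K (k + 1) → Prop} {M : ℕ} (hM : 1 ≤ M)
    {N : ℕ} {x : Fin (N + 1) → K} {j₀ : Fin (N + 1)} (hj₀ : x j₀ = 1)
    (halg : Algebra.IsAlgebraic (IntermediateField.adjoin ℂ (Set.range x)) K) {Θ : K}
    (hΘ : Θ ≠ 0)
    (h : ∀ (E : PrimeDivisorOver K (k + 1)) (g₀ : K)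
      (bE : Module.Basis (Fin (k + 1)) K Ω[K⁄ℂ]), E.ord g₀ = 1 →
      (∀ i f, 0 ≤ E.ord f → 0 ≤ E.ord (dualDer bE i f)) →
      (∀ i, i ≠ 0 → ∀ f, E.ord f ≤ E.ord (dualDer bE i f)) →
      (∀ f, E.ord f ≤ E.ord (g₀ * dualDer bE 0 f)) → ∀ i,
      (¬ Bd E → 0 ≤ E.ord (Θ * x i * (bE.toMatrix b).det ^ M)) ∧
        0 ≤ E.ord (Θ * x i * (bE.toMatrix b).det ^ M) + M) :
    IsLogGeneralType Bd := by
  refine ⟨M, hM, exteriorPower.ιMulti K (k + 1) (fun i => b i), ?_, N + 1,
    Fin.cons (Θ * x j₀) fun i => Θ * x i, ?_, ?_, ?_⟩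
  · intro h0
    have h1 := congrArg (fc b) h0
    rw [H23.fc_self, map_zero] at h1
    exact one_ne_zero h1
  · rw [Fin.cons_zero, hj₀, mul_one]
    exact hΘ
  · intro i E
    obtain ⟨g, bE, hbE, hg0, hg, hη, hη', hη0⟩ := exists_logDivisorCoords hz E
    have hmem : exteriorPower.ιMulti K (k + 1) (fun i => bE i) ∈
        regularForms (k + 1) E.localRing := by
      apply AddSubgroup.subset_closure
      refine ⟨1, g, E.localRing.one_mem, hg, ?_⟩
      rw [one_smul]
      simp only [hbE]
    have hform : exteriorPower.ιMulti K (k + 1) (fun i => b i) =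
        (bE.toMatrix b).det • exteriorPower.ιMulti K (k + 1) (fun i => bE i) := by
      rw [H23.ιMulti_eq bE (fun i => b i), Module.Basis.det_apply]
    have hi : ∃ i', (Fin.cons (Θ * x j₀) (fun i => Θ * x i) : Fin (N + 1 + 1) → K) i =
        Θ * x i' := by
      refine Fin.cases ⟨j₀, ?_⟩ (fun i => ⟨i, ?_⟩) i
      · rw [Fin.cons_zero]
      · rw [Fin.cons_succ]
    obtain ⟨i', hi'⟩ := hi
    have h1 := h E (g 0) bE hg0 hη hη' hη0 i'
    rw [hi']
    exact ⟨fun hE => ⟨_, _, hmem, hform, h1.1 hE⟩, fun _ => ⟨_, _, hmem, hform, h1.2⟩⟩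
  · refine algebraic_of_le ?_ halg
    rw [IntermediateField.adjoin_le_iff]
    rintro _ ⟨i, rfl⟩
    apply IntermediateField.subset_adjoin
    refine ⟨i.succ, ?_⟩
    simp only [Fin.cons_succ, Fin.cons_zero]
    rw [hj₀, mul_one, mul_div_cancel_left₀ _ hΘ]

end Pool.Agent.H92.GT

end
end
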