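import Pool.Agent.H94.DG.M05
import Pool.Agent.H94.DG.M09
import Pool.Agent.H94.DG.M14
import Pool.Agent.H94.DG.M27
import Pool.Agent.H94.DG.M28

/-! The parts of this file: H5.DG.CardLt, H92.GGL.SchwarzDisc, H92.GGL.NevIneq, H92.GT.LocalDer. -/

section

/-!
# Project DG, E1: not all roots are constant

Suppose `T.card = κ` (`card_constants_le`). Let `U = {w ∈ ℂ^(n+2) | dot τ w = 0 for τ ∈ T}`. The numbers `c_τ = τ 1`, `τ ∈ T`, are different
(`toL_facts` in the algebraic closure of `K`), and `N (w; c_τ) = 0` for `w ∈ U`; `natDegree_le`: `N (w; u) = a (w) ∏ (u - c_τ)`, `a = N.coeff κ`.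
(1) `dim U ≤ 1`: let `w₁, w₂ ∈ U` be linearly independent. The polynomial `a (s w₁ + t w₂)` is a binary form of degree `κ ≥ 1`, so it
has a zero `(s, t) ≠ 0` (if it is not zero at `w₂`, the polynomial `s ↦ a (w₁ s + ...)`; `ℂ` algebraically closed), `w = s w₁ + t w₂ ≠ 0`,
`N (w; ·) = 0`, contradicting `hnd`. (2) `v` is in `U ⊗ K`: the solutions in `K` of a system of equations with coefficients in `ℂ` are
combinations of the solutions in `ℂ` (e.g. choose a basis of `U` and complete it to a basis of `ℂ^(n+2)`; or expand the coordinates of `v`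
in a basis of `K` over `ℂ`: all coefficient vectors are in `U`, so they are multiples of one vector `x ∈ ℂ^(n+2)`, and `v = x f`).
-/

open MvPolynomial

noncomputable section

namespace Pool.Agent.H5.DG

variable {n κ : ℕ} {N : Polynomial (PV n)}

private theorem cardLt_inj (hN : IsNormForm κ N) {K : Type} [Field K] [Algebra ℂ K]
    (v : Fin (n + 2) → K) (hΔ : MvPolynomial.aeval v (Del κ N) ≠ 0) :
    Set.InjOn (fun τ : Fin (n + 2) → ℂ => τ 1)
        {τ : Fin (n + 2) → ℂ | τ ∈ Gam N ℂ ∧ dot (toL K τ) v = 0} := by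
  set L := AlgebraicClosure K
  set vL : Fin (n + 2) → L := fun a => algebraMap K L (v a) with hvL
  have hΔL : MvPolynomial.aeval vL (Del κ N) ≠ 0 := by
    have h1 : MvPolynomial.aeval vL (Del κ N) = algebraMap K L (MvPolynomial.aeval v (Del κ N)) := by
      exact MvPolynomial.aeval_algebraMap_apply L v (Del κ N)
    rw [h1, Ne, map_eq_zero]
    exact hΔ
  have hdot : ∀ τ : Fin (n + 2) → ℂ, dot (toL K τ) v = 0 → dot (toL L τ) vL = 0 := by
    intro τ h
    have h1 : dot (toL L τ) vL = algebraMap K L (dot (toL K τ) v) := by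
      unfold dot toL
      rw [map_sum]
      refine Finset.sum_congr rfl fun a _ => ?_
      rw [map_mul, ← IsScalarTower.algebraMap_apply ℂ K L]
    rw [h1, h, map_zero]
  intro τ hτ τ' hτ' h
  have h1 := (toL_facts hN.one_le hN.pre vL hΔL hτ.1 (hdot τ hτ.2)).2
  have h2 := (toL_facts hN.one_le hN.pre vL hΔL hτ'.1 (hdot τ' hτ'.2)).2
  have h3 : τ 1 = τ' 1 := h
  rw [h3, h2] at h1
  funext a
  exact ((algebraMap ℂ L).injective (congrFun h1 a)).symm

private theorem cardLt_coeff (hN : IsNormForm κ N) (hnd : Nondeg N) (S : Finset ℂ) (hS : S.card = κ)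
    (w : Fin (n + 2) → ℂ) (hw : w ≠ 0) (hr : ∀ c ∈ S, val N w c = 0) : MvPolynomial.aeval w (N.coeff κ) ≠ 0 := by
  intro h0
  apply hnd w hw
  have hdeg : (atV N w).natDegree ≤ κ := (Polynomial.natDegree_map_le).trans (natDegree_le hN.pre)
  have hc : (atV N w).coeff κ = 0 := by
    rw [atV, Polynomial.coeff_map]
    exact h0
  rcases eq_or_lt_of_le hdeg with h | h
  · have h1 : (atV N w).leadingCoeff = 0 := by
      rw [Polynomial.leadingCoeff, h, hc]
    exact Polynomial.leadingCoeff_eq_zero.mp h1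
  · exact Polynomial.eq_zero_of_natDegree_lt_card_of_eval_eq_zero' _ S hr (by rw [hS]; exact h)

private theorem cardLt_prop (hκ : 1 ≤ κ) {a : PV n} (ha : a.IsHomogeneous κ) (w₁ w₂ : Fin (n + 2) → ℂ)
    (h2 : MvPolynomial.aeval w₂ a ≠ 0) (h : ∀ t : ℂ, MvPolynomial.aeval (fun i => w₁ i + t * w₂ i) a ≠ 0) : False := by
  set p : Polynomial ℂ := MvPolynomial.aeval (fun i => Polynomial.C (w₁ i) + Polynomial.X * Polynomial.C (w₂ i)) a
    with hp
  set q : Polynomial ℂ := MvPolynomial.aeval (fun i => Polynomial.X * Polynomial.C (w₁ i) + Polynomial.C (w₂ i)) a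
    with hq
  have hpe : ∀ t : ℂ, p.eval t = MvPolynomial.aeval (fun i => w₁ i + t * w₂ i) a := by
    intro t
    rw [hp, ← Polynomial.coe_aeval_eq_eval, ← AlgHom.comp_apply, MvPolynomial.comp_aeval]
    congr 2
    funext i
    simp
    ring
  have hqe : ∀ t : ℂ, q.eval t = MvPolynomial.aeval (fun i => t * w₁ i + w₂ i) a := by
    intro t
    rw [hq, ← Polynomial.coe_aeval_eq_eval, ← AlgHom.comp_apply, MvPolynomial.comp_aeval]
    congr 2
    funext i
    simp
    ring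
  have hpd : p.degree = 0 := by
    by_contra hne
    obtain ⟨t, ht⟩ := IsAlgClosed.exists_root p hne
    exact h t (by rw [← hpe]; exact ht)
  have hpC : p = Polynomial.C (p.coeff 0) := Polynomial.eq_C_of_degree_le_zero hpd.le
  have hqX : q = Polynomial.C (p.coeff 0) * Polynomial.X ^ κ := by
    refine Polynomial.eq_of_infinite_eval_eq _ _ ?_
    refine Set.Infinite.mono (s := {t : ℂ | t ≠ 0}) ?_ ?_
    · intro t ht
      have ht0 : t ≠ 0 := ht
      show q.eval t = _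
      rw [hqe, Polynomial.eval_mul, Polynomial.eval_C, Polynomial.eval_pow, Polynomial.eval_X]
      have h3 : p.eval t⁻¹ = p.coeff 0 := by
        rw [hpC, Polynomial.eval_C, Polynomial.coeff_C_zero]
      rw [← h3, hpe]
      have h4 : (fun i => t * w₁ i + w₂ i) = fun i => t * (w₁ i + t⁻¹ * w₂ i) := by
        funext i
        field_simp
      rw [h4, MvPolynomial.aeval_def, MvPolynomial.eval₂_eq', MvPolynomial.aeval_def, MvPolynomial.eval₂_eq',
        Finset.sum_mul]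
      refine Finset.sum_congr rfl fun μ hμ => ?_
      have h5 : μ.degree = κ := by
        rw [Finsupp.degree_eq_weight_one]
        exact ha (MvPolynomial.mem_support_iff.mp hμ)
      rw [Finsupp.degree_eq_sum] at h5
      have h6 : ∏ i, (t * (w₁ i + t⁻¹ * w₂ i)) ^ μ i = t ^ κ * ∏ i, (w₁ i + t⁻¹ * w₂ i) ^ μ i := by
        rw [← h5, ← Finset.prod_pow_eq_pow_sum, ← Finset.prod_mul_distrib]
        exact Finset.prod_congr rfl fun i _ => mul_pow _ _ _
      rw [h6]
      ring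
    · exact Set.infinite_of_finite_compl (by
        have : {t : ℂ | t ≠ 0}ᶜ = {0} := by ext t; simp
        rw [this]
        exact Set.finite_singleton 0)
  have h7 : q.eval 0 = 0 := by
    rw [hqX, Polynomial.eval_mul, Polynomial.eval_pow, Polynomial.eval_X, zero_pow (by omega), mul_zero]
  rw [hqe] at h7
  apply h2
  rw [← h7]
  congr 2
  funext i
  ring

/-- **E1.** It is less than `κ` if `v` is not proportional to a complex point. -/
theorem card_constants_lt (hκ : 1 ≤ κ) (hN : IsNormForm κ N) (hnd : Nondeg N) {K : Type} [Field K]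
    [Algebra ℂ K] (v : Fin (n + 2) → K) (hΔ : MvPolynomial.aeval v (Del κ N) ≠ 0)
    (hv : ¬ ∃ (x : Fin (n + 2) → ℂ) (f : K), ∀ a, v a = algebraMap ℂ K (x a) * f)
    (T : Finset (Fin (n + 2) → ℂ)) (hT : ∀ τ ∈ T, τ ∈ Gam N ℂ ∧ dot (toL K τ) v = 0) :
    T.card < κ := by
  classical
  refine lt_of_le_of_ne (card_constants_le hN v hΔ T hT) fun hcard => hv ?_
  set S : Finset ℂ := T.image fun τ => τ 1 with hS
  have hScard : S.card = κ := by
    rw [hS, Finset.card_image_of_injOn, hcard]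
    intro τ hτ τ' hτ' h
    exact cardLt_inj hN v hΔ (hT τ hτ) (hT τ' hτ') h
  have hU : ∀ w : Fin (n + 2) → ℂ, (∀ τ ∈ T, dot τ w = 0) → w ≠ 0 → MvPolynomial.aeval w (N.coeff κ) ≠ 0 := by
    intro w hw hw0
    refine cardLt_coeff hN hnd S hScard w hw0 fun c hc => ?_
    rw [hS, Finset.mem_image] at hc
    obtain ⟨τ, hτ, rfl⟩ := hc
    exact (hT τ hτ).1.2 w (hw τ hτ)
  have hprop : ∀ w₁ w₂ : Fin (n + 2) → ℂ, (∀ τ ∈ T, dot τ w₁ = 0) → (∀ τ ∈ T, dot τ w₂ = 0) → w₂ ≠ 0 →
      ∃ c : ℂ, ∀ i, w₁ i = c * w₂ i := by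
    intro w₁ w₂ h1 h2 h20
    by_contra hcon
    push Not at hcon
    refine cardLt_prop hκ (hN.hom κ) w₁ w₂ (hU w₂ h2 h20) fun t => ?_
    refine hU _ (fun τ hτ => ?_) ?_
    · have e1 := h1 τ hτ
      have e2 := h2 τ hτ
      unfold dot at e1 e2 ⊢
      have e3 : ∀ a, τ a * (w₁ a + t * w₂ a) = τ a * w₁ a + t * (τ a * w₂ a) := fun a => by ring
      rw [Finset.sum_congr rfl fun a _ => e3 a, Finset.sum_add_distrib, ← Finset.mul_sum, e1, e2, mul_zero, add_zero]
    · intro h0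
      obtain ⟨i, hi⟩ := hcon (-t)
      apply hi
      have := congrFun h0 i
      simp only [Pi.zero_apply] at this
      linear_combination this
  let b := Module.Basis.ofVectorSpace ℂ K
  set x : Module.Basis.ofVectorSpaceIndex ℂ K → Fin (n + 2) → ℂ := fun i a => b.repr (v a) i with hx
  have hxU : ∀ i, ∀ τ ∈ T, dot τ (x i) = 0 := by
    intro i τ hτ
    have h1 := (hT τ hτ).2
    unfold dot toL at h1
    have h2 := congrArg (fun z => b.repr z i) h1
    simp only [map_sum, map_zero, Finsupp.coe_zero, Pi.zero_apply, Finsupp.coe_finsetSum, Finset.sum_apply] at h2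
    unfold dot
    rw [← h2]
    refine Finset.sum_congr rfl fun a _ => ?_
    rw [← Algebra.smul_def, map_smul, Finsupp.smul_apply, smul_eq_mul]
  by_cases hall : ∀ i, x i = 0
  · refine ⟨0, 0, fun a => ?_⟩
    rw [mul_zero]
    apply b.repr.injective
    ext i
    rw [map_zero, Finsupp.zero_apply]
    exact congrFun (hall i) a
  · push Not at hall
    obtain ⟨i₀, hi₀⟩ := hall
    obtain ⟨a₀, ha₀⟩ : ∃ a, x i₀ a ≠ 0 := by
      by_contra hcon
      push Not at hcon
      exact hi₀ (funext hcon)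
    refine ⟨fun a => x i₀ a / x i₀ a₀, v a₀, fun a => ?_⟩
    rw [← Algebra.smul_def]
    apply b.repr.injective
    ext i
    rw [map_smul, Finsupp.smul_apply, smul_eq_mul]
    obtain ⟨c, hc⟩ := hprop (x i) (x i₀) (hxU i) (hxU i₀) hi₀
    have h1 : b.repr (v a) i = c * x i₀ a := hc a
    have h2 : b.repr (v a₀) i = c * x i₀ a₀ := hc a₀
    rw [h1, h2]
    field_simp

end Pool.Agent.H5.DG

end
end

section

/-!
# An estimate of Ahlfors–Schwarz type on a disc
-/

open Topology Filter Complex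

namespace Pool.Agent.H92.GGL

open Pool.Agent.H17

variable {ι : Type} [Fintype ι]

lemma wt_continuousAt' [Nonempty ι] {r : ι → ℂ → ℂ} {g : ℂ → ℂ} {z : ℂ}
    (hr : ∀ i, ContinuousAt (r i) z) (hg : ContinuousAt g z) (κ α : ℝ) (β : ι → ℝ)
    (hz : ∀ i, r i z ≠ 0) : ContinuousAt (wt κ α β r g) z := by
  unfold wt powSum
  have h1 : ∀ i, ContinuousAt (fun z => ‖r i z‖) z := fun i => (hr i).norm
  have h2 : ContinuousAt (fun z => ‖g z‖) z := hg.norm
  have h3 : ∀ i, ‖r i z‖ ≠ 0 := fun i => norm_ne_zero_iff.mpr (hz i)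
  have h4 : ContinuousAt (fun z => ∑ i, ‖r i z‖ ^ κ) z :=
    tendsto_finsetSum _ fun i _ => (h1 i).rpow_const (Or.inl (h3 i))
  have h5 : ContinuousAt (fun z => ∏ i, ‖r i z‖ ^ (-(β i))) z :=
    tendsto_finsetProd _ fun i _ => (h1 i).rpow_const (Or.inl (h3 i))
  refine ((h2.pow 2).mul (h4.rpow_const (Or.inl ?_))).mul h5
  exact (powSum_pos (κ := κ) hz).ne'

/-- The estimate at the centre of a disc. -/
theorem schwarz_disc_zero [Nonempty ι] {r : ι → ℂ → ℂ} {g : ℂ → ℂ} {κ α : ℝ} {β : ι → ℝ} {ρ : ℕ}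
    (hκ : 0 < κ) (hα : 0 < α) (hρ : 0 < ρ) {R : ℝ} (hR : 0 < R) {S : Finset ℂ} (h0 : 0 ∉ S)
    (hr : ∀ z, ‖z‖ ≤ R → z ∉ S → ∀ i, AnalyticAt ℂ (r i) z ∧ r i z ≠ 0)
    (hg : ∀ z, ‖z‖ ≤ R → z ∉ S → AnalyticAt ℂ g z) {C : ℝ} (hC : 0 ≤ C)
    (hbound : ∀ z, ‖z‖ ≤ R → z ∉ S → wt κ α β r g z ≤ C * powVar κ r z ^ ρ)
    (hloc : ∀ s, ‖s‖ ≤ R → s ∈ S → ∃ B, ∀ᶠ z in 𝓝[≠] s, wt κ α β r g z ≤ B) :
    wt κ α β r g 0 * R ^ (2 * ρ) ≤ C * (8 * ρ / (α * κ ^ 2)) ^ ρ := by
  classical
  have hR0 : ‖(0 : ℂ)‖ ≤ R := by simpa using hR.le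
  by_cases hg0 : g 0 = 0
  · have h1 : wt κ α β r g 0 = 0 := by
      unfold wt
      rw [hg0]
      simp
    rw [h1, zero_mul]
    positivity
  have hr0 : ∀ i, r i 0 ≠ 0 := fun i => (hr 0 hR0 h0 i).2
  set w₀ := wt κ α β r g 0 with hw₀
  have hw₀pos : 0 < w₀ := by
    rw [hw₀]
    unfold wt
    have h1 : 0 < ∏ i, ‖r i 0‖ ^ (-(β i)) := Finset.prod_pos fun i _ =>
      Real.rpow_pos_of_pos (norm_pos_iff.mpr (hr0 i)) _
    have h2 : 0 < powSum κ r 0 ^ α := Real.rpow_pos_of_pos (powSum_pos hr0) _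
    have h3 : 0 < ‖g 0‖ := norm_pos_iff.mpr hg0
    positivity
  set D : ℝ := C * (1 / (α * κ ^ 2)) ^ ρ with hD
  have hDnn : 0 ≤ D := by positivity
  have hPpos : ∀ z, z ∉ S → 0 < ∏ s ∈ S, ‖z - s‖ := by
    intro z hz
    refine Finset.prod_pos fun s hs => norm_pos_iff.mpr (sub_ne_zero.mpr ?_)
    rintro rfl
    exact hz hs
  have key : w₀ * (R ^ 2) ^ (2 * ρ) ≤ D * (8 * ρ * R ^ 2) ^ ρ := by
    refine le_of_forall_pow_mul_le (hPpos 0 h0) (Q := ∏ s ∈ S, (R + ‖s‖)) (by positivity) ?_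
    intro k hk
    set Φ : ℂ → ℝ := fun z => wt κ α β r g z ^ k * (R ^ 2 - ‖z‖ ^ 2) ^ (2 * ρ * k) *
      ∏ s ∈ S, ‖z - s‖ with hΦ
    have hΦcont : ContinuousOn Φ (Metric.closedBall (0 : ℂ) R) := by
      intro z hz
      rw [mem_closedBall_zero_iff] at hz
      apply ContinuousAt.continuousWithinAt
      have hc1 : Continuous fun z : ℂ => (R ^ 2 - ‖z‖ ^ 2) ^ (2 * ρ * k) := by fun_prop
      by_cases hzS : z ∈ S
      · rw [continuousAt_iff_punctured_nhds]
        have hΦz : Φ z = 0 := by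
          simp only [hΦ]
          rw [Finset.prod_eq_zero hzS (by simp), mul_zero]
        rw [hΦz]
        obtain ⟨B, hB⟩ := hloc z hz hzS
        have hrest : Tendsto (fun w : ℂ => (R ^ 2 - ‖w‖ ^ 2) ^ (2 * ρ * k) *
            ∏ s ∈ S.erase z, ‖w - s‖) (𝓝[≠] z) (𝓝 ((R ^ 2 - ‖z‖ ^ 2) ^ (2 * ρ * k) *
            ∏ s ∈ S.erase z, ‖z - s‖)) := by
          have : Continuous fun w : ℂ => (R ^ 2 - ‖w‖ ^ 2) ^ (2 * ρ * k) *
            ∏ s ∈ S.erase z, ‖w - s‖ := by
            refine hc1.mul (continuous_finsetProd _ fun s _ => ?_)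
            fun_prop
          exact (this.tendsto z).mono_left nhdsWithin_le_nhds
        have hmain : Tendsto (fun w => wt κ α β r g w ^ k * ‖w - z‖) (𝓝[≠] z) (𝓝 0) := by
          have h1 : Tendsto (fun w : ℂ => (max B 0) ^ k * ‖w - z‖) (𝓝[≠] z)
              (𝓝 0) := by
            have : Continuous fun w : ℂ => (max B 0) ^ k * ‖w - z‖ := by fun_prop
            have h2 := (this.tendsto z).mono_left (nhdsWithin_le_nhds (s := {z}ᶜ))
            simpa using h2
          refine squeeze_zero' ?_ ?_ h1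
          · filter_upwards with w
            have := wt_nonneg κ α β r g w
            positivity
          · filter_upwards [hB] with w hw1
            have h3 : wt κ α β r g w ≤ max B 0 := hw1.trans (le_max_left _ _)
            have := wt_nonneg κ α β r g w
            gcongr
        have h4 := hmain.mul hrest
        rw [zero_mul] at h4
        refine h4.congr ?_
        intro w
        simp only [hΦ]
        rw [← Finset.mul_prod_erase S _ hzS]
        ring
      · have h1 := wt_continuousAt' (fun i => (hr z hz hzS i).1.continuousAt)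
          (hg z hz hzS).continuousAt κ α β (fun i => (hr z hz hzS i).2)
        have hc2 : Continuous fun w : ℂ => ∏ s ∈ S, ‖w - s‖ := by
          refine continuous_finsetProd _ fun s _ => ?_
          fun_prop
        exact ((h1.pow k).mul hc1.continuousAt).mul hc2.continuousAt
    have h0mem : (0 : ℂ) ∈ Metric.closedBall (0 : ℂ) R := by
      rw [mem_closedBall_zero_iff]
      exact hR0
    obtain ⟨zm, hzm, hmax⟩ := (isCompact_closedBall (0 : ℂ) R).exists_isMaxOn
      ⟨0, h0mem⟩ hΦcont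
    have hΦ₀pos : 0 < Φ 0 := by
      simp only [hΦ]
      have := hPpos 0 h0
      rw [norm_zero]
      have h2 : 0 < R ^ 2 - (0 : ℝ) ^ 2 := by
        have : 0 < R ^ 2 := by positivity
        linarith
      positivity
    have hΦm : Φ 0 ≤ Φ zm := hmax h0mem
    have hΦmpos : 0 < Φ zm := hΦ₀pos.trans_le hΦm
    have hkρ : 2 * ρ * k ≠ 0 := by positivity
    have hzmS : zm ∉ S := by
      intro h
      have : Φ zm = 0 := by
        simp only [hΦ]
        rw [Finset.prod_eq_zero h (by simp), mul_zero]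
      linarith only [hΦ₀pos, hΦm, this]
    have hzmR : ‖zm‖ < R := by
      rcases lt_or_eq_of_le (mem_closedBall_zero_iff.mp hzm) with h | h
      · exact h
      · exfalso
        have : Φ zm = 0 := by
          simp only [hΦ]
          rw [h, sub_self, zero_pow hkρ]
          ring
        linarith
    have hzmr : ∀ i, r i zm ≠ 0 := fun i => (hr zm hzmR.le hzmS i).2
    have hzmg : g zm ≠ 0 := by
      intro h
      have : Φ zm = 0 := by
        simp only [hΦ, wt, h]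
        simp [hk.ne']
      linarith only [hΦ₀pos, hΦm, this]
    have hlocmax : IsLocalMax Φ zm := by
      refine hmax.isLocalMax ?_
      exact Filter.mem_of_superset (Metric.isOpen_ball.mem_nhds (by
        rw [mem_ball_zero_iff]; exact hzmR)) Metric.ball_subset_closedBall
    have hV := powVar_le_at_max (ρ := ρ) hα hκ hk (fun i => (hr zm hzmR.le hzmS i).1)
      (hg zm hzmR.le hzmS) hzmR hzmS hzmr hzmg hlocmax
    have hVnn := powVar_nonneg (κ := κ) hzmr
    have hmm : 0 < R ^ 2 - ‖zm‖ ^ 2 := by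
      have := norm_nonneg zm
      nlinarith only [hR, hzmR, this]
    have hw1 : wt κ α β r g zm * (R ^ 2 - ‖zm‖ ^ 2) ^ (2 * ρ) ≤ D * (8 * ρ * R ^ 2) ^ ρ := by
      calc wt κ α β r g zm * (R ^ 2 - ‖zm‖ ^ 2) ^ (2 * ρ)
          ≤ (C * (8 * ρ * R ^ 2 / (R ^ 2 - ‖zm‖ ^ 2) ^ 2 / (α * κ ^ 2)) ^ ρ) *
              (R ^ 2 - ‖zm‖ ^ 2) ^ (2 * ρ) := by
            gcongr
            refine (hbound zm hzmR.le hzmS).trans ?_
            gcongr
        _ = D * (8 * ρ * R ^ 2) ^ ρ := by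
            rw [hD, div_pow, div_pow, div_pow, ← pow_mul, one_pow]
            field_simp
    have hprodle : ∏ s ∈ S, ‖zm - s‖ ≤ ∏ s ∈ S, (R + ‖s‖) := by
      refine Finset.prod_le_prod (fun s _ => norm_nonneg _) fun s hs => ?_
      refine (norm_sub_le _ _).trans ?_
      linarith only [hzmR]
    have e0 : Φ 0 = (w₀ * (R ^ 2) ^ (2 * ρ)) ^ k * ∏ s ∈ S, ‖0 - s‖ := by
      simp only [hΦ]
      rw [mul_pow, ← pow_mul, norm_zero]
      have h9 : R ^ 2 - (0 : ℝ) ^ 2 = R ^ 2 := by ring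
      rw [h9]
    have em : Φ zm = (wt κ α β r g zm * (R ^ 2 - ‖zm‖ ^ 2) ^ (2 * ρ)) ^ k *
        ∏ s ∈ S, ‖zm - s‖ := by
      simp only [hΦ]
      rw [mul_pow, ← pow_mul]
    rw [← e0]
    refine hΦm.trans ?_
    rw [em]
    have hnn := wt_nonneg κ α β r g zm
    have := (hPpos zm hzmS).le
    gcongr
  have hRR : 0 < (R ^ 2) ^ ρ := by positivity
  have e1 : w₀ * (R ^ 2) ^ (2 * ρ) = (w₀ * R ^ (2 * ρ)) * (R ^ 2) ^ ρ := by
    rw [← pow_mul, ← pow_mul, mul_assoc, ← pow_add]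
    congr 2
    ring
  have e2 : D * (8 * ρ * R ^ 2) ^ ρ = (C * (8 * ρ / (α * κ ^ 2)) ^ ρ) * (R ^ 2) ^ ρ := by
    rw [hD, mul_pow, div_pow, div_pow, one_pow]
    ring
  rw [e1, e2] at key
  exact le_of_mul_le_mul_right key hRR

/-- The estimate at the centre of a disc. -/
theorem schwarz_disc [Nonempty ι] {r : ι → ℂ → ℂ} {g : ℂ → ℂ} {κ α : ℝ} {β : ι → ℝ} {ρ : ℕ}
    (hκ : 0 < κ) (hα : 0 < α) (hρ : 0 < ρ) {c : ℂ} {R : ℝ} (hR : 0 < R) {S : Finset ℂ}
    (h0 : c ∉ S) (hr : ∀ z, ‖z - c‖ ≤ R → z ∉ S → ∀ i, AnalyticAt ℂ (r i) z ∧ r i z ≠ 0)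
    (hg : ∀ z, ‖z - c‖ ≤ R → z ∉ S → AnalyticAt ℂ g z) {C : ℝ} (hC : 0 ≤ C)
    (hbound : ∀ z, ‖z - c‖ ≤ R → z ∉ S → wt κ α β r g z ≤ C * powVar κ r z ^ ρ)
    (hloc : ∀ s, ‖s - c‖ ≤ R → s ∈ S → ∃ B, ∀ᶠ z in 𝓝[≠] s, wt κ α β r g z ≤ B) :
    wt κ α β r g c * R ^ (2 * ρ) ≤ C * (8 * ρ / (α * κ ^ 2)) ^ ρ := by
  classical
  have hnorm : ∀ z : ℂ, ‖z‖ ≤ R → ‖(c + z) - c‖ ≤ R := fun z hz => by simpa using hz
  have hmem : ∀ z : ℂ, z ∉ S.image (fun s => s - c) → c + z ∉ S := by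
    intro z hz h
    exact hz (Finset.mem_image.mpr ⟨c + z, h, by ring⟩)
  have han : ∀ (f : ℂ → ℂ) (z : ℂ), AnalyticAt ℂ f (c + z) → AnalyticAt ℂ (fun w => f (c + w)) z :=
    fun f z h => h.fun_comp (analyticAt_const.add analyticAt_id)
  have hwt : ∀ z, wt κ α β (fun i z => r i (c + z)) (fun z => g (c + z)) z =
      wt κ α β r g (c + z) := fun z => rfl
  have hpv : ∀ z, powVar κ (fun i z => r i (c + z)) z = powVar κ r (c + z) := by
    intro z
    unfold powVar
    congr 1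
    funext i
    rw [deriv_comp_const_add]
  have h1 := schwarz_disc_zero (r := fun i z => r i (c + z)) (g := fun z => g (c + z)) (β := β)
    hκ hα hρ hR (S := S.image fun s => s - c) (by
      intro h
      obtain ⟨s, hs, hs'⟩ := Finset.mem_image.mp h
      rw [sub_eq_zero] at hs'
      rw [hs'] at hs
      exact h0 hs) (fun z hz hzS i => ⟨han _ z (hr _ (hnorm z hz) (hmem z hzS) i).1,
        (hr _ (hnorm z hz) (hmem z hzS) i).2⟩) (fun z hz hzS => han _ z (hg _ (hnorm z hz)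
        (hmem z hzS))) hC (fun z hz hzS => by
          rw [hwt, hpv]
          exact hbound _ (hnorm z hz) (hmem z hzS)) (fun s hs hsS => by
          obtain ⟨s', hs', hs''⟩ := Finset.mem_image.mp hsS
          have hs3 : s' = c + s := by rw [← hs'']; ring
          obtain ⟨B, hB⟩ := hloc s' (by rw [hs3]; exact hnorm s hs) hs'
          refine ⟨B, ?_⟩
          rw [hs3] at hB
          have h2 : Tendsto (fun z => c + z) (𝓝[≠] s) (𝓝[≠] (c + s)) := by
            refine tendsto_nhdsWithin_iff.mpr ⟨?_, ?_⟩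
            · exact ((continuous_const.add continuous_id).tendsto s).mono_left nhdsWithin_le_nhds
            · filter_upwards [self_mem_nhdsWithin] with z hz h3
              exact hz (add_left_cancel h3)
          exact h2.eventually hB)
  rw [hwt, add_zero] at h1
  exact h1

end Pool.Agent.H92.GGL

end

section

/-!
# The main inequality on a punctured disc
-/

open Complex MeasureTheory Metric Set Topology Filter

namespace Pool.Agent.H92.GGL

open Pool.Agent.H17

variable {ι : Type} [Fintype ι]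

/-- Local boundedness of the weight. -/
lemma wt_bounded_of_orders [Nonempty ι] {κ α : ℝ} {β : ι → ℝ} {u : ι → ℂ → ℂ} {g : ℂ → ℂ} {s : ℂ}
    (hκ : 0 < κ) (hα : 0 ≤ α) (hu : ∀ i, MeromorphicAt (u i) s)
    (huo : ∀ i, meromorphicOrderAt (u i) s ≠ ⊤) (hg : MeromorphicAt g s)
    (hgo : meromorphicOrderAt g s ≠ ⊤)
    (hloc : ∀ j, 0 ≤ 2 * (ordZ g s : ℝ) - ∑ i, β i * ordZ (u i) s + κ * α * ordZ (u j) s) :
    ∃ B, ∀ᶠ z in 𝓝[≠] s, wt κ α β u g z ≤ B := by
  choose h hh hh0 hue using fun i => (meromorphicOrderAt_ne_top_iff (hu i)).mp (huo i)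
  obtain ⟨h', hh', -, hge⟩ := (meromorphicOrderAt_ne_top_iff hg).mp hgo
  obtain ⟨j, -, hj⟩ := (Finset.univ : Finset ι).exists_min_image (fun i => ordZ (u i) s)
    Finset.univ_nonempty
  -- bounds for the units
  have hb : ∀ (f : ℂ → ℝ), ContinuousAt f s → ∃ B : ℝ, 0 ≤ B ∧ ∀ᶠ z in 𝓝[≠] s, f z ≤ B := by
    intro f hf
    refine ⟨|f s| + 1, by positivity, ?_⟩
    have h1 : ∀ᶠ z in 𝓝 s, f z < |f s| + 1 := hf.eventually_lt continuousAt_const (by
      have := le_abs_self (f s)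
      linarith)
    filter_upwards [mem_nhdsWithin_of_mem_nhds h1] with z hz using (le_of_lt hz)
  obtain ⟨Bg, hBg0, hBg⟩ := hb (fun z => ‖h' z‖) hh'.continuousAt.norm
  choose Bu hBu0 hBu using fun i => hb (fun z => ‖h i z‖ ^ κ)
    ((hh i).continuousAt.norm.rpow_const (Or.inl (norm_ne_zero_iff.mpr (hh0 i))))
  choose Bβ hBβ0 hBβ using fun i => hb (fun z => ‖h i z‖ ^ (-(β i)))
    ((hh i).continuousAt.norm.rpow_const (Or.inl (norm_ne_zero_iff.mpr (hh0 i))))
  refine ⟨Bg ^ 2 * (∑ i, Bu i) ^ α * ∏ i, Bβ i, ?_⟩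
  have hball : ∀ᶠ z in 𝓝[≠] s, ‖z - s‖ ≤ 1 := by
    have : ∀ᶠ z in 𝓝 s, z ∈ Metric.closedBall s 1 := Metric.closedBall_mem_nhds s one_pos
    filter_upwards [mem_nhdsWithin_of_mem_nhds this] with z hz
    rwa [mem_closedBall_iff_norm] at hz
  filter_upwards [hBg, eventually_all.mpr hBu, eventually_all.mpr hBβ, eventually_all.mpr hue, hge,
    hball, self_mem_nhdsWithin] with z h1 h2 h3 h4 h5 h6 h7
  have hzs : 0 < ‖z - s‖ := norm_pos_iff.mpr (sub_ne_zero.mpr h7)
  set x : ℝ := ‖z - s‖ with hx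
  have hnorm : ∀ i, ‖u i z‖ = x ^ (ordZ (u i) s : ℝ) * ‖h i z‖ := by
    intro i
    rw [h4 i, smul_eq_mul, norm_mul, norm_zpow, Real.rpow_intCast]
    rfl
  have hnormg : ‖g z‖ = x ^ (ordZ g s : ℝ) * ‖h' z‖ := by
    rw [h5, smul_eq_mul, norm_mul, norm_zpow, Real.rpow_intCast]
    rfl
  have hBusum : 0 ≤ ∑ i, Bu i := Finset.sum_nonneg fun i _ => hBu0 i
  -- the power sum
  have hU : powSum κ u z ≤ x ^ (κ * ordZ (u j) s : ℝ) * ∑ i, Bu i := by
    unfold powSum
    rw [Finset.mul_sum]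
    refine Finset.sum_le_sum fun i _ => ?_
    rw [hnorm, Real.mul_rpow (by positivity) (by positivity), ← Real.rpow_mul hzs.le]
    have h8 : x ^ ((ordZ (u i) s : ℝ) * κ) ≤ x ^ (κ * ordZ (u j) s : ℝ) := by
      apply Real.rpow_le_rpow_of_exponent_ge hzs h6
      have h9 : (ordZ (u j) s : ℝ) ≤ ordZ (u i) s := by exact_mod_cast hj i (Finset.mem_univ i)
      nlinarith only [hκ, h9]
    have := h2 i
    gcongr
  have hUα : powSum κ u z ^ α ≤ x ^ (κ * ordZ (u j) s * α : ℝ) * (∑ i, Bu i) ^ α := by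
    calc powSum κ u z ^ α ≤ (x ^ (κ * ordZ (u j) s : ℝ) * ∑ i, Bu i) ^ α :=
          Real.rpow_le_rpow (powSum_nonneg _ _ _) hU hα
      _ = _ := by
        rw [Real.mul_rpow (by positivity) hBusum, ← Real.rpow_mul hzs.le]
  have hprod : ∏ i, ‖u i z‖ ^ (-(β i)) ≤ x ^ (-∑ i, β i * ordZ (u i) s) * ∏ i, Bβ i := by
    have h8 : x ^ (-∑ i, β i * ordZ (u i) s) = ∏ i, x ^ (-(β i * ordZ (u i) s)) := by
      rw [← Finset.sum_neg_distrib, Real.rpow_sum_of_pos hzs]
    rw [h8, ← Finset.prod_mul_distrib]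
    refine Finset.prod_le_prod (fun i _ => by positivity) fun i _ => ?_
    rw [hnorm, Real.mul_rpow (by positivity) (by positivity), ← Real.rpow_mul hzs.le]
    have h9 : (ordZ (u i) s : ℝ) * -(β i) = -(β i * ordZ (u i) s) := by ring
    rw [h9]
    have := h3 i
    gcongr
  have hg2 : ‖g z‖ ^ 2 ≤ x ^ (2 * ordZ g s : ℝ) * Bg ^ 2 := by
    rw [hnormg, mul_pow, ← Real.rpow_natCast (x ^ (ordZ g s : ℝ)), ← Real.rpow_mul hzs.le]
    have h8 : (ordZ g s : ℝ) * ((2 : ℕ) : ℝ) = 2 * ordZ g s := by push_cast; ring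
    rw [h8]
    gcongr
  have hprodnn : 0 ≤ ∏ i, ‖u i z‖ ^ (-(β i)) := Finset.prod_nonneg fun i _ => by positivity
  have hBβnn : 0 ≤ ∏ i, Bβ i := Finset.prod_nonneg fun i _ => hBβ0 i
  have hUnn := powSum_nonneg κ u z
  unfold wt
  calc ‖g z‖ ^ 2 * powSum κ u z ^ α * ∏ i, ‖u i z‖ ^ (-(β i))
      ≤ (x ^ (2 * ordZ g s : ℝ) * Bg ^ 2) * (x ^ (κ * ordZ (u j) s * α : ℝ) * (∑ i, Bu i) ^ α) *
        (x ^ (-∑ i, β i * ordZ (u i) s) * ∏ i, Bβ i) := by gcongr
    _ = x ^ (2 * ordZ g s + κ * ordZ (u j) s * α + -∑ i, β i * ordZ (u i) s) *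
        (Bg ^ 2 * (∑ i, Bu i) ^ α * ∏ i, Bβ i) := by
        rw [Real.rpow_add hzs, Real.rpow_add hzs]
        ring
    _ ≤ 1 * (Bg ^ 2 * (∑ i, Bu i) ^ α * ∏ i, Bβ i) := by
        have h8 : x ^ (2 * ordZ g s + κ * ordZ (u j) s * α + -∑ i, β i * ordZ (u i) s : ℝ) ≤ 1 := by
          apply Real.rpow_le_one hzs.le h6
          have := hloc j
          linarith
        have h9 : 0 ≤ (∑ i, Bu i) ^ α := Real.rpow_nonneg hBusum _
        gcongr
    _ = _ := one_mul _

/-- A set without accumulation points in a compact set has finitely many points there. -/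
lemma finite_of_isolated {K P : Set ℂ} (hK : IsCompact K) (h : ∀ z ∈ K, ∀ᶠ w in 𝓝[≠] z, w ∉ P) :
    (K ∩ P).Finite := by
  classical
  have h1 : ∀ z ∈ K, {w | w ≠ z → w ∉ P} ∈ 𝓝 z := by
    intro z hz
    exact eventually_nhdsWithin_iff.mp (h z hz)
  obtain ⟨t, -, ht⟩ := hK.elim_nhds_subcover (fun z => {w | w ≠ z → w ∉ P}) h1
  refine t.finite_toSet.subset ?_
  rintro w ⟨hwK, hwP⟩
  obtain ⟨z, hz, hwz⟩ := Set.mem_iUnion₂.mp (ht hwK)
  by_contra hwt
  refine hwz ?_ hwP
  rintro rfl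
  exact hwt hz

/-- **Main inequality.**  The functions `u j` have at most polynomial growth at the puncture. -/
theorem growth_of_weights [Nonempty ι] {κ α : ℝ} {β : ι → ℝ} {ρ : ℕ} (hκ : 0 < κ) (hα : 0 < α)
    (hρ : 0 < ρ) {u : ι → ℂ → ℂ} {g : ℂ → ℂ} {R₀ : ℝ} (hR₀ : 0 < R₀)
    (hu : ∀ i z, 0 < ‖z‖ → ‖z‖ < R₀ → MeromorphicAt (u i) z)
    (huo : ∀ i z, 0 < ‖z‖ → ‖z‖ < R₀ → meromorphicOrderAt (u i) z ≠ ⊤)
    (hg : ∀ z, 0 < ‖z‖ → ‖z‖ < R₀ → MeromorphicAt g z)
    (hgo : ∀ z, 0 < ‖z‖ → ‖z‖ < R₀ → meromorphicOrderAt g z ≠ ⊤)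
    {i₀ : ι} (hone : ∀ z, u i₀ z ≠ 0 → u i₀ z = 1) {C : ℝ} (hC : 0 ≤ C)
    (hbound : ∀ z, 0 < ‖z‖ → ‖z‖ < R₀ → (∀ i, AnalyticAt ℂ (u i) z ∧ u i z ≠ 0) →
      AnalyticAt ℂ g z ∧ wt κ α β u g z ≤ C * powVar κ u z ^ ρ)
    (hloc : ∀ s, 0 < ‖s‖ → ‖s‖ < R₀ → ∀ j,
      0 ≤ 2 * (ordZ g s : ℝ) - ∑ i, β i * ordZ (u i) s + κ * α * ordZ (u j) s) (j : ι) :
    ∃ (ε M : ℝ) (m : ℕ), 0 < ε ∧ 0 ≤ M ∧ ∀ z, 0 < ‖z‖ → ‖z‖ < ε →
      0 ≤ meromorphicOrderAt (u j) z ∧ (AnalyticAt ℂ (u j) z → ‖u j z‖ * ‖z‖ ^ m ≤ M) := by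
  classical
  set R₁ : ℝ := R₀ / 2 with hR₁
  have hR₁0 : 0 < R₁ := by positivity
  have hR₁R₀ : R₁ < R₀ := by linarith only [hR₁, hR₁0]
  -- the bad set
  set Bad : Set ℂ := {z | ¬ ∀ i, AnalyticAt ℂ (u i) z ∧ u i z ≠ 0} with hBad
  have hgood : ∀ z, z ∉ Bad ↔ ∀ i, AnalyticAt ℂ (u i) z ∧ u i z ≠ 0 := by
    intro z
    rw [hBad, mem_ofPred_eq, not_not]
  have hiso : ∀ z, 0 < ‖z‖ → ‖z‖ < R₀ → ∀ᶠ w in 𝓝[≠] z, w ∉ Bad := by
    intro z h1 h2
    have h3 : ∀ i, ∀ᶠ w in 𝓝[≠] z, AnalyticAt ℂ (u i) w ∧ u i w ≠ 0 := fun i =>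
      (hu i z h1 h2).eventually_analyticAt.and
        ((meromorphicOrderAt_ne_top_iff_eventually_ne_zero (hu i z h1 h2)).mp (huo i z h1 h2))
    filter_upwards [eventually_all.mpr h3] with w hw
    exact (hgood w).mpr hw
  have hord0 : ∀ z, 0 < ‖z‖ → ‖z‖ < R₀ → ordZ (u i₀) z = 0 := by
    intro z h1 h2
    have h3 : u i₀ =ᶠ[𝓝[≠] z] fun _ => (1 : ℂ) := by
      filter_upwards [(meromorphicOrderAt_ne_top_iff_eventually_ne_zero (hu i₀ z h1 h2)).mp
        (huo i₀ z h1 h2)] with w hw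
      exact hone w hw
    unfold ordZ
    rw [meromorphicOrderAt_congr h3, meromorphicOrderAt_const]
    simp
  -- the pointwise estimate
  set C₁ : ℝ := max (C * (8 * ρ / (α * κ ^ 2)) ^ ρ) 1 with hC₁
  have hC₁pos : 0 < C₁ := lt_of_lt_of_le one_pos (le_max_right _ _)
  have hpoint : ∀ z, 0 < ‖z‖ → ‖z‖ < R₁ → z ∉ Bad →
      wt κ α β u g z * (‖z‖ / 2) ^ (2 * ρ) ≤ C₁ := by
    intro z h1 h2 hz
    have hball : ∀ w, ‖w - z‖ ≤ ‖z‖ / 2 → 0 < ‖w‖ ∧ ‖w‖ < R₀ := by
      intro w hw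
      have h3 : ‖z‖ ≤ ‖w‖ + ‖w - z‖ := by
        have := norm_sub_le w (w - z)
        simpa using this
      have h4 : ‖w‖ ≤ ‖w - z‖ + ‖z‖ := by
        have := norm_add_le (w - z) z
        simpa using this
      constructor <;> linarith only [h1, hw, h3, hR₁, h2, h4]
    have hKc : IsCompact (Metric.closedBall z (‖z‖ / 2)) := isCompact_closedBall _ _
    have hfin : (Metric.closedBall z (‖z‖ / 2) ∩ Bad).Finite := by
      refine finite_of_isolated hKc fun w hw => ?_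
      rw [mem_closedBall_iff_norm] at hw
      exact hiso w (hball w hw).1 (hball w hw).2
    have hnotS : ∀ w, ‖w - z‖ ≤ ‖z‖ / 2 → w ∉ hfin.toFinset → w ∉ Bad := by
      intro w hw hwS hwB
      exact hwS (hfin.mem_toFinset.mpr ⟨by rwa [mem_closedBall_iff_norm], hwB⟩)
    refine (schwarz_disc (r := u) (g := g) (β := β) hκ hα hρ (c := z) (R := ‖z‖ / 2)
      (by positivity) (S := hfin.toFinset) ?_ ?_ ?_ hC ?_ ?_).trans (le_max_left _ _)
    · intro h
      exact hz (hfin.mem_toFinset.mp h).2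
    · intro w hw hwS i
      exact (hgood w).mp (hnotS w hw hwS) i
    · intro w hw hwS
      exact (hbound w (hball w hw).1 (hball w hw).2 ((hgood w).mp (hnotS w hw hwS))).1
    · intro w hw hwS
      exact (hbound w (hball w hw).1 (hball w hw).2 ((hgood w).mp (hnotS w hw hwS))).2
    · intro s hs _
      obtain ⟨h3, h4⟩ := hball s hs
      exact wt_bounded_of_orders hκ hα.le (fun i => hu i s h3 h4) (fun i => huo i s h3 h4)
        (hg s h3 h4) (hgo s h3 h4) (hloc s h3 h4)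
  -- the logarithmic form
  set F₂ : ℂ → ℝ := fun z => (Real.log C₁ + 2 * ρ * Real.log 2 - 2 * ρ * Real.log ‖z‖) +
    (-2 * Real.log ‖g z‖ + ∑ i, β i * Real.log ‖u i z‖) with hF₂
  have hlogF : ∀ z, 0 < ‖z‖ → ‖z‖ < R₁ → z ∉ Bad → g z ≠ 0 →
      α * κ * Real.posLog ‖u j z‖ ≤ F₂ z := by
    intro z h1 h2 hz hgz
    have hne : ∀ i, u i z ≠ 0 := fun i => ((hgood z).mp hz i).2
    have hpos : ∀ i, 0 < ‖u i z‖ := fun i => norm_pos_iff.mpr (hne i)
    have hU : 0 < powSum κ u z := powSum_pos hne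
    have hP : 0 < ∏ i, ‖u i z‖ ^ (-(β i)) := Finset.prod_pos fun i _ =>
      Real.rpow_pos_of_pos (hpos i) _
    have hg0 : 0 < ‖g z‖ := norm_pos_iff.mpr hgz
    have hle : ∀ i, ‖u i z‖ ^ κ ≤ powSum κ u z := fun i =>
      Finset.single_le_sum (f := fun i => ‖u i z‖ ^ κ) (fun i _ => by positivity)
        (Finset.mem_univ i)
    have h3 : κ * Real.posLog ‖u j z‖ ≤ Real.log (powSum κ u z) := by
      have h4 : 0 ≤ Real.log (powSum κ u z) := by
        apply Real.log_nonneg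
        have := hle i₀
        rw [hone z (hne i₀)] at this
        simpa using this
      have h5 : κ * Real.log ‖u j z‖ ≤ Real.log (powSum κ u z) := by
        rw [← Real.log_rpow (hpos j)]
        exact Real.log_le_log (Real.rpow_pos_of_pos (hpos j) _) (hle j)
      rcases le_total 0 (Real.log ‖u j z‖) with h6 | h6
      · rw [Real.posLog_apply, max_eq_right h6]
        exact h5
      · rw [Real.posLog_apply, max_eq_left h6, mul_zero]
        exact h4
    have h7 := hpoint z h1 h2 hz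
    have hw : 0 < wt κ α β u g z := by
      unfold wt
      have := Real.rpow_pos_of_pos hU α
      positivity
    have h8 : Real.log (wt κ α β u g z) + 2 * ρ * (Real.log ‖z‖ - Real.log 2) ≤ Real.log C₁ := by
      have h9 := Real.log_le_log (by positivity) h7
      rw [Real.log_mul hw.ne' (by positivity), Real.log_pow, Real.log_div h1.ne' two_ne_zero] at h9
      push_cast at h9
      exact h9
    have h10 : Real.log (wt κ α β u g z) = 2 * Real.log ‖g z‖ + α * Real.log (powSum κ u z) -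
        ∑ i, β i * Real.log ‖u i z‖ := by
      unfold wt
      rw [Real.log_mul (by positivity) hP.ne', Real.log_mul (by positivity)
        (Real.rpow_pos_of_pos hU α).ne', Real.log_pow, Real.log_rpow hU,
        Real.log_prod (fun i _ => (Real.rpow_pos_of_pos (hpos i) _).ne')]
      have h11 : ∑ i, Real.log (‖u i z‖ ^ (-(β i))) = -∑ i, β i * Real.log ‖u i z‖ := by
        rw [← Finset.sum_neg_distrib]
        refine Finset.sum_congr rfl fun i _ => ?_
        rw [Real.log_rpow (hpos i)]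
        ring
      rw [h11]
      push_cast
      ring
    have h12 : α * (κ * Real.posLog ‖u j z‖) ≤ α * Real.log (powSum κ u z) :=
      mul_le_mul_of_nonneg_left h3 hα.le
    simp only [hF₂]
    rw [h10] at h8
    nlinarith only [h8, h12]
  -- Jensen's formula
  obtain ⟨Ag, Bg, hJg⟩ := jensen_punctured hR₁R₀ hg hgo
  choose Au Bu hJu using fun i => jensen_punctured hR₁R₀ (hu i) (huo i)
  set c₀ : ℝ := Real.log C₁ + 2 * ρ * Real.log 2 - 2 * Ag + ∑ i, β i * Au i with hc₀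
  set d₀ : ℝ := 2 * ρ + 2 * Bg - ∑ i, β i * Bu i with hd₀
  have hακ : 0 < α * κ := mul_pos hα hκ
  refine growth_of_char hR₁0 hR₁R₀ (hu j) (C := c₀ / (α * κ)) (D := d₀ / (α * κ)) ?_
  intro r hr1 hr2 S hS
  have hsph : ∀ z ∈ sphere (0 : ℂ) |r|, 0 < ‖z‖ ∧ ‖z‖ < R₀ ∧ ‖z‖ < R₁ ∧ ‖z‖ = r := by
    intro z hz
    rw [mem_sphere_zero_iff_norm, abs_of_pos hr1] at hz
    rw [hz]
    exact ⟨hr1, hr2.trans hR₁R₀, hr2, rfl⟩
  have hmu : ∀ i, MeromorphicOn (u i) (sphere 0 |r|) := fun i z hz =>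
    hu i z (hsph z hz).1 (hsph z hz).2.1
  have hmg : MeromorphicOn g (sphere 0 |r|) := fun z hz => hg z (hsph z hz).1 (hsph z hz).2.1
  -- integrability
  have hIu : ∀ i, CircleIntegrable (fun z => Real.log ‖u i z‖) 0 r := fun i =>
    MeromorphicOn.circleIntegrable_log_norm (hmu i)
  have hIg : CircleIntegrable (fun z => Real.log ‖g z‖) 0 r :=
    MeromorphicOn.circleIntegrable_log_norm hmg
  have hIz : CircleIntegrable (fun z => Real.log ‖z‖) 0 r := by
    have := circleIntegrable_log_norm_sub_const (a := (0 : ℂ)) (c := 0) r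
    simpa using this
  have hIp : CircleIntegrable (fun z => Real.posLog ‖u j z‖) 0 r :=
    MeromorphicOn.circleIntegrable_posLog_norm (hmu j)
  have hI1 : CircleIntegrable (fun z : ℂ => Real.log C₁ + 2 * ρ * Real.log 2 -
      2 * ρ * Real.log ‖z‖) 0 r := by
    refine CircleIntegrable.fun_sub (circleIntegrable_const _ _ _) ?_
    exact hIz.const_fun_smul (a := (2 * ρ : ℝ))
  have hI2 : CircleIntegrable (fun z => -2 * Real.log ‖g z‖) 0 r := hIg.const_fun_smul (a := (-2 : ℝ))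
  have hI3' : ∀ i ∈ (Finset.univ : Finset ι),
      CircleIntegrable (fun z => β i * Real.log ‖u i z‖) 0 r := fun i _ =>
    (hIu i).const_fun_smul (a := β i)
  have hI3 : CircleIntegrable (fun z => ∑ i, β i * Real.log ‖u i z‖) 0 r :=
    CircleIntegrable.fun_sum _ hI3'
  have hIF₂ : CircleIntegrable F₂ 0 r := hI1.fun_add (hI2.fun_add hI3)
  -- the mean of the right-hand side
  have hmean : Real.circleAverage F₂ 0 r = (Real.log C₁ + 2 * ρ * Real.log 2 -
      2 * ρ * Real.log r) + (-2 * Real.circleAverage (fun z => Real.log ‖g z‖) 0 r +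
        ∑ i, β i * Real.circleAverage (fun z => Real.log ‖u i z‖) 0 r) := by
    simp only [hF₂]
    rw [Real.circleAverage_fun_add hI1 (hI2.fun_add hI3), Real.circleAverage_fun_add hI2 hI3,
      Real.circleAverage_fun_sum hI3']
    congr 1
    · apply Real.circleAverage_const_on_circle
      intro z hz
      rw [(hsph z hz).2.2.2]
    · congr 1
      · exact Real.circleAverage_fun_smul (a := (-2 : ℝ)) (f := fun z => Real.log ‖g z‖)
      · refine Finset.sum_congr rfl fun i _ => ?_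
        exact Real.circleAverage_fun_smul (a := β i) (f := fun z => Real.log ‖u i z‖)
  -- comparison of the means
  have hcomp : α * κ * Real.circleAverage (fun z => Real.posLog ‖u j z‖) 0 r ≤
      Real.circleAverage F₂ 0 r := by
    have h1 : α * κ * Real.circleAverage (fun z => Real.posLog ‖u j z‖) 0 r =
        Real.circleAverage (fun z => α * κ * Real.posLog ‖u j z‖) 0 r :=
      (Real.circleAverage_fun_smul (a := (α * κ : ℝ)) (f := fun z => Real.posLog ‖u j z‖)).symm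
    have hIp' : CircleIntegrable (fun z => α * κ * Real.posLog ‖u j z‖) 0 r :=
      hIp.const_fun_smul (a := (α * κ : ℝ))
    set f₁ : ℂ → ℝ := fun z => if z ∈ Bad ∨ g z = 0 then F₂ z else α * κ * Real.posLog ‖u j z‖
      with hf₁
    have hev : (fun z => α * κ * Real.posLog ‖u j z‖) =ᶠ[codiscreteWithin (sphere 0 |r|)] f₁ := by
      rw [Filter.EventuallyEq, eventually_iff, mem_codiscreteWithin]
      intro z hz
      rw [disjoint_principal_right]
      obtain ⟨h2, h3, -⟩ := hsph z hz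
      filter_upwards [hiso z h2 h3, (meromorphicOrderAt_ne_top_iff_eventually_ne_zero
        (hg z h2 h3)).mp (hgo z h2 h3)] with w hw1 hw2
      rintro ⟨-, hw3⟩
      apply hw3
      rw [mem_ofPred_eq]
      simp only [hf₁]
      rw [if_neg]
      rintro (h | h)
      · exact hw1 h
      · exact hw2 h
    rw [h1, Real.circleAverage_congr_codiscreteWithin hev hr1.ne']
    refine Real.circleAverage_mono (hIp'.congr_codiscreteWithin hev) hIF₂ ?_
    intro z hz
    obtain ⟨h2, h3, h4, -⟩ := hsph z hz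
    simp only [hf₁]
    split_ifs with h5
    · exact le_rfl
    · rw [not_or] at h5
      exact hlogF z h2 h4 h5.1 h5.2
  -- the set of all relevant points
  have hfing := finite_ordZ (a := r) (b := R₁) hr1 hR₁R₀ hg
  have hfinu := fun i => finite_ordZ (a := r) (b := R₁) hr1 hR₁R₀ (hu i)
  set S' : Finset ℂ := S ∪ (hfing.toFinset ∪ Finset.univ.biUnion fun i =>
    (hfinu i).toFinset).filter (fun s => ‖s‖ < R₁) with hS'
  have hS'1 : ∀ s ∈ S', 0 < ‖s‖ ∧ ‖s‖ < R₁ := by
    intro s hs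
    rw [hS', Finset.mem_union, Finset.mem_filter, Finset.mem_union, Finset.mem_biUnion,
      hfing.mem_toFinset] at hs
    rcases hs with hs | ⟨hs | ⟨i, -, hs⟩, hs2⟩
    · exact hS s hs
    · exact ⟨hr1.trans_le hs.1, hs2⟩
    · rw [(hfinu i).mem_toFinset] at hs
      exact ⟨hr1.trans_le hs.1, hs2⟩
  have hS'g : ∀ s, r < ‖s‖ → ‖s‖ < R₁ → ordZ g s ≠ 0 → s ∈ S' := by
    intro s h3 h4 h5
    rw [hS', Finset.mem_union, Finset.mem_filter, Finset.mem_union, hfing.mem_toFinset]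
    exact Or.inr ⟨Or.inl ⟨h3.le, h4.le, h5⟩, h4⟩
  have hS'u : ∀ i s, r < ‖s‖ → ‖s‖ < R₁ → ordZ (u i) s ≠ 0 → s ∈ S' := by
    intro i s h3 h4 h5
    rw [hS', Finset.mem_union, Finset.mem_filter, Finset.mem_union, Finset.mem_biUnion]
    exact Or.inr ⟨Or.inr ⟨i, Finset.mem_univ i, (hfinu i).mem_toFinset.mpr ⟨h3.le, h4.le, h5⟩⟩, h4⟩
  have hJg' := hJg r hr1 hr2 S' (fun s hs => (hS'1 s hs).2) hS'g
  have hJu' := fun i => hJu i r hr1 hr2 S' (fun s hs => (hS'1 s hs).2) (hS'u i)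
  -- the sum over the points
  have hsum : ∑ s ∈ S', (-(2 * (ordZ g s : ℝ)) + ∑ i, β i * ordZ (u i) s) *
      Real.posLog (‖s‖ / r) ≤ -(α * κ * ∑ s ∈ S', max (-(ordZ (u j) s : ℝ)) 0 *
        Real.posLog (‖s‖ / r)) := by
    rw [Finset.mul_sum, ← Finset.sum_neg_distrib]
    refine Finset.sum_le_sum fun s hs => ?_
    obtain ⟨h3, h4⟩ := hS'1 s hs
    have h5 := hloc s h3 (h4.trans hR₁R₀) j
    have h6 := hloc s h3 (h4.trans hR₁R₀) i₀
    rw [hord0 s h3 (h4.trans hR₁R₀)] at h6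
    have h7 : (0 : ℝ) ≤ Real.posLog (‖s‖ / r) := Real.posLog_nonneg
    have h8 : -(2 * (ordZ g s : ℝ)) + ∑ i, β i * ordZ (u i) s ≤
        -(α * κ * max (-(ordZ (u j) s : ℝ)) 0) := by
      rcases le_total (-(ordZ (u j) s : ℝ)) 0 with h | h
      · rw [max_eq_right h]
        push_cast at h6
        linarith only [h6]
      · rw [max_eq_left h]
        linarith only [h5]
    calc (-(2 * (ordZ g s : ℝ)) + ∑ i, β i * ordZ (u i) s) * Real.posLog (‖s‖ / r)
        ≤ -(α * κ * max (-(ordZ (u j) s : ℝ)) 0) * Real.posLog (‖s‖ / r) :=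
          mul_le_mul_of_nonneg_right h8 h7
      _ = _ := by ring
  have hmono : ∑ s ∈ S, max (-(ordZ (u j) s : ℝ)) 0 * Real.posLog (‖s‖ / r) ≤
      ∑ s ∈ S', max (-(ordZ (u j) s : ℝ)) 0 * Real.posLog (‖s‖ / r) := by
    refine Finset.sum_le_sum_of_subset_of_nonneg Finset.subset_union_left ?_
    intro s _ _
    exact mul_nonneg (le_max_right _ _) Real.posLog_nonneg
  have htotal : Real.circleAverage F₂ 0 r = c₀ - d₀ * Real.log r +
      ∑ s ∈ S', (-(2 * (ordZ g s : ℝ)) + ∑ i, β i * ordZ (u i) s) * Real.posLog (‖s‖ / r) := by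
    rw [hmean, hJg']
    simp_rw [hJu']
    have e1 : ∑ s ∈ S', (-(2 * (ordZ g s : ℝ)) + ∑ i, β i * ordZ (u i) s) *
        Real.posLog (‖s‖ / r) = -2 * (∑ s ∈ S', (ordZ g s : ℝ) * Real.posLog (‖s‖ / r)) +
        ∑ i, β i * ∑ s ∈ S', (ordZ (u i) s : ℝ) * Real.posLog (‖s‖ / r) := by
      simp only [add_mul, Finset.sum_add_distrib, Finset.mul_sum, Finset.sum_mul]
      congr 1
      · exact Finset.sum_congr rfl fun s _ => by ring
      · rw [Finset.sum_comm]
        exact Finset.sum_congr rfl fun i _ => Finset.sum_congr rfl fun s _ => by ring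
    rw [e1, hc₀, hd₀]
    simp only [mul_add, Finset.sum_add_distrib, sub_mul, add_mul]
    have e2 : ∑ i, β i * (Bu i * Real.log r) = (∑ i, β i * Bu i) * Real.log r := by
      rw [Finset.sum_mul]
      exact Finset.sum_congr rfl fun i _ => by ring
    rw [e2]
    ring
  have hfinal : α * κ * (Real.circleAverage (fun z => Real.posLog ‖u j z‖) 0 r +
      ∑ s ∈ S, max (-(ordZ (u j) s : ℝ)) 0 * Real.posLog (‖s‖ / r)) ≤ c₀ - d₀ * Real.log r := by
    rw [mul_add]
    have := mul_le_mul_of_nonneg_left hmono hακ.le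
    linarith only [hcomp, hsum, htotal, this]
  have h9 : c₀ / (α * κ) - d₀ / (α * κ) * Real.log r = (c₀ - d₀ * Real.log r) / (α * κ) := by
    field_simp
  rw [h9, le_div_iff₀ hακ, mul_comm]
  exact hfinal

end Pool.Agent.H92.GGL

end

section

/-!
# Bounds for the coordinate derivations at a prime divisor
-/

open Pool.Agent.H23 (RatForm regularForms PrimeDivisorOver dualDer dualDer_apply)

noncomputable section

namespace Pool.Agent.H92.GT

variable {K : Type} [Field K] [Algebra ℂ K] {k : ℕ}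

/-- Cramer's rule for the change of coordinates. -/
lemma det_mul_dualDer (b bE : Module.Basis (Fin (k + 1)) K Ω[K⁄ℂ]) (a : Fin (k + 1)) (f : K) :
    (bE.toMatrix b).det * dualDer b a f =
      ((bE.toMatrix b).updateCol a fun i => dualDer bE i f).det := by
  have h1 : (fun i => dualDer bE i f) = (bE.toMatrix b).mulVec fun j => dualDer b j f := by
    funext i
    rw [Matrix.mulVec, dotProduct]
    have h2 : KaehlerDifferential.D ℂ K f = ∑ j, dualDer b j f • b j := by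
      conv_lhs => rw [← b.sum_repr (KaehlerDifferential.D ℂ K f)]
      rfl
    rw [dualDer_apply, h2, map_sum, Finsupp.finsetSum_apply]
    refine Finset.sum_congr rfl fun j _ => ?_
    rw [map_smul, Finsupp.smul_apply, smul_eq_mul, mul_comm]
    rfl
  rw [h1, ← Matrix.cramer_apply, Matrix.cramer_eq_adjugate_mulVec, Matrix.mulVec_mulVec,
    Matrix.adjugate_mul, Matrix.smul_mulVec, Matrix.one_mulVec]
  rfl

/-- The loss of the coordinate derivations. -/
def loss (k n : ℕ) : ℕ := if k = 0 then 0 else n * (k + 1)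

section

variable {v : AddValuation K (WithTop ℤ)} {g₀ : K} {b bE : Module.Basis (Fin (k + 1)) K Ω[K⁄ℂ]}
  {z : Fin (k + 1) → K}

/-- The regular bound. -/
lemma localDer_nonneg (hreg : ∀ i f, 0 ≤ v f → 0 ≤ v (dualDer bE i f))
    (hb : ∀ i, b i = KaehlerDifferential.D ℂ K (z i)) {a : Fin (k + 1)}
    (hz : ∀ j, j ≠ a → 0 ≤ v (z j)) {f : K} (hf : 0 ≤ v f) :
    0 ≤ v ((bE.toMatrix b).det * dualDer b a f) := by
  rw [det_mul_dualDer]
  have h1 := val_det_ge v ((bE.toMatrix b).updateCol a fun i => dualDer bE i f) (fun _ => 0)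
    (fun _ => 0) (by
      intro i j
      rw [add_zero]
      change (0 : WithTop ℤ) ≤ _
      by_cases hj : j = a
      · rw [hj, Matrix.updateCol_self]
        exact hreg i f hf
      · rw [Matrix.updateCol_ne hj]
        have h2 : bE.toMatrix b i j = dualDer bE i (z j) := by
          rw [Module.Basis.toMatrix_apply, hb j]
          rfl
        rw [h2]
        exact hreg i _ (hz j hj))
  simpa using h1

/-- The logarithmic bound. -/
lemma localDer_log (hg₀ : v g₀ = 1) (hlog : ∀ i, i ≠ 0 → ∀ f, v f ≤ v (dualDer bE i f))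
    (hlog0 : ∀ f, v f ≤ v (g₀ * dualDer bE 0 f))
    (hb : ∀ i, b i = KaehlerDifferential.D ℂ K (z i)) {a : Fin (k + 1)} {n : ℕ}
    (hz : ∀ j, ((-(n : ℤ) : ℤ) : WithTop ℤ) ≤ v (z j)) {f : K} {m : ℤ}
    (hf : ((m : ℤ) : WithTop ℤ) ≤ v f) :
    ((m - 1 - n * k : ℤ) : WithTop ℤ) ≤ v ((bE.toMatrix b).det * dualDer b a f) := by
  rw [det_mul_dualDer]
  have hstep : ∀ i (h : K) (l : ℤ), ((l : ℤ) : WithTop ℤ) ≤ v h →
      (((if i = 0 then -1 else 0) + l : ℤ) : WithTop ℤ) ≤ v (dualDer bE i h) := by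
    intro i h l hl
    by_cases hi : i = 0
    · rw [if_pos hi, hi]
      have h1 := hl.trans (hlog0 h)
      rw [v.map_mul, hg₀] at h1
      induction hx : v (dualDer bE 0 h) using WithTop.recTopCoe with
      | top => exact le_top
      | coe c =>
        rw [hx] at h1
        have h2 : l ≤ 1 + c := by exact_mod_cast h1
        exact_mod_cast (by omega : -1 + l ≤ c)
    · rw [if_neg hi, zero_add]
      exact hl.trans (hlog i hi h)
  have h1 := val_det_ge v ((bE.toMatrix b).updateCol a fun i => dualDer bE i f)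
    (fun i => if i = 0 then -1 else 0) (fun j => if j = a then m else -(n : ℤ)) (by
      intro i j
      by_cases hj : j = a
      · rw [hj, Matrix.updateCol_self, if_pos rfl]
        exact hstep i f m hf
      · rw [Matrix.updateCol_ne hj, if_neg hj]
        have h2 : bE.toMatrix b i j = dualDer bE i (z j) := by
          rw [Module.Basis.toMatrix_apply, hb j]
          rfl
        rw [h2]
        exact hstep i _ _ (hz j))
  refine le_trans (le_of_eq ?_) h1
  congr 1
  rw [Finset.sum_ite_eq' Finset.univ (0 : Fin (k + 1)), if_pos (Finset.mem_univ _)]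
  have h3 : ∑ j : Fin (k + 1), (if j = a then m else -(n : ℤ)) =
      ∑ j : Fin (k + 1), ((if j = a then m + n else 0) + -(n : ℤ)) := by
    refine Finset.sum_congr rfl fun j _ => ?_
    split_ifs <;> ring
  rw [h3, Finset.sum_add_distrib, Finset.sum_ite_eq' Finset.univ a, if_pos (Finset.mem_univ _),
    Finset.sum_const, Finset.card_univ, Fintype.card_fin, nsmul_eq_mul]
  push_cast
  ring

/-- The combined bounds. -/
lemma localDer_loss (hg₀ : v g₀ = 1) (hreg : ∀ i f, 0 ≤ v f → 0 ≤ v (dualDer bE i f))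
    (hlog : ∀ i, i ≠ 0 → ∀ f, v f ≤ v (dualDer bE i f))
    (hlog0 : ∀ f, v f ≤ v (g₀ * dualDer bE 0 f))
    (hb : ∀ i, b i = KaehlerDifferential.D ℂ K (z i)) (a : Fin (k + 1)) {n : ℕ}
    (hz : ∀ j, ((-(n : ℤ) : ℤ) : WithTop ℤ) ≤ v (z j)) :
    (∀ f, 0 ≤ v f → ((-(loss k n : ℤ) : ℤ) : WithTop ℤ) ≤
      v ((bE.toMatrix b).det * dualDer b a f)) ∧
    ∀ (f : K) (m : ℤ), ((m : ℤ) : WithTop ℤ) ≤ v f →
      ((m - 1 - (loss k n : ℤ) : ℤ) : WithTop ℤ) ≤ v ((bE.toMatrix b).det * dualDer b a f) := by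
  have hle : (n : ℤ) * k ≤ loss k n := by
    unfold loss
    split_ifs with h
    · rw [h]
      simp
    · push_cast
      nlinarith [Nat.cast_nonneg (α := ℤ) n]
  constructor
  · intro f hf
    by_cases hk : k = 0
    · subst hk
      have h1 := localDer_nonneg (a := a) hreg hb (fun j hj => absurd (Fin.ext (by
        have h1 := j.2
        have h2 := a.2
        omega)) hj) hf
      refine le_trans ?_ h1
      unfold loss
      simp
    · by_cases hn : n = 0
      · subst hn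
        have h1 := localDer_nonneg (a := a) hreg hb (fun j _ => by simpa using hz j) hf
        refine le_trans ?_ h1
        unfold loss
        simp
      · have h1 := localDer_log hg₀ hlog hlog0 hb (a := a) hz (f := f) (m := 0) (by simpa using hf)
        refine le_trans ?_ h1
        have h2 : (loss k n : ℤ) = n * (k + 1) := by
          unfold loss
          rw [if_neg hk]
          push_cast
          ring
        rw [h2]
        have h3 : (1 : ℤ) ≤ n := by exact_mod_cast Nat.one_le_iff_ne_zero.mpr hn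
        exact_mod_cast (by nlinarith : -((n : ℤ) * (k + 1)) ≤ 0 - 1 - n * k)
  · intro f m hf
    have h1 := localDer_log hg₀ hlog hlog0 hb (a := a) hz hf
    refine le_trans ?_ h1
    exact_mod_cast (by linarith : m - 1 - (loss k n : ℤ) ≤ m - 1 - (n : ℤ) * k)

end

end Pool.Agent.H92.GT

end
end
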