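import Pool.Agent.H94.DG.M01
import Pool.Agent.H94.DG.M10
import Pool.Agent.H94.DG.M20
import Pool.Agent.H94.DG.M25

/-! The parts of this file: H5.DG.CoreU, H5.DG.NonDeg, H5.DG2.GalInv, H5.DG2.OmgSplit, H5.DG2.Theta, H92.GGL.PicardPrep. -/

section

/-!
# Project DG, C2: the elementary part of the cluster inequality, valuations

Put `n_u = vn ν (t u) ≥ 1` (coordinate `0`), `d_(u,j) = vn ν (t u - toL L (p j))`, `C_j = {u ∈ R : d_(u,j) < 1}`. The `C_j` are disjoint (`p j - p j'` is a
non-zero complex vector, `vn = 1`) and contained in `O` (`toL τ - toL (p j)` is a non-zero complex vector). For `u ∈ C_j`: `n_u = 1`. For `u ∉ C_j`: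
`d_(u,j) ≥ n_u`. So (`h1`, `h2`) `∏_{u ∈ C_j} d_(u,j) ≤ A j` (1), in particular `A j = 1` if `C_j = ∅`. Upper bounds: `u ∈ C_j`:
`ν (dot (t u) w) ≤ max (ν (dot (p j) w)) (d_(u,j) * vn ν w) ≤ lam * max (A j) (d_(u,j))`; other `u ∈ O`: `ν (dot (t u) w) ≤ n_u * lam`. And
`∏_{u ∈ C_j} max (A j) (d_(u,j)) ≤ A j` (if one of the maxima is `A j`, the other factors are `≤ 1`; otherwise (1)). Multiply, and use
`a * ∏_{u ∈ O, in no C_j} n_u ≤ a * ∏_{u ∈ R} n_u = 1`.
-/

open MvPolynomial

noncomputable section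

namespace Pool.Agent.H5.DG

section coreUaux

variable {L : Type} [Field L] {Γ₀ : Type} [LinearOrderedCommGroupWithZero Γ₀]
  (ν : Valuation L Γ₀)

private theorem coreU_le_vn {k : ℕ} (x : Fin k → L) (a : Fin k) : ν (x a) ≤ vn ν x :=
  Finset.le_sup (f := fun a => ν (x a)) (Finset.mem_univ a)

private theorem coreU_vn_le {k : ℕ} (x : Fin k → L) (b : Γ₀) (h : ∀ a, ν (x a) ≤ b) :
    vn ν x ≤ b := Finset.sup_le fun a _ => h a

private theorem coreU_vn_comm {k : ℕ} (x y : Fin k → L) : vn ν (x - y) = vn ν (y - x) := by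
  unfold vn
  congr 1
  funext a
  exact ν.map_sub_swap (x a) (y a)

private theorem coreU_vn_tri {k : ℕ} (x y z : Fin k → L) :
    vn ν (x - z) ≤ max (vn ν (x - y)) (vn ν (y - z)) := by
  refine coreU_vn_le ν _ _ fun a => ?_
  have : (x - z) a = (x - y) a + (y - z) a := by simp
  rw [this]
  refine (ν.map_add _ _).trans ?_
  exact max_le_max (coreU_le_vn ν (x - y) a) (coreU_le_vn ν (y - z) a)

private theorem coreU_dot_le {k : ℕ} (x y : Fin k → L) (b c : Γ₀) (hx : ∀ a, ν (x a) ≤ b)
    (hy : ∀ a, ν (y a) ≤ c) : ν (dot x y) ≤ b * c := by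
  unfold dot
  refine ν.map_sum_le fun a _ => ?_
  rw [ν.map_mul]
  exact mul_le_mul' (hx a) (hy a)

end coreUaux

theorem coreU {n : ℕ} {ι : Type} (J : Finset ι) (p : ι → Fin (n + 2) → ℂ)
    (hinj : Set.InjOn p J) (hp0 : ∀ j ∈ J, p j 0 = 1) (T : Finset (Fin (n + 2) → ℂ))
    (hJT : ∀ j ∈ J, p j ∉ T) {L : Type} [Field L] [Algebra ℂ L] {Γ₀ : Type}
    [LinearOrderedCommGroupWithZero Γ₀] (ν : Valuation L Γ₀)
    (hν : ∀ c : ℂ, c ≠ 0 → ν (algebraMap ℂ L c) = 1) (R O : Finset L) (hO : O ⊆ R)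
    (t : L → Fin (n + 2) → L) (a lam : Γ₀) (w : Fin (n + 2) → L) (A : ι → Γ₀)
    (h0 : ∀ u ∈ R, t u 0 = 1) (hT : ∀ u ∈ R, u ∉ O → ∃ τ ∈ T, t u = toL L τ)
    (h1 : a * ∏ u ∈ R, vn ν (t u) = 1)
    (h2 : ∀ j ∈ J, a * ∏ u ∈ R, vn ν (t u - toL L (p j)) ≤ A j) (hA : ∀ j ∈ J, A j ≤ 1)
    (h3 : ∀ j ∈ J, ν (dot (toL L (p j)) w) ≤ lam * A j) (h4 : ∀ a, ν (w a) ≤ lam) :
    a * ∏ u ∈ O, ν (dot (t u) w) ≤ lam ^ O.card * ∏ j ∈ J, A j := by
  classical
  -- complex vectors
  have hcx : ∀ x : Fin (n + 2) → ℂ, vn ν (toL L x) ≤ 1 := by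
    intro x
    refine coreU_vn_le ν _ _ fun b => ?_
    by_cases hx : x b = 0
    · simp [toL, hx]
    · exact (hν _ hx).le
  have hcs : ∀ x y : Fin (n + 2) → ℂ, x ≠ y → ¬ vn ν (toL L x - toL L y) < 1 := by
    intro x y hxy hlt
    obtain ⟨b, hb⟩ := Function.ne_iff.mp hxy
    have h5 := (coreU_le_vn ν (toL L x - toL L y) b).trans_lt hlt
    have h6 : (toL L x - toL L y) b = algebraMap ℂ L (x b - y b) := by simp [toL]
    rw [h6, hν _ (sub_ne_zero.mpr hb)] at h5
    exact lt_irrefl _ h5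
  have hn1 : ∀ u ∈ R, 1 ≤ vn ν (t u) := by
    intro u hu
    have := coreU_le_vn ν (t u) 0
    rwa [h0 u hu, ν.map_one] at this
  have hnle : ∀ u j, vn ν (t u) ≤ max (vn ν (t u - toL L (p j))) 1 := by
    intro u j
    refine coreU_vn_le ν _ _ fun b => ?_
    have h5 : t u b = (t u - toL L (p j)) b + toL L (p j) b := by simp
    rw [h5]
    refine (ν.map_add _ _).trans ?_
    exact max_le_max (coreU_le_vn ν _ b) ((coreU_le_vn ν _ b).trans (hcx _))
  set C : ι → Finset L := fun j => R.filter fun u => vn ν (t u - toL L (p j)) < 1 with hC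
  have hCR : ∀ j, C j ⊆ R := fun j => Finset.filter_subset _ _
  have hCn : ∀ j, ∀ u ∈ C j, vn ν (t u) = 1 := by
    intro j u hu
    have h5 := (Finset.mem_filter.mp hu).2
    refine le_antisymm ?_ (hn1 u (hCR j hu))
    refine (hnle u j).trans ?_
    exact max_le h5.le le_rfl
  have hnC : ∀ j, ∀ u ∈ R, u ∉ C j → vn ν (t u) ≤ vn ν (t u - toL L (p j)) := by
    intro j u hu huC
    have h5 : 1 ≤ vn ν (t u - toL L (p j)) := by
      by_contra hlt
      exact huC (Finset.mem_filter.mpr ⟨hu, not_le.mp hlt⟩)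
    exact (hnle u j).trans (max_le le_rfl h5)
  have hCO : ∀ j ∈ J, C j ⊆ O := by
    intro j hj u hu
    by_contra huO
    obtain ⟨τ, hτ, htu⟩ := hT u (hCR j hu) huO
    have h5 := (Finset.mem_filter.mp hu).2
    rw [htu] at h5
    exact hcs τ (p j) (fun h => hJT j hj (h ▸ hτ)) h5
  have hdisj : ∀ j ∈ J, ∀ j' ∈ J, j ≠ j' → Disjoint (C j) (C j') := by
    intro j hj j' hj' hjj
    rw [Finset.disjoint_left]
    intro u hu hu'
    have h5 := (Finset.mem_filter.mp hu).2
    have h6 := (Finset.mem_filter.mp hu').2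
    refine hcs (p j) (p j') (fun h => hjj (hinj hj hj' h)) ?_
    refine (coreU_vn_tri ν (toL L (p j)) (t u) (toL L (p j'))).trans_lt ?_
    rw [coreU_vn_comm ν (toL L (p j)) (t u)]
    exact max_lt h5 h6
  -- inequality (1)
  have hone : ∀ j ∈ J, ∏ u ∈ C j, vn ν (t u - toL L (p j)) ≤ A j := by
    intro j hj
    refine le_trans ?_ (h2 j hj)
    rw [← Finset.prod_sdiff (hCR j)]
    rw [← Finset.prod_sdiff (hCR j), Finset.prod_congr rfl (hCn j), Finset.prod_const_one,
      mul_one] at h1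
    have h5 : a * ∏ u ∈ R \ C j, vn ν (t u) ≤ a * ∏ u ∈ R \ C j, vn ν (t u - toL L (p j)) := by
      refine mul_le_mul_right ?_ a
      refine Finset.prod_le_prod' fun u hu => ?_
      exact hnC j u (Finset.mem_sdiff.mp hu).1 (Finset.mem_sdiff.mp hu).2
    rw [h1] at h5
    calc ∏ u ∈ C j, vn ν (t u - toL L (p j))
        = 1 * ∏ u ∈ C j, vn ν (t u - toL L (p j)) := (one_mul _).symm
      _ ≤ (a * ∏ u ∈ R \ C j, vn ν (t u - toL L (p j))) * ∏ u ∈ C j, vn ν (t u - toL L (p j)) :=
          mul_le_mul_left h5 _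
      _ = _ := by rw [mul_assoc]
  -- the products of the maxima
  have hmax : ∀ j ∈ J, ∏ u ∈ C j, max (A j) (vn ν (t u - toL L (p j))) ≤ A j := by
    intro j hj
    by_cases hall : ∀ u ∈ C j, A j ≤ vn ν (t u - toL L (p j))
    · refine le_trans (le_of_eq ?_) (hone j hj)
      exact Finset.prod_congr rfl fun u hu => max_eq_right (hall u hu)
    · push Not at hall
      obtain ⟨u, hu, hlt⟩ := hall
      rw [← Finset.mul_prod_erase _ _ hu, max_eq_left hlt.le]
      have h5 : ∏ u ∈ (C j).erase u, max (A j) (vn ν (t u - toL L (p j))) ≤ 1 := by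
        refine Finset.prod_le_one' fun u' hu' => ?_
        exact max_le (hA j hj) ((Finset.mem_filter.mp (Finset.mem_of_mem_erase hu')).2.le)
      calc _ ≤ A j * 1 := mul_le_mul_right h5 _
        _ = A j := mul_one _
  -- upper bounds
  have hub : ∀ j ∈ J, ∀ u ∈ C j, ν (dot (t u) w) ≤ lam * max (A j) (vn ν (t u - toL L (p j))) := by
    intro j hj u hu
    have h5 : dot (t u) w = dot (toL L (p j)) w + dot (t u - toL L (p j)) w := by
      unfold dot
      rw [← Finset.sum_add_distrib]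
      refine Finset.sum_congr rfl fun b _ => ?_
      simp only [Pi.sub_apply]
      ring
    rw [h5]
    refine (ν.map_add _ _).trans ?_
    refine max_le ?_ ?_
    · exact (h3 j hj).trans (mul_le_mul_right (le_max_left _ _) _)
    · rw [mul_comm lam]
      refine (coreU_dot_le ν _ _ _ lam (coreU_le_vn ν _) h4).trans ?_
      exact mul_le_mul_left (le_max_right _ _) _
  have hub2 : ∀ u, ν (dot (t u) w) ≤ lam * vn ν (t u) := by
    intro u
    rw [mul_comm]
    exact coreU_dot_le ν _ _ _ lam (coreU_le_vn ν _) h4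
  set U : Finset L := J.biUnion C with hU
  have hUO : U ⊆ O := by
    intro u hu
    obtain ⟨j, hj, huj⟩ := Finset.mem_biUnion.mp hu
    exact hCO j hj huj
  have hcard : O.card = (O \ U).card + ∑ j ∈ J, (C j).card := by
    rw [← Finset.card_sdiff_add_card_eq_card hUO, hU, Finset.card_biUnion hdisj]
  have hprod : ∏ u ∈ O, ν (dot (t u) w) =
      (∏ u ∈ O \ U, ν (dot (t u) w)) * ∏ j ∈ J, ∏ u ∈ C j, ν (dot (t u) w) := by
    rw [← Finset.prod_sdiff hUO, hU, Finset.prod_biUnion hdisj]
  have hP1 : ∏ u ∈ O \ U, ν (dot (t u) w) ≤ lam ^ (O \ U).card * ∏ u ∈ O \ U, vn ν (t u) := by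
    rw [← Finset.prod_const, ← Finset.prod_mul_distrib]
    exact Finset.prod_le_prod' fun u _ => hub2 u
  have hP2 : ∏ j ∈ J, ∏ u ∈ C j, ν (dot (t u) w) ≤ lam ^ (∑ j ∈ J, (C j).card) * ∏ j ∈ J, A j := by
    rw [← Finset.prod_pow_eq_pow_sum, ← Finset.prod_mul_distrib]
    refine Finset.prod_le_prod' fun j hj => ?_
    calc ∏ u ∈ C j, ν (dot (t u) w)
        ≤ ∏ u ∈ C j, (lam * max (A j) (vn ν (t u - toL L (p j)))) :=
          Finset.prod_le_prod' fun u hu => hub j hj u hu
      _ = lam ^ (C j).card * ∏ u ∈ C j, max (A j) (vn ν (t u - toL L (p j))) := by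
          rw [Finset.prod_mul_distrib, Finset.prod_const]
      _ ≤ lam ^ (C j).card * A j := mul_le_mul_right (hmax j hj) _
  have hP3 : a * ∏ u ∈ O \ U, vn ν (t u) ≤ 1 := by
    rw [← h1]
    refine mul_le_mul_right ?_ a
    refine Finset.prod_le_prod_of_subset_of_one_le' ?_ fun u hu _ => hn1 u hu
    exact (Finset.sdiff_subset).trans hO
  calc a * ∏ u ∈ O, ν (dot (t u) w)
      = a * ((∏ u ∈ O \ U, ν (dot (t u) w)) * ∏ j ∈ J, ∏ u ∈ C j, ν (dot (t u) w)) := by rw [hprod]
    _ ≤ a * ((lam ^ (O \ U).card * ∏ u ∈ O \ U, vn ν (t u)) *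
        (lam ^ (∑ j ∈ J, (C j).card) * ∏ j ∈ J, A j)) :=
        mul_le_mul_right (mul_le_mul' hP1 hP2) _
    _ = (a * ∏ u ∈ O \ U, vn ν (t u)) * (lam ^ O.card * ∏ j ∈ J, A j) := by
        rw [hcard, pow_add]
        ac_rfl
    _ ≤ 1 * (lam ^ O.card * ∏ j ∈ J, A j) := mul_le_mul_left hP3 _
    _ = _ := one_mul _

end Pool.Agent.H5.DG

end
end

section

/-!
# Project DG, B2: nondegeneracy

Let `w ≠ 0` be a complex vector with `N (w; ·) = 0`. Let `g b ∈ ℂ[v][u]` be the coefficient of `λ ^ b` in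
`N (v + λ w; u)`, `b ≥ 1`; its coefficients are homogeneous of degree `κ - b` in `v` (or zero). Suppose `g b ≠ 0`.
`exists_bezout`: `A N + B g_b = R (v) ≠ 0`. For each `u ∈ ℂ` write `N (·; u) = ∏ t_s` (`split`); some `t_s (w) = 0`, and then
`N (·; u)` and `g b (·; u)` vanish on the hyperplane `t_s = 0` (`N (v + λ w; u) = ∏ (t_s v + λ t_s w)`, where the factor `t_s v` does
not involve `λ`), so `R` vanishes on this hyperplane. These hyperplanes are different for different `u` (`t_s 0 = 1`,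
`t_s 1 = u`), and a non-zero polynomial vanishes on finitely many hyperplanes only (restrict to a line `v + x w'` that is
contained in none and on which `R` is not zero; or divisibility by pairwise coprime linear forms). So `g b = 0` for
all `b ≥ 1`: `N (v + λ w; u) = N (v; u)` identically. For `u = p j 1` and all factors `t_s` of `N (·; u)` this gives
`t_s (w) = 0`: choose `v` with `t_s v ≠ 0` for all `s`; `∏ (t_s v + λ t_s w)` is constant in `λ`. In particular
`dot (p j) w = 0` (`mem_Gam_iff`), so `w = 0` by `hspan`.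

(Proof below: only `b = 1` is needed, i.e. `g = ∑ w a * dN a N`.)
-/

open MvPolynomial

noncomputable section

namespace Pool.Agent.H5.DG

variable {n κ : ℕ} {N : Polynomial (PV n)}

/-- the derivative in the direction `w` -/
private def NonDeg_g (w : Fin (n + 2) → ℂ) (N : Polynomial (PV n)) : Polynomial (PV n) :=
  ∑ a, Polynomial.C (MvPolynomial.C (w a)) * dN a N

private lemma NonDeg_val_mul (A B : Polynomial (PV n)) (v : Fin (n + 2) → ℂ) (u : ℂ) :
    val (A * B) v u = val A v u * val B v u := by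
  unfold val atV
  rw [Polynomial.map_mul, Polynomial.eval_mul]

private lemma NonDeg_val_add (A B : Polynomial (PV n)) (v : Fin (n + 2) → ℂ) (u : ℂ) :
    val (A + B) v u = val A v u + val B v u := by
  unfold val atV
  rw [Polynomial.map_add, Polynomial.eval_add]

private lemma NonDeg_val_C (R : PV n) (v : Fin (n + 2) → ℂ) (u : ℂ) :
    val (Polynomial.C R) v u = MvPolynomial.eval v R := by
  unfold val atV
  rw [Polynomial.map_C, Polynomial.eval_C]
  show MvPolynomial.aeval v R = _
  rw [MvPolynomial.aeval_eq_eval]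

private lemma NonDeg_val_g (w v : Fin (n + 2) → ℂ) (u : ℂ) :
    val (NonDeg_g w N) v u = ∑ a, w a * val (dN a N) v u := by
  have h : ∀ s : Finset (Fin (n + 2)),
      val (∑ a ∈ s, Polynomial.C (MvPolynomial.C (w a)) * dN a N) v u =
        ∑ a ∈ s, w a * val (dN a N) v u := by
    intro s
    classical
    induction s using Finset.induction_on with
    | empty =>
      rw [Finset.sum_empty, Finset.sum_empty]
      unfold val atV
      rw [Polynomial.map_zero, Polynomial.eval_zero]
    | insert a s ha ih =>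
      rw [Finset.sum_insert ha, Finset.sum_insert ha, NonDeg_val_add, ih, NonDeg_val_mul,
        NonDeg_val_C, MvPolynomial.eval_C]
  exact h Finset.univ

private lemma NonDeg_val_split {u : ℂ} {t : Fin κ → Fin (n + 2) → ℂ}
    (ht : ∀ w : Fin (n + 2) → ℂ, val N w u = ∏ s, dot (t s) w) (w v : Fin (n + 2) → ℂ) :
    val (NonDeg_g w N) v u =
      ∑ s, dot (t s) w * ∏ s' ∈ Finset.univ.erase s, dot (t s') v := by
  rw [NonDeg_val_g]
  have h1 : ∀ a, w a * val (dN a N) v u =
      ∑ s, w a * (t s a * ∏ s' ∈ Finset.univ.erase s, dot (t s') v) := by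
    intro a
    rw [val_dN_of_split ht a v, Finset.mul_sum]
  simp only [h1]
  rw [Finset.sum_comm]
  refine Finset.sum_congr rfl fun s _ => ?_
  unfold dot
  rw [Finset.sum_mul]
  refine Finset.sum_congr rfl fun a _ => ?_
  ring

private lemma NonDeg_hom (hN : IsNormForm κ N) (w : Fin (n + 2) → ℂ) (i : ℕ) :
    ((NonDeg_g w N).coeff i).IsHomogeneous (κ - 1) := by
  unfold NonDeg_g
  rw [Polynomial.finsetSum_coeff]
  refine MvPolynomial.IsHomogeneous.sum _ _ _ fun a _ => ?_
  rw [Polynomial.coeff_C_mul, coeff_dN]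
  have h1 := (hN.hom i).pderiv (i := a)
  have h2 := (MvPolynomial.isHomogeneous_C (Fin (n + 2)) (w a)).mul h1
  rw [zero_add] at h2
  exact h2

/-- a polynomial that vanishes on infinitely many hyperplanes is zero -/
private lemma NonDeg_hyp (R : PV n)
    (h : ∀ u : ℂ, ∃ τ : Fin (n + 2) → ℂ, τ 0 = 1 ∧ τ 1 = u ∧
      ∀ v : Fin (n + 2) → ℂ, dot τ v = 0 → MvPolynomial.eval v R = 0) : R = 0 := by
  choose τ h0 h1 h2 using h
  set P := MvPolynomial.finSuccEquiv ℂ (n + 1) R with hP
  have hinj : P = 0 → R = 0 := by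
    intro h
    have := (MvPolynomial.finSuccEquiv ℂ (n + 1)).injective (a₁ := R) (a₂ := 0)
    apply this
    rw [map_zero]
    exact h
  apply hinj
  apply Polynomial.eq_zero_of_infinite_isRoot
  set q : ℂ → MvPolynomial (Fin (n + 1)) ℂ :=
    fun u => -∑ a : Fin (n + 1), MvPolynomial.C (τ u a.succ) * MvPolynomial.X a with hq
  have hqe : ∀ u y, MvPolynomial.eval y (q u) = -∑ a : Fin (n + 1), τ u a.succ * y a := by
    intro u y
    simp only [hq, map_neg, map_sum, map_mul, MvPolynomial.eval_C, MvPolynomial.eval_X]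
  have hroot : ∀ u, q u ∈ {x | P.IsRoot x} := by
    intro u
    show P.eval (q u) = 0
    apply MvPolynomial.funext
    intro y
    rw [map_zero]
    have h3 := MvPolynomial.eval_eq_eval_mv_eval' y (MvPolynomial.eval y (q u)) R
    have h4 := Polynomial.hom_eval₂ P (RingHom.id _) (MvPolynomial.eval y) (q u)
    rw [RingHom.comp_id, Polynomial.eval₂_id] at h4
    rw [← hP, Polynomial.eval_map, ← h4] at h3
    rw [← h3]
    apply h2 u
    unfold dot
    rw [Fin.sum_univ_succ]
    rw [Fin.cons_zero, h0 u, one_mul, hqe]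
    simp only [Fin.cons_succ]
    ring
  have hqinj : Function.Injective q := by
    intro u u' huu
    have h3 := hqe u (Pi.single 0 1)
    have h4 := hqe u' (Pi.single 0 1)
    rw [huu, h4] at h3
    have h5 : ∀ c : ℂ, ∑ a : Fin (n + 1), τ c a.succ * (Pi.single 0 1 : Fin (n + 1) → ℂ) a = c := by
      intro c
      rw [Finset.sum_eq_single 0]
      · rw [Pi.single_eq_same, mul_one]
        exact h1 c
      · intro b _ hb
        rw [Pi.single_eq_of_ne hb, mul_zero]
      · intro hh
        exact absurd (Finset.mem_univ _) hh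
    rw [h5, h5] at h3
    exact (neg_injective h3).symm
  exact Set.infinite_of_injective_forall_mem hqinj hroot

private lemma NonDeg_ne (hN : IsNormForm κ N) {p : Fin (n + 2) → ℂ} (hp : p ∈ Gam N ℂ)
    {w : Fin (n + 2) → ℂ} (hw : dot p w ≠ 0) : NonDeg_g w N ≠ 0 := by
  intro hg
  obtain ⟨t, ht1, ht⟩ := hN.split ℂ (p 1)
  obtain ⟨s1, hs1⟩ := (mem_Gam_iff ht1 ht p rfl).1 hp
  set P : Polynomial ℂ := ∏ s, (1 + Polynomial.C (dot (t s) w) * Polynomial.X) with hP
  set e0' : Fin (n + 2) → ℂ := Pi.single 0 1 with he0'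
  have hv : ∀ (s : Fin κ) (x : ℂ), dot (t s) (fun a => e0' a + x * w a) =
      1 + dot (t s) w * x := by
    intro s x
    unfold dot
    have h1 : ∀ a, t s a * (e0' a + x * w a) =
        t s a * e0' a + t s a * w a * x := by
      intro a
      ring
    simp only [h1]
    rw [Finset.sum_add_distrib, ← Finset.sum_mul]
    congr 1
    rw [Finset.sum_eq_single 0]
    · rw [he0', Pi.single_eq_same, mul_one]
      exact (ht1 s).1
    · intro b _ hb
      rw [he0', Pi.single_eq_of_ne hb, mul_zero]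
    · intro hh
      exact absurd (Finset.mem_univ _) hh
  have hder : Polynomial.derivative P = 0 := by
    apply Polynomial.funext
    intro x
    rw [Polynomial.eval_zero, hP, Polynomial.derivative_prod_finset, Polynomial.eval_finsetSum]
    have h1 := NonDeg_val_split ht w (fun a => e0' a + x * w a)
    rw [hg] at h1
    have h2 : val (0 : Polynomial (PV n)) (fun a => e0' a + x * w a) (p 1) = 0 := by
      unfold val atV
      rw [Polynomial.map_zero, Polynomial.eval_zero]
    rw [h2] at h1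
    rw [h1]
    refine Finset.sum_congr rfl fun s _ => ?_
    rw [Polynomial.eval_mul, Polynomial.eval_prod]
    have h3 : Polynomial.derivative (1 + Polynomial.C (dot (t s) w) * Polynomial.X) =
        Polynomial.C (dot (t s) w) := by
      simp
    rw [h3, Polynomial.eval_C, mul_comm]
    congr 1
    refine Finset.prod_congr rfl fun s' _ => ?_
    rw [hv s' x]
    simp
  have hconst : P = Polynomial.C (P.coeff 0) :=
    Polynomial.eq_C_of_natDegree_eq_zero (Polynomial.derivative_eq_zero.1 hder)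
  have e0 : P.eval 0 = 1 := by
    rw [hP, Polynomial.eval_prod]
    refine Finset.prod_eq_one fun s _ => ?_
    simp
  have hc : dot (t s1) w ≠ 0 := by
    rw [← hs1]
    exact hw
  have e1 : P.eval (-(dot (t s1) w)⁻¹) = 0 := by
    rw [hP, Polynomial.eval_prod]
    refine Finset.prod_eq_zero (Finset.mem_univ s1) ?_
    simp only [Polynomial.eval_add, Polynomial.eval_one, Polynomial.eval_mul, Polynomial.eval_C,
      Polynomial.eval_X]
    rw [mul_neg, mul_inv_cancel₀ hc]
    ring
  rw [hconst, Polynomial.eval_C] at e0 e1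
  rw [e0] at e1
  exact one_ne_zero e1

theorem nondeg_of_span (hκ : 1 ≤ κ) (hN : IsNormForm κ N) {ι : Type} (J : Finset ι)
    (p : ι → Fin (n + 2) → ℂ) (hp : ∀ j ∈ J, p j ∈ Gam N ℂ)
    (hspan : ∀ w : Fin (n + 2) → ℂ, (∀ j ∈ J, dot (p j) w = 0) → w = 0) : Nondeg N := by
  intro w hw hNw
  apply hw
  apply hspan
  intro j hj
  by_contra hjw
  have hg := NonDeg_ne hN (hp j hj) hjw
  obtain ⟨A, B, R, hR, hAB⟩ := exists_bezout hκ hN hg (Or.inl (by
    intro i _
    have h1 := (NonDeg_hom hN w i).totalDegree_le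
    omega))
  apply hR
  apply NonDeg_hyp
  intro u
  obtain ⟨t, ht1, ht⟩ := hN.split ℂ u
  have h0 : ∏ s, dot (t s) w = 0 := by
    rw [← ht w]
    unfold val
    rw [hNw, Polynomial.eval_zero]
  obtain ⟨s0, -, hs0⟩ := Finset.prod_eq_zero_iff.1 h0
  refine ⟨t s0, (ht1 s0).1, (ht1 s0).2, ?_⟩
  intro v hv
  have h1 : val N v u = 0 := by
    rw [ht v]
    exact Finset.prod_eq_zero (Finset.mem_univ s0) hv
  have h2 : val (NonDeg_g w N) v u = 0 := by
    rw [NonDeg_val_split ht w v]
    refine Finset.sum_eq_zero fun s _ => ?_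
    by_cases hs : s = s0
    · rw [hs, hs0, zero_mul]
    · rw [Finset.prod_eq_zero (Finset.mem_erase.2 ⟨Ne.symm hs, Finset.mem_univ s0⟩) hv, mul_zero]
  have h3 := NonDeg_val_C R v u
  rw [← hAB, NonDeg_val_add, NonDeg_val_mul, NonDeg_val_mul, h1, h2] at h3
  rw [← h3]
  ring

end Pool.Agent.H5.DG

end
end

section

/-!
# Project DG2, module GalInv: polynomials over the algebraic closure which are fixed by the Galois group

`InfiniteGalois.fixedField_bot` (or `IsGalois` of `Omg` over `RatFunc ℂ`, instance `IsSepClosure.isGalois`): an element of `Omg` fixed by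
all `σ : Omg ≃ₐ[RatFunc ℂ] Omg` lies in the image of `RatFunc ℂ`; apply this to the coefficients.
-/

open MvPolynomial

noncomputable section

namespace Pool.Agent.H5.DG

theorem exists_of_fixed (x : Omg) (hx : ∀ σ : Omg ≃ₐ[RatFunc ℂ] Omg, σ x = x) :
    ∃ y : RatFunc ℂ, algebraMap (RatFunc ℂ) Omg y = x := by
  obtain ⟨y, hy⟩ := (InfiniteGalois.mem_range_algebraMap_iff_fixed (k := RatFunc ℂ) x).2 hx
  exact ⟨y, hy⟩

theorem exists_of_fixed_poly {σ : Type} (Q : MvPolynomial σ Omg)
    (hQ : ∀ g : Omg ≃ₐ[RatFunc ℂ] Omg, MvPolynomial.map (g : Omg →+* Omg) Q = Q) :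
    ∃ Q₀ : MvPolynomial σ (RatFunc ℂ), MvPolynomial.map (algebraMap (RatFunc ℂ) Omg) Q₀ = Q := by
  classical
  have hc : ∀ m : σ →₀ ℕ, ∃ y : RatFunc ℂ, algebraMap (RatFunc ℂ) Omg y = Q.coeff m := by
    intro m
    refine exists_of_fixed _ fun g => ?_
    have h1 := congrArg (MvPolynomial.coeff m) (hQ g)
    rw [MvPolynomial.coeff_map] at h1
    exact h1
  choose y hy using hc
  refine ⟨∑ m ∈ Q.support, MvPolynomial.monomial m (y m), ?_⟩
  rw [map_sum]
  simp only [MvPolynomial.map_monomial, hy]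
  exact Q.support_sum_monomial_coeff

end Pool.Agent.H5.DG

end
end

section

/-!
# Project DG2, module OmgSplit: the factors of the norm form over `ℂ(u)` and their derivatives

`t` from `hN.split Omg uu`.  Both sides of the three identities are polynomials in `w` with coefficients in `j (Omg)`; they agree for
`w = j ∘ w₀`, `w₀ : Fin (n + 2) → Omg`, hence always (`Omg` is infinite: `MvPolynomial.funext` over `Omg`, then apply `aeval w` after
`map j`).  For `w₀` over `Omg`: the first is `hN.split`; the second is `val_dN_of_split` (module BasicB) with `a = 0`, `t s 0 = 1`; the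
third: apply `d` to `val N w₀ uu = ∏ s, dot (t s) w₀`: the left side gives `∑ a, val (dN a N) w₀ uu * d (w₀ a) + N' (w₀; uu) * d uu` (the
computation is that of `derivation_root`, module PhiNe, which does not need `val N v u = 0` before its last line), the right side
`∑ s, (dot (d ∘ t s) w₀ + dot (t s) (d ∘ w₀)) * ∏ s' ∈ univ.erase s, dot (t s') w₀`; the terms with `d ∘ w₀` cancel by `val_dN_of_split`.
-/

open MvPolynomial

noncomputable section

namespace Pool.Agent.H5.DG

variable {n κ : ℕ} {N : Polynomial (PV n)}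

/-- The factors of the norm form over `ℂ(u)`. -/
structure Factors (N : Polynomial (PV n)) (t : Fin κ → Fin (n + 2) → Omg) : Prop where
  zero : ∀ s, t s 0 = 1
  one : ∀ s, t s 1 = uu
  split : ∀ w : Fin (n + 2) → Omg, val N w uu = ∏ s, dot (t s) w

theorem exists_factors (hN : IsPreNorm κ N) : ∃ t : Fin κ → Fin (n + 2) → Omg, Factors N t := by
  obtain ⟨t, ht, hs⟩ := hN.split Omg uu
  exact ⟨t, fun s => (ht s).1, fun s => (ht s).2, hs⟩

private theorem OmgSplit_atV {L : Type} [Field L] [Algebra ℂ L] (v : Fin (n + 2) → L) :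
    atV N v = ∑ i ∈ N.support, Polynomial.monomial i (MvPolynomial.aeval v (N.coeff i)) := by
  conv_lhs => rw [atV, N.as_sum_support, Polynomial.map_sum]
  refine Finset.sum_congr rfl fun i _ => ?_
  rw [Polynomial.map_monomial]
  rfl

private theorem OmgSplit_val {L : Type} [Field L] [Algebra ℂ L] (v : Fin (n + 2) → L) (u : L) :
    val N v u = ∑ i ∈ N.support, MvPolynomial.aeval v (N.coeff i) * u ^ i := by
  rw [val, OmgSplit_atV, Polynomial.eval_finsetSum]
  exact Finset.sum_congr rfl fun i _ => Polynomial.eval_monomial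

private theorem OmgSplit_der {L : Type} [Field L] [Algebra ℂ L] (v : Fin (n + 2) → L) (u : L) :
    (Polynomial.derivative (atV N v)).eval u =
      ∑ i ∈ N.support, MvPolynomial.aeval v (N.coeff i) * (i * u ^ (i - 1)) := by
  rw [OmgSplit_atV, Polynomial.derivative_sum, Polynomial.eval_finsetSum]
  refine Finset.sum_congr rfl fun i _ => ?_
  rw [Polynomial.derivative_monomial, Polynomial.eval_monomial]
  ring

/-- The polynomial over `Omg`. -/
private def OmgSplit_pol (N : Polynomial (PV n)) (c : ℕ → Omg) : MvPolynomial (Fin (n + 2)) Omg :=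
  ∑ i ∈ N.support, MvPolynomial.map (algebraMap ℂ Omg) (N.coeff i) * MvPolynomial.C (c i)

private theorem OmgSplit_eval_pol {L : Type} [Field L] [Algebra ℂ L] (j : Omg →ₐ[ℂ] L)
    (c : ℕ → Omg) (w : Fin (n + 2) → L) :
    MvPolynomial.eval₂ (j : Omg →+* L) w (OmgSplit_pol N c) =
      ∑ i ∈ N.support, MvPolynomial.aeval w (N.coeff i) * j (c i) := by
  rw [OmgSplit_pol, MvPolynomial.eval₂_sum]
  refine Finset.sum_congr rfl fun i _ => ?_
  rw [MvPolynomial.eval₂_mul, MvPolynomial.eval₂_C, MvPolynomial.eval₂_map]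
  have h : (j : Omg →+* L).comp (algebraMap ℂ Omg) = algebraMap ℂ L := j.comp_algebraMap
  rw [h]
  rfl

/-- The linear form. -/
private def OmgSplit_lin (t : Fin (n + 2) → Omg) : MvPolynomial (Fin (n + 2)) Omg :=
  ∑ a, MvPolynomial.C (t a) * MvPolynomial.X a

private theorem OmgSplit_eval_lin {L : Type} [Field L] [Algebra ℂ L] (j : Omg →ₐ[ℂ] L)
    (t : Fin (n + 2) → Omg) (w : Fin (n + 2) → L) :
    MvPolynomial.eval₂ (j : Omg →+* L) w (OmgSplit_lin t) = dot (fun a => j (t a)) w := by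
  rw [OmgSplit_lin, MvPolynomial.eval₂_sum, dot]
  refine Finset.sum_congr rfl fun i _ => ?_
  rw [MvPolynomial.eval₂_mul, MvPolynomial.eval₂_C, MvPolynomial.eval₂_X]
  rfl

private theorem OmgSplit_transfer {P Q : MvPolynomial (Fin (n + 2)) Omg}
    (h : ∀ x : Fin (n + 2) → ℂ, MvPolynomial.eval₂ (AlgHom.id ℂ Omg : Omg →+* Omg)
      (fun a => algebraMap ℂ Omg (x a)) P = MvPolynomial.eval₂ (AlgHom.id ℂ Omg : Omg →+* Omg)
      (fun a => algebraMap ℂ Omg (x a)) Q) : P = Q := by
  refine MvPolynomial.funext_set (fun _ => Set.range (algebraMap ℂ Omg))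
    (fun _ => Set.infinite_range_of_injective (algebraMap ℂ Omg).injective) fun y hy => ?_
  choose x hx using fun a => hy a (Set.mem_univ a)
  have hy' : y = fun a => algebraMap ℂ Omg (x a) := funext fun a => (hx a).symm
  rw [hy']
  exact h x

private theorem OmgSplit_prod (d : Derivation ℂ Omg Omg) {ι : Type} [DecidableEq ι] (S : Finset ι)
    (f : ι → Omg) : d (∏ s ∈ S, f s) = ∑ s ∈ S, d (f s) * ∏ s' ∈ S.erase s, f s' := by
  induction S using Finset.induction_on with
  | empty => simp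
  | insert a S ha ih =>
    rw [Finset.prod_insert ha, d.leibniz, ih, Finset.sum_insert ha, Finset.erase_insert ha,
      smul_eq_mul, smul_eq_mul, Finset.mul_sum, add_comm, mul_comm (∏ s ∈ S, f s)]
    congr 1
    refine Finset.sum_congr rfl fun s hs => ?_
    have has : a ≠ s := fun h => ha (h ▸ hs)
    rw [Finset.erase_insert_of_ne has, Finset.prod_insert (fun h => ha (Finset.mem_of_mem_erase h))]
    ring

theorem Factors.identities {t : Fin κ → Fin (n + 2) → Omg} (ht : Factors N t)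
    (d : Derivation ℂ Omg Omg) (hd : d uu = 1) {L : Type} [Field L] [Algebra ℂ L]
    (j : Omg →ₐ[ℂ] L) (w : Fin (n + 2) → L) :
    val N w (j uu) = ∏ s, dot (fun a => j (t s a)) w ∧
    val (dN 0 N) w (j uu) =
      ∑ s, ∏ s' ∈ Finset.univ.erase s, dot (fun a => j (t s' a)) w ∧
    (Polynomial.derivative (atV N w)).eval (j uu) =
      ∑ s, dot (fun a => j (d (t s a))) w *
        ∏ s' ∈ Finset.univ.erase s, dot (fun a => j (t s' a)) w := by
  have h1 : ∀ w : Fin (n + 2) → L, val N w (j uu) = ∏ s, dot (fun a => j (t s a)) w := by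
    intro w
    have hP : OmgSplit_pol N (fun i => uu ^ i) = ∏ s, OmgSplit_lin (t s) := by
      refine OmgSplit_transfer fun x => ?_
      rw [OmgSplit_eval_pol, MvPolynomial.eval₂_prod]
      simp only [OmgSplit_eval_lin]
      have h2 := ht.split fun a => algebraMap ℂ Omg (x a)
      rw [OmgSplit_val] at h2
      exact h2
    have h2 := congrArg (MvPolynomial.eval₂ (j : Omg →+* L) w) hP
    rw [OmgSplit_eval_pol, MvPolynomial.eval₂_prod] at h2
    simp only [OmgSplit_eval_lin, map_pow] at h2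
    rw [OmgSplit_val]
    exact h2
  refine ⟨h1 w, ?_, ?_⟩
  · rw [val_dN_of_split h1 0 w]
    refine Finset.sum_congr rfl fun s _ => ?_
    rw [ht.zero s, map_one, one_mul]
  · have hP : OmgSplit_pol N (fun i => i * uu ^ (i - 1)) =
        ∑ s, OmgSplit_lin (fun a => d (t s a)) * ∏ s' ∈ Finset.univ.erase s, OmgSplit_lin (t s') := by
      refine OmgSplit_transfer fun x => ?_
      rw [OmgSplit_eval_pol, MvPolynomial.eval₂_sum]
      simp only [MvPolynomial.eval₂_mul, MvPolynomial.eval₂_prod, OmgSplit_eval_lin, AlgHom.id_apply]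
      have h2 := congrArg d (ht.split fun a => algebraMap ℂ Omg (x a))
      rw [OmgSplit_val, map_sum, OmgSplit_prod] at h2
      have h3 : ∀ i, d (MvPolynomial.aeval (fun a => algebraMap ℂ Omg (x a)) (N.coeff i) * uu ^ i) =
          MvPolynomial.aeval (fun a => algebraMap ℂ Omg (x a)) (N.coeff i) * (i * uu ^ (i - 1)) := by
        intro i
        have h4 : MvPolynomial.aeval (fun a => algebraMap ℂ Omg (x a)) (N.coeff i) =
            algebraMap ℂ Omg (MvPolynomial.eval x (N.coeff i)) := by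
          exact MvPolynomial.aeval_algebraMap_apply Omg x (N.coeff i)
        rw [d.leibniz, h4, d.map_algebraMap, smul_zero, add_zero, d.leibniz_pow, hd]
        simp only [smul_eq_mul, nsmul_eq_mul, mul_one]
      have h5 : ∀ s, d (dot (t s) fun a => algebraMap ℂ Omg (x a)) =
          dot (fun a => d (t s a)) fun a => algebraMap ℂ Omg (x a) := by
        intro s
        rw [dot, map_sum, dot]
        refine Finset.sum_congr rfl fun a _ => ?_
        rw [d.leibniz, d.map_algebraMap, smul_zero, zero_add, smul_eq_mul, mul_comm]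
      simp only [h3, h5] at h2
      exact h2
    have h2 := congrArg (MvPolynomial.eval₂ (j : Omg →+* L) w) hP
    rw [OmgSplit_eval_pol, MvPolynomial.eval₂_sum] at h2
    simp only [MvPolynomial.eval₂_mul, MvPolynomial.eval₂_prod, OmgSplit_eval_lin, map_mul, map_natCast,
      map_pow] at h2
    rw [OmgSplit_der]
    exact h2

end Pool.Agent.H5.DG

end
end

section

/-!
# Project DG2, module Theta: norm forms as polynomials over `ℂ(u)`

`Th G = ∑ i, (coefficient i of G) * u ^ i`, a polynomial in the variables `v a` over `RatFunc ℂ`; it is the ring homomorphism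
`Polynomial.eval₂RingHom (MvPolynomial.map (algebraMap ℂ (RatFunc ℂ))) (MvPolynomial.C RatFunc.X)`.
`Th_injective`: compare coefficients (`coeff m (Th G) = algebraMap (Polynomial ℂ) (RatFunc ℂ) (∑ i, monomial i (coeff m (G.coeff i)))`).
`Th_clear`: multiply `Q` by a common denominator of its coefficients (`IsLocalization.exist_integer_multiples` or an induction).
`val_eq_Th`: both sides are ring homomorphisms in `N`.
-/

open MvPolynomial

noncomputable section

namespace Pool.Agent.H5.DG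

variable {n : ℕ}

/-- The polynomial `N (v; u)` over `ℂ(u)`. -/
def Th : Polynomial (PV n) →+* MvPolynomial (Fin (n + 2)) (RatFunc ℂ) :=
  Polynomial.eval₂RingHom (MvPolynomial.map (algebraMap ℂ (RatFunc ℂ)))
    (MvPolynomial.C RatFunc.X)

private def cf (m : Fin (n + 2) →₀ ℕ) (G : Polynomial (PV n)) : Polynomial ℂ :=
  G.sum fun i a => Polynomial.monomial i (coeff m a)

private theorem cf_coeff (m : Fin (n + 2) →₀ ℕ) (G : Polynomial (PV n)) (i : ℕ) :
    (cf m G).coeff i = coeff m (G.coeff i) := by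
  classical
  unfold cf
  rw [Polynomial.sum_def, Polynomial.finsetSum_coeff]
  simp only [Polynomial.coeff_monomial]
  rw [Finset.sum_ite_eq' G.support i]
  split_ifs with h
  · rfl
  · rw [Polynomial.notMem_support_iff.1 h]
    simp

private theorem algMap_C (a : ℂ) : algebraMap ℂ (RatFunc ℂ) a
    = algebraMap (Polynomial ℂ) (RatFunc ℂ) (Polynomial.C a) := by
  rw [IsScalarTower.algebraMap_apply ℂ (Polynomial ℂ) (RatFunc ℂ)]
  rfl

private theorem coeff_Th (m : Fin (n + 2) →₀ ℕ) (G : Polynomial (PV n)) :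
    coeff m (Th G) = algebraMap (Polynomial ℂ) (RatFunc ℂ) (cf m G) := by
  classical
  unfold Th cf
  rw [Polynomial.coe_eval₂RingHom, Polynomial.eval₂_eq_sum, Polynomial.sum_def,
    Polynomial.sum_def, map_sum, MvPolynomial.coeff_sum]
  refine Finset.sum_congr rfl fun i _ => ?_
  rw [← map_pow, mul_comm, MvPolynomial.coeff_C_mul, MvPolynomial.coeff_map,
    ← Polynomial.C_mul_X_pow_eq_monomial, map_mul, map_pow, RatFunc.algebraMap_X, algMap_C,
    mul_comm]

theorem Th_injective : Function.Injective (Th (n := n)) := by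
  intro F G h
  refine Polynomial.ext fun i => MvPolynomial.ext _ _ fun m => ?_
  have h1 : coeff m (Th F) = coeff m (Th G) := by rw [h]
  rw [coeff_Th, coeff_Th] at h1
  have h2 := IsFractionRing.injective (Polynomial ℂ) (RatFunc ℂ) h1
  rw [← cf_coeff, ← cf_coeff, h2]

private theorem Th_CX (m : Fin (n + 2) →₀ ℕ) (g : Polynomial ℂ) :
    Th (n := n) (g.sum fun i a => Polynomial.monomial i (MvPolynomial.monomial m a))
      = MvPolynomial.monomial m (algebraMap (Polynomial ℂ) (RatFunc ℂ) g) := by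
  classical
  rw [Polynomial.sum_def, map_sum]
  have h1 : ∀ i ∈ g.support, Th (n := n) (Polynomial.monomial i (MvPolynomial.monomial m (g.coeff i)))
      = MvPolynomial.monomial m (algebraMap (Polynomial ℂ) (RatFunc ℂ)
        (Polynomial.monomial i (g.coeff i))) := by
    intro i _
    unfold Th
    rw [Polynomial.coe_eval₂RingHom, Polynomial.eval₂_monomial, MvPolynomial.map_monomial,
      ← map_pow, mul_comm, MvPolynomial.C_mul_monomial, ← Polynomial.C_mul_X_pow_eq_monomial]
    congr 1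
    rw [map_mul, map_pow, RatFunc.algebraMap_X, algMap_C, mul_comm]
  rw [Finset.sum_congr rfl h1, ← map_sum, ← map_sum]
  congr 2
  conv_rhs => rw [Polynomial.as_sum_support g]

theorem Th_clear (Q : MvPolynomial (Fin (n + 2)) (RatFunc ℂ)) :
    ∃ (q : Polynomial ℂ) (G : Polynomial (PV n)), q ≠ 0 ∧
      Th G = MvPolynomial.C (algebraMap (Polynomial ℂ) (RatFunc ℂ) q) * Q := by
  induction Q using MvPolynomial.induction_on' with
  | monomial m a =>
    obtain ⟨b, c, hc, hab⟩ := IsFractionRing.div_surjective (A := Polynomial ℂ) a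
    have hc0 : c ≠ 0 := nonZeroDivisors.ne_zero hc
    have hc1 : algebraMap (Polynomial ℂ) (RatFunc ℂ) c ≠ 0 := fun h0 =>
      hc0 (IsFractionRing.injective (Polynomial ℂ) (RatFunc ℂ) (by rw [h0, map_zero]))
    refine ⟨c, b.sum fun i a => Polynomial.monomial i (MvPolynomial.monomial m a), hc0, ?_⟩
    rw [Th_CX, MvPolynomial.C_mul_monomial, ← hab, mul_div_cancel₀ _ hc1]
  | add P R hP hR =>
    obtain ⟨q, G, hq, h1⟩ := hP
    obtain ⟨q', G', hq', h2⟩ := hR
    have hC : ∀ r : Polynomial ℂ, ∃ R : Polynomial (PV n), Th R =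
        MvPolynomial.C (algebraMap (Polynomial ℂ) (RatFunc ℂ) r) := by
      intro r
      refine ⟨r.sum fun i a => Polynomial.monomial i (MvPolynomial.monomial 0 a), ?_⟩
      rw [Th_CX]
      rfl
    obtain ⟨A, hA⟩ := hC q
    obtain ⟨B, hB⟩ := hC q'
    refine ⟨q * q', B * G + A * G', mul_ne_zero hq hq', ?_⟩
    rw [map_add, map_mul, map_mul, hA, hB, h1, h2, map_mul, map_mul]
    ring

theorem val_eq_Th (G : Polynomial (PV n)) (w : Fin (n + 2) → Omg) :
    val G w uu = MvPolynomial.aeval w (Th G) := by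
  unfold val atV Th
  rw [Polynomial.eval_map, Polynomial.coe_eval₂RingHom, Polynomial.eval₂_eq_sum,
    Polynomial.eval₂_eq_sum, Polynomial.sum_def, Polynomial.sum_def, map_sum]
  refine Finset.sum_congr rfl fun i _ => ?_
  rw [map_mul, map_pow, MvPolynomial.aeval_C]
  congr 1
  rw [MvPolynomial.aeval_map_algebraMap]
  rfl

end Pool.Agent.H5.DG

end
end

section

/-!
# Preparations for the extension theorem
-/

open Polynomial Topology Filter

namespace Pool.Agent.H92.GGL

/-! ### Resultants of polynomials with meromorphic coefficients -/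

/-! ### Interpolation -/

section Interp

variable {G : Type} [DecidableEq G] {I : Finset G} {t : G → ℂ}

end Interp

/-! ### Removing fixed roots -/

/-! ### The identity principle -/

/-! ### Orders -/

/-- A bound for the size is a bound for the order. -/
lemma le_ordZ_of_bound {g h : ℂ → ℂ} {s : ℂ} {m n : ℕ} {B : ℝ} (hg : MeromorphicAt g s)
    (hgo : meromorphicOrderAt g s ≠ ⊤) (hh : AnalyticAt ℂ h s) (hhs : h s ≠ 0)
    (hb : ∀ᶠ z in 𝓝[≠] s, ‖g z‖ * ‖(z - s) ^ n * h z‖ ≤ B * ‖z - s‖ ^ m) :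
    (m : ℤ) - n ≤ ordZ g s := by
  obtain ⟨h', hh', hh's, hge⟩ := (meromorphicOrderAt_ne_top_iff hg).mp hgo
  by_contra hcon
  push Not at hcon
  set k : ℤ := ordZ g s with hk
  -- the quotient tends to zero and to a nonzero number
  have h1 : Tendsto (fun z => ‖h' z‖ * ‖h z‖) (𝓝[≠] s) (𝓝 (‖h' s‖ * ‖h s‖)) :=
    ((hh'.continuousAt.norm.mul hh.continuousAt.norm).tendsto).mono_left nhdsWithin_le_nhds
  have h2 : Tendsto (fun z => B * ‖z - s‖) (𝓝[≠] s) (𝓝 0) := by
    have : Continuous fun z : ℂ => B * ‖z - s‖ := by fun_prop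
    have h3 := (this.tendsto s).mono_left (nhdsWithin_le_nhds (s := {s}ᶜ))
    simpa using h3
  have h3 : ∀ᶠ z in 𝓝[≠] s, ‖h' z‖ * ‖h z‖ ≤ B * ‖z - s‖ := by
    have hball : ∀ᶠ z in 𝓝[≠] s, ‖z - s‖ ≤ 1 := by
      have : ∀ᶠ z in 𝓝 s, z ∈ Metric.closedBall s 1 := Metric.closedBall_mem_nhds s one_pos
      filter_upwards [mem_nhdsWithin_of_mem_nhds this] with z hz
      rwa [mem_closedBall_iff_norm] at hz
    filter_upwards [hb, hge, self_mem_nhdsWithin, hball] with z h4 h5 h6 h7
    have hzs : 0 < ‖z - s‖ := norm_pos_iff.mpr (sub_ne_zero.mpr h6)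
    set x : ℝ := ‖z - s‖ with hx
    have hB : 0 ≤ B := by
      by_contra hB
      push Not at hB
      have h8 : B * x ^ m < 0 := mul_neg_of_neg_of_pos hB (by positivity)
      have h9 : 0 ≤ ‖g z‖ * ‖(z - s) ^ n * h z‖ := by positivity
      linarith
    have h8 : ‖g z‖ = x ^ k * ‖h' z‖ := by
      rw [h5, smul_eq_mul, norm_mul, norm_zpow]
      rfl
    rw [h8, norm_mul, norm_pow, ← hx] at h4
    have h9 : x ^ (k + n) * (‖h' z‖ * ‖h z‖) ≤ B * x ^ (m : ℤ) := by
      rw [zpow_add₀ hzs.ne', zpow_natCast, zpow_natCast]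
      calc x ^ k * x ^ n * (‖h' z‖ * ‖h z‖) = x ^ k * ‖h' z‖ * (x ^ n * ‖h z‖) := by ring
        _ ≤ _ := h4
    have h10 : x ^ (m : ℤ) ≤ x ^ (k + n + 1) := by
      apply zpow_le_zpow_right_of_le_one₀ hzs h7
      omega
    have h11 : x ^ (k + n) * (‖h' z‖ * ‖h z‖) ≤ x ^ (k + n) * (B * x) := by
      calc x ^ (k + n) * (‖h' z‖ * ‖h z‖) ≤ B * x ^ (m : ℤ) := h9
        _ ≤ B * x ^ (k + n + 1) := by gcongr
        _ = x ^ (k + n) * (B * x) := by
          rw [zpow_add₀ hzs.ne', zpow_one]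
          ring
    exact le_of_mul_le_mul_left h11 (zpow_pos hzs _)
  have h4 := le_of_tendsto_of_tendsto h1 h2 h3
  have h5 : 0 < ‖h' s‖ * ‖h s‖ := mul_pos (norm_pos_iff.mpr hh's) (norm_pos_iff.mpr hhs)
  linarith

/-- The order of a quotient. -/
lemma ordZ_div {f h : ℂ → ℂ} {s : ℂ} (hf : AnalyticAt ℂ f s) (hh : AnalyticAt ℂ h s)
    (hf0 : ∀ᶠ z in 𝓝[≠] s, f z ≠ 0) (hh0 : ∀ᶠ z in 𝓝[≠] s, h z ≠ 0) {u : ℂ → ℂ}
    (hu : u =ᶠ[𝓝[≠] s] fun z => f z / h z) :
    ordZ u s = (analyticOrderNatAt f s : ℤ) - analyticOrderNatAt h s := by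
  have h1 : meromorphicOrderAt f s ≠ ⊤ :=
    (meromorphicOrderAt_ne_top_iff_eventually_ne_zero hf.meromorphicAt).mpr hf0
  have h2 : meromorphicOrderAt h s ≠ ⊤ :=
    (meromorphicOrderAt_ne_top_iff_eventually_ne_zero hh.meromorphicAt).mpr hh0
  have h3 : ∀ {f : ℂ → ℂ}, AnalyticAt ℂ f s → meromorphicOrderAt f s ≠ ⊤ →
      ordZ f s = (analyticOrderNatAt f s : ℤ) := by
    intro f hf hfo
    unfold ordZ
    rw [hf.meromorphicOrderAt_eq] at hfo ⊢
    have h4 : analyticOrderAt f s ≠ ⊤ := by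
      intro h
      rw [h] at hfo
      simp at hfo
    rw [← Nat.cast_analyticOrderNatAt h4]
    rfl
  rw [← h3 hf h1, ← h3 hh h2]
  unfold ordZ
  rw [meromorphicOrderAt_congr hu, fun_meromorphicOrderAt_div hf.meromorphicAt hh.meromorphicAt]
  rw [← ordZ_cast h1, ← ordZ_cast h2]
  unfold ordZ
  norm_cast

end Pool.Agent.H92.GGL

end
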