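import Pool.Agent.H94.DG.H5.DG.PhiProd
import Pool.Agent.H94.DG.M26

/-! The parts of this file: H5.DG.PhiNe, H5.DG.HeightU, H5.DG.ClusterU, H5.DG.E0. -/

section

/-!
# Project DG, E2: non-vanishing, algebraic form

`derivation_root`: apply the derivation `D` of `L` to `N (v; u) = 0`: `∑ a, val (dN a N) v u * D (v a) + (derivative (atV N v)).eval u * D u = 0`
(`D` kills the complex coefficients of `N`).

`phi_ne_zero`: let `L = AlgebraicClosure K`, `D'` the extended derivations (`exists_derivations_ext`), `v` regarded in `L`. For `u ∈ outs N v T` some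
`D' i u ≠ 0`: otherwise `u` is complex, `u = c`, and `tpt_complex` gives `τ ∈ Gam N ℂ` with `τ 1 = c`, `dot τ v = 0`, so `τ ∈ T` by `hT`, contradiction to
`u ∈ outs`. So `dot (tpt N v u) (D' i v) ≠ 0` for this `i` (`tpt_facts`, `derivation_root`, `derivative_ne_zero`). The polynomials
`∑ i, X i * dot (tpt N v u) (D' i v)`, `u ∈ outs N v T`, in `L[X]` are not zero, so their product does not vanish at some `lam ∈ ℂ^m` (`ℂ` is an infinite
subset of `L`: `MvPolynomial.funext_set` or the like; or induction / finite union of proper subspaces of `ℂ^m`). For `w = ∑ lam i D i v`: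
`dot τ w = 0` for `τ ∈ T` (apply `D i` to `dot τ v = 0`); `phi_prod`, `coeff_ne_zero`.
-/

open MvPolynomial

noncomputable section

namespace Pool.Agent.H5.DG

variable {n κ : ℕ} {N : Polynomial (PV n)} {φ : PVW n}

private theorem PhiNe_aeval_deriv {L : Type} [Field L] [Algebra ℂ L] (D : Derivation ℂ L L)
    (v : Fin (n + 2) → L) (p : PV n) :
    D (MvPolynomial.aeval v p) = ∑ a, MvPolynomial.aeval v (pderiv a p) * D (v a) := by
  induction p using MvPolynomial.induction_on with
  | C c =>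
    simp only [pderiv_C, map_zero, zero_mul, Finset.sum_const_zero]
    rw [← MvPolynomial.algebraMap_eq, AlgHom.commutes, D.map_algebraMap]
  | add p q hp hq =>
    simp only [map_add, hp, hq, add_mul, Finset.sum_add_distrib]
  | mul_X p b hp =>
    rw [map_mul, D.leibniz, hp, MvPolynomial.aeval_X]
    simp only [smul_eq_mul, Derivation.leibniz, pderiv_X, map_add, map_mul, MvPolynomial.aeval_X,
      add_mul, Finset.sum_add_distrib]
    have h1 : ∀ a : Fin (n + 2), (MvPolynomial.aeval v) ((Pi.single a 1 : Fin (n + 2) → PV n) b) =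
        if a = b then 1 else 0 := by
      intro a
      by_cases h : a = b
      · subst h; simp
      · rw [Pi.single_eq_of_ne (Ne.symm h)]; simp [h]
    simp only [h1]
    congr 1
    · rw [Finset.sum_eq_single b (fun a _ hab => by simp [hab]) (fun h => absurd (Finset.mem_univ b) h)]
      simp
    · rw [Finset.mul_sum]
      exact Finset.sum_congr rfl fun a _ => by ring

theorem derivation_root {L : Type} [Field L] [Algebra ℂ L] (D : Derivation ℂ L L)
    (v : Fin (n + 2) → L) (u : L) (hu : val N v u = 0) :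
    ∑ a, val (dN a N) v u * D (v a) + (Polynomial.derivative (atV N v)).eval u * D u = 0 := by
  have h1 : val N v u = ∑ i ∈ N.support, MvPolynomial.aeval v (N.coeff i) * u ^ i := by
    rw [val, atV, Polynomial.eval_map, Polynomial.eval₂_eq_sum, Polynomial.sum_def]
    rfl
  have h2 : ∀ a, val (dN a N) v u =
      ∑ i ∈ N.support, MvPolynomial.aeval v (pderiv a (N.coeff i)) * u ^ i := by
    intro a
    rw [val, atV, dN, Polynomial.map_sum, Polynomial.eval_finsetSum]
    refine Finset.sum_congr rfl fun i _ => ?_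
    rw [Polynomial.map_monomial, Polynomial.eval_monomial]
    rfl
  have h3 : (Polynomial.derivative (atV N v)).eval u =
      ∑ i ∈ N.support, MvPolynomial.aeval v (N.coeff i) * (i * u ^ (i - 1)) := by
    have : atV N v = ∑ i ∈ N.support, Polynomial.monomial i (MvPolynomial.aeval v (N.coeff i)) := by
      conv_lhs => rw [atV, N.as_sum_support, Polynomial.map_sum]
      refine Finset.sum_congr rfl fun i _ => ?_
      rw [Polynomial.map_monomial]
      rfl
    rw [this, Polynomial.derivative_sum, Polynomial.eval_finsetSum]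
    refine Finset.sum_congr rfl fun i _ => ?_
    rw [Polynomial.derivative_monomial, Polynomial.eval_monomial]
    ring
  have h4 : D (val N v u) = 0 := by rw [hu, map_zero]
  rw [h1, map_sum] at h4
  rw [← h4, h3]
  simp only [h2, Finset.sum_mul]
  rw [Finset.sum_comm, ← Finset.sum_add_distrib]
  refine Finset.sum_congr rfl fun i _ => ?_
  rw [D.leibniz, PhiNe_aeval_deriv, D.leibniz_pow]
  simp only [smul_eq_mul, nsmul_eq_mul, Finset.mul_sum]
  rw [add_comm]
  congr 1
  · ring
  · exact Finset.sum_congr rfl fun a _ => by ring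

private theorem PhiNe_dot_sum {L : Type} [Field L] {m k : ℕ} (t : Fin k → L) (c : Fin m → L)
    (w : Fin m → Fin k → L) : dot t (fun a => ∑ i, c i * w i a) = ∑ i, c i * dot t (w i) := by
  simp only [dot, Finset.mul_sum]
  rw [Finset.sum_comm]
  exact Finset.sum_congr rfl fun i _ => Finset.sum_congr rfl fun a _ => by ring

private theorem PhiNe_dot_map {K L : Type} [Field K] [Field L] [Algebra K L] [Algebra ℂ K]
    [Algebra ℂ L] [IsScalarTower ℂ K L] {k : ℕ} (τ : Fin k → ℂ) (v : Fin k → K) :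
    dot (toL L τ) (fun a => algebraMap K L (v a)) = algebraMap K L (dot (toL K τ) v) := by
  simp only [dot, toL, map_sum, map_mul]
  refine Finset.sum_congr rfl fun a _ => ?_
  rw [IsScalarTower.algebraMap_apply ℂ K L]

/-- **E2.** Non-vanishing, algebraic form. -/
theorem phi_ne_zero (hκ : 1 ≤ κ) (hN : IsNormForm κ N) (hφ : IsChow κ N φ) {K : Type} [Field K]
    [Algebra ℂ K] {m : ℕ} (D : Fin m → Derivation ℂ K K)
    (hD : ∀ f : K, (∀ i, D i f = 0) → ∃ c : ℂ, f = algebraMap ℂ K c)
    (v : Fin (n + 2) → K) (hΔ : MvPolynomial.aeval v (Del κ N) ≠ 0)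
    (T : Finset (Fin (n + 2) → ℂ)) (hT : ∀ τ, τ ∈ T ↔ τ ∈ Gam N ℂ ∧ dot (toL K τ) v = 0) :
    ∃ lam : Fin m → ℂ, evVW (Phi φ T.card) v
      (fun a => ∑ i, algebraMap ℂ K (lam i) * D i (v a)) ≠ 0 := by
  classical
  obtain ⟨D', hD'1, hD'2⟩ := exists_derivations_ext (K := K) (L := AlgebraicClosure K) D hD
  have hN' : IsPreNorm κ N := hN.pre
  set v' : Fin (n + 2) → AlgebraicClosure K := fun a => algebraMap K (AlgebraicClosure K) (v a)
    with hv'
  have hmap : ∀ p : PV n, MvPolynomial.aeval v' p =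
      algebraMap K (AlgebraicClosure K) (MvPolynomial.aeval v p) := fun p =>
    MvPolynomial.aeval_algebraMap_apply (AlgebraicClosure K) v p
  have hinj : Function.Injective (algebraMap K (AlgebraicClosure K)) :=
    (algebraMap K (AlgebraicClosure K)).injective
  have hΔ' : MvPolynomial.aeval v' (Del κ N) ≠ 0 := by
    rw [hmap]
    exact fun h => hΔ (hinj (by rw [h, map_zero]))
  have hdot : ∀ τ : Fin (n + 2) → ℂ, dot (toL (AlgebraicClosure K) τ) v' =
      algebraMap K (AlgebraicClosure K) (dot (toL K τ) v) := fun τ => PhiNe_dot_map τ v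
  have hTv : ∀ τ ∈ T, dot (toL (AlgebraicClosure K) τ) v' = 0 := fun τ hτ => by
    rw [hdot, ((hT τ).1 hτ).2, map_zero]
  -- derivations of `v'`
  have hDv : ∀ i a, D' i (v' a) = algebraMap K (AlgebraicClosure K) (D i (v a)) := fun i a =>
    hD'1 i (v a)
  have hex : ∀ u ∈ outs N v' T, ∃ i, dot (tpt N v' u) (fun a => D' i (v' a)) ≠ 0 := by
    intro u hu
    have hu1 : u ∈ rts N v' := (Finset.mem_filter.1 hu).1
    have hu2 : ∀ τ ∈ T, algebraMap ℂ (AlgebraicClosure K) (τ 1) ≠ u := (Finset.mem_filter.1 hu).2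
    have hval : val N v' u = 0 := (mem_roots_iff hN' v' hΔ' u).1 hu1
    have h1 : ∃ i, D' i u ≠ 0 := by
      by_contra hcon
      push Not at hcon
      obtain ⟨c, rfl⟩ := hD'2 u hcon
      obtain ⟨τ, hτ, hτ1, -, hτ2⟩ := tpt_complex hκ hN' v' hΔ' hu1
      have h2 : dot (toL K τ) v = 0 := hinj (by rw [← hdot, hτ2, map_zero])
      exact hu2 τ ((hT τ).2 ⟨hτ, h2⟩) (by rw [hτ1])
    obtain ⟨i, hi⟩ := h1
    refine ⟨i, fun h0 => ?_⟩
    have h3 := derivation_root (N := N) (D' i) v' u hval
    have h4 := (tpt_facts hκ hN' v' hΔ' hval).2.2.2.2.2 fun a => D' i (v' a)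
    rw [h0, zero_mul] at h4
    have h5 : ∑ a, val (dN a N) v' u * D' i (v' a) = 0 := by
      rw [← h4]
      exact Finset.sum_congr rfl fun a _ => mul_comm _ _
    rw [h5, zero_add] at h3
    rcases mul_eq_zero.1 h3 with h6 | h6
    · exact derivative_ne_zero hκ hN' v' hΔ' hval h6
    · exact hi h6
  -- choice of `lam`
  have hprod : ∃ lam : Fin m → ℂ, ∏ u ∈ outs N v' T,
      ∑ i, algebraMap ℂ (AlgebraicClosure K) (lam i) * dot (tpt N v' u) (fun a => D' i (v' a)) ≠ 0 := by
    by_contra hcon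
    push Not at hcon
    have hP : (∏ u ∈ outs N v' T, ∑ i, (MvPolynomial.X i : MvPolynomial (Fin m) (AlgebraicClosure K)) *
        MvPolynomial.C (dot (tpt N v' u) (fun a => D' i (v' a)))) = 0 := by
      refine MvPolynomial.funext_set (fun _ => Set.range (algebraMap ℂ (AlgebraicClosure K)))
        (fun _ => Set.infinite_range_of_injective
          (algebraMap ℂ (AlgebraicClosure K)).injective) fun x hx => ?_
      choose lam hlam using fun i => hx i (Set.mem_univ i)
      rw [map_zero, ← hcon lam, map_prod]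
      refine Finset.prod_congr rfl fun u _ => ?_
      rw [map_sum]
      refine Finset.sum_congr rfl fun i _ => ?_
      rw [map_mul, MvPolynomial.eval_X, MvPolynomial.eval_C, hlam i]
    rw [Finset.prod_eq_zero_iff] at hP
    obtain ⟨u, hu, hu0⟩ := hP
    obtain ⟨i, hi⟩ := hex u hu
    apply hi
    have := congrArg (MvPolynomial.eval (Pi.single i (1 : AlgebraicClosure K))) hu0
    rw [map_sum, map_zero] at this
    rw [← this, Finset.sum_eq_single i]
    · rw [map_mul, MvPolynomial.eval_X, MvPolynomial.eval_C, Pi.single_eq_same, one_mul]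
    · intro j _ hj
      rw [map_mul, MvPolynomial.eval_X, Pi.single_eq_of_ne hj, zero_mul]
    · exact fun h => absurd (Finset.mem_univ i) h
  obtain ⟨lam, hlam⟩ := hprod
  refine ⟨lam, fun h0 => ?_⟩
  set w : Fin (n + 2) → K := fun a => ∑ i, algebraMap ℂ K (lam i) * D i (v a) with hw
  set w' : Fin (n + 2) → AlgebraicClosure K := fun a => algebraMap K (AlgebraicClosure K) (w a)
    with hw'
  have hw'2 : w' = fun a => ∑ i, algebraMap ℂ (AlgebraicClosure K) (lam i) * D' i (v' a) := by
    funext a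
    rw [hw', hw]
    simp only [map_sum, map_mul]
    refine Finset.sum_congr rfl fun i _ => ?_
    rw [hDv, ← IsScalarTower.algebraMap_apply ℂ K (AlgebraicClosure K)]
  have hTw : ∀ τ ∈ T, dot (toL (AlgebraicClosure K) τ) w' = 0 := by
    intro τ hτ
    rw [hw'2, PhiNe_dot_sum]
    refine Finset.sum_eq_zero fun i _ => ?_
    have h1 : D' i (dot (toL (AlgebraicClosure K) τ) v') =
        dot (toL (AlgebraicClosure K) τ) (fun a => D' i (v' a)) := by
      simp only [dot, toL, map_sum]
      refine Finset.sum_congr rfl fun a _ => ?_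
      rw [Derivation.leibniz, Derivation.map_algebraMap, smul_zero, add_zero, smul_eq_mul]
    rw [← h1, hTv τ hτ, map_zero, mul_zero]
  have h1 := phi_prod hκ hN' hφ.eq v' w' hΔ' T (fun τ hτ => ((hT τ).1 hτ).1) hTv hTw
  have h2 : evVW (Phi φ T.card) v' w' = algebraMap K (AlgebraicClosure K)
      (evVW (Phi φ T.card) v w) := by
    rw [evVW, evVW, ← MvPolynomial.aeval_algebraMap_apply]
    congr 2
    funext x
    rcases x with x | x <;> rfl
  rw [h2, h0, map_zero] at h1
  have h3 : ∏ u ∈ outs N v' T, dot (tpt N v' u) w' = ∏ u ∈ outs N v' T,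
      ∑ i, algebraMap ℂ (AlgebraicClosure K) (lam i) * dot (tpt N v' u) (fun a => D' i (v' a)) := by
    refine Finset.prod_congr rfl fun u _ => ?_
    rw [hw'2, PhiNe_dot_sum]
  rw [h3] at h1
  exact (mul_ne_zero (coeff_ne_zero v' hΔ') hlam) h1.symm

end Pool.Agent.H5.DG

end
end

section

/-!
# Project DG, B6: heights and distances, valuations

`heightU`: `val_bound_below`; `size_val` and coordinates `0`, `1` give `vn ν (tpt N v u) = max 1 (ν u)`; `gauss_le`, `coeff_le_gauss`
(`roots_nodup`). `distU`: as `distA` (see `HeightA.lean`): `w_θ = θ - (dot p θ) e₀`, `φ (v, w_θ) = (dot p v) ψ_θ (v)` with a polynomial `ψ_θ` with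
complex coefficients, so `ν (ψ_θ (v)) ≤ 1`; no homogeneity is needed.
-/

open MvPolynomial

noncomputable section

namespace Pool.Agent.H5.DG

variable {n κ : ℕ} {N : Polynomial (PV n)} {φ : PVW n} {L : Type} [Field L] [Algebra ℂ L]
  [IsAlgClosed L] {Γ₀ : Type} [LinearOrderedCommGroupWithZero Γ₀]

private theorem HeightU_aeval_le {L : Type} [Field L] [Algebra ℂ L] {Γ₀ : Type}
    [LinearOrderedCommGroupWithZero Γ₀] (ν : Valuation L Γ₀)
    (hν : ∀ c : ℂ, c ≠ 0 → ν (algebraMap ℂ L c) = 1) (v : Fin (n + 2) → L)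
    (hv : ∀ a, ν (v a) ≤ 1) (ψ : PV n) : ν (MvPolynomial.aeval v ψ) ≤ 1 := by
  rw [MvPolynomial.aeval_def, MvPolynomial.eval₂_eq]
  refine ν.map_sum_le fun m _ => ?_
  rw [map_mul, map_prod]
  have h1 : ν (algebraMap ℂ L (coeff m ψ)) ≤ 1 := by
    by_cases h : coeff m ψ = 0
    · rw [h, map_zero, map_zero]
      exact zero_le_one
    · exact (hν _ h).le
  refine mul_le_one' h1 (Finset.prod_le_one' fun i _ => ?_)
  rw [map_pow]
  exact pow_le_one' (hv i) _

private theorem HeightU_vn (hκ : 1 ≤ κ) (hN : IsPreNorm κ N) (ν : Valuation L Γ₀)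
    (hν : ∀ c : ℂ, c ≠ 0 → ν (algebraMap ℂ L c) = 1) (v : Fin (n + 2) → L)
    (hΔ : MvPolynomial.aeval v (Del κ N) ≠ 0) {u : L} (hu : u ∈ rts N v) :
    vn ν (tpt N v u) = max 1 (ν u) := by
  have hf := tpt_facts hκ hN v hΔ ((mem_roots_iff hN v hΔ u).1 hu)
  apply le_antisymm
  · refine Finset.sup_le fun a _ => ?_
    have := size_val hκ hN ν hν _ hf.1 a
    rwa [hf.2.2.1] at this
  · refine max_le ?_ ?_
    · have := Finset.le_sup (f := fun a => ν (tpt N v u a)) (Finset.mem_univ 0)
      rwa [hf.2.1, map_one] at this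
    · have := Finset.le_sup (f := fun a => ν (tpt N v u a)) (Finset.mem_univ 1)
      rwa [hf.2.2.1] at this

theorem heightU (hκ : 1 ≤ κ) (hN : IsPreNorm κ N) (hnd : Nondeg N) (ν : Valuation L Γ₀)
    (hν : ∀ c : ℂ, c ≠ 0 → ν (algebraMap ℂ L c) = 1) (v : Fin (n + 2) → L)
    (hΔ : MvPolynomial.aeval v (Del κ N) ≠ 0) (hv : ∀ a, ν (v a) ≤ 1) (hv1 : ∃ a, ν (v a) = 1) :
    ν (MvPolynomial.aeval v (N.coeff κ)) * ∏ u ∈ rts N v, vn ν (tpt N v u) = 1 := by
  classical
  have hcoef : ∀ b, (atV N v).coeff b = MvPolynomial.aeval v (N.coeff b) := fun b => by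
    rw [atV, Polynomial.coeff_map]
    rfl
  obtain ⟨hle, b, -, hb⟩ := val_bound_below hN hnd ν hν v hv hv1
  have hlc := (atV_natDegree hN v (coeff_ne_zero v hΔ)).2
  have hprod : ∏ u ∈ rts N v, vn ν (tpt N v u) =
      ((atV N v).roots.map fun u => max 1 (ν u)).prod := by
    rw [Finset.prod_congr rfl fun u hu => HeightU_vn hκ hN ν hν v hΔ hu, rts, Finset.prod,
      Multiset.toFinset_val, Multiset.dedup_eq_self.2 (roots_nodup hκ hN v hΔ)]
  rw [hprod, ← hlc]
  apply le_antisymm
  · exact gauss_le ν fun b => by rw [hcoef]; exact hle b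
  · have := coeff_le_gauss ν (f := atV N v) b
    rwa [hcoef, hb] at this

theorem distU (hκ : 1 ≤ κ) (hN : IsPreNorm κ N) (hφ : IsChow κ N φ) (ν : Valuation L Γ₀)
    (hν : ∀ c : ℂ, c ≠ 0 → ν (algebraMap ℂ L c) = 1) (v : Fin (n + 2) → L)
    (hΔ : MvPolynomial.aeval v (Del κ N) ≠ 0) (hv : ∀ a, ν (v a) ≤ 1) (p : Fin (n + 2) → ℂ)
    (hp : p ∈ Gam N ℂ) :
    ν (MvPolynomial.aeval v (N.coeff κ)) * ∏ u ∈ rts N v, vn ν (tpt N v u - toL L p) ≤
      ν (dot (toL L p) v) := by
  classical
  obtain ⟨Θ, hΘ0, hΘ⟩ := dirU n κ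
  have hp0 : p 0 = 1 := hp.1
  have hfacts := fun u (hu : u ∈ rts N v) => tpt_facts hκ hN v hΔ ((mem_roots_iff hN v hΔ u).1 hu)
  obtain ⟨θ, hθ, hθx⟩ := hΘ L ν hν (rts N v) (fun u => tpt N v u - toL L p)
    (card_roots hκ hN v hΔ).le (fun u hu => by
      rw [Pi.sub_apply, (hfacts u hu).2.1, toL, hp0, map_one, sub_self])
  set w : Fin (n + 2) → ℂ := fun a => θ a - if a = 0 then dot p θ else 0 with hw
  have hpw : dot p w = 0 := by
    rw [dot]
    simp only [hw, mul_sub, Finset.sum_sub_distrib, mul_ite, mul_zero, Finset.sum_ite_eq',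
      Finset.mem_univ, if_true]
    rw [hp0, one_mul, dot, sub_self]
  obtain ⟨ψ, hψ⟩ := hφ.dvd p hp w hpw
  have hev : evVW φ v (toL L w) = dot (toL L p) v * MvPolynomial.aeval v ψ := by
    have h1 := congrArg (MvPolynomial.aeval v) hψ
    have h2 : MvPolynomial.aeval v (MvPolynomial.aeval (Sum.elim MvPolynomial.X
        fun a => MvPolynomial.C (w a)) φ) = evVW φ v (toL L w) := by
      rw [evVW, ← AlgHom.comp_apply, MvPolynomial.comp_aeval]
      congr 2
      funext i
      rcases i with i | i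
      · simp
      · simp [toL]
    rw [h2, map_mul, map_sum] at h1
    rw [h1]
    congr 1
    rw [dot]
    refine Finset.sum_congr rfl fun a _ => ?_
    rw [map_mul, MvPolynomial.aeval_X, MvPolynomial.algHom_C]
    rfl
  have hdot : ∀ u ∈ rts N v, dot (tpt N v u) (toL L w) =
      dot (toL L θ) (tpt N v u - toL L p) := by
    intro u hu
    have h1 : dot (tpt N v u) (toL L w) = dot (tpt N v u) (toL L θ) -
        algebraMap ℂ L (dot p θ) := by
      have h2 : ∀ a, tpt N v u a * toL L w a = tpt N v u a * toL L θ a -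
          if a = 0 then tpt N v u 0 * algebraMap ℂ L (dot p θ) else 0 := by
        intro a
        simp only [toL, hw, map_sub, mul_sub]
        split_ifs with h
        · rw [h]
        · rw [map_zero, mul_zero]
      rw [dot, Finset.sum_congr rfl fun a _ => h2 a, Finset.sum_sub_distrib,
        Finset.sum_ite_eq', if_pos (Finset.mem_univ _), (hfacts u hu).2.1, one_mul]
      rfl
    rw [h1, ← dot_toL, dot, dot, dot, ← Finset.sum_sub_distrib]
    refine Finset.sum_congr rfl fun a _ => ?_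
    rw [Pi.sub_apply]
    ring
  calc ν (MvPolynomial.aeval v (N.coeff κ)) * ∏ u ∈ rts N v, vn ν (tpt N v u - toL L p)
      ≤ ν (MvPolynomial.aeval v (N.coeff κ)) *
          ∏ u ∈ rts N v, ν (dot (toL L θ) (tpt N v u - toL L p)) := by
        refine mul_le_mul_right ?_ _
        exact Finset.prod_le_prod' fun u hu => hθx u hu
    _ = ν (evVW φ v (toL L w)) := by
        rw [chow_prod hκ hN hφ.eq v (toL L w) hΔ, map_mul, map_prod]
        congr 1
        exact Finset.prod_congr rfl fun u hu => by rw [hdot u hu]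
    _ = ν (dot (toL L p) v) * ν (MvPolynomial.aeval v ψ) := by rw [hev, map_mul]
    _ ≤ ν (dot (toL L p) v) * 1 := mul_le_mul_right (HeightU_aeval_le ν hν v hv ψ) _
    _ = ν (dot (toL L p) v) := mul_one _

end Pool.Agent.H5.DG

end
end

section

/-!
# Project DG, C2: the cluster inequality, valuations

`coreU` with `R = rts N v`, `O = outs N v T`, `t = tpt N v`, `a = ν (a (v))`; `phi_prod`, `outs_card`, `not_mem_outs`, `tpt_facts`, `heightU`, `distU`;
`hN.pre`. `p j 0 = 1` from `hp`.
-/

open MvPolynomial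

noncomputable section

namespace Pool.Agent.H5.DG

variable {n κ : ℕ} {N : Polynomial (PV n)} {φ : PVW n}

/-- **C2.** The inequality for a valuation. -/
theorem cluster_val (hκ : 1 ≤ κ) (hN : IsNormForm κ N) (hnd : Nondeg N) (hφ : IsChow κ N φ)
    {ι : Type} (J : Finset ι) (p : ι → Fin (n + 2) → ℂ) (hp : ∀ j ∈ J, p j ∈ Gam N ℂ)
    (hinj : Set.InjOn p J) (T : Finset (Fin (n + 2) → ℂ)) (hT : ∀ τ ∈ T, τ ∈ Gam N ℂ)
    (hJT : ∀ j ∈ J, p j ∉ T)
    {L : Type} [Field L] [Algebra ℂ L] [IsAlgClosed L] {Γ₀ : Type}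
    [LinearOrderedCommGroupWithZero Γ₀] (ν : Valuation L Γ₀)
    (hν : ∀ c : ℂ, c ≠ 0 → ν (algebraMap ℂ L c) = 1) (v w : Fin (n + 2) → L)
    (hv : ∀ a, ν (v a) ≤ 1) (hv1 : ∃ a, ν (v a) = 1) (hΔ : MvPolynomial.aeval v (Del κ N) ≠ 0)
    (hTv : ∀ τ ∈ T, dot (toL L τ) v = 0) (hTw : ∀ τ ∈ T, dot (toL L τ) w = 0)
    (A : ι → Γ₀) (lam : Γ₀) (hA : ∀ j ∈ J, A j ≤ 1)
    (h1 : ∀ j ∈ J, ν (dot (toL L (p j)) v) ≤ A j)
    (h2 : ∀ j ∈ J, ν (dot (toL L (p j)) w) ≤ lam * A j) (h3 : ∀ a, ν (w a) ≤ lam) :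
    ν (evVW (Phi φ T.card) v w) ≤ lam ^ (κ - T.card) * ∏ j ∈ J, A j := by
  classical
  have hp' := hN.pre
  have hsub : outs N v T ⊆ rts N v := by
    unfold outs
    exact Finset.filter_subset _ _
  have hcard := outs_card hκ hp' v hΔ T hT hTv
  have hO : (outs N v T).card = κ - T.card := by omega
  rw [phi_prod hκ hp' hφ.eq v w hΔ T hT hTv hTw, map_mul, map_prod, ← hO]
  refine coreU J p hinj (fun j hj => (hp j hj).1) T hJT ν hν (rts N v) (outs N v T)
    hsub (tpt N v) _ lam w A
    (fun u hu => (tpt_facts hκ hp' v hΔ ((mem_roots_iff hp' v hΔ u).1 hu)).2.1)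
    (fun u hu hu' => not_mem_outs hκ hp' v hΔ T hT hTv hu hu')
    (heightU hκ hp' hnd ν hν v hΔ hv hv1)
    (fun j hj => (distU hκ hp' hφ ν hν v hΔ hv (p j) (hp j hj)).trans (h1 j hj)) hA h2 h3

end Pool.Agent.H5.DG

end
end

section

/-!
# Project DG, module E0: extension of a discrete valuation to an arbitrary field extension

`exists_ext`: the elements of non-negative order form a subring of `L`, those of positive order an
ideal, which is not the unit ideal; a valuation subring of `L` containing the subring, whose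
non-units contain the ideal, gives the comparison.
`cluster_ord`: `cluster_val` over the algebraic closure.
-/

open MvPolynomial

noncomputable section

namespace Pool.Agent.H5.DG

section

variable {K : Type} [Field K] (v : AddValuation K (WithTop ℤ)) (L : Type) [Field L] [Algebra K L]

lemma E0_pos_add {a b : WithTop ℤ} (ha : 0 < a) (hb : 0 ≤ b) : 0 < a + b := by
  induction a using WithTop.recTopCoe with
  | top => simp
  | coe a =>
    induction b using WithTop.recTopCoe with
    | top => simp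
    | coe b =>
      have h1 : (0 : ℤ) < a := by exact_mod_cast ha
      have h2 : (0 : ℤ) ≤ b := by exact_mod_cast hb
      exact_mod_cast (by omega : 0 < a + b)

/-- The image of the valuation ring. -/
def valSub : Subring L where
  carrier := {y | ∃ f : K, 0 ≤ v f ∧ algebraMap K L f = y}
  mul_mem' := by
    rintro _ _ ⟨f, hf, rfl⟩ ⟨g, hg, rfl⟩
    exact ⟨f * g, by rw [v.map_mul]; exact add_nonneg hf hg, by rw [map_mul]⟩
  one_mem' := ⟨1, by rw [v.map_one], by rw [map_one]⟩
  add_mem' := by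
    rintro _ _ ⟨f, hf, rfl⟩ ⟨g, hg, rfl⟩
    exact ⟨f + g, (le_min hf hg).trans (v.map_add f g), by rw [map_add]⟩
  zero_mem' := ⟨0, by rw [v.map_zero]; exact le_top, by rw [map_zero]⟩
  neg_mem' := by
    rintro _ ⟨f, hf, rfl⟩
    exact ⟨-f, by rw [v.map_neg]; exact hf, by rw [map_neg]⟩

/-- The image of the maximal ideal. -/
def valIdeal : Ideal (valSub v L) where
  carrier := {y | ∃ f : K, 0 < v f ∧ algebraMap K L f = y}
  add_mem' := by
    rintro _ _ ⟨f, hf, hf'⟩ ⟨g, hg, hg'⟩
    exact ⟨f + g, lt_of_lt_of_le (lt_min hf hg) (v.map_add f g), by rw [map_add, hf', hg']; rfl⟩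
  zero_mem' := ⟨0, by rw [v.map_zero]; exact WithTop.coe_lt_top 0, by rw [map_zero]; rfl⟩
  smul_mem' := by
    rintro ⟨_, g, hg, rfl⟩ _ ⟨f, hf, hf'⟩
    refine ⟨f * g, ?_, ?_⟩
    · rw [v.map_mul]
      exact E0_pos_add hf hg
    · rw [map_mul, hf', mul_comm]
      rfl

/-- **Extension of a valuation.** -/
theorem exists_ext : ∃ B : ValuationSubring L, ∀ f g : K,
    B.valuation (algebraMap K L f) ≤ B.valuation (algebraMap K L g) ↔ v g ≤ v f := by
  have hI : valIdeal v L ≠ ⊤ := by
    rw [Ideal.ne_top_iff_one]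
    rintro ⟨f, hf, hf'⟩
    have h1 : algebraMap K L f = algebraMap K L 1 := by
      rw [hf', map_one]
      rfl
    rw [(algebraMap K L).injective h1, v.map_one] at hf
    exact lt_irrefl _ hf
  obtain ⟨B, hB1, hB2⟩ := Ideal.image_subset_nonunits_valuationSubring (valIdeal v L) hI
  have hle : ∀ f : K, 0 ≤ v f → B.valuation (algebraMap K L f) ≤ 1 := by
    intro f hf
    rw [ValuationSubring.valuation_le_one_iff]
    exact hB1 ⟨f, hf, rfl⟩
  have hlt : ∀ f : K, 0 < v f → B.valuation (algebraMap K L f) < 1 := by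
    intro f hf
    have h1 : algebraMap K L f ∈ B.nonunits := by
      apply hB2
      exact ⟨⟨algebraMap K L f, ⟨f, hf.le, rfl⟩⟩, ⟨f, hf, rfl⟩, rfl⟩
    exact (B.mem_nonunits_iff).1 h1
  refine ⟨B, fun f g => ?_⟩
  constructor
  · intro h
    by_contra hcon
    push Not at hcon
    have hf : f ≠ 0 := by
      rintro rfl
      rw [v.map_zero] at hcon
      exact not_top_lt hcon
    by_cases hg : g = 0
    · rw [hg, map_zero, map_zero, le_zero_iff, map_eq_zero, map_eq_zero] at h
      exact hf h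
    · have h1 : 0 < v (g * f⁻¹) := by
        obtain ⟨a, ha⟩ : ∃ a : ℤ, v f = a := by
          have := (v.ne_top_iff).2 hf
          exact ⟨(v f).untop this, by simp⟩
        obtain ⟨b, hb⟩ : ∃ b : ℤ, v g = b := by
          have := (v.ne_top_iff).2 hg
          exact ⟨(v g).untop this, by simp⟩
        have h2 : v g = v (g * f⁻¹) + v f := by
          rw [← v.map_mul, mul_assoc, inv_mul_cancel₀ hf, mul_one]
        have h3 : g * f⁻¹ ≠ 0 := mul_ne_zero hg (inv_ne_zero hf)
        obtain ⟨c, hc⟩ : ∃ c : ℤ, v (g * f⁻¹) = c := by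
          have := (v.ne_top_iff).2 h3
          exact ⟨(v (g * f⁻¹)).untop this, by simp⟩
        rw [ha, hb, hc] at h2
        rw [ha, hb] at hcon
        have h4 : b = c + a := by exact_mod_cast h2
        have h5 : a < b := by exact_mod_cast hcon
        rw [hc]
        exact_mod_cast (by omega : (0 : ℤ) < c)
      have h2 := hlt _ h1
      rw [map_mul, map_mul, map_inv₀, map_inv₀] at h2
      have hfν : B.valuation (algebraMap K L f) ≠ 0 := by
        rw [Ne, map_eq_zero, map_eq_zero]
        exact hf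
      have h3 : B.valuation (algebraMap K L g) < B.valuation (algebraMap K L f) := by
        have h4 := mul_lt_mul_of_pos_right h2 (zero_lt_iff.2 hfν)
        rwa [mul_assoc, inv_mul_cancel₀ hfν, mul_one, one_mul] at h4
      exact absurd h (not_le.2 h3)
  · intro h
    by_cases hg : g = 0
    · rw [hg, v.map_zero, top_le_iff, v.top_iff] at h
      rw [h, hg]
    · have h1 : 0 ≤ v (f * g⁻¹) := by
        by_cases hf : f = 0
        · rw [hf, zero_mul, v.map_zero]
          exact le_top
        obtain ⟨a, ha⟩ : ∃ a : ℤ, v f = a := by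
          have := (v.ne_top_iff).2 hf
          exact ⟨(v f).untop this, by simp⟩
        obtain ⟨b, hb⟩ : ∃ b : ℤ, v g = b := by
          have := (v.ne_top_iff).2 hg
          exact ⟨(v g).untop this, by simp⟩
        have h2 : v f = v (f * g⁻¹) + v g := by
          rw [← v.map_mul, mul_assoc, inv_mul_cancel₀ hg, mul_one]
        have h3 : f * g⁻¹ ≠ 0 := mul_ne_zero hf (inv_ne_zero hg)
        obtain ⟨c, hc⟩ : ∃ c : ℤ, v (f * g⁻¹) = c := by
          have := (v.ne_top_iff).2 h3
          exact ⟨(v (f * g⁻¹)).untop this, by simp⟩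
        rw [ha, hb, hc] at h2
        rw [ha, hb] at h
        have h4 : a = c + b := by exact_mod_cast h2
        have h5 : b ≤ a := by exact_mod_cast h
        rw [hc]
        exact_mod_cast (by omega : (0 : ℤ) ≤ c)
      have h2 := hle _ h1
      rw [map_mul, map_mul, map_inv₀, map_inv₀] at h2
      have hgν : B.valuation (algebraMap K L g) ≠ 0 := by
        rw [Ne, map_eq_zero, map_eq_zero]
        exact hg
      have h4 := mul_le_mul_left h2 (B.valuation (algebraMap K L g))
      rwa [mul_assoc, inv_mul_cancel₀ hgν, mul_one, one_mul] at h4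

end

section

variable {n κ : ℕ} {N : Polynomial (PV n)} {φ : PVW n}

lemma dot_map {K L : Type} [Field K] [Algebra ℂ K] [Field L] [Algebra ℂ L] [Algebra K L]
    [IsScalarTower ℂ K L] {m : ℕ} (t : Fin m → ℂ) (x : Fin m → K) :
    dot (toL L t) (fun a => algebraMap K L (x a)) = algebraMap K L (dot (toL K t) x) := by
  unfold dot toL
  rw [map_sum]
  refine Finset.sum_congr rfl fun a _ => ?_
  rw [map_mul, ← IsScalarTower.algebraMap_apply]

lemma evVW_map {K L : Type} [Field K] [Algebra ℂ K] [Field L] [Algebra ℂ L] [Algebra K L]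
    [IsScalarTower ℂ K L] (G : PVW n) (x w : Fin (n + 2) → K) :
    evVW G (fun a => algebraMap K L (x a)) (fun a => algebraMap K L (w a)) =
      algebraMap K L (evVW G x w) := by
  unfold evVW
  rw [← MvPolynomial.aeval_algebraMap_apply]
  congr 2
  funext i
  rcases i with i | i <;> rfl

/-- The cluster inequality for a discrete valuation. -/
theorem cluster_ord (hκ : 1 ≤ κ) (hN : IsNormForm κ N) (hnd : Nondeg N) (hφ : IsChow κ N φ)
    {ι : Type} (J : Finset ι) (p : ι → Fin (n + 2) → ℂ) (hp : ∀ j ∈ J, p j ∈ Gam N ℂ)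
    (hinj : Set.InjOn p J) (T : Finset (Fin (n + 2) → ℂ)) (hT : ∀ τ ∈ T, τ ∈ Gam N ℂ)
    (hJT : ∀ j ∈ J, p j ∉ T) {K : Type} [Field K] [Algebra ℂ K]
    (v : AddValuation K (WithTop ℤ)) (hv : ∀ c : ℂ, 0 ≤ v (algebraMap ℂ K c))
    (x w : Fin (n + 2) → K) (hx : ∀ a, 0 ≤ v (x a)) (hx1 : ∃ a, v (x a) = 0)
    (hΔ : MvPolynomial.aeval x (Del κ N) ≠ 0)
    (hTv : ∀ τ ∈ T, dot (toL K τ) x = 0) (hTw : ∀ τ ∈ T, dot (toL K τ) w = 0)
    (A : ι → K) (lam : K) (hA : ∀ j ∈ J, 0 ≤ v (A j))
    (h1 : ∀ j ∈ J, v (A j) ≤ v (dot (toL K (p j)) x))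
    (h2 : ∀ j ∈ J, v (lam * A j) ≤ v (dot (toL K (p j)) w)) (h3 : ∀ a, v lam ≤ v (w a)) :
    v (lam ^ (κ - T.card) * ∏ j ∈ J, A j) ≤ v (evVW (Phi φ T.card) x w) := by
  obtain ⟨B, hB⟩ := exists_ext v (AlgebraicClosure K)
  have hle1 : ∀ f : K, 0 ≤ v f → B.valuation (algebraMap K _ f) ≤ 1 := by
    intro f hf
    have := (hB f 1).2 (by rw [v.map_one]; exact hf)
    rwa [map_one, map_one] at this
  have heq1 : ∀ f : K, v f = 0 → B.valuation (algebraMap K _ f) = 1 := by
    intro f hf
    refine le_antisymm (hle1 f hf.ge) ?_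
    have := (hB 1 f).2 (by rw [v.map_one]; exact hf.le)
    rwa [map_one, map_one] at this
  have hc := cluster_val hκ hN hnd hφ J p hp hinj T hT hJT (L := AlgebraicClosure K) B.valuation
    (by
      intro c hc
      rw [IsScalarTower.algebraMap_apply ℂ K (AlgebraicClosure K)]
      apply heq1
      refine le_antisymm ?_ (hv c)
      have h5 : v (algebraMap ℂ K c) + v (algebraMap ℂ K c⁻¹) = 0 := by
        rw [← v.map_mul, ← map_mul, mul_inv_cancel₀ hc, map_one, v.map_one]
      calc v (algebraMap ℂ K c) ≤ v (algebraMap ℂ K c) + v (algebraMap ℂ K c⁻¹) :=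
            le_add_of_nonneg_right (hv _)
        _ = 0 := h5)
    (fun a => algebraMap K _ (x a)) (fun a => algebraMap K _ (w a)) (fun a => hle1 _ (hx a))
    (by
      obtain ⟨a, ha⟩ := hx1
      exact ⟨a, heq1 _ ha⟩)
    (by
      change MvPolynomial.aeval (algebraMap K (AlgebraicClosure K) ∘ x) (Del κ N) ≠ 0
      rw [MvPolynomial.aeval_algebraMap_apply]
      intro h0
      exact hΔ ((algebraMap K (AlgebraicClosure K)).injective (by rw [h0, map_zero])))
    (fun τ hτ => by rw [dot_map, hTv τ hτ, map_zero]) (fun τ hτ => by rw [dot_map, hTw τ hτ, map_zero])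
    (fun j => B.valuation (algebraMap K _ (A j))) (B.valuation (algebraMap K _ lam))
    (fun j hj => hle1 _ (hA j hj))
    (fun j hj => by
      rw [dot_map]
      exact (hB _ _).2 (h1 j hj))
    (fun j hj => by
      rw [dot_map, ← map_mul, ← map_mul]
      exact (hB _ _).2 (h2 j hj))
    (fun a => (hB _ _).2 (h3 a))
  rw [evVW_map, ← map_pow, ← map_pow, ← map_prod, ← map_prod, ← map_mul, ← map_mul] at hc
  exact (hB _ _).1 hc

end

end Pool.Agent.H5.DG

end
end
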