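import Pool.Agent.H94.DG.M03
import Pool.Agent.H94.DG.M06
import Pool.Agent.H94.DG.M09
import Pool.Agent.H94.DG.M10
import Pool.Agent.H94.DG.M11

/-! The parts of this file: H17GT.Main, H17LG.Translate, H39.HC.GTEnd, H39.HC.Jac, H5.DG2.TrFin, H39.HC.WrapF, H39.HC.GTEndO. -/

section

/-!
# Subvarieties of generic complete intersections are of general type
-/

open MvPolynomial

noncomputable section

namespace Pool.Agent.H17GT

variable {N c : ℕ}

theorem essFiniteType_functionField (P : Ideal (MvPolynomial (Fin (N + 1)) ℂ)) [P.IsPrime] :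
    Algebra.EssFiniteType ℂ (functionField P) := by
  rw [IntermediateField.essFiniteType_iff]
  have hfin : {y | ∃ i j, y = coordFun P i / coordFun P j}.Finite := by
    have : {y | ∃ i j, y = coordFun P i / coordFun P j} =
        Set.range fun q : Fin (N + 1) × Fin (N + 1) => coordFun P q.1 / coordFun P q.2 := by
      ext y
      constructor
      · rintro ⟨i, j, rfl⟩
        exact ⟨(i, j), rfl⟩
      · rintro ⟨⟨i, j⟩, rfl⟩
        exact ⟨i, j, rfl⟩
    rw [this]
    exact Set.finite_range _
  refine ⟨hfin.toFinset, ?_⟩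
  rw [functionField, Set.Finite.coe_toFinset]

end Pool.Agent.H17GT

end
end

section

/-!
# Comparison of two forms of the definitions
-/

open MvPolynomial

noncomputable section

namespace Pool.Agent.H17LG

section

variable {K : Type} [Field K] [Algebra ℂ K] {k : ℕ}

/-- the same form -/
def toForm (ω : H23.RatForm K k) : H23.Fano.Form K k := ω

lemma toForm_smul (g : K) (ω : H23.RatForm K k) : toForm (g • ω) = g • toForm ω := rfl

lemma toForm_zero : toForm (0 : H23.RatForm K k) = 0 := rfl

lemma toForm_injective : Function.Injective (toForm : H23.RatForm K k → H23.Fano.Form K k) :=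
  fun _ _ h => h

lemma toForm_mem {E : H23.PrimeDivisorOver K k} {ω : H23.RatForm K k}
    (h : ω ∈ H23.regularForms k E.localRing) :
    toForm ω ∈ H23.Fano.regularForms k (H23.toFano E).localRing :=
  (H23.fano_mem_regularForms (A := E.localRing) rfl ω).2 h

lemma poleAtMost_zero {E : H23.PrimeDivisorOver K k} {m : ℕ} {f : K} {ω : H23.RatForm K k}
    (h : H17GT.RegularAlong E m f ω) :
    Variety.PoleAtMost 0 (H23.toFano E) m f (toForm ω) := by
  obtain ⟨g, η, h1, h2, h3⟩ := h
  refine ⟨g, toForm η, toForm_mem h1, ?_, ?_⟩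
  · rw [h2, toForm_smul]
  · rw [Nat.cast_zero, add_zero]
    exact h3

lemma poleAtMost_self {E : H23.PrimeDivisorOver K k} {m : ℕ} {f : K} {ω : H23.RatForm K k}
    (h : LogRegularAlong E m f ω) : Variety.PoleAtMost m (H23.toFano E) m f (toForm ω) := by
  obtain ⟨g, η, h1, h2, h3⟩ := h
  refine ⟨g, toForm η, toForm_mem h1, ?_, h3⟩
  rw [h2, toForm_smul]

lemma isLogGeneralType_translate {B : H23.PrimeDivisorOver K k → Prop}
    {B' : H23.Fano.PrimeDivisorOver K k → Prop} (hB : ∀ E, B E ↔ B' (H23.toFano E))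
    (h : IsLogGeneralType B) : Variety.IsLogGeneralType B' := by
  obtain ⟨m, hm, ω, hω, r, f, hf, h1, h2⟩ := h
  refine ⟨m, hm, toForm ω, fun h0 => hω (toForm_injective (h0.trans toForm_zero.symm)), r, f, hf,
    fun i E => ?_, h2⟩
  obtain ⟨E, rfl⟩ : ∃ E', H23.toFano E' = E := ⟨H23.ofFano E, H23.toFano_ofFano E⟩
  refine ⟨fun hE => ?_, fun hE => ?_⟩
  · exact poleAtMost_zero ((h1 i E).1 fun h4 => hE ((hB E).1 h4))
  · exact poleAtMost_self ((h1 i E).2 ((hB E).2 hE))

end

end Pool.Agent.H17LG

end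
end

section

/-!
# Log general type from a good polynomial
-/

open MvPolynomial
open Pool.Agent.H23 (dualDer)

noncomputable section

namespace Pool.Agent.H39.HC

variable {L : Type} [Field L] [Algebra ℂ L]

/-- A change of the basis of the differentials. -/
theorem Good.frame {ι : Type} {k n K : ℕ} {t : ι → Fin (n + 1) → ℂ}
    {Q : MvPolynomial (Fin (k + 2) × Fin (n + 1)) ℂ} (hQ : Good t K Q) (x : Fin (n + 1) → L)
    (b b' : Module.Basis (Fin (k + 1)) L Ω[L⁄ℂ]) :
    ev (Fin.cons x fun i l => dualDer b i (x l) : Fin (k + 2) → Fin (n + 1) → L) Q *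
        (b'.toMatrix b).det ^ K =
      ev (Fin.cons x fun i l => dualDer b' i (x l) : Fin (k + 2) → Fin (n + 1) → L) Q := by
  classical
  set A : Matrix (Fin (k + 2)) (Fin (k + 2)) L := Matrix.of
    (Fin.cons (Fin.cons 1 0) fun i => Fin.cons 0 (b'.toMatrix b i)) with hA
  have h := hQ.det_ring A
    (Fin.cons x fun i l => dualDer b i (x l) : Fin (k + 2) → Fin (n + 1) → L)
  have e1 : (fun a l => ∑ a', A a a' *
      (Fin.cons x fun i l => dualDer b i (x l) : Fin (k + 2) → Fin (n + 1) → L) a' l) =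
      (Fin.cons x fun i l => dualDer b' i (x l) : Fin (k + 2) → Fin (n + 1) → L) := by
    funext a l
    rw [Fin.sum_univ_succ]
    refine Fin.cases ?_ (fun i => ?_) a
    · simp only [hA, Matrix.of_apply, Fin.cons_zero, Fin.cons_succ, one_mul, Pi.zero_apply,
        zero_mul, Finset.sum_const_zero, add_zero]
    · simp only [hA, Matrix.of_apply, Fin.cons_zero, Fin.cons_succ, zero_mul, zero_add]
      rw [Pool.Agent.H23.dualDer_apply]
      have e2 := b.toMatrix_mulVec_repr b' (KaehlerDifferential.D ℂ L (x l))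
      have e3 := congrFun e2 i
      rw [← e3]
      rfl
  have e2 : A.det = (b'.toMatrix b).det := by
    rw [Matrix.det_succ_row_zero, Finset.sum_eq_single 0]
    · simp only [hA, Matrix.of_apply, Fin.cons_zero, Fin.val_zero, pow_zero, one_mul,
        Fin.succAbove_zero]
      congr 1
    · intro j _ hj
      obtain ⟨j', rfl⟩ := Fin.exists_succ_eq.2 hj
      simp only [hA, Matrix.of_apply, Fin.cons_zero, Fin.cons_succ, Pi.zero_apply, mul_zero,
        zero_mul]
    · intro h0
      exact absurd (Finset.mem_univ _) h0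
  rw [e1, e2] at h
  rw [h, mul_comm]

/-- Scaling of the coordinates. -/
theorem Good.scale {ι : Type} {k n K : ℕ} {t : ι → Fin (n + 1) → ℂ}
    {Q : MvPolynomial (Fin (k + 2) × Fin (n + 1)) ℂ} (hQ : Good t K Q) (x : Fin (n + 1) → L)
    (D : Fin (k + 1) → Derivation ℂ L L) (c : L) :
    ev (Fin.cons (fun l => c * x l) fun i l => D i (c * x l) : Fin (k + 2) → Fin (n + 1) → L) Q =
      c ^ ((k + 2) * K) *
        ev (Fin.cons x fun i l => D i (x l) : Fin (k + 2) → Fin (n + 1) → L) Q := by
  classical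
  set A : Matrix (Fin (k + 2)) (Fin (k + 2)) L := Matrix.of
    (Fin.cons (Fin.cons c 0) fun i => Fin.cons (D i c) fun j => if i = j then c else 0) with hA
  have h := hQ.det_ring A
    (Fin.cons x fun i l => D i (x l) : Fin (k + 2) → Fin (n + 1) → L)
  have e1 : (fun a l => ∑ a', A a a' *
      (Fin.cons x fun i l => D i (x l) : Fin (k + 2) → Fin (n + 1) → L) a' l) =
      (Fin.cons (fun l => c * x l) fun i l => D i (c * x l) :
        Fin (k + 2) → Fin (n + 1) → L) := by
    funext a l
    rw [Fin.sum_univ_succ]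
    refine Fin.cases ?_ (fun i => ?_) a
    · simp only [hA, Matrix.of_apply, Fin.cons_zero, Fin.cons_succ, Pi.zero_apply,
        zero_mul, Finset.sum_const_zero, add_zero]
    · simp only [hA, Matrix.of_apply, Fin.cons_zero, Fin.cons_succ, ite_mul, zero_mul,
        Finset.sum_ite_eq, Finset.mem_univ, if_true]
      rw [Derivation.leibniz, smul_eq_mul, smul_eq_mul]
      ring
  have e2 : A.det = c ^ (k + 2) := by
    rw [Matrix.det_succ_row_zero, Finset.sum_eq_single 0]
    · simp only [hA, Matrix.of_apply, Fin.cons_zero, Fin.val_zero, pow_zero, one_mul,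
        Fin.succAbove_zero]
      have e3 : (Matrix.of (Fin.cons (Fin.cons c 0) fun i => Fin.cons (D i c)
          fun j => if i = j then c else 0 : Fin (k + 2) → Fin (k + 2) → L)).submatrix
          Fin.succ Fin.succ = Matrix.diagonal fun _ : Fin (k + 1) => c := by
        ext i j
        simp only [Matrix.submatrix_apply, Matrix.of_apply, Fin.cons_succ, Matrix.diagonal_apply]
      rw [e3, Matrix.det_diagonal, Finset.prod_const, Finset.card_univ, Fintype.card_fin]
      ring
    · intro j _ hj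
      obtain ⟨j', rfl⟩ := Fin.exists_succ_eq.2 hj
      simp only [hA, Matrix.of_apply, Fin.cons_zero, Fin.cons_succ, Pi.zero_apply, mul_zero,
        zero_mul]
    · intro h0
      exact absurd (Finset.mem_univ _) h0
  rw [e1, e2, ← pow_mul] at h
  exact h

end Pool.Agent.H39.HC

end
end

section

/-!
# Independence of the derivatives, and the transcendence degree
-/

open MvPolynomial
open Pool.Agent.H23 (dualDer)

noncomputable section

namespace Pool.Agent.H39.HC

variable {L : Type} [Field L] [Algebra ℂ L]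

/-- A derivation that vanishes on a subfield over which `L` is algebraic is zero. -/
private theorem Jac_der {F : IntermediateField ℂ L} (halg : Algebra.IsAlgebraic F L)
    (Y : Derivation ℂ L L) (hY : ∀ c ∈ F, Y c = 0) (f : L) : Y f = 0 := by
  have h1 : Algebra.IsSeparable F L := inferInstance
  have h2 : Algebra.FormallyUnramified F L := Algebra.FormallyUnramified.of_isSeparable F L
  let T : L →ₗ[F] L :=
    { toFun := Y
      map_add' := map_add Y
      map_smul' := fun c g => by
        have h3 : c • g = (c : L) * g := rfl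
        rw [h3, Y.leibniz, hY c c.2, smul_zero, add_zero]
        rfl }
  let YF : Derivation F L L := Derivation.mk' T fun a b => Y.leibniz a b
  have h4 : YF f = YF.liftKaehlerDifferential (KaehlerDifferential.D F L f) := by
    rw [Derivation.liftKaehlerDifferential_comp_D]
  have h5 : KaehlerDifferential.D F L f = 0 := Subsingleton.elim _ _
  rw [h5, map_zero] at h4
  exact h4

private theorem Jac_adjoin {ι : Type} (x : ι → L) (Y : Derivation ℂ L L)
    (hY : ∀ l, Y (x l) = 0) : ∀ c ∈ IntermediateField.adjoin ℂ (Set.range x), Y c = 0 := by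
  intro c hc
  induction hc using IntermediateField.adjoin_induction with
  | mem c hc =>
    obtain ⟨l, rfl⟩ := hc
    exact hY l
  | algebraMap c => exact Y.map_algebraMap c
  | add a b _ _ ha hb => rw [map_add, ha, hb, add_zero]
  | inv a _ ha =>
    rcases eq_or_ne a 0 with h0 | h0
    · rw [h0, inv_zero, map_zero]
    · have h1 : Y (a * a⁻¹) = 0 := by
        rw [mul_inv_cancel₀ h0]
        exact Y.map_one_eq_zero
      rw [Y.leibniz, ha, smul_zero, add_zero, smul_eq_mul] at h1
      exact (mul_eq_zero.mp h1).resolve_left h0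
  | mul a b _ _ ha hb => rw [Y.leibniz, ha, hb, smul_zero, smul_zero, add_zero]

/-- The coordinate vector and its derivatives are linearly independent. -/
theorem linearIndependent_derivatives {k n : ℕ} {x : Fin (n + 1) → L} {i₀ : Fin (n + 1)}
    (hi₀ : x i₀ = 1)
    (halg : Algebra.IsAlgebraic (IntermediateField.adjoin ℂ (Set.range x)) L)
    (b : Module.Basis (Fin (k + 1)) L Ω[L⁄ℂ]) :
    LinearIndependent L
      (Fin.cons x fun i l => dualDer b i (x l) : Fin (k + 2) → Fin (n + 1) → L) := by
  rw [Fintype.linearIndependent_iff]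
  intro g hg
  rw [Fin.sum_univ_succ] at hg
  simp only [Fin.cons_zero, Fin.cons_succ] at hg
  have h1 : ∀ l, g 0 * x l + ∑ i : Fin (k + 1), g i.succ * dualDer b i (x l) = 0 := by
    intro l
    have h2 := congrFun hg l
    simpa [Finset.sum_apply] using h2
  have hg0 : g 0 = 0 := by
    have h2 := h1 i₀
    rw [hi₀] at h2
    have h3 : ∀ i, dualDer b i (1 : L) = 0 := fun i => (dualDer b i).map_one_eq_zero
    simpa [h3] using h2
  let Y : Derivation ℂ L L := ∑ i : Fin (k + 1), g i.succ • dualDer b i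
  have hYf : ∀ f, Y f = ∑ i : Fin (k + 1), g i.succ * dualDer b i f := by
    intro f
    let ψ : Derivation ℂ L L →+ L := ⟨⟨fun D => D f, rfl⟩, fun _ _ => rfl⟩
    exact map_sum ψ (fun i : Fin (k + 1) => g i.succ • dualDer b i) Finset.univ
  have hY : ∀ l, Y (x l) = 0 := by
    intro l
    have h2 := h1 l
    rw [hg0, zero_mul, zero_add] at h2
    rw [hYf, h2]
  have hY0 : ∀ f, Y f = 0 := Jac_der halg Y (Jac_adjoin x Y hY)
  let Φ : Ω[L⁄ℂ] →ₗ[L] L := ∑ i : Fin (k + 1), g i.succ • b.coord i
  have hΦ : Φ = 0 := by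
    refine LinearMap.ext_on_range (KaehlerDifferential.span_range_derivation ℂ L) fun f => ?_
    have h2 := hY0 f
    rw [hYf] at h2
    simp only [Φ, LinearMap.sum_apply, LinearMap.smul_apply, Module.Basis.coord_apply,
      smul_eq_mul, LinearMap.zero_apply]
    exact h2
  intro a
  refine Fin.cases hg0 (fun j => ?_) a
  have h3 : Φ (b j) = 0 := by rw [hΦ, LinearMap.zero_apply]
  simp only [Φ, LinearMap.sum_apply, LinearMap.smul_apply, Module.Basis.coord_apply,
    smul_eq_mul, Module.Basis.repr_self] at h3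
  rw [Finset.sum_eq_single j] at h3
  · simpa using h3
  · intro i _ hij
    simp [Ne.symm hij]
  · intro h
    exact absurd (Finset.mem_univ j) h

private theorem Jac_trdeg {ι : Type} [Fintype ι] {y : ι → L} {w : ℕ}
    (halg : Algebra.IsAlgebraic (IntermediateField.adjoin ℂ (Set.range y)) L) {z : Fin w → L}
    (hz : IsTranscendenceBasis ℂ z) : w ≤ Fintype.card ι := by
  have h1 : Algebra.IsAlgebraic (Algebra.adjoin ℂ (Set.range y)) L := by
    open scoped IntermediateField.algebraAdjoinAdjoin in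
    exact (IsFractionRing.comap_isAlgebraic_iff (A := Algebra.adjoin ℂ (Set.range y))
      (K := IntermediateField.adjoin ℂ (Set.range y)) (C := L)).mpr halg
  have h2 := Algebra.IsAlgebraic.trdeg_le_cardinalMk ℂ (Set.range y)
  have h3 : Cardinal.mk (Fin w) = Algebra.trdeg ℂ L := hz.cardinalMk_eq_trdeg
  rw [← h3] at h2
  have h4 : Cardinal.mk (Set.range y) ≤ Cardinal.mk ι := Cardinal.mk_range_le
  have h5 := h2.trans h4
  simpa using h5

/-- The transcendence degree is at most `n`. -/
theorem trdeg_le {w n : ℕ} {x : Fin (n + 1) → L} {i₀ : Fin (n + 1)} (hi₀ : x i₀ = 1)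
    (halg : Algebra.IsAlgebraic (IntermediateField.adjoin ℂ (Set.range x)) L) {z : Fin w → L}
    (hz : IsTranscendenceBasis ℂ z) : w ≤ n := by
  classical
  let y' : {l : Fin (n + 1) // l ≠ i₀} → L := fun l => x l
  have hsub : IntermediateField.adjoin ℂ (Set.range x) ≤
      IntermediateField.adjoin ℂ (Set.range y') := by
    rw [IntermediateField.adjoin_le_iff]
    rintro _ ⟨l, rfl⟩
    by_cases hl : l = i₀
    · rw [hl, hi₀]
      exact one_mem _
    · exact IntermediateField.subset_adjoin ℂ _ ⟨⟨l, hl⟩, rfl⟩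
  have halg' : Algebra.IsAlgebraic (IntermediateField.adjoin ℂ (Set.range y')) L := by
    let _ : Algebra (IntermediateField.adjoin ℂ (Set.range x))
      (IntermediateField.adjoin ℂ (Set.range y')) :=
      (IntermediateField.inclusion hsub).toAlgebra
    have : IsScalarTower (IntermediateField.adjoin ℂ (Set.range x))
      (IntermediateField.adjoin ℂ (Set.range y')) L := IsScalarTower.of_algebraMap_eq fun _ => rfl
    exact Algebra.IsAlgebraic.tower_top (K := IntermediateField.adjoin ℂ (Set.range x)) _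
  have hw := Jac_trdeg halg' hz
  have hc : Fintype.card {l : Fin (n + 1) // l ≠ i₀} = n := by
    rw [Fintype.card_subtype_compl, Fintype.card_fin, Fintype.card_subtype_eq]
    omega
  omega

end Pool.Agent.H39.HC

end
end

section

/-!
# Project DG2, module TrFin: a transcendence degree

The elements of `A` lie in the subfield `K' = ` algebraic closure in `L` of `ℂ(j uu, S)` (the `j x`, `x : Omg`, are algebraic over
`ℂ(j uu)`: `omg_algebraic`), which has transcendence degree at most `s + 1`; the `y i` are integral over `A`, so they are algebraic over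
`ℂ(j uu, S)` as well, and so are all `aeval y (f i)`.  So no `s + 2` of them are algebraically independent over `ℂ`
(`IsTranscendenceBasis`, `Algebra.trdeg`, exchange).
-/

open MvPolynomial

noncomputable section

namespace Pool.Agent.H5.DG

/-- The images of the elements of `Omg` are algebraic. -/
private theorem TrFin_j {L : Type} [Field L] [Algebra ℂ L] (j : Omg →ₐ[ℂ] L)
    (F : IntermediateField ℂ L) (hF : j uu ∈ F) (x : Omg) : j x ∈ algebraicClosure F L := by
  rw [mem_algebraicClosure_iff]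
  obtain ⟨A, hA, hx⟩ := omg_algebraic x
  let u' : F := ⟨j uu, hF⟩
  have hcomp : (algebraMap F L).comp (Polynomial.aeval u' : Polynomial ℂ →ₐ[ℂ] F).toRingHom =
      (j : Omg →+* L).comp (Polynomial.aeval uu : Polynomial ℂ →ₐ[ℂ] Omg).toRingHom := by
    apply Polynomial.ringHom_ext
    · intro a
      simp only [RingHom.comp_apply, AlgHom.toRingHom_eq_coe, RingHom.coe_coe, Polynomial.aeval_C]
      rw [AlgHom.commutes, ← IsScalarTower.algebraMap_apply]
    · simp only [RingHom.comp_apply, AlgHom.toRingHom_eq_coe, RingHom.coe_coe, Polynomial.aeval_X]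
      rfl
  refine ⟨A.map (Polynomial.aeval u' : Polynomial ℂ →ₐ[ℂ] F).toRingHom, ?_, ?_⟩
  · rw [Polynomial.map_ne_zero_iff]
    · exact hA
    · rw [injective_iff_map_eq_zero]
      intro p hp
      have h1 : j (Polynomial.aeval uu p) = 0 := by
        have h2 := congrArg (fun φ => φ p) hcomp
        simp only [RingHom.comp_apply] at h2
        rw [hp, map_zero] at h2
        exact h2.symm
      have h3 : Polynomial.aeval uu p = 0 :=
        (map_eq_zero_iff (j : Omg →+* L) (j : Omg →+* L).injective).1 h1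
      exact aeval_uu_injective (by rw [h3, map_zero])
  · rw [Polynomial.aeval_def, Polynomial.eval₂_map, hcomp]
    rw [Polynomial.eval_map] at hx
    have h4 := Polynomial.hom_eval₂ A (Polynomial.aeval uu : Polynomial ℂ →ₐ[ℂ] Omg).toRingHom
      (j : Omg →+* L) x
    rw [hx, map_zero] at h4
    exact h4.symm

theorem no_independent {L : Type} [Field L] [Algebra ℂ L] (j : Omg →ₐ[ℂ] L) {s : ℕ}
    (S : Fin s → L) {M : ℕ} (y : Fin (M + 1) → L)
    (hy : ∀ i, IsIntegral (Subring.closure (Set.range j ∪ Set.range S)) (y i))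
    (f : Fin (s + 2) → MvPolynomial (Fin (M + 1)) ℂ) :
    ¬ AlgebraicIndependent ℂ fun i => aeval y (f i) := by
  classical
  intro hind
  obtain ⟨T, hT⟩ : ∃ T : Set L, T = insert (j uu) (Set.range S) := ⟨_, rfl⟩
  obtain ⟨F, hFdef⟩ : ∃ F : IntermediateField ℂ L, F = IntermediateField.adjoin ℂ T := ⟨_, rfl⟩
  have hTF : T ⊆ F := by
    rw [hFdef]
    exact IntermediateField.subset_adjoin ℂ T
  have hj : ∀ x : Omg, j x ∈ algebraicClosure F L := fun x =>
    TrFin_j j F (hTF (by rw [hT]; exact Set.mem_insert _ _)) x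
  have hF : ∀ z ∈ F, z ∈ algebraicClosure F L := fun z hz =>
    (algebraicClosure F L).algebraMap_mem (⟨z, hz⟩ : F)
  have hS : ∀ i, S i ∈ algebraicClosure F L := fun i =>
    hF _ (hTF (by rw [hT]; exact Set.mem_insert_of_mem _ ⟨i, rfl⟩))
  have hcl : Subring.closure (Set.range j ∪ Set.range S) ≤
      (algebraicClosure F L).toSubfield.toSubring := by
    rw [Subring.closure_le]
    rintro z (⟨x, rfl⟩ | ⟨i, rfl⟩)
    · exact hj x
    · exact hS i
  have hyD : ∀ i, y i ∈ algebraicClosure F L := by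
    intro i
    obtain ⟨p, hp, hpe⟩ := hy i
    rw [mem_algebraicClosure_iff']
    have h1 : IsIntegral (algebraicClosure F L) (y i) := by
      let ψ : Subring.closure (Set.range j ∪ Set.range S) →+* (algebraicClosure F L) :=
        Subring.inclusion hcl
      refine ⟨p.map ψ, hp.map _, ?_⟩
      rw [Polynomial.eval₂_map]
      exact hpe
    exact isIntegral_trans (R := F) (A := algebraicClosure F L) (y i) h1
  have hf : ∀ q : MvPolynomial (Fin (M + 1)) ℂ, aeval y q ∈ algebraicClosure F L := by
    intro q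
    induction q using MvPolynomial.induction_on with
    | C a =>
      rw [aeval_C]
      apply hF
      exact F.algebraMap_mem a
    | add p q hp hq =>
      rw [map_add]
      exact add_mem hp hq
    | mul_X p n hp =>
      rw [map_mul, aeval_X]
      exact mul_mem hp (hyD n)
  -- the matroid
  have hcl2 : ∀ z ∈ algebraicClosure F L, z ∈ (AlgebraicIndependent.matroid ℂ L).closure T := by
    intro z hz
    rw [AlgebraicIndependent.matroid_closure_eq]
    show z ∈ Subalgebra.algebraicClosure (Algebra.adjoin ℂ T) L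
    rw [Subalgebra.mem_algebraicClosure]
    subst hFdef
    rw [mem_algebraicClosure_iff] at hz
    open scoped IntermediateField.algebraAdjoinAdjoin in
    exact (IsFractionRing.isAlgebraic_iff (Algebra.adjoin ℂ T) (IntermediateField.adjoin ℂ T) L).2 hz
  have hI : (AlgebraicIndependent.matroid ℂ L).Indep (Set.range fun i => aeval y (f i)) := by
    rw [AlgebraicIndependent.matroid_indep_iff]
    exact hind.coe_range
  have h1 := hI.encard_le_eRk_of_subset (X := (AlgebraicIndependent.matroid ℂ L).closure T) (by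
    rintro _ ⟨i, rfl⟩
    exact hcl2 _ (hf _))
  rw [Matroid.eRk_closure_eq] at h1
  have h2 := h1.trans (Matroid.eRk_le_encard _ T)
  have h3 : (Set.range fun i => aeval y (f i)).encard = (s + 2 : ℕ) := by
    rw [← Set.image_univ, hind.injective.encard_image, Set.encard_univ]
    simp
  have h4 : T.encard ≤ (s + 1 : ℕ) := by
    rw [hT]
    refine (Set.encard_insert_le _ _).trans ?_
    have h5 : (Set.range S).encard ≤ (s : ℕ) := by
      rw [← Set.image_univ]
      refine (Set.encard_image_le _ _).trans ?_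
      rw [Set.encard_univ]
      simp
    push_cast
    exact add_le_add h5 le_rfl
  rw [h3] at h2
  have h6 := h2.trans h4
  have h7 : s + 2 ≤ s + 1 := by exact_mod_cast h6
  omega

end Pool.Agent.H5.DG

end
end

section

/-!
# Log general type from one function, in terms of `H23.Fano`
-/

open Pool.Agent.H23.Fano (PrimeDivisorOver Form)
open Pool.Agent.H17LG.Variety (IsLogGeneralType PoleAtMost)
open Pool.Agent.H23 (dualDer)

noncomputable section

namespace Pool.Agent.H39.HC

variable {L : Type} [Field L] [Algebra ℂ L] {k : ℕ}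

/-- Log general type from a function with the required poles (compare
`H92.GT.isLogGeneralType_of_function`, `H62.FC.logGeneralType_of_circuits`). -/
theorem isLogGeneralType_of_function [Algebra.EssFiniteType ℂ L] {z : Fin (k + 1) → L}
    (hz : IsTranscendenceBasis ℂ z) {b : Module.Basis (Fin (k + 1)) L Ω[L⁄ℂ]}
    {Bd : PrimeDivisorOver L (k + 1) → Prop} {M : ℕ} (hM : 1 ≤ M)
    {N : ℕ} {x : Fin (N + 1) → L} {j₀ : Fin (N + 1)} (hj₀ : x j₀ = 1)
    (halg : Algebra.IsAlgebraic (IntermediateField.adjoin ℂ (Set.range x)) L) {Θ : L}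
    (hΘ : Θ ≠ 0)
    (h : ∀ (E : PrimeDivisorOver L (k + 1)) (g₀ : L)
      (bE : Module.Basis (Fin (k + 1)) L Ω[L⁄ℂ]), E.ord g₀ = 1 →
      (∀ i f, 0 ≤ E.ord f → 0 ≤ E.ord (dualDer bE i f)) →
      (∀ i, i ≠ 0 → ∀ f, E.ord f ≤ E.ord (dualDer bE i f)) →
      (∀ f, E.ord f ≤ E.ord (g₀ * dualDer bE 0 f)) → ∀ i,
      (¬ Bd E → 0 ≤ E.ord (Θ * x i * (bE.toMatrix b).det ^ M)) ∧
        0 ≤ E.ord (Θ * x i * (bE.toMatrix b).det ^ M) + M) :
    IsLogGeneralType Bd := by
  refine ⟨M, hM, exteriorPower.ιMulti L (k + 1) (fun i => b i), ?_, N + 1,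
    Fin.cons (Θ * x j₀) fun i => Θ * x i, ?_, ?_, ?_⟩
  · intro h0
    have h1 : Pool.Agent.H23.fc b (exteriorPower.ιMulti L (k + 1) fun i => b i) = 0 := by
      rw [show (exteriorPower.ιMulti L (k + 1) fun i => b i) = 0 from h0, map_zero]
    rw [Pool.Agent.H23.fc_self] at h1
    exact one_ne_zero h1
  · rw [Fin.cons_zero, hj₀, mul_one]
    exact hΘ
  · intro i E
    obtain ⟨g, bE, hbE, hg0, hg, hη, hη', hη0⟩ :=
      Pool.Agent.H17LG.exists_logDivisorCoords hz (Pool.Agent.H23.ofFano E)
    change E.ord (g 0) = 1 at hg0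
    change ∀ i, 0 ≤ E.ord (g i) at hg
    change ∀ i f, 0 ≤ E.ord f → 0 ≤ E.ord (dualDer bE i f) at hη
    change ∀ i, i ≠ 0 → ∀ f, E.ord f ≤ E.ord (dualDer bE i f) at hη'
    change ∀ f, E.ord f ≤ E.ord (g 0 * dualDer bE 0 f) at hη0
    have hmem : Form.mk 1 g ∈ Pool.Agent.H23.Fano.regularForms (k + 1) E.localRing := by
      refine AddSubgroup.subset_closure ⟨1, g, ?_, hg, rfl⟩
      change 0 ≤ E.ord 1
      rw [E.ord.map_one]
    have hform : exteriorPower.ιMulti L (k + 1) (fun i => b i) =
        (bE.toMatrix b).det • Form.mk 1 g := by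
      change exteriorPower.ιMulti L (k + 1) (fun i => b i) = (bE.toMatrix b).det • ((1 : L) •
        exteriorPower.ιMulti L (k + 1) fun i => KaehlerDifferential.D ℂ L (g i))
      rw [one_smul, Pool.Agent.H23.ιMulti_eq bE (fun i => b i), Module.Basis.det_apply]
      simp only [hbE]
    have hi : ∃ i', (Fin.cons (Θ * x j₀) (fun i => Θ * x i) : Fin (N + 1 + 1) → L) i =
        Θ * x i' := by
      refine Fin.cases ⟨j₀, ?_⟩ (fun i => ⟨i, ?_⟩) i
      · rw [Fin.cons_zero]
      · rw [Fin.cons_succ]
    obtain ⟨i', hi'⟩ := hi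
    have h1 := h E (g 0) bE hg0 hη hη' hη0 i'
    rw [hi']
    refine ⟨fun hE => ⟨_, _, hmem, hform, ?_⟩, fun _ => ⟨_, _, hmem, hform, h1.2⟩⟩
    rw [Nat.cast_zero, add_zero]
    exact h1.1 hE
  · refine Pool.Agent.H92.GT.algebraic_of_le ?_ halg
    rw [IntermediateField.adjoin_le_iff]
    rintro _ ⟨i, rfl⟩
    apply IntermediateField.subset_adjoin
    refine ⟨i.succ, ?_⟩
    simp only [Fin.cons_succ, Fin.cons_zero]
    rw [hj₀, mul_one, mul_div_cancel_left₀ _ hΘ]

end Pool.Agent.H39.HC

end
end

section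

/-!
# Log general type from a good polynomial, with a boundary
-/

open MvPolynomial
open Pool.Agent.H23.Fano (PrimeDivisorOver Form)
open Pool.Agent.H17LG.Variety (IsLogGeneralType PoleAtMost)
open Pool.Agent.H23 (dualDer)

noncomputable section

namespace Pool.Agent.H39.HC

variable {L : Type} [Field L] [Algebra ℂ L]

omit [Algebra ℂ L] in
private theorem GTEndO_mul (v : AddValuation L (WithTop ℤ)) {a b : L} {α β : ℤ} (ha : v a = α)
    (hb : v b = β) : v (a * b) = ((α + β : ℤ) : WithTop ℤ) := by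
  rw [v.map_mul, ha, hb, WithTop.coe_add]

omit [Algebra ℂ L] in
private theorem GTEndO_pow (v : AddValuation L (WithTop ℤ)) {a : L} {α : ℤ} (ha : v a = α)
    (s : ℕ) : v (a ^ s) = ((s * α : ℤ) : WithTop ℤ) := by
  induction s with
  | zero => rw [pow_zero, v.map_one]; simp
  | succ s ih =>
    rw [pow_succ, GTEndO_mul v ih ha]
    congr 1
    push_cast
    ring

omit [Algebra ℂ L] in
private theorem GTEndO_prod (v : AddValuation L (WithTop ℤ)) {ι : Type} {f : ι → L} {α : ι → ℤ}
    (hf : ∀ j, v (f j) = α j) (s : Finset ι) :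
    v (∏ j ∈ s, f j) = ((∑ j ∈ s, α j : ℤ) : WithTop ℤ) := by
  classical
  induction s using Finset.induction_on with
  | empty => rw [Finset.prod_empty, v.map_one, Finset.sum_empty]; simp
  | insert a s ha ih =>
    rw [Finset.prod_insert ha, Finset.sum_insert ha]
    exact GTEndO_mul v (hf a) ih

private theorem GTEndO_lin_mul {n : ℕ} (v : Fin (n + 1) → ℂ) (c : L) (x : Fin (n + 1) → L) :
    lin v (fun l => c * x l) = c * lin v x := by
  unfold lin
  rw [Finset.mul_sum]
  exact Finset.sum_congr rfl fun i _ => (mul_smul_comm _ _ _).symm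

private theorem GTEndO_lin_der {n : ℕ} (v : Fin (n + 1) → ℂ) (D : Derivation ℂ L L)
    (x : Fin (n + 1) → L) : lin v (fun l => D (x l)) = D (lin v x) := by
  unfold lin
  rw [map_sum]
  exact Finset.sum_congr rfl fun i _ => (D.map_smul _ _).symm

/-- At most `n` of the values of the linear forms have positive order. -/
private theorem GTEndO_card (v : AddValuation L (WithTop ℤ))
    (hv : ∀ c : ℂ, 0 ≤ v (algebraMap ℂ L c)) {n : ℕ} {ι : Type} {t : ι → Fin (n + 1) → ℂ}
    (ht : GenPos t) {y : Fin (n + 1) → L} {i₁ : Fin (n + 1)} (hy : v (y i₁) = 0) {B : Finset ι}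
    (hB : ∀ j ∈ B, 1 ≤ v (lin (t j) y)) : B.card ≤ n := by
  classical
  by_contra hcon
  push Not at hcon
  obtain ⟨S, hSB, hS⟩ := Finset.exists_subset_card_eq (Nat.succ_le_of_lt hcon)
  have hli := ht S hS.le
  have hspan : Submodule.span ℂ (Set.range fun j : S => t j) = ⊤ :=
    hli.span_eq_top_of_card_eq_finrank' (by
      rw [Fintype.card_coe, hS, Module.finrank_fintype_fun_eq_card, Fintype.card_fin])
  have hmem : (Pi.single i₁ 1 : Fin (n + 1) → ℂ) ∈
      Submodule.span ℂ (Set.range fun j : S => t j) := by rw [hspan]; trivial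
  obtain ⟨c, hc⟩ := (Submodule.mem_span_range_iff_exists_fun ℂ).1 hmem
  have e1 : y i₁ = ∑ j : S, c j • lin (t j) y := by
    unfold lin
    have e2 : ∀ j : S, c j • ∑ i, t j i • y i = ∑ i, (c j * t j i) • y i := by
      intro j
      rw [Finset.smul_sum]
      exact Finset.sum_congr rfl fun i _ => smul_smul _ _ _
    rw [Finset.sum_congr rfl fun j _ => e2 j, Finset.sum_comm]
    have e3 : ∀ i, ∑ j : S, (c j * t j i) • y i = (Pi.single i₁ 1 : Fin (n + 1) → ℂ) i • y i := by
      intro i
      rw [← Finset.sum_smul, ← hc]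
      congr 1
      rw [Finset.sum_apply]
      rfl
    rw [Finset.sum_congr rfl fun i _ => e3 i, Finset.sum_eq_single i₁]
    · rw [Pi.single_eq_same, one_smul]
    · intro i _ hi
      rw [Pi.single_eq_of_ne hi, zero_smul]
    · intro h0
      exact absurd (Finset.mem_univ _) h0
  have h1 : (1 : WithTop ℤ) ≤ v (y i₁) := by
    rw [e1]
    refine v.map_le_sum fun j _ => ?_
    rw [Algebra.smul_def, v.map_mul]
    have h2 := hB j (hSB j.2)
    calc (1 : WithTop ℤ) = 0 + 1 := by rw [zero_add]
      _ ≤ _ := add_le_add (hv _) h2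
  rw [hy] at h1
  exact absurd h1 (by decide)

/-- **Log general type from a good polynomial**, with a boundary. -/
theorem isLogGeneralType_of_goodO [Algebra.EssFiniteType ℂ L] {k n : ℕ} {z : Fin (k + 1) → L}
    (hz : IsTranscendenceBasis ℂ z) {Bd : PrimeDivisorOver L (k + 1) → Prop} {ι : Type}
    [Fintype ι] {t : ι → Fin (n + 1) → ℂ} (ht : GenPos t) {x : Fin (n + 1) → L}
    {i₀ : Fin (n + 1)} (hi₀ : x i₀ = 1)
    (halg : Algebra.IsAlgebraic (IntermediateField.adjoin ℂ (Set.range x)) L)
    (hx : ∀ j, lin (t j) x ≠ 0) {m K : ℕ} (hm : 2 ≤ m) (hK : 1 ≤ K)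
    {Q : MvPolynomial (Fin (k + 2) × Fin (n + 1)) ℂ} (hQ : Good t K Q)
    (b : Module.Basis (Fin (k + 1)) L Ω[L⁄ℂ])
    (hΘ : ev (Fin.cons x fun i l => dualDer b i (x l) : Fin (k + 2) → Fin (n + 1) → L) Q ≠ 0)
    (hnum : m * (k + 2) * K < (m - 1) * Fintype.card ι)
    (hmult : ∀ (E : PrimeDivisorOver L (k + 1)), ¬ Bd E → ∀ (i₁ : Fin (n + 1)),
      (∀ i, E.ord (x i₁) ≤ E.ord (x i)) → ∀ j, E.ord (lin (t j) x) = E.ord (x i₁) ∨
        E.ord (x i₁) + (m : WithTop ℤ) ≤ E.ord (lin (t j) x)) :
    IsLogGeneralType Bd := by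
  classical
  have hP0 : ∏ j, lin (t j) x ^ (m - 1) ≠ 0 :=
    Finset.prod_ne_zero_iff.2 fun j _ => pow_ne_zero _ (hx j)
  refine isLogGeneralType_of_function (M := m * K) hz (b := b) (Nat.mul_pos (by omega) hK) hi₀ halg
    (Θ := ev (Fin.cons x fun i l => dualDer b i (x l) : Fin (k + 2) → Fin (n + 1) → L) Q ^ m /
      ∏ j, lin (t j) x ^ (m - 1)) (div_ne_zero (pow_ne_zero _ hΘ) hP0) ?_
  intro E g₀ bE hg₀ hD1 hD2 hD3 i
  set G := ev (Fin.cons x fun i l => dualDer b i (x l) :
      Fin (k + 2) → Fin (n + 1) → L) Q ^ m / (∏ j, lin (t j) x ^ (m - 1)) * x i *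
      (bE.toMatrix b).det ^ (m * K) with hG
  by_cases hG0 : G = 0
  · rw [hG0, E.ord.map_zero, top_add]
    exact ⟨fun _ => le_top, le_top⟩
  have hframe := hQ.frame x b bE
  set Θb := ev (Fin.cons x fun i l => dualDer b i (x l) :
      Fin (k + 2) → Fin (n + 1) → L) Q with hΘb
  set ΘE := ev (Fin.cons x fun i l => dualDer bE i (x l) :
      Fin (k + 2) → Fin (n + 1) → L) Q with hΘE
  have hGeq : G * ∏ j, lin (t j) x ^ (m - 1) = ΘE ^ m * x i := by
    rw [hG, ← hframe, mul_pow, ← pow_mul, mul_comm K m]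
    field_simp
  have hxi : x i ≠ 0 := by
    intro h0
    apply hG0
    rw [hG, h0, mul_zero, zero_mul]
  have hΘE0 : ΘE ≠ 0 := by
    intro h0
    rw [h0, zero_pow (by omega), zero_mul] at hGeq
    rcases mul_eq_zero.1 hGeq with h1 | h1
    · exact hG0 h1
    · exact hP0 h1
  -- the minimal order
  obtain ⟨i₁, -, hi₁⟩ := Finset.exists_min_image Finset.univ (fun i => E.ord (x i))
    ⟨i₀, Finset.mem_univ _⟩
  have hi₁' : ∀ i, E.ord (x i₁) ≤ E.ord (x i) := fun i => hi₁ i (Finset.mem_univ i)
  have hmu0 : E.ord (x i₁) ≤ 0 := by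
    have := hi₁' i₀
    rwa [hi₀, E.ord.map_one] at this
  obtain ⟨μ, hμ⟩ : ∃ μ : ℤ, E.ord (x i₁) = μ := by
    have : E.ord (x i₁) ≠ ⊤ := ne_top_of_le_ne_top (by simp) hmu0
    exact ⟨(E.ord (x i₁)).untop this, by simp⟩
  have hμ0 : μ ≤ 0 := by
    rw [hμ] at hmu0
    exact_mod_cast hmu0
  obtain ⟨s, hs⟩ : ∃ s : ℕ, (s : ℤ) = -μ := ⟨(-μ).toNat, Int.toNat_of_nonneg (by omega)⟩
  have hg₀' : E.ord g₀ = ((1 : ℤ) : WithTop ℤ) := by rw [hg₀]; rfl
  set c := g₀ ^ s with hc
  have hvc : E.ord c = ((-μ : ℤ) : WithTop ℤ) := by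
    rw [hc, GTEndO_pow E.ord hg₀' s, mul_one, hs]
  have hc0 : c ≠ 0 := by
    intro h0
    rw [h0, E.ord.map_zero] at hvc
    exact WithTop.coe_ne_top hvc.symm
  set y : Fin (n + 1) → L := fun l => c * x l with hy
  have hy0 : ∀ l, 0 ≤ E.ord (y l) := by
    intro l
    rw [hy]
    show 0 ≤ E.ord (c * x l)
    rw [E.ord.map_mul, hvc]
    calc (0 : WithTop ℤ) = ((-μ : ℤ) : WithTop ℤ) + (μ : WithTop ℤ) := by
          rw [← WithTop.coe_add]; simp
      _ ≤ _ := by
          rw [← hμ]
          exact add_le_add le_rfl (hi₁' l)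
  have hy1 : E.ord (y i₁) = 0 := by
    show E.ord (c * x i₁) = 0
    rw [GTEndO_mul E.ord hvc hμ]
    simp
  -- the orders of the linear forms
  have hl : ∀ j, ∃ l : ℤ, E.ord (lin (t j) x) = l := fun j => by
    have := (E.ord.ne_top_iff).2 (hx j)
    exact ⟨(E.ord (lin (t j) x)).untop this, by simp⟩
  choose l hl using hl
  set e : ι → ℤ := fun j => l j - μ with he
  have hey : ∀ j, E.ord (lin (t j) y) = ((e j : ℤ) : WithTop ℤ) := by
    intro j
    rw [hy, GTEndO_lin_mul, GTEndO_mul E.ord hvc (hl j), he]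
    congr 1
    ring
  have he0 : ∀ j, 0 ≤ e j := by
    intro j
    have h1 : 0 ≤ E.ord (lin (t j) y) := by
      unfold lin
      refine E.ord.map_le_sum fun i _ => ?_
      rw [Algebra.smul_def, E.ord.map_mul]
      exact add_nonneg (E.ord_const _) (hy0 i)
    rw [hey] at h1
    exact_mod_cast h1
  set B : Finset ι := Finset.univ.filter fun j => e j ≠ 0 with hB
  have hBcard : B.card ≤ n := by
    refine GTEndO_card E.ord E.ord_const ht hy1 fun j hj => ?_
    rw [hey]
    have h1 := he0 j
    have h2 : e j ≠ 0 := (Finset.mem_filter.1 hj).2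
    have h3 : (1 : ℤ) ≤ e j := by omega
    exact_mod_cast h3
  have hBli : LinearIndependent ℂ fun j : B => t j := ht B (by omega)
  -- the order of the good polynomial
  set F := ev (Fin.cons y fun i l => dualDer bE i (y l) :
      Fin (k + 2) → Fin (n + 1) → L) Q with hF
  have hFeq : F = c ^ ((k + 2) * K) * ΘE := hQ.scale x (fun i => dualDer bE i) c
  -- integers
  obtain ⟨θ, hθ⟩ : ∃ θ : ℤ, E.ord ΘE = θ :=
    ⟨(E.ord ΘE).untop ((E.ord.ne_top_iff).2 hΘE0), by simp⟩
  obtain ⟨ξ, hξ⟩ : ∃ ξ : ℤ, E.ord (x i) = ξ :=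
    ⟨(E.ord (x i)).untop ((E.ord.ne_top_iff).2 hxi), by simp⟩
  obtain ⟨γ, hγ⟩ : ∃ γ : ℤ, E.ord G = γ :=
    ⟨(E.ord G).untop ((E.ord.ne_top_iff).2 hG0), by simp⟩
  have h2 : γ + ∑ j, ((m - 1 : ℕ) : ℤ) * l j = (m : ℤ) * θ + ξ := by
    have e1 := congrArg E.ord hGeq
    rw [GTEndO_mul E.ord hγ (GTEndO_prod E.ord (fun j => GTEndO_pow E.ord (hl j) (m - 1)) _),
      GTEndO_mul E.ord (GTEndO_pow E.ord hθ m) hξ] at e1
    exact_mod_cast e1
  have h3 : μ ≤ ξ := by
    have := hi₁' i
    rw [hμ, hξ] at this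
    exact_mod_cast this
  have h4 : ∑ j, l j = ∑ j ∈ B, e j + (Fintype.card ι : ℤ) * μ := by
    have e1 : ∑ j ∈ B, e j = ∑ j, e j := by
      rw [hB]
      exact Finset.sum_filter_ne_zero _
    rw [e1, he, Finset.sum_sub_distrib, Finset.sum_const, Finset.card_univ, nsmul_eq_mul]
    ring
  rw [← Finset.mul_sum, h4] at h2
  have hm1 : ((m - 1 : ℕ) : ℤ) = (m : ℤ) - 1 := by
    rw [Nat.cast_sub (by omega)]; rfl
  have hnum' : (m : ℤ) * (k + 2) * K + 1 ≤ ((m : ℤ) - 1) * Fintype.card ι := by
    rw [← hm1]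
    exact_mod_cast hnum
  rw [hm1] at h2
  have e3 : 0 ≤ (-μ) * (((m : ℤ) - 1) * Fintype.card ι - (m : ℤ) * (k + 2) * K - 1) :=
    mul_nonneg (by omega) (by linarith only [hnum'])
  have e1 : γ = (m : ℤ) * θ + ξ - ((m : ℤ) - 1) * (∑ j ∈ B, e j + (Fintype.card ι : ℤ) * μ) := by
    linarith only [h2]
  have hSe0 : 0 ≤ ∑ j ∈ B, e j := Finset.sum_nonneg fun j _ => he0 j
  rw [hγ]
  have hnot : ¬ Bd E → 0 ≤ γ := by
    intro hBd
    have hem : ∀ j, e j = 0 ∨ (m : ℤ) ≤ e j := by
      intro j
      rcases hmult E hBd i₁ hi₁' j with h1 | h1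
      · left
        rw [hl, hμ] at h1
        have : l j = μ := by exact_mod_cast h1
        rw [he]
        show l j - μ = 0
        omega
      · right
        rw [hl, hμ] at h1
        have : μ + (m : ℤ) ≤ l j := by exact_mod_cast h1
        rw [he]
        show (m : ℤ) ≤ l j - μ
        omega
    have hBe : ∀ j ∈ B, (m : ℤ) ≤ e j := fun j hj =>
      (hem j).resolve_left (Finset.mem_filter.1 hj).2
    have hFle : ((∑ j ∈ B, (e j - 1) : ℤ) : WithTop ℤ) ≤ E.ord F := by
      refine hQ.le_ord E.ord E.ord_const hBli (ε := fun j => e j - 1) ?_ ?_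
      · intro a i
        refine Fin.cases ?_ (fun a => ?_) a
        · simp only [Fin.cons_zero]
          exact hy0 i
        · simp only [Fin.cons_succ]
          exact hD1 a _ (hy0 i)
      · intro j hj a
        refine Fin.cases ?_ (fun a => ?_) a
        · simp only [Fin.cons_zero]
          rw [hey]
          have : e j - 1 ≤ e j := by omega
          exact_mod_cast this
        · simp only [Fin.cons_succ]
          rw [GTEndO_lin_der]
          by_cases ha : a = 0
          · subst ha
            have h1 := hD3 (lin (t j) y)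
            rw [E.ord.map_mul, hg₀, hey] at h1
            rcases eq_or_ne (E.ord (dualDer bE 0 (lin (t j) y))) ⊤ with h2 | h2
            · rw [h2]
              exact le_top
            · obtain ⟨w, hw⟩ := WithTop.ne_top_iff_exists.1 h2
              rw [← hw] at h1 ⊢
              have h3 : e j ≤ 1 + w := by exact_mod_cast h1
              have h4 : e j - 1 ≤ w := by omega
              exact WithTop.coe_le_coe.2 h4
          · have h1 := hD2 a ha (lin (t j) y)
            rw [hey] at h1
            refine le_trans ?_ h1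
            have : e j - 1 ≤ e j := by omega
            exact_mod_cast this
    have h1 : ∑ j ∈ B, (e j - 1) ≤ ((k + 2) * K : ℕ) * (-μ) + θ := by
      rw [hFeq, GTEndO_mul E.ord (GTEndO_pow E.ord hvc _) hθ] at hFle
      exact_mod_cast hFle
    have h5 : ∑ j ∈ B, (m : ℤ) ≤ ∑ j ∈ B, e j := Finset.sum_le_sum hBe
    rw [Finset.sum_const, nsmul_eq_mul] at h5
    rw [Finset.sum_sub_distrib, Finset.sum_const, nsmul_eq_mul, mul_one] at h1
    push_cast at h1
    set Se := ∑ j ∈ B, e j with hSe
    have e2 : (m : ℤ) * (Se - B.card) ≤ (m : ℤ) * (((k : ℤ) + 2) * K * (-μ) + θ) :=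
      mul_le_mul_of_nonneg_left h1 (by positivity)
    nlinarith only [h3, e3, h2, h5, e2]
  have hbd : 0 ≤ γ + (m * K : ℕ) := by
    -- the frame `(g₀ D₀, D₁, …)`
    set A : Matrix (Fin (k + 2)) (Fin (k + 2)) L := Matrix.diagonal
      (Fin.cons 1 (Fin.cons g₀ fun _ : Fin k => (1 : L))) with hA
    have hdet := hQ.det_ring A
      (Fin.cons y fun i l => dualDer bE i (y l) : Fin (k + 2) → Fin (n + 1) → L)
    have hAd : A.det = g₀ := by
      rw [hA, Matrix.det_diagonal, Fin.prod_univ_succ, Fin.prod_univ_succ]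
      simp only [Fin.cons_zero, Fin.cons_succ, one_mul, Finset.prod_const_one, mul_one]
    rw [hAd] at hdet
    have hgK : E.ord (g₀ ^ K) = ((K : ℤ) : WithTop ℤ) := by
      rw [GTEndO_pow E.ord hg₀' K, mul_one]
    have hrow : ∀ a l, ∑ a', A a a' *
        (Fin.cons y fun i l => dualDer bE i (y l) : Fin (k + 2) → Fin (n + 1) → L) a' l =
        (Fin.cons y (Fin.cons (fun l => g₀ * dualDer bE 0 (y l))
          fun i l => dualDer bE (Fin.succ i) (y l)) : Fin (k + 2) → Fin (n + 1) → L) a l := by
      intro a l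
      rw [Finset.sum_eq_single a]
      · rw [hA, Matrix.diagonal_apply_eq]
        refine Fin.cases ?_ (fun a => ?_) a
        · simp only [Fin.cons_zero, one_mul]
        · refine Fin.cases ?_ (fun a => ?_) a
          · simp only [Fin.cons_succ, Fin.cons_zero]
          · simp only [Fin.cons_succ, one_mul]
      · intro b' _ hb'
        rw [hA, Matrix.diagonal_apply_ne _ (Ne.symm hb'), zero_mul]
      · intro h0
        exact absurd (Finset.mem_univ _) h0
    rw [show (fun a l => ∑ a', A a a' *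
        (Fin.cons y fun i l => dualDer bE i (y l) : Fin (k + 2) → Fin (n + 1) → L) a' l) =
        (Fin.cons y (Fin.cons (fun l => g₀ * dualDer bE 0 (y l))
          fun i l => dualDer bE (Fin.succ i) (y l)) : Fin (k + 2) → Fin (n + 1) → L) from
        funext fun a => funext fun l => hrow a l] at hdet
    have hle : ((∑ j ∈ B, e j : ℤ) : WithTop ℤ) ≤ E.ord (g₀ ^ K * F) := by
      rw [hF, ← hdet]
      refine hQ.le_ord E.ord E.ord_const hBli (ε := e) ?_ ?_
      · intro a i
        refine Fin.cases ?_ (fun a => ?_) a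
        · simp only [Fin.cons_zero]
          exact hy0 i
        · refine Fin.cases ?_ (fun a => ?_) a
          · simp only [Fin.cons_succ, Fin.cons_zero]
            exact (hy0 i).trans (hD3 (y i))
          · simp only [Fin.cons_succ]
            exact hD1 _ _ (hy0 i)
      · intro j hj a
        refine Fin.cases ?_ (fun a => ?_) a
        · simp only [Fin.cons_zero]
          rw [hey]
        · refine Fin.cases ?_ (fun a => ?_) a
          · simp only [Fin.cons_succ, Fin.cons_zero]
            have e4 : lin (t j) (fun l => g₀ * dualDer bE 0 (y l)) =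
                g₀ * dualDer bE 0 (lin (t j) y) := by
              rw [GTEndO_lin_mul, GTEndO_lin_der]
            rw [e4]
            have h5 := hD3 (lin (t j) y)
            rwa [hey] at h5
          · simp only [Fin.cons_succ]
            rw [GTEndO_lin_der]
            have h5 := hD2 (Fin.succ a) (Fin.succ_ne_zero a) (lin (t j) y)
            rwa [hey] at h5
    have h1 : ∑ j ∈ B, e j ≤ (K : ℤ) + (((k + 2) * K : ℕ) * (-μ) + θ) := by
      rw [hFeq, GTEndO_mul E.ord hgK (GTEndO_mul E.ord (GTEndO_pow E.ord hvc _) hθ)] at hle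
      exact_mod_cast hle
    push_cast at h1
    set Se := ∑ j ∈ B, e j with hSe
    have e2 : (m : ℤ) * (Se - K) ≤ (m : ℤ) * (((k : ℤ) + 2) * K * (-μ) + θ) :=
      mul_le_mul_of_nonneg_left (by linarith only [h1]) (by positivity)
    push_cast
    nlinarith only [h3, e3, h2, hSe0, e2]
  refine ⟨fun h => ?_, ?_⟩
  · exact_mod_cast hnot h
  · have h5 : ((γ : ℤ) : WithTop ℤ) + ((m * K : ℕ) : WithTop ℤ) =
        ((γ + (m * K : ℕ) : ℤ) : WithTop ℤ) := rfl
    rw [h5]
    exact WithTop.coe_le_coe.2 hbd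

end Pool.Agent.H39.HC

end
end
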