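import Pool.Agent.H94.DG.M03
import Pool.Agent.H94.DG.M06
import Pool.Agent.H94.DG.M14

/-! The parts of this file: H17R.Point, H13.SM.Homog, H5.DG.SecBase. -/

section

/-!
# The generic point and the centre of a prime divisor

The generic point of the variety given by `P` in the affine coordinates `x i / x i₀` is
`fun i => ratio P i i₀`.

PROOFS.  `ratio_point`: as `Pool.Agent.H92.GT.Proj.proj_point` (the point constructed there is
`fun i => ratio P i i₀`).
`ratio_change`: `ratio P i i₀ = ratio P i₁ i₀ * ratio P i i₁`, then `aeval_scale`.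
`exists_center`: among the `i` with `ratio P i i₀ ≠ 0` choose `i₁` with `E.ord (ratio P i i₀)`
minimal.
`ord_forms`: `X i₁ ^ n ≡ ∑ j, c j * A j` modulo `P` (`exists_degree_bound`), evaluate at
`ratio P · i₁` (`ratio P i₁ i₁ = 1`): `1 = ∑ j, c j (..) * A j (..)`; if all `A j (..)` had positive
order then `0 = ord 1 > 0`.
-/

open MvPolynomial
open Pool.Agent.H17GT (coordFun functionField)
open Pool.Agent.H17LG.Variety (FunField ratio)
open Pool.Agent.H23.Fano (PrimeDivisorOver)

noncomputable section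

namespace Pool.Agent.H17R

variable {N : ℕ} {P : Ideal (MvPolynomial (Fin (N + 1)) ℂ)}

/-- The value of `Q` at the generic point, in the affine coordinates `x i / x i₀`. -/
def gen (P : Ideal (MvPolynomial (Fin (N + 1)) ℂ)) [P.IsPrime] (i₀ : Fin (N + 1))
    (Q : MvPolynomial (Fin (N + 1)) ℂ) : FunField P :=
  aeval (fun i => ratio P i i₀) Q

theorem ratio_self [P.IsPrime] {i₀ : Fin (N + 1)} (h : coordFun P i₀ ≠ 0) : ratio P i₀ i₀ = 1 := by
  apply Subtype.ext
  exact div_self h

theorem adjoin_ratio [P.IsPrime] {i₀ : Fin (N + 1)} (h : coordFun P i₀ ≠ 0) :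
    IntermediateField.adjoin ℂ (Set.range fun i => ratio P i i₀) = ⊤ := by
  classical
  set x : Fin (N + 1) → functionField P := fun i => ratio P i i₀ with hx
  have hratio : ∀ i j, ((x i / x j : functionField P) :
      FractionRing (MvPolynomial (Fin (N + 1)) ℂ ⧸ P)) = coordFun P i / coordFun P j := by
    intro i j
    have h1 : ((x i / x j : functionField P) :
      FractionRing (MvPolynomial (Fin (N + 1)) ℂ ⧸ P)) =
        (coordFun P i / coordFun P i₀) / (coordFun P j / coordFun P i₀) := by
      rw [hx]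
      rfl
    rw [h1, div_div_div_cancel_right₀ h]
  have hgen : IntermediateField.adjoin ℂ {y | ∃ i j, y = x i / x j} = ⊤ := by
    rw [← IntermediateField.lift_inj, IntermediateField.lift_adjoin, IntermediateField.lift_top]
    conv_rhs => rw [functionField]
    congr 1
    ext y
    constructor
    · rintro ⟨y', ⟨i, j, rfl⟩, rfl⟩
      exact ⟨i, j, hratio i j⟩
    · rintro ⟨i, j, rfl⟩
      exact ⟨x i / x j, ⟨i, j, rfl⟩, hratio i j⟩
  change IntermediateField.adjoin ℂ (Set.range x) = ⊤
  rw [eq_top_iff, ← hgen, IntermediateField.adjoin_le_iff]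
  rintro y ⟨i, j, rfl⟩
  exact div_mem (IntermediateField.subset_adjoin _ _ ⟨i, rfl⟩)
    (IntermediateField.subset_adjoin _ _ ⟨j, rfl⟩)

theorem gen_eq_zero_iff [P.IsPrime] {i₀ : Fin (N + 1)} (h : coordFun P i₀ ≠ 0) {n : ℕ}
    {Q : MvPolynomial (Fin (N + 1)) ℂ} (hQ : Q.IsHomogeneous n) : gen P i₀ Q = 0 ↔ Q ∈ P := by
  set x : Fin (N + 1) → functionField P := fun i => ratio P i i₀ with hx
  have h0 : gen P i₀ Q = (aeval x Q : functionField P) := rfl
  have h1 : ((aeval x Q : functionField P) : FractionRing (MvPolynomial (Fin (N + 1)) ℂ ⧸ P)) =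
      aeval (fun i => (coordFun P i₀)⁻¹ * coordFun P i) Q := by
    have h3 : ((functionField P).val (aeval x Q)) =
        aeval (fun i => (functionField P).val (x i)) Q := by
      rw [← MvPolynomial.comp_aeval]
      rfl
    change (functionField P).val (aeval x Q) = _
    rw [h3]
    congr 2
    funext i
    change coordFun P i / coordFun P i₀ = _
    rw [div_eq_inv_mul]
  rw [Pool.Agent.H92.GT.Proj.aeval_scale hQ] at h1
  rw [← Pool.Agent.H92.GT.Proj.aeval_coordFun_eq_zero_iff, h0]
  constructor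
  · intro h2
    have h3 : ((aeval x Q : functionField P) :
        FractionRing (MvPolynomial (Fin (N + 1)) ℂ ⧸ P)) = 0 := by
      rw [show (aeval x Q : functionField P) = 0 from h2]
      rfl
    rw [h3] at h1
    exact (mul_eq_zero.1 h1.symm).resolve_left (pow_ne_zero _ (inv_ne_zero h))
  · intro h2
    apply Subtype.ext
    rw [h1, h2, mul_zero]
    rfl

theorem coordFun_ne_zero_iff [P.IsPrime] {i : Fin (N + 1)} : coordFun P i ≠ 0 ↔ X i ∉ P := by
  rw [Ne, not_iff_not, ← Pool.Agent.H92.GT.Proj.aeval_coordFun_eq_zero_iff, aeval_X]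

end Pool.Agent.H17R

end
end

section

/-!
# The affine part of the cone of a homogeneous prime ideal

PROOF of `mem_pts_iff`.  Write `a i = ratio P i l`, so `aeval a Q = gen P l Q` and `a l = 1`
(`ratio_self`).
(→) `aeval a (X l - 1) = 0` gives `w l = 1`.  For `Q ∈ P` its components `Q_d` are in `P` (`Homog P`), so
`gen P l Q_d = 0` (`gen_eq_zero_iff`) and `aeval a Q = ∑ aeval a Q_d = 0`; hence `eval w Q = 0`.
(←) Let `aeval a R = 0`, `D = R.totalDegree` and `R' = ∑ d ∈ range (D + 1), X l ^ (D - d) * R_d`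
(`R_d = homogeneousComponent d R`), homogeneous of degree `D`.  Since `a l = 1`,
`gen P l R' = ∑ aeval a R_d = aeval a R = 0`, so `R' ∈ P` (`gen_eq_zero_iff`), and
`0 = eval w R' = ∑ w l ^ (D - d) * eval w R_d = eval w R` since `w l = 1`
(`MvPolynomial.sum_homogeneousComponent`).

PROOF of `euler`.  For the component `Q_d ∈ P`: `∑ x i * eval x (pderiv i Q_d) = d * eval x Q_d = 0`
(`IsHomogeneous.sum_X_mul_pderiv`); sum over `d`.
-/

open MvPolynomial
open Pool.Agent.H17GT (coordFun functionField)
open Pool.Agent.H17LG.Variety (FunField ratio)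
open Pool.Agent.H62.FC (Homog)

noncomputable section

namespace Pool.Agent.H13.SM

variable {N : ℕ} {P : Ideal (MvPolynomial (Fin (N + 1)) ℂ)}

private theorem hg_smul {d : ℕ} {Q : MvPolynomial (Fin (N + 1)) ℂ} (hQ : Q.IsHomogeneous d) (c : ℂ)
    (x : Fin (N + 1) → ℂ) : eval (c • x) Q = c ^ d * eval x Q := by
  rw [eval_eq', eval_eq', Finset.mul_sum]
  refine Finset.sum_congr rfl fun m hm => ?_
  have h1 : ∏ i, (c • x) i ^ m i = c ^ d * ∏ i, x i ^ m i := by
    simp only [Pi.smul_apply, smul_eq_mul, mul_pow, Finset.prod_mul_distrib]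
    rw [Finset.prod_pow_eq_pow_sum]
    have h2 := hQ (mem_support_iff.1 hm)
    rw [Finsupp.weight_apply, Finsupp.sum_fintype _ _ (by simp)] at h2
    simp only [Pi.one_apply, smul_eq_mul, mul_one] at h2
    rw [h2]
  rw [h1]
  ring

theorem mem_pts_iff [P.IsPrime] (hP : Homog P) {l : Fin (N + 1)} (h : coordFun P l ≠ 0)
    {w : Fin (N + 1) → ℂ} :
    w ∈ pts (fun i => ratio P i l) ↔ w l = 1 ∧ ∀ Q ∈ P, eval w Q = 0 := by
  have hll := Pool.Agent.H17R.ratio_self h
  constructor
  · intro hw
    refine ⟨?_, fun Q hQ => hw Q ?_⟩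
    · have h1 := hw (X l - 1) (by rw [map_sub, aeval_X, map_one, hll, sub_self])
      rw [map_sub, eval_X, map_one, sub_eq_zero] at h1
      exact h1
    · rw [← sum_homogeneousComponent Q, map_sum]
      exact Finset.sum_eq_zero fun d _ =>
        (Pool.Agent.H17R.gen_eq_zero_iff h (homogeneousComponent_isHomogeneous d Q)).2 (hP Q hQ d)
  · rintro ⟨hl, hw⟩ R hR
    have h1 : ∀ {B : Type} [CommRing B] [Algebra ℂ B] (φ : MvPolynomial (Fin (N + 1)) ℂ →ₐ[ℂ] B)
        (_ : φ (X l) = 1), φ (∑ d ∈ Finset.range (R.totalDegree + 1),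
          X l ^ (R.totalDegree - d) * homogeneousComponent d R) = φ R := by
      intro B _ _ φ hφ
      conv_rhs => rw [← sum_homogeneousComponent R]
      rw [map_sum, map_sum]
      refine Finset.sum_congr rfl fun d _ => ?_
      rw [map_mul, map_pow, hφ, one_pow, one_mul]
    have h2 : (∑ d ∈ Finset.range (R.totalDegree + 1),
        X l ^ (R.totalDegree - d) * homogeneousComponent d R).IsHomogeneous R.totalDegree := by
      refine IsHomogeneous.sum _ _ _ fun d hd => ?_
      have h3 := ((isHomogeneous_X ℂ l).pow (R.totalDegree - d)).mul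
        (homogeneousComponent_isHomogeneous d R)
      have h4 := Finset.mem_range.1 hd
      rwa [one_mul, Nat.sub_add_cancel (by omega)] at h3
    have h3 := h1 (aeval fun i => ratio P i l) (by rw [aeval_X, hll])
    have h4 := hw _ ((Pool.Agent.H17R.gen_eq_zero_iff h h2).1 (by
      unfold Pool.Agent.H17R.gen
      rw [h3, hR]))
    have h5 := h1 (aeval w : MvPolynomial (Fin (N + 1)) ℂ →ₐ[ℂ] ℂ) (by rw [aeval_X, hl])
    rw [← coe_aeval_eq_eval] at h4
    rw [← coe_aeval_eq_eval]
    exact h5.symm.trans h4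

theorem euler (hP : Homog P) {x : Fin (N + 1) → ℂ} (hx : ∀ Q ∈ P, eval x Q = 0)
    {Q : MvPolynomial (Fin (N + 1)) ℂ} (hQ : Q ∈ P) : ∑ i, x i * eval x (pderiv i Q) = 0 := by
  have h1 : ∀ d, ∑ i, x i * eval x (pderiv i (homogeneousComponent d Q)) = 0 := by
    intro d
    have h2 := congrArg (eval x) (homogeneousComponent_isHomogeneous d Q).sum_X_mul_pderiv
    rw [map_sum, map_nsmul, hx _ (hP Q hQ d), smul_zero] at h2
    simpa only [map_mul, eval_X] using h2
  rw [← sum_homogeneousComponent Q]
  simp only [map_sum, Finset.mul_sum]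
  rw [Finset.sum_comm]
  exact Finset.sum_eq_zero fun d _ => h1 d

/-- The affine cone of `P` is a cone. -/
theorem cone_smul (hP : Homog P) {x : Fin (N + 1) → ℂ} (hx : ∀ Q ∈ P, eval x Q = 0) (c : ℂ) :
    ∀ Q ∈ P, eval (c • x) Q = 0 := by
  intro Q hQ
  rw [← sum_homogeneousComponent Q, map_sum]
  refine Finset.sum_eq_zero fun d _ => ?_
  rw [hg_smul (homogeneousComponent_isHomogeneous d Q), hx _ (hP Q hQ d), mul_zero]

end Pool.Agent.H13.SM

end
end

section

/-!
# Project DG2, module SecBase: composition of finite morphisms, forms modulo an ideal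
-/

open MvPolynomial Filter Topology
open Pool.Agent.H17 (PN VanishesAt HolomorphicInto puncturedDisc)
open Pool.Agent.H17GT (coordFun functionField)
open Pool.Agent.H17LG.Variety (FunField ratio IsLogGeneralType PoleAtMost)
open Pool.Agent.H23.Fano (PrimeDivisorOver)

noncomputable section

namespace Pool.Agent.H5.DG

section

variable {Nn M m : ℕ} {I : Ideal (MvPolynomial (Fin (Nn + 1)) ℂ)}
  {P : Ideal (MvPolynomial (Fin (M + 1)) ℂ)}

end

/-! ### Log general type -/

section

variable {K : Type} [Field K] [Algebra ℂ K] {k : ℕ}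

end

section

variable {Nn m m' : ℕ}

/-- The generic point. -/
theorem eval_ratio_zero_iff (Q : Ideal (MvPolynomial (Fin (Nn + 1)) ℂ)) [Q.IsPrime]
    {j : Fin (Nn + 1)} (hj : coordFun Q j ≠ 0) {d : ℕ} {G : MvPolynomial (Fin (Nn + 1)) ℂ}
    (hGh : G.IsHomogeneous d) : aeval (fun i => ratio Q i j) G = 0 ↔ G ∈ Q := by
  set x : Fin (Nn + 1) → functionField Q := fun i => ratio Q i j with hx
  have h0 : aeval (fun i => ratio Q i j) G = (aeval x G : functionField Q) := rfl
  have h1 : ((aeval x G : functionField Q) : FractionRing (MvPolynomial (Fin (Nn + 1)) ℂ ⧸ Q)) =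
      aeval (fun i => (coordFun Q j)⁻¹ * coordFun Q i) G := by
    have h3 : ((functionField Q).val (aeval x G)) =
        aeval (fun i => (functionField Q).val (x i)) G := by
      rw [← MvPolynomial.comp_aeval]
      rfl
    change (functionField Q).val (aeval x G) = _
    rw [h3]
    congr 2
    funext i
    change coordFun Q i / coordFun Q j = _
    rw [div_eq_inv_mul]
  rw [Pool.Agent.H92.GT.Proj.aeval_scale hGh] at h1
  rw [← Pool.Agent.H92.GT.Proj.aeval_coordFun_eq_zero_iff, h0]
  constructor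
  · intro h2
    have h3 : ((aeval x G : functionField Q) :
        FractionRing (MvPolynomial (Fin (Nn + 1)) ℂ ⧸ Q)) = 0 := by
      rw [show (aeval x G : functionField Q) = 0 from h2]
      rfl
    rw [h3] at h1
    exact (mul_eq_zero.1 h1.symm).resolve_left (pow_ne_zero _ (inv_ne_zero hj))
  · intro h2
    apply Subtype.ext
    rw [h1, h2, mul_zero]
    rfl

/-- Polynomials in the ideal vanish at the generic point. -/
theorem eval_ratio_mem (Q : Ideal (MvPolynomial (Fin (Nn + 1)) ℂ)) [Q.IsPrime]
    (hQ : Homog Q) {j : Fin (Nn + 1)} (hj : coordFun Q j ≠ 0)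
    {L : MvPolynomial (Fin (Nn + 1)) ℂ} (hL : L ∈ Q) :
    aeval (fun i => ratio Q i j) L = 0 := by
  classical
  rw [← sum_homogeneousComponent L, map_sum]
  exact Finset.sum_eq_zero fun d _ => (eval_ratio_zero_iff Q hj
    (homogeneousComponent_isHomogeneous d L)).2 (hQ L hL d)

end

end Pool.Agent.H5.DG

end
end
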