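import Pool.Agent.H94.DG.M06
import Pool.Agent.H94.DG.M15

/-! The parts of this file: H5.DG.StepA, H5.DG.StepB, H5.DG.Interp, H5.DG.CovBd. -/

section

/-!
# Project DG, A4: the case of independent conditions

`P_b = restrictSupport ℂ (Box n m b)` has dimension `h = (b + 1) ^ m` and the evaluation at the points `s q` is
injective on it; so there is a set `S` of `h` indices such that evaluation at the points `s q`, `q ∈ S`, is an
isomorphism of `P_b` with `ℂ ^ S` (an injective linear map to `ι → ℂ` has rank `h`; choose `h` independent coordinate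
functionals). For `i + 1 < m` let `g' i ∈ P_b` be the polynomial with `eval (s q) (g' i) = s q i.succ ^ (m b + 1)` for `q ∈ S`
and `a i = m b + 1` (degree of `g' i` at most `m b`), for `m ≤ i + 1` let `g' i = g i`, `a i = δ i`. Weights: `W i = 1` if
`i + 1 < m`, `W i = 2 + (i + 1 - m)` otherwise; for `m ≤ i + 1` and a monomial `γ` of `g i`:
`∑ γ j.succ W j ≤ γ i.succ W i + (δ i - γ i.succ) (W i - 1) < δ i W i`. `M = 1`, `∏ a i = (m b + 1) ^ (m - 1) ∏ δ i`.
-/

open MvPolynomial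

noncomputable section

namespace Pool.Agent.H5.DG

/-- Selection of independent conditions. -/
private theorem StepA_select {V ι : Type} [AddCommGroup V] [Module ℂ V] [FiniteDimensional ℂ V]
    [Finite ι] (Φ : ι → Module.Dual ℂ V) (h : ∀ x, (∀ q, Φ q x = 0) → x = 0) :
    ∃ S : Finset ι, S.card = Module.finrank ℂ V ∧
      ∀ f : ι → ℂ, ∃ x : V, ∀ q ∈ S, Φ q x = f q := by
  classical
  obtain ⟨κ, a, ha, hsp, hli⟩ := exists_linearIndependent' ℂ Φ
  have : Finite κ := Finite.of_injective a ha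
  have : Fintype κ := Fintype.ofFinite κ
  have htop : Submodule.span ℂ (Set.range (Φ ∘ a)) = ⊤ := by
    rw [hsp, ← Subspace.dualCoannihilator_dualAnnihilator_eq
      (W := Submodule.span ℂ (Set.range Φ))]
    have h1 : (Submodule.span ℂ (Set.range Φ)).dualCoannihilator = ⊥ := by
      rw [eq_bot_iff]
      intro x hx
      rw [Submodule.mem_dualCoannihilator] at hx
      rw [Submodule.mem_bot]
      exact h x fun q => hx _ (Submodule.subset_span ⟨q, rfl⟩)
    rw [h1, Submodule.dualAnnihilator_bot]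
  have hcard : Fintype.card κ = Module.finrank ℂ V := by
    rw [← Subspace.dual_finrank_eq, Module.finrank_eq_card_basis (Module.Basis.mk hli htop.ge)]
  obtain ⟨E, hE⟩ : ∃ E : V →ₗ[ℂ] (κ → ℂ), ∀ x k, E x k = Φ (a k) x :=
    ⟨LinearMap.pi fun k => Φ (a k), fun x k => rfl⟩
  have hinj : Function.Injective E := by
    rw [injective_iff_map_eq_zero]
    intro x hx
    refine h x fun q => ?_
    have h2 : ∀ φ ∈ Submodule.span ℂ (Set.range (Φ ∘ a)), φ x = 0 := by
      intro φ hφ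
      induction hφ using Submodule.span_induction with
      | mem φ hφ =>
        obtain ⟨k, rfl⟩ := hφ
        have := hE x k
        rw [hx] at this
        exact this.symm
      | zero => rfl
      | add φ ψ _ _ h3 h4 => rw [LinearMap.add_apply, h3, h4, add_zero]
      | smul c φ _ h3 => rw [LinearMap.smul_apply, h3, smul_zero]
    refine h2 (Φ q) ?_
    rw [htop]
    exact Submodule.mem_top
  have hsurj : Function.Surjective E := by
    refine (LinearMap.injective_iff_surjective_of_finrank_eq_finrank ?_).1 hinj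
    rw [Module.finrank_pi, hcard]
  refine ⟨Finset.univ.image a, ?_, fun f => ?_⟩
  · rw [Finset.card_image_of_injective _ ha, Finset.card_univ, hcard]
  · obtain ⟨x, hx⟩ := hsurj fun k => f (a k)
    refine ⟨x, fun q hq => ?_⟩
    obtain ⟨k, -, rfl⟩ := Finset.mem_image.1 hq
    rw [← hE, hx]

private def StepA_equiv {n m : ℕ} (b : ℕ) (hmn : m ≤ n + 1) : Box n m b ≃ (Fin m → Fin (b + 1)) where
  toFun γ j := ⟨γ.1 ⟨j, by omega⟩, by
    have := (γ.2 ⟨j, by omega⟩).1
    omega⟩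
  invFun f := ⟨Finsupp.equivFunOnFinite.symm
    fun j : Fin (n + 1) => if h : (j : ℕ) < m then (f ⟨j, h⟩ : ℕ) else 0, by
      intro j
      rw [Finsupp.equivFunOnFinite_symm_apply_apply]
      constructor
      · split_ifs with h
        · have := (f ⟨j, h⟩).2
          omega
        · exact Nat.zero_le _
      · intro hj
        rw [dif_neg (by omega)]⟩
  left_inv := by
    intro γ
    apply Subtype.ext
    ext j
    rw [Finsupp.equivFunOnFinite_symm_apply_apply]
    split_ifs with h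
    · rfl
    · exact ((γ.2 j).2 (by omega)).symm
  right_inv := by
    intro f
    funext j
    apply Fin.ext
    simp only [Finsupp.equivFunOnFinite_symm_apply_apply]
    rw [dif_pos j.2]

private theorem StepA_card1 (n m : ℕ) :
    (Finset.univ.filter fun j : Fin n => (j : ℕ) < m).card ≤ m := by
  have h1 : (Finset.univ.filter fun j : Fin n => (j : ℕ) < m).card ≤ (Finset.range m).card := by
    refine Finset.card_le_card_of_injOn (fun j => (j : ℕ)) ?_ ?_
    · intro j hj
      have h2 := (Finset.mem_filter.1 (Finset.mem_coe.1 hj)).2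
      exact Finset.mem_coe.2 (Finset.mem_range.2 h2)
    · intro i _ j _ hij
      exact Fin.ext hij
  rwa [Finset.card_range] at h1

private theorem StepA_sum {n m b : ℕ} {γ : Fin (n + 1) →₀ ℕ} (hγ : γ ∈ Box n m b) :
    ∑ j, γ j ≤ m * b := by
  calc ∑ j, γ j ≤ ∑ j : Fin (n + 1), if (j : ℕ) < m then b else 0 := by
        refine Finset.sum_le_sum fun j _ => ?_
        split_ifs with h
        · exact (hγ j).1
        · rw [(hγ j).2 (by omega)]
    _ = (Finset.univ.filter fun j : Fin (n + 1) => (j : ℕ) < m).card * b := by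
        rw [← Finset.sum_filter, Finset.sum_const, smul_eq_mul]
    _ ≤ m * b := Nat.mul_le_mul_right b (StepA_card1 (n + 1) m)

private theorem StepA_deg {n : ℕ} {G : MvPolynomial (Fin (n + 1)) ℂ} {k : ℕ}
    (h : ∀ γ ∈ G.support, ∑ j, γ j ≤ k) : G.totalDegree ≤ k := by
  unfold MvPolynomial.totalDegree
  refine Finset.sup_le fun γ hγ => ?_
  rw [Finsupp.sum_fintype _ _ (fun _ => rfl)]
  exact h γ hγ

private theorem StepA_sum_le {n : ℕ} {G : MvPolynomial (Fin (n + 1)) ℂ} {γ : Fin (n + 1) →₀ ℕ}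
    (hγ : γ ∈ G.support) : ∑ j, γ j ≤ G.totalDegree := by
  have h1 := MvPolynomial.le_totalDegree hγ
  rwa [Finsupp.sum_fintype _ _ (fun _ => rfl)] at h1

/-- the weights -/
private def StepA_W (m : ℕ) {n : ℕ} (i : Fin n) : ℕ :=
  if (i : ℕ) + 1 < m then 1 else 2 + ((i : ℕ) + 1 - m)

/-- the weights of the monomials of the triangular equations -/
private theorem StepA_weight {n m δ : ℕ} {i : Fin n} (hi : m ≤ (i : ℕ) + 1)
    {γ : Fin (n + 1) →₀ ℕ} (h1 : ∀ j : Fin (n + 1), i.succ < j → γ j = 0) (h2 : γ i.succ < δ)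
    (h3 : ∑ j, γ j ≤ δ) : ∑ j : Fin n, γ j.succ * StepA_W m j < δ * StepA_W m i := by
  obtain ⟨w, hw⟩ : ∃ w, StepA_W m i = w + 1 := ⟨1 + ((i : ℕ) + 1 - m), by
    unfold StepA_W
    rw [if_neg (by omega)]
    omega⟩
  have h4 : ∑ j : Fin n, γ j.succ ≤ δ := by
    rw [Fin.sum_univ_succ] at h3
    omega
  have h5 : ∀ j : Fin n, γ j.succ * StepA_W m j ≤ γ j.succ * w + if j = i then γ i.succ else 0 := by
    intro j
    rcases lt_trichotomy j i with h | h | h
    · rw [if_neg h.ne, add_zero]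
      refine Nat.mul_le_mul_left _ ?_
      have h6 : (j : ℕ) < i := h
      unfold StepA_W at hw ⊢
      rw [if_neg (by omega)] at hw
      split_ifs <;> omega
    · subst h
      rw [if_pos rfl, hw]
      exact le_of_eq (by ring)
    · rw [h1 j.succ (Fin.succ_lt_succ_iff.2 h)]
      simp
  calc ∑ j : Fin n, γ j.succ * StepA_W m j
      ≤ ∑ j : Fin n, (γ j.succ * w + if j = i then γ i.succ else 0) :=
        Finset.sum_le_sum fun j _ => h5 j
    _ = (∑ j : Fin n, γ j.succ) * w + γ i.succ := by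
        rw [Finset.sum_add_distrib, ← Finset.sum_mul, Finset.sum_ite_eq' Finset.univ i,
          if_pos (Finset.mem_univ i)]
    _ ≤ δ * w + γ i.succ := Nat.add_le_add_right (Nat.mul_le_mul_right w h4) _
    _ < δ * w + δ := Nat.add_lt_add_left h2 _
    _ = δ * StepA_W m i := by rw [hw]; ring

/-- the evaluation functionals -/
private def StepA_ev {n : ℕ} (P : Submodule ℂ (MvPolynomial (Fin (n + 1)) ℂ))
    (y : Fin (n + 1) → ℂ) : Module.Dual ℂ P where
  toFun G := MvPolynomial.eval y G.1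
  map_add' G G' := by simp
  map_smul' c G := by simp [MvPolynomial.smul_eval]

theorem step_good {n m b ρ : ℕ} (hm : 1 ≤ m) (hmn : m ≤ n + 1) {ι : Type} [Finite ι]
    (s : ι → Fin (n + 1) → ℂ) (δ : Fin n → ℕ) (g : Fin n → MvPolynomial (Fin (n + 1)) ℂ)
    (hL : Lvl m δ g s)
    (hinj : ∀ G ∈ restrictSupport ℂ (Box n m b), (∀ q, eval (s q) G = 0) → G = 0)
    (hnum : ρ * ((m * b + 1) ^ (m - 1) *
      ∏ i ∈ Finset.univ.filter (fun i : Fin n => m ≤ (i : ℕ) + 1), δ i) < (b + 1) ^ m) :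
    Good ρ s := by
  classical
  set P := restrictSupport ℂ (Box n m b) with hP
  have hfinB : Finite (Box n m b) := Finite.of_equiv _ (StepA_equiv b hmn).symm
  have : FiniteDimensional ℂ P := Module.Finite.of_basis (basisRestrictSupport ℂ (Box n m b))
  have hdim : Module.finrank ℂ P = (b + 1) ^ m := by
    rw [Module.finrank_eq_nat_card_basis (basisRestrictSupport ℂ (Box n m b)),
      Nat.card_congr (StepA_equiv b hmn), Nat.card_eq_fintype_card, Fintype.card_fun,
      Fintype.card_fin, Fintype.card_fin]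
  obtain ⟨S, hS, hsel⟩ := StepA_select (fun q => StepA_ev P (s q)) (fun G hG =>
    Subtype.ext (hinj G.1 G.2 fun q => hG q))
  rw [hdim] at hS
  -- the interpolation polynomials
  have hex : ∀ i : Fin n, ∃ G : MvPolynomial (Fin (n + 1)) ℂ, G ∈ P ∧
      ∀ q ∈ S, s q i.succ ^ (m * b + 1) = MvPolynomial.eval (s q) G := by
    intro i
    obtain ⟨G, hG⟩ := hsel fun q => s q i.succ ^ (m * b + 1)
    exact ⟨G.1, G.2, fun q hq => (hG q hq).symm⟩
  choose g' hg' hg'S using hex
  have hbox : ∀ i, ∀ γ ∈ (g' i).support, γ ∈ Box n m b := fun i γ hγ =>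
    (mem_restrictSupport_iff ℂ).1 (hg' i) (Finset.mem_coe.2 hγ)
  refine ⟨1, fun i => if (i : ℕ) + 1 < m then m * b + 1 else δ i, StepA_W m,
    fun i => if (i : ℕ) + 1 < m then g' i else g i, S, ?_, ?_, ?_, ?_⟩
  · rw [Matrix.det_one]
    exact isUnit_one
  · constructor
    · intro i
      split_ifs with h
      · omega
      · exact hL.pos i (by omega)
    · intro i
      unfold StepA_W
      split_ifs <;> omega
    · intro i
      split_ifs with h
      · refine (StepA_deg fun γ hγ => StepA_sum (hbox i γ hγ)).trans (by omega)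
      · exact hL.deg i (by omega)
    · intro i γ hγ
      split_ifs at hγ ⊢ with h
      · have hB := hbox i γ hγ
        have hWi : StepA_W m i = 1 := by
          unfold StepA_W
          rw [if_pos h]
        rw [hWi, mul_one]
        have h1 : ∑ j : Fin n, γ j.succ * StepA_W m j ≤ ∑ j : Fin n, γ j.succ := by
          refine Finset.sum_le_sum fun j _ => ?_
          by_cases hj : (j : ℕ) + 1 < m
          · unfold StepA_W
            rw [if_pos hj, mul_one]
          · have h2 : γ j.succ = 0 := (hB j.succ).2 (by rw [Fin.val_succ]; omega)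
            rw [h2, zero_mul]
        have h3 := StepA_sum hB
        rw [Fin.sum_univ_succ] at h3
        omega
      · have hi : m ≤ (i : ℕ) + 1 := by omega
        obtain ⟨h1, h2⟩ := hL.tri i hi γ hγ
        exact StepA_weight hi h1 h2 ((StepA_sum_le hγ).trans (hL.deg i hi))
  · have h1 : ∏ i : Fin n, (if (i : ℕ) + 1 < m then m * b + 1 else δ i) =
        (m * b + 1) ^ (Finset.univ.filter fun i : Fin n => (i : ℕ) + 1 < m).card *
          ∏ i ∈ Finset.univ.filter (fun i : Fin n => m ≤ (i : ℕ) + 1), δ i := by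
      rw [Finset.prod_ite, Finset.prod_const]
      congr 1
      refine Finset.prod_congr ?_ fun _ _ => rfl
      ext i
      simp only [Finset.mem_filter, Finset.mem_univ, true_and, not_lt]
    have h2 : (Finset.univ.filter fun i : Fin n => (i : ℕ) + 1 < m).card ≤ m - 1 := by
      refine le_trans (Finset.card_le_card ?_) (StepA_card1 n (m - 1))
      intro i hi
      rw [Finset.mem_filter] at hi ⊢
      exact ⟨hi.1, by omega⟩
    rw [hS]
    refine lt_of_le_of_lt ?_ hnum
    refine Nat.mul_le_mul_left ρ ?_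
    rw [h1]
    exact Nat.mul_le_mul_right _ (Nat.pow_le_pow_right (by omega) h2)
  · intro q hq i
    rw [Matrix.one_mulVec]
    dsimp only
    split_ifs with h
    · exact hg'S i q hq
    · exact hL.eq i (by omega) q

end Pool.Agent.H5.DG

end
end

section

/-!
# Project DG, A4: the case of dependent conditions

`G ≠ 0` involves only `y 0, …, y (m - 1)`, has total degree `δ' ≤ m b`, `δ' ≥ 1` (it vanishes at a point `s q` and is not
zero). Let `G'` be its homogeneous component of degree `δ'`; choose `y ∈ ℂ^(n+1)` with `G' (y) * y (m - 1) ≠ 0`, scale so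
that `y (m - 1) = 1`, `λ j = y j` for `j < m - 1`. Let `A` be the linear map `x ↦ x + x (m - 1) (λ, 0)` (i.e.
`(A x) j = x j + λ j x (m - 1)` for `j < m - 1`, other coordinates fixed), `M = A⁻¹` (replace `λ` by `-λ`). The new points
are `M s q`, the new equations `G ∘ A`, `g i ∘ A` (compose with `MvPolynomial.aeval` / `bind₁`). The coefficient of
`x (m - 1) ^ δ'` in `G ∘ A` is `G' (λ, 1) ≠ 0`, its total degree is `δ'`; so `x (m - 1) ^ δ' = g'`, where `g'` has total degree
`≤ δ'` and degree `< δ'` in `x (m - 1)`, involving only `x 0, …, x (m - 1)`. The properties of the `g i`, `m ≤ i + 1`, are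
preserved, because `A` changes only the coordinates `y j` with `j < m - 1` by multiples of `y (m - 1)`.
-/

open MvPolynomial

noncomputable section

namespace Pool.Agent.H5.DG

/-- the monomials have the degree of `γ`, and the exponents of `γ` for the variables after `c` -/
private def sbS {n : ℕ} (c : Fin (n + 1)) (γ : Fin (n + 1) →₀ ℕ)
    (F : MvPolynomial (Fin (n + 1)) ℂ) : Prop :=
  ∀ γ', coeff γ' F ≠ 0 → γ'.degree = γ.degree ∧ ∀ j, c < j → γ' j = γ j

private theorem sbS_mul {n : ℕ} {c : Fin (n + 1)} {γ δ : Fin (n + 1) →₀ ℕ}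
    {F H : MvPolynomial (Fin (n + 1)) ℂ} (hF : sbS c γ F) (hH : sbS c δ H) :
    sbS c (γ + δ) (F * H) := by
  classical
  intro ε hε
  rw [coeff_mul] at hε
  obtain ⟨p, hp, hne⟩ := Finset.exists_ne_zero_of_sum_ne_zero hε
  rw [Finset.HasAntidiagonal.mem_antidiagonal] at hp
  obtain ⟨h1, h2⟩ := hF _ (left_ne_zero_of_mul hne)
  obtain ⟨h3, h4⟩ := hH _ (right_ne_zero_of_mul hne)
  rw [← hp]
  refine ⟨?_, fun j hj => ?_⟩
  · rw [map_add, map_add, h1, h3]
  · rw [Finsupp.add_apply, Finsupp.add_apply, h2 j hj, h4 j hj]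

private theorem sbS_C {n : ℕ} (c : Fin (n + 1)) (a : ℂ) : sbS c 0 (C a) := by
  classical
  intro ε hε
  rw [coeff_C] at hε
  have h1 : 0 = ε := by
    by_contra h2
    exact hε (if_neg h2)
  rw [← h1]
  exact ⟨rfl, fun _ _ => rfl⟩

private theorem sbS_pow {n : ℕ} {c : Fin (n + 1)} {γ : Fin (n + 1) →₀ ℕ}
    {F : MvPolynomial (Fin (n + 1)) ℂ} (hF : sbS c γ F) (k : ℕ) : sbS c (k • γ) (F ^ k) := by
  induction k with
  | zero =>
    rw [zero_smul, pow_zero]
    exact sbS_C c 1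
  | succ k ih =>
    rw [succ_nsmul, pow_succ]
    exact sbS_mul ih hF

private theorem sbS_prod {n : ℕ} {c : Fin (n + 1)} {ι : Type} (s : Finset ι)
    {γ : ι → Fin (n + 1) →₀ ℕ} {F : ι → MvPolynomial (Fin (n + 1)) ℂ}
    (hF : ∀ i, sbS c (γ i) (F i)) : sbS c (∑ i ∈ s, γ i) (∏ i ∈ s, F i) := by
  classical
  induction s using Finset.induction_on with
  | empty =>
    rw [Finset.sum_empty, Finset.prod_empty]
    exact sbS_C c 1
  | insert i s hi ih =>
    rw [Finset.sum_insert hi, Finset.prod_insert hi]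
    exact sbS_mul (hF i) ih

/-- the substitution `x j ↦ x j + l j x c` -/
private def sbA {n : ℕ} (c : Fin (n + 1)) (l : Fin (n + 1) → ℂ) :
    MvPolynomial (Fin (n + 1)) ℂ →ₐ[ℂ] MvPolynomial (Fin (n + 1)) ℂ :=
  aeval fun j => X j + C (l j) * X c

private theorem sbA_eval {n : ℕ} (c : Fin (n + 1)) (l x : Fin (n + 1) → ℂ)
    (F : MvPolynomial (Fin (n + 1)) ℂ) :
    eval x (sbA c l F) = eval (fun j => x j + l j * x c) F := by
  have h1 : ((aeval x).comp (sbA c l) : MvPolynomial (Fin (n + 1)) ℂ →ₐ[ℂ] ℂ) =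
      aeval fun j => x j + l j * x c := by
    ext j
    simp [sbA]
  have h2 := DFunLike.congr_fun h1 F
  simpa [MvPolynomial.aeval_eq_eval] using h2

private theorem sbA_monomial {n : ℕ} {c : Fin (n + 1)} {l : Fin (n + 1) → ℂ}
    (hl : ∀ j, c < j → l j = 0) (γ : Fin (n + 1) →₀ ℕ) (a : ℂ) :
    sbS c γ (sbA c l (monomial γ a)) := by
  classical
  have h1 : ∀ j, sbS c (Finsupp.single j 1)
      (X j + C (l j) * X c : MvPolynomial (Fin (n + 1)) ℂ) := by
    intro j ε hε
    by_cases h2 : ε = Finsupp.single j 1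
    · rw [h2]
      exact ⟨rfl, fun _ _ => rfl⟩
    · rw [coeff_add, coeff_X, if_neg (fun h => h2 h.symm), zero_add, coeff_C_mul, coeff_X] at hε
      have h3 : Finsupp.single c 1 = ε := by
        by_contra h4
        exact hε (by rw [if_neg h4, mul_zero])
      have h4 : l j ≠ 0 := left_ne_zero_of_mul hε
      have h5 : j ≤ c := by
        by_contra h6
        exact h4 (hl j (not_le.1 h6))
      rw [← h3]
      refine ⟨?_, fun k hk => ?_⟩
      · rw [Finsupp.degree_single, Finsupp.degree_single]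
      · rw [Finsupp.single_eq_of_ne hk.ne', Finsupp.single_eq_of_ne (lt_of_le_of_lt h5 hk).ne']
  have h2 : sbA c l (monomial γ a) = C a * ∏ j, (X j + C (l j) * X c) ^ γ j := by
    unfold sbA
    rw [aeval_monomial, Finsupp.prod_fintype _ _ fun _ => pow_zero _]
    rfl
  have h3 := sbS_mul (sbS_C c a) (sbS_prod Finset.univ fun j => sbS_pow (h1 j) (γ j))
  have h4 : (0 : Fin (n + 1) →₀ ℕ) + ∑ j, γ j • Finsupp.single j 1 = γ := by
    rw [zero_add]
    have h5 : ∀ j, (γ j • Finsupp.single j 1 : Fin (n + 1) →₀ ℕ) = Finsupp.single j (γ j) := by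
      intro j
      rw [Finsupp.smul_single, smul_eq_mul, mul_one]
    rw [Finset.sum_congr rfl fun j _ => h5 j]
    exact Finsupp.univ_sum_single γ
  rw [h4] at h3
  rw [h2]
  exact h3

/-- the monomials of the transformed polynomial -/
private theorem sbA_supp {n : ℕ} {c : Fin (n + 1)} {l : Fin (n + 1) → ℂ}
    (hl : ∀ j, c < j → l j = 0) {F : MvPolynomial (Fin (n + 1)) ℂ} {ε : Fin (n + 1) →₀ ℕ}
    (hε : coeff ε (sbA c l F) ≠ 0) :
    ∃ γ ∈ F.support, ε.degree = γ.degree ∧ ∀ j, c < j → ε j = γ j := by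
  rw [F.as_sum, map_sum, coeff_sum] at hε
  obtain ⟨γ, hγ, hne⟩ := Finset.exists_ne_zero_of_sum_ne_zero hε
  exact ⟨γ, hγ, sbA_monomial hl γ _ ε hne⟩

private theorem sb_degree_le {n : ℕ} {F : MvPolynomial (Fin (n + 1)) ℂ} {D : ℕ}
    (h : ∀ γ ∈ F.support, γ.degree ≤ D) : F.totalDegree ≤ D := Finset.sup_le fun γ hγ => h γ hγ

private theorem sb_le_degree {n : ℕ} {F : MvPolynomial (Fin (n + 1)) ℂ} {γ : Fin (n + 1) →₀ ℕ}
    (h : γ ∈ F.support) : γ.degree ≤ F.totalDegree := le_totalDegree h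

/-- the value of a form at a coordinate vector -/
private theorem sb_eval_single {n k : ℕ} {F : MvPolynomial (Fin (n + 1)) ℂ}
    (hF : F.IsHomogeneous k) (c : Fin (n + 1)) :
    eval (Pi.single c 1) F = coeff (Finsupp.single c k) F := by
  classical
  rw [eval_eq']
  by_cases hm : Finsupp.single c k ∈ F.support
  · rw [Finset.sum_eq_single (Finsupp.single c k)]
    · have h1 : ∏ i, (Pi.single c 1 : Fin (n + 1) → ℂ) i ^ (Finsupp.single c k) i = 1 := by
        refine Finset.prod_eq_one fun i _ => ?_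
        by_cases hi : i = c
        · rw [hi, Pi.single_eq_same, one_pow]
        · rw [Finsupp.single_eq_of_ne hi, pow_zero]
      rw [h1, mul_one]
    · intro d hd hne
      have h2 : ∃ i, i ≠ c ∧ d i ≠ 0 := by
        by_contra hcon
        push Not at hcon
        apply hne
        have h3 : d.degree = k := (hF.degree_eq_sum_deg_support hd).symm
        have h4 : d.degree = d c := by
          rw [Finsupp.degree_eq_sum]
          exact Finset.sum_eq_single c (fun i _ hi => hcon i hi) (by simp)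
        ext i
        by_cases hi : i = c
        · rw [hi, Finsupp.single_eq_same, ← h4, h3]
        · rw [hcon i hi, Finsupp.single_eq_of_ne hi]
      obtain ⟨i, hi, hdi⟩ := h2
      rw [Finset.prod_eq_zero (Finset.mem_univ i), mul_zero]
      rw [Pi.single_eq_of_ne hi, zero_pow hdi]
    · intro h
      exact absurd hm h
  · rw [notMem_support_iff.1 hm]
    refine Finset.sum_eq_zero fun d hd => ?_
    have h2 : ∃ i, i ≠ c ∧ d i ≠ 0 := by
      by_contra hcon
      push Not at hcon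
      apply hm
      have h3 : d.degree = k := (hF.degree_eq_sum_deg_support hd).symm
      have h4 : d.degree = d c := by
        rw [Finsupp.degree_eq_sum]
        exact Finset.sum_eq_single c (fun i _ hi => hcon i hi) (by simp)
      have h5 : d = Finsupp.single c k := by
        ext i
        by_cases hi : i = c
        · rw [hi, Finsupp.single_eq_same, ← h4, h3]
        · rw [hcon i hi, Finsupp.single_eq_of_ne hi]
      rw [← h5]
      exact hd
    obtain ⟨i, hi, hdi⟩ := h2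
    rw [Finset.prod_eq_zero (Finset.mem_univ i), mul_zero]
    rw [Pi.single_eq_of_ne hi, zero_pow hdi]

private theorem sb_scale {n k : ℕ} {F : MvPolynomial (Fin (n + 1)) ℂ} (hF : F.IsHomogeneous k)
    (t : ℂ) (y : Fin (n + 1) → ℂ) : eval (fun j => t * y j) F = t ^ k * eval y F := by
  rw [eval_eq', eval_eq', Finset.mul_sum]
  refine Finset.sum_congr rfl fun d hd => ?_
  have h3 : ∑ i, d i = k := by
    rw [← Finsupp.degree_eq_sum]
    exact (hF.degree_eq_sum_deg_support hd).symm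
  have h5 : ∏ i, (t * y i) ^ d i = t ^ k * ∏ i, y i ^ d i := by
    simp only [mul_pow]
    rw [Finset.prod_mul_distrib, Finset.prod_pow_eq_pow_sum, h3]
  rw [h5]
  ring

/-- there is a direction in which the top form does not vanish -/
private theorem sb_dir {n : ℕ} {F : MvPolynomial (Fin (n + 1)) ℂ} (hF0 : F ≠ 0) {k : ℕ}
    (hF : F.IsHomogeneous k) (c : Fin (n + 1)) (hc : ∀ γ ∈ F.support, ∀ j, c < j → γ j = 0) :
    ∃ l : Fin (n + 1) → ℂ, (∀ j, c ≤ j → l j = 0) ∧
      eval (fun j => (Pi.single c 1 : Fin (n + 1) → ℂ) j + l j) F ≠ 0 := by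
  classical
  have h1 : F * X c ≠ 0 := mul_ne_zero hF0 (X_ne_zero c)
  obtain ⟨y, hy⟩ : ∃ y, eval y (F * X c) ≠ 0 := by
    by_contra hcon
    push Not at hcon
    apply h1
    apply MvPolynomial.funext
    intro y
    rw [hcon y, map_zero]
  rw [map_mul, eval_X] at hy
  have hy1 : eval y F ≠ 0 := left_ne_zero_of_mul hy
  have hy2 : y c ≠ 0 := right_ne_zero_of_mul hy
  refine ⟨fun j => if j < c then (y c)⁻¹ * y j else 0, fun j hj => if_neg (not_lt.2 hj), ?_⟩
  have h2 : eval (fun j => (Pi.single c 1 : Fin (n + 1) → ℂ) j +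
      (if j < c then (y c)⁻¹ * y j else 0)) F = eval (fun j => (y c)⁻¹ * y j) F := by
    rw [eval_eq', eval_eq']
    refine Finset.sum_congr rfl fun d hd => ?_
    congr 1
    refine Finset.prod_congr rfl fun j _ => ?_
    rcases lt_trichotomy j c with h3 | h3 | h3
    · rw [if_pos h3, Pi.single_eq_of_ne h3.ne, zero_add]
    · rw [h3, if_neg (lt_irrefl c), Pi.single_eq_same, add_zero, inv_mul_cancel₀ hy2]
    · rw [hc d hd j h3, pow_zero, pow_zero]
  rw [h2, sb_scale hF]
  exact mul_ne_zero (pow_ne_zero _ (inv_ne_zero hy2)) hy1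

private theorem sb_top {n : ℕ} {F : MvPolynomial (Fin (n + 1)) ℂ} (hF0 : F ≠ 0) :
    homogeneousComponent F.totalDegree F ≠ 0 := by
  classical
  obtain ⟨γ, hγ, hd⟩ := Finset.exists_mem_eq_sup F.support (support_nonempty.2 hF0)
    (fun s => s.sum fun _ e => e)
  have h1 : γ.degree = F.totalDegree := hd.symm
  intro h
  have h2 := congrArg (coeff γ) h
  rw [coeff_homogeneousComponent, if_pos h1, coeff_zero] at h2
  exact (mem_support_iff.1 hγ) h2

theorem step_lower {n m b : ℕ} (hm : 2 ≤ m) (hmn : m ≤ n + 1) {ι : Type} [Nonempty ι]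
    (s : ι → Fin (n + 1) → ℂ) (δ : Fin n → ℕ) (g : Fin n → MvPolynomial (Fin (n + 1)) ℂ)
    (hL : Lvl m δ g s) (G : MvPolynomial (Fin (n + 1)) ℂ)
    (hG : G ∈ restrictSupport ℂ (Box n m b)) (hG0 : G ≠ 0) (hGs : ∀ q, eval (s q) G = 0) :
    ∃ (M : Matrix (Fin (n + 1)) (Fin (n + 1)) ℂ) (δ' : Fin n → ℕ)
      (g' : Fin n → MvPolynomial (Fin (n + 1)) ℂ),
      IsUnit M.det ∧ Lvl (m - 1) δ' g' (fun q => M.mulVec (s q)) ∧
      (∀ i : Fin n, m ≤ (i : ℕ) + 1 → δ' i = δ i) ∧
      ∀ i : Fin n, (i : ℕ) + 1 = m - 1 → δ' i ≤ m * b := by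
  classical
  set c : Fin (n + 1) := ⟨m - 1, by omega⟩ with hc
  have hcv : (c : ℕ) = m - 1 := rfl
  have hGb : ∀ γ ∈ G.support, ∀ j : Fin (n + 1), γ j ≤ b ∧ (m ≤ (j : ℕ) → γ j = 0) := by
    intro γ hγ
    rw [mem_restrictSupport_iff] at hG
    exact hG hγ
  have hGc : ∀ γ ∈ G.support, ∀ j, c < j → γ j = 0 := by
    intro γ hγ j hj
    refine (hGb γ hγ j).2 ?_
    have : (c : ℕ) < j := hj
    omega
  set D := G.totalDegree with hD
  have hDb : D ≤ m * b := by
    refine sb_degree_le fun γ hγ => ?_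
    rw [Finsupp.degree_eq_sum]
    have h1 : ∀ j : Fin (n + 1), γ j ≤ if (j : ℕ) < m then b else 0 := by
      intro j
      split_ifs with h2
      · exact (hGb γ hγ j).1
      · exact ((hGb γ hγ j).2 (not_lt.1 h2)).le
    refine (Finset.sum_le_sum fun j _ => h1 j).trans ?_
    rw [← Finset.sum_filter, Finset.sum_const, smul_eq_mul]
    refine Nat.mul_le_mul_right _ ?_
    have h2 : (Finset.univ.filter fun j : Fin (n + 1) => (j : ℕ) < m).card ≤
        (Finset.range m).card := by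
      refine Finset.card_le_card_of_injOn (fun j => (j : ℕ)) ?_ ?_
      · intro j hj
        rw [Finset.mem_coe, Finset.mem_filter] at hj
        exact Finset.mem_coe.2 (Finset.mem_range.2 hj.2)
      · intro j _ j' _ h
        exact Fin.ext h
    rwa [Finset.card_range] at h2
  have hD1 : 1 ≤ D := by
    by_contra h1
    have h2 : G.totalDegree = 0 := by omega
    rw [totalDegree_eq_zero_iff_eq_C] at h2
    obtain ⟨q⟩ := ‹Nonempty ι›
    have h3 := hGs q
    rw [h2, eval_C] at h3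
    apply hG0
    rw [h2, h3, C_0]
  have hGt0 : homogeneousComponent D G ≠ 0 := sb_top hG0
  have hGth : (homogeneousComponent D G).IsHomogeneous D := homogeneousComponent_isHomogeneous D G
  have hGtc : ∀ γ ∈ (homogeneousComponent D G).support, ∀ j, c < j → γ j = 0 := by
    intro γ hγ
    refine hGc γ ?_
    rw [mem_support_iff, coeff_homogeneousComponent] at hγ
    rw [mem_support_iff]
    by_contra h1
    apply hγ
    rw [h1]
    exact ite_self _
  obtain ⟨l, hl0, hl1⟩ := sb_dir hGt0 hGth c hGtc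
  have hl : ∀ j, c < j → l j = 0 := fun j hj => hl0 j hj.le
  have hlc : l c = 0 := hl0 c le_rfl
  -- the transformed polynomial
  set F := sbA c l G with hF
  set κ : ℂ := coeff (Finsupp.single c D) F with hκ
  have hκ0 : κ ≠ 0 := by
    have h1 : κ = coeff (Finsupp.single c D) (sbA c l (homogeneousComponent D G)) := by
      rw [hκ, hF]
      conv_lhs => rw [← sum_homogeneousComponent G, map_sum, coeff_sum]
      refine Finset.sum_eq_single D ?_ ?_
      · intro k _ hk
        by_contra h2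
        obtain ⟨γ, hγ, h3, -⟩ := sbA_supp hl h2
        rw [Finsupp.degree_single] at h3
        have h4 : γ.degree = k := ((homogeneousComponent_isHomogeneous k
          G).degree_eq_sum_deg_support hγ).symm
        exact hk (by rw [← h4, ← h3])
      · intro h2
        exact absurd (Finset.mem_range.2 (Nat.lt_succ_self _)) h2
    have h2 : (sbA c l (homogeneousComponent D G)).IsHomogeneous D := by
      intro ε hε
      obtain ⟨γ, hγ, h3, -⟩ := sbA_supp hl hε
      have h4 : γ.degree = D := (hGth.degree_eq_sum_deg_support hγ).symm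
      rw [← h4, ← h3]
      exact (Finsupp.degree_eq_weight_one (R := ℕ) ▸ rfl)
    rw [h1, ← sb_eval_single h2, sbA_eval]
    have h3 : (fun j => (Pi.single c 1 : Fin (n + 1) → ℂ) j +
        l j * (Pi.single c 1 : Fin (n + 1) → ℂ) c) =
        fun j => (Pi.single c 1 : Fin (n + 1) → ℂ) j + l j := by
      funext j
      rw [Pi.single_eq_same, mul_one]
    rw [h3]
    exact hl1
  -- the matrices
  set M : Matrix (Fin (n + 1)) (Fin (n + 1)) ℂ :=
    Matrix.of fun j k => (if j = k then 1 else 0) - if k = c then l j else 0 with hM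
  have hMv : ∀ (x : Fin (n + 1) → ℂ) (j), M.mulVec x j = x j - l j * x c := by
    intro x j
    rw [Matrix.mulVec, dotProduct]
    have h1 : ∀ k, M j k * x k = (if j = k then x k else 0) - if k = c then l j * x k else 0 := by
      intro k
      rw [hM, Matrix.of_apply, sub_mul]
      split_ifs <;> ring
    rw [Finset.sum_congr rfl fun k _ => h1 k, Finset.sum_sub_distrib, Finset.sum_ite_eq,
      if_pos (Finset.mem_univ j), Finset.sum_ite_eq', if_pos (Finset.mem_univ c)]
  have hMA : ∀ x : Fin (n + 1) → ℂ, (fun j => M.mulVec x j + l j * M.mulVec x c) = x := by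
    intro x
    funext j
    rw [hMv, hMv, hlc]
    ring
  have hMdet : IsUnit M.det := by
    rw [← Matrix.isUnit_iff_isUnit_det, ← Matrix.mulVec_injective_iff_isUnit]
    intro x y hxy
    have h1 := hMA x
    rw [hxy, hMA y] at h1
    exact h1.symm
  have hMge : ∀ (x : Fin (n + 1) → ℂ) (j), c ≤ j → M.mulVec x j = x j := by
    intro x j hj
    rw [hMv, hl0 j hj, zero_mul, sub_zero]
  have hev : ∀ (q : ι) (Q : MvPolynomial (Fin (n + 1)) ℂ),
      eval (M.mulVec (s q)) (sbA c l Q) = eval (s q) Q := by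
    intro q Q
    rw [sbA_eval, hMA]
  refine ⟨M, fun i => if (i : ℕ) + 1 = m - 1 then D else δ i,
    fun i => if (i : ℕ) + 1 = m - 1 then X c ^ D - C κ⁻¹ * F else sbA c l (g i), hMdet, ?_, ?_, ?_⟩
  · -- the new level
    have hcase : ∀ i : Fin n, (i : ℕ) + 1 = m - 1 → i.succ = c := by
      intro i hi
      apply Fin.ext
      rw [Fin.val_succ, hcv, hi]
    have hlt : ∀ i : Fin n, m - 1 ≤ (i : ℕ) + 1 → ¬ (i : ℕ) + 1 = m - 1 → m ≤ (i : ℕ) + 1 := by
      intro i h1 h2
      omega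
    have hcs : ∀ i : Fin n, m ≤ (i : ℕ) + 1 → c < i.succ := by
      intro i hi
      show (c : ℕ) < (i.succ : ℕ)
      rw [Fin.val_succ, hcv]
      omega
    have hFs : ∀ γ ∈ (X c ^ D - C κ⁻¹ * F).support, γ.degree ≤ D ∧ γ ≠ Finsupp.single c D ∧
        ∀ j, c < j → γ j = 0 := by
      intro γ hγ
      have h0 : γ ≠ Finsupp.single c D := by
        rintro rfl
        apply mem_support_iff.1 hγ
        rw [coeff_sub, X_pow_eq_monomial, coeff_monomial, if_pos rfl, coeff_C_mul, ← hκ,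
          inv_mul_cancel₀ hκ0, sub_self]
      rw [mem_support_iff, coeff_sub, X_pow_eq_monomial, coeff_monomial,
        if_neg (fun h => h0 h.symm), zero_sub, neg_ne_zero, coeff_C_mul] at hγ
      obtain ⟨γ', hγ', h1, h2⟩ := sbA_supp hl (right_ne_zero_of_mul hγ)
      refine ⟨?_, h0, fun j hj => ?_⟩
      · rw [h1]
        exact sb_le_degree hγ'
      · rw [h2 j hj]
        exact hGc γ' hγ' j hj
    refine ⟨?_, ?_, ?_, ?_⟩
    · intro i hi
      by_cases h1 : (i : ℕ) + 1 = m - 1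
      · show 1 ≤ (if (i : ℕ) + 1 = m - 1 then D else δ i)
        rw [if_pos h1]
        exact hD1
      · show 1 ≤ (if (i : ℕ) + 1 = m - 1 then D else δ i)
        rw [if_neg h1]
        exact hL.pos i (hlt i hi h1)
    · intro i hi
      by_cases h1 : (i : ℕ) + 1 = m - 1
      · simp only [if_pos h1]
        exact sb_degree_le fun γ hγ => (hFs γ hγ).1
      · simp only [if_neg h1]
        refine sb_degree_le fun γ hγ => ?_
        obtain ⟨γ', hγ', h2, -⟩ := sbA_supp hl (mem_support_iff.1 hγ)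
        rw [h2]
        exact (sb_le_degree hγ').trans (hL.deg i (hlt i hi h1))
    · intro i hi γ hγ
      by_cases h1 : (i : ℕ) + 1 = m - 1
      · simp only [if_pos h1] at hγ ⊢
        obtain ⟨h2, h3, h4⟩ := hFs γ hγ
        rw [hcase i h1]
        refine ⟨h4, ?_⟩
        by_contra h5
        push Not at h5
        apply h3
        have h6 : γ.degree = γ c + ∑ j ∈ Finset.univ.erase c, γ j := by
          rw [Finsupp.degree_eq_sum, Finset.add_sum_erase _ _ (Finset.mem_univ c)]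
        have h7 : ∑ j ∈ Finset.univ.erase c, γ j = 0 := by omega
        ext j
        by_cases hj : j = c
        · rw [hj, Finsupp.single_eq_same]
          omega
        · rw [Finsupp.single_eq_of_ne hj]
          exact (Finset.sum_eq_zero_iff.1 h7) j (Finset.mem_erase.2 ⟨hj, Finset.mem_univ j⟩)
      · simp only [if_neg h1] at hγ ⊢
        obtain ⟨γ', hγ', -, h3⟩ := sbA_supp hl (mem_support_iff.1 hγ)
        have h4 := hL.tri i (hlt i hi h1) γ' hγ'
        have h5 := hcs i (hlt i hi h1)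
        refine ⟨fun j hj => ?_, ?_⟩
        · rw [h3 j (h5.trans hj)]
          exact h4.1 j hj
        · rw [h3 _ h5]
          exact h4.2
    · intro i hi q
      by_cases h1 : (i : ℕ) + 1 = m - 1
      · simp only [if_pos h1]
        rw [hcase i h1, map_sub, map_pow, eval_X, map_mul, hF, hev q G, hGs q, mul_zero, sub_zero]
      · simp only [if_neg h1]
        rw [hev q, hMge _ _ (hcs i (hlt i hi h1)).le]
        exact hL.eq i (hlt i hi h1) q
  · intro i hi
    simp only
    rw [if_neg (by omega)]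
  · intro i hi
    simp only
    rw [if_pos hi]
    exact hDb

end Pool.Agent.H5.DG

end
end

section

/-!
# Project DG, A4: the interpolation theorem

Claim (m), `1 ≤ m ≤ n + 1`: for all `D` there is `n₀` such that `Good ρ s` for all `s : ι → _`, `card ι ≥ n₀`, with
`Lvl m δ g s` and `∏ (m ≤ i + 1) δ i ≤ D`. Induction on `m`. `m = 1`: all points satisfy all equations
(`S = univ`, `M = 1`, `a = δ`, `W i = 1 + i`, the weight condition as in the header of `StepA`; `n₀ = ρ D + 1`).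
Step: `b = ρ D m ^ (m - 1)`; then `ρ ((m b + 1) ^ (m - 1) D) < (b + 1) ^ m`; use `step_good` if the evaluation is injective on
the box polynomials, otherwise `step_lower` and Claim `(m - 1)` with `D (m b)` (take `n₀ ≥ 1`), and `Good` is invariant under
an invertible linear change of the points (`good_of_mulVec`). The theorem is Claim `(n + 1)` with `D = 1`.
-/

open MvPolynomial

noncomputable section

namespace Pool.Agent.H5.DG

theorem good_of_mulVec {n ρ : ℕ} {ι : Type} (s : ι → Fin (n + 1) → ℂ)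
    (M : Matrix (Fin (n + 1)) (Fin (n + 1)) ℂ) (hM : IsUnit M.det)
    (h : Good ρ fun q => M.mulVec (s q)) : Good ρ s := by
  obtain ⟨M', a, W, g, S, hM', hsys, hcard, hS⟩ := h
  refine ⟨M' * M, a, W, g, S, ?_, hsys, hcard, ?_⟩
  · rw [Matrix.det_mul]
    exact hM'.mul hM
  · intro q hq i
    have := hS q hq i
    rw [Matrix.mulVec_mulVec] at this
    exact this

private theorem interp_base {n ρ D : ℕ} {ι : Type} [Fintype ι] (s : ι → Fin (n + 1) → ℂ)
    (δ : Fin n → ℕ) (g : Fin n → MvPolynomial (Fin (n + 1)) ℂ) (hL : Lvl 1 δ g s)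
    (hD : ∏ i ∈ Finset.univ.filter (fun i : Fin n => 1 ≤ (i : ℕ) + 1), δ i ≤ D)
    (hcard : ρ * D + 1 ≤ Fintype.card ι) : Good ρ s := by
  have hf : Finset.univ.filter (fun i : Fin n => 1 ≤ (i : ℕ) + 1) = Finset.univ := by
    apply Finset.filter_true_of_mem
    intro i _
    omega
  rw [hf] at hD
  refine ⟨1, δ, fun i => (i : ℕ) + 1, g, Finset.univ, by simp, ?_, ?_, ?_⟩
  · refine ⟨fun i => hL.pos i (by omega), fun i => by omega, fun i => hL.deg i (by omega), ?_⟩
    intro i γ hγ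
    obtain ⟨h1, h2⟩ := hL.tri i (by omega) γ hγ
    have hdeg : ∑ j : Fin (n + 1), γ j ≤ δ i := by
      have := (MvPolynomial.le_totalDegree hγ).trans (hL.deg i (by omega))
      rwa [Finsupp.sum_fintype _ _ (fun _ => rfl)] at this
    have hsum : ∑ j : Fin n, γ j.succ ≤ δ i := by
      rw [Fin.sum_univ_succ] at hdeg
      omega
    have hterm : ∀ j : Fin n, γ j.succ * ((j : ℕ) + 1) ≤
        γ j.succ * (i : ℕ) + (if j = i then γ i.succ else 0) := by
      intro j
      rcases lt_trichotomy j i with h | h | h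
      · have h' : (j : ℕ) < (i : ℕ) := h
        rw [if_neg h.ne]
        have : γ j.succ * ((j : ℕ) + 1) ≤ γ j.succ * (i : ℕ) := Nat.mul_le_mul_left _ (by omega)
        omega
      · subst h
        rw [if_pos rfl]
        apply le_of_eq
        ring
      · have : γ j.succ = 0 := h1 j.succ (Fin.succ_lt_succ_iff.2 h)
        simp [this]
    calc ∑ j : Fin n, γ j.succ * ((j : ℕ) + 1)
        ≤ ∑ j : Fin n, (γ j.succ * (i : ℕ) + (if j = i then γ i.succ else 0)) :=
          Finset.sum_le_sum fun j _ => hterm j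
      _ = (∑ j : Fin n, γ j.succ) * (i : ℕ) + γ i.succ := by
          rw [Finset.sum_add_distrib, Finset.sum_mul]
          simp
      _ ≤ δ i * (i : ℕ) + γ i.succ := by
          have := Nat.mul_le_mul_right (i : ℕ) hsum
          omega
      _ < δ i * (i : ℕ) + δ i := by omega
      _ = δ i * ((i : ℕ) + 1) := by ring
  · have := Nat.mul_le_mul_left ρ hD
    rw [Finset.card_univ]
    omega
  · intro q _ i
    rw [Matrix.one_mulVec]
    exact hL.eq i (by omega) q

private theorem interp_num {ρ D m b P : ℕ} (hm : 1 ≤ m) (hP : P ≤ D)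
    (hb : b = ρ * D * m ^ (m - 1)) :
    ρ * ((m * b + 1) ^ (m - 1) * P) < (b + 1) ^ m := by
  have h1 : m * b + 1 ≤ m * (b + 1) := by
    have : m * (b + 1) = m * b + m := by ring
    omega
  have h2 : (m * b + 1) ^ (m - 1) ≤ (m * (b + 1)) ^ (m - 1) := Nat.pow_le_pow_left h1 _
  have h3 : ρ * ((m * b + 1) ^ (m - 1) * P) ≤ ρ * ((m * (b + 1)) ^ (m - 1) * D) :=
    Nat.mul_le_mul_left _ (Nat.mul_le_mul h2 hP)
  have h4 : ρ * ((m * (b + 1)) ^ (m - 1) * D) = b * (b + 1) ^ (m - 1) := by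
    rw [mul_pow, hb]
    ring
  have h5 : (b + 1) ^ m = (b + 1) * (b + 1) ^ (m - 1) := by
    rw [← pow_succ']
    congr 1
    omega
  rw [h5]
  have h6 : 0 < (b + 1) ^ (m - 1) := by positivity
  calc ρ * ((m * b + 1) ^ (m - 1) * P) ≤ b * (b + 1) ^ (m - 1) := h3.trans_eq h4
    _ < (b + 1) * (b + 1) ^ (m - 1) := by
        apply Nat.mul_lt_mul_of_pos_right (by omega) h6

private theorem interp_claim (n ρ : ℕ) (m : ℕ) (hm : 1 ≤ m) (hmn : m ≤ n + 1) :
    ∀ D : ℕ, ∃ n₀ : ℕ, ∀ (ι : Type) [Fintype ι] (s : ι → Fin (n + 1) → ℂ) (δ : Fin n → ℕ)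
      (g : Fin n → MvPolynomial (Fin (n + 1)) ℂ), Lvl m δ g s →
      ∏ i ∈ Finset.univ.filter (fun i : Fin n => m ≤ (i : ℕ) + 1), δ i ≤ D →
      n₀ ≤ Fintype.card ι → Good ρ s := by
  induction m, hm using Nat.le_induction with
  | base =>
    intro D
    exact ⟨ρ * D + 1, fun ι _ s δ g hL hD hc => interp_base s δ g hL hD hc⟩
  | succ m hm ih =>
    intro D
    obtain ⟨n₀, hn₀⟩ := ih (by omega) (((m + 1) * (ρ * D * (m + 1) ^ (m + 1 - 1))) * D)
    refine ⟨max 1 n₀, ?_⟩
    intro ι _ s δ g hL hD hc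
    have hne : Nonempty ι := by
      rw [← Fintype.card_pos_iff]
      have := le_max_left 1 n₀
      omega
    by_cases hinj : ∀ G ∈ restrictSupport ℂ (Box n (m + 1) (ρ * D * (m + 1) ^ (m + 1 - 1))),
        (∀ q, eval (s q) G = 0) → G = 0
    · exact step_good (by omega) hmn s δ g hL hinj (interp_num (by omega) hD rfl)
    · push Not at hinj
      obtain ⟨G, hG, hGs, hG0⟩ := hinj
      obtain ⟨M, δ', g', hM, hL', hδ, hδ'⟩ :=
        step_lower (by omega) hmn s δ g hL G hG hG0 hGs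
      refine good_of_mulVec s M hM ?_
      have hm1 : m + 1 - 1 = m := by omega
      rw [hm1] at hL'
      refine hn₀ ι _ δ' g' hL' ?_ ((le_max_right 1 n₀).trans hc)
      have hi0 : m - 1 < n := by omega
      have hsplit : Finset.univ.filter (fun i : Fin n => m ≤ (i : ℕ) + 1) =
          insert (⟨m - 1, hi0⟩ : Fin n)
            (Finset.univ.filter (fun i : Fin n => m + 1 ≤ (i : ℕ) + 1)) := by
        ext i
        simp only [Finset.mem_filter, Finset.mem_univ, true_and, Finset.mem_insert, Fin.ext_iff]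
        omega
      rw [hsplit, Finset.prod_insert (by simp; omega)]
      refine Nat.mul_le_mul ?_ ?_
      · exact hδ' ⟨m - 1, hi0⟩ (by simp; omega)
      · rw [Finset.prod_congr rfl (g := δ)]
        · exact hD
        · intro i hi
          exact hδ i (by simpa using hi)

theorem interp (n ρ : ℕ) : ∃ n₀ : ℕ, ∀ (ι : Type) [Fintype ι] (s : ι → Fin (n + 1) → ℂ),
    n₀ ≤ Fintype.card ι → Good ρ s := by
  obtain ⟨n₀, hn₀⟩ := interp_claim n ρ (n + 1) (by omega) le_rfl 1
  refine ⟨n₀, ?_⟩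
  intro ι _ s hc
  have hno : ∀ i : Fin n, ¬ (n + 1 ≤ (i : ℕ) + 1) := fun i h => by
    have := i.isLt
    omega
  refine hn₀ ι s (fun _ => 1) (fun _ => 0) ?_ ?_ hc
  · exact ⟨fun i h => absurd h (hno i), fun i h => absurd h (hno i),
      fun i h => absurd h (hno i), fun i h => absurd h (hno i)⟩
  · simp

end Pool.Agent.H5.DG

end
end

section

/-!
# Project DG, module CovBd: growth of the coordinates, meromorphy at the puncture

`exists_norm_bound`: by homogeneity of the `F a` one may assume `‖x‖ = 1`, `‖x i‖ = 1` for some `i`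
(`Pool.Agent.H17.exists_norm_eq`); `X i ^ k = ∑ a, G a * F a + q` with `q ∈ I` (`base`, coefficients
of the span: `Ideal.mem_span_range_iff_exists_fun`), so `1 ≤ ∑ a, ‖eval x (G a)‖ * ‖eval x (F a)‖`
and `‖eval x (G a)‖` is bounded for `‖x‖ ≤ 1`; take the maximum over `i`.

`punctMero_of_bound`: near `0` the functions `v j` agree with functions meromorphic at `0` (off a
discrete set), so `‖u z‖ ≤ C' * ‖z‖ ^ (-K)` at generic points of a punctured disc; the normal form
of `u` is then analytic there (no poles: the norm would tend to infinity) and the removable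
singularity theorem applies to `z ^ K * u`.  (Model: `PunctMero.root` in
`Pool.Agent.H62.FC.PunctMero`.)
-/

open MvPolynomial Filter Topology
open Pool.Agent.H17 (PN VanishesAt HolomorphicInto puncturedDisc)
open Pool.Agent.H62.FC (MeroPunct PunctMero)

noncomputable section

namespace Pool.Agent.H5.DG

private theorem CovBd_poly {Nn : ℕ} (G : MvPolynomial (Fin (Nn + 1)) ℂ) :
    ∃ B : ℝ, 0 ≤ B ∧ ∀ y : Fin (Nn + 1) → ℂ, ‖y‖ ≤ 1 → ‖eval y G‖ ≤ B := by
  obtain ⟨B, hB⟩ := (isCompact_closedBall (0 : Fin (Nn + 1) → ℂ) 1).exists_bound_of_continuousOn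
    (f := fun y => eval y G) (MvPolynomial.continuous_eval G).continuousOn
  refine ⟨B, ?_, fun y hy => hB y (by simpa using hy)⟩
  exact (norm_nonneg _).trans (hB 0 (by simp))

private theorem CovBd_coord {Nn m e : ℕ} {I : Ideal (MvPolynomial (Fin (Nn + 1)) ℂ)}
    {F : Fin (m + 1) → MvPolynomial (Fin (Nn + 1)) ℂ} (hF : BaseFree I e F) (i : Fin (Nn + 1)) :
    ∃ M : ℝ, 0 < M ∧ ∀ y : Fin (Nn + 1) → ℂ, ‖y‖ ≤ 1 → ‖y i‖ = 1 → (∀ Q ∈ I, eval y Q = 0) →
      1 ≤ M * ∑ a, ‖eval y (F a)‖ := by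
  obtain ⟨k, hk⟩ := hF.base i
  obtain ⟨g, hg, q, hq, hgq⟩ := Submodule.mem_sup.1 hk
  obtain ⟨G, hG⟩ := Ideal.mem_span_range_iff_exists_fun.1 hg
  choose B hB0 hB using fun a => CovBd_poly (G a)
  have hsum : 0 ≤ ∑ a, B a := Finset.sum_nonneg fun a _ => hB0 a
  refine ⟨∑ a, B a + 1, by linarith, ?_⟩
  intro y hy hyi hI
  have h1 : (y i) ^ k = ∑ a, eval y (G a) * eval y (F a) := by
    have h2 := congrArg (eval y) hgq
    rw [map_add, hI q hq, add_zero, ← hG, map_sum, map_pow, eval_X] at h2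
    rw [← h2]
    exact Finset.sum_congr rfl fun a _ => map_mul _ _ _
  have h3 : (1 : ℝ) = ‖∑ a, eval y (G a) * eval y (F a)‖ := by
    rw [← h1, norm_pow, hyi, one_pow]
  calc (1 : ℝ) = ‖∑ a, eval y (G a) * eval y (F a)‖ := h3
    _ ≤ ∑ a, ‖eval y (G a) * eval y (F a)‖ := norm_sum_le _ _
    _ ≤ ∑ a, (∑ b, B b + 1) * ‖eval y (F a)‖ := by
        refine Finset.sum_le_sum fun a _ => ?_
        rw [norm_mul]
        refine mul_le_mul_of_nonneg_right ?_ (norm_nonneg _)
        have h4 : B a ≤ ∑ b, B b := Finset.single_le_sum (fun b _ => hB0 b) (Finset.mem_univ a)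
        linarith [hB a y hy]
    _ = (∑ b, B b + 1) * ∑ a, ‖eval y (F a)‖ := by rw [Finset.mul_sum]

/-- The forms `F a` are not small on `X`. -/
theorem exists_norm_bound {Nn m e : ℕ} {I : Ideal (MvPolynomial (Fin (Nn + 1)) ℂ)}
    {F : Fin (m + 1) → MvPolynomial (Fin (Nn + 1)) ℂ} (hF : BaseFree I e F) :
    ∃ C : ℝ, 0 < C ∧ ∀ x : Fin (Nn + 1) → ℂ, (∀ c : ℂ, ∀ Q ∈ I, eval (c • x) Q = 0) →
      ‖x‖ ^ e ≤ C * ∑ a, ‖eval x (F a)‖ := by
  choose M hM0 hM using fun i => CovBd_coord hF i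
  have hMsum : ∀ i, M i ≤ ∑ i, M i := fun i =>
    Finset.single_le_sum (fun b _ => (hM0 b).le) (Finset.mem_univ i)
  refine ⟨∑ i, M i, (hM0 0).trans_le (hMsum 0), ?_⟩
  intro x hx
  have hS : 0 ≤ ∑ a, ‖eval x (F a)‖ := Finset.sum_nonneg fun a _ => norm_nonneg _
  rcases eq_or_ne x 0 with h0 | h0
  · have he : e ≠ 0 := by have := hF.pos; omega
    have h1 : ‖x‖ ^ e = 0 := by rw [h0, norm_zero, zero_pow he]
    rw [h1]
    exact mul_nonneg ((hM0 0).trans_le (hMsum 0)).le hS
  · have hr : 0 < ‖x‖ := norm_pos_iff.2 h0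
    have hrc : ((‖x‖ : ℝ) : ℂ) ≠ 0 := by exact_mod_cast hr.ne'
    obtain ⟨i, hi⟩ := Pool.Agent.H17.exists_norm_eq x
    have hy1 : ∀ z : ℂ, ‖((‖x‖ : ℝ) : ℂ)⁻¹ * z‖ = ‖x‖⁻¹ * ‖z‖ := by
      intro z
      rw [norm_mul, norm_inv, Complex.norm_real, norm_norm]
    have h1 : ‖(((‖x‖ : ℝ) : ℂ)⁻¹ • x)‖ ≤ 1 := by
      rw [norm_smul, norm_inv, Complex.norm_real, norm_norm, inv_mul_cancel₀ hr.ne']
    have h2 : ‖(((‖x‖ : ℝ) : ℂ)⁻¹ • x) i‖ = 1 := by
      rw [Pi.smul_apply, smul_eq_mul, hy1, hi, inv_mul_cancel₀ hr.ne']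
    have h3 := hM i _ h1 h2 (hx _)
    have h4 : ∀ a, ‖eval x (F a)‖ = ‖x‖ ^ e * ‖eval (((‖x‖ : ℝ) : ℂ)⁻¹ • x) (F a)‖ := by
      intro a
      have h5 := Pool.Agent.H17.eval_smul_of_isHomogeneous (hF.hom a) ((‖x‖ : ℝ) : ℂ)
        (((‖x‖ : ℝ) : ℂ)⁻¹ • x)
      have h6 : (fun j => ((‖x‖ : ℝ) : ℂ) * (((‖x‖ : ℝ) : ℂ)⁻¹ • x) j) = x := by
        funext j
        rw [Pi.smul_apply, smul_eq_mul, ← mul_assoc, mul_inv_cancel₀ hrc, one_mul]
      rw [h6] at h5
      rw [h5, norm_mul, norm_pow, Complex.norm_real, norm_norm]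
    have h5 : ∑ a, ‖eval x (F a)‖ = ‖x‖ ^ e * ∑ a, ‖eval (((‖x‖ : ℝ) : ℂ)⁻¹ • x) (F a)‖ := by
      rw [Finset.mul_sum]
      exact Finset.sum_congr rfl fun a _ => h4 a
    have h6 : ‖x‖ ^ e ≤ M i * ∑ a, ‖eval x (F a)‖ := by
      rw [h5]
      calc ‖x‖ ^ e = ‖x‖ ^ e * 1 := (mul_one _).symm
        _ ≤ ‖x‖ ^ e * (M i * ∑ a, ‖eval (((‖x‖ : ℝ) : ℂ)⁻¹ • x) (F a)‖) :=
            mul_le_mul_of_nonneg_left h3 (pow_nonneg hr.le e)
        _ = M i * (‖x‖ ^ e * ∑ a, ‖eval (((‖x‖ : ℝ) : ℂ)⁻¹ • x) (F a)‖) := by ring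
    exact h6.trans (mul_le_mul_of_nonneg_right (hMsum i) hS)

/-- Meromorphy from a bound. -/
theorem punctMero_of_bound {R₀ : ℝ} (hR₀ : 0 < R₀) {u : ℂ → ℂ}
    (hu : ∀ z, 0 < ‖z‖ → ‖z‖ < R₀ → MeromorphicAt u z) {ι : Type} [Fintype ι] {v : ι → ℂ → ℂ}
    (hv : ∀ j, PunctMero (v j)) {C : ℝ}
    (h : ∀ z, 0 < ‖z‖ → ‖z‖ < R₀ → ∀ᶠ ζ in 𝓝[≠] z, ‖u ζ‖ ≤ C * ∑ j, ‖v j ζ‖) : PunctMero u := by
  choose w hw hvw using hv
  -- the growth of the `w j`
  have hgr : ∀ j, ∃ (n : ℕ) (B : ℝ), 0 ≤ B ∧ ∀ᶠ z in 𝓝[≠] (0 : ℂ), ‖z ^ n * w j z‖ ≤ B := by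
    intro j
    obtain ⟨n, hn⟩ := hw j
    refine ⟨n, ‖(fun z : ℂ => (z - 0) ^ n • w j z) 0‖ + 1,
      by linarith [norm_nonneg ((fun z : ℂ => (z - 0) ^ n • w j z) 0)], ?_⟩
    have h1 := hn.continuousAt.norm.tendsto
    filter_upwards [(h1.eventually_lt_const (lt_add_one _)).filter_mono nhdsWithin_le_nhds]
      with z hz
    simp only [sub_zero, smul_eq_mul] at hz ⊢
    exact hz.le
  choose n B hB0 hB using hgr
  -- the punctured disc
  have hU0 : ∀ᶠ z in 𝓝[≠] (0 : ℂ), 0 < ‖z‖ ∧ ‖z‖ < R₀ := by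
    have h1 : ∀ᶠ z in 𝓝 (0 : ℂ), ‖z‖ < R₀ := by
      filter_upwards [Metric.ball_mem_nhds (0 : ℂ) hR₀] with z hz
      simpa using hz
    filter_upwards [h1.filter_mono nhdsWithin_le_nhds, self_mem_nhdsWithin] with z h2 h3
    exact ⟨norm_pos_iff.mpr h3, h2⟩
  have h1b : ∀ᶠ z in 𝓝 (0 : ℂ), ‖z‖ < 1 := by
    filter_upwards [Metric.ball_mem_nhds (0 : ℂ) one_pos] with z hz
    simpa using hz
  have hall : ∀ᶠ z in 𝓝[≠] (0 : ℂ), (0 < ‖z‖ ∧ ‖z‖ < R₀) ∧ ‖z‖ < 1 ∧
      ∀ j, (v j =ᶠ[𝓝[≠] z] w j) ∧ AnalyticAt ℂ (w j) z ∧ ‖z ^ n j * w j z‖ ≤ B j := by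
    filter_upwards [hU0, h1b.filter_mono nhdsWithin_le_nhds, Filter.eventually_all.2 hvw,
      Filter.eventually_all.2 fun j => (hw j).eventually_analyticAt, Filter.eventually_all.2 hB]
      with z a1 a2 a3 a4 a5
    exact ⟨a1, a2, fun j => ⟨a3 j, a4 j, a5 j⟩⟩
  obtain ⟨ε, hε, hε'⟩ := Metric.mem_nhdsWithin_iff.1 hall
  have hD : ∀ z : ℂ, 0 < ‖z‖ → ‖z‖ < ε → (0 < ‖z‖ ∧ ‖z‖ < R₀) ∧ ‖z‖ < 1 ∧
      ∀ j, (v j =ᶠ[𝓝[≠] z] w j) ∧ AnalyticAt ℂ (w j) z ∧ ‖z ^ n j * w j z‖ ≤ B j := by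
    intro z hz1 hz2
    exact hε' ⟨by simpa using hz2, norm_pos_iff.1 hz1⟩
  -- the normal form
  have hfU : MeromorphicOn u {z | 0 < ‖z‖ ∧ ‖z‖ < R₀} := fun z hz => hu z hz.1 hz.2
  obtain ⟨g, hg⟩ : ∃ g, g = toMeromorphicNFOn u {z | 0 < ‖z‖ ∧ ‖z‖ < R₀} := ⟨_, rfl⟩
  have hgf : ∀ z : ℂ, 0 < ‖z‖ → ‖z‖ < ε → g =ᶠ[𝓝[≠] z] u := fun z h1 h2 => by
    rw [hg]
    exact hfU.toMeromorphicNFOn_eq_self_on_nhdsNE (hD z h1 h2).1
  have hgle : ∀ z : ℂ, 0 < ‖z‖ → ‖z‖ < ε → ∀ᶠ ζ in 𝓝[≠] z, ‖g ζ‖ ≤ C * ∑ j, ‖w j ζ‖ := by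
    intro z h1 h2
    obtain ⟨b1, -, b2⟩ := hD z h1 h2
    filter_upwards [hgf z h1 h2, h z b1.1 b1.2, Filter.eventually_all.2 fun j => (b2 j).1]
      with ζ c1 c2 c3
    rw [c1]
    refine c2.trans (le_of_eq ?_)
    congr 1
    exact Finset.sum_congr rfl fun j _ => by rw [c3 j]
  have hcont : ∀ z : ℂ, 0 < ‖z‖ → ‖z‖ < ε →
      Tendsto (fun ζ => C * ∑ j, ‖w j ζ‖) (𝓝[≠] z) (𝓝 (C * ∑ j, ‖w j z‖)) := by
    intro z h1 h2
    obtain ⟨-, -, b2⟩ := hD z h1 h2
    have h3 : Tendsto (fun ζ => ∑ j, ‖w j ζ‖) (𝓝 z) (𝓝 (∑ j, ‖w j z‖)) :=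
      tendsto_finsetSum _ fun j _ => (b2 j).2.1.continuousAt.norm.tendsto
    exact (h3.const_mul C).mono_left nhdsWithin_le_nhds
  have hgan : ∀ z : ℂ, 0 < ‖z‖ → ‖z‖ < ε → AnalyticAt ℂ g z := by
    intro z h1 h2
    obtain ⟨b1, -, -⟩ := hD z h1 h2
    have hnf : MeromorphicNFAt g z := by
      rw [hg]
      exact meromorphicNFOn_toMeromorphicNFOn u _ b1
    refine hnf.meromorphicOrderAt_nonneg_iff_analyticAt.1 ?_
    by_contra hneg
    have h3 := (tendsto_norm_cobounded_atTop.comp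
      (tendsto_cobounded_of_meromorphicOrderAt_neg (not_le.1 hneg)))
    have h4 : ∀ᶠ ζ in 𝓝[≠] z, ‖g ζ‖ ≤ C * ∑ j, ‖w j z‖ + 1 := by
      filter_upwards [hgle z h1 h2, (hcont z h1 h2).eventually_lt_const (lt_add_one _)]
        with ζ c1 c2
      exact c1.trans c2.le
    have h5 : ∀ᶠ ζ in 𝓝[≠] z, C * ∑ j, ‖w j z‖ + 1 < ‖g ζ‖ :=
      h3.eventually_gt_atTop _
    obtain ⟨ζ, c1, c2⟩ := (h4.and h5).exists
    exact absurd c1 (not_le.2 c2)
  have hgz : ∀ z : ℂ, 0 < ‖z‖ → ‖z‖ < ε → ‖g z‖ ≤ C * ∑ j, ‖w j z‖ := by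
    intro z h1 h2
    exact le_of_tendsto_of_tendsto
      ((hgan z h1 h2).continuousAt.norm.tendsto.mono_left nhdsWithin_le_nhds)
      (hcont z h1 h2) (hgle z h1 h2)
  -- multiply by a power of `z`
  have hnle : ∀ j, n j ≤ ∑ j, n j := fun j =>
    Finset.single_le_sum (fun _ _ => Nat.zero_le _) (Finset.mem_univ j)
  obtain ⟨s, hs, hsg⟩ := Pool.Agent.H92.GGL.meromorphicAt_of_bounded
    (u := fun z => z ^ (∑ j, n j) * g z) (ε := ε) (M := |C| * ∑ j, B j) hε
    (fun z h1 h2 => (analyticAt_id.pow _).mul (hgan z h1 h2)) (by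
      intro z h1 h2
      obtain ⟨-, b1, b2⟩ := hD z h1 h2
      rw [norm_mul]
      have h3 : ‖g z‖ ≤ |C| * ∑ j, ‖w j z‖ :=
        (hgz z h1 h2).trans (mul_le_mul_of_nonneg_right (le_abs_self C)
          (Finset.sum_nonneg fun _ _ => norm_nonneg _))
      calc ‖z ^ (∑ j, n j)‖ * ‖g z‖ ≤ ‖z ^ (∑ j, n j)‖ * (|C| * ∑ j, ‖w j z‖) :=
            mul_le_mul_of_nonneg_left h3 (norm_nonneg _)
        _ = |C| * ∑ j, ‖z ^ (∑ j, n j)‖ * ‖w j z‖ := by
            rw [← Finset.mul_sum]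
            ring
        _ ≤ |C| * ∑ j, B j := by
            refine mul_le_mul_of_nonneg_left (Finset.sum_le_sum fun j _ => ?_) (abs_nonneg C)
            have h4 : ‖z ^ (∑ j, n j)‖ ≤ ‖z ^ n j‖ := by
              rw [norm_pow, norm_pow]
              exact pow_le_pow_of_le_one (norm_nonneg z) b1.le (hnle j)
            calc ‖z ^ (∑ j, n j)‖ * ‖w j z‖ ≤ ‖z ^ n j‖ * ‖w j z‖ :=
                  mul_le_mul_of_nonneg_right h4 (norm_nonneg _)
              _ = ‖z ^ n j * w j z‖ := (norm_mul _ _).symm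
              _ ≤ B j := (b2 j).2.2)
  refine ⟨fun z => (z ^ (∑ j, n j))⁻¹ * s z, (((analyticAt_id.pow _).meromorphicAt).inv).mul
    hs.meromorphicAt, ?_⟩
  have hεe : ∀ᶠ z in 𝓝[≠] (0 : ℂ), 0 < ‖z‖ ∧ ‖z‖ < ε := by
    filter_upwards [(Metric.ball_mem_nhds (0 : ℂ) hε : _) |> mem_nhdsWithin_of_mem_nhds,
      self_mem_nhdsWithin] with z h1 h2
    exact ⟨norm_pos_iff.mpr h2, by simpa using h1⟩
  filter_upwards [hεe] with z hz
  have hz0 : z ≠ 0 := norm_pos_iff.1 hz.1
  have h5 : ∀ᶠ ζ in 𝓝[≠] z, ζ ≠ 0 :=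
    (isOpen_compl_singleton.mem_nhds hz0 : ({(0 : ℂ)}ᶜ : Set ℂ) ∈ 𝓝 z) |>
      mem_nhdsWithin_of_mem_nhds
  filter_upwards [hgf z hz.1 hz.2, h5] with ζ h6 h7
  rw [hsg ζ h7, ← h6, ← mul_assoc, inv_mul_cancel₀ (pow_ne_zero _ h7), one_mul]

end Pool.Agent.H5.DG

end
end
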