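import Pool.Agent.H94.DG.M02
import Pool.Agent.H94.DG.M04
import Pool.Agent.H94.DG.M13

/-! The parts of this file: H5.DG.FacMul, H5.DG.FacProps, H5.DG.Factor, H62.FC.Extend, H62.FC.PunctMero. -/

section

/-!
# Project DG, A3: products of norm polynomials

`preNorm_mul`: homogeneity and the degree condition are multiplicative; `split`: `Fin.append`.
`preNorm_unique`: evaluate at `w = x e₀`: `x ^ κ = x ^ κ'` for all `x ∈ ℂ` (`F` is determined up to
the constant `c`). `gam_mul`: `p ∈ Gam (G * H) ℂ`: on the kernel of `p` (the vectors `(- ∑_{a ≥ 1} p a w a, w)`) the product of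
the two polynomial functions `val G · (p 1)` and `val H · (p 1)` vanishes, so one of them vanishes.
-/

open MvPolynomial

noncomputable section

namespace Pool.Agent.H5.DG

variable {n : ℕ}

private theorem facMul_val_mul {L : Type} [Field L] [Algebra ℂ L] (F G : Polynomial (PV n))
    (w : Fin (n + 2) → L) (u : L) : val (F * G) w u = val F w u * val G w u := by
  simp [val, atV, Polynomial.map_mul]

private theorem facMul_val_one {L : Type} [Field L] [Algebra ℂ L]
    (w : Fin (n + 2) → L) (u : L) : val (1 : Polynomial (PV n)) w u = 1 := by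
  simp [val, atV]

private theorem facMul_val_C {L : Type} [Field L] [Algebra ℂ L] (c : ℂ)
    (w : Fin (n + 2) → L) (u : L) :
    val (Polynomial.C (MvPolynomial.C c) : Polynomial (PV n)) w u = algebraMap ℂ L c := by
  simp [val, atV]

private theorem facMul_dot_single {L : Type} [Field L] {m : ℕ} (t : Fin (m + 1) → L) (x : L) :
    dot t (Pi.single 0 x) = t 0 * x := by
  simp [dot, Pi.single_apply]

private theorem facMul_val_single {k : ℕ} {F : Polynomial (PV n)} (hF : IsPreNorm k F) (x : ℂ) :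
    val F (Pi.single 0 x : Fin (n + 2) → ℂ) 0 = x ^ k := by
  obtain ⟨t, ht, h⟩ := hF.split ℂ 0
  rw [h]
  simp only [facMul_dot_single, (ht _).1, one_mul, Finset.prod_const, Finset.card_univ,
    Fintype.card_fin]

theorem preNorm_mul {k k' : ℕ} {F F' : Polynomial (PV n)} (hF : IsPreNorm k F)
    (hF' : IsPreNorm k' F') : IsPreNorm (k + k') (F * F') := by
  classical
  refine ⟨?_, ?_, ?_⟩
  · intro i
    rw [Polynomial.coeff_mul]
    exact MvPolynomial.IsHomogeneous.sum _ _ _ fun p _ => (hF.hom p.1).mul (hF'.hom p.2)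
  · intro i α hα
    rw [Polynomial.coeff_mul] at hα
    obtain ⟨p, hp, hα⟩ : ∃ p ∈ Finset.HasAntidiagonal.antidiagonal i,
        α ∈ (F.coeff p.1 * F'.coeff p.2).support := by
      by_contra hcon
      push Not at hcon
      rw [MvPolynomial.mem_support_iff, MvPolynomial.coeff_sum] at hα
      exact hα (Finset.sum_eq_zero fun p hp => by
        simpa [MvPolynomial.mem_support_iff] using hcon p hp)
    have h2 := MvPolynomial.support_mul _ _ hα
    rw [Finset.mem_add] at h2
    obtain ⟨β, hβ, γ, hγ, rfl⟩ := h2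
    have h3 := hF.deg p.1 β hβ
    have h4 := hF'.deg p.2 γ hγ
    rw [Finset.HasAntidiagonal.mem_antidiagonal] at hp
    rw [Finsupp.add_apply]
    omega
  · intro L _ _ _ u
    obtain ⟨t, ht, h⟩ := hF.split L u
    obtain ⟨t', ht', h'⟩ := hF'.split L u
    refine ⟨Fin.append t t', ?_, ?_⟩
    · intro s
      refine Fin.addCases (fun i => ?_) (fun i => ?_) s
      · rw [Fin.append_left]
        exact ht i
      · rw [Fin.append_right]
        exact ht' i
    · intro w
      rw [facMul_val_mul, h, h', Fin.prod_univ_add]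
      simp only [Fin.append_left, Fin.append_right]

theorem preNorm_unique {k k' : ℕ} {F : Polynomial (PV n)} {c : ℂ} (hF : IsPreNorm k F)
    (hF' : IsPreNorm k' (Polynomial.C (MvPolynomial.C c) * F)) : k = k' ∧ c = 1 := by
  have key : ∀ x : ℂ, c * x ^ k = x ^ k' := by
    intro x
    have h1 := facMul_val_single hF' x
    rw [facMul_val_mul, facMul_val_C, facMul_val_single hF x] at h1
    simpa using h1
  have hc : c = 1 := by simpa using key 1
  refine ⟨?_, hc⟩
  have h2 := key 2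
  rw [hc, one_mul] at h2
  have h3 : (2 : ℕ) ^ k = 2 ^ k' := by exact_mod_cast h2
  exact Nat.pow_right_injective le_rfl h3

theorem gam_mul {G H : Polynomial (PV n)} {p : Fin (n + 2) → ℂ} (h : p ∈ Gam (G * H) ℂ) :
    p ∈ Gam G ℂ ∨ p ∈ Gam H ℂ := by
  obtain ⟨hp0, hw⟩ := h
  -- the parametrisation of the kernel
  let σ : PV n →ₐ[ℂ] MvPolynomial (Fin (n + 1)) ℂ :=
    MvPolynomial.aeval (Fin.cons (-∑ a : Fin (n + 1), C (p a.succ) * X a) X :
      Fin (n + 2) → MvPolynomial (Fin (n + 1)) ℂ)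
  let τ : Polynomial (PV n) → MvPolynomial (Fin (n + 1)) ℂ := fun F =>
    σ (Polynomial.eval (C (p 1)) F)
  have hτ : ∀ F : Polynomial (PV n), ∀ w : Fin (n + 2) → ℂ, dot p w = 0 →
      val F w (p 1) = eval (fun a => w a.succ) (τ F) := by
    intro F w hw0
    have hw1 : w 0 = -∑ a : Fin (n + 1), p a.succ * w a.succ := by
      have h1 : dot p w = p 0 * w 0 + ∑ a : Fin (n + 1), p a.succ * w a.succ := by
        rw [dot, Fin.sum_univ_succ]
      rw [h1, hp0, one_mul] at hw0
      linear_combination hw0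
    have hcomp : (MvPolynomial.aeval (fun a => w a.succ) : MvPolynomial (Fin (n + 1)) ℂ →ₐ[ℂ] ℂ).comp σ
        = MvPolynomial.aeval w := by
      apply MvPolynomial.algHom_ext
      intro a
      refine Fin.cases ?_ (fun b => ?_) a
      · simp [σ, hw1]
      · simp [σ]
    have h2 : eval (fun a => w a.succ) (τ F) =
        MvPolynomial.aeval w (Polynomial.eval (C (p 1)) F) := by
      rw [← hcomp]
      simp [τ, MvPolynomial.aeval_eq_eval]
    rw [h2, val, atV]
    have h3 := Polynomial.eval_map (MvPolynomial.aeval w : PV n →ₐ[ℂ] ℂ).toRingHom (p := F) (p 1)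
    rw [h3]
    have h4 := Polynomial.hom_eval₂ F (RingHom.id _) (MvPolynomial.aeval w : PV n →ₐ[ℂ] ℂ).toRingHom
      (C (p 1))
    rw [RingHom.comp_id] at h4
    have h5 : (MvPolynomial.aeval w : PV n →ₐ[ℂ] ℂ).toRingHom (C (p 1)) = p 1 := by
      simp
    rw [h5] at h4
    rw [← h4]
    rfl
  have hzero : τ (G * H) = 0 := by
    apply MvPolynomial.funext
    intro y
    let w : Fin (n + 2) → ℂ := Fin.cons (-∑ a : Fin (n + 1), p a.succ * y a) y
    have hw0 : dot p w = 0 := by
      rw [dot, Fin.sum_univ_succ]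
      simp [w, hp0]
    have h1 := hτ (G * H) w hw0
    rw [hw w hw0] at h1
    have h2 : (fun a : Fin (n + 1) => w a.succ) = y := by
      funext a
      simp [w]
    rw [h2] at h1
    rw [← h1, map_zero]
  have hmul : τ (G * H) = τ G * τ H := by
    simp [τ, Polynomial.eval_mul, map_mul]
  rw [hmul] at hzero
  rcases mul_eq_zero.1 hzero with h0 | h0
  · left
    refine ⟨hp0, fun w hw0 => ?_⟩
    rw [hτ G w hw0, h0, map_zero]
  · right
    refine ⟨hp0, fun w hw0 => ?_⟩
    rw [hτ H w hw0, h0, map_zero]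

theorem gam_smul {G : Polynomial (PV n)} {p : Fin (n + 2) → ℂ} {c : ℂ} (hc : c ≠ 0) :
    p ∈ Gam (Polynomial.C (MvPolynomial.C c) * G) ℂ ↔ p ∈ Gam G ℂ := by
  have h : ∀ w : Fin (n + 2) → ℂ, val (Polynomial.C (MvPolynomial.C c) * G) w (p 1) = 0 ↔
      val G w (p 1) = 0 := by
    intro w
    rw [facMul_val_mul, facMul_val_C]
    simp [hc]
  simp only [Gam, Set.mem_ofPred_eq, h]

/-- A norm polynomial of degree `0` is `1`; one that is a unit has degree `0`. -/
theorem preNorm_zero {F : Polynomial (PV n)} (hF : IsPreNorm 0 F) : F = 1 := by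
  have h1 : ∀ i, i ≠ 0 → F.coeff i = 0 := by
    intro i hi
    rw [← MvPolynomial.support_eq_empty, Finset.eq_empty_iff_forall_notMem]
    intro α hα
    have := hF.deg i α hα
    omega
  have h2 : ∃ a : ℂ, F.coeff 0 = C a := by
    refine ⟨MvPolynomial.coeff 0 (F.coeff 0), ?_⟩
    apply MvPolynomial.totalDegree_eq_zero_iff_eq_C.1
    by_cases h0 : F.coeff 0 = 0
    · simp [h0]
    · exact (hF.hom 0).totalDegree h0
  obtain ⟨a, ha⟩ := h2
  have h3 : F = Polynomial.C (C a) := by
    ext1 i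
    by_cases hi : i = 0
    · subst hi
      rw [ha, Polynomial.coeff_C_zero]
    · rw [h1 i hi, Polynomial.coeff_C_of_ne_zero hi]
  have h4 := facMul_val_single hF 1
  rw [h3, facMul_val_C] at h4
  have h5 : a = 1 := by simpa using h4
  rw [h3, h5]
  simp

theorem preNorm_unit {k : ℕ} {F : Polynomial (PV n)} (hF : IsPreNorm k F) (hu : IsUnit F) :
    k = 0 := by
  obtain ⟨G, hG⟩ := hu.exists_right_inv
  have h1 := facMul_val_mul F G (Pi.single 0 (0 : ℂ) : Fin (n + 2) → ℂ) 0
  rw [hG, facMul_val_one, facMul_val_single hF 0] at h1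
  by_contra hk
  rw [zero_pow hk, zero_mul] at h1
  exact one_ne_zero h1

end Pool.Agent.H5.DG

end
end

section

/-!
# Project DG, A3: divisors of a norm polynomial

`F` has the properties `IsPreNorm k F`, `F = G * H`. Then `G`, multiplied by a constant, has the properties of
`IsPreNorm κ`, for some `κ`.

Proof. (1) `G (v 0, 0, …, 0; u) * H (v 0, 0, …; u) = F (v 0, 0, …; u) = v 0 ^ k` in `ℂ[v 0, u]` (by `split` over `ℂ`), so
`G (v 0, 0, …; u) = c⁻¹ v 0 ^ κ`, `H (v 0, 0, …; u) = c v 0 ^ (k - κ)` (prime `v 0`). (2) For `u ∈ L` the polynomial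
`G (·; u) ∈ L[v]` divides `F (·; u) = ∏ t_s`, a product of prime linear forms, so `G (·; u) = c' ∏_{s ∈ S} t_s`;
evaluation at `e₀` gives `c' = c⁻¹`, comparison of `G (v 0 e₀; u)` gives `|S| = κ`. (3) Homogeneity: for all `u ∈ ℂ` the
polynomial `G (·; u)` is homogeneous of degree `κ`, so the components of other degrees of the coefficients of `G`
vanish. (4) Degrees: the ring homomorphism `s` to polynomials in one more variable `T` with `v 0 ↦ v 0 T`,
`u ↦ u T` (other variables fixed) turns `γ 0 + b` into the degree in `T`; `natDegree (s F) ≤ k`,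
`natDegree (s G) ≥ κ`, `natDegree (s H) ≥ k - κ` (because of the monomials `v 0 ^ κ`, `v 0 ^ (k - κ)`), and the degrees add up.
-/

open MvPolynomial

noncomputable section

namespace Pool.Agent.H5.DG

section FacPropsAux

variable {n : ℕ} {L : Type} [Field L] [Algebra ℂ L]

private def FP_at (u : L) : Polynomial (PV n) →+* MvPolynomial (Fin (n + 2)) L :=
  Polynomial.eval₂RingHom (MvPolynomial.map (algebraMap ℂ L)) (MvPolynomial.C u)

private lemma FP_val_eq (P : Polynomial (PV n)) (w : Fin (n + 2) → L) (u : L) :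
    val P w u = Polynomial.eval₂RingHom (MvPolynomial.aeval w : PV n →ₐ[ℂ] L).toRingHom u P := by
  unfold val atV
  rw [Polynomial.eval_map, Polynomial.coe_eval₂RingHom]

private lemma FP_eval_at (u : L) (P : Polynomial (PV n)) (w : Fin (n + 2) → L) :
    MvPolynomial.eval w (FP_at u P) = val P w u := by
  rw [FP_val_eq]
  have h : (MvPolynomial.eval w).comp (FP_at (n := n) u) =
      Polynomial.eval₂RingHom (MvPolynomial.aeval w : PV n →ₐ[ℂ] L).toRingHom u := by
    apply Polynomial.ringHom_ext'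
    · apply MvPolynomial.ringHom_ext
      · intro r
        simp [FP_at]
      · intro i
        simp [FP_at]
    · simp [FP_at]
  exact congrArg (fun f => f P) h

private def FP_lin (t : Fin (n + 2) → L) : MvPolynomial (Fin (n + 2)) L :=
  ∑ a, MvPolynomial.C (t a) * MvPolynomial.X a

omit [Algebra ℂ L] in
private lemma FP_eval_lin (t w : Fin (n + 2) → L) : MvPolynomial.eval w (FP_lin t) = dot t w := by
  simp [FP_lin, dot]

omit [Algebra ℂ L] in
private lemma FP_lin_hom (t : Fin (n + 2) → L) : (FP_lin t).IsHomogeneous 1 := by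
  unfold FP_lin
  apply MvPolynomial.IsHomogeneous.sum
  intro a _
  have h := (MvPolynomial.isHomogeneous_C (Fin (n + 2)) (t a)).mul
    (MvPolynomial.isHomogeneous_X L a)
  simpa using h

omit [Algebra ℂ L] in
private lemma FP_prime (t : Fin (n + 2) → L) (h : t 0 = 1) : Prime (FP_lin t) := by
  have h1 : FP_lin t = MvPolynomial.sumSMulX (Finsupp.equivFunOnFinite.symm t) := by
    unfold FP_lin MvPolynomial.sumSMulX
    rw [Finsupp.linearCombination_apply, Finsupp.sum_fintype _ _ (by simp)]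
    apply Finset.sum_congr rfl
    intro a _
    rw [MvPolynomial.smul_eq_C_mul]
    rfl
  rw [h1]
  apply Irreducible.prime
  apply MvPolynomial.irreducible_sumSMulX
  · refine ⟨0, ?_⟩
    rw [Finsupp.mem_support_iff]
    change t 0 ≠ 0
    rw [h]
    exact one_ne_zero
  · intro r hr
    have h2 := hr 0
    change r ∣ t 0 at h2
    rw [h] at h2
    exact isUnit_of_dvd_one h2

omit [Algebra ℂ L] in
private lemma FP_dvd_prod (u : L) : ∀ (k : ℕ) (t : Fin k → Fin (n + 2) → L),
    (∀ s, t s 0 = 1 ∧ t s 1 = u) → ∀ A : MvPolynomial (Fin (n + 2)) L, A ∣ ∏ s, FP_lin (t s) →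
    ∃ (m : ℕ) (t' : Fin m → Fin (n + 2) → L) (c : L), (∀ s, t' s 0 = 1 ∧ t' s 1 = u) ∧
      A = MvPolynomial.C c * ∏ s, FP_lin (t' s) := by
  intro k
  induction k with
  | zero =>
    intro t _ A hA
    rw [Fin.prod_univ_zero] at hA
    obtain ⟨c, _, hc⟩ := MvPolynomial.isUnit_iff_eq_C_of_isReduced.1 (isUnit_of_dvd_one hA)
    exact ⟨0, t, c, fun s => s.elim0, by rw [Fin.prod_univ_zero, mul_one]; exact hc⟩
  | succ k ih =>
    intro t ht A hA
    rw [Fin.prod_univ_succ] at hA
    obtain ⟨B, hB⟩ := hA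
    have hp := FP_prime (t 0) (ht 0).1
    have h1 : FP_lin (t 0) ∣ A * B := ⟨_, hB.symm⟩
    rcases hp.dvd_or_dvd h1 with ⟨A', hA'⟩ | ⟨B', hB'⟩
    · have h2 : A' ∣ ∏ s : Fin k, FP_lin (t s.succ) := by
        refine ⟨B, ?_⟩
        apply mul_left_cancel₀ hp.ne_zero
        rw [hB, hA', mul_assoc]
      obtain ⟨m, t', c, h3, h4⟩ := ih (fun s => t s.succ) (fun s => ht s.succ) A' h2
      refine ⟨m + 1, Fin.cons (t 0) t', c, ?_, ?_⟩
      · intro s
        refine Fin.cases ?_ (fun s => ?_) s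
        · exact ht 0
        · exact h3 s
      · rw [Fin.prod_univ_succ, hA', h4]
        simp only [Fin.cons_zero, Fin.cons_succ]
        ring
    · have h2 : A ∣ ∏ s : Fin k, FP_lin (t s.succ) := by
        refine ⟨B', ?_⟩
        apply mul_left_cancel₀ hp.ne_zero
        rw [hB, hB']
        ring
      exact ih (fun s => t s.succ) (fun s => ht s.succ) A h2

private def FP_e (n : ℕ) (x : L) : Fin (n + 2) → L := fun a => if a = 0 then x else 0

omit [Algebra ℂ L] in
private lemma FP_dot_e (t : Fin (n + 2) → L) (x : L) : dot t (FP_e n x) = t 0 * x := by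
  simp [dot, FP_e]

private def FP_th (n : ℕ) : PV n →+* Polynomial ℂ :=
  (MvPolynomial.aeval (fun a : Fin (n + 2) => if a = 0 then (Polynomial.X : Polynomial ℂ) else 0) :
    PV n →ₐ[ℂ] Polynomial ℂ).toRingHom

private lemma FP_val_e (P : Polynomial (PV n)) (x u : L) :
    val P (FP_e n x) u =
      ((P.map (FP_th n)).map (Polynomial.aeval x : Polynomial ℂ →ₐ[ℂ] L).toRingHom).eval u := by
  unfold val atV
  rw [Polynomial.map_map]
  congr 2
  apply MvPolynomial.ringHom_ext
  · intro r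
    simp [FP_th]
  · intro i
    by_cases hi : i = 0
    · simp [FP_th, FP_e, hi]
    · simp [FP_th, FP_e, hi]

private lemma FP_val_e_of {P : Polynomial (PV n)} {κ : ℕ}
    (h : P.map (FP_th n) = Polynomial.C (Polynomial.X ^ κ)) (x u : L) :
    val P (FP_e n x) u = x ^ κ := by
  rw [FP_val_e, h]
  simp

private lemma FP_th_F {k : ℕ} {F : Polynomial (PV n)} (hF : IsPreNorm k F) :
    F.map (FP_th n) = Polynomial.C (Polynomial.X ^ k) := by
  apply Polynomial.eq_of_infinite_eval_eq
  apply Set.infinite_of_injective_forall_mem (f := fun u : ℂ => (Polynomial.C u : Polynomial ℂ))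
    Polynomial.C_injective
  intro u
  change (F.map (FP_th n)).eval (Polynomial.C u) = _
  rw [Polynomial.eval_C]
  apply Polynomial.funext
  intro x
  have h1 := Polynomial.eval₂_at_apply (p := F.map (FP_th n)) (Polynomial.evalRingHom x)
    (Polynomial.C u)
  rw [Polynomial.coe_evalRingHom, Polynomial.eval_C] at h1
  rw [← h1, ← Polynomial.eval_map]
  have h2 := FP_val_e F x u
  have h3 : (Polynomial.aeval x : Polynomial ℂ →ₐ[ℂ] ℂ).toRingHom = Polynomial.evalRingHom x := by
    apply Polynomial.ringHom_ext'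
    · ext
      simp
    · simp
  rw [h3] at h2
  rw [← h2]
  obtain ⟨t, ht, ht2⟩ := hF.split ℂ u
  rw [ht2, Polynomial.eval_pow, Polynomial.eval_X]
  rw [Finset.prod_congr rfl fun s _ => by rw [FP_dot_e, (ht s).1, one_mul], Finset.prod_const,
    Finset.card_univ, Fintype.card_fin]

private lemma FP_th_dvd {k : ℕ} {P : Polynomial (Polynomial ℂ)}
    (h : P ∣ Polynomial.C (Polynomial.X ^ k)) :
    ∃ (κ : ℕ) (c : ℂ), κ ≤ k ∧ c ≠ 0 ∧ P = Polynomial.C (Polynomial.C c * Polynomial.X ^ κ) := by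
  have hp : Prime (Polynomial.C Polynomial.X : Polynomial (Polynomial ℂ)) :=
    Polynomial.prime_C_iff.2 Polynomial.prime_X
  rw [Polynomial.C_pow] at h
  obtain ⟨κ, hκ, hU⟩ := (_root_.dvd_prime_pow hp k).1 h
  obtain ⟨U, hU⟩ := hU.symm
  obtain ⟨r, hr, hr2⟩ := Polynomial.isUnit_iff.1 U.isUnit
  obtain ⟨c, hc, hc2⟩ := Polynomial.isUnit_iff.1 hr
  refine ⟨κ, c, hκ, hc.ne_zero, ?_⟩
  rw [← hU, ← hr2, ← hc2, Polynomial.C_mul, Polynomial.C_pow]
  ring

private def FP_s (n : ℕ) : Polynomial (PV n) →+* Polynomial (Polynomial (PV n)) :=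
  Polynomial.eval₂RingHom
    (MvPolynomial.aeval (fun a : Fin (n + 2) => if a = 0 then
      Polynomial.C (Polynomial.C (MvPolynomial.X a)) * Polynomial.X else
      Polynomial.C (Polynomial.C (MvPolynomial.X a))) :
        PV n →ₐ[ℂ] Polynomial (Polynomial (PV n))).toRingHom
    (Polynomial.C Polynomial.X * Polynomial.X)

private lemma FP_s_monomial (i : ℕ) (α : Fin (n + 2) →₀ ℕ) (c : ℂ) :
    FP_s n (Polynomial.monomial i (MvPolynomial.monomial α c)) =
      Polynomial.C (Polynomial.monomial i (MvPolynomial.monomial α c)) *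
        Polynomial.X ^ (α 0 + i) := by
  have h1 : MvPolynomial.aeval (fun a : Fin (n + 2) => if a = 0 then
      (Polynomial.C (Polynomial.C (MvPolynomial.X a)) * Polynomial.X :
        Polynomial (Polynomial (PV n))) else
      Polynomial.C (Polynomial.C (MvPolynomial.X a))) (MvPolynomial.monomial α c) =
      Polynomial.C (Polynomial.C (MvPolynomial.monomial α c)) * Polynomial.X ^ (α 0) := by
    rw [MvPolynomial.aeval_monomial, Finsupp.prod_fintype _ _ (by simp)]
    have h2 : ∀ a : Fin (n + 2), (if a = 0 then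
      (Polynomial.C (Polynomial.C (MvPolynomial.X a)) * Polynomial.X :
        Polynomial (Polynomial (PV n))) else
      Polynomial.C (Polynomial.C (MvPolynomial.X a))) ^ α a =
      Polynomial.C (Polynomial.C (MvPolynomial.X a ^ α a)) *
        (if a = 0 then Polynomial.X ^ α 0 else 1) := by
      intro a
      by_cases ha : a = 0
      · subst ha
        rw [if_pos rfl, if_pos rfl, map_pow, map_pow]
        ring
      · simp [ha]
    rw [Finset.prod_congr rfl fun a _ => h2 a, Finset.prod_mul_distrib,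
      Finset.prod_ite_eq' Finset.univ (0 : Fin (n + 2)), if_pos (Finset.mem_univ _), ← map_prod,
      ← map_prod, MvPolynomial.monomial_eq, Finsupp.prod_fintype _ _ (by simp), ← mul_assoc]
    congr 1
    rw [map_mul, map_mul]
    rfl
  have h3 : FP_s n (Polynomial.monomial i (MvPolynomial.monomial α c)) =
      MvPolynomial.aeval (fun a : Fin (n + 2) => if a = 0 then
      (Polynomial.C (Polynomial.C (MvPolynomial.X a)) * Polynomial.X :
        Polynomial (Polynomial (PV n))) else
      Polynomial.C (Polynomial.C (MvPolynomial.X a))) (MvPolynomial.monomial α c) *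
      (Polynomial.C Polynomial.X * Polynomial.X) ^ i := by
    unfold FP_s
    rw [Polynomial.coe_eval₂RingHom, Polynomial.eval₂_monomial]
    rfl
  have h4 : (Polynomial.C Polynomial.X * Polynomial.X : Polynomial (Polynomial (PV n))) ^ i =
      Polynomial.C Polynomial.X ^ i * Polynomial.X ^ i := by ring
  rw [h3, h1, h4, ← Polynomial.C_mul_X_pow_eq_monomial, map_mul, map_pow, pow_add]
  ring

private lemma FP_s_coeff (P : Polynomial (PV n)) (j i : ℕ) (α : Fin (n + 2) →₀ ℕ) :
    (((FP_s n P).coeff j).coeff i).coeff α = if α 0 + i = j then (P.coeff i).coeff α else 0 := by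
  classical
  induction P using Polynomial.induction_on' with
  | add P Q hP hQ =>
    rw [map_add, Polynomial.coeff_add, Polynomial.coeff_add, MvPolynomial.coeff_add, hP, hQ,
      Polynomial.coeff_add, MvPolynomial.coeff_add]
    split_ifs
    · rfl
    · rw [add_zero]
  | monomial i' a =>
    induction a using MvPolynomial.induction_on' with
    | add p q hp hq =>
      rw [map_add (Polynomial.monomial i'), map_add (FP_s n), Polynomial.coeff_add,
        Polynomial.coeff_add, MvPolynomial.coeff_add, hp, hq, Polynomial.coeff_add,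
        MvPolynomial.coeff_add]
      split_ifs
      · rfl
      · rw [add_zero]
    | monomial α' c =>
      rw [FP_s_monomial, Polynomial.coeff_C_mul, Polynomial.coeff_X_pow, mul_ite, mul_one, mul_zero,
        Polynomial.coeff_monomial]
      by_cases h1 : j = α' 0 + i'
      · rw [if_pos h1, Polynomial.coeff_monomial]
        by_cases h2 : i' = i
        · rw [if_pos h2, MvPolynomial.coeff_monomial]
          by_cases h3 : α' = α
          · rw [if_pos h3, if_pos (by rw [h1, h2, h3])]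
          · rw [if_neg h3, ite_self]
        · rw [if_neg h2, MvPolynomial.coeff_zero, ite_self]
      · rw [if_neg h1, Polynomial.coeff_zero, MvPolynomial.coeff_zero]
        by_cases h2 : i' = i
        · rw [if_pos h2, MvPolynomial.coeff_monomial]
          by_cases h3 : α' = α
          · rw [if_neg (by rw [← h2, ← h3]; exact fun h => h1 h.symm)]
          · rw [if_neg h3, ite_self]
        · rw [if_neg h2, MvPolynomial.coeff_zero, ite_self]

private def FP_rho (n : ℕ) : Polynomial (PV n) →+* ℂ :=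
  Polynomial.eval₂RingHom (MvPolynomial.eval (FP_e n (1 : ℂ))) 0

private lemma FP_rho_s (P : Polynomial (PV n)) (x : ℂ) :
    ((FP_s n P).map (FP_rho n)).eval x = val P (FP_e n x) (0 : ℂ) := by
  rw [FP_val_eq]
  have h : (Polynomial.evalRingHom x).comp ((Polynomial.mapRingHom (FP_rho n)).comp (FP_s n)) =
      Polynomial.eval₂RingHom (MvPolynomial.aeval (FP_e n x) : PV n →ₐ[ℂ] ℂ).toRingHom 0 := by
    apply Polynomial.ringHom_ext'
    · apply MvPolynomial.ringHom_ext
      · intro r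
        simp [FP_s, FP_rho]
      · intro i
        by_cases hi : i = 0
        · simp [FP_s, FP_rho, FP_e, hi]
        · simp [FP_s, FP_rho, FP_e, hi]
    · simp [FP_s, FP_rho]
  exact congrArg (fun f => f P) h

private lemma FP_rho_s_of {P : Polynomial (PV n)} {κ : ℕ}
    (h : P.map (FP_th n) = Polynomial.C (Polynomial.X ^ κ)) :
    (FP_s n P).map (FP_rho n) = Polynomial.X ^ κ := by
  apply Polynomial.funext
  intro x
  rw [FP_rho_s, FP_val_e_of h, Polynomial.eval_pow, Polynomial.eval_X]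

private lemma FP_main {k κ κ' : ℕ} {F G H : Polynomial (PV n)} (hF : IsPreNorm k F)
    (hFGH : F = G * H) (hG : G.map (FP_th n) = Polynomial.C (Polynomial.X ^ κ))
    (hH : H.map (FP_th n) = Polynomial.C (Polynomial.X ^ κ')) (hk : κ + κ' = k) :
    IsPreNorm κ G := by
  have hsplit : ∀ (L : Type) [Field L] [Algebra ℂ L] [IsAlgClosed L] (u : L),
      ∃ t : Fin κ → Fin (n + 2) → L, (∀ s, t s 0 = 1 ∧ t s 1 = u) ∧
        FP_at u G = ∏ s, FP_lin (t s) := by
    intro L _ _ _ u
    have : CharZero L := charZero_of_injective_algebraMap (algebraMap ℂ L).injective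
    obtain ⟨t, ht, ht2⟩ := hF.split L u
    have h1 : FP_at u F = ∏ s, FP_lin (t s) := by
      apply MvPolynomial.funext
      intro w
      rw [FP_eval_at, ht2, map_prod]
      exact Finset.prod_congr rfl fun s _ => (FP_eval_lin _ _).symm
    have h2 : FP_at u G ∣ ∏ s, FP_lin (t s) := by
      rw [← h1, hFGH, map_mul]
      exact dvd_mul_right _ _
    obtain ⟨m, t', c, h3, h4⟩ := FP_dvd_prod u k t ht _ h2
    have h5 : ∀ x : L, x ^ κ = c * x ^ m := by
      intro x
      have h6 := congrArg (MvPolynomial.eval (FP_e n x)) h4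
      rw [FP_eval_at, FP_val_e_of hG, map_mul, MvPolynomial.eval_C, map_prod,
        Finset.prod_congr rfl fun s _ => by rw [FP_eval_lin, FP_dot_e, (h3 s).1, one_mul],
        Finset.prod_const, Finset.card_univ, Fintype.card_fin] at h6
      exact h6
    have hc : c = 1 := by
      have := h5 1
      rw [one_pow, one_pow, mul_one] at this
      exact this.symm
    have hm : m = κ := by
      have h6 := h5 2
      rw [hc, one_mul] at h6
      have h7 : (2 : ℕ) ^ κ = 2 ^ m := by exact_mod_cast h6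
      exact (Nat.pow_right_injective (le_refl 2) h7).symm
    subst hm
    refine ⟨t', h3, ?_⟩
    rw [h4, hc, MvPolynomial.C_1, one_mul]
  refine ⟨?_, ?_, ?_⟩
  · -- homogeneity
    intro i α hα
    by_contra hne
    apply hα
    have h0 : ∀ u : ℂ, ∑ j ∈ G.support, (G.coeff j).coeff α * u ^ j = 0 := by
      intro u
      obtain ⟨t, _, ht⟩ := hsplit ℂ u
      have h1 : (FP_at u G).IsHomogeneous κ := by
        rw [ht]
        have h2 := MvPolynomial.IsHomogeneous.prod Finset.univ (fun s => FP_lin (t s))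
          (fun _ => 1) (fun s _ => FP_lin_hom (t s))
        simpa using h2
      have h3 : (FP_at u G).coeff α = 0 := by
        by_contra h4
        exact hne (h1 h4)
      rw [← h3]
      unfold FP_at
      rw [Polynomial.coe_eval₂RingHom, Polynomial.eval₂_eq_sum, Polynomial.sum_def,
        MvPolynomial.coeff_sum]
      apply Finset.sum_congr rfl
      intro j _
      rw [← MvPolynomial.C_pow, mul_comm (MvPolynomial.map _ _) (MvPolynomial.C _),
        MvPolynomial.coeff_C_mul, MvPolynomial.coeff_map, mul_comm]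
      rfl
    have h1 : (∑ j ∈ G.support, Polynomial.monomial j ((G.coeff j).coeff α) : Polynomial ℂ) = 0 := by
      apply Polynomial.funext
      intro u
      rw [Polynomial.eval_finsetSum, Polynomial.eval_zero, ← h0 u]
      apply Finset.sum_congr rfl
      intro j _
      rw [Polynomial.eval_monomial]
    have h2 := congrArg (fun P : Polynomial ℂ => P.coeff i) h1
    simp only [Polynomial.finsetSum_coeff, Polynomial.coeff_monomial, Polynomial.coeff_zero,
      Finset.sum_ite_eq'] at h2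
    by_cases hi : i ∈ G.support
    · rw [if_pos hi] at h2
      exact h2
    · rw [Polynomial.notMem_support_iff.1 hi, MvPolynomial.coeff_zero]
  · -- degree
    have hsF : (FP_s n F).natDegree ≤ k := by
      rw [Polynomial.natDegree_le_iff_coeff_eq_zero]
      intro N hN
      ext i α
      rw [FP_s_coeff, Polynomial.coeff_zero, MvPolynomial.coeff_zero]
      split_ifs with h1
      · by_contra h2
        have := hF.deg i α (MvPolynomial.mem_support_iff.2 h2)
        omega
      · rfl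
    have hGX := FP_rho_s_of hG
    have hHX := FP_rho_s_of hH
    have hG1 : κ ≤ (FP_s n G).natDegree := by
      have := Polynomial.natDegree_map_le (f := FP_rho n) (p := FP_s n G)
      rwa [hGX, Polynomial.natDegree_X_pow] at this
    have hH1 : κ' ≤ (FP_s n H).natDegree := by
      have := Polynomial.natDegree_map_le (f := FP_rho n) (p := FP_s n H)
      rwa [hHX, Polynomial.natDegree_X_pow] at this
    have hG0 : FP_s n G ≠ 0 := by
      intro h
      rw [h, Polynomial.map_zero] at hGX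
      exact pow_ne_zero κ Polynomial.X_ne_zero hGX.symm
    have hH0 : FP_s n H ≠ 0 := by
      intro h
      rw [h, Polynomial.map_zero] at hHX
      exact pow_ne_zero κ' Polynomial.X_ne_zero hHX.symm
    have h1 : (FP_s n G).natDegree ≤ κ := by
      rw [hFGH, map_mul, Polynomial.natDegree_mul hG0 hH0] at hsF
      omega
    intro i α hα
    by_contra hcon
    have h2 : (FP_s n G).coeff (α 0 + i) = 0 := Polynomial.coeff_eq_zero_of_natDegree_lt (by omega)
    have h3 := FP_s_coeff G (α 0 + i) i α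
    rw [h2, if_pos rfl, Polynomial.coeff_zero, MvPolynomial.coeff_zero] at h3
    exact (MvPolynomial.mem_support_iff.1 hα) h3.symm
  · intro L _ _ _ u
    obtain ⟨t, h1, h2⟩ := hsplit L u
    refine ⟨t, h1, fun w => ?_⟩
    rw [← FP_eval_at, h2, map_prod]
    exact Finset.prod_congr rfl fun s _ => FP_eval_lin _ _

end FacPropsAux

theorem divisor_preNorm {n k : ℕ} {F G : Polynomial (PV n)} (hF : IsPreNorm k F) (hG : G ∣ F) :
    ∃ (κ : ℕ) (c : ℂ), c ≠ 0 ∧ κ ≤ k ∧ IsPreNorm κ (Polynomial.C (MvPolynomial.C c) * G) := by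
  obtain ⟨H, hFGH⟩ := hG
  have h1 := FP_th_F hF
  have h2 : G.map (FP_th n) * H.map (FP_th n) = Polynomial.C (Polynomial.X ^ k) := by
    rw [← Polynomial.map_mul, ← hFGH, h1]
  obtain ⟨κ, c, hκ, hc, hG⟩ := FP_th_dvd (k := k) ⟨_, h2.symm⟩
  obtain ⟨κ', c', hκ', hc', hH⟩ := FP_th_dvd (k := k) (P := H.map (FP_th n))
    ⟨G.map (FP_th n), by rw [mul_comm]; exact h2.symm⟩
  rw [hG, hH, ← Polynomial.C_mul] at h2
  have h3 : Polynomial.C (c * c') * Polynomial.X ^ (κ + κ') = (Polynomial.X ^ k : Polynomial ℂ) := by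
    rw [← Polynomial.C_injective h2, Polynomial.C_mul, pow_add]
    ring
  have hcc : c * c' ≠ 0 := mul_ne_zero hc hc'
  have hk : κ + κ' = k := by
    have := congrArg Polynomial.natDegree h3
    rwa [Polynomial.natDegree_C_mul_X_pow _ _ hcc, Polynomial.natDegree_X_pow] at this
  have hcc1 : c * c' = 1 := by
    have := congrArg Polynomial.leadingCoeff h3
    rwa [Polynomial.leadingCoeff_C_mul_X_pow, Polynomial.leadingCoeff_X_pow] at this
  refine ⟨κ, c⁻¹, inv_ne_zero hc, hκ, ?_⟩
  refine FP_main (κ' := κ') (H := Polynomial.C (MvPolynomial.C c) * H) hF ?_ ?_ ?_ hk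
  · have h4 : (Polynomial.C (MvPolynomial.C c⁻¹) : Polynomial (PV n)) *
        Polynomial.C (MvPolynomial.C c) = 1 := by
      rw [← Polynomial.C_mul, ← MvPolynomial.C_mul, inv_mul_cancel₀ hc, MvPolynomial.C_1,
        Polynomial.C_1]
    calc F = G * H := hFGH
      _ = (Polynomial.C (MvPolynomial.C c⁻¹) * Polynomial.C (MvPolynomial.C c)) * (G * H) := by
        rw [h4, one_mul]
      _ = _ := by ring
  · rw [Polynomial.map_mul, hG, Polynomial.map_C, ← Polynomial.C_mul]
    congr 1
    have h5 : FP_th n (MvPolynomial.C c⁻¹) = Polynomial.C c⁻¹ := by simp [FP_th]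
    rw [h5, ← mul_assoc, ← Polynomial.C_mul, inv_mul_cancel₀ hc, Polynomial.C_1, one_mul]
  · rw [Polynomial.map_mul, hH, Polynomial.map_C, ← Polynomial.C_mul]
    congr 1
    have h5 : FP_th n (MvPolynomial.C c) = Polynomial.C c := by simp [FP_th]
    rw [h5, ← mul_assoc, ← Polynomial.C_mul, hcc1, Polynomial.C_1, one_mul]

end Pool.Agent.H5.DG

end
end

section

/-!
# Project DG, A3: an irreducible factor with many marked points

Proof. Strong induction on `k` over the statement for all `S`: if `F` is irreducible take `N = F`. Otherwise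
`F = G * H` with non-units `G, H`; by `divisor_preNorm` we may normalise both (the constants are inverse to
each other by `preNorm_unique`), `IsPreNorm κ G`, `IsPreNorm κ' H`, `κ + κ' = k`, both positive (`preNorm_zero`). Every
`p j` lies in `Gam G ℂ` or `Gam H ℂ` (`gam_mul`), so more than `ρ κ` of the points lie in the first or more than `ρ κ'` in the
second set.
-/

open MvPolynomial

noncomputable section

namespace Pool.Agent.H5.DG

private theorem factor_normForm {n k : ℕ} {F : Polynomial (PV n)} (hF : IsPreNorm k F)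
    (hi : Irreducible F) : IsNormForm k F :=
  ⟨hi, hF.hom, hF.deg, hF.split⟩

private theorem factor_not_gam_one {n : ℕ} {p : Fin (n + 2) → ℂ} :
    p ∉ Gam (1 : Polynomial (PV n)) ℂ := by
  rintro ⟨-, h⟩
  have := h 0 (by simp [dot])
  simp [val, atV] at this

theorem exists_factor {n : ℕ} (ρ : ℕ) {k : ℕ} (F : Polynomial (PV n)) (hF : IsPreNorm k F)
    {ι : Type} (S : Finset ι) (p : ι → Fin (n + 2) → ℂ) (hp : ∀ j ∈ S, p j ∈ Gam F ℂ)
    (hS : ρ * k < S.card) :
    ∃ (κ : ℕ) (N : Polynomial (PV n)) (J : Finset ι), 1 ≤ κ ∧ IsNormForm κ N ∧ J ⊆ S ∧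
      ρ * κ < J.card ∧ ∀ j ∈ J, p j ∈ Gam N ℂ := by
  classical
  induction k using Nat.strong_induction_on generalizing F S with
  | _ k ih =>
    by_cases hi : Irreducible F
    · refine ⟨k, F, S, ?_, factor_normForm hF hi, subset_rfl, hS, hp⟩
      rcases Nat.eq_zero_or_pos k with rfl | h
      · exact absurd (preNorm_zero hF) (by
          rintro rfl
          exact hi.not_isUnit isUnit_one)
      · exact h
    · by_cases hu : IsUnit F
      · have hk := preNorm_unit hF hu
        subst hk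
        have h1 := preNorm_zero hF
        subst h1
        have hne : S.Nonempty := by
          rw [← Finset.card_pos]
          omega
        obtain ⟨j, hj⟩ := hne
        exact absurd (hp j hj) factor_not_gam_one
      · have hnot : ¬ ∀ ⦃a b : Polynomial (PV n)⦄, F = a * b → IsUnit a ∨ IsUnit b := by
          intro h
          exact hi ⟨hu, h⟩
        push Not at hnot
        obtain ⟨G, H, hGH, hGu, hHu⟩ := hnot
        obtain ⟨κ, c, hc, -, hG⟩ := divisor_preNorm hF (G := G) ⟨H, hGH⟩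
        obtain ⟨κ', c', hc', -, hH⟩ := divisor_preNorm hF (G := H) ⟨G, by rw [hGH, mul_comm]⟩
        have hmul := preNorm_mul hG hH
        have hprod : (Polynomial.C (MvPolynomial.C c) * G) * (Polynomial.C (MvPolynomial.C c') * H) =
            Polynomial.C (MvPolynomial.C (c * c')) * F := by
          rw [hGH, map_mul, map_mul]
          ring
        rw [hprod] at hmul
        obtain ⟨hk, -⟩ := preNorm_unique hF hmul
        have hκ : 0 < κ := by
          rcases Nat.eq_zero_or_pos κ with h0 | h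
          · subst h0
            exact absurd (IsUnit.of_mul_eq_one_right _ (preNorm_zero hG)) hGu
          · exact h
        have hκ' : 0 < κ' := by
          rcases Nat.eq_zero_or_pos κ' with h0 | h
          · subst h0
            exact absurd (IsUnit.of_mul_eq_one_right _ (preNorm_zero hH)) hHu
          · exact h
        set G' := Polynomial.C (MvPolynomial.C c) * G with hG'
        set H' := Polynomial.C (MvPolynomial.C c') * H with hH'
        have hcov : ∀ j ∈ S, p j ∈ Gam G' ℂ ∨ p j ∈ Gam H' ℂ := by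
          intro j hj
          have h1 := hp j hj
          rw [hGH] at h1
          rcases gam_mul h1 with h | h
          · exact Or.inl ((gam_smul hc).2 h)
          · exact Or.inr ((gam_smul hc').2 h)
        have hcard : S.card ≤ (S.filter fun j => p j ∈ Gam G' ℂ).card +
            (S.filter fun j => p j ∈ Gam H' ℂ).card := by
          refine (Finset.card_le_card ?_).trans (Finset.card_union_le _ _)
          intro j hj
          rw [Finset.mem_union, Finset.mem_filter, Finset.mem_filter]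
          rcases hcov j hj with h | h
          · exact Or.inl ⟨hj, h⟩
          · exact Or.inr ⟨hj, h⟩
        have hor : ρ * κ < (S.filter fun j => p j ∈ Gam G' ℂ).card ∨
            ρ * κ' < (S.filter fun j => p j ∈ Gam H' ℂ).card := by
          by_contra hcon
          push Not at hcon
          rw [hk, mul_add] at hS
          omega
        rcases hor with h | h
        · obtain ⟨κ₁, N, J, h1, h2, h3, h4, h5⟩ := ih κ (by omega) G' hG
            (S.filter fun j => p j ∈ Gam G' ℂ) (fun j hj => (Finset.mem_filter.1 hj).2) h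
          exact ⟨κ₁, N, J, h1, h2, h3.trans (Finset.filter_subset _ _), h4, h5⟩
        · obtain ⟨κ₁, N, J, h1, h2, h3, h4, h5⟩ := ih κ' (by omega) H' hH
            (S.filter fun j => p j ∈ Gam H' ℂ) (fun j hj => (Finset.mem_filter.1 hj).2) h
          exact ⟨κ₁, N, J, h1, h2, h3.trans (Finset.filter_subset _ _), h4, h5⟩

end Pool.Agent.H5.DG

end
end

section

/-!
# Extension of a holomorphic map into projective space across a puncture
-/

noncomputable section

namespace Pool.Agent.H62.FC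

open Pool.Agent.H62.FC
open MvPolynomial Topology Filter
open Pool.Agent.H17 (PN VanishesAt ZariskiClosedIn HolomorphicInto puncturedDisc)

variable {N : ℕ}

/-- A meromorphic function of order at least `n` is `z ^ n` times an analytic function. -/
private theorem Extend_factor {v : ℂ → ℂ} (hv : MeromorphicAt v 0) {n : ℤ}
    (hn : (n : WithTop ℤ) ≤ meromorphicOrderAt v 0) :
    ∃ w : ℂ → ℂ, AnalyticAt ℂ w 0 ∧ (∀ᶠ z in 𝓝[≠] (0 : ℂ), v z = z ^ n * w z) ∧
      (meromorphicOrderAt v 0 = n → w 0 ≠ 0) := by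
  by_cases h : meromorphicOrderAt v 0 = ⊤
  · refine ⟨fun _ => 0, analyticAt_const, ?_, ?_⟩
    · rw [meromorphicOrderAt_eq_top_iff] at h
      filter_upwards [h] with z hz
      rw [hz, mul_zero]
    · intro h'
      rw [h] at h'
      exact absurd h' (by simp)
  · obtain ⟨k, hk⟩ := WithTop.ne_top_iff_exists.mp h
    rw [← hk] at hn
    have hnk : n ≤ k := by exact_mod_cast hn
    obtain ⟨g, hg, hg0, hge⟩ := (meromorphicOrderAt_eq_int_iff hv).mp hk.symm
    refine ⟨fun z => z ^ (k - n).toNat * g z, ?_, ?_, ?_⟩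
    · exact (analyticAt_id.pow _).mul hg
    · filter_upwards [hge, self_mem_nhdsWithin] with z hz hz0
      have hz0' : z ≠ 0 := hz0
      rw [hz, sub_zero, smul_eq_mul, ← mul_assoc, ← zpow_natCast z, ← zpow_add₀ hz0',
        Int.toNat_of_nonneg (by omega)]
      congr 2
      ring
    · intro h'
      rw [← hk] at h'
      have : k = n := by exact_mod_cast h'
      subst this
      simpa using hg0

/-- The representative of a point given by homogeneous coordinates. -/
private theorem Extend_rep {x : PN N} {u : Fin (N + 1) → ℂ} (hu : u ≠ 0)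
    (hx : x = Projectivization.mk ℂ u hu) : ∃ c : ℂ, c ≠ 0 ∧ ∀ i, x.rep i = c * u i := by
  have h1 : Projectivization.mk ℂ x.rep x.rep_nonzero = Projectivization.mk ℂ u hu := by
    rw [Projectivization.mk_rep, hx]
  rw [Projectivization.mk_eq_mk_iff'] at h1
  obtain ⟨a, ha⟩ := h1
  refine ⟨a, ?_, fun i => ?_⟩
  · rintro rfl
    exact x.rep_nonzero (by rw [← ha, zero_smul])
  · rw [← ha]
    rfl

/-- **Extension criterion.** -/
theorem exists_extension {f : ℂ → PN N} (hf : HolomorphicInto f puncturedDisc)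
    {i₀ : Fin (N + 1)} (h0 : ∀ᶠ z in 𝓝[≠] (0 : ℂ), ∀ᶠ ζ in 𝓝[≠] z, (f ζ).rep i₀ ≠ 0)
    (h : ∀ i, PunctMero (fun z => (f z).rep i / (f z).rep i₀)) :
    ∃ g : ℂ → PN N, HolomorphicInto g (Metric.ball 0 1) ∧ ∀ z ∈ puncturedDisc, g z = f z := by
  classical
  choose v hv hvf using h
  -- the minimal order
  obtain ⟨j₁, -, hj₁⟩ := (Finset.univ : Finset (Fin (N + 1))).exists_min_image
    (fun j => meromorphicOrderAt (v j) 0) ⟨i₀, Finset.mem_univ _⟩
  have hne : meromorphicOrderAt (v i₀) 0 ≠ ⊤ := by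
    intro htop
    rw [meromorphicOrderAt_eq_top_iff] at htop
    have h1 : ∀ᶠ z in 𝓝[≠] (0 : ℂ), ∀ᶠ ζ in 𝓝[≠] z, v i₀ ζ = 0 := by
      have h2 : ∀ᶠ z in 𝓝 (0 : ℂ), z ≠ 0 → v i₀ z = 0 := eventually_nhdsWithin_iff.mp htop
      have h3 := h2.eventually_nhds
      filter_upwards [h3.filter_mono nhdsWithin_le_nhds, self_mem_nhdsWithin] with z hz hz0
      have hz0' : z ≠ 0 := hz0
      have h4 : ∀ᶠ ζ in 𝓝 z, ζ ≠ 0 := isOpen_ne.mem_nhds hz0'
      have h5 : ∀ᶠ ζ in 𝓝 z, v i₀ ζ = 0 := by
        filter_upwards [hz, h4] with ζ ha hb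
        exact ha hb
      exact h5.filter_mono nhdsWithin_le_nhds
    obtain ⟨z, ha, hb, hc⟩ := (h1.and (h0.and (hvf i₀))).exists
    obtain ⟨ζ, hd, he, hg⟩ := (ha.and (hb.and hc)).exists
    have hg' : (f ζ).rep i₀ / (f ζ).rep i₀ = v i₀ ζ := hg
    rw [hd, div_self he] at hg'
    exact one_ne_zero hg'
  have hne1 : meromorphicOrderAt (v j₁) 0 ≠ ⊤ :=
    ne_top_of_le_ne_top hne (hj₁ i₀ (Finset.mem_univ _))
  obtain ⟨n, hn⟩ := WithTop.ne_top_iff_exists.mp hne1
  have hw : ∀ j, ∃ w : ℂ → ℂ, AnalyticAt ℂ w 0 ∧ (∀ᶠ z in 𝓝[≠] (0 : ℂ), v j z = z ^ n * w z) ∧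
      (meromorphicOrderAt (v j) 0 = n → w 0 ≠ 0) := fun j =>
    Extend_factor (hv j) (by rw [hn]; exact hj₁ j (Finset.mem_univ _))
  choose w hwan hwv hw0 using hw
  have hw1 : w j₁ 0 ≠ 0 := hw0 j₁ hn.symm
  -- the local statement near the puncture
  have hmain : ∀ᶠ z in 𝓝[≠] (0 : ℂ), ∃ hh : (fun j => w j z) ≠ 0,
      f z = Projectivization.mk ℂ (fun j => w j z) hh := by
    have a1 : ∀ᶠ z in 𝓝[≠] (0 : ℂ), ∀ j, ∀ᶠ ζ in 𝓝 z, v j ζ = ζ ^ n * w j ζ := by
      rw [eventually_all]
      intro j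
      have h2 : ∀ᶠ z in 𝓝 (0 : ℂ), z ≠ 0 → v j z = z ^ n * w j z :=
        eventually_nhdsWithin_iff.mp (hwv j)
      have h3 := h2.eventually_nhds
      filter_upwards [h3.filter_mono nhdsWithin_le_nhds, self_mem_nhdsWithin] with z hz hz0
      have hz0' : z ≠ 0 := hz0
      have h4 : ∀ᶠ ζ in 𝓝 z, ζ ≠ 0 := isOpen_ne.mem_nhds hz0'
      filter_upwards [hz, h4] with ζ ha hb
      exact ha hb
    have a2 : ∀ᶠ z in 𝓝[≠] (0 : ℂ), ∀ j,
        (fun ζ => (f ζ).rep j / (f ζ).rep i₀) =ᶠ[𝓝[≠] z] v j := by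
      rw [eventually_all]
      exact hvf
    have a3 : ∀ᶠ z in 𝓝[≠] (0 : ℂ), ∀ j, AnalyticAt ℂ (w j) z := by
      rw [eventually_all]
      exact fun j => (hwan j).eventually_analyticAt.filter_mono nhdsWithin_le_nhds
    have a4 : ∀ᶠ z in 𝓝[≠] (0 : ℂ), w j₁ z ≠ 0 :=
      ((hwan j₁).continuousAt.eventually_ne hw1).filter_mono nhdsWithin_le_nhds
    have a5 : ∀ᶠ z in 𝓝[≠] (0 : ℂ), z ∈ puncturedDisc := by
      filter_upwards [mem_nhdsWithin_of_mem_nhds (Metric.ball_mem_nhds (0 : ℂ) one_pos),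
        self_mem_nhdsWithin] with z h1 h2
      exact ⟨h1, h2⟩
    filter_upwards [a1, a2, a3, a4, a5, h0, self_mem_nhdsWithin] with z b1 b2 b3 b4 b5 b6 b7
    obtain ⟨φ, hφ, hφf⟩ := hf z b5
    have hφ1 : ∀ i, AnalyticAt ℂ (fun z => φ z i) z := fun i => (analyticAt_pi_iff.mp hφ) i
    have hcross : ∀ i j, φ z i * w j z = φ z j * w i z := by
      intro i j
      have hev : (fun ζ => φ ζ i * w j ζ - φ ζ j * w i ζ) =ᶠ[𝓝[≠] z] fun _ => (0 : ℂ) := by
        have b1' : ∀ᶠ ζ in 𝓝[≠] z, ∀ j, v j ζ = ζ ^ n * w j ζ := by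
          rw [eventually_all]
          exact fun j => (b1 j).filter_mono nhdsWithin_le_nhds
        have b2' : ∀ᶠ ζ in 𝓝[≠] z, ∀ j, (f ζ).rep j / (f ζ).rep i₀ = v j ζ := by
          rw [eventually_all]
          exact b2
        filter_upwards [b1', b2', b6, hφf.filter_mono nhdsWithin_le_nhds] with ζ c1 c2 c3 c4
        obtain ⟨hφ0, hfφ⟩ := c4
        obtain ⟨c, hc, hrep⟩ := Extend_rep hφ0 hfφ
        have key : ∀ j, φ ζ j = φ ζ i₀ * (ζ ^ n * w j ζ) := by
          intro j
          have e1 := c2 j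
          rw [c1 j, hrep j, hrep i₀, mul_div_mul_left _ _ hc] at e1
          have e2 : φ ζ i₀ ≠ 0 := by
            intro e3
            apply c3
            rw [hrep i₀, e3, mul_zero]
          rw [div_eq_iff e2] at e1
          rw [e1, mul_comm]
        rw [key i, key j]
        ring
      have hcont : ContinuousAt (fun ζ => φ ζ i * w j ζ - φ ζ j * w i ζ) z :=
        (((hφ1 i).mul (b3 j)).sub ((hφ1 j).mul (b3 i))).continuousAt
      have h1 : Tendsto (fun ζ => φ ζ i * w j ζ - φ ζ j * w i ζ) (𝓝[≠] z)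
          (𝓝 (φ z i * w j z - φ z j * w i z)) := hcont.tendsto.mono_left nhdsWithin_le_nhds
      have h2 : Tendsto (fun ζ => φ ζ i * w j ζ - φ ζ j * w i ζ) (𝓝[≠] z) (𝓝 0) :=
        tendsto_const_nhds.congr' hev.symm
      exact sub_eq_zero.mp (tendsto_nhds_unique h1 h2)
    have hwz : (fun j => w j z) ≠ 0 := fun hh => b4 (congrFun hh j₁)
    refine ⟨hwz, ?_⟩
    obtain ⟨hφ0, hfφ⟩ := hφf.self_of_nhds
    rw [hfφ, Projectivization.mk_eq_mk_iff']
    refine ⟨φ z j₁ / w j₁ z, ?_⟩
    funext j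
    simp only [Pi.smul_apply, smul_eq_mul]
    rw [div_mul_eq_mul_div, div_eq_iff b4]
    exact hcross j₁ j
  -- the extension
  have hv0 : (fun j => w j 0) ≠ 0 := fun h => hw1 (congrFun h j₁)
  set g : ℂ → PN N := Function.update f 0 (Projectivization.mk ℂ (fun j => w j 0) hv0) with hg
  have hgf : ∀ z, z ≠ 0 → g z = f z := fun z hz => by
    rw [hg, Function.update_of_ne hz]
  refine ⟨g, ?_, fun z hz => hgf z fun h => hz.2 (by simp [h])⟩
  intro z₀ hz₀
  by_cases h00 : z₀ = 0
  · subst h00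
    refine ⟨fun z => (fun j => w j z), analyticAt_pi_iff.mpr hwan, ?_⟩
    filter_upwards [eventually_nhdsWithin_iff.mp hmain] with z hz
    by_cases hz0 : z = 0
    · subst hz0
      exact ⟨hv0, by rw [hg, Function.update_self]⟩
    · obtain ⟨h1, h2⟩ := hz hz0
      exact ⟨h1, by rw [hgf z hz0, h2]⟩
  · obtain ⟨φ, hφ, hφf⟩ := hf z₀ ⟨hz₀, by simpa using h00⟩
    refine ⟨φ, hφ, ?_⟩
    have h1 : ∀ᶠ z in 𝓝 z₀, z ∈ ({0}ᶜ : Set ℂ) := isOpen_compl_singleton.mem_nhds h00
    filter_upwards [hφf, h1] with z hz hz'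
    rw [hgf z hz']
    exact hz

end Pool.Agent.H62.FC

end
end

section

/-!
# Functions meromorphic at the puncture: closure properties
-/

open Filter Topology MeasureTheory
open Pool.Agent.H92.GGL (ordZ)

noncomputable section

namespace Pool.Agent.H62.FC

theorem PunctMero.congr {f g : ℂ → ℂ} (hf : PunctMero f)
    (h : ∀ᶠ z in 𝓝[≠] (0 : ℂ), f =ᶠ[𝓝[≠] z] g) : PunctMero g := by
  obtain ⟨v, hv, hfv⟩ := hf
  refine ⟨v, hv, ?_⟩
  filter_upwards [hfv, h] with z h1 h2 using h2.symm.trans h1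

theorem PunctMero.of_meromorphicAt {f : ℂ → ℂ} (hf : MeromorphicAt f 0) : PunctMero f :=
  ⟨f, hf, Eventually.of_forall fun _ => EventuallyEq.rfl⟩

theorem PunctMero.const (c : ℂ) : PunctMero (fun _ => c) :=
  PunctMero.of_meromorphicAt (MeromorphicAt.const c 0)

theorem PunctMero.mul {f g : ℂ → ℂ} (hf : PunctMero f) (hg : PunctMero g) :
    PunctMero (fun z => f z * g z) := by
  obtain ⟨v, hv, hfv⟩ := hf
  obtain ⟨w, hw, hgw⟩ := hg
  refine ⟨fun z => v z * w z, hv.mul hw, ?_⟩
  filter_upwards [hfv, hgw] with z h1 h2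
  filter_upwards [h1, h2] with ζ h3 h4
  rw [h3, h4]

theorem PunctMero.inv {f : ℂ → ℂ} (hf : PunctMero f) : PunctMero (fun z => (f z)⁻¹) := by
  obtain ⟨v, hv, hfv⟩ := hf
  refine ⟨fun z => (v z)⁻¹, hv.inv, ?_⟩
  filter_upwards [hfv] with z h1
  filter_upwards [h1] with ζ h3
  rw [h3]

/-- a bound for a root -/
private lemma norm_le_of_pow_le {w : ℂ} {C : ℝ} {M : ℕ} (hM : 0 < M) (hC : 1 ≤ C)
    (h : ‖w ^ M‖ ≤ C) : ‖w‖ ≤ C := by
  rw [norm_pow] at h
  by_contra hlt
  have hlt := not_le.1 hlt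
  have h1 : (1 : ℝ) ≤ ‖w‖ := by linarith
  have h2 : ‖w‖ ≤ ‖w‖ ^ M := le_self_pow₀ h1 hM.ne'
  linarith

theorem PunctMero.root {R₀ : ℝ} (hR₀ : 0 < R₀) {f : ℂ → ℂ} (hf : MeroPunct R₀ f) {M : ℕ}
    (hM : 0 < M) (h : PunctMero (fun z => f z ^ M)) : PunctMero f := by
  obtain ⟨v, hv, hfv⟩ := h
  -- the punctured disc
  have hU0 : ∀ᶠ z in 𝓝[≠] (0 : ℂ), 0 < ‖z‖ ∧ ‖z‖ < R₀ := by
    have h1 : ∀ᶠ z in 𝓝 (0 : ℂ), ‖z‖ < R₀ := by
      filter_upwards [Metric.ball_mem_nhds (0 : ℂ) hR₀] with z hz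
      simpa using hz
    filter_upwards [h1.filter_mono nhdsWithin_le_nhds, self_mem_nhdsWithin] with z h2 h3
    exact ⟨norm_pos_iff.mpr h3, h2⟩
  -- `v` is not identically zero
  have hvtop : meromorphicOrderAt v 0 ≠ ⊤ := by
    intro htop
    have h0 : ∀ᶠ z in 𝓝[≠] (0 : ℂ), v z = 0 := meromorphicOrderAt_eq_top_iff.1 htop
    have h0' : ∀ᶠ z in 𝓝[≠] (0 : ℂ), ∀ᶠ ζ in 𝓝[≠] z, v ζ = 0 := by
      have h2 := eventually_eventually_nhdsWithin.2 h0
      filter_upwards [h2, self_mem_nhdsWithin] with z hz hz0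
      have h4 : ∀ᶠ ζ in 𝓝 z, v ζ = 0 := by
        have h5 : 𝓝[{(0 : ℂ)}ᶜ] z = 𝓝 z :=
          IsOpen.nhdsWithin_eq isOpen_compl_singleton hz0
        rwa [h5] at hz
      exact h4.filter_mono nhdsWithin_le_nhds
    obtain ⟨z, hz1, hz2, hz3⟩ := ((hU0.and (hfv.and h0'))).exists
    refine hf.ord z hz1.1 hz1.2 ?_
    rw [meromorphicOrderAt_eq_top_iff]
    filter_upwards [hz2, hz3] with ζ h1 h2
    rw [h2] at h1
    exact (pow_eq_zero_iff hM.ne').1 h1
  have hvan : ∀ᶠ z in 𝓝[≠] (0 : ℂ), AnalyticAt ℂ v z := hv.eventually_analyticAt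
  have hvne : ∀ᶠ z in 𝓝[≠] (0 : ℂ), v z ≠ 0 :=
    (meromorphicOrderAt_ne_top_iff_eventually_ne_zero hv).1 hvtop
  obtain ⟨k, hk, -, hvk⟩ := (meromorphicOrderAt_ne_top_iff hv).1 hvtop
  set n : ℤ := (meromorphicOrderAt v 0).untop₀ with hn
  have hkb : ∀ᶠ z in 𝓝 (0 : ℂ), ‖k z‖ ≤ ‖k 0‖ + 1 := by
    have h1 := hk.continuousAt.norm.tendsto
    filter_upwards [h1.eventually_lt_const (lt_add_one ‖k 0‖)] with z hz using hz.le
  have h1b : ∀ᶠ z in 𝓝 (0 : ℂ), ‖z‖ < 1 := by
    filter_upwards [Metric.ball_mem_nhds (0 : ℂ) one_pos] with z hz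
    simpa using hz
  -- everything in one punctured disc
  have hall : ∀ᶠ z in 𝓝[≠] (0 : ℂ), (0 < ‖z‖ ∧ ‖z‖ < R₀) ∧
      ((fun z => f z ^ M) =ᶠ[𝓝[≠] z] v) ∧ AnalyticAt ℂ v z ∧ v z ≠ 0 ∧
        v z = z ^ n * k z ∧ ‖k z‖ ≤ ‖k 0‖ + 1 ∧ ‖z‖ < 1 := by
    filter_upwards [hU0, hfv, hvan, hvne, hvk, hkb.filter_mono nhdsWithin_le_nhds,
      h1b.filter_mono nhdsWithin_le_nhds] with z a1 a2 a3 a4 a5 a6 a7
    refine ⟨a1, a2, a3, a4, ?_, a6, a7⟩
    rw [a5, sub_zero, smul_eq_mul]
  obtain ⟨ε, hε, hε'⟩ := Metric.mem_nhdsWithin_iff.1 hall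
  have hD : ∀ z : ℂ, 0 < ‖z‖ → ‖z‖ < ε → (0 < ‖z‖ ∧ ‖z‖ < R₀) ∧
      ((fun z => f z ^ M) =ᶠ[𝓝[≠] z] v) ∧ AnalyticAt ℂ v z ∧ v z ≠ 0 ∧
        v z = z ^ n * k z ∧ ‖k z‖ ≤ ‖k 0‖ + 1 ∧ ‖z‖ < 1 := by
    intro z hz1 hz2
    exact hε' ⟨by simpa using hz2, norm_pos_iff.1 hz1⟩
  -- the normal form
  set U : Set ℂ := {z | 0 < ‖z‖ ∧ ‖z‖ < R₀} with hU
  have hfU : MeromorphicOn f U := fun z hz => hf.mero z hz.1 hz.2
  set g : ℂ → ℂ := toMeromorphicNFOn f U with hg
  have hgf : ∀ z : ℂ, 0 < ‖z‖ → ‖z‖ < ε → g =ᶠ[𝓝[≠] z] f := fun z h1 h2 =>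
    hfU.toMeromorphicNFOn_eq_self_on_nhdsNE (hD z h1 h2).1
  have hgan : ∀ z : ℂ, 0 < ‖z‖ → ‖z‖ < ε → AnalyticAt ℂ g z := by
    intro z h1 h2
    obtain ⟨b1, b2, b3, b4, -, -, -⟩ := hD z h1 h2
    have hm := hf.mero z b1.1 b1.2
    have e1 : meromorphicOrderAt (fun z => f z ^ M) z = M * meromorphicOrderAt f z :=
      meromorphicOrderAt_pow hm
    have e2 : meromorphicOrderAt (fun z => f z ^ M) z = 0 := by
      rw [meromorphicOrderAt_congr b2]
      exact b3.meromorphicNFAt.meromorphicOrderAt_eq_zero_iff.2 b4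
    have e3 : meromorphicOrderAt f z = 0 := by
      rw [e2] at e1
      rcases mul_eq_zero.1 e1.symm with h3 | h3
      · exact absurd (by exact_mod_cast h3) hM.ne'
      · exact h3
    have hnf : MeromorphicNFAt g z := meromorphicNFOn_toMeromorphicNFOn f U b1
    refine hnf.meromorphicOrderAt_nonneg_iff_analyticAt.1 ?_
    rw [meromorphicOrderAt_congr (hgf z h1 h2), e3]
  have hgM : ∀ z : ℂ, 0 < ‖z‖ → ‖z‖ < ε → g z ^ M = v z := by
    intro z h1 h2
    obtain ⟨-, b2, b3, -, -, -, -⟩ := hD z h1 h2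
    have c1 : (fun ζ => g ζ ^ M) =ᶠ[𝓝[≠] z] v := by
      filter_upwards [hgf z h1 h2, b2] with ζ h3 h4
      rw [h3]; exact h4
    have c2 : ContinuousAt (fun ζ => g ζ ^ M) z := ((hgan z h1 h2).pow M).continuousAt
    exact tendsto_nhds_unique_of_eventuallyEq (c2.tendsto.mono_left nhdsWithin_le_nhds)
      (b3.continuousAt.tendsto.mono_left nhdsWithin_le_nhds) c1
  -- multiply by a power of `z`
  set m : ℕ := n.natAbs with hm
  obtain ⟨w, hw, hwg⟩ := Pool.Agent.H92.GGL.meromorphicAt_of_bounded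
    (u := fun z => z ^ m * g z) (ε := ε) (M := ‖k 0‖ + 1) hε
    (fun z h1 h2 => (analyticAt_id.pow m).mul (hgan z h1 h2)) (by
      intro z h1 h2
      obtain ⟨-, -, -, -, b5, b6, b7⟩ := hD z h1 h2
      refine norm_le_of_pow_le hM (by linarith [norm_nonneg (k 0)]) ?_
      have hz : z ≠ 0 := norm_pos_iff.1 h1
      have e1 : (z ^ m * g z) ^ M = z ^ ((m * M : ℕ) + n : ℤ) * k z := by
        rw [mul_pow, hgM z h1 h2, b5, zpow_add₀ hz, zpow_natCast, pow_mul]
        ring
      have e2 : (0 : ℤ) ≤ ((m * M : ℕ) : ℤ) + n := by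
        have h3 : m ≤ m * M := Nat.le_mul_of_pos_right m hM
        omega
      obtain ⟨q, hq⟩ := Int.eq_ofNat_of_zero_le e2
      rw [e1, hq, zpow_natCast, norm_mul, norm_pow]
      have h4 : ‖z‖ ^ q ≤ 1 := pow_le_one₀ (norm_nonneg z) b7.le
      calc ‖z‖ ^ q * ‖k z‖ ≤ 1 * (‖k 0‖ + 1) :=
            mul_le_mul h4 b6 (norm_nonneg _) zero_le_one
        _ = ‖k 0‖ + 1 := one_mul _)
  refine ⟨fun z => (z ^ m)⁻¹ * w z, (((analyticAt_id.pow m).meromorphicAt).inv).mul
    hw.meromorphicAt, ?_⟩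
  have hεe : ∀ᶠ z in 𝓝[≠] (0 : ℂ), 0 < ‖z‖ ∧ ‖z‖ < ε := by
    filter_upwards [(Metric.ball_mem_nhds (0 : ℂ) hε : _) |> mem_nhdsWithin_of_mem_nhds,
      self_mem_nhdsWithin] with z h1 h2
    exact ⟨norm_pos_iff.mpr h2, by simpa using h1⟩
  filter_upwards [hεe] with z hz
  have hz0 : z ≠ 0 := norm_pos_iff.1 hz.1
  have h5 : ∀ᶠ ζ in 𝓝[≠] z, ζ ≠ 0 :=
    (isOpen_compl_singleton.mem_nhds hz0 : ({(0 : ℂ)}ᶜ : Set ℂ) ∈ 𝓝 z) |>
      mem_nhdsWithin_of_mem_nhds
  filter_upwards [hgf z hz.1 hz.2, h5] with ζ h6 h7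
  rw [hwg ζ h7, ← h6, ← mul_assoc, inv_mul_cancel₀ (pow_ne_zero m h7), one_mul]

end Pool.Agent.H62.FC

end
end
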