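import Pool.Agent.H94.DG.M07
import Pool.Agent.H94.DG.M16
import Pool.Agent.H94.DG.M18

/-! The parts of this file: H5.DG.CovMap, H5.DG.CovMain. -/

section

/-!
# Project DG, module CovMap: the morphism given by the forms, multiplicities along curves

`coverMap_mk`: `F` homogeneous, so the value does not depend on the representative
(`Projectivization.mk_eq_mk_iff'`, `Pool.Agent.H17.exists_smul_rep`,
`Pool.Agent.H17.eval_smul_of_isHomogeneous`).

`eval_ne_zero`: if all `F a` vanish at `v` and all elements of `I` vanish at `v` (`eval_of_mem`: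
homogeneous components of elements of `I` lie in `I`) then `v i ^ k = 0` for all `i` (`base`;
`Submodule.mem_sup`, `Submodule.span_induction` or `Ideal.span_le` with the kernel of `eval v`).

`meets_of_ram`: let `φ` be a local lift of `f` at `s` (on which all elements of `I` vanish near
`s`); `z ↦ (F a (φ z))_a` is a local lift of `coverMap F ∘ f`.  If `comb l F` vanishes at `φ s`:
choose `i` with `φ s i ≠ 0` and `k` with `X i ^ k * comb l F ∈ rad ^ 2 ⊔ I`; the set of the
polynomials `p` for which `z ↦ eval (φ z) p` has order at least two at `s` contains `I` and all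
products of two elements of `rad` (an element `B` of `rad` satisfies `B ^ t ∈ span {comb l F} ⊔ I`,
so `eval (φ s) B = 0` and `z ↦ eval (φ z) B` has order at least one) and is closed under sums
(`Submodule.mul_induction_on` after `sq`); so `z ↦ φ z i ^ k * eval (φ z) (comb l F)` has order at
least two, and `φ s i ≠ 0`.
-/

open MvPolynomial Filter Topology
open Pool.Agent.H17 (PN VanishesAt HolomorphicInto puncturedDisc)

noncomputable section

namespace Pool.Agent.H5.DG

variable {Nn m : ℕ}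

private lemma CovMap_analytic {φ : ℂ → Fin (Nn + 1) → ℂ} {s : ℂ} (hφ : AnalyticAt ℂ φ s)
    (P : MvPolynomial (Fin (Nn + 1)) ℂ) : AnalyticAt ℂ (fun z => eval (φ z) P) s := by
  induction P using MvPolynomial.induction_on with
  | C a =>
    simp only [eval_C]
    exact analyticAt_const
  | add p q hp hq =>
    simp only [map_add]
    exact hp.add hq
  | mul_X p i hp =>
    simp only [map_mul, eval_X]
    exact hp.mul (analyticAt_pi_iff.mp hφ i)

/-- the ideal of the polynomials whose value along `φ` has order at least `n` -/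
private def CovMap_J {φ : ℂ → Fin (Nn + 1) → ℂ} {s : ℂ} (hφ : AnalyticAt ℂ φ s) (n : ℕ∞) :
    Ideal (MvPolynomial (Fin (Nn + 1)) ℂ) where
  carrier := {P | n ≤ analyticOrderAt (fun z => eval (φ z) P) s}
  add_mem' {P Q} hP hQ := by
    change n ≤ _
    simp only [map_add]
    exact (le_min hP hQ).trans le_analyticOrderAt_add
  zero_mem' := by
    change n ≤ _
    have h : analyticOrderAt (fun z => eval (φ z) (0 : MvPolynomial (Fin (Nn + 1)) ℂ)) s = ⊤ := by
      rw [analyticOrderAt_eq_top]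
      exact Filter.Eventually.of_forall fun z => map_zero _
    rw [h]
    exact le_top
  smul_mem' c P hP := by
    change n ≤ analyticOrderAt (fun z => eval (φ z) (c * P)) s
    simp only [map_mul]
    have h := analyticOrderAt_mul (CovMap_analytic hφ c) (CovMap_analytic hφ P)
    change n ≤ analyticOrderAt ((fun z => eval (φ z) c) * fun z => eval (φ z) P) s
    rw [h]
    exact le_trans hP le_add_self

private lemma CovMap_mem {φ : ℂ → Fin (Nn + 1) → ℂ} {s : ℂ} (hφ : AnalyticAt ℂ φ s) (n : ℕ∞)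
    (P : MvPolynomial (Fin (Nn + 1)) ℂ) :
    P ∈ CovMap_J hφ n ↔ n ≤ analyticOrderAt (fun z => eval (φ z) P) s := Iff.rfl

private lemma CovMap_mul {φ : ℂ → Fin (Nn + 1) → ℂ} {s : ℂ} (hφ : AnalyticAt ℂ φ s)
    (P Q : MvPolynomial (Fin (Nn + 1)) ℂ) :
    analyticOrderAt (fun z => eval (φ z) (P * Q)) s =
      analyticOrderAt (fun z => eval (φ z) P) s + analyticOrderAt (fun z => eval (φ z) Q) s := by
  simp only [map_mul]
  exact analyticOrderAt_mul (CovMap_analytic hφ P) (CovMap_analytic hφ Q)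

private lemma CovMap_one {φ : ℂ → Fin (Nn + 1) → ℂ} {s : ℂ} (hφ : AnalyticAt ℂ φ s)
    (P : MvPolynomial (Fin (Nn + 1)) ℂ) : P ∈ CovMap_J hφ 1 ↔ eval (φ s) P = 0 := by
  rw [CovMap_mem, Order.one_le_iff_ne_zero, (CovMap_analytic hφ P).analyticOrderAt_ne_zero]

/-- The map given by the forms `F a`. -/
def coverMap (F : Fin (m + 1) → MvPolynomial (Fin (Nn + 1)) ℂ) (x : PN Nn) : PN m :=
  if h : (fun a => eval x.rep (F a)) ≠ 0 then Projectivization.mk ℂ _ h
  else Projectivization.mk ℂ (fun _ => 1) fun h => one_ne_zero (congrFun h 0)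

theorem coverMap_mk {F : Fin (m + 1) → MvPolynomial (Fin (Nn + 1)) ℂ} {e : ℕ}
    (hF : ∀ a, (F a).IsHomogeneous e) {v : Fin (Nn + 1) → ℂ} (hv : v ≠ 0)
    (h : (fun a => eval v (F a)) ≠ 0) :
    coverMap F (Projectivization.mk ℂ v hv) = Projectivization.mk ℂ _ h := by
  obtain ⟨a, ha, h1⟩ := Pool.Agent.H17.exists_smul_rep v hv
  have h2 : (fun j => eval (Projectivization.mk ℂ v hv).rep (F j)) =
      a ^ e • fun j => eval v (F j) := by
    funext j
    rw [h1]
    exact Pool.Agent.H17.eval_smul_of_isHomogeneous (hF j) a v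
  have h3 : (fun j => eval (Projectivization.mk ℂ v hv).rep (F j)) ≠ 0 := by
    rw [h2]
    exact smul_ne_zero (pow_ne_zero _ ha) h
  unfold coverMap
  rw [dif_pos h3, Projectivization.mk_eq_mk_iff']
  exact ⟨a ^ e, h2.symm⟩

variable {I : Ideal (MvPolynomial (Fin (Nn + 1)) ℂ)} {e : ℕ}
  {F : Fin (m + 1) → MvPolynomial (Fin (Nn + 1)) ℂ}

theorem eval_of_mem (hI : Homog I) {v : Fin (Nn + 1) → ℂ} (hv : v ≠ 0)
    (h : ∀ Q ∈ I, ∀ k, Q.IsHomogeneous k → VanishesAt Q (Projectivization.mk ℂ v hv))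
    {Q : MvPolynomial (Fin (Nn + 1)) ℂ} (hQ : Q ∈ I) : eval v Q = 0 := by
  rw [← MvPolynomial.sum_homogeneousComponent Q, map_sum]
  refine Finset.sum_eq_zero fun k _ => ?_
  have h1 := h _ (hI Q hQ k) k (homogeneousComponent_isHomogeneous k Q)
  unfold VanishesAt at h1
  obtain ⟨a, ha, h2⟩ := Pool.Agent.H17.exists_smul_rep v hv
  rw [h2] at h1
  have h3 := Pool.Agent.H17.eval_smul_of_isHomogeneous (homogeneousComponent_isHomogeneous k Q) a v
  have h4 : a ^ k * eval v (homogeneousComponent k Q) = 0 := by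
    rw [← h3]
    exact h1
  exact (mul_eq_zero.1 h4).resolve_left (pow_ne_zero _ ha)

theorem eval_ne_zero (hF : BaseFree I e F) {v : Fin (Nn + 1) → ℂ} (hv : v ≠ 0)
    (h : ∀ Q ∈ I, eval v Q = 0) : (fun a => eval v (F a)) ≠ 0 := by
  intro h0
  apply hv
  funext i
  obtain ⟨k, hk⟩ := hF.base i
  have h1 : Ideal.span (Set.range F) ⊔ I ≤ RingHom.ker (eval v) := by
    refine sup_le (Ideal.span_le.2 ?_) fun Q hQ => ?_
    · rintro _ ⟨a, rfl⟩
      exact congrFun h0 a
    · exact h Q hQ
  have h2 := h1 hk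
  rw [RingHom.mem_ker, map_pow, eval_X] at h2
  exact eq_zero_of_pow_eq_zero h2

/-- The composition is holomorphic. -/
theorem coverMap_holomorphic (hI : Homog I) (hF : BaseFree I e F) {f : ℂ → PN Nn} {U : Set ℂ}
    (hU : IsOpen U) (hf : HolomorphicInto f U)
    (hfX : ∀ z ∈ U, ∀ Q ∈ I, ∀ k, Q.IsHomogeneous k → VanishesAt Q (f z)) :
    HolomorphicInto (fun z => coverMap F (f z)) U := by
  intro s hs
  obtain ⟨φ, hφ, he⟩ := hf s hs
  refine ⟨fun z a => eval (φ z) (F a), ?_, ?_⟩
  · rw [analyticAt_pi_iff]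
    exact fun a => CovMap_analytic hφ (F a)
  · filter_upwards [he, hU.mem_nhds hs] with z hz hzU
    obtain ⟨h1, h2⟩ := hz
    have h3 : ∀ Q ∈ I, eval (φ z) Q = 0 := by
      intro Q hQ
      refine eval_of_mem hI h1 ?_ hQ
      intro Q' hQ' k hk
      rw [← h2]
      exact hfX z hzU Q' hQ' k hk
    have h4 := eval_ne_zero hF h1 h3
    refine ⟨h4, ?_⟩
    rw [h2]
    exact coverMap_mk hF.hom h1 h4

/-- Multiplicities. -/
theorem meets_of_ramM {q : ℕ} (hI : Homog I) (hF : BaseFree I e F) {f : ℂ → PN Nn} {U : Set ℂ}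
    (hU : IsOpen U) (hf : HolomorphicInto f U)
    (hfX : ∀ z ∈ U, ∀ Q ∈ I, ∀ k, Q.IsHomogeneous k → VanishesAt Q (f z)) {l : Fin (m + 1) → ℂ}
    (hram : RamM q I (comb l F) ∨ ∀ z ∈ U, ¬ VanishesAt (comb l F) (f z)) :
    MeetsWithMult q l (fun z => coverMap F (f z)) U := by
  intro s hs
  obtain ⟨φ, hφ, he⟩ := hf s hs
  have hvan : ∀ᶠ z in 𝓝 s, ∀ Q ∈ I, eval (φ z) Q = 0 := by
    filter_upwards [he, hU.mem_nhds hs] with z hz hzU Q hQ
    obtain ⟨h1, h2⟩ := hz
    refine eval_of_mem hI h1 ?_ hQ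
    intro Q' hQ' k hk
    rw [← h2]
    exact hfX z hzU Q' hQ' k hk
  have hcomb : ∀ z, ∑ a, l a * eval (φ z) (F a) = eval (φ z) (comb l F) := by
    intro z
    unfold comb
    rw [map_sum]
    refine Finset.sum_congr rfl fun a _ => ?_
    rw [map_mul, eval_C]
  refine ⟨fun z a => eval (φ z) (F a), ?_, ?_, ?_⟩
  · rw [analyticAt_pi_iff]
    exact fun a => CovMap_analytic hφ (F a)
  · filter_upwards [he, hvan] with z hz hz2
    obtain ⟨h1, h2⟩ := hz
    have h4 := eval_ne_zero hF h1 hz2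
    refine ⟨h4, ?_⟩
    rw [h2]
    exact coverMap_mk hF.hom h1 h4
  · intro h0
    have h0' : eval (φ s) (comb l F) = 0 := by
      rw [← hcomb]
      exact h0
    have hgoal : (fun z => ∑ a, l a * eval (φ z) (F a)) = fun z => eval (φ z) (comb l F) := by
      funext z
      exact hcomb z
    change ((q : ℕ) : ℕ∞) ≤ analyticOrderAt (fun z => ∑ a, l a * eval (φ z) (F a)) s
    rw [hgoal]
    obtain ⟨hs1, hs2⟩ := he.self_of_nhds
    rcases hram with hram | hram
    · obtain ⟨i, hi⟩ : ∃ i, φ s i ≠ 0 := by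
        by_contra hc
        push Not at hc
        exact hs1 (funext hc)
      obtain ⟨k, hk⟩ := hram i
      have hIJ : ∀ n : ℕ∞, I ≤ CovMap_J hφ n := by
        intro n Q hQ
        rw [CovMap_mem]
        have : analyticOrderAt (fun z => eval (φ z) Q) s = ⊤ := by
          rw [analyticOrderAt_eq_top]
          filter_upwards [hvan] with z hz
          exact hz Q hQ
        rw [this]
        exact le_top
      have hrad : Ideal.radical (Ideal.span {comb l F} ⊔ I) ≤ CovMap_J hφ 1 := by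
        intro B hB
        obtain ⟨t, ht⟩ := hB
        have h1 : Ideal.span {comb l F} ⊔ I ≤ CovMap_J hφ 1 := by
          refine sup_le ?_ (hIJ 1)
          rw [Ideal.span_singleton_le_iff_mem, CovMap_one]
          exact h0'
        have h2 := h1 ht
        rw [CovMap_one, map_pow] at h2
        rw [CovMap_one]
        exact eq_zero_of_pow_eq_zero h2
      have hsq : ∀ p : ℕ, (Ideal.radical (Ideal.span {comb l F} ⊔ I)) ^ p ≤ CovMap_J hφ p := by
        intro p
        induction p with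
        | zero =>
          intro A _
          rw [CovMap_mem, Nat.cast_zero]
          exact zero_le
        | succ p ih =>
          rw [pow_succ, Ideal.mul_le]
          intro A hA B hB
          rw [CovMap_mem, CovMap_mul hφ]
          have h1 := (CovMap_mem hφ p A).1 (ih hA)
          have h2 := (CovMap_mem hφ 1 B).1 (hrad hB)
          rw [Nat.cast_succ]
          exact add_le_add h1 h2
      have h5 := (sup_le (hsq q) (hIJ q)) hk
      rw [CovMap_mem, CovMap_mul hφ] at h5
      have h6 : analyticOrderAt (fun z => eval (φ z) (X i ^ k : MvPolynomial (Fin (Nn + 1)) ℂ)) s =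
          0 := by
        rw [(CovMap_analytic hφ _).analyticOrderAt_eq_zero, map_pow, eval_X]
        exact pow_ne_zero _ hi
      rw [h6, zero_add] at h5
      exact h5
    · exfalso
      apply hram s hs
      unfold VanishesAt
      obtain ⟨a, ha, h2⟩ := Pool.Agent.H17.exists_smul_rep (φ s) hs1
      rw [hs2, h2]
      have h3 := Pool.Agent.H17.eval_smul_of_isHomogeneous (comb_isHomogeneous l hF.hom) a (φ s)
      have h4 : eval (a • φ s) (comb l F) = a ^ e * eval (φ s) (comb l F) := h3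
      rw [h4, h0', mul_zero]

end Pool.Agent.H5.DG

end
end

section

/-!
# Project DG, module CovMain: Picard and Brody for finite covers
-/

open MvPolynomial Filter Topology
open Pool.Agent.H62.FC (MeroPunct PunctMero)
open Pool.Agent.H17 (PN VanishesAt HolomorphicInto puncturedDisc)

noncomputable section

namespace Pool.Agent.H5.DG

private theorem scale {r k : ℕ} {P : MvPolynomial (Fin r) ℂ} (hP : P.IsHomogeneous k)
    (c : ℂ) (x : Fin r → ℂ) : eval (fun a => c * x a) P = c ^ k * eval x P := by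
  rw [eval_eq, eval_eq, Finset.mul_sum]
  refine Finset.sum_congr rfl fun d hd => ?_
  have h1 : ∑ i, d i = k := by
    have h2 := hP (mem_support_iff.1 hd)
    rw [Finsupp.weight_apply, Finsupp.sum_fintype _ _ (by simp)] at h2
    rw [← h2]
    simp
  have h3 : ∀ y : Fin r → ℂ, ∏ i ∈ d.support, y i ^ d i = ∏ i, y i ^ d i := by
    intro y
    refine Finset.prod_subset (Finset.subset_univ _) fun i _ hi => ?_
    rw [Finsupp.notMem_support_iff.1 hi, pow_zero]
  rw [h3, h3]
  simp only [mul_pow]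
  rw [Finset.prod_mul_distrib, Finset.prod_pow_eq_pow_sum, h1]
  ring

private theorem mero_eval {r : ℕ} {ξ : ℂ → Fin r → ℂ} {s : ℂ}
    (hξ : ∀ i, MeromorphicAt (fun z => ξ z i) s) (G : MvPolynomial (Fin r) ℂ) :
    MeromorphicAt (fun z => eval (ξ z) G) s := by
  induction G using MvPolynomial.induction_on with
  | C a =>
    simp only [eval_C]
    exact MeromorphicAt.const a s
  | add p q hp hq =>
    simp only [map_add]
    exact hp.add hq
  | mul_X p i hp =>
    simp only [map_mul, eval_X]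
    exact hp.mul (hξ i)

theorem eval_aeval {r r' : ℕ} (F : Fin r → MvPolynomial (Fin r') ℂ) (x : Fin r' → ℂ)
    (P : MvPolynomial (Fin r) ℂ) : eval x (aeval F P) = eval (fun a => eval x (F a)) P := by
  induction P using MvPolynomial.induction_on with
  | C a => simp
  | add p q hp hq => rw [map_add, map_add, map_add, hp, hq]
  | mul_X p i hp => rw [map_mul, map_mul, map_mul, hp, aeval_X, eval_X]

section

variable {r Nn m e q k : ℕ} {l : Fin m → Fin (r + 1) → ℂ} {Δ : MvPolynomial (Fin (r + 1)) ℂ}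
  {I : Ideal (MvPolynomial (Fin (Nn + 1)) ℂ)} {F : Fin (r + 1) → MvPolynomial (Fin (Nn + 1)) ℂ}
  {O : Finset (Fin m)}

private theorem vanishes_iff (hk : Δ.IsHomogeneous k) {x : PN Nn}
    (hx : (fun a => eval x.rep (F a)) ≠ 0) :
    VanishesAt Δ (coverMap F x) ↔ VanishesAt (aeval F Δ) x := by
  have h1 : coverMap F x = Projectivization.mk ℂ _ hx := dif_pos hx
  have h2 : eval x.rep (aeval F Δ) = eval (fun a => eval x.rep (F a)) Δ := eval_aeval _ _ _
  rw [h1, Pool.Agent.H17.vanishesAt_mk_iff hk, ← h2]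
  rfl

/-- A map into `X` extends if its composition with the finite morphism given by `F` extends. -/
theorem extends_of_coverMap (hI : Homog I) (hF : BaseFree I e F) {f : ℂ → PN Nn}
    (hf : HolomorphicInto f puncturedDisc)
    (hfI : ∀ z ∈ puncturedDisc, ∀ Q ∈ I, ∀ k, Q.IsHomogeneous k → VanishesAt Q (f z))
    (hext : ∃ g' : ℂ → PN r, HolomorphicInto g' (Metric.ball 0 1) ∧
      ∀ z ∈ puncturedDisc, g' z = coverMap F (f z)) :
    ∃ g : ℂ → PN Nn, HolomorphicInto g (Metric.ball 0 1) ∧ ∀ z ∈ puncturedDisc, g z = f z := by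
  classical
  have hmem : ∀ z : ℂ, 0 < ‖z‖ → ‖z‖ < 1 → z ∈ puncturedDisc := fun z h1 h2 =>
    mem_puncturedDisc.mpr ⟨h1, h2⟩
  have hall : ∀ z ∈ puncturedDisc, ∀ c : ℂ, ∀ Q ∈ I, eval (c • (f z).rep) Q = 0 := by
    intro z hz c Q hQ
    have h1 : ∀ Q ∈ I, eval (f z).rep Q = 0 := fun Q hQ =>
      eval_of_mem hI (f z).rep_nonzero (by rw [(f z).mk_rep]; exact hfI z hz) hQ
    rw [← MvPolynomial.sum_homogeneousComponent Q, map_sum]
    refine Finset.sum_eq_zero fun k _ => ?_
    have h2 : (c • (f z).rep) = fun a => c * (f z).rep a := rfl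
    rw [h2, scale (homogeneousComponent_isHomogeneous k Q), h1 _ (hI Q hQ k), mul_zero]
  have hFne : ∀ z ∈ puncturedDisc, (fun a => eval (f z).rep (F a)) ≠ 0 := fun z hz =>
    eval_ne_zero hF (f z).rep_nonzero fun Q hQ => by
      have h1 := hall z hz 1 Q hQ
      rwa [one_smul] at h1
  obtain ⟨g', hg', hgf'⟩ := hext
  -- a coordinate which does not vanish identically
  have hhalf : (1 / 2 : ℂ) ∈ puncturedDisc := by
    refine hmem _ ?_ ?_
    · norm_num
    · norm_num
  obtain ⟨i₀, hi₀⟩ : ∃ i, (f (1 / 2)).rep i ≠ 0 := by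
    by_contra hcon
    push Not at hcon
    exact (f (1 / 2)).rep_nonzero (funext hcon)
  have hi₀T : i₀ ∈ nzSet f := by
    by_contra hcon
    exact hi₀ (nz_notMem hf hcon hhalf)
  obtain ⟨a₀, ha₀⟩ : ∃ a, eval (f (1 / 2)).rep (F a) ≠ 0 := by
    by_contra hcon
    push Not at hcon
    exact hFne _ hhalf (funext hcon)
  have ha₀T : ∀ s ∈ puncturedDisc, ∀ᶠ z in 𝓝[≠] s, eval (f z).rep (F a₀) ≠ 0 := by
    rcases vanish_dich hf (hF.hom a₀) with h1 | h1
    · exact absurd (h1 _ hhalf).self_of_nhds ha₀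
    · exact h1
  -- the coordinates
  obtain ⟨ξ, hξ⟩ : ∃ ξ : ℂ → Fin (Nn + 1) → ℂ, ∀ z i, ξ z i = (f z).rep i / (f z).rep i₀ :=
    ⟨fun z i => (f z).rep i / (f z).rep i₀, fun _ _ => rfl⟩
  have hξs : ∀ z, ξ z = fun i => ((f z).rep i₀)⁻¹ * (f z).rep i := by
    intro z
    funext i
    rw [hξ, div_eq_inv_mul]
  have hξm : ∀ s ∈ puncturedDisc, ∀ i, MeromorphicAt (fun z => ξ z i) s := by
    intro s hs i
    refine (quot_mero hf i i₀ hs).congr (Eventually.of_forall fun z => ?_)
    exact (hξ z i).symm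
  have hFξ : ∀ z a, eval (ξ z) (F a) = ((f z).rep i₀)⁻¹ ^ e * eval (f z).rep (F a) := by
    intro z a
    rw [hξs, scale (hF.hom a)]
  -- the quotients of the forms
  have hquot : ∀ a, PunctMero (fun z => eval (f z).rep (F a) / eval (f z).rep (F a₀)) := by
    intro a
    obtain ⟨ψ, hψ, he⟩ := hg' 0 (Metric.mem_ball_self one_pos)
    refine ⟨fun z => ψ z a / ψ z a₀, ?_, ?_⟩
    · exact ((analyticAt_pi_iff.mp hψ a).meromorphicAt).fun_div
        (analyticAt_pi_iff.mp hψ a₀).meromorphicAt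
    · have h1 : ∀ᶠ z in 𝓝[≠] (0 : ℂ),
          eval (f z).rep (F a) / eval (f z).rep (F a₀) = ψ z a / ψ z a₀ := by
        filter_upwards [he.filter_mono nhdsWithin_le_nhds, eventually_puncturedDisc_zero]
          with z hz hzD
        obtain ⟨h2, h3⟩ := hz
        rw [hgf' z hzD] at h3
        have h4 : coverMap F (f z) = Projectivization.mk ℂ _ (hFne z hzD) :=
          dif_pos (hFne z hzD)
        rw [h4, Projectivization.mk_eq_mk_iff'] at h3
        obtain ⟨x, hx⟩ := h3
        have hx0 : x ≠ 0 := by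
          rintro rfl
          apply hFne z hzD
          rw [← hx, zero_smul]
        have h5 : ∀ b, eval (f z).rep (F b) = x * ψ z b := fun b => (congrFun hx b).symm
        rw [h5, h5, mul_div_mul_left _ _ hx0]
      have h2 := eventually_eventually_nhdsWithin.2 h1
      filter_upwards [h2, self_mem_nhdsWithin] with z hz hne
      rw [IsOpen.nhdsWithin_eq isOpen_compl_singleton hne] at hz
      exact hz.filter_mono nhdsWithin_le_nhds
  obtain ⟨C, hC0, hC⟩ := exists_norm_bound hF
  have hnz2 : ∀ s ∈ puncturedDisc, ∀ᶠ z in 𝓝[≠] s, (f z).rep i₀ ≠ 0 ∧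
      eval (f z).rep (F a₀) ≠ 0 ∧ z ∈ puncturedDisc := by
    intro s hs
    filter_upwards [nz_mem hi₀T hs, ha₀T s hs, eventually_mem_puncturedDisc hs] with z h1 h2 h3
    exact ⟨h1, h2, h3⟩
  have hu : ∀ i, PunctMero (fun z => ξ z i ^ e / eval (ξ z) (F a₀)) := by
    intro i
    refine punctMero_of_bound one_pos (C := C) (fun z h1 h2 => ?_) hquot fun z h1 h2 => ?_
    · exact ((hξm z (hmem z h1 h2) i).fun_pow e).fun_div (mero_eval (hξm z (hmem z h1 h2)) _)
    · filter_upwards [hnz2 z (hmem z h1 h2)] with ζ hζ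
      obtain ⟨h3, h4, h5⟩ := hζ
      have h6 := hC (ξ ζ) (fun c Q hQ => by
        have h7 := hall ζ h5 (c * ((f ζ).rep i₀)⁻¹) Q hQ
        rw [← h7]
        congr 2
        rw [hξs]
        funext i
        simp only [Pi.smul_apply, smul_eq_mul]
        ring)
      have h7 : ‖ξ ζ i‖ ^ e ≤ C * ∑ a, ‖eval (ξ ζ) (F a)‖ :=
        (pow_le_pow_left₀ (norm_nonneg _) (norm_le_pi_norm (ξ ζ) i) e).trans h6
      have h8 : eval (ξ ζ) (F a₀) ≠ 0 := by
        rw [hFξ]
        exact mul_ne_zero (pow_ne_zero _ (inv_ne_zero h3)) h4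
      have h9 : ∀ a, eval (f ζ).rep (F a) / eval (f ζ).rep (F a₀) =
          eval (ξ ζ) (F a) / eval (ξ ζ) (F a₀) := by
        intro a
        rw [hFξ, hFξ, mul_div_mul_left _ _ (pow_ne_zero _ (inv_ne_zero h3))]
      rw [norm_div, norm_pow, div_le_iff₀ (norm_pos_iff.2 h8)]
      refine h7.trans (le_of_eq ?_)
      rw [mul_assoc, Finset.sum_mul]
      congr 1
      refine Finset.sum_congr rfl fun a _ => ?_
      rw [h9, norm_div, div_mul_cancel₀ _ (norm_ne_zero_iff.2 h8)]
  -- the powers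
  have hpow : ∀ i, PunctMero (fun z => ξ z i ^ e) := by
    intro i
    refine PunctMero.congr ((hu i).mul (hu i₀).inv) ?_
    filter_upwards [eventually_puncturedDisc_zero] with z hz
    filter_upwards [hnz2 z hz] with ζ hζ
    obtain ⟨h3, h4, h5⟩ := hζ
    have h6 : ξ ζ i₀ = 1 := by
      rw [hξ, div_self h3]
    have h8 : eval (ξ ζ) (F a₀) ≠ 0 := by
      rw [hFξ]
      exact mul_ne_zero (pow_ne_zero _ (inv_ne_zero h3)) h4
    rw [h6, one_pow]
    field_simp
  refine Pool.Agent.H62.FC.exists_extension hf (i₀ := i₀) ?_ ?_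
  · filter_upwards [eventually_puncturedDisc_zero] with z hz
    exact nz_mem hi₀T hz
  · intro i
    by_cases hi : i ∈ nzSet f
    · refine PunctMero.root one_pos (quot_meroPunct hf hi hi₀T) hF.pos ?_
      refine (hpow i).congr (Eventually.of_forall fun z => Eventually.of_forall fun ζ => ?_)
      show ξ ζ i ^ e = ((f ζ).rep i / (f ζ).rep i₀) ^ e
      rw [hξ]
    · refine PunctMero.congr (PunctMero.const 0) ?_
      filter_upwards [eventually_puncturedDisc_zero] with z hzD
      filter_upwards [eventually_mem_puncturedDisc hzD] with ζ hζ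
      rw [nz_notMem hf hi hζ, zero_div]

/-- The value of the exceptional form. -/
theorem vanishes_coverMap_iff (hI : Homog I) (hF : BaseFree I e F) (hk : Δ.IsHomogeneous k)
    {x : PN Nn} (hx : ∀ Q ∈ I, ∀ k, Q.IsHomogeneous k → VanishesAt Q x) :
    VanishesAt Δ (coverMap F x) ↔ VanishesAt (aeval F Δ) x :=
  vanishes_iff hk (eval_ne_zero hF x.rep_nonzero fun Q hQ =>
    eval_of_mem hI x.rep_nonzero (by rw [x.mk_rep]; exact hx) hQ)

/-- **Picard's theorem for covers**, general form. -/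
theorem picard_coverM (hk : Δ.IsHomogeneous k) (h : OrbExt q l Δ) (hI : Homog I)
    (hF : BaseFree I e F) (hram : ∀ j ∉ O, RamM q I (comb (l j) F)) {f : ℂ → PN Nn}
    (hf : HolomorphicInto f puncturedDisc)
    (hfX : ∀ z ∈ puncturedDisc, f z ∈ coverLocus I O fun j => comb (l j) F)
    (hne : ∃ z ∈ puncturedDisc, ¬ VanishesAt (aeval F Δ) (f z)) :
    ∃ g : ℂ → PN Nn, HolomorphicInto g (Metric.ball 0 1) ∧ ∀ z ∈ puncturedDisc, g z = f z := by
  have hfI : ∀ z ∈ puncturedDisc, ∀ Q ∈ I, ∀ k, Q.IsHomogeneous k → VanishesAt Q (f z) :=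
    fun z hz => (hfX z hz).1
  refine extends_of_coverMap hI hF hf hfI ?_
  exact h _ (coverMap_holomorphic hI hF isOpen_puncturedDisc hf hfI) (fun j => by
    refine meets_of_ramM hI hF isOpen_puncturedDisc hf hfI ?_
    by_cases hj : j ∈ O
    · exact Or.inr fun z hz => (hfX z hz).2 j hj
    · exact Or.inl (hram j hj)) (by
    obtain ⟨z, hz, hz'⟩ := hne
    exact ⟨z, hz, fun hcon => hz' ((vanishes_coverMap_iff hI hF hk (hfI z hz)).1 hcon)⟩)

/-- **Brody's theorem for covers**, general form. -/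
theorem brody_coverM (hk : Δ.IsHomogeneous k) (h : OrbExt q l Δ) (hI : Homog I)
    (hF : BaseFree I e F) (hram : ∀ j ∉ O, RamM q I (comb (l j) F)) {f : ℂ → PN Nn}
    (hf : HolomorphicInto f Set.univ)
    (hfX : ∀ z, f z ∈ coverLocus I O fun j => comb (l j) F)
    (hne : ∃ z, ¬ VanishesAt (aeval F Δ) (f z)) (z w : ℂ) : f z = f w := by
  have hQ : (aeval F Δ).IsHomogeneous (e * k) := hk.aeval _ hF.hom
  obtain ⟨z₁, hz₁⟩ := hne
  -- a point different from `0` outside the exceptional set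
  obtain ⟨w₀, hw₀, hw₀'⟩ : ∃ w, w ≠ 0 ∧ ¬ VanishesAt (aeval F Δ) (f w) := by
    by_cases hz0 : z₁ = 0
    · subst hz0
      obtain ⟨ψ, hψ, he⟩ := hf 0 (Set.mem_univ 0)
      rcases vanish_local hψ he hQ with h1 | h1
      · exact absurd h1.self_of_nhds hz₁
      · obtain ⟨w, hw1, hw2⟩ := (h1.and self_mem_nhdsWithin).exists
        exact ⟨w, hw2, hw1⟩
    · exact ⟨z₁, hz0, hz₁⟩
  have hgh : HolomorphicInto (fun z => f (Complex.exp z⁻¹)) puncturedDisc := by
    refine Pool.Agent.H17.HolomorphicInto.comp hf (u := fun z => Complex.exp z⁻¹) ?_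
      (fun _ _ => Set.mem_univ _)
    intro z hz
    have h1 : z ≠ 0 := hz.2
    exact (analyticAt_inv h1).cexp
  obtain ⟨g, hg, hge⟩ := picard_coverM hk h hI hF hram hgh (fun z _ => hfX _) (by
    obtain ⟨zs, h1, h2⟩ := Pool.Agent.H99.Cover.exists_seq_exp_inv w₀ hw₀
    obtain ⟨n, h3, h4⟩ := (h2.and (h1.eventually (Metric.ball_mem_nhds (0 : ℂ) one_pos))).exists
    refine ⟨zs n, ⟨h4, h3.1⟩, ?_⟩
    rw [h3.2]
    exact hw₀')
  exact const_of_extension hf hg hge z w

end

end Pool.Agent.H5.DG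

end
end
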