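import Pool.Agent.H94.DG.H5.DG.CovAlg
import Pool.Agent.H94.DG.H5.DG.EGenA
import Pool.Agent.H94.DG.M12
import Pool.Agent.H94.DG.M32
import Pool.Agent.H94.DG.M38
import Pool.Agent.H94.DG.M39

/-! The parts of this file: H5.DG.EGen, H5.DG.Final. -/

section

/-!
# Project DG, module EGen: closed subvarieties of covers are of log general type
-/

open MvPolynomial
open Pool.Agent.H17LG.Variety (FunField ratio)
open Pool.Agent.H17GT (coordFun functionField)
open Pool.Agent.H92.GT (exists_index)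
open Pool.Agent.H92.GT.Proj (exists_coordFun_ne_zero proj_point)

noncomputable section

namespace Pool.Agent.H5.DG

/-- The generic point, normalised at a coordinate. -/
private def EG_x {Nn : ℕ} (P : Ideal (MvPolynomial (Fin (Nn + 1)) ℂ)) [P.IsPrime]
    (j₀ : Fin (Nn + 1)) (i : Fin (Nn + 1)) : functionField P := ratio P i j₀

private theorem EG_x_ratio {Nn : ℕ} (P : Ideal (MvPolynomial (Fin (Nn + 1)) ℂ)) [P.IsPrime]
    {j₀ : Fin (Nn + 1)} (hj₀ : coordFun P j₀ ≠ 0) (j : Fin (Nn + 1)) :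
    (fun i => (EG_x P j₀ j)⁻¹ * EG_x P j₀ i) = fun i => ratio P i j := by
  funext i
  rw [← div_eq_inv_mul]
  exact ((EG_point P hj₀).1 i j).symm

private theorem EG_onForms {Nn m k : ℕ} (P : Ideal (MvPolynomial (Fin (Nn + 1)) ℂ)) [P.IsPrime]
    {j₀ : Fin (Nn + 1)} (hj₀ : coordFun P j₀ ≠ 0) (O : Finset (Fin m))
    (H : Fin m → MvPolynomial (Fin (Nn + 1)) ℂ)
    (E : H23.PrimeDivisorOver (functionField P) k) {j : Fin (Nn + 1)} (hj : EG_x P j₀ j ≠ 0)
    (h0 : ∀ i, 0 ≤ E.ord ((EG_x P j₀ j)⁻¹ * EG_x P j₀ i)) {i : Fin m} (hi : i ∈ O)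
    (h1 : 0 < E.ord (aeval (fun i => (EG_x P j₀ j)⁻¹ * EG_x P j₀ i) (H i))) :
    OnForms P O H (H23.toFano E) := by
  refine ⟨j, ?_, fun i' => ?_, i, hi, ?_⟩
  · intro h0
    apply hj
    apply Subtype.ext
    show coordFun P j / coordFun P j₀ = 0
    rw [h0, zero_div]
  · have := h0 i'
    rw [congrFun (EG_x_ratio P hj₀ j) i'] at this
    exact this
  · rw [EG_x_ratio P hj₀ j] at h1
    exact h1

private theorem EG_x_facts {Nn : ℕ} (P : Ideal (MvPolynomial (Fin (Nn + 1)) ℂ)) [P.IsPrime]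
    {j₀ : Fin (Nn + 1)} (hj₀ : coordFun P j₀ ≠ 0) :
    EG_x P j₀ j₀ = 1 ∧
      Algebra.IsAlgebraic (IntermediateField.adjoin ℂ (Set.range (EG_x P j₀)))
        (functionField P) ∧
      ∀ (k : ℕ) (G : MvPolynomial (Fin (Nn + 1)) ℂ), G.IsHomogeneous k →
        (aeval (EG_x P j₀) G = 0 ↔ G ∈ P) := by
  obtain ⟨-, hgen, hker⟩ := EG_point P hj₀
  refine ⟨?_, ?_, fun k G hG => hker k G hG⟩
  · apply Subtype.ext
    exact div_self hj₀
  · have hgen' : IntermediateField.adjoin ℂ (Set.range (EG_x P j₀)) = ⊤ := hgen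
    rw [hgen']
    exact ⟨fun f => isAlgebraic_algebraMap (⟨f, IntermediateField.mem_top⟩ :
      (⊤ : IntermediateField ℂ (functionField P)))⟩

private theorem EG_prop {n Nn e w : ℕ} (P : Ideal (MvPolynomial (Fin (Nn + 1)) ℂ)) [P.IsPrime]
    (hP : Homog P) {F : Fin (n + 2) → MvPolynomial (Fin (Nn + 1)) ℂ} (hF : BaseFree P e F)
    {j₀ : Fin (Nn + 1)} (hj₀ : coordFun P j₀ ≠ 0) {z : Fin (w + 1) → functionField P}
    (hz : IsTranscendenceBasis ℂ z) :
    ¬ ∃ (y : Fin (n + 2) → ℂ) (f : functionField P), ∀ a,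
      aeval (EG_x P j₀) (F a) = algebraMap ℂ (functionField P) (y a) * f := by
  obtain ⟨a₀, ha₀, halgF⟩ := fun_algebraic P hP hF hj₀
  rintro ⟨y, f, hy⟩
  set V : Fin (n + 2) → functionField P := fun a => aeval (EG_x P j₀) (F a) with hV
  have halg' : Algebra.IsAlgebraic
      (IntermediateField.adjoin ℂ (Set.range fun a => V a / V a₀)) (functionField P) := halgF
  have hV0 : V a₀ ≠ 0 := ha₀
  have hf0 : f ≠ 0 := by
    rintro rfl
    apply hV0
    rw [hV]
    simp only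
    rw [hy a₀, mul_zero]
  have h3 : ∀ a, V a / V a₀ = algebraMap ℂ (functionField P) (y a / y a₀) := by
    intro a
    rw [hV]
    simp only
    rw [hy a, hy a₀, map_div₀, mul_div_mul_right _ _ hf0]
  have h4 : Algebra.IsAlgebraic ℂ (IntermediateField.adjoin ℂ
      (Set.range fun a => V a / V a₀)) := by
    apply IntermediateField.isAlgebraic_adjoin
    rintro _ ⟨a, rfl⟩
    simp only
    rw [h3 a]
    exact isIntegral_algebraMap
  have h5 : Algebra.IsAlgebraic ℂ (functionField P) :=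
    Algebra.IsAlgebraic.trans ℂ (IntermediateField.adjoin ℂ
      (Set.range fun a => V a / V a₀)) (functionField P)
  exact hz.1.transcendental 0 (h5.isAlgebraic _)

/-- **Closed subvarieties of covers are of log general type.** -/
theorem alg_cover {n Nn κ m e : ℕ} {l : Fin m → Fin (n + 2) → ℂ}
    {M : Matrix (Fin (n + 2)) (Fin (n + 2)) ℂ} {N : Polynomial (PV n)} {φ : PVW n}
    {J : Finset (Fin m)} {c : Fin m → ℂ} (h : Pkg l M κ N φ J c)
    {F : Fin (n + 2) → MvPolynomial (Fin (Nn + 1)) ℂ}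
    (P : Ideal (MvPolynomial (Fin (Nn + 1)) ℂ)) [P.IsPrime] (hP : Homog P)
    (hF : BaseFree P e F) (O : Finset (Fin m)) (hO : ∀ j ∈ O, comb (l j) F ∉ P)
    (hram : ∀ j ∉ O, Ram P (comb (l j) F)) (hΔ : aeval F (DelM M κ N) ∉ P) {w : ℕ} (hw : 1 ≤ w)
    (hz : ∃ z : Fin w → FunField P, IsTranscendenceBasis ℂ z) :
    H17LG.Variety.IsLogGeneralType (K := FunField P) (k := w)
      (OnForms P O fun j => comb (l j) F) := by
  have hwn : w ≤ n + 1 := dim_le P hP hF hz
  obtain ⟨k, rfl⟩ : ∃ k, w = k + 1 := ⟨w - 1, by omega⟩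
  obtain ⟨z, hz⟩ := hz
  obtain ⟨j₀, hj₀⟩ := exists_coordFun_ne_zero P (k := k) z hz
  obtain ⟨hx1, halg, hker⟩ := EG_x_facts P hj₀
  have hess : Algebra.EssFiniteType ℂ (functionField P) := H17GT.essFiniteType_functionField P
  obtain ⟨I, hI⟩ := exists_index halg (z := z) hz
  have hprop := EG_prop P hP hF hj₀ hI
  refine H17LG.isLogGeneralType_translate (K := functionField P)
    (B := fun E => OnForms P O (fun j => comb (l j) F) (H23.toFano E)) (fun E => Iff.rfl) ?_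
  exact EG_core (K := functionField P) h P hP hF O hram hΔ hx1 halg hker hprop (by omega) hI _
    fun E hE j₁ hj₁ h0 j hjO hpos => hE (EG_onForms P hj₀ O _ E hj₁ h0 hjO hpos)

end Pool.Agent.H5.DG

end
end

section

/-!
# Project DG, module Final: the main theorem, diagonal complete intersections
-/

open MvPolynomial Filter Topology
open Pool.Agent.H17 (PN VanishesAt zeroLocus ZariskiClosedIn HolomorphicInto puncturedDisc)
open Pool.Agent.H17GT (coordFun)
open Pool.Agent.H17LG.Variety (FunField ratio IsLogGeneralType)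

noncomputable section

namespace Pool.Agent.H5.DG

variable {Nn m : ℕ}

/-- **The main theorem on finite covers.** -/
theorem main_cover (n : ℕ) : ∃ N₀ : ℕ, n + 2 ≤ N₀ ∧ ∀ (m : ℕ) (l : Fin m → Fin (n + 2) → ℂ),
    N₀ ≤ m → GenPos l → ∃ (k : ℕ) (Δ : PV n), Δ ≠ 0 ∧ Δ.IsHomogeneous k ∧ OrbifoldPart 2 l Δ ∧
      ∀ (Nn e : ℕ) (I : Ideal (MvPolynomial (Fin (Nn + 1)) ℂ))
        (F : Fin (n + 2) → MvPolynomial (Fin (Nn + 1)) ℂ) (O : Finset (Fin m)), Homog I →
        BaseFree I e F → (∀ j ∉ O, RamM 2 I (comb (l j) F)) → CoverPart l Δ I F O := by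
  obtain ⟨N₀, hN₀, hpkg⟩ := exists_pkg n
  refine ⟨N₀, by omega, fun m l hm hl => ?_⟩
  obtain ⟨M, κ, N, φ, J, c, h⟩ := hpkg m l hm hl
  obtain ⟨k, hk⟩ := DelM_isHomogeneous h
  refine ⟨k, DelM M κ N, DelM_ne_zero h, hk, ⟨fun f hf hm hne => picard_orb h hf hm hne,
    fun f hf hm hne => brody_orb h hf hm hne⟩, ?_⟩
  intro Nn e I F O hI hF hram
  exact ⟨fun f hf hfX hne => picard_cover h hI hF hram hf hfX hne,
    fun f hf hfX hne => brody_cover h hI hF hram hf hfX hne,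
    fun P _ hP hIP hO hΔ w hw hz => alg_cover h P hP (hF.mono hIP) O hO
      (fun j hj => (hram j hj).mono hIP) hΔ hw hz⟩

/-- **The main theorem**, in the final form. -/
theorem main_hyperplane (n : ℕ) : ∃ N₀ : ℕ, n + 2 ≤ N₀ ∧
    ∀ (m : ℕ) (l : Fin m → Fin (n + 2) → ℂ), N₀ ≤ m → GenPos l →
      ∃ (k : ℕ) (Δ : PV n), Δ ≠ 0 ∧ Δ.IsHomogeneous k ∧ HyperplaneTheorem 2 l Δ := by
  obtain ⟨N₀, hN₀, hmain⟩ := main_cover n
  refine ⟨N₀, hN₀, fun m l hm hl => ?_⟩
  obtain ⟨k, Δ, hΔ, hk, horb, hcov⟩ := hmain m l hm hl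
  refine ⟨k, Δ, hΔ, hk, horb, fun N e I _ F O hI hF hO hram => ?_⟩
  have h := hcov N e I F O hI hF hram
  exact ⟨h, fun w hw hz => ⟨fun hwr => delta_notMem I hI hF (by subst hwr; exact hz) hΔ hk,
    fun hΔI => h.four hI hF hk hΔI hO hw hz⟩⟩

/-! ### Diagonal complete intersections -/

section

variable {N c n d : ℕ} {a : Fin c → Fin (N + 1) → ℂ} {l : Fin (N + 1) → Fin (n + 2) → ℂ}
  {b : Fin (n + 2) → Fin (N + 1) → ℂ}

/-- The forms which define the map to `ℙ^(n + 1)`. -/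
def diagF (b : Fin (n + 2) → Fin (N + 1) → ℂ) (d : ℕ) (i : Fin (n + 2)) :
    MvPolynomial (Fin (N + 1)) ℂ :=
  ∑ j, C (b i j) * X j ^ d

/-- The data of a diagonal complete intersection. -/
theorem diag_data_of (hc : c + (n + 1) = N) (hd : 2 ≤ d) (hl : GenPos l)
    (hker : ∀ y : Fin (N + 1) → ℂ, (∀ i, ∑ j, a i j * y j = 0) ↔
      ∃ v : Fin (n + 2) → ℂ, ∀ j, y j = dot (l j) v) :
    ∃ (b : Fin (n + 2) → Fin (N + 1) → ℂ)
      (I : Ideal (MvPolynomial (Fin (N + 1)) ℂ)) (_ : I.IsPrime),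
      Homog I ∧ BaseFree I d (diagF b d) ∧ (∀ j, RamM d I (comb (l j) (diagF b d))) ∧
      (∀ x : PN N, (∀ Q ∈ I, ∀ k, Q.IsHomogeneous k → VanishesAt Q x) ↔
        x ∈ zeroLocus (diagForm a d)) ∧
      ∃ z : Fin (n + 1) → FunField I, IsTranscendenceBasis ℂ z := by
  classical
  have hd0 : 0 < d := by omega
  have hle : n + 2 ≤ N + 1 := by omega
  obtain ⟨b, hb⟩ := exists_inverse hle hl
  obtain ⟨hne, hpair⟩ := GenPos.pair hle hl
  obtain ⟨I, hI, hhom, hA, hX, hz⟩ := exists_prime hd0 hne hpair hb hker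
  have hAd : ∀ i, diagForm a d i ∈ I := hA
  -- points
  have hpt : ∀ x : Fin (N + 1) → ℂ, (∀ i, eval x (diagForm a d i) = 0) ↔
      ∃ v : Fin (n + 2) → ℂ, ∀ j, x j ^ d = dot (l j) v := by
    intro x
    simp only [eval_diagForm]
    exact hker fun j => x j ^ d
  have hcone : ∀ x : Fin (N + 1) → ℂ, (∀ Q ∈ I, eval x Q = 0) ↔
      ∃ v : Fin (n + 2) → ℂ, ∀ j, x j ^ d = dot (l j) v := by
    intro x
    constructor
    · intro h
      exact (hpt x).1 fun i => h _ (hAd i)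
    · rintro ⟨v, hv⟩ Q hQ
      rw [← MvPolynomial.sum_homogeneousComponent Q, map_sum]
      exact Finset.sum_eq_zero fun k _ =>
        hX _ (hhom Q hQ k) k (homogeneousComponent_isHomogeneous k Q) x v hv
  have hFv : ∀ (x : Fin (N + 1) → ℂ) (v : Fin (n + 2) → ℂ), (∀ j, x j ^ d = dot (l j) v) →
      ∀ i, eval x (diagF b d i) = v i := by
    intro x v hv i
    unfold diagF
    rw [map_sum, hb v i]
    refine Finset.sum_congr rfl fun j _ => ?_
    rw [map_mul, map_pow, eval_C, eval_X, hv]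
  have hcomb : ∀ j, X j ^ d - comb (l j) (diagF b d) ∈ I := by
    intro j
    refine mem_of_forall I fun x hx => ?_
    obtain ⟨v, hv⟩ := (hcone x).1 hx
    rw [map_sub, map_pow, eval_X, hv j]
    unfold comb dot
    rw [map_sum, sub_eq_zero]
    refine Finset.sum_congr rfl fun i _ => ?_
    rw [map_mul, eval_C, hFv x v hv]
  have hFhom : ∀ i, (diagF b d i).IsHomogeneous d := by
    intro i
    refine MvPolynomial.IsHomogeneous.sum _ _ _ fun j _ => ?_
    exact MvPolynomial.isHomogeneous_C_mul_X_pow _ _ _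
  refine ⟨b, I, hI, hhom, ⟨by omega, hFhom, fun j => ⟨d, ?_⟩⟩, fun j i => ⟨0, ?_⟩, ?_, hz⟩
  · have h1 : X j ^ d = comb (l j) (diagF b d) + (X j ^ d - comb (l j) (diagF b d)) := by ring
    rw [h1]
    refine Submodule.add_mem_sup ?_ (hcomb j)
    refine Ideal.sum_mem _ fun i _ => Ideal.mul_mem_left _ _ (Ideal.subset_span ⟨i, rfl⟩)
  · rw [pow_zero, one_mul]
    have h0 : (X j : MvPolynomial (Fin (N + 1)) ℂ) ∈
        Ideal.radical (Ideal.span {comb (l j) (diagF b d)} ⊔ I) := by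
      refine ⟨d, ?_⟩
      have h1 : (X j : MvPolynomial (Fin (N + 1)) ℂ) ^ d =
          comb (l j) (diagF b d) + (X j ^ d - comb (l j) (diagF b d)) := by ring
      rw [h1]
      exact Submodule.add_mem_sup (Ideal.subset_span rfl) (hcomb j)
    have h1 : comb (l j) (diagF b d) = X j ^ d + -(X j ^ d - comb (l j) (diagF b d)) := by ring
    have h2 : (X j : MvPolynomial (Fin (N + 1)) ℂ) ^ d ∈
        (Ideal.radical (Ideal.span {comb (l j) (diagF b d)} ⊔ I)) ^ d := Ideal.pow_mem_pow h0 d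
    have h3 := Submodule.add_mem_sup h2 (I.neg_mem (hcomb j))
    rwa [← h1] at h3
  · intro x
    constructor
    · intro h i
      exact h _ (hAd i) d (diagForm_isHomogeneous a d i)
    · intro h Q hQ k hk
      obtain ⟨v, hv⟩ := (hpt x.rep).1 h
      exact hX Q hQ k hk x.rep v hv

end

end Pool.Agent.H5.DG

end
end
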