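import Pool.Agent.H94.DG.M01
import Pool.Agent.H94.DG.M10
import Pool.Agent.H94.DG.M20
import Pool.Agent.H94.DG.M21

/-! The parts of this file: H39.HC.General, H39.HC.GenDiag, H39.HC.Geometry, H39.HC.Num, H39.HC.Restrict, H39.SY.Vol3, H5.DG.ChowEx. -/

section

/-!
# General linear forms
-/

open MvPolynomial

noncomputable section

namespace Pool.Agent.H39.HC

/-- The first `q` of the indices. -/
def firstIdx (N q : ℕ) : Finset (Fin (N + 1)) := Finset.univ.filter fun j => (j : ℕ) < q

private theorem General_card_firstIdx {N q : ℕ} (hqN : q ≤ N + 1) : (firstIdx N q).card = q := by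
  have h : firstIdx N q = Finset.univ.map (Fin.castLEEmb hqN) := by
    ext j
    simp only [firstIdx, Finset.mem_filter, Finset.mem_univ, true_and, Finset.mem_map]
    constructor
    · intro hj
      exact ⟨⟨j, hj⟩, by ext; simp⟩
    · rintro ⟨a, rfl⟩
      simp
  rw [h, Finset.card_map, Finset.card_univ, Fintype.card_fin]

/-- The exponents of the monomials of degree `d`. -/
private abbrev General_T (n d : ℕ) : Type := {P : Fin (n + 1) → ℕ // ∑ i, P i = d}

private instance General_fin (n d : ℕ) : Fintype (General_T n d) :=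
  Fintype.ofEquiv _ (Sym.equivNatSumOfFintype (Fin (n + 1)) d)

private theorem General_card (n d : ℕ) : Fintype.card (General_T n d) = (n + d).choose n := by
  rw [← Fintype.card_congr (Sym.equivNatSumOfFintype (Fin (n + 1)) d), Sym.card_sym_eq_choose, Fintype.card_fin,
    show n + 1 + d - 1 = n + d by omega, Nat.choose_symm_add]

private theorem General_pts {T X : Type} [Fintype T] [DecidableEq T] (v : X → T → ℂ)
    (h : ∀ c : T → ℂ, (∀ x, ∑ τ, c τ * v x τ = 0) → c = 0) :
    ∃ x : T → X, (Matrix.of fun τ τ' => v (x τ) τ').det ≠ 0 := by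
  classical
  have hspan : Submodule.span ℂ (Set.range v) = ⊤ := by
    by_contra hne
    obtain ⟨f, hf0, hf⟩ := Submodule.exists_le_ker_of_lt_top _ (lt_top_iff_ne_top.mpr hne)
    have hfe : ∀ w : T → ℂ, f w = ∑ τ, f (Pi.single τ 1) * w τ := by
      intro w
      conv_lhs => rw [← Finset.univ_sum_single w]
      rw [map_sum]
      refine Finset.sum_congr rfl fun τ _ => ?_
      have : (Pi.single τ (w τ) : T → ℂ) = w τ • Pi.single τ 1 := by
        rw [← Pi.single_smul, smul_eq_mul, mul_one]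
      rw [this, map_smul, smul_eq_mul, mul_comm]
    have hc := h (fun τ => f (Pi.single τ 1)) (fun x => by
      rw [← hfe]
      exact LinearMap.mem_ker.mp (hf (Submodule.subset_span ⟨x, rfl⟩)))
    apply hf0
    ext w
    have := congrFun hc w
    simpa using this
  obtain ⟨b, hb, hbs, hbl⟩ := exists_linearIndependent ℂ (Set.range v)
  rw [hspan] at hbs
  let B : Module.Basis b ℂ (T → ℂ) := Module.Basis.mk hbl (by rw [Subtype.range_coe_subtype, Set.ofPred_mem_eq, hbs])
  have hfin : Finite b := Module.Finite.finite_basis B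
  let _ : Fintype b := Fintype.ofFinite b
  have hcard : Fintype.card T = Fintype.card b := by
    rw [← Module.finrank_eq_card_basis B, Module.finrank_fintype_fun_eq_card]
  let e : T ≃ b := Fintype.equivOfCardEq hcard
  have hx : ∀ τ : T, ∃ x : X, v x = (e τ : T → ℂ) := fun τ => hb (e τ).2
  choose x hx using hx
  refine ⟨x, ?_⟩
  have hli : LinearIndependent ℂ (Matrix.of fun τ τ' => v (x τ) τ').row := by
    have : (Matrix.of fun τ τ' => v (x τ) τ').row = fun τ => (e τ : T → ℂ) := by
      funext τ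
      exact hx τ
    rw [this]
    exact hbl.comp e e.injective
  rw [Matrix.linearIndependent_rows_iff_isUnit, Matrix.isUnit_iff_isUnit_det] at hli
  exact hli.ne_zero

/-- The matrix of the values of the monomials. -/
private def General_M {ι : Type} {n : ℕ} (d : ℕ) (u : ι → Fin (n + 1) → ℂ) : Matrix ι (General_T n d) ℂ :=
  Matrix.of fun j P => ∏ i, u j i ^ P.1 i

private theorem General_eval {ι : Type} {n : ℕ} (d : ℕ) (u : ι → Fin (n + 1) → ℂ) (g : MvPolynomial (Fin (n + 1)) ℂ)
    (hg : g.IsHomogeneous d) (j : ι) :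
    eval (u j) g = (General_M d u).mulVec (fun P => g.coeff (Finsupp.equivFunOnFinite.symm P.1)) j := by
  classical
  rw [eval_eq', Matrix.mulVec, dotProduct]
  have hmem : ∀ μ ∈ g.support, ∑ i, μ i = d := by
    intro μ hμ
    have h1 : μ.degree = d := by
      rw [Finsupp.degree_eq_weight_one]
      exact hg (mem_support_iff.mp hμ)
    rw [Finsupp.degree_eq_sum] at h1
    exact h1
  symm
  rw [← Finset.sum_filter_add_sum_filter_not Finset.univ
    (fun P : General_T n d => Finsupp.equivFunOnFinite.symm P.1 ∈ g.support)]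
  rw [add_eq_left.mpr]
  · refine Finset.sum_bij' (fun P _ => Finsupp.equivFunOnFinite.symm P.1)
      (fun μ hμ => ⟨μ, hmem μ hμ⟩) ?_ ?_ ?_ ?_ ?_
    · intro P hP
      exact (Finset.mem_filter.mp hP).2
    · intro μ hμ
      simp only [Finset.mem_filter, Finset.mem_univ, true_and]
      have : Finsupp.equivFunOnFinite.symm (μ : Fin (n + 1) → ℕ) = μ := by ext; simp
      rw [this]
      exact hμ
    · intro P _
      ext; simp
    · intro μ _
      ext; simp
    · intro P _
      rw [General_M, Matrix.of_apply, mul_comm]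
      rfl
  · refine Finset.sum_eq_zero fun P hP => ?_
    have := (Finset.mem_filter.mp hP).2
    rw [notMem_support_iff] at this
    rw [this, mul_zero]

private theorem General_spans {ι : Type} [Fintype ι] [DecidableEq ι] {n d : ℕ}
    (e : ι ≃ General_T n d) (u : ι → Fin (n + 1) → ℂ) :
    ((General_M d u).submatrix id e).det ≠ 0 ↔ Spans d u := by
  classical
  rw [← isUnit_iff_ne_zero, ← Matrix.isUnit_iff_isUnit_det, ← Matrix.mulVec_injective_iff_isUnit]
  have hsub : ∀ c : General_T n d → ℂ, ((General_M d u).submatrix id e).mulVec (c ∘ e) = (General_M d u).mulVec c := by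
    intro c
    funext j
    simp only [Matrix.mulVec, dotProduct, Matrix.submatrix_apply, id, Function.comp]
    exact e.sum_comp (fun P => General_M d u j P * c P)
  constructor
  · intro hs g hgh hg
    have h1 : ((General_M d u).submatrix id e).mulVec
        ((fun P : General_T n d => g.coeff (Finsupp.equivFunOnFinite.symm P.1)) ∘ e) =
        ((General_M d u).submatrix id e).mulVec 0 := by
      rw [hsub, Matrix.mulVec_zero]
      funext j
      rw [← General_eval d u g hgh j, hg, Pi.zero_apply]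
    have h2 := hs h1
    ext μ
    rw [coeff_zero]
    by_contra hμ
    have h3 : ∑ i, μ i = d := by
      have h4 : μ.degree = d := by
        rw [Finsupp.degree_eq_weight_one]
        exact hgh hμ
      rw [Finsupp.degree_eq_sum] at h4
      exact h4
    have h5 := congrFun h2 (e.symm ⟨μ, h3⟩)
    simp only [Function.comp, Equiv.apply_symm_apply, Pi.zero_apply] at h5
    have h6 : Finsupp.equivFunOnFinite.symm (μ : Fin (n + 1) → ℕ) = μ := by ext; simp
    rw [h6] at h5
    exact hμ h5
  · intro hI c c' hcc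
    have hcc0 : ((General_M d u).submatrix id e).mulVec (c - c') = 0 := by
      rw [Matrix.mulVec_sub]
      exact sub_eq_zero.mpr hcc
    set g : MvPolynomial (Fin (n + 1)) ℂ := ∑ P : General_T n d,
      monomial (Finsupp.equivFunOnFinite.symm P.1) ((c - c') (e.symm P)) with hg
    have hgh : g.IsHomogeneous d := by
      refine IsHomogeneous.sum _ _ _ fun P _ => ?_
      refine isHomogeneous_monomial _ ?_
      rw [Finsupp.degree_eq_sum]
      exact P.2
    have hcg : (fun P : General_T n d => g.coeff (Finsupp.equivFunOnFinite.symm P.1)) ∘ e =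
        c - c' := by
      funext k
      simp only [Function.comp]
      rw [hg, coeff_sum, Finset.sum_eq_single (e k)]
      · rw [coeff_monomial, if_pos rfl, Equiv.symm_apply_apply]
      · intro P _ hP
        rw [coeff_monomial, if_neg]
        intro h
        apply hP
        exact Subtype.ext (Finsupp.equivFunOnFinite.symm.injective h)
      · intro h
        exact absurd (Finset.mem_univ _) h
    have hg0 : g = 0 := by
      refine hI g hgh fun j => ?_
      rw [General_eval d u g hgh j, ← hsub, hcg, hcc0, Pi.zero_apply]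
    have h1 : c - c' = 0 := by
      rw [← hcg, hg0]
      funext k
      simp
    exact sub_eq_zero.mp h1

private theorem General_genPos {n N : ℕ} (hN : n ≤ N) (t : Fin (N + 1) → Fin (n + 1) → ℂ) :
    GenPos t ↔ ∀ e : Fin (n + 1) ↪ Fin (N + 1), (Matrix.of fun a i => t (e a) i).det ≠ 0 := by
  classical
  have key : ∀ e : Fin (n + 1) → Fin (N + 1), (Matrix.of fun a i => t (e a) i).det ≠ 0 ↔
      LinearIndependent ℂ (fun a => t (e a)) := by
    intro e
    rw [← isUnit_iff_ne_zero, ← Matrix.isUnit_iff_isUnit_det, ← Matrix.linearIndependent_rows_iff_isUnit]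
    rfl
  constructor
  · intro h e
    rw [key]
    have h1 := h (Finset.univ.map e) (by rw [Finset.card_map, Finset.card_univ, Fintype.card_fin])
    exact h1.comp (fun a => ⟨e a, Finset.mem_map_of_mem e (Finset.mem_univ a)⟩)
      (fun a b hab => e.injective (congrArg Subtype.val hab))
  · intro h S hS
    obtain ⟨S', hSS, hS'⟩ := Finset.exists_superset_card_eq hS (by rw [Fintype.card_fin]; omega)
    let φ : Fin (n + 1) ≃ S' := Fintype.equivOfCardEq (by rw [Fintype.card_fin, Fintype.card_coe, hS'])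
    have h1 := (key (fun a => (φ a : Fin (N + 1)))).mp
      (h ⟨fun a => (φ a : Fin (N + 1)), fun a b hab => φ.injective (Subtype.ext hab)⟩)
    have h2 := h1.comp (fun j : S => φ.symm ⟨j, hSS j.2⟩) (fun a b hab => by
      have := φ.symm.injective hab
      exact Subtype.ext (by simpa using this))
    have h3 : (fun j : S => t j) = (fun a => t (φ a)) ∘ fun j : S => φ.symm ⟨j, hSS j.2⟩ := by
      funext j
      simp
    rw [h3]
    exact h2

/-- General vectors are in general position, and the first `(n + d).choose n` of them lie on no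
hypersurface of degree `d`. -/
theorem exists_general {n N d q : ℕ} (hN : n ≤ N) (hq : q = (n + d).choose n)
    (hqN : q ≤ N + 1) :
    ∃ Δ : MvPolynomial (Fin (N + 1) × Fin (n + 1)) ℂ, Δ ≠ 0 ∧
      ∀ t : Fin (N + 1) → Fin (n + 1) → ℂ, eval (fun p => t p.1 p.2) Δ ≠ 0 ↔
        GenPos t ∧ Spans d fun j : firstIdx N q => t j := by
  classical
  have hcard : Fintype.card (firstIdx N q) = Fintype.card (General_T n d) := by
    rw [Fintype.card_coe, General_card_firstIdx hqN, General_card, hq]
  let e : firstIdx N q ≃ General_T n d := Fintype.equivOfCardEq hcard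
  let Δ₁ : (Fin (n + 1) ↪ Fin (N + 1)) → MvPolynomial (Fin (N + 1) × Fin (n + 1)) ℂ := fun φ =>
    (Matrix.of fun a i => (X (φ a, i) : MvPolynomial (Fin (N + 1) × Fin (n + 1)) ℂ)).det
  let Δ₂ : MvPolynomial (Fin (N + 1) × Fin (n + 1)) ℂ :=
    (Matrix.of fun (j j' : firstIdx N q) => ∏ i, (X ((j : Fin (N + 1)), i) :
      MvPolynomial (Fin (N + 1) × Fin (n + 1)) ℂ) ^ (e j').1 i).det
  have hev₁ : ∀ (φ : Fin (n + 1) ↪ Fin (N + 1)) (t : Fin (N + 1) → Fin (n + 1) → ℂ),
      eval (fun p => t p.1 p.2) (Δ₁ φ) = (Matrix.of fun a i => t (φ a) i).det := by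
    intro φ t
    rw [RingHom.map_det]
    congr 1
    ext a i
    simp
  have hev₂ : ∀ t : Fin (N + 1) → Fin (n + 1) → ℂ,
      eval (fun p => t p.1 p.2) Δ₂ = ((General_M d fun j : firstIdx N q => t j).submatrix id e).det := by
    intro t
    rw [RingHom.map_det]
    congr 1
    ext j j'
    simp [General_M]
  have hΔ : ∀ t : Fin (N + 1) → Fin (n + 1) → ℂ, eval (fun p => t p.1 p.2) ((∏ φ, Δ₁ φ) * Δ₂) ≠ 0 ↔
      GenPos t ∧ Spans d fun j : firstIdx N q => t j := by
    intro t
    rw [map_mul, mul_ne_zero_iff, map_prod, Finset.prod_ne_zero_iff, hev₂, General_spans, General_genPos hN]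
    refine and_congr_left fun _ => ?_
    constructor
    · intro h φ
      rw [← hev₁]
      exact h φ (Finset.mem_univ φ)
    · intro h φ _
      rw [hev₁]
      exact h φ
  refine ⟨(∏ φ, Δ₁ φ) * Δ₂, ?_, hΔ⟩
  refine mul_ne_zero (Finset.prod_ne_zero_iff.mpr fun φ _ => ?_) ?_
  · intro h0
    have h1 := hev₁ φ (fun j i => if j = φ i then 1 else 0)
    rw [h0, map_zero] at h1
    have h2 : (Matrix.of fun a i => if φ a = φ i then (1 : ℂ) else 0) = 1 := by
      ext a i
      rw [Matrix.of_apply, Matrix.one_apply]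
      simp [φ.injective.eq_iff]
    rw [h2, Matrix.det_one] at h1
    exact zero_ne_one h1
  · obtain ⟨x, hx⟩ := General_pts (T := General_T n d) (X := Fin (n + 1) → ℂ)
      (fun u P => ∏ i, u i ^ P.1 i) (by
        intro c hc
        set g : MvPolynomial (Fin (n + 1)) ℂ := ∑ P : General_T n d,
          monomial (Finsupp.equivFunOnFinite.symm P.1) (c P) with hg
        have hg0 : g = 0 := by
          refine MvPolynomial.funext fun u => ?_
          rw [hg, map_sum, map_zero, ← hc u]
          refine Finset.sum_congr rfl fun P _ => ?_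
          rw [eval_monomial, Finsupp.prod_fintype _ _ (fun i => pow_zero _)]
          rfl
        funext P
        have h1 : g.coeff (Finsupp.equivFunOnFinite.symm P.1) = c P := by
          rw [hg, coeff_sum, Finset.sum_eq_single P]
          · rw [coeff_monomial, if_pos rfl]
          · intro Q _ hQ
            rw [coeff_monomial, if_neg]
            intro h
            exact hQ (Subtype.ext (Finsupp.equivFunOnFinite.symm.injective h))
          · intro h
            exact absurd (Finset.mem_univ _) h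
        rw [← h1, hg0, coeff_zero]
        rfl)
    intro h0
    have h1 := hev₂ (fun j => if h : j ∈ firstIdx N q then x (e ⟨j, h⟩) else 0)
    rw [h0, map_zero] at h1
    apply hx
    rw [← Matrix.det_submatrix_equiv_self e, h1]
    congr 1
    ext j j'
    simp [General_M]

end Pool.Agent.H39.HC

end
end

section

/-!
# General diagonal forms
-/

open MvPolynomial

noncomputable section

namespace Pool.Agent.H39.HC

private theorem GenDiag_comp {σ τ : Type} (f : σ → MvPolynomial τ ℂ) (v : τ → ℂ)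
    (g : MvPolynomial σ ℂ) : eval v (aeval f g) = eval (fun s => eval v (f s)) g := by
  induction g using MvPolynomial.induction_on with
  | C a => simp
  | add p q hp hq => rw [map_add, map_add, map_add, hp, hq]
  | mul_X p i hp => rw [map_mul, map_mul, map_mul, hp, aeval_X, eval_X]

section Aux

variable {n M : ℕ}

/-- The indices `≤ n` and the `M` other ones. -/
private def GenDiag_e (n M : ℕ) : Fin (n + 1) ⊕ Fin M ≃ Fin (n + M + 1) :=
  finSumFinEquiv.trans (finCongr (by omega))

private def GenDiag_A1 {R : Type} [CommRing R] (a : Fin M → Fin (n + M + 1) → R) :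
    Matrix (Fin M) (Fin (n + 1)) R :=
  Matrix.of fun l i => a l (GenDiag_e n M (Sum.inl i))

private def GenDiag_A2 {R : Type} [CommRing R] (a : Fin M → Fin (n + M + 1) → R) :
    Matrix (Fin M) (Fin M) R :=
  Matrix.of fun l l' => a l (GenDiag_e n M (Sum.inr l'))

private def GenDiag_t {R : Type} [CommRing R] (a : Fin M → Fin (n + M + 1) → R) :
    Fin (n + M + 1) → Fin (n + 1) → R := fun j =>
  Sum.elim (fun i i' => if i = i' then (GenDiag_A2 a).det else 0)
    (fun l i' => -(((GenDiag_A2 a).adjugate * GenDiag_A1 a) l i')) ((GenDiag_e n M).symm j)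

private theorem GenDiag_nat {R S : Type} [CommRing R] [CommRing S] (f : R →+* S)
    (a : Fin M → Fin (n + M + 1) → R) (j : Fin (n + M + 1)) (i : Fin (n + 1)) :
    f (GenDiag_t a j i) = GenDiag_t (fun l j => f (a l j)) j i := by
  have h2 : GenDiag_A2 (fun l j => f (a l j)) = (GenDiag_A2 a).map f := rfl
  have h1 : GenDiag_A1 (fun l j => f (a l j)) = (GenDiag_A1 a).map f := rfl
  unfold GenDiag_t
  rcases (GenDiag_e n M).symm j with i' | l
  · simp only [Sum.elim_inl, h2]
    rw [apply_ite f, map_zero, RingHom.map_det]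
    rfl
  · simp only [Sum.elim_inr, h2, h1]
    rw [map_neg]
    have h3 : ((GenDiag_A2 a).map f).adjugate = (GenDiag_A2 a).adjugate.map f :=
      (RingHom.map_adjugate f (GenDiag_A2 a)).symm
    rw [h3, ← Matrix.map_mul]
    rfl

private theorem GenDiag_sum (a : Fin M → Fin (n + M + 1) → ℂ) (b : Fin (n + M + 1) → ℂ) :
    ∑ j, b j • GenDiag_t a j =
      (GenDiag_A2 a).det • (fun i => b (GenDiag_e n M (Sum.inl i))) -
        Matrix.vecMul (fun l => b (GenDiag_e n M (Sum.inr l)))
          ((GenDiag_A2 a).adjugate * GenDiag_A1 a) := by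
  funext i'
  rw [Finset.sum_apply, ← (GenDiag_e n M).sum_comp, Fintype.sum_sum_type]
  simp only [GenDiag_t, Equiv.symm_apply_apply, Sum.elim_inl, Sum.elim_inr, Pi.smul_apply,
    smul_eq_mul, Pi.sub_apply, Matrix.vecMul, dotProduct, mul_neg, Finset.sum_neg_distrib,
    mul_ite, mul_zero, Finset.sum_ite_eq', Finset.mem_univ, if_true]
  ring

private theorem GenDiag_rel (a : Fin M → Fin (n + M + 1) → ℂ) (ha : (GenDiag_A2 a).det ≠ 0)
    (b : Fin (n + M + 1) → ℂ) :
    ∑ j, b j • GenDiag_t a j = 0 ↔ b ∈ Submodule.span ℂ (Set.range a) := by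
  rw [GenDiag_sum, Submodule.mem_span_range_iff_exists_fun, sub_eq_zero]
  have hb : ∀ c : Fin M → ℂ, ∑ l, c l • a l = b ↔
      Matrix.vecMul c (GenDiag_A1 a) = (fun i => b (GenDiag_e n M (Sum.inl i))) ∧
        Matrix.vecMul c (GenDiag_A2 a) = (fun l => b (GenDiag_e n M (Sum.inr l))) := by
    intro c
    constructor
    · rintro rfl
      constructor
      · funext i
        simp [Matrix.vecMul, dotProduct, GenDiag_A1]
      · funext i
        simp [Matrix.vecMul, dotProduct, GenDiag_A2]
    · rintro ⟨h1, h2⟩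
      funext j
      obtain ⟨s, rfl⟩ := (GenDiag_e n M).surjective j
      rcases s with i | l
      · have h3 := congrFun h1 i
        simpa [Matrix.vecMul, dotProduct, GenDiag_A1] using h3
      · have h3 := congrFun h2 l
        simpa [Matrix.vecMul, dotProduct, GenDiag_A2] using h3
  simp only [hb]
  set D := (GenDiag_A2 a).det with hD
  constructor
  · intro h
    refine ⟨D⁻¹ • Matrix.vecMul (fun l => b (GenDiag_e n M (Sum.inr l)))
      (GenDiag_A2 a).adjugate, ?_, ?_⟩
    · rw [Matrix.smul_vecMul, Matrix.vecMul_vecMul, ← h, smul_smul, inv_mul_cancel₀ ha, one_smul]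
    · rw [Matrix.smul_vecMul, Matrix.vecMul_vecMul, Matrix.adjugate_mul, Matrix.vecMul_smul,
        Matrix.vecMul_one, smul_smul, ← hD, inv_mul_cancel₀ ha, one_smul]
  · rintro ⟨c, h1, h2⟩
    rw [← h1, ← h2, Matrix.vecMul_vecMul, ← Matrix.mul_assoc, Matrix.mul_adjugate,
      Matrix.smul_mul, Matrix.one_mul, Matrix.vecMul_smul]

private theorem GenDiag_norm {d q : ℕ} {Δ : MvPolynomial (Fin (n + M + 1) × Fin (n + 1)) ℂ}
    (hΔ : Δ ≠ 0)
    (h : ∀ t : Fin (n + M + 1) → Fin (n + 1) → ℂ, eval (fun p => t p.1 p.2) Δ ≠ 0 ↔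
      GenPos t ∧ Spans d fun j : firstIdx (n + M) q => t j) :
    ∃ t : Fin (n + M + 1) → Fin (n + 1) → ℂ, eval (fun p => t p.1 p.2) Δ ≠ 0 ∧
      ∀ i i', t (GenDiag_e n M (Sum.inl i)) i' = (1 : Matrix (Fin (n + 1)) (Fin (n + 1)) ℂ) i i' := by
  classical
  obtain ⟨t1, ht1⟩ : ∃ t : Fin (n + M + 1) → Fin (n + 1) → ℂ,
      eval (fun p => t p.1 p.2) Δ ≠ 0 := by
    by_contra hne
    push Not at hne
    apply hΔ
    apply MvPolynomial.funext
    intro x
    rw [map_zero]
    exact hne fun j i => x (j, i)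
  obtain ⟨hgp, hind⟩ := (h t1).mp ht1
  let G : Matrix (Fin (n + 1)) (Fin (n + 1)) ℂ :=
    Matrix.of fun i i' => t1 (GenDiag_e n M (Sum.inl i)) i'
  have hinj : Function.Injective fun i : Fin (n + 1) => GenDiag_e n M (Sum.inl i) := fun i i' hii =>
    Sum.inl_injective ((GenDiag_e n M).injective hii)
  have hG : LinearIndependent ℂ fun i : Fin (n + 1) => t1 (GenDiag_e n M (Sum.inl i)) := by
    let S : Finset (Fin (n + M + 1)) := Finset.univ.image fun i => GenDiag_e n M (Sum.inl i)
    have hS : S.card ≤ n + 1 := by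
      refine Finset.card_image_le.trans ?_
      simp
    have h1 := hgp S hS
    let κ : Fin (n + 1) → S := fun i =>
      ⟨GenDiag_e n M (Sum.inl i), Finset.mem_image_of_mem _ (Finset.mem_univ i)⟩
    have hκ : Function.Injective κ := fun i i' hii => hinj (congrArg Subtype.val hii)
    exact h1.comp κ hκ
  have hGu : IsUnit G := Matrix.linearIndependent_rows_iff_isUnit.mp hG
  have hGd : IsUnit G.det := (Matrix.isUnit_iff_isUnit_det G).mp hGu
  let t2 : Fin (n + M + 1) → Fin (n + 1) → ℂ := fun j => Matrix.vecMul (t1 j) G⁻¹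
  have hback : ∀ j, Matrix.vecMul (t2 j) G = t1 j := by
    intro j
    simp only [t2]
    rw [Matrix.vecMul_vecMul, Matrix.nonsing_inv_mul G hGd, Matrix.vecMul_one]
  refine ⟨t2, ?_, ?_⟩
  · rw [h]
    constructor
    · intro S hS
      have h1 := hgp S hS
      have h2 : Function.Injective (Matrix.vecMulLinear G⁻¹) := by
        intro v w hvw
        have h3 : Matrix.vecMul (Matrix.vecMul v G⁻¹) G = Matrix.vecMul (Matrix.vecMul w G⁻¹) G :=
          congrArg (fun u => Matrix.vecMul u G) hvw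
        rwa [Matrix.vecMul_vecMul, Matrix.vecMul_vecMul, Matrix.nonsing_inv_mul G hGd,
          Matrix.vecMul_one, Matrix.vecMul_one] at h3
      exact h1.map' (Matrix.vecMulLinear G⁻¹) (LinearMap.ker_eq_bot.mpr h2)
    · intro g hg hgy
      let g' : MvPolynomial (Fin (n + 1)) ℂ :=
        aeval (fun i' : Fin (n + 1) => ∑ i, C (G⁻¹ i i') * X i) g
      have hg' : g'.IsHomogeneous d := by
        have h3 := hg.aeval (fun i' : Fin (n + 1) =>
          (∑ i, C (G⁻¹ i i') * X i : MvPolynomial (Fin (n + 1)) ℂ)) (n := 1) (fun i' =>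
            IsHomogeneous.sum _ _ _ fun i _ => by
              have h4 := (isHomogeneous_C (Fin (n + 1)) (G⁻¹ i i')).mul (isHomogeneous_X ℂ i)
              simpa using h4)
        rw [one_mul] at h3
        exact h3
      have hev : ∀ v : Fin (n + 1) → ℂ, eval v g' = eval (Matrix.vecMul v G⁻¹) g := by
        intro v
        simp only [g']
        rw [GenDiag_comp]
        congr 2
        funext i'
        simp [Matrix.vecMul, dotProduct, mul_comm]
      have h0 := hind g' hg' fun j => by
        rw [hev]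
        exact hgy j
      refine MvPolynomial.funext fun v => ?_
      have h1 := hev (Matrix.vecMul v G)
      rw [h0, map_zero, Matrix.vecMul_vecMul, Matrix.mul_nonsing_inv G hGd,
        Matrix.vecMul_one] at h1
      rw [← h1, map_zero]
  · intro i i'
    have h1 : t2 (GenDiag_e n M (Sum.inl i)) = (G * G⁻¹) i := by
      simp only [t2]
      rw [Matrix.mul_apply_eq_vecMul]
      rfl
    rw [h1, Matrix.mul_nonsing_inv G hGd]

private theorem GenDiag_main {d q : ℕ} (hq : q = (n + d).choose n) (hqN : q ≤ n + M + 1) :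
    ∃ Δ : MvPolynomial (Fin M × Fin (n + M + 1)) ℂ, Δ ≠ 0 ∧
      ∀ a : Fin M → Fin (n + M + 1) → ℂ, eval (fun p => a p.1 p.2) Δ ≠ 0 →
        ∃ t : Fin (n + M + 1) → Fin (n + 1) → ℂ, GenPos t ∧ Spans d t ∧
          ∀ b : Fin (n + M + 1) → ℂ, ∑ j, b j • t j = 0 ↔
            b ∈ Submodule.span ℂ (Set.range a) := by
  classical
  obtain ⟨Δ, hΔ, hiff⟩ := exists_general (n := n) (N := n + M) (d := d) (q := q)
    (Nat.le_add_right n M) hq hqN
  let A : Fin M → Fin (n + M + 1) → MvPolynomial (Fin M × Fin (n + M + 1)) ℂ :=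
    fun l j => X (l, j)
  let Δ' : MvPolynomial (Fin M × Fin (n + M + 1)) ℂ :=
    (GenDiag_A2 A).det * aeval (fun p : Fin (n + M + 1) × Fin (n + 1) => GenDiag_t A p.1 p.2) Δ
  have hA : ∀ a : Fin M → Fin (n + M + 1) → ℂ,
      (fun l j => eval (fun p : Fin M × Fin (n + M + 1) => a p.1 p.2) (A l j)) = a := by
    intro a
    funext l j
    simp [A]
  have hev : ∀ a : Fin M → Fin (n + M + 1) → ℂ, eval (fun p => a p.1 p.2) Δ' =
      (GenDiag_A2 a).det * eval (fun p => GenDiag_t a p.1 p.2) Δ := by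
    intro a
    simp only [Δ']
    rw [map_mul]
    congr 1
    · rw [RingHom.map_det]
      congr 1
      ext l l'
      simp [GenDiag_A2, A]
    · rw [GenDiag_comp]
      congr 2
      funext p
      rw [GenDiag_nat, hA]
  refine ⟨Δ', ?_, ?_⟩
  · obtain ⟨t2, ht2, hone⟩ := GenDiag_norm hΔ hiff
    let a₀ : Fin M → Fin (n + M + 1) → ℂ := fun l j =>
      Sum.elim (fun i => -t2 (GenDiag_e n M (Sum.inr l)) i)
        (fun l' => (1 : Matrix (Fin M) (Fin M) ℂ) l l') ((GenDiag_e n M).symm j)
    have h2 : GenDiag_A2 a₀ = 1 := by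
      ext l l'
      simp [GenDiag_A2, a₀]
    have h1 : ∀ l i, GenDiag_A1 a₀ l i = -t2 (GenDiag_e n M (Sum.inr l)) i := by
      intro l i
      simp [GenDiag_A1, a₀]
    have ht : GenDiag_t a₀ = t2 := by
      funext j i'
      obtain ⟨s, rfl⟩ := (GenDiag_e n M).surjective j
      unfold GenDiag_t
      rw [Equiv.symm_apply_apply]
      rcases s with i | l
      · rw [Sum.elim_inl, h2, Matrix.det_one, hone, Matrix.one_apply]
      · rw [Sum.elim_inr, h2, Matrix.adjugate_one, Matrix.one_mul, h1, neg_neg]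
    intro h0
    have h3 := hev a₀
    rw [h0, map_zero, h2, Matrix.det_one, one_mul, ht] at h3
    exact ht2 h3.symm
  · intro a ha
    rw [hev] at ha
    have h1 := left_ne_zero_of_mul ha
    have h2 := right_ne_zero_of_mul ha
    obtain ⟨h3, h4⟩ := (hiff (GenDiag_t a)).mp h2
    exact ⟨GenDiag_t a, h3, fun g hg hg0 => h4 g hg fun j => hg0 j, GenDiag_rel a h1⟩

end Aux

/-- General diagonal forms belong to linear forms `lin (t j)` in general position whose coefficient
vectors lie on no hypersurface of degree `d`. -/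
theorem exists_general_diag {n N d : ℕ} (hN : n ≤ N) (hqN : (n + d).choose n ≤ N + 1) :
    ∃ Δ : MvPolynomial (Fin (N - n) × Fin (N + 1)) ℂ, Δ ≠ 0 ∧
      ∀ a : Fin (N - n) → Fin (N + 1) → ℂ, eval (fun p => a p.1 p.2) Δ ≠ 0 →
        ∃ t : Fin (N + 1) → Fin (n + 1) → ℂ, GenPos t ∧ Spans d t ∧
          ∀ b : Fin (N + 1) → ℂ, ∑ j, b j • t j = 0 ↔ b ∈ Submodule.span ℂ (Set.range a) := by
  obtain ⟨M, rfl⟩ := Nat.exists_eq_add_of_le hN
  rw [Nat.add_sub_cancel_left]
  exact GenDiag_main rfl hqN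

end Pool.Agent.H39.HC

end
end

section

/-!
# The cover is a smooth complete intersection
-/

open MvPolynomial

noncomputable section

namespace Pool.Agent.H39.HC

private theorem Geometry_eval {N m : ℕ} (b : Fin (N + 1) → ℂ) (x : Fin (N + 1) → ℂ) :
    eval x (diagForm b m) = ∑ j, b j * x j ^ m := by
  rw [diagForm, map_sum]
  refine Finset.sum_congr rfl fun j _ => ?_
  rw [map_mul, map_pow, eval_C, eval_X]

private theorem Geometry_lin {n N : ℕ} (t : Fin (N + 1) → Fin (n + 1) → ℂ) (b : Fin (N + 1) → ℂ)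
    (c : Fin (n + 1) → ℂ) : ∑ j, b j * lin (t j) c = ∑ i, (∑ j, b j • t j) i * c i := by
  simp only [lin, Finset.mul_sum, Finset.sum_apply, Pi.smul_apply, smul_eq_mul, Finset.sum_mul]
  rw [Finset.sum_comm]
  refine Finset.sum_congr rfl fun i _ => Finset.sum_congr rfl fun j _ => ?_
  ring

/-- The points of the cover. -/
theorem eval_diagForm_eq_zero_iff {n N m : ℕ} {t : Fin (N + 1) → Fin (n + 1) → ℂ}
    {a : Fin (N - n) → Fin (N + 1) → ℂ}
    (ha : ∀ b : Fin (N + 1) → ℂ, ∑ j, b j • t j = 0 ↔ b ∈ Submodule.span ℂ (Set.range a))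
    (x : Fin (N + 1) → ℂ) : (∀ l, eval x (diagForm (a l) m) = 0) ↔
        ∃ c : Fin (n + 1) → ℂ, ∀ j, x j ^ m = lin (t j) c := by
  simp only [Geometry_eval]
  constructor
  · intro h
    set Φ := Fintype.linearCombination ℂ t with hΦ
    let ψ : Module.Dual ℂ (Fin (N + 1) → ℂ) := Fintype.linearCombination ℂ fun j => x j ^ m
    have hψ : ∀ b, ψ b = ∑ j, b j * x j ^ m := fun b => by
      simp only [ψ, Fintype.linearCombination_apply, smul_eq_mul]
    have h1 : ψ ∈ (LinearMap.ker Φ).dualAnnihilator := by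
      rw [Submodule.mem_dualAnnihilator]
      intro b hb
      rw [LinearMap.mem_ker, hΦ, Fintype.linearCombination_apply, ha] at hb
      have h2 : Submodule.span ℂ (Set.range a) ≤ LinearMap.ker ψ := by
        rw [Submodule.span_le]
        rintro _ ⟨l, rfl⟩
        change a l ∈ LinearMap.ker ψ
        rw [LinearMap.mem_ker, hψ]
        exact h l
      exact LinearMap.mem_ker.1 (h2 hb)
    rw [← LinearMap.range_dualMap_eq_dualAnnihilator_ker] at h1
    obtain ⟨g, hg⟩ := h1
    refine ⟨fun i => g (Pi.single i 1), fun j => ?_⟩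
    have h2 : ψ (Pi.single j 1) = x j ^ m := by
      rw [hψ, Finset.sum_eq_single j]
      · rw [Pi.single_eq_same, one_mul]
      · intro i _ hi
        rw [Pi.single_eq_of_ne hi, zero_mul]
      · intro h
        exact absurd (Finset.mem_univ _) h
    rw [← h2, ← hg, LinearMap.dualMap_apply]
    have h3 : Φ (Pi.single j 1) = t j := by
      rw [hΦ, Fintype.linearCombination_apply_single, one_smul]
    rw [h3, lin]
    conv_lhs => rw [pi_eq_sum_univ' (t j), map_sum]
    refine Finset.sum_congr rfl fun i _ => ?_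
    rw [map_smul]
  · rintro ⟨c, hc⟩ l
    simp only [hc]
    rw [Geometry_lin, (ha (a l)).2 (Submodule.subset_span ⟨l, rfl⟩)]
    simp

end Pool.Agent.H39.HC

end
end

section

/-!
# The numerical condition
-/

namespace Pool.Agent.H39.HC

private theorem Num_step {b n r : ℕ} (hb : n ≤ b) (hr : 1 ≤ r) (hrn : r + 1 ≤ n + 1) :
    (r + 1) * wtK n (b + 1) (r + 1) ≤ r * wtK n (b + 1) r := by
  obtain ⟨j, rfl⟩ : ∃ j, n = r + j := ⟨n - r, by omega⟩
  unfold wtK
  have h1 : b + 1 + (r + j) - (r + 1) = b + j := by omega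
  have h2 : r + j + 1 - (r + 1) = j := by omega
  have h3 : b + 1 + (r + j) - r = b + j + 1 := by omega
  have h4 : r + j + 1 - r = j + 1 := by omega
  rw [h1, h2, h3, h4]
  have h5 := Nat.add_one_mul_choose_eq (b + j) j
  have h6 : (r + 1) * (j + 1) ≤ r * (b + j + 1) := by nlinarith only [hr, hb]
  have h7 : (r + 1) * (b + j).choose j * (j + 1) ≤ r * (b + j + 1).choose (j + 1) * (j + 1) := by
    calc (r + 1) * (b + j).choose j * (j + 1) = (r + 1) * (j + 1) * (b + j).choose j := by ring
      _ ≤ r * (b + j + 1) * (b + j).choose j := Nat.mul_le_mul_right _ h6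
      _ = r * ((b + j + 1) * (b + j).choose j) := by ring
      _ = r * ((b + j + 1).choose (j + 1) * (j + 1)) := by rw [h5]
      _ = _ := by ring
  exact Nat.le_of_mul_le_mul_right h7 (Nat.succ_pos j)

private theorem Num_dec {b n : ℕ} (hb : n ≤ b) {r : ℕ} (hr : 2 ≤ r) (hrn : r ≤ n + 1) :
    r * wtK n (b + 1) r ≤ 2 * wtK n (b + 1) 2 := by
  induction r, hr using Nat.le_induction with
  | base => exact le_refl _
  | succ r hr ih => exact (Num_step hb (by omega) hrn).trans (ih (by omega))

/-- The numerical condition. -/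
theorem numCond {n m b r : ℕ} (hn : 1 ≤ n) (hm : 2 ≤ m) (hb : n * (m + 1) < b * (m - 1))
    (hr : 2 ≤ r) (hrn : r ≤ n + 1) :
    m * r * wtK n (b + 1) r < (m - 1) * (n + b).choose n := by
  obtain ⟨k, rfl⟩ : ∃ k, n = k + 1 := ⟨n - 1, by omega⟩
  obtain ⟨m', rfl⟩ : ∃ m', m = m' + 2 := ⟨m - 2, by omega⟩
  have hm1 : m' + 2 - 1 = m' + 1 := by omega
  rw [hm1] at hb ⊢
  have hbn : k + 1 ≤ b := by
    by_contra hc
    push Not at hc
    have h1 : b * (m' + 1) ≤ (k + 1) * (m' + 1) := Nat.mul_le_mul_right _ hc.le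
    have h2 : (k + 1) * (m' + 1) ≤ (k + 1) * (m' + 2 + 1) := Nat.mul_le_mul_left _ (by omega)
    omega
  have h1 := Num_dec hbn hr hrn
  have h2 : wtK (k + 1) (b + 1) 2 = (b + k).choose k := by
    unfold wtK
    congr 1
    omega
  rw [h2] at h1
  have h3 := Nat.add_one_mul_choose_eq (b + k) k
  have h4 : (k + 1 + b).choose (k + 1) = (b + k + 1).choose (k + 1) := by
    congr 1
    omega
  rw [h4]
  have hpos : 0 < (b + k).choose k := Nat.choose_pos (by omega)
  have h5 : (m' + 2) * (2 * (b + k).choose k) * (k + 1) <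
      (m' + 1) * (b + k + 1).choose (k + 1) * (k + 1) := by
    calc (m' + 2) * (2 * (b + k).choose k) * (k + 1)
        = (2 * (m' + 2) * (k + 1)) * (b + k).choose k := by ring
      _ < ((m' + 1) * (b + k + 1)) * (b + k).choose k := by
        refine Nat.mul_lt_mul_of_pos_right ?_ hpos
        nlinarith only [hb]
      _ = (m' + 1) * ((b + k + 1) * (b + k).choose k) := by ring
      _ = (m' + 1) * ((b + k + 1).choose (k + 1) * (k + 1)) := by rw [h3]
      _ = _ := by ring
  have h6 := lt_of_mul_lt_mul_right h5 (Nat.zero_le _)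
  calc (m' + 2) * r * wtK (k + 1) (b + 1) r = (m' + 2) * (r * wtK (k + 1) (b + 1) r) := by ring
    _ ≤ (m' + 2) * (2 * (b + k).choose k) := Nat.mul_le_mul_left _ h1
    _ < _ := h6

end Pool.Agent.H39.HC

end

section

/-!
# Restriction of the linear forms to a linear subspace, and independent conditions
-/

open MvPolynomial

noncomputable section

namespace Pool.Agent.H39.HC

variable {ι : Type} {n : ℕ}

/-- The coefficients of the restriction of the linear form `lin v` to the subspace parametrised by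
`B`. -/
def restr {n' : ℕ} (B : Fin (n + 1) → Fin (n' + 1) → ℂ) (v : Fin (n + 1) → ℂ) :
    Fin (n' + 1) → ℂ :=
  fun l => ∑ i, v i * B i l

private theorem Restrict_finrank (n b : ℕ) :
    Module.finrank ℂ (homogeneousSubmodule (Fin (n + 1)) ℂ b) = (n + b).choose n := by
  classical
  have hs : {d : Fin (n + 1) →₀ ℕ | d.degree = b} =
      ((Finset.univ : Finset (Fin (n + 1))).finsuppAntidiag b : Set (Fin (n + 1) →₀ ℕ)) := by
    ext d
    simp only [Set.mem_ofPred_eq, Finset.mem_coe, Finset.mem_finsuppAntidiag, Finset.subset_univ,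
      and_true]
    rw [Finsupp.degree_eq_sum]
  rw [homogeneousSubmodule_eq_finsupp_supported, hs,
    LinearEquiv.finrank_eq (AddMonoidAlgebra.supportedEquivFinsupp (R := ℂ) (S := ℂ)
      ((Finset.univ : Finset (Fin (n + 1))).finsuppAntidiag b : Set (Fin (n + 1) →₀ ℕ))),
    Module.finrank_finsupp_self]
  refine (Fintype.card_coe ((Finset.univ : Finset (Fin (n + 1))).finsuppAntidiag b)).trans ?_
  rw [Finset.card_finsuppAntidiag_nat_eq_choose, Finset.card_univ, Fintype.card_fin,
    show n + 1 + b - 1 = n + b by omega, Nat.choose_symm_add]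

private theorem Restrict_basis {κ : Type} [Fintype κ] (v : κ → Fin (n + 1) → ℂ)
    (hv : LinearIndependent ℂ v) (hne : Submodule.span ℂ (Set.range v) ≠ ⊤) :
    ∃ (n' : ℕ) (b : Module.Basis (κ ⊕ Fin (n' + 1)) ℂ (Fin (n + 1) → ℂ)),
      Fintype.card κ + n' = n ∧ ∀ k, b (Sum.inl k) = v k := by
  obtain ⟨W', hW⟩ := Submodule.exists_isCompl (Submodule.span ℂ (Set.range v))
  have hpos : Module.finrank ℂ W' ≠ 0 := by
    intro h
    rw [Submodule.finrank_eq_zero] at h
    rw [h] at hW
    exact hne (eq_top_of_isCompl_bot hW)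
  obtain ⟨n', hn'⟩ := Nat.exists_eq_succ_of_ne_zero hpos
  refine ⟨n', ((Module.Basis.span hv).prod (Module.finBasisOfFinrankEq ℂ W' hn')).map
    (Submodule.prodEquivOfIsCompl _ W' hW), ?_, fun k => ?_⟩
  · have h1 := Submodule.finrank_add_eq_of_isCompl hW
    rw [finrank_span_eq_card hv, hn', Module.finrank_fintype_fun_eq_card, Fintype.card_fin] at h1
    omega
  · rw [Module.Basis.map_apply, Submodule.coe_prodEquivOfIsCompl', Module.Basis.prod_apply]
    simp [Module.Basis.span_apply]

private theorem Restrict_repr {κ : Type} [Fintype κ] (b : Module.Basis κ ℂ (Fin (n + 1) → ℂ))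
    (v : Fin (n + 1) → ℂ) (x : κ) :
    ∑ i, v i * b.repr (Pi.single i (1 : ℂ)) x = b.repr v x := by
  have h : v = ∑ i, v i • (Pi.single i (1 : ℂ) : Fin (n + 1) → ℂ) := by
    ext k
    simp [Finset.sum_apply, Pi.single_apply]
  conv_rhs => rw [h]
  rw [map_sum, Finsupp.finsetSum_apply]
  refine Finset.sum_congr rfl fun i _ => ?_
  rw [map_smul, Finsupp.smul_apply, smul_eq_mul]

/-- `lin (restr B v) y = lin v (B y)`. -/
theorem lin_restr {R : Type*} [CommRing R] [Algebra ℂ R] {n' : ℕ}
    (B : Fin (n + 1) → Fin (n' + 1) → ℂ) (v : Fin (n + 1) → ℂ) (y : Fin (n' + 1) → R) :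
    lin (restr B v) y = lin v fun i => lin (B i) y := by
  simp only [lin, restr, Finset.sum_smul, Finset.smul_sum, mul_smul]
  exact Finset.sum_comm

/-- The restriction of linear forms in general position, whose coefficient vectors lie on no
hypersurface of degree `b`, to the intersection of some of the hyperplanes. -/
theorem exists_restrict {b : ℕ} (hb1 : 1 ≤ b) {t : ι → Fin (n + 1) → ℂ} (ht : GenPos t)
    (hb : Spans b t) (J : Finset ι) (hJ : ∃ x : Fin (n + 1) → ℂ, x ≠ 0 ∧ ∀ j ∈ J, lin (t j) x = 0) :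
    ∃ (n' : ℕ) (B : Fin (n + 1) → Fin (n' + 1) → ℂ) (C : Fin (n' + 1) → Fin (n + 1) → ℂ)
      (D : Fin (n + 1) → ι → ℂ), n' ≤ n ∧
      (∀ l l', ∑ i, C l i * B i l' = if l = l' then 1 else 0) ∧
      (∀ i k, (if i = k then (1 : ℂ) else 0) = ∑ l, B i l * C l k + ∑ j ∈ J, D i j * t j k) ∧
      GenPos (fun j : {j // j ∉ J} => restr B (t j)) ∧
      Spans b (fun j : {j // j ∉ J} => restr B (t j)) := by
  classical
  obtain ⟨x, hx0, hx⟩ := hJ
  -- the span of vectors `t j`, `j` in a subset of `J`, is not everything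
  have hspan : ∀ S : Finset ι, S ⊆ J →
      Submodule.span ℂ (Set.range fun j : S => t j) ≠ ⊤ := by
    intro S hS htop
    let φ : (Fin (n + 1) → ℂ) →ₗ[ℂ] ℂ :=
      { toFun := fun w => lin w x
        map_add' := fun w w' => by simp [lin, add_mul, Finset.sum_add_distrib]
        map_smul' := fun c w => by simp [lin, mul_assoc, Finset.mul_sum] }
    have h1 : Submodule.span ℂ (Set.range fun j : S => t j) ≤ LinearMap.ker φ := by
      rw [Submodule.span_le]
      rintro _ ⟨j, rfl⟩
      exact hx j (hS j.2)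
    rw [htop, top_le_iff, LinearMap.ker_eq_top] at h1
    apply hx0
    ext i
    have h2 : φ (Pi.single i 1) = 0 := by rw [h1]; rfl
    have h3 : φ (Pi.single i 1) = x i := by
      change lin (Pi.single i (1 : ℂ)) x = x i
      simp [lin, Pi.single_apply]
    rw [← h3, h2]
    rfl
  have hJn : J.card ≤ n := by
    by_contra hcon
    obtain ⟨S, hSJ, hSc⟩ := Finset.exists_subset_card_eq (show n + 1 ≤ J.card by omega)
    refine hspan S hSJ ?_
    refine (ht S hSc.le).span_eq_top_of_card_eq_finrank' ?_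
    rw [Fintype.card_coe, hSc, Module.finrank_fintype_fun_eq_card, Fintype.card_fin]
  obtain ⟨n', β, hcard, hβ⟩ := Restrict_basis (fun j : J => t j) (ht J (by omega))
    (hspan J (le_refl J))
  rw [Fintype.card_coe] at hcard
  set B : Fin (n + 1) → Fin (n' + 1) → ℂ :=
    fun i l => β.repr (Pi.single i (1 : ℂ)) (Sum.inr l) with hB
  have hres : ∀ v l, restr B v l = β.repr v (Sum.inr l) := fun v l => Restrict_repr β v _
  have hresJ : ∀ j ∈ J, restr B (t j) = 0 := by
    intro j hj
    ext l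
    rw [hres, ← hβ ⟨j, hj⟩, β.repr_self]
    simp
  have hCB : ∀ l l', ∑ i, β (Sum.inr l) i * B i l' = if l = l' then 1 else 0 := by
    intro l l'
    have h1 := Restrict_repr β (β (Sum.inr l)) (Sum.inr l')
    rw [β.repr_self] at h1
    rw [hB]
    rw [h1, Finsupp.single_apply]
    simp
  have hker : ∀ v, restr B v = 0 → v ∈ Submodule.span ℂ (Set.range fun j : J => t j) := by
    intro v hv
    rw [← β.sum_repr v, Fintype.sum_sum_type]
    refine Submodule.add_mem _ ?_ ?_
    · refine Submodule.sum_mem _ fun j _ => Submodule.smul_mem _ _ ?_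
      rw [hβ]
      exact Submodule.subset_span ⟨j, rfl⟩
    · refine Submodule.sum_mem _ fun l _ => ?_
      rw [← hres, hv]
      simp
  refine ⟨n', B, fun l k => β (Sum.inr l) k,
    fun i j => if h : j ∈ J then β.repr (Pi.single i (1 : ℂ)) (Sum.inl ⟨j, h⟩) else 0,
    by omega, hCB, ?_, ?_, ?_⟩
  · intro i k
    have h1 := congrFun (β.sum_repr (Pi.single i (1 : ℂ))) k
    rw [Fintype.sum_sum_type] at h1
    simp only [Pi.add_apply, Finset.sum_apply, Pi.smul_apply, smul_eq_mul] at h1
    rw [Pi.single_apply] at h1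
    rw [show (if i = k then (1 : ℂ) else 0) = if k = i then 1 else 0 by
      simp only [eq_comm (a := i)], ← h1, add_comm]
    congr 1
    rw [← Finset.sum_coe_sort J]
    refine Finset.sum_congr rfl fun j _ => ?_
    dsimp only
    rw [hβ, dif_pos j.2]
  · intro S hS
    let Rm : (Fin (n + 1) → ℂ) →ₗ[ℂ] (Fin (n' + 1) → ℂ) :=
      { toFun := restr B
        map_add' := fun v w => by
          ext l
          simp only [hres, map_add, Finsupp.add_apply, Pi.add_apply]
        map_smul' := fun c v => by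
          ext l
          simp only [hres, map_smul, Finsupp.smul_apply, Pi.smul_apply, RingHom.id_apply] }
    set S' : Finset ι := S.map (Function.Embedding.subtype _) with hS'
    have hdisj : Disjoint J S' := by
      rw [Finset.disjoint_left]
      intro j hj hj'
      obtain ⟨y, -, hy⟩ := Finset.mem_map.1 hj'
      exact y.2 (by rw [show (y : ι) = j from hy]; exact hj)
    have hli := ht (J ∪ S') (by
      rw [Finset.card_union_of_disjoint hdisj, hS', Finset.card_map]
      omega)
    have hmem : ∀ j : S, ((j : {j // j ∉ J}) : ι) ∈ J ∪ S' := fun j =>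
      Finset.mem_union_right _ (Finset.mem_map.2 ⟨j, j.2, rfl⟩)
    let f : S → (J ∪ S' : Finset ι) := fun j => ⟨_, hmem j⟩
    have hf : Function.Injective f := by
      intro a b hab
      have := congrArg Subtype.val hab
      exact Subtype.ext (Subtype.ext this)
    have h1 : LinearIndependent ℂ (fun j : S => t ((j : {j // j ∉ J}) : ι)) := hli.comp f hf
    refine h1.map (f := Rm) ?_
    have hd := hli.disjoint_span_image
      (s := {y : (J ∪ S' : Finset ι) | (y : ι) ∈ S'}) (t := {y | (y : ι) ∈ J}) (by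
        rw [Set.disjoint_left]
        intro y hy hy'
        exact Finset.disjoint_left.1 hdisj hy' hy)
    refine hd.mono (Submodule.span_mono ?_) ?_
    · rintro _ ⟨j, rfl⟩
      exact ⟨f j, Finset.mem_map.2 ⟨j, j.2, rfl⟩, rfl⟩
    · intro v hv
      refine Submodule.span_mono ?_ (hker v hv)
      rintro _ ⟨j, rfl⟩
      exact ⟨⟨j, Finset.mem_union_left _ j.2⟩, j.2, rfl⟩
  · intro g hg hgj
    set h : MvPolynomial (Fin (n + 1)) ℂ :=
      aeval (fun l : Fin (n' + 1) => ∑ i, MvPolynomial.C (B i l) * X i) g with hh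
    have hhom : h.IsHomogeneous b := by
      have := hg.aeval (fun l : Fin (n' + 1) => ∑ i, MvPolynomial.C (B i l) * X i) (n := 1)
        (fun l => by
          refine IsHomogeneous.sum _ _ _ fun i _ => ?_
          have := (isHomogeneous_C (Fin (n + 1)) (B i l)).mul (isHomogeneous_X ℂ i)
          rwa [zero_add] at this)
      rwa [one_mul] at this
    have hev : ∀ v, eval v h = eval (restr B v) g := by
      intro v
      rw [hh, ← MvPolynomial.coe_aeval_eq_eval, ← MvPolynomial.coe_aeval_eq_eval]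
      change (aeval v) (aeval _ g) = aeval (restr B v) g
      rw [← AlgHom.comp_apply, MvPolynomial.comp_aeval]
      congr 2
      funext l
      simp only [map_sum, map_mul, aeval_X, aeval_C, Algebra.algebraMap_self, RingHom.id_apply,
        restr]
      exact Finset.sum_congr rfl fun i _ => mul_comm _ _
    have h0 : h = 0 := by
      refine hb h hhom fun j => ?_
      rw [hev]
      by_cases hj : j ∈ J
      · rw [hresJ j hj]
        rw [MvPolynomial.eval_zero, constantCoeff_eq]
        exact hg.coeff_eq_zero (by rw [map_zero]; omega)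
      · exact hgj ⟨j, hj⟩
    apply MvPolynomial.funext
    intro y
    have h2 : restr B (fun i => ∑ l, y l * β (Sum.inr l) i) = y := by
      ext l'
      simp only [restr, Finset.sum_mul]
      rw [Finset.sum_comm]
      have : ∀ l, ∑ i, y l * β (Sum.inr l) i * B i l' = y l * if l = l' then 1 else 0 := by
        intro l
        rw [← hCB, Finset.mul_sum]
        exact Finset.sum_congr rfl fun i _ => mul_assoc _ _ _
      simp only [this]
      simp
    rw [← h2, ← hev, h0, map_zero, map_zero]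

/-- The coordinates of the points of the subspace. -/
theorem eq_lin_of_restrict {R : Type*} [CommRing R] [Algebra ℂ R] {n' : ℕ} {J : Finset ι}
    {t : ι → Fin (n + 1) → ℂ} {B : Fin (n + 1) → Fin (n' + 1) → ℂ}
    {C : Fin (n' + 1) → Fin (n + 1) → ℂ} {D : Fin (n + 1) → ι → ℂ}
    (h : ∀ i k, (if i = k then (1 : ℂ) else 0) = ∑ l, B i l * C l k + ∑ j ∈ J, D i j * t j k)
    {x : Fin (n + 1) → R} (hx : ∀ j ∈ J, lin (t j) x = 0) (i : Fin (n + 1)) :
    x i = lin (B i) fun l => lin (C l) x := by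
  have h1 : x i = ∑ k, (if i = k then (1 : ℂ) else 0) • x k := by
    simp
  rw [h1]
  simp only [h, add_smul, Finset.sum_add_distrib, Finset.sum_smul, mul_smul]
  have h2 : ∑ k, ∑ j ∈ J, D i j • t j k • x k = 0 := by
    rw [Finset.sum_comm]
    refine Finset.sum_eq_zero fun j hj => ?_
    rw [← Finset.smul_sum]
    have := hx j hj
    rw [lin] at this
    rw [this, smul_zero]
  rw [h2, add_zero, Finset.sum_comm]
  simp only [lin, Finset.smul_sum]

/-- Points that lie on no hypersurface of degree `b` contain points that impose independent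
conditions on forms of degree `b`, as many as possible. -/
theorem exists_indep [Finite ι] {b : ℕ} {t : ι → Fin (n + 1) → ℂ} (hb : Spans b t) :
    ∃ T : Finset ι, T.card = (n + b).choose n ∧ Indep b fun j : T => t j := by
  classical
  let V := homogeneousSubmodule (Fin (n + 1)) ℂ b
  have hVf : Module.Finite ℂ V := Module.Finite.iff_fg.2 (homogeneousSubmodule_fg _ _ b)
  let φ : ι → Module.Dual ℂ V := fun j => (aeval (t j) : MvPolynomial _ ℂ →ₐ[ℂ] ℂ).toLinearMap ∘ₗ
    V.subtype
  have hφ : ∀ j (g : V), φ j g = eval (t j) (g : MvPolynomial (Fin (n + 1)) ℂ) := by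
    intro j g
    change aeval (t j) (g : MvPolynomial (Fin (n + 1)) ℂ) = _
    rw [← MvPolynomial.coe_aeval_eq_eval]
    rfl
  obtain ⟨κ, a, ha, hsp, hli⟩ := exists_linearIndependent' ℂ φ
  have hκ : Finite κ := Finite.of_injective a ha
  let hκ' := Fintype.ofFinite κ
  let E : V →ₗ[ℂ] (κ → ℂ) := LinearMap.pi fun k => φ (a k)
  have hEinj : Function.Injective E := by
    rw [← LinearMap.ker_eq_bot, LinearMap.ker_eq_bot']
    intro g hg
    have h1 : ∀ ψ ∈ Submodule.span ℂ (Set.range φ), ψ g = 0 := by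
      intro ψ hψ
      rw [← hsp] at hψ
      induction hψ using Submodule.span_induction with
      | mem ψ hψ =>
        obtain ⟨k, rfl⟩ := hψ
        exact congrFun hg k
      | zero => rfl
      | add ψ ψ' _ _ h h' => rw [LinearMap.add_apply, h, h', add_zero]
      | smul c ψ _ h => rw [LinearMap.smul_apply, h, smul_zero]
    apply Subtype.ext
    refine hb g g.2 fun j => ?_
    rw [← hφ]
    exact h1 _ (Submodule.subset_span ⟨j, rfl⟩)
  have hle1 : Module.finrank ℂ V ≤ Fintype.card κ := by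
    have := LinearMap.finrank_le_finrank_of_injective hEinj
    rwa [Module.finrank_fintype_fun_eq_card] at this
  have hle2 : Fintype.card κ ≤ Module.finrank ℂ V := by
    have := hli.fintype_card_le_finrank
    rwa [Subspace.dual_finrank_eq] at this
  have hcard : Fintype.card κ = Module.finrank ℂ V := le_antisymm hle2 hle1
  have hEsurj : Function.Surjective E :=
    (LinearMap.injective_iff_surjective_of_finrank_eq_finrank (by
      rw [Module.finrank_fintype_fun_eq_card, hcard])).1 hEinj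
  refine ⟨Finset.univ.image a, ?_, ?_⟩
  · rw [Finset.card_image_of_injective _ ha, Finset.card_univ, hcard, Restrict_finrank]
  · intro y
    obtain ⟨g, hg⟩ := hEsurj fun k => y ⟨a k, Finset.mem_image_of_mem a (Finset.mem_univ k)⟩
    refine ⟨g, g.2, ?_⟩
    rintro ⟨j, hj⟩
    obtain ⟨k, -, rfl⟩ := Finset.mem_image.1 hj
    have := congrFun hg k
    rw [← hφ]
    exact this

end Pool.Agent.H39.HC

end
end

section

/-!
# Project SY, module Vol3: comparison of volumes for finitely many charts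

Model: `card_le_of_vol` in module SX.Vol (its private lemmas `vol_det`, `vol_lin`, `vol_prod`,
`vol_finrank`, copy what is needed).  `Φ i u = (eval (W i u) (B a))_a`, `z₀ = B (y)`.  Suppose
`2 n d < k`.  `L` may be replaced by `max L 1`, `C` by `max C 0`.  Let `K`, `ρ` be such that
`∏ j, ‖eval y' (G j)‖ ≤ (K ‖y' - y‖) ^ k` for `‖y' - y‖ < ρ`.  For small `ε > 0` (such that
`t ^ d ≤ L ε` implies `t < ρ`; `d ≥ 1`: for `d = 0` the hypothesis `hlift` is false at `z = z₀`, as
`1 ≤ L * 0` is false) let `S i = {u ∈ U i | ‖W i u - y‖ ^ d ≤ L ε}` (measurable).  The ball of radius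
`ε` around `z₀` is contained in the union of the `Φ i '' S i`, so its volume `c ε ^ (2 n)` is at most
`∑ i, ∫⁻ u in S i, |det|` (`MeasureTheory.addHaar_image_le_lintegral_abs_det_fderiv`), which is at most
`∑ i, vol (U i) * C * (K * (L ε) ^ (1 / d)) ^ k`.  So (`d`-th powers) `c ^ d ε ^ (2 n d) ≤
A ε ^ k` for all small `ε`, a contradiction for `ε → 0`.
-/

open MvPolynomial Filter Topology MeasureTheory

noncomputable section

namespace Pool.Agent.H39.SY

private theorem vol3_finrank (n : ℕ) : Module.finrank ℝ (Fin n → ℂ) = 2 * n := by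
  rw [Module.finrank_pi_fintype]
  simp [Complex.finrank_real_complex, mul_comm]

private theorem vol3_det {n : ℕ} (A : (Fin n → ℂ) →L[ℂ] (Fin n → ℂ)) :
    |(A.restrictScalars ℝ).det| = ‖A.det‖ ^ 2 := by
  have h1 : (A.restrictScalars ℝ).det = Algebra.norm ℝ A.det := by
    rw [ContinuousLinearMap.det, ContinuousLinearMap.det, ContinuousLinearMap.coe_restrictScalars]
    exact LinearMap.det_restrictScalars
  rw [h1, Algebra.norm_complex_apply, Complex.normSq_eq_norm_sq, abs_of_nonneg (sq_nonneg _)]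

/-- a polynomial which vanishes at a point is locally at most a multiple of the distance -/
private theorem vol3_lin {n : ℕ} (Q : MvPolynomial (Fin n) ℂ) {y : Fin n → ℂ}
    (hQ : eval y Q = 0) : ∃ L : ℝ, 0 ≤ L ∧ ∀ᶠ z in 𝓝 y, ‖eval z Q‖ ≤ L * ‖z - y‖ := by
  have h1 : DifferentiableAt ℂ (fun z : Fin n → ℂ => eval z Q) y :=
    (AnalyticOnNhd.eval_mvPolynomial Q y (Set.mem_univ _)).differentiableAt
  obtain ⟨L, hL⟩ := h1.isBigO_sub.bound
  refine ⟨|L|, abs_nonneg L, hL.mono fun z hz => ?_⟩
  rw [hQ, sub_zero] at hz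
  exact hz.trans (mul_le_mul_of_nonneg_right (le_abs_self L) (norm_nonneg _))

private theorem vol3_prod {n k : ℕ} (G : Fin k → MvPolynomial (Fin n) ℂ) {y : Fin n → ℂ}
    (hG : ∀ j, eval y (G j) = 0) :
    ∃ L : ℝ, 0 ≤ L ∧ ∀ᶠ z in 𝓝 y, ∏ j, ‖eval z (G j)‖ ≤ (L * ‖z - y‖) ^ k := by
  choose L hL0 hL using fun j => vol3_lin (G j) (hG j)
  refine ⟨∑ j, L j, Finset.sum_nonneg fun j _ => hL0 j, ?_⟩
  filter_upwards [eventually_all.2 hL] with z hz
  calc ∏ j, ‖eval z (G j)‖ ≤ ∏ _j : Fin k, ((∑ j, L j) * ‖z - y‖) := by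
        refine Finset.prod_le_prod (fun j _ => norm_nonneg _) fun j _ => (hz j).trans ?_
        exact mul_le_mul_of_nonneg_right
          (Finset.single_le_sum (fun i _ => hL0 i) (Finset.mem_univ j)) (norm_nonneg _)
    _ = ((∑ j, L j) * ‖z - y‖) ^ k := by
        rw [Finset.prod_const, Finset.card_univ, Fintype.card_fin]

/-- the volume of the image of one chart -/
private theorem vol3_chart {n M k : ℕ} {W : (Fin n → ℂ) → Fin (M + 1) → ℂ} {y : Fin (M + 1) → ℂ}
    (B : Fin n → MvPolynomial (Fin (M + 1)) ℂ) (G : Fin k → MvPolynomial (Fin (M + 1)) ℂ)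
    {U : Set (Fin n → ℂ)} (hUo : IsOpen U) (hW : ∀ u ∈ U, AnalyticAt ℂ W u) {C : ℝ}
    (hJ : ∀ u ∈ U, ‖(fderiv ℂ (fun u' a => eval (W u') (B a)) u).det‖ ^ 2 ≤
      C * ∏ j, ‖eval (W u) (G j)‖) {K ρ τ : ℝ} (hK : 0 ≤ K) (hτ : 0 < τ) (hτρ : τ < ρ)
    (hG : ∀ y' ∈ Metric.ball y ρ, ∏ j, ‖eval y' (G j)‖ ≤ (K * ‖y' - y‖) ^ k) :
    volume ((fun u' a => eval (W u') (B a)) '' (U ∩ W ⁻¹' Metric.ball y τ)) ≤
      ENNReal.ofReal (|C| * (K * τ) ^ k) * volume U := by
  have hΦ : ∀ u ∈ U, DifferentiableAt ℂ (fun u' (a : Fin n) => eval (W u') (B a)) u := by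
    intro u hu
    refine differentiableAt_pi.2 fun a => ?_
    have h1 : DifferentiableAt ℂ (fun z : Fin (M + 1) → ℂ => eval z (B a)) (W u) :=
      (AnalyticOnNhd.eval_mvPolynomial (B a) (W u) (Set.mem_univ _)).differentiableAt
    exact h1.comp u (hW u hu).differentiableAt
  have hcont : ContinuousOn W U := fun x hx => (hW x hx).continuousAt.continuousWithinAt
  have hSo : IsOpen (U ∩ W ⁻¹' Metric.ball y τ) := hcont.isOpen_inter_preimage hUo Metric.isOpen_ball
  refine (addHaar_image_le_lintegral_abs_det_fderiv volume hSo.measurableSet fun x hx =>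
    ((hΦ x hx.1).hasFDerivAt.restrictScalars ℝ).hasFDerivWithinAt).trans ?_
  have h4 : ∀ x ∈ U ∩ W ⁻¹' Metric.ball y τ, ENNReal.ofReal
      |((fderiv ℂ (fun u' a => eval (W u') (B a)) x).restrictScalars ℝ).det| ≤
        ENNReal.ofReal (|C| * (K * τ) ^ k) := by
    intro x hx
    apply ENNReal.ofReal_le_ofReal
    rw [vol3_det]
    refine (hJ x hx.1).trans ?_
    have h5 : W x ∈ Metric.ball y τ := hx.2
    have h6 := hG (W x) (Metric.ball_subset_ball hτρ.le h5)
    have h7 : ‖W x - y‖ ≤ τ := by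
      rw [Metric.mem_ball, dist_eq_norm] at h5
      exact h5.le
    have h8 : ∏ j, ‖eval (W x) (G j)‖ ≤ (K * τ) ^ k :=
      h6.trans (pow_le_pow_left₀ (mul_nonneg hK (norm_nonneg _))
        (mul_le_mul_of_nonneg_left h7 hK) k)
    have h9 : 0 ≤ ∏ j, ‖eval (W x) (G j)‖ := Finset.prod_nonneg fun j _ => norm_nonneg _
    exact (mul_le_mul_of_nonneg_right (le_abs_self C) h9).trans
      (mul_le_mul_of_nonneg_left h8 (abs_nonneg C))
  refine (setLIntegral_mono' hSo.measurableSet h4).trans ?_
  rw [setLIntegral_const]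
  gcongr
  exact Set.inter_subset_left

theorem card_le_of_vol3 {n M k d t : ℕ} (hn : 1 ≤ n)
    {W : Fin t → (Fin n → ℂ) → Fin (M + 1) → ℂ} {y : Fin (M + 1) → ℂ}
    (B : Fin n → MvPolynomial (Fin (M + 1)) ℂ) (G : Fin k → MvPolynomial (Fin (M + 1)) ℂ)
    (hG : ∀ j, eval y (G j) = 0) {U : Fin t → Set (Fin n → ℂ)} (hUo : ∀ i, IsOpen (U i))
    (hUb : ∀ i, Bornology.IsBounded (U i)) (hW : ∀ i, ∀ u ∈ U i, AnalyticAt ℂ (W i) u)
    {C : Fin t → ℝ}
    (hJ : ∀ i, ∀ u ∈ U i, ‖(fderiv ℂ (fun u' a => eval (W i u') (B a)) u).det‖ ^ 2 ≤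
      C i * ∏ j, ‖eval (W i u) (G j)‖) {L : ℝ}
    (hlift : ∀ᶠ z in 𝓝 (fun a => eval y (B a)), ∃ i, ∃ u ∈ U i,
      (∀ a, eval (W i u) (B a) = z a) ∧ ‖W i u - y‖ ^ d ≤ L * ‖z - fun a => eval y (B a)‖) :
    k ≤ 2 * n * d := by
  by_contra hk
  push Not at hk
  set z₀ : Fin n → ℂ := fun a => eval y (B a) with hz₀
  -- the case `d = 0`
  have hd : 1 ≤ d := by
    by_contra hd
    have hd0 : d = 0 := by omega
    obtain ⟨i, u, _, _, h2⟩ := hlift.self_of_nhds
    rw [hd0, pow_zero, sub_self, norm_zero, mul_zero] at h2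
    exact absurd h2 (by norm_num)
  obtain ⟨K, hK0, hK⟩ := vol3_prod G hG
  obtain ⟨ρ, hρ, hK'⟩ := Metric.eventually_nhds_iff_ball.1 hK
  obtain ⟨δ, hδ, hlift'⟩ := Metric.eventually_nhds_iff_ball.1 hlift
  set L' : ℝ := max L 1 with hL'
  have hL1 : 1 ≤ L' := le_max_right _ _
  have hL0 : 0 < L' := by linarith only [hL1]
  have hVfin : ∀ i, volume (U i) < ⊤ := fun i => (hUb i).measure_lt_top
  set V : Fin t → ℝ := fun i => (volume (U i)).toReal with hV
  set c : ℝ := (volume (Metric.ball (0 : Fin n → ℂ) 1)).toReal with hc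
  have hc0 : 0 < c := ENNReal.toReal_pos (Metric.measure_ball_pos _ _ one_pos).ne'
    measure_ball_lt_top.ne
  have hV0 : ∀ i, 0 ≤ V i := fun i => ENNReal.toReal_nonneg
  set A : ℝ := ∑ i, |C i| * K ^ k * V i with hA
  have hA0 : 0 ≤ A := Finset.sum_nonneg fun i _ => mul_nonneg (by positivity) (hV0 i)
  -- the key inequality
  have key : ∀ τ : ℝ, 0 < τ → τ < ρ → τ < δ → τ < 1 →
      (τ ^ d / L') ^ (2 * n) * c ≤ A * τ ^ k := by
    intro τ hτ h1 h2 h3
    set ε : ℝ := τ ^ d / L' with hε
    have hε0 : 0 < ε := by positivity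
    have hεδ : ε < δ := by
      refine lt_of_le_of_lt ?_ h2
      rw [hε, div_le_iff₀ hL0]
      have h4 : τ ^ d ≤ τ ^ 1 := pow_le_pow_of_le_one hτ.le h3.le hd
      rw [pow_one] at h4
      nlinarith only [h4, hL1, hτ]
    have hBS : Metric.ball z₀ ε ⊆ ⋃ i, (fun u' a => eval (W i u') (B a)) ''
        (U i ∩ W i ⁻¹' Metric.ball y τ) := by
      intro z hz
      obtain ⟨i, u, hu, h4, h5⟩ := hlift' z (Metric.ball_subset_ball hεδ.le hz)
      rw [Set.mem_iUnion]
      refine ⟨i, u, ⟨hu, ?_⟩, funext h4⟩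
      rw [Set.mem_preimage, Metric.mem_ball, dist_eq_norm]
      rw [Metric.mem_ball, dist_eq_norm] at hz
      have h6 : ‖W i u - y‖ ^ d < τ ^ d := by
        calc ‖W i u - y‖ ^ d ≤ L * ‖z - z₀‖ := h5
          _ ≤ L' * ‖z - z₀‖ := mul_le_mul_of_nonneg_right (le_max_left _ _) (norm_nonneg _)
          _ < L' * ε := mul_lt_mul_of_pos_left hz hL0
          _ = τ ^ d := by rw [hε, mul_div_cancel₀ _ hL0.ne']
      exact lt_of_pow_lt_pow_left₀ d hτ.le h6
    have h4 : volume (Metric.ball z₀ ε) ≤ ENNReal.ofReal (A * τ ^ k) := by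
      refine (measure_mono hBS).trans ((measure_iUnion_fintype_le _ _).trans ?_)
      have h5 : ∀ i, volume ((fun u' a => eval (W i u') (B a)) ''
          (U i ∩ W i ⁻¹' Metric.ball y τ)) ≤ ENNReal.ofReal (|C i| * (K * τ) ^ k * V i) := by
        intro i
        have h6 := vol3_chart B G (hUo i) (hW i) (hJ i) hK0 hτ h1 hK'
        have h7 : volume (U i) = ENNReal.ofReal (V i) := (ENNReal.ofReal_toReal (hVfin i).ne).symm
        rw [h7, ← ENNReal.ofReal_mul (by positivity)] at h6
        exact h6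
      refine (Finset.sum_le_sum fun i _ => h5 i).trans ?_
      rw [← ENNReal.ofReal_sum_of_nonneg fun i _ => mul_nonneg (by positivity) (hV0 i)]
      apply ENNReal.ofReal_le_ofReal
      rw [hA, Finset.sum_mul]
      refine le_of_eq (Finset.sum_congr rfl fun i _ => ?_)
      rw [mul_pow]
      ring
    rw [Measure.addHaar_ball_of_pos volume _ hε0, vol3_finrank] at h4
    have h7 := ENNReal.toReal_mono ENNReal.ofReal_ne_top h4
    rw [ENNReal.toReal_mul, ENNReal.toReal_ofReal (by positivity),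
      ENNReal.toReal_ofReal (by positivity)] at h7
    exact h7
  -- let `τ` tend to `0`
  set c' : ℝ := c / L' ^ (2 * n) with hc'
  have hc'0 : 0 < c' := by positivity
  have key2 : ∀ τ : ℝ, 0 < τ → τ < ρ → τ < δ → τ < 1 → c' ≤ A * τ := by
    intro τ hτ h1 h2 h3
    have h4 := key τ hτ h1 h2 h3
    have h5 : τ ^ k ≤ τ ^ (2 * n * d + 1) := pow_le_pow_of_le_one hτ.le h3.le hk
    have h6 : (τ ^ d / L') ^ (2 * n) * c = c' * τ ^ (2 * n * d) := by
      rw [hc', div_pow, ← pow_mul, mul_comm d (2 * n)]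
      ring
    rw [h6] at h4
    have h7 : c' * τ ^ (2 * n * d) ≤ (A * τ) * τ ^ (2 * n * d) := by
      calc c' * τ ^ (2 * n * d) ≤ A * τ ^ k := h4
        _ ≤ A * τ ^ (2 * n * d + 1) := mul_le_mul_of_nonneg_left h5 hA0
        _ = (A * τ) * τ ^ (2 * n * d) := by ring
    exact le_of_mul_le_mul_right h7 (pow_pos hτ _)
  have hτ0 : 0 < min (min (ρ / 2) (δ / 2)) (min (1 / 2) (c' / (2 * (A + 1)))) := by
    have : 0 < c' / (2 * (A + 1)) := by positivity
    exact lt_min (lt_min (by positivity) (by positivity)) (lt_min (by norm_num) this)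
  set τ : ℝ := min (min (ρ / 2) (δ / 2)) (min (1 / 2) (c' / (2 * (A + 1)))) with hτ
  have e1 : τ ≤ ρ / 2 := (min_le_left _ _).trans (min_le_left _ _)
  have e2 : τ ≤ δ / 2 := (min_le_left _ _).trans (min_le_right _ _)
  have e3 : τ ≤ 1 / 2 := (min_le_right _ _).trans (min_le_left _ _)
  have e4 : τ ≤ c' / (2 * (A + 1)) := (min_le_right _ _).trans (min_le_right _ _)
  have h10 := key2 τ hτ0 (by linarith only [hτ0, e1]) (by linarith only [hτ0, e2]) (by linarith only [hτ0, e3])
  have h12 : (A + 1) * τ ≤ (A + 1) * (c' / (2 * (A + 1))) :=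
    mul_le_mul_of_nonneg_left e4 (by linarith only [hA0, hτ0, e3])
  have h13 : (A + 1) * (c' / (2 * (A + 1))) = c' / 2 := by
    field_simp
  rw [h13] at h12
  nlinarith only [hc'0, hτ0, h10, h12]

end Pool.Agent.H39.SY

end
end

section

/-!
# Project DG, B4: existence of the Chow form

Over `ℂ`, for `Δ (v) ≠ 0`: `‖a (v) ∏ dot (tpt N v u) w‖ ≤ ‖a (v)‖ ∏ ((n + 2) C max 1 ‖u‖ ‖w‖) ≤ C' ‖v‖ ^ κ ‖w‖ ^ κ` by
`size_abs`, `mahler_le`, `bound_above`. With `resW_eq`: `‖P (v, w)‖ ≤ C' ‖v‖ ^ κ ‖w‖ ^ κ ‖Q (v)‖`, `P = a * resW`,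
`Q = res0` (polynomials in `v, w` through `rename Sum.inl`); `dvd_of_bounded` with `D = rename Sum.inl (Del κ N)`. `rename` along an
injective map is injective, so `Q ≠ 0`.
-/

open MvPolynomial

noncomputable section

namespace Pool.Agent.H5.DG

variable {n κ : ℕ} {N : Polynomial (PV n)}

private theorem norm_dot_le (t w : Fin (n + 2) → ℂ) : ‖dot t w‖ ≤ (n + 2) * ‖t‖ * ‖w‖ := by
  rw [dot]
  refine (norm_sum_le _ _).trans ?_
  refine (Finset.sum_le_sum (g := fun _ => ‖t‖ * ‖w‖) fun a _ => ?_).trans ?_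
  · rw [norm_mul]
    exact mul_le_mul (norm_le_pi_norm t a) (norm_le_pi_norm w a) (norm_nonneg _) (norm_nonneg _)
  · rw [Finset.sum_const, Finset.card_univ, Fintype.card_fin, nsmul_eq_mul]
    push_cast
    exact le_of_eq (by ring)

private theorem prod_max_le (hκ : 1 ≤ κ) (hN : IsPreNorm κ N) {C : ℝ}
    (hC : ∀ (v : Fin (n + 2) → ℂ) (b : ℕ), ‖MvPolynomial.eval v (N.coeff b)‖ ≤ C * ‖v‖ ^ κ)
    (v : Fin (n + 2) → ℂ) (hΔ : MvPolynomial.aeval v (Del κ N) ≠ 0) :
    ‖MvPolynomial.aeval v (N.coeff κ)‖ * ∏ u ∈ rts N v, max 1 ‖u‖ ≤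
      (κ + 1) * (C * ‖v‖ ^ κ) := by
  classical
  obtain ⟨h1, h2⟩ := atV_natDegree hN v (coeff_ne_zero v hΔ)
  have h3 := mahler_le (f := atV N v) h1 (H := C * ‖v‖ ^ κ) (by
    intro b
    rw [atV, Polynomial.coeff_map]
    have h4 := hC v b
    rw [← MvPolynomial.coe_aeval_eq_eval] at h4
    exact h4)
  rw [h2] at h3
  have h5 : (∏ u ∈ rts N v, max 1 ‖u‖) = ((atV N v).roots.map fun u => max 1 ‖u‖).prod := by
    rw [Finset.prod, rts, Multiset.toFinset_val,
      Multiset.dedup_eq_self.mpr (roots_nodup hκ hN v hΔ)]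
  rw [h5]
  exact h3

theorem exists_chow_eq (hκ : 1 ≤ κ) (hN : IsPreNorm κ N) (hΔ : Del κ N ≠ 0) :
    ∃ φ : PVW n, MvPolynomial.rename Sum.inl (N.coeff κ) * resW κ N =
      φ * MvPolynomial.rename Sum.inl (res0 κ N) := by
  obtain ⟨C, hC1, hC⟩ := size_abs hκ hN
  obtain ⟨C₂, hC₂0, hC₂⟩ := bound_above hN
  have hinj : Function.Injective
      (MvPolynomial.rename Sum.inl : PV n →ₐ[ℂ] PVW n) :=
    MvPolynomial.rename_injective _ Sum.inl_injective
  have hD : (MvPolynomial.rename Sum.inl (Del κ N) : PVW n) ≠ 0 := by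
    intro h
    apply hΔ
    apply hinj
    rw [h, map_zero]
  have hQ : (MvPolynomial.rename Sum.inl (res0 κ N) : PVW n) ≠ 0 := by
    intro h
    apply hΔ
    have h1 : res0 κ N = 0 := by
      apply hinj
      rw [h, map_zero]
    rw [Del, h1, mul_zero, zero_mul]
  have hdvd : (MvPolynomial.rename Sum.inl (res0 κ N) : PVW n) ∣
      MvPolynomial.rename Sum.inl (N.coeff κ) * resW κ N := by
    refine dvd_of_bounded _ _ (MvPolynomial.rename Sum.inl (Del κ N)) hQ hD
      (fun x => ((n + 2) * C * ‖x‖) ^ κ * ((κ + 1) * (C₂ * ‖x‖ ^ κ))) (by fun_prop) ?_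
    intro x hx
    obtain ⟨v, hv⟩ : ∃ v : Fin (n + 2) → ℂ, v = fun a => x (Sum.inl a) := ⟨_, rfl⟩
    obtain ⟨w, hw⟩ : ∃ w : Fin (n + 2) → ℂ, w = fun a => x (Sum.inr a) := ⟨_, rfl⟩
    have hxe : x = Sum.elim v w := by
      funext i
      rcases i with a | a
      · rw [hv]; rfl
      · rw [hw]; rfl
    have hvn : ‖v‖ ≤ ‖x‖ := by
      rw [pi_norm_le_iff_of_nonneg (norm_nonneg _)]
      intro a
      rw [hv]
      exact norm_le_pi_norm x (Sum.inl a)
    have hwn : ‖w‖ ≤ ‖x‖ := by
      rw [pi_norm_le_iff_of_nonneg (norm_nonneg _)]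
      intro a
      rw [hw]
      exact norm_le_pi_norm x (Sum.inr a)
    have hev : ∀ F : PV n, MvPolynomial.eval x (MvPolynomial.rename Sum.inl F : PVW n) =
        MvPolynomial.aeval v F := by
      intro F
      rw [MvPolynomial.eval_rename, hxe, ← MvPolynomial.coe_aeval_eq_eval]
      rfl
    rw [hev] at hx
    have h1 := resW_eq hκ hN v w hx
    have h2 : MvPolynomial.eval x (resW κ N) = evVW (resW κ N) v w := by
      rw [evVW, ← hxe, ← MvPolynomial.coe_aeval_eq_eval]
      rfl
    rw [map_mul, hev, hev, h2, h1, norm_mul]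
    refine mul_le_mul_of_nonneg_right ?_ (norm_nonneg _)
    rw [norm_mul, norm_prod]
    have h3 : ∏ u ∈ rts N v, ‖dot (tpt N v u) w‖ ≤
        ∏ u ∈ rts N v, ((n + 2) * C * ‖x‖) * max 1 ‖u‖ := by
      refine Finset.prod_le_prod (fun u _ => norm_nonneg _) ?_
      intro u hu
      rw [mem_roots_iff hN v hx] at hu
      obtain ⟨g1, g2, g3, g4, g5, g6⟩ := tpt_facts hκ hN v hx hu
      have h4 := hC _ g1
      rw [g3] at h4
      refine (norm_dot_le _ _).trans ?_
      calc (n + 2 : ℝ) * ‖tpt N v u‖ * ‖w‖ ≤ (n + 2 : ℝ) * (C * max 1 ‖u‖) * ‖x‖ := by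
            refine mul_le_mul ?_ hwn (norm_nonneg _) (by positivity)
            exact mul_le_mul_of_nonneg_left h4 (by positivity)
        _ = ((n + 2) * C * ‖x‖) * max 1 ‖u‖ := by ring
    rw [Finset.prod_mul_distrib, Finset.prod_const, card_roots hκ hN v hx] at h3
    calc ‖MvPolynomial.aeval v (N.coeff κ)‖ * ∏ u ∈ rts N v, ‖dot (tpt N v u) w‖
        ≤ ‖MvPolynomial.aeval v (N.coeff κ)‖ *
          (((n + 2) * C * ‖x‖) ^ κ * ∏ u ∈ rts N v, max 1 ‖u‖) :=
          mul_le_mul_of_nonneg_left h3 (norm_nonneg _)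
      _ = ((n + 2) * C * ‖x‖) ^ κ *
          (‖MvPolynomial.aeval v (N.coeff κ)‖ * ∏ u ∈ rts N v, max 1 ‖u‖) := by ring
      _ ≤ ((n + 2) * C * ‖x‖) ^ κ * ((κ + 1) * (C₂ * ‖x‖ ^ κ)) := by
          refine mul_le_mul_of_nonneg_left ?_ (by positivity)
          refine (prod_max_le hκ hN hC₂ v hx).trans ?_
          gcongr
  obtain ⟨φ, hφ⟩ := hdvd
  exact ⟨φ, by rw [hφ, mul_comm]⟩

end Pool.Agent.H5.DG

end
end
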