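import Pool.Agent.H94.DG.M08
import Pool.Agent.H94.DG.M16
import Pool.Agent.H94.DG.M18
import Pool.Agent.H94.DG.M28
import Pool.Agent.H94.DG.M35

/-! The parts of this file: H5.DG.NASplit, H5.DG.PartA. -/

section

/-!
# Project DG, A2: the norm polynomial of a system

`F = NA U` for the matrices of `exists_mats`; `card (Idx a) = ∏ a i`. `hom`, `deg`: `na_hom_deg` with `w α = ∑ α j`.
`split`: for `u ∈ L` let `P = F (·; u) : MvPolynomial (Fin (n + 2)) L`, i.e. `P = ∑ i, C (u ^ i) * map (F.coeff i)` (so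
`eval w P = val F w u`), homogeneous of degree `∏ a i`; `split_lemma` with `T` = the points
`(1, u, x)`, `x` the eigenvalues (`eig_finite`, `na_zero`, `na_one`). The points over `c` that satisfy the equations lie in
`Gam F ℂ`: the vector of the monomials `∏ x j ^ α j` is a left eigenvector (it is not zero: `α = 0`), `na_zero_of_left`.
-/

open MvPolynomial

noncomputable section

namespace Pool.Agent.H5.DG

/-- The polynomial `F (·; u)`. -/
private def PP' {n : ℕ} (F : Polynomial (PV n)) {L : Type} [Field L] [Algebra ℂ L] (u : L) :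
    MvPolynomial (Fin (n + 2)) L :=
  ∑ i ∈ F.support, C (u ^ i) * MvPolynomial.map (algebraMap ℂ L) (F.coeff i)

private lemma eval_PP' {n : ℕ} (F : Polynomial (PV n)) {L : Type} [Field L] [Algebra ℂ L] (u : L)
    (w : Fin (n + 2) → L) : eval w (PP' F u) = val F w u := by
  unfold PP' val atV
  rw [map_sum, Polynomial.eval_map, Polynomial.eval₂_eq_sum, Polynomial.sum_def]
  refine Finset.sum_congr rfl fun i _ => ?_
  rw [map_mul, eval_C, mul_comm]
  congr 1
  rw [MvPolynomial.eval_map]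
  rfl

private lemma dot_cons {n : ℕ} {L : Type} [Field L] [Algebra ℂ L] (u : L) (x : Fin n → L)
    (w : Fin (n + 2) → L) :
    ∑ a, (Fin.cons 1 (Fin.cons u x : Fin (n + 1) → L) : Fin (n + 2) → L) a * w a =
      w 0 + w 1 * u + ∑ i : Fin n, w i.succ.succ * x i := by
  rw [Fin.sum_univ_succ, Fin.sum_univ_succ]
  simp only [Fin.cons_zero, Fin.cons_succ, one_mul]
  rw [← add_assoc, show (Fin.succ 0 : Fin (n + 2)) = 1 from rfl, mul_comm u (w 1)]
  congr 1
  exact Finset.sum_congr rfl fun i _ => mul_comm _ _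

theorem exists_NA {n : ℕ} {a W : Fin n → ℕ} {g : Fin n → MvPolynomial (Fin (n + 1)) ℂ}
    (h : IsSystem a W g) :
    ∃ F : Polynomial (PV n), IsPreNorm (∏ i, a i) F ∧
      ∀ (c : ℂ) (x : Fin n → ℂ), (∀ i, x i ^ a i = evG (g i) c x) →
        (Fin.cons 1 (Fin.cons c x : Fin (n + 1) → ℂ) : Fin (n + 2) → ℂ) ∈ Gam F ℂ := by
  classical
  obtain ⟨U, hcomm, hdeg, hleft, _⟩ := exists_mats h
  have hcard : Fintype.card (Idx a) = ∏ i, a i := by
    rw [Fintype.card_pi]
    exact Finset.prod_congr rfl fun i _ => Fintype.card_fin _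
  have hd := na_hom_deg U (fun α => ∑ j, (α j : ℕ)) hdeg
  rw [hcard] at hd
  refine ⟨NA U, ⟨hd.1, hd.2, ?_⟩, ?_⟩
  · intro L _ _ _ u
    have hP : (PP' (NA U) u).IsHomogeneous (∏ i, a i) := by
      unfold PP'
      refine MvPolynomial.IsHomogeneous.sum _ _ _ fun i _ => ?_
      have h1 := (MvPolynomial.isHomogeneous_C (Fin (n + 2)) (u ^ i)).mul
        ((hd.1 i).map (algebraMap ℂ L))
      rwa [zero_add] at h1
    have h0 : eval (Pi.single 0 1) (PP' (NA U) u) = 1 := by
      rw [eval_PP', na_one]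
    have hz : ∀ w, eval w (PP' (NA U) u) = 0 →
        ∃ t ∈ (fun x : Fin n → L => (Fin.cons 1 (Fin.cons u x : Fin (n + 1) → L) :
          Fin (n + 2) → L)) '' {x : Fin n → L | ∃ y : Idx a → L, Eig U u x y},
        ∑ a, t a * w a = 0 := by
      intro w hw
      rw [eval_PP', na_zero U hcomm] at hw
      obtain ⟨x, y, hxy, hv⟩ := hw
      refine ⟨_, ⟨x, ⟨y, hxy⟩, rfl⟩, ?_⟩
      rw [← hv]
      exact dot_cons u x w
    obtain ⟨t, ht, hPt⟩ := split_lemma (∏ i, a i) (PP' (NA U) u) hP h0 _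
      ((eig_finite U u).image _) (by
        rintro t ⟨x, _, rfl⟩
        rfl) hz
    refine ⟨t, fun s => ?_, fun w => ?_⟩
    · obtain ⟨x, _, hx⟩ := ht s
      rw [← hx]
      exact ⟨rfl, rfl⟩
    · rw [← eval_PP', hPt, map_prod]
      refine Finset.prod_congr rfl fun s _ => ?_
      unfold dot
      rw [map_sum]
      refine Finset.sum_congr rfl fun i _ => ?_
      rw [map_mul, eval_C, eval_X]
  · intro c x hx
    refine ⟨rfl, fun w hw => ?_⟩
    have h1 : (Fin.cons 1 (Fin.cons c x : Fin (n + 1) → ℂ) : Fin (n + 2) → ℂ) 1 = c := rfl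
    rw [h1]
    refine na_zero_of_left U w c x (fun α => ∏ j, x j ^ (α j : ℕ)) ?_ ?_ ?_
    · intro h0
      have h2 := congrFun h0 (fun i => ⟨0, h.a_pos i⟩)
      simp at h2
    · intro i α
      exact hleft ℂ c x hx i α
    · rw [← dot_cons]
      exact hw

end Pool.Agent.H5.DG

end
end

section

/-!
# Project DG, Part A: assembly

Choose `e ∈ ℂ^(n+2)` with `dot (l j) e ≠ 0` for all `j` and an invertible matrix `M₁` with first column `e`:
`c j * ∑ b, l j b * M₁ b a = (1, s j)`, `c j = (dot (l j) e)⁻¹`. `interp` gives `M₂`, a system and `S`; `M = M₁ * (1 ⊕ M₂ᵀ)`, so that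
`c j * ∑ b, l j b * M b a = (1, M₂ s j)`. `exists_NA`: these points (`j ∈ S`) lie in `Gam F ℂ`; `exists_factor`.
-/

open MvPolynomial

noncomputable section

namespace Pool.Agent.H5.DG

/-- A vector on which finitely many non-zero forms do not vanish. -/
theorem exists_not_zero {m k : ℕ} (l : Fin m → Fin k → ℂ) (hl : ∀ j, l j ≠ 0) :
    ∃ e : Fin k → ℂ, ∀ j, dot (l j) e ≠ 0 := by
  classical
  by_contra hcon
  push Not at hcon
  have hev : ∀ (j : Fin m) (e : Fin k → ℂ),
      eval e (∑ a, C (l j a) * X a : MvPolynomial (Fin k) ℂ) = dot (l j) e := by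
    intro j e
    rw [map_sum]
    unfold dot
    refine Finset.sum_congr rfl fun a _ => ?_
    rw [map_mul, eval_C, eval_X]
  have hP : (∏ j : Fin m, (∑ a, C (l j a) * X a : MvPolynomial (Fin k) ℂ)) = 0 := by
    refine MvPolynomial.funext fun e => ?_
    obtain ⟨j, hj⟩ := hcon e
    rw [map_prod, map_zero]
    exact Finset.prod_eq_zero (Finset.mem_univ j) (by rw [hev, hj])
  obtain ⟨j, _, hj⟩ := Finset.prod_eq_zero_iff.1 hP
  refine hl j (funext fun a => ?_)
  have h1 := hev j (Pi.single a 1)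
  rw [hj, map_zero] at h1
  unfold dot at h1
  rw [Finset.sum_eq_single a] at h1
  · rw [Pi.single_eq_same, mul_one] at h1
    exact h1.symm
  · intro b _ hb
    rw [Pi.single_eq_of_ne hb, mul_zero]
  · intro h
    exact absurd (Finset.mem_univ a) h

private lemma exists_matrix_col {n : ℕ} (e : Fin (n + 1) → ℂ) (he : e ≠ 0) :
    ∃ M : Matrix (Fin (n + 1)) (Fin (n + 1)) ℂ, IsUnit M.det ∧ ∀ b, M b 0 = e b := by
  classical
  obtain ⟨p, hp⟩ := Function.ne_iff.1 he
  refine ⟨((1 : Matrix (Fin (n + 1)) (Fin (n + 1)) ℂ).updateCol p e).submatrix id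
    (Equiv.swap 0 p), ?_, fun b => ?_⟩
  · rw [Matrix.det_permute', ← Matrix.cramer_apply, Matrix.cramer_one]
    refine IsUnit.mul ?_ (isUnit_iff_ne_zero.2 hp)
    exact (Equiv.Perm.sign (Equiv.swap 0 p)).isUnit.map (Int.castRingHom ℂ)
  · rw [Matrix.submatrix_apply, Equiv.swap_apply_left, Matrix.updateCol_self]
    rfl

/-- The matrix `1 ⊕ M₂ᵀ`. -/
private def blk {n : ℕ} (M : Matrix (Fin (n + 1)) (Fin (n + 1)) ℂ) :
    Matrix (Fin (n + 2)) (Fin (n + 2)) ℂ :=
  Matrix.of fun a b => Fin.cases (motive := fun _ => ℂ)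
    (Fin.cases (motive := fun _ => ℂ) 1 (fun _ => 0) b)
    (fun a' => Fin.cases (motive := fun _ => ℂ) 0 (fun b' => M b' a') b) a

private lemma blk_det {n : ℕ} (M : Matrix (Fin (n + 1)) (Fin (n + 1)) ℂ) :
    (blk M).det = M.det := by
  rw [Matrix.det_succ_column_zero, Fin.sum_univ_succ]
  have h1 : ∀ i : Fin (n + 1), blk M i.succ 0 = 0 := fun i => rfl
  have h2 : blk M 0 0 = 1 := rfl
  have h3 : (blk M).submatrix (Fin.succAbove 0) Fin.succ = M.transpose := by
    ext i j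
    rfl
  simp only [h1, h2, h3, Matrix.det_transpose, mul_zero, zero_mul, Finset.sum_const_zero, add_zero,
    Fin.val_zero, pow_zero, one_mul]

theorem partA (n ρ : ℕ) : ∃ N₀ : ℕ, ∀ (m : ℕ) (l : Fin m → Fin (n + 2) → ℂ), N₀ ≤ m →
    (∀ j, l j ≠ 0) →
    ∃ (M : Matrix (Fin (n + 2)) (Fin (n + 2)) ℂ) (κ : ℕ) (N : Polynomial (PV n))
      (J : Finset (Fin m)) (c : Fin m → ℂ),
      IsUnit M.det ∧ 1 ≤ κ ∧ IsNormForm κ N ∧ ρ * κ < J.card ∧
      ∀ j ∈ J, c j ≠ 0 ∧ (fun a => c j * ∑ b, l j b * M b a) ∈ Gam N ℂ := by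
  classical
  obtain ⟨n₀, hn₀⟩ := interp n ρ
  refine ⟨n₀ + 1, fun m l hm hl => ?_⟩
  obtain ⟨e, he⟩ := exists_not_zero l hl
  have he0 : e ≠ 0 := by
    intro h0
    refine he ⟨0, by omega⟩ ?_
    rw [h0]
    unfold dot
    simp
  obtain ⟨M₁, hM₁, hcol⟩ := exists_matrix_col e he0
  let c : Fin m → ℂ := fun j => (dot (l j) e)⁻¹
  let s : Fin m → Fin (n + 1) → ℂ := fun j a => c j * ∑ b, l j b * M₁ b a.succ
  have hs : ∀ j d, c j * ∑ b, l j b * M₁ b d =
      (Fin.cons 1 (s j) : Fin (n + 2) → ℂ) d := by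
    intro j d
    refine Fin.cases ?_ (fun d' => ?_) d
    · rw [Fin.cons_zero]
      have h1 : ∑ b, l j b * M₁ b 0 = dot (l j) e := by
        unfold dot
        exact Finset.sum_congr rfl fun b _ => by rw [hcol]
      rw [h1]
      exact inv_mul_cancel₀ (he j)
    · rw [Fin.cons_succ]
  obtain ⟨M₂, a, W, g, S, hM₂, hsys, hS, heq⟩ := hn₀ (Fin m) s (by
    rw [Fintype.card_fin]; omega)
  obtain ⟨F, hF, hFp⟩ := exists_NA hsys
  have hp : ∀ j ∈ S, (Fin.cons 1 (M₂.mulVec (s j)) : Fin (n + 2) → ℂ) ∈ Gam F ℂ := by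
    intro j hj
    have h1 := hFp (M₂.mulVec (s j) 0) (fun i => M₂.mulVec (s j) i.succ) (by
      intro i
      rw [heq j hj i]
      unfold evG
      have h2 : (Fin.cons (M₂.mulVec (s j) 0) (fun i : Fin n => M₂.mulVec (s j) i.succ) :
          Fin (n + 1) → ℂ) = M₂.mulVec (s j) := Fin.cons_self_tail _
      rw [h2, ← MvPolynomial.coe_aeval_eq_eval]
      rfl)
    have h2 : (Fin.cons (M₂.mulVec (s j) 0) (fun i : Fin n => M₂.mulVec (s j) i.succ) :
          Fin (n + 1) → ℂ) = M₂.mulVec (s j) := Fin.cons_self_tail _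
    rw [h2] at h1
    exact h1
  obtain ⟨κ, N, J, hκ, hN, _, hJ, hJp⟩ := exists_factor ρ F hF S _ hp hS
  refine ⟨M₁ * blk M₂, κ, N, J, c, ?_, hκ, hN, hJ, fun j hj => ⟨inv_ne_zero (he j), ?_⟩⟩
  · rw [Matrix.det_mul, blk_det]
    exact hM₁.mul hM₂
  · have h1 : (fun a => c j * ∑ b, l j b * (M₁ * blk M₂) b a) =
        (Fin.cons 1 (M₂.mulVec (s j)) : Fin (n + 2) → ℂ) := by
      funext x
      have h2 : c j * ∑ b, l j b * (M₁ * blk M₂) b x =
          ∑ d, (Fin.cons 1 (s j) : Fin (n + 2) → ℂ) d * blk M₂ d x := by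
        simp only [← hs]
        simp only [Matrix.mul_apply, Finset.mul_sum, Finset.sum_mul]
        rw [Finset.sum_comm]
        exact Finset.sum_congr rfl fun d _ => Finset.sum_congr rfl fun b _ => by ring
      rw [h2, Fin.sum_univ_succ]
      refine Fin.cases ?_ (fun x' => ?_) x
      · have h3 : ∀ i : Fin (n + 1), blk M₂ i.succ 0 = 0 := fun i => rfl
        have h4 : blk M₂ 0 0 = 1 := rfl
        simp [h3, h4]
      · have h3 : ∀ i : Fin (n + 1), blk M₂ i.succ x'.succ = M₂ x' i := fun i => rfl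
        have h4 : blk M₂ 0 x'.succ = 0 := rfl
        rw [h4, mul_zero, zero_add, Fin.cons_succ]
        unfold Matrix.mulVec dotProduct
        refine Finset.sum_congr rfl fun i _ => ?_
        rw [h3, Fin.cons_succ, mul_comm]
    rw [h1]
    exact hJp j hj

end Pool.Agent.H5.DG

end
end
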