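import Pool.Agent.H94.DG.H5.DG3.Defs
import Pool.Agent.H94.DG.M24

/-! The parts of this file: H5.DG3.Points, H5.DG3.Into. -/

section

/-!
# Project DG3, module Points: the values of a morphism

`morph_mk`: `rep` of `mk v` is `c • v`, so `F α a` at `rep` is `c ^ e` times its value at `v`
(`Pool.Agent.H17.exists_smul_rep`, `Pool.Agent.H17.eval_smul_of_isHomogeneous`).  The tuple chosen in
`morph` is proportional to `F α` at this point by `compat` (the polynomial in `compat` is homogeneous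
and vanishes at `v`, so it vanishes at `c • v`).  `Projectivization.mk_eq_mk_iff'`.
`vanishesAt_morph`: `morph_mk` for `v = x.rep` (`x.mk_rep`, `eval_of_mem`, module CovMap),
`Pool.Agent.H17.vanishesAt_mk_iff`, `Pool.Agent.H5.DG.eval_aeval` (CovMain).
-/

open MvPolynomial
open Pool.Agent.H17 (PN VanishesAt)
open Pool.Agent.H5.DG (Homog variety)

noncomputable section

namespace Pool.Agent.H5.DG3

variable {N M s : ℕ} {I : Ideal (MvPolynomial (Fin (N + 1)) ℂ)} {U : Set (PN N)}
  {F : Fin s → Fin (M + 1) → MvPolynomial (Fin (N + 1)) ℂ}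

private theorem Points_eval_smul {e : ℕ} {Q : MvPolynomial (Fin (N + 1)) ℂ} (hQ : Q.IsHomogeneous e)
    (c : ℂ) (v : Fin (N + 1) → ℂ) : eval (c • v) Q = c ^ e * eval v Q :=
  Pool.Agent.H17.eval_smul_of_isHomogeneous hQ c v

theorem morph_mk (hF : IsMorphism I U F) {v : Fin (N + 1) → ℂ} (hv : v ≠ 0)
    (hvI : ∀ Q ∈ I, eval v Q = 0) {α : Fin s} (hα : (fun a => eval v (F α a)) ≠ 0) :
    morph F (Projectivization.mk ℂ v hv) = Projectivization.mk ℂ _ hα := by
  classical
  obtain ⟨c, hc, hrep⟩ := Pool.Agent.H17.exists_smul_rep v hv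
  have hval : ∀ β : Fin s, ∃ e : ℕ, ∀ a, eval (Projectivization.mk ℂ v hv).rep (F β a) =
      c ^ e * eval v (F β a) := by
    intro β
    obtain ⟨e, he⟩ := hF.hom β
    refine ⟨e, fun a => ?_⟩
    rw [hrep]
    exact Points_eval_smul (he a) c v
  have hex : ∃ β, (fun a => eval (Projectivization.mk ℂ v hv).rep (F β a)) ≠ 0 := by
    refine ⟨α, fun h0 => hα ?_⟩
    obtain ⟨e, he⟩ := hval α
    funext a
    have h1 := congrFun h0 a
    simp only [Pi.zero_apply] at h1 ⊢
    rw [he a] at h1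
    exact (mul_eq_zero.1 h1).resolve_left (pow_ne_zero _ hc)
  have hmorph : morph F (Projectivization.mk ℂ v hv) = Projectivization.mk ℂ _ hex.choose_spec := by
    unfold morph
    rw [dif_pos hex]
  rw [hmorph, Projectivization.mk_eq_mk_iff']
  obtain ⟨β, hβ⟩ : ∃ β, β = hex.choose := ⟨_, rfl⟩
  have hne : (fun a => eval (Projectivization.mk ℂ v hv).rep (F β a)) ≠ 0 := by
    rw [hβ]
    exact hex.choose_spec
  obtain ⟨e, he⟩ := hval β
  obtain ⟨b, hb⟩ := Function.ne_iff.1 hne
  simp only [Pi.zero_apply] at hb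
  rw [he b] at hb
  have hb' : eval v (F β b) ≠ 0 := right_ne_zero_of_mul hb
  obtain ⟨a0, ha0⟩ := Function.ne_iff.1 hα
  simp only [Pi.zero_apply] at ha0
  have hcomp : ∀ a, eval v (F α a) * eval v (F β b) = eval v (F α b) * eval v (F β a) := by
    intro a
    have h1 := hvI _ (hF.compat α β a b)
    rw [map_sub, map_mul, map_mul] at h1
    exact sub_eq_zero.1 h1
  have hαb : eval v (F α b) ≠ 0 := by
    intro h0
    have h1 := hcomp a0
    rw [h0, zero_mul] at h1
    exact (mul_ne_zero ha0 hb') h1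
  refine ⟨c ^ e * (eval v (F β b) / eval v (F α b)), ?_⟩
  funext a
  rw [← hβ]
  simp only [Pi.smul_apply, smul_eq_mul]
  rw [he a, mul_assoc]
  congr 1
  rw [div_mul_eq_mul_div, div_eq_iff hαb]
  have h1 := hcomp a
  linear_combination h1

private theorem Points_rep (hF : IsMorphism I U F) (hI : Homog I) {x : PN N} (hx : x ∈ variety I)
    {α : Fin s} (hα : (fun a => eval x.rep (F α a)) ≠ 0) :
    morph F x = Projectivization.mk ℂ _ hα := by
  have h1 : Projectivization.mk ℂ x.rep x.rep_nonzero = x := x.mk_rep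
  have h2 : ∀ Q ∈ I, eval x.rep Q = 0 := by
    intro Q hQ
    refine Pool.Agent.H5.DG.eval_of_mem hI x.rep_nonzero ?_ hQ
    rw [h1]
    exact hx
  have h3 := morph_mk hF x.rep_nonzero h2 hα
  rw [h1] at h3
  exact h3

theorem vanishesAt_morph (hF : IsMorphism I U F) (hI : Homog I) {x : PN N} (hx : x ∈ variety I)
    {G : MvPolynomial (Fin (M + 1)) ℂ} {k : ℕ} (hG : G.IsHomogeneous k) {α : Fin s}
    (hα : ∃ a, ¬ VanishesAt (F α a) x) :
    VanishesAt G (morph F x) ↔ VanishesAt (aeval (F α) G) x := by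
  have hα' : (fun a => eval x.rep (F α a)) ≠ 0 := by
    obtain ⟨a, ha⟩ := hα
    intro h0
    exact ha (congrFun h0 a)
  rw [Points_rep hF hI hx hα', Pool.Agent.H17.vanishesAt_mk_iff hG]
  have h2 : eval x.rep (aeval (F α) G) = eval (fun a => eval x.rep (F α a)) G :=
    Pool.Agent.H5.DG.eval_aeval _ _ _
  rw [← h2]
  rfl

/-- In terms of all tuples. -/
theorem vanishesAt_morph_iff (hF : IsMorphism I U F) (hI : Homog I) {x : PN N}
    (hx : x ∈ variety I) (hxU : x ∈ U) {G : MvPolynomial (Fin (M + 1)) ℂ} {k : ℕ}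
    (hG : G.IsHomogeneous k) :
    VanishesAt G (morph F x) ↔ ∀ α, VanishesAt (aeval (F α) G) x := by
  obtain ⟨α₀, hα₀⟩ := hF.base x hxU
  constructor
  · intro h α
    by_cases hα : ∃ a, ¬ VanishesAt (F α a) x
    · exact (vanishesAt_morph hF hI hx hG hα).1 h
    · push Not at hα
      have h1 : (fun a => eval x.rep (F α a)) = 0 := by
        funext a
        exact hα a
      have h2 : eval x.rep (aeval (F α) G) = eval (fun a => eval x.rep (F α a)) G :=
        Pool.Agent.H5.DG.eval_aeval _ _ _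
      have h3 : eval (morph F x).rep G = 0 := h
      have h4 : eval ((0 : ℂ) • (morph F x).rep) G = 0 ^ k * eval (morph F x).rep G :=
        Pool.Agent.H17.eval_smul_of_isHomogeneous hG 0 _
      rw [h3, mul_zero, zero_smul] at h4
      change eval x.rep (aeval (F α) G) = 0
      rw [h2, h1]
      exact h4
  · intro h
    exact (vanishesAt_morph hF hI hx hG hα₀).2 (h α₀)

end Pool.Agent.H5.DG3

end
end

section

/-!
# Project DG3, module Into: morphisms to a variety

`g ∈ P` homogeneous (`Homog P`; sum over the homogeneous components).  There is a form `T` which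
vanishes on `B`, `T ∉ I` (`variety I \ B` is not empty; `hB`).  `T * F α a * aeval (F α) g` vanishes at
all points `v` of the cone of `variety I` (`mem_of_forall`, module `Pool.Agent.H5.DG.FinalDefs`): `v = 0`
can be avoided with a factor `X i`, `X i ∉ I`; if `T (v) ≠ 0` and `F α a (v) ≠ 0` then `[v] ∈ variety I \ B` and
`g (F α (v)) = 0` by `maps` (`vanishesAt_morph`).  So `X i * T * F α a * aeval (F α) g ∈ I` for all `a`.  If `F α a ∈ I`
for all `a`: `aeval (F α) g ∈ I` if `g` has positive degree (or `g = 0`; a constant `g ≠ 0` in `P` would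
contradict `maps` at a point of `variety I \ B`).
-/

open MvPolynomial
open Pool.Agent.H17 (PN VanishesAt ZariskiClosedIn)
open Pool.Agent.H5.DG (Homog variety)

noncomputable section

namespace Pool.Agent.H5.DG3

private lemma aeval_mem_of_all_mem {N M k : ℕ} {I : Ideal (MvPolynomial (Fin (N + 1)) ℂ)}
    {f : Fin (M + 1) → MvPolynomial (Fin (N + 1)) ℂ} (hf : ∀ a, f a ∈ I)
    {g : MvPolynomial (Fin (M + 1)) ℂ} (hg : g.IsHomogeneous k) (hk : k ≠ 0) :
    aeval f g ∈ I := by
  rw [aeval_def, eval₂_eq]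
  refine I.sum_mem fun m hm => I.mul_mem_left _ ?_
  have h1 : m.degree = k := by
    by_contra hne
    exact (mem_support_iff.mp hm) (hg.coeff_eq_zero hne)
  have h2 : m.support.Nonempty := by
    rw [Finset.nonempty_iff_ne_empty]
    intro h0
    rw [Finsupp.support_eq_empty] at h0
    rw [h0] at h1
    apply hk
    rw [← h1]
    simp
  obtain ⟨a, ha⟩ := h2
  rw [← Finset.mul_prod_erase _ _ ha]
  refine I.mul_mem_right _ ?_
  exact I.pow_mem_of_mem (hf a) _ (Nat.pos_of_ne_zero (Finsupp.mem_support_iff.1 ha))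

private lemma aeval_mem_of_maps_hom {N M s : ℕ} {P : Ideal (MvPolynomial (Fin (M + 1)) ℂ)}
    {I : Ideal (MvPolynomial (Fin (N + 1)) ℂ)} [I.IsPrime] {B : Set (PN N)}
    (hB : ZariskiClosedIn Set.univ B) (hne : (variety I \ B).Nonempty)
    {F : Fin s → Fin (M + 1) → MvPolynomial (Fin (N + 1)) ℂ}
    (hF : IsMorphism I (variety I \ B) F) (hmaps : ∀ x ∈ variety I \ B, morph F x ∈ variety P)
    (α : Fin s) {g : MvPolynomial (Fin (M + 1)) ℂ} (hg : g ∈ P) {k : ℕ}
    (hgk : g.IsHomogeneous k) : aeval (F α) g ∈ I := by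
  obtain ⟨S, hS, hBS⟩ := hB
  obtain ⟨x₀, hx₀, hx₀B⟩ := hne
  have h1 : ∃ T ∈ S, ¬ VanishesAt T x₀ := by
    by_contra hcon
    push Not at hcon
    exact hx₀B (by rw [hBS]; exact ⟨Set.mem_univ _, hcon⟩)
  obtain ⟨T, hTS, hTx⟩ := h1
  obtain ⟨d, hTd⟩ := hS T hTS
  have hTI : T ∉ I := fun h => hTx (hx₀ T h d hTd)
  obtain ⟨i, hi⟩ : ∃ i, x₀.rep i ≠ 0 := by
    by_contra hcon
    push Not at hcon
    exact x₀.rep_nonzero (funext hcon)
  have hXI : (X i : MvPolynomial (Fin (N + 1)) ℂ) ∉ I := by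
    intro h
    have h2 := hx₀ _ h 1 (isHomogeneous_X ℂ i)
    unfold VanishesAt at h2
    rw [eval_X] at h2
    exact hi h2
  have hmem : ∀ a, X i * T * (F α a * aeval (F α) g) ∈ I := by
    intro a
    refine Pool.Agent.H5.DG.mem_of_forall I fun v hv => ?_
    rw [map_mul, map_mul, map_mul, eval_X]
    by_cases hvi : v i = 0
    · rw [hvi, zero_mul, zero_mul]
    by_cases hvT : eval v T = 0
    · rw [hvT, mul_zero, zero_mul]
    by_cases hva : eval v (F α a) = 0
    · rw [hva, zero_mul, mul_zero]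
    have hv0 : v ≠ 0 := by
      rintro rfl
      exact hvi rfl
    have hx : Projectivization.mk ℂ v hv0 ∈ variety I \ B := by
      refine ⟨fun R hR k hk => ?_, fun hcon => ?_⟩
      · rw [Pool.Agent.H17.vanishesAt_mk_iff hk]
        exact hv R hR
      · rw [hBS] at hcon
        have h3 := hcon.2 T hTS
        rw [Pool.Agent.H17.vanishesAt_mk_iff hTd] at h3
        exact hvT h3
    have hα : (fun a => eval v (F α a)) ≠ 0 := fun h => hva (congrFun h a)
    have h4 := hmaps _ hx
    rw [morph_mk hF hv0 hv hα] at h4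
    have h5 := h4 g hg k hgk
    rw [Pool.Agent.H17.vanishesAt_mk_iff hgk] at h5
    rw [Pool.Agent.H5.DG.eval_aeval, h5, mul_zero, mul_zero]
  have hP : I.IsPrime := inferInstance
  have hor : ∀ a, F α a ∈ I ∨ aeval (F α) g ∈ I := by
    intro a
    rcases hP.mem_or_mem (hmem a) with h2 | h2
    · exact absurd h2 fun h3 => (hP.mem_or_mem h3).elim hXI hTI
    · exact hP.mem_or_mem h2
  by_cases hall : ∀ a, F α a ∈ I
  · by_cases hk : k = 0
    · subst hk
      have hc := (totalDegree_zero_iff_isHomogeneous _).2 hgk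
      rw [totalDegree_eq_zero_iff_eq_C] at hc
      have h6 := hmaps x₀ ⟨hx₀, hx₀B⟩
      have h7 := h6 g hg 0 hgk
      unfold VanishesAt at h7
      rw [hc, eval_C] at h7
      rw [hc, h7, C_0, map_zero]
      exact I.zero_mem
    · exact aeval_mem_of_all_mem hall hgk hk
  · push Not at hall
    obtain ⟨a, ha⟩ := hall
    exact (hor a).resolve_left ha

theorem aeval_mem_of_maps {N M s : ℕ} {P : Ideal (MvPolynomial (Fin (M + 1)) ℂ)} (hP : Homog P)
    {I : Ideal (MvPolynomial (Fin (N + 1)) ℂ)} [I.IsPrime] (hI : Homog I) {B : Set (PN N)}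
    (hB : ZariskiClosedIn Set.univ B) (hne : (variety I \ B).Nonempty)
    {F : Fin s → Fin (M + 1) → MvPolynomial (Fin (N + 1)) ℂ}
    (hF : IsMorphism I (variety I \ B) F) (hmaps : ∀ x ∈ variety I \ B, morph F x ∈ variety P)
    (α : Fin s) {g : MvPolynomial (Fin (M + 1)) ℂ} (hg : g ∈ P) : aeval (F α) g ∈ I := by
  rw [← sum_homogeneousComponent g, map_sum]
  exact I.sum_mem fun k _ => aeval_mem_of_maps_hom hB hne hF hmaps α (hP g hg k)
    (homogeneousComponent_isHomogeneous k g)

end Pool.Agent.H5.DG3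

end
end
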