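import Pool.Agent.H94.DG.H5.DG.SecDefs
import Pool.Agent.H94.DG.H5.DG4.Chr
import Pool.Agent.H94.DG.M24

/-! The parts of this file: H5.DG4.Chr2, H5.DG.SecOrb, H5.DG2.Main2, H5.DG4.Sel4. -/

section

/-!
# Project DG4, module Chr2: sections along a curve near a puncture

`cnt_le_of_section`: `k * n s ≤ ordZ t s - a * minOrd h s` gives
`k * cnt n ≤ cnt (ordZ t) + a * cnt (-minOrd h)`; Jensen for `t`; `log ‖t‖ ≤ log⁺ C + a * G`.
`punctMero_of_chr`: `nevT (h i) ≤ chr h` and `punctMero_of_nevT`; the function `0` is trivial.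
-/

open Filter Topology MeasureTheory
open Pool.Agent.H92.GGL (ordZ)
open Pool.Agent.H62.FC

noncomputable section

namespace Pool.Agent.H5.DG4

variable {ι : Type} [Fintype ι] [Nonempty ι]

/-! ### Means and counting functions -/

private theorem circleIntegrable_sup {f g : ℂ → ℝ} {c : ℂ} {R : ℝ} (hf : CircleIntegrable f c R)
    (hg : CircleIntegrable g c R) : CircleIntegrable (f ⊔ g) c R := by
  have h : f ⊔ g = (1 / 2 : ℝ) • (f + g + |g - f|) := by
    funext z
    simp only [Pi.sup_apply, Pi.smul_apply, Pi.add_apply, Pi.abs_apply, Pi.sub_apply, smul_eq_mul]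
    rw [max_def]
    split_ifs with h1
    · rw [abs_of_nonneg (by linarith)]
      ring
    · rw [abs_of_nonpos (by linarith)]
      ring
  rw [h]
  exact ((hf.add hg).add (hg.sub hf).abs).const_smul

private theorem mean_mono {f g : ℂ → ℝ} {x : ℝ} (hf : CircleIntegrable f 0 (Real.exp (-x)))
    (hg : CircleIntegrable g 0 (Real.exp (-x)))
    (h : ∀ z ∈ Metric.sphere (0 : ℂ) |Real.exp (-x)|, ∀ᶠ ζ in 𝓝[≠] z, f ζ ≤ g ζ) :
    mean f x ≤ mean g x := by
  have h1 : g =ᶠ[codiscreteWithin (Metric.sphere (0 : ℂ) |Real.exp (-x)|)]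
      fun z => max (f z) (g z) := by
    rw [Filter.EventuallyEq, Filter.Eventually, mem_codiscreteWithin_iff_forall_mem_nhdsNE]
    intro z hz
    filter_upwards [h z hz] with ζ hζ
    left
    show g ζ = max (f ζ) (g ζ)
    rw [max_eq_right hζ]
  have h2 : mean g x = mean (fun z => max (f z) (g z)) x :=
    Real.circleAverage_congr_codiscreteWithin h1 (Real.exp_ne_zero _)
  rw [h2]
  exact Real.circleAverage_mono hf (CircleIntegrable.congr_codiscreteWithin h1 hg)
    fun z _ => le_max_left _ _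

private theorem linear_bound (A B x : ℝ) : |A + B * x| ≤ (|A| + |B|) * (1 + |x|) := by
  have h1 : |A + B * x| ≤ |A| + |B| * |x| := by
    rw [← abs_mul]
    exact abs_add_le A (B * x)
  nlinarith [abs_nonneg A, abs_nonneg B, abs_nonneg x, mul_nonneg (abs_nonneg A) (abs_nonneg x)]

private theorem mero_at {R₀ : ℝ} {h : ι → ℂ → ℂ} {i₀ : ι} (hh : Curve R₀ h i₀) (i : ι) {z : ℂ}
    (h1 : 0 < ‖z‖) (h2 : ‖z‖ < R₀) : MeromorphicAt (h i) z := by
  rcases hh.dich i with h3 | h3
  · exact h3.mero z h1 h2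
  · have h4 : (fun _ : ℂ => (0 : ℂ)) =ᶠ[𝓝[≠] z] h i := by
      filter_upwards [h3 z h1 h2] with ζ hζ
      exact hζ.symm
    exact (MeromorphicAt.const 0 z).congr h4

private theorem sphere_mem {R₀ x : ℝ} (hx : Real.exp (-x) < R₀) {z : ℂ}
    (hz : z ∈ Metric.sphere (0 : ℂ) |Real.exp (-x)|) : 0 < ‖z‖ ∧ ‖z‖ < R₀ := by
  rw [mem_sphere_zero_iff_norm, abs_of_pos (Real.exp_pos _)] at hz
  rw [hz]
  exact ⟨Real.exp_pos _, hx⟩

private theorem int_posLog {R₀ : ℝ} {h : ι → ℂ → ℂ} {i₀ : ι} (hh : Curve R₀ h i₀) (i : ι) {x : ℝ}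
    (hx : Real.exp (-x) < R₀) :
    CircleIntegrable (fun z => Real.posLog ‖h i z‖) 0 (Real.exp (-x)) := by
  apply MeromorphicOn.circleIntegrable_posLog_norm
  intro z hz
  obtain ⟨h1, h2⟩ := sphere_mem hx hz
  exact mero_at hh i h1 h2

private theorem int_sup {R₀ : ℝ} {h : ι → ℂ → ℂ} {i₀ : ι} (hh : Curve R₀ h i₀) {x : ℝ}
    (hx : Real.exp (-x) < R₀) :
    CircleIntegrable (fun z => Finset.univ.sup' Finset.univ_nonempty fun i => Real.posLog ‖h i z‖)
      0 (Real.exp (-x)) := by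
  have hsup := Finset.sup'_induction (Finset.univ_nonempty (α := ι))
    (fun j => fun z => Real.posLog ‖h j z‖)
    (p := fun f : ℂ → ℝ => CircleIntegrable f 0 (Real.exp (-x)))
    (fun f hf g hg => circleIntegrable_sup hf hg)
    (fun j _ => int_posLog hh j hx)
  have e : (fun z => Finset.univ.sup' Finset.univ_nonempty fun i => Real.posLog ‖h i z‖) =
      Finset.univ.sup' (Finset.univ_nonempty (α := ι))
      (fun j => fun z => Real.posLog ‖h j z‖) := by
    funext z
    rw [Finset.sup'_apply]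
  rw [e]
  exact hsup

private theorem locFin_ord {R₀ : ℝ} {h : ι → ℂ → ℂ} {i₀ : ι} (hh : Curve R₀ h i₀) (i : ι) :
    LocFin R₀ (fun s => (ordZ (h i) s : ℝ)) := by
  rcases hh.dich i with h3 | h3
  · exact MeroPunct.locFin h3
  · intro r b hr hb
    refine Set.finite_empty.subset ?_
    rintro s ⟨h1, h2, h4⟩
    refine h4 ?_
    have h5 : meromorphicOrderAt (h i) s = ⊤ :=
      meromorphicOrderAt_eq_top_iff.2 (h3 s (hr.trans_le h1) (h2.trans_lt hb))
    show ((ordZ (h i) s : ℤ) : ℝ) = 0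
    unfold ordZ
    rw [h5]
    simp

private theorem exists_ord_eq (h : ι → ℂ → ℂ) (s : ℂ) : ∃ i, minOrd h s = ordZ (h i) s := by
  obtain ⟨j, -, hj⟩ := Finset.exists_mem_eq_inf' (Finset.univ_nonempty (α := ι))
    (fun j => ordZ (h j) s)
  exact ⟨j, hj⟩

private theorem minOrd_le_ord (h : ι → ℂ → ℂ) (s : ℂ) (i : ι) : minOrd h s ≤ ordZ (h i) s :=
  Finset.inf'_le _ (Finset.mem_univ i)

private theorem locFin_minOrd {R₀ : ℝ} {h : ι → ℂ → ℂ} {i₀ : ι} (hh : Curve R₀ h i₀) :
    LocFin R₀ (fun s => -(minOrd h s : ℝ)) := by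
  intro r b hr hb
  refine (Set.finite_iUnion fun i => locFin_ord hh i r b hr hb).subset ?_
  rintro s ⟨h1, h2, h3⟩
  obtain ⟨i, hi⟩ := exists_ord_eq h s
  refine Set.mem_iUnion.2 ⟨i, h1, h2, fun h4 => h3 ?_⟩
  show -((minOrd h s : ℤ) : ℝ) = 0
  rw [hi]
  have h5 : ((ordZ (h i) s : ℤ) : ℝ) = 0 := h4
  rw [h5, neg_zero]

private theorem sup_nonneg (h : ι → ℂ → ℂ) (z : ℂ) :
    0 ≤ Finset.univ.sup' Finset.univ_nonempty fun i => Real.posLog ‖h i z‖ :=
  Real.posLog_nonneg.trans
    (Finset.le_sup' (fun i => Real.posLog ‖h i z‖) (Finset.mem_univ (Classical.arbitrary ι)))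

/-- the pointwise estimate of `log ‖t‖` -/
private theorem log_le_of_size (h : ι → ℂ → ℂ) (ζ : ℂ) {y C : ℝ} (a : ℕ) (hy : 0 ≤ y)
    (hb : y ≤ C * size h ζ ^ a) :
    Real.log y ≤ Real.posLog C +
      a * Finset.univ.sup' Finset.univ_nonempty fun i => Real.posLog ‖h i ζ‖ := by
  have hG := sup_nonneg h ζ
  have haG : 0 ≤ (a : ℝ) * Finset.univ.sup' Finset.univ_nonempty
      fun i => Real.posLog ‖h i ζ‖ := mul_nonneg (Nat.cast_nonneg _) hG
  rcases hy.eq_or_lt with h0 | h0
  · rw [← h0, Real.log_zero]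
    exact add_nonneg Real.posLog_nonneg haG
  · obtain ⟨j, -, hj⟩ := Finset.exists_mem_eq_sup' (Finset.univ_nonempty (α := ι))
      (fun i => ‖h i ζ‖)
    have hj' : size h ζ = ‖h j ζ‖ := hj
    have hs0 : 0 ≤ size h ζ := by
      rw [hj']
      exact norm_nonneg _
    have hpos : 0 < C * size h ζ ^ a := h0.trans_le hb
    have hp0 : 0 ≤ size h ζ ^ a := pow_nonneg hs0 a
    have hp : 0 < size h ζ ^ a := by
      rcases hp0.eq_or_lt with h1 | h1
      · rw [← h1, mul_zero] at hpos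
        exact absurd hpos (lt_irrefl _)
      · exact h1
    have hC : 0 < C := pos_of_mul_pos_left hpos hp0
    have h2 := Real.log_le_log h0 hb
    rw [Real.log_mul hC.ne' hp.ne', Real.log_pow] at h2
    have h3 : Real.log C ≤ Real.posLog C := le_max_right _ _
    have h4 : Real.log (size h ζ) ≤
        Finset.univ.sup' Finset.univ_nonempty fun i => Real.posLog ‖h i ζ‖ := by
      rw [hj']
      exact (le_max_right _ _).trans
        (Finset.le_sup' (fun i => Real.posLog ‖h i ζ‖) (Finset.mem_univ j))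
    have h5 := mul_le_mul_of_nonneg_left h4 (Nat.cast_nonneg (α := ℝ) a)
    linarith

theorem cnt_le_of_section {R₀ R₁ : ℝ} (h1 : 0 < R₁) (h2 : R₁ < R₀) {h : ι → ℂ → ℂ} {i₀ : ι}
    (hh : Curve R₀ h i₀) {t : ℂ → ℂ} (ht : MeroPunct R₀ t) {n : ℂ → ℝ} (hn : LocFin R₀ n)
    {k a : ℕ} {C : ℝ}
    (hb : ∀ z, 0 < ‖z‖ → ‖z‖ < R₀ → ∀ᶠ ζ in 𝓝[≠] z, ‖t ζ‖ ≤ C * size h ζ ^ a)
    (hord : ∀ s, 0 < ‖s‖ → ‖s‖ < R₀ → k * n s ≤ (ordZ t s : ℝ) - a * minOrd h s) :
    ∃ C' : ℝ, ∀ x, Real.exp (-x) < R₁ →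
      k * cnt n R₁ (Real.exp (-x)) ≤ a * chr h R₁ x + C' * (1 + |x|) := by
  obtain ⟨A, B, hAB⟩ := MeroPunct.jensen ht h1 h2
  refine ⟨|A| + |B| + Real.posLog C, fun x hx => ?_⟩
  have hr : 0 < Real.exp (-x) := Real.exp_pos _
  have hxR : Real.exp (-x) < R₀ := hx.trans h2
  have hJ := hAB x hx
  -- the counting functions
  have hlt := MeroPunct.locFin ht
  have hlm := locFin_minOrd hh
  have hlam : LocFin R₀ (fun s => (a : ℝ) * -(minOrd h s : ℝ)) := by
    intro r b hr hb
    refine (hlm r b hr hb).subset ?_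
    rintro s ⟨h3, h4, h5⟩
    refine ⟨h3, h4, fun h6 => h5 ?_⟩
    show (a : ℝ) * -(minOrd h s : ℝ) = 0
    have h7 : -(minOrd h s : ℝ) = 0 := h6
    rw [h7, mul_zero]
  have hlkn : LocFin R₀ (fun s => (k : ℝ) * n s) := by
    intro r b hr hb
    refine (hn r b hr hb).subset ?_
    rintro s ⟨h3, h4, h5⟩
    refine ⟨h3, h4, fun h6 => h5 ?_⟩
    show (k : ℝ) * n s = 0
    rw [h6, mul_zero]
  have hlsum : LocFin R₀ (fun s => (ordZ t s : ℝ) + (a : ℝ) * -(minOrd h s : ℝ)) := by
    intro r b hr hb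
    refine ((hlt r b hr hb).union (hlam r b hr hb)).subset ?_
    rintro s ⟨h3, h4, h5⟩
    by_cases h6 : (ordZ t s : ℝ) = 0
    · right
      refine ⟨h3, h4, fun h7 => h5 ?_⟩
      show (ordZ t s : ℝ) + (a : ℝ) * -(minOrd h s : ℝ) = 0
      have h8 : (a : ℝ) * -(minOrd h s : ℝ) = 0 := h7
      rw [h6, h8, add_zero]
    · left
      exact ⟨h3, h4, h6⟩
  have hc1 : (k : ℝ) * cnt n R₁ (Real.exp (-x)) ≤
      cnt (fun s => (ordZ t s : ℝ)) R₁ (Real.exp (-x)) +
        a * cnt (fun s => -(minOrd h s : ℝ)) R₁ (Real.exp (-x)) := by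
    rw [← cnt_mul (a : ℝ) h2 hlm hr, ← cnt_add h2 hlt hlam hr, ← cnt_mul (k : ℝ) h2 hn hr]
    refine cnt_mono h2 hlkn hlsum hr fun s h3 h4 => ?_
    have h5 := hord s (hr.trans h3) (h4.trans h2)
    linarith
  -- the means
  have hIG := int_sup hh hxR
  have hIaG : CircleIntegrable (fun z => (a : ℝ) *
      Finset.univ.sup' Finset.univ_nonempty fun i => Real.posLog ‖h i z‖) 0 (Real.exp (-x)) :=
    hIG.const_smul (a := (a : ℝ))
  have hm1 : mean (fun z => Real.log ‖t z‖) x ≤ mean (fun z => Real.posLog C + (a : ℝ) *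
      Finset.univ.sup' Finset.univ_nonempty fun i => Real.posLog ‖h i z‖) x := by
    refine mean_mono (MeroPunct.circleIntegrable_log ht hxR)
      ((circleIntegrable_const (Real.posLog C) 0 _).add hIaG) fun z hz => ?_
    obtain ⟨hz1, hz2⟩ := sphere_mem hxR hz
    filter_upwards [hb z hz1 hz2] with ζ hζ
    exact log_le_of_size h ζ a (norm_nonneg _) hζ
  have hm2 : mean (fun z => Real.posLog C + (a : ℝ) *
      Finset.univ.sup' Finset.univ_nonempty fun i => Real.posLog ‖h i z‖) x =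
      Real.posLog C + a * mean (fun z =>
        Finset.univ.sup' Finset.univ_nonempty fun i => Real.posLog ‖h i z‖) x := by
    unfold mean
    rw [Real.circleAverage_fun_add (circleIntegrable_const (Real.posLog C) 0 _) hIaG,
      Real.circleAverage_const]
    congr 1
    exact Real.circleAverage_fun_smul (a := (a : ℝ))
  have h6 := linear_bound A B x
  have h7 := (abs_le.1 h6).1
  have h8 : 0 ≤ Real.posLog C := Real.posLog_nonneg
  have h9 := abs_nonneg x
  have h10 : Real.posLog C ≤ Real.posLog C * (1 + |x|) := by nlinarith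
  unfold chr
  rw [hm2] at hm1
  have e1 : (|A| + |B| + Real.posLog C) * (1 + |x|) =
      (|A| + |B|) * (1 + |x|) + Real.posLog C * (1 + |x|) := by ring
  rw [e1, mul_add]
  linarith

private theorem nevT_le_chr {R₀ R₁ : ℝ} (h2 : R₁ < R₀) {h : ι → ℂ → ℂ} {i₀ : ι}
    (hh : Curve R₀ h i₀) {i : ι} (hi : MeroPunct R₀ (h i)) {x : ℝ} (hx : Real.exp (-x) < R₁) :
    nevT (h i) R₁ x ≤ chr h R₁ x := by
  have hr : 0 < Real.exp (-x) := Real.exp_pos _
  have hxR : Real.exp (-x) < R₀ := hx.trans h2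
  unfold nevT chr
  refine add_le_add ?_ ?_
  · refine Real.circleAverage_mono (MeroPunct.circleIntegrable_posLog hi hxR) (int_sup hh hxR)
      fun z _ => ?_
    exact Finset.le_sup' (fun j => Real.posLog ‖h j z‖) (Finset.mem_univ i)
  · have hl : LocFin R₀ (fun s => max (-(ordZ (h i) s : ℝ)) 0) := by
      intro r b hr hb
      refine (MeroPunct.locFin hi r b hr hb).subset ?_
      rintro s ⟨h3, h4, h5⟩
      refine ⟨h3, h4, fun h6 => h5 ?_⟩
      show max (-(ordZ (h i) s : ℝ)) 0 = 0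
      have h7 : (ordZ (h i) s : ℝ) = 0 := h6
      rw [h7]
      simp
    refine cnt_mono h2 hl (locFin_minOrd hh) hr fun s h3 h4 => max_le ?_ ?_
    · have h5 : (minOrd h s : ℝ) ≤ ordZ (h i) s := by exact_mod_cast minOrd_le_ord h s i
      linarith
    · have h5 : minOrd h s ≤ 0 := hh.minOrd_le (hr.trans h3) (h4.trans h2)
      have h6 : (minOrd h s : ℝ) ≤ 0 := by exact_mod_cast h5
      linarith

theorem punctMero_of_chr {R₀ R₁ : ℝ} (h1 : 0 < R₁) (h2 : R₁ < R₀) {h : ι → ℂ → ℂ} {i₀ : ι}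
    (hh : Curve R₀ h i₀) {δ C : ℝ} (hδ : 0 < δ) {E : Set ℝ} (hE : volume E ≠ ⊤)
    (hx : ∀ x, Real.exp (-x) < R₁ → x ∉ E → δ * chr h R₁ x ≤ C * (1 + |x|)) (i : ι) :
    PunctMero (h i) := by
  rcases hh.dich i with hi | hi
  · refine punctMero_of_nevT h1 h2 hi (C := C / δ) hE fun x hx1 hx2 => ?_
    have h3 := nevT_le_chr h2 hh hi hx1
    have h4 := hx x hx1 hx2
    have h5 : chr h R₁ x ≤ C / δ * (1 + |x|) := by
      rw [div_mul_eq_mul_div, le_div_iff₀ hδ]
      linarith
    exact h3.trans h5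
  · refine ⟨fun _ => 0, MeromorphicAt.const 0 0, ?_⟩
    have h3 : ∀ᶠ z in 𝓝[≠] (0 : ℂ), 0 < ‖z‖ ∧ ‖z‖ < R₀ := by
      have h4 : ∀ᶠ z in 𝓝[≠] (0 : ℂ), z ≠ 0 := self_mem_nhdsWithin
      have h5 : ∀ᶠ z in 𝓝[≠] (0 : ℂ), ‖z‖ < R₀ := by
        refine nhdsWithin_le_nhds ?_
        have h6 := Metric.ball_mem_nhds (0 : ℂ) (h1.trans h2)
        filter_upwards [h6] with z hz
        rwa [mem_ball_zero_iff] at hz
      filter_upwards [h4, h5] with z hz1 hz2
      exact ⟨norm_pos_iff.2 hz1, hz2⟩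
    filter_upwards [h3] with z hz
    exact hi z hz.1 hz.2

end Pool.Agent.H5.DG4

end
end

section

/-!
# Project DG2, module SecOrb: maps to a variety which meet hypersurface sections with multiplicities
-/

open MvPolynomial Filter Topology
open Pool.Agent.H17 (PN VanishesAt zeroLocus HolomorphicInto puncturedDisc)

noncomputable section

namespace Pool.Agent.H5.DG

/-- Entire curves: the map `f (exp (1 / z))` of the punctured disc. -/
theorem brody_of_picard {r k : ℕ} {Δ : MvPolynomial (Fin (r + 1)) ℂ} (hk : Δ.IsHomogeneous k)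
    {f : ℂ → PN r} (hf : HolomorphicInto f Set.univ) (hne : ∃ z, ¬ VanishesAt Δ (f z))
    (hpic : HolomorphicInto (fun z => f (Complex.exp z⁻¹)) puncturedDisc →
      (∃ z ∈ puncturedDisc, ¬ VanishesAt Δ (f (Complex.exp z⁻¹))) →
      ∃ g : ℂ → PN r, HolomorphicInto g (Metric.ball 0 1) ∧
        ∀ z ∈ puncturedDisc, g z = f (Complex.exp z⁻¹)) (z w : ℂ) : f z = f w := by
  obtain ⟨w₀, hw₀, hw₀'⟩ : ∃ w, w ≠ 0 ∧ ¬ VanishesAt Δ (f w) := by
    obtain ⟨z₁, hz₁⟩ := hne
    by_cases hz0 : z₁ = 0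
    · subst hz0
      obtain ⟨ψ, hψ, he⟩ := hf 0 (Set.mem_univ 0)
      rcases vanish_local hψ he hk with h1 | h1
      · exact absurd h1.self_of_nhds hz₁
      · obtain ⟨w, hw1, hw2⟩ := (h1.and self_mem_nhdsWithin).exists
        exact ⟨w, hw2, hw1⟩
    · exact ⟨z₁, hz0, hz₁⟩
  have hgh : HolomorphicInto (fun z => f (Complex.exp z⁻¹)) puncturedDisc := by
    refine Pool.Agent.H17.HolomorphicInto.comp hf (u := fun z => Complex.exp z⁻¹) ?_
      (fun _ _ => Set.mem_univ _)
    intro z hz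
    have h1 : z ≠ 0 := hz.2
    exact (analyticAt_inv h1).cexp
  obtain ⟨g, hg, hge⟩ := hpic hgh (by
    obtain ⟨zs, h1, h2⟩ := Pool.Agent.H99.Cover.exists_seq_exp_inv w₀ hw₀
    obtain ⟨k, h3, h4⟩ := (h2.and (h1.eventually
      (Metric.ball_mem_nhds (0 : ℂ) one_pos))).exists
    refine ⟨zs k, ⟨h4, h3.1⟩, ?_⟩
    rw [h3.2]
    exact hw₀')
  exact const_of_extension hf hg hge z w

private theorem SecOrb_analytic {r : ℕ} {φ : ℂ → Fin (r + 1) → ℂ} {s : ℂ}
    (hφ : AnalyticAt ℂ φ s) (G : MvPolynomial (Fin (r + 1)) ℂ) :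
    AnalyticAt ℂ (fun z => eval (φ z) G) s := by
  induction G using MvPolynomial.induction_on with
  | C a =>
    simp only [eval_C]
    exact analyticAt_const
  | add p q hp hq =>
    simp only [map_add]
    exact hp.add hq
  | mul_X p i hp =>
    simp only [map_mul, eval_X]
    exact hp.mul (analyticAt_pi_iff.mp hφ i)

/-- The substitution `exp (1 / z)` does not change multiplicities. -/
theorem MeetsForm.exp {q r : ℕ} {G : MvPolynomial (Fin (r + 1)) ℂ} {f : ℂ → PN r}
    (hm : MeetsForm q G f Set.univ) :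
    MeetsForm q G (fun z => f (Complex.exp z⁻¹)) puncturedDisc := by
  intro s hs
  obtain ⟨ψ, hψ, he, hord⟩ := hm (Complex.exp s⁻¹) (Set.mem_univ _)
  have hs0 : s ≠ 0 := hs.2
  have hu : AnalyticAt ℂ (fun z : ℂ => Complex.exp z⁻¹) s := (analyticAt_inv hs0).cexp
  refine ⟨fun z => ψ (Complex.exp z⁻¹), ?_, ?_, fun h0 => ?_⟩
  · exact AnalyticAt.comp (g := ψ) (f := fun z : ℂ => Complex.exp z⁻¹) hψ hu
  · exact hu.continuousAt.eventually he
  · have h1 := hord h0
    have hA : AnalyticAt ℂ (fun z => eval (ψ z) G) (Complex.exp s⁻¹) := SecOrb_analytic hψ G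
    have h2 : analyticOrderAt (fun z => eval (ψ (Complex.exp z⁻¹)) G) s =
        analyticOrderAt (fun z => eval (ψ z) G) (Complex.exp s⁻¹) *
          analyticOrderAt (fun z => Complex.exp z⁻¹ - Complex.exp s⁻¹) s :=
      AnalyticAt.analyticOrderAt_comp (f := fun z => eval (ψ z) G)
        (g := fun z : ℂ => Complex.exp z⁻¹) hA hu
    have h3 : (1 : ℕ∞) ≤ analyticOrderAt (fun z => Complex.exp z⁻¹ - Complex.exp s⁻¹) s := by
      rw [Order.one_le_iff_ne_zero]
      intro h4
      have h5 : AnalyticAt ℂ (fun z : ℂ => Complex.exp z⁻¹ - Complex.exp s⁻¹) s :=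
        hu.fun_sub analyticAt_const
      rw [h5.analyticOrderAt_eq_zero] at h4
      exact h4 (sub_self _)
    rw [h2]
    calc ((q : ℕ) : ℕ∞) = ((q : ℕ) : ℕ∞) * 1 := (mul_one _).symm
      _ ≤ _ := mul_le_mul' h1 h3

section

variable {M n e₀ : ℕ} {P : Ideal (MvPolynomial (Fin (M + 1)) ℂ)}
  {B : Fin (n + 1) → MvPolynomial (Fin (M + 1)) ℂ}

/-- Multiplicities of the composition with the morphism given by `B`. -/
theorem MeetsForm.coverMap {q : ℕ} (hP : Homog P) (hB : BaseFree P e₀ B) {f : ℂ → PN M}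
    {U : Set ℂ} (hU : IsOpen U) (hfY : ∀ z ∈ U, f z ∈ variety P)
    {G : MvPolynomial (Fin (M + 1)) ℂ} {p : Fin (n + 1) → ℂ} {c : ℂ} (hc : c ≠ 0)
    (hG : C c * G - comb p B ∈ P) (hm : MeetsForm q G f U) :
    MeetsWithMult q p (fun z => coverMap B (f z)) U := by
  intro s hs
  obtain ⟨φ, hφ, he, hord⟩ := hm s hs
  have hvan : ∀ᶠ z in 𝓝 s, ∀ Q ∈ P, eval (φ z) Q = 0 := by
    filter_upwards [he, hU.mem_nhds hs] with z hz hzU Q hQ
    obtain ⟨h1, h2⟩ := hz
    refine eval_of_mem hP h1 ?_ hQ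
    intro Q' hQ' k hk
    rw [← h2]
    exact hfY z hzU Q' hQ' k hk
  have hcomb : ∀ z, ∑ a, p a * eval (φ z) (B a) = eval (φ z) (comb p B) := by
    intro z
    unfold comb
    rw [map_sum]
    refine Finset.sum_congr rfl fun a _ => ?_
    rw [map_mul, eval_C]
  have hGz : ∀ᶠ z in 𝓝 s, ∑ a, p a * eval (φ z) (B a) = c * eval (φ z) G := by
    filter_upwards [hvan] with z hz
    have h1 := hz _ hG
    rw [map_sub, map_mul, eval_C, sub_eq_zero] at h1
    rw [hcomb, h1]
  refine ⟨fun z a => eval (φ z) (B a), ?_, ?_, ?_⟩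
  · rw [analyticAt_pi_iff]
    exact fun a => SecOrb_analytic hφ (B a)
  · filter_upwards [he, hvan] with z hz hz2
    obtain ⟨h1, h2⟩ := hz
    have h4 := eval_ne_zero hB h1 hz2
    refine ⟨h4, ?_⟩
    rw [h2]
    exact coverMap_mk hB.hom h1 h4
  · intro h0
    have h1 := hGz.self_of_nhds
    rw [h0] at h1
    have h2 : eval (φ s) G = 0 := (mul_eq_zero.1 h1.symm).resolve_left hc
    have h3 := hord h2
    have h4 : analyticOrderAt (fun z => ∑ a, p a * eval (φ z) (B a)) s =
        analyticOrderAt (fun z => c * eval (φ z) G) s := analyticOrderAt_congr hGz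
    have h5 : analyticOrderAt (fun z => c * eval (φ z) G) s =
        analyticOrderAt (fun _ : ℂ => c) s + analyticOrderAt (fun z => eval (φ z) G) s :=
      analyticOrderAt_mul analyticAt_const (SecOrb_analytic hφ G)
    change (q : ℕ∞) ≤ analyticOrderAt (fun z => ∑ a, p a * eval (φ z) (B a)) s
    rw [h4, h5]
    exact h3.trans le_add_self

/-- **Maps to a variety with multiplicities over hypersurface sections.** -/
theorem OrbifoldSection.of_orbExt {q m m' k : ℕ} (hP : Homog P) (hB : BaseFree P e₀ B)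
    {G : Fin m → MvPolynomial (Fin (M + 1)) ℂ} {p : Fin m' → Fin (n + 1) → ℂ}
    {Δ' : MvPolynomial (Fin (n + 1)) ℂ} (hk : Δ'.IsHomogeneous k) (h : OrbExt q p Δ')
    {σ : Fin m' → Fin m} {c : Fin m' → ℂ} (hc : ∀ j, c j ≠ 0)
    (hG : ∀ j, C (c j) * G (σ j) - comb (p j) B ∈ P) :
    OrbifoldSection q P G (aeval B Δ') := by
  have hpic : ∀ f : ℂ → PN M, HolomorphicInto f puncturedDisc →
      (∀ z ∈ puncturedDisc, f z ∈ variety P) → (∀ j, MeetsForm q (G j) f puncturedDisc) →
      (∃ z ∈ puncturedDisc, ¬ VanishesAt (aeval B Δ') (f z)) →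
      ∃ g : ℂ → PN M, HolomorphicInto g (Metric.ball 0 1) ∧ ∀ z ∈ puncturedDisc, g z = f z := by
    intro f hf hfY hm hne
    refine extends_of_coverMap hP hB hf hfY (h _ (coverMap_holomorphic hP hB isOpen_puncturedDisc
      hf hfY) (fun j => (hm (σ j)).coverMap hP hB isOpen_puncturedDisc hfY (hc j) (hG j)) ?_)
    obtain ⟨z, hz, hz'⟩ := hne
    exact ⟨z, hz, fun hcon => hz' ((vanishes_coverMap_iff hP hB hk (hfY z hz)).1 hcon)⟩
  refine ⟨hpic, fun f hf hfY hm hne z w => ?_⟩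
  exact brody_of_picard (hk.aeval _ hB.hom) hf hne (fun hgh hne' => hpic _ hgh (fun z _ => hfY _)
    (fun j => (hm j).exp) hne') z w

end

end Pool.Agent.H5.DG

end
end

section

/-!
# Project DG2, module Main2: the main theorem on hypersurface sections
-/

open MvPolynomial
open Pool.Agent.H17 (PN VanishesAt)

noncomputable section

namespace Pool.Agent.H5.DG

/-- At most `k` of the forms `G j` vanish at any point of the variety given by `P`. -/
def AtMostThrough (k : ℕ) {m M : ℕ} (P : Ideal (MvPolynomial (Fin (M + 1)) ℂ))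
    (G : Fin m → MvPolynomial (Fin (M + 1)) ℂ) : Prop :=
  ∀ x ∈ variety P, {j | VanishesAt (G j) x}.ncard ≤ k

end Pool.Agent.H5.DG

end
end

section

/-!
# Project DG4, module Sel4: choice of hypersurfaces in general position (idea of helper39)

From a large set `S` of forms such that only a small part of them vanishes at any point of the
variety given by `P` one can choose `n` forms, at most `k₀` of which vanish at any point, where `k₀`
depends only on the number of the variables and the degrees.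
-/

open MvPolynomial
open Pool.Agent.H17 (PN VanishesAt)
open Pool.Agent.H5.DG (Homog variety AtMostThrough)

noncomputable section

namespace Pool.Agent.H5.DG4

variable {M m : ℕ}

/-- All subsets of `T` with a common zero are linearly independent. -/
private def IndepZeros (P : Ideal (MvPolynomial (Fin (M + 1)) ℂ))
    (G : Fin m → MvPolynomial (Fin (M + 1)) ℂ) (T : Finset (Fin m)) : Prop :=
  ∀ T' ⊆ T, (∃ y ∈ variety P, ∀ j ∈ T', VanishesAt (G j) y) →
    LinearIndepOn ℂ G (T' : Set (Fin m))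

private theorem exists_indep (n : ℕ) {P : Ideal (MvPolynomial (Fin (M + 1)) ℂ)}
    {G : Fin m → MvPolynomial (Fin (M + 1)) ℂ} {S : Finset (Fin m)} (hS : 2 ^ (n + 2) ≤ S.card)
    (hpos : ∀ y ∈ variety P,
      2 ^ (n + 2) * {j | j ∈ S ∧ VanishesAt (G j) y}.ncard ≤ S.card) :
    ∀ t ≤ n, ∃ T : Finset (Fin m), T ⊆ S ∧ T.card = t ∧ IndepZeros P G T := by
  classical
  intro t
  induction t with
  | zero =>
    intro _
    refine ⟨∅, Finset.empty_subset _, rfl, fun T' hT' _ => ?_⟩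
    rw [Finset.subset_empty.1 hT', Finset.coe_empty]
    exact linearIndepOn_empty ℂ G
  | succ t ih =>
    intro ht
    obtain ⟨T, hTS, hTc, hT⟩ := ih (by omega)
    -- a common zero of every subset which has one
    have hex : ∀ T' : Finset (Fin m), ∃ Z : Finset (Fin m),
        (2 ^ (n + 2) * Z.card ≤ S.card) ∧
        ((∃ y ∈ variety P, ∀ j ∈ T', VanishesAt (G j) y) →
          ∃ y ∈ variety P, (∀ j ∈ T', VanishesAt (G j) y) ∧
            ∀ j ∈ S, VanishesAt (G j) y → j ∈ Z) := by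
      intro T'
      by_cases h : ∃ y ∈ variety P, ∀ j ∈ T', VanishesAt (G j) y
      · obtain ⟨y, hy, hyT⟩ := h
        refine ⟨S.filter fun j => VanishesAt (G j) y, ?_, fun _ => ⟨y, hy, hyT, fun j hj hjy =>
          Finset.mem_filter.2 ⟨hj, hjy⟩⟩⟩
        have h1 := hpos y hy
        have h2 : {j | j ∈ S ∧ VanishesAt (G j) y} =
            ((S.filter fun j => VanishesAt (G j) y : Finset (Fin m)) : Set (Fin m)) := by
          ext j
          rw [Finset.mem_coe, Finset.mem_filter]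
          rfl
        rwa [h2, Set.ncard_coe_finset] at h1
      · exact ⟨∅, by simp, fun h' => absurd h' h⟩
    choose Z hZc hZ using hex
    obtain ⟨Bad, hBad⟩ : ∃ Bad : Finset (Fin m), Bad = T ∪ T.powerset.biUnion Z := ⟨_, rfl⟩
    have hcard : Bad.card < S.card := by
      have h1 : Bad.card ≤ t + (T.powerset.biUnion Z).card := by
        rw [hBad, ← hTc]
        exact Finset.card_union_le _ _
      have h2 : 2 ^ (n + 2) * (T.powerset.biUnion Z).card ≤ 2 ^ t * S.card := by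
        calc 2 ^ (n + 2) * (T.powerset.biUnion Z).card ≤
              2 ^ (n + 2) * ∑ T' ∈ T.powerset, (Z T').card :=
            Nat.mul_le_mul_left _ Finset.card_biUnion_le
          _ = ∑ T' ∈ T.powerset, 2 ^ (n + 2) * (Z T').card := by rw [Finset.mul_sum]
          _ ≤ ∑ _T' ∈ T.powerset, S.card := Finset.sum_le_sum fun T' _ => hZc T'
          _ = 2 ^ t * S.card := by
            rw [Finset.sum_const, Finset.card_powerset, hTc, smul_eq_mul]
      have h3 : 2 ^ (n + 2) = 2 ^ t * 2 ^ (n + 2 - t) := by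
        rw [← pow_add]
        congr 1
        omega
      have h4 : (2 : ℕ) ^ 3 ≤ 2 ^ (n + 2 - t) := Nat.pow_le_pow_right (by norm_num) (by omega)
      have h5 : 2 ^ (n + 2 - t) * (T.powerset.biUnion Z).card ≤ S.card := by
        rw [h3, mul_assoc] at h2
        exact Nat.le_of_mul_le_mul_left h2 (pow_pos (by norm_num) t)
      have h6 : 2 ^ 3 * (T.powerset.biUnion Z).card ≤ S.card :=
        (Nat.mul_le_mul_right _ h4).trans h5
      have h7 : t < 2 ^ t := Nat.lt_two_pow_self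
      have h8 : 2 ^ t * 4 ≤ S.card := by
        calc 2 ^ t * 4 = 2 ^ (t + 2) := by ring
          _ ≤ 2 ^ (n + 2) := Nat.pow_le_pow_right (by norm_num) (by omega)
          _ ≤ S.card := hS
      omega
    obtain ⟨j, hjS, hjB⟩ := Finset.exists_mem_notMem_of_card_lt_card hcard
    rw [hBad, Finset.mem_union, not_or] at hjB
    refine ⟨insert j T, Finset.insert_subset hjS hTS, by
      rw [Finset.card_insert_of_notMem hjB.1, hTc], fun T'' hT'' hy => ?_⟩
    by_cases hj : j ∈ T''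
    · have hT' : T''.erase j ⊆ T := by
        intro i hi
        rcases Finset.mem_insert.1 (hT'' (Finset.mem_of_mem_erase hi)) with h | h
        · exact absurd h (Finset.ne_of_mem_erase hi)
        · exact h
      have hy' : ∃ y ∈ variety P, ∀ i ∈ T''.erase j, VanishesAt (G i) y := by
        obtain ⟨y, h1, h2⟩ := hy
        exact ⟨y, h1, fun i hi => h2 i (Finset.mem_of_mem_erase hi)⟩
      obtain ⟨y, -, hyT, hyZ⟩ := hZ (T''.erase j) hy'
      have hjy : ¬ VanishesAt (G j) y := fun hcon => hjB.2 (Finset.mem_biUnion.2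
        ⟨T''.erase j, Finset.mem_powerset.2 hT', hyZ j hjS hcon⟩)
      have hspan : G j ∉ Submodule.span ℂ (G '' (T''.erase j : Finset (Fin m))) := by
        intro hcon
        apply hjy
        have h1 : Submodule.span ℂ (G '' (T''.erase j : Finset (Fin m))) ≤
            LinearMap.ker (aeval (R := ℂ) y.rep).toLinearMap := by
          rw [Submodule.span_le]
          rintro _ ⟨i, hi, rfl⟩
          have h2 : eval y.rep (G i) = 0 := hyT i hi
          rw [SetLike.mem_coe, LinearMap.mem_ker]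
          exact (RingHom.congr_fun (MvPolynomial.coe_aeval_eq_eval y.rep) (G i)).trans h2
        have h2 := h1 hcon
        rw [LinearMap.mem_ker] at h2
        exact (RingHom.congr_fun (MvPolynomial.coe_aeval_eq_eval y.rep) (G j)).symm.trans h2
      have h1 := (hT _ hT' hy').insert hspan
      have h2 : insert j ((T''.erase j : Finset (Fin m)) : Set (Fin m)) = (T'' : Set (Fin m)) := by
        rw [← Finset.coe_insert, Finset.insert_erase hj]
      rwa [h2] at h1
    · refine hT T'' (fun i hi => ?_) hy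
      rcases Finset.mem_insert.1 (hT'' hi) with h | h
      · exact absurd (h ▸ hi) hj
      · exact h

/-- **Choice of `n` forms** in `S`, at most `k₀` of which vanish at any point. -/
theorem exists_subfamily (M δ : ℕ) : ∃ k₀ : ℕ, ∀ (n m : ℕ)
    (P : Ideal (MvPolynomial (Fin (M + 1)) ℂ)) (G : Fin m → MvPolynomial (Fin (M + 1)) ℂ),
    (∀ j, ∃ e, e ≤ δ ∧ (G j).IsHomogeneous e) → ∀ S : Finset (Fin m), 2 ^ (n + 2) ≤ S.card →
    (∀ y ∈ variety P, 2 ^ (n + 2) * {j | j ∈ S ∧ VanishesAt (G j) y}.ncard ≤ S.card) →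
    ∃ f : Fin n → Fin m, Function.Injective f ∧ (∀ i, f i ∈ S) ∧
      AtMostThrough k₀ P fun i => G (f i) := by
  classical
  obtain ⟨W, hW⟩ : ∃ W : Submodule ℂ (MvPolynomial (Fin (M + 1)) ℂ),
      W = restrictTotalDegree (Fin (M + 1)) ℂ δ := ⟨_, rfl⟩
  have hWf : FiniteDimensional ℂ W := by
    rw [hW]
    infer_instance
  refine ⟨Module.finrank ℂ W, fun n m P G hG S hS hpos => ?_⟩
  obtain ⟨T, hTS, hTc, hT⟩ := exists_indep n hS hpos n le_rfl
  refine ⟨T.orderEmbOfFin hTc, (T.orderEmbOfFin hTc).injective,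
    fun i => hTS (T.orderEmbOfFin_mem hTc i), fun x hx => ?_⟩
  obtain ⟨T', hT'⟩ : ∃ T' : Finset (Fin m), T' = T.filter fun j => VanishesAt (G j) x := ⟨_, rfl⟩
  have h1 : LinearIndepOn ℂ G (T' : Set (Fin m)) := by
    refine hT T' ?_ ⟨x, hx, fun j hj => ?_⟩
    · rw [hT']
      exact Finset.filter_subset _ _
    · rw [hT'] at hj
      exact (Finset.mem_filter.1 hj).2
  have hmem : ∀ j, G j ∈ W := by
    intro j
    obtain ⟨e, he, hj⟩ := hG j
    rw [hW, mem_restrictTotalDegree]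
    exact hj.totalDegree_le.trans he
  have h2 : LinearIndependent ℂ fun j : (T' : Set (Fin m)) => (⟨G j, hmem j⟩ : W) := by
    have h3 : LinearIndependent ℂ fun j : (T' : Set (Fin m)) => G j := h1
    refine LinearIndependent.of_comp W.subtype ?_
    exact h3
  have h3 := h2.fintype_card_le_finrank
  have h4 : Fintype.card (T' : Set (Fin m)) = T'.card := by simp
  rw [h4] at h3
  refine le_trans ?_ h3
  have h5 : {i | VanishesAt (G (T.orderEmbOfFin hTc i)) x}.ncard =
      ((T.orderEmbOfFin hTc) '' {i | VanishesAt (G (T.orderEmbOfFin hTc i)) x}).ncard :=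
    (Set.ncard_image_of_injective _ (T.orderEmbOfFin hTc).injective).symm
  rw [h5, ← Set.ncard_coe_finset T']
  refine Set.ncard_le_ncard ?_ (Set.toFinite _)
  rintro _ ⟨i, hi, rfl⟩
  rw [Finset.mem_coe, hT', Finset.mem_filter]
  exact ⟨T.orderEmbOfFin_mem hTc i, hi⟩

end Pool.Agent.H5.DG4

end
end
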