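import Pool.Agent.H94.DG.H5.DG.CovAlg
import Pool.Agent.H94.DG.H5.DG.D2Pt
import Pool.Agent.H94.DG.H5.DG3.Defs
import Pool.Agent.H94.DG.M17

/-! The parts of this file: H5.DG4.Clu, H5.DG3.PointK, H5.DG3.Centre, H5.DG3.OrdPull. -/

section

/-!
# Project DG4, module Clu: clusters of hypersurfaces

A cluster consists of hypersurfaces `G (ι j) = 0` of the same degree `e` which are, on the variety
given by `P`, the hyperplane sections `∑ a, p j a * B a = 0` of the finite map given by the forms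
`B a`, such that the points `p j` lie on the curve given by the norm form `N` of degree `κ`, and such
that their number is large with respect to `κ`. A partition of `S` consists of disjoint clusters
which contain almost all `j ∈ S`.
-/

open MvPolynomial
open Pool.Agent.H5.DG

noncomputable section

namespace Pool.Agent.H5.DG4

variable {M m : ℕ}

/-- A cluster of hypersurfaces. -/
structure Cluster (A : ℕ) (P : Ideal (MvPolynomial (Fin (M + 1)) ℂ))
    (G : Fin m → MvPolynomial (Fin (M + 1)) ℂ) where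
  n : ℕ
  κ : ℕ
  len : ℕ
  e : ℕ
  N : Polynomial (PV n)
  φ : PVW n
  p : Fin len → Fin (n + 2) → ℂ
  ι : Fin len → Fin m
  c : Fin len → ℂ
  B : Fin (n + 2) → MvPolynomial (Fin (M + 1)) ℂ
  inj : Function.Injective ι
  data : DGData κ N φ
  hom : ∃ k, (Del κ N).IsHomogeneous k
  mem : ∀ j, p j ∈ Gam N ℂ
  pinj : Function.Injective p
  card : 2 * A * (n + 6) * κ < len
  base : BaseFree P e B
  cne : ∀ j, c j ≠ 0
  eq : ∀ j, C (c j) * G (ι j) - comb (p j) B ∈ P
  homG : ∀ j, (G (ι j)).IsHomogeneous e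
  del : aeval B (Del κ N) ∉ P

/-- The exceptional form of a cluster. -/
def Cluster.form {A : ℕ} {P : Ideal (MvPolynomial (Fin (M + 1)) ℂ)}
    {G : Fin m → MvPolynomial (Fin (M + 1)) ℂ} (γ : Cluster A P G) :
    MvPolynomial (Fin (M + 1)) ℂ := aeval γ.B (Del γ.κ γ.N)

/-- Disjoint clusters in `S` which contain almost all `j ∈ S`. -/
structure Partition (A : ℕ) (P : Ideal (MvPolynomial (Fin (M + 1)) ℂ))
    (G : Fin m → MvPolynomial (Fin (M + 1)) ℂ) (S : Finset (Fin m)) where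
  ν : ℕ
  γ : Fin ν → Cluster A P G
  mem : ∀ a j, (γ a).ι j ∈ S
  disj : ∀ a b i j, (γ a).ι i = (γ b).ι j → a = b
  num : (A - 1) * ∑ j ∈ S, (G j).totalDegree <
    A * ∑ a, (γ a).e * ((γ a).len - ((γ a).n + 6) * (γ a).κ)

/-- The exceptional form of a partition. -/
def Partition.form {A : ℕ} {P : Ideal (MvPolynomial (Fin (M + 1)) ℂ)}
    {G : Fin m → MvPolynomial (Fin (M + 1)) ℂ} {S : Finset (Fin m)} (Γ : Partition A P G S) :
    MvPolynomial (Fin (M + 1)) ℂ := ∏ a, (Γ.γ a).form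

theorem Cluster.form_homogeneous {A : ℕ} {P : Ideal (MvPolynomial (Fin (M + 1)) ℂ)}
    {G : Fin m → MvPolynomial (Fin (M + 1)) ℂ} (γ : Cluster A P G) :
    ∃ d, γ.form.IsHomogeneous d := by
  obtain ⟨k, hk⟩ := γ.hom
  exact ⟨_, hk.aeval _ γ.base.hom⟩

theorem Partition.form_homogeneous {A : ℕ} {P : Ideal (MvPolynomial (Fin (M + 1)) ℂ)}
    {G : Fin m → MvPolynomial (Fin (M + 1)) ℂ} {S : Finset (Fin m)} (Γ : Partition A P G S) :
    ∃ d, Γ.form.IsHomogeneous d := by
  choose d hd using fun a => (Γ.γ a).form_homogeneous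
  exact ⟨_, IsHomogeneous.prod _ _ d fun a _ => hd a⟩

theorem Partition.form_notMem {A : ℕ} {P : Ideal (MvPolynomial (Fin (M + 1)) ℂ)} [P.IsPrime]
    {G : Fin m → MvPolynomial (Fin (M + 1)) ℂ} {S : Finset (Fin m)} (Γ : Partition A P G S) :
    Γ.form ∉ P := by
  intro h
  have hP : P.IsPrime := inferInstance
  obtain ⟨a, -, ha⟩ := (hP.prod_mem_iff).1 h
  exact (Γ.γ a).del ha

end Pool.Agent.H5.DG4

end
end

section

/-!
# Project DG3, module PointK: points of the variety over a field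

`y` is a point of the cone of the variety given by `P` over the field `K`.
`point_unit`: `X a₀ ^ k ∈ span (range B) ⊔ P` at `y`: if all `B b (y)` had positive order, `y a₀ ^ k`
would have positive order.
`point_algebraic`: `exists_relation hP hB a` (module CovAlg) at `y`, as in the proof of
`fun_algebraic` (there for the generic point): `y a ^ e / B b₀ (y)` is algebraic over the field
generated by the `B b (y) / B b₀ (y)`, for all `a`; so is `(y a / y a') ^ e` and `y a / y a'`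
(if `y a' = 0` it is `0`).
-/

open MvPolynomial
open Pool.Agent.H23.Fano (PrimeDivisorOver)
open Pool.Agent.H5.DG (Homog BaseFree)

noncomputable section

namespace Pool.Agent.H5.DG3

variable {M r e : ℕ} {P : Ideal (MvPolynomial (Fin (M + 1)) ℂ)}
  {B : Fin r → MvPolynomial (Fin (M + 1)) ℂ} {K : Type} [Field K] [Algebra ℂ K]

private theorem PointK_poly_ord {w : ℕ} (E : PrimeDivisorOver K w) {y : Fin (M + 1) → K}
    (hreg : ∀ a, 0 ≤ E.ord (y a)) (p : MvPolynomial (Fin (M + 1)) ℂ) :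
    0 ≤ E.ord (aeval y p) := by
  induction p using MvPolynomial.induction_on with
  | C a =>
    rw [aeval_C]
    exact E.ord_const a
  | add p q hp hq =>
    rw [map_add]
    exact (le_min hp hq).trans (E.ord.map_add _ _)
  | mul_X p i hp =>
    rw [map_mul, aeval_X, E.ord.map_mul]
    exact add_nonneg hp (hreg i)

private theorem PointK_scale {m : ℕ} {G : MvPolynomial (Fin m) ℂ}
    {n : ℕ} (hG : G.IsHomogeneous n) (c : K) (x : Fin m → K) :
    aeval (fun i => c * x i) G = c ^ n * aeval x G := by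
  rw [aeval_def, aeval_def, eval₂_eq, eval₂_eq, Finset.mul_sum]
  refine Finset.sum_congr rfl fun m hm => ?_
  have h5 : ∑ i ∈ m.support, m i = n := by
    have := hG (mem_support_iff.1 hm)
    rw [Finsupp.weight_apply, Finsupp.sum] at this
    simpa using this
  simp only [mul_pow, Finset.prod_mul_distrib]
  rw [Finset.prod_pow_eq_pow_sum, h5]
  ring

private theorem PointK_scale_div {m : ℕ} {G : MvPolynomial (Fin m) ℂ}
    {n : ℕ} (hG : G.IsHomogeneous n) {c : K} (hc : c ≠ 0) (x : Fin m → K) :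
    aeval x G = c ^ n * aeval (fun i => x i / c) G := by
  rw [← PointK_scale hG]
  congr 2
  funext i
  rw [mul_div_cancel₀ _ hc]

omit [Algebra ℂ K] in
private theorem PointK_rel {x v y : K} (hv : v ≠ 0) (hx : x = v * y) {s : ℕ}
    (γ : Fin s → K) (h : x ^ s + ∑ t : Fin s, v ^ s * (γ t * y ^ (t : ℕ)) = 0) :
    y ^ s + ∑ t : Fin s, γ t * y ^ (t : ℕ) = 0 := by
  rw [hx, mul_pow, ← Finset.mul_sum, ← mul_add] at h
  exact (mul_eq_zero.1 h).resolve_left (pow_ne_zero _ hv)

theorem point_unit {w : ℕ} (E : PrimeDivisorOver K w) (hB : BaseFree P e B)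
    {y : Fin (M + 1) → K} (hy : ∀ g ∈ P, aeval y g = 0) (hreg : ∀ a, 0 ≤ E.ord (y a))
    {a₀ : Fin (M + 1)} (ha₀ : E.ord (y a₀) = 0) : ∃ b, E.ord (aeval y (B b)) = 0 := by
  classical
  by_contra hcon
  push Not at hcon
  have hpos : ∀ b, 0 < E.ord (aeval y (B b)) := fun b =>
    lt_of_le_of_ne (PointK_poly_ord E hreg (B b)) (Ne.symm (hcon b))
  obtain ⟨k, hk⟩ := hB.base a₀
  obtain ⟨g, hg, q, hq, hgq⟩ := Submodule.mem_sup.1 hk
  obtain ⟨G, hG⟩ := (Submodule.mem_span_range_iff_exists_fun _).1 hg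
  have h1 : (y a₀) ^ k = ∑ b, aeval y (G b) * aeval y (B b) := by
    have h2 : aeval y (X a₀ ^ k : MvPolynomial (Fin (M + 1)) ℂ) = aeval y (g + q) := by rw [hgq]
    rw [map_pow, aeval_X, map_add, hy q hq, add_zero, ← hG, map_sum] at h2
    rw [h2]
    refine Finset.sum_congr rfl fun b _ => ?_
    rw [smul_eq_mul, map_mul]
  have h3 : (0 : WithTop ℤ) < E.ord (∑ b, aeval y (G b) * aeval y (B b)) := by
    refine Finset.sum_induction _ (fun z => (0 : WithTop ℤ) < E.ord z) ?_ ?_ ?_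
    · intro z z' hz hz'
      exact (lt_min hz hz').trans_le (E.ord.map_add _ _)
    · rw [E.ord.map_zero]
      exact WithTop.coe_lt_top (0 : ℤ)
    · intro b _
      rw [E.ord.map_mul]
      exact (hpos b).trans_le (le_add_of_nonneg_left (PointK_poly_ord E hreg (G b)))
  rw [← h1, E.ord.map_pow, ha₀, smul_zero] at h3
  exact lt_irrefl _ h3

theorem point_algebraic (hP : Homog P) (hB : BaseFree P e B)
    {y : Fin (M + 1) → K} (hy : ∀ g ∈ P, aeval y g = 0) {b₀ : Fin r}
    (hb₀ : aeval y (B b₀) ≠ 0) (a a' : Fin (M + 1)) :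
    IsAlgebraic (IntermediateField.adjoin ℂ (Set.range fun b =>
      aeval y (B b) / aeval y (B b₀))) (y a / y a') := by
  classical
  obtain ⟨K₀, hK₀⟩ : ∃ K₀ : IntermediateField ℂ K, K₀ = IntermediateField.adjoin ℂ
    (Set.range fun b => aeval y (B b) / aeval y (B b₀)) := ⟨_, rfl⟩
  rw [← hK₀]
  have hmem : ∀ c : MvPolynomial (Fin r) ℂ,
      aeval (fun b => aeval y (B b) / aeval y (B b₀)) c ∈ K₀ := by
    intro c
    have h1 : ∀ b, aeval y (B b) / aeval y (B b₀) ∈ K₀ := by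
      intro b
      rw [hK₀]
      exact IntermediateField.subset_adjoin _ _ ⟨b, rfl⟩
    induction c using MvPolynomial.induction_on with
    | C a =>
      rw [aeval_C]
      exact K₀.algebraMap_mem a
    | add p q hp hq =>
      rw [map_add]
      exact add_mem hp hq
    | mul_X p i hp =>
      rw [map_mul, aeval_X]
      exact mul_mem hp (h1 i)
  have hval : ∀ c : MvPolynomial (Fin r) ℂ,
      aeval y (aeval B c) = aeval (fun b => aeval y (B b)) c := by
    intro c
    rw [← AlgHom.comp_apply, MvPolynomial.comp_aeval]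
  -- the normalised powers are algebraic
  have hya : ∀ i, IsAlgebraic K₀ (y i ^ e / aeval y (B b₀)) := by
    intro i
    obtain ⟨s, c, hs, hc, hrel⟩ := Pool.Agent.H5.DG.exists_relation hP hB i
    have h1 := hy _ hrel
    rw [map_add, map_sum, map_pow, map_pow, aeval_X] at h1
    have h2 : ∀ t : Fin s, aeval y (aeval B (c t) * (X i ^ e) ^ (t : ℕ)) =
        aeval y (B b₀) ^ s * (aeval (fun b => aeval y (B b) / aeval y (B b₀)) (c t) *
          (y i ^ e / aeval y (B b₀)) ^ (t : ℕ)) := by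
      intro t
      rw [map_mul, map_pow, map_pow, aeval_X, hval, PointK_scale_div (hc t) hb₀, div_pow]
      have h3 : aeval y (B b₀) ^ s = aeval y (B b₀) ^ (s - (t : ℕ)) *
          aeval y (B b₀) ^ (t : ℕ) := by
        rw [← pow_add]
        congr 1
        have := t.2
        omega
      rw [h3]
      field_simp
    rw [Finset.sum_congr rfl fun t _ => h2 t] at h1
    have h4 : (y i ^ e / aeval y (B b₀)) ^ s + ∑ t : Fin s,
        aeval (fun b => aeval y (B b) / aeval y (B b₀)) (c t) *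
          (y i ^ e / aeval y (B b₀)) ^ (t : ℕ) = 0 :=
      PointK_rel hb₀ (mul_div_cancel₀ _ hb₀).symm _ h1
    -- the polynomial
    obtain ⟨q, hq⟩ : ∃ q : Polynomial K₀, q = Polynomial.X ^ s + ∑ t : Fin s,
      Polynomial.C (⟨aeval (fun b => aeval y (B b) / aeval y (B b₀)) (c t), hmem _⟩ : K₀) *
        Polynomial.X ^ (t : ℕ) := ⟨_, rfl⟩
    refine ⟨q, ?_, ?_⟩
    · have h5 : q.coeff s = 1 := by
        rw [hq, Polynomial.coeff_add, Polynomial.coeff_X_pow, if_pos rfl,
          Polynomial.finsetSum_coeff]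
        rw [Finset.sum_eq_zero, add_zero]
        intro t _
        rw [Polynomial.coeff_C_mul, Polynomial.coeff_X_pow, if_neg (by have := t.2; omega),
          mul_zero]
      intro h6
      rw [h6, Polynomial.coeff_zero] at h5
      exact zero_ne_one h5
    · rw [hq, map_add, map_sum, map_pow, Polynomial.aeval_X, ← h4]
      congr 1
      refine Finset.sum_congr rfl fun t _ => ?_
      rw [map_mul, map_pow, Polynomial.aeval_X, Polynomial.aeval_C]
      rfl
  have he : 0 < e := by have := hB.pos; omega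
  have h5 : IsAlgebraic K₀ ((y a / y a') ^ e) := by
    have h6 : (y a / y a') ^ e = (y a ^ e / aeval y (B b₀)) * (y a' ^ e / aeval y (B b₀))⁻¹ := by
      rw [div_pow, inv_div, div_mul_div_comm, mul_comm (y a ^ e), mul_div_mul_left _ _ hb₀]
    rw [h6]
    exact (hya a).mul (hya a').inv
  exact h5.of_pow he

end Pool.Agent.H5.DG3

end
end

section

/-!
# Project DG3, module Centre: prime divisors whose centre lies in the open part

`x i = ratio Q i j₁`, all regular along `E`; so all polynomials in the `x i` are regular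
(`E.ord_const`).
`exists_ord_zero`: suppose all `T ∈ 𝒯` have positive order.  `¬ CentreIn Q B E` at `j₁` gives a form `H`
which vanishes on `B` with `E.ord (H (x)) = 0`.  The polynomial `X j₁ * H` vanishes at all common zeros
`v` of `I` and `𝒯` (`v = 0`, or `[v] ∈ variety I` and `[v] ∈ B`), so a power of it lies in
`I ⊔ span 𝒯` (`MvPolynomial.vanishingIdeal_zeroLocus_eq_radical`); at `x` it has order `0`
(`x j₁ = 1`), the elements of `I` vanish (`eval_ratio_mem`, module SecBase) and those of `span 𝒯` have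
positive order.
`ord_ge_of_mult`: elements of `radical (span {L} ⊔ I)` have order at least `1`; model: `EG_ram` in
`Pool.Agent.H5.DG2.EG2A`.
-/

open MvPolynomial
open Pool.Agent.H17 (PN VanishesAt ZariskiClosedIn)
open Pool.Agent.H17GT (coordFun)
open Pool.Agent.H17LG.Variety (FunField ratio)
open Pool.Agent.H23.Fano (PrimeDivisorOver)
open Pool.Agent.H5.DG (Homog variety)

noncomputable section

namespace Pool.Agent.H5.DG3

section

variable {K : Type} [Field K] {u : AddValuation K (WithTop ℤ)}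

private lemma CE_mul_le {f g : K} {a b : ℤ} (hf : ((a : ℤ) : WithTop ℤ) ≤ u f)
    (hg : ((b : ℤ) : WithTop ℤ) ≤ u g) : ((a + b : ℤ) : WithTop ℤ) ≤ u (f * g) := by
  rw [u.map_mul, WithTop.coe_add]
  exact add_le_add hf hg

private lemma CE_pow_zero {f : K} (h : u f = 0) (m : ℕ) : u (f ^ m) = 0 := by
  induction m with
  | zero => simp
  | succ m ih => rw [pow_succ, u.map_mul, ih, h, add_zero]

private lemma CE_pos_iff {f : K} : 0 < u f ↔ ((1 : ℤ) : WithTop ℤ) ≤ u f := by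
  induction u f using WithTop.recTopCoe with
  | top => simp
  | coe a =>
    constructor
    · intro h
      have h1 : (0 : ℤ) < a := by exact_mod_cast h
      exact_mod_cast (by omega : (1 : ℤ) ≤ a)
    · intro h
      have h1 : (1 : ℤ) ≤ a := by exact_mod_cast h
      exact_mod_cast (by omega : (0 : ℤ) < a)

variable [Algebra ℂ K]

/-- The polynomials whose value has order at least `c`. -/
private def CE_ideal (u : AddValuation K (WithTop ℤ)) {q : ℕ} (y : Fin q → K)
    (hy : ∀ G : MvPolynomial (Fin q) ℂ, 0 ≤ u (aeval y G)) (c : WithTop ℤ) :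
    Ideal (MvPolynomial (Fin q) ℂ) where
  carrier := {G | c ≤ u (aeval y G)}
  add_mem' := by
    intro G H hG hH
    rw [Set.mem_ofPred_eq, map_add]
    exact (le_min hG hH).trans (u.map_add _ _)
  zero_mem' := by
    rw [Set.mem_ofPred_eq, map_zero, u.map_zero]
    exact le_top
  smul_mem' := by
    intro G H hH
    rw [Set.mem_ofPred_eq, smul_eq_mul, map_mul, u.map_mul]
    exact le_trans hH (le_add_of_nonneg_left (hy G))

private lemma CE_nonneg (hu : ∀ c : ℂ, 0 ≤ u (algebraMap ℂ K c)) {q : ℕ} {y : Fin q → K}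
    (hy : ∀ i, 0 ≤ u (y i)) (G : MvPolynomial (Fin q) ℂ) : 0 ≤ u (aeval y G) := by
  induction G using MvPolynomial.induction_on with
  | C a =>
    rw [aeval_C]
    exact hu a
  | add p p' h h' =>
    rw [map_add]
    exact (le_min h h').trans (u.map_add _ _)
  | mul_X p i h =>
    rw [map_mul, aeval_X, u.map_mul]
    exact add_nonneg h (hy i)

private lemma CE_le_ideal {q : ℕ} {y : Fin q → K} {I : Ideal (MvPolynomial (Fin q) ℂ)}
    (hy : ∀ G : MvPolynomial (Fin q) ℂ, 0 ≤ u (aeval y G)) (hI : ∀ G ∈ I, aeval y G = 0)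
    (c : WithTop ℤ) : I ≤ CE_ideal u y hy c := by
  intro G hG
  show c ≤ u (aeval y G)
  rw [hI G hG, u.map_zero]
  exact le_top

private lemma CE_rad {q : ℕ} {y : Fin q → K}
    (hy : ∀ G : MvPolynomial (Fin q) ℂ, 0 ≤ u (aeval y G)) {J : Ideal (MvPolynomial (Fin q) ℂ)}
    (h1 : J ≤ CE_ideal u y hy ((1 : ℤ) : WithTop ℤ)) :
    Ideal.radical J ≤ CE_ideal u y hy ((1 : ℤ) : WithTop ℤ) := by
  intro G hG
  obtain ⟨t, ht⟩ := hG
  have h3 : ((1 : ℤ) : WithTop ℤ) ≤ u (aeval y (G ^ t)) := h1 ht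
  show ((1 : ℤ) : WithTop ℤ) ≤ u (aeval y G)
  by_contra h4
  rw [← CE_pos_iff, not_lt] at h4
  have h5 : u (aeval y G) = 0 := le_antisymm h4 (hy G)
  rw [map_pow, CE_pow_zero h5] at h3
  exact absurd h3 (by exact_mod_cast (by norm_num : ¬ (1 : ℤ) ≤ 0))

private lemma CE_pow_le {q : ℕ} {y : Fin q → K}
    (hy : ∀ G : MvPolynomial (Fin q) ℂ, 0 ≤ u (aeval y G)) {J : Ideal (MvPolynomial (Fin q) ℂ)}
    (h1 : J ≤ CE_ideal u y hy ((1 : ℤ) : WithTop ℤ)) (r : ℕ) :
    J ^ r ≤ CE_ideal u y hy (((r : ℕ) : ℤ) : WithTop ℤ) := by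
  induction r with
  | zero =>
    intro G _
    show (((0 : ℕ) : ℤ) : WithTop ℤ) ≤ u (aeval y G)
    exact_mod_cast hy G
  | succ r ih =>
    rw [pow_succ, Ideal.mul_le]
    intro G hG H hH
    show (((r + 1 : ℕ) : ℤ) : WithTop ℤ) ≤ u (aeval y (G * H))
    rw [map_mul]
    have h2 := CE_mul_le (a := (r : ℤ)) (b := 1) (ih hG) (h1 hH)
    push_cast at h2 ⊢
    exact h2

end

variable {N w : ℕ} {I : Ideal (MvPolynomial (Fin (N + 1)) ℂ)}

theorem exists_ord_zero (hI : Homog I) (Q : Ideal (MvPolynomial (Fin (N + 1)) ℂ)) [Q.IsPrime]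
    (hQ : Homog Q) (hIQ : I ≤ Q) {B : Set (PN N)} {E : PrimeDivisorOver (FunField Q) w}
    (hE : ¬ CentreIn Q B E) {j₁ : Fin (N + 1)} (hj₁ : coordFun Q j₁ ≠ 0)
    (hreg : ∀ i, 0 ≤ E.ord (ratio Q i j₁)) (𝒯 : Set (MvPolynomial (Fin (N + 1)) ℂ))
    (h𝒯 : ∀ T ∈ 𝒯, ∃ d, T.IsHomogeneous d)
    (hcov : ∀ x ∈ variety I \ B, ∃ T ∈ 𝒯, ¬ VanishesAt T x) :
    ∃ T ∈ 𝒯, E.ord (aeval (fun i => ratio Q i j₁) T) = 0 := by
  classical
  by_contra hcon
  push Not at hcon
  have hy : ∀ G : MvPolynomial (Fin (N + 1)) ℂ, 0 ≤ E.ord (aeval (fun i => ratio Q i j₁) G) :=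
    CE_nonneg E.ord_const hreg
  have hx₁ : ratio Q j₁ j₁ = 1 := Subtype.ext (div_self hj₁)
  obtain ⟨H, d, hH, hHB, hH0⟩ : ∃ (H : MvPolynomial (Fin (N + 1)) ℂ) (d : ℕ),
      H.IsHomogeneous d ∧ (∀ x ∈ B, VanishesAt H x) ∧
      E.ord (aeval (fun i => ratio Q i j₁) H) = 0 := by
    by_contra h
    push Not at h
    exact hE ⟨j₁, hj₁, hreg, fun T d hT hTB => lt_of_le_of_ne (hy T) (Ne.symm (h T d hT hTB))⟩
  have hmem : X j₁ * H ∈ (I ⊔ Ideal.span 𝒯).radical := by
    rw [← MvPolynomial.vanishingIdeal_zeroLocus_eq_radical (k := ℂ) (K := ℂ),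
      MvPolynomial.mem_vanishingIdeal_iff]
    intro v hv
    rw [MvPolynomial.mem_zeroLocus_iff] at hv
    have hev : ∀ p : MvPolynomial (Fin (N + 1)) ℂ, aeval v p = eval v p := fun p => by
      rw [MvPolynomial.aeval_eq_eval]
    rw [hev, map_mul, eval_X]
    by_cases hv0 : v j₁ = 0
    · rw [hv0, zero_mul]
    have hvne : v ≠ 0 := fun h => hv0 (congrFun h j₁)
    have hvar : Projectivization.mk ℂ v hvne ∈ variety I := by
      intro P hP k hPk
      rw [Pool.Agent.H17.vanishesAt_mk_iff hPk, ← hev]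
      exact hv P (Ideal.mem_sup_left hP)
    have hB : Projectivization.mk ℂ v hvne ∈ B := by
      by_contra hB
      obtain ⟨T, hT, hTv⟩ := hcov _ ⟨hvar, hB⟩
      obtain ⟨e, he⟩ := h𝒯 T hT
      rw [Pool.Agent.H17.vanishesAt_mk_iff he, ← hev] at hTv
      exact hTv (hv T (Ideal.mem_sup_right (Ideal.subset_span hT)))
    have h1 := hHB _ hB
    rw [Pool.Agent.H17.vanishesAt_mk_iff hH] at h1
    rw [h1, mul_zero]
  have hle : I ⊔ Ideal.span 𝒯 ≤ CE_ideal E.ord _ hy ((1 : ℤ) : WithTop ℤ) := by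
    refine sup_le (CE_le_ideal hy (fun G hG => Pool.Agent.H5.DG.eval_ratio_mem Q hQ hj₁ (hIQ hG)) _) ?_
    rw [Ideal.span_le]
    intro T hT
    exact CE_pos_iff.mp (lt_of_le_of_ne (hy T) (Ne.symm (hcon T hT)))
  have h2 : ((1 : ℤ) : WithTop ℤ) ≤ E.ord (aeval (fun i => ratio Q i j₁) (X j₁ * H)) :=
    CE_rad hy hle hmem
  rw [map_mul, aeval_X, hx₁, one_mul, hH0] at h2
  exact absurd h2 (by exact_mod_cast (by norm_num : ¬ (1 : ℤ) ≤ 0))

theorem ord_ge_of_mult (Q : Ideal (MvPolynomial (Fin (N + 1)) ℂ)) [Q.IsPrime]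
    (hQ : Homog Q) (hIQ : I ≤ Q) {E : PrimeDivisorOver (FunField Q) w}
    {j₁ : Fin (N + 1)} (hj₁ : coordFun Q j₁ ≠ 0) (hreg : ∀ i, 0 ≤ E.ord (ratio Q i j₁))
    {T L : MvPolynomial (Fin (N + 1)) ℂ} {q : ℕ}
    (hTL : T * L ∈ (Ideal.radical (Ideal.span {L} ⊔ I)) ^ q ⊔ I)
    (hT : E.ord (aeval (fun i => ratio Q i j₁) T) = 0)
    (hL : 0 < E.ord (aeval (fun i => ratio Q i j₁) L)) :
    (((q : ℕ) : ℤ) : WithTop ℤ) ≤ E.ord (aeval (fun i => ratio Q i j₁) L) := by
  have hy : ∀ G : MvPolynomial (Fin (N + 1)) ℂ, 0 ≤ E.ord (aeval (fun i => ratio Q i j₁) G) :=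
    CE_nonneg E.ord_const hreg
  have hI0 : ∀ G ∈ I, aeval (fun i => ratio Q i j₁) G = 0 :=
    fun G hG => Pool.Agent.H5.DG.eval_ratio_mem Q hQ hj₁ (hIQ hG)
  have h1 : Ideal.span {L} ⊔ I ≤ CE_ideal E.ord _ hy ((1 : ℤ) : WithTop ℤ) := by
    refine sup_le ?_ (CE_le_ideal hy hI0 _)
    rw [Ideal.span_le, Set.singleton_subset_iff]
    exact CE_pos_iff.mp hL
  have h3 : (Ideal.radical (Ideal.span {L} ⊔ I)) ^ q ⊔ I ≤
      CE_ideal E.ord _ hy (((q : ℕ) : ℤ) : WithTop ℤ) :=
    sup_le (CE_pow_le hy (CE_rad hy h1) q) (CE_le_ideal hy hI0 _)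
  have h4 : (((q : ℕ) : ℤ) : WithTop ℤ) ≤
      E.ord (aeval (fun i => ratio Q i j₁) (T * L)) := h3 hTL
  rwa [map_mul, E.ord.map_mul, hT, zero_add] at h4

end Pool.Agent.H5.DG3

end
end

section

/-!
# Project DG3, module OrdPull: the orders of the inverse images of the hypersurfaces

`exists_good_tuple`: `exists_ord_zero` for the set of all `F β b` (`base`).
`ord_pullback`: `exists_ord_zero` for the set of all products `T * F β b` with a form `T` such that
`T * aeval (F β) (G j)` lies in the ideal of `MultAt`; so `T` and `F β b` have order `0` (both are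
regular).  Put `Lβ = aeval (F β) (G j)` and `L = aeval (F α) (G j)` at `x`.  By `compat` the points
`(F α c (x))_c` and `(F β c (x))_c` are proportional: `F β c = (F β b / F α b) F α c`, and
`F α a F β b = F α b F β a`, so `F α b` has order `0` as well (`F α a`, `F β b` have order `0`, and
`F α b`, `F β a` are regular), the factor has order `0`, and `L`, `Lβ` have the same order
(`aeval_eq_pow_mul`, module SecDim, for the form `G j`).  If it is positive, `ord_ge_of_mult` for `Lβ`.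
-/

open MvPolynomial
open Pool.Agent.H17 (PN VanishesAt ZariskiClosedIn)
open Pool.Agent.H17GT (coordFun)
open Pool.Agent.H17LG.Variety (FunField ratio)
open Pool.Agent.H23.Fano (PrimeDivisorOver)
open Pool.Agent.H5.DG (Homog variety eval_ratio_mem)

noncomputable section

namespace Pool.Agent.H5.DG3

variable {N M m s w q : ℕ} {P : Ideal (MvPolynomial (Fin (M + 1)) ℂ)}
  {G : Fin m → MvPolynomial (Fin (M + 1)) ℂ} {I : Ideal (MvPolynomial (Fin (N + 1)) ℂ)}
  {B Z : Set (PN N)} {F : Fin s → Fin (M + 1) → MvPolynomial (Fin (N + 1)) ℂ}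

theorem exists_good_tuple (h : RamifiedMorphism q P G I B Z F)
    (Q : Ideal (MvPolynomial (Fin (N + 1)) ℂ)) [Q.IsPrime] (hQ : Homog Q) (hIQ : I ≤ Q)
    {E : PrimeDivisorOver (FunField Q) w} (hE : ¬ CentreIn Q B E) {j₁ : Fin (N + 1)}
    (hj₁ : coordFun Q j₁ ≠ 0) (hreg : ∀ i, 0 ≤ E.ord (ratio Q i j₁)) :
    ∃ α a, E.ord (aeval (fun i => ratio Q i j₁) (F α a)) = 0 := by
  obtain ⟨T, ⟨α, a, rfl⟩, hT⟩ := exists_ord_zero h.homog Q hQ hIQ hE hj₁ hreg
    {T | ∃ α a, T = F α a}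
    (by
      rintro T ⟨α, a, rfl⟩
      obtain ⟨e, he⟩ := h.morphism.hom α
      exact ⟨e, he a⟩)
    (fun x hx => by
      obtain ⟨α, a, ha⟩ := h.morphism.base x hx
      exact ⟨F α a, ⟨α, a, rfl⟩, ha⟩)
  exact ⟨α, a, hT⟩

private lemma ord_aeval_nonneg {K : Type} [Field K] [Algebra ℂ K] {k : ℕ}
    (E : PrimeDivisorOver K w) {y : Fin k → K} (hy : ∀ i, 0 ≤ E.ord (y i))
    (p : MvPolynomial (Fin k) ℂ) : 0 ≤ E.ord (aeval y p) := by
  induction p using MvPolynomial.induction_on with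
  | C a => rw [MvPolynomial.aeval_C]; exact E.ord_const a
  | add p p' hp hp' => rw [map_add]; exact le_trans (le_min hp hp') (E.ord.map_add _ _)
  | mul_X p i hp => rw [map_mul, aeval_X, E.ord.map_mul]; exact add_nonneg hp (hy i)

private lemma both_zero {a b : WithTop ℤ} (ha : 0 ≤ a) (hb : 0 ≤ b) (h : a + b = 0) :
    a = 0 ∧ b = 0 := by
  have h1 : a ≤ 0 := by
    calc a ≤ a + b := le_add_of_nonneg_right hb
      _ = 0 := h
  have h2 : b ≤ 0 := by
    calc b ≤ a + b := le_add_of_nonneg_left ha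
      _ = 0 := h
  exact ⟨le_antisymm h1 ha, le_antisymm h2 hb⟩

theorem ord_pullback (h : RamifiedMorphism q P G I B Z F)
    (hGh : ∀ j, ∃ d, (G j).IsHomogeneous d)
    (Q : Ideal (MvPolynomial (Fin (N + 1)) ℂ)) [Q.IsPrime] (hQ : Homog Q) (hIQ : I ≤ Q)
    {E : PrimeDivisorOver (FunField Q) w} (hE : ¬ CentreIn Q B E) {j₁ : Fin (N + 1)}
    (hj₁ : coordFun Q j₁ ≠ 0) (hreg : ∀ i, 0 ≤ E.ord (ratio Q i j₁)) {α : Fin s}
    {a : Fin (M + 1)} (hα : E.ord (aeval (fun i => ratio Q i j₁) (F α a)) = 0) (j : Fin m) :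
    E.ord (aeval (fun i => ratio Q i j₁) (aeval (F α) (G j))) = 0 ∨
      (((q : ℕ) : ℤ) : WithTop ℤ) ≤
        E.ord (aeval (fun i => ratio Q i j₁) (aeval (F α) (G j))) := by
  obtain ⟨T', ⟨β, b, T, d, hT', hTd, hTL⟩, hT0⟩ := exists_ord_zero h.homog Q hQ hIQ hE hj₁ hreg
    {T' | ∃ (β : Fin s) (b : Fin (M + 1)) (T : MvPolynomial (Fin (N + 1)) ℂ) (d : ℕ),
      T' = T * F β b ∧ T.IsHomogeneous d ∧
      T * aeval (F β) (G j) ∈
        (Ideal.radical (Ideal.span {aeval (F β) (G j)} ⊔ I)) ^ q ⊔ I}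
    (by
      rintro T' ⟨β, b, T, d, rfl, hTd, -⟩
      obtain ⟨e, he⟩ := h.morphism.hom β
      exact ⟨d + e, hTd.mul (he b)⟩)
    (fun x hx => by
      obtain ⟨β, ⟨b, hb⟩, T, d, hTd, hTx, hTL⟩ := h.mult x hx j
      refine ⟨T * F β b, ⟨β, b, T, d, rfl, hTd, hTL⟩, ?_⟩
      intro hcon
      unfold VanishesAt at hcon
      rw [map_mul, mul_eq_zero] at hcon
      exact hcon.elim hTx hb)
  obtain ⟨y, hy⟩ : ∃ y : Fin (N + 1) → FunField Q, y = fun i => ratio Q i j₁ := ⟨_, rfl⟩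
  have hyr : ∀ i, 0 ≤ E.ord (y i) := by rw [hy]; exact hreg
  rw [← hy] at hα hT0 ⊢
  rw [hT', map_mul, E.ord.map_mul] at hT0
  obtain ⟨hTz, hβz⟩ := both_zero (ord_aeval_nonneg E hyr T) (ord_aeval_nonneg E hyr (F β b)) hT0
  -- compatibility
  have hcomp : ∀ c, aeval y (F α c) * aeval y (F β b) = aeval y (F α b) * aeval y (F β c) := by
    intro c
    have h1 := eval_ratio_mem Q hQ hj₁ (hIQ (h.morphism.compat α β c b))
    rw [← hy, map_sub, map_mul, map_mul, sub_eq_zero] at h1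
    exact h1
  have h2 : E.ord (aeval y (F α b)) + E.ord (aeval y (F β a)) = 0 := by
    rw [← E.ord.map_mul, ← hcomp a, E.ord.map_mul, hα, hβz, add_zero]
  obtain ⟨hαb, -⟩ := both_zero (ord_aeval_nonneg E hyr _) (ord_aeval_nonneg E hyr _) h2
  have hne : aeval y (F α b) ≠ 0 := by
    intro hcon
    rw [hcon, E.ord.map_zero] at hαb
    exact absurd hαb WithTop.top_ne_zero
  obtain ⟨κ, hκ⟩ : ∃ κ : FunField Q, κ = (aeval y (F α b))⁻¹ * aeval y (F β b) := ⟨_, rfl⟩
  have hκm : aeval y (F α b) * κ = aeval y (F β b) := by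
    rw [hκ, ← mul_assoc, mul_inv_cancel₀ hne, one_mul]
  have hκ0 : E.ord κ = 0 := by
    have h3 : E.ord (aeval y (F α b)) + E.ord κ = 0 := by
      rw [← E.ord.map_mul, hκm, hβz]
    rwa [hαb, zero_add] at h3
  have hprop : ∀ c, aeval y (F β c) = κ * aeval y (F α c) := by
    intro c
    have h3 := hcomp c
    apply mul_left_cancel₀ hne
    rw [← h3, ← mul_assoc, hκm, mul_comm]
  obtain ⟨d', hd'⟩ := hGh j
  have hcomp2 : ∀ γ, aeval y (aeval (F γ) (G j)) = aeval (fun c => aeval y (F γ c)) (G j) := by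
    intro γ
    rw [← AlgHom.comp_apply, MvPolynomial.comp_aeval]
  have hLL : aeval y (aeval (F β) (G j)) = κ ^ d' * aeval y (aeval (F α) (G j)) := by
    rw [hcomp2, hcomp2]
    exact Pool.Agent.H5.DG.aeval_eq_pow_mul hd' hprop
  have hord : E.ord (aeval y (aeval (F β) (G j))) = E.ord (aeval y (aeval (F α) (G j))) := by
    rw [hLL, E.ord.map_mul, E.ord.map_pow, hκ0, smul_zero, zero_add]
  rcases (ord_aeval_nonneg E hyr (aeval (F α) (G j))).eq_or_lt with h0 | hpos
  · exact Or.inl h0.symm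
  · right
    rw [← hord] at hpos ⊢
    rw [hy] at hpos hTz ⊢
    exact ord_ge_of_mult Q hQ hIQ hj₁ hreg hTL hTz hpos

end Pool.Agent.H5.DG3

end
end
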