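import Pool.Agent.H94.DG.M34
import Pool.Agent.H94.DG.M44
import Pool.Agent.H94.DG.M46
import Pool.Agent.H94.DG.M47

/-! The parts of this file: H5.DG4.CluEst, H5.DG4.PartEst, H5.DG4.SmtPart, H5.DG4.SmtC. -/

section

/-!
# Project DG4, module CluEst: the estimates for one cluster, analytic case

As in `Pool.Agent.H5.DG.core_analytic2` (module `Pool.Agent.H5.DG2.Core2`) and `analytic_core` (module
`Pool.Agent.H5.DG.D2`).  `T` from `exists_constants`.  `lam` consists of `Pi.single a 1` (if `g a` is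
not identically zero) or `Pi.single a 1 + Pi.single a₁ 1` (otherwise, `g a₁` not identically zero; the
value is `g a₁`), and of all the `p j`.  `P = Palong φ T.card g * g a₁ ^ T.card`: then the exponent
`K = 2 * κ - T.card` of `pt_est` and `loc_est` becomes `2 * κ`
(`‖g a₁‖ ≤ size g`, `μ ≤ ordZ (g a₁)`).  `size g` and the maximum of the `‖dot (lam i) g‖` are bounded by
multiples of each other.  The `p j` are not in `T` since `lin (p j) g` is not identically zero.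
-/

open MvPolynomial Filter Topology
open Pool.Agent.H62.FC (MeroPunct PunctMero)
open Pool.Agent.H92.GGL (ordZ)
open Pool.Agent.H5.DG

noncomputable section

namespace Pool.Agent.H5.DG4

private theorem order_pow' {u : ℂ → ℂ} {s : ℂ} (hu : MeromorphicAt u s) (hne : meromorphicOrderAt u s ≠ ⊤)
    (e : ℕ) : meromorphicOrderAt (fun z => u z ^ e) s = (((e : ℤ) * ordZ u s : ℤ) : WithTop ℤ) := by
  induction e with
  | zero =>
    have h1 : (fun z => u z ^ 0) = fun _ => (1 : ℂ) := by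
      funext z
      exact pow_zero _
    rw [h1, meromorphicOrderAt_const, if_neg one_ne_zero]
    simp
  | succ e ih =>
    have h1 : (fun z => u z ^ (e + 1)) = (fun z => u z ^ e) * u := by
      funext z
      exact pow_succ _ _
    have h2 : MeromorphicAt (fun z => u z ^ e) s := hu.fun_pow e
    rw [h1, meromorphicOrderAt_mul h2 hu, ih, ← Pool.Agent.H92.GGL.ordZ_cast hne]
    push_cast
    norm_cast
    push_cast
    ring

private theorem punct_pow {R₀ : ℝ} {u : ℂ → ℂ} (hu : MeroPunct R₀ u) (e : ℕ) :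
    MeroPunct R₀ (fun z => u z ^ e) := by
  refine ⟨fun z h1 h2 => (hu.mero z h1 h2).fun_pow e, fun z h1 h2 => ?_⟩
  rw [order_pow' (hu.mero z h1 h2) (hu.ord z h1 h2)]
  exact WithTop.coe_ne_top

private theorem dot_single3 {n : ℕ} (a : Fin (n + 2)) (v : Fin (n + 2) → ℂ) :
    dot (Pi.single a 1) v = v a := by
  unfold dot
  rw [Finset.sum_eq_single a]
  · rw [Pi.single_eq_same, one_mul]
  · intro b _ hb
    rw [Pi.single_eq_of_ne hb, zero_mul]
  · intro h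
    exact absurd (Finset.mem_univ a) h

private theorem dot_add3 {n : ℕ} (x y v : Fin (n + 2) → ℂ) :
    dot (x + y) v = dot x v + dot y v := by
  unfold dot
  rw [← Finset.sum_add_distrib]
  exact Finset.sum_congr rfl fun a _ => by rw [Pi.add_apply, add_mul]

private theorem lin_deriv3 {n : ℕ} {g : Fin (n + 2) → ℂ → ℂ} {z : ℂ}
    (hg : ∀ a, AnalyticAt ℂ (g a) z) (τ : Fin (n + 2) → ℂ) :
    deriv (lin τ g) z = dot τ fun a => deriv (g a) z := by
  have h : lin τ g = fun ζ => ∑ a, τ a * g a ζ := rfl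
  rw [h, deriv_fun_sum (fun a _ => ((hg a).differentiableAt.const_mul _))]
  refine Finset.sum_congr rfl fun a _ => ?_
  rw [deriv_const_mul _ (hg a).differentiableAt]

private theorem lin_mero3 {n : ℕ} {g : Fin (n + 2) → ℂ → ℂ} {z : ℂ}
    (hg : ∀ a, MeromorphicAt (g a) z) (τ : Fin (n + 2) → ℂ) : MeromorphicAt (lin τ g) z := by
  have h : lin τ g = ∑ a, fun ζ => τ a * g a ζ := by
    funext ζ
    rw [Finset.sum_apply]
    rfl
  rw [h]
  exact MeromorphicAt.sum fun a _ => (MeromorphicAt.const _ _).mul (hg a)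

/-- The algebra of the pointwise inequality. -/
private theorem algebra_est {H B s P L C₀ Q F : ℝ} {m k t : ℕ} (hm : 2 * k ≤ m) (ht : t ≤ k)
    (hH : 0 < H) (hB : 0 ≤ B) (hs0 : 0 ≤ s) (hs : s ≤ B * H) (hL : 0 ≤ L) (hP : P ≤ L * H ^ t)
    (hQ : 0 ≤ Q) (hF : 0 ≤ F)
    (h : L * H ^ m ≤ C₀ * H ^ (2 * k - t) * Q * F) :
    P * s ^ (m - 2 * k) ≤ B ^ (m - 2 * k) * |C₀| * Q * F := by
  have h1 : H ^ m = H ^ (m - 2 * k) * H ^ t * H ^ (2 * k - t) := by
    rw [← pow_add, ← pow_add]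
    congr 1
    omega
  have h2 : 0 < H ^ (2 * k - t) := pow_pos hH _
  have h3 : L * (H ^ (m - 2 * k) * H ^ t) ≤ C₀ * Q * F := by
    refine le_of_mul_le_mul_right ?_ h2
    calc L * (H ^ (m - 2 * k) * H ^ t) * H ^ (2 * k - t) = L * H ^ m := by rw [h1]; ring
      _ ≤ _ := h
      _ = _ := by ring
  have h4 : s ^ (m - 2 * k) ≤ B ^ (m - 2 * k) * H ^ (m - 2 * k) := by
    rw [← mul_pow]
    exact pow_le_pow_left₀ hs0 hs _
  calc P * s ^ (m - 2 * k) ≤ (L * H ^ t) * s ^ (m - 2 * k) :=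
        mul_le_mul_of_nonneg_right hP (pow_nonneg hs0 _)
    _ ≤ (L * H ^ t) * (B ^ (m - 2 * k) * H ^ (m - 2 * k)) :=
        mul_le_mul_of_nonneg_left h4 (mul_nonneg hL (pow_nonneg hH.le _))
    _ = B ^ (m - 2 * k) * (L * (H ^ (m - 2 * k) * H ^ t)) := by ring
    _ ≤ B ^ (m - 2 * k) * (C₀ * Q * F) := mul_le_mul_of_nonneg_left h3 (pow_nonneg hB _)
    _ ≤ B ^ (m - 2 * k) * (|C₀| * Q * F) := by
        refine mul_le_mul_of_nonneg_left ?_ (pow_nonneg hB _)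
        exact mul_le_mul_of_nonneg_right (mul_le_mul_of_nonneg_right (le_abs_self _) hQ) hF
    _ = _ := by ring

private theorem le_order_mul3 {u : ℂ → ℂ} {s : ℂ} (hu : MeromorphicAt u s) (x : ℂ)
    {k : WithTop ℤ} (h : k ≤ meromorphicOrderAt u s) :
    k ≤ meromorphicOrderAt (fun ζ => x * u ζ) s := by
  have h1 : (fun ζ => x * u ζ) = (fun _ => x) * u := rfl
  rw [h1, meromorphicOrderAt_mul (MeromorphicAt.const _ _) hu]
  have h2 : 0 ≤ meromorphicOrderAt (fun _ : ℂ => x) s := by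
    rw [meromorphicOrderAt_const]
    split_ifs
    · exact le_top
    · exact le_rfl
  calc k = 0 + k := (zero_add k).symm
    _ ≤ _ := add_le_add h2 h

private theorem le_order_sum3 {ι : Type*} (S : Finset ι) {u : ι → ℂ → ℂ} {s : ℂ}
    (hu : ∀ i, MeromorphicAt (u i) s) {k : WithTop ℤ}
    (h : ∀ i, k ≤ meromorphicOrderAt (u i) s) :
    k ≤ meromorphicOrderAt (∑ i ∈ S, u i) s := by
  classical
  induction S using Finset.induction_on with
  | empty =>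
    rw [Finset.sum_empty]
    have : meromorphicOrderAt (0 : ℂ → ℂ) s = ⊤ := by
      rw [meromorphicOrderAt_eq_top_iff]
      exact Filter.Eventually.of_forall fun _ => rfl
    rw [this]
    exact le_top
  | insert a S ha ih =>
    rw [Finset.sum_insert ha]
    have h1 := meromorphicOrderAt_add (hu a) (MeromorphicAt.sum (s := S) fun i _ => hu i)
    exact (le_min (h a) ih).trans h1

theorem cluster_est {n κ m : ℕ} {N : Polynomial (PV n)} {φ : PVW n} (hd : DGData κ N φ)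
    (hom : ∃ k, (Del κ N).IsHomogeneous k) {p : Fin m → Fin (n + 2) → ℂ}
    (hmem : ∀ j, p j ∈ Gam N ℂ) (hinj : Function.Injective p) (hm : 2 * κ ≤ m) {R₀ : ℝ}
    (hR₀ : 0 < R₀) {g : Fin (n + 2) → ℂ → ℂ}
    (hg : ∀ a, MeroPunct R₀ (g a) ∨
      ∀ z, 0 < ‖z‖ → ‖z‖ < R₀ → ∀ᶠ ζ in 𝓝[≠] z, g a ζ = 0)
    (hgm : ∀ a z, 0 < ‖z‖ → ‖z‖ < R₀ → MeromorphicAt (g a) z)
    (hΔ : ∀ z, 0 < ‖z‖ → ‖z‖ < R₀ →
      ∀ᶠ ζ in 𝓝[≠] z, MvPolynomial.eval (fun a => g a ζ) (Del κ N) ≠ 0)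
    (hp : ∀ j, MeroPunct R₀ (lin (p j) g)) :
    ∃ (l : ℕ) (lam : Fin l → Fin (n + 2) → ℂ) (P : ℂ → ℂ) (ρ : ℕ) (C : ℝ),
      (∀ i, MeroPunct R₀ (lin (lam i) g)) ∧ MeroPunct R₀ P ∧ 0 ≤ C ∧
      (∀ z, 0 < ‖z‖ → ‖z‖ < R₀ → ∀ᶠ ζ in 𝓝[≠] z, ‖P ζ‖ * size g ζ ^ (m - 2 * κ) ≤
        C * (∏ j, ‖lin (p j) g ζ‖) *
          (1 + ∑ i, ‖deriv (lin (lam i) g) ζ / lin (lam i) g ζ‖) ^ ρ) ∧
      ∀ s, 0 < ‖s‖ → ‖s‖ < R₀ → ∀ μ : ℤ,
        (∀ a, ((μ : ℤ) : WithTop ℤ) ≤ meromorphicOrderAt (g a) s) →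
        (∃ a, meromorphicOrderAt (g a) s = ((μ : ℤ) : WithTop ℤ)) →
        ∑ j, ordZ (lin (p j) g) s ≤ ordZ P s + ((m - 2 * κ : ℕ) : ℤ) * μ +
          ((Finset.univ.filter fun j => μ < ordZ (lin (p j) g) s).card : ℤ) := by
  classical
  have hz₁ : 0 < ‖((R₀ / 2 : ℝ) : ℂ)‖ ∧ ‖((R₀ / 2 : ℝ) : ℂ)‖ < R₀ := by
    rw [Complex.norm_real, Real.norm_of_nonneg (by linarith)]
    constructor <;> linarith
  have hκ := hd.pos
  obtain ⟨T, hTκ, hT, hP⟩ := exists_constants hd hR₀ hgm hΔ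
  have hTG : ∀ τ ∈ T, τ ∈ Gam N ℂ := fun τ hτ => ((hT τ).1 hτ).1
  have hTg : ∀ τ ∈ T, ∀ z, 0 < ‖z‖ → ‖z‖ < R₀ → ∀ᶠ ζ in 𝓝[≠] z, lin τ g ζ = 0 := fun τ hτ =>
    ((hT τ).1 hτ).2
  -- the points are not constants
  have hpT : ∀ j, p j ∉ T := by
    intro j hcon
    have h1 := hTg _ hcon _ hz₁.1 hz₁.2
    have h2 := (meromorphicOrderAt_ne_top_iff_eventually_ne_zero ((hp j).mero _ hz₁.1 hz₁.2)).1
      ((hp j).ord _ hz₁.1 hz₁.2)
    obtain ⟨ζ, h3, h4⟩ := (h1.and h2).exists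
    exact h4 h3
  -- a coordinate which is not identically zero
  obtain ⟨a₁, ha₁⟩ : ∃ a, MeroPunct R₀ (g a) := by
    by_contra hcon
    push Not at hcon
    have h0 : ∀ᶠ ζ in 𝓝[≠] ((R₀ / 2 : ℝ) : ℂ), ∀ a, g a ζ = 0 :=
      Filter.eventually_all.2 fun a => (hg a).resolve_left (hcon a) _ hz₁.1 hz₁.2
    have h2 := (meromorphicOrderAt_ne_top_iff_eventually_ne_zero
      ((hp ⟨0, by omega⟩).mero _ hz₁.1 hz₁.2)).1 ((hp ⟨0, by omega⟩).ord _ hz₁.1 hz₁.2)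
    obtain ⟨ζ, h3, h4⟩ := (h0.and h2).exists
    apply h4
    change ∑ a, _ * g a ζ = 0
    exact Finset.sum_eq_zero fun a _ => by rw [h3 a, mul_zero]
  have hnA : ∀ a, ¬ MeroPunct R₀ (g a) →
      ∀ z, 0 < ‖z‖ → ‖z‖ < R₀ → ∀ᶠ ζ in 𝓝[≠] z, g a ζ = 0 := fun a ha => (hg a).resolve_left ha
  -- the linear forms
  set lam : Fin (n + 2) ⊕ Fin m → Fin (n + 2) → ℂ := fun i =>
    Sum.elim (fun a => if MeroPunct R₀ (g a) then Pi.single a 1
      else Pi.single a 1 + Pi.single a₁ 1) (fun j => p j) i with hlam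
  have hlamA : ∀ a, MeroPunct R₀ (g a) → lam (Sum.inl a) = Pi.single a 1 := fun a ha => if_pos ha
  have hlamN : ∀ a, ¬ MeroPunct R₀ (g a) →
      lam (Sum.inl a) = Pi.single a 1 + Pi.single a₁ 1 := fun a ha => if_neg ha
  have hlinA : ∀ a, MeroPunct R₀ (g a) → lin (lam (Sum.inl a)) g = g a := by
    intro a ha
    rw [hlamA a ha]
    funext z
    exact dot_single3 a _
  have hlinN : ∀ a, ¬ MeroPunct R₀ (g a) → ∀ z, 0 < ‖z‖ → ‖z‖ < R₀ →
      ∀ᶠ ζ in 𝓝[≠] z, lin (lam (Sum.inl a)) g ζ = g a₁ ζ := by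
    intro a ha z h1 h2
    filter_upwards [hnA a ha z h1 h2] with ζ h3
    rw [hlamN a ha]
    change dot (Pi.single a 1 + Pi.single a₁ 1) (fun a => g a ζ) = g a₁ ζ
    rw [dot_add3, dot_single3, dot_single3, h3, zero_add]
  obtain ⟨b, hb⟩ : ∃ b : Fin (n + 2) → Fin (n + 2) ⊕ Fin m → ℂ,
      ∀ (v : Fin (n + 2) → ℂ) a, v a = ∑ i, b a i * dot (lam i) v := by
    refine ⟨fun a i => Sum.elim (fun a' => (if a' = a then 1 else 0) -
      (if a' = a₁ ∧ ¬ MeroPunct R₀ (g a) then 1 else 0)) (fun _ => 0) i, fun v a => ?_⟩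
    rw [Fintype.sum_sum_type]
    simp only [Sum.elim_inl, Sum.elim_inr, zero_mul, Finset.sum_const_zero, add_zero, sub_mul]
    rw [Finset.sum_sub_distrib]
    have e1 : ∑ a', (if a' = a then (1 : ℂ) else 0) * dot (lam (Sum.inl a')) v =
        dot (lam (Sum.inl a)) v := by
      rw [Finset.sum_eq_single a]
      · rw [if_pos rfl, one_mul]
      · intro a' _ h1
        rw [if_neg h1, zero_mul]
      · intro h1
        exact absurd (Finset.mem_univ a) h1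
    have e2 : ∑ a', (if a' = a₁ ∧ ¬ MeroPunct R₀ (g a) then (1 : ℂ) else 0) *
        dot (lam (Sum.inl a')) v = if ¬ MeroPunct R₀ (g a) then v a₁ else 0 := by
      rw [Finset.sum_eq_single a₁]
      · rw [hlamA a₁ ha₁, dot_single3]
        by_cases ha : MeroPunct R₀ (g a)
        · rw [if_neg fun h1 => h1.2 ha, if_neg (not_not.2 ha), zero_mul]
        · rw [if_pos ⟨rfl, ha⟩, if_pos ha, one_mul]
      · intro a' _ h1
        rw [if_neg fun h2 => h1 h2.1, zero_mul]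
      · intro h1
        exact absurd (Finset.mem_univ a₁) h1
    rw [e1, e2]
    by_cases ha : MeroPunct R₀ (g a)
    · rw [hlamA a ha, dot_single3, if_neg (not_not.2 ha), sub_zero]
    · rw [hlamN a ha, dot_add3, dot_single3, dot_single3, if_pos ha, add_sub_cancel_right]
  have hne : ∀ i, MeroPunct R₀ (lin (lam i) g) := by
    rintro (a | j)
    · by_cases ha : MeroPunct R₀ (g a)
      · rw [hlinA a ha]
        exact ha
      · refine ⟨fun z h1 h2 => lin_mero3 (fun a => hgm a z h1 h2) _, fun z h1 h2 => ?_⟩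
        have h3 : lin (lam (Sum.inl a)) g =ᶠ[𝓝[≠] z] g a₁ := hlinN a ha z h1 h2
        rw [meromorphicOrderAt_congr h3]
        exact ha₁.ord z h1 h2
    · exact hp j
  -- the marked points
  set J : Finset (Fin (n + 2) ⊕ Fin m) := Finset.univ.map
    (Function.Embedding.inr : Fin m ↪ Fin (n + 2) ⊕ Fin m) with hJdef
  have hJmem : ∀ i ∈ J, ∃ j : Fin m, i = Sum.inr j := by
    intro i hi
    rw [hJdef, Finset.mem_map] at hi
    obtain ⟨j, _, hj⟩ := hi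
    exact ⟨j, hj.symm⟩
  have hJcard : J.card = m := by
    rw [hJdef, Finset.card_map, Finset.card_univ, Fintype.card_fin]
  have hmarked : Marked N lam (fun _ => 1) J := by
    refine ⟨fun _ _ => one_ne_zero, fun i hi => ?_, fun i hi i' hi' hii => ?_⟩
    · obtain ⟨j, rfl⟩ := hJmem i hi
      simp only [one_mul]
      exact hmem j
    · obtain ⟨j, rfl⟩ := hJmem i hi
      obtain ⟨j', rfl⟩ := hJmem i' hi'
      simp only [one_mul] at hii
      have h1 : p j = p j' := funext fun a => congrFun hii a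
      rw [hinj h1]
  have hJT : ∀ i ∈ J, (fun a => (fun _ => (1 : ℂ)) i * lam i a) ∉ T := by
    intro i hi
    obtain ⟨j, rfl⟩ := hJmem i hi
    simp only [one_mul]
    exact hpT j
  have hmarked' : Marked N p (fun _ => 1) Finset.univ := by
    refine ⟨fun _ _ => one_ne_zero, fun j _ => ?_, fun j _ j' _ hjj => ?_⟩
    · simp only [one_mul]
      exact hmem j
    · simp only [one_mul] at hjj
      exact hinj (funext fun a => congrFun hjj a)
  have hJT' : ∀ j ∈ (Finset.univ : Finset (Fin m)), (fun a => (fun _ => (1 : ℂ)) j * p j a) ∉ T := by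
    intro j _
    simp only [one_mul]
    exact hpT j
  obtain ⟨C₀, hC₀⟩ := pt_est hd hb hmarked T hTG hJT
  set B : ℝ := ∑ a, ∑ i, ‖b a i‖ with hBdef
  have hB0 : 0 ≤ B := Finset.sum_nonneg fun _ _ => Finset.sum_nonneg fun _ _ => norm_nonneg _
  have hBa : ∀ a, ∑ i, ‖b a i‖ ≤ B := fun a =>
    Finset.single_le_sum (f := fun a => ∑ i, ‖b a i‖)
      (fun _ _ => Finset.sum_nonneg fun _ _ => norm_nonneg _) (Finset.mem_univ a)
  have hPP : MeroPunct R₀ (fun z => Palong φ T.card g z * g a₁ z ^ T.card) :=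
    hP.mul (punct_pow ha₁ _)
  refine ⟨(n + 2) + m, fun i => lam (finSumFinEquiv.symm i),
    fun z => Palong φ T.card g z * g a₁ z ^ T.card, κ - T.card, B ^ (m - 2 * κ) * |C₀|,
    fun i => hne _, hPP, mul_nonneg (pow_nonneg hB0 _) (abs_nonneg _), ?_, ?_⟩
  · -- the pointwise inequality
    intro z h1 h2
    have e1 : ∀ᶠ ζ in 𝓝[≠] z, ∀ a, AnalyticAt ℂ (g a) ζ :=
      Filter.eventually_all.2 fun a => (hgm a _ h1 h2).eventually_analyticAt
    have e2 : ∀ᶠ ζ in 𝓝[≠] z, ∀ i, lin (lam i) g ζ ≠ 0 :=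
      Filter.eventually_all.2 fun i =>
        (meromorphicOrderAt_ne_top_iff_eventually_ne_zero ((hne i).mero _ h1 h2)).1
          ((hne i).ord _ h1 h2)
    have e3 : ∀ᶠ ζ in 𝓝[≠] z, ∀ τ ∈ T, ∀ᶠ y in 𝓝 ζ, lin τ g y = 0 := by
      rw [Filter.eventually_all_finset]
      intro τ hτ
      have := eventually_eventually_nhdsWithin.2 (hTg τ hτ z h1 h2)
      filter_upwards [this, self_mem_nhdsWithin] with ζ hζ hne
      rwa [IsOpen.nhdsWithin_eq isOpen_compl_singleton hne] at hζ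
    filter_upwards [e1, e2, e3, hΔ z h1 h2] with ζ f1 f2 f3 f4
    have f5 : ∀ τ ∈ T, dot τ (fun a => deriv (g a) ζ) = 0 := by
      intro τ hτ
      rw [← lin_deriv3 f1 τ]
      have h3 : lin τ g =ᶠ[𝓝 ζ] fun _ => 0 := f3 τ hτ
      rw [h3.deriv_eq, deriv_const]
    -- the maximum of the absolute values of the linear forms
    obtain ⟨i₀, -, hi₀⟩ := Finset.exists_max_image (Finset.univ : Finset (Fin (n + 2) ⊕ Fin m))
      (fun i => ‖lin (lam i) g ζ‖) ⟨Sum.inl a₁, Finset.mem_univ _⟩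
    set H : ℝ := ‖lin (lam i₀) g ζ‖ with hHdef
    have hH0 : 0 < H := norm_pos_iff.2 (f2 i₀)
    have hHle : ∀ i, ‖dot (lam i) fun a => g a ζ‖ ≤ H := fun i => hi₀ i (Finset.mem_univ i)
    have key := hC₀ (fun a => g a ζ) (fun a => deriv (g a) ζ) f4
      (fun τ hτ => (f3 τ hτ).self_of_nhds) f5 f2 H hHle ⟨i₀, rfl⟩
    rw [hJcard] at key
    -- the sums and products
    have g1 : ∏ i ∈ J, ‖dot (lam i) fun a => g a ζ‖ = ∏ j, ‖lin (p j) g ζ‖ := by
      rw [hJdef, Finset.prod_map]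
      rfl
    have g2 : ∑ i, ‖dot (lam i) (fun a => deriv (g a) ζ) / dot (lam i) fun a => g a ζ‖ =
        ∑ i, ‖deriv (lin (lam (finSumFinEquiv.symm i)) g) ζ /
          lin (lam (finSumFinEquiv.symm i)) g ζ‖ := by
      rw [← Equiv.sum_comp (finSumFinEquiv (m := n + 2) (n := m)).symm]
      refine Finset.sum_congr rfl fun i _ => ?_
      rw [lin_deriv3 f1]
      rfl
    rw [g1, g2] at key
    have hsize0 : 0 ≤ size g ζ :=
      (norm_nonneg (g a₁ ζ)).trans (Finset.le_sup' (fun i => ‖g i ζ‖) (Finset.mem_univ a₁))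
    have hsize : size g ζ ≤ B * H := by
      refine Finset.sup'_le _ _ fun a _ => ?_
      have hba : ‖g a ζ‖ = ‖∑ i, b a i * dot (lam i) fun a => g a ζ‖ :=
        congrArg norm (hb (fun a => g a ζ) a)
      refine hba.le.trans ((norm_sum_le _ _).trans ?_)
      calc ∑ i, ‖b a i * dot (lam i) fun a => g a ζ‖ ≤ ∑ i, ‖b a i‖ * H := by
            refine Finset.sum_le_sum fun i _ => ?_
            rw [norm_mul]
            exact mul_le_mul_of_nonneg_left (hHle i) (norm_nonneg _)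
        _ = (∑ i, ‖b a i‖) * H := by rw [Finset.sum_mul]
        _ ≤ _ := mul_le_mul_of_nonneg_right (hBa a) hH0.le
    have hg1 : ‖g a₁ ζ‖ ≤ H := by
      have := hHle (Sum.inl a₁)
      rw [hlamA a₁ ha₁, dot_single3] at this
      exact this
    refine algebra_est hm hTκ hH0 hB0 hsize0 hsize (norm_nonneg _) ?_
      (Finset.prod_nonneg fun _ _ => norm_nonneg _) (pow_nonneg (add_nonneg zero_le_one
        (Finset.sum_nonneg fun _ _ => norm_nonneg _)) _) key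
    rw [norm_mul, norm_pow]
    exact mul_le_mul_of_nonneg_left (pow_le_pow_left₀ (norm_nonneg _) hg1 _) (norm_nonneg _)
  · -- the local inequality
    intro s h1 h2 μ hμ hμ'
    have hord : ∀ j, ((ordZ (lin (p j) g) s : ℤ) : WithTop ℤ) =
        meromorphicOrderAt (lin (p j) g) s := fun j =>
      Pool.Agent.H92.GGL.ordZ_cast ((hp j).ord s h1 h2)
    have hμj : ∀ j, μ ≤ ordZ (lin (p j) g) s := by
      intro j
      have h3 : ((μ : ℤ) : WithTop ℤ) ≤ meromorphicOrderAt (lin (p j) g) s := by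
        have h4 : lin (p j) g = ∑ a, fun ζ => p j a * g a ζ := by
          funext ζ
          rw [Finset.sum_apply]
          rfl
        rw [h4]
        exact le_order_sum3 _ (fun a => (MeromorphicAt.const _ _).mul (hgm a s h1 h2)) fun a =>
          le_order_mul3 (hgm a s h1 h2) _ (hμ a)
      rw [← hord] at h3
      exact_mod_cast h3
    have key := loc_est hd hom hmarked' T hTG hJT' (fun a => hgm a s h1 h2) (hΔ s h1 h2)
      (fun τ hτ => hTg τ hτ s h1 h2) hμ hμ' (fun j => (ordZ (lin (p j) g) s - μ).toNat)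
      (fun j _ => by
        have h3 : (μ + ((ordZ (lin (p j) g) s - μ).toNat : ℤ) : ℤ) =
            ordZ (lin (p j) g) s := by
          rw [Int.toNat_of_nonneg (by have := hμj j; omega)]
          ring
        rw [h3, hord]
        exact le_rfl)
    rw [← Pool.Agent.H92.GGL.ordZ_cast (hP.ord s h1 h2)] at key
    have key' : (((2 * κ - T.card : ℕ) : ℤ)) * μ +
        ∑ j, (((ordZ (lin (p j) g) s - μ).toNat - 1 : ℕ) : ℤ) ≤
        ordZ (Palong φ T.card g) s := by exact_mod_cast key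
    -- the order of the product
    have hPs : ordZ (fun z => Palong φ T.card g z * g a₁ z ^ T.card) s =
        ordZ (Palong φ T.card g) s + T.card * ordZ (g a₁) s := by
      have h3 : meromorphicOrderAt (fun z => Palong φ T.card g z * g a₁ z ^ T.card) s =
          ((ordZ (Palong φ T.card g) s + T.card * ordZ (g a₁) s : ℤ) : WithTop ℤ) := by
        have h4 : (fun z => Palong φ T.card g z * g a₁ z ^ T.card) =
            (Palong φ T.card g) * fun z => g a₁ z ^ T.card := rfl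
        rw [h4, meromorphicOrderAt_mul (hP.mero s h1 h2) ((ha₁.mero s h1 h2).fun_pow _),
          order_pow' (ha₁.mero s h1 h2) (ha₁.ord s h1 h2),
          ← Pool.Agent.H92.GGL.ordZ_cast (hP.ord s h1 h2)]
        exact (WithTop.coe_add _ _).symm
      have h5 := Pool.Agent.H92.GGL.ordZ_cast (hPP.ord s h1 h2)
      rw [h3] at h5
      exact_mod_cast h5
    have ha₁μ : μ ≤ ordZ (g a₁) s := by
      have h3 := hμ a₁
      rw [← Pool.Agent.H92.GGL.ordZ_cast (ha₁.ord s h1 h2)] at h3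
      exact_mod_cast h3
    have hsum : ∑ j, ordZ (lin (p j) g) s = (m : ℤ) * μ +
        ∑ j, (((ordZ (lin (p j) g) s - μ).toNat - 1 : ℕ) : ℤ) +
          ((Finset.univ.filter fun j => μ < ordZ (lin (p j) g) s).card : ℤ) := by
      have h3 : ((Finset.univ.filter fun j => μ < ordZ (lin (p j) g) s).card : ℤ) =
          ∑ j, if μ < ordZ (lin (p j) g) s then (1 : ℤ) else 0 := by
        rw [Finset.card_filter]
        push_cast
        rfl
      have h4 : (m : ℤ) * μ = ∑ _j : Fin m, μ := by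
        rw [Finset.sum_const, Finset.card_univ, Fintype.card_fin, nsmul_eq_mul]
      rw [h3, h4, ← Finset.sum_add_distrib, ← Finset.sum_add_distrib]
      refine Finset.sum_congr rfl fun j _ => ?_
      have h5 := hμj j
      split_ifs with h6
      · omega
      · omega
    rw [hPs, hsum]
    have h6 : (T.card : ℤ) * μ ≤ T.card * ordZ (g a₁) s :=
      mul_le_mul_of_nonneg_left ha₁μ (Int.natCast_nonneg _)
    have h7 : (((2 * κ - T.card : ℕ) : ℤ)) * μ + (T.card : ℤ) * μ + ((m - 2 * κ : ℕ) : ℤ) * μ =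
        (m : ℤ) * μ := by
      rw [← add_mul, ← add_mul]
      congr 1
      omega
    linarith

end Pool.Agent.H5.DG4

end
end

section

/-!
# Project DG4, module PartEst: the estimates for a partition, analytic case

For every cluster `γ a` apply `cluster_est` with `g b ζ = eval (fun i => h i ζ) ((γ a).B b)`,
`R₀`; `lin (p j) g = c j * G (ι j) (h)` near all points (`eq`, `hP`).  `u` = all the `lin (lam i) g` and
all the `G (ι j) (h)` of all clusters (an index type `Fin l`), `J` = the latter, `Pf` = the product of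
the functions `P` of the clusters, `ρ` = the sum, `D = ∑ a, e * (len - 2 * κ)`.  With
`BaseFree P e B`: `size h ^ e ≤ C * size g` near all points (`Pool.Agent.H5.DG.exists_norm_bound`,
module CovBd), `size g ≤ C * size h ^ e`, and the minimum of the orders of the `g b` at `s` is
`e * minOrd h s` (divide by the `minOrd`-th power of `ζ - s`: values without common zero; some `B b`
does not vanish there).  `hub`, `hul` with `d = ` the maximum of the degrees `e` (`size h ≥ 1`,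
`minOrd h ≤ 0`).  The log derivatives: `c j * G` and `G` have the same.  `Γ.num` gives `1 ≤ A`, so
`2 * κ ≤ len`.  The functions `g b` are meromorphic, and either identically zero or `MeroPunct` (the
punctured disc is connected; the order is locally `⊤` or locally finite).

The ideal `P` has to be homogeneous (hypothesis `hhom`): the elements of `P` have to vanish at all the
multiples of the points of the curve (otherwise `size h ^ e ≤ C * size g` fails).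
-/

open MvPolynomial Filter Topology
open Pool.Agent.H62.FC (MeroPunct PunctMero)
open Pool.Agent.H92.GGL (ordZ)
open Pool.Agent.H5.DG

noncomputable section

namespace Pool.Agent.H5.DG4

variable {A M m : ℕ} {P : Ideal (MvPolynomial (Fin (M + 1)) ℂ)}
  {G : Fin m → MvPolynomial (Fin (M + 1)) ℂ} {S : Finset (Fin m)}

/-! ### Auxiliary lemmas -/

private theorem PartEst_identity {R₀ : ℝ} {u : ℂ → ℂ}
    (hu : ∀ z, 0 < ‖z‖ → ‖z‖ < R₀ → MeromorphicAt u z) {z₀ : ℂ} (h0 : 0 < ‖z₀‖)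
    (h1 : ‖z₀‖ < R₀) (h : meromorphicOrderAt u z₀ = ⊤) :
    ∀ z, 0 < ‖z‖ → ‖z‖ < R₀ → ∀ᶠ ζ in 𝓝[≠] z, u ζ = 0 := by
  intro z hz1 hz2
  rw [← meromorphicOrderAt_eq_top_iff]
  by_contra hcon
  have hm : MeromorphicOn u {z : ℂ | 0 < ‖z‖ ∧ ‖z‖ < R₀} := fun z hz => hu z hz.1 hz.2
  exact (hm.meromorphicOrderAt_ne_top_of_isPreconnected
    (Pool.Agent.H92.GGL.isPreconnected_punctured R₀) (x := z) (y := z₀) ⟨hz1, hz2⟩ ⟨h0, h1⟩ hcon) h

private theorem PartEst_dich {R₀ : ℝ} {u : ℂ → ℂ}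
    (hu : ∀ z, 0 < ‖z‖ → ‖z‖ < R₀ → MeromorphicAt u z) :
    MeroPunct R₀ u ∨ ∀ z, 0 < ‖z‖ → ‖z‖ < R₀ → ∀ᶠ ζ in 𝓝[≠] z, u ζ = 0 := by
  by_cases h : ∃ z₀ : ℂ, 0 < ‖z₀‖ ∧ ‖z₀‖ < R₀ ∧ meromorphicOrderAt u z₀ = ⊤
  · obtain ⟨z₀, h0, h1, h2⟩ := h
    exact Or.inr (PartEst_identity hu h0 h1 h2)
  · push Not at h
    exact Or.inl ⟨hu, h⟩

private theorem PartEst_mero {R₀ : ℝ} {h : Fin (M + 1) → ℂ → ℂ} {i₀ : Fin (M + 1)}
    (hh : Curve R₀ h i₀) {z : ℂ} (h1 : 0 < ‖z‖) (h2 : ‖z‖ < R₀) (i : Fin (M + 1)) :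
    MeromorphicAt (h i) z := by
  rcases hh.dich i with h3 | h3
  · exact h3.mero z h1 h2
  · refine (MeromorphicAt.const 0 z).congr ?_
    filter_upwards [h3 z h1 h2] with ζ hζ
    exact hζ.symm

private theorem PartEst_eval_mero {r : ℕ} {h : Fin r → ℂ → ℂ} {s : ℂ}
    (hξ : ∀ i, MeromorphicAt (h i) s) (F : MvPolynomial (Fin r) ℂ) :
    MeromorphicAt (fun z => eval (fun i => h i z) F) s := by
  induction F using MvPolynomial.induction_on with
  | C a =>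
    simp only [eval_C]
    exact MeromorphicAt.const a s
  | add p q hp hq =>
    simp only [map_add]
    exact hp.add hq
  | mul_X p i hp =>
    simp only [map_mul, eval_X]
    exact hp.mul (hξ i)

private theorem PartEst_eval_an {r : ℕ} {w : Fin r → ℂ → ℂ} {s : ℂ}
    (hw : ∀ i, AnalyticAt ℂ (w i) s) (F : MvPolynomial (Fin r) ℂ) :
    AnalyticAt ℂ (fun z => eval (fun i => w i z) F) s := by
  induction F using MvPolynomial.induction_on with
  | C a =>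
    simp only [eval_C]
    exact analyticAt_const
  | add p q hp hq =>
    simp only [map_add]
    exact hp.add hq
  | mul_X p i hp =>
    simp only [map_mul, eval_X]
    exact hp.mul (hw i)

private theorem PartEst_size {ι : Type} [Fintype ι] [Nonempty ι] (h : ι → ℂ → ℂ) (z : ℂ) :
    size h z = ‖fun i => h i z‖ := by
  refine le_antisymm (Finset.sup'_le _ _ fun i _ => norm_le_pi_norm (fun i => h i z) i) ?_
  refine (pi_norm_le_iff_of_nonempty _).2 fun i => ?_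
  exact Finset.le_sup' (fun i => ‖h i z‖) (Finset.mem_univ i)

private theorem PartEst_hombd {r e : ℕ} {F : MvPolynomial (Fin r) ℂ} (hF : F.IsHomogeneous e) :
    ∃ C : ℝ, 0 ≤ C ∧ ∀ x : Fin r → ℂ, ‖eval x F‖ ≤ C * ‖x‖ ^ e := by
  refine ⟨∑ d ∈ F.support, ‖coeff d F‖, Finset.sum_nonneg fun _ _ => norm_nonneg _, fun x => ?_⟩
  rw [eval_eq, Finset.sum_mul]
  refine (norm_sum_le _ _).trans (Finset.sum_le_sum fun d hd => ?_)
  rw [norm_mul]
  refine mul_le_mul_of_nonneg_left ?_ (norm_nonneg _)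
  have h1 : ∑ i ∈ d.support, d i = e := by
    have hdeg : d.degree = e := by
      by_contra hne
      exact (mem_support_iff.mp hd) (hF.coeff_eq_zero hne)
    exact hdeg
  rw [norm_prod]
  calc ∏ i ∈ d.support, ‖x i ^ d i‖ ≤ ∏ i ∈ d.support, ‖x‖ ^ d i :=
        Finset.prod_le_prod (fun _ _ => norm_nonneg _) fun i _ => by
          rw [norm_pow]
          exact pow_le_pow_left₀ (norm_nonneg _) (norm_le_pi_norm x i) _
    _ = ‖x‖ ^ e := by rw [Finset.prod_pow_eq_pow_sum, h1]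

private theorem PartEst_smul (hI : Homog P) {x : Fin (M + 1) → ℂ} (h : ∀ Q ∈ P, eval x Q = 0)
    (c : ℂ) {Q : MvPolynomial (Fin (M + 1)) ℂ} (hQ : Q ∈ P) : eval (c • x) Q = 0 := by
  rw [← MvPolynomial.sum_homogeneousComponent Q, map_sum]
  refine Finset.sum_eq_zero fun k _ => ?_
  have h1 := Pool.Agent.H17.eval_smul_of_isHomogeneous (homogeneousComponent_isHomogeneous k Q) c x
  have h2 : eval (c • x) (homogeneousComponent k Q) =
      c ^ k * eval x (homogeneousComponent k Q) := h1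
  rw [h2, h _ (hI Q hQ k), mul_zero]

private theorem PartEst_minOrd {R₀ : ℝ} {h : Fin (M + 1) → ℂ → ℂ} {i₀ : Fin (M + 1)}
    (hh : Curve R₀ h i₀) {s : ℂ} (h1 : 0 < ‖s‖) (h2 : ‖s‖ < R₀) :
    (∀ i, ((minOrd h s : ℤ) : WithTop ℤ) ≤ meromorphicOrderAt (h i) s) ∧
      ∃ i, meromorphicOrderAt (h i) s = ((minOrd h s : ℤ) : WithTop ℤ) := by
  constructor
  · intro i
    by_cases ht : meromorphicOrderAt (h i) s = ⊤
    · rw [ht]
      exact le_top
    · rw [← Pool.Agent.H92.GGL.ordZ_cast ht]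
      exact_mod_cast Finset.inf'_le (fun i => ordZ (h i) s) (Finset.mem_univ i)
  · obtain ⟨i, -, hi⟩ := Finset.exists_mem_eq_inf' Finset.univ_nonempty fun i => ordZ (h i) s
    have hi' : minOrd h s = ordZ (h i) s := hi
    by_cases ht : meromorphicOrderAt (h i) s = ⊤
    · refine ⟨i₀, ?_⟩
      have h3 : ordZ (h i) s = 0 := by
        unfold ordZ
        rw [ht]
        rfl
      have h4 : h i₀ =ᶠ[𝓝[≠] s] fun _ => 1 := hh.one s h1 h2
      rw [hi', h3, meromorphicOrderAt_congr h4, meromorphicOrderAt_const]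
      simp
    · exact ⟨i, by rw [hi', Pool.Agent.H92.GGL.ordZ_cast ht]⟩

private theorem PartEst_zpow (k : ℤ) (s : ℂ) :
    MeromorphicAt (fun ζ : ℂ => (ζ - s) ^ k) s ∧
      meromorphicOrderAt (fun ζ : ℂ => (ζ - s) ^ k) s = ((k : ℤ) : WithTop ℤ) := by
  have h1 : MeromorphicAt (fun ζ : ℂ => (ζ - s) ^ k) s := by fun_prop
  refine ⟨h1, ?_⟩
  rw [meromorphicOrderAt_eq_int_iff h1]
  refine ⟨fun _ => 1, analyticAt_const, one_ne_zero, ?_⟩
  filter_upwards with z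
  simp

/-- The local form of the coordinates. -/
private theorem PartEst_local {R₀ : ℝ} {h : Fin (M + 1) → ℂ → ℂ} {i₀ : Fin (M + 1)}
    (hh : Curve R₀ h i₀) {s : ℂ} (h1 : 0 < ‖s‖) (h2 : ‖s‖ < R₀) :
    ∃ w : Fin (M + 1) → ℂ → ℂ, (∀ i, AnalyticAt ℂ (w i) s) ∧ (fun i => w i s) ≠ 0 ∧
      ∀ᶠ ζ in 𝓝[≠] s, ∀ i, h i ζ = (ζ - s) ^ minOrd h s * w i ζ := by
  obtain ⟨h3, i₁, h4⟩ := PartEst_minOrd hh h1 h2
  obtain ⟨w, hw, hhw, hwne⟩ := exists_local (fun i => PartEst_mero hh h1 h2 i) h3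
  exact ⟨w, hw, fun h => hwne i₁ h4 (congrFun h i₁), Filter.eventually_all.2 hhw⟩

private theorem PartEst_pull {h w : Fin (M + 1) → ℂ → ℂ} {s : ℂ}
    (hw : ∀ᶠ ζ in 𝓝[≠] s, ∀ i, h i ζ = (ζ - s) ^ minOrd h s * w i ζ) {e : ℕ}
    {F : MvPolynomial (Fin (M + 1)) ℂ} (hF : F.IsHomogeneous e) :
    (fun ζ => eval (fun i => h i ζ) F) =ᶠ[𝓝[≠] s]
      fun ζ => (ζ - s) ^ ((e : ℤ) * minOrd h s) * eval (fun i => w i ζ) F := by
  filter_upwards [hw] with ζ hζ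
  have h3 : (fun i => h i ζ) = fun i => (ζ - s) ^ minOrd h s * w i ζ := funext hζ
  rw [h3, Pool.Agent.H17.eval_smul_of_isHomogeneous hF, ← zpow_natCast, ← zpow_mul,
    mul_comm (minOrd h s)]

/-- The order of a form along the curve. -/
private theorem PartEst_ord_ge {R₀ : ℝ} {h : Fin (M + 1) → ℂ → ℂ} {i₀ : Fin (M + 1)}
    (hh : Curve R₀ h i₀) {s : ℂ} (h1 : 0 < ‖s‖) (h2 : ‖s‖ < R₀) {e : ℕ}
    {F : MvPolynomial (Fin (M + 1)) ℂ} (hF : F.IsHomogeneous e) :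
    (((e : ℤ) * minOrd h s : ℤ) : WithTop ℤ) ≤
      meromorphicOrderAt (fun ζ => eval (fun i => h i ζ) F) s := by
  obtain ⟨w, hw, -, hhw⟩ := PartEst_local hh h1 h2
  obtain ⟨h3, h4⟩ := PartEst_zpow ((e : ℤ) * minOrd h s) s
  have h5 := PartEst_eval_an hw F
  rw [meromorphicOrderAt_congr (PartEst_pull hhw hF)]
  have h6 := meromorphicOrderAt_mul h3 h5.meromorphicAt
  have h7 : meromorphicOrderAt (fun ζ => (ζ - s) ^ ((e : ℤ) * minOrd h s) *
      eval (fun i => w i ζ) F) s = (((e : ℤ) * minOrd h s : ℤ) : WithTop ℤ) +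
      meromorphicOrderAt (fun ζ => eval (fun i => w i ζ) F) s := by
    rw [← h4]
    exact h6
  rw [h7]
  exact le_add_of_nonneg_right h5.meromorphicOrderAt_nonneg

private theorem PartEst_ordZ_ge {R₀ : ℝ} {h : Fin (M + 1) → ℂ → ℂ} {i₀ : Fin (M + 1)}
    (hh : Curve R₀ h i₀) {s : ℂ} (h1 : 0 < ‖s‖) (h2 : ‖s‖ < R₀) {e : ℕ}
    {F : MvPolynomial (Fin (M + 1)) ℂ} (hF : F.IsHomogeneous e)
    (ht : meromorphicOrderAt (fun ζ => eval (fun i => h i ζ) F) s ≠ ⊤) :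
    (e : ℤ) * minOrd h s ≤ ordZ (fun ζ => eval (fun i => h i ζ) F) s := by
  have h3 := PartEst_ord_ge hh h1 h2 hF
  rw [← Pool.Agent.H92.GGL.ordZ_cast ht] at h3
  exact_mod_cast h3

private theorem PartEst_ord_eq (hI : Homog P) {n e : ℕ}
    {B : Fin (n + 1) → MvPolynomial (Fin (M + 1)) ℂ} (hB : BaseFree P e B) {R₀ : ℝ}
    {h : Fin (M + 1) → ℂ → ℂ} {i₀ : Fin (M + 1)} (hh : Curve R₀ h i₀) {s : ℂ} (h1 : 0 < ‖s‖)
    (h2 : ‖s‖ < R₀) (hP : ∀ᶠ ζ in 𝓝[≠] s, ∀ R ∈ P, eval (fun i => h i ζ) R = 0) :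
    ∃ b, meromorphicOrderAt (fun ζ => eval (fun i => h i ζ) (B b)) s =
      (((e : ℤ) * minOrd h s : ℤ) : WithTop ℤ) := by
  obtain ⟨w, hw, hw0, hhw⟩ := PartEst_local hh h1 h2
  have hv : ∀ Q ∈ P, eval (fun i => w i s) Q = 0 := by
    intro Q hQ
    have h3 : ∀ᶠ ζ in 𝓝[≠] s, eval (fun i => w i ζ) Q = 0 := by
      filter_upwards [hhw, hP, self_mem_nhdsWithin] with ζ a1 a2 a3
      have a4 : (ζ - s) ^ minOrd h s ≠ 0 := zpow_ne_zero _ (sub_ne_zero.2 a3)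
      have a5 : (fun i => w i ζ) = ((ζ - s) ^ minOrd h s)⁻¹ • fun i => h i ζ := by
        funext i
        rw [Pi.smul_apply, smul_eq_mul, a1 i, ← mul_assoc, inv_mul_cancel₀ a4, one_mul]
      rw [a5]
      exact PartEst_smul hI a2 _ hQ
    have h4 : Tendsto (fun ζ => eval (fun i => w i ζ) Q) (𝓝[≠] s)
        (𝓝 (eval (fun i => w i s) Q)) :=
      (PartEst_eval_an hw Q).continuousAt.tendsto.mono_left nhdsWithin_le_nhds
    have h5 : Tendsto (fun ζ => eval (fun i => w i ζ) Q) (𝓝[≠] s) (𝓝 0) :=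
      tendsto_const_nhds.congr' (h3.mono fun _ h => h.symm)
    exact tendsto_nhds_unique h4 h5
  have hne := eval_ne_zero hB hw0 hv
  obtain ⟨b, hb⟩ : ∃ b, eval (fun i => w i s) (B b) ≠ 0 := by
    by_contra hc
    push Not at hc
    exact hne (funext hc)
  refine ⟨b, ?_⟩
  rw [meromorphicOrderAt_eq_int_iff (PartEst_eval_mero (fun i => PartEst_mero hh h1 h2 i) _)]
  refine ⟨fun ζ => eval (fun i => w i ζ) (B b), PartEst_eval_an hw _, hb, ?_⟩
  exact PartEst_pull hhw (hB.hom b)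

private theorem PartEst_aeval {r r' : ℕ} (F : Fin r → MvPolynomial (Fin r') ℂ) (x : Fin r' → ℂ)
    (Q : MvPolynomial (Fin r) ℂ) : eval x (aeval F Q) = eval (fun a => eval x (F a)) Q := by
  induction Q using MvPolynomial.induction_on with
  | C a => simp
  | add p q hp hq => rw [map_add, map_add, map_add, hp, hq]
  | mul_X p i hp => rw [map_mul, map_mul, map_mul, hp, aeval_X, eval_X]

private theorem PartEst_comb {n : ℕ} (τ : Fin (n + 2) → ℂ)
    (B : Fin (n + 2) → MvPolynomial (Fin (M + 1)) ℂ) (h : Fin (M + 1) → ℂ → ℂ) :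
    lin τ (fun b ζ => eval (fun i => h i ζ) (B b)) =
      fun ζ => eval (fun i => h i ζ) (comb τ B) := by
  funext ζ
  unfold lin dot comb
  rw [map_sum]
  refine Finset.sum_congr rfl fun a _ => ?_
  rw [map_mul, eval_C]

private theorem PartEst_sum_le {ι : Type} [Fintype ι] [Nonempty ι] (g : ι → ℂ → ℂ) (z : ℂ) :
    ∑ a, ‖g a z‖ ≤ Fintype.card ι * size g z := by
  have h1 : ∀ a ∈ Finset.univ, ‖g a z‖ ≤ size g z := fun a ha =>
    Finset.le_sup' (fun i => ‖g i z‖) ha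
  have h2 := Finset.sum_le_card_nsmul Finset.univ (fun a => ‖g a z‖) (size g z) h1
  rwa [nsmul_eq_mul, Finset.card_univ] at h2

private theorem PartEst_size_nonneg {ι : Type} [Fintype ι] [Nonempty ι] (g : ι → ℂ → ℂ) (z : ℂ) :
    0 ≤ size g z := by
  rw [PartEst_size]
  exact norm_nonneg _

/-- The estimates for one cluster. -/
private theorem PartEst_cluster (hI : Homog P) (γ : Cluster A P G) (hk : 2 * γ.κ ≤ γ.len)
    {R₀ : ℝ} (hR₀ : 0 < R₀) {h : Fin (M + 1) → ℂ → ℂ} {i₀ : Fin (M + 1)} (hh : Curve R₀ h i₀)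
    (hP : ∀ z, 0 < ‖z‖ → ‖z‖ < R₀ → ∀ᶠ ζ in 𝓝[≠] z, ∀ R ∈ P, eval (fun i => h i ζ) R = 0)
    (hΔ : ∀ z, 0 < ‖z‖ → ‖z‖ < R₀ → ∀ᶠ ζ in 𝓝[≠] z, eval (fun i => h i ζ) γ.form ≠ 0)
    (hG : ∀ j, MeroPunct R₀ fun ζ => eval (fun i => h i ζ) (G (γ.ι j))) :
    ∃ (l : ℕ) (u : Fin l ⊕ Fin γ.len → ℂ → ℂ) (Pf : ℂ → ℂ) (ρ : ℕ) (C : ℝ), 0 ≤ C ∧
      (∀ k, MeroPunct R₀ (u k)) ∧ MeroPunct R₀ Pf ∧
      (∀ ζ k, ‖u k ζ‖ ≤ C * size h ζ ^ γ.e) ∧
      (∀ s, 0 < ‖s‖ → ‖s‖ < R₀ → ∀ k, (γ.e : ℤ) * minOrd h s ≤ ordZ (u k) s) ∧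
      (∀ z, 0 < ‖z‖ → ‖z‖ < R₀ → ∀ᶠ ζ in 𝓝[≠] z,
        ‖Pf ζ‖ * size h ζ ^ (γ.e * (γ.len - 2 * γ.κ)) ≤
          C * (∏ j, ‖u (Sum.inr j) ζ‖) * (1 + ∑ k, ‖deriv (u k) ζ / u k ζ‖) ^ ρ) ∧
      ∀ s, 0 < ‖s‖ → ‖s‖ < R₀ → ∑ j, ordZ (u (Sum.inr j)) s ≤ ordZ Pf s +
        ((γ.e * (γ.len - 2 * γ.κ) : ℕ) : ℤ) * minOrd h s +
        ((Finset.univ.filter fun j => (γ.e : ℤ) * minOrd h s <
          ordZ (fun ζ => eval (fun i => h i ζ) (G (γ.ι j))) s).card : ℤ) := by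
  classical
  obtain ⟨g, hgdef⟩ : ∃ g : Fin (γ.n + 2) → ℂ → ℂ,
      g = fun b ζ => eval (fun i => h i ζ) (γ.B b) := ⟨_, rfl⟩
  have hlin : ∀ τ, lin τ g = fun ζ => eval (fun i => h i ζ) (comb τ γ.B) := by
    intro τ
    rw [hgdef]
    exact PartEst_comb τ γ.B h
  have hcomb : ∀ τ, (comb τ γ.B).IsHomogeneous γ.e := fun τ => comb_isHomogeneous τ γ.base.hom
  have hmero : ∀ (F : MvPolynomial (Fin (M + 1)) ℂ) z, 0 < ‖z‖ → ‖z‖ < R₀ →
      MeromorphicAt (fun ζ => eval (fun i => h i ζ) F) z := fun F z h1 h2 =>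
    PartEst_eval_mero (fun i => PartEst_mero hh h1 h2 i) F
  -- the functions given by the points
  have hpe : ∀ j z, 0 < ‖z‖ → ‖z‖ < R₀ →
      lin (γ.p j) g =ᶠ[𝓝[≠] z] fun ζ => γ.c j * eval (fun i => h i ζ) (G (γ.ι j)) := by
    intro j z h1 h2
    filter_upwards [hP z h1 h2] with ζ hζ
    have h3 := hζ _ (γ.eq j)
    rw [map_sub, map_mul, eval_C, sub_eq_zero] at h3
    rw [hlin, h3]
  have hpo : ∀ j z, 0 < ‖z‖ → ‖z‖ < R₀ → meromorphicOrderAt (lin (γ.p j) g) z =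
      meromorphicOrderAt (fun ζ => eval (fun i => h i ζ) (G (γ.ι j))) z := by
    intro j z h1 h2
    rw [meromorphicOrderAt_congr (hpe j z h1 h2)]
    have h3 := meromorphicOrderAt_mul (MeromorphicAt.const (γ.c j) z)
      (hmero (G (γ.ι j)) z h1 h2)
    rw [meromorphicOrderAt_const, if_neg (γ.cne j), zero_add] at h3
    exact h3
  have hpm : ∀ j, MeroPunct R₀ (lin (γ.p j) g) := by
    intro j
    refine ⟨fun z h1 h2 => ?_, fun z h1 h2 => ?_⟩
    · rw [hlin]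
      exact hmero _ z h1 h2
    · rw [hpo j z h1 h2]
      exact (hG j).ord z h1 h2
  have hgm : ∀ a z, 0 < ‖z‖ → ‖z‖ < R₀ → MeromorphicAt (g a) z := by
    intro a z h1 h2
    rw [hgdef]
    exact hmero _ z h1 h2
  obtain ⟨l, lam, Pf, ρ, C₁, c1, c2, c3, c4, c5⟩ := cluster_est γ.data γ.hom γ.mem γ.pinj hk hR₀
    (g := g) (fun a => PartEst_dich (hgm a)) hgm (by
      intro z h1 h2
      filter_upwards [hΔ z h1 h2] with ζ hζ hcon
      apply hζ
      unfold Cluster.form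
      rw [PartEst_aeval, ← hcon, hgdef]) hpm
  obtain ⟨C₂, hC₂, hC₂'⟩ := exists_norm_bound γ.base
  choose K hK0 hK using fun k : Fin l ⊕ Fin γ.len => PartEst_hombd (hcomb (Sum.elim lam γ.p k))
  obtain ⟨C₃, hC₃⟩ : ∃ C₃ : ℝ, C₃ = C₂ * (Fintype.card (Fin (γ.n + 2)) : ℝ) := ⟨_, rfl⟩
  have hC₃0 : 0 ≤ C₃ := by
    rw [hC₃]
    positivity
  have hKs : 0 ≤ ∑ k, K k := Finset.sum_nonneg fun k _ => hK0 k
  have hC₁' : 0 ≤ C₃ ^ (γ.len - 2 * γ.κ) * C₁ := mul_nonneg (pow_nonneg hC₃0 _) c3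
  have hmp : ∀ k, MeroPunct R₀ (lin (Sum.elim lam γ.p k) g) := by
    intro k
    cases k with
    | inl i => exact c1 i
    | inr j => exact hpm j
  refine ⟨l, fun k => lin (Sum.elim lam γ.p k) g, Pf, ρ,
    C₃ ^ (γ.len - 2 * γ.κ) * C₁ + ∑ k, K k, add_nonneg hC₁' hKs, hmp, c2, ?_, ?_, ?_, ?_⟩
  · intro ζ k
    have h1 := hK k (fun i => h i ζ)
    rw [← PartEst_size] at h1
    have h2 : K k ≤ C₃ ^ (γ.len - 2 * γ.κ) * C₁ + ∑ k, K k := by
      have h3 : K k ≤ ∑ k, K k := Finset.single_le_sum (fun b _ => hK0 b) (Finset.mem_univ k)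
      linarith only [hC₁', h3]
    show ‖lin (Sum.elim lam γ.p k) g ζ‖ ≤ _
    rw [hlin]
    exact h1.trans (mul_le_mul_of_nonneg_right h2 (pow_nonneg (PartEst_size_nonneg h ζ) _))
  · intro s h1 h2 k
    have h3 := (hmp k).ord s h1 h2
    rw [hlin] at h3
    show (γ.e : ℤ) * minOrd h s ≤ ordZ (lin (Sum.elim lam γ.p k) g) s
    rw [hlin]
    exact PartEst_ordZ_ge hh h1 h2 (hcomb _) h3
  · intro z h1 h2
    filter_upwards [c4 z h1 h2, hP z h1 h2] with ζ a1 a2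
    have a3 : size h ζ ^ γ.e ≤ C₃ * size g ζ := by
      have b1 := hC₂' (fun i => h i ζ) fun c Q hQ => PartEst_smul hI a2 c hQ
      rw [← PartEst_size] at b1
      have b2 := PartEst_sum_le g ζ
      calc size h ζ ^ γ.e ≤ C₂ * ∑ a, ‖eval (fun i => h i ζ) (γ.B a)‖ := b1
        _ = C₂ * ∑ a, ‖g a ζ‖ := by rw [hgdef]
        _ ≤ C₂ * (Fintype.card (Fin (γ.n + 2)) * size g ζ) :=
            mul_le_mul_of_nonneg_left b2 hC₂.le
        _ = C₃ * size g ζ := by rw [hC₃, mul_assoc]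
    have a4 : (size h ζ ^ γ.e) ^ (γ.len - 2 * γ.κ) ≤
        C₃ ^ (γ.len - 2 * γ.κ) * size g ζ ^ (γ.len - 2 * γ.κ) := by
      rw [← mul_pow]
      exact pow_le_pow_left₀ (pow_nonneg (PartEst_size_nonneg h ζ) _) a3 _
    have a5 : (0 : ℝ) ≤ ∑ i, ‖deriv (lin (lam i) g) ζ / lin (lam i) g ζ‖ :=
      Finset.sum_nonneg fun _ _ => norm_nonneg _
    have a6 : ∑ i, ‖deriv (lin (lam i) g) ζ / lin (lam i) g ζ‖ ≤
        ∑ k, ‖deriv (lin (Sum.elim lam γ.p k) g) ζ / lin (Sum.elim lam γ.p k) g ζ‖ := by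
      rw [Fintype.sum_sum_type]
      simp only [Sum.elim_inl, Sum.elim_inr]
      exact le_add_of_nonneg_right (Finset.sum_nonneg fun _ _ => norm_nonneg _)
    have a7 : (1 + ∑ i, ‖deriv (lin (lam i) g) ζ / lin (lam i) g ζ‖) ^ ρ ≤
        (1 + ∑ k, ‖deriv (lin (Sum.elim lam γ.p k) g) ζ / lin (Sum.elim lam γ.p k) g ζ‖) ^ ρ :=
      pow_le_pow_left₀ (by linarith only [a5]) (by linarith only [a6]) _
    have a8 : 0 ≤ ∏ j, ‖lin (γ.p j) g ζ‖ := Finset.prod_nonneg fun _ _ => norm_nonneg _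
    have a9 : 0 ≤ (1 + ∑ k, ‖deriv (lin (Sum.elim lam γ.p k) g) ζ /
        lin (Sum.elim lam γ.p k) g ζ‖) ^ ρ := pow_nonneg (by linarith only [a5, a6]) _
    rw [pow_mul]
    calc ‖Pf ζ‖ * (size h ζ ^ γ.e) ^ (γ.len - 2 * γ.κ) ≤
          ‖Pf ζ‖ * (C₃ ^ (γ.len - 2 * γ.κ) * size g ζ ^ (γ.len - 2 * γ.κ)) :=
          mul_le_mul_of_nonneg_left a4 (norm_nonneg _)
      _ = C₃ ^ (γ.len - 2 * γ.κ) * (‖Pf ζ‖ * size g ζ ^ (γ.len - 2 * γ.κ)) := by ring
      _ ≤ C₃ ^ (γ.len - 2 * γ.κ) * (C₁ * (∏ j, ‖lin (γ.p j) g ζ‖) *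
          (1 + ∑ i, ‖deriv (lin (lam i) g) ζ / lin (lam i) g ζ‖) ^ ρ) :=
          mul_le_mul_of_nonneg_left a1 (pow_nonneg hC₃0 _)
      _ = C₃ ^ (γ.len - 2 * γ.κ) * C₁ * (∏ j, ‖lin (γ.p j) g ζ‖) *
          (1 + ∑ i, ‖deriv (lin (lam i) g) ζ / lin (lam i) g ζ‖) ^ ρ := by ring
      _ ≤ C₃ ^ (γ.len - 2 * γ.κ) * C₁ * (∏ j, ‖lin (γ.p j) g ζ‖) *
          (1 + ∑ k, ‖deriv (lin (Sum.elim lam γ.p k) g) ζ /
            lin (Sum.elim lam γ.p k) g ζ‖) ^ ρ :=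
          mul_le_mul_of_nonneg_left a7 (mul_nonneg hC₁' a8)
      _ ≤ (C₃ ^ (γ.len - 2 * γ.κ) * C₁ + ∑ k, K k) * (∏ j, ‖lin (γ.p j) g ζ‖) *
          (1 + ∑ k, ‖deriv (lin (Sum.elim lam γ.p k) g) ζ /
            lin (Sum.elim lam γ.p k) g ζ‖) ^ ρ := by
          refine mul_le_mul_of_nonneg_right (mul_le_mul_of_nonneg_right ?_ a8) a9
          linarith only [hKs]
  · intro s h1 h2
    obtain ⟨b, hb⟩ := PartEst_ord_eq hI γ.base hh h1 h2 (hP s h1 h2)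
    have h3 := c5 s h1 h2 ((γ.e : ℤ) * minOrd h s) (by
      intro a
      rw [hgdef]
      exact PartEst_ord_ge hh h1 h2 (γ.base.hom a)) ⟨b, by rw [hgdef]; exact hb⟩
    have h4 : ∀ j, ordZ (lin (γ.p j) g) s =
        ordZ (fun ζ => eval (fun i => h i ζ) (G (γ.ι j))) s := by
      intro j
      unfold ordZ
      rw [hpo j s h1 h2]
    have h5 : (Finset.univ.filter fun j => (γ.e : ℤ) * minOrd h s < ordZ (lin (γ.p j) g) s) =
        Finset.univ.filter fun j => (γ.e : ℤ) * minOrd h s <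
          ordZ (fun ζ => eval (fun i => h i ζ) (G (γ.ι j))) s := by
      refine Finset.filter_congr fun j _ => ?_
      rw [h4 j]
    rw [h5] at h3
    refine h3.trans (le_of_eq ?_)
    push_cast
    ring

/-- The number of the hypersurfaces of the clusters which are met at `s`. -/
def Partition.count (Γ : Partition A P G S) (h : Fin (M + 1) → ℂ → ℂ) (s : ℂ) : ℕ :=
  ∑ a, (Finset.univ.filter fun j => ((Γ.γ a).e : ℤ) * minOrd h s <
    ordZ (fun ζ => eval (fun i => h i ζ) (G ((Γ.γ a).ι j))) s).card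

theorem partition_est (Γ : Partition A P G S) (hhom : Homog P) {R₀ : ℝ} (hR₀ : 0 < R₀)
    {h : Fin (M + 1) → ℂ → ℂ} {i₀ : Fin (M + 1)} (hh : Curve R₀ h i₀)
    (hP : ∀ z, 0 < ‖z‖ → ‖z‖ < R₀ → ∀ᶠ ζ in 𝓝[≠] z, ∀ R ∈ P, eval (fun i => h i ζ) R = 0)
    (hΔ : ∀ z, 0 < ‖z‖ → ‖z‖ < R₀ → ∀ᶠ ζ in 𝓝[≠] z, eval (fun i => h i ζ) Γ.form ≠ 0)
    (hG : ∀ a j, MeroPunct R₀ fun ζ => eval (fun i => h i ζ) (G ((Γ.γ a).ι j))) :
    ∃ (l : ℕ) (u : Fin l → ℂ → ℂ) (J : Finset (Fin l)) (Pf : ℂ → ℂ) (ρ d : ℕ) (C : ℝ),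
      (∀ j, MeroPunct R₀ (u j)) ∧ MeroPunct R₀ Pf ∧
      (∀ z, 0 < ‖z‖ → ‖z‖ < R₀ → ∀ᶠ ζ in 𝓝[≠] z, ∀ j, ‖u j ζ‖ ≤ C * size h ζ ^ d) ∧
      (∀ s, 0 < ‖s‖ → ‖s‖ < R₀ → ∀ j, d * minOrd h s ≤ ordZ (u j) s) ∧
      (∀ z, 0 < ‖z‖ → ‖z‖ < R₀ → ∀ᶠ ζ in 𝓝[≠] z,
        ‖Pf ζ‖ * size h ζ ^ (∑ a, (Γ.γ a).e * ((Γ.γ a).len - 2 * (Γ.γ a).κ)) ≤
          C * (∏ j ∈ J, ‖u j ζ‖) * (1 + ∑ j, ‖deriv (u j) ζ / u j ζ‖) ^ ρ) ∧
      ∀ s, 0 < ‖s‖ → ‖s‖ < R₀ → ((∑ j ∈ J, ordZ (u j) s : ℤ) : ℝ) ≤ (ordZ Pf s : ℝ) +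
        ((∑ a, (Γ.γ a).e * ((Γ.γ a).len - 2 * (Γ.γ a).κ) : ℕ) : ℝ) * minOrd h s +
        (Γ.count h s : ℝ) := by
  classical
  have hkl : ∀ a, 2 * (Γ.γ a).κ ≤ (Γ.γ a).len := by
    intro a
    have hA : 1 ≤ A := by
      by_contra hcon
      have h0 : A = 0 := by omega
      have h1 := Γ.num
      rw [Nat.mul_eq_zero.2 (Or.inl h0)] at h1
      exact absurd h1 (Nat.not_lt_zero _)
    have h1 := (Γ.γ a).card
    have h2 : 1 * 1 ≤ A * ((Γ.γ a).n + 6) := Nat.mul_le_mul hA (by omega)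
    have h3 : 2 * (Γ.γ a).κ ≤ 2 * A * ((Γ.γ a).n + 6) * (Γ.γ a).κ := by
      calc 2 * (Γ.γ a).κ = 2 * (1 * 1) * (Γ.γ a).κ := by ring
        _ ≤ 2 * (A * ((Γ.γ a).n + 6)) * (Γ.γ a).κ :=
            Nat.mul_le_mul_right _ (Nat.mul_le_mul_left _ h2)
        _ = 2 * A * ((Γ.γ a).n + 6) * (Γ.γ a).κ := by ring
    omega
  have hform : ∀ ζ, eval (fun i => h i ζ) Γ.form =
      ∏ a, eval (fun i => h i ζ) (Γ.γ a).form := fun ζ => by
    unfold Partition.form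
    rw [map_prod]
  choose l u Pf ρ C c0 c1 c2 c3 c4 c5 c6 using fun a => PartEst_cluster hhom (Γ.γ a) (hkl a) hR₀
    hh hP (fun z h1 h2 => by
      filter_upwards [hΔ z h1 h2] with ζ hζ hcon
      apply hζ
      rw [hform]
      exact Finset.prod_eq_zero (Finset.mem_univ a) hcon) (hG a)
  obtain ⟨d, hd⟩ : ∃ d : ℕ, d = ∑ a, (Γ.γ a).e := ⟨_, rfl⟩
  have hde : ∀ a, (Γ.γ a).e ≤ d := fun a => by
    rw [hd]
    exact Finset.single_le_sum (f := fun a => (Γ.γ a).e) (fun _ _ => Nat.zero_le _)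
      (Finset.mem_univ a)
  have hCs : 0 ≤ ∑ a, C a := Finset.sum_nonneg fun a _ => c0 a
  have hCp : 0 ≤ ∏ a, C a := Finset.prod_nonneg fun a _ => c0 a
  -- the index type
  obtain ⟨U, hU⟩ : ∃ U : (Σ a, (Fin (l a) ⊕ Fin (Γ.γ a).len)) → ℂ → ℂ,
      U = fun k => u k.1 k.2 := ⟨_, rfl⟩
  obtain ⟨J, hJ⟩ : ∃ J : Finset (Σ a, (Fin (l a) ⊕ Fin (Γ.γ a).len)),
      J = Finset.univ.sigma fun a => Finset.univ.map Function.Embedding.inr := ⟨_, rfl⟩
  have hsize1 : ∀ z, 0 < ‖z‖ → ‖z‖ < R₀ → ∀ᶠ ζ in 𝓝[≠] z, 1 ≤ size h ζ := by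
    intro z h1 h2
    filter_upwards [hh.one z h1 h2] with ζ hζ
    have h3 : ‖h i₀ ζ‖ ≤ size h ζ := Finset.le_sup' (fun i => ‖h i ζ‖) (Finset.mem_univ i₀)
    rwa [hζ, norm_one] at h3
  have hub : ∀ z, 0 < ‖z‖ → ‖z‖ < R₀ → ∀ᶠ ζ in 𝓝[≠] z, ∀ k,
      ‖U k ζ‖ ≤ (∑ a, C a + ∏ a, C a) * size h ζ ^ d := by
    intro z h1 h2
    filter_upwards [hsize1 z h1 h2] with ζ hζ k
    have h3 := c3 k.1 ζ k.2
    have h4 : size h ζ ^ (Γ.γ k.1).e ≤ size h ζ ^ d := pow_le_pow_right₀ hζ (hde k.1)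
    have h5 : C k.1 ≤ ∑ a, C a + ∏ a, C a := by
      have h6 : C k.1 ≤ ∑ a, C a := Finset.single_le_sum (fun b _ => c0 b) (Finset.mem_univ k.1)
      linarith only [hCp, h6]
    rw [hU]
    exact h3.trans (mul_le_mul h5 h4 (pow_nonneg (PartEst_size_nonneg h ζ) _)
      (add_nonneg hCs hCp))
  have hul : ∀ s, 0 < ‖s‖ → ‖s‖ < R₀ → ∀ k, (d : ℤ) * minOrd h s ≤ ordZ (U k) s := by
    intro s h1 h2 k
    have h3 := c4 k.1 s h1 h2 k.2
    have h4 := hh.minOrd_le h1 h2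
    have h5 : ((Γ.γ k.1).e : ℤ) ≤ d := by exact_mod_cast hde k.1
    have h6 : (d : ℤ) * minOrd h s ≤ ((Γ.γ k.1).e : ℤ) * minOrd h s :=
      mul_le_mul_of_nonpos_right h5 h4
    rw [hU]
    exact h6.trans h3
  have hprodJ : ∀ ζ, ∏ k ∈ J, ‖U k ζ‖ = ∏ a, ∏ j, ‖u a (Sum.inr j) ζ‖ := by
    intro ζ
    rw [hJ, Finset.prod_sigma]
    refine Finset.prod_congr rfl fun a _ => ?_
    rw [Finset.prod_map, hU]
    rfl
  have hsumJ : ∀ s, ∑ k ∈ J, ordZ (U k) s = ∑ a, ∑ j, ordZ (u a (Sum.inr j)) s := by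
    intro s
    rw [hJ, Finset.sum_sigma]
    refine Finset.sum_congr rfl fun a _ => ?_
    rw [Finset.sum_map, hU]
    rfl
  have hsumU : ∀ ζ, ∑ k, ‖deriv (U k) ζ / U k ζ‖ =
      ∑ a, ∑ k, ‖deriv (u a k) ζ / u a k ζ‖ := by
    intro ζ
    rw [Fintype.sum_sigma, hU]
  have hpt : ∀ z, 0 < ‖z‖ → ‖z‖ < R₀ → ∀ᶠ ζ in 𝓝[≠] z,
      ‖∏ a, Pf a ζ‖ * size h ζ ^ (∑ a, (Γ.γ a).e * ((Γ.γ a).len - 2 * (Γ.γ a).κ)) ≤
        (∑ a, C a + ∏ a, C a) * (∏ k ∈ J, ‖U k ζ‖) *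
          (1 + ∑ k, ‖deriv (U k) ζ / U k ζ‖) ^ (∑ a, ρ a) := by
    intro z h1 h2
    filter_upwards [Filter.eventually_all.2 fun a => c5 a z h1 h2] with ζ hζ
    have h0 : ∀ a, 0 ≤ ∑ k, ‖deriv (u a k) ζ / u a k ζ‖ := fun a =>
      Finset.sum_nonneg fun _ _ => norm_nonneg _
    have h3 : ∀ a, ∑ k, ‖deriv (u a k) ζ / u a k ζ‖ ≤ ∑ k, ‖deriv (U k) ζ / U k ζ‖ := by
      intro a
      rw [hsumU]
      exact Finset.single_le_sum (fun b _ => h0 b) (Finset.mem_univ a)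
    have h4 : ∀ a, 0 ≤ ∏ j, ‖u a (Sum.inr j) ζ‖ := fun a =>
      Finset.prod_nonneg fun _ _ => norm_nonneg _
    have h5 : 0 ≤ ∏ k ∈ J, ‖U k ζ‖ := Finset.prod_nonneg fun _ _ => norm_nonneg _
    have h6 : 0 ≤ ∑ k, ‖deriv (U k) ζ / U k ζ‖ := Finset.sum_nonneg fun _ _ => norm_nonneg _
    calc ‖∏ a, Pf a ζ‖ * size h ζ ^ (∑ a, (Γ.γ a).e * ((Γ.γ a).len - 2 * (Γ.γ a).κ)) =
          ∏ a, (‖Pf a ζ‖ * size h ζ ^ ((Γ.γ a).e * ((Γ.γ a).len - 2 * (Γ.γ a).κ))) := by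
          rw [norm_prod, Finset.prod_mul_distrib, Finset.prod_pow_eq_pow_sum]
      _ ≤ ∏ a, (C a * (∏ j, ‖u a (Sum.inr j) ζ‖) *
          (1 + ∑ k, ‖deriv (U k) ζ / U k ζ‖) ^ ρ a) := by
          refine Finset.prod_le_prod (fun a _ => mul_nonneg (norm_nonneg _)
            (pow_nonneg (PartEst_size_nonneg h ζ) _)) fun a _ => (hζ a).trans ?_
          refine mul_le_mul_of_nonneg_left ?_ (mul_nonneg (c0 a) (h4 a))
          exact pow_le_pow_left₀ (by linarith only [h0, h0 a]) (by linarith only [h3, h3 a]) _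
      _ = (∏ a, C a) * (∏ k ∈ J, ‖U k ζ‖) *
          (1 + ∑ k, ‖deriv (U k) ζ / U k ζ‖) ^ (∑ a, ρ a) := by
          rw [Finset.prod_mul_distrib, Finset.prod_mul_distrib, Finset.prod_pow_eq_pow_sum,
            hprodJ]
      _ ≤ _ := by
          refine mul_le_mul_of_nonneg_right (mul_le_mul_of_nonneg_right ?_ h5)
            (pow_nonneg (by linarith) _)
          linarith only [hCs]
  have hPo : ∀ s, 0 < ‖s‖ → ‖s‖ < R₀ →
      meromorphicOrderAt (fun z => ∏ a, Pf a z) s = ∑ a, meromorphicOrderAt (Pf a) s :=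
    fun s h1 h2 => meromorphicOrderAt_fun_prod fun a _ => (c2 a).mero s h1 h2
  have hPcast : ∀ s, 0 < ‖s‖ → ‖s‖ < R₀ →
      meromorphicOrderAt (fun z => ∏ a, Pf a z) s = ((∑ a, ordZ (Pf a) s : ℤ) : WithTop ℤ) := by
    intro s h1 h2
    rw [hPo s h1 h2, WithTop.coe_sum]
    exact Finset.sum_congr rfl fun a _ =>
      (Pool.Agent.H92.GGL.ordZ_cast ((c2 a).ord s h1 h2)).symm
  have hPm : MeroPunct R₀ fun z => ∏ a, Pf a z := by
    refine ⟨fun z h1 h2 => ?_, fun z h1 h2 => ?_⟩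
    · exact MeromorphicAt.fun_prod fun a _ => (c2 a).mero z h1 h2
    · rw [hPcast z h1 h2]
      exact WithTop.coe_ne_top
  have hloc : ∀ s, 0 < ‖s‖ → ‖s‖ < R₀ → ((∑ k ∈ J, ordZ (U k) s : ℤ) : ℝ) ≤
      (ordZ (fun z => ∏ a, Pf a z) s : ℝ) +
      ((∑ a, (Γ.γ a).e * ((Γ.γ a).len - 2 * (Γ.γ a).κ) : ℕ) : ℝ) * minOrd h s +
      (Γ.count h s : ℝ) := by
    intro s h1 h2
    have h3 : ordZ (fun z => ∏ a, Pf a z) s = ∑ a, ordZ (Pf a) s := by
      have h4 := Pool.Agent.H92.GGL.ordZ_cast (hPm.ord s h1 h2)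
      rw [hPcast s h1 h2] at h4
      exact_mod_cast h4
    have h4 : ∑ k ∈ J, ordZ (U k) s ≤ ordZ (fun z => ∏ a, Pf a z) s +
        ((∑ a, (Γ.γ a).e * ((Γ.γ a).len - 2 * (Γ.γ a).κ) : ℕ) : ℤ) * minOrd h s +
        ((Γ.count h s : ℕ) : ℤ) := by
      rw [hsumJ, h3]
      refine (Finset.sum_le_sum fun a _ => c6 a s h1 h2).trans (le_of_eq ?_)
      rw [Finset.sum_add_distrib, Finset.sum_add_distrib, ← Finset.sum_mul, ← Nat.cast_sum]
      unfold Partition.count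
      rw [← Nat.cast_sum]
    exact_mod_cast h4
  -- transfer to `Fin`
  obtain ⟨E⟩ : Nonempty ((Σ a, (Fin (l a) ⊕ Fin (Γ.γ a).len)) ≃
    Fin (Fintype.card (Σ a, (Fin (l a) ⊕ Fin (Γ.γ a).len)))) := ⟨Fintype.equivFin _⟩
  refine ⟨_, fun j => U (E.symm j), J.map E.toEmbedding, fun z => ∏ a, Pf a z, ∑ a, ρ a, d,
    ∑ a, C a + ∏ a, C a, fun j => ?_, hPm, ?_, ?_, ?_, ?_⟩
  · rw [hU]
    exact c1 _ _
  · intro z h1 h2
    filter_upwards [hub z h1 h2] with ζ hζ j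
    exact hζ _
  · intro s h1 h2 j
    exact hul s h1 h2 _
  · intro z h1 h2
    filter_upwards [hpt z h1 h2] with ζ hζ
    rw [Finset.prod_map]
    simp only [Equiv.coe_toEmbedding, Equiv.symm_apply_apply]
    rw [Equiv.sum_comp E.symm fun k => ‖deriv (U k) ζ / U k ζ‖]
    exact hζ
  · intro s h1 h2
    rw [Finset.sum_map]
    simp only [Equiv.coe_toEmbedding, Equiv.symm_apply_apply]
    exact hloc s h1 h2

end Pool.Agent.H5.DG4

end
end

section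

/-!
# Project DG4, module SmtPart: maps of the punctured disc to the variety, and sections along them

`nc f i₀`: the coordinates of `f`, divided by the one with index `i₀`.
`nc_curve`: `quot_meroPunct`, `nz_mem`, `nz_notMem` (module D3Lem).
`minOrd_nc`: for a local lift `ψ` at `s` we have `ordZ (nc f i₀ i) s = ordZ ψ_i s - ordZ ψ_(i₀) s`, and some
`ψ_i s` is not `0`.
`smt_partition`: `partition_est` and `smt_trunc` with `R₀ = 1` (`n = Γ.count`; `LocFin` since the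
functions `G (ι j) (nc f i₀)` and the coordinates have locally finite orders: if all the orders at `s`
are `0` then `Γ.count` is `0`).
`count_le`: `G (ι j) (nc f i₀) = G (ι j) (ψ) / ψ_(i₀) ^ e` has order `> e * minOrd` iff `G (ι j) (ψ s) = 0`; the
indices `ι j` of all clusters are distinct elements of `S`.
`ext_of_section`: `Γ.num` and `hnum` give `a < k * D'`, `D' = ∑ e * (len - (n + 6) * κ) ≤ D = ∑ e * (len - 2 * κ)`;
`k * (D - ε) - a > 0` for a small `ε`; `cnt_le_of_section`, `punctMero_of_chr`, `exists_extension`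
(module H62/FC/Extend).
-/

open MvPolynomial Filter Topology MeasureTheory
open Pool.Agent.H17 (PN VanishesAt HolomorphicInto puncturedDisc)
open Pool.Agent.H62.FC hiding Homog
open Pool.Agent.H92.GGL (ordZ)
open Pool.Agent.H5.DG

noncomputable section

namespace Pool.Agent.H5.DG4

variable {A M m : ℕ} {P : Ideal (MvPolynomial (Fin (M + 1)) ℂ)}
  {G : Fin m → MvPolynomial (Fin (M + 1)) ℂ} {S : Finset (Fin m)}

/-- Normalised coordinates. -/
def nc (f : ℂ → PN M) (i₀ i : Fin (M + 1)) (z : ℂ) : ℂ := (f z).rep i / (f z).rep i₀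

theorem nc_curve {f : ℂ → PN M} (hf : HolomorphicInto f puncturedDisc) {i₀ : Fin (M + 1)}
    (hi₀ : i₀ ∈ nzSet f) : Curve 1 (nc f i₀) i₀ where
  dich i := by
    by_cases hi : i ∈ nzSet f
    · left
      exact quot_meroPunct hf hi hi₀
    · right
      intro z h1 h2
      filter_upwards [eventually_mem_puncturedDisc (mem_puncturedDisc.mpr ⟨h1, h2⟩)] with ζ hζ
      show (f ζ).rep i / (f ζ).rep i₀ = 0
      rw [nz_notMem hf hi hζ, zero_div]
  one z h1 h2 := by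
    filter_upwards [nz_mem hi₀ (mem_puncturedDisc.mpr ⟨h1, h2⟩)] with ζ hζ
    exact div_self hζ

private theorem SP_nc {f : ℂ → PN M} (i₀ : Fin (M + 1)) (z : ℂ) :
    (fun i => nc f i₀ i z) = ((f z).rep i₀)⁻¹ • (f z).rep := by
  funext i
  show (f z).rep i / (f z).rep i₀ = ((f z).rep i₀)⁻¹ * (f z).rep i
  rw [div_eq_inv_mul]

private theorem SP_smul {r e : ℕ} {Q : MvPolynomial (Fin r) ℂ} (hQ : Q.IsHomogeneous e)
    (c : ℂ) (x : Fin r → ℂ) : eval (c • x) Q = c ^ e * eval x Q :=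
  Pool.Agent.H17.eval_smul_of_isHomogeneous hQ c x

private theorem SP_eval {f : ℂ → PN M} (i₀ : Fin (M + 1)) (z : ℂ)
    {Q : MvPolynomial (Fin (M + 1)) ℂ} {e : ℕ} (hQ : Q.IsHomogeneous e) :
    eval (fun i => nc f i₀ i z) Q = ((f z).rep i₀)⁻¹ ^ e * eval (f z).rep Q := by
  rw [SP_nc, SP_smul hQ]

private theorem SP_rep {r : ℕ} {f : ℂ → PN r} {s : ℂ} {ψ : ℂ → Fin (r + 1) → ℂ}
    (he : ∀ᶠ z in 𝓝 s, ∃ h : ψ z ≠ 0, f z = Projectivization.mk ℂ (ψ z) h) :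
    ∀ᶠ z in 𝓝 s, ∃ c : ℂ, c ≠ 0 ∧ (f z).rep = c • ψ z := by
  filter_upwards [he] with z hz
  obtain ⟨h1, h2⟩ := hz
  obtain ⟨a, ha, h3⟩ := Pool.Agent.H17.exists_smul_rep (ψ z) h1
  refine ⟨a, ha, ?_⟩
  rw [h2, h3]

private theorem SP_analytic {r : ℕ} {ψ : ℂ → Fin (r + 1) → ℂ} {s : ℂ} (hψ : AnalyticAt ℂ ψ s)
    (Q : MvPolynomial (Fin (r + 1)) ℂ) : AnalyticAt ℂ (fun z => eval (ψ z) Q) s := by
  have h1 : AnalyticAt ℂ (fun z => aeval (ψ z) Q) s :=
    AnalyticAt.aeval_mvPolynomial (fun i => analyticAt_pi_iff.mp hψ i) Q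
  refine h1.congr (Eventually.of_forall fun z => ?_)
  rfl

private theorem SP_ord_nonneg {Λ : ℂ → ℂ} {s : ℂ} (hΛ : AnalyticAt ℂ Λ s) : 0 ≤ ordZ Λ s := by
  by_cases hne : meromorphicOrderAt Λ s = ⊤
  · unfold ordZ
    rw [hne]
    simp
  · have h1 := hΛ.meromorphicOrderAt_nonneg
    rw [← Pool.Agent.H92.GGL.ordZ_cast hne] at h1
    exact_mod_cast h1

/-- Not identically zero forms give meromorphic functions. -/
private theorem SP_mero {f : ℂ → PN M} (hf : HolomorphicInto f puncturedDisc) {i₀ : Fin (M + 1)}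
    (hi₀ : i₀ ∈ nzSet f) {Q : MvPolynomial (Fin (M + 1)) ℂ} {e : ℕ} (hQ : Q.IsHomogeneous e)
    (hne : ∀ s ∈ puncturedDisc, ∀ᶠ z in 𝓝[≠] s, ¬ VanishesAt Q (f z)) :
    MeroPunct 1 (fun ζ => eval (fun i => nc f i₀ i ζ) Q) := by
  have hmer : ∀ z, 0 < ‖z‖ → ‖z‖ < 1 →
      MeromorphicAt (fun ζ => eval (fun i => nc f i₀ i ζ) Q) z := by
    intro z h1 h2
    obtain ⟨ψ, hψ, he⟩ := hf z (mem_puncturedDisc.mpr ⟨h1, h2⟩)
    have h3 : MeromorphicAt (fun ζ => (ψ ζ i₀)⁻¹ ^ e * eval (ψ ζ) Q) z :=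
      ((analyticAt_pi_iff.mp hψ i₀).meromorphicAt.inv.pow e).mul
        (SP_analytic hψ Q).meromorphicAt
    refine h3.congr ?_
    filter_upwards [(SP_rep he).filter_mono nhdsWithin_le_nhds] with ζ hζ
    obtain ⟨c, hc, h4⟩ := hζ
    rw [SP_eval i₀ ζ hQ, h4, SP_smul hQ, Pi.smul_apply,
      smul_eq_mul, mul_inv, mul_pow, inv_pow c]
    field_simp
  refine ⟨hmer, fun z h1 h2 => ?_⟩
  have hs := mem_puncturedDisc.mpr ⟨h1, h2⟩
  rw [meromorphicOrderAt_ne_top_iff_eventually_ne_zero (hmer z h1 h2)]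
  filter_upwards [hne z hs, nz_mem hi₀ hs] with ζ h3 h4
  rw [SP_eval i₀ ζ hQ]
  exact mul_ne_zero (pow_ne_zero _ (inv_ne_zero h4)) h3

/-- The order of a form. -/
private theorem SP_ord {f : ℂ → PN M} (hf : HolomorphicInto f puncturedDisc) {i₀ : Fin (M + 1)}
    (hi₀ : i₀ ∈ nzSet f) {s : ℂ} (hs : s ∈ puncturedDisc) {ψ : ℂ → Fin (M + 1) → ℂ}
    (hψ : AnalyticAt ℂ ψ s)
    (he : ∀ᶠ z in 𝓝 s, ∃ h : ψ z ≠ 0, f z = Projectivization.mk ℂ (ψ z) h)
    {Q : MvPolynomial (Fin (M + 1)) ℂ} {e : ℕ} (hQ : Q.IsHomogeneous e)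
    (hne : ∀ s ∈ puncturedDisc, ∀ᶠ z in 𝓝[≠] s, ¬ VanishesAt Q (f z)) :
    ordZ (fun ζ => eval (fun i => nc f i₀ i ζ) Q) s =
      ordZ (fun z => eval (ψ z) Q) s - e * ordZ (fun z => ψ z i₀) s := by
  have hM := SP_mero hf hi₀ hQ hne
  have h5 := mem_puncturedDisc.mp hs
  have ha := SP_analytic hψ Q
  have hb := analyticAt_pi_iff.mp hψ i₀
  have hψ0 : ∀ᶠ z in 𝓝[≠] s, ψ z i₀ ≠ 0 := by
    filter_upwards [(SP_rep he).filter_mono nhdsWithin_le_nhds, nz_mem hi₀ hs] with z hz h1 h2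
    obtain ⟨c, hc, h3⟩ := hz
    apply h1
    rw [h3, Pi.smul_apply, h2, smul_zero]
  have hQ0 : ∀ᶠ z in 𝓝[≠] s, eval (ψ z) Q ≠ 0 := by
    filter_upwards [(SP_rep he).filter_mono nhdsWithin_le_nhds, hne s hs] with z hz h1 h2
    obtain ⟨c, hc, h3⟩ := hz
    apply h1
    unfold VanishesAt
    rw [h3, SP_smul hQ, h2, mul_zero]
  have hta := (meromorphicOrderAt_ne_top_iff_eventually_ne_zero ha.meromorphicAt).mpr hQ0
  have htb := (meromorphicOrderAt_ne_top_iff_eventually_ne_zero hb.meromorphicAt).mpr hψ0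
  have h1 : (fun z => eval (ψ z) Q) =ᶠ[𝓝[≠] s]
      ((fun ζ => eval (fun i => nc f i₀ i ζ) Q) * (fun z => ψ z i₀) ^ e) := by
    filter_upwards [(SP_rep he).filter_mono nhdsWithin_le_nhds, hψ0] with z hz h2
    obtain ⟨c, hc, h3⟩ := hz
    rw [Pi.mul_apply, Pi.pow_apply]
    show _ = eval (fun i => nc f i₀ i z) Q * ψ z i₀ ^ e
    rw [SP_eval i₀ z hQ, h3, SP_smul hQ, Pi.smul_apply,
      smul_eq_mul, mul_inv, mul_pow, inv_pow c, inv_pow (ψ z i₀)]
    field_simp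
  have h2 := meromorphicOrderAt_congr h1
  rw [meromorphicOrderAt_mul (hM.mero s h5.1 h5.2) (hb.meromorphicAt.pow e),
    meromorphicOrderAt_pow hb.meromorphicAt] at h2
  rw [← Pool.Agent.H92.GGL.ordZ_cast hta, ← Pool.Agent.H92.GGL.ordZ_cast htb,
    ← Pool.Agent.H92.GGL.ordZ_cast (hM.ord s h5.1 h5.2)] at h2
  have h4 : ordZ (fun z => eval (ψ z) Q) s =
      ordZ (fun ζ => eval (fun i => nc f i₀ i ζ) Q) s + e * ordZ (fun z => ψ z i₀) s := by
    exact_mod_cast h2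
  linarith only [h4]

private theorem SP_ord_X {f : ℂ → PN M} (hf : HolomorphicInto f puncturedDisc) {i₀ : Fin (M + 1)}
    (hi₀ : i₀ ∈ nzSet f) {s : ℂ} (hs : s ∈ puncturedDisc) {ψ : ℂ → Fin (M + 1) → ℂ}
    (hψ : AnalyticAt ℂ ψ s)
    (he : ∀ᶠ z in 𝓝 s, ∃ h : ψ z ≠ 0, f z = Projectivization.mk ℂ (ψ z) h)
    {i : Fin (M + 1)} (hi : i ∈ nzSet f) :
    ordZ (nc f i₀ i) s = ordZ (fun z => ψ z i) s - ordZ (fun z => ψ z i₀) s := by
  have h1 := SP_ord hf hi₀ hs hψ he (isHomogeneous_X ℂ i) (fun s hs => by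
    filter_upwards [nz_mem hi hs] with z hz hz'
    exact hz (vanishesAt_X.mp hz'))
  simp only [eval_X, Nat.cast_one, one_mul] at h1
  exact h1

theorem minOrd_nc {f : ℂ → PN M} (hf : HolomorphicInto f puncturedDisc) {i₀ : Fin (M + 1)}
    (hi₀ : i₀ ∈ nzSet f) {s : ℂ} (hs : s ∈ puncturedDisc) {ψ : ℂ → Fin (M + 1) → ℂ}
    (hψ : AnalyticAt ℂ ψ s)
    (he : ∀ᶠ z in 𝓝 s, ∃ h : ψ z ≠ 0, f z = Projectivization.mk ℂ (ψ z) h) :
    minOrd (nc f i₀) s = - ordZ (fun z => ψ z i₀) s := by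
  have hnn : ∀ i, 0 ≤ ordZ (fun z => ψ z i) s := fun i =>
    SP_ord_nonneg (analyticAt_pi_iff.mp hψ i)
  obtain ⟨c, hc, hrep⟩ := (SP_rep he).self_of_nhds
  obtain ⟨hne, -⟩ := he.self_of_nhds
  have h5 := mem_puncturedDisc.mp hs
  apply le_antisymm
  · obtain ⟨i, hi⟩ : ∃ i, ψ s i ≠ 0 := by
      by_contra hcon
      push Not at hcon
      exact hne (funext hcon)
    have hi' : i ∈ nzSet f := by
      by_contra h1
      have h2 := nz_notMem hf h1 hs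
      rw [hrep, Pi.smul_apply, smul_eq_mul] at h2
      exact mul_ne_zero hc hi h2
    refine (Finset.inf'_le _ (Finset.mem_univ i)).trans (le_of_eq ?_)
    rw [SP_ord_X hf hi₀ hs hψ he hi', ord_eq_zero_of_ne (analyticAt_pi_iff.mp hψ i) hi, zero_sub]
  · refine Finset.le_inf' _ _ fun i _ => ?_
    by_cases hi : i ∈ nzSet f
    · rw [SP_ord_X hf hi₀ hs hψ he hi]
      have := hnn i
      linarith only [this]
    · have h1 : ordZ (nc f i₀ i) s = 0 := by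
        have h2 : nc f i₀ i =ᶠ[𝓝[≠] s] fun _ => 0 := by
          filter_upwards [eventually_mem_puncturedDisc hs] with ζ hζ
          show (f ζ).rep i / (f ζ).rep i₀ = 0
          rw [nz_notMem hf hi hζ, zero_div]
        unfold ordZ
        rw [meromorphicOrderAt_congr h2]
        have h3 : meromorphicOrderAt (fun _ : ℂ => (0 : ℂ)) s = ⊤ := by
          rw [meromorphicOrderAt_eq_top_iff]
          exact Eventually.of_forall fun _ => rfl
        rw [h3]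
        rfl
      rw [h1]
      have := hnn i₀
      linarith

private theorem SP_ne {f : ℂ → PN M} (hf : HolomorphicInto f puncturedDisc)
    {Q : MvPolynomial (Fin (M + 1)) ℂ} {e : ℕ} (hQ : Q.IsHomogeneous e)
    (h : ∃ z ∈ puncturedDisc, ¬ VanishesAt Q (f z)) :
    ∀ s ∈ puncturedDisc, ∀ᶠ z in 𝓝[≠] s, ¬ VanishesAt Q (f z) := by
  rcases vanish_dich hf hQ with h1 | h1
  · obtain ⟨z, hz1, hz2⟩ := h
    exact absurd (h1 z hz1).self_of_nhds hz2
  · exact h1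

theorem count_le (Γ : Partition A P G S) {f : ℂ → PN M} (hf : HolomorphicInto f puncturedDisc)
    {i₀ : Fin (M + 1)} (hi₀ : i₀ ∈ nzSet f)
    (hG : ∀ j ∈ S, ∃ z ∈ puncturedDisc, ¬ VanishesAt (G j) (f z)) {s : ℂ}
    (hs : s ∈ puncturedDisc) :
    Γ.count (nc f i₀) s ≤ {j | j ∈ S ∧ VanishesAt (G j) (f s)}.ncard := by
  classical
  obtain ⟨ψ, hψ, he⟩ := hf s hs
  have key : ∀ a (j : Fin (Γ.γ a).len), ((Γ.γ a).e : ℤ) * minOrd (nc f i₀) s <
      ordZ (fun ζ => eval (fun i => nc f i₀ i ζ) (G ((Γ.γ a).ι j))) s →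
      VanishesAt (G ((Γ.γ a).ι j)) (f s) := by
    intro a j h1
    rw [minOrd_nc hf hi₀ hs hψ he, SP_ord hf hi₀ hs hψ he ((Γ.γ a).homG j)
      (SP_ne hf ((Γ.γ a).homG j) (hG _ (Γ.mem a j)))] at h1
    have h2 : 0 < ordZ (fun z => eval (ψ z) (G ((Γ.γ a).ι j))) s := by linarith only [h1]
    have h3 : eval (ψ s) (G ((Γ.γ a).ι j)) = 0 := by
      by_contra h4
      rw [ord_eq_zero_of_ne (SP_analytic hψ _) h4] at h2
      exact lt_irrefl _ h2
    obtain ⟨c, hc, hrep⟩ := (SP_rep he).self_of_nhds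
    unfold VanishesAt
    rw [hrep, SP_smul ((Γ.γ a).homG j), h3, mul_zero]
  have h1 : Γ.count (nc f i₀) s = ((Finset.univ : Finset (Fin Γ.ν)).sigma fun a =>
      Finset.univ.filter fun j : Fin (Γ.γ a).len => ((Γ.γ a).e : ℤ) * minOrd (nc f i₀) s <
        ordZ (fun ζ => eval (fun i => nc f i₀ i ζ) (G ((Γ.γ a).ι j))) s).card := by
    rw [Finset.card_sigma]
    rfl
  have h2 : {j | j ∈ S ∧ VanishesAt (G j) (f s)} =
      ((S.filter fun j => VanishesAt (G j) (f s) : Finset (Fin m)) : Set (Fin m)) := by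
    ext j
    simp
  rw [h1, h2, Set.ncard_coe_finset]
  refine Finset.card_le_card_of_injOn (fun x => (Γ.γ x.1).ι x.2) ?_ ?_
  · rintro ⟨a, j⟩ hx
    have hx' := Finset.mem_coe.1 hx
    rw [Finset.mem_sigma, Finset.mem_filter] at hx'
    exact Finset.mem_coe.2 (Finset.mem_filter.2 ⟨Γ.mem a j, key a j hx'.2.2⟩)
  · rintro ⟨a, i⟩ - ⟨b, j⟩ - hab
    have hab' : (Γ.γ a).ι i = (Γ.γ b).ι j := hab
    have h3 := Γ.disj a b i j hab'
    subst h3
    rw [(Γ.γ a).inj hab']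

private theorem SP_locFin (Γ : Partition A P G S) {f : ℂ → PN M}
    (hf : HolomorphicInto f puncturedDisc) {i₀ : Fin (M + 1)} (hi₀ : i₀ ∈ nzSet f)
    (hM : ∀ a j, MeroPunct 1 fun ζ => eval (fun i => nc f i₀ i ζ) (G ((Γ.γ a).ι j))) :
    LocFin 1 (fun s => (Γ.count (nc f i₀) s : ℝ)) := by
  classical
  intro r b hr hb
  have h1 : ∀ i ∈ nzSet f, {s : ℂ | r ≤ ‖s‖ ∧ ‖s‖ ≤ b ∧ (ordZ (nc f i₀ i) s : ℝ) ≠ 0}.Finite :=
    fun i hi => (show MeroPunct 1 (nc f i₀ i) from quot_meroPunct hf hi hi₀).locFin r b hr hb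
  have h2 : ∀ a j, {s : ℂ | r ≤ ‖s‖ ∧ ‖s‖ ≤ b ∧
      (ordZ (fun ζ => eval (fun i => nc f i₀ i ζ) (G ((Γ.γ a).ι j))) s : ℝ) ≠ 0}.Finite :=
    fun a j => (hM a j).locFin r b hr hb
  have h3 : ((⋃ i ∈ nzSet f, {s : ℂ | r ≤ ‖s‖ ∧ ‖s‖ ≤ b ∧ (ordZ (nc f i₀ i) s : ℝ) ≠ 0}) ∪
      ⋃ a, ⋃ j, {s : ℂ | r ≤ ‖s‖ ∧ ‖s‖ ≤ b ∧
        (ordZ (fun ζ => eval (fun i => nc f i₀ i ζ) (G ((Γ.γ a).ι j))) s : ℝ) ≠ 0}).Finite := by
    refine Set.Finite.union ?_ ?_
    · exact Set.Finite.biUnion (nzSet f).finite_toSet h1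
    · exact Set.finite_iUnion fun a => Set.finite_iUnion fun j => h2 a j
  refine h3.subset ?_
  rintro s ⟨hs1, hs2, hs3⟩
  have hs : s ∈ puncturedDisc := mem_puncturedDisc.mpr ⟨by linarith, by linarith⟩
  by_contra hcon
  rw [Set.mem_union, not_or] at hcon
  obtain ⟨hc1, hc2⟩ := hcon
  have e1 : ∀ i, ordZ (nc f i₀ i) s = 0 := by
    intro i
    by_cases hi : i ∈ nzSet f
    · by_contra h4
      apply hc1
      rw [Set.mem_iUnion₂]
      exact ⟨i, hi, hs1, hs2, by exact_mod_cast h4⟩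
    · have h2 : nc f i₀ i =ᶠ[𝓝[≠] s] fun _ => 0 := by
        filter_upwards [eventually_mem_puncturedDisc hs] with ζ hζ
        show (f ζ).rep i / (f ζ).rep i₀ = 0
        rw [nz_notMem hf hi hζ, zero_div]
      unfold ordZ
      rw [meromorphicOrderAt_congr h2]
      have h3 : meromorphicOrderAt (fun _ : ℂ => (0 : ℂ)) s = ⊤ := by
        rw [meromorphicOrderAt_eq_top_iff]
        exact Eventually.of_forall fun _ => rfl
      rw [h3]
      rfl
  have e2 : ∀ a j, ordZ (fun ζ => eval (fun i => nc f i₀ i ζ) (G ((Γ.γ a).ι j))) s = 0 := by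
    intro a j
    by_contra h4
    apply hc2
    rw [Set.mem_iUnion]
    refine ⟨a, ?_⟩
    rw [Set.mem_iUnion]
    exact ⟨j, hs1, hs2, by exact_mod_cast h4⟩
  have e3 : minOrd (nc f i₀) s = 0 := by
    unfold minOrd
    apply le_antisymm
    · exact (Finset.inf'_le _ (Finset.mem_univ i₀)).trans (le_of_eq (e1 i₀))
    · exact Finset.le_inf' _ _ fun i _ => (e1 i).ge
  apply hs3
  have h5 : Γ.count (nc f i₀) s = 0 := by
    unfold Partition.count
    refine Finset.sum_eq_zero fun a _ => ?_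
    rw [Finset.card_eq_zero, Finset.filter_eq_empty_iff]
    intro j _ h6
    rw [e3, e2 a j, mul_zero] at h6
    exact lt_irrefl _ h6
  show (Γ.count (nc f i₀) s : ℝ) = 0
  rw [h5, Nat.cast_zero]

theorem smt_partition (hP : Homog P) (Γ : Partition A P G S) {f : ℂ → PN M}
    (hf : HolomorphicInto f puncturedDisc) (hfP : ∀ z ∈ puncturedDisc, f z ∈ variety P)
    (hΔ : ∃ z ∈ puncturedDisc, ¬ VanishesAt Γ.form (f z))
    (hG : ∀ j ∈ S, ∃ z ∈ puncturedDisc, ¬ VanishesAt (G j) (f z)) {i₀ : Fin (M + 1)}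
    (hi₀ : i₀ ∈ nzSet f) {R₁ : ℝ} (h1 : 0 < R₁) (h2 : R₁ < 1) {ε : ℝ} (hε : 0 < ε) :
    LocFin 1 (fun s => (Γ.count (nc f i₀) s : ℝ)) ∧
    ∃ (C : ℝ) (E : Set ℝ), volume E ≠ ⊤ ∧ ∀ x, Real.exp (-x) < R₁ → x ∉ E →
      (((∑ a, (Γ.γ a).e * ((Γ.γ a).len - 2 * (Γ.γ a).κ) : ℕ) : ℝ) - ε) * chr (nc f i₀) R₁ x ≤
        cnt (fun s => (Γ.count (nc f i₀) s : ℝ)) R₁ (Real.exp (-x)) + C * (1 + |x|) := by
  have hM : ∀ a j, MeroPunct 1 fun ζ => eval (fun i => nc f i₀ i ζ) (G ((Γ.γ a).ι j)) :=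
    fun a j => SP_mero hf hi₀ ((Γ.γ a).homG j) (SP_ne hf ((Γ.γ a).homG j) (hG _ (Γ.mem a j)))
  have hn := SP_locFin Γ hf hi₀ hM
  refine ⟨hn, ?_⟩
  have hcurve := nc_curve hf hi₀
  obtain ⟨l, u, J, Pf, ρ, d, C, hu, hPf, hub, hul, hpt, hloc⟩ :=
    partition_est Γ hP one_pos hcurve (fun z hz1 hz2 => by
      have hs := mem_puncturedDisc.mpr ⟨hz1, hz2⟩
      filter_upwards [eventually_mem_puncturedDisc hs, nz_mem hi₀ hs] with ζ h3 h4 R hR
      have h5 : (fun i => nc f i₀ i ζ) ≠ 0 := by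
        intro h6
        have h7 := congrFun h6 i₀
        have h8 : nc f i₀ i₀ ζ = 1 := div_self h4
        rw [Pi.zero_apply] at h7
        rw [h8] at h7
        exact one_ne_zero h7
      have h6 : Projectivization.mk ℂ (fun i => nc f i₀ i ζ) h5 = f ζ := by
        refine Eq.trans ?_ (f ζ).mk_rep
        rw [Projectivization.mk_eq_mk_iff']
        exact ⟨((f ζ).rep i₀)⁻¹, (SP_nc i₀ ζ).symm⟩
      refine eval_of_mem hP h5 ?_ hR
      rw [h6]
      exact hfP ζ h3) (fun z hz1 hz2 => by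
      have hs := mem_puncturedDisc.mpr ⟨hz1, hz2⟩
      obtain ⟨k, hk⟩ := Γ.form_homogeneous
      filter_upwards [SP_ne hf hk hΔ z hs, nz_mem hi₀ hs] with ζ h3 h4
      rw [SP_eval i₀ ζ hk]
      exact mul_ne_zero (pow_ne_zero _ (inv_ne_zero h4)) h3) hM
  exact smt_trunc h1 h2 hcurve hu hPf hn hub hul hpt hloc hε

/-- **Extension over the puncture**, if there is a section with many zeros. -/
theorem ext_of_section (hP : Homog P) (Γ : Partition A P G S) {f : ℂ → PN M}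
    (hf : HolomorphicInto f puncturedDisc) (hfP : ∀ z ∈ puncturedDisc, f z ∈ variety P)
    (hΔ : ∃ z ∈ puncturedDisc, ¬ VanishesAt Γ.form (f z))
    (hG : ∀ j ∈ S, ∃ z ∈ puncturedDisc, ¬ VanishesAt (G j) (f z)) {i₀ : Fin (M + 1)}
    (hi₀ : i₀ ∈ nzSet f) {k a : ℕ} (hk : 1 ≤ k)
    (hnum : A * a ≤ (A - 1) * (k * ∑ j ∈ S, (G j).totalDegree)) {t : ℂ → ℂ}
    (ht : MeroPunct 1 t) {C : ℝ}
    (hb : ∀ z ∈ puncturedDisc, ∀ᶠ ζ in 𝓝[≠] z, ‖t ζ‖ ≤ C * size (nc f i₀) ζ ^ a)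
    (hord : ∀ s ∈ puncturedDisc, ((k * {j | j ∈ S ∧ VanishesAt (G j) (f s)}.ncard : ℕ) : ℤ) ≤
      ordZ t s - a * minOrd (nc f i₀) s) :
    ∃ g : ℂ → PN M, HolomorphicInto g (Metric.ball 0 1) ∧ ∀ z ∈ puncturedDisc, g z = f z := by
  have hcurve := nc_curve hf hi₀
  have h1 : (0 : ℝ) < 1 / 2 := by norm_num
  have h2 : (1 / 2 : ℝ) < 1 := by norm_num
  -- the numerical condition
  obtain ⟨D, hD⟩ : ∃ D : ℕ, D = ∑ a, (Γ.γ a).e * ((Γ.γ a).len - 2 * (Γ.γ a).κ) := ⟨_, rfl⟩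
  have hDlt : a < k * D := by
    have e1 : ∑ a, (Γ.γ a).e * ((Γ.γ a).len - ((Γ.γ a).n + 6) * (Γ.γ a).κ) ≤ D := by
      rw [hD]
      refine Finset.sum_le_sum fun b _ => Nat.mul_le_mul_left _ ?_
      refine Nat.sub_le_sub_left ?_ _
      exact Nat.mul_le_mul_right _ (by omega)
    have e2 := Γ.num
    have e3 : A * a < A * (k * D) := by
      calc A * a ≤ (A - 1) * (k * ∑ j ∈ S, (G j).totalDegree) := hnum
        _ = k * ((A - 1) * ∑ j ∈ S, (G j).totalDegree) := by ring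
        _ < k * (A * ∑ a, (Γ.γ a).e * ((Γ.γ a).len - ((Γ.γ a).n + 6) * (Γ.γ a).κ)) :=
          Nat.mul_lt_mul_of_pos_left e2 (by omega)
        _ ≤ k * (A * D) := Nat.mul_le_mul_left _ (Nat.mul_le_mul_left _ e1)
        _ = A * (k * D) := by ring
    exact Nat.lt_of_mul_lt_mul_left e3
  have hkR : (0 : ℝ) < k := by exact_mod_cast hk
  have hε : (0 : ℝ) < 1 / (2 * k) := by positivity
  obtain ⟨hn, C₁, E, hE, hsmt⟩ := smt_partition hP Γ hf hfP hΔ hG hi₀ h1 h2 hε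
  rw [← hD] at hsmt
  obtain ⟨C₂, hsec⟩ := cnt_le_of_section (n := fun s => (Γ.count (nc f i₀) s : ℝ)) (k := k) (a := a)
    (C := C) h1 h2 hcurve ht hn (fun z hz1 hz2 => hb z (mem_puncturedDisc.mpr ⟨hz1, hz2⟩))
    (fun s hs1 hs2 => by
      have hs := mem_puncturedDisc.mpr ⟨hs1, hs2⟩
      have h3 := hord s hs
      have h4 := count_le Γ hf hi₀ hG hs
      have h5 : ((k * Γ.count (nc f i₀) s : ℕ) : ℤ) ≤
          ordZ t s - a * minOrd (nc f i₀) s := by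
        refine le_trans ?_ h3
        exact_mod_cast Nat.mul_le_mul_left k h4
      exact_mod_cast h5)
  have hδ : (0 : ℝ) < k * ((D : ℝ) - 1 / (2 * k)) - a := by
    have h3 : (a : ℝ) + 1 ≤ k * D := by exact_mod_cast hDlt
    have h4 : (k : ℝ) * (1 / (2 * k)) = 1 / 2 := by
      field_simp
    rw [mul_sub, h4]
    linarith only [h3]
  have hpm : ∀ i, PunctMero (nc f i₀ i) := by
    intro i
    refine punctMero_of_chr (δ := k * ((D : ℝ) - 1 / (2 * k)) - a) (C := C₂ + k * C₁)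
      h1 h2 hcurve hδ hE (fun x hx1 hx2 => ?_) i
    have h3 := hsmt x hx1 hx2
    have h4 := hsec x hx1
    have h5 := mul_le_mul_of_nonneg_left h3 hkR.le
    have e1 : ((k : ℝ) * ((D : ℝ) - 1 / (2 * k)) - a) * chr (nc f i₀) (1 / 2) x =
        k * (((D : ℝ) - 1 / (2 * k)) * chr (nc f i₀) (1 / 2) x) -
          a * chr (nc f i₀) (1 / 2) x := by ring
    have e2 : (C₂ + k * C₁) * (1 + |x|) = C₂ * (1 + |x|) + k * (C₁ * (1 + |x|)) := by ring
    rw [mul_add] at h5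
    rw [e1, e2]
    linarith only [h4, h5]
  refine exists_extension hf (i₀ := i₀) ?_ hpm
  filter_upwards [eventually_puncturedDisc_zero] with z hz
  exact nz_mem hi₀ hz

end Pool.Agent.H5.DG4

end
end

section

/-!
# Project DG4, module SmtC: the second main theorem for entire curves

`f z = [h (z⁻¹)]` on the punctured disc, `R₁ = 1 / 2`, `i₀` with `h i₀` not identically zero.
`smt_partition` with `S = J` and `ε` such that `D - ε ≥ (1 - 1 / A) * ∑ deg (G j)`, `D > (1 - 1 / A) ∑ deg` by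
`Γ.num` (and `(n + 6) * κ ≥ 2 * κ`).
(1) `characteristic h (exp x) ≤ chr (nc f i₀) R₁ x + C * (1 + x)`: on the circle `‖z‖ = exp (-x)`,
`log ‖h (z⁻¹)‖ = max log ‖nc f i₀ i z‖ + log ‖h i₀ (z⁻¹)‖` (the norm of `Fin (M + 1) → ℂ` is the maximum;
`(f z).rep` is a multiple of `h (z⁻¹)`), the mean of the second term is
`A' + B' * x + cnt (ordZ (h i₀ (z⁻¹)))` (`MeroPunct.jensen`), and `- minOrd (nc f i₀) s = ordZ (h i₀ ∘ inv) s`
(`minOrd_nc` with the lift `ψ z = h (z⁻¹)`); circle averages: `z ↦ z⁻¹` maps the circle of radius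
`exp (-x)` to that of radius `exp x` (`circleAverage` of `g (z⁻¹)`; reverse the orientation).
(2) `cnt (Γ.count) R₁ (exp (-x)) ≤ ∑ j, counting (G j) h (exp x)`: `count_le`, the points `s` with
`exp (-x) < ‖s‖ < R₁` correspond to `z = s⁻¹`, `1 / R₁ < ‖z‖ < exp x`, with the same logarithm
`log (‖s‖ / exp (-x)) = log (exp x / ‖z‖)`; all the terms of `counting` are nonnegative; the sets are
finite (`G j (h)` is an entire function, not identically zero).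
For `exp (-x) ≥ R₁`, i.e. `0 ≤ x ≤ log 2`: put these `x` into `E` (a set of finite measure).
-/

open MvPolynomial Filter Topology MeasureTheory
open Pool.Agent.H17 (PN VanishesAt HolomorphicInto puncturedDisc)
open Pool.Agent.H62.FC hiding Homog
open Pool.Agent.H92.GGL (ordZ)
open Pool.Agent.H5.DG

noncomputable section

namespace Pool.Agent.H5.DG4

variable {A M m : ℕ} {P : Ideal (MvPolynomial (Fin (M + 1)) ℂ)}
  {G : Fin m → MvPolynomial (Fin (M + 1)) ℂ}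

/-- The map `[h (z⁻¹)]`. -/
def invMap (h : ℂ → Fin (M + 1) → ℂ) (hne : ∀ z, h z ≠ 0) (z : ℂ) : PN M :=
  Projectivization.mk ℂ (h z⁻¹) (hne z⁻¹)

/-! ### Private lemmas -/

private theorem smtc_rep (h : ℂ → Fin (M + 1) → ℂ) (hne : ∀ z, h z ≠ 0) (z : ℂ) :
    ∃ c : ℂ, c ≠ 0 ∧ ∀ i, (invMap h hne z).rep i = c * h z⁻¹ i := by
  obtain ⟨a, ha, h3⟩ := Pool.Agent.H17.exists_smul_rep (h z⁻¹) (hne z⁻¹)
  refine ⟨a, ha, fun i => ?_⟩
  unfold invMap
  rw [h3]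
  rfl

private theorem smtc_nc (h : ℂ → Fin (M + 1) → ℂ) (hne : ∀ z, h z ≠ 0) (i₀ i : Fin (M + 1))
    (z : ℂ) : nc (invMap h hne) i₀ i z = h z⁻¹ i / h z⁻¹ i₀ := by
  obtain ⟨c, hc, h1⟩ := smtc_rep h hne z
  unfold nc
  rw [h1, h1, mul_div_mul_left _ _ hc]

private theorem smtc_an {h : ℂ → Fin (M + 1) → ℂ} (hd : Differentiable ℂ h) {s : ℂ}
    (hs : s ≠ 0) : AnalyticAt ℂ (fun z => h z⁻¹) s := by
  have h1 : AnalyticAt ℂ h s⁻¹ := hd.analyticAt _
  have h2 : AnalyticAt ℂ (fun z : ℂ => z⁻¹) s := analyticAt_inv hs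
  exact AnalyticAt.fun_comp h1 h2

private theorem smtc_van {h : ℂ → Fin (M + 1) → ℂ} (hne : ∀ z, h z ≠ 0)
    {Q : MvPolynomial (Fin (M + 1)) ℂ} {d : ℕ} (hQ : Q.IsHomogeneous d) (z : ℂ) :
    VanishesAt Q (invMap h hne z) ↔ eval (h z⁻¹) Q = 0 := by
  unfold invMap
  rw [Pool.Agent.H17.vanishesAt_mk_iff hQ]

private theorem smtc_entire {h : ℂ → Fin (M + 1) → ℂ} (hd : Differentiable ℂ h)
    (Q : MvPolynomial (Fin (M + 1)) ℂ) : AnalyticOnNhd ℂ (fun z => eval (h z) Q) Set.univ := by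
  intro z _
  exact AnalyticAt.aeval_mvPolynomial (fun i => analyticAt_pi_iff.mp (hd.analyticAt z) i) Q

/-- The identity theorem: a frequent zero forces vanishing everywhere. -/
private theorem smtc_ident {h : ℂ → Fin (M + 1) → ℂ} (hd : Differentiable ℂ h)
    {Q : MvPolynomial (Fin (M + 1)) ℂ} {z₀ : ℂ} (hf : ∃ᶠ z in 𝓝[≠] z₀, eval (h z) Q = 0)
    (z : ℂ) : eval (h z) Q = 0 := by
  have h1 := (smtc_entire hd Q).eqOn_zero_of_preconnected_of_frequently_eq_zero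
    isPreconnected_univ (Set.mem_univ z₀) hf
  exact h1 (Set.mem_univ z)

private theorem smtc_fin {h : ℂ → Fin (M + 1) → ℂ} (hd : Differentiable ℂ h)
    {Q : MvPolynomial (Fin (M + 1)) ℂ} (hQ : ∃ z, eval (h z) Q ≠ 0) (R : ℝ) :
    {z : ℂ | z ≠ 0 ∧ ‖z‖ < R ∧ eval (h z) Q = 0}.Finite := by
  by_contra hinf
  have hinf' : {z : ℂ | z ≠ 0 ∧ ‖z‖ < R ∧ eval (h z) Q = 0}.Infinite := hinf
  obtain ⟨z₀, -, hz₀⟩ := hinf'.exists_accPt_of_subset_isCompact
    (isCompact_closedBall (0 : ℂ) R) (by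
      intro z hz
      rw [mem_closedBall_zero_iff]
      exact hz.2.1.le)
  obtain ⟨z, hz⟩ := hQ
  apply hz
  refine smtc_ident hd (z₀ := z₀) ?_ z
  rw [accPt_iff_frequently_nhdsNE] at hz₀
  exact hz₀.mono fun y hy => hy.2.2

private theorem smtc_out {h : ℂ → Fin (M + 1) → ℂ} (hd : Differentiable ℂ h)
    {Q : MvPolynomial (Fin (M + 1)) ℂ} (hQ : ∃ z, eval (h z) Q ≠ 0) :
    ∃ z ∈ puncturedDisc, eval (h z⁻¹) Q ≠ 0 := by
  by_contra hcon
  push Not at hcon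
  obtain ⟨z, hz⟩ := hQ
  apply hz
  refine smtc_ident hd (z₀ := 2) ?_ z
  have h1 : ∀ᶠ w in 𝓝[≠] (2 : ℂ), eval (h w) Q = 0 := by
    have h2 : ∀ᶠ w in 𝓝 (2 : ℂ), 1 < ‖w‖ := by
      have h3 : IsOpen {w : ℂ | 1 < ‖w‖} := isOpen_lt continuous_const continuous_norm
      exact h3.mem_nhds (by simp)
    filter_upwards [h2.filter_mono nhdsWithin_le_nhds] with w hw
    have h4 : w⁻¹ ∈ puncturedDisc := by
      rw [mem_puncturedDisc, norm_inv]
      have h5 : 0 < ‖w‖ := lt_trans one_pos hw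
      exact ⟨inv_pos.mpr h5, inv_lt_one_of_one_lt₀ hw⟩
    have h6 := hcon w⁻¹ h4
    rwa [inv_inv] at h6
  exact h1.frequently

private theorem smtc_mem {x : ℝ} {s : ℂ} (h1 : Real.exp (-x) < ‖s‖) (h2 : ‖s‖ < 1 / 2) :
    s ∈ puncturedDisc := by
  rw [mem_puncturedDisc]
  exact ⟨(Real.exp_pos _).trans h1, by linarith only [h2]⟩

private theorem smtc_mero {h : ℂ → Fin (M + 1) → ℂ} (hd : Differentiable ℂ h)
    (hne : ∀ z, h z ≠ 0) {i : Fin (M + 1)} (hi : i ∈ nzSet (invMap h hne)) :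
    MeroPunct 1 (fun z => h z⁻¹ i) where
  mero z h1 h2 :=
    (analyticAt_pi_iff.mp (smtc_an hd (norm_pos_iff.mp h1)) i).meromorphicAt
  ord z h1 h2 := by
    have h3 := (analyticAt_pi_iff.mp (smtc_an hd (norm_pos_iff.mp h1)) i).meromorphicAt
    rw [meromorphicOrderAt_ne_top_iff_eventually_ne_zero h3]
    filter_upwards [nz_mem hi (mem_puncturedDisc.mpr ⟨h1, h2⟩)] with w hw hw'
    obtain ⟨c, hc, h4⟩ := smtc_rep h hne w
    apply hw
    rw [h4, hw', mul_zero]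

private theorem smtc_inv (g : ℂ → ℝ) (x : ℝ) :
    Real.circleAverage g 0 (Real.exp x) =
      Real.circleAverage (fun z => g z⁻¹) 0 (Real.exp (-x)) := by
  rw [Real.circleAverage_eq_circleAverage_zero_one (f := g),
    Real.circleAverage_eq_circleAverage_zero_one (f := fun z => g z⁻¹),
    ← Real.circleAverage_zero_one_congr_inv]
  congr 1
  funext z
  congr 1
  rw [add_zero, add_zero, mul_inv, Real.exp_neg]
  push_cast
  rw [inv_inv]

private theorem smtc_pt {h : ℂ → Fin (M + 1) → ℂ} (hne : ∀ z, h z ≠ 0) {i₀ : Fin (M + 1)}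
    {z : ℂ} (hz : h z⁻¹ i₀ ≠ 0) :
    (Finset.univ.sup' Finset.univ_nonempty fun i => Real.posLog ‖nc (invMap h hne) i₀ i z‖) =
      Real.log ‖h z⁻¹‖ - Real.log ‖h z⁻¹ i₀‖ := by
  have h0 : 0 < ‖h z⁻¹ i₀‖ := norm_pos_iff.mpr hz
  have h1 : 0 < ‖h z⁻¹‖ := norm_pos_iff.mpr (hne _)
  have h2 : ‖h z⁻¹ i₀‖ ≤ ‖h z⁻¹‖ := norm_le_pi_norm _ _
  have h3 : 1 ≤ ‖h z⁻¹‖ / ‖h z⁻¹ i₀‖ := (one_le_div h0).mpr h2
  have h4 : Real.posLog (‖h z⁻¹‖ / ‖h z⁻¹ i₀‖) = Real.log ‖h z⁻¹‖ - Real.log ‖h z⁻¹ i₀‖ := by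
    rw [Real.posLog_eq_log (by rw [abs_of_pos (by positivity)]; exact h3),
      Real.log_div h1.ne' h0.ne']
  rw [← h4]
  apply le_antisymm
  · apply Finset.sup'_le
    intro i _
    rw [smtc_nc, norm_div]
    apply Real.posLog_le_posLog (by positivity)
    exact div_le_div_of_nonneg_right (norm_le_pi_norm _ _) h0.le
  · obtain ⟨i, hi⟩ : ∃ i, ‖h z⁻¹‖ = ‖h z⁻¹ i‖ := by
      obtain ⟨i, -, hi⟩ := Finset.exists_max_image Finset.univ (fun i => ‖h z⁻¹ i‖)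
        Finset.univ_nonempty
      refine ⟨i, le_antisymm ?_ (norm_le_pi_norm _ _)⟩
      rw [pi_norm_le_iff_of_nonneg (norm_nonneg _)]
      exact fun j => hi j (Finset.mem_univ j)
    refine le_trans (le_of_eq ?_) (Finset.le_sup' _ (Finset.mem_univ i))
    rw [smtc_nc, norm_div, hi]

/-! ### The theorems -/

theorem invMap_holomorphic {h : ℂ → Fin (M + 1) → ℂ} (hd : Differentiable ℂ h)
    (hne : ∀ z, h z ≠ 0) : HolomorphicInto (invMap h hne) puncturedDisc := by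
  intro z₀ hz₀
  have h1 : z₀ ≠ 0 := hz₀.2
  exact ⟨fun z => h z⁻¹, smtc_an hd h1, Filter.Eventually.of_forall fun z => ⟨hne z⁻¹, rfl⟩⟩

theorem characteristic_le {h : ℂ → Fin (M + 1) → ℂ} (hd : Differentiable ℂ h)
    (hne : ∀ z, h z ≠ 0) {i₀ : Fin (M + 1)} (hi₀ : i₀ ∈ nzSet (invMap h hne)) :
    ∃ C : ℝ, ∀ x : ℝ, Real.exp (-x) < 1 / 2 →
      characteristic h (Real.exp x) ≤ chr (nc (invMap h hne) i₀) (1 / 2) x + C * (1 + |x|) := by
  have hu : MeroPunct 1 (fun z => h z⁻¹ i₀) := smtc_mero hd hne hi₀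
  obtain ⟨A', B', hAB⟩ := hu.jensen (R₁ := 1 / 2) (by norm_num) (by norm_num)
  refine ⟨|A'| + |B'|, fun x hx => ?_⟩
  have hx1 : Real.exp (-x) < 1 := by linarith only [hx]
  have hcu : CircleIntegrable (fun z => Real.log ‖h z⁻¹ i₀‖) 0 (Real.exp (-x)) :=
    hu.circleIntegrable_log hx1
  have hch : CircleIntegrable (fun z => Real.log ‖h z⁻¹‖) 0 (Real.exp (-x)) := by
    apply ContinuousOn.circleIntegrable (Real.exp_pos _).le
    intro z hz
    have hz0 : z ≠ 0 := by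
      intro h0
      rw [h0, mem_sphere_zero_iff_norm, norm_zero] at hz
      exact (Real.exp_pos (-x)).ne hz
    have h1 : ContinuousAt (fun z => h z⁻¹) z := (smtc_an hd hz0).continuousAt
    exact (h1.norm.log (norm_ne_zero_iff.mpr (hne _))).continuousWithinAt
  have hcod : (fun z => Finset.univ.sup' Finset.univ_nonempty
        fun i => Real.posLog ‖nc (invMap h hne) i₀ i z‖)
      =ᶠ[codiscreteWithin (Metric.sphere (0 : ℂ) |Real.exp (-x)|)]
      ((fun z => Real.log ‖h z⁻¹‖) - fun z => Real.log ‖h z⁻¹ i₀‖) := by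
    rw [Filter.EventuallyEq, Filter.Eventually, mem_codiscreteWithin_iff_forall_mem_nhdsNE]
    intro z hz
    rw [mem_sphere_zero_iff_norm, abs_of_pos (Real.exp_pos _)] at hz
    have hzp : z ∈ puncturedDisc := by
      rw [mem_puncturedDisc, hz]
      exact ⟨Real.exp_pos _, hx1⟩
    filter_upwards [nz_mem hi₀ hzp] with w hw
    left
    apply smtc_pt hne
    intro hw'
    obtain ⟨c, hc, h4⟩ := smtc_rep h hne w
    apply hw
    rw [h4, hw', mul_zero]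
  have h1 : mean (fun z => Finset.univ.sup' Finset.univ_nonempty
      fun i => Real.posLog ‖nc (invMap h hne) i₀ i z‖) x =
      characteristic h (Real.exp x) - mean (fun z => Real.log ‖h z⁻¹ i₀‖) x := by
    unfold mean characteristic
    rw [Real.circleAverage_congr_codiscreteWithin hcod (Real.exp_pos _).ne',
      Real.circleAverage_sub hch hcu, smtc_inv (fun z => Real.log ‖h z‖)]
  have h2 : cnt (fun s => -(minOrd (nc (invMap h hne) i₀) s : ℝ)) (1 / 2) (Real.exp (-x)) =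
      cnt (fun s => (ordZ (fun z => h z⁻¹ i₀) s : ℝ)) (1 / 2) (Real.exp (-x)) := by
    unfold cnt
    apply finsum_mem_congr rfl
    rintro s ⟨hs1, hs2⟩
    have hs := smtc_mem hs1 hs2
    have h3 := minOrd_nc (invMap_holomorphic hd hne) hi₀ hs (ψ := fun z => h z⁻¹)
      (smtc_an hd (norm_pos_iff.mp (mem_puncturedDisc.mp hs).1))
      (Filter.Eventually.of_forall fun z => ⟨hne z⁻¹, rfl⟩)
    beta_reduce
    rw [h3]
    push_cast
    rw [neg_neg]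
  have h3 : chr (nc (invMap h hne) i₀) (1 / 2) x =
      characteristic h (Real.exp x) - (A' + B' * x) := by
    unfold chr
    rw [h1, h2, hAB x hx]
    ring
  rw [h3]
  have h4 : A' + B' * x ≤ (|A'| + |B'|) * (1 + |x|) := by
    have e1 := le_abs_self A'
    have e2 := le_abs_self (B' * x)
    rw [abs_mul] at e2
    nlinarith only [e1, e2, abs_nonneg A', abs_nonneg B', abs_nonneg x,
      mul_nonneg (abs_nonneg A') (abs_nonneg x)]
  linarith only [h4]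

theorem cnt_le_counting {J : Finset (Fin m)} (hG : ∀ j, ∃ d, (G j).IsHomogeneous d)
    (Γ : Partition A P G J) {h : ℂ → Fin (M + 1) → ℂ} (hd : Differentiable ℂ h)
    (hne : ∀ z, h z ≠ 0) (hj : ∀ j ∈ J, ∃ z, eval (h z) (G j) ≠ 0) {i₀ : Fin (M + 1)}
    (hi₀ : i₀ ∈ nzSet (invMap h hne)) {x : ℝ} (hx : Real.exp (-x) < 1 / 2) :
    cnt (fun s => (Γ.count (nc (invMap h hne) i₀) s : ℝ)) (1 / 2) (Real.exp (-x)) ≤
      ∑ j ∈ J, counting (G j) h (Real.exp x) := by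
  classical
  have hx0 : 0 < x := by
    by_contra hcon
    have h1 : 1 ≤ Real.exp (-x) := Real.one_le_exp (by linarith only [hcon])
    linarith only [hx, h1]
  have hr : 0 < Real.exp (-x) := Real.exp_pos _
  have hfin := fun j (hJ : j ∈ J) => smtc_fin hd (hj j hJ) (Real.exp x)
  have hfinU : (⋃ j ∈ J, {z : ℂ | z ≠ 0 ∧ ‖z‖ < Real.exp x ∧ eval (h z) (G j) = 0}).Finite :=
    J.finite_toSet.biUnion fun j hJ => hfin j hJ
  have hf := invMap_holomorphic hd hne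
  have hGp : ∀ j ∈ J, ∃ z ∈ puncturedDisc, ¬ VanishesAt (G j) (invMap h hne z) := by
    intro j hJ
    obtain ⟨d, hdj⟩ := hG j
    obtain ⟨z, hz, hz'⟩ := smtc_out hd (hj j hJ)
    exact ⟨z, hz, fun h1 => hz' ((smtc_van hne hdj z).mp h1)⟩
  have hcount : ∀ s ∈ puncturedDisc, (Γ.count (nc (invMap h hne) i₀) s : ℝ) ≤
      ∑ j ∈ J, if eval (h s⁻¹) (G j) = 0 then (1 : ℝ) else 0 := by
    intro s hs
    have h1 := count_le Γ hf hi₀ hGp hs
    have h2 : {j | j ∈ J ∧ VanishesAt (G j) (invMap h hne s)} =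
        ((J.filter fun j => eval (h s⁻¹) (G j) = 0 : Finset (Fin m)) : Set (Fin m)) := by
      ext j
      obtain ⟨d, hdj⟩ := hG j
      simp [smtc_van hne hdj s]
    rw [h2, Set.ncard_coe_finset] at h1
    rw [Finset.sum_boole]
    exact_mod_cast h1
  have hinvlt : ∀ s : ℂ, Real.exp (-x) < ‖s‖ → s⁻¹ ≠ 0 ∧ ‖s⁻¹‖ < Real.exp x := by
    intro s hs
    have hs0 : 0 < ‖s‖ := hr.trans hs
    refine ⟨inv_ne_zero (norm_pos_iff.mp hs0), ?_⟩
    rw [norm_inv]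
    rw [Real.exp_neg] at hs
    exact (inv_lt_comm₀ hs0 (Real.exp_pos x)).mpr hs
  set T : Finset ℂ := hfinU.toFinset.image (fun z => z⁻¹) with hT
  have hTm : ∀ s, Real.exp (-x) < ‖s‖ → ‖s‖ < 1 / 2 →
      (Γ.count (nc (invMap h hne) i₀) s : ℝ) ≠ 0 → s ∈ T := by
    intro s hs1 hs2 hs3
    have h1 := hcount s (smtc_mem hs1 hs2)
    have h2 : (0 : ℝ) < ∑ j ∈ J, if eval (h s⁻¹) (G j) = 0 then (1 : ℝ) else 0 :=
      lt_of_lt_of_le (lt_of_le_of_ne (Nat.cast_nonneg _) (Ne.symm hs3)) h1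
    obtain ⟨j, hJ, hjj⟩ : ∃ j ∈ J,
        (if eval (h s⁻¹) (G j) = 0 then (1 : ℝ) else 0) ≠ 0 := by
      by_contra hcon
      push Not at hcon
      rw [Finset.sum_eq_zero hcon] at h2
      exact lt_irrefl _ h2
    have h3 : eval (h s⁻¹) (G j) = 0 := by
      by_contra h4
      rw [if_neg h4] at hjj
      exact hjj rfl
    rw [hT, Finset.mem_image]
    refine ⟨s⁻¹, ?_, inv_inv s⟩
    rw [Set.Finite.mem_toFinset, Set.mem_iUnion₂]
    exact ⟨j, hJ, (hinvlt s hs1).1, (hinvlt s hs1).2, h3⟩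
  rw [cnt_eq_sum hTm hr]
  have hstep : ∑ s ∈ T with Real.exp (-x) < ‖s‖ ∧ ‖s‖ < 1 / 2,
      (Γ.count (nc (invMap h hne) i₀) s : ℝ) * Real.log (‖s‖ / Real.exp (-x)) ≤
      ∑ s ∈ T with Real.exp (-x) < ‖s‖ ∧ ‖s‖ < 1 / 2,
        ∑ j ∈ J, (if eval (h s⁻¹) (G j) = 0 then (1 : ℝ) else 0) *
          Real.log (‖s‖ / Real.exp (-x)) := by
    refine Finset.sum_le_sum fun s hs => ?_
    obtain ⟨-, hs1, hs2⟩ := Finset.mem_filter.mp hs
    rw [← Finset.sum_mul]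
    refine mul_le_mul_of_nonneg_right (hcount s (smtc_mem hs1 hs2)) ?_
    exact Real.log_nonneg ((one_le_div hr).mpr hs1.le)
  refine hstep.trans ?_
  rw [Finset.sum_comm]
  refine Finset.sum_le_sum fun j hJ => ?_
  have hterm : ∀ z ∈ (hfin j hJ).toFinset, 0 ≤ Real.log (Real.exp x / ‖z‖) := by
    intro z hz
    rw [Set.Finite.mem_toFinset] at hz
    exact Real.log_nonneg ((one_le_div (norm_pos_iff.mpr hz.1)).mpr hz.2.1.le)
  have h1 : ∑ s ∈ T with Real.exp (-x) < ‖s‖ ∧ ‖s‖ < 1 / 2,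
      (if eval (h s⁻¹) (G j) = 0 then (1 : ℝ) else 0) * Real.log (‖s‖ / Real.exp (-x)) ≤
      ∑ z ∈ (hfin j hJ).toFinset, Real.log (Real.exp x / ‖z‖) := by
    have h2 : ∑ s ∈ T with Real.exp (-x) < ‖s‖ ∧ ‖s‖ < 1 / 2,
        (if eval (h s⁻¹) (G j) = 0 then (1 : ℝ) else 0) * Real.log (‖s‖ / Real.exp (-x)) =
        ∑ s ∈ (T.filter fun s => Real.exp (-x) < ‖s‖ ∧ ‖s‖ < 1 / 2).filter
          (fun s => eval (h s⁻¹) (G j) = 0), Real.log (‖s‖ / Real.exp (-x)) := by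
      rw [Finset.sum_filter (p := fun s => eval (h s⁻¹) (G j) = 0)]
      refine Finset.sum_congr rfl fun s _ => ?_
      split_ifs <;> simp
    rw [h2]
    have h3 : ∑ s ∈ (T.filter fun s => Real.exp (-x) < ‖s‖ ∧ ‖s‖ < 1 / 2).filter
          (fun s => eval (h s⁻¹) (G j) = 0), Real.log (‖s‖ / Real.exp (-x)) =
        ∑ z ∈ ((T.filter fun s => Real.exp (-x) < ‖s‖ ∧ ‖s‖ < 1 / 2).filter
          (fun s => eval (h s⁻¹) (G j) = 0)).image (fun s => s⁻¹),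
            Real.log (Real.exp x / ‖z‖) := by
      rw [Finset.sum_image (fun a _ b _ hab => inv_injective hab)]
      refine Finset.sum_congr rfl fun s _ => ?_
      rw [norm_inv, Real.exp_neg, div_inv_eq_mul, div_inv_eq_mul, mul_comm]
    rw [h3]
    refine Finset.sum_le_sum_of_subset_of_nonneg ?_ fun z hz _ => hterm z hz
    intro z hz
    obtain ⟨s, hs, rfl⟩ := Finset.mem_image.mp hz
    obtain ⟨hs', hs3⟩ := Finset.mem_filter.mp hs
    obtain ⟨-, hs1, hs2⟩ := Finset.mem_filter.mp hs'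
    rw [Set.Finite.mem_toFinset]
    exact ⟨(hinvlt s hs1).1, (hinvlt s hs1).2, hs3⟩
  refine h1.trans ?_
  unfold counting
  rw [finsum_mem_eq_finite_toFinset_sum _ (hfin j hJ)]
  have h4 : (0 : ℝ) ≤ (if eval (h 0) (G j) = 0 then Real.log (Real.exp x) else 0) := by
    split_ifs
    · rw [Real.log_exp]
      exact hx0.le
    · exact le_rfl
  have h5 : (open Classical in if eval (h 0) (G j) = 0 then Real.log (Real.exp x) else 0) =
      (if eval (h 0) (G j) = 0 then Real.log (Real.exp x) else 0) := by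
    congr
  rw [h5]
  linarith only [hfin, hJ, h4]

theorem truncatedSMT_of_partition {J : Finset (Fin m)} (hA : 1 ≤ A) (hP : Homog P)
    (hG : ∀ j, ∃ d, (G j).IsHomogeneous d) (Γ : Partition A P G J)
    {Δ : MvPolynomial (Fin (M + 1)) ℂ} (hΔ : Γ.form ∣ Δ) : TruncatedSMT A P G J Δ := by
  intro h hd hne hPv hΔ' hj
  have hf := invMap_holomorphic hd hne
  obtain ⟨i₀, hi₀⟩ : ∃ i₀, i₀ ∈ nzSet (invMap h hne) := by
    by_contra hcon
    push Not at hcon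
    have hs : (1 / 2 : ℂ) ∈ puncturedDisc := by
      rw [mem_puncturedDisc]
      norm_num
    refine (invMap h hne (1 / 2)).rep_nonzero ?_
    funext i
    exact nz_notMem hf (hcon i) hs
  have hfP : ∀ z ∈ puncturedDisc, invMap h hne z ∈ variety P := by
    intro z _ Q hQ k hk
    exact (smtc_van hne hk z).mpr (hPv _ Q hQ)
  have hΔp : ∃ z ∈ puncturedDisc, ¬ VanishesAt Γ.form (invMap h hne z) := by
    obtain ⟨k, hk⟩ := Γ.form_homogeneous
    obtain ⟨Q, hQ⟩ := hΔ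
    obtain ⟨z₀, hz₀⟩ := hΔ'
    have h1 : ∃ z, eval (h z) Γ.form ≠ 0 := by
      refine ⟨z₀, fun h0 => hz₀ ?_⟩
      rw [hQ, map_mul, h0, zero_mul]
    obtain ⟨z, hz, hz'⟩ := smtc_out hd h1
    exact ⟨z, hz, fun h2 => hz' ((smtc_van hne hk z).mp h2)⟩
  have hGp : ∀ j ∈ J, ∃ z ∈ puncturedDisc, ¬ VanishesAt (G j) (invMap h hne z) := by
    intro j hJ
    obtain ⟨d, hdj⟩ := hG j
    obtain ⟨z, hz, hz'⟩ := smtc_out hd (hj j hJ)
    exact ⟨z, hz, fun h1 => hz' ((smtc_van hne hdj z).mp h1)⟩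
  set D : ℕ := ∑ a, (Γ.γ a).e * ((Γ.γ a).len - 2 * (Γ.γ a).κ) with hD
  set W : ℕ := ∑ j ∈ J, (G j).totalDegree with hW
  have hApos : (0 : ℝ) < A := by exact_mod_cast hA
  have hA1 : (1 : ℝ) ≤ A := by exact_mod_cast hA
  have hK : (1 - 1 / (A : ℝ)) * (W : ℝ) < (D : ℝ) := by
    have h1 : (A - 1) * W < A * D := by
      refine lt_of_lt_of_le Γ.num (Nat.mul_le_mul_left _ ?_)
      refine Finset.sum_le_sum fun a _ => Nat.mul_le_mul_left _ ?_
      refine Nat.sub_le_sub_left (Nat.mul_le_mul_right _ (by omega)) _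
    have h2 : ((A : ℝ) - 1) * W < A * D := by
      have h3 : (((A - 1) * W : ℕ) : ℝ) < ((A * D : ℕ) : ℝ) := by exact_mod_cast h1
      push_cast [Nat.cast_sub hA] at h3
      exact h3
    have h4 : (1 - 1 / (A : ℝ)) * (W : ℝ) = ((A : ℝ) - 1) * W / A := by
      field_simp
    rw [h4, div_lt_iff₀ hApos]
    linarith only [h2]
  have hK0 : 0 ≤ (1 - 1 / (A : ℝ)) * (W : ℝ) := by
    refine mul_nonneg ?_ (Nat.cast_nonneg _)
    rw [sub_nonneg, div_le_one hApos]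
    exact hA1
  obtain ⟨-, C, E, hE, hb⟩ := smt_partition hP Γ hf hfP hΔp hGp hi₀ (R₁ := 1 / 2)
    (by norm_num) (by norm_num) (ε := (D : ℝ) - (1 - 1 / (A : ℝ)) * (W : ℝ)) (by linarith only [hK])
  obtain ⟨C₂, hC₂⟩ := characteristic_le hd hne hi₀
  refine ⟨C + (1 - 1 / (A : ℝ)) * (W : ℝ) * C₂, E ∪ Set.Icc 0 (Real.log 2), ?_,
    fun x hx0 hx => ?_⟩
  · refine measure_union_ne_top hE ?_
    rw [Real.volume_Icc]
    exact ENNReal.ofReal_ne_top
  have hxE : x ∉ E := fun h1 => hx (Or.inl h1)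
  have hx2 : Real.log 2 < x := by
    by_contra hcon
    exact hx (Or.inr ⟨hx0, not_lt.mp hcon⟩)
  have hxe : Real.exp (-x) < 1 / 2 := by
    rw [Real.exp_neg, ← one_div]
    refine one_div_lt_one_div_of_lt two_pos ?_
    rw [← Real.log_lt_iff_lt_exp two_pos]
    exact hx2
  have h1 := hb x hxe hxE
  have h2 := hC₂ x hxe
  have h3 := cnt_le_counting hG Γ hd hne hj hi₀ hxe
  rw [abs_of_nonneg hx0] at h1 h2
  have h4 := mul_le_mul_of_nonneg_left h2 hK0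
  have h5 : ((D : ℝ) - ((D : ℝ) - (1 - 1 / (A : ℝ)) * (W : ℝ))) =
      (1 - 1 / (A : ℝ)) * (W : ℝ) := by ring
  rw [h5] at h1
  nlinarith only [hne, h1, h3, h4]

end Pool.Agent.H5.DG4

end
end
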