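import Pool.Agent.H94.DG.M19
import Pool.Agent.H94.DG.M44
import Pool.Agent.H94.DG.M47
import Pool.Agent.H94.DG.M48

/-! The parts of this file: H5.DG3.Holo, H5.DG3.ExtMorph, H5.DG4.Mult4. -/

section

/-!
# Project DG3, module Holo: composition of holomorphic maps with a morphism

`φ` a local lift of `f` at `s`, `α` a tuple which does not vanish at `f s`: `ψ z = (F α a (φ z))_a` is
a local lift of `morph F (f z)` (`morph_mk`; the elements of `I` vanish at `φ z` by `eval_of_mem`,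
module CovMap; see `coverMap_holomorphic` there).  For `meetsForm_morph` take the tuple `α` and the
form `T` of `PullbackMult` at `f s`: the polynomials `R` such that `R (φ z)` has order at least `j` at
`s` form an ideal (`CovMap_J` in module CovMap, private: copy what is needed), all elements of
`radical (span {L} ⊔ I)` have order at least `1` if `L (φ s) = 0`, so `T L` has order at least `q` and
`T (φ s) ≠ 0`; model: `meets_of_ramM` (CovMap).
-/

open MvPolynomial Filter Topology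
open Pool.Agent.H17 (PN VanishesAt HolomorphicInto)
open Pool.Agent.H5.DG (Homog variety MeetsForm)

noncomputable section

namespace Pool.Agent.H5.DG3

variable {N M s : ℕ} {I : Ideal (MvPolynomial (Fin (N + 1)) ℂ)} {W : Set (PN N)}
  {F : Fin s → Fin (M + 1) → MvPolynomial (Fin (N + 1)) ℂ}

private lemma Holo_analytic {φ : ℂ → Fin (N + 1) → ℂ} {t : ℂ} (hφ : AnalyticAt ℂ φ t)
    (P : MvPolynomial (Fin (N + 1)) ℂ) : AnalyticAt ℂ (fun z => eval (φ z) P) t := by
  induction P using MvPolynomial.induction_on with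
  | C a =>
    simp only [eval_C]
    exact analyticAt_const
  | add p q hp hq =>
    simp only [map_add]
    exact hp.add hq
  | mul_X p i hp =>
    simp only [map_mul, eval_X]
    exact hp.mul (analyticAt_pi_iff.mp hφ i)

/-- the ideal of the polynomials whose value along `φ` has order at least `n` -/
private def Holo_J {φ : ℂ → Fin (N + 1) → ℂ} {t : ℂ} (hφ : AnalyticAt ℂ φ t) (n : ℕ∞) :
    Ideal (MvPolynomial (Fin (N + 1)) ℂ) where
  carrier := {P | n ≤ analyticOrderAt (fun z => eval (φ z) P) t}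
  add_mem' {P Q} hP hQ := by
    change n ≤ _
    simp only [map_add]
    exact (le_min hP hQ).trans le_analyticOrderAt_add
  zero_mem' := by
    change n ≤ _
    have h : analyticOrderAt (fun z => eval (φ z) (0 : MvPolynomial (Fin (N + 1)) ℂ)) t = ⊤ := by
      rw [analyticOrderAt_eq_top]
      exact Filter.Eventually.of_forall fun z => map_zero _
    rw [h]
    exact le_top
  smul_mem' c P hP := by
    change n ≤ analyticOrderAt (fun z => eval (φ z) (c * P)) t
    simp only [map_mul]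
    have h := analyticOrderAt_mul (Holo_analytic hφ c) (Holo_analytic hφ P)
    change n ≤ analyticOrderAt ((fun z => eval (φ z) c) * fun z => eval (φ z) P) t
    rw [h]
    exact le_trans hP le_add_self

private lemma Holo_mem {φ : ℂ → Fin (N + 1) → ℂ} {t : ℂ} (hφ : AnalyticAt ℂ φ t) (n : ℕ∞)
    (P : MvPolynomial (Fin (N + 1)) ℂ) :
    P ∈ Holo_J hφ n ↔ n ≤ analyticOrderAt (fun z => eval (φ z) P) t := Iff.rfl

private lemma Holo_mul {φ : ℂ → Fin (N + 1) → ℂ} {t : ℂ} (hφ : AnalyticAt ℂ φ t)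
    (P Q : MvPolynomial (Fin (N + 1)) ℂ) :
    analyticOrderAt (fun z => eval (φ z) (P * Q)) t =
      analyticOrderAt (fun z => eval (φ z) P) t + analyticOrderAt (fun z => eval (φ z) Q) t := by
  simp only [map_mul]
  exact analyticOrderAt_mul (Holo_analytic hφ P) (Holo_analytic hφ Q)

private lemma Holo_one {φ : ℂ → Fin (N + 1) → ℂ} {t : ℂ} (hφ : AnalyticAt ℂ φ t)
    (P : MvPolynomial (Fin (N + 1)) ℂ) : P ∈ Holo_J hφ 1 ↔ eval (φ t) P = 0 := by
  rw [Holo_mem, Order.one_le_iff_ne_zero, (Holo_analytic hφ P).analyticOrderAt_ne_zero]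

/-- a form vanishes at the point of a vector if and only if its value is zero -/
private lemma Holo_vanishes {v : Fin (N + 1) → ℂ} (hv : v ≠ 0) {P : MvPolynomial (Fin (N + 1)) ℂ}
    {k : ℕ} (hP : P.IsHomogeneous k) (h : ¬ VanishesAt P (Projectivization.mk ℂ v hv)) :
    eval v P ≠ 0 := by
  intro h0
  apply h
  unfold VanishesAt
  obtain ⟨a, ha, h2⟩ := Pool.Agent.H17.exists_smul_rep v hv
  have h3 : eval (a • v) P = a ^ k * eval v P :=
    Pool.Agent.H17.eval_smul_of_isHomogeneous hP a v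
  rw [h2, h3, h0, mul_zero]

/-- the elements of the ideal vanish along the lift -/
private lemma Holo_van (hI : Homog I) (hW : W ⊆ variety I) {f : ℂ → PN N} {U : Set ℂ}
    (hU : IsOpen U) (hfW : ∀ z ∈ U, f z ∈ W) {t : ℂ} (ht : t ∈ U) {φ : ℂ → Fin (N + 1) → ℂ}
    (he : ∀ᶠ z in 𝓝 t, ∃ h : φ z ≠ 0, f z = Projectivization.mk ℂ (φ z) h) :
    ∀ᶠ z in 𝓝 t, ∀ Q ∈ I, eval (φ z) Q = 0 := by
  filter_upwards [he, hU.mem_nhds ht] with z hz hzU Q hQ
  obtain ⟨h1, h2⟩ := hz
  refine Pool.Agent.H5.DG.eval_of_mem hI h1 ?_ hQ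
  intro Q' hQ' k hk
  rw [← h2]
  exact hW (hfW z hzU) Q' hQ' k hk

/-- the local lift of the composition -/
private lemma Holo_lift (hF : IsMorphism I W F) (hI : Homog I) (hW : W ⊆ variety I)
    {f : ℂ → PN N} {U : Set ℂ} (hU : IsOpen U) (hfW : ∀ z ∈ U, f z ∈ W) {t : ℂ} (ht : t ∈ U)
    {φ : ℂ → Fin (N + 1) → ℂ} (hφ : AnalyticAt ℂ φ t)
    (he : ∀ᶠ z in 𝓝 t, ∃ h : φ z ≠ 0, f z = Projectivization.mk ℂ (φ z) h) {α : Fin s}
    (hα : ∃ a, ¬ VanishesAt (F α a) (f t)) :
    AnalyticAt ℂ (fun z a => eval (φ z) (F α a)) t ∧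
      ∀ᶠ z in 𝓝 t, ∃ h : (fun a => eval (φ z) (F α a)) ≠ 0,
        morph F (f z) = Projectivization.mk ℂ (fun a => eval (φ z) (F α a)) h := by
  refine ⟨analyticAt_pi_iff.2 fun a => Holo_analytic hφ (F α a), ?_⟩
  obtain ⟨a, ha⟩ := hα
  obtain ⟨e, hom⟩ := hF.hom α
  have h0 : eval (φ t) (F α a) ≠ 0 := by
    obtain ⟨h1, h2⟩ := he.self_of_nhds
    rw [h2] at ha
    exact Holo_vanishes h1 (hom a) ha
  have h1 : ∀ᶠ z in 𝓝 t, eval (φ z) (F α a) ≠ 0 :=
    (Holo_analytic hφ (F α a)).continuousAt.eventually_ne h0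
  filter_upwards [he, h1, Holo_van hI hW hU hfW ht he] with z hz hza hzv
  obtain ⟨h2, h3⟩ := hz
  have h4 : (fun a => eval (φ z) (F α a)) ≠ 0 := fun h5 => hza (congrFun h5 a)
  refine ⟨h4, ?_⟩
  rw [h3]
  exact morph_mk hF h2 hzv h4

theorem morph_holomorphic (hF : IsMorphism I W F) (hI : Homog I) (hW : W ⊆ variety I)
    {f : ℂ → PN N} {U : Set ℂ} (hU : IsOpen U) (hf : HolomorphicInto f U)
    (hfW : ∀ z ∈ U, f z ∈ W) : HolomorphicInto (fun z => morph F (f z)) U := by
  intro t ht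
  obtain ⟨φ, hφ, he⟩ := hf t ht
  obtain ⟨α, hα⟩ := hF.base (f t) (hfW t ht)
  obtain ⟨h1, h2⟩ := Holo_lift hF hI hW hU hfW ht hφ he hα
  exact ⟨_, h1, h2⟩

theorem meetsForm_morph (hF : IsMorphism I W F) (hI : Homog I) (hW : W ⊆ variety I)
    {f : ℂ → PN N} {U : Set ℂ} (hU : IsOpen U) (hf : HolomorphicInto f U)
    (hfW : ∀ z ∈ U, f z ∈ W) {q : ℕ} {G : MvPolynomial (Fin (M + 1)) ℂ} {k : ℕ}
    (hG : G.IsHomogeneous k) (hm : ∀ z ∈ U, PullbackMult q I F G (f z)) :
    MeetsForm q G (fun z => morph F (f z)) U := by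
  intro t ht
  obtain ⟨φ, hφ, he⟩ := hf t ht
  obtain ⟨α, hα, T, d, hT, hTx, hmem⟩ := hm t ht
  obtain ⟨h1, h2⟩ := Holo_lift hF hI hW hU hfW ht hφ he hα
  refine ⟨_, h1, h2, ?_⟩
  have hvan := Holo_van hI hW hU hfW ht he
  have hev : ∀ z, eval (fun a => eval (φ z) (F α a)) G = eval (φ z) (aeval (F α) G) := fun z =>
    (Pool.Agent.H5.DG.eval_aeval (F α) (φ z) G).symm
  intro h0
  have h0' : eval (φ t) (aeval (F α) G) = 0 := by
    rw [← hev]
    exact h0
  have hgoal : (fun z => eval (fun a => eval (φ z) (F α a)) G) =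
      fun z => eval (φ z) (aeval (F α) G) := funext hev
  change ((q : ℕ) : ℕ∞) ≤ analyticOrderAt (fun z => eval (fun a => eval (φ z) (F α a)) G) t
  rw [hgoal]
  have hT0 : eval (φ t) T ≠ 0 := by
    obtain ⟨h3, h4⟩ := he.self_of_nhds
    rw [h4] at hTx
    exact Holo_vanishes h3 hT hTx
  have hIJ : ∀ n : ℕ∞, I ≤ Holo_J hφ n := by
    intro n Q hQ
    rw [Holo_mem]
    have : analyticOrderAt (fun z => eval (φ z) Q) t = ⊤ := by
      rw [analyticOrderAt_eq_top]
      filter_upwards [hvan] with z hz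
      exact hz Q hQ
    rw [this]
    exact le_top
  have hrad : Ideal.radical (Ideal.span {aeval (F α) G} ⊔ I) ≤ Holo_J hφ 1 := by
    intro B hB
    obtain ⟨n, hn⟩ := hB
    have h3 : Ideal.span {aeval (F α) G} ⊔ I ≤ Holo_J hφ 1 := by
      refine sup_le ?_ (hIJ 1)
      rw [Ideal.span_singleton_le_iff_mem, Holo_one]
      exact h0'
    have h4 := h3 hn
    rw [Holo_one, map_pow] at h4
    rw [Holo_one]
    exact eq_zero_of_pow_eq_zero h4
  have hsq : ∀ p : ℕ, (Ideal.radical (Ideal.span {aeval (F α) G} ⊔ I)) ^ p ≤ Holo_J hφ p := by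
    intro p
    induction p with
    | zero =>
      intro A _
      rw [Holo_mem, Nat.cast_zero]
      exact zero_le
    | succ p ih =>
      rw [pow_succ, Ideal.mul_le]
      intro A hA B hB
      rw [Holo_mem, Holo_mul hφ]
      have h3 := (Holo_mem hφ p A).1 (ih hA)
      have h4 := (Holo_mem hφ 1 B).1 (hrad hB)
      rw [Nat.cast_succ]
      exact add_le_add h3 h4
  have h5 := (sup_le (hsq q) (hIJ q)) hmem
  rw [Holo_mem, Holo_mul hφ] at h5
  have h6 : analyticOrderAt (fun z => eval (φ z) T) t = 0 := by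
    rw [(Holo_analytic hφ _).analyticOrderAt_eq_zero]
    exact hT0
  rw [h6, zero_add] at h5
  exact h5

end Pool.Agent.H5.DG3

end
end

section

/-!
# Project DG3, module ExtMorph: a map extends if its composition with the morphism extends

`Q` = the ideal of the curve (`exists_curveIdeal`), `I ≤ Q`, `variety Q \ B` contains the points
`f z`, one of which is not in `Z`.  `coordFun Q j₀ ≠ 0` for some `j₀` (`X j₀ ∉ Q`:
`aeval_coordFun_eq_zero_iff`), `F α a₀ ∉ Q` for some `α`, `a₀` (`base` at a point `f z`).  The function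
field of `variety Q` has a finite transcendence basis (`Algebra.EssFiniteType`, or a subset of the
finitely many generators `ratio Q i j₀`).  By `morph_algebraic` each `ξ i = ratio Q i j₀` satisfies
`∑_{j ≤ s} C_j (u) * ξ i ^ j = 0` with polynomials `C_j` in the `u a = F α a / F α a₀` and
`C_s (u) ≠ 0` (clear denominators).  Multiply by a power of `F α a₀ (ξ)`: a polynomial relation in the
`ξ`; `curve_eval` gives the relation near all points of the punctured disc for
`h = (f z).rep i / (f z).rep j₀` and `c_j = C_j (u (z))`, `u a (z) = F α a (rep) / F α a₀ (rep)`, which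
are meromorphic at `0` since `morph F (f z)` extends (see `hquot` in `extends_of_coverMap`, module
CovMain).  `punctMero_of_algebraic`; then `Pool.Agent.H62.FC.exists_extension` as at the end of
`extends_of_coverMap`.
-/

open MvPolynomial Filter Topology
open Pool.Agent.H17 (PN VanishesAt ZariskiClosedIn HolomorphicInto puncturedDisc)
open Pool.Agent.H17GT (coordFun)
open Pool.Agent.H17LG.Variety (FunField ratio)
open Pool.Agent.H5.DG (Homog variety valAt)
open Pool.Agent.H62.FC (PunctMero)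

noncomputable section

namespace Pool.Agent.H5.DG3

private theorem ExtMorph_add {f g : ℂ → ℂ} (hf : PunctMero f) (hg : PunctMero g) :
    PunctMero (fun z => f z + g z) := by
  obtain ⟨v, hv, hfv⟩ := hf
  obtain ⟨w, hw, hgw⟩ := hg
  refine ⟨fun z => v z + w z, hv.add hw, ?_⟩
  filter_upwards [hfv, hgw] with z h1 h2
  filter_upwards [h1, h2] with ζ h3 h4
  rw [h3, h4]

private theorem ExtMorph_poly {r : ℕ} {u : Fin r → ℂ → ℂ} (hu : ∀ a, PunctMero (u a))
    (G : MvPolynomial (Fin r) ℂ) : PunctMero (fun z => eval (fun a => u a z) G) := by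
  induction G using MvPolynomial.induction_on with
  | C a =>
    simp only [eval_C]
    exact PunctMero.const a
  | add p q hp hq =>
    simp only [map_add]
    exact ExtMorph_add hp hq
  | mul_X p i hp =>
    simp only [map_mul, eval_X]
    exact hp.mul (hu i)

/-- Clearing the denominators of a polynomial in the quotients `A a / A a₀`. -/
private theorem ExtMorph_clear {N M : ℕ} (A : Fin (M + 1) → MvPolynomial (Fin (N + 1)) ℂ)
    (a₀ : Fin (M + 1)) (G : MvPolynomial (Fin (M + 1)) ℂ) :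
    ∃ D₀ : ℕ, ∀ D ≥ D₀, ∃ R : MvPolynomial (Fin (N + 1)) ℂ,
      ∀ (K : Type) [Field K] [Algebra ℂ K] (y : Fin (N + 1) → K), aeval y (A a₀) ≠ 0 →
        aeval y R = (aeval y (A a₀)) ^ D *
          aeval (fun a => aeval y (A a) / aeval y (A a₀)) G := by
  induction G using MvPolynomial.induction_on with
  | C c =>
    refine ⟨0, fun D _ => ⟨(A a₀) ^ D * C c, ?_⟩⟩
    intro K _ _ y _
    rw [map_mul, map_pow, aeval_C, aeval_C]
  | add p q hp hq =>
    obtain ⟨D₁, h1⟩ := hp
    obtain ⟨D₂, h2⟩ := hq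
    refine ⟨max D₁ D₂, fun D hD => ?_⟩
    obtain ⟨R₁, h3⟩ := h1 D ((le_max_left _ _).trans hD)
    obtain ⟨R₂, h4⟩ := h2 D ((le_max_right _ _).trans hD)
    refine ⟨R₁ + R₂, ?_⟩
    intro K _ _ y hy
    rw [map_add, map_add, h3 K y hy, h4 K y hy, mul_add]
  | mul_X p i hp =>
    obtain ⟨D₁, h1⟩ := hp
    refine ⟨D₁ + 1, fun D hD => ?_⟩
    obtain ⟨D', rfl⟩ : ∃ D', D = D' + 1 := ⟨D - 1, by omega⟩
    obtain ⟨R₁, h3⟩ := h1 D' (by omega)
    refine ⟨R₁ * A i, ?_⟩
    intro K _ _ y hy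
    rw [map_mul, map_mul, h3 K y hy, aeval_X, pow_succ]
    field_simp

open scoped IntermediateField.algebraAdjoinAdjoin in
/-- An algebraic equation without denominators. -/
private theorem ExtMorph_eqn {K : Type} [Field K] [Algebra ℂ K] {m : ℕ} {u : Fin m → K}
    (halg : Algebra.IsAlgebraic (IntermediateField.adjoin ℂ (Set.range u)) K) (x : K) :
    ∃ (s : ℕ) (G : ℕ → MvPolynomial (Fin m) ℂ), aeval u (G s) ≠ 0 ∧
      ∑ j ∈ Finset.range (s + 1), aeval u (G j) * x ^ j = 0 := by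
  have h1 : Algebra.IsAlgebraic (Algebra.adjoin ℂ (Set.range u)) K :=
    (IsFractionRing.comap_isAlgebraic_iff (A := Algebra.adjoin ℂ (Set.range u))
      (K := IntermediateField.adjoin ℂ (Set.range u)) (C := K)).mpr halg
  obtain ⟨p, hp0, hp⟩ := h1.isAlgebraic x
  have h2 : ∀ c : Algebra.adjoin ℂ (Set.range u), ∃ g : MvPolynomial (Fin m) ℂ,
      aeval u g = (c : K) := by
    intro c
    obtain ⟨g, hg⟩ := (SetLike.ext_iff.1 (Algebra.adjoin_range_eq_range_aeval ℂ u) (c : K)).1 c.2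
    exact ⟨g, hg⟩
  choose g hg using h2
  refine ⟨p.natDegree, fun j => g (p.coeff j), ?_, ?_⟩
  · rw [hg]
    intro h0
    apply hp0
    rw [← Polynomial.leadingCoeff_eq_zero]
    exact Subtype.ext h0
  · rw [Polynomial.aeval_eq_sum_range] at hp
    rw [← hp]
    refine Finset.sum_congr rfl fun j _ => ?_
    rw [hg, Algebra.smul_def]
    rfl

private theorem ExtMorph_eval_aeval {r : ℕ} (y : Fin r → ℂ) (P : MvPolynomial (Fin r) ℂ) :
    aeval y P = eval y P := by
  rw [aeval_def, eval, eval₂Hom]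
  rfl

private theorem ExtMorph_scale {r k : ℕ} {P : MvPolynomial (Fin r) ℂ} (hP : P.IsHomogeneous k)
    (c : ℂ) (x : Fin r → ℂ) : eval (fun a => c * x a) P = c ^ k * eval x P := by
  rw [eval_eq, eval_eq, Finset.mul_sum]
  refine Finset.sum_congr rfl fun d hd => ?_
  have h1 : ∑ i, d i = k := by
    have h2 := hP (mem_support_iff.1 hd)
    rw [Finsupp.weight_apply, Finsupp.sum_fintype _ _ (by simp)] at h2
    rw [← h2]
    simp
  have h3 : ∀ y : Fin r → ℂ, ∏ i ∈ d.support, y i ^ d i = ∏ i, y i ^ d i := by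
    intro y
    refine Finset.prod_subset (Finset.subset_univ _) fun i _ hi => ?_
    rw [Finsupp.notMem_support_iff.1 hi, pow_zero]
  rw [h3, h3]
  simp only [mul_pow]
  rw [Finset.prod_mul_distrib, Finset.prod_pow_eq_pow_sum, h1]
  ring

theorem extends_of_morph {N M s : ℕ} {I : Ideal (MvPolynomial (Fin (N + 1)) ℂ)} (hI : Homog I)
    {B Z : Set (PN N)} (hB : ZariskiClosedIn Set.univ B) (hZ : ZariskiClosedIn Set.univ Z)
    {F : Fin s → Fin (M + 1) → MvPolynomial (Fin (N + 1)) ℂ}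
    (hF : IsMorphism I (variety I \ B) F)
    (hfin : ∀ y : PN M, {x | x ∈ variety I \ B ∧ x ∉ Z ∧ morph F x = y}.Finite)
    {f : ℂ → PN N} (hf : HolomorphicInto f puncturedDisc)
    (hfU : ∀ z ∈ puncturedDisc, f z ∈ variety I \ B) (hfZ : ∃ z ∈ puncturedDisc, f z ∉ Z)
    (hext : ∃ g' : ℂ → PN M, HolomorphicInto g' (Metric.ball 0 1) ∧
      ∀ z ∈ puncturedDisc, g' z = morph F (f z)) :
    ∃ g : ℂ → PN N, HolomorphicInto g (Metric.ball 0 1) ∧ ∀ z ∈ puncturedDisc, g z = f z := by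
  classical
  obtain ⟨g', hg', hgf'⟩ := hext
  have hhalf : (1 / 2 : ℂ) ∈ puncturedDisc := by
    refine Pool.Agent.H5.DG.mem_puncturedDisc.mpr ⟨?_, ?_⟩
    · norm_num
    · norm_num
  obtain ⟨Q, hQp, hQh, hQf⟩ := exists_curveIdeal hf
  have hIQ : I ≤ Q := by
    intro T hT
    rw [← sum_homogeneousComponent T]
    refine Ideal.sum_mem _ fun k _ => ?_
    refine (hQf _ k (homogeneousComponent_isHomogeneous k T)).2 fun z hz => ?_
    exact (hfU z hz).1 _ (hI T hT k) k (homogeneousComponent_isHomogeneous k T)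
  have hfQ : ∀ z ∈ puncturedDisc, f z ∈ variety Q := fun z hz T hT k hk => (hQf T k hk).1 hT z hz
  have hQZ : ¬ (variety Q \ B ⊆ Z) := by
    intro h
    obtain ⟨z, hz, hz'⟩ := hfZ
    exact hz' (h ⟨hfQ z hz, (hfU z hz).2⟩)
  -- a coordinate which does not vanish identically
  obtain ⟨j₀, hj₀⟩ : ∃ i, (f (1 / 2)).rep i ≠ 0 := by
    by_contra hcon
    push Not at hcon
    exact (f (1 / 2)).rep_nonzero (funext hcon)
  have hXj : (X j₀ : MvPolynomial (Fin (N + 1)) ℂ) ∉ Q := by
    intro h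
    have h1 := (hQf _ 1 (isHomogeneous_X ℂ j₀)).1 h _ hhalf
    apply hj₀
    unfold Pool.Agent.H17.VanishesAt at h1
    rwa [eval_X] at h1
  have hcoord : coordFun Q j₀ ≠ 0 := by
    intro h0
    apply hXj
    rw [← Pool.Agent.H92.GT.Proj.aeval_coordFun_eq_zero_iff Q (X j₀), aeval_X]
    exact h0
  obtain ⟨w, hz⟩ := Pool.Agent.H62.FC.exists_fin_basis (P := Q) ⟨j₀, hXj⟩
  -- a tuple which does not vanish identically
  obtain ⟨α, a₀, hα⟩ := hF.base _ (hfU _ hhalf)
  obtain ⟨e, he⟩ := hF.hom α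
  have ha₀ : F α a₀ ∉ Q := fun h => hα ((hQf _ e (he a₀)).1 h _ hhalf)
  have halg := morph_algebraic hI hB hZ hF hfin Q hQh hIQ hQZ hz hcoord ha₀
  have hval : aeval (fun i => ratio Q i j₀) (F α a₀) ≠ 0 := fun h =>
    ha₀ ((Pool.Agent.H5.DG.eval_ratio_zero_iff Q hcoord (he a₀)).1 h)
  have hrep : ∀ z ∈ puncturedDisc, ∀ T ∈ I, eval (f z).rep T = 0 := fun z hz T hT =>
    Pool.Agent.H5.DG.eval_of_mem hI (f z).rep_nonzero (by rw [(f z).mk_rep]; exact (hfU z hz).1) hT
  -- near all points the form does not vanish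
  have hden : ∀ s ∈ puncturedDisc, ∀ᶠ z in 𝓝[≠] s, (f z).rep j₀ ≠ 0 ∧
      eval (f z).rep (F α a₀) ≠ 0 ∧ z ∈ puncturedDisc := by
    intro s hs
    have h1 : ∀ᶠ z in 𝓝[≠] s, (f z).rep j₀ ≠ 0 := by
      rcases Pool.Agent.H5.DG.vanish_dich hf (isHomogeneous_X ℂ j₀) with h | h
      · exact absurd ((hQf _ 1 (isHomogeneous_X ℂ j₀)).2 fun z hz => (h z hz).self_of_nhds) hXj
      · filter_upwards [h s hs] with z hz h0
        apply hz
        unfold Pool.Agent.H17.VanishesAt
        rwa [eval_X]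
    have h2 : ∀ᶠ z in 𝓝[≠] s, eval (f z).rep (F α a₀) ≠ 0 := by
      rcases Pool.Agent.H5.DG.vanish_dich hf (he a₀) with h | h
      · exact absurd ((hQf _ e (he a₀)).2 fun z hz => (h z hz).self_of_nhds) ha₀
      · exact h s hs
    filter_upwards [h1, h2, Pool.Agent.H5.DG.eventually_mem_puncturedDisc hs] with z h3 h4 h5
    exact ⟨h3, h4, h5⟩
  -- the quotients of the forms
  have hquot : ∀ a, PunctMero (fun z => eval (f z).rep (F α a) / eval (f z).rep (F α a₀)) := by
    intro a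
    obtain ⟨ψ, hψ, hψe⟩ := hg' 0 (Metric.mem_ball_self one_pos)
    refine ⟨fun z => ψ z a / ψ z a₀, ?_, ?_⟩
    · exact ((analyticAt_pi_iff.mp hψ a).meromorphicAt).fun_div
        (analyticAt_pi_iff.mp hψ a₀).meromorphicAt
    · have h2 := eventually_eventually_nhds.2 hψe
      filter_upwards [h2.filter_mono nhdsWithin_le_nhds,
        Pool.Agent.H5.DG.eventually_puncturedDisc_zero] with z hz hzD
      filter_upwards [hz.filter_mono nhdsWithin_le_nhds, hden z hzD] with ζ h3 h4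
      obtain ⟨h5, h6⟩ := h3
      obtain ⟨h7, h8, h9⟩ := h4
      have h10 : (fun a => eval (f ζ).rep (F α a)) ≠ 0 := fun h => h8 (congrFun h a₀)
      have h11 := morph_mk hF (f ζ).rep_nonzero (hrep ζ h9) h10
      rw [(f ζ).mk_rep] at h11
      rw [hgf' ζ h9, h11, Projectivization.mk_eq_mk_iff'] at h6
      obtain ⟨x, hx⟩ := h6
      have hx0 : x ≠ 0 := by
        rintro rfl
        apply h10
        rw [← hx, zero_smul]
      have h12 : ∀ b, eval (f ζ).rep (F α b) = x * ψ ζ b := fun b => (congrFun hx b).symm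
      rw [h12, h12, mul_div_mul_left _ _ hx0]
  refine Pool.Agent.H62.FC.exists_extension hf (i₀ := j₀) ?_ ?_
  · filter_upwards [Pool.Agent.H5.DG.eventually_puncturedDisc_zero] with z hz
    filter_upwards [hden z hz] with ζ h
    exact h.1
  · intro i
    obtain ⟨t, G, hGt, hG⟩ := ExtMorph_eqn halg (ratio Q i j₀)
    have hclr := fun j => ExtMorph_clear (F α) a₀ (G j)
    choose D₀ hD₀ using hclr
    have hD : ∀ j ∈ Finset.range (t + 1), D₀ j ≤ (Finset.range (t + 1)).sup D₀ := fun j hj =>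
      Finset.le_sup hj
    have hex : ∀ j, ∃ R : MvPolynomial (Fin (N + 1)) ℂ, j ∈ Finset.range (t + 1) →
        ∀ (K : Type) [Field K] [Algebra ℂ K] (y : Fin (N + 1) → K), aeval y (F α a₀) ≠ 0 →
        aeval y R = (aeval y (F α a₀)) ^ ((Finset.range (t + 1)).sup D₀) *
          aeval (fun a => aeval y (F α a) / aeval y (F α a₀)) (G j) := by
      intro j
      by_cases hj : j ∈ Finset.range (t + 1)
      · obtain ⟨R, hR⟩ := hD₀ j _ (hD j hj)
        exact ⟨R, fun _ => hR⟩
      · exact ⟨0, fun h => absurd h hj⟩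
    choose R hR using hex
    -- the relation
    have hrel : aeval (fun i => ratio Q i j₀)
        (∑ j ∈ Finset.range (t + 1), R j * (X i) ^ j) = 0 := by
      rw [map_sum]
      have h1 : ∀ j ∈ Finset.range (t + 1), aeval (fun i => ratio Q i j₀) (R j * (X i) ^ j) =
          (aeval (fun i => ratio Q i j₀) (F α a₀)) ^ ((Finset.range (t + 1)).sup D₀) *
          (aeval (fun a => valAt Q j₀ (F α) a / valAt Q j₀ (F α) a₀) (G j) *
            ratio Q i j₀ ^ j) := by
        intro j hj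
        rw [map_mul, map_pow, aeval_X, hR j hj (FunField Q) _ hval, mul_assoc]
        rfl
      refine (Finset.sum_congr rfl h1).trans ?_
      refine (Finset.mul_sum _ _ _).symm.trans ?_
      exact (congrArg _ hG).trans (mul_zero _)
    have hlead : aeval (fun i => ratio Q i j₀) (R t) ≠ 0 := by
      rw [hR t (Finset.self_mem_range_succ t) (FunField Q) _ hval]
      exact mul_ne_zero (pow_ne_zero _ hval) hGt
    have hev1 := (curve_eval hf Q hQh hQf hcoord _).1 hrel
    have hev2 := (curve_eval hf Q hQh hQf hcoord _).2 hlead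
    -- the values
    have hFh : ∀ z a, eval (fun i => (f z).rep i / (f z).rep j₀) (F α a) =
        ((f z).rep j₀)⁻¹ ^ e * eval (f z).rep (F α a) := by
      intro z a
      rw [← ExtMorph_scale (he a)]
      congr 2
      funext i
      rw [div_eq_inv_mul]
    have hRz : ∀ z, (f z).rep j₀ ≠ 0 → eval (f z).rep (F α a₀) ≠ 0 →
        ∀ j ∈ Finset.range (t + 1), eval (fun i => (f z).rep i / (f z).rep j₀) (R j) =
          (eval (fun i => (f z).rep i / (f z).rep j₀) (F α a₀)) ^
            ((Finset.range (t + 1)).sup D₀) *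
          eval (fun a => eval (f z).rep (F α a) / eval (f z).rep (F α a₀)) (G j) := by
      intro z h1 h2 j hj
      have h3 : eval (fun i => (f z).rep i / (f z).rep j₀) (F α a₀) ≠ 0 := by
        rw [hFh]
        exact mul_ne_zero (pow_ne_zero _ (inv_ne_zero h1)) h2
      have h4 := hR j hj ℂ (fun i => (f z).rep i / (f z).rep j₀)
        (by rw [ExtMorph_eval_aeval]; exact h3)
      simp only [ExtMorph_eval_aeval] at h4
      rw [h4]
      have h5 : (fun a => eval (fun i => (f z).rep i / (f z).rep j₀) (F α a) /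
          eval (fun i => (f z).rep i / (f z).rep j₀) (F α a₀)) =
          fun a => eval (f z).rep (F α a) / eval (f z).rep (F α a₀) := by
        funext a
        rw [hFh, hFh, mul_div_mul_left _ _ (pow_ne_zero _ (inv_ne_zero h1))]
      rw [h5]
    refine punctMero_of_algebraic (s := t)
      (c := fun j z => eval (fun a => eval (f z).rep (F α a) / eval (f z).rep (F α a₀)) (G j))
      (fun z hz => Pool.Agent.H5.DG.quot_mero hf i j₀ hz)
      (fun j _ => ExtMorph_poly
        (u := fun a z => eval (f z).rep (F α a) / eval (f z).rep (F α a₀)) hquot (G j)) ?_ ?_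
    · intro z hz
      filter_upwards [hden z hz, hev2 z hz] with ζ h1 h2
      obtain ⟨h3, h4, -⟩ := h1
      rw [hRz ζ h3 h4 t (Finset.self_mem_range_succ t)] at h2
      exact right_ne_zero_of_mul h2
    · intro z hz
      filter_upwards [hden z hz, hev1 z hz] with ζ h1 h2
      obtain ⟨h3, h4, -⟩ := h1
      rw [map_sum] at h2
      have h5 : ∀ j ∈ Finset.range (t + 1),
          eval (fun i => (f ζ).rep i / (f ζ).rep j₀) (R j * (X i) ^ j) =
          (eval (fun i => (f ζ).rep i / (f ζ).rep j₀) (F α a₀)) ^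
            ((Finset.range (t + 1)).sup D₀) *
          (eval (fun a => eval (f ζ).rep (F α a) / eval (f ζ).rep (F α a₀)) (G j) *
            ((f ζ).rep i / (f ζ).rep j₀) ^ j) := by
        intro j hj
        rw [map_mul, map_pow, eval_X, hRz ζ h3 h4 j hj, mul_assoc]
      rw [Finset.sum_congr rfl h5, ← Finset.mul_sum] at h2
      refine (mul_eq_zero.1 h2).resolve_left (pow_ne_zero _ ?_)
      rw [hFh]
      exact mul_ne_zero (pow_ne_zero _ (inv_ne_zero h3)) h4

end Pool.Agent.H5.DG3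

end
end

section

/-!
# Project DG4, module Mult4: multiplicities at least two

`prod_section`: `τ α = ∏ j ∈ J, aeval (F α) (G j)` is a section with `a = ∑ j ∈ J, deg (G j)`:
`compat`: `F β b ^ d * G (F α) = G (F β b • F α)`, `G (F α b • F β) = F α b ^ d * G (F β)`, and
`F β b * F α c - F α b * F β c ∈ I`; `integral` with `n = 1`, `c 1 = - ∏ j ∈ J, G j`, `c i = 0` otherwise.
`vanishes_two`: for `x` choose one `α` and `b` with `F α b` not zero at `x`; for every `j` there is `β` with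
`PullbackMult` for `β`; `F β b` does not vanish at `x` either (`compat`, both tuples are not zero at `x`
and `x ∈ variety I`); with `u = F β b`, `v = F α b`, `L = G j (F α)`, `L' = G j (F β)`:
`u ^ d * L - v ^ d * L' ∈ I`, so `v ^ d * radical (L' ) ⊆ radical (L)`, and `T * L' ∈ radical (L') ^ 2 + I` gives
`(u ^ d * T * v ^ (2 d)) * L ∈ radical (L) ^ 2 + I`.  Then take the products over `j ∈ J`.
`excSet_eq`: for `x ∈ variety I \ B` let `J = {j | ¬ VanishesAt (G j) (morph F x)}`, at least `m - k ≥ N₀`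
elements (`morph F x ∈ variety P`); the section does not vanish at `x`.
-/

open MvPolynomial
open Pool.Agent.H17 (PN VanishesAt ZariskiClosedIn)
open Pool.Agent.H5.DG (Homog variety AtMostThrough)
open Pool.Agent.H5.DG3 (IsMorphism morph RamifiedMorphism PullbackMult)

noncomputable section

namespace Pool.Agent.H5.DG4

variable {N M m s : ℕ} {P : Ideal (MvPolynomial (Fin (M + 1)) ℂ)}
  {G : Fin m → MvPolynomial (Fin (M + 1)) ℂ} {I : Ideal (MvPolynomial (Fin (N + 1)) ℂ)}
  {B Z : Set (PN N)} {F : Fin s → Fin (M + 1) → MvPolynomial (Fin (N + 1)) ℂ}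

/-! ### Auxiliary lemmas -/

private theorem Mult4_aeval_smul {A : Type*} [CommRing A] [Algebra ℂ A]
    {Q : MvPolynomial (Fin (M + 1)) ℂ} {d : ℕ} (hQ : Q.IsHomogeneous d) (r : A)
    (v : Fin (M + 1) → A) :
    aeval (fun c => r * v c) Q = r ^ d * aeval v Q := by
  classical
  rw [MvPolynomial.aeval_def, MvPolynomial.aeval_def, eval₂_eq, eval₂_eq, Finset.mul_sum]
  refine Finset.sum_congr rfl fun n hn => ?_
  have hdeg : n.degree = d := by
    by_contra hne
    exact (mem_support_iff.mp hn) (hQ.coeff_eq_zero hne)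
  have h1 : ∏ i ∈ n.support, (r * v i) ^ n i = r ^ d * ∏ i ∈ n.support, v i ^ n i := by
    simp_rw [mul_pow]
    rw [Finset.prod_mul_distrib, Finset.prod_pow_eq_pow_sum]
    congr 2
  rw [h1]
  ring

/-- The values of a form at two proportional tuples. -/
private theorem Mult4_compat (hF : IsMorphism I (variety I \ B) F)
    {Q : MvPolynomial (Fin (M + 1)) ℂ} {d : ℕ} (hQ : Q.IsHomogeneous d) (α β : Fin s)
    (b : Fin (M + 1)) :
    aeval (F α) Q * F β b ^ d - aeval (F β) Q * F α b ^ d ∈ I := by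
  rw [← Ideal.Quotient.eq_zero_iff_mem, map_sub, map_mul, map_mul, map_pow, map_pow, sub_eq_zero]
  have h1 : ∀ γ : Fin s, Ideal.Quotient.mk I (aeval (F γ) Q) =
      aeval (fun c => Ideal.Quotient.mk I (F γ c)) Q := by
    intro γ
    have h2 := MvPolynomial.map_aeval (F γ) (Ideal.Quotient.mk I) Q
    rw [h2]
    rfl
  rw [h1, h1]
  have h3 : (fun c => Ideal.Quotient.mk I (F β b) * Ideal.Quotient.mk I (F α c)) =
      fun c => Ideal.Quotient.mk I (F α b) * Ideal.Quotient.mk I (F β c) := by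
    funext c
    have h4 := hF.compat α β c b
    rw [← Ideal.Quotient.eq_zero_iff_mem, map_sub, map_mul, map_mul, sub_eq_zero] at h4
    linear_combination h4
  have h5 := Mult4_aeval_smul hQ (Ideal.Quotient.mk I (F β b)) fun c => Ideal.Quotient.mk I (F α c)
  have h6 := Mult4_aeval_smul hQ (Ideal.Quotient.mk I (F α b)) fun c => Ideal.Quotient.mk I (F β c)
  rw [h3] at h5
  linear_combination h6 - h5

private theorem Mult4_sup_mul {R : Type*} [CommRing R] {I₀ K₁ K₂ : Ideal R} {a b : R}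
    (ha : a ∈ K₁ ⊔ I₀) (hb : b ∈ K₂ ⊔ I₀) : a * b ∈ K₁ * K₂ ⊔ I₀ := by
  have h1 : (K₁ ⊔ I₀) * (K₂ ⊔ I₀) ≤ K₁ * K₂ ⊔ I₀ := by
    rw [Ideal.sup_mul, Ideal.mul_sup, Ideal.mul_sup]
    have e1 : K₁ * I₀ ≤ I₀ := Ideal.mul_le.2 fun r _ y hy => Ideal.mul_mem_left _ _ hy
    have e2 : I₀ * K₂ ≤ I₀ := Ideal.mul_le.2 fun r hr y _ => Ideal.mul_mem_right _ _ hr
    have e3 : I₀ * I₀ ≤ I₀ := Ideal.mul_le.2 fun r _ y hy => Ideal.mul_mem_left _ _ hy
    exact sup_le (sup_le le_sup_left (e1.trans le_sup_right))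
      (sup_le (e2.trans le_sup_right) (e3.trans le_sup_right))
  exact h1 (Ideal.mul_mem_mul ha hb)

/-- Multiplicities at least two do not depend on the tuple. -/
private theorem Mult4_transfer {u v L L' T : MvPolynomial (Fin (N + 1)) ℂ} {d : ℕ}
    (h : u ^ d * L - v ^ d * L' ∈ I)
    (hT : T * L' ∈ (Ideal.radical (Ideal.span {L'} ⊔ I)) ^ 2 ⊔ I) :
    (u ^ d * (v ^ d) ^ 2 * T) * L ∈ (Ideal.radical (Ideal.span {L} ⊔ I)) ^ 2 ⊔ I := by
  -- the generator
  have h1 : v ^ d * L' ∈ Ideal.span {L} ⊔ I := by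
    have h2 : v ^ d * L' = u ^ d * L - (u ^ d * L - v ^ d * L') := by ring
    rw [h2]
    refine Ideal.sub_mem _ ?_ (Ideal.mem_sup_right h)
    exact Ideal.mem_sup_left (Ideal.mul_mem_left _ _ (Ideal.mem_span_singleton_self L))
  have h3 : ∀ z ∈ Ideal.span {L'} ⊔ I, v ^ d * z ∈ Ideal.span {L} ⊔ I := by
    intro z hz
    obtain ⟨y, hy, w, hw, rfl⟩ := Submodule.mem_sup.1 hz
    obtain ⟨c, rfl⟩ := Ideal.mem_span_singleton'.1 hy
    rw [mul_add]
    refine Ideal.add_mem _ ?_ (Ideal.mem_sup_right (Ideal.mul_mem_left _ _ hw))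
    have h4 : v ^ d * (c * L') = c * (v ^ d * L') := by ring
    rw [h4]
    exact Ideal.mul_mem_left _ _ h1
  have h4 : Ideal.span {v ^ d} * Ideal.radical (Ideal.span {L'} ⊔ I) ≤
      Ideal.radical (Ideal.span {L} ⊔ I) := by
    rw [Ideal.span_singleton_mul_le_iff]
    intro z hz
    obtain ⟨n, hn⟩ := hz
    refine ⟨n + 1, ?_⟩
    have h5 : (v ^ d * z) ^ (n + 1) = ((v ^ d) ^ n * z) * (v ^ d * z ^ n) := by ring
    rw [h5]
    exact Ideal.mul_mem_left _ _ (h3 _ hn)
  have h5 : Ideal.span {(v ^ d) ^ 2} * (Ideal.radical (Ideal.span {L'} ⊔ I)) ^ 2 ≤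
      (Ideal.radical (Ideal.span {L} ⊔ I)) ^ 2 := by
    rw [← Ideal.span_singleton_pow, ← mul_pow]
    exact Ideal.pow_right_mono h4 2
  obtain ⟨y, hy, w, hw, hyw⟩ := Submodule.mem_sup.1 hT
  have h6 : (v ^ d) ^ 2 * y ∈ (Ideal.radical (Ideal.span {L} ⊔ I)) ^ 2 :=
    h5 (Ideal.mul_mem_mul (Ideal.mem_span_singleton_self _) hy)
  have h7 : (u ^ d * (v ^ d) ^ 2 * T) * L =
      v ^ d * ((v ^ d) ^ 2 * y) +
        ((v ^ d) ^ 2 * T * (u ^ d * L - v ^ d * L') + (v ^ d) ^ 3 * w) := by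
    have h8 : T * L' = y + w := hyw.symm
    linear_combination (v ^ d) ^ 3 * h8
  rw [h7]
  refine Ideal.add_mem _ (Ideal.mem_sup_left (Ideal.mul_mem_left _ _ h6))
    (Ideal.mem_sup_right (Ideal.add_mem _ (Ideal.mul_mem_left _ _ h) (Ideal.mul_mem_left _ _ hw)))

/-- The multiplicity for the tuple `F α`. -/
private theorem Mult4_multAt (hI : Homog I) (hF : IsMorphism I (variety I \ B) F)
    {Q : MvPolynomial (Fin (M + 1)) ℂ} {d : ℕ} (hQ : Q.IsHomogeneous d) {x : PN N}
    (hx : x ∈ variety I \ B) (hmult : PullbackMult 2 I F Q x) {α : Fin s} {b : Fin (M + 1)}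
    (hb : ¬ VanishesAt (F α b) x) :
    Pool.Agent.H5.DG3.MultAt 2 I (aeval (F α) Q) x := by
  obtain ⟨β, ⟨a₀, ha₀⟩, T, e, hTh, hTx, hT⟩ := hmult
  -- values on the variety
  have hval : ∀ R ∈ I, eval x.rep R = 0 := by
    intro R hR
    have h1 : Projectivization.mk ℂ x.rep x.rep_nonzero = x := x.mk_rep
    refine Pool.Agent.H5.DG.eval_of_mem hI x.rep_nonzero ?_ hR
    rw [h1]
    exact hx.1
  have hβb : ¬ VanishesAt (F β b) x := by
    intro h0
    have h1 := hval _ (hF.compat α β a₀ b)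
    rw [map_sub, map_mul, map_mul] at h1
    have h2 : eval x.rep (F β b) = 0 := h0
    rw [h2, mul_zero, zero_sub, neg_eq_zero] at h1
    exact (mul_ne_zero (M₀ := ℂ) hb ha₀) h1
  obtain ⟨eα, heα⟩ := hF.hom α
  obtain ⟨eβ, heβ⟩ := hF.hom β
  have hc := Mult4_compat hF hQ α β b
  have hc' : F β b ^ d * aeval (F α) Q - F α b ^ d * aeval (F β) Q ∈ I := by
    have h1 : F β b ^ d * aeval (F α) Q - F α b ^ d * aeval (F β) Q =
        aeval (F α) Q * F β b ^ d - aeval (F β) Q * F α b ^ d := by ring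
    rw [h1]
    exact hc
  refine ⟨F β b ^ d * (F α b ^ d) ^ 2 * T, eβ * d + eα * d * 2 + e,
    (((heβ b).pow d).mul (((heα b).pow d).pow 2)).mul hTh, ?_, Mult4_transfer hc' hT⟩
  intro h0
  have h1 : eval x.rep (F β b ^ d * (F α b ^ d) ^ 2 * T) = 0 := h0
  rw [map_mul, map_mul, map_pow, map_pow, map_pow] at h1
  exact (mul_ne_zero (mul_ne_zero (pow_ne_zero _ hβb) (pow_ne_zero _ (pow_ne_zero _ hb))) hTx) h1

theorem finiteMorphism_of_ramified {q : ℕ} (h : RamifiedMorphism q P G I B Z F) :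
    FiniteMorphism P I B Z F :=
  ⟨h.homog, h.closedB, h.closedZ, h.morphism, h.maps, h.finite⟩

theorem prod_section (hF : IsMorphism I (variety I \ B) F) (hG : ∀ j, ∃ e, (G j).IsHomogeneous e)
    (hG0 : ∀ j, G j ≠ 0) (J : Finset (Fin m)) :
    IsSection I F (∑ j ∈ J, (G j).totalDegree) fun α => ∏ j ∈ J, aeval (F α) (G j) := by
  classical
  have hdeg : ∀ j, (G j).IsHomogeneous (G j).totalDegree := by
    intro j
    obtain ⟨e, he⟩ := hG j
    rw [he.totalDegree (hG0 j)]
    exact he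
  refine ⟨fun α => ?_, fun α β b => ?_, ?_⟩
  · obtain ⟨e, he⟩ := hF.hom α
    refine ⟨e, he, ?_⟩
    rw [Finset.mul_sum]
    exact IsHomogeneous.prod J _ _ fun j _ => (hdeg j).aeval _ he
  · rw [← Ideal.Quotient.eq_zero_iff_mem, map_sub, map_mul, map_mul, map_pow, map_pow, map_prod,
      map_prod, sub_eq_zero, ← Finset.prod_pow_eq_pow_sum, ← Finset.prod_pow_eq_pow_sum,
      ← Finset.prod_mul_distrib, ← Finset.prod_mul_distrib]
    refine Finset.prod_congr rfl fun j _ => ?_
    have h1 := Mult4_compat hF (hdeg j) α β b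
    rw [← Ideal.Quotient.eq_zero_iff_mem, map_sub, map_mul, map_mul, map_pow, map_pow,
      sub_eq_zero] at h1
    exact h1
  · refine ⟨1, fun i => if i = 1 then - ∏ j ∈ J, G j else 0, fun i => ?_, fun α => ?_⟩
    · by_cases hi : i = 1
      · subst hi
        simp only [if_true, mul_one]
        exact (IsHomogeneous.prod J _ _ fun j _ => hdeg j).neg
      · simp only [if_neg hi]
        exact isHomogeneous_zero _ _ _
    · have h1 : (∏ j ∈ J, aeval (F α) (G j)) ^ 1 + ∑ i ∈ Finset.range 1,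
          aeval (F α) (if 1 - i = 1 then - ∏ j ∈ J, G j else 0) *
            (∏ j ∈ J, aeval (F α) (G j)) ^ i = 0 := by
        simp
      change (∏ j ∈ J, aeval (F α) (G j)) ^ 1 + ∑ i ∈ Finset.range 1,
          aeval (F α) (if 1 - i = 1 then - ∏ j ∈ J, G j else 0) *
            (∏ j ∈ J, aeval (F α) (G j)) ^ i ∈ I
      rw [h1]
      exact I.zero_mem

theorem vanishes_two (hI : Homog I) (hF : IsMorphism I (variety I \ B) F)
    (hG : ∀ j, ∃ e, (G j).IsHomogeneous e) {x : PN N} (hx : x ∈ variety I \ B)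
    (hmult : ∀ j, PullbackMult 2 I F (G j) x) (J : Finset (Fin m)) :
    ∃ α, (∃ b, ¬ VanishesAt (F α b) x) ∧ VanishesTimes 2 I J (fun j => aeval (F α) (G j))
      (∏ j ∈ J, aeval (F α) (G j)) x := by
  classical
  obtain ⟨α, b, hb⟩ := hF.base x hx
  refine ⟨α, ⟨b, hb⟩, ?_⟩
  have hM : ∀ j, Pool.Agent.H5.DG3.MultAt 2 I (aeval (F α) (G j)) x := by
    intro j
    obtain ⟨e, he⟩ := hG j
    exact Mult4_multAt hI hF he hx (hmult j) hb
  choose T d hTh hTx hT using hM
  refine ⟨∏ j ∈ J, T j, ∑ j ∈ J, d j, IsHomogeneous.prod J _ _ fun j _ => hTh j, ?_, ?_⟩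
  · intro h0
    have h1 : eval x.rep (∏ j ∈ J, T j) = 0 := h0
    rw [map_prod] at h1
    exact (Finset.prod_ne_zero_iff.2 fun j _ => hTx j) h1
  · rw [← Finset.prod_mul_distrib, ← Finset.prod_pow]
    clear hmult
    induction J using Finset.induction_on with
    | empty =>
      simp
    | insert j J hj ih =>
      rw [Finset.prod_insert hj, Finset.prod_insert hj]
      exact Mult4_sup_mul (hT j) ih

/-- The forms which do not vanish at a point are a good set. -/
theorem goodSet_of_atMost {N₀ k : ℕ} (hthr : AtMostThrough k P G) (hm : (N₀ + 1) * (k + 1) ≤ m)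
    {y : PN M} (hy : y ∈ variety P) :
    GoodSet N₀ P G (open Classical in Finset.univ.filter fun j => ¬ VanishesAt (G j) y) := by
  classical
  obtain ⟨J, hJ⟩ : ∃ J : Finset (Fin m), J = Finset.univ.filter fun j => ¬ VanishesAt (G j) y :=
    ⟨_, rfl⟩
  have hcard : m ≤ J.card + k := by
    have h2 := hthr _ hy
    have h3 : ({j | VanishesAt (G j) y} : Set (Fin m)) = (Jᶜ : Finset (Fin m)) := by
      ext j
      rw [Finset.mem_coe, Finset.mem_compl, hJ, Finset.mem_filter, not_and, not_not]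
      exact ⟨fun h _ => h, fun h => h (Finset.mem_univ _)⟩
    rw [h3, Set.ncard_coe_finset, Finset.card_compl, Fintype.card_fin] at h2
    omega
  have h4 : (N₀ + 1) * (k + 1) = N₀ * k + N₀ + k + 1 := by ring
  refine ⟨?_, fun y' hy' => ?_⟩
  · convert (by omega : N₀ ≤ J.card) using 2
    rw [hJ]
  · have h5 : {j | j ∈ J ∧ VanishesAt (G j) y'}.ncard ≤ k :=
      (Set.ncard_le_ncard (fun j hj => hj.2) (Set.toFinite _)).trans (hthr _ hy')
    have h6 : N₀ * {j | j ∈ J ∧ VanishesAt (G j) y'}.ncard ≤ J.card :=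
      (Nat.mul_le_mul_left _ h5).trans (by omega)
    rw [hJ] at h6
    convert h6

theorem excSet_eq {A N₀ k : ℕ} (hA : 2 ≤ A) (hG : ∀ j, ∃ e, (G j).IsHomogeneous e)
    (hG0 : ∀ j, G j ≠ 0) (hthr : AtMostThrough k P G) (hm : (N₀ + 1) * (k + 1) ≤ m)
    (h : RamifiedMorphism 2 P G I B Z F) (Δ : MvPolynomial (Fin (M + 1)) ℂ) :
    excSet A N₀ P G I B Z F Δ = Pool.Agent.H5.DG3.excSet I B Z F Δ := by
  classical
  ext x
  refine ⟨fun hx => ⟨hx.1, ?_⟩, fun hx => ⟨hx.1, ?_⟩⟩
  swap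
  · rcases hx.2 with h1 | h1
    · exact Or.inl h1
    · exact Or.inr (Or.inl h1)
  rcases hx.2 with h1 | h1 | h1
  · exact Or.inl h1
  · exact Or.inr h1
  exfalso
  obtain ⟨J, hJ⟩ : ∃ J : Finset (Fin m),
      J = Finset.univ.filter fun j => ¬ VanishesAt (G j) (morph F x) := ⟨_, rfl⟩
  have hJmem : ∀ j, j ∈ J ↔ ¬ VanishesAt (G j) (morph F x) := by
    intro j
    rw [hJ, Finset.mem_filter]
    exact ⟨fun h => h.2, fun h => ⟨Finset.mem_univ _, h⟩⟩
  have hgood : GoodSet N₀ P G J := by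
    rw [hJ]
    exact goodSet_of_atMost hthr hm (h.maps x hx.1)
  have hsec : RamifiedSection A N₀ P G I B F (∑ j ∈ J, (G j).totalDegree)
      fun α => ∏ j ∈ J, aeval (F α) (G j) := by
    refine ⟨prod_section h.morphism hG hG0 J, 2, J, by norm_num, hgood, ?_, fun y hy => ?_⟩
    · have h2 : A ≤ (A - 1) * 2 := by omega
      calc A * ∑ j ∈ J, (G j).totalDegree ≤ ((A - 1) * 2) * ∑ j ∈ J, (G j).totalDegree :=
            Nat.mul_le_mul_right _ h2
        _ = (A - 1) * (2 * ∑ j ∈ J, (G j).totalDegree) := by ring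
    · exact vanishes_two h.homog h.morphism hG hy (h.mult y hy) J
  obtain ⟨α, b, hb⟩ := h.morphism.base x hx.1
  have h2 := h1 _ _ hsec α
  have h3 : eval x.rep (∏ j ∈ J, aeval (F α) (G j)) = 0 := h2
  rw [map_prod] at h3
  obtain ⟨j, hj, hj0⟩ := Finset.prod_eq_zero_iff.1 h3
  obtain ⟨e, he⟩ := hG j
  exact (hJmem j).1 hj
    ((Pool.Agent.H5.DG3.vanishesAt_morph h.morphism h.homog hx.1.1 he ⟨b, hb⟩).2 hj0)

end Pool.Agent.H5.DG4

end
end
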