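import Mathlib

/-! The parts of this file: H23.Defs, H5.DG.BR, H5.DG.Mahler, H92.GGL.AnnMean, H92.GGL.AnnJensen, H62.FC.NevDefs. -/

section

/-!
# K-semistability of Fano varieties over the complex numbers: definitions

Smooth projective varieties with ample anticanonical divisor, pluri-anticanonical sections,
prime divisors over a variety, log discrepancies, the invariant `S`, and the valuative criterion
of Fujita and Li.
-/

open AlgebraicGeometry CategoryTheory MeasureTheory Filter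
open scoped ENNReal

noncomputable section

namespace Pool.Agent.H23

/-! ## Birational algebra in a function field -/

section FunctionField

variable (K : Type) [Field K] [Algebra ℂ K] (n : ℕ)

/-- Rational `n`-forms of the function field `K` over `ℂ`: the `K`-vector space `⋀ⁿ Ω_{K/ℂ}`. -/
abbrev RatForm : Type := ⋀[K]^n Ω[K⁄ℂ]

variable {K}

/-- The regular `n`-forms of a `ℂ`-subalgebra `A` of `K`, that is the image of
`⋀ⁿ Ω_{A/ℂ}` in `⋀ⁿ Ω_{K/ℂ}`: all finite sums of forms `c da₁ ∧ ⋯ ∧ daₙ` with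
`c, a₁, …, aₙ ∈ A`. -/
def regularForms (A : Subalgebra ℂ K) : AddSubgroup (RatForm K n) :=
  AddSubgroup.closure {ω | ∃ (c : K) (a : Fin n → K), c ∈ A ∧ (∀ i, a i ∈ A) ∧
    ω = c • exteriorPower.ιMulti K n (fun i => KaehlerDifferential.D ℂ K (a i))}

variable {ι : Type} (O : ι → Subalgebra ℂ K)

/-- Let `O x`, `x : ι`, be the local rings of a smooth variety `X` of dimension `n` with function
field `K`. A rational section of `-m K_X` is a function `φ` on rational `n`-forms with
`φ (g • ω) = g ^ m * φ ω`; it is regular at `x` if it takes the regular `n`-forms at `x` to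
`O x`. This is the space `H⁰(X, -m K_X)` of everywhere regular sections. -/
def antiSections (m : ℕ) : Submodule ℂ (RatForm K n → K) where
  carrier := {φ | (∀ (g : K) (ω : RatForm K n), φ (g • ω) = g ^ m * φ ω) ∧
    ∀ x, ∀ ω ∈ regularForms n (O x), φ ω ∈ O x}
  add_mem' := by
    rintro φ ψ ⟨h1, h2⟩ ⟨h3, h4⟩
    refine ⟨fun g ω => ?_, fun x ω hω => ?_⟩
    · simp only [Pi.add_apply, h1, h3, mul_add]
    · exact (O x).add_mem (h2 x ω hω) (h4 x ω hω)
  zero_mem' := ⟨fun g ω => by simp, fun x ω _ => (O x).zero_mem⟩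
  smul_mem' := by
    rintro c φ ⟨h1, h2⟩
    refine ⟨fun g ω => ?_, fun x ω hω => ?_⟩
    · simp only [Pi.smul_apply, h1, mul_smul_comm]
    · exact (O x).smul_mem (h2 x ω hω) c

/-- The valuation ring of a valuation which is trivial on `ℂ`. -/
def valRing (v : AddValuation K (WithTop ℤ)) (hv : ∀ c : ℂ, 0 ≤ v (algebraMap ℂ K c)) :
    Subalgebra ℂ K where
  carrier := {f | 0 ≤ v f}
  mul_mem' := fun {a b} ha hb => by
    simp only [Set.mem_ofPred_eq, AddValuation.map_mul] at *
    exact add_nonneg ha hb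
  add_mem' := fun {a b} ha hb => by
    simp only [Set.mem_ofPred_eq] at *
    exact le_trans (le_min ha hb) (v.map_add a b)
  algebraMap_mem' := hv

variable (K) in
/-- A prime divisor over a variety of dimension `n` with function field `K`, given by its order
function: a discrete valuation of `K`, normalised to have value group `ℤ`, trivial on `ℂ`, whose
residue field has transcendence degree `n - 1` over `ℂ` (that is, there are `n - 1` elements of
the valuation ring whose residue classes are algebraically independent over `ℂ`). -/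
structure PrimeDivisorOver where
  /-- the order of vanishing along the divisor -/
  ord : AddValuation K (WithTop ℤ)
  ord_const : ∀ c : ℂ, 0 ≤ ord (algebraMap ℂ K c)
  exists_uniformizer : ∃ t : K, ord t = 1
  residue_trdeg : ∃ s : Fin (n - 1) → K, (∀ i, 0 ≤ ord (s i)) ∧
    ∀ p : MvPolynomial (Fin (n - 1)) ℂ, p ≠ 0 → ord (MvPolynomial.aeval s p) = 0

variable {n}

/-- The local ring of the generic point of a prime divisor over `X`. -/
def PrimeDivisorOver.localRing (E : PrimeDivisorOver K n) : Subalgebra ℂ K :=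
  valRing E.ord E.ord_const

variable (n)

end FunctionField

/-! ## Varieties -/

section Scheme

variable {X : Scheme.{0}} (s : X ⟶ Spec (.of ℂ)) [IsIntegral X]

/-- The function field of a complex variety is a `ℂ`-algebra. -/
@[reducible]
def functionFieldAlgebra : Algebra ℂ X.functionField :=
  RingHom.toAlgebra ((Scheme.ΓSpecIso (.of ℂ)).inv ≫ s.appTop ≫
    X.presheaf.germ ⊤ (genericPoint X) (TopologicalSpace.Opens.mem_top _)).hom

/-- The local ring of a complex variety at a point, as a subalgebra of the function field. -/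
def localRingAt (x : X) :
    letI := functionFieldAlgebra s
    Subalgebra ℂ X.functionField :=
  letI := functionFieldAlgebra s
  { (algebraMap (X.presheaf.stalk x) X.functionField).range with
    algebraMap_mem' := fun c => by
      refine ⟨((Scheme.ΓSpecIso (.of ℂ)).inv ≫ s.appTop ≫
        X.presheaf.germ ⊤ x (TopologicalSpace.Opens.mem_top _)).hom c, ?_⟩
      change (((Scheme.ΓSpecIso (.of ℂ)).inv ≫ s.appTop ≫
        X.presheaf.germ ⊤ x (TopologicalSpace.Opens.mem_top _)) ≫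
          X.presheaf.stalkSpecializes ((genericPoint_spec X).specializes trivial)).hom c =
        ((Scheme.ΓSpecIso (.of ℂ)).inv ≫ s.appTop ≫
          X.presheaf.germ ⊤ (genericPoint X) (TopologicalSpace.Opens.mem_top _)).hom c
      rw [Category.assoc, Category.assoc, X.presheaf.germ_stalkSpecializes] }

/-- `-K_X` is ample: every point of `X` has an open affine neighbourhood of the form
`X_φ = {y | φ generates the sheaf of sections of -m K_X at y}` with `m ≥ 1` and
`φ ∈ H⁰(X, -m K_X)`. -/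
def AntiAmple (n : ℕ) : Prop :=
  letI := functionFieldAlgebra s
  ∀ x : X, ∃ m : ℕ, 1 ≤ m ∧ ∃ φ ∈ antiSections n (localRingAt s) m, ∃ U : X.Opens,
    IsAffineOpen U ∧ x ∈ U ∧ ∀ y : X, y ∈ U ↔
      ∃ ω ∈ regularForms n (localRingAt s y), φ ω ≠ 0 ∧ (φ ω)⁻¹ ∈ localRingAt s y

end Scheme

/-- A Fano variety of dimension `n` over `ℂ`: a smooth projective variety of dimension `n` with
ample anticanonical divisor. -/
structure FanoVariety (n : ℕ) where
  /-- the underlying scheme -/
  X : Scheme.{0}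
  /-- the structure morphism -/
  str : X ⟶ Spec (.of ℂ)
  [integral : IsIntegral X]
  proper : IsProper str
  smooth : SmoothOfRelativeDimension n str
  ample : AntiAmple str n

attribute [instance] FanoVariety.integral

end Pool.Agent.H23

end
end

section

/-!
# Project DG, B4: a bounded quotient of polynomials is a polynomial

Let `P, Q ∈ ℂ[x]` (finitely many variables), `Q ≠ 0`, `‖P (x)‖ ≤ B (x) ‖Q (x)‖` with `B` continuous, for all `x` with
`D (x) ≠ 0`, `D ≠ 0` a polynomial. Then `Q ∣ P`.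

Proof. The set `D ≠ 0` is dense, so the inequality holds everywhere. Induction on the number of prime factors of
`Q`: if `Q` is a unit there is nothing to show. Let `q` be a prime factor, `Q = q Q'`. `P` vanishes on the zero set of `q`,
so `q ∣ P` (Nullstellensatz: `MvPolynomial.vanishingIdeal_zeroLocus_eq_radical`, `(q)` is prime), `P = q P'`. Where `q (x) ≠ 0`
we have `‖P' (x)‖ ≤ B (x) ‖Q' (x)‖`; induction with `D * q`.
-/

open MvPolynomial

noncomputable section

namespace Pool.Agent.H5.DG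

private theorem BR_dense {σ : Type} [Fintype σ] (D : MvPolynomial σ ℂ) (hD : D ≠ 0) :
    Dense {x : σ → ℂ | eval x D ≠ 0} := by
  obtain ⟨y, hy⟩ : ∃ y : σ → ℂ, eval y D ≠ 0 := by
    by_contra hcon
    push Not at hcon
    exact hD (MvPolynomial.funext fun x => by rw [hcon x, map_zero])
  intro x₀
  let p : Polynomial ℂ :=
    aeval (fun i => Polynomial.C (x₀ i) + Polynomial.X * Polynomial.C (y i - x₀ i)) D
  have hp : ∀ t : ℂ, p.eval t = eval (fun i => x₀ i + t * (y i - x₀ i)) D := by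
    intro t
    have h1 : (Polynomial.evalRingHom t).comp
        ((aeval (fun i => Polynomial.C (x₀ i) + Polynomial.X * Polynomial.C (y i - x₀ i)) :
          MvPolynomial σ ℂ →ₐ[ℂ] Polynomial ℂ) : MvPolynomial σ ℂ →+* Polynomial ℂ) =
        eval (fun i => x₀ i + t * (y i - x₀ i)) := by
      refine MvPolynomial.ringHom_ext (fun c => ?_) fun i => ?_
      · simp [algHom_C]
      · simp
    exact congrArg (fun φ : MvPolynomial σ ℂ →+* ℂ => φ D) h1
  have hp0 : p ≠ 0 := by
    intro h0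
    apply hy
    have h1 := hp 1
    rw [h0, Polynomial.eval_zero] at h1
    rw [h1]
    congr 2
    funext i
    ring
  have hfin : {t : ℂ | p.eval t = 0}.Finite := by
    refine (p.roots.toFinset.finite_toSet).subset fun t ht => ?_
    rw [Finset.mem_coe, Multiset.mem_toFinset, Polynomial.mem_roots hp0]
    exact ht
  have hd : Dense {t : ℂ | p.eval t = 0}ᶜ := hfin.countable.dense_compl ℂ
  have hc : Continuous fun t : ℂ => fun i => x₀ i + t * (y i - x₀ i) := by fun_prop
  have h2 : (fun i => x₀ i + (0 : ℂ) * (y i - x₀ i)) ∈ closure {x : σ → ℂ | eval x D ≠ 0} := by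
    refine map_mem_closure hc (hd 0) fun t ht => ?_
    show eval _ D ≠ 0
    rw [← hp]
    exact ht
  have h3 : (fun i => x₀ i + (0 : ℂ) * (y i - x₀ i)) = x₀ := by
    funext i
    ring
  rwa [h3] at h2

theorem dvd_of_bounded {σ : Type} [Fintype σ] (P Q D : MvPolynomial σ ℂ) (hQ : Q ≠ 0)
    (hD : D ≠ 0) (B : (σ → ℂ) → ℝ) (hB : Continuous B)
    (h : ∀ x, eval x D ≠ 0 → ‖eval x P‖ ≤ B x * ‖eval x Q‖) : Q ∣ P := by
  have hmain : Q ≠ 0 → ∀ P D : MvPolynomial σ ℂ, D ≠ 0 →
      (∀ x, eval x D ≠ 0 → ‖eval x P‖ ≤ B x * ‖eval x Q‖) → Q ∣ P := by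
    clear h hD hQ P D
    refine UniqueFactorizationMonoid.induction_on_prime Q (fun h0 => absurd rfl h0)
      (fun u hu _ P _ _ _ => hu.dvd) ?_
    intro Q' q hQ' hq ih _ P D hD h
    have hcont : ∀ R : MvPolynomial σ ℂ, Continuous fun x : σ → ℂ => ‖eval x R‖ := fun R =>
      (MvPolynomial.continuous_eval R).norm
    -- the inequality holds everywhere
    have hall : ∀ x, ‖eval x P‖ ≤ B x * ‖eval x (q * Q')‖ := by
      have hcl : IsClosed {x : σ → ℂ | ‖eval x P‖ ≤ B x * ‖eval x (q * Q')‖} :=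
        isClosed_le (hcont P) (hB.mul (hcont _))
      have hsub : {x : σ → ℂ | eval x D ≠ 0} ⊆
          {x : σ → ℂ | ‖eval x P‖ ≤ B x * ‖eval x (q * Q')‖} := fun x hx => h x hx
      intro x
      exact hcl.closure_subset_iff.2 hsub (BR_dense D hD x)
    have hprime : (Ideal.span {q}).IsPrime := (Ideal.span_singleton_prime hq.ne_zero).2 hq
    have hmem : P ∈ vanishingIdeal ℂ (zeroLocus ℂ (Ideal.span {q})) := by
      rw [mem_vanishingIdeal_iff]
      intro x hx
      have h1 : eval x q = 0 := hx q (Ideal.mem_span_singleton_self q)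
      have h2 := hall x
      rw [map_mul, h1, zero_mul, norm_zero, mul_zero] at h2
      exact norm_le_zero_iff.1 h2
    rw [IsPrime.vanishingIdeal_zeroLocus, Ideal.mem_span_singleton] at hmem
    obtain ⟨P', rfl⟩ := hmem
    refine mul_dvd_mul_left q (ih hQ' P' (D * q) (mul_ne_zero hD hq.ne_zero) fun x hx => ?_)
    rw [map_mul] at hx
    have hqx : eval x q ≠ 0 := right_ne_zero_of_mul hx
    have h1 := h x (left_ne_zero_of_mul hx)
    rw [map_mul, map_mul, norm_mul, norm_mul] at h1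
    have h2 : 0 < ‖eval x q‖ := norm_pos_iff.2 hqx
    have h3 : ‖eval x q‖ * ‖eval x P'‖ ≤ ‖eval x q‖ * (B x * ‖eval x Q'‖) := by
      calc ‖eval x q‖ * ‖eval x P'‖ ≤ B x * (‖eval x q‖ * ‖eval x Q'‖) := h1
        _ = ‖eval x q‖ * (B x * ‖eval x Q'‖) := by ring
    exact le_of_mul_le_mul_left h3 h2
  exact hmain hQ P D hD h

/-- The complement of the zero set of a non-zero polynomial is dense. -/
theorem dense_ne_zero {σ : Type} [Fintype σ] (D : MvPolynomial σ ℂ) (hD : D ≠ 0) :
    Dense {x : σ → ℂ | eval x D ≠ 0} := BR_dense D hD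

end Pool.Agent.H5.DG

end
end

section

/-!
# Project DG: heights of polynomials and of their roots

Archimedean case: `‖lc f‖ ∏ max 1 ‖u‖` is the Mahler measure (`Polynomial.mahlerMeasure_eq_leadingCoeff_mul_prod_roots`), bounded by
the sum of the absolute values of the coefficients, and each coefficient is `± lc f` times an elementary symmetric
function of the roots, so `‖f.coeff b‖ ≤ 2 ^ κ ‖lc f‖ ∏ max 1 ‖u‖`. Valuations: Gauss' lemma, `f = lc f ∏ (X - u)`, and
the Gauss norm of `X - u` is `max 1 (ν u)`; it is multiplicative.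
-/

open Polynomial

noncomputable section

namespace Pool.Agent.H5.DG

theorem mahler_le {f : ℂ[X]} {κ : ℕ} (hf : f.natDegree = κ) {H : ℝ}
    (hH : ∀ b, ‖f.coeff b‖ ≤ H) :
    ‖f.leadingCoeff‖ * (f.roots.map fun u => max 1 ‖u‖).prod ≤ (κ + 1) * H := by
  rw [← mahlerMeasure_eq_leadingCoeff_mul_prod_roots]
  refine (mahlerMeasure_le_sum_norm_coeff f).trans ?_
  rw [Polynomial.sum_over_range f (fun _ => norm_zero), hf]
  refine (Finset.sum_le_sum fun b _ => hH b).trans ?_
  rw [Finset.sum_const, Finset.card_range, nsmul_eq_mul]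
  push_cast
  exact le_refl _

theorem coeff_le_mahler {f : ℂ[X]} {κ : ℕ} (hf : f.natDegree = κ) (b : ℕ) :
    ‖f.coeff b‖ ≤ 2 ^ κ * (‖f.leadingCoeff‖ * (f.roots.map fun u => max 1 ‖u‖).prod) := by
  rw [← mahlerMeasure_eq_leadingCoeff_mul_prod_roots]
  refine (norm_coeff_le_choose_mul_mahlerMeasure b f).trans ?_
  refine mul_le_mul_of_nonneg_right ?_ (mahlerMeasure_nonneg f)
  rw [hf]
  exact_mod_cast Nat.choose_le_two_pow κ b

section

variable {L : Type} [Field L] {Γ₀ : Type} [LinearOrderedCommGroupWithZero Γ₀]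

private theorem coeff_X_sub_C_mul_zero (h : L[X]) (u : L) :
    ((X - C u) * h).coeff 0 = - (u * h.coeff 0) := by
  rw [sub_mul, coeff_sub, coeff_X_mul_zero, coeff_C_mul, zero_sub]

private theorem coeff_X_sub_C_mul_succ (h : L[X]) (u : L) (b : ℕ) :
    ((X - C u) * h).coeff (b + 1) = h.coeff b - u * h.coeff (b + 1) := by
  rw [sub_mul, coeff_sub, coeff_X_mul, coeff_C_mul]

private theorem up_step (ν : Valuation L Γ₀) {h : L[X]} {M : Γ₀} (u : L)
    (hM : ∀ b, ν (h.coeff b) ≤ M) (b : ℕ) :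
    ν (((X - C u) * h).coeff b) ≤ max 1 (ν u) * M := by
  have h1 : ∀ b, ν (u * h.coeff b) ≤ max 1 (ν u) * M := by
    intro b
    rw [map_mul]
    exact mul_le_mul' (le_max_right _ _) (hM b)
  have h2 : ∀ b, ν (h.coeff b) ≤ max 1 (ν u) * M := by
    intro b
    calc ν (h.coeff b) = 1 * ν (h.coeff b) := (one_mul _).symm
      _ ≤ max 1 (ν u) * M := mul_le_mul' (le_max_left _ _) (hM b)
  cases b with
  | zero =>
    rw [coeff_X_sub_C_mul_zero, Valuation.map_neg]
    exact h1 0
  | succ b =>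
    rw [coeff_X_sub_C_mul_succ]
    exact (ν.map_sub _ _).trans (max_le (h2 b) (h1 (b + 1)))

private theorem down_step (ν : Valuation L Γ₀) {h : L[X]} {H : Γ₀} (u : L)
    (hH : ∀ b, ν (((X - C u) * h).coeff b) ≤ H) (b : ℕ) :
    max 1 (ν u) * ν (h.coeff b) ≤ H := by
  rcases le_total (ν u) 1 with hu | hu
  · rw [max_eq_left hu, one_mul]
    by_cases hb : h.natDegree < b
    · rw [coeff_eq_zero_of_natDegree_lt hb, map_zero]
      exact zero_le
    · obtain ⟨m, hm⟩ : ∃ m, h.natDegree + 1 = b + m := ⟨h.natDegree + 1 - b, by omega⟩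
      clear hb
      induction m generalizing b with
      | zero =>
        rw [coeff_eq_zero_of_natDegree_lt (by omega), map_zero]
        exact zero_le
      | succ m ih =>
        have h1 : h.coeff b = ((X - C u) * h).coeff (b + 1) + u * h.coeff (b + 1) := by
          rw [coeff_X_sub_C_mul_succ]
          ring
        rw [h1]
        refine (ν.map_add _ _).trans (max_le (hH _) ?_)
        rw [map_mul]
        calc ν u * ν (h.coeff (b + 1)) ≤ 1 * ν (h.coeff (b + 1)) := mul_le_mul' hu (le_refl _)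
          _ = ν (h.coeff (b + 1)) := one_mul _
          _ ≤ H := ih (b + 1) (by omega)
  · rw [max_eq_right hu, ← map_mul]
    induction b with
    | zero =>
      have h1 := hH 0
      rw [coeff_X_sub_C_mul_zero, Valuation.map_neg] at h1
      exact h1
    | succ b ih =>
      have h1 : u * h.coeff (b + 1) = h.coeff b - ((X - C u) * h).coeff (b + 1) := by
        rw [coeff_X_sub_C_mul_succ]
        ring
      rw [h1]
      refine (ν.map_sub _ _).trans (max_le ?_ (hH _))
      refine le_trans ?_ ih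
      rw [map_mul]
      calc ν (h.coeff b) = 1 * ν (h.coeff b) := (one_mul _).symm
        _ ≤ ν u * ν (h.coeff b) := mul_le_mul' hu (le_refl _)

private theorem gauss_lower (ν : Valuation L Γ₀) (c : L) (s : Multiset L) (H : Γ₀)
    (hH : ∀ b, ν ((C c * (s.map fun u => X - C u).prod).coeff b) ≤ H) :
    ν c * (s.map fun u => max 1 (ν u)).prod ≤ H := by
  induction s using Multiset.induction_on generalizing H with
  | empty =>
    have h1 := hH 0
    simpa using h1
  | cons u s ih =>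
    have hpos : (0 : Γ₀) < max 1 (ν u) := lt_of_lt_of_le zero_lt_one (le_max_left _ _)
    have h1 : ∀ b, ν (((X - C u) * (C c * (s.map fun u => X - C u).prod)).coeff b) ≤ H := by
      intro b
      have h2 : (X - C u) * (C c * (s.map fun u => X - C u).prod) =
          C c * ((u ::ₘ s).map fun u => X - C u).prod := by
        rw [Multiset.map_cons, Multiset.prod_cons]
        ring
      rw [h2]
      exact hH b
    have h3 : ν c * (s.map fun u => max 1 (ν u)).prod ≤ (max 1 (ν u))⁻¹ * H := by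
      refine ih _ ?_
      intro b
      rw [le_inv_mul_iff₀ hpos]
      exact down_step ν u h1 b
    rw [le_inv_mul_iff₀ hpos] at h3
    rw [Multiset.map_cons, Multiset.prod_cons]
    calc ν c * (max 1 (ν u) * (s.map fun u => max 1 (ν u)).prod)
        = max 1 (ν u) * (ν c * (s.map fun u => max 1 (ν u)).prod) := by
          rw [mul_left_comm]
      _ ≤ H := h3

private theorem gauss_upper (ν : Valuation L Γ₀) (c : L) (s : Multiset L) (b : ℕ) :
    ν ((C c * (s.map fun u => X - C u).prod).coeff b) ≤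
      ν c * (s.map fun u => max 1 (ν u)).prod := by
  induction s using Multiset.induction_on generalizing b with
  | empty =>
    rw [Multiset.map_zero, Multiset.prod_zero, mul_one, Multiset.map_zero, Multiset.prod_zero,
      mul_one, coeff_C]
    split_ifs
    · exact le_refl _
    · rw [map_zero]
      exact zero_le
  | cons u s ih =>
    have h2 : C c * ((u ::ₘ s).map fun u => X - C u).prod =
        (X - C u) * (C c * (s.map fun u => X - C u).prod) := by
      rw [Multiset.map_cons, Multiset.prod_cons]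
      ring
    rw [h2, Multiset.map_cons, Multiset.prod_cons, mul_left_comm (ν c)]
    exact up_step ν u ih b

end

theorem gauss_le {L : Type} [Field L] [IsAlgClosed L] {Γ₀ : Type}
    [LinearOrderedCommGroupWithZero Γ₀] (ν : Valuation L Γ₀) {f : L[X]} {H : Γ₀}
    (hH : ∀ b, ν (f.coeff b) ≤ H) :
    ν f.leadingCoeff * (f.roots.map fun u => max 1 (ν u)).prod ≤ H := by
  refine gauss_lower ν _ _ H ?_
  intro b
  rw [← (IsAlgClosed.splits f).eq_prod_roots]
  exact hH b

theorem coeff_le_gauss {L : Type} [Field L] [IsAlgClosed L] {Γ₀ : Type}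
    [LinearOrderedCommGroupWithZero Γ₀] (ν : Valuation L Γ₀) {f : L[X]} (b : ℕ) :
    ν (f.coeff b) ≤ ν f.leadingCoeff * (f.roots.map fun u => max 1 (ν u)).prod := by
  conv_lhs => rw [(IsAlgClosed.splits f).eq_prod_roots]
  exact gauss_upper ν _ _ b

end Pool.Agent.H5.DG

end
end

section

/-!
# Circle means of `log ‖v‖` for a holomorphic function without zeros on an annulus
-/

open Complex MeasureTheory Metric Set Topology Filter

namespace Pool.Agent.H92.GGL

/-- A continuous logarithm of a holomorphic function is holomorphic. -/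
lemma analyticAt_of_exp_eq {h G : ℂ → ℂ} {τ : ℂ} (hh : ContinuousAt h τ) (hG : AnalyticAt ℂ G τ)
    (he : ∀ᶠ w in 𝓝 τ, exp (h w) = G w) : AnalyticAt ℂ h τ := by
  have hG0 : G τ ≠ 0 := by
    rw [← he.self_of_nhds]
    exact exp_ne_zero _
  have h1 : AnalyticAt ℂ (fun w => h τ + log (G w / G τ)) τ := by
    refine analyticAt_const.add (AnalyticAt.clog ?_ ?_)
    · exact hG.div analyticAt_const hG0
    · rw [div_self hG0]
      exact one_mem_slitPlane
  refine h1.congr ?_
  have h2 : ∀ᶠ w in 𝓝 τ, ‖h w - h τ‖ < Real.pi := by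
    have h3 : ContinuousAt (fun w => ‖h w - h τ‖) τ := (hh.sub continuousAt_const).norm
    refine h3.eventually_lt continuousAt_const ?_
    simpa using Real.pi_pos
  filter_upwards [he, h2] with w hw hw2
  have h4 : G w / G τ = exp (h w - h τ) := by
    rw [exp_sub, hw, he.self_of_nhds]
  have h5 := (abs_im_le_norm (h w - h τ)).trans_lt hw2
  rw [abs_lt] at h5
  rw [h4, log_exp h5.1 h5.2.le]
  ring

/-- **The mean is an affine function of `log r`.** -/
theorem circleAverage_log_norm_affine {v : ℂ → ℂ} {r₁ R₁ : ℝ} (hr₁ : 0 < r₁)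
    (hv : ∀ z, r₁ < ‖z‖ → ‖z‖ < R₁ → AnalyticAt ℂ v z)
    (hv0 : ∀ z, r₁ < ‖z‖ → ‖z‖ < R₁ → v z ≠ 0) :
    ∃ a b : ℝ, ∀ r, r₁ < r → r < R₁ →
      Real.circleAverage (fun z => Real.log ‖v z‖) 0 r = a + b * Real.log r := by
  rcases le_or_gt R₁ r₁ with hle | hlt
  · exact ⟨0, 0, fun r h1 h2 => absurd (h1.trans h2) (not_lt.mpr hle)⟩
  have hR₁ : 0 < R₁ := hr₁.trans hlt
  set V : Set ℂ := {τ | Real.log r₁ < τ.re ∧ τ.re < Real.log R₁} with hV
  have hVo : IsOpen V := by
    refine (isOpen_lt continuous_const continuous_re).inter (isOpen_lt continuous_re continuous_const)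
  have hVconv : Convex ℝ V := by
    have h1 : V = {τ : ℂ | Real.log r₁ < τ.re} ∩ {τ : ℂ | τ.re < Real.log R₁} := rfl
    rw [h1]
    exact (convex_halfSpace_re_gt _).inter (convex_halfSpace_re_lt _)
  have hlog : Real.log r₁ < Real.log R₁ := Real.log_lt_log hr₁ hlt
  have hVne : V.Nonempty := by
    refine ⟨(((Real.log r₁ + Real.log R₁) / 2 : ℝ) : ℂ), ?_, ?_⟩ <;> simp only [ofReal_re] <;> linarith
  have hnorm : ∀ τ ∈ V, r₁ < ‖exp τ‖ ∧ ‖exp τ‖ < R₁ := by
    intro τ hτ
    rw [norm_exp]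
    constructor
    · rw [← Real.exp_log hr₁]
      exact Real.exp_lt_exp.mpr hτ.1
    · rw [← Real.exp_log hR₁]
      exact Real.exp_lt_exp.mpr hτ.2
  have hGan : ∀ τ ∈ V, AnalyticAt ℂ (fun τ => v (exp τ)) τ := by
    intro τ hτ
    obtain ⟨h1, h2⟩ := hnorm τ hτ
    exact (hv _ h1 h2).fun_comp analyticAt_cexp
  have hsc : IsSimplyConnected V := by
    have : ContractibleSpace V := hVconv.contractibleSpace hVne
    exact SimplyConnectedSpace.ofContractible V
  obtain ⟨h, hc, he⟩ := exists_continuousOn_eqOn_exp_comp hsc hVo (g := fun τ => v (exp τ))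
    (fun τ hτ => (hGan τ hτ).continuousAt.continuousWithinAt) (by
      rintro ⟨τ, hτ, h0⟩
      obtain ⟨h1, h2⟩ := hnorm τ hτ
      exact hv0 _ h1 h2 h0)
  have hhan : ∀ τ ∈ V, AnalyticAt ℂ h τ := by
    intro τ hτ
    refine analyticAt_of_exp_eq (hc.continuousAt (hVo.mem_nhds hτ)) (hGan τ hτ) ?_
    filter_upwards [hVo.mem_nhds hτ] with w hw
    exact he hw
  have hshift : ∀ τ ∈ V, τ + 2 * Real.pi * I ∈ V := by
    intro τ hτ
    have h1 : (τ + 2 * Real.pi * I).re = τ.re := by simp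
    rw [hV, mem_ofPred_eq, h1]
    exact hτ
  -- the difference is constant
  obtain ⟨δ, hδ⟩ : ∃ δ : ℂ, ∀ τ ∈ V, h (τ + 2 * Real.pi * I) - h τ = δ := by
    have hd : ∀ τ ∈ V, HasDerivAt (fun τ => h (τ + 2 * Real.pi * I) - h τ)
        (deriv h (τ + 2 * Real.pi * I) - deriv h τ) τ := by
      intro τ hτ
      refine HasDerivAt.sub ?_ (hhan τ hτ).differentiableAt.hasDerivAt
      exact HasDerivAt.comp_add_const τ _ (hhan _ (hshift τ hτ)).differentiableAt.hasDerivAt
    have hexp1 : ∀ τ ∈ V, exp (h (τ + 2 * Real.pi * I) - h τ) = 1 := by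
      intro τ hτ
      have h1 := he hτ
      have h2 := he (hshift τ hτ)
      simp only [Function.comp_apply] at h1 h2
      rw [exp_sub, h1, h2, exp_periodic, div_self]
      rw [← h1]
      exact exp_ne_zero _
    refine hVo.exists_is_const_of_deriv_eq_zero hVconv.isPreconnected
      (f := fun τ => h (τ + 2 * Real.pi * I) - h τ)
      (fun τ hτ => (hd τ hτ).differentiableAt.differentiableWithinAt) ?_
    intro τ hτ
    have h1 := (hd τ hτ).cexp
    have h2 : HasDerivAt (fun τ => exp (h (τ + 2 * Real.pi * I) - h τ)) 0 τ := by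
      refine (hasDerivAt_const τ (1 : ℂ)).congr_of_eventuallyEq ?_
      filter_upwards [hVo.mem_nhds hτ] with w hw
      exact hexp1 w hw
    have h3 := h1.unique h2
    rw [hexp1 τ hτ, one_mul] at h3
    rw [(hd τ hτ).deriv, h3]
    rfl
  -- the mean as an integral of `h`
  have hmemV : ∀ (σ θ : ℝ), Real.log r₁ < σ → σ < Real.log R₁ → (σ : ℂ) + θ * I ∈ V := by
    intro σ θ h1 h2
    rw [hV, mem_ofPred_eq]
    simpa using ⟨h1, h2⟩
  have hmean : ∀ σ : ℝ, Real.log r₁ < σ → σ < Real.log R₁ →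
      Real.circleAverage (fun z => Real.log ‖v z‖) 0 (Real.exp σ) =
        (2 * Real.pi)⁻¹ * (∫ θ in (0 : ℝ)..(2 * Real.pi), h (σ + θ * I)).re := by
    intro σ h1 h2
    have hcont : Continuous fun θ : ℝ => h (σ + θ * I) := by
      rw [continuous_iff_continuousAt]
      intro θ
      exact ContinuousAt.comp (f := fun θ : ℝ => (σ : ℂ) + θ * I) (g := h)
        (hhan _ (hmemV σ θ h1 h2)).continuousAt (by fun_prop)
    rw [Real.circleAverage_def, smul_eq_mul]
    congr 1
    have h3 : ∫ θ in (0 : ℝ)..(2 * Real.pi), Real.log ‖v (circleMap 0 (Real.exp σ) θ)‖ =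
        ∫ θ in (0 : ℝ)..(2 * Real.pi), (h (σ + θ * I)).re := by
      refine intervalIntegral.integral_congr fun θ _ => ?_
      have h4 : circleMap 0 (Real.exp σ) θ = exp (σ + θ * I) := by
        rw [circleMap_zero, exp_add, ofReal_exp]
      have h5 := he (hmemV σ θ h1 h2)
      simp only [Function.comp_apply] at h5
      rw [h4, ← h5, norm_exp, Real.log_exp]
    rw [h3]
    have h6 := (reCLM).intervalIntegral_comp_comm (hcont.intervalIntegrable 0 (2 * Real.pi))
      (μ := volume)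
    simpa using h6
  -- Cauchy's theorem
  have hcauchy : ∀ σ₁ σ₂ : ℝ, Real.log r₁ < σ₁ → σ₁ < Real.log R₁ → Real.log r₁ < σ₂ →
      σ₂ < Real.log R₁ → (∫ θ in (0 : ℝ)..(2 * Real.pi), h (σ₂ + θ * I)) -
        (∫ θ in (0 : ℝ)..(2 * Real.pi), h (σ₁ + θ * I)) = (σ₂ - σ₁) * δ * (-I) := by
    intro σ₁ σ₂ h1 h2 h3 h4
    have hrect := integral_boundary_rect_eq_zero_of_differentiableOn h (σ₁ : ℂ)
      (σ₂ + (2 * Real.pi : ℝ) * I) (by
        intro τ hτ
        apply DifferentiableAt.differentiableWithinAt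
        refine (hhan τ ?_).differentiableAt
        have h5 : τ.re ∈ uIcc σ₁ σ₂ := by
          have := hτ.1
          simpa using this
        rw [hV, mem_ofPred_eq]
        rcases le_total σ₁ σ₂ with h6 | h6
        · rw [uIcc_of_le h6] at h5
          exact ⟨h1.trans_le h5.1, h5.2.trans_lt h4⟩
        · rw [uIcc_of_ge h6] at h5
          exact ⟨h3.trans_le h5.1, h5.2.trans_lt h2⟩)
    have e1 : ((σ₂ : ℂ) + (2 * Real.pi : ℝ) * I).re = σ₂ := by simp
    have e2 : ((σ₂ : ℂ) + (2 * Real.pi : ℝ) * I).im = 2 * Real.pi := by simp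
    rw [e1, e2] at hrect
    simp only [ofReal_re, ofReal_im, ofReal_zero, zero_mul, add_zero, smul_eq_mul] at hrect
    have e3 : ∫ x in σ₁..σ₂, h (x + (2 * Real.pi : ℝ) * I) =
        (∫ x in σ₁..σ₂, h x) + (σ₂ - σ₁) * δ := by
      have h5 : ∫ x in σ₁..σ₂, h (x + (2 * Real.pi : ℝ) * I) = ∫ x in σ₁..σ₂, (h x + δ) := by
        refine intervalIntegral.integral_congr fun x hx => ?_
        have hxV : (x : ℂ) ∈ V := by
          rw [hV, mem_ofPred_eq, ofReal_re]
          rcases le_total σ₁ σ₂ with h6 | h6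
          · rw [uIcc_of_le h6] at hx
            exact ⟨h1.trans_le hx.1, hx.2.trans_lt h4⟩
          · rw [uIcc_of_ge h6] at hx
            exact ⟨h3.trans_le hx.1, hx.2.trans_lt h2⟩
        have h7 := hδ x hxV
        rw [← h7]
        push_cast
        ring
      rw [h5, intervalIntegral.integral_add, intervalIntegral.integral_const]
      · rw [real_smul]
        push_cast
        ring
      · apply ContinuousOn.intervalIntegrable
        intro x hx
        have hxV : (x : ℂ) ∈ V := by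
          rw [hV, mem_ofPred_eq, ofReal_re]
          rcases le_total σ₁ σ₂ with h6 | h6
          · rw [uIcc_of_le h6] at hx
            exact ⟨h1.trans_le hx.1, hx.2.trans_lt h4⟩
          · rw [uIcc_of_ge h6] at hx
            exact ⟨h3.trans_le hx.1, hx.2.trans_lt h2⟩
        exact (ContinuousAt.comp (f := fun x : ℝ => (x : ℂ)) (g := h) (hhan _ hxV).continuousAt
          (by fun_prop)).continuousWithinAt
      · exact intervalIntegrable_const
    rw [e3] at hrect
    have h8 : I * ((∫ θ in (0 : ℝ)..(2 * Real.pi), h (σ₂ + θ * I)) -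
        (∫ θ in (0 : ℝ)..(2 * Real.pi), h (σ₁ + θ * I))) = (σ₂ - σ₁) * δ := by
      linear_combination hrect
    have h9 : I * I = -1 := I_mul_I
    linear_combination (-I) * h8 + ((∫ θ in (0 : ℝ)..(2 * Real.pi), h (σ₂ + θ * I)) -
        (∫ θ in (0 : ℝ)..(2 * Real.pi), h (σ₁ + θ * I))) * h9
  -- conclusion
  set σ₀ : ℝ := (Real.log r₁ + Real.log R₁) / 2 with hσ₀
  have hσ₀1 : Real.log r₁ < σ₀ := by linarith
  have hσ₀2 : σ₀ < Real.log R₁ := by linarith
  refine ⟨(2 * Real.pi)⁻¹ * (∫ θ in (0 : ℝ)..(2 * Real.pi), h (σ₀ + θ * I)).re -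
    σ₀ * ((2 * Real.pi)⁻¹ * (δ * (-I)).re), (2 * Real.pi)⁻¹ * (δ * (-I)).re, ?_⟩
  intro r hr1 hr2
  have hr0 : 0 < r := hr₁.trans hr1
  have h1 : Real.log r₁ < Real.log r := Real.log_lt_log hr₁ hr1
  have h2 : Real.log r < Real.log R₁ := Real.log_lt_log hr0 hr2
  have h3 := hmean (Real.log r) h1 h2
  rw [Real.exp_log hr0] at h3
  rw [h3]
  have h4 := congrArg Complex.re (hcauchy σ₀ (Real.log r) hσ₀1 hσ₀2 h1 h2)
  have h5 : (((Real.log r : ℂ) - σ₀) * δ * (-I)).re = (Real.log r - σ₀) * (δ * (-I)).re := by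
    rw [mul_assoc, ← ofReal_sub, re_ofReal_mul]
  rw [h5, sub_re] at h4
  linear_combination (2 * Real.pi)⁻¹ * h4

end Pool.Agent.H92.GGL

end

section

/-!
# Jensen's formula on a punctured disc
-/

open Complex MeasureTheory Metric Set Topology Filter

namespace Pool.Agent.H92.GGL

/-- The order of a meromorphic function as an integer. -/
noncomputable def ordZ (u : ℂ → ℂ) (s : ℂ) : ℤ := (meromorphicOrderAt u s).untop₀

lemma ordZ_cast {u : ℂ → ℂ} {s : ℂ} (h : meromorphicOrderAt u s ≠ ⊤) :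
    (ordZ u s : WithTop ℤ) = meromorphicOrderAt u s := by
  unfold ordZ
  exact WithTop.coe_untop₀_of_ne_top h

/-- There are finitely many zeros and poles in an annulus. -/
lemma finite_ordZ {u : ℂ → ℂ} {R₀ a b : ℝ} (ha : 0 < a) (hb : b < R₀)
    (hu : ∀ z, 0 < ‖z‖ → ‖z‖ < R₀ → MeromorphicAt u z) :
    {s : ℂ | a ≤ ‖s‖ ∧ ‖s‖ ≤ b ∧ ordZ u s ≠ 0}.Finite := by
  set K : Set ℂ := {s : ℂ | a ≤ ‖s‖ ∧ ‖s‖ ≤ b} with hK
  have hKc : IsCompact K := by
    refine (isCompact_closedBall (0 : ℂ) b).of_isClosed_subset ?_ ?_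
    · exact (isClosed_le continuous_const continuous_norm).inter
        (isClosed_le continuous_norm continuous_const)
    · intro s hs
      rw [mem_closedBall_zero_iff]
      exact hs.2
  have hm : MeromorphicOn u K := fun z hz => hu z (ha.trans_le hz.1) (hz.2.trans_lt hb)
  refine ((MeromorphicOn.divisor u K).finiteSupport hKc).subset ?_
  rintro s ⟨h1, h2, h3⟩
  rw [Function.mem_support, MeromorphicOn.divisor_apply hm ⟨h1, h2⟩]
  exact h3

/-- The formula on an annulus. -/
lemma circleAverage_annulus {u : ℂ → ℂ} {R₀ r₁ R₁ : ℝ} (hr₁ : 0 < r₁) (hR₁ : R₁ < R₀)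
    (hu : ∀ z, 0 < ‖z‖ → ‖z‖ < R₀ → MeromorphicAt u z)
    (ho : ∀ z, 0 < ‖z‖ → ‖z‖ < R₀ → meromorphicOrderAt u z ≠ ⊤)
    (S : Finset ℂ) (hS : ∀ s, s ∈ S ↔ (r₁ < ‖s‖ ∧ ‖s‖ < R₁) ∧ ordZ u s ≠ 0) :
    ∃ a b : ℝ, ∀ r, r₁ < r → r < R₁ →
      Real.circleAverage (fun z => Real.log ‖u z‖) 0 r =
        a + b * Real.log r + ∑ s ∈ S, ordZ u s * Real.posLog (‖s‖ / r) := by
  set U : Set ℂ := {s : ℂ | r₁ < ‖s‖ ∧ ‖s‖ < R₁} with hU
  have hm : MeromorphicOn u U := fun z hz => hu z (hr₁.trans hz.1) (hz.2.trans hR₁)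
  have hdiv : ∀ s, MeromorphicOn.divisor u U s = if s ∈ U then ordZ u s else 0 := by
    intro s
    split_ifs with h
    · rw [MeromorphicOn.divisor_apply hm h]
      rfl
    · exact Function.locallyFinsuppWithin.apply_eq_zero_of_notMem _ h
  have hsupp : (MeromorphicOn.divisor u U).support ⊆ (S : Set ℂ) := by
    intro s hs
    rw [Function.mem_support, hdiv] at hs
    split_ifs at hs with h
    · exact (hS s).mpr ⟨h, hs⟩
    · exact absurd rfl hs
  have hfin : (MeromorphicOn.divisor u U).support.Finite := S.finite_toSet.subset hsupp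
  obtain ⟨v, hv, hv0, hfv⟩ := hm.extract_zeros_poles
    (fun z => ho z (hr₁.trans z.2.1) (z.2.2.trans hR₁)) hfin
  have hlog := MeromorphicOn.extract_zeros_poles_log hv0 hfv
  obtain ⟨a, b, hab⟩ := circleAverage_log_norm_affine (v := v) hr₁
    (fun z h1 h2 => hv z ⟨h1, h2⟩) (fun z h1 h2 => hv0 ⟨z, h1, h2⟩)
  refine ⟨a, b + ∑ s ∈ S, (ordZ u s : ℝ), ?_⟩
  intro r h1 h2
  have hr0 : 0 < r := hr₁.trans h1
  have hsum : ∑ᶠ s, (fun z : ℂ => (MeromorphicOn.divisor u U s : ℝ) * Real.log ‖z - s‖) =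
      fun z => ∑ s ∈ S, (ordZ u s : ℝ) * Real.log ‖z - s‖ := by
    have h3 : ∑ᶠ s, (fun z : ℂ => (MeromorphicOn.divisor u U s : ℝ) * Real.log ‖z - s‖) =
        ∑ s ∈ S, (fun z : ℂ => (MeromorphicOn.divisor u U s : ℝ) * Real.log ‖z - s‖) := by
      apply finsum_eq_sum_of_support_subset
      intro s hs
      apply hsupp
      rw [Function.mem_support] at hs ⊢
      intro h
      apply hs
      funext z
      rw [h]
      simp
    rw [h3]
    funext z
    rw [Finset.sum_apply]
    refine Finset.sum_congr rfl fun s hs => ?_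
    have h4 : s ∈ U := ((hS s).mp hs).1
    rw [hdiv, if_pos h4]
  have hcongr : Real.circleAverage (fun z => Real.log ‖u z‖) 0 r =
      Real.circleAverage ((fun z => ∑ s ∈ S, (ordZ u s : ℝ) * Real.log ‖z - s‖) +
        fun z => Real.log ‖v z‖) 0 r := by
    apply Real.circleAverage_congr_codiscreteWithin
    · rw [← hsum]
      refine Filter.EventuallyEq.filter_mono (l := codiscreteWithin U) hlog (codiscreteWithin_mono ?_)
      intro z hz
      rw [mem_sphere_zero_iff_norm, abs_of_pos hr0] at hz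
      rw [hU, mem_ofPred_eq, hz]
      exact ⟨h1, h2⟩
    · exact hr0.ne'
  have hint1 : ∀ s : ℂ, CircleIntegrable (fun z => Real.log ‖z - s‖) 0 r := fun s =>
    circleIntegrable_log_norm_sub_const r
  have hint : CircleIntegrable (fun z => ∑ s ∈ S, (ordZ u s : ℝ) * Real.log ‖z - s‖) 0 r := by
    refine CircleIntegrable.fun_sum S fun s _ => ?_
    exact (hint1 s).const_fun_smul (a := (ordZ u s : ℝ))
  have hintv : CircleIntegrable (fun z => Real.log ‖v z‖) 0 r := by
    apply MeromorphicOn.circleIntegrable_log_norm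
    intro z hz
    rw [mem_sphere_zero_iff_norm, abs_of_pos hr0] at hz
    refine (hv z ?_).meromorphicAt
    rw [hU, mem_ofPred_eq, hz]
    exact ⟨h1, h2⟩
  rw [hcongr, Real.circleAverage_add hint hintv, hab r h1 h2, Real.circleAverage_fun_sum]
  · have h4 : ∀ s ∈ S, Real.circleAverage (fun z => (ordZ u s : ℝ) * Real.log ‖z - s‖) 0 r =
        ordZ u s * (Real.log r + Real.posLog (‖s‖ / r)) := by
      intro s _
      have h5 := Real.circleAverage_fun_smul (a := (ordZ u s : ℝ))
        (f := fun z => Real.log ‖z - s‖) (c := 0) (R := r)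
      simp only [smul_eq_mul] at h5
      rw [h5, circleAverage_log_norm_sub_const_eq_log_radius_add_posLog hr0.ne', zero_sub, norm_neg,
        inv_mul_eq_div]
    rw [Finset.sum_congr rfl h4]
    simp only [mul_add, Finset.sum_add_distrib, ← Finset.sum_mul, add_mul]
    ring
  · intro s _
    exact (hint1 s).const_fun_smul (a := (ordZ u s : ℝ))

/-- **Jensen's formula on a punctured disc.** -/
theorem jensen_punctured {u : ℂ → ℂ} {R₀ R₁ : ℝ} (hR₁ : R₁ < R₀)
    (hu : ∀ z, 0 < ‖z‖ → ‖z‖ < R₀ → MeromorphicAt u z)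
    (ho : ∀ z, 0 < ‖z‖ → ‖z‖ < R₀ → meromorphicOrderAt u z ≠ ⊤) :
    ∃ A B : ℝ, ∀ r, 0 < r → r < R₁ → ∀ S : Finset ℂ, (∀ s ∈ S, ‖s‖ < R₁) →
      (∀ s, r < ‖s‖ → ‖s‖ < R₁ → ordZ u s ≠ 0 → s ∈ S) →
      Real.circleAverage (fun z => Real.log ‖u z‖) 0 r =
        A + B * Real.log r + ∑ s ∈ S, ordZ u s * Real.posLog (‖s‖ / r) := by
  classical
  rcases le_or_gt R₁ 0 with hle | hR1pos
  · exact ⟨0, 0, fun r h1 h2 => absurd (h1.trans h2) (not_lt.mpr hle)⟩
  -- the finite sets of zeros
  have hfin : ∀ r : ℝ, 0 < r → {s : ℂ | (r < ‖s‖ ∧ ‖s‖ < R₁) ∧ ordZ u s ≠ 0}.Finite := by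
    intro r hr
    refine (finite_ordZ hr hR₁ hu).subset ?_
    rintro s ⟨⟨h1, h2⟩, h3⟩
    exact ⟨h1.le, h2.le, h3⟩
  -- independence of the set
  have hindep : ∀ r, 0 < r → ∀ S : Finset ℂ, (∀ s ∈ S, ‖s‖ < R₁) →
      (∀ s, r < ‖s‖ → ‖s‖ < R₁ → ordZ u s ≠ 0 → s ∈ S) → ∀ S' : Finset ℂ,
      (∀ s ∈ S', ‖s‖ < R₁) → (∀ s, r < ‖s‖ → ‖s‖ < R₁ → ordZ u s ≠ 0 → s ∈ S') →
      ∑ s ∈ S, ordZ u s * Real.posLog (‖s‖ / r) = ∑ s ∈ S', ordZ u s * Real.posLog (‖s‖ / r) := by
    intro r hr S hS1 hS2 S' hS'1 hS'2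
    have hz : ∀ s, (ordZ u s : ℝ) * Real.posLog (‖s‖ / r) ≠ 0 → r < ‖s‖ ∧ ordZ u s ≠ 0 := by
      intro s hs
      refine ⟨?_, fun h => hs (by rw [h]; simp)⟩
      by_contra h
      apply hs
      have h1 : |‖s‖ / r| ≤ 1 := by
        rw [abs_of_nonneg (by positivity), div_le_one hr]
        exact not_lt.mp h
      rw [Real.posLog_eq_zero_iff _ |>.mpr h1, mul_zero]
    have h1 : ∀ T : Finset ℂ, (∀ s ∈ T, ‖s‖ < R₁) →
        (∀ s, r < ‖s‖ → ‖s‖ < R₁ → ordZ u s ≠ 0 → s ∈ T) →
        ∑ s ∈ T, (ordZ u s : ℝ) * Real.posLog (‖s‖ / r) =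
          ∑ s ∈ (hfin r hr).toFinset, (ordZ u s : ℝ) * Real.posLog (‖s‖ / r) := by
      intro T hT1 hT2
      symm
      apply Finset.sum_subset_zero_on_sdiff
      · intro s hs
        obtain ⟨⟨h1, h2⟩, h3⟩ := (hfin r hr).mem_toFinset.mp hs
        exact hT2 s h1 h2 h3
      · intro s hs
        rw [Finset.mem_sdiff] at hs
        by_contra h
        apply hs.2
        obtain ⟨h2, h3⟩ := hz s h
        exact (hfin r hr).mem_toFinset.mpr ⟨⟨h2, hT1 s hs.1⟩, h3⟩
      · intro s _
        rfl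
    rw [h1 S hS1 hS2, h1 S' hS'1 hS'2]
  -- the formula on annuli
  have hann : ∀ r₁ : ℝ, 0 < r₁ → ∃ a b : ℝ, ∀ r, r₁ < r → r < R₁ → ∀ S : Finset ℂ,
      (∀ s ∈ S, ‖s‖ < R₁) → (∀ s, r < ‖s‖ → ‖s‖ < R₁ → ordZ u s ≠ 0 → s ∈ S) →
      Real.circleAverage (fun z => Real.log ‖u z‖) 0 r =
        a + b * Real.log r + ∑ s ∈ S, ordZ u s * Real.posLog (‖s‖ / r) := by
    intro r₁ hr₁
    obtain ⟨a, b, hab⟩ := circleAverage_annulus hr₁ hR₁ hu ho (hfin r₁ hr₁).toFinset
      (fun s => (hfin r₁ hr₁).mem_toFinset)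
    refine ⟨a, b, fun r h1 h2 S hS1 hS2 => ?_⟩
    rw [hab r h1 h2]
    congr 1
    refine hindep r (hr₁.trans h1) _ ?_ ?_ S hS1 hS2
    · intro s hs
      exact ((hfin r₁ hr₁).mem_toFinset.mp hs).1.2
    · intro s h3 h4 h5
      exact (hfin r₁ hr₁).mem_toFinset.mpr ⟨⟨h1.trans h3, h4⟩, h5⟩
  -- reference points
  obtain ⟨A, B, hAB⟩ := hann (R₁ / 4) (by positivity)
  refine ⟨A, B, fun r h1 h2 S hS1 hS2 => ?_⟩
  obtain ⟨a, b, hab⟩ := hann (min (r / 2) (R₁ / 8)) (by positivity)
  have hmin1 : min (r / 2) (R₁ / 8) < r := (min_le_left _ _).trans_lt (by linarith)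
  have hmin2 : min (r / 2) (R₁ / 8) < R₁ / 3 := (min_le_right _ _).trans_lt (by linarith)
  have hmin3 : min (r / 2) (R₁ / 8) < R₁ / 2 := (min_le_right _ _).trans_lt (by linarith)
  have hT : ∀ (ρ : ℝ) (hρ : 0 < ρ), (∀ s ∈ (hfin ρ hρ).toFinset, ‖s‖ < R₁) ∧
      (∀ s, ρ < ‖s‖ → ‖s‖ < R₁ → ordZ u s ≠ 0 → s ∈ (hfin ρ hρ).toFinset) := by
    intro ρ hρ
    refine ⟨fun s hs => ((hfin ρ hρ).mem_toFinset.mp hs).1.2, fun s h3 h4 h5 => ?_⟩
    exact (hfin ρ hρ).mem_toFinset.mpr ⟨⟨h3, h4⟩, h5⟩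
  have h3pos : 0 < R₁ / 3 := by positivity
  have h2pos : 0 < R₁ / 2 := by positivity
  have e1 := hAB (R₁ / 3) (by linarith) (by linarith) _ (hT _ h3pos).1 (hT _ h3pos).2
  have e2 := hAB (R₁ / 2) (by linarith) (by linarith) _ (hT _ h2pos).1 (hT _ h2pos).2
  have e3 := hab (R₁ / 3) hmin2 (by linarith) _ (hT _ h3pos).1 (hT _ h3pos).2
  have e4 := hab (R₁ / 2) hmin3 (by linarith) _ (hT _ h2pos).1 (hT _ h2pos).2
  have e5 : A + B * Real.log (R₁ / 3) = a + b * Real.log (R₁ / 3) := by linarith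
  have e6 : A + B * Real.log (R₁ / 2) = a + b * Real.log (R₁ / 2) := by linarith
  have e7 : Real.log (R₁ / 3) < Real.log (R₁ / 2) := Real.log_lt_log h3pos (by linarith)
  have e8 : (B - b) * (Real.log (R₁ / 2) - Real.log (R₁ / 3)) = 0 := by linear_combination e6 - e5
  have e9 : B = b := by
    rcases mul_eq_zero.mp e8 with h | h
    · linarith
    · linarith
  have e10 : A = a := by
    rw [e9] at e5
    linarith
  rw [hab r hmin1 h2 S hS1 hS2, e9, e10]

end Pool.Agent.H92.GGL

end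

section

/-!
# Nevanlinna theory at a puncture: definitions

Circle means and counting functions near the puncture `0`, with the variable `x = log (1 / r)`.
-/

open Filter Topology MeasureTheory
open Pool.Agent.H92.GGL (ordZ)

noncomputable section

namespace Pool.Agent.H62.FC

/-- `u` is meromorphic and not identically zero on the punctured disc of radius `R₀`. -/
structure MeroPunct (R₀ : ℝ) (u : ℂ → ℂ) : Prop where
  mero : ∀ z, 0 < ‖z‖ → ‖z‖ < R₀ → MeromorphicAt u z
  ord : ∀ z, 0 < ‖z‖ → ‖z‖ < R₀ → meromorphicOrderAt u z ≠ ⊤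

/-- The weighted counting function of the annulus `r < ‖s‖ < R₁`. -/
def cnt (w : ℂ → ℝ) (R₁ r : ℝ) : ℝ :=
  ∑ᶠ s ∈ {s : ℂ | r < ‖s‖ ∧ ‖s‖ < R₁}, w s * Real.log (‖s‖ / r)

/-- The weight `w` has locally finite support in the punctured disc of radius `R₀`. -/
def LocFin (R₀ : ℝ) (w : ℂ → ℝ) : Prop :=
  ∀ r b : ℝ, 0 < r → b < R₀ → {s : ℂ | r ≤ ‖s‖ ∧ ‖s‖ ≤ b ∧ w s ≠ 0}.Finite

/-- The mean on the circle of radius `exp (-x)`. -/
def mean (g : ℂ → ℝ) (x : ℝ) : ℝ := Real.circleAverage g 0 (Real.exp (-x))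

/-- The characteristic function near the puncture. -/
def nevT (u : ℂ → ℂ) (R₁ x : ℝ) : ℝ :=
  mean (fun z => Real.posLog ‖u z‖) x + cnt (fun s => max (-(ordZ u s : ℝ)) 0) R₁ (Real.exp (-x))

/-- `S` is negligible with respect to `T`, outside a set of finite measure. -/
def Negl (R₁ : ℝ) (T S : ℝ → ℝ) : Prop :=
  ∀ ε : ℝ, 0 < ε → ∃ (C : ℝ) (E : Set ℝ), volume E ≠ ⊤ ∧
    ∀ x, Real.exp (-x) < R₁ → x ∉ E → S x ≤ ε * T x + C * (1 + |x|)

/-- `f` is, up to a discrete set, meromorphic at `0`. -/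
def PunctMero (f : ℂ → ℂ) : Prop :=
  ∃ v : ℂ → ℂ, MeromorphicAt v 0 ∧ ∀ᶠ z in 𝓝[≠] (0 : ℂ), f =ᶠ[𝓝[≠] z] v

end Pool.Agent.H62.FC

end
end
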