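import Pool.Agent.H94.DG.M01

/-! The parts of this file: H17.EntireCurves, H17GT.Defs, H23.Fano, H62.FC.Defs, H66.Lang.Reduction. -/

section

/-!
# Holomorphic maps into complex projective space and hyperbolicity notions

Conventions used by the hand-ins of this seat for quasi-projective subsets of `ℙ^N(ℂ)`.
-/

open MvPolynomial Topology

namespace Pool.Agent.H17

/-- Complex projective space `ℙ^N(ℂ)`, as the set of lines in `ℂ^(N+1)`. -/
abbrev PN (N : ℕ) : Type := Projectivization ℂ (Fin (N + 1) → ℂ)

/-- The polynomial `P` vanishes at the point `x` of `ℙ^N`.  For homogeneous `P` this does not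
depend on the chosen representative vector. -/
def VanishesAt {N : ℕ} (P : MvPolynomial (Fin (N + 1)) ℂ) (x : PN N) : Prop :=
  eval x.rep P = 0

/-- `f` is holomorphic on the (open) set `U ⊆ ℂ` as a map into `ℙ^N`: near every point of `U` it
is given by holomorphic homogeneous coordinates without common zero. -/
def HolomorphicInto {N : ℕ} (f : ℂ → PN N) (U : Set ℂ) : Prop :=
  ∀ z₀ ∈ U, ∃ φ : ℂ → Fin (N + 1) → ℂ, AnalyticAt ℂ φ z₀ ∧
    ∀ᶠ z in 𝓝 z₀, ∃ h : φ z ≠ 0, f z = Projectivization.mk ℂ (φ z) h

/-- `Ξ` is a Zariski closed subset of the subset `X` of `ℙ^N`. -/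
def ZariskiClosedIn {N : ℕ} (X Ξ : Set (PN N)) : Prop :=
  ∃ S : Set (MvPolynomial (Fin (N + 1)) ℂ), (∀ P ∈ S, ∃ n, P.IsHomogeneous n) ∧
    Ξ = {x | x ∈ X ∧ ∀ P ∈ S, VanishesAt P x}

/-- The punctured open unit disc. -/
def puncturedDisc : Set ℂ := Metric.ball 0 1 \ {0}

end Pool.Agent.H17

end

section

/-!
# Varieties of general type, in terms of their function field
-/

open MvPolynomial
open Pool.Agent.H23 (RatForm regularForms PrimeDivisorOver)

noncomputable section

namespace Pool.Agent.H17GT

section FunctionField

variable {K : Type} [Field K] [Algebra ℂ K] {k : ℕ}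

/-- Let `K` be the function field of a variety of dimension `k`, let `ω` be a rational `k`-form and
`f ∈ K`. The rational `m`-canonical form `f ω^m` is regular along the prime divisor `E`: one has
`ω = g η` with `η` regular along `E` and `f g ^ m` regular along `E`. -/
def RegularAlong (E : PrimeDivisorOver K k) (m : ℕ) (f : K) (ω : RatForm K k) : Prop :=
  ∃ (g : K) (η : RatForm K k), η ∈ regularForms k E.localRing ∧ ω = g • η ∧ 0 ≤ E.ord (f * g ^ m)

end FunctionField

/-- The coordinate function `x_i` in the fraction field of the homogeneous coordinate ring. -/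
def coordFun {N : ℕ} (P : Ideal (MvPolynomial (Fin (N + 1)) ℂ)) [P.IsPrime] (i : Fin (N + 1)) :
    FractionRing (MvPolynomial (Fin (N + 1)) ℂ ⧸ P) :=
  algebraMap (MvPolynomial (Fin (N + 1)) ℂ ⧸ P) _ (Ideal.Quotient.mk P (X i))

/-- The function field of the closed subvariety of `ℙ^N` given by the homogeneous prime ideal `P`:
the field generated over `ℂ` by the functions `x_i / x_j`. -/
def functionField {N : ℕ} (P : Ideal (MvPolynomial (Fin (N + 1)) ℂ)) [P.IsPrime] :
    IntermediateField ℂ (FractionRing (MvPolynomial (Fin (N + 1)) ℂ ⧸ P)) :=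
  IntermediateField.adjoin ℂ {y | ∃ i j, y = coordFun P i / coordFun P j}

end Pool.Agent.H17GT

end
end

section

/-!
# K-semistability of Fano varieties over the complex numbers: definitions

Smooth projective varieties with ample anticanonical divisor, pluri-anticanonical sections,
prime divisors over a variety, log discrepancies, the invariant `S`, and the valuative criterion
of Fujita and Li.
-/

open AlgebraicGeometry CategoryTheory MeasureTheory Filter
open scoped ENNReal

noncomputable section

namespace Pool.Agent.H23.Fano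

/-! ## Rational differential forms of a function field -/

/-- The `n`-th exterior power of a vector space. -/
def ExtPow (K V : Type) [Field K] [AddCommGroup V] [Module K V] (n : ℕ) : Type := ⋀[K]^n V

section ExtPow

variable (K V : Type) [Field K] [AddCommGroup V] [Module K V] (n : ℕ)

instance : AddCommGroup (ExtPow K V n) := (inferInstance : AddCommGroup (⋀[K]^n V))

instance : Module K (ExtPow K V n) := (inferInstance : Module K (⋀[K]^n V))

/-- The element `v₁ ∧ ⋯ ∧ vₙ` of the exterior power. -/
def ExtPow.wedge (v : Fin n → V) : ExtPow K V n := exteriorPower.ιMulti K n v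

end ExtPow

section FunctionField

variable (K : Type) [Field K] [Algebra ℂ K]

/-- The `K`-vector space `Ω_{K/ℂ}` of rational differentials. -/
def Diff : Type := Ω[K⁄ℂ]

instance : AddCommGroup (Diff K) := (inferInstance : AddCommGroup Ω[K⁄ℂ])

instance : Module K (Diff K) := (inferInstance : Module K Ω[K⁄ℂ])

variable {K} in
/-- The differential `d f`. -/
def d (f : K) : Diff K := KaehlerDifferential.D ℂ K f

variable (n : ℕ)

/-- Rational `n`-forms of the function field `K` over `ℂ`: the `K`-vector space `⋀ⁿ Ω_{K/ℂ}`. -/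
def Form : Type := ExtPow K (Diff K) n

instance : AddCommGroup (Form K n) := (inferInstance : AddCommGroup (ExtPow K (Diff K) n))

instance : Module K (Form K n) := (inferInstance : Module K (ExtPow K (Diff K) n))

variable {K n}

/-- The rational form `c • da₁ ∧ ⋯ ∧ daₙ`. -/
def Form.mk (c : K) (a : Fin n → K) : Form K n := c • ExtPow.wedge K (Diff K) n fun i => d (a i)

variable (n)

/-- The regular `n`-forms of a `ℂ`-subalgebra `A` of `K`, that is the image of
`⋀ⁿ Ω_{A/ℂ}` in `⋀ⁿ Ω_{K/ℂ}`: all finite sums of forms `c • da₁ ∧ ⋯ ∧ daₙ` with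
`c, a₁, …, aₙ ∈ A`. -/
def regularForms (A : Set K) : AddSubgroup (Form K n) :=
  AddSubgroup.closure {ω | ∃ (c : K) (a : Fin n → K), c ∈ A ∧ (∀ i, a i ∈ A) ∧ ω = Form.mk c a}

variable {ι : Type} (O : ι → Set K)

variable (K) in
/-- A prime divisor over a variety of dimension `n` with function field `K`, given by its order
function: a discrete valuation of `K`, normalised to have value group `ℤ`, trivial on `ℂ`, whose
residue field has transcendence degree `n - 1` over `ℂ` (that is, there are `n - 1` elements of
the valuation ring whose residue classes are algebraically independent over `ℂ`). -/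
structure PrimeDivisorOver where
  /-- the order of vanishing along the divisor -/
  ord : AddValuation K (WithTop ℤ)
  ord_const : ∀ c : ℂ, 0 ≤ ord (algebraMap ℂ K c)
  exists_uniformizer : ∃ t : K, ord t = 1
  residue_trdeg : ∃ s : Fin (n - 1) → K, (∀ i, 0 ≤ ord (s i)) ∧
    ∀ p : MvPolynomial (Fin (n - 1)) ℂ, p ≠ 0 → ord (MvPolynomial.aeval s p) = 0

variable {n}

/-- The local ring of the generic point of a prime divisor over `X`. -/
def PrimeDivisorOver.localRing (E : PrimeDivisorOver K n) : Set K := {f | 0 ≤ E.ord f}

variable (n)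

variable {n}

end FunctionField

/-! ## Varieties -/

section Scheme

variable {X : Scheme.{0}} (s : X ⟶ Spec (.of ℂ)) [IsIntegral X]

end Scheme

attribute [instance] FanoVariety.integral

end Pool.Agent.H23.Fano

end
end

section

/-!
# Fermat covers: definitions

Locally closed subsets of `ℙ^N` given by forms and by the condition that some homogeneous
coordinates are not zero, and the monomial curves `t ↦ (a_i t ^ (n_i))` contained in them.
-/

open MvPolynomial
open Pool.Agent.H17 (PN VanishesAt ZariskiClosedIn)

noncomputable section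

namespace Pool.Agent.H62.FC

variable {N : ℕ}

/-- The Zariski closure of `S` in `X`. -/
def closureIn (X S : Set (PN N)) : Set (PN N) :=
  {x | x ∈ X ∧ ∀ (k : ℕ) (Q : MvPolynomial (Fin (N + 1)) ℂ), Q.IsHomogeneous k →
    (∀ y ∈ S, VanishesAt Q y) → VanishesAt Q x}

/-- The ideal `P` is homogeneous. -/
def Homog (P : Ideal (MvPolynomial (Fin (N + 1)) ℂ)) : Prop :=
  ∀ p ∈ P, ∀ n, homogeneousComponent n p ∈ P

end Pool.Agent.H62.FC

end
end

section

/-!
# Holomorphic maps from complements of analytic subsets of `ℂ^g` into hyperbolic varieties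
-/

open Topology Filter Pool.Agent.H17

namespace Pool.Agent.H66.Lang

/-- `Z` is a (closed) analytic subset of `ℂ^g`: near every point of `ℂ^g` it is the common zero set
of finitely many holomorphic functions. -/
def IsAnalyticSubset {g : ℕ} (Z : Set (Fin g → ℂ)) : Prop :=
  ∀ p : Fin g → ℂ, ∃ (k : ℕ) (h : (Fin g → ℂ) → Fin k → ℂ), AnalyticAt ℂ h p ∧
    ∀ᶠ x in 𝓝 p, (x ∈ Z ↔ h x = 0)

/-- `f` is holomorphic on `U ⊆ ℂ^g` as a map into `ℙ^N`: near every point of `U` it is given by
holomorphic homogeneous coordinates without common zero. -/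
def HolomorphicIntoPN {g N : ℕ} (f : (Fin g → ℂ) → PN N) (U : Set (Fin g → ℂ)) : Prop :=
  ∀ p ∈ U, ∃ φ : (Fin g → ℂ) → Fin (N + 1) → ℂ, AnalyticAt ℂ φ p ∧
    ∀ᶠ x in 𝓝 p, ∃ h : φ x ≠ 0, f x = Projectivization.mk ℂ (φ x) h

/-- The complex line through `p` and `q`. -/
def line {g : ℕ} (p q : Fin g → ℂ) (s : ℂ) : Fin g → ℂ := p + s • (q - p)

lemma line_zero {g : ℕ} (p q : Fin g → ℂ) : line p q 0 = p := by simp [line]

lemma line_one {g : ℕ} (p q : Fin g → ℂ) : line p q 1 = q := by simp [line]

lemma analyticAt_line {g : ℕ} (p q : Fin g → ℂ) (s : ℂ) : AnalyticAt ℂ (line p q) s := by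
  unfold line
  fun_prop

end Pool.Agent.H66.Lang

end
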