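import Pool.Agent.H94.DG.M02
import Pool.Agent.H94.DG.M04

/-! The parts of this file: H17.Modulus, H17.Projective, H92.GGL.Vanish. -/

section

/-!
# The uniform modulus of continuity of holomorphic discs
-/

open Topology Filter

namespace Pool.Agent.H17

variable {N : ℕ}

/-- Composition with a holomorphic function. -/
lemma HolomorphicInto.comp {f : ℂ → PN N} {V U : Set ℂ} (hf : HolomorphicInto f V) {u : ℂ → ℂ}
    (hu : ∀ z ∈ U, AnalyticAt ℂ u z) (hUV : ∀ z ∈ U, u z ∈ V) :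
    HolomorphicInto (fun z => f (u z)) U := by
  intro z₀ hz₀
  obtain ⟨φ, hφ, he⟩ := hf (u z₀) (hUV z₀ hz₀)
  exact ⟨fun z => φ (u z), hφ.comp (hu z₀ hz₀), (hu z₀ hz₀).continuousAt.eventually he⟩

end Pool.Agent.H17

end

section

/-!
# Separation of points and charts of projective space
-/

open Topology Filter

namespace Pool.Agent.H17

variable {N : ℕ}

/-- The vector of the `2 × 2` minors. -/
def minors (v w : Fin (N + 1) → ℂ) : Fin (N + 1) × Fin (N + 1) → ℂ :=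
  fun p => v p.1 * w p.2 - v p.2 * w p.1

/-- The separation of two vectors. -/
noncomputable def sepv (v w : Fin (N + 1) → ℂ) : ℝ := ‖minors v w‖ / (‖v‖ * ‖w‖)

/-- The separation of two points of projective space. -/
noncomputable def sep (p q : PN N) : ℝ := sepv p.rep q.rep

lemma minors_smul (a b : ℂ) (v w : Fin (N + 1) → ℂ) :
    minors (a • v) (b • w) = (a * b) • minors v w := by
  funext p
  simp only [minors, Pi.smul_apply, smul_eq_mul]
  ring

lemma sepv_smul {a b : ℂ} (ha : a ≠ 0) (hb : b ≠ 0) (v w : Fin (N + 1) → ℂ) :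
    sepv (a • v) (b • w) = sepv v w := by
  unfold sepv
  rw [minors_smul, norm_smul, norm_smul, norm_smul, norm_mul]
  have h1 := norm_pos_iff.mpr ha
  have h2 := norm_pos_iff.mpr hb
  rw [show ‖a‖ * ‖v‖ * (‖b‖ * ‖w‖) = (‖a‖ * ‖b‖) * (‖v‖ * ‖w‖) by ring]
  rw [mul_div_mul_left _ _ (by positivity)]

lemma exists_smul_rep (v : Fin (N + 1) → ℂ) (hv : v ≠ 0) :
    ∃ a : ℂ, a ≠ 0 ∧ (Projectivization.mk ℂ v hv).rep = a • v := by
  obtain ⟨a, ha⟩ := Projectivization.exists_smul_eq_mk_rep ℂ v hv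
  exact ⟨a, a.ne_zero, by rw [← ha]; rfl⟩

lemma sep_mk (v w : Fin (N + 1) → ℂ) (hv : v ≠ 0) (hw : w ≠ 0) :
    sep (Projectivization.mk ℂ v hv) (Projectivization.mk ℂ w hw) = sepv v w := by
  obtain ⟨a, ha, h1⟩ := exists_smul_rep v hv
  obtain ⟨b, hb, h2⟩ := exists_smul_rep w hw
  unfold sep
  rw [h1, h2, sepv_smul ha hb]

lemma minors_self (v : Fin (N + 1) → ℂ) : minors v v = 0 := by
  funext p
  simp only [minors, Pi.zero_apply]
  ring

/-- Vectors with vanishing minors are proportional. -/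
lemma mk_eq_of_minors {v w : Fin (N + 1) → ℂ} (hv : v ≠ 0) (hw : w ≠ 0) (h : minors v w = 0) :
    Projectivization.mk ℂ v hv = Projectivization.mk ℂ w hw := by
  obtain ⟨i, hi⟩ : ∃ i, w i ≠ 0 := by
    by_contra hcon
    push Not at hcon
    exact hw (funext hcon)
  have hcross : ∀ j, v i * w j = v j * w i := fun j => by
    have := congrFun h (i, j)
    simp only [minors, Pi.zero_apply] at this
    exact sub_eq_zero.mp this
  have hvi : v i ≠ 0 := by
    intro h0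
    apply hv
    funext j
    have h1 := hcross j
    rw [h0, zero_mul] at h1
    exact (mul_eq_zero.mp h1.symm).resolve_right hi
  rw [Projectivization.mk_eq_mk_iff]
  refine ⟨Units.mk0 (v i / w i) (div_ne_zero hvi hi), ?_⟩
  funext j
  change v i / w i * w j = v j
  have h1 := hcross j
  field_simp
  linear_combination h1

lemma eq_of_sepv_eq_zero {v w : Fin (N + 1) → ℂ} (hv : v ≠ 0) (hw : w ≠ 0) (h : sepv v w = 0) :
    Projectivization.mk ℂ v hv = Projectivization.mk ℂ w hw := by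
  apply mk_eq_of_minors hv hw
  unfold sepv at h
  have h1 : ‖v‖ * ‖w‖ ≠ 0 := mul_ne_zero (norm_ne_zero_iff.mpr hv) (norm_ne_zero_iff.mpr hw)
  rcases div_eq_zero_iff.mp h with h2 | h2
  · exact norm_eq_zero.mp h2
  · exact absurd h2 h1

/-- Continuity of the separation. -/
lemma continuousAt_sepv {v w : Fin (N + 1) → ℂ} (hv : v ≠ 0) (hw : w ≠ 0) :
    ContinuousAt (fun p : (Fin (N + 1) → ℂ) × (Fin (N + 1) → ℂ) => sepv p.1 p.2) (v, w) := by
  unfold sepv
  refine ContinuousAt.div ?_ ?_ ?_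
  · apply Continuous.continuousAt
    refine Continuous.norm ?_
    refine continuous_pi fun q => ?_
    unfold minors
    fun_prop
  · fun_prop
  · exact mul_ne_zero (norm_ne_zero_iff.mpr hv) (norm_ne_zero_iff.mpr hw)

/-- Holomorphic maps into projective space are continuous for the separation. -/
lemma tendsto_sep {f : ℂ → PN N} {U : Set ℂ} (hf : HolomorphicInto f U) {z₀ : ℂ} (hz₀ : z₀ ∈ U) :
    Tendsto (fun p : ℂ × ℂ => sep (f p.1) (f p.2)) (𝓝 (z₀, z₀)) (𝓝 0) := by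
  obtain ⟨φ, hφ, he⟩ := hf z₀ hz₀
  obtain ⟨h0, -⟩ := he.self_of_nhds
  have h1 := continuousAt_sepv h0 h0
  have h2 : Tendsto (fun p : ℂ × ℂ => (φ p.1, φ p.2)) (𝓝 (z₀, z₀)) (𝓝 (φ z₀, φ z₀)) := by
    have h3 := hφ.continuousAt
    exact (h3.tendsto.comp (continuous_fst.tendsto' (z₀, z₀) z₀ rfl)).prodMk_nhds
      (h3.tendsto.comp (continuous_snd.tendsto' (z₀, z₀) z₀ rfl))
  have h3 := h1.tendsto.comp h2
  have h4 : sepv (φ z₀) (φ z₀) = 0 := by
    unfold sepv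
    rw [minors_self]
    simp
  simp only [h4] at h3
  refine h3.congr' ?_
  have h5 : ∀ᶠ p : ℂ × ℂ in 𝓝 (z₀, z₀), (∃ h : φ p.1 ≠ 0, f p.1 = Projectivization.mk ℂ (φ p.1) h) ∧
      (∃ h : φ p.2 ≠ 0, f p.2 = Projectivization.mk ℂ (φ p.2) h) := by
    rw [nhds_prod_eq]
    exact (he.prod_mk he)
  filter_upwards [h5] with p hp
  obtain ⟨⟨h6, h7⟩, h8, h9⟩ := hp
  rw [h7, h9, sep_mk]
  rfl

end Pool.Agent.H17

end

section

/-!
# A vanishing theorem of Ahlfors–Schwarz type with real exponents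

`r i` are entire functions (none identically zero), `U = ∑ |r i|^κ`, `V` is the variance of the
logarithmic derivatives `r i' / r i` with weights `|r i|^κ / U`.  If `g` is entire,
`W = |g|^2 U^α ∏ |r i|^(-β i)` satisfies `W ≤ C V^ρ` with `α > 0` and `W` is locally bounded,
then `g = 0`.
-/

open Topology Filter Complex

namespace Pool.Agent.H92.GGL

open Pool.Agent.H17

variable {ι : Type} [Fintype ι]

/-- `∑ |r i|^κ`. -/
noncomputable def powSum (κ : ℝ) (r : ι → ℂ → ℂ) (z : ℂ) : ℝ := ∑ i, ‖r i z‖ ^ κ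

/-- The variance of the logarithmic derivatives with weights `|r i|^κ`. -/
noncomputable def powVar (κ : ℝ) (r : ι → ℂ → ℂ) (z : ℂ) : ℝ :=
  wVar (fun i => ‖r i z‖ ^ κ) (fun i => deriv (r i) z / r i z)

/-- `|g|^2 U^α ∏ |r i|^(-β i)`. -/
noncomputable def wt (κ α : ℝ) (β : ι → ℝ) (r : ι → ℂ → ℂ) (g : ℂ → ℂ) (z : ℂ) : ℝ :=
  ‖g z‖ ^ 2 * powSum κ r z ^ α * ∏ i, ‖r i z‖ ^ (-(β i))

lemma powSum_pos [Nonempty ι] {κ : ℝ} {r : ι → ℂ → ℂ} {z : ℂ} (h : ∀ i, r i z ≠ 0) :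
    0 < powSum κ r z := by
  unfold powSum
  exact Finset.sum_pos (fun i _ => Real.rpow_pos_of_pos (norm_pos_iff.mpr (h i)) _)
    Finset.univ_nonempty

lemma powSum_nonneg (κ : ℝ) (r : ι → ℂ → ℂ) (z : ℂ) : 0 ≤ powSum κ r z := by
  unfold powSum
  positivity

lemma wt_nonneg (κ α : ℝ) (β : ι → ℝ) (r : ι → ℂ → ℂ) (g : ℂ → ℂ) (z : ℂ) :
    0 ≤ wt κ α β r g z := by
  unfold wt
  have := powSum_nonneg κ r z
  have : 0 ≤ ∏ i, ‖r i z‖ ^ (-(β i)) := Finset.prod_nonneg fun i _ => by positivity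
  positivity

lemma powVar_nonneg {κ : ℝ} {r : ι → ℂ → ℂ} {z : ℂ} [Nonempty ι] (h : ∀ i, r i z ≠ 0) :
    0 ≤ powVar κ r z :=
  wVar_nonneg _ (fun i => by positivity)
    (Finset.sum_pos (fun i _ => Real.rpow_pos_of_pos (norm_pos_iff.mpr (h i)) _)
      Finset.univ_nonempty)

/-- The estimate at an interior maximum. -/
lemma powVar_le_at_max [Nonempty ι] {r : ι → ℂ → ℂ} {g : ℂ → ℂ} {κ α : ℝ} {β : ι → ℝ}
    {k ρ : ℕ} (hα : 0 < α) (hκ : 0 < κ)
    (hk : 0 < k) {R : ℝ} {S : Finset ℂ} {z₀ : ℂ} (hr : ∀ i, AnalyticAt ℂ (r i) z₀)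
    (hg : AnalyticAt ℂ g z₀) (hz : ‖z₀‖ < R) (hS : z₀ ∉ S) (hr0 : ∀ i, r i z₀ ≠ 0)
    (hg0 : g z₀ ≠ 0)
    (hmax : IsLocalMax (fun z => wt κ α β r g z ^ k * (R ^ 2 - ‖z‖ ^ 2) ^ (2 * ρ * k) *
      ∏ s ∈ S, ‖z - s‖) z₀) :
    powVar κ r z₀ ≤ 8 * ρ * R ^ 2 / (R ^ 2 - ‖z₀‖ ^ 2) ^ 2 / (α * κ ^ 2) := by
  classical
  choose L hL hLe hLd using fun i => exists_local_log (hr i) (hr0 i)
  obtain ⟨G, hG, hGe, -⟩ := exists_local_log hg hg0
  have hsub : ∀ s : S, AnalyticAt ℂ (fun z => z - (s : ℂ)) z₀ := fun s =>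
    analyticAt_id.sub analyticAt_const
  have hsub0 : ∀ s : S, z₀ - (s : ℂ) ≠ 0 := fun s h => hS (by
    rw [sub_eq_zero] at h; rw [h]; exact s.2)
  choose P hP hPe hPd using fun s : S => exists_local_log (hsub s) (hsub0 s)
  set H : ℂ → ℂ := fun z => 2 * k * G z - k * ∑ i, (β i : ℂ) * L i z + ∑ s : S, P s z with hH
  have hHan : AnalyticAt ℂ H z₀ := by
    refine ((analyticAt_const.mul hG).sub (analyticAt_const.mul ?_)).add ?_
    · exact Finset.analyticAt_fun_sum _ fun i _ => analyticAt_const.mul (hL i)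
    · exact Finset.analyticAt_fun_sum _ fun s _ => hP s
  set L' : ι → ℂ → ℂ := fun i z => (κ : ℂ) * L i z with hL'
  have hL'an : ∀ i, AnalyticAt ℂ (L' i) z₀ := fun i => analyticAt_const.mul (hL i)
  have hmpos : ∀ᶠ z in 𝓝 z₀, 0 < R ^ 2 - ‖z‖ ^ 2 := by
    have hc : ContinuousAt (fun z : ℂ => R ^ 2 - ‖z‖ ^ 2) z₀ := by fun_prop
    refine hc.eventually (lt_mem_nhds ?_)
    have := norm_nonneg z₀
    nlinarith
  have hLre : ∀ i z, (L' i z).re = κ * (L i z).re := fun i z => by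
    simp only [hL']
    rw [Complex.re_ofReal_mul]
  -- the function is the exponential of the function in the core inequality
  have hexp : ∀ᶠ z in 𝓝 z₀, wt κ α β r g z ^ k * (R ^ 2 - ‖z‖ ^ 2) ^ (2 * ρ * k) *
      ∏ s ∈ S, ‖z - s‖ = Real.exp ((H z).re + (k * α) * Real.log (∑ i, Real.exp (L' i z).re) +
        (2 * ρ * k : ℕ) * Real.log (R ^ 2 - ‖z‖ ^ 2)) := by
    filter_upwards [eventually_all.mpr hLe, hGe, eventually_all.mpr hPe, hmpos]
      with z h1 h2 h3 h4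
    have n1 : ∀ i, ‖r i z‖ = Real.exp (L i z).re := fun i => by
      rw [h1 i, Complex.norm_exp]
    have n1' : ∀ (i : ι) (c : ℝ), ‖r i z‖ ^ c = Real.exp (c * (L i z).re) := fun i c => by
      rw [n1 i, ← Real.exp_mul, mul_comm]
    have n2 : ‖g z‖ = Real.exp (G z).re := by rw [h2, Complex.norm_exp]
    have n3 : ∀ s : S, ‖z - s‖ = Real.exp (P s z).re := fun s => by
      rw [h3 s, Complex.norm_exp]
    have hUeq : powSum κ r z = ∑ i, Real.exp (L' i z).re := by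
      unfold powSum
      refine Finset.sum_congr rfl fun i _ => ?_
      rw [n1', hLre]
    have hUpos : 0 < ∑ i, Real.exp (L' i z).re :=
      Finset.sum_pos (fun i _ => Real.exp_pos _) Finset.univ_nonempty
    have hprodr : ∏ i, ‖r i z‖ ^ (-(β i)) = Real.exp (-∑ i, β i * (L i z).re) := by
      simp_rw [n1']
      rw [← Real.exp_sum]
      congr 1
      rw [← Finset.sum_neg_distrib]
      exact Finset.sum_congr rfl fun i _ => by ring
    have hprodS : ∏ s ∈ S, ‖z - s‖ = Real.exp (∑ s : S, (P s z).re) := by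
      rw [← Finset.prod_coe_sort S, Real.exp_sum]
      exact Finset.prod_congr rfl fun s _ => n3 s
    have hHre : (H z).re = 2 * k * (G z).re - k * ∑ i, β i * (L i z).re +
        ∑ s : S, (P s z).re := by
      simp only [hH, Complex.add_re, Complex.sub_re, Complex.re_sum]
      have c1 : ((2 : ℂ) * (k : ℂ) * G z).re = 2 * k * (G z).re := by
        have : (2 : ℂ) * (k : ℂ) = ((2 * k : ℝ) : ℂ) := by push_cast; ring
        rw [this, Complex.re_ofReal_mul]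
      have c2 : ((k : ℂ) * ∑ i, (β i : ℂ) * L i z).re = k * ∑ i, β i * (L i z).re := by
        have : (k : ℂ) = ((k : ℝ) : ℂ) := by push_cast; ring
        rw [this, Complex.re_ofReal_mul, Complex.re_sum]
        simp_rw [Complex.re_ofReal_mul]
      rw [c1, c2]
    unfold wt
    rw [hUeq, hprodr, hprodS, n2]
    have d0 : (∑ i, Real.exp (L' i z).re) ^ α =
        Real.exp (α * Real.log (∑ i, Real.exp (L' i z).re)) := by
      rw [Real.rpow_def_of_pos hUpos, mul_comm]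
    have d2 : Real.exp ((2 * ρ * k : ℕ) * Real.log (R ^ 2 - ‖z‖ ^ 2)) =
        (R ^ 2 - ‖z‖ ^ 2) ^ (2 * ρ * k) := by
      rw [Real.exp_nat_mul, Real.exp_log h4]
    rw [d0, ← d2, ← Real.exp_nat_mul, ← Real.exp_add, ← Real.exp_add, ← Real.exp_nat_mul,
      ← Real.exp_add, ← Real.exp_add, hHre]
    congr 1
    push_cast
    ring
  have hmax' : IsLocalMax (fun z => (H z).re + (k * α) *
      Real.log (∑ i, Real.exp (L' i z).re) +
        ((2 * ρ * k : ℕ) : ℝ) * Real.log (R ^ 2 - ‖z‖ ^ 2)) z₀ := by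
    filter_upwards [hmax, hexp] with z h1 h2
    rw [h2, hexp.self_of_nhds] at h1
    exact Real.exp_le_exp.mp h1
  have hcore := core_inequality hHan hL'an hz hmax'
  have q1 : ∀ i, Real.exp (L' i z₀).re = ‖r i z₀‖ ^ κ := fun i => by
    rw [hLre, (hLe i).self_of_nhds, Complex.norm_exp, ← Real.exp_mul, mul_comm]
  have q2 : ∀ i, deriv (L' i) z₀ = (κ : ℂ) * (deriv (r i) z₀ / r i z₀) := fun i => by
    simp only [hL']
    rw [deriv_const_mul _ (hL i).differentiableAt, hLd]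
  simp_rw [q1, q2] at hcore
  have e1 : (((∑ i, ‖r i z₀‖ ^ κ * ‖(κ : ℂ) * (deriv (r i) z₀ / r i z₀)‖ ^ 2) *
      (∑ i, ‖r i z₀‖ ^ κ) -
        ‖∑ i, ((‖r i z₀‖ ^ κ : ℝ) : ℂ) * ((κ : ℂ) * (deriv (r i) z₀ / r i z₀))‖ ^ 2) /
          (∑ i, ‖r i z₀‖ ^ κ) ^ 2) = κ ^ 2 * powVar κ r z₀ := by
    unfold powVar wVar
    have f1 : ∑ i, ‖r i z₀‖ ^ κ * ‖(κ : ℂ) * (deriv (r i) z₀ / r i z₀)‖ ^ 2 =
        κ ^ 2 * ∑ i, ‖r i z₀‖ ^ κ * ‖deriv (r i) z₀ / r i z₀‖ ^ 2 := by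
      rw [Finset.mul_sum]
      refine Finset.sum_congr rfl fun i _ => ?_
      rw [norm_mul, Complex.norm_real, mul_pow, Real.norm_eq_abs, sq_abs]
      ring
    have f2 : ∑ i, ((‖r i z₀‖ ^ κ : ℝ) : ℂ) * ((κ : ℂ) * (deriv (r i) z₀ / r i z₀)) =
        (κ : ℂ) * ∑ i, ((‖r i z₀‖ ^ κ : ℝ) : ℂ) * (deriv (r i) z₀ / r i z₀) := by
      rw [Finset.mul_sum]
      exact Finset.sum_congr rfl fun i _ => by ring
    rw [f1, f2, norm_mul, mul_pow, Complex.norm_real, Real.norm_eq_abs, sq_abs]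
    ring
  rw [e1] at hcore
  have hkpos : (0 : ℝ) < k := by exact_mod_cast hk
  have hm : 0 < R ^ 2 - ‖z₀‖ ^ 2 := hmpos.self_of_nhds
  rw [le_div_iff₀ (by positivity)]
  push_cast at hcore
  have h6 : (k : ℝ) * (powVar κ r z₀ * (α * κ ^ 2)) ≤
      k * (8 * ρ * R ^ 2 / (R ^ 2 - ‖z₀‖ ^ 2) ^ 2) := by
    calc (k : ℝ) * (powVar κ r z₀ * (α * κ ^ 2)) = k * α * (κ ^ 2 * powVar κ r z₀) := by ring
      _ ≤ 2 * ρ * k * (4 * R ^ 2 / (R ^ 2 - ‖z₀‖ ^ 2) ^ 2) := hcore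
      _ = _ := by ring
  exact le_of_mul_le_mul_left h6 hkpos

end Pool.Agent.H92.GGL

end
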