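import Pool.Agent.H94.DG.M03
import Pool.Agent.H94.DG.M06

/-! The parts of this file: H5.DG.D3Lem, H5.DG.OrbDefs, H5.DG.FinalDefs. -/

section

/-!
# Project DG, module D3Lem: maps of the punctured disc to projective space

The lemmas are those of `Pool.Agent.H62.FC.PicardBrody`.
-/

noncomputable section

namespace Pool.Agent.H5.DG

open MvPolynomial Topology Filter
open Pool.Agent.H92.GGL (ordZ)
open Pool.Agent.H62.FC (MeroPunct PunctMero)
open Pool.Agent.H17 (PN VanishesAt zeroLocus ZariskiClosedIn HolomorphicInto puncturedDisc)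

variable {N : ℕ}

/-! ### Holomorphic maps of the punctured disc -/

theorem preconnected_puncturedDisc : IsPreconnected puncturedDisc := by
  have h : puncturedDisc = Complex.exp '' {z : ℂ | z.re < 0} := by
    ext z
    constructor
    · rintro ⟨h1, h2⟩
      have h3 : z ≠ 0 := h2
      refine ⟨Complex.log z, ?_, Complex.exp_log h3⟩
      rw [mem_ball_zero_iff] at h1
      change (Complex.log z).re < 0
      rw [Complex.log_re]
      exact Real.log_neg (norm_pos_iff.mpr h3) h1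
    · rintro ⟨w, hw, rfl⟩
      refine ⟨?_, Complex.exp_ne_zero w⟩
      rw [mem_ball_zero_iff, Complex.norm_exp]
      have h1 := Real.exp_lt_exp.mpr hw
      rwa [Real.exp_zero] at h1
  rw [h]
  exact (convex_halfSpace_re_lt 0).isPreconnected.image _ Complex.continuous_exp.continuousOn

theorem isOpen_puncturedDisc : IsOpen puncturedDisc :=
  Metric.isOpen_ball.sdiff isClosed_singleton

theorem mem_puncturedDisc {z : ℂ} : z ∈ puncturedDisc ↔ 0 < ‖z‖ ∧ ‖z‖ < 1 := by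
  unfold puncturedDisc
  rw [Set.mem_sdiff, mem_ball_zero_iff, Set.mem_singleton_iff, norm_pos_iff]
  exact and_comm

theorem vanishesAt_X {x : PN N} {i : Fin (N + 1)} : VanishesAt (X i) x ↔ x.rep i = 0 := by
  unfold VanishesAt
  rw [eval_X]

theorem vanish_local {f : ℂ → PN N} {s : ℂ} {φ : ℂ → Fin (N + 1) → ℂ}
    (hφ : AnalyticAt ℂ φ s)
    (he : ∀ᶠ z in 𝓝 s, ∃ h : φ z ≠ 0, f z = Projectivization.mk ℂ (φ z) h)
    {Q : MvPolynomial (Fin (N + 1)) ℂ} {m : ℕ} (hQ : Q.IsHomogeneous m) :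
    (∀ᶠ z in 𝓝 s, VanishesAt Q (f z)) ∨ (∀ᶠ z in 𝓝[≠] s, ¬ VanishesAt Q (f z)) := by
  have h1 : AnalyticAt ℂ (fun z => aeval (φ z) Q) s :=
    AnalyticAt.aeval_mvPolynomial (fun i => analyticAt_pi_iff.mp hφ i) Q
  rcases h1.eventually_eq_zero_or_eventually_ne_zero with h | h
  · left
    filter_upwards [h, he] with z hz hfz
    obtain ⟨h2, h3⟩ := hfz
    rw [h3, Pool.Agent.H17.vanishesAt_mk_iff hQ]
    exact hz
  · right
    filter_upwards [h, he.filter_mono nhdsWithin_le_nhds] with z hz hfz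
    obtain ⟨h2, h3⟩ := hfz
    rw [h3, Pool.Agent.H17.vanishesAt_mk_iff hQ]
    exact hz

/-- the identity principle -/
theorem vanish_dich {f : ℂ → PN N} (hf : HolomorphicInto f puncturedDisc)
    {Q : MvPolynomial (Fin (N + 1)) ℂ} {m : ℕ} (hQ : Q.IsHomogeneous m) :
    (∀ s ∈ puncturedDisc, ∀ᶠ z in 𝓝 s, VanishesAt Q (f z)) ∨
      (∀ s ∈ puncturedDisc, ∀ᶠ z in 𝓝[≠] s, ¬ VanishesAt Q (f z)) := by
  have hou : IsOpen {s | ∀ᶠ z in 𝓝 s, VanishesAt Q (f z)} := isOpen_setOfPred_eventually_nhds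
  have hov : IsOpen {s | ∀ᶠ z in 𝓝[≠] s, ¬ VanishesAt Q (f z)} :=
    isOpen_setOfPred_eventually_nhdsWithin
  have hd : Disjoint {s | ∀ᶠ z in 𝓝 s, VanishesAt Q (f z)}
      {s | ∀ᶠ z in 𝓝[≠] s, ¬ VanishesAt Q (f z)} := by
    rw [Set.disjoint_left]
    intro s hs hs'
    have h1 : ∀ᶠ z in 𝓝 s, VanishesAt Q (f z) := hs
    have h2 : ∀ᶠ z in 𝓝[≠] s, ¬ VanishesAt Q (f z) := hs'
    obtain ⟨z, h3, h4⟩ := ((h1.filter_mono nhdsWithin_le_nhds).and h2).exists
    exact h4 h3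
  have hsub : puncturedDisc ⊆ {s | ∀ᶠ z in 𝓝 s, VanishesAt Q (f z)} ∪
      {s | ∀ᶠ z in 𝓝[≠] s, ¬ VanishesAt Q (f z)} := by
    intro s hs
    obtain ⟨φ, hφ, he⟩ := hf s hs
    exact vanish_local hφ he hQ
  by_cases hne : (puncturedDisc ∩ {s | ∀ᶠ z in 𝓝 s, VanishesAt Q (f z)}).Nonempty
  · left
    intro s hs
    exact (preconnected_puncturedDisc.subset_left_of_subset_union hou hov hd hsub hne) hs
  · right
    intro s hs
    rcases hsub hs with h | h
    · exact absurd ⟨s, hs, h⟩ hne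
    · exact h

/-- lifts and representatives -/
theorem exists_lift {f : ℂ → PN N} (hf : HolomorphicInto f puncturedDisc) {s : ℂ}
    (hs : s ∈ puncturedDisc) : ∃ φ : ℂ → Fin (N + 1) → ℂ, (∀ i, AnalyticAt ℂ (fun z => φ z i) s) ∧
      ∀ᶠ z in 𝓝 s, ∃ c : ℂ, c ≠ 0 ∧ ∀ i, (f z).rep i = c * φ z i := by
  obtain ⟨φ, hφ, he⟩ := hf s hs
  refine ⟨φ, analyticAt_pi_iff.mp hφ, ?_⟩
  filter_upwards [he] with z hz
  obtain ⟨h1, h2⟩ := hz
  obtain ⟨a, ha, h3⟩ := Pool.Agent.H17.exists_smul_rep (φ z) h1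
  refine ⟨a, ha, fun i => ?_⟩
  rw [h2, h3]
  rfl

theorem ord_eq_zero_of_ne {g : ℂ → ℂ} {s : ℂ} (hg : AnalyticAt ℂ g s) (h : g s ≠ 0) :
    ordZ g s = 0 := by
  unfold ordZ
  rw [hg.meromorphicOrderAt_eq, hg.analyticOrderAt_eq_zero.mpr h]
  rfl

open Classical in
/-- the coordinates of `f` which are not identically zero -/
def nzSet (f : ℂ → PN N) : Finset (Fin (N + 1)) :=
  Finset.univ.filter fun i => ∀ s ∈ puncturedDisc, ∀ᶠ z in 𝓝[≠] s, (f z).rep i ≠ 0

theorem nz_mem {f : ℂ → PN N} {i : Fin (N + 1)} (hi : i ∈ nzSet f) {s : ℂ}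
    (hs : s ∈ puncturedDisc) : ∀ᶠ z in 𝓝[≠] s, (f z).rep i ≠ 0 := by
  unfold nzSet at hi
  simp only [Finset.mem_filter, Finset.mem_univ, true_and] at hi
  exact hi s hs

theorem nz_notMem {f : ℂ → PN N} (hf : HolomorphicInto f puncturedDisc)
    {i : Fin (N + 1)} (hi : i ∉ nzSet f) {s : ℂ} (hs : s ∈ puncturedDisc) : (f s).rep i = 0 := by
  rcases vanish_dich hf (isHomogeneous_X ℂ i) with h | h
  · exact vanishesAt_X.mp (h s hs).self_of_nhds
  · exfalso
    apply hi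
    unfold nzSet
    simp only [Finset.mem_filter, Finset.mem_univ, true_and]
    intro s hs
    filter_upwards [h s hs] with z hz hz'
    exact hz (vanishesAt_X.mpr hz')

theorem quot_mero {f : ℂ → PN N} (hf : HolomorphicInto f puncturedDisc)
    (i i₀ : Fin (N + 1)) {s : ℂ} (hs : s ∈ puncturedDisc) :
    MeromorphicAt (fun z => (f z).rep i / (f z).rep i₀) s := by
  obtain ⟨φ, hφ, he⟩ := exists_lift hf hs
  have h1 : MeromorphicAt (fun z => φ z i / φ z i₀) s :=
    (hφ i).meromorphicAt.fun_div (hφ i₀).meromorphicAt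
  refine h1.congr ?_
  filter_upwards [he.filter_mono nhdsWithin_le_nhds] with z hz
  obtain ⟨c, hc, h2⟩ := hz
  rw [h2, h2, mul_div_mul_left _ _ hc]

theorem quot_meroPunct {f : ℂ → PN N} (hf : HolomorphicInto f puncturedDisc)
    {i i₀ : Fin (N + 1)} (hi : i ∈ nzSet f) (hi₀ : i₀ ∈ nzSet f) :
    MeroPunct 1 (fun z => (f z).rep i / (f z).rep i₀) where
  mero z h1 h2 := quot_mero hf i i₀ (mem_puncturedDisc.mpr ⟨h1, h2⟩)
  ord z h1 h2 := by
    have hs := mem_puncturedDisc.mpr ⟨h1, h2⟩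
    rw [meromorphicOrderAt_ne_top_iff_eventually_ne_zero (quot_mero hf i i₀ hs)]
    filter_upwards [nz_mem hi hs, nz_mem hi₀ hs] with w h3 h4
    exact div_ne_zero h3 h4

theorem eventually_mem_puncturedDisc {s : ℂ} (hs : s ∈ puncturedDisc) :
    ∀ᶠ z in 𝓝[≠] s, z ∈ puncturedDisc := by
  have h : ∀ᶠ z in 𝓝 s, z ∈ puncturedDisc := isOpen_puncturedDisc.mem_nhds hs
  exact h.filter_mono nhdsWithin_le_nhds

theorem eventually_puncturedDisc_zero : ∀ᶠ z in 𝓝[≠] (0 : ℂ), z ∈ puncturedDisc := by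
  have h1 : ∀ᶠ z in 𝓝 (0 : ℂ), z ∈ Metric.ball (0 : ℂ) 1 :=
    Metric.ball_mem_nhds (0 : ℂ) one_pos
  filter_upwards [h1.filter_mono nhdsWithin_le_nhds, self_mem_nhdsWithin] with z h2 h3
  exact ⟨h2, h3⟩

/-! ### Entire curves -/

theorem eq_of_sep {p q : PN N} (h : Pool.Agent.H17.sep p q = 0) : p = q := by
  have h1 := Pool.Agent.H17.eq_of_sepv_eq_zero p.rep_nonzero q.rep_nonzero h
  rwa [p.mk_rep, q.mk_rep] at h1

/-- If `z ↦ f (exp (1 / z))` extends to the disc then `f` is constant. -/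
theorem const_of_extension {f g : ℂ → PN N} (hf : HolomorphicInto f Set.univ)
    (hg : HolomorphicInto g (Metric.ball 0 1))
    (hge : ∀ z ∈ puncturedDisc, g z = f (Complex.exp z⁻¹)) (z w : ℂ) : f z = f w := by
  have hseq : ∀ w : ℂ, w ≠ 0 → ∃ zs : ℕ → ℂ, Tendsto zs atTop (𝓝 0) ∧
      ∀ᶠ n in atTop, zs n ∈ puncturedDisc ∧ Complex.exp (zs n)⁻¹ = w := by
    intro w hw
    obtain ⟨zs, h1, h2⟩ := Pool.Agent.H99.Cover.exists_seq_exp_inv w hw
    refine ⟨zs, h1, ?_⟩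
    filter_upwards [h2, h1.eventually (Metric.ball_mem_nhds (0 : ℂ) one_pos)] with n h3 h4
    exact ⟨⟨h4, h3.1⟩, h3.2⟩
  -- the map is constant off `0`
  have hconst : ∀ w : ℂ, w ≠ 0 → f w = g 0 := by
    intro w hw
    apply eq_of_sep
    obtain ⟨zs, h1, h2⟩ := hseq w hw
    have h3 := Pool.Agent.H17.tendsto_sep hg (Metric.mem_ball_self one_pos)
    have h4 : Tendsto (fun n => (zs n, (0 : ℂ))) atTop (𝓝 ((0 : ℂ), (0 : ℂ))) :=
      h1.prodMk_nhds tendsto_const_nhds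
    have h5 := h3.comp h4
    refine tendsto_nhds_unique (tendsto_const_nhds.congr' ?_) h5
    filter_upwards [h2] with n hn
    change Pool.Agent.H17.sep (f w) (g 0) = Pool.Agent.H17.sep (g (zs n)) (g 0)
    rw [hge (zs n) hn.1, hn.2]
  have hconst0 : f 0 = g 0 := by
    symm
    apply eq_of_sep
    have h3 := Pool.Agent.H17.tendsto_sep hf (Set.mem_univ (0 : ℂ))
    have h4 : Tendsto (fun w : ℂ => (w, (0 : ℂ))) (𝓝[≠] 0) (𝓝 ((0 : ℂ), (0 : ℂ))) :=
      (tendsto_id.mono_left nhdsWithin_le_nhds).prodMk_nhds tendsto_const_nhds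
    have h5 := h3.comp h4
    refine tendsto_nhds_unique (tendsto_const_nhds.congr' ?_) h5
    filter_upwards [self_mem_nhdsWithin] with w hw
    change Pool.Agent.H17.sep (g 0) (f 0) = Pool.Agent.H17.sep (f w) (f 0)
    rw [hconst w hw]
  have hall : ∀ w, f w = g 0 := by
    intro w
    by_cases hw : w = 0
    · rw [hw]
      exact hconst0
    · exact hconst w hw
  rw [hall, hall]

end Pool.Agent.H5.DG

end
end

section

/-!
# Project DG, module OrbDefs: maps which meet hyperplanes with multiplicities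
-/

open MvPolynomial Filter Topology
open Pool.Agent.H17 (PN VanishesAt HolomorphicInto puncturedDisc)

noncomputable section

namespace Pool.Agent.H5.DG

/-- The map `f`, holomorphic on `U`, meets the hyperplane given by `l` with multiplicities at least
`m` at all points of `U` (multiplicity `⊤` is allowed). -/
def MeetsWithMult {r : ℕ} (m : ℕ) (l : Fin (r + 1) → ℂ) (f : ℂ → PN r) (U : Set ℂ) : Prop :=
  ∀ s ∈ U, ∃ φ : ℂ → Fin (r + 1) → ℂ, AnalyticAt ℂ φ s ∧
    (∀ᶠ z in 𝓝 s, ∃ h : φ z ≠ 0, f z = Projectivization.mk ℂ (φ z) h) ∧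
    (∑ a, l a * φ s a = 0 → (m : ℕ∞) ≤ analyticOrderAt (fun z => ∑ a, l a * φ z a) s)

/-- Maps of the punctured disc to `ℙ^r`, not into `Δ = 0`, which meet the hyperplanes `l j` with
multiplicities at least `q` extend. -/
def OrbExt (q : ℕ) {m r : ℕ} (l : Fin m → Fin (r + 1) → ℂ) (Δ : MvPolynomial (Fin (r + 1)) ℂ) :
    Prop :=
  ∀ f : ℂ → PN r, HolomorphicInto f puncturedDisc →
    (∀ j, MeetsWithMult q (l j) f puncturedDisc) →
    (∃ z ∈ puncturedDisc, ¬ VanishesAt Δ (f z)) →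
    ∃ g : ℂ → PN r, HolomorphicInto g (Metric.ball 0 1) ∧ ∀ z ∈ puncturedDisc, g z = f z

private theorem dot_analytic {r : ℕ} {φ : ℂ → Fin (r + 1) → ℂ} {s : ℂ} (hφ : AnalyticAt ℂ φ s)
    (l : Fin (r + 1) → ℂ) : AnalyticAt ℂ (fun z => ∑ a, l a * φ z a) s :=
  Finset.analyticAt_fun_sum _ fun a _ => analyticAt_const.fun_mul (analyticAt_pi_iff.mp hφ a)

/-- Entire curves. -/
theorem OrbExt.brody {q m r k : ℕ} {l : Fin m → Fin (r + 1) → ℂ}
    {Δ : MvPolynomial (Fin (r + 1)) ℂ} (hk : Δ.IsHomogeneous k) (h : OrbExt q l Δ) {f : ℂ → PN r}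
    (hf : HolomorphicInto f Set.univ) (hm : ∀ j, MeetsWithMult q (l j) f Set.univ)
    (hne : ∃ z, ¬ VanishesAt Δ (f z)) (z w : ℂ) : f z = f w := by
  obtain ⟨w₀, hw₀, hw₀'⟩ : ∃ w, w ≠ 0 ∧ ¬ VanishesAt Δ (f w) := by
    obtain ⟨z₁, hz₁⟩ := hne
    by_cases hz0 : z₁ = 0
    · subst hz0
      obtain ⟨ψ, hψ, he⟩ := hf 0 (Set.mem_univ 0)
      rcases vanish_local hψ he hk with h1 | h1
      · exact absurd h1.self_of_nhds hz₁
      · obtain ⟨w, hw1, hw2⟩ := (h1.and self_mem_nhdsWithin).exists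
        exact ⟨w, hw2, hw1⟩
    · exact ⟨z₁, hz0, hz₁⟩
  have hexp : ∀ z ∈ puncturedDisc, AnalyticAt ℂ (fun z : ℂ => Complex.exp z⁻¹) z := by
    intro z hz
    have h1 : z ≠ 0 := hz.2
    exact (analyticAt_inv h1).cexp
  have hgh : HolomorphicInto (fun z => f (Complex.exp z⁻¹)) puncturedDisc :=
    Pool.Agent.H17.HolomorphicInto.comp hf (u := fun z => Complex.exp z⁻¹) hexp
      (fun _ _ => Set.mem_univ _)
  have hmg : ∀ j, MeetsWithMult q (l j) (fun z => f (Complex.exp z⁻¹)) puncturedDisc := by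
    intro j s hs
    obtain ⟨ψ, hψ, he, hord⟩ := hm j (Complex.exp s⁻¹) (Set.mem_univ _)
    have hu := hexp s hs
    refine ⟨fun z => ψ (Complex.exp z⁻¹), ?_, ?_, fun h0 => ?_⟩
    · exact AnalyticAt.comp (g := ψ) (f := fun z : ℂ => Complex.exp z⁻¹) hψ hu
    · exact hu.continuousAt.eventually he
    · have h1 := hord h0
      have hA : AnalyticAt ℂ (fun z => ∑ a, l j a * ψ z a) (Complex.exp s⁻¹) :=
        dot_analytic hψ (l j)
      have h2 : analyticOrderAt (fun z => ∑ a, l j a * ψ (Complex.exp z⁻¹) a) s =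
          analyticOrderAt (fun z => ∑ a, l j a * ψ z a) (Complex.exp s⁻¹) *
            analyticOrderAt (fun z => Complex.exp z⁻¹ - Complex.exp s⁻¹) s :=
        AnalyticAt.analyticOrderAt_comp (f := fun z => ∑ a, l j a * ψ z a)
          (g := fun z : ℂ => Complex.exp z⁻¹) hA hu
      have h3 : (1 : ℕ∞) ≤ analyticOrderAt (fun z => Complex.exp z⁻¹ - Complex.exp s⁻¹) s := by
        rw [Order.one_le_iff_ne_zero]
        intro h4
        have h5 : AnalyticAt ℂ (fun z : ℂ => Complex.exp z⁻¹ - Complex.exp s⁻¹) s :=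
          hu.fun_sub analyticAt_const
        rw [h5.analyticOrderAt_eq_zero] at h4
        exact h4 (sub_self _)
      rw [h2]
      calc ((q : ℕ) : ℕ∞) = ((q : ℕ) : ℕ∞) * 1 := (mul_one _).symm
        _ ≤ _ := mul_le_mul' h1 h3
  obtain ⟨g, hg, hge⟩ := h _ hgh hmg (by
    obtain ⟨zs, h1, h2⟩ := Pool.Agent.H99.Cover.exists_seq_exp_inv w₀ hw₀
    obtain ⟨k, h3, h4⟩ := (h2.and (h1.eventually
      (Metric.ball_mem_nhds (0 : ℂ) one_pos))).exists
    refine ⟨zs k, ⟨h4, h3.1⟩, ?_⟩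
    rw [h3.2]
    exact hw₀')
  exact const_of_extension hf hg hge z w

end Pool.Agent.H5.DG

end
end

section

/-!
# Project DG, module FinalDefs: the four properties, the orbifold and the cover part
-/

open MvPolynomial Filter Topology
open Pool.Agent.H17 (PN VanishesAt zeroLocus ZariskiClosedIn HolomorphicInto puncturedDisc)
open Pool.Agent.H17GT (coordFun)
open Pool.Agent.H17LG.Variety (FunField ratio IsLogGeneralType)

noncomputable section

namespace Pool.Agent.H5.DG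

variable {Nn m : ℕ}

/-- The open part of the variety given by `P` is of log general type. -/
def LogGeneralType (P : Ideal (MvPolynomial (Fin (Nn + 1)) ℂ)) [P.IsPrime] (O : Finset (Fin m))
    (H : Fin m → MvPolynomial (Fin (Nn + 1)) ℂ) (w : ℕ) : Prop :=
  IsLogGeneralType (OnForms P O H (w := w))

/-- The four properties of the Green–Griffiths–Lang conjecture for the open part of the variety
given by `I`, with the exceptional set `Ξ`: it is of log general type; holomorphic maps from the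
punctured disc which are not into `Ξ` extend; the images of the non-constant entire curves lie in
`Ξ`; the closed subvarieties of positive dimension which are not contained in `Ξ` are of log
general type. -/
structure FourProperties (I : Ideal (MvPolynomial (Fin (Nn + 1)) ℂ)) [I.IsPrime]
    (O : Finset (Fin m)) (H : Fin m → MvPolynomial (Fin (Nn + 1)) ℂ) (r : ℕ)
    (Ξ : Set (PN Nn)) : Prop where
  closed : ZariskiClosedIn (coverLocus I O H) Ξ
  proper : Ξ ≠ coverLocus I O H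
  logGeneralType : LogGeneralType I O H r
  picard : ∀ f : ℂ → PN Nn, HolomorphicInto f puncturedDisc →
    (∀ z ∈ puncturedDisc, f z ∈ coverLocus I O H) → (∃ z ∈ puncturedDisc, f z ∉ Ξ) →
    ∃ g : ℂ → PN Nn, HolomorphicInto g (Metric.ball 0 1) ∧ ∀ z ∈ puncturedDisc, g z = f z
  brody : ∀ f : ℂ → PN Nn, HolomorphicInto f Set.univ → (∀ z, f z ∈ coverLocus I O H) →
    (∃ z w, f z ≠ f w) → ∀ z, f z ∈ Ξ
  strongly : ∀ (P : Ideal (MvPolynomial (Fin (Nn + 1)) ℂ)) [P.IsPrime], Homog P → I ≤ P →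
    (∀ i ∈ O, H i ∉ P) → ¬ coverLocus P O H ⊆ Ξ → ∀ w, 1 ≤ w →
    (∃ z : Fin w → FunField P, IsTranscendenceBasis ℂ z) → LogGeneralType P O H w

theorem logGeneralType_empty {m' : ℕ} (P : Ideal (MvPolynomial (Fin (Nn + 1)) ℂ)) [P.IsPrime]
    {H : Fin m → MvPolynomial (Fin (Nn + 1)) ℂ} {H' : Fin m' → MvPolynomial (Fin (Nn + 1)) ℂ}
    {w : ℕ} (h : LogGeneralType P (∅ : Finset (Fin m)) H w) :
    LogGeneralType P (∅ : Finset (Fin m')) H' w := by
  have h1 : (OnForms P (∅ : Finset (Fin m)) H (w := w)) =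
      OnForms P (∅ : Finset (Fin m')) H' (w := w) := by
    funext E
    refine propext ⟨?_, ?_⟩
    · rintro ⟨j, -, -, i, hi, -⟩
      exact absurd hi (Finset.notMem_empty i)
    · rintro ⟨j, -, -, i, hi, -⟩
      exact absurd hi (Finset.notMem_empty i)
  unfold LogGeneralType at h ⊢
  rwa [← h1]

theorem coverLocus_empty {m' : ℕ} (P : Ideal (MvPolynomial (Fin (Nn + 1)) ℂ))
    (H : Fin m → MvPolynomial (Fin (Nn + 1)) ℂ) (H' : Fin m' → MvPolynomial (Fin (Nn + 1)) ℂ) :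
    coverLocus P (∅ : Finset (Fin m)) H = coverLocus P (∅ : Finset (Fin m')) H' := by
  ext x
  exact ⟨fun h => ⟨h.1, fun i hi => absurd hi (Finset.notMem_empty i)⟩,
    fun h => ⟨h.1, fun i hi => absurd hi (Finset.notMem_empty i)⟩⟩

/-- If no hypersurface is removed the forms `H` do not matter. -/
theorem FourProperties.empty {m' r : ℕ} {I : Ideal (MvPolynomial (Fin (Nn + 1)) ℂ)} [I.IsPrime]
    {H : Fin m → MvPolynomial (Fin (Nn + 1)) ℂ} {H' : Fin m' → MvPolynomial (Fin (Nn + 1)) ℂ}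
    {Ξ : Set (PN Nn)} (h : FourProperties I (∅ : Finset (Fin m)) H r Ξ) :
    FourProperties I (∅ : Finset (Fin m')) H' r Ξ := by
  have h0 := coverLocus_empty I H H'
  refine ⟨?_, ?_, logGeneralType_empty I h.logGeneralType, ?_, ?_, ?_⟩
  · rw [← h0]
    exact h.closed
  · rw [← h0]
    exact h.proper
  · rw [← h0]
    exact h.picard
  · rw [← h0]
    exact h.brody
  · intro P _ hP hIP _ hsub w hw hz
    refine logGeneralType_empty P (h.strongly P hP hIP
      (fun i hi => absurd hi (Finset.notMem_empty i)) ?_ w hw hz)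
    rwa [coverLocus_empty P H H']

/-! ### Points of varieties -/

/-- The Nullstellensatz for prime ideals. -/
theorem mem_of_forall (P : Ideal (MvPolynomial (Fin (Nn + 1)) ℂ)) [P.IsPrime]
    {Q : MvPolynomial (Fin (Nn + 1)) ℂ}
    (h : ∀ x : Fin (Nn + 1) → ℂ, (∀ R ∈ P, eval x R = 0) → eval x Q = 0) : Q ∈ P := by
  rw [← MvPolynomial.IsPrime.vanishingIdeal_zeroLocus (K := ℂ) P,
    MvPolynomial.mem_vanishingIdeal_iff]
  intro x hx
  rw [MvPolynomial.aeval_eq_eval]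
  refine h x fun R hR => ?_
  have h1 := hx R hR
  rwa [MvPolynomial.aeval_eq_eval] at h1

theorem exists_X_notMem (P : Ideal (MvPolynomial (Fin (Nn + 1)) ℂ)) [P.IsPrime] {w : ℕ}
    (hw : 1 ≤ w) (hz : ∃ z : Fin w → FunField P, IsTranscendenceBasis ℂ z) :
    ∃ i, (X i : MvPolynomial (Fin (Nn + 1)) ℂ) ∉ P := by
  obtain ⟨w, rfl⟩ : ∃ w', w = w' + 1 := ⟨w - 1, by omega⟩
  obtain ⟨z, hz⟩ := hz
  obtain ⟨j, hj⟩ := Pool.Agent.H92.GT.Proj.exists_coordFun_ne_zero P (k := w) z hz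
  refine ⟨j, fun hcon => hj ?_⟩
  have h1 := (Pool.Agent.H92.GT.Proj.aeval_coordFun_eq_zero_iff P (X j)).2 hcon
  rwa [aeval_X] at h1

/-- A point outside of a hypersurface. -/
theorem exists_point {P : Ideal (MvPolynomial (Fin (Nn + 1)) ℂ)} [P.IsPrime] {w : ℕ}
    (hw : 1 ≤ w) (hz : ∃ z : Fin w → FunField P, IsTranscendenceBasis ℂ z) {O : Finset (Fin m)}
    {H : Fin m → MvPolynomial (Fin (Nn + 1)) ℂ} {e : ℕ} (hH : ∀ i, (H i).IsHomogeneous e)
    (hO : ∀ i ∈ O, H i ∉ P) {Q : MvPolynomial (Fin (Nn + 1)) ℂ} {k : ℕ}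
    (hQ : Q.IsHomogeneous k) (hQP : Q ∉ P) : ∃ x ∈ coverLocus P O H, ¬ VanishesAt Q x := by
  classical
  obtain ⟨i, hi⟩ := exists_X_notMem P hw hz
  have hP : P.IsPrime := inferInstance
  have h1 : X i * Q * ∏ j ∈ O, H j ∉ P := by
    intro hcon
    rcases hP.mem_or_mem hcon with h2 | h2
    · rcases hP.mem_or_mem h2 with h3 | h3
      · exact hi h3
      · exact hQP h3
    · obtain ⟨j, hj, h3⟩ := (hP.prod_mem_iff).1 h2
      exact hO j hj h3
  have h2 : ∃ x : Fin (Nn + 1) → ℂ, (∀ R ∈ P, eval x R = 0) ∧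
      eval x (X i * Q * ∏ j ∈ O, H j) ≠ 0 := by
    by_contra hcon
    push Not at hcon
    exact h1 (mem_of_forall P hcon)
  obtain ⟨x, hx, hne⟩ := h2
  rw [map_mul, map_mul, eval_X, map_prod] at hne
  have hx0 : x ≠ 0 := by
    rintro rfl
    exact hne (by rw [Pi.zero_apply, zero_mul, zero_mul])
  refine ⟨Projectivization.mk ℂ x hx0, ⟨fun R hR k hk => ?_, fun j hj => ?_⟩, ?_⟩
  · rw [Pool.Agent.H17.vanishesAt_mk_iff hk]
    exact hx R hR
  · rw [Pool.Agent.H17.vanishesAt_mk_iff (hH j)]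
    exact (Finset.prod_ne_zero_iff.1 (right_ne_zero_of_mul hne)) j hj
  · rw [Pool.Agent.H17.vanishesAt_mk_iff hQ]
    exact right_ne_zero_of_mul (left_ne_zero_of_mul hne)

/-! ### The orbifold form -/

/-- Maps to `ℙ^r` which meet the hyperplanes `l j` with multiplicities at least `q`. -/
structure OrbifoldPart (q : ℕ) {r : ℕ} (l : Fin m → Fin (r + 1) → ℂ)
    (Δ : MvPolynomial (Fin (r + 1)) ℂ) : Prop where
  picard : ∀ f : ℂ → PN r, HolomorphicInto f puncturedDisc →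
    (∀ j, MeetsWithMult q (l j) f puncturedDisc) →
    (∃ z ∈ puncturedDisc, ¬ VanishesAt Δ (f z)) →
    ∃ g : ℂ → PN r, HolomorphicInto g (Metric.ball 0 1) ∧ ∀ z ∈ puncturedDisc, g z = f z
  brody : ∀ f : ℂ → PN r, HolomorphicInto f Set.univ →
    (∀ j, MeetsWithMult q (l j) f Set.univ) → (∃ z, ¬ VanishesAt Δ (f z)) → ∀ z w, f z = f w

/-- The statements on finite covers. -/
structure CoverPart {r : ℕ} (l : Fin m → Fin (r + 1) → ℂ) (Δ : MvPolynomial (Fin (r + 1)) ℂ)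
    (I : Ideal (MvPolynomial (Fin (Nn + 1)) ℂ)) (F : Fin (r + 1) → MvPolynomial (Fin (Nn + 1)) ℂ)
    (O : Finset (Fin m)) : Prop where
  picard : ∀ f : ℂ → PN Nn, HolomorphicInto f puncturedDisc →
    (∀ z ∈ puncturedDisc, f z ∈ coverLocus I O fun j => comb (l j) F) →
    (∃ z ∈ puncturedDisc, ¬ VanishesAt (aeval F Δ) (f z)) →
    ∃ g : ℂ → PN Nn, HolomorphicInto g (Metric.ball 0 1) ∧ ∀ z ∈ puncturedDisc, g z = f z
  brody : ∀ f : ℂ → PN Nn, HolomorphicInto f Set.univ →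
    (∀ z, f z ∈ coverLocus I O fun j => comb (l j) F) →
    (∃ z, ¬ VanishesAt (aeval F Δ) (f z)) → ∀ z w, f z = f w
  strongly : ∀ (P : Ideal (MvPolynomial (Fin (Nn + 1)) ℂ)) [P.IsPrime], Homog P → I ≤ P →
    (∀ i ∈ O, comb (l i) F ∉ P) → aeval F Δ ∉ P → ∀ w, 1 ≤ w →
      (∃ z : Fin w → FunField P, IsTranscendenceBasis ℂ z) →
      LogGeneralType P O (fun j => comb (l j) F) w

section

variable {r e : ℕ} {l : Fin m → Fin (r + 1) → ℂ} {Δ : MvPolynomial (Fin (r + 1)) ℂ} {k : ℕ}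
  {I : Ideal (MvPolynomial (Fin (Nn + 1)) ℂ)} {F : Fin (r + 1) → MvPolynomial (Fin (Nn + 1)) ℂ}
  {O : Finset (Fin m)}

/-- The exceptional set. -/
def excLocus (l : Fin m → Fin (r + 1) → ℂ) (Δ : MvPolynomial (Fin (r + 1)) ℂ)
    (I : Ideal (MvPolynomial (Fin (Nn + 1)) ℂ))
    (F : Fin (r + 1) → MvPolynomial (Fin (Nn + 1)) ℂ) (O : Finset (Fin m)) : Set (PN Nn) :=
  {x | x ∈ coverLocus I O (fun j => comb (l j) F) ∧ VanishesAt (aeval F Δ) x}

theorem excLocus_closed (hF : BaseFree I e F) (hk : Δ.IsHomogeneous k) :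
    ZariskiClosedIn (coverLocus I O fun j => comb (l j) F) (excLocus l Δ I F O) := by
  refine ⟨{aeval F Δ}, ?_, ?_⟩
  · intro P hP
    rw [Set.mem_singleton_iff] at hP
    subst hP
    exact ⟨e * k, hk.aeval _ hF.hom⟩
  · ext x
    simp [excLocus]

theorem excLocus_ne [I.IsPrime] (hF : BaseFree I e F) (hk : Δ.IsHomogeneous k)
    (hΔI : aeval F Δ ∉ I) (hO : ∀ j ∈ O, comb (l j) F ∉ I) {w : ℕ} (hw : 1 ≤ w)
    (hz : ∃ z : Fin w → FunField I, IsTranscendenceBasis ℂ z) :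
    excLocus l Δ I F O ≠ coverLocus I O fun j => comb (l j) F := by
  intro hcon
  obtain ⟨x, hx, hne⟩ := exists_point (H := fun j => comb (l j) F) (O := O) hw hz
    (fun j => comb_isHomogeneous (l j) hF.hom) hO (hk.aeval _ hF.hom) hΔI
  rw [← hcon] at hx
  exact hne hx.2

/-- **All four properties**, for covers which are not contained in the exceptional set. -/
theorem CoverPart.four [I.IsPrime] (h : CoverPart l Δ I F O) (hI : Homog I)
    (hF : BaseFree I e F) (hk : Δ.IsHomogeneous k) (hΔI : aeval F Δ ∉ I)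
    (hO : ∀ j ∈ O, comb (l j) F ∉ I) {w : ℕ} (hw : 1 ≤ w)
    (hz : ∃ z : Fin w → FunField I, IsTranscendenceBasis ℂ z) :
    FourProperties I O (fun j => comb (l j) F) w (excLocus l Δ I F O) where
  closed := excLocus_closed hF hk
  proper := excLocus_ne hF hk hΔI hO hw hz
  logGeneralType := h.strongly I hI le_rfl hO hΔI _ hw hz
  picard := by
    intro f hf hfX hne
    obtain ⟨z, hz1, hz2⟩ := hne
    exact h.picard f hf hfX ⟨z, hz1, fun hcon => hz2 ⟨hfX z hz1, hcon⟩⟩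
  brody := by
    intro f hf hfX hne z
    refine ⟨hfX z, ?_⟩
    by_contra hcon
    obtain ⟨a, b, hab⟩ := hne
    exact hab (h.brody f hf hfX ⟨z, hcon⟩ a b)
  strongly := by
    intro P _ hP hIP hOP hsub w hw hz'
    refine h.strongly P hP hIP hOP (fun hcon => hsub ?_) w hw hz'
    intro x hx
    exact ⟨⟨fun Q hQ => hx.1 Q (hIP hQ), hx.2⟩, hx.1 _ hcon (e * k) (hk.aeval _ hF.hom)⟩

end

/-- The theorem for the hyperplanes `l j` and the multiplicity `q`, with the exceptional form `Δ`: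
maps to `ℙ^r`, finite covers of closed subvarieties of `ℙ^r`, and the four properties for the
covers which are not contained in the exceptional set, in particular for those of dimension `r`. -/
structure HyperplaneTheorem (q : ℕ) {r : ℕ} (l : Fin m → Fin (r + 1) → ℂ)
    (Δ : MvPolynomial (Fin (r + 1)) ℂ) : Prop where
  orbifold : OrbifoldPart q l Δ
  covers : ∀ (N e : ℕ) (I : Ideal (MvPolynomial (Fin (N + 1)) ℂ)) [I.IsPrime]
    (F : Fin (r + 1) → MvPolynomial (Fin (N + 1)) ℂ) (O : Finset (Fin m)), Homog I →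
    BaseFree I e F → (∀ j ∈ O, comb (l j) F ∉ I) → (∀ j ∉ O, RamM q I (comb (l j) F)) →
    CoverPart l Δ I F O ∧ ∀ w, 1 ≤ w → (∃ z : Fin w → FunField I, IsTranscendenceBasis ℂ z) →
      (w = r → aeval F Δ ∉ I) ∧
      (aeval F Δ ∉ I → FourProperties I O (fun j => comb (l j) F) w (excLocus l Δ I F O))

theorem MeetsWithMult.of_le {r q q' : ℕ} (hq : q ≤ q') {l : Fin (r + 1) → ℂ} {f : ℂ → PN r}
    {U : Set ℂ} (h : MeetsWithMult q' l f U) : MeetsWithMult q l f U := by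
  intro s hs
  obtain ⟨φ, h1, h2, h3⟩ := h s hs
  exact ⟨φ, h1, h2, fun h0 => le_trans (by exact_mod_cast hq) (h3 h0)⟩

/-- Larger multiplicities. -/
theorem HyperplaneTheorem.of_le {q q' r : ℕ} (hq : q ≤ q') {l : Fin m → Fin (r + 1) → ℂ}
    {Δ : MvPolynomial (Fin (r + 1)) ℂ} (h : HyperplaneTheorem q l Δ) :
    HyperplaneTheorem q' l Δ where
  orbifold := ⟨fun f hf hm hne => h.orbifold.picard f hf (fun j => (hm j).of_le hq) hne,
    fun f hf hm hne => h.orbifold.brody f hf (fun j => (hm j).of_le hq) hne⟩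
  covers := fun N e I _ F O hI hF hO hram =>
    h.covers N e I F O hI hF hO fun j hj => (hram j hj).of_le hq

end Pool.Agent.H5.DG

end
end
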