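import Pool.Agent.H94.DG.M07
import Pool.Agent.H94.DG.M08
import Pool.Agent.H94.DG.M10
import Pool.Agent.H94.DG.M16
import Pool.Agent.H94.DG.M17
import Pool.Agent.H94.DG.M18

/-! The parts of this file: H39.HC.Interp, H39.HC.FormMat, H39.HC.GoodSharp, H39.HC.Spec, H5.DG3.AlgMero, H13.SM.Dim, H62.FC.CurveIdeal, H5.DG3.Curve. -/

section

/-!
# Restriction of forms that vanish at given points to a linear subspace
-/

open MvPolynomial

noncomputable section

namespace Pool.Agent.H39.HC

variable {ι : Type} {n : ℕ}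

private theorem Interp_lin (S : Submodule ℂ (Fin (n + 1) → ℂ)) [Finite ι]
    {t : ι → Fin (n + 1) → ℂ} (hS : ∀ j, t j ∉ S) :
    ∃ W : MvPolynomial (Fin (n + 1)) ℂ, W.IsHomogeneous 1 ∧ (∀ j, eval (t j) W ≠ 0) ∧
      ∀ s ∈ S, eval s W = 0 := by
  obtain ⟨f, hf⟩ := Module.exists_dual_forall_apply_ne_zero (K := ℂ)
    (fun j => S.mkQ (t j)) (fun j => by
      intro h0
      apply hS j
      rwa [Submodule.mkQ_apply, Submodule.Quotient.mk_eq_zero] at h0)
  let w : (Fin (n + 1) → ℂ) →ₗ[ℂ] ℂ := f.comp S.mkQ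
  have hw : ∀ x, w x = f (S.mkQ x) := fun x => rfl
  let W : MvPolynomial (Fin (n + 1)) ℂ :=
    ∑ i, C (w (fun j => if i = j then (1 : ℂ) else 0)) * X i
  have hW : ∀ x, eval x W = w x := by
    intro x
    rw [LinearMap.pi_apply_eq_sum_univ w x]
    simp only [W, map_sum, map_mul, eval_C, eval_X, smul_eq_mul]
    exact Finset.sum_congr rfl fun i _ => mul_comm _ _
  refine ⟨W, ?_, fun j => ?_, fun s hs => ?_⟩
  · refine IsHomogeneous.sum _ _ _ fun i _ => ?_
    have h1 := (isHomogeneous_C (Fin (n + 1)) (w (fun j => if i = j then (1 : ℂ) else 0))).mul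
      (isHomogeneous_X ℂ i)
    rwa [zero_add] at h1
  · rw [hW, hw]
    exact hf j
  · rw [hW, hw, Submodule.mkQ_apply, (Submodule.Quotient.mk_eq_zero S).2 hs, map_zero]

/-- **Key lemma.**  If the points `t j` impose independent conditions on forms of degree `e - 1` and
do not lie in the linear subspace `S`, then every form of degree `e` on `S` is the restriction of a
form of degree `e` that vanishes at all the points `t j`. -/
theorem exists_form_restrict [Finite ι] {e : ℕ} (he : 1 ≤ e) {t : ι → Fin (n + 1) → ℂ}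
    (hT : Indep (e - 1) t) (S : Submodule ℂ (Fin (n + 1) → ℂ)) (hS : ∀ j, t j ∉ S)
    {h : MvPolynomial (Fin (n + 1)) ℂ} (hh : h.IsHomogeneous e) :
    ∃ g : MvPolynomial (Fin (n + 1)) ℂ, g.IsHomogeneous e ∧ (∀ j, eval (t j) g = 0) ∧
      ∀ s ∈ S, eval s g = eval s h := by
  obtain ⟨W, hW1, hW2, hW3⟩ := Interp_lin S hS
  obtain ⟨a, ha1, ha2⟩ := hT fun j => eval (t j) h / eval (t j) W
  refine ⟨h - W * a, ?_, fun j => ?_, fun s hs => ?_⟩
  · have h1 := hW1.mul ha1
    have h2 : 1 + (e - 1) = e := by omega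
    rw [h2] at h1
    exact hh.sub h1
  · rw [map_sub, map_mul, ha2 j, mul_div_cancel₀ _ (hW2 j), sub_self]
  · rw [map_sub, map_mul, hW3 s hs, zero_mul, sub_zero]

end Pool.Agent.H39.HC

end
end

section

/-!
# The determinant of the coefficients of forms restricted to a linear subspace
-/

open MvPolynomial

noncomputable section

namespace Pool.Agent.H39.HC

/-- The coefficients of the restrictions of the forms `g β` to the subspace spanned by `p` vectors,
as polynomials in the coordinates of these vectors. -/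
def formMat {p e n : ℕ} (g : MI p e → MvPolynomial (Fin (n + 1)) ℂ) :
    Matrix (MI p e) (MI p e) (MvPolynomial (Fin p × Fin (n + 1)) ℂ) :=
  fun β β' => coeff β'.1 (aeval (fun i => (∑ l, C (X (l, i)) * X l :
    MvPolynomial (Fin p) (MvPolynomial (Fin p × Fin (n + 1)) ℂ))) (g β))

section
variable {R : Type*} [CommRing R] [Algebra ℂ R] {p n : ℕ}

/-- the polynomial in the parameters -/
private def FormMat_G (g : MvPolynomial (Fin (n + 1)) ℂ) (s : Fin p → Fin (n + 1) → R) :
    MvPolynomial (Fin p) R :=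
  aeval (fun i => ∑ l, C (s l i) * X l) g

private theorem FormMat_G_map {S : Type*} [CommRing S] [Algebra ℂ S] (φ : R →ₐ[ℂ] S)
    (g : MvPolynomial (Fin (n + 1)) ℂ) (s : Fin p → Fin (n + 1) → R) :
    MvPolynomial.map (φ : R →+* S) (FormMat_G g s) = FormMat_G g (fun i k => φ (s i k)) := by
  unfold FormMat_G
  have h1 : (mapAlgHom (σ := Fin p) φ) (aeval (fun k => ∑ i, C (s i k) * X i) g) =
      aeval (fun k => mapAlgHom φ (∑ i, C (s i k) * X i)) g := by
    rw [← AlgHom.comp_apply, comp_aeval]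
  have h2 : ∀ q : MvPolynomial (Fin p) R, MvPolynomial.map (φ : R →+* S) q = mapAlgHom φ q :=
    fun q => rfl
  rw [h2, h1]
  congr 1
  simp [map_sum]

private theorem FormMat_G_eval (g : MvPolynomial (Fin (n + 1)) ℂ) (s : Fin p → Fin (n + 1) → ℂ)
    (c : Fin p → ℂ) : eval c (FormMat_G g s) = eval (fun k => ∑ i, s i k * c i) g := by
  unfold FormMat_G
  have h1 : aeval c (aeval (fun k => ∑ i, (C (s i k) : MvPolynomial (Fin p) ℂ) * X i) g) =
      aeval (fun k => aeval c (∑ i, (C (s i k) : MvPolynomial (Fin p) ℂ) * X i)) g := by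
    rw [← AlgHom.comp_apply, comp_aeval]
  rw [← MvPolynomial.coe_aeval_eq_eval, RingHom.coe_coe, h1]
  simp [aeval_eq_eval]

private theorem FormMat_G_homog {g : MvPolynomial (Fin (n + 1)) ℂ} {e : ℕ}
    (hg : g.IsHomogeneous e) (s : Fin p → Fin (n + 1) → ℂ) :
    (FormMat_G g s).IsHomogeneous e := by
  unfold FormMat_G
  have := hg.aeval (g := fun k => ∑ i, C (s i k) * (X i : MvPolynomial (Fin p) ℂ)) (n := 1) (by
    intro k
    refine IsHomogeneous.sum _ _ _ fun i _ => ?_
    simpa using (isHomogeneous_C (Fin p) (s i k)).mul (isHomogeneous_X ℂ i))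
  rwa [one_mul] at this

/-- the matrix of the coefficients -/
private def FormMat_W {e : ℕ} (g : MI p e → MvPolynomial (Fin (n + 1)) ℂ)
    (s : Fin p → Fin (n + 1) → R) : Matrix (MI p e) (MI p e) R :=
  Matrix.of fun β β' => coeff (β' : Fin p →₀ ℕ) (FormMat_G (g β) s)

private theorem FormMat_W_map {S : Type*} [CommRing S] [Algebra ℂ S] (φ : R →ₐ[ℂ] S) {e : ℕ}
    (g : MI p e → MvPolynomial (Fin (n + 1)) ℂ) (s : Fin p → Fin (n + 1) → R) :
    φ (FormMat_W g s).det = (FormMat_W g (fun i k => φ (s i k))).det := by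
  rw [AlgHom.map_det]
  congr 1
  ext β β'
  simp only [FormMat_W, AlgHom.mapMatrix_apply, Matrix.map_apply, Matrix.of_apply]
  rw [← FormMat_G_map, coeff_map]
  rfl

private theorem FormMat_W_zero {e : ℕ} {g : MI p e → MvPolynomial (Fin (n + 1)) ℂ}
    (hg : ∀ β, (g β).IsHomogeneous e) (s : Fin p → Fin (n + 1) → ℂ) (c : Fin p → ℂ) (hc : c ≠ 0)
    (h : ∀ β, eval (fun k => ∑ i, s i k * c i) (g β) = 0) : (FormMat_W g s).det = 0 := by
  classical
  obtain ⟨i0, hi0⟩ : ∃ i, c i ≠ 0 := by
    by_contra hcon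
    push Not at hcon
    exact hc (funext hcon)
  rw [← Matrix.exists_mulVec_eq_zero_iff]
  refine ⟨fun β => ∏ i, c i ^ ((β : Fin p →₀ ℕ) i), ?_, ?_⟩
  · intro h0
    have h1 := congrFun h0 ⟨Finsupp.single i0 e, by
      rw [Finset.mem_finsuppAntidiag]
      simp⟩
    simp only [Pi.zero_apply] at h1
    rw [Finset.prod_eq_zero_iff] at h1
    obtain ⟨i, -, hi⟩ := h1
    by_cases hii : i = i0
    · subst hii
      exact absurd hi (pow_ne_zero _ hi0)
    · rw [Finsupp.single_eq_of_ne (by exact hii)] at hi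
      simp at hi
  · ext β
    have h1 := h β
    rw [← FormMat_G_eval, eval_eq'] at h1
    simp only [Matrix.mulVec, dotProduct, FormMat_W, Matrix.of_apply, Pi.zero_apply]
    rw [← h1]
    have h2 : ∑ x : MI p e, coeff (x : Fin p →₀ ℕ) (FormMat_G (g β) s) *
        ∏ i, c i ^ ((x : Fin p →₀ ℕ) i) =
        ∑ d ∈ (Finset.univ : Finset (Fin p)).finsuppAntidiag e,
          coeff d (FormMat_G (g β) s) * ∏ i, c i ^ (d i) :=
      Finset.sum_coe_sort ((Finset.univ : Finset (Fin p)).finsuppAntidiag e)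
        (fun d => coeff d (FormMat_G (g β) s) * ∏ i, c i ^ (d i))
    rw [h2]
    symm
    apply Finset.sum_subset
    · intro d hd
      rw [Finset.mem_finsuppAntidiag]
      have h3 := (FormMat_G_homog (hg β) s) (mem_support_iff.1 hd)
      rw [Finsupp.weight_apply] at h3
      constructor
      · rw [← h3, Finsupp.sum_fintype]
        · simp
        · simp
      · simp
    · intro d _ hd
      rw [notMem_support_iff.1 hd, zero_mul]

end

private theorem FormMat_ev {p e n : ℕ} (g : MI p e → MvPolynomial (Fin (n + 1)) ℂ)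
    (s : Fin p → Fin (n + 1) → ℂ) : ev s (formMat g).det = (FormMat_W g s).det := by
  have h1 : formMat g = FormMat_W g (fun l i => (X (l, i) :
      MvPolynomial (Fin p × Fin (n + 1)) ℂ)) := rfl
  rw [h1, FormMat_W_map]
  congr 2
  funext l i
  simp [ev]

/-- A change of the basis of the subspace. -/
theorem det_formMat_mul {p e n : ℕ} (hp : 1 ≤ p) {g : MI p e → MvPolynomial (Fin (n + 1)) ℂ}
    (hg : ∀ β, (g β).IsHomogeneous e) (A : Matrix (Fin p) (Fin p) ℂ)
    (s : Fin p → Fin (n + 1) → ℂ) :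
    ev (fun a i => ∑ b, A a b * s b i) (formMat g).det =
      A.det ^ (e + p - 1).choose p * ev s (formMat g).det := by
  rw [FormMat_ev, FormMat_ev]
  have hmul : FormMat_W g (fun a i => ∑ b, A a b * s b i) =
      FormMat_W g s * symMat e A.transpose := by
    ext β β'
    rw [Matrix.mul_apply]
    simp only [FormMat_W, Matrix.of_apply]
    rw [← coeff_subst (FormMat_G_homog (hg β) s) A.transpose β']
    congr 1
    refine MvPolynomial.funext fun c => ?_
    rw [FormMat_G_eval]
    have h1 : eval c (aeval (fun l => (∑ l', C (A.transpose l l') * X l' :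
        MvPolynomial (Fin p) ℂ)) (FormMat_G (g β) s)) =
        eval (fun l => ∑ l', A.transpose l l' * c l') (FormMat_G (g β) s) := by
      have h2 : aeval c (aeval (fun l => (∑ l', C (A.transpose l l') * X l' :
          MvPolynomial (Fin p) ℂ)) (FormMat_G (g β) s)) =
          aeval (fun l => aeval c (∑ l', C (A.transpose l l') * X l' :
            MvPolynomial (Fin p) ℂ)) (FormMat_G (g β) s) := by
        rw [← AlgHom.comp_apply, comp_aeval]
      rw [← MvPolynomial.coe_aeval_eq_eval, RingHom.coe_coe, h2]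
      simp [aeval_eq_eval]
    rw [h1, FormMat_G_eval]
    congr 1
    congr 1
    funext k
    simp only [Finset.sum_mul, Finset.mul_sum, Matrix.transpose_apply]
    rw [Finset.sum_comm]
    refine Finset.sum_congr rfl fun b _ => Finset.sum_congr rfl fun l _ => ?_
    ring
  rw [hmul, Matrix.det_mul, det_symMat hp, Matrix.det_transpose, mul_comm]

/-- The determinant vanishes if the forms have a common zero in the subspace. -/
theorem det_formMat_eq_zero {p e n : ℕ} (he : 1 ≤ e) {g : MI p e → MvPolynomial (Fin (n + 1)) ℂ}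
    (hg : ∀ β, (g β).IsHomogeneous e) {s : Fin p → Fin (n + 1) → ℂ} {t : Fin (n + 1) → ℂ}
    (ht0 : t ≠ 0) (ht : ∀ β, eval t (g β) = 0) (hts : t ∈ Submodule.span ℂ (Set.range s)) :
    ev s (formMat g).det = 0 := by
  rw [FormMat_ev]
  obtain ⟨c, hc⟩ := (Submodule.mem_span_range_iff_exists_fun ℂ).1 hts
  have hc0 : c ≠ 0 := by
    rintro rfl
    apply ht0
    rw [← hc]
    simp
  refine FormMat_W_zero hg s c hc0 fun β => ?_
  have h1 : (fun k => ∑ i, s i k * c i) = t := by
    rw [← hc]
    funext k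
    rw [Finset.sum_apply]
    exact Finset.sum_congr rfl fun i _ => by rw [Pi.smul_apply, smul_eq_mul, mul_comm]
  rw [h1]
  exact ht β

/-- There are forms vanishing at the points `t j` for which the determinant does not vanish. -/
theorem exists_det_formMat_ne_zero {ι : Type} [Finite ι] {p e n : ℕ} (hp : 1 ≤ p) (he : 1 ≤ e)
    {t : ι → Fin (n + 1) → ℂ} (hT : Indep (e - 1) t) {s : Fin p → Fin (n + 1) → ℂ}
    (hs : LinearIndependent ℂ s) (hts : ∀ j, t j ∉ Submodule.span ℂ (Set.range s)) :
    ∃ g : MI p e → MvPolynomial (Fin (n + 1)) ℂ, (∀ β, (g β).IsHomogeneous e) ∧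
      (∀ β j, eval (t j) (g β) = 0) ∧ ev s (formMat g).det ≠ 0 := by
  classical
  -- a left inverse
  obtain ⟨L, hL⟩ := LinearMap.exists_leftInverse_of_injective
    (Fintype.linearCombination ℂ s) (LinearMap.ker_eq_bot'.2 (fun c hc => by
      rw [Fintype.linearCombination_apply] at hc
      exact funext (Fintype.linearIndependent_iff.1 hs c hc)))
  have hL' : ∀ c : Fin p → ℂ, L (fun k => ∑ i, s i k * c i) = c := by
    intro c
    have h1 := LinearMap.congr_fun hL c
    rw [LinearMap.comp_apply, LinearMap.id_apply] at h1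
    have h2 : (fun k => ∑ i, s i k * c i) = Fintype.linearCombination ℂ s c := by
      funext k
      rw [Fintype.linearCombination_apply, Finset.sum_apply]
      exact Finset.sum_congr rfl fun i _ => by rw [Pi.smul_apply, smul_eq_mul, mul_comm]
    rw [h2]
    exact h1
  let lf : Fin p → MvPolynomial (Fin (n + 1)) ℂ := fun l =>
    ∑ k, C (L (fun j => if k = j then (1 : ℂ) else 0) l) * X k
  have hlf : ∀ l x, eval x (lf l) = L x l := by
    intro l x
    have h1 := LinearMap.pi_apply_eq_sum_univ L x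
    rw [h1, Finset.sum_apply]
    simp only [lf, map_sum, map_mul, eval_C, eval_X, Pi.smul_apply, smul_eq_mul]
    exact Finset.sum_congr rfl fun i _ => mul_comm _ _
  let hf : MI p e → MvPolynomial (Fin (n + 1)) ℂ := fun β =>
    ∏ l, (lf l) ^ ((β : Fin p →₀ ℕ) l)
  have hfh : ∀ β, (hf β).IsHomogeneous e := by
    intro β
    have h1 := IsHomogeneous.prod Finset.univ
      (fun l => (lf l) ^ ((β : Fin p →₀ ℕ) l))
      (fun l => 1 * ((β : Fin p →₀ ℕ) l)) (by
        intro i _
        refine IsHomogeneous.pow ?_ _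
        refine IsHomogeneous.sum _ _ _ fun k _ => ?_
        simpa using (isHomogeneous_C (Fin (n + 1)) (L (fun j => if k = j then (1 : ℂ) else 0)
          i)).mul (isHomogeneous_X ℂ k))
    have h2 := (Finset.mem_finsuppAntidiag.1 β.2).1
    simp only [one_mul] at h1
    rw [h2] at h1
    exact h1
  choose g hg1 hg2 hg3 using fun β =>
    exists_form_restrict he hT (Submodule.span ℂ (Set.range s)) hts (hfh β)
  refine ⟨g, hg1, hg2, ?_⟩
  rw [FormMat_ev]
  have h1 : FormMat_W g s = 1 := by
    ext β β'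
    simp only [FormMat_W, Matrix.of_apply]
    have h2 : FormMat_G (g β) s = monomial (β : Fin p →₀ ℕ) 1 := by
      refine MvPolynomial.funext fun c => ?_
      rw [FormMat_G_eval, hg3]
      · rw [eval_monomial, one_mul, Finsupp.prod_fintype _ _ (by simp)]
        simp only [hf, map_prod, map_pow]
        refine Finset.prod_congr rfl fun i _ => ?_
        rw [hlf, hL']
      · rw [Submodule.mem_span_range_iff_exists_fun]
        refine ⟨c, ?_⟩
        funext k
        rw [Finset.sum_apply]
        exact Finset.sum_congr rfl fun i _ => by rw [Pi.smul_apply, smul_eq_mul, mul_comm]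
    rw [h2, coeff_monomial, Matrix.one_apply]
    simp only [Subtype.ext_iff]
  rw [h1, Matrix.det_one]
  exact one_ne_zero

end Pool.Agent.H39.HC

end
end

section

/-!
# Existence of good polynomials
-/

open MvPolynomial

noncomputable section

namespace Pool.Agent.H39.HC

variable {ι : Type} {n : ℕ}

section
variable {R : Type*} [CommRing R] {r p : ℕ}

/-- the determinant of the vectors `v b` and the variable vectors -/
private def GoodSharp_d (E : Fin r ⊕ Fin p ≃ Fin (n + 1)) (v : Fin r → Fin (n + 1) → R) :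
    MvPolynomial (Fin p × Fin (n + 1)) R :=
  (Matrix.of (Sum.elim (fun b j => C (v b (E j))) (fun l j => X (l, E j))) :
    Matrix (Fin r ⊕ Fin p) (Fin r ⊕ Fin p) (MvPolynomial (Fin p × Fin (n + 1)) R)).det

private theorem GoodSharp_d_map {S : Type*} [CommRing S] (φ : R →+* S)
    (E : Fin r ⊕ Fin p ≃ Fin (n + 1)) (v : Fin r → Fin (n + 1) → R) :
    MvPolynomial.map φ (GoodSharp_d E v) = GoodSharp_d E (fun b j => φ (v b j)) := by
  unfold GoodSharp_d
  rw [RingHom.map_det]
  congr 1
  ext x y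
  rcases x with x | x <;> simp

private theorem GoodSharp_pair_map [Algebra ℂ R] {S σ : Type*} [CommRing S] [Algebra ℂ S]
    (φ : R →ₐ[ℂ] S) (G : MvPolynomial σ R) (f : MvPolynomial σ ℂ) :
    φ (pair G f) = pair (MvPolynomial.map (φ : R →+* S) G) f := by
  unfold pair
  rw [map_sum]
  refine Finset.sum_congr rfl fun α _ => ?_
  rw [map_smul, coeff_map]
  rfl

private theorem GoodSharp_pair_C [Algebra ℂ R] {σ : Type*} (d : R) (G : MvPolynomial σ R)
    (f : MvPolynomial σ ℂ) : pair (C d * G) f = d * pair G f := by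
  unfold pair
  rw [Finset.mul_sum]
  refine Finset.sum_congr rfl fun α _ => ?_
  rw [coeff_C_mul, mul_smul_comm]

private theorem GoodSharp_pair_zero [Algebra ℂ R] {σ : Type*} (f : MvPolynomial σ ℂ) :
    pair (0 : MvPolynomial σ R) f = 0 := by
  unfold pair
  simp

private theorem GoodSharp_d_det (E : Fin r ⊕ Fin p ≃ Fin (n + 1))
    (A : Matrix (Fin r) (Fin r) R) (v : Fin r → Fin (n + 1) → R) :
    GoodSharp_d E (fun b j => ∑ c, A b c * v c j) = C A.det * GoodSharp_d E v := by
  unfold GoodSharp_d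
  have h1 : (Matrix.of (Sum.elim (fun b j => C ((fun b j => ∑ c, A b c * v c j) b (E j)))
      (fun l j => X (l, E j))) :
      Matrix (Fin r ⊕ Fin p) (Fin r ⊕ Fin p) (MvPolynomial (Fin p × Fin (n + 1)) R)) =
      Matrix.fromBlocks (A.map C) 0 0 1 *
        Matrix.of (Sum.elim (fun b j => C (v b (E j))) (fun l j => X (l, E j))) := by
    ext1 x j
    rw [Matrix.mul_apply, Fintype.sum_sum_type]
    rcases x with x | x
    · simp
    · simp [Matrix.one_apply]
  rw [h1, Matrix.det_mul, Matrix.det_fromBlocks_zero₂₁, Matrix.det_one, mul_one]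
  congr 1
  rw [RingHom.map_det]
  rfl

end

/-- a basis of the orthogonal space -/
private theorem GoodSharp_frame {r p : ℕ} (E : Fin r ⊕ Fin p ≃ Fin (n + 1))
    {u : Fin r → Fin (n + 1) → ℂ} (hu : LinearIndependent ℂ u) :
    ∃ (s : Fin p → Fin (n + 1) → ℂ) (d : ℂ), d ≠ 0 ∧ LinearIndependent ℂ s ∧
      (∀ b l, ∑ k, u b k * s l k = 0) ∧
      (∀ t : Fin (n + 1) → ℂ, (∀ b, ∑ k, u b k * t k = 0) → t ∈ Submodule.span ℂ (Set.range s)) ∧
      C d * GoodSharp_d E u = Matrix.det fun a b => (∑ i, C (s b i) * X (a, i) :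
          MvPolynomial (Fin p × Fin (n + 1)) ℂ) := by
  classical
  set b := Module.Basis.sumExtend hu with hb
  have hbl : ∀ i, b (Sum.inl i) = u i := by
    intro i
    rw [hb]
    unfold Module.Basis.sumExtend
    simp only [Module.Basis.reindex_apply, Module.Basis.extend_apply_self]
    rfl
  have : Finite (Fin r ⊕ Module.Basis.sumExtendIndex hu) := Module.Finite.finite_basis b
  have : Finite (Module.Basis.sumExtendIndex hu) := Finite.of_injective _ (Sum.inr_injective (α := Fin r))
  have := Fintype.ofFinite (Module.Basis.sumExtendIndex hu)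
  have hcard : Fintype.card (Module.Basis.sumExtendIndex hu) = p := by
    have h1 := Module.finrank_eq_card_basis b
    have h2 := Fintype.card_congr E
    simp only [Fintype.card_sum, Fintype.card_fin, Module.finrank_fintype_fun_eq_card] at h1 h2
    omega
  let f : Fin p ≃ Module.Basis.sumExtendIndex hu := (Fintype.equivFinOfCardEq hcard).symm
  let b2 := b.reindex (Equiv.sumCongr (Equiv.refl _) f).symm
  obtain ⟨M, hM⟩ : ∃ M : Matrix (Fin r ⊕ Fin p) (Fin r ⊕ Fin p) ℂ,
      M = Matrix.of fun x j => b2 x (E j) := ⟨_, rfl⟩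
  have hMl : ∀ x j, M (Sum.inl x) j = u x (E j) := by
    intro x j
    rw [hM]
    simp [b2, hbl]
  have hdet : M.det ≠ 0 := by
    have h3 : LinearIndependent ℂ (Matrix.of fun x j => b2 x (E j)).row := by
      have h4 := b2.linearIndependent.map' (LinearEquiv.funCongrLeft ℂ ℂ E).toLinearMap
        (LinearEquiv.ker _)
      exact h4
    have h5 := Matrix.linearIndependent_rows_iff_isUnit.1 h3
    rw [hM]
    exact ((Matrix.isUnit_iff_isUnit_det _).1 h5).ne_zero
  obtain ⟨N, hN⟩ : ∃ N, N = M⁻¹ := ⟨_, rfl⟩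
  have hMN : M * N = 1 := by
    rw [hN]
    exact Matrix.mul_nonsing_inv _ (isUnit_iff_ne_zero.2 hdet)
  have hNM : N * M = 1 := by
    rw [hN]
    exact Matrix.nonsing_inv_mul _ (isUnit_iff_ne_zero.2 hdet)
  have hNdet : N.det ≠ 0 := by
    intro h0
    have := congrArg Matrix.det hMN
    rw [Matrix.det_mul, h0, mul_zero, Matrix.det_one] at this
    exact zero_ne_one this
  have hsum : ∀ (g : Fin (n + 1) → ℂ), ∑ k, g k = ∑ j, g (E j) := fun g =>
    (Equiv.sum_comp E g).symm
  refine ⟨fun l k => N (E.symm k) (Sum.inr l), N.det, hNdet, ?_, ?_, ?_, ?_⟩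
  · rw [Fintype.linearIndependent_iff]
    intro c hc l
    have h1 : N.mulVec (Sum.elim 0 c) = 0 := by
      funext x
      have h2 := congrFun hc (E x)
      rw [Finset.sum_apply] at h2
      simp only [Pi.smul_apply, smul_eq_mul, Equiv.symm_apply_apply, Pi.zero_apply] at h2
      simp only [Matrix.mulVec, dotProduct, Fintype.sum_sum_type, Sum.elim_inl, Sum.elim_inr,
        Pi.zero_apply, mul_zero, Finset.sum_const_zero, zero_add]
      rw [← h2]
      exact Finset.sum_congr rfl fun i _ => mul_comm _ _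
    have h2 : M.mulVec (N.mulVec (Sum.elim 0 c)) = Sum.elim (0 : Fin r → ℂ) c := by
      rw [Matrix.mulVec_mulVec, hMN, Matrix.one_mulVec]
    rw [h1, Matrix.mulVec_zero] at h2
    have := congrFun h2 (Sum.inr l)
    simpa using this.symm
  · intro x l
    have h1 := congrFun (congrFun hMN (Sum.inl x)) (Sum.inr l)
    rw [Matrix.mul_apply] at h1
    rw [hsum]
    simp only [Equiv.symm_apply_apply, ← hMl]
    rw [h1]
    simp
  · intro t ht
    rw [Submodule.mem_span_range_iff_exists_fun]
    refine ⟨fun l => M.mulVec (fun j => t (E j)) (Sum.inr l), ?_⟩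
    funext k
    have h1 : N.mulVec (M.mulVec (fun j => t (E j))) = fun j => t (E j) := by
      rw [Matrix.mulVec_mulVec, hNM, Matrix.one_mulVec]
    have h2 := congrFun h1 (E.symm k)
    simp only [Equiv.apply_symm_apply] at h2
    rw [← h2, Finset.sum_apply]
    conv_rhs => rw [Matrix.mulVec, dotProduct, Fintype.sum_sum_type]
    have h3 : ∀ x, M.mulVec (fun j => t (E j)) (Sum.inl x) = 0 := by
      intro x
      rw [← ht x, hsum]
      simp only [Matrix.mulVec, dotProduct, hMl]
    simp only [h3, mul_zero, Finset.sum_const_zero, zero_add, Pi.smul_apply, smul_eq_mul]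
    exact Finset.sum_congr rfl fun i _ => mul_comm _ _
  · unfold GoodSharp_d
    have h1 : (Matrix.of (Sum.elim (fun b j => C (u b (E j))) (fun l j => X (l, E j))) :
        Matrix (Fin r ⊕ Fin p) (Fin r ⊕ Fin p) (MvPolynomial (Fin p × Fin (n + 1)) ℂ)) *
        N.map C = Matrix.fromBlocks 1 0
          (fun l b => ∑ j, X (l, E j) * C (N j (Sum.inl b)))
          (fun a b => ∑ i, C (N (E.symm i) (Sum.inr b)) * X (a, i)) := by
      ext1 x y
      rw [Matrix.mul_apply]
      rcases x with x | x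
      · have h2 : ∀ j, (Matrix.of (Sum.elim (fun b j => C (u b (E j))) (fun l j => X (l, E j))) :
            Matrix (Fin r ⊕ Fin p) (Fin r ⊕ Fin p) (MvPolynomial (Fin p × Fin (n + 1)) ℂ))
            (Sum.inl x) j * N.map C j y = C (M (Sum.inl x) j * N j y) := by
          intro j
          simp [hMl]
        rw [Finset.sum_congr rfl fun j _ => h2 j, ← map_sum, ← Matrix.mul_apply, hMN]
        rcases y with y | y
        · simp only [Matrix.fromBlocks_apply₁₁, Matrix.one_apply, Sum.inl.injEq]
          split_ifs <;> simp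
        · simp
      · rcases y with y | y
        · simp
        · simp only [Matrix.fromBlocks_apply₂₂, Matrix.of_apply, Sum.elim_inr, Matrix.map_apply]
          rw [← Equiv.sum_comp E (fun i => C (N (E.symm i) (Sum.inr y)) *
            (X (x, i) : MvPolynomial (Fin p × Fin (n + 1)) ℂ))]
          refine Finset.sum_congr rfl fun j _ => ?_
          rw [Equiv.symm_apply_apply, mul_comm]
    have h2 := congrArg Matrix.det h1
    rw [Matrix.det_mul, Matrix.det_fromBlocks_zero₁₂, Matrix.det_one, one_mul] at h2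
    rw [← h2, mul_comm]
    congr 1
    rw [RingHom.map_det]
    rfl

/-- dependent vectors -/
private theorem GoodSharp_dep {r p : ℕ} (E : Fin r ⊕ Fin p ≃ Fin (n + 1))
    {v : Fin r → Fin (n + 1) → ℂ} (hv : ¬ LinearIndependent ℂ v) : GoodSharp_d E v = 0 := by
  classical
  obtain ⟨c, hc, i, hi⟩ := Fintype.not_linearIndependent_iff.1 hv
  unfold GoodSharp_d
  rw [← Matrix.exists_vecMul_eq_zero_iff]
  refine ⟨Sum.elim (fun b => C (c b)) 0, ?_, ?_⟩
  · intro h0
    have := congrFun h0 (Sum.inl i)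
    simp only [Sum.elim_inl, Pi.zero_apply, C_eq_zero] at this
    exact hi this
  · funext j
    have h1 := congrFun hc (E j)
    rw [Finset.sum_apply] at h1
    simp only [Pi.smul_apply, smul_eq_mul, Pi.zero_apply] at h1
    simp only [Matrix.vecMul, dotProduct, Fintype.sum_sum_type, Sum.elim_inl, Sum.elim_inr,
      Pi.zero_apply, zero_mul, Finset.sum_const_zero, add_zero, Matrix.of_apply]
    rw [← C_0, ← h1, map_sum]
    exact Finset.sum_congr rfl fun b _ => by rw [C_mul]

/-- The determinant is a good polynomial in `n + 1` vectors. -/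
private theorem GoodSharp_top {t : ι → Fin (n + 1) → ℂ} (ht : ∀ j, t j ≠ 0)
    {u : Fin (n + 1) → Fin (n + 1) → ℂ} (hu : LinearIndependent ℂ u) :
    ∃ Q : MvPolynomial (Fin (n + 1) × Fin (n + 1)) ℂ, Good t 1 Q ∧ ev u Q ≠ 0 := by
  classical
  have hev : ∀ v : Fin (n + 1) → Fin (n + 1) → ℂ,
      ev v (Matrix.of fun a i => (X (a, i) : MvPolynomial (Fin (n + 1) × Fin (n + 1)) ℂ)).det =
        (Matrix.of v).det := by
    intro v
    rw [AlgHom.map_det]
    congr 1
    ext a i
    simp [ev]
  refine ⟨(Matrix.of fun a i => X (a, i)).det, ⟨?_, ?_⟩, ?_⟩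
  · intro A v
    rw [hev, hev, pow_one, ← Matrix.det_mul]
    congr 1
  · intro j v hv
    rw [hev, ← Matrix.exists_mulVec_eq_zero_iff]
    refine ⟨t j, ht j, ?_⟩
    ext a
    have := hv a
    unfold lin at this
    simp only [Matrix.mulVec, dotProduct, Matrix.of_apply, Pi.zero_apply]
    rw [← this]
    exact Finset.sum_congr rfl fun k _ => by rw [smul_eq_mul, mul_comm]
  · rw [hev]
    have h5 := Matrix.linearIndependent_rows_iff_isUnit.1 (show LinearIndependent ℂ (Matrix.of u).row from hu)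
    exact ((Matrix.isUnit_iff_isUnit_det _).1 h5).ne_zero

/-- Good polynomials in `r` vectors, of the sharp weight, that do not vanish at given vectors. -/
theorem exists_good_sharp [Finite ι] {r e : ℕ} (hr1 : 1 ≤ r) (hr : r ≤ n + 1) (he : 1 ≤ e)
    {t : ι → Fin (n + 1) → ℂ} (ht : ∀ j, t j ≠ 0) (hT : Indep (e - 1) t)
    {u : Fin r → Fin (n + 1) → ℂ} (hu : LinearIndependent ℂ u)
    (hH : ∀ j, ∃ a, lin (t j) (u a) ≠ 0) :
    ∃ Q : MvPolynomial (Fin r × Fin (n + 1)) ℂ, Good t (wtK n e r) Q ∧ ev u Q ≠ 0 := by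
  classical
  rcases Nat.lt_or_ge r (n + 1) with hrn | hrn
  swap
  · obtain rfl : r = n + 1 := le_antisymm hr hrn
    have hw : wtK n e (n + 1) = 1 := by
      unfold wtK
      simp
    rw [hw]
    exact GoodSharp_top ht hu
  obtain ⟨p, hp⟩ : ∃ p, p = n + 1 - r := ⟨_, rfl⟩
  have hp1 : 1 ≤ p := by omega
  obtain ⟨K, hK⟩ : ∃ K, K = (e + p - 1).choose p := ⟨_, rfl⟩
  have hK1 : 1 ≤ K := by
    rw [hK]
    exact Nat.choose_pos (by omega)
  have hw : wtK n e r = K := by
    unfold wtK
    rw [hK, hp]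
    congr 1
    omega
  rw [hw]
  let E : Fin r ⊕ Fin p ≃ Fin (n + 1) := finSumFinEquiv.trans (finCongr (by omega))
  have hlin : ∀ (v x : Fin (n + 1) → ℂ), lin v x = ∑ k, x k * v k := by
    intro v x
    unfold lin
    exact Finset.sum_congr rfl fun k _ => by rw [smul_eq_mul, mul_comm]
  obtain ⟨s, d, hd, hs, hus, -, hds⟩ := GoodSharp_frame E hu
  have hts : ∀ j, t j ∉ Submodule.span ℂ (Set.range s) := by
    intro j hj
    obtain ⟨b, hb⟩ := hH j
    apply hb
    obtain ⟨c, hc⟩ := (Submodule.mem_span_range_iff_exists_fun ℂ).1 hj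
    rw [hlin, ← hc]
    have h1 : ∑ k, u b k * (∑ l, c l • s l) k = ∑ l, c l * ∑ k, u b k * s l k := by
      simp only [Finset.sum_apply, Pi.smul_apply, smul_eq_mul, Finset.mul_sum]
      rw [Finset.sum_comm]
      refine Finset.sum_congr rfl fun l _ => Finset.sum_congr rfl fun k _ => ?_
      ring
    rw [h1]
    exact Finset.sum_eq_zero fun l _ => by rw [hus, mul_zero]
  obtain ⟨g, hg1, hg2, hg3⟩ := exists_det_formMat_ne_zero hp1 he hT hs hts
  obtain ⟨c, hc0, hc⟩ := exists_pairing (p := p) (q := n + 1) K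
  have hcf := hc (formMat g).det (fun A s' => by
    rw [hK]
    exact det_formMat_mul hp1 hg1 A s')
  -- the pairing with the determinant of a frame
  have key : ∀ (v : Fin r → Fin (n + 1) → ℂ) (s' : Fin p → Fin (n + 1) → ℂ) (d' : ℂ),
      C d' * GoodSharp_d E v = (Matrix.det fun a b => (∑ i, C (s' b i) * X (a, i) :
          MvPolynomial (Fin p × Fin (n + 1)) ℂ)) →
      d' ^ K * pair (GoodSharp_d E v ^ K) (formMat g).det =
        c * ev s' (formMat g).det := by
    intro v s' d' h
    rw [← GoodSharp_pair_C, C_pow, ← mul_pow, h]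
    exact hcf s'
  have hev : ∀ v : Fin r → Fin (n + 1) → ℂ,
      ev v (pair (GoodSharp_d E (fun b j => (X (b, j) : MvPolynomial (Fin r × Fin (n + 1)) ℂ)) ^ K)
        (formMat g).det) = pair (GoodSharp_d E v ^ K) (formMat g).det := by
    intro v
    rw [GoodSharp_pair_map, map_pow, GoodSharp_d_map]
    congr 3
    funext b j
    simp [ev]
  refine ⟨pair (GoodSharp_d E (fun b j => X (b, j)) ^ K) (formMat g).det, ⟨?_, ?_⟩, ?_⟩
  · intro A v
    rw [hev, hev, GoodSharp_d_det, mul_pow, ← C_pow, GoodSharp_pair_C]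
  · intro j v hv
    rw [hev]
    by_cases hvi : LinearIndependent ℂ v
    · obtain ⟨s', d', hd', hs', -, hsp, hds'⟩ := GoodSharp_frame E hvi
      have h1 := key v s' d' hds'
      rw [det_formMat_eq_zero he hg1 (ht j) (fun β => hg2 β j)
        (hsp (t j) fun b => by rw [← hlin]; exact hv b), mul_zero] at h1
      exact (mul_eq_zero.1 h1).resolve_left (pow_ne_zero _ hd')
    · rw [GoodSharp_dep E hvi, zero_pow (by omega), GoodSharp_pair_zero]
  · rw [hev]
    intro h0
    have h1 := key u s d hds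
    rw [h0, mul_zero] at h1
    exact mul_ne_zero hc0 hg3 h1.symm

end Pool.Agent.H39.HC

end
end

section

/-!
# Good polynomials that do not vanish at vectors over an extension field
-/

open MvPolynomial

noncomputable section

namespace Pool.Agent.H39.HC

variable {ι : Type} {n : ℕ}

/-- an `r × r` minor of a matrix with independent rows is not zero -/
private theorem Spec_minor {L : Type} [Field L] {r m : ℕ} {u : Fin r → Fin m → L}
    (hu : LinearIndependent L u) :
    ∃ c : Fin r → Fin m, Matrix.det (Matrix.of fun a b => u a (c b)) ≠ 0 := by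
  let M : Matrix (Fin r) (Fin m) L := Matrix.of u
  have hrank : M.rank = r := by
    have h1 : LinearIndependent L M.row := hu
    rw [h1.rank_matrix, Fintype.card_fin]
  rw [Matrix.rank_eq_finrank_span_cols] at hrank
  obtain ⟨κ, a, ha, hsp, hli⟩ := exists_linearIndependent' L M.col
  haveI : Finite κ := Finite.of_injective a ha
  haveI : Fintype κ := Fintype.ofFinite κ
  have hcard : Fintype.card κ = r := by
    have h1 := finrank_span_eq_card hli
    rw [hsp, hrank] at h1
    exact h1.symm
  let e : Fin r ≃ κ := (Fintype.equivFinOfCardEq hcard).symm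
  refine ⟨fun b => a (e b), ?_⟩
  have hli2 : LinearIndependent L (fun b : Fin r => M.col (a (e b))) :=
    hli.comp e e.injective
  let A : Matrix (Fin r) (Fin r) L := Matrix.of fun x b => u x (a (e b))
  have h3 : LinearIndependent L A.col := hli2
  have h4 : IsUnit A := Matrix.linearIndependent_cols_iff_isUnit.1 h3
  have h5 : IsUnit A.det := (Matrix.isUnit_iff_isUnit_det A).1 h4
  exact h5.ne_zero

private theorem Spec_ev_lin {L : Type} [CommRing L] [Algebra ℂ L] {r : ℕ} (v : Fin (n + 1) → ℂ)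
    (u : Fin r → Fin (n + 1) → L) (a : Fin r) : ev u (linX v a) = lin v (u a) := by
  unfold ev linX lin
  rw [map_sum]
  refine Finset.sum_congr rfl fun i _ => ?_
  rw [map_mul, aeval_X, algHom_C, Algebra.smul_def]

private theorem Spec_ev_det {L : Type} [CommRing L] [Algebra ℂ L] {r : ℕ}
    (u : Fin r → Fin (n + 1) → L) (c : Fin r → Fin (n + 1)) :
    ev u (Matrix.det (Matrix.of fun a b => (X (a, c b) : MvPolynomial (Fin r × Fin (n + 1)) ℂ))) =
      Matrix.det (Matrix.of fun a b => u a (c b)) := by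
  rw [AlgHom.map_det]
  congr 1
  ext a b
  simp only [AlgHom.mapMatrix_apply, Matrix.map_apply, Matrix.of_apply, ev, aeval_X]

/-- Good polynomials that do not vanish at given vectors over an extension field of `ℂ`. -/
theorem exists_good_field [Finite ι] {r e : ℕ} (hr1 : 1 ≤ r) (hr : r ≤ n + 1) (he : 1 ≤ e)
    {t : ι → Fin (n + 1) → ℂ} (ht : ∀ j, t j ≠ 0) (hT : Indep (e - 1) t) {L : Type} [Field L]
    [Algebra ℂ L] {u : Fin r → Fin (n + 1) → L} (hu : LinearIndependent L u)
    (hH : ∀ j, ∃ a, lin (t j) (u a) ≠ 0) :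
    ∃ Q : MvPolynomial (Fin r × Fin (n + 1)) ℂ, Good t (wtK n e r) Q ∧ ev u Q ≠ 0 := by
  classical
  haveI : Fintype ι := Fintype.ofFinite ι
  obtain ⟨c, hc⟩ := Spec_minor hu
  choose a ha using hH
  let h : MvPolynomial (Fin r × Fin (n + 1)) ℂ :=
    Matrix.det (Matrix.of fun a b => X (a, c b)) * ∏ j, linX (t j) (a j)
  have hev : ∀ {L' : Type} [Field L'] [Algebra ℂ L'] (w : Fin r → Fin (n + 1) → L'),
      ev w h = Matrix.det (Matrix.of fun a b => w a (c b)) * ∏ j, lin (t j) (w (a j)) := by
    intro L' _ _ w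
    simp only [h]
    rw [map_mul, map_prod, Spec_ev_det]
    congr 1
    exact Finset.prod_congr rfl fun j _ => Spec_ev_lin _ _ _
  have hne : ev u h ≠ 0 := by
    rw [hev]
    exact mul_ne_zero hc (Finset.prod_ne_zero_iff.2 fun j _ => ha j)
  let I : Ideal (MvPolynomial (Fin r × Fin (n + 1)) ℂ) := RingHom.ker (ev u)
  haveI : I.IsPrime := RingHom.ker_isPrime (ev u)
  have hI : h ∉ vanishingIdeal ℂ (zeroLocus ℂ I) := by
    rw [IsPrime.vanishingIdeal_zeroLocus]
    exact hne
  rw [mem_vanishingIdeal_iff] at hI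
  push Not at hI
  obtain ⟨x, hx, hxh⟩ := hI
  let w : Fin r → Fin (n + 1) → ℂ := fun a i => x (a, i)
  have hwx : ∀ Q, ev w Q = aeval x Q := fun Q => rfl
  rw [← hwx, hev] at hxh
  have hdet : Matrix.det (Matrix.of fun a b => w a (c b)) ≠ 0 := left_ne_zero_of_mul hxh
  have hprod := right_ne_zero_of_mul hxh
  rw [Finset.prod_ne_zero_iff] at hprod
  have hwH : ∀ j, ∃ a, lin (t j) (w a) ≠ 0 := fun j => ⟨a j, hprod j (Finset.mem_univ j)⟩
  have hw : LinearIndependent ℂ w := by
    have h1 := Matrix.linearIndependent_rows_of_det_ne_zero hdet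
    rw [Fintype.linearIndependent_iff] at h1 ⊢
    intro g hg
    refine h1 g ?_
    funext b
    have h2 := congrFun hg (c b)
    simp only [Finset.sum_apply, Pi.smul_apply, Pi.zero_apply, smul_eq_mul] at h2 ⊢
    exact h2
  have hfin : ∀ Q : MvPolynomial (Fin r × Fin (n + 1)) ℂ, ev w Q ≠ 0 → ev u Q ≠ 0 := by
    intro Q hQ h0
    exact hQ (hx Q h0)
  obtain ⟨Q, hQ1, hQ2⟩ := exists_good_sharp hr1 hr he ht hT hw hwH
  exact ⟨Q, hQ1, hfin Q hQ2⟩

end Pool.Agent.H39.HC

end
end

section

/-!
# Project DG3, module AlgMero: algebraic functions of meromorphic functions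

`g j = c j / c s` are meromorphic at `0` (`PunctMero.mul`, `PunctMero.inv`) and
`h ^ s + ∑_{j < s} g j h ^ j = 0`, so `‖h‖ ≤ ∑_{j ≤ s} ‖g j‖` near all points;
`punctMero_of_bound` (module CovBd) with the functions `g j`.  `s = 0`: then `c 0 = 0` near all
points, a contradiction to `hcs`.
-/

open Filter Topology
open Pool.Agent.H62.FC (PunctMero)
open Pool.Agent.H17 (puncturedDisc)

noncomputable section

namespace Pool.Agent.H5.DG3

private theorem norm_le_of_monic_relation {s : ℕ} (hs : 0 < s) {g : ℕ → ℂ} {x : ℂ} (hgs : g s = 1)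
    (h : ∑ j ∈ Finset.range (s + 1), g j * x ^ j = 0) :
    ‖x‖ ≤ ∑ j : Fin (s + 1), ‖g j‖ := by
  rw [Fin.sum_univ_eq_sum_range (fun j => ‖g j‖) (s + 1), Finset.sum_range_succ]
  rw [Finset.sum_range_succ] at h
  have hnn : 0 ≤ ∑ j ∈ Finset.range s, ‖g j‖ := Finset.sum_nonneg fun _ _ => norm_nonneg _
  rcases le_or_gt ‖x‖ 1 with h1 | h1
  · rw [hgs, norm_one]
    linarith
  · have h2 : x ^ s = - ∑ j ∈ Finset.range s, g j * x ^ j := by
      rw [hgs, one_mul] at h
      exact eq_neg_of_add_eq_zero_right h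
    have h3 : ‖x‖ ^ s ≤ (∑ j ∈ Finset.range s, ‖g j‖) * ‖x‖ ^ (s - 1) := by
      rw [← norm_pow, h2, norm_neg, Finset.sum_mul]
      refine (norm_sum_le _ _).trans (Finset.sum_le_sum fun j hj => ?_)
      rw [norm_mul, norm_pow]
      refine mul_le_mul_of_nonneg_left ?_ (norm_nonneg _)
      refine pow_le_pow_right₀ h1.le ?_
      have := Finset.mem_range.1 hj
      omega
    have h4 : ‖x‖ ^ s = ‖x‖ * ‖x‖ ^ (s - 1) := by
      rw [← pow_succ']
      congr 1
      omega
    rw [h4] at h3
    have h5 : 0 < ‖x‖ ^ (s - 1) := pow_pos (by linarith) _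
    have h6 := le_of_mul_le_mul_right h3 h5
    have h7 := norm_nonneg (g s)
    linarith

theorem punctMero_of_algebraic {h : ℂ → ℂ} (hh : ∀ z ∈ puncturedDisc, MeromorphicAt h z) {s : ℕ}
    {c : ℕ → ℂ → ℂ} (hc : ∀ j ≤ s, PunctMero (c j))
    (hcs : ∀ z ∈ puncturedDisc, ∀ᶠ ζ in 𝓝[≠] z, c s ζ ≠ 0)
    (hrel : ∀ z ∈ puncturedDisc, ∀ᶠ ζ in 𝓝[≠] z,
      ∑ j ∈ Finset.range (s + 1), c j ζ * h ζ ^ j = 0) : PunctMero h := by
  have hmem : ∀ z : ℂ, 0 < ‖z‖ → ‖z‖ < 1 → z ∈ puncturedDisc := by
    intro z h1 h2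
    refine ⟨by simpa using h2, ?_⟩
    rintro rfl
    simp at h1
  rcases Nat.eq_zero_or_pos s with hs | hs
  · subst hs
    exfalso
    have h1 : ((1 / 2 : ℝ) : ℂ) ∈ puncturedDisc := by
      refine hmem _ ?_ ?_ <;> rw [Complex.norm_real] <;> norm_num
    obtain ⟨ζ, h2, h3⟩ := ((hcs _ h1).and (hrel _ h1)).exists
    simp at h3
    exact h2 h3
  · have hv : ∀ j : Fin (s + 1), PunctMero (fun z => c j z * (c s z)⁻¹) := fun j =>
      (hc j (by have := j.2; omega)).mul (hc s le_rfl).inv
    refine Pool.Agent.H5.DG.punctMero_of_bound one_pos (C := 1)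
      (fun z h1 h2 => hh z (hmem z h1 h2)) hv fun z h1 h2 => ?_
    filter_upwards [hcs z (hmem z h1 h2), hrel z (hmem z h1 h2)] with ζ h3 h4
    rw [one_mul]
    refine norm_le_of_monic_relation hs (g := fun j => c j ζ * (c s ζ)⁻¹) (mul_inv_cancel₀ h3) ?_
    have h5 : ∑ j ∈ Finset.range (s + 1), c j ζ * (c s ζ)⁻¹ * h ζ ^ j =
        (∑ j ∈ Finset.range (s + 1), c j ζ * h ζ ^ j) * (c s ζ)⁻¹ := by
      rw [Finset.sum_mul]
      exact Finset.sum_congr rfl fun j _ => by ring
    rw [h5, h4, zero_mul]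

end Pool.Agent.H5.DG3

end
end

section

/-!
# The dimension is at most `N`

PROOF.  Choose `l` with `coordFun P l ≠ 0` (if `coordFun P i = 0` for all `i` then the function field is
`ℂ` and `n = 0`; or use `h`).  By `adjoin_ratio` the field `FunField P` is generated over `ℂ` by the
`ratio P i l`, `i ≠ l` (`ratio P l l = 1`), a set with at most `N` elements, so it contains a
transcendence basis indexed by a subset `s` of `{i | i ≠ l}` (`exists_isTranscendenceBasis_subset` /
`exists_isTranscendenceBasis_between` with the fact that `FunField P` is algebraic over the subalgebra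
generated by the set), and `n = |s| ≤ N` (`IsTranscendenceBasis.cardinalMk_eq`).
-/

open MvPolynomial
open Pool.Agent.H17GT (coordFun functionField)
open Pool.Agent.H17LG.Variety (FunField ratio)

noncomputable section

namespace Pool.Agent.H13.SM

variable {N : ℕ} {P : Ideal (MvPolynomial (Fin (N + 1)) ℂ)}

theorem trdeg_le [P.IsPrime] {l : Fin (N + 1)} (h : coordFun P l ≠ 0) {n : ℕ}
    {z : Fin n → FunField P} (hz : IsTranscendenceBasis ℂ z) : n ≤ N := by
  have htop : IntermediateField.adjoin ℂ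
      (Set.range fun i : Fin N => ratio P (l.succAbove i) l) = ⊤ := by
    rw [eq_top_iff, ← Pool.Agent.H17R.adjoin_ratio h, IntermediateField.adjoin_le_iff]
    rintro y ⟨i, rfl⟩
    dsimp only
    rcases Fin.eq_self_or_eq_succAbove l i with hi | ⟨j, hj⟩
    · rw [hi, Pool.Agent.H17R.ratio_self h]
      exact one_mem _
    · rw [hj]
      exact IntermediateField.subset_adjoin _ _ ⟨j, rfl⟩
  have halg : Algebra.IsAlgebraic (IntermediateField.adjoin ℂ
      (Set.range fun i : Fin N => ratio P (l.succAbove i) l)) (FunField P) := by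
    rw [htop]
    refine ⟨fun a => ?_⟩
    exact isAlgebraic_algebraMap (⟨a, IntermediateField.mem_top⟩ :
      (⊤ : IntermediateField ℂ (FunField P)))
  obtain ⟨J, hJ⟩ := Pool.Agent.H92.GT.exists_index halg hz
  have hinj : Function.Injective J := by
    intro a b hab
    apply hJ.1.injective
    dsimp only
    rw [hab]
  have := Fintype.card_le_of_injective J hinj
  simpa using this

end Pool.Agent.H13.SM

end
end

section

/-!
# Fermat covers: subvarieties which are not of log general type

The closures of the monomial curves are rational curves stable under a one-parameter group, so they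
are not of log general type.
-/

open MvPolynomial Topology Filter
open Pool.Agent.H17GT (coordFun functionField)
open Pool.Agent.H17LG.Variety (FunField)

noncomputable section

namespace Pool.Agent.H62.FC

variable {N : ℕ} {κ : Type} {A : κ → MvPolynomial (Fin (N + 1)) ℂ} {e : κ → ℕ}
  {O : Finset (Fin (N + 1))} {P : Ideal (MvPolynomial (Fin (N + 1)) ℂ)}

variable {a : Fin (N + 1) → ℂ} {n : Fin (N + 1) → ℤ}

open scoped IntermediateField.algebraAdjoinAdjoin in
lemma exists_fin_basis_aux {K : Type} [Field K] [Algebra ℂ K] {m : ℕ} {x : Fin m → K}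
    (hgen : IntermediateField.adjoin ℂ (Set.range x) = ⊤) :
    ∃ (w : ℕ) (z : Fin w → K), IsTranscendenceBasis ℂ z := by
  have halg : Algebra.IsAlgebraic (IntermediateField.adjoin ℂ (Set.range x)) K := by
    rw [hgen]
    exact ⟨fun f => isAlgebraic_algebraMap (⟨f, IntermediateField.mem_top⟩ :
      (⊤ : IntermediateField ℂ K))⟩
  have h1 : Algebra.IsAlgebraic (Algebra.adjoin ℂ (Set.range x)) K :=
    (IsFractionRing.comap_isAlgebraic_iff (A := Algebra.adjoin ℂ (Set.range x))
      (K := IntermediateField.adjoin ℂ (Set.range x)) (C := K)).mpr halg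
  obtain ⟨u, hu, hub⟩ := exists_isTranscendenceBasis_subset (R := ℂ) (Set.range x)
  have h3 : Finite u := (Set.finite_range x).subset hu
  let eqv : Fin (Nat.card u) ≃ u := (Finite.equivFin u).symm
  refine ⟨Nat.card u, (Subtype.val : u → K) ∘ eqv, ?_⟩
  rw [isTranscendenceBasis_equiv]
  exact hub

/-- The function field of a projective variety has a finite transcendence basis. -/
lemma exists_fin_basis [P.IsPrime] (hne : ∃ i, X i ∉ P) :
    ∃ (w : ℕ) (z : Fin w → FunField P), IsTranscendenceBasis ℂ z := by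
  obtain ⟨j, hj⟩ := hne
  have hj' : coordFun P j ≠ 0 := by
    intro h0
    apply hj
    rw [← Pool.Agent.H92.GT.Proj.aeval_coordFun_eq_zero_iff P (X j), aeval_X]
    exact h0
  obtain ⟨x, -, hgen, -⟩ := Pool.Agent.H92.GT.Proj.proj_point P hj'
  exact exists_fin_basis_aux hgen

end Pool.Agent.H62.FC

end
end

section

/-!
# Project DG3, module Curve: the ideal of a holomorphic curve

`Q` = the polynomials all of whose homogeneous components vanish on the curve.  It is prime by
`vanish_dich` (a form either vanishes identically on the curve or near no point; used in CovMain) and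
`Ideal.IsPrime` for homogeneous ideals (`Ideal.IsHomogeneous.isPrime_of_homogeneous_mem_or_mem`).
`curve_eval`: `R` is homogenised (`exists_homogenise`, module SecDim) to a form `S`;
`aeval (ratio Q _ j₀) R = 0 ↔ S ∈ Q` (`eval_ratio_zero_iff`, module SecBase), and
`eval (rep / rep j₀) R` is `S (rep)` divided by a power of `rep j₀`, which does not vanish near any
point of the punctured disc except at isolated points (`X j₀ ∉ Q`, `vanish_dich`).
-/

open MvPolynomial Filter Topology
open Pool.Agent.H17 (PN VanishesAt HolomorphicInto puncturedDisc)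
open Pool.Agent.H17GT (coordFun)
open Pool.Agent.H17LG.Variety (FunField ratio)
open Pool.Agent.H5.DG (Homog)

noncomputable section

namespace Pool.Agent.H5.DG3

variable {N : ℕ}

/-- the values of a polynomial on the line through `x`, as a polynomial in the parameter -/
private def line (x : Fin (N + 1) → ℂ) : MvPolynomial (Fin (N + 1)) ℂ →ₐ[ℂ] Polynomial ℂ :=
  aeval fun i => Polynomial.C (x i) * Polynomial.X

private theorem line_homog {k : ℕ} {G : MvPolynomial (Fin (N + 1)) ℂ} (hG : G.IsHomogeneous k)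
    (x : Fin (N + 1) → ℂ) : line x G = Polynomial.C (eval x G) * Polynomial.X ^ k := by
  unfold line
  rw [aeval_def, eval₂_eq, eval_eq, map_sum, Finset.sum_mul]
  refine Finset.sum_congr rfl fun m hm => ?_
  have h5 : ∑ i ∈ m.support, m i = k := by
    have := hG (mem_support_iff.1 hm)
    rw [Finsupp.weight_apply, Finsupp.sum] at this
    simpa using this
  simp only [mul_pow, Finset.prod_mul_distrib]
  rw [Finset.prod_pow_eq_pow_sum, h5, map_mul, map_prod]
  simp only [map_pow]
  rw [show (algebraMap ℂ (Polynomial ℂ)) (coeff m G) = Polynomial.C (coeff m G) from rfl]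
  ring

private theorem line_coeff (x : Fin (N + 1) → ℂ) (T : MvPolynomial (Fin (N + 1)) ℂ) (k : ℕ) :
    (line x T).coeff k = eval x (homogeneousComponent k T) := by
  have h1 : line x T = ∑ d ∈ Finset.range (T.totalDegree + 1),
      Polynomial.C (eval x (homogeneousComponent d T)) * Polynomial.X ^ d := by
    conv_lhs => rw [← sum_homogeneousComponent T]
    rw [map_sum]
    exact Finset.sum_congr rfl fun d _ => line_homog (homogeneousComponent_isHomogeneous d T) x
  rw [h1, Polynomial.finsetSum_coeff]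
  simp only [Polynomial.coeff_C_mul_X_pow]
  rw [Finset.sum_ite_eq]
  split_ifs with h2
  · rfl
  · have h3 : T.totalDegree < k := by
      by_contra hcon
      exact h2 (Finset.mem_range.2 (by omega))
    rw [homogeneousComponent_eq_zero _ _ h3, map_zero]

/-- the polynomials which vanish on the cone over the curve -/
private def curveIdeal (f : ℂ → PN N) : Ideal (MvPolynomial (Fin (N + 1)) ℂ) :=
  ⨅ z ∈ puncturedDisc, RingHom.ker (line (f z).rep)

private theorem mem_curveIdeal {f : ℂ → PN N} {T : MvPolynomial (Fin (N + 1)) ℂ} :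
    T ∈ curveIdeal f ↔ ∀ z ∈ puncturedDisc, line (f z).rep T = 0 := by
  unfold curveIdeal
  simp only [Submodule.mem_iInf, RingHom.mem_ker]

private theorem line_eq_zero_iff {x : Fin (N + 1) → ℂ} {T : MvPolynomial (Fin (N + 1)) ℂ} :
    line x T = 0 ↔ ∀ k, eval x (homogeneousComponent k T) = 0 := by
  rw [Polynomial.ext_iff]
  simp only [line_coeff, Polynomial.coeff_zero]

private theorem half_mem : (1 / 2 : ℂ) ∈ puncturedDisc := by
  rw [Pool.Agent.H5.DG.mem_puncturedDisc]
  norm_num

private theorem line_eventually {f : ℂ → PN N} (hf : HolomorphicInto f puncturedDisc)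
    {T : MvPolynomial (Fin (N + 1)) ℂ} (hT : T ∉ curveIdeal f) {s : ℂ} (hs : s ∈ puncturedDisc) :
    ∀ᶠ z in 𝓝[≠] s, line (f z).rep T ≠ 0 := by
  rw [mem_curveIdeal] at hT
  push Not at hT
  obtain ⟨z₀, hz₀, h1⟩ := hT
  have h2 : ∃ k, eval (f z₀).rep (homogeneousComponent k T) ≠ 0 := by
    by_contra hcon
    push Not at hcon
    exact h1 (line_eq_zero_iff.2 hcon)
  obtain ⟨k, hk⟩ := h2
  rcases Pool.Agent.H5.DG.vanish_dich hf (homogeneousComponent_isHomogeneous k T) with h3 | h3
  · exact absurd (h3 z₀ hz₀).self_of_nhds hk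
  · filter_upwards [h3 s hs] with z hz h4
    exact hz (line_eq_zero_iff.1 h4 k)

theorem exists_curveIdeal {f : ℂ → PN N} (hf : HolomorphicInto f puncturedDisc) :
    ∃ Q : Ideal (MvPolynomial (Fin (N + 1)) ℂ), Q.IsPrime ∧ Homog Q ∧
      ∀ (T : MvPolynomial (Fin (N + 1)) ℂ) (k : ℕ), T.IsHomogeneous k →
        (T ∈ Q ↔ ∀ z ∈ puncturedDisc, VanishesAt T (f z)) := by
  have hhom : ∀ (T : MvPolynomial (Fin (N + 1)) ℂ) (k : ℕ), T.IsHomogeneous k →
      (T ∈ curveIdeal f ↔ ∀ z ∈ puncturedDisc, VanishesAt T (f z)) := by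
    intro T k hT
    rw [mem_curveIdeal]
    refine forall₂_congr fun z _ => ?_
    rw [line_homog hT]
    unfold VanishesAt
    simp
  refine ⟨curveIdeal f, ?_, ?_, hhom⟩
  · refine Ideal.isPrime_iff.2 ⟨?_, ?_⟩
    · rw [Ne, Ideal.eq_top_iff_one, mem_curveIdeal]
      intro hcon
      have h1 := hcon _ half_mem
      rw [map_one] at h1
      exact one_ne_zero h1
    · intro T₁ T₂ h12
      by_contra hcon
      push Not at hcon
      obtain ⟨h1, h2⟩ := hcon
      obtain ⟨z, h3, h4, h5⟩ := ((line_eventually hf h1 half_mem).and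
        ((line_eventually hf h2 half_mem).and
          (Pool.Agent.H5.DG.eventually_mem_puncturedDisc half_mem))).exists
      have h6 := mem_curveIdeal.1 h12 z h5
      rw [map_mul] at h6
      exact (mul_ne_zero h3 h4) h6
  · intro T hT k
    rw [mem_curveIdeal] at hT ⊢
    intro z hz
    rw [line_homog (homogeneousComponent_isHomogeneous k T), line_eq_zero_iff.1 (hT z hz) k,
      map_zero, zero_mul]

theorem curve_eval {f : ℂ → PN N} (hf : HolomorphicInto f puncturedDisc)
    (Q : Ideal (MvPolynomial (Fin (N + 1)) ℂ)) [Q.IsPrime] (hQ : Homog Q)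
    (hQf : ∀ (T : MvPolynomial (Fin (N + 1)) ℂ) (k : ℕ), T.IsHomogeneous k →
      (T ∈ Q ↔ ∀ z ∈ puncturedDisc, VanishesAt T (f z))) {j₀ : Fin (N + 1)}
    (hj₀ : coordFun Q j₀ ≠ 0) (R : MvPolynomial (Fin (N + 1)) ℂ) :
    (aeval (fun i => ratio Q i j₀) R = 0 → ∀ s ∈ puncturedDisc, ∀ᶠ z in 𝓝[≠] s,
      eval (fun i => (f z).rep i / (f z).rep j₀) R = 0) ∧
    (aeval (fun i => ratio Q i j₀) R ≠ 0 → ∀ s ∈ puncturedDisc, ∀ᶠ z in 𝓝[≠] s,
      eval (fun i => (f z).rep i / (f z).rep j₀) R ≠ 0) := by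
  obtain ⟨S, hS, hSe⟩ := Pool.Agent.H5.DG.exists_homogenise j₀ R
  -- the generic point
  have hone : ratio Q j₀ j₀ = 1 := Subtype.ext (div_self hj₀)
  have h1 : aeval (fun i => ratio Q i j₀) R = 0 ↔ S ∈ Q := by
    rw [← hSe (fun i => ratio Q i j₀) hone]
    exact Pool.Agent.H5.DG.eval_ratio_zero_iff Q hj₀ hS
  -- forms outside of the ideal
  have hout : ∀ (T : MvPolynomial (Fin (N + 1)) ℂ) (k : ℕ), T.IsHomogeneous k → T ∉ Q →
      ∀ s ∈ puncturedDisc, ∀ᶠ z in 𝓝[≠] s, ¬ VanishesAt T (f z) := by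
    intro T k hT hTQ
    rcases Pool.Agent.H5.DG.vanish_dich hf hT with h2 | h2
    · exact absurd ((hQf T k hT).2 fun z hz => (h2 z hz).self_of_nhds) hTQ
    · exact h2
  have hX : (X j₀ : MvPolynomial (Fin (N + 1)) ℂ) ∉ Q := by
    intro hcon
    apply hj₀
    rw [← Pool.Agent.H92.GT.Proj.aeval_coordFun_eq_zero_iff, aeval_X] at hcon
    exact hcon
  have hj : ∀ s ∈ puncturedDisc, ∀ᶠ z in 𝓝[≠] s, (f z).rep j₀ ≠ 0 := by
    intro s hs
    filter_upwards [hout _ 1 (isHomogeneous_X ℂ j₀) hX s hs] with z hz h2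
    exact hz (Pool.Agent.H5.DG.vanishesAt_X.2 h2)
  have hval : ∀ z, (f z).rep j₀ ≠ 0 → eval (fun i => (f z).rep i / (f z).rep j₀) R =
      ((f z).rep j₀)⁻¹ ^ R.totalDegree * eval (f z).rep S := by
    intro z hz
    have h2 := hSe (fun i => (f z).rep i / (f z).rep j₀) (div_self hz)
    have h3 := Pool.Agent.H5.DG.aeval_eq_pow_mul (K := ℂ) hS
      (x := fun i => (f z).rep i / (f z).rep j₀) (y := (f z).rep) (c := ((f z).rep j₀)⁻¹)
      (fun i => div_eq_inv_mul _ _)
    have h4 : ∀ (y : Fin (N + 1) → ℂ) (T : MvPolynomial (Fin (N + 1)) ℂ), aeval y T = eval y T :=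
      fun y T => RingHom.congr_fun (MvPolynomial.coe_aeval_eq_eval y) T
    rw [h4] at h2 h3
    rw [h4] at h2 h3
    rw [← h2, h3]
  constructor
  · intro h2 s hs
    have h3 := (hQf S _ hS).1 (h1.1 h2)
    filter_upwards [hj s hs, Pool.Agent.H5.DG.eventually_mem_puncturedDisc hs] with z h4 h5
    rw [hval z h4]
    have h6 : eval (f z).rep S = 0 := h3 z h5
    rw [h6, mul_zero]
  · intro h2 s hs
    filter_upwards [hj s hs, hout S _ hS (fun h3 => h2 (h1.2 h3)) s hs] with z h4 h5
    rw [hval z h4]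
    exact mul_ne_zero (pow_ne_zero _ (inv_ne_zero h4)) h5

end Pool.Agent.H5.DG3

end
end
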