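import Pool.Agent.H94.DG.H5.DG.CovAlg
import Pool.Agent.H94.DG.M12
import Pool.Agent.H94.DG.M19
import Pool.Agent.H94.DG.M22

/-! The parts of this file: H39.HC.CovOrd, H39.HC.CovLGT. -/

section

/-!
# The orders of the forms along the prime divisors
-/

open MvPolynomial
open Pool.Agent.H17GT (coordFun)
open Pool.Agent.H17LG.Variety (FunField ratio)
open Pool.Agent.H23.Fano (PrimeDivisorOver)
open Pool.Agent.H5.DG (comb BaseFree RamM OnForms valAt)

noncomputable section

namespace Pool.Agent.H39.HC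

section Helpers

variable {Nn w : ℕ} {P : Ideal (MvPolynomial (Fin (Nn + 1)) ℂ)}

private theorem CovOrd_ratio_self [P.IsPrime] {j₀ : Fin (Nn + 1)} (h : coordFun P j₀ ≠ 0) :
    ratio P j₀ j₀ = 1 := by
  apply Subtype.ext
  exact div_self h

private theorem CovOrd_ratio_mul [P.IsPrime] {j₁ : Fin (Nn + 1)} (h : coordFun P j₁ ≠ 0)
    (i j₀ : Fin (Nn + 1)) : ratio P j₁ j₀ * ratio P i j₁ = ratio P i j₀ := by
  apply Subtype.ext
  change coordFun P j₁ / coordFun P j₀ * (coordFun P i / coordFun P j₁) =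
    coordFun P i / coordFun P j₀
  rw [div_mul_div_comm, mul_comm (coordFun P j₀), mul_div_mul_left _ _ h]

private theorem CovOrd_eval_zero [P.IsPrime] {j₀ : Fin (Nn + 1)} (h : coordFun P j₀ ≠ 0)
    {n : ℕ} {Q : MvPolynomial (Fin (Nn + 1)) ℂ} (hQ : Q.IsHomogeneous n) (hQP : Q ∈ P) :
    aeval (fun i => ratio P i j₀) Q = 0 := by
  set x : Fin (Nn + 1) → Pool.Agent.H17GT.functionField P := fun i => ratio P i j₀ with hx
  have h0 : aeval (fun i => ratio P i j₀) Q =
    (aeval x Q : Pool.Agent.H17GT.functionField P) := rfl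
  have h1 : ((aeval x Q : Pool.Agent.H17GT.functionField P) :
      FractionRing (MvPolynomial (Fin (Nn + 1)) ℂ ⧸ P)) =
      aeval (fun i => (coordFun P j₀)⁻¹ * coordFun P i) Q := by
    have h3 : ((Pool.Agent.H17GT.functionField P).val (aeval x Q)) =
        aeval (fun i => (Pool.Agent.H17GT.functionField P).val (x i)) Q := by
      rw [← MvPolynomial.comp_aeval]
      rfl
    change (Pool.Agent.H17GT.functionField P).val (aeval x Q) = _
    rw [h3]
    congr 2
    funext i
    change coordFun P i / coordFun P j₀ = _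
    rw [div_eq_inv_mul]
  rw [Pool.Agent.H92.GT.Proj.aeval_scale hQ] at h1
  have h2 := (Pool.Agent.H92.GT.Proj.aeval_coordFun_eq_zero_iff P Q).2 hQP
  rw [h0]
  apply Subtype.ext
  rw [h1, h2, mul_zero]
  rfl

private theorem CovOrd_eval_of_mem [P.IsPrime] (hP : Pool.Agent.H5.DG.Homog P)
    {j₀ : Fin (Nn + 1)} (h : coordFun P j₀ ≠ 0) {Q : MvPolynomial (Fin (Nn + 1)) ℂ}
    (hQ : Q ∈ P) : aeval (fun i => ratio P i j₀) Q = 0 := by
  rw [← sum_homogeneousComponent Q, map_sum]
  exact Finset.sum_eq_zero fun d _ => CovOrd_eval_zero h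
    (homogeneousComponent_isHomogeneous d Q) (hP Q hQ d)

private theorem CovOrd_scale {m : ℕ} {K : Type} [Field K] [Algebra ℂ K]
    {G : MvPolynomial (Fin m) ℂ} {n : ℕ} (hG : G.IsHomogeneous n) (c : K) (x : Fin m → K) :
    aeval (fun i => c * x i) G = c ^ n * aeval x G := by
  rw [aeval_def, aeval_def, eval₂_eq, eval₂_eq, Finset.mul_sum]
  refine Finset.sum_congr rfl fun m hm => ?_
  have h5 : ∑ i ∈ m.support, m i = n := by
    have := hG (mem_support_iff.1 hm)
    rw [Finsupp.weight_apply, Finsupp.sum] at this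
    simpa using this
  simp only [mul_pow, Finset.prod_mul_distrib]
  rw [Finset.prod_pow_eq_pow_sum, h5]
  ring

end Helpers

section Val

variable {K : Type} [Field K] [Algebra ℂ K] {w : ℕ}

private theorem CovOrd_nonneg {m : ℕ} (E : PrimeDivisorOver K w) {y : Fin m → K}
    (hy : ∀ i, 0 ≤ E.ord (y i)) (G : MvPolynomial (Fin m) ℂ) : 0 ≤ E.ord (aeval y G) := by
  induction G using MvPolynomial.induction_on with
  | C c => rw [aeval_C]; exact E.ord_const c
  | add p q hp hq => rw [map_add]; exact E.ord.map_le_add hp hq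
  | mul_X p i hp =>
    rw [map_mul, aeval_X, AddValuation.map_mul]
    exact add_nonneg hp (hy i)

/-- The polynomials whose value has order at least `o`. -/
private def CovOrd_ge {m : ℕ} (E : PrimeDivisorOver K w) {y : Fin m → K}
    (hy : ∀ i, 0 ≤ E.ord (y i)) (o : WithTop ℤ) : Ideal (MvPolynomial (Fin m) ℂ) where
  carrier := {G | o ≤ E.ord (aeval y G)}
  zero_mem' := by
    change o ≤ E.ord (aeval y 0)
    rw [map_zero, AddValuation.map_zero]
    exact le_top
  add_mem' := by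
    intro a b ha hb
    change o ≤ E.ord (aeval y (a + b))
    rw [map_add]
    exact E.ord.map_le_add ha hb
  smul_mem' := by
    intro c a ha
    change o ≤ E.ord (aeval y (c • a))
    rw [smul_eq_mul, map_mul, AddValuation.map_mul, ← zero_add o]
    exact add_le_add (CovOrd_nonneg E hy c) ha

private theorem CovOrd_mem_ge {m : ℕ} (E : PrimeDivisorOver K w) {y : Fin m → K}
    (hy : ∀ i, 0 ≤ E.ord (y i)) (o : WithTop ℤ) (G : MvPolynomial (Fin m) ℂ) :
    G ∈ CovOrd_ge E hy o ↔ o ≤ E.ord (aeval y G) := Iff.rfl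

private theorem CovOrd_pow {m : ℕ} (E : PrimeDivisorOver K w) {y : Fin m → K}
    (hy : ∀ i, 0 ≤ E.ord (y i)) (q : ℕ) :
    CovOrd_ge E hy 1 ^ q ≤ CovOrd_ge E hy ((q : ℤ) : WithTop ℤ) := by
  induction q with
  | zero =>
    intro G _
    rw [CovOrd_mem_ge]
    exact CovOrd_nonneg E hy G
  | succ q ih =>
    rw [pow_succ, Ideal.mul_le]
    intro a ha b hb
    have ha' := ih ha
    rw [CovOrd_mem_ge] at ha' hb ⊢
    rw [map_mul, AddValuation.map_mul]
    have h1 : (((q + 1 : ℕ) : ℤ) : WithTop ℤ) = ((q : ℤ) : WithTop ℤ) + 1 := by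
      push_cast
      rfl
    rw [h1]
    exact add_le_add ha' hb

private theorem CovOrd_one_le {o : WithTop ℤ} : 1 ≤ o ↔ 0 < o := by
  induction o with
  | top => simp
  | coe o =>
    rw [← WithTop.coe_one, ← WithTop.coe_zero, WithTop.coe_le_coe, WithTop.coe_lt_coe]
    exact Iff.rfl

private theorem CovOrd_radical {m : ℕ} (E : PrimeDivisorOver K w) {y : Fin m → K}
    (hy : ∀ i, 0 ≤ E.ord (y i)) {J : Ideal (MvPolynomial (Fin m) ℂ)}
    (hJ : J ≤ CovOrd_ge E hy 1) : J.radical ≤ CovOrd_ge E hy 1 := by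
  intro B hB
  obtain ⟨s, hs⟩ := hB
  have h1 := hJ hs
  rw [CovOrd_mem_ge, CovOrd_one_le] at h1 ⊢
  rw [map_pow, AddValuation.map_pow] at h1
  by_contra hcon
  have h2 : E.ord (aeval y B) = 0 := le_antisymm (not_lt.1 hcon) (CovOrd_nonneg E hy B)
  rw [h2, smul_zero] at h1
  exact lt_irrefl _ h1

end Val

/-- Along a prime divisor, not centred in the removed hypersurfaces, the orders of the linear forms
are minimal or larger by at least `q`. -/
theorem cov_ord {r q m Nn e w : ℕ} (hq : 1 ≤ q) {l : Fin m → Fin (r + 1) → ℂ}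
    (P : Ideal (MvPolynomial (Fin (Nn + 1)) ℂ)) [P.IsPrime] (hP : Pool.Agent.H5.DG.Homog P)
    {F : Fin (r + 1) → MvPolynomial (Fin (Nn + 1)) ℂ} (hF : BaseFree P e F) (O : Finset (Fin m))
    (hram : ∀ j ∉ O, RamM q P (comb (l j) F)) {j₀ : Fin (Nn + 1)} (hj₀ : coordFun P j₀ ≠ 0)
    {a₀ : Fin (r + 1)} (ha₀ : valAt P j₀ F a₀ ≠ 0) (E : PrimeDivisorOver (FunField P) w)
    (hE : ¬ OnForms P O (fun j => comb (l j) F) E) (i₁ : Fin (r + 1))
    (hi₁ : ∀ i, E.ord (valAt P j₀ F i₁ / valAt P j₀ F a₀) ≤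
      E.ord (valAt P j₀ F i / valAt P j₀ F a₀)) (j : Fin m) :
    E.ord (lin (l j) fun a => valAt P j₀ F a / valAt P j₀ F a₀) =
        E.ord (valAt P j₀ F i₁ / valAt P j₀ F a₀) ∨
      E.ord (valAt P j₀ F i₁ / valAt P j₀ F a₀) + (q : WithTop ℤ) ≤
        E.ord (lin (l j) fun a => valAt P j₀ F a / valAt P j₀ F a₀) := by
  classical
  -- the coordinate of minimal order
  obtain ⟨j₁, -, hj₁⟩ := Finset.exists_min_image (Finset.univ : Finset (Fin (Nn + 1)))
    (fun i => E.ord (ratio P i j₀)) ⟨j₀, Finset.mem_univ _⟩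
  have hj₁' : ∀ i, E.ord (ratio P j₁ j₀) ≤ E.ord (ratio P i j₀) :=
    fun i => hj₁ i (Finset.mem_univ _)
  have hc0 : ratio P j₁ j₀ ≠ 0 := by
    intro h
    have h1 := hj₁' j₀
    rw [h, CovOrd_ratio_self hj₀, AddValuation.map_zero, AddValuation.map_one] at h1
    exact absurd h1 (by simp)
  have hcf : coordFun P j₁ ≠ 0 := by
    intro h
    apply hc0
    apply Subtype.ext
    change coordFun P j₁ / coordFun P j₀ = 0
    rw [h, zero_div]
  have hfin : ∀ f : FunField P, f ≠ 0 → ∃ o : ℤ, E.ord f = (o : WithTop ℤ) := by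
    intro f hf
    have h1 : E.ord f ≠ ⊤ := fun h => hf ((AddValuation.top_iff _).1 h)
    exact ⟨(E.ord f).untop h1, (WithTop.coe_untop _ h1).symm⟩
  have hcancel : ∀ (c : FunField P), c ≠ 0 → ∀ a b : WithTop ℤ,
      E.ord c + a ≤ E.ord c + b → a ≤ b := by
    intro c hc a b h
    obtain ⟨o, ho⟩ := hfin c hc
    rw [ho] at h
    exact (WithTop.add_le_add_iff_left WithTop.coe_ne_top).1 h
  set y : Fin (Nn + 1) → FunField P := fun i => ratio P i j₁ with hy
  have hy0 : ∀ i, 0 ≤ E.ord (y i) := by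
    intro i
    refine hcancel _ hc0 _ _ ?_
    rw [add_zero, ← AddValuation.map_mul, hy]
    change E.ord (ratio P j₁ j₀) ≤ E.ord (ratio P j₁ j₀ * ratio P i j₁)
    rw [CovOrd_ratio_mul hcf]
    exact hj₁' i
  have hy1 : y j₁ = 1 := CovOrd_ratio_self hcf
  set v : Fin (r + 1) → FunField P := fun a => aeval y (F a) with hv
  have hval : ∀ a, valAt P j₀ F a = ratio P j₁ j₀ ^ e * v a := by
    intro a
    have h1 : (fun i => ratio P i j₀) = fun i => ratio P j₁ j₀ * y i := by
      funext i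
      exact (CovOrd_ratio_mul hcf i j₀).symm
    change aeval (fun i => ratio P i j₀) (F a) = _
    rw [h1]
    exact CovOrd_scale (hF.hom a) _ _
  have hce : ratio P j₁ j₀ ^ e ≠ 0 := pow_ne_zero _ hc0
  have hdiv : ∀ a, valAt P j₀ F a / valAt P j₀ F a₀ = v a / v a₀ := by
    intro a
    rw [hval, hval, mul_div_mul_left _ _ hce]
  have hva₀ : v a₀ ≠ 0 := by
    intro h
    apply ha₀
    rw [hval, h, mul_zero]
  have hordv : ∀ a, E.ord (v a₀) + E.ord (v a / v a₀) = E.ord (v a) := by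
    intro a
    rw [← AddValuation.map_mul, mul_div_cancel₀ _ hva₀]
  have hPle : ∀ q : WithTop ℤ, P ≤ CovOrd_ge E hy0 q := by
    intro q G hG
    rw [CovOrd_mem_ge]
    have h1 : aeval y G = 0 := CovOrd_eval_of_mem hP hcf hG
    rw [h1, AddValuation.map_zero]
    exact le_top
  have hXk : ∀ k : ℕ, aeval y (X j₁ ^ k : MvPolynomial (Fin (Nn + 1)) ℂ) = 1 := by
    intro k
    rw [map_pow, aeval_X, hy1, one_pow]
  -- the minimum of the orders is zero
  have hexists : ∃ a, E.ord (v a) ≤ 0 := by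
    by_contra hcon
    push Not at hcon
    obtain ⟨k, hk⟩ := hF.base j₁
    have h1 : Ideal.span (Set.range F) ⊔ P ≤ CovOrd_ge E hy0 1 := by
      refine sup_le ?_ (hPle 1)
      rw [Ideal.span_le]
      rintro _ ⟨a, rfl⟩
      change F a ∈ CovOrd_ge E hy0 1
      rw [CovOrd_mem_ge, CovOrd_one_le]
      exact hcon a
    have h2 := h1 hk
    rw [CovOrd_mem_ge, CovOrd_one_le, hXk, AddValuation.map_one] at h2
    exact lt_irrefl _ h2
  have hv0 : ∀ a, 0 ≤ E.ord (v a) := fun a => CovOrd_nonneg E hy0 (F a)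
  have hi₁v : E.ord (v i₁) = 0 := by
    obtain ⟨a, ha⟩ := hexists
    refine le_antisymm ?_ (hv0 i₁)
    have h1 := hi₁ a
    rw [hdiv, hdiv] at h1
    have h2 := add_le_add_right h1 (E.ord (v a₀))
    have h3 : E.ord (v i₁) ≤ E.ord (v a) := by
      rw [← hordv i₁, ← hordv a]
      exact add_le_add le_rfl h1
    exact h3.trans ha
  -- the form
  have hlin : (lin (l j) fun a => valAt P j₀ F a / valAt P j₀ F a₀) =
      aeval y (comb (l j) F) / v a₀ := by
    have h1 : aeval y (comb (l j) F) = ∑ a, l j a • v a := by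
      rw [comb, map_sum]
      refine Finset.sum_congr rfl fun a _ => ?_
      rw [map_mul, aeval_C, Algebra.smul_def]
    rw [h1, lin, Finset.sum_div]
    refine Finset.sum_congr rfl fun a _ => ?_
    rw [hdiv, smul_div_assoc]
  set lam : FunField P := aeval y (comb (l j) F) with hlam
  have hordlam : E.ord (v a₀) + E.ord (lam / v a₀) = E.ord lam := by
    rw [← AddValuation.map_mul, mul_div_cancel₀ _ hva₀]
  have hlam0 : 0 ≤ E.ord lam := CovOrd_nonneg E hy0 _
  rw [hlin, hdiv]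
  have hmain : E.ord lam = 0 ∨ ((q : ℤ) : WithTop ℤ) ≤ E.ord lam := by
    by_cases h0 : E.ord lam = 0
    · exact Or.inl h0
    have hpos : 0 < E.ord lam := lt_of_le_of_ne hlam0 (Ne.symm h0)
    by_cases hj : j ∈ O
    · exact absurd ⟨j₁, hcf, hy0, j, hj, hpos⟩ hE
    · right
      obtain ⟨k, hk⟩ := hram j hj j₁
      have h1 : Ideal.span {comb (l j) F} ⊔ P ≤ CovOrd_ge E hy0 1 := by
        refine sup_le ?_ (hPle 1)
        rw [Ideal.span_le, Set.singleton_subset_iff]
        change comb (l j) F ∈ CovOrd_ge E hy0 1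
        rw [CovOrd_mem_ge, CovOrd_one_le]
        exact hpos
      have h2 : (Ideal.radical (Ideal.span {comb (l j) F} ⊔ P)) ^ q ⊔ P ≤
          CovOrd_ge E hy0 ((q : ℤ) : WithTop ℤ) :=
        sup_le ((Ideal.pow_right_mono (CovOrd_radical E hy0 h1) q).trans
          (CovOrd_pow E hy0 q)) (hPle _)
      have h3 := h2 hk
      rw [CovOrd_mem_ge, map_mul, hXk, one_mul] at h3
      exact h3
  rcases hmain with h0 | h0
  · left
    refine le_antisymm (hcancel _ hva₀ _ _ ?_) (hcancel _ hva₀ _ _ ?_)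
    · rw [hordlam, hordv, h0, hi₁v]
    · rw [hordlam, hordv, h0, hi₁v]
  · right
    refine hcancel _ hva₀ _ _ ?_
    rw [← add_assoc, hordlam, hordv, hi₁v, zero_add]
    exact h0

end Pool.Agent.H39.HC

end
end

section

/-!
# Closed subvarieties of the covers are of log general type
-/

open MvPolynomial
open Pool.Agent.H17LG.Variety (FunField ratio IsLogGeneralType)
open Pool.Agent.H5.DG (comb BaseFree RamM OnForms)

noncomputable section

namespace Pool.Agent.H39.HC

private theorem CovLGT_lin_single {R : Type*} [CommRing R] [Algebra ℂ R] {n : ℕ}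
    (i : Fin (n + 1)) (x : Fin (n + 1) → R) : lin (Pi.single i 1) x = x i := by
  unfold lin
  rw [Finset.sum_eq_single i]
  · rw [Pi.single_eq_same, one_smul]
  · intro j _ hj
    rw [Pi.single_eq_of_ne hj, zero_smul]
  · intro h
    exact absurd (Finset.mem_univ i) h

private theorem CovLGT_lin_div {F : Type*} [Field F] [Algebra ℂ F] {n : ℕ}
    (v : Fin (n + 1) → ℂ) (x : Fin (n + 1) → F) (a : F) :
    lin v (fun i => x i / a) = lin v x / a := by
  unfold lin
  rw [Finset.sum_div]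
  exact Finset.sum_congr rfl fun i _ => by rw [smul_div_assoc]

private theorem CovLGT_ord_lin {F : Type} [Field F] [Algebra ℂ F] {k n : ℕ}
    (E : Pool.Agent.H23.Fano.PrimeDivisorOver F k) (v : Fin (n + 1) → ℂ) (x : Fin (n + 1) → F)
    (μ : WithTop ℤ) (h : ∀ i, μ ≤ E.ord (x i)) : μ ≤ E.ord (lin v x) := by
  unfold lin
  refine AddValuation.map_le_sum E.ord fun i _ => ?_
  rw [Algebra.smul_def, AddValuation.map_mul]
  calc μ = 0 + μ := (zero_add μ).symm
    _ ≤ _ := add_le_add (E.ord_const (v i)) (h i)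

/-- a proper subspace is contained in a hyperplane -/
private theorem CovLGT_func {n : ℕ} {S : Set (Fin (n + 1) → ℂ)} (h : Submodule.span ℂ S ≠ ⊤) :
    ∃ x : Fin (n + 1) → ℂ, x ≠ 0 ∧ ∀ v ∈ S, lin v x = 0 := by
  obtain ⟨f, hf0, hf⟩ := Submodule.exists_le_ker_of_lt_top _ (lt_top_iff_ne_top.2 h)
  have h1 : ∀ v, lin v (fun i => f (Pi.single i 1)) = f v := by
    intro v
    have h2 := LinearMap.pi_apply_eq_sum_univ f v
    rw [h2]
    unfold lin
    refine Finset.sum_congr rfl fun i _ => ?_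
    have h3 : (fun j => if i = j then (1 : ℂ) else 0) = Pi.single i 1 := by
      funext j
      simp [Pi.single_apply, eq_comm]
    rw [h3]
  refine ⟨fun i => f (Pi.single i 1), fun hx => hf0 ?_, fun v hv => ?_⟩
  · refine LinearMap.ext fun v => ?_
    rw [← h1, hx]
    unfold lin
    simp
  · rw [h1]
    exact hf (Submodule.subset_span hv)

/-- `x i` is a combination of the forms `lin (t j) x` -/
private theorem CovLGT_coord {ι : Type} [Fintype ι] {n : ℕ} {t : ι → Fin (n + 1) → ℂ}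
    (ht : Submodule.span ℂ (Set.range t) = ⊤) (i : Fin (n + 1)) :
    ∃ a : ι → ℂ, ∀ {F : Type} [Field F] [Algebra ℂ F]
      (x : Fin (n + 1) → F), x i = ∑ j, a j • lin (t j) x := by
  have h1 : (Pi.single i 1 : Fin (n + 1) → ℂ) ∈ Submodule.span ℂ (Set.range t) := by
    rw [ht]
    exact Submodule.mem_top
  rw [Submodule.mem_span_range_iff_exists_fun] at h1
  obtain ⟨a, ha⟩ := h1
  refine ⟨a, fun {F} _ _ x => ?_⟩
  rw [← CovLGT_lin_single i x, ← ha]
  unfold lin
  simp only [Finset.sum_apply, Pi.smul_apply, smul_eq_mul, Finset.sum_smul, Finset.smul_sum,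
    mul_smul]
  rw [Finset.sum_comm]

private theorem CovLGT_genPos {ι : Type} {n : ℕ} {t : ι → Fin (n + 1) → ℂ} (ht : GenPos t)
    (T : Finset ι) : GenPos fun j : T => t j := by
  classical
  intro S hS
  let S' : Finset ι := S.map (Function.Embedding.subtype _)
  have h1 := ht S' (by rw [Finset.card_map]; exact hS)
  let f : S → S' := fun j => ⟨j.1.1, Finset.mem_map.2 ⟨j.1, j.2, rfl⟩⟩
  have hf : Function.Injective f := by
    intro a b hab
    have h2 : (f a).1 = (f b).1 := by rw [hab]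
    exact Subtype.ext (Subtype.ext h2)
  exact h1.comp f hf

private theorem CovLGT_alg {F : Type*} [Field F] [Algebra ℂ F] {E E' : IntermediateField ℂ F}
    (h : E ≤ E') (hE : Algebra.IsAlgebraic E F) : Algebra.IsAlgebraic E' F := by
  refine ⟨fun y => ?_⟩
  obtain ⟨p, hp0, hp⟩ := hE.isAlgebraic y
  let f : E →+* E' := (IntermediateField.inclusion h).toRingHom
  refine ⟨p.map f, ?_, ?_⟩
  · exact (Polynomial.map_ne_zero_iff f.injective).2 hp0
  · rw [Polynomial.aeval_def, Polynomial.eval₂_map]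
    exact hp

/-- **All closed subvarieties of the covers are of log general type.** -/
theorem cov_lgt {r q b m Nn e : ℕ} (hr : 1 ≤ r) (hq : 2 ≤ q) (hb : r * (q + 1) < b * (q - 1))
    {l : Fin m → Fin (r + 1) → ℂ} (hl : GenPos l) (hs : Spans b l)
    (P : Ideal (MvPolynomial (Fin (Nn + 1)) ℂ)) [P.IsPrime] (hP : Pool.Agent.H5.DG.Homog P)
    {F : Fin (r + 1) → MvPolynomial (Fin (Nn + 1)) ℂ} (hF : BaseFree P e F) (O : Finset (Fin m))
    (hO : ∀ j ∈ O, comb (l j) F ∉ P) (hram : ∀ j ∉ O, RamM q P (comb (l j) F)) {w : ℕ}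
    (hw : 1 ≤ w) (hz : ∃ z : Fin w → FunField P, IsTranscendenceBasis ℂ z) :
    IsLogGeneralType (OnForms P O (fun j => comb (l j) F) (w := w)) := by
  classical
  have hb1 : 1 ≤ b := by
    rcases Nat.eq_zero_or_pos b with h | h
    · rw [h, zero_mul] at hb
      omega
    · exact h
  obtain ⟨k, rfl⟩ : ∃ w', w = w' + 1 := ⟨w - 1, by omega⟩
  obtain ⟨z, hz'⟩ := hz
  obtain ⟨j₀, hj₀⟩ := Pool.Agent.H92.GT.Proj.exists_coordFun_ne_zero P (k := k) z hz'
  obtain ⟨a₀, ha₀, halg⟩ := Pool.Agent.H5.DG.fun_algebraic P hP hF hj₀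
  obtain ⟨x, hx⟩ : ∃ x : Fin (r + 1) → FunField P, x = fun a =>
    Pool.Agent.H5.DG.valAt P j₀ F a / Pool.Agent.H5.DG.valAt P j₀ F a₀ := ⟨_, rfl⟩
  have hxa₀ : x a₀ = 1 := by rw [hx]; exact div_self ha₀
  rw [← hx] at halg
  have hess : Algebra.EssFiniteType ℂ (FunField P) :=
    Pool.Agent.H17GT.essFiniteType_functionField P
  obtain ⟨bb, hbb⟩ := Pool.Agent.H23.exists_basis_kaehler hz'
  have hx0 : ∃ i, x i ≠ 0 := ⟨a₀, by rw [hxa₀]; exact one_ne_zero⟩
  let J : Finset (Fin m) := Finset.univ.filter fun j => lin (l j) x = 0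
  have hJ0 : ∀ j ∈ J, lin (l j) x = 0 := fun j hj => (Finset.mem_filter.1 hj).2
  have hJ : ∃ y : Fin (r + 1) → ℂ, y ≠ 0 ∧ ∀ j ∈ J, lin (l j) y = 0 := by
    have hne : Submodule.span ℂ (Set.range fun j : J => l j) ≠ ⊤ := by
      intro htop
      obtain ⟨i, hi⟩ := hx0
      obtain ⟨a, ha⟩ := CovLGT_coord htop i
      apply hi
      rw [ha x]
      exact Finset.sum_eq_zero fun j _ => by rw [hJ0 j j.2, smul_zero]
    obtain ⟨y, hy0, hy⟩ := CovLGT_func hne
    exact ⟨y, hy0, fun j hj => hy _ ⟨⟨j, hj⟩, rfl⟩⟩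
  obtain ⟨n', B, C', D, hn', hCB, hBC, hGP, hSp⟩ := exists_restrict hb1 hl hs J hJ
  obtain ⟨x', hx'⟩ : ∃ x' : Fin (n' + 1) → FunField P, x' = fun l => lin (C' l) x := ⟨_, rfl⟩
  have hxB : ∀ i, x i = lin (B i) x' := by
    intro i
    rw [hx']
    exact eq_lin_of_restrict hBC hJ0 i
  have hlin' : ∀ j, lin (restr B (l j)) x' = lin (l j) x := by
    intro j
    rw [lin_restr]
    congr 1
    funext i
    exact (hxB i).symm
  obtain ⟨i₀, hi₀⟩ : ∃ i, x' i ≠ 0 := by
    by_contra hcon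
    push Not at hcon
    obtain ⟨i, hi⟩ := hx0
    apply hi
    rw [hxB i]
    unfold lin
    exact Finset.sum_eq_zero fun l _ => by rw [hcon l, smul_zero]
  obtain ⟨x'', hx''⟩ : ∃ x'' : Fin (n' + 1) → FunField P, x'' = fun l => x' l / x' i₀ := ⟨_, rfl⟩
  have hx''0 : x'' i₀ = 1 := by rw [hx'']; exact div_self hi₀
  have hlin'' : ∀ v, lin v x'' = lin v x' / x' i₀ := by
    intro v
    rw [hx'']
    exact CovLGT_lin_div v x' (x' i₀)
  have hne'' : ∀ j : {j // j ∉ J}, lin (restr B (l j)) x'' ≠ 0 := by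
    intro j
    rw [hlin'', hlin']
    refine div_ne_zero (fun h => j.2 ?_) hi₀
    exact Finset.mem_filter.2 ⟨Finset.mem_univ _, h⟩
  have halg'' : Algebra.IsAlgebraic (IntermediateField.adjoin ℂ (Set.range x'')) (FunField P) := by
    have hle : IntermediateField.adjoin ℂ (Set.range x) ≤
        IntermediateField.adjoin ℂ (Set.range x'') := by
      rw [IntermediateField.adjoin_le_iff]
      rintro _ ⟨i, rfl⟩
      have hmem : ∀ v, lin v x'' ∈ IntermediateField.adjoin ℂ (Set.range x'') := by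
        intro v
        unfold lin
        refine sum_mem fun l _ => ?_
        rw [Algebra.smul_def]
        exact mul_mem (IntermediateField.algebraMap_mem _ _)
          (IntermediateField.subset_adjoin _ _ ⟨l, rfl⟩)
      have h1 : x i = lin (B i) x'' / lin (B a₀) x'' := by
        rw [hlin'', hlin'', ← hxB i, ← hxB a₀, hxa₀, div_div_div_cancel_right₀ hi₀, div_one]
      rw [h1]
      exact div_mem (hmem _) (hmem _)
    exact CovLGT_alg hle halg
  have hkn : k + 1 ≤ n' := trdeg_le hx''0 halg'' hz'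
  obtain ⟨T, hTcard, hTind⟩ := exists_indep hSp
  have htne : ∀ j : T, restr B (l j.1) ≠ 0 := by
    intro j h
    apply hne'' j.1
    unfold lin
    exact Finset.sum_eq_zero fun i _ => by
      rw [h, Pi.zero_apply, zero_smul]
  have hli := linearIndependent_derivatives hx''0 halg'' bb
  obtain ⟨Q, hQ, hQne⟩ := exists_good_field (r := k + 2) (e := b + 1)
    (t := fun j : T => restr B (l j.1)) (by omega) (by omega) (by omega) htne hTind hli
    (fun j => ⟨0, by
      rw [Fin.cons_zero]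
      exact hne'' j.1⟩)
  have hwtK : 1 ≤ wtK n' (b + 1) (k + 2) := by
    unfold wtK
    exact Nat.choose_pos (by omega)
  have hb' : n' * (q + 1) < b * (q - 1) :=
    lt_of_le_of_lt (Nat.mul_le_mul_right _ hn') hb
  have hnum := numCond (n := n') (m := q) (b := b) (r := k + 2) (by omega) hq hb' (by omega)
    (by omega)
  have hnum' : q * (k + 2) * wtK n' (b + 1) (k + 2) < (q - 1) * Fintype.card T := by
    rw [Fintype.card_coe, hTcard]
    exact hnum
  refine isLogGeneralType_of_goodO hz' (CovLGT_genPos hGP T) hx''0 halg''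
    (fun j : T => hne'' j.1) hq hwtK hQ bb hQne hnum' ?_
  intro E hE i₁ hi₁ j
  have hfin : ∀ f : FunField P, f ≠ 0 → ∃ o : ℤ, E.ord f = (o : WithTop ℤ) := by
    intro f hf
    have h1 : E.ord f ≠ ⊤ := fun h => hf ((AddValuation.top_iff _).1 h)
    exact ⟨(E.ord f).untop h1, (WithTop.coe_untop _ h1).symm⟩
  obtain ⟨γ, hγ⟩ := hfin _ hi₀
  -- a coordinate of least order
  obtain ⟨i₂, -, hi₂⟩ := Finset.exists_min_image (Finset.univ : Finset (Fin (r + 1)))
    (fun i => E.ord (x i)) ⟨a₀, Finset.mem_univ _⟩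
  have hi₂' : ∀ i, E.ord (x i₂) ≤ E.ord (x i) := fun i => hi₂ i (Finset.mem_univ _)
  have hmul : ∀ v, E.ord (lin v x') = E.ord (lin v x'') + (γ : WithTop ℤ) := by
    intro v
    have h1 : lin v x' = lin v x'' * x' i₀ := by
      rw [hlin'', div_mul_cancel₀ _ hi₀]
    rw [h1, AddValuation.map_mul, hγ]
  have hmulx : ∀ i, E.ord (x' i) = E.ord (x'' i) + (γ : WithTop ℤ) := by
    intro i
    have h1 := hmul (Pi.single i 1)
    rwa [CovLGT_lin_single, CovLGT_lin_single] at h1
  have hle1 : E.ord (x i₂) ≤ E.ord (x'' i₁) + (γ : WithTop ℤ) := by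
    rw [← hmulx i₁, hx']
    exact CovLGT_ord_lin E _ x _ hi₂'
  have hle2 : E.ord (x'' i₁) + (γ : WithTop ℤ) ≤ E.ord (x i₂) := by
    rw [hxB i₂]
    refine CovLGT_ord_lin E _ x' _ fun i => ?_
    rw [hmulx i]
    exact add_le_add (hi₁ i) le_rfl
  have hmin : E.ord (x i₂) = E.ord (x'' i₁) + (γ : WithTop ℤ) := le_antisymm hle1 hle2
  have hord := cov_ord (by omega : 1 ≤ q) P hP hF O hram hj₀ ha₀ E hE i₂
    (by rw [hx] at hi₂'; exact hi₂') j.1
  have hx1 : (fun a => Pool.Agent.H5.DG.valAt P j₀ F a / Pool.Agent.H5.DG.valAt P j₀ F a₀) = x :=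
    hx.symm
  have hx2 : ∀ a, Pool.Agent.H5.DG.valAt P j₀ F a / Pool.Agent.H5.DG.valAt P j₀ F a₀ = x a :=
    fun a => congrFun hx1 a
  rw [hx1, hx2, ← hlin', hmul, hmin] at hord
  have hcancel : ∀ u v : WithTop ℤ, u + (γ : WithTop ℤ) ≤ v + (γ : WithTop ℤ) → u ≤ v := by
    intro u v h
    exact (WithTop.add_le_add_iff_right (WithTop.coe_ne_top)).1 h
  rcases hord with h | h
  · left
    exact le_antisymm (hcancel _ _ h.le) (hcancel _ _ h.ge)
  · right
    refine hcancel _ _ ?_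
    rw [add_right_comm]
    exact h

end Pool.Agent.H39.HC

end
end
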