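import Pool.Agent.H94.DG.H39.HC.GoodBound
import Pool.Agent.H94.DG.M11
import Pool.Agent.H94.DG.M19
import Pool.Agent.H94.DG.M22
import Pool.Agent.H94.DG.M26
import Pool.Agent.H94.DG.M29

/-! The parts of this file: H39.HC.Lift, H39.HC.Growth, H39.HC.OrbCore, H39.HC.Orb. -/

section

/-!
# Local lifts of holomorphic maps, and the order of a good polynomial
-/

open MvPolynomial Topology Filter
open Pool.Agent.H92.GGL (ordZ indN)

noncomputable section

namespace Pool.Agent.H39.HC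

/-- Local holomorphic homogeneous coordinates `ψ` with the ratios `u i` of the values of the linear
forms `t i`; the linear forms `s j` vanish identically. -/
structure LocalLift {ι J : Type} [Fintype ι] {n : ℕ} (t : ι → Fin (n + 1) → ℂ)
    (s : J → Fin (n + 1) → ℂ) (θ : ι → ℝ) (u : ι → ℂ → ℂ) (i₀ : ι) (z₀ : ℂ)
    (ψ : ℂ → Fin (n + 1) → ℂ) : Prop where
  an : AnalyticAt ℂ ψ z₀
  ne : ∀ i, ∀ᶠ z in 𝓝[≠] z₀, lin (t i) (ψ z) ≠ 0
  quot : ∀ᶠ z in 𝓝 z₀, ∀ i, u i z = lin (t i) (ψ z) / lin (t i₀) (ψ z)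
  van : ∀ᶠ z in 𝓝 z₀, ∀ j, lin (s j) (ψ z) = 0
  ne0 : ψ z₀ ≠ 0
  orb : ∑ i, indN (analyticOrderNatAt (fun z => lin (t i) (ψ z)) z₀) ≤
    ∑ i, θ i * analyticOrderNatAt (fun z => lin (t i) (ψ z)) z₀

variable {ι J : Type} [Fintype ι] [Fintype J] {n K : ℕ} {t : ι → Fin (n + 1) → ℂ}
  {s : J → Fin (n + 1) → ℂ} {θ : ι → ℝ} {u : ι → ℂ → ℂ} {i₀ : ι} {z₀ : ℂ}
  {ψ : ℂ → Fin (n + 1) → ℂ} {Q : MvPolynomial (Fin 2 × Fin (n + 1)) ℂ}

/-- A left inverse of the values of the linear forms. -/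
theorem exists_leftInverse (hgp : GenPos (Sum.elim t s))
    (hcs : n + 1 ≤ Fintype.card ι + Fintype.card J) :
    ∃ b : Fin (n + 1) → ι → ℂ, ∀ p : Fin (n + 1) → ℂ, (∀ j, lin (s j) p = 0) →
      ∀ l, p l = ∑ i, b l i * lin (t i) p := by
  obtain ⟨b, -, hb⟩ := GoodBound_leftInv hgp Finset.univ (by rw [Finset.card_univ]; exact hcs)
  exact ⟨b, hb⟩

theorem Lift_comp_an {φ : ℂ → Fin (n + 1) → ℂ} {z : ℂ} (h : AnalyticAt ℂ φ z) (l : Fin (n + 1)) :
    AnalyticAt ℂ (fun w => φ w l) z :=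
  analyticAt_pi_iff.mp h l

theorem Lift_lin_an {φ : ℂ → Fin (n + 1) → ℂ} {z : ℂ} (h : ∀ l, AnalyticAt ℂ (fun w => φ w l) z)
    (v : Fin (n + 1) → ℂ) : AnalyticAt ℂ (fun w => lin v (φ w)) z := by
  simp only [GoodBound_lin]
  exact Finset.analyticAt_fun_sum _ fun l _ => analyticAt_const.mul (h l)

theorem Lift_lin_deriv {φ : ℂ → Fin (n + 1) → ℂ} {z : ℂ}
    (h : ∀ l, AnalyticAt ℂ (fun w => φ w l) z) (v : Fin (n + 1) → ℂ) :
    deriv (fun w => lin v (φ w)) z = lin v (fun l => deriv (fun w => φ w l) z) := by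
  simp only [GoodBound_lin]
  have h1 : HasDerivAt (fun w => ∑ l, v l * φ w l)
      (∑ l, v l * deriv (fun w => φ w l) z) z := by
    refine HasDerivAt.fun_sum fun l _ => ?_
    exact (h l).differentiableAt.hasDerivAt.const_mul _
  exact h1.deriv

theorem Lift_lin_div (v p : Fin (n + 1) → ℂ) (d : ℂ) :
    lin v (fun l => p l / d) = lin v p / d := by
  rw [GoodBound_lin, GoodBound_lin, Finset.sum_div]
  refine Finset.sum_congr rfl fun l _ => ?_
  ring

theorem Lift_indep (hgp : GenPos (Sum.elim t s)) (I : Finset ι) (hI : I.card ≤ n + 1) :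
    LinearIndependent ℂ (fun j : I => t j) := by
  classical
  have h1 := hgp (I.map ⟨Sum.inl, Sum.inl_injective⟩) (by rw [Finset.card_map]; omega)
  let f : I → (I.map (⟨Sum.inl, Sum.inl_injective⟩ : ι ↪ ι ⊕ J) : Finset (ι ⊕ J)) :=
    fun j => ⟨Sum.inl (j : ι), Finset.mem_map_of_mem _ j.2⟩
  have hf : Function.Injective f := by
    intro j k hjk
    have h2 : (Sum.inl (j : ι) : ι ⊕ J) = Sum.inl (k : ι) := congrArg Subtype.val hjk
    exact Subtype.ext (Sum.inl_injective h2)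
  exact h1.comp f hf

/-- An eventual property in a punctured neighbourhood holds in neighbourhoods of nearby points. -/
theorem Lift_ev {p : ℂ → Prop} (h : ∀ᶠ z in 𝓝[≠] z₀, p z) :
    ∀ᶠ z in 𝓝[≠] z₀, ∀ᶠ w in 𝓝 z, p w := by
  have h1 := eventually_eventually_nhdsWithin.mpr h
  filter_upwards [h1, self_mem_nhdsWithin] with z h2 h3
  rwa [isOpen_compl_singleton.nhdsWithin_eq h3] at h2

/-- The values of a good polynomial for the normalised coordinates and for the lift. -/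
theorem LocalLift.ev_eq (h : LocalLift t s θ u i₀ z₀ ψ) (hQ : Good t K Q)
    {F : ℂ → Fin (n + 1) → ℂ}
    (hF : ∀ᶠ z in 𝓝[≠] z₀, ∀ l, F z l = ψ z l / lin (t i₀) (ψ z)) :
    ∀ᶠ z in 𝓝[≠] z₀, ev ![F z, fun l => deriv (fun w => F w l) z] Q *
      lin (t i₀) (ψ z) ^ (2 * K) = ev ![ψ z, fun l => deriv (fun w => ψ w l) z] Q := by
  filter_upwards [h.ne i₀, Lift_ev hF, mem_nhdsWithin_of_mem_nhds h.an.eventually_analyticAt]
    with z hz hFz han
  have hc : ∀ l, AnalyticAt ℂ (fun w => ψ w l) z := fun l => Lift_comp_an han l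
  have hd : AnalyticAt ℂ (fun w => lin (t i₀) (ψ w)) z := Lift_lin_an hc _
  set d : ℂ := lin (t i₀) (ψ z) with hdd
  set d' : ℂ := deriv (fun w => lin (t i₀) (ψ w)) z with hdd'
  have h1 := hQ.det !![d⁻¹, 0; -(d' / d ^ 2), d⁻¹] ![ψ z, fun l => deriv (fun w => ψ w l) z]
  have e1 : (fun (a : Fin 2) i => ∑ b, (!![d⁻¹, 0; -(d' / d ^ 2), d⁻¹] :
      Matrix (Fin 2) (Fin 2) ℂ) a b * (![ψ z, fun l => deriv (fun w => ψ w l) z] :
        Fin 2 → Fin (n + 1) → ℂ) b i) = ![F z, fun l => deriv (fun w => F w l) z] := by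
    funext a l
    fin_cases a
    · show ∑ b, (!![d⁻¹, 0; -(d' / d ^ 2), d⁻¹] : Matrix (Fin 2) (Fin 2) ℂ) 0 b *
        (![ψ z, fun l => deriv (fun w => ψ w l) z] : Fin 2 → Fin (n + 1) → ℂ) b l = F z l
      rw [Fin.sum_univ_two, hFz.self_of_nhds l]
      simp
      rw [← hdd]
      field_simp
    · show ∑ b, (!![d⁻¹, 0; -(d' / d ^ 2), d⁻¹] : Matrix (Fin 2) (Fin 2) ℂ) 1 b *
        (![ψ z, fun l => deriv (fun w => ψ w l) z] : Fin 2 → Fin (n + 1) → ℂ) b l =
          deriv (fun w => F w l) z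
      have h2 : (fun w => F w l) =ᶠ[𝓝 z] fun w => ψ w l / lin (t i₀) (ψ w) := by
        filter_upwards [hFz] with w hw
        exact hw l
      rw [h2.deriv_eq, ((hc l).differentiableAt.hasDerivAt.fun_div
        hd.differentiableAt.hasDerivAt hz).deriv, Fin.sum_univ_two]
      simp
      rw [← hdd, ← hdd']
      field_simp
      ring
  rw [e1, Matrix.det_fin_two_of] at h1
  rw [h1]
  have h3 : (d⁻¹ * d⁻¹ - 0 * -(d' / d ^ 2)) ^ K * d ^ (2 * K) = 1 := by
    rw [zero_mul, sub_zero, ← sq, ← pow_mul, ← mul_pow, inv_mul_cancel₀ hz, one_pow]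
  calc (d⁻¹ * d⁻¹ - 0 * -(d' / d ^ 2)) ^ K *
        ev ![ψ z, fun l => deriv (fun w => ψ w l) z] Q * d ^ (2 * K)
      = ((d⁻¹ * d⁻¹ - 0 * -(d' / d ^ 2)) ^ K * d ^ (2 * K)) *
        ev ![ψ z, fun l => deriv (fun w => ψ w l) z] Q := by ring
    _ = _ := by rw [h3, one_mul]

/-- A function with a zero of order `o` and its derivative. -/
theorem Lift_bound {f v : ℂ → ℂ} {o : ℕ} (hf : AnalyticAt ℂ f z₀) (hv : AnalyticAt ℂ v z₀)
    (hfv : ∀ᶠ z in 𝓝 z₀, f z = (z - z₀) ^ o * v z) :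
    ∃ A : ℝ, 1 ≤ A ∧ ∀ᶠ z in 𝓝 z₀, ‖f z‖ ≤ A * ‖z - z₀‖ ^ (o - 1) ∧
      ‖deriv f z‖ ≤ A * ‖z - z₀‖ ^ (o - 1) := by
  obtain ⟨B₁, hB₁, hB₁'⟩ := Pool.Agent.H92.GGL.exists_bound_near hv.continuousAt
  obtain ⟨B₂, hB₂, hB₂'⟩ := Pool.Agent.H92.GGL.exists_bound_near hv.deriv.continuousAt
  obtain ⟨B₃, hB₃, hB₃'⟩ := Pool.Agent.H92.GGL.exists_bound_near hf.deriv.continuousAt
  refine ⟨B₃ + o * B₁ + B₂ + B₁, by nlinarith only [hB₁, hB₂, hB₃, Nat.cast_nonneg (α := ℝ) o], ?_⟩
  have hball : ∀ᶠ z in 𝓝 z₀, ‖z - z₀‖ ≤ 1 := by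
    have : ∀ᶠ z in 𝓝 z₀, z ∈ Metric.closedBall z₀ 1 := Metric.closedBall_mem_nhds z₀ one_pos
    filter_upwards [this] with z hz
    rwa [mem_closedBall_iff_norm] at hz
  have hev : f =ᶠ[𝓝 z₀] fun z => (z - z₀) ^ o * v z := hfv
  filter_upwards [hev, hev.deriv, hB₁', hB₂', hB₃', hball, hv.eventually_analyticAt]
    with z h1 h2 h3 h4 h5 h6 h7
  have hnn := norm_nonneg (z - z₀)
  have hoi : (0 : ℝ) ≤ o := Nat.cast_nonneg _
  have hpw : 0 ≤ ‖z - z₀‖ ^ (o - 1) := by positivity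
  constructor
  · rw [h1, norm_mul, norm_pow]
    have h8 : ‖z - z₀‖ ^ o ≤ ‖z - z₀‖ ^ (o - 1) :=
      pow_le_pow_of_le_one hnn h6 (by omega)
    calc ‖z - z₀‖ ^ o * ‖v z‖ ≤ ‖z - z₀‖ ^ (o - 1) * B₁ := by gcongr
      _ = B₁ * ‖z - z₀‖ ^ (o - 1) := by ring
      _ ≤ _ := by
        gcongr
        nlinarith only [hB₂, hB₃, hB₁]
  · rcases Nat.eq_zero_or_pos o with h0 | hpos
    · rw [h0]
      simp only [zero_le, Nat.sub_eq_zero_of_le, pow_zero, mul_one, Nat.cast_zero, zero_mul,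
        add_zero]
      linarith
    · obtain ⟨m, hm⟩ : ∃ m, o = m + 1 := ⟨o - 1, by omega⟩
      rw [h2]
      have h9 : HasDerivAt (fun z => (z - z₀) ^ o) (((m + 1 : ℕ) : ℂ) * (z - z₀) ^ m) z := by
        rw [hm]
        have := ((hasDerivAt_id z).sub_const z₀).fun_pow (m + 1)
        simpa using this
      have h10 := (h9.fun_mul h7.differentiableAt.hasDerivAt).deriv
      rw [h10, hm]
      simp only [Nat.add_sub_cancel]
      have h11 : ‖((m + 1 : ℕ) : ℂ) * (z - z₀) ^ m * v z‖ ≤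
          ((m + 1 : ℕ) : ℝ) * B₁ * ‖z - z₀‖ ^ m := by
        rw [norm_mul, norm_mul, norm_pow, Complex.norm_natCast]
        calc ((m + 1 : ℕ) : ℝ) * ‖z - z₀‖ ^ m * ‖v z‖ ≤
            ((m + 1 : ℕ) : ℝ) * ‖z - z₀‖ ^ m * B₁ := by gcongr
          _ = _ := by ring
      have h12 : ‖(z - z₀) ^ (m + 1) * deriv v z‖ ≤ B₂ * ‖z - z₀‖ ^ m := by
        rw [norm_mul, norm_pow]
        calc ‖z - z₀‖ ^ (m + 1) * ‖deriv v z‖ ≤ ‖z - z₀‖ ^ m * B₂ := by
              gcongr ?_ * ?_
              exact pow_le_pow_of_le_one hnn h6 (by omega)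
          _ = _ := by ring
      refine (norm_add_le _ _).trans ((add_le_add h11 h12).trans ?_)
      have hpm : 0 ≤ ‖z - z₀‖ ^ m := by positivity
      nlinarith only [hpm, hB₁, hB₃]

/-- The orders of the values of the linear forms are finite. -/
theorem LocalLift.order_eq (h : LocalLift t s θ u i₀ z₀ ψ) (i : ι) :
    (analyticOrderNatAt (fun z => lin (t i) (ψ z)) z₀ : ℕ∞) =
      analyticOrderAt (fun z => lin (t i) (ψ z)) z₀ := by
  apply Nat.cast_analyticOrderNatAt
  rw [Ne, analyticOrderAt_eq_top]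
  intro hcon
  obtain ⟨z, h1, h2⟩ := ((h.ne i).and (mem_nhdsWithin_of_mem_nhds hcon)).exists
  exact h1 h2

/-- At most `n` of the values vanish. -/
theorem LocalLift.card_le [DecidableEq ι] (h : LocalLift t s θ u i₀ z₀ ψ)
    (hgp : GenPos (Sum.elim t s)) :
    (Finset.univ.filter fun i => analyticOrderNatAt (fun z => lin (t i) (ψ z)) z₀ ≠ 0).card
      ≤ n := by
  by_contra hcon
  push Not at hcon
  obtain ⟨b, hb0, hb⟩ := GoodBound_leftInv hgp
    (Finset.univ.filter fun i => analyticOrderNatAt (fun z => lin (t i) (ψ z)) z₀ ≠ 0) (by omega)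
  apply h.ne0
  funext l
  rw [hb (ψ z₀) h.van.self_of_nhds l, Pi.zero_apply]
  refine Finset.sum_eq_zero fun i _ => ?_
  by_cases hi : analyticOrderNatAt (fun z => lin (t i) (ψ z)) z₀ ≠ 0
  · have h1 : lin (t i) (ψ z₀) = 0 := by
      by_contra h2
      apply hi
      have h3 := (Lift_lin_an (fun l => Lift_comp_an h.an l) (t i)).analyticOrderAt_eq_zero.mpr h2
      unfold analyticOrderNatAt
      rw [h3]
      rfl
    rw [h1, mul_zero]
  · rw [hb0 l i (fun h1 => hi (Finset.mem_filter.mp h1).2), zero_mul]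

/-- **The order of a good polynomial** (compare `H92.GGL.LocalLift.ordZ_resultant`).  Here
`F = ψ / lin (t i₀) ψ` are the normalised coordinates. -/
theorem LocalLift.ordZ_good [DecidableEq ι] (h : LocalLift t s θ u i₀ z₀ ψ)
    (hgp : GenPos (Sum.elim t s)) (hQ : Good t K Q) {F : ℂ → Fin (n + 1) → ℂ}
    (hF : ∀ᶠ z in 𝓝[≠] z₀, ∀ l, F z l = ψ z l / lin (t i₀) (ψ z)) {g : ℂ → ℂ}
    (hg : ∀ᶠ z in 𝓝[≠] z₀, g z = ev ![F z, fun l => deriv (fun w => F w l) z] Q)
    (hgm : MeromorphicAt g z₀) (hgo : meromorphicOrderAt g z₀ ≠ ⊤) :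
    ((∑ i, (analyticOrderNatAt (fun z => lin (t i) (ψ z)) z₀ - 1) : ℕ) : ℤ) -
      ((2 * K * analyticOrderNatAt (fun z => lin (t i₀) (ψ z)) z₀ : ℕ) : ℤ) ≤ ordZ g z₀ := by
  classical
  set o : ι → ℕ := fun i => analyticOrderNatAt (fun z => lin (t i) (ψ z)) z₀ with ho
  have hcomp : ∀ l, AnalyticAt ℂ (fun w => ψ w l) z₀ := fun l => Lift_comp_an h.an l
  have hfan : ∀ i, AnalyticAt ℂ (fun z => lin (t i) (ψ z)) z₀ := fun i => Lift_lin_an hcomp _
  have hdec : ∀ i, ∃ v : ℂ → ℂ, AnalyticAt ℂ v z₀ ∧ v z₀ ≠ 0 ∧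
      ∀ᶠ z in 𝓝 z₀, lin (t i) (ψ z) = (z - z₀) ^ o i * v z := by
    intro i
    have h1 := (h.order_eq i).symm
    rw [(hfan i).analyticOrderAt_eq_natCast] at h1
    exact h1
  choose v hv hv0 hψv using hdec
  choose A hA1 hA using fun i => Lift_bound (hfan i) (hv i) (hψv i)
  set B : Finset ι := Finset.univ.filter fun i => o i ≠ 0 with hB
  have hBcard : B.card ≤ n := h.card_le hgp
  have hBli : LinearIndependent ℂ (fun j : B => t j) := Lift_indep hgp B (by omega)
  obtain ⟨C, hC0, hC⟩ := hQ.norm_bound hBli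
  -- a bound for the coordinates
  choose R hR1 hR using fun l => Pool.Agent.H92.GGL.exists_bound_near (hcomp l).continuousAt
  choose R' hR1' hR' using fun l =>
    Pool.Agent.H92.GGL.exists_bound_near (hcomp l).deriv.continuousAt
  set S : ℝ := 1 + ∑ l, (R l + R' l) with hS
  have hRsum : 0 ≤ ∑ l, (R l + R' l) :=
    Finset.sum_nonneg fun l _ => by linarith only [hR1, hR1', hR1 l, hR1' l]
  have hS0 : 0 < S := by linarith only [hRsum]
  have hRS : ∀ l, R l ≤ S ∧ R' l ≤ S := by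
    intro l
    have h1 : R l + R' l ≤ ∑ l, (R l + R' l) :=
      Finset.single_le_sum (f := fun l => R l + R' l)
        (fun l _ => by linarith only [hR1, hR1', hR1 l, hR1' l]) (Finset.mem_univ l)
    constructor <;> linarith only [h1, hR1, hR1 l, hR1' l]
  have hbound : ∀ᶠ z in 𝓝[≠] z₀, ‖ev ![ψ z, fun l => deriv (fun w => ψ w l) z] Q‖ ≤
      S ^ (2 * K) * (C * ∏ i ∈ B, (S⁻¹ * A i)) * ‖z - z₀‖ ^ (∑ i, (o i - 1)) := by
    filter_upwards [mem_nhdsWithin_of_mem_nhds (eventually_all.mpr hA),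
      mem_nhdsWithin_of_mem_nhds (eventually_all.mpr hR),
      mem_nhdsWithin_of_mem_nhds (eventually_all.mpr hR'),
      mem_nhdsWithin_of_mem_nhds h.an.eventually_analyticAt] with z h1 h2 h3 h4
    set p : Fin (n + 1) → ℂ := ψ z with hp
    set p' : Fin (n + 1) → ℂ := fun l => deriv (fun w => ψ w l) z with hp'
    have hlin' : ∀ i, lin (t i) p' = deriv (fun w => lin (t i) (ψ w)) z := fun i =>
      (Lift_lin_deriv (fun l => Lift_comp_an h4 l) (t i)).symm
    have hlinscale : ∀ (v : Fin (n + 1) → ℂ) (q : Fin (n + 1) → ℂ) (a : ℂ),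
        lin v (fun l => a * q l) = a * lin v q := by
      intro v q a
      rw [GoodBound_lin, GoodBound_lin, Finset.mul_sum]
      refine Finset.sum_congr rfl fun i _ => ?_
      ring
    have hnorm : ‖((S⁻¹ : ℝ) : ℂ)‖ = S⁻¹ := by
      rw [Complex.norm_real, Real.norm_of_nonneg (by positivity)]
    have h5 := hC ![fun l => ((S⁻¹ : ℝ) : ℂ) * p l, fun l => ((S⁻¹ : ℝ) : ℂ) * p' l]
      (fun i => S⁻¹ * A i * ‖z - z₀‖ ^ (o i - 1)) (by
        intro a l
        fin_cases a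
        · show ‖((S⁻¹ : ℝ) : ℂ) * p l‖ ≤ 1
          rw [norm_mul, hnorm, inv_mul_le_iff₀ hS0, mul_one]
          exact (h2 l).trans (hRS l).1
        · show ‖((S⁻¹ : ℝ) : ℂ) * p' l‖ ≤ 1
          rw [norm_mul, hnorm, inv_mul_le_iff₀ hS0, mul_one]
          exact (h3 l).trans (hRS l).2) (by
        intro j _ a
        fin_cases a
        · show ‖lin (t j) (fun l => ((S⁻¹ : ℝ) : ℂ) * p l)‖ ≤ _
          rw [hlinscale, norm_mul, hnorm, mul_assoc]
          gcongr
          exact (h1 j).1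
        · show ‖lin (t j) (fun l => ((S⁻¹ : ℝ) : ℂ) * p' l)‖ ≤ _
          rw [hlinscale, norm_mul, hnorm, mul_assoc, hlin']
          gcongr
          exact (h1 j).2) (fun j _ => by
        have := hA1 j
        positivity)
    have h6 := GoodBound_scale hQ (fun l => ((S⁻¹ : ℝ) : ℂ) * p l)
      (fun l => ((S⁻¹ : ℝ) : ℂ) * p' l) (S : ℂ) (S : ℂ)
    have h7 : (![fun l => (S : ℂ) * (((S⁻¹ : ℝ) : ℂ) * p l),
        fun l => (S : ℂ) * (((S⁻¹ : ℝ) : ℂ) * p' l)] : Fin 2 → Fin (n + 1) → ℂ) = ![p, p'] := by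
      have h8 : ∀ z : ℂ, (S : ℂ) * (((S⁻¹ : ℝ) : ℂ) * z) = z := by
        intro z
        rw [← mul_assoc, ← Complex.ofReal_mul, mul_inv_cancel₀ hS0.ne', Complex.ofReal_one,
          one_mul]
      congr 1
      · funext l
        exact h8 _
      · congr 1
        funext l
        exact h8 _
    rw [h7] at h6
    rw [h6, norm_mul, norm_pow, norm_mul, Complex.norm_real, Real.norm_of_nonneg hS0.le, ← sq,
      ← pow_mul]
    have h9 : ∏ i ∈ B, (S⁻¹ * A i * ‖z - z₀‖ ^ (o i - 1)) =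
        (∏ i ∈ B, (S⁻¹ * A i)) * ‖z - z₀‖ ^ (∑ i, (o i - 1)) := by
      rw [Finset.prod_mul_distrib, Finset.prod_pow_eq_pow_sum]
      congr 2
      refine Finset.sum_subset (Finset.subset_univ _) fun i _ hi => ?_
      have : o i = 0 := by
        by_contra h
        exact hi (Finset.mem_filter.mpr ⟨Finset.mem_univ i, h⟩)
      omega
    rw [h9] at h5
    calc S ^ (2 * K) * ‖ev ![fun l => ((S⁻¹ : ℝ) : ℂ) * p l,
          fun l => ((S⁻¹ : ℝ) : ℂ) * p' l] Q‖
        ≤ S ^ (2 * K) * (C * ((∏ i ∈ B, (S⁻¹ * A i)) * ‖z - z₀‖ ^ (∑ i, (o i - 1)))) := by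
          gcongr
      _ = _ := by ring
  refine Pool.Agent.H92.GGL.le_ordZ_of_bound (h := fun z => v i₀ z ^ (2 * K))
    (B := S ^ (2 * K) * (C * ∏ i ∈ B, (S⁻¹ * A i))) hgm hgo ((hv i₀).pow _)
    (pow_ne_zero _ (hv0 i₀)) ?_
  filter_upwards [hbound, h.ev_eq hQ hF, mem_nhdsWithin_of_mem_nhds (hψv i₀), hg]
    with z h1 h2 h3 h4
  have h5 : (z - z₀) ^ (2 * K * o i₀) * v i₀ z ^ (2 * K) = lin (t i₀) (ψ z) ^ (2 * K) := by
    rw [h3, mul_pow, ← pow_mul, mul_comm (2 * K)]
  rw [h5, ← norm_mul, h4, h2]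
  exact h1

end Pool.Agent.H39.HC

end
end

section

/-!
# Growth of the ratios of linear forms at a puncture
-/

open MvPolynomial Topology Filter

noncomputable section

namespace Pool.Agent.H39.HC

open Pool.Agent.H92.GGL (ordZ indN indN_zero indN_of_ne exists_params growth_of_weights ordZ_div isPreconnected_punctured)

theorem Growth_mero {σ : Type*} {c : σ → ℂ → ℂ} {z : ℂ} (hc : ∀ p, MeromorphicAt (c p) z)
    (Q : MvPolynomial σ ℂ) : MeromorphicAt (fun w => aeval (fun p => c p w) Q) z := by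
  induction Q using MvPolynomial.induction_on with
  | C a =>
    simp only [aeval_C]
    exact MeromorphicAt.const _ z
  | add p q hp hq =>
    simp only [map_add]
    exact hp.fun_add hq
  | mul_X p i hp =>
    simp only [map_mul, aeval_X]
    exact hp.fun_mul (hc i)

theorem Growth_an {σ : Type*} {c : σ → ℂ → ℂ} {z : ℂ} (hc : ∀ p, AnalyticAt ℂ (c p) z)
    (Q : MvPolynomial σ ℂ) : AnalyticAt ℂ (fun w => aeval (fun p => c p w) Q) z := by
  induction Q using MvPolynomial.induction_on with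
  | C a =>
    simp only [aeval_C]
    exact analyticAt_const
  | add p q hp hq =>
    simp only [map_add]
    exact hp.fun_add hq
  | mul_X p i hp =>
    simp only [map_mul, aeval_X]
    exact hp.fun_mul (hc i)

section

variable {ι J : Type} [Fintype ι] {n : ℕ}
  {t : ι → Fin (n + 1) → ℂ} {s : J → Fin (n + 1) → ℂ} {θ : ι → ℝ} {u : ι → ℂ → ℂ} {i₀ : ι}
  {z : ℂ} {ψ : ℂ → Fin (n + 1) → ℂ}

theorem LocalLift.lin_an (h : LocalLift t s θ u i₀ z ψ) (i : ι) :
    AnalyticAt ℂ (fun w => lin (t i) (ψ w)) z :=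
  Lift_lin_an (fun l => Lift_comp_an h.an l) (t i)

theorem LocalLift.meromorphicAt (h : LocalLift t s θ u i₀ z ψ) (i : ι) :
    MeromorphicAt (u i) z := by
  refine ((h.lin_an i).meromorphicAt.div (h.lin_an i₀).meromorphicAt).congr ?_
  filter_upwards [mem_nhdsWithin_of_mem_nhds h.quot] with w hw
  exact (hw i).symm

theorem LocalLift.order_ne_top (h : LocalLift t s θ u i₀ z ψ) (i : ι) :
    meromorphicOrderAt (u i) z ≠ ⊤ := by
  rw [meromorphicOrderAt_ne_top_iff_eventually_ne_zero (h.meromorphicAt i)]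
  filter_upwards [mem_nhdsWithin_of_mem_nhds h.quot, h.ne i, h.ne i₀] with w hw h1 h2
  rw [hw i]
  exact div_ne_zero h1 h2

theorem LocalLift.ordZ_eq (h : LocalLift t s θ u i₀ z ψ) (i : ι) :
    ordZ (u i) z = (analyticOrderNatAt (fun w => lin (t i) (ψ w)) z : ℤ) -
      analyticOrderNatAt (fun w => lin (t i₀) (ψ w)) z := by
  refine ordZ_div (h.lin_an i) (h.lin_an i₀) (h.ne i) (h.ne i₀) ?_
  filter_upwards [mem_nhdsWithin_of_mem_nhds h.quot] with w hw
  exact hw i

end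

variable {ι J : Type} [Fintype ι] [Fintype J] [DecidableEq ι] {n K : ℕ}
  {t : ι → Fin (n + 1) → ℂ} {s : J → Fin (n + 1) → ℂ} {θ : ι → ℝ} {u : ι → ℂ → ℂ} {i₀ : ι}
  {Q : MvPolynomial (Fin 2 × Fin (n + 1)) ℂ}

/-- **The core theorem** (compare `H92.GGL.growth_core`). -/
theorem growth_core (hgp : GenPos (Sum.elim t s))
    (hcs : n + 1 ≤ Fintype.card ι + Fintype.card J) (hQ : Good t K Q) (hK : 1 ≤ K)
    (hθ0 : ∀ i, 0 ≤ θ i) (hnum : ∑ i, θ i + 2 * K < Fintype.card ι) {R₀ : ℝ} (hR₀ : 0 < R₀)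
    (hone : ∀ z, u i₀ z ≠ 0 → u i₀ z = 1)
    (hloc : ∀ z, 0 < ‖z‖ → ‖z‖ < R₀ → ∃ ψ, LocalLift t s θ u i₀ z ψ)
    {z₀ : ℂ} (hz₀ : 0 < ‖z₀‖) (hz₀' : ‖z₀‖ < R₀) {ψ₀ : ℂ → Fin (n + 1) → ℂ}
    (hψ₀ : LocalLift t s θ u i₀ z₀ ψ₀) (hi₀ : lin (t i₀) (ψ₀ z₀) ≠ 0)
    (hQ₀ : ev ![ψ₀ z₀, fun l => deriv (fun z => ψ₀ z l) z₀] Q ≠ 0) (j : ι) :
    ∃ (ε M : ℝ) (m : ℕ), 0 < ε ∧ 0 ≤ M ∧ ∀ z, 0 < ‖z‖ → ‖z‖ < ε →
      0 ≤ meromorphicOrderAt (u j) z ∧ (AnalyticAt ℂ (u j) z → ‖u j z‖ * ‖z‖ ^ m ≤ M) := by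
  classical
  have hne : Nonempty ι := ⟨i₀⟩
  have hsumθ : 0 ≤ ∑ i, θ i := Finset.sum_nonneg fun i _ => hθ0 i
  have h2K : 2 * K < Fintype.card ι := by
    have : (2 * K : ℝ) < Fintype.card ι := by linarith only [hnum, hsumθ]
    exact_mod_cast this
  obtain ⟨b, hb⟩ := exists_leftInverse hgp hcs
  obtain ⟨κ, α, hκ0, hκ2, hα, hhom⟩ := exists_params (Nat.cast_nonneg K) hnum
  obtain ⟨C₀, hC₀, hbd⟩ := good_weight_bound (t := t) (s := s) hgp hcs hQ hK hκ0 hκ2 hθ0 hhom
    h2K.le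
  set F : ℂ → Fin (n + 1) → ℂ := fun z l => ∑ i, b l i * u i z with hF
  set g : ℂ → ℂ := fun z => ev ![F z, fun l => deriv (fun w => F w l) z] Q with hg
  -- the normalised coordinates near a point with a lift
  have hFψ : ∀ (z : ℂ) (ψ : ℂ → Fin (n + 1) → ℂ), LocalLift t s θ u i₀ z ψ →
      ∀ᶠ w in 𝓝 z, ∀ l, F w l = ψ w l / lin (t i₀) (ψ w) := by
    intro z ψ hψ
    filter_upwards [hψ.quot, hψ.van] with w h1 h2 l
    rw [hb (ψ w) h2 l, Finset.sum_div]
    simp only [hF]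
    refine Finset.sum_congr rfl fun i _ => ?_
    rw [h1 i]
    ring
  have hFψ' : ∀ (z : ℂ) (ψ : ℂ → Fin (n + 1) → ℂ), LocalLift t s θ u i₀ z ψ →
      ∀ᶠ w in 𝓝[≠] z, ∀ l, F w l = ψ w l / lin (t i₀) (ψ w) := fun z ψ hψ =>
    mem_nhdsWithin_of_mem_nhds (hFψ z ψ hψ)
  -- meromorphy
  have hum : ∀ i z, 0 < ‖z‖ → ‖z‖ < R₀ → MeromorphicAt (u i) z := by
    intro i z h1 h2
    obtain ⟨ψ, hψ⟩ := hloc z h1 h2
    exact hψ.meromorphicAt i
  have huo : ∀ i z, 0 < ‖z‖ → ‖z‖ < R₀ → meromorphicOrderAt (u i) z ≠ ⊤ := by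
    intro i z h1 h2
    obtain ⟨ψ, hψ⟩ := hloc z h1 h2
    exact hψ.order_ne_top i
  have hgm : ∀ z, 0 < ‖z‖ → ‖z‖ < R₀ → MeromorphicAt g z := by
    intro z h1 h2
    have hFm : ∀ l, MeromorphicAt (fun w => F w l) z := fun l =>
      MeromorphicAt.fun_sum fun i _ => (MeromorphicAt.const _ z).mul (hum i z h1 h2)
    refine Growth_mero (c := fun (p : Fin 2 × Fin (n + 1)) w =>
      (![F w, fun l => deriv (fun w => F w l) w] : Fin 2 → Fin (n + 1) → ℂ) p.1 p.2) ?_ Q
    rintro ⟨a, l⟩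
    fin_cases a
    · exact hFm l
    · exact (hFm l).deriv
  -- `g` does not vanish identically
  have hgo : ∀ z, 0 < ‖z‖ → ‖z‖ < R₀ → meromorphicOrderAt g z ≠ ⊤ := by
    intro z h1 h2
    have hm : MeromorphicOn g {z : ℂ | 0 < ‖z‖ ∧ ‖z‖ < R₀} := fun w hw => hgm w hw.1 hw.2
    refine hm.meromorphicOrderAt_ne_top_of_isPreconnected (isPreconnected_punctured R₀)
      (x := z₀) ⟨hz₀, hz₀'⟩ ⟨h1, h2⟩ ?_
    intro htop
    rw [meromorphicOrderAt_eq_top_iff] at htop
    have hRan : AnalyticAt ℂ (fun z => ev ![ψ₀ z, fun l => deriv (fun w => ψ₀ w l) z] Q) z₀ := by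
      refine Growth_an (c := fun (p : Fin 2 × Fin (n + 1)) w =>
        (![ψ₀ w, fun l => deriv (fun w => ψ₀ w l) w] : Fin 2 → Fin (n + 1) → ℂ) p.1 p.2) ?_ Q
      rintro ⟨a, l⟩
      fin_cases a
      · exact Lift_comp_an hψ₀.an l
      · exact (Lift_comp_an hψ₀.an l).deriv
    have hres' : ∀ᶠ z in 𝓝[≠] z₀, ev ![ψ₀ z, fun l => deriv (fun w => ψ₀ w l) z] Q = 0 := by
      filter_upwards [htop, hψ₀.ev_eq hQ (hFψ' z₀ ψ₀ hψ₀)] with w hw1 hw2
      have h3 : ev ![F w, fun l => deriv (fun w => F w l) w] Q = 0 := hw1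
      rw [h3, zero_mul] at hw2
      exact hw2.symm
    rcases hRan.eventually_eq_zero_or_eventually_ne_zero with h | h
    · exact hQ₀ h.self_of_nhds
    · obtain ⟨w, hw1, hw2⟩ := (hres'.and h).exists
      exact hw2 hw1
  refine growth_of_weights (β := fun i => (2 - κ) * (1 - θ i)) (ρ := K) (g := g) (u := u)
    (i₀ := i₀) hκ0 hα hK hR₀ hum huo hgm hgo hone hC₀ ?_ ?_ j
  · -- the pointwise bound
    intro z h1 h2 hz
    have hFan : ∀ l, AnalyticAt ℂ (fun w => F w l) z := fun l =>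
      Finset.analyticAt_fun_sum _ fun i _ => analyticAt_const.mul (hz i).1
    have hgan : AnalyticAt ℂ g z := by
      refine Growth_an (c := fun (p : Fin 2 × Fin (n + 1)) w =>
        (![F w, fun l => deriv (fun w => F w l) w] : Fin 2 → Fin (n + 1) → ℂ) p.1 p.2) ?_ Q
      rintro ⟨a, l⟩
      fin_cases a
      · exact hFan l
      · exact (hFan l).deriv
    refine ⟨hgan, ?_⟩
    obtain ⟨ψ, hψ⟩ := hloc z h1 h2
    have hlinF : ∀ᶠ w in 𝓝 z, ∀ v : Fin (n + 1) → ℂ,
        lin v (F w) = lin v (ψ w) / lin (t i₀) (ψ w) := by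
      filter_upwards [hFψ z ψ hψ] with w hw v
      have h3 : F w = fun l => ψ w l / lin (t i₀) (ψ w) := funext hw
      rw [h3, Lift_lin_div]
    have hsF : ∀ᶠ w in 𝓝 z, ∀ j, lin (s j) (F w) = 0 := by
      filter_upwards [hlinF, hψ.van] with w h3 h4 j
      rw [h3, h4, zero_div]
    have htF : ∀ᶠ w in 𝓝 z, ∀ i, lin (t i) (F w) = u i w := by
      filter_upwards [hlinF, hψ.quot] with w h3 h4 i
      rw [h3, h4]
    refine hbd (F z) (fun l => deriv (fun w => F w l) z) u g z hsF.self_of_nhds ?_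
      htF.self_of_nhds ?_ rfl (fun i => (hz i).2)
    · intro j
      rw [← Lift_lin_deriv hFan (s j)]
      have h3 : (fun w => lin (s j) (F w)) =ᶠ[𝓝 z] fun _ => (0 : ℂ) := by
        filter_upwards [hsF] with w hw
        exact hw j
      rw [h3.deriv_eq, deriv_const]
    · intro i
      rw [← Lift_lin_deriv hFan (t i)]
      have h3 : (fun w => lin (t i) (F w)) =ᶠ[𝓝 z] u i := by
        filter_upwards [htF] with w hw
        exact hw i
      rw [h3.deriv_eq]
  · -- the local condition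
    intro z h1 h2 j'
    obtain ⟨ψ, hψ⟩ := hloc z h1 h2
    set o : ι → ℕ := fun i => analyticOrderNatAt (fun w => lin (t i) (ψ w)) z with ho
    have h3 := hψ.ordZ_good hgp hQ (hFψ' z ψ hψ) (g := g) (Eventually.of_forall fun _ => rfl)
      (hgm z h1 h2) (hgo z h1 h2)
    have h4 : ((∑ i, (o i - 1) : ℕ) : ℝ) - 2 * K * o i₀ ≤ ordZ g z := by
      have : (((∑ i, (o i - 1) : ℕ) : ℤ) - ((2 * K * o i₀ : ℕ) : ℤ) : ℝ) ≤ ordZ g z := by
        exact_mod_cast h3
      push_cast at this ⊢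
      exact this
    have hu : ∀ i, (ordZ (u i) z : ℝ) = o i - o i₀ := by
      intro i
      rw [hψ.ordZ_eq i]
      push_cast
      rfl
    have e1 : ((∑ i, (o i - 1) : ℕ) : ℝ) = ∑ i, (o i : ℝ) - ∑ i, indN (o i) := by
      rw [Nat.cast_sum, ← Finset.sum_sub_distrib]
      refine Finset.sum_congr rfl fun i _ => ?_
      rcases Nat.eq_zero_or_pos (o i) with h | h
      · rw [h, indN_zero]
        simp
      · rw [indN_of_ne h.ne', Nat.cast_sub h]
        simp
    have e2 : ∑ i, indN (o i) ≤ ∑ i, (o i : ℝ) := by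
      refine Finset.sum_le_sum fun i _ => ?_
      rcases Nat.eq_zero_or_pos (o i) with h | h
      · rw [h, indN_zero]
        simp
      · rw [indN_of_ne h.ne']
        exact_mod_cast h
    have e3 : ∑ i, (2 - κ) * (1 - θ i) * (ordZ (u i) z : ℝ) =
        (2 - κ) * (∑ i, (o i : ℝ) - ∑ i, θ i * o i) -
          (2 - κ) * (Fintype.card ι - ∑ i, θ i) * o i₀ := by
      have h5 : ∀ i, (2 - κ) * (1 - θ i) * (ordZ (u i) z : ℝ) =
          (2 - κ) * o i - (2 - κ) * (θ i * o i) - ((2 - κ) * o i₀ * 1 - (2 - κ) * o i₀ * θ i) := by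
        intro i
        rw [hu i]
        ring
      rw [Finset.sum_congr rfl fun i _ => h5 i, Finset.sum_sub_distrib, Finset.sum_sub_distrib,
        Finset.sum_sub_distrib, ← Finset.mul_sum, ← Finset.mul_sum, ← Finset.mul_sum,
        ← Finset.mul_sum, Finset.sum_const, Finset.card_univ, nsmul_eq_mul]
      ring
    have h6 : ∑ i, indN (o i) ≤ ∑ i, θ i * o i := hψ.orb
    rw [e3, hu j', ← hhom]
    rw [e1] at h4
    have h7 : 0 ≤ κ * α * (o j' : ℝ) := by positivity
    have h8 : 0 < 2 - κ := by linarith only [hκ2]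
    have h9 := mul_le_mul_of_nonneg_left h6 h8.le
    have h10 := mul_le_mul_of_nonneg_left e2 hκ0.le
    nlinarith only [h4, h7, h9, h10]

end Pool.Agent.H39.HC

end
end

section

/-!
# The big Picard theorem for maps with multiplicities: maps into no hyperplane
-/

open MvPolynomial Topology Filter
open Pool.Agent.H17 (PN HolomorphicInto puncturedDisc)
open Pool.Agent.H5.DG (MeetsWithMult)

noncomputable section

namespace Pool.Agent.H39.HC

open Pool.Agent.H62.FC (PunctMero MeroPunct)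
open Pool.Agent.H92.GGL (indN)

/-! ### Linear algebra -/

private theorem OrbCore_genPos {ι ι' : Type} {n : ℕ} {t : ι → Fin (n + 1) → ℂ} (ht : GenPos t)
    {g : ι' → ι} (hg : Function.Injective g) : GenPos (fun i => t (g i)) := by
  classical
  intro S hS
  have h1 := ht (S.image g) ((Finset.card_image_le).trans hS)
  have he : Function.Injective
      (fun j : S => (⟨g j, Finset.mem_image_of_mem g j.2⟩ : S.image g)) :=
    fun a b hab => Subtype.ext (hg (congrArg Subtype.val hab))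
  exact h1.comp _ he

private theorem OrbCore_elim {ι : Type} {n : ℕ} {t : ι → Fin (n + 1) → ℂ} (ht : GenPos t) :
    GenPos (Sum.elim t (fun j : Empty => (j.elim : Fin (n + 1) → ℂ))) := by
  have hinj : Function.Injective
      (Sum.elim (fun j : ι => j) (fun j : Empty => j.elim)) := by
    rintro (a | a) (b | b) hab
    · exact congrArg Sum.inl hab
    · exact b.elim
    · exact a.elim
    · exact a.elim
  have h1 := OrbCore_genPos ht hinj
  have h2 : (fun x => t (Sum.elim (fun j : ι => j) (fun j : Empty => j.elim) x)) =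
      Sum.elim t (fun j : Empty => (j.elim : Fin (n + 1) → ℂ)) := by
    funext x
    rcases x with x | x
    · rfl
    · exact x.elim
  rwa [h2] at h1

private theorem OrbCore_lin {n : ℕ} (v : Fin (n + 1) → ℂ) (x : Fin (n + 1) → ℂ) :
    lin v x = ∑ i, v i * x i := by
  unfold lin
  exact Finset.sum_congr rfl fun i _ => smul_eq_mul _ _

private theorem OrbCore_lin_smul {n : ℕ} (v : Fin (n + 1) → ℂ) (a : ℂ) (x : Fin (n + 1) → ℂ) :
    lin v (fun l => a * x l) = a * lin v x := by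
  rw [OrbCore_lin, OrbCore_lin, Finset.mul_sum]
  refine Finset.sum_congr rfl fun i _ => ?_
  ring

private theorem OrbCore_lin_div {n : ℕ} (v : Fin (n + 1) → ℂ) (a : ℂ) (x : Fin (n + 1) → ℂ) :
    lin v (fun l => x l / a) = lin v x / a := by
  rw [OrbCore_lin, OrbCore_lin, Finset.sum_div]
  refine Finset.sum_congr rfl fun i _ => ?_
  ring

private theorem OrbCore_lin_single {n : ℕ} (k : Fin (n + 1)) (x : Fin (n + 1) → ℂ) :
    lin (Pi.single k 1) x = x k := by
  rw [OrbCore_lin, Finset.sum_eq_single k]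
  · rw [Pi.single_eq_same, one_mul]
  · intro b _ hb
    rw [Pi.single_eq_of_ne hb, zero_mul]
  · intro h
    exact absurd (Finset.mem_univ k) h

private theorem OrbCore_lin_an {n : ℕ} {φ : ℂ → Fin (n + 1) → ℂ} {s : ℂ}
    (h : ∀ i, AnalyticAt ℂ (fun z => φ z i) s) (v : Fin (n + 1) → ℂ) :
    AnalyticAt ℂ (fun z => lin v (φ z)) s := by
  have h1 : (fun z => lin v (φ z)) = fun z => ∑ i, v i * φ z i := by
    funext z
    exact OrbCore_lin v (φ z)
  rw [h1]
  exact Finset.analyticAt_fun_sum _ fun l _ => analyticAt_const.fun_mul (h l)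

/-! ### Holomorphic maps of the punctured disc -/

private theorem OrbCore_preconnected : IsPreconnected puncturedDisc := by
  have h : puncturedDisc = Complex.exp '' {z : ℂ | z.re < 0} := by
    ext z
    constructor
    · rintro ⟨h1, h2⟩
      have h3 : z ≠ 0 := h2
      refine ⟨Complex.log z, ?_, Complex.exp_log h3⟩
      rw [mem_ball_zero_iff] at h1
      change (Complex.log z).re < 0
      rw [Complex.log_re]
      exact Real.log_neg (norm_pos_iff.mpr h3) h1
    · rintro ⟨w, hw, rfl⟩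
      refine ⟨?_, Complex.exp_ne_zero w⟩
      rw [mem_ball_zero_iff, Complex.norm_exp]
      have h1 := Real.exp_lt_exp.mpr hw
      rwa [Real.exp_zero] at h1
  rw [h]
  exact (convex_halfSpace_re_lt 0).isPreconnected.image _ Complex.continuous_exp.continuousOn

private theorem OrbCore_isOpen : IsOpen puncturedDisc :=
  Metric.isOpen_ball.sdiff isClosed_singleton

private theorem OrbCore_mem {z : ℂ} : z ∈ puncturedDisc ↔ 0 < ‖z‖ ∧ ‖z‖ < 1 := by
  unfold puncturedDisc
  rw [Set.mem_sdiff, mem_ball_zero_iff, Set.mem_singleton_iff, norm_pos_iff]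
  exact and_comm

private theorem OrbCore_nhds {s : ℂ} (hs : s ∈ puncturedDisc) : ∀ᶠ z in 𝓝 s, z ∈ puncturedDisc :=
  OrbCore_isOpen.mem_nhds hs

private theorem OrbCore_nhds_zero : ∀ᶠ z in 𝓝[≠] (0 : ℂ), z ∈ puncturedDisc := by
  have h1 : ∀ᶠ z in 𝓝 (0 : ℂ), z ∈ Metric.ball (0 : ℂ) 1 :=
    Metric.ball_mem_nhds (0 : ℂ) one_pos
  filter_upwards [h1.filter_mono nhdsWithin_le_nhds, self_mem_nhdsWithin] with z h2 h3
  exact ⟨h2, h3⟩

variable {n : ℕ}

private theorem OrbCore_rep {φ : ℂ → Fin (n + 1) → ℂ} {f : ℂ → PN n} {s : ℂ}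
    (he : ∀ᶠ z in 𝓝 s, ∃ h : φ z ≠ 0, f z = Projectivization.mk ℂ (φ z) h) :
    ∀ᶠ z in 𝓝 s, ∃ c : ℂ, c ≠ 0 ∧ ∀ i, (f z).rep i = c * φ z i := by
  filter_upwards [he] with z hz
  obtain ⟨h1, h2⟩ := hz
  obtain ⟨a, ha, h3⟩ := Pool.Agent.H17.exists_smul_rep (φ z) h1
  refine ⟨a, ha, fun i => ?_⟩
  rw [h2, h3]
  rfl

/-- lifts and representatives -/
private theorem OrbCore_lift {f : ℂ → PN n} (hf : HolomorphicInto f puncturedDisc) {s : ℂ}
    (hs : s ∈ puncturedDisc) : ∃ φ : ℂ → Fin (n + 1) → ℂ, (∀ i, AnalyticAt ℂ (fun z => φ z i) s) ∧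
      φ s ≠ 0 ∧ ∀ᶠ z in 𝓝 s, ∃ c : ℂ, c ≠ 0 ∧ ∀ i, (f z).rep i = c * φ z i := by
  obtain ⟨φ, hφ, he⟩ := hf s hs
  exact ⟨φ, analyticAt_pi_iff.mp hφ, he.self_of_nhds.1, OrbCore_rep he⟩

private theorem OrbCore_lin_rep {f : ℂ → PN n} {φ : ℂ → Fin (n + 1) → ℂ} {z c : ℂ}
    (h : ∀ i, (f z).rep i = c * φ z i) (v : Fin (n + 1) → ℂ) :
    lin v (f z).rep = c * lin v (φ z) := by
  have h1 : (f z).rep = fun i => c * φ z i := funext h
  rw [h1, OrbCore_lin_smul]

/-- the identity principle -/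
private theorem OrbCore_dich {f : ℂ → PN n} (hf : HolomorphicInto f puncturedDisc)
    (v : Fin (n + 1) → ℂ) : (∀ s ∈ puncturedDisc, lin v (f s).rep = 0) ∨
      (∀ s ∈ puncturedDisc, ∀ᶠ z in 𝓝[≠] s, lin v (f z).rep ≠ 0) := by
  have hou : IsOpen {s | ∀ᶠ z in 𝓝 s, lin v (f z).rep = 0} := isOpen_setOfPred_eventually_nhds
  have hov : IsOpen {s | ∀ᶠ z in 𝓝[≠] s, lin v (f z).rep ≠ 0} :=
    isOpen_setOfPred_eventually_nhdsWithin
  have hd : Disjoint {s | ∀ᶠ z in 𝓝 s, lin v (f z).rep = 0}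
      {s | ∀ᶠ z in 𝓝[≠] s, lin v (f z).rep ≠ 0} := by
    rw [Set.disjoint_left]
    intro s hs hs'
    have h1 : ∀ᶠ z in 𝓝 s, lin v (f z).rep = 0 := hs
    have h2 : ∀ᶠ z in 𝓝[≠] s, lin v (f z).rep ≠ 0 := hs'
    obtain ⟨z, h3, h4⟩ := ((h1.filter_mono nhdsWithin_le_nhds).and h2).exists
    exact h4 h3
  have hsub : puncturedDisc ⊆ {s | ∀ᶠ z in 𝓝 s, lin v (f z).rep = 0} ∪
      {s | ∀ᶠ z in 𝓝[≠] s, lin v (f z).rep ≠ 0} := by
    intro s hs
    obtain ⟨φ, hφ, -, he⟩ := OrbCore_lift hf hs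
    rcases (OrbCore_lin_an hφ v).eventually_eq_zero_or_eventually_ne_zero with h | h
    · left
      change ∀ᶠ z in 𝓝 s, lin v (f z).rep = 0
      filter_upwards [h, he] with z hz hfz
      obtain ⟨c, hc, h2⟩ := hfz
      rw [OrbCore_lin_rep h2, hz, mul_zero]
    · right
      change ∀ᶠ z in 𝓝[≠] s, lin v (f z).rep ≠ 0
      filter_upwards [h, he.filter_mono nhdsWithin_le_nhds] with z hz hfz
      obtain ⟨c, hc, h2⟩ := hfz
      rw [OrbCore_lin_rep h2]
      exact mul_ne_zero hc hz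
  by_cases hne : (puncturedDisc ∩ {s | ∀ᶠ z in 𝓝 s, lin v (f z).rep = 0}).Nonempty
  · left
    intro s hs
    have h1 := OrbCore_preconnected.subset_left_of_subset_union hou hov hd hsub hne hs
    have h2 : ∀ᶠ z in 𝓝 s, lin v (f z).rep = 0 := h1
    exact h2.self_of_nhds
  · right
    intro s hs
    rcases hsub hs with h | h
    · exact absurd ⟨s, hs, h⟩ hne
    · exact h

private theorem OrbCore_quot_mero {f : ℂ → PN n} (hf : HolomorphicInto f puncturedDisc)
    (v w : Fin (n + 1) → ℂ) {s : ℂ} (hs : s ∈ puncturedDisc) :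
    MeromorphicAt (fun z => lin v (f z).rep / lin w (f z).rep) s := by
  obtain ⟨φ, hφ, -, he⟩ := OrbCore_lift hf hs
  have h1 : MeromorphicAt (fun z => lin v (φ z) / lin w (φ z)) s :=
    (OrbCore_lin_an hφ v).meromorphicAt.fun_div (OrbCore_lin_an hφ w).meromorphicAt
  refine h1.congr ?_
  filter_upwards [he.filter_mono nhdsWithin_le_nhds] with z hz
  obtain ⟨c, hc, h2⟩ := hz
  rw [OrbCore_lin_rep h2, OrbCore_lin_rep h2, mul_div_mul_left _ _ hc]

private theorem OrbCore_ne_phi {f : ℂ → PN n} {φ : ℂ → Fin (n + 1) → ℂ} {s : ℂ}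
    (he : ∀ᶠ z in 𝓝 s, ∃ c : ℂ, c ≠ 0 ∧ ∀ i, (f z).rep i = c * φ z i)
    {w : Fin (n + 1) → ℂ} (h0 : lin w (f s).rep ≠ 0) : lin w (φ s) ≠ 0 := by
  intro h
  obtain ⟨c, hc, h2⟩ := he.self_of_nhds
  apply h0
  rw [OrbCore_lin_rep h2, h, mul_zero]

private theorem OrbCore_quot_an {f : ℂ → PN n} (hf : HolomorphicInto f puncturedDisc)
    (v w : Fin (n + 1) → ℂ) {s : ℂ} (hs : s ∈ puncturedDisc) (h0 : lin w (f s).rep ≠ 0) :
    AnalyticAt ℂ (fun z => lin v (f z).rep / lin w (f z).rep) s := by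
  obtain ⟨φ, hφ, -, he⟩ := OrbCore_lift hf hs
  have hne : lin w (φ s) ≠ 0 := OrbCore_ne_phi he h0
  have h1 : AnalyticAt ℂ (fun z => lin v (φ z) / lin w (φ z)) s :=
    (OrbCore_lin_an hφ v).fun_div (OrbCore_lin_an hφ w) hne
  refine h1.congr ?_
  filter_upwards [he] with z hz
  obtain ⟨c, hc, h2⟩ := hz
  rw [OrbCore_lin_rep h2, OrbCore_lin_rep h2, mul_div_mul_left _ _ hc]

private theorem OrbCore_ne_nhds {f : ℂ → PN n} (hf : HolomorphicInto f puncturedDisc)
    {w : Fin (n + 1) → ℂ} {s : ℂ} (hs : s ∈ puncturedDisc) (h0 : lin w (f s).rep ≠ 0) :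
    ∀ᶠ z in 𝓝 s, lin w (f z).rep ≠ 0 := by
  obtain ⟨φ, hφ, -, he⟩ := OrbCore_lift hf hs
  have hne : lin w (φ s) ≠ 0 := OrbCore_ne_phi he h0
  filter_upwards [he, (OrbCore_lin_an hφ w).continuousAt.eventually_ne hne] with z hz h1
  obtain ⟨c, hc, h2⟩ := hz
  rw [OrbCore_lin_rep h2]
  exact mul_ne_zero hc h1

/-- multiplicities of an arbitrary lift -/
private theorem OrbCore_mult {f : ℂ → PN n} {q : ℕ} {v : Fin (n + 1) → ℂ}
    (hm : MeetsWithMult q v f puncturedDisc) {s : ℂ} (hs : s ∈ puncturedDisc)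
    {φ : ℂ → Fin (n + 1) → ℂ} (hφ : ∀ i, AnalyticAt ℂ (fun z => φ z i) s) (hφ0 : φ s ≠ 0)
    (he : ∀ᶠ z in 𝓝 s, ∃ c : ℂ, c ≠ 0 ∧ ∀ i, (f z).rep i = c * φ z i)
    (h0 : lin v (φ s) = 0) :
    (q : ℕ∞) ≤ analyticOrderAt (fun z => lin v (φ z)) s := by
  obtain ⟨ψ, hψ, hψe, hord⟩ := hm s hs
  have hψ' := analyticAt_pi_iff.mp hψ
  have hψ0 : ψ s ≠ 0 := hψe.self_of_nhds.1
  have hψr := OrbCore_rep hψe
  obtain ⟨l, hl⟩ : ∃ l, ψ s l ≠ 0 := by
    by_contra hcon
    push Not at hcon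
    exact hψ0 (funext hcon)
  -- the ratio
  have hc : AnalyticAt ℂ (fun z => φ z l / ψ z l) s := (hφ l).fun_div (hψ' l) hl
  have hrat : ∀ᶠ z in 𝓝 s, ∀ i, φ z i = (φ z l / ψ z l) * ψ z i := by
    filter_upwards [he, hψr, (hψ' l).continuousAt.eventually_ne hl] with z h1 h2 h3 i
    obtain ⟨c, hc, h4⟩ := h1
    obtain ⟨d, hd, h5⟩ := h2
    have h6 : ∀ i, φ z i = (d / c) * ψ z i := by
      intro i
      have h7 : c * φ z i = d * ψ z i := by rw [← h4, ← h5]
      rw [div_mul_eq_mul_div, eq_div_iff hc, mul_comm, h7]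
    rw [h6 i, h6 l, mul_div_assoc, div_self h3, mul_one]
  have hcs : φ s l / ψ s l ≠ 0 := by
    intro h
    apply hφ0
    funext i
    rw [hrat.self_of_nhds i, h, zero_mul]
    rfl
  have hlin : (fun z => lin v (φ z)) =ᶠ[𝓝 s]
      ((fun z => φ z l / ψ z l) * fun z => ∑ a, v a * ψ z a) := by
    filter_upwards [hrat] with z hz
    have h1 : φ z = fun i => (φ z l / ψ z l) * ψ z i := funext hz
    rw [Pi.mul_apply, ← OrbCore_lin v (ψ z), ← OrbCore_lin_smul]
    exact congrArg (lin v) h1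
  have hψa : AnalyticAt ℂ (fun z => ∑ a, v a * ψ z a) s :=
    Finset.analyticAt_fun_sum _ fun a _ => analyticAt_const.fun_mul (hψ' a)
  rw [analyticOrderAt_congr hlin, analyticOrderAt_mul hc hψa, hc.analyticOrderAt_eq_zero.mpr hcs,
    zero_add]
  refine hord ?_
  have h2 : lin v (φ s) = φ s l / ψ s l * ∑ a, v a * ψ s a := hlin.self_of_nhds
  rw [h0] at h2
  exact (mul_eq_zero.mp h2.symm).resolve_left hcs

/-! ### Functions meromorphic at the puncture -/

private theorem OrbCore_add {f g : ℂ → ℂ} (hf : PunctMero f) (hg : PunctMero g) :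
    PunctMero (fun z => f z + g z) := by
  obtain ⟨v, hv, hfv⟩ := hf
  obtain ⟨w, hw, hgw⟩ := hg
  refine ⟨fun z => v z + w z, hv.add hw, ?_⟩
  filter_upwards [hfv, hgw] with z h1 h2
  filter_upwards [h1, h2] with ζ h3 h4
  rw [h3, h4]

private theorem OrbCore_sum {α : Type} (S : Finset α) {f : α → ℂ → ℂ}
    (hf : ∀ a ∈ S, PunctMero (f a)) : PunctMero (fun z => ∑ a ∈ S, f a z) := by
  classical
  induction S using Finset.induction_on with
  | empty => simpa using PunctMero.const 0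
  | insert a S ha ih =>
    have h1 := OrbCore_add (hf a (Finset.mem_insert_self a S))
      (ih fun b hb => hf b (Finset.mem_insert_of_mem hb))
    simpa [Finset.sum_insert ha] using h1

private theorem OrbCore_growth {u : ℂ → ℂ} {R₀ ε M : ℝ} {k : ℕ} (hε : 0 < ε) (hR₀ : 0 < R₀)
    (hu : ∀ z, 0 < ‖z‖ → ‖z‖ < R₀ → MeromorphicAt u z)
    (h : ∀ z, 0 < ‖z‖ → ‖z‖ < ε → 0 ≤ meromorphicOrderAt u z ∧
      (AnalyticAt ℂ u z → ‖u z‖ * ‖z‖ ^ k ≤ M)) : PunctMero u := by
  set ε' := min ε R₀ with hε'def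
  have hε' : 0 < ε' := lt_min hε hR₀
  set U : Set ℂ := {z | 0 < ‖z‖ ∧ ‖z‖ < ε'} with hU
  have hUo : IsOpen U :=
    (isOpen_lt continuous_const continuous_norm).inter (isOpen_lt continuous_norm continuous_const)
  have huz : ∀ z : ℂ, 0 < ‖z‖ → ‖z‖ < ε' → MeromorphicAt u z := fun z h1 h2 =>
    hu z h1 (h2.trans_le (min_le_right _ _))
  have huU : MeromorphicOn u U := fun z hz => huz z hz.1 hz.2
  set g : ℂ → ℂ := toMeromorphicNFOn u U with hg
  have hgu : ∀ z : ℂ, 0 < ‖z‖ → ‖z‖ < ε' → g =ᶠ[𝓝[≠] z] u := fun z h1 h2 =>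
    huU.toMeromorphicNFOn_eq_self_on_nhdsNE ⟨h1, h2⟩
  have hgan : ∀ z : ℂ, 0 < ‖z‖ → ‖z‖ < ε' → AnalyticAt ℂ g z := by
    intro z h1 h2
    have hnf : MeromorphicNFAt g z := meromorphicNFOn_toMeromorphicNFOn u U ⟨h1, h2⟩
    refine hnf.meromorphicOrderAt_nonneg_iff_analyticAt.1 ?_
    rw [meromorphicOrderAt_congr (hgu z h1 h2)]
    exact (h z h1 (h2.trans_le (min_le_left _ _))).1
  have hgb : ∀ z : ℂ, 0 < ‖z‖ → ‖z‖ < ε' → ‖z ^ k * g z‖ ≤ M := by
    intro z h1 h2
    have h3 : ∀ᶠ w in 𝓝[≠] z, ‖w ^ k * g w‖ ≤ M := by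
      have h4 : ∀ᶠ w in 𝓝 z, w ∈ U := hUo.mem_nhds ⟨h1, h2⟩
      filter_upwards [hgu z h1 h2, (huz z h1 h2).eventually_analyticAt,
        h4.filter_mono nhdsWithin_le_nhds] with w e1 e2 e3
      rw [norm_mul, norm_pow, e1, mul_comm]
      exact (h w e3.1 (e3.2.trans_le (min_le_left _ _))).2 e2
    have h5 : Tendsto (fun w => ‖w ^ k * g w‖) (𝓝[≠] z) (𝓝 ‖z ^ k * g z‖) :=
      ((analyticAt_id.pow k).mul (hgan z h1 h2)).continuousAt.norm.tendsto.mono_left
        nhdsWithin_le_nhds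
    exact le_of_tendsto h5 h3
  obtain ⟨w, hw, hwg⟩ := Pool.Agent.H92.GGL.meromorphicAt_of_bounded
    (u := fun z => z ^ k * g z) (ε := ε') (M := M) hε'
    (fun z h1 h2 => (analyticAt_id.pow k).mul (hgan z h1 h2)) hgb
  refine ⟨fun z => (z ^ k)⁻¹ * w z, (((analyticAt_id.pow k).meromorphicAt).inv).mul
    hw.meromorphicAt, ?_⟩
  have hεe : ∀ᶠ z in 𝓝[≠] (0 : ℂ), 0 < ‖z‖ ∧ ‖z‖ < ε' := by
    filter_upwards [mem_nhdsWithin_of_mem_nhds (Metric.ball_mem_nhds (0 : ℂ) hε'),
      self_mem_nhdsWithin] with z h1 h2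
    exact ⟨norm_pos_iff.mpr h2, by simpa using h1⟩
  filter_upwards [hεe] with z hz
  have hz0 : z ≠ 0 := norm_pos_iff.1 hz.1
  have h5 : ∀ᶠ ζ in 𝓝[≠] z, ζ ≠ 0 :=
    mem_nhdsWithin_of_mem_nhds (isOpen_compl_singleton.mem_nhds hz0 : ({(0 : ℂ)}ᶜ : Set ℂ) ∈ 𝓝 z)
  filter_upwards [hgu z hz.1 hz.2, h5] with ζ h6 h7
  rw [hwg ζ h7, ← h6, ← mul_assoc, inv_mul_cancel₀ (pow_ne_zero k h7), one_mul]

/-- **Big Picard theorem.**  A holomorphic map from the punctured disc to `ℙ^n`, into none of the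
hyperplanes `lin (t j) = 0`, which meets them with multiplicities at least `q` extends. -/
theorem orb_core {ι : Type} [Fintype ι] {n q b : ℕ} (hn : 1 ≤ n) (hq : 2 ≤ q)
    (hb : n * (q + 1) < b * (q - 1)) {t : ι → Fin (n + 1) → ℂ} (ht : GenPos t)
    (hs : Spans b t) {f : ℂ → PN n} (hf : HolomorphicInto f puncturedDisc)
    (hm : ∀ j, MeetsWithMult q (t j) f puncturedDisc)
    (hne : ∀ j, ∃ z ∈ puncturedDisc, lin (t j) (f z).rep ≠ 0) :
    ∃ g : ℂ → PN n, HolomorphicInto g (Metric.ball 0 1) ∧ ∀ z ∈ puncturedDisc, g z = f z := by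
  classical
  have hq0 : q ≠ 0 := by omega
  obtain ⟨T, hTc, hT⟩ := exists_indep hs
  -- numbers
  have hb1 : 1 ≤ b := by
    rcases Nat.eq_zero_or_pos b with h | h
    · rw [h, Nat.zero_mul] at hb
      exact absurd hb (Nat.not_lt_zero _)
    · exact h
  have hK : 1 ≤ wtK n (b + 1) 2 := by
    unfold wtK
    exact Nat.choose_pos (by omega)
  have hTcard : n + 1 ≤ T.card := by
    rw [hTc]
    calc n + 1 = (n + 1).choose n := (Nat.choose_succ_self_right n).symm
      _ ≤ (n + b).choose n := Nat.choose_le_choose n (by omega)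
  have hTN : T.card ≤ Fintype.card ι := Finset.card_le_univ T
  have hnumT : q * 2 * wtK n (b + 1) 2 < (q - 1) * T.card := by
    rw [hTc]
    exact numCond hn hq hb le_rfl (by omega)
  have hnz : ∀ j, ∀ s ∈ puncturedDisc, ∀ᶠ z in 𝓝[≠] s, lin (t j) (f z).rep ≠ 0 := by
    intro j
    rcases OrbCore_dich hf (t j) with h | h
    · obtain ⟨z, hz, hz'⟩ := hne j
      exact absurd (h z hz) hz'
    · exact h
  -- the base form
  obtain ⟨i₀, hi₀T⟩ : T.Nonempty := Finset.card_pos.mp (by omega)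
  obtain ⟨z₁, hz₁, hi₀⟩ := hne i₀
  set F : ℂ → Fin (n + 1) → ℂ := fun z l => (f z).rep l / lin (t i₀) (f z).rep with hFdef
  have hFlin : ∀ s, ∀ v, lin v (F s) = lin v (f s).rep / lin (t i₀) (f s).rep :=
    fun s v => OrbCore_lin_div v _ _
  have hFl : ∀ l, (fun w => F w l) =
      fun w => lin (Pi.single l 1) (f w).rep / lin (t i₀) (f w).rep := by
    intro l
    funext w
    rw [OrbCore_lin_single]
  have hFan : ∀ s ∈ puncturedDisc, lin (t i₀) (f s).rep ≠ 0 → AnalyticAt ℂ F s := by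
    intro s hs h0
    refine analyticAt_pi_iff.mpr fun l => ?_
    have h1 := OrbCore_quot_an hf (Pi.single l 1) (t i₀) hs h0
    rw [← hFl l] at h1
    exact h1
  have hFmero : ∀ l, ∀ s ∈ puncturedDisc, MeromorphicAt (fun w => F w l) s := by
    intro l s hs
    rw [hFl l]
    exact OrbCore_quot_mero hf _ _ hs
  have hmain : ∀ l, PunctMero (fun z => F z l) := by
    by_cases hcase : ∀ s ∈ puncturedDisc, lin (t i₀) (f s).rep ≠ 0 →
        ∀ l, deriv (fun w => F w l) s = 0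
    · intro l
      have hconst : ∀ᶠ z in 𝓝 z₁, F z l = F z₁ l := by
        have h1 : ∀ᶠ z in 𝓝 z₁, z ∈ puncturedDisc ∧ lin (t i₀) (f z).rep ≠ 0 :=
          (OrbCore_nhds hz₁).and (OrbCore_ne_nhds hf hz₁ hi₀)
        obtain ⟨r, hr, hball⟩ := Metric.eventually_nhds_iff_ball.mp h1
        filter_upwards [Metric.ball_mem_nhds z₁ hr] with z hz
        refine Metric.isOpen_ball.is_const_of_deriv_eq_zero (s := Metric.ball z₁ r)
          (f := fun w => F w l) (convex_ball z₁ r).isPreconnected ?_ ?_ hz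
          (Metric.mem_ball_self hr)
        · intro w hw
          exact (analyticAt_pi_iff.mp (hFan w (hball w hw).1 (hball w hw).2)
            l).differentiableAt.differentiableWithinAt
        · intro w hw
          exact hcase w (hball w hw).1 (hball w hw).2 l
      have hmer : MeromorphicOn (fun w => F w l - F z₁ l) puncturedDisc := fun s hs =>
        (hFmero l s hs).sub (MeromorphicAt.const _ _)
      have htop : ∀ s ∈ puncturedDisc, meromorphicOrderAt (fun w => F w l - F z₁ l) s = ⊤ := by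
        intro s hs
        by_contra hne
        have h1 := hmer.meromorphicOrderAt_ne_top_of_isPreconnected OrbCore_preconnected hs
          hz₁ hne
        apply h1
        rw [meromorphicOrderAt_eq_top_iff]
        filter_upwards [hconst.filter_mono nhdsWithin_le_nhds] with w hw
        rw [hw, sub_self]
      refine (PunctMero.const (F z₁ l)).congr ?_
      filter_upwards [OrbCore_nhds_zero] with s hs
      have h1 := htop s hs
      rw [meromorphicOrderAt_eq_top_iff] at h1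
      filter_upwards [h1] with w hw
      exact (sub_eq_zero.mp hw).symm
    · push Not at hcase
      obtain ⟨s₂, hs₂, hs₂0, l₀, hl₀⟩ := hcase
      -- a generic point
      have hd₀ : ∀ᶠ z in 𝓝 s₂, deriv (fun w => F w l₀) z ≠ 0 :=
        (analyticAt_pi_iff.mp (hFan s₂ hs₂ hs₂0) l₀).deriv.continuousAt.eventually_ne hl₀
      have hgen : ∀ᶠ z in 𝓝[≠] s₂, ∀ j, lin (t j) (f z).rep ≠ 0 := by
        rw [eventually_all]
        exact fun j => hnz j s₂ hs₂
      obtain ⟨z₀, hz₀g, hz₀d, hz₀D⟩ := (hgen.and ((hd₀.filter_mono nhdsWithin_le_nhds).and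
        ((OrbCore_nhds hs₂).filter_mono nhdsWithin_le_nhds))).exists
      have hz₀i : lin (t i₀) (f z₀).rep ≠ 0 := hz₀g i₀
      have hFan0 := hFan z₀ hz₀D hz₀i
      set c₁ : Fin (n + 1) → ℂ := fun l => deriv (fun w => F w l) z₀ with hc₁
      have hlinD : ∀ j, HasDerivAt (fun w => lin (t j) (F w)) (lin (t j) c₁) z₀ := by
        intro j
        unfold lin
        refine HasDerivAt.fun_sum fun l _ => ?_
        exact (analyticAt_pi_iff.mp hFan0 l).differentiableAt.hasDerivAt.const_smul (t j l)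
      have hone0 : ∀ᶠ w in 𝓝 z₀, lin (t i₀) (F w) = 1 := by
        filter_upwards [OrbCore_ne_nhds hf hz₀D hz₀i] with w hw1
        rw [hFlin w, div_self hw1]
      have h1 : lin (t i₀) c₁ = 0 :=
        (hlinD i₀).unique ((hasDerivAt_const z₀ (1 : ℂ)).congr_of_eventuallyEq hone0)
      -- the index set
      have htT : GenPos (fun j : {j // j ∈ T} => t j) :=
        OrbCore_genPos ht Subtype.val_injective
      have hgp := OrbCore_elim htT
      have hcs : n + 1 ≤ Fintype.card {j // j ∈ T} + Fintype.card Empty := by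
        rw [Fintype.card_coe, Fintype.card_empty]
        omega
      -- the good polynomial
      have hFne : ∀ j, lin (t j) (F z₀) ≠ 0 := by
        intro j
        rw [hFlin z₀]
        exact div_ne_zero (hz₀g j) hz₀i
      obtain ⟨Q, hQ, hQne⟩ := exists_good_sharp (ι := {j // j ∈ T}) (n := n) (r := 2)
        (e := b + 1) (by omega) (by omega) (by omega) (t := fun j => t j)
        (fun j => by
          have h3 := ht {(j : ι)} (by simp)
          exact h3.ne_zero ⟨j, by simp⟩)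
        hT (u := ![F z₀, c₁])
        (by
          rw [LinearIndependent.pair_iff]
          intro α β hαβ
          have h3 : ∀ l, α * F z₀ l + β * c₁ l = 0 := fun l => by
            have h4 := congrFun hαβ l
            simpa using h4
          have h4 : α * lin (t i₀) (F z₀) + β * lin (t i₀) c₁ = 0 := by
            rw [← OrbCore_lin_smul, ← OrbCore_lin_smul]
            unfold lin
            rw [← Finset.sum_add_distrib]
            refine Finset.sum_eq_zero fun l _ => ?_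
            rw [← smul_add, h3 l, smul_zero]
          rw [hone0.self_of_nhds, h1, mul_one, mul_zero, add_zero] at h4
          refine ⟨h4, ?_⟩
          have h5 := h3 l₀
          rw [h4, zero_mul, zero_add] at h5
          exact (mul_eq_zero.mp h5).resolve_right hz₀d)
        (fun j => ⟨0, hFne j⟩)
      -- numbers
      have hnum' : ∑ _i : {j // j ∈ T}, (1 / (q : ℝ)) + 2 * (wtK n (b + 1) 2 : ℕ) <
          Fintype.card {j // j ∈ T} := by
        rw [Finset.sum_const, Finset.card_univ, Fintype.card_coe, nsmul_eq_mul]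
        have h4 : ((q * 2 * wtK n (b + 1) 2 : ℕ) : ℝ) < (((q - 1) * T.card : ℕ) : ℝ) := by
          exact_mod_cast hnumT
        rw [Nat.cast_mul, Nat.cast_mul, Nat.cast_mul, Nat.cast_sub (by omega)] at h4
        push_cast at h4
        have h5 : (0 : ℝ) < q := by exact_mod_cast (by omega : 0 < q)
        rw [mul_one_div, ← sub_pos]
        have h6 : (T.card : ℝ) - (T.card / q + 2 * (wtK n (b + 1) 2 : ℝ)) =
            ((q - 1) * T.card - q * 2 * wtK n (b + 1) 2) / q := by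
          field_simp
          ring
        rw [h6]
        exact div_pos (by linarith) h5
      -- orders
      have hind : ∀ a : ℕ∞, a ≠ ⊤ → (a ≠ 0 → (q : ℕ∞) ≤ a) →
          indN a.toNat ≤ 1 / (q : ℝ) * (a.toNat : ℝ) := by
        intro a hat ha
        unfold indN
        split_ifs with h4
        · have h5 : (0 : ℝ) ≤ 1 / (q : ℝ) := by positivity
          exact mul_nonneg h5 (Nat.cast_nonneg _)
        · have h5 : a ≠ 0 := fun h6 => h4 (by rw [h6]; rfl)
          have h6 := ha h5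
          have h7 : q ≤ a.toNat := by
            have h8 : ((q : ℕ) : ℕ∞) ≤ ((a.toNat : ℕ) : ℕ∞) := by
              rwa [ENat.natCast_toNat hat]
            exact_mod_cast h8
          have h8 : (0 : ℝ) < q := by exact_mod_cast (by omega : 0 < q)
          rw [one_div, inv_mul_eq_div, le_div_iff₀ h8, one_mul]
          exact_mod_cast h7
      -- local lifts
      have hloc : ∀ z, 0 < ‖z‖ → ‖z‖ < 1 → ∃ ψ,
          LocalLift (fun j : {j // j ∈ T} => t j)
            (fun j : Empty => (j.elim : Fin (n + 1) → ℂ)) (fun _ => 1 / (q : ℝ))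
            (fun (j : {j // j ∈ T}) z => lin (t j) (f z).rep / lin (t i₀) (f z).rep)
            ⟨i₀, hi₀T⟩ z ψ := by
        intro s hs1 hs2
        have hs := OrbCore_mem.mpr ⟨hs1, hs2⟩
        obtain ⟨φ, hφ, hφ0, hφe⟩ := OrbCore_lift hf hs
        have hφne : ∀ j, ∀ᶠ z in 𝓝[≠] s, lin (t j) (φ z) ≠ 0 := by
          intro j
          filter_upwards [hφe.filter_mono nhdsWithin_le_nhds, hnz j s hs] with z h4 h5
          obtain ⟨c, hc, h6⟩ := h4
          intro h7
          apply h5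
          rw [OrbCore_lin_rep h6, h7, mul_zero]
        refine ⟨φ, ⟨analyticAt_pi_iff.mpr hφ, ?_, ?_, ?_, hφ0, ?_⟩⟩
        · intro i
          exact hφne i
        · filter_upwards [hφe] with z h4 i
          obtain ⟨c, hc, h6⟩ := h4
          rw [OrbCore_lin_rep h6, OrbCore_lin_rep h6, mul_div_mul_left _ _ hc]
        · exact Eventually.of_forall fun z j => j.elim
        · refine Finset.sum_le_sum fun i _ => ?_
          have h3 := OrbCore_lin_an hφ (t i)
          refine hind _ ?_ ?_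
          · intro htop
            rw [analyticOrderAt_eq_top] at htop
            obtain ⟨z, h4, h5⟩ := ((htop.filter_mono nhdsWithin_le_nhds).and (hφne i)).exists
            exact h5 h4
          · intro h4
            refine OrbCore_mult (hm i) hs hφ hφ0 hφe ?_
            by_contra h5
            exact h4 (h3.analyticOrderAt_eq_zero.mpr h5)
      -- the lift at the generic point
      have hψ₀ : LocalLift (fun j : {j // j ∈ T} => t j)
            (fun j : Empty => (j.elim : Fin (n + 1) → ℂ)) (fun _ => 1 / (q : ℝ))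
            (fun (j : {j // j ∈ T}) z => lin (t j) (f z).rep / lin (t i₀) (f z).rep)
            ⟨i₀, hi₀T⟩ z₀ F := by
        refine ⟨hFan0, ?_, ?_, ?_, ?_, ?_⟩
        · intro i
          filter_upwards [hnz i z₀ hz₀D, hnz i₀ z₀ hz₀D] with z h4 h5
          rw [hFlin z]
          exact div_ne_zero h4 h5
        · filter_upwards [hone0] with z h4 i
          rw [h4, div_one, hFlin z]
        · exact Eventually.of_forall fun z j => j.elim
        · intro h3
          have h4 := hone0.self_of_nhds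
          rw [h3] at h4
          unfold lin at h4
          have h5 : ∑ l, t i₀ l • (0 : Fin (n + 1) → ℂ) l = 0 :=
            Finset.sum_eq_zero fun l _ => smul_zero _
          rw [h5] at h4
          exact zero_ne_one h4
        · refine Finset.sum_le_sum fun i _ => ?_
          have h3 : analyticOrderNatAt (fun z => lin (t i) (F z)) z₀ = 0 := by
            have h4 : AnalyticAt ℂ (fun z => lin (t i) (F z)) z₀ :=
              OrbCore_lin_an (analyticAt_pi_iff.mp hFan0) (t i)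
            unfold analyticOrderNatAt
            rw [h4.analyticOrderAt_eq_zero.mpr (hFne i)]
            rfl
          rw [h3, Nat.cast_zero, mul_zero]
          exact le_of_eq (if_pos rfl)
      obtain ⟨b', hb'⟩ := exists_leftInverse hgp hcs
      have hz₀m := OrbCore_mem.mp hz₀D
      have hu : ∀ j : {j // j ∈ T},
          PunctMero (fun z => lin (t j) (f z).rep / lin (t i₀) (f z).rep) := by
        intro j
        obtain ⟨ε, M, k, hε, hM, hgr⟩ := growth_core (K := wtK n (b + 1) 2) hgp hcs hQ hK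
          (fun _ => by positivity) hnum' one_pos
          (u := fun (j : {j // j ∈ T}) z => lin (t j) (f z).rep / lin (t i₀) (f z).rep)
          (i₀ := ⟨i₀, hi₀T⟩)
          (fun z hz => by
            rw [div_self]
            intro h
            rw [h, div_zero] at hz
            exact hz rfl)
          hloc hz₀m.1 hz₀m.2 hψ₀ (hFne i₀) hQne j
        exact OrbCore_growth hε one_pos (fun z h3 h4 =>
          OrbCore_quot_mero hf (t j) (t i₀) (OrbCore_mem.mpr ⟨h3, h4⟩)) hgr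
      intro l
      have h3 : PunctMero (fun z => ∑ i : {j // j ∈ T},
          b' l i * (lin (t i) (f z).rep / lin (t i₀) (f z).rep)) :=
        OrbCore_sum Finset.univ fun i _ => (PunctMero.const (b' l i)).mul (hu i)
      refine h3.congr ?_
      filter_upwards [OrbCore_nhds_zero] with s hs
      refine Eventually.of_forall fun z => ?_
      change ∑ i : {j // j ∈ T}, b' l i * (lin (t i) (f z).rep / lin (t i₀) (f z).rep) = F z l
      rw [hb' (F z) (fun j => j.elim) l]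
      refine Finset.sum_congr rfl fun i _ => ?_
      rw [hFlin z]
  -- all quotients
  obtain ⟨k, hk⟩ : ∃ k, (f z₁).rep k ≠ 0 := by
    by_contra hcon
    push Not at hcon
    exact (f z₁).rep_nonzero (funext hcon)
  have hkz : ∀ s ∈ puncturedDisc, ∀ᶠ z in 𝓝[≠] s, (f z).rep k ≠ 0 := by
    rcases OrbCore_dich hf (Pi.single k 1) with h | h
    · have h1 := h z₁ hz₁
      rw [OrbCore_lin_single] at h1
      exact absurd h1 hk
    · intro s hs
      filter_upwards [h s hs] with z hz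
      rwa [OrbCore_lin_single] at hz
  refine Pool.Agent.H62.FC.exists_extension hf (i₀ := k) ?_ ?_
  · filter_upwards [OrbCore_nhds_zero] with z hz
    exact hkz z hz
  · intro j
    refine ((hmain j).mul (hmain k).inv).congr ?_
    filter_upwards [OrbCore_nhds_zero] with z hz
    filter_upwards [hnz i₀ z hz] with w hw
    rw [hFdef]
    simp only
    rw [← div_eq_mul_inv, div_div_div_cancel_right₀ hw]

end Pool.Agent.H39.HC

end
end

section

/-!
# The big Picard theorem for maps with multiplicities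
-/

open MvPolynomial Topology Filter
open Pool.Agent.H17 (PN HolomorphicInto puncturedDisc)
open Pool.Agent.H5.DG (MeetsWithMult)

noncomputable section

namespace Pool.Agent.H39.HC

/-! ### Linear maps of projective spaces -/

private theorem Orb_lin_smul {n : ℕ} (v : Fin (n + 1) → ℂ) (c : ℂ) (x : Fin (n + 1) → ℂ) :
    lin v (c • x) = c * lin v x := by
  unfold lin
  rw [Finset.mul_sum]
  refine Finset.sum_congr rfl fun i _ => ?_
  rw [Pi.smul_apply, smul_eq_mul, smul_eq_mul, smul_eq_mul]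
  ring

private theorem Orb_lin_dot {n : ℕ} (v x : Fin (n + 1) → ℂ) : lin v x = ∑ a, v a * x a := rfl

private theorem Orb_lin_an {n : ℕ} (v : Fin (n + 1) → ℂ) {φ : ℂ → Fin (n + 1) → ℂ} {s : ℂ}
    (hφ : AnalyticAt ℂ φ s) : AnalyticAt ℂ (fun z => lin v (φ z)) s := by
  have h : AnalyticAt ℂ (fun z => ∑ a, v a * φ z a) s :=
    Finset.analyticAt_fun_sum _ fun a _ => analyticAt_const.fun_mul (analyticAt_pi_iff.mp hφ a)
  exact h

/-- the map of projective spaces given by a matrix -/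
private def Orb_map {n n' : ℕ} (M : Fin (n' + 1) → Fin (n + 1) → ℂ) (x : PN n) : PN n' := by
  classical
  exact if h : (fun l => lin (M l) x.rep) ≠ 0 then Projectivization.mk ℂ _ h
    else Projectivization.mk ℂ (fun _ => 1) fun h => one_ne_zero (congrFun h 0)

private theorem Orb_map_mk {n n' : ℕ} (M : Fin (n' + 1) → Fin (n + 1) → ℂ)
    {v : Fin (n + 1) → ℂ} (hv : v ≠ 0) (h : (fun l => lin (M l) v) ≠ 0) :
    Orb_map M (Projectivization.mk ℂ v hv) = Projectivization.mk ℂ _ h := by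
  obtain ⟨a, ha, h1⟩ := Pool.Agent.H17.exists_smul_rep v hv
  have h2 : (fun l => lin (M l) (Projectivization.mk ℂ v hv).rep) =
      a • fun l => lin (M l) v := by
    funext l
    rw [h1]
    exact Orb_lin_smul (M l) a v
  have h3 : (fun l => lin (M l) (Projectivization.mk ℂ v hv).rep) ≠ 0 := by
    rw [h2]
    exact smul_ne_zero ha h
  unfold Orb_map
  rw [dif_pos h3, Projectivization.mk_eq_mk_iff']
  exact ⟨a, h2.symm⟩

/-- the matrix does not vanish on the representative iff it does not vanish on the vector -/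
private theorem Orb_ne {n n' : ℕ} (M : Fin (n' + 1) → Fin (n + 1) → ℂ)
    {v : Fin (n + 1) → ℂ} (hv : v ≠ 0)
    (h : (fun l => lin (M l) (Projectivization.mk ℂ v hv).rep) ≠ 0) :
    (fun l => lin (M l) v) ≠ 0 := by
  obtain ⟨a, ha, h1⟩ := Pool.Agent.H17.exists_smul_rep v hv
  intro h0
  apply h
  funext l
  rw [h1, Orb_lin_smul, show lin (M l) v = 0 from congrFun h0 l, mul_zero]
  rfl

private theorem Orb_holo {n n' : ℕ} (M : Fin (n' + 1) → Fin (n + 1) → ℂ) {f : ℂ → PN n}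
    {U : Set ℂ} (hU : IsOpen U) (hf : HolomorphicInto f U)
    (h : ∀ z ∈ U, (fun l => lin (M l) (f z).rep) ≠ 0) :
    HolomorphicInto (fun z => Orb_map M (f z)) U := by
  intro s hs
  obtain ⟨φ, hφ, he⟩ := hf s hs
  refine ⟨fun z l => lin (M l) (φ z), ?_, ?_⟩
  · rw [analyticAt_pi_iff]
    exact fun l => Orb_lin_an (M l) hφ
  · filter_upwards [he, hU.mem_nhds hs] with z hz hzU
    obtain ⟨h1, h2⟩ := hz
    have h3 := h z hzU
    rw [h2] at h3
    have h4 := Orb_ne M h1 h3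
    refine ⟨h4, ?_⟩
    rw [h2]
    exact Orb_map_mk M h1 h4

private theorem Orb_isOpen : IsOpen puncturedDisc :=
  Metric.isOpen_ball.sdiff isClosed_singleton

/-- **Big Picard theorem.**  A holomorphic map from the punctured disc to `ℙ^n` which meets the
hyperplanes `lin (t j) = 0` with multiplicities at least `q` extends. -/
theorem orb_ext {ι : Type} [Fintype ι] {n q b : ℕ} (hn : 1 ≤ n) (hq : 2 ≤ q)
    (hb : n * (q + 1) < b * (q - 1)) {t : ι → Fin (n + 1) → ℂ} (ht : GenPos t)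
    (hs : Spans b t) {f : ℂ → PN n} (hf : HolomorphicInto f puncturedDisc)
    (hm : ∀ j, MeetsWithMult q (t j) f puncturedDisc) :
    ∃ g : ℂ → PN n, HolomorphicInto g (Metric.ball 0 1) ∧ ∀ z ∈ puncturedDisc, g z = f z := by
  classical
  have hb1 : 1 ≤ b := by
    by_contra hcon
    have h1 : b = 0 := by omega
    rw [h1, zero_mul] at hb
    exact Nat.not_lt_zero _ hb
  -- the hyperplanes which contain the image
  obtain ⟨J, hJmem⟩ : ∃ J : Finset ι, ∀ j, j ∈ J ↔
      ∀ s ∈ puncturedDisc, lin (t j) (f s).rep = 0 :=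
    ⟨Finset.univ.filter fun j => ∀ s ∈ puncturedDisc, lin (t j) (f s).rep = 0, fun j => by
      rw [Finset.mem_filter]
      exact ⟨fun h => h.2, fun h => ⟨Finset.mem_univ _, h⟩⟩⟩
  have hz₁ : (1 / 2 : ℂ) ∈ puncturedDisc := by
    refine ⟨?_, ?_⟩
    · rw [mem_ball_zero_iff]
      norm_num
    · rw [Set.mem_singleton_iff]
      norm_num
  have hJ : ∃ x : Fin (n + 1) → ℂ, x ≠ 0 ∧ ∀ j ∈ J, lin (t j) x = 0 :=
    ⟨(f (1 / 2)).rep, (f (1 / 2)).rep_nonzero, fun j hj => (hJmem j).mp hj _ hz₁⟩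
  obtain ⟨n', B, C, D, hn', hCB, hD, ht', hs'⟩ := exists_restrict hb1 ht hs J hJ
  -- vectors on the subspace
  have hrep : ∀ z ∈ puncturedDisc, ∀ i, (f z).rep i = lin (B i) fun l => lin (C l) (f z).rep :=
    fun z hz i => eq_lin_of_restrict hD (fun j hj => (hJmem j).mp hj z hz) i
  have hCne : ∀ z ∈ puncturedDisc, (fun l => lin (C l) (f z).rep) ≠ 0 := by
    intro z hz h0
    apply (f z).rep_nonzero
    funext i
    rw [hrep z hz i, h0, Orb_lin_dot]
    simp
  -- the matrix `B` is injective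
  have hBne : ∀ y : Fin (n' + 1) → ℂ, y ≠ 0 → (fun i => lin (B i) y) ≠ 0 := by
    intro y hy h0
    apply hy
    funext l
    have h1 : lin (C l) (fun i => lin (B i) y) = y l := by
      rw [Orb_lin_dot]
      simp only [Orb_lin_dot, Finset.mul_sum]
      rw [Finset.sum_comm]
      have h2 : ∀ l', ∑ i, C l i * (B i l' * y l') = (if l = l' then 1 else 0) * y l' := by
        intro l'
        rw [← hCB, Finset.sum_mul]
        exact Finset.sum_congr rfl fun i _ => (mul_assoc _ _ _).symm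
      rw [Finset.sum_congr rfl fun l' _ => h2 l']
      simp
    rw [← h1, h0, Orb_lin_dot]
    simp
  -- the map into the small projective space
  have hf' : HolomorphicInto (fun z => Orb_map C (f z)) puncturedDisc :=
    Orb_holo C Orb_isOpen hf hCne
  have hf'mk : ∀ z ∈ puncturedDisc, ∀ h, Orb_map C (f z) =
      Projectivization.mk ℂ (fun l => lin (C l) (f z).rep) h := by
    intro z _ h
    conv_lhs => rw [← (f z).mk_rep]
    exact Orb_map_mk C (f z).rep_nonzero h
  -- it is enough to extend this map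
  suffices hmain : ∃ g' : ℂ → PN n', HolomorphicInto g' (Metric.ball 0 1) ∧
      ∀ z ∈ puncturedDisc, g' z = Orb_map C (f z) by
    obtain ⟨g', hg', hgf⟩ := hmain
    refine ⟨fun z => Orb_map B (g' z),
      Orb_holo B Metric.isOpen_ball hg' fun z _ => hBne _ (g' z).rep_nonzero, fun z hz => ?_⟩
    show Orb_map B (g' z) = f z
    have h1 := hCne z hz
    have h2 := hBne _ h1
    rw [hgf z hz, hf'mk z hz h1, Orb_map_mk B h1 h2]
    conv_rhs => rw [← (f z).mk_rep]
    rw [Projectivization.mk_eq_mk_iff']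
    refine ⟨1, ?_⟩
    rw [one_smul]
    funext i
    exact hrep z hz i
  rcases Nat.eq_zero_or_pos n' with h0 | h0
  · -- a map into a point
    subst h0
    have h1 : (fun _ : Fin (0 + 1) => (1 : ℂ)) ≠ 0 := fun h => one_ne_zero (congrFun h 0)
    refine ⟨fun _ => Projectivization.mk ℂ (fun _ => 1) h1, fun z _ =>
      ⟨fun _ _ => 1, analyticAt_const, Filter.Eventually.of_forall fun w => ⟨h1, rfl⟩⟩,
      fun z hz => ?_⟩
    have h2 := hCne z hz
    show Projectivization.mk ℂ (fun _ => 1) h1 = _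
    rw [hf'mk z hz h2, Projectivization.mk_eq_mk_iff']
    have h3 : lin (C 0) (f z).rep ≠ 0 := by
      intro h4
      apply h2
      funext l
      rw [Fin.fin_one_eq_zero l]
      exact h4
    refine ⟨(lin (C 0) (f z).rep)⁻¹, ?_⟩
    funext l
    rw [Pi.smul_apply, smul_eq_mul, Fin.fin_one_eq_zero l]
    exact inv_mul_cancel₀ h3
  · refine orb_core h0 hq ((Nat.mul_le_mul_right _ hn').trans_lt hb) ht' hs' hf' ?_ ?_
    · -- the multiplicities
      intro j s hs
      obtain ⟨φ, hφ, he, ho⟩ := hm j.1 s hs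
      have hφJ : ∀ᶠ z in 𝓝 s, ∀ i, φ z i = lin (B i) fun l => lin (C l) (φ z) := by
        filter_upwards [he, Orb_isOpen.mem_nhds hs] with z hz hzU i
        obtain ⟨h1, h2⟩ := hz
        refine eq_lin_of_restrict hD (fun j' hj' => ?_) i
        obtain ⟨a, ha, h3⟩ := Pool.Agent.H17.exists_smul_rep (φ z) h1
        have h4 := (hJmem j').mp hj' z hzU
        rw [h2, h3, Orb_lin_smul] at h4
        exact (mul_eq_zero.mp h4).resolve_left ha
      have hval : ∀ᶠ z in 𝓝 s, ∑ a, restr B (t j.1) a * lin (C a) (φ z) =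
          ∑ a, t j.1 a * φ z a := by
        filter_upwards [hφJ] with z hz
        have h1 : lin (restr B (t j.1)) (fun l => lin (C l) (φ z)) = lin (t j.1) (φ z) := by
          rw [lin_restr]
          congr 1
          funext i
          exact (hz i).symm
        exact h1
      refine ⟨fun z l => lin (C l) (φ z), ?_, ?_, fun h1 => ?_⟩
      · rw [analyticAt_pi_iff]
        exact fun l => Orb_lin_an (C l) hφ
      · filter_upwards [he, Orb_isOpen.mem_nhds hs] with z hz hzU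
        obtain ⟨h1, h2⟩ := hz
        have h3 := hCne z hzU
        rw [h2] at h3
        have h4 := Orb_ne C h1 h3
        refine ⟨h4, ?_⟩
        rw [h2]
        exact Orb_map_mk C h1 h4
      · have h2 := hval.self_of_nhds
        rw [h1] at h2
        rw [analyticOrderAt_congr hval]
        exact ho h2.symm
    · -- the image is in none of the hyperplanes
      intro j
      have h1 := j.2
      rw [hJmem] at h1
      push Not at h1
      obtain ⟨z, hz, h2⟩ := h1
      refine ⟨z, hz, ?_⟩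
      have h3 := hCne z hz
      rw [hf'mk z hz h3]
      obtain ⟨a, ha, h4⟩ := Pool.Agent.H17.exists_smul_rep (fun l => lin (C l) (f z).rep) h3
      rw [h4, Orb_lin_smul, lin_restr]
      refine mul_ne_zero ha ?_
      have h5 : (fun i => lin (B i) fun l => lin (C l) (f z).rep) = (f z).rep := by
        funext i
        exact (hrep z hz i).symm
      rw [h5]
      exact h2

end Pool.Agent.H39.HC

end
end
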