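import Mathlib

/-! The parts of this file: H39.SX.Dens, H39.SX.Line, H39.SX.Hartogs, H39.SX.Newton, H39.SX.Grad, H39.SZ.Cone, H39.SZ.Lin, H5.DG4.RootBd. -/

section

/-!
# Dense sets of lines

`linMod v b a` are `n` linear forms on `ℂ ^ (n + 1)` which vanish at `v` (if `v b ≠ 0`).

PROOF.  `linMod_add`: direct computation.  `dense_ne_zero`: the complement is the zero set of a polynomial which is not zero; if it contained a
neighbourhood of a point then the polynomial would be zero (`Pool.Agent.H13.SM.eq_zero_of_eventually`, or `MvPolynomial.funext_set`, or analytic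
identity theorem and `MvPolynomial.funext`).  `dense_lines`: the polynomial `rename b.succAbove R'`, or rather `Q = aeval (fun a => X (b.succAbove a) -
C (v (b.succAbove a) / v b) * X b) R` satisfies `eval u Q = eval (linMod v b u) R`; it is not zero since `linMod v b` is surjective (take `u b = 0`) and
`R` takes a value `≠ 0` (`MvPolynomial.funext`).  With `R (x + ·)`: replace `R` by its translate.
-/

open Topology Filter MvPolynomial

noncomputable section

namespace Pool.Agent.H39.SX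

/-- Linear forms on `ℂ ^ (n + 1)` which vanish at `v`. -/
def linMod {n : ℕ} (v : Fin (n + 1) → ℂ) (b : Fin (n + 1)) (u : Fin (n + 1) → ℂ) (a : Fin n) : ℂ :=
  u (b.succAbove a) - v (b.succAbove a) / v b * u b

theorem linMod_add {n : ℕ} {v : Fin (n + 1) → ℂ} {b : Fin (n + 1)} (hb : v b ≠ 0)
    (u : Fin (n + 1) → ℂ) (t : ℂ) : linMod v b (u + t • v) = linMod v b u := by
  funext a
  unfold linMod
  rw [Pi.add_apply, Pi.add_apply, Pi.smul_apply, Pi.smul_apply, smul_eq_mul, smul_eq_mul]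
  have h1 : v (b.succAbove a) / v b * (t * v b) = t * v (b.succAbove a) := by
    field_simp
  rw [mul_add, h1]
  ring

theorem dense_ne_zero {n : ℕ} {R : MvPolynomial (Fin n) ℂ} (hR : R ≠ 0) :
    Dense {u : Fin n → ℂ | eval u R ≠ 0} := by
  rw [Metric.dense_iff]
  intro x r hr
  by_contra hcon
  rw [Set.not_nonempty_iff_eq_empty] at hcon
  apply hR
  refine MvPolynomial.funext_set (fun i => Metric.ball (x i) r) (fun i => ?_) fun y hy => ?_
  · have h1 := infinite_of_mem_nhds (x i) (Metric.ball_mem_nhds (x i) hr)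
    exact h1
  · rw [map_zero]
    by_contra h1
    have h2 : y ∈ Metric.ball x r ∩ {u : Fin n → ℂ | eval u R ≠ 0} := by
      refine ⟨?_, h1⟩
      rw [ball_pi x hr]
      exact hy
    rw [hcon] at h2
    exact h2

theorem dense_lines {n : ℕ} {v : Fin (n + 1) → ℂ} {b : Fin (n + 1)} (hb : v b ≠ 0)
    {R : MvPolynomial (Fin n) ℂ} (hR : R ≠ 0) (x : Fin n → ℂ) :
    Dense {u : Fin (n + 1) → ℂ | eval (fun a => x a + linMod v b u a) R ≠ 0} := by
  obtain ⟨Q, hQ⟩ : ∃ Q : MvPolynomial (Fin (n + 1)) ℂ, Q = aeval (fun a : Fin n =>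
      (C (x a) + (X (b.succAbove a) - C (v (b.succAbove a) / v b) * X b) :
        MvPolynomial (Fin (n + 1)) ℂ)) R := ⟨_, rfl⟩
  have hQe : ∀ u : Fin (n + 1) → ℂ, eval u Q = eval (fun a => x a + linMod v b u a) R := by
    intro u
    rw [hQ, aeval_def, eval₂_comp_left (eval u)]
    have h1 : (eval u).comp (algebraMap ℂ (MvPolynomial (Fin (n + 1)) ℂ)) = RingHom.id ℂ :=
      RingHom.ext fun t => eval_C t
    rw [h1]
    change _ = eval₂ (RingHom.id ℂ) (fun a => x a + linMod v b u a) R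
    congr 1
    funext a
    simp only [Function.comp_apply, map_add, map_sub, map_mul, eval_C, eval_X, linMod]
  have hQ0 : Q ≠ 0 := by
    intro h0
    apply hR
    refine MvPolynomial.funext fun y => ?_
    rw [map_zero]
    have h1 := hQe (b.insertNth 0 fun a => y a - x a)
    rw [h0, map_zero] at h1
    rw [h1]
    congr 1
    have h2 : (fun a => x a + linMod v b (b.insertNth 0 fun a => y a - x a) a) = y := by
      funext a
      unfold linMod
      rw [Fin.insertNth_apply_succAbove, Fin.insertNth_apply_same]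
      ring
    rw [h2]
  have h1 := dense_ne_zero hQ0
  have h2 : {u : Fin (n + 1) → ℂ | eval u Q ≠ 0} =
      {u : Fin (n + 1) → ℂ | eval (fun a => x a + linMod v b u a) R ≠ 0} := by
    ext u
    rw [Set.mem_setOf_eq, Set.mem_setOf_eq, hQe]
  rwa [h2] at h1

end Pool.Agent.H39.SX

end
end

section

/-!
# The maximum principle for a quotient

PROOF.  Let `q` be the meromorphic function `w / h` on the closed ball (`h` is not identically zero near any point of the closed ball, by the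
identity theorem and `hcs`).  At a zero `z` of `h` the order of `w` is at least that of `h` by `hloc` (or: `q` is bounded in a punctured
neighbourhood), so the normal form `toMeromorphicNFOn q U` (`U` = the set of the points where `w` and `h` are analytic, or the closed ball) is
analytic on the closed ball; it is equal to `w / h` where `h ≠ 0`.  `Complex.norm_le_of_forall_mem_frontier_norm_le`: `‖q‖ ≤ A / c` on the ball.
At the zeros of `h` also `w z = 0` (by `hloc` at `z` itself), so the claim is trivial there.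
(Alternative: divide `w` and `h` by the product of the `(z - z_i) ^ m_i` over the finitely many zeros.)
-/

open Topology Filter

noncomputable section

namespace Pool.Agent.H39.SX

theorem norm_le_of_quotient {w h : ℂ → ℂ} {R A c : ℝ} (hR : 0 < R)
    (hw : ∀ z ∈ Metric.closedBall (0 : ℂ) R, AnalyticAt ℂ w z)
    (hh : ∀ z ∈ Metric.closedBall (0 : ℂ) R, AnalyticAt ℂ h z)
    (hA : ∀ z ∈ Metric.sphere (0 : ℂ) R, ‖w z‖ ≤ A) (hc : 0 < c)
    (hcs : ∀ z ∈ Metric.sphere (0 : ℂ) R, c ≤ ‖h z‖)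
    (hloc : ∀ z ∈ Metric.ball (0 : ℂ) R, h z = 0 → ∃ C : ℝ, ∀ᶠ t in 𝓝 z, ‖w t‖ ≤ C * ‖h t‖) :
    ∀ z ∈ Metric.closedBall (0 : ℂ) R, ‖w z‖ ≤ A / c * ‖h z‖ := by
  obtain ⟨q, hq⟩ : ∃ q : ℂ → ℂ, q = fun z => w z / h z := ⟨_, rfl⟩
  have hmer : MeromorphicOn q (Metric.closedBall (0 : ℂ) R) := by
    intro z hz
    rw [hq]
    exact (hw z hz).meromorphicAt.div (hh z hz).meromorphicAt
  have hne : ∀ z ∈ Metric.sphere (0 : ℂ) R, h z ≠ 0 := by
    intro z hz h0
    have h1 := hcs z hz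
    rw [h0, norm_zero] at h1
    linarith
  have hball : ∀ z ∈ Metric.closedBall (0 : ℂ) R, h z = 0 → z ∈ Metric.ball (0 : ℂ) R := by
    intro z hz h0
    by_contra hcon
    refine hne z ?_ h0
    rw [Metric.mem_sphere]
    rw [Metric.mem_closedBall] at hz
    rw [Metric.mem_ball, not_lt] at hcon
    exact le_antisymm hz hcon
  have hanq : ∀ z ∈ Metric.closedBall (0 : ℂ) R, h z ≠ 0 → AnalyticAt ℂ q z := by
    intro z hz h0
    rw [hq]
    exact (hw z hz).div (hh z hz) h0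
  have hord : ∀ z ∈ Metric.closedBall (0 : ℂ) R, 0 ≤ meromorphicOrderAt q z := by
    intro z hz
    by_cases h0 : h z = 0
    · by_contra hcon
      rw [not_le] at hcon
      have h1 := tendsto_cobounded_of_meromorphicOrderAt_neg hcon
      rw [← tendsto_norm_atTop_iff_cobounded] at h1
      obtain ⟨C, hC⟩ := hloc z (hball z hz h0) h0
      have h2 := h1.eventually_gt_atTop (max C 0)
      have h3 : ∀ᶠ t in 𝓝[≠] z, ‖w t‖ ≤ C * ‖h t‖ := hC.filter_mono nhdsWithin_le_nhds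
      obtain ⟨t, ht1, ht2⟩ := (h2.and h3).exists
      rw [hq] at ht1
      have ht1' : max C 0 < ‖w t / h t‖ := ht1
      rw [norm_div] at ht1'
      by_cases h4 : h t = 0
      · rw [h4, norm_zero, div_zero] at ht1'
        exact absurd ht1' (not_lt.2 (le_max_right _ _))
      · have h5 : 0 < ‖h t‖ := norm_pos_iff.2 h4
        have h6 : ‖w t‖ / ‖h t‖ ≤ C := by
          rw [div_le_iff₀ h5]
          exact ht2
        exact absurd ht1' (not_lt.2 (h6.trans (le_max_left _ _)))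
    · exact (hanq z hz h0).meromorphicOrderAt_nonneg
  obtain ⟨Q, hQ⟩ : ∃ Q : ℂ → ℂ, Q = toMeromorphicNFOn q (Metric.closedBall (0 : ℂ) R) :=
    ⟨_, rfl⟩
  have hQan : ∀ z ∈ Metric.closedBall (0 : ℂ) R, AnalyticAt ℂ Q z := by
    intro z hz
    have h1 : MeromorphicNFAt Q z := by
      rw [hQ]
      exact meromorphicNFOn_toMeromorphicNFOn q _ hz
    rw [← h1.meromorphicOrderAt_nonneg_iff_analyticAt, hQ,
      meromorphicOrderAt_toMeromorphicNFOn hmer hz]
    exact hord z hz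
  have hQq : ∀ z ∈ Metric.closedBall (0 : ℂ) R, h z ≠ 0 → Q z = w z / h z := by
    intro z hz h0
    rw [hQ, toMeromorphicNFOn_eq_toMeromorphicNFAt hmer hz,
      toMeromorphicNFAt_eq_self.2 (hanq z hz h0).meromorphicNFAt, hq]
  have hA0 : ∀ z ∈ Metric.sphere (0 : ℂ) R, ‖Q z‖ ≤ A / c := by
    intro z hz
    rw [hQq z (Metric.sphere_subset_closedBall hz) (hne z hz), norm_div]
    exact div_le_div₀ ((norm_nonneg _).trans (hA z hz)) (hA z hz) hc (hcs z hz)
  have hdc : DiffContOnCl ℂ Q (Metric.ball (0 : ℂ) R) := by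
    refine ⟨fun z hz => ((hQan z (Metric.ball_subset_closedBall hz)).differentiableAt
      ).differentiableWithinAt, ?_⟩
    rw [closure_ball _ hR.ne']
    exact fun z hz => (hQan z hz).continuousAt.continuousWithinAt
  have hmax : ∀ z ∈ Metric.closedBall (0 : ℂ) R, ‖Q z‖ ≤ A / c := by
    intro z hz
    refine Complex.norm_le_of_forall_mem_frontier_norm_le Metric.isBounded_ball hdc ?_
      (by rw [closure_ball _ hR.ne']; exact hz)
    rw [frontier_ball _ hR.ne']
    exact hA0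
  intro z hz
  by_cases h0 : h z = 0
  · obtain ⟨C, hC⟩ := hloc z (hball z hz h0) h0
    have h1 := hC.self_of_nhds
    rw [h0, norm_zero, mul_zero] at h1 ⊢
    exact h1
  · have h1 := hmax z hz
    rw [hQq z hz h0, norm_div, div_le_iff₀ (norm_pos_iff.2 h0)] at h1
    exact h1

end Pool.Agent.H39.SX

end
end

section

/-!
# A quotient which is locally bounded outside of a small set

PROOF.  If `H u₀ ≠ 0` use continuity.  Otherwise there is `u₁` near `u₀` (on a ball where `H` and `w` are analytic and `hloc` holds) with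
`H u₁ ≠ 0`; `v = u₁ - u₀ ≠ 0`.  The function `t ↦ H (u₀ + t • v)` is analytic near the closed unit disc and not identically zero near `0`
(identity theorem on the ball / on the segment), so there is `R ∈ (0, 1)` with `H (u₀ + t • v) ≠ 0` for `‖t‖ = R` (isolated zero at `0`:
`AnalyticAt.eventually_eq_zero_or_eventually_ne_zero`).  By compactness of the sphere and continuity there are `c > 0`, `A` and a neighbourhood
`U` of `u₀` with `c ≤ ‖H (u + t • v)‖`, `‖w (u + t • v)‖ ≤ A` for `u ∈ U`, `‖t‖ = R`, and all `u + t • v`, `u ∈ U`, `‖t‖ ≤ R`, lie in the ball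
(`IsCompact.eventually_forall_of_forall_eventually` or a tube lemma).  For `u ∈ U ∩ D` (`D` of `hZ v`) `norm_le_of_quotient` for
`t ↦ w (u + t • v)`, `t ↦ H (u + t • v)` gives `‖w u‖ ≤ A / c * ‖H u‖`.  `D` is dense and both sides are continuous near `u₀`, so it holds for
all `u` in an open neighbourhood of `u₀`.
-/

open Topology Filter

noncomputable section

namespace Pool.Agent.H39.SX

theorem hartogs {n : ℕ} {w H : (Fin n → ℂ) → ℂ} {u₀ : Fin n → ℂ} (hw : AnalyticAt ℂ w u₀)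
    (hH : AnalyticAt ℂ H u₀) (hne : ¬ ∀ᶠ u in 𝓝 u₀, H u = 0) (Z : Set (Fin n → ℂ))
    (hloc : ∀ᶠ u in 𝓝 u₀, u ∉ Z → ∃ C : ℝ, ∀ᶠ u' in 𝓝 u, ‖w u'‖ ≤ C * ‖H u'‖)
    (hZ : ∀ v : Fin n → ℂ, v ≠ 0 → ∃ D : Set (Fin n → ℂ), Dense D ∧
      ∀ u ∈ D, ∀ t : ℂ, u + t • v ∉ Z) :
    ∃ C : ℝ, 0 ≤ C ∧ ∀ᶠ u in 𝓝 u₀, ‖w u‖ ≤ C * ‖H u‖ := by
  by_cases h0 : H u₀ ≠ 0
  · have hpos : 0 < ‖H u₀‖ := norm_pos_iff.2 h0
    refine ⟨(‖w u₀‖ + 1) / (‖H u₀‖ / 2), by positivity, ?_⟩
    have e1 : ∀ᶠ u in 𝓝 u₀, ‖w u‖ < ‖w u₀‖ + 1 :=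
      hw.continuousAt.norm.eventually (gt_mem_nhds (lt_add_one _))
    have e2 : ∀ᶠ u in 𝓝 u₀, ‖H u₀‖ / 2 < ‖H u‖ :=
      hH.continuousAt.norm.eventually (lt_mem_nhds (half_lt_self hpos))
    filter_upwards [e1, e2] with u h1 h2
    rw [div_mul_eq_mul_div, le_div_iff₀ (by positivity)]
    exact mul_le_mul h1.le h2.le (by positivity) (by positivity)
  rw [not_not] at h0
  obtain ⟨r, hr, hball⟩ := Metric.eventually_nhds_iff_ball.1
    ((hw.eventually_analyticAt.and hH.eventually_analyticAt).and hloc)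
  obtain ⟨u₁, hu₁, hu₁b⟩ := ((not_eventually.1 hne).and_eventually (Metric.ball_mem_nhds u₀ hr)).exists
  obtain ⟨v, hv⟩ : ∃ v, v = u₁ - u₀ := ⟨_, rfl⟩
  have hv0 : v ≠ 0 := by
    intro h
    rw [h] at hv
    apply hu₁
    rw [← sub_eq_zero.1 hv.symm] at h0
    exact h0
  have hvn : 0 < ‖v‖ := norm_pos_iff.2 hv0
  have hvr : ‖v‖ < r := by
    rw [hv, ← dist_eq_norm]
    exact hu₁b
  have hlin : ∀ (u : Fin n → ℂ) (t : ℂ), AnalyticAt ℂ (fun t : ℂ => u + t • v) t := by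
    intro u t
    exact analyticAt_const.add (analyticAt_id.smul analyticAt_const)
  have hmem : ∀ (u : Fin n → ℂ) (t : ℂ), ‖u - u₀‖ + ‖t‖ * ‖v‖ < r → u + t • v ∈ Metric.ball u₀ r := by
    intro u t h
    rw [Metric.mem_ball, dist_eq_norm]
    calc ‖u + t • v - u₀‖ = ‖(u - u₀) + t • v‖ := by congr 1; abel
      _ ≤ ‖u - u₀‖ + ‖t • v‖ := norm_add_le _ _
      _ = ‖u - u₀‖ + ‖t‖ * ‖v‖ := by rw [norm_smul]
      _ < r := h
  have hHl : ∀ (u : Fin n → ℂ) (t : ℂ), ‖u - u₀‖ + ‖t‖ * ‖v‖ < r →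
      AnalyticAt ℂ (fun t : ℂ => H (u + t • v)) t := by
    intro u t h
    exact AnalyticAt.fun_comp (hball _ (hmem u t h)).1.2 (hlin u t)
  have hwl : ∀ (u : Fin n → ℂ) (t : ℂ), ‖u - u₀‖ + ‖t‖ * ‖v‖ < r →
      AnalyticAt ℂ (fun t : ℂ => w (u + t • v)) t := by
    intro u t h
    exact AnalyticAt.fun_comp (hball _ (hmem u t h)).1.1 (hlin u t)
  -- the function on the line through the centre
  obtain ⟨R, hR0, hR1, hRne⟩ : ∃ R : ℝ, 0 < R ∧ R < 1 ∧
      ∀ t : ℂ, ‖t‖ = R → H (u₀ + t • v) ≠ 0 := by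
    have hne' : ¬ ∀ᶠ t in 𝓝 (0 : ℂ), H (u₀ + t • v) = 0 := by
      intro h
      have hpre : IsPreconnected (Metric.ball (0 : ℂ) (r / ‖v‖)) :=
        (convex_ball (0 : ℂ) _).isPreconnected
      have han : AnalyticOnNhd ℂ (fun t : ℂ => H (u₀ + t • v)) (Metric.ball (0 : ℂ) (r / ‖v‖)) := by
        intro t ht
        apply hHl
        rw [mem_ball_zero_iff, lt_div_iff₀ hvn] at ht
        rwa [sub_self, norm_zero, zero_add]
      have h1 := han.eqOn_zero_of_preconnected_of_eventuallyEq_zero hpre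
        (Metric.mem_ball_self (div_pos hr hvn)) h
      have h2 : (1 : ℂ) ∈ Metric.ball (0 : ℂ) (r / ‖v‖) := by
        rw [mem_ball_zero_iff, norm_one, lt_div_iff₀ hvn, one_mul]
        exact hvr
      have h3 := h1 h2
      apply hu₁
      have h4 : u₀ + (1 : ℂ) • v = u₁ := by rw [one_smul, hv]; abel
      have h5 : H (u₀ + (1 : ℂ) • v) = 0 := h3
      rwa [h4] at h5
    have h0r : ‖u₀ - u₀‖ + ‖(0 : ℂ)‖ * ‖v‖ < r := by
      rw [sub_self, norm_zero, norm_zero, zero_mul, zero_add]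
      exact hr
    rcases (hHl u₀ 0 h0r).eventually_eq_zero_or_eventually_ne_zero with h | h
    · exact absurd h hne'
    · rw [eventually_nhdsWithin_iff, Metric.eventually_nhds_iff_ball] at h
      obtain ⟨ρ, hρ, hb⟩ := h
      refine ⟨min (ρ / 2) (1 / 2), by positivity, ?_, ?_⟩
      · exact lt_of_le_of_lt (min_le_right _ _) (by norm_num)
      · intro t ht
        apply hb t
        · rw [mem_ball_zero_iff, ht]
          exact lt_of_le_of_lt (min_le_left _ _) (half_lt_self hρ)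
        · intro h
          rw [Set.mem_singleton_iff] at h
          rw [h, norm_zero] at ht
          have : 0 < min (ρ / 2) (1 / 2 : ℝ) := by positivity
          exact absurd ht this.ne
  have hK : IsCompact (Metric.sphere (0 : ℂ) R) := isCompact_sphere 0 R
  have hKne : (Metric.sphere (0 : ℂ) R).Nonempty := ⟨(R : ℂ), by
    rw [mem_sphere_zero_iff_norm, Complex.norm_real, Real.norm_of_nonneg hR0.le]⟩
  have hKr : ∀ t ∈ Metric.sphere (0 : ℂ) R, ‖u₀ - u₀‖ + ‖t‖ * ‖v‖ < r := by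
    intro t ht
    rw [mem_sphere_zero_iff_norm] at ht
    rw [sub_self, norm_zero, zero_add, ht]
    nlinarith
  obtain ⟨t₀, ht₀, hmin⟩ := hK.exists_isMinOn hKne
    (f := fun t : ℂ => ‖H (u₀ + t • v)‖) (fun t ht => (hHl u₀ t (hKr t ht)).continuousAt.norm.continuousWithinAt)
  obtain ⟨A₀, hA₀⟩ := hK.exists_bound_of_continuousOn
    (f := fun t : ℂ => w (u₀ + t • v)) (fun t ht => (hwl u₀ t (hKr t ht)).continuousAt.continuousWithinAt)
  have hm0 : 0 < ‖H (u₀ + t₀ • v)‖ :=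
    norm_pos_iff.2 (hRne t₀ (mem_sphere_zero_iff_norm.1 ht₀))
  obtain ⟨c, hc⟩ : ∃ c, c = ‖H (u₀ + t₀ • v)‖ / 2 := ⟨_, rfl⟩
  have hc0 : 0 < c := by rw [hc]; positivity
  have hA₀0 : 0 ≤ A₀ := le_trans (norm_nonneg _) (hA₀ t₀ ht₀)
  have hcomp : ∀ᶠ u in 𝓝 u₀, ∀ t ∈ Metric.sphere (0 : ℂ) R,
      c ≤ ‖H (u + t • v)‖ ∧ ‖w (u + t • v)‖ ≤ A₀ + 1 := by
    apply hK.eventually_forall_of_forall_eventually
      (P := fun u t => c ≤ ‖H (u + t • v)‖ ∧ ‖w (u + t • v)‖ ≤ A₀ + 1)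
    intro t ht
    have hcont : ContinuousAt (fun z : (Fin n → ℂ) × ℂ => z.1 + z.2 • v) (u₀, t) := by fun_prop
    have hp := (hball _ (hmem u₀ t (hKr t ht))).1
    have c1 : ContinuousAt (fun z : (Fin n → ℂ) × ℂ => ‖H (z.1 + z.2 • v)‖) (u₀, t) :=
      (ContinuousAt.comp (x := (u₀, t)) (g := H) hp.2.continuousAt hcont).norm
    have c2 : ContinuousAt (fun z : (Fin n → ℂ) × ℂ => ‖w (z.1 + z.2 • v)‖) (u₀, t) :=
      (ContinuousAt.comp (x := (u₀, t)) (g := w) hp.1.continuousAt hcont).norm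
    have l1 : c < ‖H (u₀ + t • v)‖ := by
      have := hmin ht
      simp only at this
      calc c < ‖H (u₀ + t₀ • v)‖ := by rw [hc]; exact half_lt_self hm0
        _ ≤ _ := this
    have l2 : ‖w (u₀ + t • v)‖ < A₀ + 1 := lt_of_le_of_lt (hA₀ t ht) (lt_add_one _)
    filter_upwards [c1.eventually (lt_mem_nhds l1), c2.eventually (gt_mem_nhds l2)] with z h1 h2
    exact ⟨h1.le, h2.le⟩
  obtain ⟨ε, hε, hεb⟩ := Metric.eventually_nhds_iff_ball.1
    (hcomp.and (Metric.ball_mem_nhds u₀ (sub_pos.2 hvr)))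
  obtain ⟨D, hD, hDZ⟩ := hZ v hv0
  have hkey : ∀ u ∈ Metric.ball u₀ ε, u ∈ D → ‖w u‖ ≤ (A₀ + 1) / c * ‖H u‖ := by
    intro u hu huD
    obtain ⟨h1, h2⟩ := hεb u hu
    have h2' : ‖u - u₀‖ < r - ‖v‖ := by rwa [← dist_eq_norm]
    have hlt : ∀ z ∈ Metric.closedBall (0 : ℂ) R, ‖u - u₀‖ + ‖z‖ * ‖v‖ < r := by
      intro z hz
      rw [mem_closedBall_zero_iff] at hz
      have : ‖z‖ * ‖v‖ ≤ ‖v‖ := by
        have : ‖z‖ ≤ 1 := hz.trans hR1.le
        nlinarith
      linarith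
    have h3 := norm_le_of_quotient (w := fun t : ℂ => w (u + t • v)) (h := fun t : ℂ => H (u + t • v))
      (A := A₀ + 1) (c := c) hR0 (fun z hz => hwl u z (hlt z hz)) (fun z hz => hHl u z (hlt z hz))
      (fun z hz => (h1 z hz).2) hc0 (fun z hz => (h1 z hz).1) (by
        intro z hz _
        have hzc : z ∈ Metric.closedBall (0 : ℂ) R := Metric.ball_subset_closedBall hz
        obtain ⟨C, hC⟩ := (hball _ (hmem u z (hlt z hzc))).2 (hDZ u huD z)
        exact ⟨C, (hlin u z).continuousAt.eventually hC⟩) 0 (Metric.mem_closedBall_self hR0.le)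
    simpa using h3
  refine ⟨(A₀ + 1) / c, by positivity, ?_⟩
  have hmin' : 0 < min ε r := lt_min hε hr
  filter_upwards [Metric.ball_mem_nhds u₀ hmin'] with u hu
  have hu1 : u ∈ Metric.ball u₀ ε := Metric.ball_subset_ball (min_le_left _ _) hu
  have hu2 : u ∈ Metric.ball u₀ r := Metric.ball_subset_ball (min_le_right _ _) hu
  by_contra hcon
  rw [not_le] at hcon
  have ha := (hball u hu2).1
  have c1 : ContinuousAt (fun x => ‖w x‖ - (A₀ + 1) / c * ‖H x‖) u :=
    ha.1.continuousAt.norm.sub (continuousAt_const.mul ha.2.continuousAt.norm)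
  have e1 : ∀ᶠ x in 𝓝 u, 0 < ‖w x‖ - (A₀ + 1) / c * ‖H x‖ :=
    c1.eventually (lt_mem_nhds (by simpa using hcon))
  obtain ⟨x, hxD, hx1, hx2⟩ := hD.inter_nhds_nonempty
    (e1.and (Metric.isOpen_ball.mem_nhds hu1) : _ ∈ 𝓝 u)
  have := hkey x hx2 hxD
  linarith

end Pool.Agent.H39.SX

end
end

section

/-!
# Functions of one variable without simple zeros

PROOF.  Let `a = ‖h' z₀‖`, `b = ‖h z₀‖` and suppose `(8 M + 4 a / R) b < a ^ 2`.  Then `a > 0`, `8 M b < a ^ 2`, `4 b / a < R`; `b = 0` would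
give `a = 0` by `h0`, so `b > 0`.  Let `s = 4 b / a`.  On the closed ball of radius `s` one has `‖h' z - h' z₀‖ ≤ M s` (mean value inequality,
`Convex.norm_image_sub_le_of_norm_deriv_le`), so `‖h z - h z₀ - h' z₀ (z - z₀)‖ ≤ M s ^ 2` (the same for `h z - h' z₀ * z`), and
`‖h z - h z₀‖ ≥ ε := a s - M s ^ 2 = 4 b - 16 M b ^ 2 / a ^ 2 > 2 b` on the sphere.  By `DiffContOnCl.ball_subset_image_closedBall` the function
`h` has a zero `z₁` in the closed ball (`h z₀ ≠ h z` near `z₀`, as `h' z₀ ≠ 0`: `HasDerivAt.eventually_ne`), and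
`‖h' z₁‖ ≥ a - M s = a - 4 M b / a > a / 2 > 0`, against `h0`.
-/

open Topology Filter

noncomputable section

namespace Pool.Agent.H39.SX

theorem sq_norm_deriv_le {h : ℂ → ℂ} {z₀ : ℂ} {R M : ℝ} (hR : 0 < R) (hM : 0 ≤ M)
    (hd : ∀ z ∈ Metric.closedBall z₀ R, AnalyticAt ℂ h z)
    (h2 : ∀ z ∈ Metric.closedBall z₀ R, ‖deriv (deriv h) z‖ ≤ M)
    (h0 : ∀ z ∈ Metric.closedBall z₀ R, h z = 0 → deriv h z = 0) :
    ‖deriv h z₀‖ ^ 2 ≤ (8 * M + 4 * ‖deriv h z₀‖ / R) * ‖h z₀‖ := by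
  by_contra hcon
  push Not at hcon
  set a := ‖deriv h z₀‖ with ha
  set b := ‖h z₀‖ with hb
  have ha0 : 0 ≤ a := norm_nonneg _
  have hb0 : 0 ≤ b := norm_nonneg _
  have hz₀ : z₀ ∈ Metric.closedBall z₀ R := Metric.mem_closedBall_self hR.le
  have hMb : 0 ≤ M * b := mul_nonneg hM hb0
  have hapos : 0 < a := by
    rcases ha0.lt_or_eq with h' | h'
    · exact h'
    · exfalso
      rw [← h'] at hcon
      simp only [mul_zero, zero_div, add_zero] at hcon
      nlinarith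
  have hab : 0 ≤ 4 * a / R * b := by positivity
  have h8 : 8 * M * b < a ^ 2 := by nlinarith
  have h4 : 4 * b / a < R := by
    have h41 : 4 * a / R * b < a ^ 2 := by nlinarith
    rw [div_lt_iff₀ hapos]
    have h42 : 4 * a / R * b = a * (4 * b / R) := by ring
    rw [h42, pow_two] at h41
    have h43 : 4 * b / R < a := lt_of_mul_lt_mul_left h41 ha0
    rw [div_lt_iff₀ hR] at h43
    linarith
  have hbpos : 0 < b := by
    rcases hb0.lt_or_eq with h' | h'
    · exact h'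
    · exfalso
      have h1 : h z₀ = 0 := norm_eq_zero.1 h'.symm
      have h3 := h0 z₀ hz₀ h1
      rw [ha, h3, norm_zero] at hapos
      exact lt_irrefl _ hapos
  set s := 4 * b / a with hs
  have hspos : 0 < s := by positivity
  have hsub : Metric.closedBall z₀ s ⊆ Metric.closedBall z₀ R := Metric.closedBall_subset_closedBall h4.le
  have hz₀s : z₀ ∈ Metric.closedBall z₀ s := Metric.mem_closedBall_self hspos.le
  have hconv : Convex ℝ (Metric.closedBall z₀ s) := convex_closedBall z₀ s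
  have hM1 : ∀ z ∈ Metric.closedBall z₀ s, ‖deriv h z - deriv h z₀‖ ≤ M * s := by
    intro z hz
    have h1 := hconv.norm_image_sub_le_of_norm_deriv_le (f := deriv h) (C := M)
      (fun x hx => (hd x (hsub hx)).deriv.differentiableAt) (fun x hx => h2 x (hsub hx)) hz₀s hz
    refine h1.trans (mul_le_mul_of_nonneg_left ?_ hM)
    rw [← dist_eq_norm]
    exact Metric.mem_closedBall.1 hz
  have hM2 : ∀ z ∈ Metric.closedBall z₀ s, ‖h z - h z₀ - deriv h z₀ * (z - z₀)‖ ≤ M * s * ‖z - z₀‖ := by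
    intro z hz
    have h1 := hconv.norm_image_sub_le_of_norm_hasDerivWithin_le (f := fun w => h w - deriv h z₀ * w)
      (f' := fun w => deriv h w - deriv h z₀) (C := M * s)
      (fun x hx => by
        have h5 : HasDerivAt h (deriv h x) x := (hd x (hsub hx)).differentiableAt.hasDerivAt
        have h6 : HasDerivAt (fun w : ℂ => deriv h z₀ * w) (deriv h z₀ * 1) x := (hasDerivAt_id x).const_mul _
        rw [mul_one] at h6
        exact (h5.sub h6).hasDerivWithinAt) (fun x hx => hM1 x hx) hz₀s hz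
    have h7 : h z - h z₀ - deriv h z₀ * (z - z₀) = h z - deriv h z₀ * z - (h z₀ - deriv h z₀ * z₀) := by ring
    rw [h7]
    exact h1
  have hdc : DiffContOnCl ℂ h (Metric.ball z₀ s) := by
    have h1 : DifferentiableOn ℂ h (Metric.closedBall z₀ s) := fun x hx =>
      (hd x (hsub hx)).differentiableAt.differentiableWithinAt
    exact h1.diffContOnCl_ball subset_rfl
  have hfr : ∃ᶠ z in 𝓝 z₀, h z ≠ h z₀ := by
    have h5 : HasDerivAt h (deriv h z₀) z₀ := (hd z₀ hz₀).differentiableAt.hasDerivAt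
    have h6 : deriv h z₀ ≠ 0 := norm_pos_iff.1 hapos
    have h7 : ∀ᶠ z in 𝓝[≠] z₀, h z ≠ h z₀ := h5.eventually_ne h6
    exact h7.frequently.filter_mono nhdsWithin_le_nhds
  have hMs : M * s = 4 * M * b / a := by
    rw [hs]; ring
  have hMsa : M * s < a / 2 := by
    rw [hMs, div_lt_iff₀ hapos]
    nlinarith
  have hsph : ∀ z ∈ Metric.sphere z₀ s, a * s - M * s * s ≤ ‖h z - h z₀‖ := by
    intro z hz
    have hz1 : ‖z - z₀‖ = s := by
      rw [← dist_eq_norm]
      exact Metric.mem_sphere.1 hz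
    have h1 := hM2 z (Metric.sphere_subset_closedBall hz)
    rw [hz1] at h1
    have h3 : ‖deriv h z₀ * (z - z₀)‖ = a * s := by rw [norm_mul, hz1]
    have h5 : deriv h z₀ * (z - z₀) = (h z - h z₀) - (h z - h z₀ - deriv h z₀ * (z - z₀)) := by ring
    have h6 : ‖deriv h z₀ * (z - z₀)‖ ≤ ‖h z - h z₀‖ + ‖h z - h z₀ - deriv h z₀ * (z - z₀)‖ := by
      conv_lhs => rw [h5]
      exact norm_sub_le _ _
    rw [h3] at h6
    linarith
  have himg := hdc.ball_subset_image_closedBall hspos hsph hfr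
  have has : a * s = 4 * b := by
    rw [hs]
    field_simp
  have hmem : (0 : ℂ) ∈ Metric.ball (h z₀) ((a * s - M * s * s) / 2) := by
    rw [Metric.mem_ball, dist_eq_norm, zero_sub, norm_neg, ← hb]
    have h1 : M * s * s < a / 2 * s := mul_lt_mul_of_pos_right hMsa hspos
    nlinarith
  obtain ⟨z₁, hz₁, hz₁0⟩ := himg hmem
  have h9 := h0 z₁ (hsub hz₁) hz₁0
  have h10 := hM1 z₁ hz₁
  rw [h9, zero_sub, norm_neg, ← ha] at h10
  linarith

end Pool.Agent.H39.SX

end
end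

section

/-!
# The gradient of a function whose zeros are critical points

PROOF.  Choose `R > 0` such that on the ball of radius `2 R` around `u₀` the function `h` is analytic, `h0` holds, and
`‖fderiv ℂ h u‖ ≤ A`, `‖fderiv ℂ (fderiv ℂ h) u‖ ≤ M` (continuity at `u₀`; `AnalyticAt.fderiv`, `AnalyticAt.eventually_analyticAt`).  For `‖u - u₀‖ < R`
and `‖v‖ ≤ 1` apply `sq_norm_deriv_le` to `g t = h (u + t • v)` on the closed ball of radius `R / 2` around `0`:
`deriv g t = fderiv ℂ h (u + t • v) v`, `deriv (deriv g) t = fderiv ℂ (fderiv ℂ h) (u + t • v) v v`.  So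
`‖fderiv ℂ h u v‖ ^ 2 ≤ C ‖h u‖` with `C = 8 M + 8 A / R`, and `‖fderiv ℂ h u‖ ≤ √(C ‖h u‖)` (`ContinuousLinearMap.opNorm_le_bound`, scaling `v`).
-/

open Topology Filter

noncomputable section

namespace Pool.Agent.H39.SX

/-- one direction -/
private theorem gr_dir {n : ℕ} {h : (Fin n → ℂ) → ℂ} {u₀ : Fin n → ℂ} {R A M : ℝ} (hR : 0 < R) (hM : 0 ≤ M)
    (han : ∀ w, dist w u₀ < 2 * R → AnalyticAt ℂ h w)
    (hz : ∀ w, dist w u₀ < 2 * R → h w = 0 → fderiv ℂ h w = 0)
    (hA : ∀ w, dist w u₀ < 2 * R → ‖fderiv ℂ h w‖ ≤ A)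
    (hB : ∀ w, dist w u₀ < 2 * R → ‖fderiv ℂ (fderiv ℂ h) w‖ ≤ M)
    (u v : Fin n → ℂ) (hu : dist u u₀ < R) (hv : ‖v‖ ≤ 1) :
    ‖fderiv ℂ h u v‖ ^ 2 ≤ (8 * M + 8 * A / R) * ‖h u‖ := by
  set φ : ℂ → (Fin n → ℂ) := fun t => u + t • v with hφ
  have hφc : Continuous φ := by
    rw [hφ]
    exact continuous_const.add (continuous_id.smul continuous_const)
  have hφd : ∀ t : ℂ, HasDerivAt φ v t := by
    intro t
    have h1 : HasDerivAt (fun t : ℂ => t • v) ((1 : ℂ) • v) t := (hasDerivAt_id t).smul_const v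
    rw [one_smul] at h1
    exact h1.const_add u
  have hφa : ∀ t : ℂ, AnalyticAt ℂ φ t := by
    intro t
    exact analyticAt_const.add (analyticAt_id.smul analyticAt_const)
  have hball : ∀ t ∈ Metric.closedBall (0 : ℂ) (R / 2), dist (φ t) u₀ < 2 * R := by
    intro t ht
    rw [Metric.mem_closedBall, dist_zero_right] at ht
    have h1 : dist (φ t) u = ‖t • v‖ := by
      rw [hφ, dist_eq_norm]
      simp
    have h2 : ‖t • v‖ ≤ R / 2 := by
      rw [norm_smul]
      calc ‖t‖ * ‖v‖ ≤ ‖t‖ * 1 := mul_le_mul_of_nonneg_left hv (norm_nonneg _)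
        _ ≤ R / 2 := by rw [mul_one]; exact ht
    calc dist (φ t) u₀ ≤ dist (φ t) u + dist u u₀ := dist_triangle _ _ _
      _ < 2 * R := by rw [h1]; linarith
  have hd1 : ∀ t : ℂ, dist (φ t) u₀ < 2 * R → HasDerivAt (fun s => h (φ s)) (fderiv ℂ h (φ t) v) t := by
    intro t ht
    exact (han _ ht).differentiableAt.hasFDerivAt.comp_hasDerivAt t (hφd t)
  have hopen : ∀ t : ℂ, dist (φ t) u₀ < 2 * R → ∀ᶠ s in 𝓝 t, dist (φ s) u₀ < 2 * R := by
    intro t ht
    have : Continuous fun s => dist (φ s) u₀ := hφc.dist continuous_const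
    exact this.continuousAt.eventually (Iio_mem_nhds ht)
  have hd2 : ∀ t : ℂ, dist (φ t) u₀ < 2 * R →
      deriv (deriv (fun s => h (φ s))) t = fderiv ℂ (fderiv ℂ h) (φ t) v v := by
    intro t ht
    have h1 : deriv (fun s => h (φ s)) =ᶠ[𝓝 t] fun s => fderiv ℂ h (φ s) v := by
      filter_upwards [hopen t ht] with s hs
      exact (hd1 s hs).deriv
    rw [h1.deriv_eq]
    have h2 : HasDerivAt (fun s => fderiv ℂ h (φ s)) (fderiv ℂ (fderiv ℂ h) (φ t) v) t :=
      (han _ ht).fderiv.differentiableAt.hasFDerivAt.comp_hasDerivAt t (hφd t)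
    have h3 := h2.clm_apply (hasDerivAt_const t v)
    rw [h3.deriv]
    simp
  have hkey := sq_norm_deriv_le (h := fun s => h (φ s)) (z₀ := 0) (R := R / 2) (M := M) (by positivity) hM
    (fun t ht => AnalyticAt.comp (han _ (hball t ht)) (hφa t))
    (fun t ht => by
      rw [hd2 t (hball t ht)]
      calc ‖fderiv ℂ (fderiv ℂ h) (φ t) v v‖ ≤ ‖fderiv ℂ (fderiv ℂ h) (φ t) v‖ * ‖v‖ :=
            ContinuousLinearMap.le_opNorm _ _
        _ ≤ (‖fderiv ℂ (fderiv ℂ h) (φ t)‖ * ‖v‖) * ‖v‖ :=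
            mul_le_mul_of_nonneg_right (ContinuousLinearMap.le_opNorm _ _) (norm_nonneg _)
        _ ≤ (M * 1) * 1 := by
            refine mul_le_mul (mul_le_mul (hB _ (hball t ht)) hv (norm_nonneg _) hM) hv (norm_nonneg _) ?_
            rw [mul_one]
            exact hM
        _ = M := by ring)
    (fun t ht h1 => by
      rw [(hd1 t (hball t ht)).deriv, hz _ (hball t ht) h1]
      rfl)
  have h0m : (0 : ℂ) ∈ Metric.closedBall (0 : ℂ) (R / 2) := by
    rw [Metric.mem_closedBall, dist_self]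
    positivity
  have hφ0 : φ 0 = u := by
    rw [hφ]
    simp
  have hder : deriv (fun s => h (φ s)) 0 = fderiv ℂ h u v := by
    rw [(hd1 0 (hball 0 h0m)).deriv, hφ0]
  rw [hder] at hkey
  rw [hφ0] at hkey
  refine hkey.trans ?_
  refine mul_le_mul_of_nonneg_right ?_ (norm_nonneg _)
  have h4 : ‖fderiv ℂ h u v‖ ≤ A := by
    have hu2 : dist u u₀ < 2 * R := by linarith
    have hA0 : 0 ≤ A := (norm_nonneg _).trans (hA u hu2)
    calc ‖fderiv ℂ h u v‖ ≤ ‖fderiv ℂ h u‖ * ‖v‖ := ContinuousLinearMap.le_opNorm _ _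
      _ ≤ A * 1 := mul_le_mul (hA u hu2) hv (norm_nonneg _) hA0
      _ = A := mul_one A
  have h5 : 4 * ‖fderiv ℂ h u v‖ / (R / 2) ≤ 8 * A / R := by
    rw [div_le_div_iff₀ (by positivity) hR]
    nlinarith
  linarith

theorem norm_fderiv_sq_le {n : ℕ} {h : (Fin n → ℂ) → ℂ} {u₀ : Fin n → ℂ} (hh : AnalyticAt ℂ h u₀)
    (h0 : ∀ᶠ u in 𝓝 u₀, h u = 0 → fderiv ℂ h u = 0) :
    ∃ C : ℝ, 0 ≤ C ∧ ∀ᶠ u in 𝓝 u₀, ‖fderiv ℂ h u‖ ^ 2 ≤ C * ‖h u‖ := by
  set A := ‖fderiv ℂ h u₀‖ + 1 with hAdef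
  set M := ‖fderiv ℂ (fderiv ℂ h) u₀‖ + 1 with hMdef
  have hA0 : 0 ≤ A := by positivity
  have hM0 : 0 ≤ M := by positivity
  have e1 : ∀ᶠ w in 𝓝 u₀, ‖fderiv ℂ h w‖ ≤ A := by
    have h1 : ContinuousAt (fun w => ‖fderiv ℂ h w‖) u₀ := hh.fderiv.continuousAt.norm
    have h2 := h1.eventually (Iio_mem_nhds (lt_add_one (‖fderiv ℂ h u₀‖)))
    filter_upwards [h2] with w hw using le_of_lt hw
  have e2 : ∀ᶠ w in 𝓝 u₀, ‖fderiv ℂ (fderiv ℂ h) w‖ ≤ M := by
    have h1 : ContinuousAt (fun w => ‖fderiv ℂ (fderiv ℂ h) w‖) u₀ := hh.fderiv.fderiv.continuousAt.norm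
    have h2 := h1.eventually (Iio_mem_nhds (lt_add_one (‖fderiv ℂ (fderiv ℂ h) u₀‖)))
    filter_upwards [h2] with w hw using le_of_lt hw
  have e3 := hh.eventually_analyticAt
  obtain ⟨ε, hε, hall⟩ := Metric.eventually_nhds_iff.1 (((e1.and e2).and e3).and h0)
  set R := ε / 2 with hRdef
  have hR : 0 < R := by positivity
  have h2R : 2 * R = ε := by rw [hRdef]; ring
  refine ⟨8 * M + 8 * A / R, by positivity, ?_⟩
  refine Metric.eventually_nhds_iff.2 ⟨R, hR, fun {u} hu => ?_⟩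
  have hdir := fun v hv => gr_dir (h := h) (u₀ := u₀) hR hM0
    (fun w hw => (hall (by rw [← h2R]; exact hw)).1.2)
    (fun w hw => (hall (by rw [← h2R]; exact hw)).2)
    (fun w hw => (hall (by rw [← h2R]; exact hw)).1.1.1)
    (fun w hw => (hall (by rw [← h2R]; exact hw)).1.1.2) u v hu hv
  set S := (8 * M + 8 * A / R) * ‖h u‖ with hS
  have hS0 : 0 ≤ S := by positivity
  have hle : ‖fderiv ℂ h u‖ ≤ Real.sqrt S := by
    refine ContinuousLinearMap.opNorm_le_bound _ (Real.sqrt_nonneg _) fun v => ?_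
    rcases eq_or_ne v 0 with hv | hv
    · subst hv
      simp
    · have hv0 : 0 < ‖v‖ := norm_pos_iff.2 hv
      have h1 : ‖((‖v‖⁻¹ : ℝ) : ℂ) • v‖ = 1 := by
        rw [norm_smul, Complex.norm_real, norm_inv, norm_norm]
        exact inv_mul_cancel₀ hv0.ne'
      have h2 := hdir _ h1.le
      rw [map_smul, norm_smul, Complex.norm_real, norm_inv, norm_norm] at h2
      have h3 : ‖v‖⁻¹ * ‖fderiv ℂ h u v‖ ≤ Real.sqrt S := Real.le_sqrt_of_sq_le h2
      calc ‖fderiv ℂ h u v‖ = (‖v‖⁻¹ * ‖fderiv ℂ h u v‖) * ‖v‖ := by field_simp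
        _ ≤ Real.sqrt S * ‖v‖ := mul_le_mul_of_nonneg_right h3 hv0.le
  calc ‖fderiv ℂ h u‖ ^ 2 ≤ Real.sqrt S ^ 2 := pow_le_pow_left₀ (norm_nonneg _) hle 2
    _ = S := Real.sq_sqrt hS0

end Pool.Agent.H39.SX

end
end

section

/-!
# Project SZ, module Cone: linear forms without common zeros on a cone

`r` linear forms are enough if any `r + 1` linear forms satisfy a homogeneous relation on `V`.  PROOF.
Claim: for every `k` and every `l : Fin (r + k) → Module.Dual ℂ E` with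
`∀ v ∈ V, (∀ a, l a v = 0) → v = 0` there is `l' : Fin r → _` with the same property; take
`r + k ≥ finrank E` and the coordinates of a basis (for example `k = finrank E`, and zero forms for the
rest) to start.  Induction on `k`.  Let `l : Fin (r + k + 1) → _`, `hrel` for
`fun a : Fin (r + 1) => l (a.castLE _)` gives `Q ≠ 0` of degree `e`; let `eval c Q ≠ 0`
(`MvPolynomial.funext`).  If `c = 0` then `e = 0` (`Q` homogeneous), `Q` is a nonzero constant and `V`
is empty: take `l' = 0`.  Otherwise `c a₀ ≠ 0`, `A = a₀.castLE _ : Fin (r + k + 1)`,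
`D j = if h : j < r + 1 then c ⟨j, h⟩ else 0`, so `D A ≠ 0`, and
`l' j = l (A.succAbove j) - (D (A.succAbove j) / D A) • l A : Fin (r + k) → _`.  If `v ∈ V` and
`l' j v = 0` for all `j` then with `λ = l A v / D A` one has `l j v = λ * D j` for all `j` (for `j = A`
and for `j = A.succAbove _`), so `0 = eval (fun a => λ * c a) Q = λ ^ e * eval c Q` (homogeneous: see
`Pool.Agent.H17.eval_smul_of_isHomogeneous` for a model, or `MvPolynomial.IsHomogeneous.eval₂`-type
lemmas; import of `Pool.Agent.H17R.Null` is allowed), so `λ ^ e = 0`, `λ = 0` and all `l j v = 0`,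
`v = 0`.
-/

open MvPolynomial

noncomputable section

namespace Pool.Agent.H39.SZ

/-- Homogeneity of the evaluation. -/
private theorem eval_mul_const {n e : ℕ} {Q : MvPolynomial (Fin n) ℂ} (hQ : Q.IsHomogeneous e)
    (lam : ℂ) (c : Fin n → ℂ) :
    eval (fun a => lam * c a) Q = lam ^ e * eval c Q := by
  rw [MvPolynomial.eval_eq', MvPolynomial.eval_eq', Finset.mul_sum]
  refine Finset.sum_congr rfl fun d hd => ?_
  have h1 : ∑ i, d i = e := by
    have h2 := hQ (MvPolynomial.mem_support_iff.mp hd)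
    rw [Finsupp.weight_apply, Finsupp.sum_fintype _ _ (by simp)] at h2
    simpa using h2
  have h3 : ∏ i, (lam * c i) ^ d i = lam ^ e * ∏ i, c i ^ d i := by
    rw [← h1, ← Finset.prod_pow_eq_pow_sum, ← Finset.prod_mul_distrib]
    exact Finset.prod_congr rfl fun i _ => mul_pow _ _ _
  rw [h3]
  ring

/-- One form can be saved as long as there are more than `r` of them. -/
private theorem reduce_forms {E : Type} [AddCommGroup E] [Module ℂ E] {r : ℕ} {V : Set E}
    (hrel : ∀ l : Fin (r + 1) → Module.Dual ℂ E, ∃ (e : ℕ) (Q : MvPolynomial (Fin (r + 1)) ℂ),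
      Q ≠ 0 ∧ Q.IsHomogeneous e ∧ ∀ v ∈ V, eval (fun a => l a v) Q = 0) :
    ∀ (k : ℕ) (l : Fin (r + k) → Module.Dual ℂ E), (∀ v ∈ V, (∀ a, l a v = 0) → v = 0) →
      ∃ l' : Fin r → Module.Dual ℂ E, ∀ v ∈ V, (∀ a, l' a v = 0) → v = 0 := by
  intro k
  induction k with
  | zero => exact fun l hl => ⟨l, hl⟩
  | succ k ih =>
    intro l hl
    have hle : r + 1 ≤ r + (k + 1) := by omega
    obtain ⟨e, Q, hQ0, hQ, hQV⟩ := hrel (fun a => l (Fin.castLE hle a))
    obtain ⟨c, hc⟩ : ∃ c : Fin (r + 1) → ℂ, eval c (X 0 * Q) ≠ 0 := by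
      by_contra hcon
      push Not at hcon
      have h1 : (X 0 * Q : MvPolynomial (Fin (r + 1)) ℂ) = 0 :=
        MvPolynomial.funext fun x => by rw [hcon x, map_zero]
      exact (mul_ne_zero (MvPolynomial.X_ne_zero _) hQ0) h1
    rw [map_mul, MvPolynomial.eval_X] at hc
    have hc0 : c 0 ≠ 0 := left_ne_zero_of_mul hc
    have hcQ : eval c Q ≠ 0 := right_ne_zero_of_mul hc
    let D : Fin (r + k + 1) → ℂ := fun j => if h : (j : ℕ) < r + 1 then c ⟨j, h⟩ else 0
    have hD0 : D 0 = c 0 := by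
      simp only [D, Fin.val_zero, Nat.zero_lt_succ]
      rfl
    let l₁ : Fin (r + k + 1) → Module.Dual ℂ E := l
    refine ih (fun j => l₁ j.succ - (D j.succ / D 0) • l₁ 0) fun v hv hj => ?_
    have hall : ∀ j : Fin (r + k + 1), l₁ j v = l₁ 0 v / D 0 * D j := by
      intro j
      refine Fin.cases ?_ (fun i => ?_) j
      · rw [div_mul_cancel₀ _ (by rw [hD0]; exact hc0)]
      · have h1 := hj i
        simp only [LinearMap.sub_apply, LinearMap.smul_apply, smul_eq_mul] at h1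
        rw [sub_eq_zero.mp h1]
        ring
    have h2 := hQV v hv
    have h3 : (fun a : Fin (r + 1) => l (Fin.castLE hle a) v) =
        fun a => l₁ 0 v / D 0 * c a := by
      funext a
      have h4 := hall (Fin.castLE hle a)
      have h5 : D (Fin.castLE hle a) = c a := by
        simp only [D, Fin.val_castLE, a.isLt, dif_pos]
      rw [h5] at h4
      exact h4
    rw [h3, eval_mul_const hQ] at h2
    have h6 : l₁ 0 v / D 0 = 0 :=
      eq_zero_of_pow_eq_zero ((mul_eq_zero.mp h2).resolve_right hcQ)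
    refine hl v hv fun a => ?_
    have h7 := hall a
    rw [h6, zero_mul] at h7
    exact h7

theorem exists_forms {E : Type} [AddCommGroup E] [Module ℂ E] [FiniteDimensional ℂ E] {r : ℕ}
    {V : Set E}
    (hrel : ∀ l : Fin (r + 1) → Module.Dual ℂ E, ∃ (e : ℕ) (Q : MvPolynomial (Fin (r + 1)) ℂ),
      Q ≠ 0 ∧ Q.IsHomogeneous e ∧ ∀ v ∈ V, eval (fun a => l a v) Q = 0) :
    ∃ l : Fin r → Module.Dual ℂ E, ∀ v ∈ V, (∀ a, l a v = 0) → v = 0 := by
  let b := Module.finBasis ℂ E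
  refine reduce_forms hrel (Module.finrank ℂ E)
    (fun a => if h : (a : ℕ) < Module.finrank ℂ E then b.coord ⟨a, h⟩ else 0) fun v _ hall => ?_
  refine b.forall_coord_eq_zero_iff.mp fun i => ?_
  have h1 := hall ⟨i, lt_of_lt_of_le i.isLt (Nat.le_add_left _ _)⟩
  simpa only [i.isLt, dif_pos, Fin.eta] using h1

end Pool.Agent.H39.SZ

end
end

section

/-!
# Project SZ, module Lin: linear forms as polynomials
-/

open MvPolynomial

noncomputable section

namespace Pool.Agent.H39.SZ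

variable {M : ℕ}

/-- The polynomial of a linear form. -/
def lin (l : Module.Dual ℂ (Fin (M + 1) → ℂ)) : MvPolynomial (Fin (M + 1)) ℂ :=
  ∑ i, C (l (Pi.single i 1)) * X i

theorem eval_lin (l : Module.Dual ℂ (Fin (M + 1) → ℂ)) (y : Fin (M + 1) → ℂ) :
    eval y (lin l) = l y := by
  have h : y = ∑ i, y i • Pi.single (M := fun _ => ℂ) i 1 := by
    conv_lhs => rw [← Finset.univ_sum_single y]
    refine Finset.sum_congr rfl fun i _ => ?_
    rw [← Pi.single_smul, smul_eq_mul, mul_one]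
  conv_rhs => rw [h, map_sum]
  rw [lin, map_sum]
  refine Finset.sum_congr rfl fun i _ => ?_
  rw [map_mul, eval_C, eval_X, map_smul, smul_eq_mul, mul_comm]

theorem lin_isHomogeneous (l : Module.Dual ℂ (Fin (M + 1) → ℂ)) : (lin l).IsHomogeneous 1 := by
  refine IsHomogeneous.sum _ _ _ fun i _ => ?_
  have h1 := (isHomogeneous_C (Fin (M + 1)) (l (Pi.single i 1))).mul (isHomogeneous_X ℂ i)
  rwa [zero_add] at h1

/-- The quadratic forms `X b * t + l ^ 2`. -/
def quad (b : Fin (M + 1)) (t l : Module.Dual ℂ (Fin (M + 1) → ℂ)) :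
    MvPolynomial (Fin (M + 1)) ℂ := X b * lin t + lin l ^ 2

theorem eval_quad (b : Fin (M + 1)) (t l : Module.Dual ℂ (Fin (M + 1) → ℂ))
    (y : Fin (M + 1) → ℂ) : eval y (quad b t l) = y b * t y + l y ^ 2 := by
  rw [quad, map_add, map_mul, map_pow, eval_X, eval_lin, eval_lin]

theorem quad_isHomogeneous (b : Fin (M + 1)) (t l : Module.Dual ℂ (Fin (M + 1) → ℂ)) :
    (quad b t l).IsHomogeneous 2 :=
  ((isHomogeneous_X ℂ b).mul (lin_isHomogeneous t)).add ((lin_isHomogeneous l).pow 2)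

end Pool.Agent.H39.SZ

end
end

section

/-!
# Project DG4, module RootBd: roots of monic equations

`norm_root_le`: `‖t‖ ≤ C * H ^ a` with `C = ∑ ‖..‖ + 1`: if `‖t‖ > C * H ^ a` then
`‖t ^ n‖ > ∑ ‖c (n - i)‖ * ‖t‖ ^ i`.  `ord_root_ge`: if `ord t < a * μ` then `ord (t ^ n)` is smaller than
the orders of all the other terms.
-/

open MvPolynomial

noncomputable section

namespace Pool.Agent.H5.DG4

theorem norm_root_le (n a : ℕ) {K : ℝ} (hK : 0 ≤ K) : ∃ C : ℝ, 0 ≤ C ∧ ∀ (c : ℕ → ℂ) (t : ℂ)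
    (H : ℝ), 0 < H → (∀ i, ‖c i‖ ≤ K * H ^ (a * i)) →
    t ^ n + ∑ i ∈ Finset.range n, c (n - i) * t ^ i = 0 → ‖t‖ ≤ C * H ^ a := by
  refine ⟨K * n + 1, by positivity, fun c t H hH hc ht => ?_⟩
  rcases Nat.eq_zero_or_pos n with hn | hn
  · subst hn
    rw [pow_zero, Finset.range_zero, Finset.sum_empty, add_zero] at ht
    exact absurd ht one_ne_zero
  by_contra hcon
  rw [not_le] at hcon
  obtain ⟨ρ, hρ⟩ : ∃ ρ : ℝ, ρ = H ^ a := ⟨_, rfl⟩
  have hρ0 : 0 < ρ := by rw [hρ]; positivity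
  rw [← hρ] at hcon
  have h1 : ρ ≤ ‖t‖ := by
    have : 0 ≤ K * n * ρ := by positivity
    nlinarith
  have ht0 : 0 < ‖t‖ := lt_of_lt_of_le hρ0 h1
  have h2 : t ^ n = -∑ i ∈ Finset.range n, c (n - i) * t ^ i := eq_neg_of_add_eq_zero_left ht
  have h3 : ‖t‖ ^ n ≤ ∑ i ∈ Finset.range n, ‖c (n - i) * t ^ i‖ := by
    rw [← norm_pow, h2, norm_neg]
    exact norm_sum_le _ _
  have h4 : ∀ i ∈ Finset.range n, ‖c (n - i) * t ^ i‖ ≤ K * (ρ * ‖t‖ ^ (n - 1)) := by
    intro i hi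
    rw [Finset.mem_range] at hi
    have h5 := hc (n - i)
    rw [pow_mul, ← hρ] at h5
    rw [norm_mul, norm_pow]
    have h6 : ρ ^ (n - i) * ‖t‖ ^ i ≤ ρ * ‖t‖ ^ (n - 1) := by
      have e1 : n - i = (n - 1 - i) + 1 := by omega
      have e2 : n - 1 = (n - 1 - i) + i := by omega
      rw [e1, pow_succ]
      conv_rhs => rw [e2, pow_add]
      have h7 : ρ ^ (n - 1 - i) ≤ ‖t‖ ^ (n - 1 - i) := pow_le_pow_left₀ hρ0.le h1 _
      calc ρ ^ (n - 1 - i) * ρ * ‖t‖ ^ i = ρ * (ρ ^ (n - 1 - i) * ‖t‖ ^ i) := by ring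
        _ ≤ ρ * (‖t‖ ^ (n - 1 - i) * ‖t‖ ^ i) :=
          mul_le_mul_of_nonneg_left (mul_le_mul_of_nonneg_right h7 (by positivity)) hρ0.le
    calc ‖c (n - i)‖ * ‖t‖ ^ i ≤ (K * ρ ^ (n - i)) * ‖t‖ ^ i :=
          mul_le_mul_of_nonneg_right h5 (by positivity)
      _ = K * (ρ ^ (n - i) * ‖t‖ ^ i) := by ring
      _ ≤ K * (ρ * ‖t‖ ^ (n - 1)) := mul_le_mul_of_nonneg_left h6 hK
  have h8 : ‖t‖ ^ n ≤ n * (K * (ρ * ‖t‖ ^ (n - 1))) := by
    refine h3.trans ((Finset.sum_le_sum h4).trans (le_of_eq ?_))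
    rw [Finset.sum_const, Finset.card_range, nsmul_eq_mul]
  have h9 : ‖t‖ ^ n = ‖t‖ * ‖t‖ ^ (n - 1) := by
    conv_lhs => rw [show n = (n - 1) + 1 by omega, pow_succ]
    ring
  rw [h9] at h8
  have h10 : ‖t‖ ≤ n * K * ρ := by
    have h11 : 0 < ‖t‖ ^ (n - 1) := by positivity
    refine le_of_mul_le_mul_right ?_ h11
    calc ‖t‖ * ‖t‖ ^ (n - 1) ≤ n * (K * (ρ * ‖t‖ ^ (n - 1))) := h8
      _ = n * K * ρ * ‖t‖ ^ (n - 1) := by ring
  nlinarith

theorem ord_root_nonneg {K : Type} [Field K] (v : AddValuation K (WithTop ℤ)) {n : ℕ}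
    {c : ℕ → K} {t : K} (hc : ∀ i, 0 ≤ v (c i))
    (ht : t ^ n + ∑ i ∈ Finset.range n, c (n - i) * t ^ i = 0) : 0 ≤ v t := by
  rcases Nat.eq_zero_or_pos n with hn | hn
  · subst hn
    rw [pow_zero, Finset.range_zero, Finset.sum_empty, add_zero] at ht
    exact absurd ht one_ne_zero
  by_contra hcon
  rw [not_le] at hcon
  have hne : v t ≠ ⊤ := ne_top_of_lt hcon
  obtain ⟨m, hm⟩ := WithTop.ne_top_iff_exists.1 hne
  have hm0 : m < 0 := by
    rw [← hm] at hcon
    exact_mod_cast hcon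
  have hp : ∀ i : ℕ, v (t ^ i) = (((i : ℤ) * m : ℤ) : WithTop ℤ) := by
    intro i
    rw [AddValuation.map_pow, ← hm, ← WithTop.coe_nsmul, nsmul_eq_mul]
  have h2 : t ^ n = -∑ i ∈ Finset.range n, c (n - i) * t ^ i := eq_neg_of_add_eq_zero_left ht
  have h3 : (((n : ℤ) * m : ℤ) : WithTop ℤ) < v (∑ i ∈ Finset.range n, c (n - i) * t ^ i) := by
    refine AddValuation.map_lt_sum v WithTop.coe_ne_top fun i hi => ?_
    rw [Finset.mem_range] at hi
    rw [AddValuation.map_mul, hp i]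
    have h4 : (((n : ℤ) * m : ℤ) : WithTop ℤ) < (((i : ℤ) * m : ℤ) : WithTop ℤ) := by
      have h5 : (i : ℤ) < n := by exact_mod_cast hi
      have h6 : (n : ℤ) * m < (i : ℤ) * m := mul_lt_mul_of_neg_right h5 hm0
      exact_mod_cast h6
    refine lt_of_lt_of_le h4 ?_
    calc (((i : ℤ) * m : ℤ) : WithTop ℤ) = 0 + (((i : ℤ) * m : ℤ) : WithTop ℤ) := (zero_add _).symm
      _ ≤ v (c (n - i)) + (((i : ℤ) * m : ℤ) : WithTop ℤ) := add_le_add_left (hc _) _
  have h4 := hp n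
  rw [h2, AddValuation.map_neg] at h4
  rw [h4] at h3
  exact lt_irrefl _ h3

end Pool.Agent.H5.DG4

end
end
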