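import Pool.Agent.H94.DG.H39.SY.Dim
import Pool.Agent.H94.DG.M09
import Pool.Agent.H94.DG.M17
import Pool.Agent.H94.DG.M41

/-! The parts of this file: H39.SZ.Rel, H39.SZ.Tan. -/

section

/-!
# Project SZ, module Rel: relations between `r + 1` functions on a variety of dimension `r`

`exists_rel_slice`: `coordFun P b ≠ 0` (`Pool.Agent.H17R.coordFun_ne_zero_iff`); the `r + 1` elements
`aeval (fun i => ratio P i b) (Λ a)` of `FunField P` are algebraically dependent (`hz`: the
transcendence degree is `r`; compare the uses in module `Pool.Agent.H39.SY.RelA`), so there is `Q ≠ 0`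
with `aeval (fun a => aeval (fun i => ratio P i b) (Λ a)) Q = 0`, that is
`aeval (fun i => ratio P i b) (aeval Λ Q) = 0`, and `y` is in `pts (fun i => ratio P i b)`
(`Pool.Agent.H13.SM.mem_pts_iff hP h`), so `eval y (aeval Λ Q) = 0`.

`exists_rel_inf`: `Λ' = Fin.cons (X b) Λ`: `r + 2` forms of degree `1`, dependent modulo `P`
(`Pool.Agent.H39.SY.TD_cone`: `TD P (r + 1)`), so there is a polynomial `Q' ≠ 0` in `r + 2` variables
with `aeval Λ' Q' ∈ P`; some homogeneous component of `Q'` is not zero and has the same property (`P` is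
homogeneous and `aeval Λ'` preserves degrees).  So let `e` be minimal such that there is a homogeneous
`Q' ≠ 0` of degree `e` with `aeval Λ' Q' ∈ P`.  `Q` = the polynomial `Q'` with the first variable
replaced by `0` (`aeval (Fin.cons 0 X) Q'`, homogeneous of degree `e`).  If `Q = 0` then `X 0 ∣ Q'`
(for example by `MvPolynomial.finSuccEquiv`: the coefficient of degree `0` is zero, so
`Polynomial.X ∣ _`), `Q' = X 0 * Q''`, `Q''` homogeneous of degree `e - 1` (take a component), not zero,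
and `X b * aeval Λ' Q'' ∈ P`, so `aeval Λ' Q'' ∈ P` (`P` prime, `X b ∉ P`): a contradiction to the
choice of `e`.  (`e = 0` is impossible in this case: a constant `Q' ≠ 0` gives `Q ≠ 0`.)  For `y ∈ Zer P`,
`y b = 0`: `0 = eval y (aeval Λ' Q') = eval (Fin.cons 0 (fun a => eval y (Λ a))) Q'
= eval (fun a => eval y (Λ a)) Q`.
-/

open MvPolynomial
open Pool.Agent.H17GT (coordFun)
open Pool.Agent.H17LG.Variety (FunField ratio)
open Pool.Agent.H5.DG (Homog TD)
open Pool.Agent.H39.SY (Zer)

noncomputable section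

namespace Pool.Agent.H39.SZ

variable {M r : ℕ} {P : Ideal (MvPolynomial (Fin (M + 1)) ℂ)} [P.IsPrime]

/-- Evaluation of a substitution. -/
private theorem eval_subst {ι κ : Type} (y : κ → ℂ) (f : ι → MvPolynomial κ ℂ)
    (Q : MvPolynomial ι ℂ) : eval y (aeval f Q) = eval (fun i => eval y (f i)) Q := by
  induction Q using MvPolynomial.induction_on with
  | C c => simp
  | add p q hp hq => rw [map_add, map_add, map_add, hp, hq]
  | mul_X p i hp => rw [map_mul, map_mul, map_mul, hp, aeval_X, eval_X]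

/-- Homogeneous components and linear maps which raise the degree by `s`. -/
private theorem component_shift {n m s : ℕ}
    (T : MvPolynomial (Fin n) ℂ →ₗ[ℂ] MvPolynomial (Fin m) ℂ)
    (hT : ∀ (k : ℕ) (Q : MvPolynomial (Fin n) ℂ), Q.IsHomogeneous k → (T Q).IsHomogeneous (k + s))
    (k : ℕ) (Q : MvPolynomial (Fin n) ℂ) :
    homogeneousComponent (k + s) (T Q) = T (homogeneousComponent k Q) := by
  have h1 : ∀ i, homogeneousComponent (k + s) (T (homogeneousComponent i Q)) =
      if i = k then T (homogeneousComponent i Q) else 0 := by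
    intro i
    rw [homogeneousComponent_of_mem (hT i _ (homogeneousComponent_isHomogeneous i Q))]
    by_cases h : i = k
    · rw [if_pos (by omega), if_pos h]
    · rw [if_neg (by omega), if_neg h]
  conv_lhs => rw [← sum_homogeneousComponent Q, map_sum, map_sum]
  rw [Finset.sum_congr rfl fun i _ => h1 i, Finset.sum_ite_eq']
  split_ifs with hk
  · rfl
  · rw [homogeneousComponent_eq_zero k Q (by simpa using hk), map_zero]

/-- The value at `0` of the first variable. -/
private theorem eval_zero_first {n : ℕ} (Q : MvPolynomial (Fin (n + 1)) ℂ) :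
    (finSuccEquiv ℂ n Q).eval 0 =
      aeval (Fin.cons 0 X : Fin (n + 1) → MvPolynomial (Fin n) ℂ) Q := by
  induction Q using MvPolynomial.induction_on with
  | C c =>
    rw [finSuccEquiv_apply, eval₂Hom_C]
    simp
  | add p q hp hq => rw [map_add, Polynomial.eval_add, map_add, hp, hq]
  | mul_X p i hp =>
    rw [map_mul, Polynomial.eval_mul, map_mul, hp, aeval_X]
    congr 1
    refine Fin.cases ?_ (fun i => ?_) i
    · rw [finSuccEquiv_X_zero, Polynomial.eval_X, Fin.cons_zero]
    · rw [finSuccEquiv_X_succ, Polynomial.eval_C, Fin.cons_succ]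

theorem exists_rel_slice (hP : Homog P) (hz : ∃ z : Fin r → FunField P, IsTranscendenceBasis ℂ z)
    {b : Fin (M + 1)} (hb : X b ∉ P) (Λ : Fin (r + 1) → MvPolynomial (Fin (M + 1)) ℂ) :
    ∃ Q : MvPolynomial (Fin (r + 1)) ℂ, Q ≠ 0 ∧
      ∀ y ∈ Zer P, y b = 1 → eval (fun a => eval y (Λ a)) Q = 0 := by
  obtain ⟨z, hz⟩ := hz
  have h : coordFun P b ≠ 0 := Pool.Agent.H17R.coordFun_ne_zero_iff.2 hb
  have hdep : ¬ AlgebraicIndependent ℂ (fun a => aeval (fun i => ratio P i b) (Λ a)) := by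
    intro hu
    have h1 := hu.cardinalMk_le_trdeg
    rw [← hz.cardinalMk_eq_trdeg, Cardinal.mk_fin, Cardinal.mk_fin, Nat.cast_le] at h1
    omega
  rw [algebraicIndependent_iff] at hdep
  push Not at hdep
  obtain ⟨Q, hQ, hQ0⟩ := hdep
  refine ⟨Q, hQ0, fun y hy hyb => ?_⟩
  have hmem := (Pool.Agent.H13.SM.mem_pts_iff hP h).2 ⟨hyb, hy⟩
  have h2 := hmem (aeval Λ Q) (by
    rw [← hQ]
    exact comp_aeval_apply (f := Λ) (aeval fun i => ratio P i b) Q)
  rw [eval_subst] at h2
  exact h2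

theorem exists_rel_inf (hP : Homog P) (hz : ∃ z : Fin r → FunField P, IsTranscendenceBasis ℂ z)
    {b : Fin (M + 1)} (hb : X b ∉ P) (Λ : Fin (r + 1) → MvPolynomial (Fin (M + 1)) ℂ)
    (hΛ : ∀ a, (Λ a).IsHomogeneous 1) :
    ∃ (e : ℕ) (Q : MvPolynomial (Fin (r + 1)) ℂ), Q ≠ 0 ∧ Q.IsHomogeneous e ∧
      ∀ y ∈ Zer P, y b = 0 → eval (fun a => eval y (Λ a)) Q = 0 := by
  obtain ⟨L, hL⟩ : ∃ L : Fin (r + 1 + 1) → MvPolynomial (Fin (M + 1)) ℂ, L = Fin.cons (X b) Λ :=
    ⟨_, rfl⟩
  have hL1 : ∀ i, (L i).IsHomogeneous 1 := by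
    intro i
    rw [hL]
    refine Fin.cases ?_ (fun i => ?_) i
    · rw [Fin.cons_zero]
      exact isHomogeneous_X _ _
    · rw [Fin.cons_succ]
      exact hΛ i
  have hLd : ∀ (k : ℕ) (Q : MvPolynomial (Fin (r + 1 + 1)) ℂ), Q.IsHomogeneous k →
      ((aeval L).toLinearMap Q).IsHomogeneous (k + 0) := by
    intro k Q hQ
    have h1 := hQ.aeval L hL1
    rw [one_mul] at h1
    exact h1
  -- a homogeneous relation
  have hex : ∃ e, ∃ Q : MvPolynomial (Fin (r + 1 + 1)) ℂ, Q ≠ 0 ∧ Q.IsHomogeneous e ∧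
      aeval L Q ∈ P := by
    have h1 := (Pool.Agent.H39.SY.TD_cone hP ⟨b, hb⟩ hz).1 L
    rw [algebraicIndependent_iff] at h1
    push Not at h1
    obtain ⟨Q, hQ, hQ0⟩ := h1
    have h2 : aeval L Q ∈ P := by
      rw [← Ideal.Quotient.eq_zero_iff_mem, ← hQ]
      exact comp_aeval_apply (f := L) (Ideal.Quotient.mkₐ ℂ P) Q
    obtain ⟨k, hk⟩ : ∃ k, homogeneousComponent k Q ≠ 0 := by
      by_contra hcon
      push Not at hcon
      refine hQ0 ?_
      rw [← sum_homogeneousComponent Q]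
      exact Finset.sum_eq_zero fun i _ => hcon i
    refine ⟨k, homogeneousComponent k Q, hk, homogeneousComponent_isHomogeneous k Q, ?_⟩
    have h3 := component_shift (aeval L).toLinearMap hLd k Q
    have h4 := hP _ h2 k
    rw [add_zero] at h3
    change aeval L (homogeneousComponent k Q) ∈ P
    change homogeneousComponent k (aeval L Q) = aeval L (homogeneousComponent k Q) at h3
    rw [← h3]
    exact h4
  classical
  obtain ⟨e, ⟨Q', hQ'0, hQ', hQ'P⟩, hmin⟩ : ∃ e, (∃ Q : MvPolynomial (Fin (r + 1 + 1)) ℂ,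
      Q ≠ 0 ∧ Q.IsHomogeneous e ∧ aeval L Q ∈ P) ∧ ∀ e' < e,
      ¬ ∃ Q : MvPolynomial (Fin (r + 1 + 1)) ℂ, Q ≠ 0 ∧ Q.IsHomogeneous e' ∧ aeval L Q ∈ P :=
    ⟨Nat.find hex, Nat.find_spec hex, fun _ h => Nat.find_min hex h⟩
  refine ⟨e, aeval (Fin.cons 0 X : Fin (r + 1 + 1) → MvPolynomial (Fin (r + 1)) ℂ) Q', ?_, ?_,
    fun y hy hyb => ?_⟩
  · intro hQ0
    rw [← eval_zero_first, ← Polynomial.coeff_zero_eq_eval_zero, ← Polynomial.X_dvd_iff] at hQ0
    obtain ⟨R, hR⟩ := hQ0
    obtain ⟨Q'', rfl⟩ := (finSuccEquiv ℂ (r + 1)).surjective R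
    rw [← finSuccEquiv_X_zero (R := ℂ) (n := r + 1), ← map_mul] at hR
    have hfac : Q' = X 0 * Q'' := (finSuccEquiv ℂ (r + 1)).injective hR
    have hQ''0 : Q'' ≠ 0 := by
      rintro rfl
      exact hQ'0 (by rw [hfac, mul_zero])
    obtain ⟨k, hk⟩ : ∃ k, homogeneousComponent k Q'' ≠ 0 := by
      by_contra hcon
      push Not at hcon
      refine hQ''0 ?_
      rw [← sum_homogeneousComponent Q'']
      exact Finset.sum_eq_zero fun i _ => hcon i
    have h1 := component_shift (s := 1) (LinearMap.mulLeft ℂ (X 0 : MvPolynomial (Fin (r + 1 + 1)) ℂ))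
      (fun k Q hQ => by
        have h2 := (isHomogeneous_X ℂ (0 : Fin (r + 1 + 1))).mul hQ
        exact (Nat.add_comm 1 k) ▸ h2) k Q''
    simp only [LinearMap.mulLeft_apply] at h1
    rw [← hfac] at h1
    have h3 : homogeneousComponent (k + 1) Q' ≠ 0 := by
      rw [h1]
      exact mul_ne_zero (X_ne_zero 0) hk
    rw [homogeneousComponent_of_mem hQ'] at h3
    have hke : e = k + 1 := by
      by_contra hcon
      exact h3 (if_neg (Ne.symm hcon))
    have h4 : Q' = X 0 * homogeneousComponent k Q'' := by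
      rw [← h1, homogeneousComponent_of_mem hQ', if_pos hke.symm]
    refine hmin k (by omega) ⟨homogeneousComponent k Q'', hk,
      homogeneousComponent_isHomogeneous k Q'', ?_⟩
    rw [h4, map_mul, aeval_X] at hQ'P
    have hL0 : L 0 = X b := by rw [hL, Fin.cons_zero]
    rw [hL0] at hQ'P
    exact ((inferInstance : P.IsPrime).mem_or_mem hQ'P).resolve_left hb
  · have h1 := hQ'.aeval (Fin.cons 0 X : Fin (r + 1 + 1) → MvPolynomial (Fin (r + 1)) ℂ) (n := 1)
      (fun i => by
        refine Fin.cases ?_ (fun i => ?_) i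
        · rw [Fin.cons_zero]
          exact isHomogeneous_zero _ _ _
        · rw [Fin.cons_succ]
          exact isHomogeneous_X _ _)
    rw [one_mul] at h1
    exact h1
  · have h1 := hy _ hQ'P
    rw [eval_subst] at h1
    rw [eval_subst, ← h1]
    congr 2
    funext i
    rw [hL]
    refine Fin.cases ?_ (fun i => ?_) i
    · rw [Fin.cons_zero, Fin.cons_zero, map_zero, eval_X, hyb]
    · rw [Fin.cons_succ, Fin.cons_succ, eval_X]

end Pool.Agent.H39.SZ

end
end

section

/-!
# Project SZ, module Tan: projections which are transversal to the tangent cone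

`V` = the set of all `v` such that there are sequences `u : ℕ → Fin (M + 1) → ℂ`, `c : ℕ → ℂ` with
`u k ∈ Zer P`, `u k b = 1`, `u k → y`, `c k • (u k - y) → v` (the tangent cone).

`hrel` of `exists_forms`: for `l : Fin (r + 1) → Module.Dual ℂ _` take `exists_rel_slice` for
`Λ a = lin (l a) - C (l a y)`, so that `eval y' (Λ a) = l a (y' - y)` (`eval_lin`): `Q ≠ 0`,
`eval (fun a => l a (y' - y)) Q = 0` on the slice.  Let `e` be minimal with
`Q' = homogeneousComponent e Q ≠ 0` (`sum_homogeneousComponent`, `Nat.find`).  For `v ∈ V` let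
`w k = fun a => l a (u k - y)`, so `w k → 0`, `c k • w k → fun a => l a v` (`l a` is continuous:
`LinearMap.continuous_of_finiteDimensional`).  `0 = c k ^ e * eval (w k) Q = eval (c k • w k) Q' +
∑ (d > e) c k ^ e * eval (w k) (homogeneousComponent d Q)`, and for `d = e + d'`, `d' ≥ 1`, there is a
constant `K` with `‖c k ^ e * eval (w k) (homogeneousComponent d Q)‖ ≤ K * ‖c k • w k‖ ^ e * ‖w k‖ ^ d'`
(every monomial of degree `d` is at most `‖w k‖ ^ d`), which tends to `0`; so
`eval (fun a => l a v) Q' = 0` (uniqueness of limits).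

So there are `r` linear forms `l` such that `v ∈ V`, `l a v = 0` for all `a`, implies `v = 0`.  If the
conclusion is false for this `l` then for every `k : ℕ` (with `L = k`) every neighbourhood of `y`
contains `y' ∈ Zer P`, `y' b = 1`, `‖y' - y‖ > k ‖(l a (y' - y))_a‖`: a sequence `u k → y` with
`‖u k - y‖ > k * ‖(l a (u k - y))_a‖` (so `u k ≠ y`); the unit vectors `(‖u k - y‖)⁻¹ • (u k - y)` have a
convergent subsequence (`IsCompact.tendsto_subseq`, the unit sphere of `Fin (M + 1) → ℂ` is compact)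
with limit `v`, `‖v‖ = 1`, `v ∈ V` and `l a v = 0`: a contradiction.
-/

open MvPolynomial Filter Topology
open Pool.Agent.H17LG.Variety (FunField)
open Pool.Agent.H5.DG (Homog)
open Pool.Agent.H39.SY (Zer)

noncomputable section

namespace Pool.Agent.H39.SZ

/-- Evaluation of a form at a multiple of a vector. -/
private theorem Tan_smul {s d : ℕ} {Q : MvPolynomial (Fin s) ℂ} (hQ : Q.IsHomogeneous d) (c : ℂ)
    (x : Fin s → ℂ) : eval (c • x) Q = c ^ d * eval x Q := by
  rw [MvPolynomial.eval_eq', MvPolynomial.eval_eq', Finset.mul_sum]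
  apply Finset.sum_congr rfl
  intro m hm
  have hdeg : ∑ i, m i = d := by
    have := hQ (MvPolynomial.mem_support_iff.1 hm)
    rw [Finsupp.weight_apply] at this
    simpa [Finsupp.sum_fintype] using this
  have h1 : ∏ i, (c • x) i ^ m i = c ^ d * ∏ i, x i ^ m i := by
    rw [← hdeg, ← Finset.prod_pow_eq_pow_sum, ← Finset.prod_mul_distrib]
    exact Finset.prod_congr rfl fun i _ => by simp [mul_pow]
  rw [h1]
  ring

/-- A bound for the values of a form. -/
private theorem Tan_bound {s d : ℕ} {Q : MvPolynomial (Fin s) ℂ} (hQ : Q.IsHomogeneous d) :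
    ∃ K : ℝ, 0 ≤ K ∧ ∀ x : Fin s → ℂ, ‖eval x Q‖ ≤ K * ‖x‖ ^ d := by
  refine ⟨∑ m ∈ Q.support, ‖coeff m Q‖, Finset.sum_nonneg fun _ _ => norm_nonneg _, fun x => ?_⟩
  rw [MvPolynomial.eval_eq', Finset.sum_mul]
  refine (norm_sum_le _ _).trans (Finset.sum_le_sum fun m hm => ?_)
  rw [norm_mul]
  refine mul_le_mul_of_nonneg_left ?_ (norm_nonneg _)
  have hdeg : ∑ i, m i = d := by
    have := hQ (MvPolynomial.mem_support_iff.1 hm)
    rw [Finsupp.weight_apply] at this
    simpa [Finsupp.sum_fintype] using this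
  rw [← hdeg, ← Finset.prod_pow_eq_pow_sum, norm_prod]
  refine Finset.prod_le_prod (fun i _ => norm_nonneg _) fun i _ => ?_
  rw [norm_pow]
  exact pow_le_pow_left₀ (norm_nonneg _) (norm_le_pi_norm x i) _

/-- The lowest component of an equation holds on the tangent cone. -/
private theorem Tan_limit {s : ℕ} {Q : MvPolynomial (Fin s) ℂ} {e : ℕ}
    (he : homogeneousComponent e Q ≠ 0) (hlow : ∀ d, d < e → homogeneousComponent d Q = 0)
    {w : ℕ → Fin s → ℂ} {c : ℕ → ℂ} {v : Fin s → ℂ} (hw0 : Tendsto w atTop (𝓝 0))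
    (hcw : Tendsto (fun k => c k • w k) atTop (𝓝 v)) (hQ : ∀ k, eval (w k) Q = 0) :
    eval v (homogeneousComponent e Q) = 0 := by
  have hterm : ∀ d, Tendsto (fun k => c k ^ e * eval (w k) (homogeneousComponent d Q)) atTop
      (𝓝 (if d = e then eval v (homogeneousComponent e Q) else 0)) := by
    intro d
    rcases lt_trichotomy d e with hd | hd | hd
    · rw [if_neg hd.ne, hlow d hd]
      simp
    · subst hd
      rw [if_pos rfl]
      have h1 : ∀ k, c k ^ d * eval (w k) (homogeneousComponent d Q) =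
          eval (c k • w k) (homogeneousComponent d Q) := fun k =>
        (Tan_smul (homogeneousComponent_isHomogeneous d Q) (c k) (w k)).symm
      simp only [h1]
      have h2 : Continuous fun x : Fin s → ℂ => eval x (homogeneousComponent d Q) :=
        MvPolynomial.continuous_eval _
      exact (h2.tendsto v).comp hcw
    · rw [if_neg hd.ne']
      obtain ⟨K, hK0, hK⟩ := Tan_bound (homogeneousComponent_isHomogeneous d Q)
      rw [tendsto_zero_iff_norm_tendsto_zero]
      have h1 : Tendsto (fun k => K * (‖c k • w k‖ ^ e * ‖w k‖ ^ (d - e))) atTop (𝓝 0) := by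
        have h2 : Tendsto (fun k => ‖c k • w k‖ ^ e) atTop (𝓝 (‖v‖ ^ e)) := (hcw.norm).pow e
        have h3 : Tendsto (fun k => ‖w k‖ ^ (d - e)) atTop (𝓝 0) := by
          have h4 := (hw0.norm).pow (d - e)
          rwa [norm_zero, zero_pow (by omega)] at h4
        have h4 := (h2.mul h3).const_mul K
        rwa [mul_zero, mul_zero] at h4
      refine squeeze_zero (fun _ => norm_nonneg _) (fun k => ?_) h1
      rw [norm_mul, norm_pow, norm_smul, mul_pow]
      calc ‖c k‖ ^ e * ‖eval (w k) (homogeneousComponent d Q)‖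
          ≤ ‖c k‖ ^ e * (K * ‖w k‖ ^ d) := mul_le_mul_of_nonneg_left (hK _) (by positivity)
        _ = K * (‖c k‖ ^ e * ‖w k‖ ^ e * ‖w k‖ ^ (d - e)) := by
            have h5 : ‖w k‖ ^ d = ‖w k‖ ^ e * ‖w k‖ ^ (d - e) := by
              rw [← pow_add]; congr 1; omega
            rw [h5]; ring
  have hsum := tendsto_finsetSum (Finset.range (Q.totalDegree + 1)) fun d _ => hterm d
  have h0 : (fun k => ∑ d ∈ Finset.range (Q.totalDegree + 1),
      c k ^ e * eval (w k) (homogeneousComponent d Q)) = fun _ => 0 := by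
    funext k
    rw [← Finset.mul_sum, ← map_sum, sum_homogeneousComponent, hQ k, mul_zero]
  rw [h0, Finset.sum_ite_eq' (Finset.range (Q.totalDegree + 1)) e] at hsum
  have hmem : e ∈ Finset.range (Q.totalDegree + 1) := by
    rw [Finset.mem_range]
    by_contra hcon
    exact he (homogeneousComponent_eq_zero e Q (by omega))
  rw [if_pos hmem] at hsum
  exact tendsto_nhds_unique hsum tendsto_const_nhds

theorem exists_tan {M r : ℕ} {P : Ideal (MvPolynomial (Fin (M + 1)) ℂ)} [P.IsPrime] (hP : Homog P)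
    (hz : ∃ z : Fin r → FunField P, IsTranscendenceBasis ℂ z) {b : Fin (M + 1)} (hb : X b ∉ P)
    {y : Fin (M + 1) → ℂ} (hy : y ∈ Zer P) (hyb : y b = 1) :
    ∃ (l : Fin r → Module.Dual ℂ (Fin (M + 1) → ℂ)) (L : ℝ), ∀ᶠ y' in 𝓝 y, y' ∈ Zer P → y' b = 1 →
      ‖y' - y‖ ≤ L * ‖fun a => l a (y' - y)‖ := by
  classical
  let V : Set (Fin (M + 1) → ℂ) := {v | ∃ (u : ℕ → Fin (M + 1) → ℂ) (c : ℕ → ℂ),
    (∀ k, u k ∈ Zer P) ∧ (∀ k, u k b = 1) ∧ Tendsto u atTop (𝓝 y) ∧
      Tendsto (fun k => c k • (u k - y)) atTop (𝓝 v)}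
  have hcont : ∀ l : Module.Dual ℂ (Fin (M + 1) → ℂ), Continuous l := fun l =>
    LinearMap.continuous_of_finiteDimensional l
  have hrel : ∀ l : Fin (r + 1) → Module.Dual ℂ (Fin (M + 1) → ℂ),
      ∃ (e : ℕ) (Q : MvPolynomial (Fin (r + 1)) ℂ), Q ≠ 0 ∧ Q.IsHomogeneous e ∧
        ∀ v ∈ V, eval (fun a => l a v) Q = 0 := by
    intro l
    obtain ⟨Q, hQ0, hQ⟩ := exists_rel_slice hP hz hb fun a => lin (l a) - C (l a y)
    have hex : ∃ e, homogeneousComponent e Q ≠ 0 := by
      by_contra hcon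
      push Not at hcon
      apply hQ0
      rw [← sum_homogeneousComponent Q]
      exact Finset.sum_eq_zero fun i _ => hcon i
    refine ⟨Nat.find hex, homogeneousComponent (Nat.find hex) Q, Nat.find_spec hex,
      homogeneousComponent_isHomogeneous _ _, ?_⟩
    rintro v ⟨u, c, hu, hub, huy, hcu⟩
    have hw0 : Tendsto (fun k => fun a => l a (u k - y)) atTop (𝓝 0) := by
      rw [tendsto_pi_nhds]
      intro a
      have h1 : Tendsto (fun k => u k - y) atTop (𝓝 0) := by
        have h2 := huy.sub_const y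
        rwa [sub_self] at h2
      have h3 := ((hcont (l a)).tendsto 0).comp h1
      rw [map_zero] at h3
      exact h3
    have hcw : Tendsto (fun k => c k • (fun a => l a (u k - y)) : ℕ → Fin (r + 1) → ℂ) atTop
        (𝓝 fun a => l a v) := by
      rw [tendsto_pi_nhds]
      intro a
      have h3 := ((hcont (l a)).tendsto v).comp hcu
      refine h3.congr fun k => ?_
      show l a (c k • (u k - y)) = c k • l a (u k - y)
      rw [map_smul]
    refine Tan_limit (Nat.find_spec hex) (fun d hd => ?_) hw0 hcw fun k => ?_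
    · by_contra hcon
      exact Nat.find_min hex hd hcon
    · have h1 := hQ (u k) (hu k) (hub k)
      rw [← h1]
      congr 2
      funext a
      rw [map_sub, map_sub, eval_lin, eval_C]
  obtain ⟨l, hl⟩ := exists_forms hrel
  refine ⟨l, ?_⟩
  by_contra hcon
  push Not at hcon
  have hfreq : ∀ k : ℕ, ∃ y' : Fin (M + 1) → ℂ, dist y' y < 1 / ((k : ℝ) + 1) ∧ y' ∈ Zer P ∧ y' b = 1 ∧
      (k : ℝ) * ‖fun a => l a (y' - y)‖ < ‖y' - y‖ := by
    intro k
    have h1 := hcon k
    have h2 : ∀ᶠ y' in 𝓝 y, dist y' y < 1 / ((k : ℝ) + 1) :=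
      Metric.ball_mem_nhds y (by positivity)
    obtain ⟨y', ⟨h3, h4, h5⟩, h6⟩ := (h1.and_eventually h2).exists
    exact ⟨y', h6, h3, h4, h5⟩
  choose u hud huZ hub hul using hfreq
  have huy : Tendsto u atTop (𝓝 y) := by
    rw [tendsto_iff_dist_tendsto_zero]
    exact squeeze_zero (fun _ => dist_nonneg) (fun k => (hud k).le) tendsto_one_div_add_atTop_nhds_zero_nat
  have hpos : ∀ k, 0 < ‖u k - y‖ := fun k => lt_of_le_of_lt (by positivity) (hul k)
  have hsph : ∀ k, (((‖u k - y‖⁻¹ : ℝ) : ℂ) • (u k - y)) ∈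
      Metric.sphere (0 : Fin (M + 1) → ℂ) 1 := by
    intro k
    rw [mem_sphere_zero_iff_norm, norm_smul, Complex.norm_real, norm_inv, norm_norm,
      inv_mul_cancel₀ (hpos k).ne']
  obtain ⟨v, hv, φ, hφ, hlim⟩ := (isCompact_sphere (0 : Fin (M + 1) → ℂ) 1).tendsto_subseq hsph
  have hvV : v ∈ V := ⟨fun k => u (φ k), fun k => ((‖u (φ k) - y‖⁻¹ : ℝ) : ℂ), fun k => huZ _,
    fun k => hub _, huy.comp hφ.tendsto_atTop, hlim⟩
  have hv0 : ∀ a, l a v = 0 := by
    intro a
    have h1 := ((hcont (l a)).tendsto v).comp hlim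
    have h2 : Tendsto (fun k => l a (((‖u (φ k) - y‖⁻¹ : ℝ) : ℂ) • (u (φ k) - y))) atTop (𝓝 0) := by
      rw [tendsto_zero_iff_norm_tendsto_zero]
      have h3 : Tendsto (fun k : ℕ => 1 / (k : ℝ)) atTop (𝓝 0) := tendsto_one_div_atTop_nhds_zero_nat
      refine squeeze_zero' (Eventually.of_forall fun _ => norm_nonneg _) ?_ h3
      filter_upwards [eventually_gt_atTop 0] with k hk
      have hk0 : (0 : ℝ) < k := by exact_mod_cast hk
      have hφk : (k : ℝ) ≤ φ k := by exact_mod_cast hφ.id_le k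
      rw [map_smul, norm_smul, Complex.norm_real, norm_inv, norm_norm]
      have h4 : ‖l a (u (φ k) - y)‖ ≤ ‖fun a => l a (u (φ k) - y)‖ :=
        norm_le_pi_norm (fun a => l a (u (φ k) - y)) a
      have h5 := hul (φ k)
      have h6 := hpos (φ k)
      rw [inv_mul_eq_div, div_le_div_iff₀ h6 hk0, one_mul]
      calc ‖l a (u (φ k) - y)‖ * (k : ℝ) ≤ ‖fun a => l a (u (φ k) - y)‖ * (φ k : ℝ) :=
            mul_le_mul h4 hφk hk0.le (norm_nonneg _)
        _ = (φ k : ℝ) * ‖fun a => l a (u (φ k) - y)‖ := mul_comm _ _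
        _ ≤ ‖u (φ k) - y‖ := h5.le
    exact tendsto_nhds_unique h1 h2
  have h0 := hl v hvV hv0
  rw [h0, mem_sphere_zero_iff_norm, norm_zero] at hv
  exact zero_ne_one hv

end Pool.Agent.H39.SZ

end
end
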