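import Pool.Agent.H94.DG.M42
import Pool.Agent.H94.DG.M43
import Pool.Agent.H94.DG.M44

/-! The parts of this file: H39.SZ.Inf, H5.DG3.Exc. -/

section

/-!
# Project SZ, module Inf: linear forms without common zeros at infinity
-/

open MvPolynomial Filter Topology
open Pool.Agent.H17LG.Variety (FunField)
open Pool.Agent.H5.DG (Homog)
open Pool.Agent.H39.SY (Zer)

noncomputable section

namespace Pool.Agent.H39.SZ

theorem exists_inf {M r : ℕ} {P : Ideal (MvPolynomial (Fin (M + 1)) ℂ)} [P.IsPrime] (hP : Homog P)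
    (hz : ∃ z : Fin r → FunField P, IsTranscendenceBasis ℂ z) {b : Fin (M + 1)} (hb : X b ∉ P) :
    ∃ l : Fin r → Module.Dual ℂ (Fin (M + 1) → ℂ),
      ∀ y ∈ Zer P, y b = 0 → (∀ a, l a y = 0) → y = 0 := by
  obtain ⟨l, hl⟩ := exists_forms (r := r) (V := {y : Fin (M + 1) → ℂ | y ∈ Zer P ∧ y b = 0})
    (fun l => by
      obtain ⟨e, Q, hQ0, hQ, h⟩ := exists_rel_inf hP hz hb (fun a => lin (l a))
        fun a => lin_isHomogeneous (l a)
      refine ⟨e, Q, hQ0, hQ, fun v hv => ?_⟩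
      have h1 := h v hv.1 hv.2
      simpa only [eval_lin] using h1)
  exact ⟨l, fun y hy hyb h => hl y ⟨hy, hyb⟩ h⟩

end Pool.Agent.H39.SZ

end
end

section

/-!
# Project DG3, module Exc: the exceptional set, the four properties

`excSet_closed`: `Z` is given by the forms in `S`; `excSet` is given by the forms
`T * aeval (F α) Δ`, `T ∈ S`, `α` (`vanishesAt_morph_iff`); if `x` is not in `Z` some `T ∈ S` does not
vanish at `x`.
`Hyperbolic.four`: as `CoverPart.four` (module `Pool.Agent.H5.DG.FinalDefs`).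
`brody_of_picard_closed`: `f z₀ ∉ Ξ`, so some form `T` of the equations of `Ξ` does not vanish at
`f z₀`; `Pool.Agent.H5.DG.brody_of_picard` (module SecOrb) with `Δ = T`.
-/

open MvPolynomial Filter Topology
open Pool.Agent.H17 (PN VanishesAt ZariskiClosedIn HolomorphicInto puncturedDisc)
open Pool.Agent.H17LG.Variety (FunField)
open Pool.Agent.H5.DG (Homog variety)

noncomputable section

namespace Pool.Agent.H5.DG3

variable {N M s : ℕ}

theorem excSet_closed {I : Ideal (MvPolynomial (Fin (N + 1)) ℂ)} (hI : Homog I) {B Z : Set (PN N)}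
    (hZ : ZariskiClosedIn Set.univ Z) {F : Fin s → Fin (M + 1) → MvPolynomial (Fin (N + 1)) ℂ}
    (hF : IsMorphism I (variety I \ B) F) {Δ : MvPolynomial (Fin (M + 1)) ℂ} {k : ℕ}
    (hk : Δ.IsHomogeneous k) : ZariskiClosedIn (variety I \ B) (excSet I B Z F Δ) := by
  obtain ⟨S, hS, hZS⟩ := hZ
  refine ⟨{Q | ∃ T ∈ S, ∃ α, Q = T * aeval (F α) Δ}, ?_, ?_⟩
  · rintro Q ⟨T, hT, α, rfl⟩
    obtain ⟨n, hn⟩ := hS T hT
    obtain ⟨e, he⟩ := hF.hom α
    exact ⟨_, hn.mul (hk.aeval _ he)⟩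
  · ext x
    change (x ∈ variety I \ B ∧ (x ∈ Z ∨ VanishesAt Δ (morph F x))) ↔
      (x ∈ variety I \ B ∧ ∀ Q ∈ {Q | ∃ T ∈ S, ∃ α, Q = T * aeval (F α) Δ}, VanishesAt Q x)
    refine and_congr_right fun hx => ⟨?_, fun h => ?_⟩
    · rintro (h | h) Q ⟨T, hT, α, rfl⟩
      · rw [hZS] at h
        have h1 : eval x.rep T = 0 := h.2 T hT
        change eval x.rep (T * aeval (F α) Δ) = 0
        rw [map_mul, h1, zero_mul]
      · have h1 : eval x.rep (aeval (F α) Δ) = 0 :=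
          (vanishesAt_morph_iff hF hI hx.1 hx hk).1 h α
        change eval x.rep (T * aeval (F α) Δ) = 0
        rw [map_mul, h1, mul_zero]
    · by_cases hxZ : x ∈ Z
      · exact Or.inl hxZ
      · right
        rw [hZS] at hxZ
        have h1 : ∃ T ∈ S, ¬ VanishesAt T x := by
          by_contra hcon
          push Not at hcon
          exact hxZ ⟨Set.mem_univ x, hcon⟩
        obtain ⟨T, hT, hTx⟩ := h1
        rw [vanishesAt_morph_iff hF hI hx.1 hx hk]
        intro α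
        have h2 : eval x.rep (T * aeval (F α) Δ) = 0 := h _ ⟨T, hT, α, rfl⟩
        rw [map_mul] at h2
        exact (mul_eq_zero.1 h2).resolve_left hTx

theorem Hyperbolic.four {I : Ideal (MvPolynomial (Fin (N + 1)) ℂ)} [I.IsPrime] (hI : Homog I)
    {B Ξ : Set (PN N)} (h : Hyperbolic I B Ξ) (hΞ : ZariskiClosedIn (variety I \ B) Ξ)
    (hne : ¬ (variety I \ B ⊆ Ξ)) {w : ℕ} (hw : 1 ≤ w)
    (hz : ∃ z : Fin w → FunField I, IsTranscendenceBasis ℂ z) : FourProperties I B w Ξ where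
  closed := hΞ
  proper := fun hcon => hne hcon.ge
  logGeneralType := h.strongly I hI le_rfl hne w hw hz
  picard := h.picard
  brody := by
    intro f hf hfX hne z
    by_contra hcon
    obtain ⟨a, b, hab⟩ := hne
    exact hab (h.brody f hf hfX ⟨z, hcon⟩ a b)
  strongly := h.strongly

theorem brody_of_picard_closed {I : Ideal (MvPolynomial (Fin (N + 1)) ℂ)} {B Ξ : Set (PN N)}
    (hΞ : ZariskiClosedIn (variety I \ B) Ξ)
    (hpic : ∀ f : ℂ → PN N, HolomorphicInto f puncturedDisc →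
      (∀ z ∈ puncturedDisc, f z ∈ variety I \ B) → (∃ z ∈ puncturedDisc, f z ∉ Ξ) →
      ∃ g : ℂ → PN N, HolomorphicInto g (Metric.ball 0 1) ∧ ∀ z ∈ puncturedDisc, g z = f z)
    {f : ℂ → PN N} (hf : HolomorphicInto f Set.univ) (hfU : ∀ z, f z ∈ variety I \ B)
    (hne : ∃ z, f z ∉ Ξ) (z w : ℂ) : f z = f w := by
  obtain ⟨S, hS, hΞS⟩ := hΞ
  obtain ⟨z₀, hz₀⟩ := hne
  have h1 : ∃ T ∈ S, ¬ VanishesAt T (f z₀) := by
    by_contra hcon
    push Not at hcon
    rw [hΞS] at hz₀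
    exact hz₀ ⟨hfU z₀, hcon⟩
  obtain ⟨T, hT, hTx⟩ := h1
  obtain ⟨n, hn⟩ := hS T hT
  refine Pool.Agent.H5.DG.brody_of_picard hn hf ⟨z₀, hTx⟩ (fun hgh hne' => ?_) z w
  obtain ⟨z₁, hz₁, hz₁'⟩ := hne'
  refine hpic _ hgh (fun z _ => hfU _) ⟨z₁, hz₁, fun hcon => hz₁' ?_⟩
  rw [hΞS] at hcon
  exact hcon.2 T hT

end Pool.Agent.H5.DG3

end
end
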