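import Pool.Agent.H94.DG.H5.DG4.IntBase
import Pool.Agent.H94.DG.M12
import Pool.Agent.H94.DG.M45
import Pool.Agent.H94.DG.M46
import Pool.Agent.H94.DG.M49

/-! The parts of this file: H5.DG3.Sub3, H5.DG3.Asm, H5.DG4.CIMap, H5.DG4.CI4. -/

section

/-!
# Project DG3, module Sub3: closed subvarieties are of log general type

`y a = F α a` at the generic point of `variety Q` is a point of the cone of `Y` over the function
field, `V b = Bf b (y)`, `v b = V b / V b₀`.  The function field is algebraic over `ℂ(v)`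
(`morph_algebraic`, `point_algebraic`).  Along a prime divisor whose centre does not lie in `B` some
tuple `F α'` has a component of order `0`; it is proportional to `y`, and the orders of the linear
forms are those of the `G (σ j)` (`ord_pullback`).
-/

open MvPolynomial
open Pool.Agent.H17 (PN VanishesAt ZariskiClosedIn)
open Pool.Agent.H17GT (coordFun)
open Pool.Agent.H17LG.Variety (FunField ratio)
open Pool.Agent.H23.Fano (PrimeDivisorOver)
open Pool.Agent.H5.DG (Homog variety BaseFree comb valAt)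

noncomputable section

namespace Pool.Agent.H5.DG3

private theorem Sub3_algebraic {K : Type} [Field K] [Algebra ℂ K] {S S' : Set K}
    (hS : Algebra.IsAlgebraic (IntermediateField.adjoin ℂ S) K)
    (h : ∀ x ∈ S, IsAlgebraic (IntermediateField.adjoin ℂ S') x) :
    Algebra.IsAlgebraic (IntermediateField.adjoin ℂ S') K := by
  obtain ⟨k₁, hk₁⟩ : ∃ k₁, k₁ = IntermediateField.adjoin ℂ S' := ⟨_, rfl⟩
  rw [← hk₁] at h ⊢
  have h1 : IntermediateField.adjoin ℂ S ≤ (algebraicClosure k₁ K).restrictScalars ℂ := by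
    rw [IntermediateField.adjoin_le_iff]
    intro x hx
    exact (mem_algebraicClosure_iff (F := k₁) (E := K)).2 (h x hx)
  refine ⟨fun t => ?_⟩
  have h2 : IsAlgebraic (algebraicClosure k₁ K) t := by
    obtain ⟨p, hp0, hp⟩ := hS.isAlgebraic t
    refine ⟨p.map (IntermediateField.inclusion h1 : IntermediateField.adjoin ℂ S →+*
      (algebraicClosure k₁ K).restrictScalars ℂ), ?_, ?_⟩
    · rwa [Ne, Polynomial.map_eq_zero]
    · rw [← hp, Polynomial.aeval_def, Polynomial.aeval_def, Polynomial.eval₂_map]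
      rfl
  exact h2.restrictScalars k₁

private theorem Sub3_ord_poly {K : Type} [Field K] [Algebra ℂ K] {w n : ℕ}
    (E : PrimeDivisorOver K w) {x : Fin n → K} (hx : ∀ i, 0 ≤ E.ord (x i))
    (R : MvPolynomial (Fin n) ℂ) : 0 ≤ E.ord (aeval x R) := by
  induction R using MvPolynomial.induction_on with
  | C c =>
    rw [aeval_C]
    exact E.ord_const c
  | add p q hp hq =>
    rw [map_add]
    exact E.ord.map_le_add hp hq
  | mul_X p i hp =>
    rw [map_mul, aeval_X, E.ord.map_mul]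
    exact add_nonneg hp (hx i)

private theorem Sub3_ord_const {K : Type} [Field K] [Algebra ℂ K] {w : ℕ}
    (E : PrimeDivisorOver K w) {c : ℂ} (hc : c ≠ 0) : E.ord (algebraMap ℂ K c) = 0 := by
  refine le_antisymm ?_ (E.ord_const _)
  have h6 : E.ord (algebraMap ℂ K c) + E.ord (algebraMap ℂ K c⁻¹) = 0 := by
    rw [← E.ord.map_mul, ← map_mul, mul_inv_cancel₀ hc, map_one, E.ord.map_one]
  calc E.ord (algebraMap ℂ K c) ≤ E.ord (algebraMap ℂ K c) + E.ord (algebraMap ℂ K c⁻¹) :=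
        le_add_of_nonneg_right (E.ord_const _)
    _ = 0 := h6

private theorem Sub3_ord_div {K : Type} [Field K] [Algebra ℂ K] {w : ℕ}
    (E : PrimeDivisorOver K w) {a b : K} (hb : E.ord b = 0) : E.ord (a / b) = E.ord a := by
  have hb0 : b ≠ 0 := by
    rintro rfl
    rw [E.ord.map_zero] at hb
    exact absurd hb (by simp)
  have h1 : E.ord (a / b) + E.ord b = E.ord a := by
    rw [← E.ord.map_mul, div_mul_cancel₀ _ hb0]
  rwa [hb, add_zero] at h1

theorem strongly_of_linearField {q m m' M N r s e₀ k w : ℕ}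
    {P : Ideal (MvPolynomial (Fin (M + 1)) ℂ)} [P.IsPrime] (hP : Homog P)
    {Bf : Fin (r + 1) → MvPolynomial (Fin (M + 1)) ℂ} (hB : BaseFree P e₀ Bf)
    {G : Fin m → MvPolynomial (Fin (M + 1)) ℂ} (hGh : ∀ j, ∃ d, (G j).IsHomogeneous d)
    {p : Fin m' → Fin (r + 1) → ℂ} {Δ : MvPolynomial (Fin (r + 1)) ℂ} (hk : Δ.IsHomogeneous k)
    (h : LinearField q p Δ) {σ : Fin m' → Fin m} {c : Fin m' → ℂ} (hc : ∀ j, c j ≠ 0)
    (hG : ∀ j, C (c j) * G (σ j) - comb (p j) Bf ∈ P)
    {I : Ideal (MvPolynomial (Fin (N + 1)) ℂ)} [I.IsPrime] {B Z : Set (PN N)}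
    {F : Fin s → Fin (M + 1) → MvPolynomial (Fin (N + 1)) ℂ}
    (hR : RamifiedMorphism q P G I B Z F) (Q : Ideal (MvPolynomial (Fin (N + 1)) ℂ)) [Q.IsPrime]
    (hQ : Homog Q) (hIQ : I ≤ Q) (hQΞ : ¬ (variety Q \ B ⊆ excSet I B Z F (aeval Bf Δ)))
    (hw : 1 ≤ w) (hz : ∃ z : Fin w → FunField Q, IsTranscendenceBasis ℂ z) :
    LogGeneralType Q B w := by
  classical
  -- a point outside of the exceptional set
  obtain ⟨x₀, hx₀, hx₀Ξ⟩ := Set.not_subset.1 hQΞ
  have hx₀I : x₀ ∈ variety I \ B := ⟨fun R hRI k hk => hx₀.1 R (hIQ hRI) k hk, hx₀.2⟩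
  have hx₀Z : x₀ ∉ Z := fun hcon => hx₀Ξ ⟨hx₀I, Or.inl hcon⟩
  have hx₀Δ : ¬ VanishesAt (aeval Bf Δ) (morph F x₀) := fun hcon => hx₀Ξ ⟨hx₀I, Or.inr hcon⟩
  obtain ⟨α, a₀, ha₀⟩ := hR.morphism.base x₀ hx₀I
  obtain ⟨e, he⟩ := hR.morphism.hom α
  have ha₀Q : F α a₀ ∉ Q := fun hcon => ha₀ (hx₀.1 _ hcon e (he a₀))
  have hQZ : ¬ (variety Q \ B ⊆ Z) := fun hcon => hx₀Z (hcon hx₀)
  -- the generic point
  obtain ⟨j₀, hj₀⟩ : ∃ j, coordFun Q j ≠ 0 := by
    obtain ⟨z, hz⟩ := hz
    obtain ⟨w, rfl⟩ : ∃ w', w = w' + 1 := ⟨w - 1, by omega⟩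
    exact Pool.Agent.H92.GT.Proj.exists_coordFun_ne_zero Q (k := w) z hz
  obtain ⟨x, hx⟩ : ∃ x : Fin (N + 1) → FunField Q, x = fun i => ratio Q i j₀ := ⟨_, rfl⟩
  obtain ⟨y, hy⟩ : ∃ y : Fin (M + 1) → FunField Q, y = fun a => aeval x (F α a) := ⟨_, rfl⟩
  have hcomp : ∀ (x : Fin (N + 1) → FunField Q) (α : Fin s) (R : MvPolynomial (Fin (M + 1)) ℂ),
      aeval x (aeval (F α) R) = aeval (fun a => aeval x (F α a)) R := by
    intro x α R
    rw [← AlgHom.comp_apply, MvPolynomial.comp_aeval]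
  have hPQ : ∀ (α : Fin s), ∀ g ∈ P, aeval (F α) g ∈ Q := fun α g hg =>
    hIQ (aeval_mem_of_maps hP hR.homog hR.closedB ⟨x₀, hx₀I⟩ hR.morphism hR.maps α hg)
  have hyP : ∀ g ∈ P, aeval y g = 0 := by
    intro g hg
    rw [hy, ← hcomp, hx]
    exact Pool.Agent.H5.DG.eval_ratio_mem Q hQ hj₀ (hPQ α g hg)
  have hya₀ : y a₀ ≠ 0 := by
    intro hcon
    apply ha₀Q
    rw [← Pool.Agent.H5.DG.eval_ratio_zero_iff Q hj₀ (he a₀), ← hx]
    rw [hy] at hcon
    exact hcon
  obtain ⟨V, hV⟩ : ∃ V : Fin (r + 1) → FunField Q, V = fun b => aeval y (Bf b) := ⟨_, rfl⟩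
  obtain ⟨b₀, hb₀⟩ : ∃ b, V b ≠ 0 := by
    by_contra hcon
    push Not at hcon
    obtain ⟨κ, hκ⟩ := hB.base a₀
    have h1 : Ideal.span (Set.range Bf) ⊔ P ≤ RingHom.ker
        (aeval y : MvPolynomial (Fin (M + 1)) ℂ →ₐ[ℂ] FunField Q).toRingHom := by
      refine sup_le (Ideal.span_le.2 ?_) fun g hg => hyP g hg
      rintro _ ⟨b, rfl⟩
      have h2 := hcon b
      rw [hV] at h2
      exact h2
    have h2 : aeval y ((X a₀ : MvPolynomial (Fin (M + 1)) ℂ) ^ κ) = 0 := h1 hκ
    rw [map_pow, aeval_X] at h2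
    exact hya₀ (eq_zero_of_pow_eq_zero h2)
  obtain ⟨v, hv⟩ : ∃ v : Fin (r + 1) → FunField Q, v = fun b => V b / V b₀ := ⟨_, rfl⟩
  have hvV : ∀ b, V b = V b₀ * v b := by
    intro b
    rw [hv]
    exact (mul_div_cancel₀ _ hb₀).symm
  -- the exceptional form
  have hvΔ : aeval v Δ ≠ 0 := by
    intro hcon
    have h1 : aeval V Δ = 0 := by
      rw [Pool.Agent.H5.DG.aeval_eq_pow_mul hk hvV, hcon, mul_zero]
    have h2 : aeval x (aeval (F α) (aeval Bf Δ)) = 0 := by
      rw [hcomp, ← h1, hV, hy, ← AlgHom.comp_apply, MvPolynomial.comp_aeval]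
    have hΔh : (aeval Bf Δ).IsHomogeneous (e₀ * k) := hk.aeval _ hB.hom
    have hΔh2 : (aeval (F α) (aeval Bf Δ)).IsHomogeneous (e * (e₀ * k)) := hΔh.aeval _ he
    rw [hx] at h2
    have h3 := (Pool.Agent.H5.DG.eval_ratio_zero_iff Q hj₀ hΔh2).1 h2
    exact hx₀Δ ((vanishesAt_morph hR.morphism hR.homog hx₀I.1 hΔh ⟨a₀, ha₀⟩).2
      (hx₀.1 _ h3 _ hΔh2))
  -- the field generated by the coordinates
  have halg : Algebra.IsAlgebraic (IntermediateField.adjoin ℂ (Set.range v)) (FunField Q) := by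
    refine Sub3_algebraic (morph_algebraic hR.homog hR.closedB hR.closedZ hR.morphism hR.finite Q
      hQ hIQ hQZ hz hj₀ ha₀Q) ?_
    rintro _ ⟨a, rfl⟩
    have h1 := point_algebraic hP hB hyP (b₀ := b₀) (by rw [hV] at hb₀; exact hb₀) a a₀
    have h2 : (fun b => aeval y (Bf b) / aeval y (Bf b₀)) = v := by
      rw [hv, hV]
    rw [h2] at h1
    have h3 : valAt Q j₀ (F α) a / valAt Q j₀ (F α) a₀ = y a / y a₀ := by
      rw [hy, hx]
      rfl
    show IsAlgebraic _ (valAt Q j₀ (F α) a / valAt Q j₀ (F α) a₀)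
    rw [h3]
    exact h1
  have hess : Algebra.EssFiniteType ℂ (FunField Q) := H17GT.essFiniteType_functionField Q
  refine h.alg (FunField Q) v b₀ (by rw [hv]; exact div_self hb₀) halg hvΔ w hw hz (CentreIn Q B) ?_
  intro E hE b hvb hreg j
  -- a chart
  obtain ⟨j₁, -, hj₁⟩ := Finset.exists_min_image Finset.univ (fun i => E.ord (x i))
    ⟨j₀, Finset.mem_univ _⟩
  have hx₁ : x j₁ ≠ 0 := by
    intro hcon
    have h1 := hj₁ j₀ (Finset.mem_univ _)
    have h2 : x j₀ = 1 := by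
      rw [hx]
      exact Subtype.ext (div_self hj₀)
    rw [hcon, h2, E.ord.map_zero, E.ord.map_one] at h1
    exact absurd h1 (by simp)
  have hj₁c : coordFun Q j₁ ≠ 0 := by
    intro hcon
    apply hx₁
    rw [hx]
    apply Subtype.ext
    show coordFun Q j₁ / coordFun Q j₀ = 0
    rw [hcon, zero_div]
  have hxx : ∀ i, ratio Q i j₁ = x i / x j₁ := by
    intro i
    rw [hx]
    apply Subtype.ext
    show coordFun Q i / coordFun Q j₁ =
      (coordFun Q i / coordFun Q j₀) / (coordFun Q j₁ / coordFun Q j₀)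
    rw [div_div_div_cancel_right₀ hj₀]
  have hreg₁ : ∀ i, 0 ≤ E.ord (ratio Q i j₁) := by
    intro i
    rw [hxx]
    obtain ⟨n, hn⟩ : ∃ n : ℤ, E.ord (x j₁) = ((n : ℤ) : WithTop ℤ) := by
      rcases h1 : E.ord (x j₁) with _ | n
      · exact absurd ((AddValuation.top_iff E.ord).1 h1) hx₁
      · exact ⟨n, rfl⟩
    have h2 : E.ord (x i / x j₁) + E.ord (x j₁) = E.ord (x i) := by
      rw [← E.ord.map_mul, div_mul_cancel₀ _ hx₁]
    have h3 := hj₁ i (Finset.mem_univ _)
    rw [hn] at h2 h3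
    rcases h4 : E.ord (x i / x j₁) with _ | l
    · exact le_top
    · rw [h4] at h2
      rw [← h2] at h3
      have h5 : ((l : ℤ) : WithTop ℤ) + ((n : ℤ) : WithTop ℤ) = ((l + n : ℤ) : WithTop ℤ) := rfl
      have h6 : ((n : ℤ) : WithTop ℤ) ≤ ((l + n : ℤ) : WithTop ℤ) := by
        rw [← h5]
        exact h3
      have h7 : n ≤ l + n := by exact_mod_cast h6
      have h8 : (0 : ℤ) ≤ l := by omega
      have h9 : ((0 : ℤ) : WithTop ℤ) ≤ ((l : ℤ) : WithTop ℤ) := by exact_mod_cast h8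
      exact h9
  obtain ⟨α', a', ha'⟩ := exists_good_tuple hR Q hQ hIQ hE hj₁c hreg₁
  obtain ⟨x', hx'⟩ : ∃ x' : Fin (N + 1) → FunField Q, x' = fun i => ratio Q i j₁ := ⟨_, rfl⟩
  obtain ⟨y', hy'⟩ : ∃ y' : Fin (M + 1) → FunField Q, y' = fun a => aeval x' (F α' a) :=
    ⟨_, rfl⟩
  have hy'P : ∀ g ∈ P, aeval y' g = 0 := by
    intro g hg
    rw [hy', ← hcomp, hx']
    exact Pool.Agent.H5.DG.eval_ratio_mem Q hQ hj₁c (hPQ α' g hg)
  have hy'reg : ∀ a, 0 ≤ E.ord (y' a) := by
    intro a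
    rw [hy', hx']
    exact Sub3_ord_poly E hreg₁ _
  have hy'a' : E.ord (y' a') = 0 := by
    rw [hy', hx']
    exact ha'
  obtain ⟨V', hV'⟩ : ∃ V' : Fin (r + 1) → FunField Q, V' = fun b => aeval y' (Bf b) :=
    ⟨_, rfl⟩
  have hV'reg : ∀ b, 0 ≤ E.ord (V' b) := by
    intro b
    rw [hV']
    exact Sub3_ord_poly E hy'reg _
  obtain ⟨b₁, hb₁⟩ := point_unit E hB hy'P hy'reg hy'a'
  have hb₁' : E.ord (V' b₁) = 0 := by
    rw [hV']
    exact hb₁
  -- the two points are proportional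
  obtain ⟨e', he'⟩ := hR.morphism.hom α'
  obtain ⟨μ, hμ0, hμ⟩ : ∃ μ : FunField Q, μ ≠ 0 ∧ ∀ a, y' a = μ * y a := by
    obtain ⟨y'', hy''⟩ : ∃ y'' : Fin (M + 1) → FunField Q, y'' = fun a => aeval x (F α' a) :=
      ⟨_, rfl⟩
    have h1 : ∀ a, y' a = (x j₁)⁻¹ ^ e' * y'' a := by
      intro a
      rw [hy', hy'', hx']
      refine Pool.Agent.H5.DG.aeval_eq_pow_mul (he' a) fun i => ?_
      rw [hxx, div_eq_inv_mul]
    have h2 : ∀ a, y'' a * y a₀ = y'' a₀ * y a := by
      intro a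
      have h3 := Pool.Agent.H5.DG.eval_ratio_mem Q hQ hj₀
        (hIQ (hR.morphism.compat α' α a a₀))
      rw [← hx, map_sub, map_mul, map_mul, sub_eq_zero] at h3
      rw [hy'', hy]
      exact h3
    have h3 : y'' a₀ ≠ 0 := by
      intro hcon
      have h4 : y'' a' = 0 := by
        have h5 := h2 a'
        rw [hcon, zero_mul] at h5
        exact (mul_eq_zero.1 h5).resolve_right hya₀
      rw [h1, h4, mul_zero, E.ord.map_zero] at hy'a'
      exact absurd hy'a' (by simp)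
    refine ⟨(x j₁)⁻¹ ^ e' * (y'' a₀ / y a₀),
      mul_ne_zero (pow_ne_zero _ (inv_ne_zero hx₁)) (div_ne_zero h3 hya₀), fun a => ?_⟩
    rw [h1, mul_assoc]
    congr 1
    rw [div_mul_eq_mul_div, ← h2, mul_div_cancel_right₀ _ hya₀]
  have hVV : ∀ b, V' b = μ ^ e₀ * V b := by
    intro b
    rw [hV', hV]
    exact Pool.Agent.H5.DG.aeval_eq_pow_mul (hB.hom b) hμ
  have hVb : V b ≠ 0 := by
    intro hcon
    apply hvb
    rw [hv]
    show V b / V b₀ = 0
    rw [hcon, zero_div]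
  have hV'b : V' b ≠ 0 := by
    rw [hVV]
    exact mul_ne_zero (pow_ne_zero _ hμ0) hVb
  have hquot : ∀ a, (v b)⁻¹ * v a = V' a / V' b := by
    intro a
    rw [hVV, hVV, mul_div_mul_left _ _ (pow_ne_zero _ hμ0), hv]
    show (V b / V b₀)⁻¹ * (V a / V b₀) = V a / V b
    field_simp
  have hordb : E.ord (V' b) = 0 := by
    have h1 := hreg b₁
    rw [hquot] at h1
    have h2 : E.ord (V' b₁ / V' b) + E.ord (V' b) = E.ord (V' b₁) := by
      rw [← E.ord.map_mul, div_mul_cancel₀ _ hV'b]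
    rw [hb₁'] at h2
    refine le_antisymm ?_ (hV'reg b)
    calc E.ord (V' b) ≤ E.ord (V' b₁ / V' b) + E.ord (V' b) := le_add_of_nonneg_left h1
      _ = 0 := h2
  have hsum : ∑ a, algebraMap ℂ (FunField Q) (p j a) * ((v b)⁻¹ * v a) =
      algebraMap ℂ (FunField Q) (c j) * aeval x' (aeval (F α') (G (σ j))) / V' b := by
    have h1 : ∑ a, algebraMap ℂ (FunField Q) (p j a) * ((v b)⁻¹ * v a) =
        aeval y' (comb (p j) Bf) / V' b := by
      unfold comb
      rw [map_sum, Finset.sum_div]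
      refine Finset.sum_congr rfl fun a _ => ?_
      rw [hquot, map_mul, aeval_C, mul_div_assoc, hV']
    have h2 := hy'P _ (hG j)
    rw [map_sub, map_mul, aeval_C, sub_eq_zero] at h2
    rw [h1, ← h2, hcomp, ← hy']
  have hord := ord_pullback hR hGh Q hQ hIQ hE hj₁c hreg₁ ha' (σ j)
  rw [← hx'] at hord
  have hfin : E.ord (∑ a, algebraMap ℂ (FunField Q) (p j a) * ((v b)⁻¹ * v a)) =
      E.ord (aeval x' (aeval (F α') (G (σ j)))) := by
    rw [hsum, Sub3_ord_div E hordb, E.ord.map_mul, Sub3_ord_const E (hc j), zero_add]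
  rw [hfin]
  exact hord

end Pool.Agent.H5.DG3

end
end

section

/-!
# Project DG3, module Asm: the theorem on morphisms, from the statements on hyperplanes
-/

open MvPolynomial Filter Topology
open Pool.Agent.H17 (PN VanishesAt zeroLocus ZariskiClosedIn HolomorphicInto puncturedDisc)
open Pool.Agent.H17GT (coordFun)
open Pool.Agent.H17LG.Variety (FunField ratio IsLogGeneralType)
open Pool.Agent.H23.Fano (PrimeDivisorOver)
open Pool.Agent.H5.DG (Homog variety BaseFree comb OrbifoldSection isOpen_puncturedDisc LangProperties unionImages_subset entireCurves unionNotGeneralType)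
open Pool.Agent.H62.FC (specialSet closureIn IsGeneralType)

noncomputable section

namespace Pool.Agent.H5.DG3

/-- **The theorem on morphisms**, from the statements on hyperplanes. -/
theorem MorphismTheorem.of_linearField {q m m' M r e₀ k : ℕ}
    {P : Ideal (MvPolynomial (Fin (M + 1)) ℂ)} [P.IsPrime] (hP : Homog P)
    {Bf : Fin (r + 1) → MvPolynomial (Fin (M + 1)) ℂ} (hB : BaseFree P e₀ Bf)
    {G : Fin m → MvPolynomial (Fin (M + 1)) ℂ} (hGh : ∀ j, ∃ d, (G j).IsHomogeneous d)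
    {p : Fin m' → Fin (r + 1) → ℂ} {Δ : MvPolynomial (Fin (r + 1)) ℂ} (hk : Δ.IsHomogeneous k)
    (h : LinearField q p Δ) {σ : Fin m' → Fin m} {c : Fin m' → ℂ} (hc : ∀ j, c j ≠ 0)
    (hG : ∀ j, C (c j) * G (σ j) - comb (p j) Bf ∈ P) (hΔ : aeval Bf Δ ∉ P) :
    MorphismTheorem q P G (aeval Bf Δ) where
  orbifold := OrbifoldSection.of_orbExt hP hB hk h.orb hc hG
  morphisms := by
    intro N s I _ B Z F hR
    have hΔh : (aeval Bf Δ).IsHomogeneous (e₀ * k) := hk.aeval _ hB.hom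
    have horb : OrbifoldSection q P G (aeval Bf Δ) :=
      OrbifoldSection.of_orbExt hP hB hk h.orb hc hG
    have hcl : ZariskiClosedIn (variety I \ B) (excSet I B Z F (aeval Bf Δ)) :=
      excSet_closed hR.homog hR.closedZ hR.morphism hΔh
    have hpic : ∀ f : ℂ → PN N, HolomorphicInto f puncturedDisc →
        (∀ z ∈ puncturedDisc, f z ∈ variety I \ B) →
        (∃ z ∈ puncturedDisc, f z ∉ excSet I B Z F (aeval Bf Δ)) →
        ∃ g : ℂ → PN N, HolomorphicInto g (Metric.ball 0 1) ∧ ∀ z ∈ puncturedDisc, g z = f z := by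
      rintro f hf hfU ⟨z₀, hz₀, hne⟩
      have hmh := morph_holomorphic hR.morphism hR.homog (fun x hx => hx.1)
        isOpen_puncturedDisc hf hfU
      refine extends_of_morph hR.homog hR.closedB hR.closedZ hR.morphism hR.finite hf hfU
        ⟨z₀, hz₀, fun hcon => hne ⟨hfU z₀ hz₀, Or.inl hcon⟩⟩ ?_
      refine horb.picard _ hmh (fun z hz => hR.maps _ (hfU z hz)) (fun j => ?_)
        ⟨z₀, hz₀, fun hcon => hne ⟨hfU z₀ hz₀, Or.inr hcon⟩⟩
      obtain ⟨d, hd⟩ := hGh j
      exact meetsForm_morph hR.morphism hR.homog (fun x hx => hx.1) isOpen_puncturedDisc hf hfU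
        hd fun z hz => hR.mult _ (hfU z hz) j
    have hhyp : Hyperbolic I B (excSet I B Z F (aeval Bf Δ)) :=
      ⟨hpic, fun f hf hfU hne z w => brody_of_picard_closed hcl hpic hf hfU hne z w,
        fun Q _ hQ hIQ hQΞ w hw hz => strongly_of_linearField hP hB hGh hk h hc hG hR Q hQ hIQ
          hQΞ hw hz⟩
    refine ⟨hhyp, fun w hw hz => ⟨fun hzP hUZ => ?_, fun hne => hhyp.four hR.homog hcl hne hw hz⟩⟩
    exact not_subset_of_dim hP hR hw hz hzP hUZ hΔh hΔ

/-! ### Projective varieties -/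

theorem not_centreIn_empty {N w : ℕ} (Q : Ideal (MvPolynomial (Fin (N + 1)) ℂ)) [Q.IsPrime]
    (E : PrimeDivisorOver (FunField Q) w) : ¬ CentreIn Q (∅ : Set (PN N)) E := by
  rintro ⟨j, -, -, h⟩
  have h1 := h 1 0 (isHomogeneous_one _ _) fun x hx => absurd hx (Set.notMem_empty x)
  rw [map_one, E.ord.map_one] at h1
  exact lt_irrefl _ h1

theorem isGeneralType_of_empty {N w : ℕ} {Q : Ideal (MvPolynomial (Fin (N + 1)) ℂ)} [Q.IsPrime]
    (h : LogGeneralType Q (∅ : Set (PN N)) w) : IsGeneralType (FunField Q) w := by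
  obtain ⟨m, hm, ω, hω, r, f, hf, h1, h2⟩ := h
  exact ⟨m, hm, ω, hω, r, f, hf, fun i E => (h1 i E).1 (not_centreIn_empty Q E), h2⟩

/-- **Lang's conjecture** for the projective variety given by `I`. -/
theorem Hyperbolic.lang {N : ℕ} {I : Ideal (MvPolynomial (Fin (N + 1)) ℂ)} [I.IsPrime]
    (hI : Homog I) {Ξ : Set (PN N)} (h : Hyperbolic I ∅ Ξ) (hΞ : ZariskiClosedIn (variety I) Ξ)
    (hne : ¬ (variety I ⊆ Ξ)) {w : ℕ} (hw : 1 ≤ w)
    (hz : ∃ z : Fin w → FunField I, IsTranscendenceBasis ℂ z) : LangProperties I w Ξ := by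
  have hdiff : ∀ Q : Ideal (MvPolynomial (Fin (N + 1)) ℂ), variety Q \ (∅ : Set (PN N)) =
    variety Q := fun Q => Set.sdiff_empty
  have hcl : ∀ S : Set (PN N), S ⊆ Ξ → closureIn (variety I) S ⊆ Ξ := by
    intro S hS x hx
    obtain ⟨T, hT, hTΞ⟩ := hΞ
    rw [hTΞ] at hS ⊢
    refine ⟨hx.1, fun R hR => ?_⟩
    obtain ⟨d, hd⟩ := hT R hR
    exact hx.2 d R hd fun y hy => (hS hy).2 R hR
  have hbrody : ∀ f : ℂ → PN N, HolomorphicInto f Set.univ → (∀ z, f z ∈ variety I) →
      (∃ z, f z ∉ Ξ) → ∀ z w, f z = f w := fun f hf hfX hne =>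
    h.brody f hf (by rw [hdiff]; exact hfX) hne
  refine ⟨isGeneralType_of_empty (h.strongly I hI le_rfl (by rwa [hdiff]) w hw hz), hΞ,
    fun hcon => hne (by rw [hcon]), hcl _ (unionImages_subset hbrody), hcl _ ?_, hcl _ ?_⟩
  · rintro _ ⟨f, hf, hfX, ⟨z, w, hzw⟩, y, rfl⟩
    by_contra hcon
    exact hzw (hbrody f hf hfX ⟨y, hcon⟩ z w)
  · rintro x ⟨Q, _, w, hQ, hIQ, hw, hz', hng, hx⟩
    by_contra hcon
    refine hng (isGeneralType_of_empty (h.strongly Q hQ hIQ (fun hsub => hcon ?_) w hw hz'))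
    exact hsub ⟨hx, Set.notMem_empty x⟩

end Pool.Agent.H5.DG3

end
end

section

/-!
# Project DG4, module CIMap: the map given by the `x_j ^ e * L_j (x)`

`F b = ∑ j, ρ b j • X j ^ e * L j` with the left inverse `ρ` of `exists_inverse` (module
`Pool.Agent.H5.DG.F1`).  At a point `v` of the cone of `I` the vector `y j = v j ^ e * L j (v)` lies in the
kernel of `a`, so `y j = dot (l j) w` and `F b (v) = w b`: `mem_of_forall` (module FinalDefs) gives `hlin`,
`baseFree_of_points` (module IntBase) gives `BaseFree`.  See `diag_data_of` in module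
`Pool.Agent.H5.DG.Final`.
`ci_ramified`: `τ = ∏ j ∈ J, (X j * L j) ^ (e + s)`, `k = e + s`, `a = (1 + s) * J.card`, `T = 1`;
`(X j * L j) ^ e = (X j ^ e * L j) * L j ^ (e - 1)` lies in `span {linearForm (l j) (F)} ⊔ I`;
`form_integral`.  `totalDegree = 1` for the nonzero linear forms.
-/

open MvPolynomial
open Pool.Agent.H17 (PN VanishesAt)
open Pool.Agent.H5.DG
open Pool.Agent.H5.DG3 (IsMorphism morph)

noncomputable section

namespace Pool.Agent.H5.DG4

variable {N c n e s : ℕ} {a : Fin c → Fin (N + 1) → ℂ} {L : Fin (N + 1) → MvPolynomial (Fin (N + 1)) ℂ}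
  {l : Fin (N + 1) → Fin (n + 2) → ℂ} {I : Ideal (MvPolynomial (Fin (N + 1)) ℂ)}

theorem exists_ciMap [I.IsPrime] (hc : c + (n + 1) = N) (he : 2 ≤ e)
    (hL : ∀ j, (L j).IsHomogeneous s) (hl : GenPos l)
    (hker : ∀ y : Fin (N + 1) → ℂ, (∀ i, ∑ j, a i j * y j = 0) ↔
      ∃ v : Fin (n + 2) → ℂ, ∀ j, y j = dot (l j) v)
    (hf : ∀ i, ciForm a e L i ∈ I)
    (hne : ∀ v : Fin (N + 1) → ℂ, v ≠ 0 → (∀ Q ∈ I, eval v Q = 0) → ∃ j, eval v (X j * L j) ≠ 0) :
    ∃ F : Fin (n + 2) → MvPolynomial (Fin (N + 1)) ℂ, BaseFree I (e + s) F ∧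
      ∀ j, X j ^ e * L j - aeval F (linearForm (l j)) ∈ I := by
  classical
  have hle : n + 2 ≤ N + 1 := by omega
  obtain ⟨ρ, hρ⟩ := exists_inverse hle hl
  set F : Fin (n + 2) → MvPolynomial (Fin (N + 1)) ℂ :=
    fun b => ∑ j, C (ρ b j) * (X j ^ e * L j) with hFdef
  have hFhom : ∀ b, (F b).IsHomogeneous (e + s) := by
    intro b
    refine MvPolynomial.IsHomogeneous.sum _ _ _ fun j _ => ?_
    exact ((isHomogeneous_X_pow j e).mul (hL j)).C_mul _
  have hcone : ∀ v : Fin (N + 1) → ℂ, (∀ Q ∈ I, eval v Q = 0) →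
      ∃ w : Fin (n + 2) → ℂ, (∀ j, v j ^ e * eval v (L j) = dot (l j) w) ∧
        ∀ b, eval v (F b) = w b := by
    intro v hv
    have h1 : ∀ i, ∑ j, a i j * (v j ^ e * eval v (L j)) = 0 := by
      intro i
      have h2 := hv _ (hf i)
      unfold ciForm at h2
      rw [map_sum] at h2
      rw [← h2]
      refine Finset.sum_congr rfl fun j _ => ?_
      rw [map_mul, map_mul, map_pow, eval_C, eval_X]
    obtain ⟨w, hw⟩ := (hker fun j => v j ^ e * eval v (L j)).1 h1
    refine ⟨w, hw, fun b => ?_⟩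
    have h3 : eval v (F b) = ∑ j, ρ b j * (v j ^ e * eval v (L j)) := by
      rw [hFdef]
      simp only
      rw [map_sum]
      refine Finset.sum_congr rfl fun j _ => ?_
      rw [map_mul, map_mul, map_pow, eval_C, eval_X]
    rw [h3, hρ w b]
    exact Finset.sum_congr rfl fun j _ => by rw [hw j]
  refine ⟨F, baseFree_of_points (by omega) hFhom fun v hv0 hv => ?_, fun j => ?_⟩
  · obtain ⟨w, hw, hFw⟩ := hcone v hv
    obtain ⟨j, hj⟩ := hne v hv0 hv
    rw [map_mul, eval_X] at hj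
    have h1 : dot (l j) w ≠ 0 := by
      rw [← hw j]
      exact mul_ne_zero (pow_ne_zero _ (left_ne_zero_of_mul hj)) (right_ne_zero_of_mul hj)
    by_contra hcon
    push Not at hcon
    refine h1 ?_
    unfold dot
    refine Finset.sum_eq_zero fun b _ => ?_
    rw [← hFw b, hcon b, mul_zero]
  · refine mem_of_forall I fun v hv => ?_
    obtain ⟨w, hw, hFw⟩ := hcone v hv
    rw [map_sub, map_mul, map_pow, eval_X, hw j]
    unfold linearForm dot
    rw [map_sum, map_sum, sub_eq_zero]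
    refine Finset.sum_congr rfl fun b _ => ?_
    rw [map_mul, map_mul, aeval_C, aeval_X, hFw b]
    simp

private theorem totalDegree_linearForm {r : ℕ} {t : Fin (r + 1) → ℂ} (ht : t ≠ 0) :
    (linearForm t).totalDegree = 1 := by
  refine (linearForm_isHomogeneous t).totalDegree ?_
  intro hcon
  refine ht (funext fun b => ?_)
  have h1 := congrArg (eval (Pi.single b (1 : ℂ))) hcon
  unfold linearForm at h1
  rw [map_sum, map_zero] at h1
  rw [Finset.sum_eq_single b] at h1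
  · simpa using h1
  · intro b' _ hb'
    rw [map_mul, eval_X, Pi.single_eq_of_ne hb', mul_zero]
  · intro h
    exact absurd (Finset.mem_univ _) h

theorem ci_ramified {A N₀ : ℕ} (he : 2 ≤ e) (hes : e + s ≤ A * (e - 1))
    (hL : ∀ j, (L j).IsHomogeneous s) (hl : ∀ j, l j ≠ 0) (hI : Homog I)
    {F : Fin (n + 2) → MvPolynomial (Fin (N + 1)) ℂ} (hF : BaseFree I (e + s) F)
    (hlin : ∀ j, X j ^ e * L j - aeval F (linearForm (l j)) ∈ I) {J : Finset (Fin (N + 1))}
    (hJ : GoodSet N₀ (⊥ : Ideal (MvPolynomial (Fin (n + 2)) ℂ)) (fun j => linearForm (l j)) J) :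
    RamifiedSection A N₀ ⊥ (fun j => linearForm (l j)) I ∅ (fun _ : Fin 1 => F)
      ((1 + s) * J.card) fun _ => ∏ j ∈ J, (X j * L j) ^ (e + s) := by
  classical
  have hτ : (∏ j ∈ J, (X j * L j) ^ (e + s)).IsHomogeneous ((e + s) * ((1 + s) * J.card)) := by
    have h1 : (∏ j ∈ J, (X j * L j) ^ (e + s)).IsHomogeneous (∑ _j ∈ J, (1 + s) * (e + s)) := by
      refine MvPolynomial.IsHomogeneous.prod _ _ _ fun j _ => ?_
      exact ((isHomogeneous_X ℂ j).mul (hL j)).pow _
    have h2 : ∑ _j ∈ J, (1 + s) * (e + s) = (e + s) * ((1 + s) * J.card) := by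
      rw [Finset.sum_const, smul_eq_mul]
      ring
    rwa [h2] at h1
  refine ⟨⟨fun _ => ⟨e + s, hF.hom, hτ⟩, fun α β b => ?_, ?_⟩, e + s, J, by omega, hJ, ?_, ?_⟩
  · rw [sub_self]
    exact I.zero_mem
  · obtain ⟨m, c, h1, h2⟩ := form_integral hI hF hτ
    exact ⟨m, c, h1, fun _ => h2⟩
  · have h1 : ∑ j ∈ J, (linearForm (l j)).totalDegree = J.card := by
      rw [Finset.sum_congr rfl fun j _ => totalDegree_linearForm (hl j)]
      simp
    rw [h1]
    have h2 : A * (1 + s) ≤ (A - 1) * (e + s) := by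
      obtain ⟨e', rfl⟩ : ∃ e', e = e' + 2 := ⟨e - 2, by omega⟩
      have h3 : e' + 2 - 1 = e' + 1 := by omega
      rw [h3] at hes
      obtain ⟨A', rfl⟩ : ∃ A', A = A' + 1 := by
        refine ⟨A - 1, ?_⟩
        rcases Nat.eq_zero_or_pos A with h | h
        · rw [h, zero_mul] at hes
          omega
        · omega
      rw [Nat.add_sub_cancel]
      nlinarith
    calc A * ((1 + s) * J.card) = (A * (1 + s)) * J.card := by ring
      _ ≤ ((A - 1) * (e + s)) * J.card := Nat.mul_le_mul_right _ h2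
      _ = (A - 1) * ((e + s) * J.card) := by ring
  · intro x hx
    obtain ⟨α, b, hb⟩ := (isMorphism_of_baseFree hI hF).base x hx
    refine ⟨0, ⟨b, hb⟩, 1, 0, isHomogeneous_one _ _, ?_, ?_⟩
    · intro h
      unfold VanishesAt at h
      rw [map_one] at h
      exact one_ne_zero h
    · rw [one_mul, Finset.prod_pow]
      refine Submodule.mem_sup_left (Ideal.pow_mem_pow (Ideal.prod_mem_prod fun j _ => ?_) _)
      refine ⟨e, ?_⟩
      obtain ⟨e', rfl⟩ : ∃ e', e = e' + 1 := ⟨e - 1, by omega⟩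
      have h1 : (X j * L j) ^ (e' + 1) = L j ^ e' * (aeval F (linearForm (l j)) +
          (X j ^ (e' + 1) * L j - aeval F (linearForm (l j)))) := by
        ring
      rw [h1]
      refine Ideal.mul_mem_left _ _ ?_
      exact Submodule.add_mem_sup (Ideal.subset_span rfl) (hlin j)

end Pool.Agent.H5.DG4

end
end

section

/-!
# Project DG4, module CI4: complete intersections given by the forms `∑ j, a i j * x j ^ e * L j (x)`

`partial_data`: the assumptions of the main theorem for hyperplanes in general position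
(`GenPos.pair` in module F1, `few_of_genPos`, `integralSection_linearForm`).
`ci_exc`: every `x ∈ variety I` has a `J = {j | eval x.rep (X j * L j) ≠ 0}` with at least
`N + 1 - (n + 1) ≥ N₀ * (n + 1)` elements (`few_of_genPos` for `F (x)`), a good set, so the section of `ci_ramified` does not
vanish at `x`; `vanishesAt_morph` (module `Pool.Agent.H5.DG3.Points`).
`ci_four`: `FiniteMorphism` from `isMorphism_of_baseFree`, `finite_fibre` (`variety ⊥` is everything);
`delta_notMem` (module `Pool.Agent.H5.DG.CovAlg`) gives a point (`exists_point` in module FinalDefs or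
`mem_of_forall`, `exists_X_notMem`); `PartialTheorem.morphisms`, `Hyperbolic.lang`
(module `Pool.Agent.H5.DG3.Asm`).
-/

open MvPolynomial
open Pool.Agent.H17 (PN VanishesAt)
open Pool.Agent.H17LG.Variety (FunField)
open Pool.Agent.H5.DG hiding FourProperties
open Pool.Agent.H5.DG3 (IsMorphism morph FourProperties)

noncomputable section

namespace Pool.Agent.H5.DG4

variable {N c n e s : ℕ} {a : Fin c → Fin (N + 1) → ℂ} {L : Fin (N + 1) → MvPolynomial (Fin (N + 1)) ℂ}
  {l : Fin (N + 1) → Fin (n + 2) → ℂ} {I : Ideal (MvPolynomial (Fin (N + 1)) ℂ)}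

private theorem ci4_eval_linearForm {r : ℕ} (l : Fin (r + 1) → ℂ) (v : Fin (r + 1) → ℂ) :
    eval v (linearForm l) = dot l v := by
  unfold linearForm dot
  rw [map_sum]
  exact Finset.sum_congr rfl fun a _ => by rw [map_mul, eval_C, eval_X]

theorem partial_data {m : ℕ} (hm : n + 2 ≤ m) {l : Fin m → Fin (n + 2) → ℂ} (hl : GenPos l) :
    (∀ i j, i ≠ j → ∀ c : ℂ, linearForm (l i) - C c * linearForm (l j) ∉
      (⊥ : Ideal (MvPolynomial (Fin (n + 2)) ℂ))) ∧
    (∀ j, IntegralSection (⊥ : Ideal (MvPolynomial (Fin (n + 2)) ℂ)) (linearForm (l j))) ∧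
    AtMostThrough (n + 1) (⊥ : Ideal (MvPolynomial (Fin (n + 2)) ℂ))
      fun j => linearForm (l j) := by
  classical
  obtain ⟨h0, h1⟩ := hl.pair hm
  refine ⟨fun i j hij c hcon => h1 i j hij ⟨c, ?_⟩, fun j => integralSection_linearForm (h0 j), ?_⟩
  · rw [Ideal.mem_bot] at hcon
    funext b
    have h2 := congrArg (eval (Pi.single b (1 : ℂ))) hcon
    rw [map_sub, map_mul, eval_C, map_zero, ci4_eval_linearForm, ci4_eval_linearForm] at h2
    have h3 : ∀ t : Fin (n + 2) → ℂ, dot t (Pi.single b (1 : ℂ)) = t b := by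
      intro t
      unfold dot
      rw [Finset.sum_eq_single b]
      · rw [Pi.single_eq_same, mul_one]
      · intro k _ hk
        rw [Pi.single_eq_of_ne hk, mul_zero]
      · intro h
        exact absurd (Finset.mem_univ _) h
    rw [h3, h3] at h2
    rw [Pi.smul_apply, smul_eq_mul]
    exact sub_eq_zero.1 h2
  · intro x _
    have h2 : {j | VanishesAt (linearForm (l j)) x} = {j | dot (l j) x.rep = 0} := by
      ext j
      change eval x.rep (linearForm (l j)) = 0 ↔ dot (l j) x.rep = 0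
      rw [ci4_eval_linearForm]
    rw [h2]
    exact few_of_genPos hl x.rep_nonzero

theorem ci_exc [I.IsPrime] {A N₀ : ℕ} (hm : n + 2 ≤ N + 1) (hN : (N₀ + 1) * (n + 1) ≤ N + 1)
    (he : 2 ≤ e)
    (hes : e + s ≤ A * (e - 1)) (hL : ∀ j, (L j).IsHomogeneous s) (hl : GenPos l)
    (hI : Homog I) {F : Fin (n + 2) → MvPolynomial (Fin (N + 1)) ℂ} (hF : BaseFree I (e + s) F)
    (hlin : ∀ j, X j ^ e * L j - aeval F (linearForm (l j)) ∈ I)
    {Δ : MvPolynomial (Fin (n + 2)) ℂ} {k : ℕ} (hk : Δ.IsHomogeneous k) :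
    excSet A N₀ ⊥ (fun j => linearForm (l j)) I ∅ ∅ (fun _ : Fin 1 => F) Δ =
      {x | x ∈ variety I ∧ VanishesAt (aeval F Δ) x} := by
  classical
  have hmor := isMorphism_of_baseFree hI hF
  ext x
  constructor
  · rintro ⟨hx, h⟩
    obtain ⟨α, hb⟩ := hmor.base x hx
    have key : ¬ ∀ a τ, RamifiedSection A N₀ ⊥ (fun j => linearForm (l j)) I ∅
        (fun _ : Fin 1 => F) a τ → ∀ α, VanishesAt (τ α) x := by
      intro hcon
      obtain ⟨w, hw⟩ : ∃ w : Fin (n + 2) → ℂ, w = fun b => eval x.rep (F b) := ⟨_, rfl⟩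
      have hw0 : w ≠ 0 := by
        intro h1
        obtain ⟨b, hb⟩ := hb
        apply hb
        change eval x.rep (F b) = 0
        have h2 := congrFun h1 b
        rw [hw] at h2
        exact h2
      have hval : ∀ j, eval x.rep (X j ^ e * L j) = dot (l j) w := by
        intro j
        have h1 := eval_of_mem hI x.rep_nonzero (by
          rw [x.mk_rep]
          exact hx.1) (hlin j)
        rw [map_sub, eval_aeval, ← hw, ci4_eval_linearForm] at h1
        exact sub_eq_zero.1 h1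
      obtain ⟨J, hJ⟩ : ∃ J : Finset (Fin (N + 1)),
        J = Finset.univ.filter fun j => eval x.rep (X j * L j) ≠ 0 := ⟨_, rfl⟩
      have hcard : N₀ * (n + 1) ≤ J.card := by
        have h1 := few_of_genPos hl hw0
        have h2 : Jᶜ.card ≤ n + 1 := by
          rw [← Set.ncard_coe_finset]
          refine le_trans (Set.ncard_le_ncard ?_ (Set.toFinite _)) h1
          intro j hj
          rw [Finset.mem_coe, Finset.mem_compl, hJ, Finset.mem_filter, not_and, not_not] at hj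
          have h3 := hj (Finset.mem_univ j)
          change dot (l j) w = 0
          rw [← hval, map_mul, map_pow, eval_X]
          rw [map_mul, eval_X] at h3
          rcases mul_eq_zero.1 h3 with h4 | h4
          · rw [h4, zero_pow (by omega), zero_mul]
          · rw [h4, mul_zero]
        rw [Finset.card_compl, Fintype.card_fin] at h2
        rw [add_mul, one_mul] at hN
        omega
      have hgood : GoodSet N₀ (⊥ : Ideal (MvPolynomial (Fin (n + 2)) ℂ))
          (fun j => linearForm (l j)) J := by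
        refine ⟨le_trans ?_ hcard, fun y _ => le_trans (Nat.mul_le_mul_left N₀ ?_) hcard⟩
        · calc N₀ = N₀ * 1 := (mul_one _).symm
            _ ≤ N₀ * (n + 1) := Nat.mul_le_mul_left _ (by omega)
        · refine le_trans (Set.ncard_le_ncard ?_ (Set.toFinite _))
            (few_of_genPos hl y.rep_nonzero)
          rintro j ⟨-, hj⟩
          change dot (l j) y.rep = 0
          rw [← ci4_eval_linearForm]
          exact hj
      have h1 := hcon _ _ (ci_ramified (N₀ := N₀) he hes hL (hl.pair (by omega)).1 hI hF hlin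
        hgood) 0
      change eval x.rep (∏ j ∈ J, (X j * L j) ^ (e + s)) = 0 at h1
      rw [map_prod, Finset.prod_eq_zero_iff] at h1
      obtain ⟨j, hj, h2⟩ := h1
      rw [map_pow] at h2
      rw [hJ, Finset.mem_filter] at hj
      exact hj.2 (pow_eq_zero_iff (by omega) |>.1 h2)
    rcases h with h | h | h
    · exact absurd h (Set.notMem_empty x)
    · refine ⟨hx.1, ?_⟩
      exact (Pool.Agent.H5.DG3.vanishesAt_morph (α := α) hmor hI hx.1 hk hb).1 h
    · exact absurd h key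
  · rintro ⟨hx, h⟩
    have hx' : x ∈ variety I \ (∅ : Set (PN N)) := ⟨hx, Set.notMem_empty x⟩
    obtain ⟨α, hb⟩ := hmor.base x hx'
    exact ⟨hx', Or.inr (Or.inl
      ((Pool.Agent.H5.DG3.vanishesAt_morph (α := α) hmor hI hx hk hb).2 h))⟩

theorem ci_four [I.IsPrime] {A N₀ k : ℕ} (hc : c + (n + 1) = N)
    (hN : (N₀ + 1) * (n + 1) ≤ N + 1) (he : 2 ≤ e) (hes : e + s ≤ A * (e - 1)) (hL : ∀ j, (L j).IsHomogeneous s) (hl : GenPos l)
    (hker : ∀ y : Fin (N + 1) → ℂ, (∀ i, ∑ j, a i j * y j = 0) ↔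
      ∃ v : Fin (n + 2) → ℂ, ∀ j, y j = dot (l j) v)
    (hI : Homog I) (hf : ∀ i, ciForm a e L i ∈ I)
    (hne : ∀ v : Fin (N + 1) → ℂ, v ≠ 0 → (∀ Q ∈ I, eval v Q = 0) → ∃ j, eval v (X j * L j) ≠ 0)
    (hz : ∃ z : Fin (n + 1) → FunField I, IsTranscendenceBasis ℂ z)
    {Δ : MvPolynomial (Fin (n + 2)) ℂ} (hk : Δ.IsHomogeneous k) (hΔ : Δ ≠ 0)
    (h : PartialTheorem A N₀ ⊥ (fun j => linearForm (l j)) Δ) :
    ∃ F : Fin (n + 2) → MvPolynomial (Fin (N + 1)) ℂ,
      FourProperties I ∅ (n + 1) {x | x ∈ variety I ∧ VanishesAt (aeval F Δ) x} ∧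
      LangProperties I (n + 1) {x | x ∈ variety I ∧ VanishesAt (aeval F Δ) x} := by
  obtain ⟨F, hF, hlin⟩ := exists_ciMap (I := I) hc he hL hl hker hf hne
  have hmor := isMorphism_of_baseFree hI hF
  have hcl : Pool.Agent.H17.ZariskiClosedIn Set.univ (∅ : Set (PN N)) := by
    refine ⟨{1}, ?_, ?_⟩
    · intro P hP
      rw [Set.mem_singleton_iff] at hP
      subst hP
      exact ⟨0, isHomogeneous_one _ _⟩
    · ext x
      constructor
      · intro hx
        exact absurd hx (Set.notMem_empty x)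
      · rintro ⟨-, hx⟩
        have h1 := hx 1 (Set.mem_singleton _)
        unfold VanishesAt at h1
        rw [map_one] at h1
        exact absurd h1 one_ne_zero
  have hfin : FiniteMorphism (⊥ : Ideal (MvPolynomial (Fin (n + 2)) ℂ)) I ∅ ∅
      (fun _ : Fin 1 => F) :=
    { homog := hI
      closedB := hcl
      closedZ := hcl
      morphism := hmor
      maps := by
        intro x _ Q hQ d _
        rw [Ideal.mem_bot] at hQ
        rw [hQ]
        unfold VanishesAt
        rw [map_zero]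
      finite := finite_fibre hI hF }
  have hexc := ci_exc (A := A) (N₀ := N₀) (by omega) hN he hes hL hl hI hF hlin hk
  obtain ⟨hhyp, hrest⟩ := h.morphisms N 1 I ∅ ∅ (fun _ => F) hfin
  rw [hexc] at hhyp hrest
  have hΔI : aeval F Δ ∉ I := delta_notMem I hI hF hz hΔ hk
  have hne' : ¬ (variety I ⊆ {x | x ∈ variety I ∧ VanishesAt (aeval F Δ) x}) := by
    intro hcon
    obtain ⟨x, hx, hne'⟩ := exists_point (P := I) (w := n + 1) (by omega) hz
      (O := (∅ : Finset (Fin 0))) (H := fun i => i.elim0) (e := 0) (fun i => i.elim0)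
      (fun i hi => absurd hi (Finset.notMem_empty i)) (hk.aeval _ hF.hom) hΔI
    exact hne' (hcon hx.1).2
  have hΞ : Pool.Agent.H17.ZariskiClosedIn (variety I)
      {x | x ∈ variety I ∧ VanishesAt (aeval F Δ) x} := by
    refine ⟨{aeval F Δ}, ?_, ?_⟩
    · intro P hP
      rw [Set.mem_singleton_iff] at hP
      subst hP
      exact ⟨_, hk.aeval _ hF.hom⟩
    · ext x
      simp
  refine ⟨F, (hrest (n + 1) (by omega) hz).2 ?_, hhyp.lang hI hΞ hne' (by omega) hz⟩
  rw [Set.sdiff_empty]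
  exact hne'

end Pool.Agent.H5.DG4

end
end
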