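import Pool.Agent.H94.DG.H5.DG.CovAlg
import Pool.Agent.H94.DG.M09
import Pool.Agent.H94.DG.M19
import Pool.Agent.H94.DG.M32
import Pool.Agent.H94.DG.M41
import Pool.Agent.H94.DG.M43
import Pool.Agent.H94.DG.M51

/-! The parts of this file: H39.SY.ChartAt, H39.SY.Slice, H39.SZ.Noe, H39.SY.Aff, H39.SY.Mult3. -/

section

/-!
# Project SY, module ChartAt: charts at smooth points

The proof of `Pool.Agent.H13.SM.exists_coneChart`, with the hypothesis on the tangent space only at
the given point.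
-/

open MvPolynomial Topology
open Pool.Agent.H17GT (coordFun)
open Pool.Agent.H17LG.Variety (FunField ratio)
open Pool.Agent.H5.DG (Homog)
open Pool.Agent.H13.SM (conTan pts)

noncomputable section

namespace Pool.Agent.H39.SY

variable {N : ℕ} {P : Ideal (MvPolynomial (Fin (N + 1)) ℂ)}

private theorem ChartAt_aeval_mem [P.IsPrime] (hP : Homog P) {l : Fin (N + 1)} (h : coordFun P l ≠ 0)
    {Q : MvPolynomial (Fin (N + 1)) ℂ} (hQ : Q ∈ P) : aeval (fun i => ratio P i l) Q = 0 := by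
  rw [← MvPolynomial.sum_homogeneousComponent Q, map_sum]
  refine Finset.sum_eq_zero fun d _ => ?_
  exact (Pool.Agent.H17R.gen_eq_zero_iff h (MvPolynomial.homogeneousComponent_isHomogeneous d Q)).2
    (hP Q hQ d)

private theorem ChartAt_eval_smul {Q : MvPolynomial (Fin (N + 1)) ℂ} {d : ℕ} (hQ : Q.IsHomogeneous d)
    (c : ℂ) (y : Fin (N + 1) → ℂ) : eval (c • y) Q = c ^ d * eval y Q := by
  have h1 := Pool.Agent.H92.GT.Proj.aeval_scale hQ (c := c) (x := y)
  have h2 : ∀ z : Fin (N + 1) → ℂ, aeval z Q = eval z Q := fun z => by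
    rw [MvPolynomial.aeval_eq_eval]
  rw [h2, h2] at h1
  exact h1

private theorem ChartAt_le (hP : Homog P) {c : ℂ} (hc : c ≠ 0) (x : Fin (N + 1) → ℂ) :
    conTan P x ≤ conTan P (c • x) := by
  intro v hv Q hQ
  have h1 : ∀ d, ∑ i, v i * eval (c • x) (pderiv i (homogeneousComponent d Q)) = 0 := by
    intro d
    have h2 := hv _ (hP Q hQ d)
    have h3 : ∀ i, eval (c • x) (pderiv i (homogeneousComponent d Q)) =
        c ^ (d - 1) * eval x (pderiv i (homogeneousComponent d Q)) := fun i =>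
      ChartAt_eval_smul ((homogeneousComponent_isHomogeneous d Q).pderiv) c x
    have h4 : ∑ i, v i * eval (c • x) (pderiv i (homogeneousComponent d Q)) =
        c ^ (d - 1) * ∑ i, v i * eval x (pderiv i (homogeneousComponent d Q)) := by
      rw [Finset.mul_sum]
      refine Finset.sum_congr rfl fun i _ => ?_
      rw [h3]
      ring
    rw [h4, h2, mul_zero]
  have h5 : ∀ i, eval (c • x) (pderiv i Q) = ∑ d ∈ Finset.range (Q.totalDegree + 1),
      eval (c • x) (pderiv i (homogeneousComponent d Q)) := by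
    intro i
    conv_lhs => rw [← sum_homogeneousComponent Q]
    rw [map_sum, map_sum]
  simp only [h5, Finset.mul_sum]
  rw [Finset.sum_comm]
  exact Finset.sum_eq_zero fun d _ => h1 d

theorem conTan_smul (hP : Homog P) {c : ℂ} (hc : c ≠ 0) (x : Fin (N + 1) → ℂ) :
    conTan P (c • x) = conTan P x := by
  refine le_antisymm ?_ (ChartAt_le hP hc x)
  have h1 := ChartAt_le hP (inv_ne_zero hc) (c • x)
  rwa [inv_smul_smul₀ hc] at h1

/-- Charts at smooth points. -/
theorem exists_chartAt [P.IsPrime] (hP : Homog P) {n : ℕ}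
    (hz : ∃ z : Fin n → FunField P, IsTranscendenceBasis ℂ z)
    {x : Fin (N + 1) → ℂ} (hx : x ∈ Zer P) (hsm : Module.finrank ℂ (conTan P x) ≤ n + 1)
    {l : Fin (N + 1)} (hl : x l ≠ 0) :
    ∃ (J : Fin n → Fin (N + 1)) (σ : (Fin n → ℂ) → Fin (N + 1) → ℂ), Chart P x l J σ := by
  obtain ⟨z, hz⟩ := hz
  have hXl : (X l : MvPolynomial (Fin (N + 1)) ℂ) ∉ P := by
    intro h
    have h1 := hx _ h
    rw [eval_X] at h1
    exact hl h1
  have hcf : coordFun P l ≠ 0 := Pool.Agent.H17R.coordFun_ne_zero_iff.2 hXl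
  obtain ⟨w, hw⟩ : ∃ w : Fin (N + 1) → ℂ, w = (x l)⁻¹ • x := ⟨_, rfl⟩
  have hwP : ∀ Q ∈ P, eval w Q = 0 := by
    rw [hw]
    exact Pool.Agent.H13.SM.cone_smul hP hx _
  have hwl : w l = 1 := by
    rw [hw, Pi.smul_apply, smul_eq_mul, inv_mul_cancel₀ hl]
  have hwk : ∀ i, x l * w i = x i := by
    intro i
    rw [hw, Pi.smul_apply, smul_eq_mul, mul_inv_cancel_left₀ hl]
  have hwx : x l • w = x := by
    rw [hw, smul_inv_smul₀ hl]
  have hwp : w ∈ pts (fun i => ratio P i l) := (Pool.Agent.H13.SM.mem_pts_iff hP hcf).2 ⟨hwl, hwP⟩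
  have hsmw : Module.finrank ℂ (conTan P w) ≤ n + 1 := by
    rw [hw, conTan_smul hP (inv_ne_zero hl)]
    exact hsm
  obtain ⟨f, hf, hli⟩ := Pool.Agent.H13.SM.exists_indep hsmw
  have hli' := Pool.Agent.H13.SM.indep_snoc hP hwP hwl hf hli
  have hnN : n ≤ N := Pool.Agent.H13.SM.trdeg_le hcf hz
  have hf' : ∀ j, aeval (fun i => ratio P i l)
      ((Fin.snoc f (X l - 1) : Fin (N - n + 1) → MvPolynomial (Fin (N + 1)) ℂ) j) = 0 := by
    intro j
    refine Fin.lastCases ?_ (fun j => ?_) j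
    · rw [Fin.snoc_last, map_sub, aeval_X, map_one, Pool.Agent.H17R.ratio_self hcf, sub_self]
    · rw [Fin.snoc_castSucc]
      exact ChartAt_aeval_mem hP hcf (hf j)
  obtain ⟨I, τ, hτa, hτ0, hτ1, hτ2, hτ3⟩ := Pool.Agent.H13.SM.exists_chart
    (Pool.Agent.H17R.adjoin_ratio hcf) hz (c := N - n + 1) (by rw [Fintype.card_fin]; omega)
    hf' hwp hli'
  refine ⟨I, fun u => x l • τ u, hl, ?_, ?_, ?_, ?_, ?_⟩
  · exact (analyticAt_const (v := x l)).smul hτa
  · simp only [hτ0]
    exact hwx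
  · filter_upwards [hτ1] with u hu
    obtain ⟨h1, h2⟩ := hu
    obtain ⟨h3, h4⟩ := (Pool.Agent.H13.SM.mem_pts_iff hP hcf).1 h1
    refine ⟨Pool.Agent.H13.SM.cone_smul hP h4 _, ?_, fun k => ?_⟩
    · rw [Pi.smul_apply, smul_eq_mul, h3, mul_one]
    · rw [Pi.smul_apply, smul_eq_mul, h2 k, mul_add, hwk]
  · have hc : ContinuousAt (fun y : Fin (N + 1) → ℂ => (y l)⁻¹ • y) x := by
      have h1 : ContinuousAt (fun y : Fin (N + 1) → ℂ => y l) x :=
        (continuous_apply l).continuousAt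
      exact (h1.inv₀ hl).smul continuousAt_id
    have hc' : Filter.Tendsto (fun y : Fin (N + 1) → ℂ => (y l)⁻¹ • y) (𝓝 x) (𝓝 w) := by
      rw [hw]
      exact hc
    have hne : ∀ᶠ y in 𝓝 x, (y : Fin (N + 1) → ℂ) l ≠ 0 :=
      (continuous_apply l).continuousAt.eventually_ne hl
    filter_upwards [hc'.eventually hτ2, hne] with y hy hyl hyP
    have h1 : (y l)⁻¹ • y ∈ pts (fun i => ratio P i l) := by
      rw [Pool.Agent.H13.SM.mem_pts_iff hP hcf]
      refine ⟨?_, Pool.Agent.H13.SM.cone_smul hP hyP _⟩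
      rw [Pi.smul_apply, smul_eq_mul, inv_mul_cancel₀ hyl]
    have h2 := hy h1
    have h3 : (fun k => ((y l)⁻¹ • y) (I k) - w (I k)) =
        fun k => y (I k) / y l - x (I k) / x l := by
      funext k
      rw [hw, Pi.smul_apply, Pi.smul_apply, smul_eq_mul, smul_eq_mul, div_eq_inv_mul,
        div_eq_inv_mul]
    rw [h3] at h2
    rw [← h2, smul_smul, smul_smul]
    have h4 : y l / x l * x l * (y l)⁻¹ = 1 := by
      field_simp
    rw [h4, one_smul]
  · intro d Q hQ hQP hev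
    have h1 : aeval (fun i => ratio P i l) Q ≠ 0 := fun h =>
      hQP ((Pool.Agent.H17R.gen_eq_zero_iff hcf hQ).1 h)
    refine hτ3 Q h1 ?_
    filter_upwards [hev] with u hu
    rw [ChartAt_eval_smul hQ] at hu
    exact (mul_eq_zero.1 hu).resolve_left (pow_ne_zero _ hl)

end Pool.Agent.H39.SY

end
end

section

/-!
# Project SY, module Slice: the tangent space of the slice `y b = 1`

`y` is in the tangent space `conTan (P ⊔ span {G}) y` of the cone (Euler's relation,
`Pool.Agent.H13.SM.euler` and `IsHomogeneous.sum_X_mul_pderiv` for `G`; note `eval y G = 0`), but not in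
that of `P ⊔ span {X b - 1} ⊔ span {G}`, in which all vectors satisfy `v b = 0`.  So the second space,
which is contained in the first one, has a smaller dimension (`Submodule.finrank_lt_finrank_of_lt`).
-/

open MvPolynomial
open Pool.Agent.H5.DG (Homog)
open Pool.Agent.H13.SM (conTan)

noncomputable section

namespace Pool.Agent.H39.SY

private theorem slice_mem_span {M : ℕ} {G : MvPolynomial (Fin (M + 1)) ℂ} {y v : Fin (M + 1) → ℂ}
    (hyG : eval y G = 0) (hv : ∑ i, v i * eval y (pderiv i G) = 0)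
    {Q : MvPolynomial (Fin (M + 1)) ℂ} (hQ : Q ∈ Ideal.span {G}) :
    ∑ i, v i * eval y (pderiv i Q) = 0 := by
  obtain ⟨r, rfl⟩ := Ideal.mem_span_singleton'.1 hQ
  have h1 : ∀ i, v i * eval y (pderiv i (r * G)) = eval y r * (v i * eval y (pderiv i G)) := by
    intro i
    rw [Derivation.leibniz, smul_eq_mul, smul_eq_mul, map_add, map_mul, map_mul, hyG, zero_mul, add_zero]
    ring
  rw [Finset.sum_congr rfl fun i _ => h1 i, ← Finset.mul_sum, hv, mul_zero]

theorem finrank_slice {M n d : ℕ} {P : Ideal (MvPolynomial (Fin (M + 1)) ℂ)} (hP : Homog P)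
    {G : MvPolynomial (Fin (M + 1)) ℂ} (hG : G.IsHomogeneous d) {y : Fin (M + 1) → ℂ}
    (hy : ∀ T ∈ P, eval y T = 0) (hyG : eval y G = 0) {b : Fin (M + 1)} (hb : y b = 1)
    (h : Module.finrank ℂ (conTan (P ⊔ Ideal.span {G}) y) ≤ n + 1) :
    Module.finrank ℂ (conTan (P ⊔ Ideal.span {X b - 1} ⊔ Ideal.span {G}) y) ≤ n := by
  have hle : conTan (P ⊔ Ideal.span {X b - 1} ⊔ Ideal.span {G}) y ≤ conTan (P ⊔ Ideal.span {G}) y :=
    fun v hv Q hQ => hv Q ((sup_le_sup_right le_sup_left _ :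
      P ⊔ Ideal.span {G} ≤ P ⊔ Ideal.span {X b - 1} ⊔ Ideal.span {G}) hQ)
  have hmem : y ∈ conTan (P ⊔ Ideal.span {G}) y := by
    intro Q hQ
    obtain ⟨p, hp, r, hr, rfl⟩ := Submodule.mem_sup.1 hQ
    have h1 : ∑ i, y i * eval y (pderiv i p) = 0 := Pool.Agent.H13.SM.euler hP hy hp
    have h2 : ∑ i, y i * eval y (pderiv i G) = 0 := by
      have h3 := congrArg (eval y) hG.sum_X_mul_pderiv
      rw [map_sum, map_nsmul, hyG, smul_zero] at h3
      simpa only [map_mul, eval_X] using h3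
    have h3 := slice_mem_span hyG h2 hr
    simp only [map_add, mul_add, Finset.sum_add_distrib, h1, h3, add_zero]
  have hnot : y ∉ conTan (P ⊔ Ideal.span {X b - 1} ⊔ Ideal.span {G}) y := by
    intro h1
    have h2 := h1 (X b - 1) ((le_sup_right.trans le_sup_left :
      Ideal.span {(X b - 1 : MvPolynomial (Fin (M + 1)) ℂ)} ≤ _) (Ideal.mem_span_singleton_self _))
    rw [Finset.sum_eq_single b] at h2
    · rw [map_sub, pderiv_X_self, pderiv_one, sub_zero, map_one, mul_one, hb] at h2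
      exact one_ne_zero h2
    · intro i _ hi
      rw [map_sub, pderiv_X_of_ne hi.symm, pderiv_one, sub_zero, map_zero, mul_zero]
    · intro h3
      exact absurd (Finset.mem_univ b) h3
  have hlt : conTan (P ⊔ Ideal.span {X b - 1} ⊔ Ideal.span {G}) y < conTan (P ⊔ Ideal.span {G}) y :=
    lt_of_le_of_ne hle fun h1 => hnot (h1 ▸ hmem)
  have h1 := Submodule.finrank_lt_finrank_of_lt hlt
  omega

end Pool.Agent.H39.SY

end
end

section

/-!
# Project SZ, module Noe: a Noether normalisation by quadratic forms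

`F = Fin.cons (X b ^ 2) (fun a => quad b (t a) (l a)) : Fin (r + 1) → _`, forms of degree `2` without
common zeros on `Zer P`: if all are zero at `y ∈ Zer P` then `y b = 0`, `l a y ^ 2 = 0` (`eval_quad`), so
`y = 0` by `hl`.  So `BaseFree P 2 F` (`Pool.Agent.H5.DG.BaseFree`): `base` is Hilbert's
Nullstellensatz: `X i` vanishes at all common zeros of the ideal `span (range F) ⊔ P` (the only
possible one is `0`), so `X i` is in its radical (`MvPolynomial.vanishingIdeal_zeroLocus_eq_radical`;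
there may be a ready lemma in the tree, see the uses of `BaseFree` in `Pool/Agent/H5/DG`,
`Pool.Agent.H17.PN` Nullstellensatz lemmas).

Let `x i = ratio P i b` (`coordFun P b ≠ 0` by `Pool.Agent.H17R.coordFun_ne_zero_iff`; `x b = 1`) and
`β a = aeval x (quad b (t a) (l a))`.  `Pool.Agent.H5.DG.exists_relation hP hF i`: `s ≥ 1` and forms
`c t`, `t : Fin s`, of degree `s - t`, with `(X i ^ 2) ^ s + ∑ t, aeval F (c t) * (X i ^ 2) ^ t ∈ P`.
Apply `aeval x`, which is zero on `P` (see the private lemma `ChartAt_aeval_mem` in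
`Pool.Agent.H39.SY.ChartAt`, or `mem_pts`): `(x i ^ 2) ^ s + ∑ t, aeval (Fin.cons 1 β) (c t) *
(x i ^ 2) ^ t = 0`, a monic equation for `x i` over `Algebra.adjoin ℂ (Set.range β)`, of degree
`2 s ≥ 2`.  So `x i` is integral (first `x i ^ 2`, then `IsIntegral.of_pow`).

`AlgebraicIndependent`: `FunField P` is generated by the `x i` (`Pool.Agent.H17R.adjoin_ratio`), which
are integral, so `FunField P` is algebraic over `Algebra.adjoin ℂ (Set.range β)` (copy the private lemma
`Noether_algebraic` of `Pool.Agent.H13.SM.Noether`), and the transcendence degree is `r`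
(`hz`) = the number of the `β a`: so they are independent (some of the `β a` form a transcendence
basis, `exists_isTranscendenceBasis_subset` or `Pool.Agent.H92.GT.exists_index` /
`Pool.Agent.H92.GT.isTranscendenceBasis_of` in `Pool.Agent.H92.GT.Index`, and it must be all of them).
-/

open MvPolynomial
open Pool.Agent.H17GT (coordFun)
open Pool.Agent.H17LG.Variety (FunField ratio)
open Pool.Agent.H5.DG (Homog BaseFree)
open Pool.Agent.H39.SY (Zer)

noncomputable section

namespace Pool.Agent.H39.SZ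

/-- The forms `X b ^ 2` and the quadratic forms. -/
private def Noe_F {M r : ℕ} (b : Fin (M + 1)) (t l : Fin r → Module.Dual ℂ (Fin (M + 1) → ℂ)) :
    Fin (r + 1) → MvPolynomial (Fin (M + 1)) ℂ :=
  Fin.cons (X b ^ 2) (fun a => quad b (t a) (l a))

private theorem Noe_base {M r : ℕ} {P : Ideal (MvPolynomial (Fin (M + 1)) ℂ)} {b : Fin (M + 1)}
    (t l : Fin r → Module.Dual ℂ (Fin (M + 1) → ℂ))
    (hl : ∀ y ∈ Zer P, y b = 0 → (∀ a, l a y = 0) → y = 0) : BaseFree P 2 (Noe_F b t l) where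
  pos := by norm_num
  hom := by
    intro a
    refine Fin.cases ?_ (fun a => ?_) a
    · rw [Noe_F, Fin.cons_zero]
      exact isHomogeneous_X_pow b 2
    · rw [Noe_F, Fin.cons_succ]
      exact quad_isHomogeneous b (t a) (l a)
  base := by
    intro i
    have h1 : (X i : MvPolynomial (Fin (M + 1)) ℂ) ∈
        (Ideal.span (Set.range (Noe_F b t l)) ⊔ P).radical := by
      rw [← MvPolynomial.vanishingIdeal_zeroLocus_eq_radical (K := ℂ),
        MvPolynomial.mem_vanishingIdeal_iff]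
      intro v hv
      rw [MvPolynomial.aeval_eq_eval]
      change eval v (X i) = 0
      rw [eval_X]
      have hv' : ∀ Q ∈ Ideal.span (Set.range (Noe_F b t l)) ⊔ P, eval v Q = 0 := fun Q hQ => by
        have h1 := hv Q hQ
        rwa [MvPolynomial.aeval_eq_eval] at h1
      have hF : ∀ a, eval v (Noe_F b t l a) = 0 := fun a =>
        hv' _ (Ideal.mem_sup_left (Ideal.subset_span ⟨a, rfl⟩))
      have hb0 : v b = 0 := by
        have h2 := hF 0
        rw [Noe_F, Fin.cons_zero, map_pow, eval_X] at h2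
        exact pow_eq_zero_iff (two_ne_zero) |>.1 h2
      have hla : ∀ a, l a v = 0 := by
        intro a
        have h2 := hF a.succ
        rw [Noe_F, Fin.cons_succ, eval_quad, hb0, zero_mul, zero_add] at h2
        exact pow_eq_zero_iff (two_ne_zero) |>.1 h2
      have h3 := hl v (fun Q hQ => hv' Q (Ideal.mem_sup_right hQ)) hb0 hla
      rw [h3, Pi.zero_apply]
    exact h1

private theorem Noe_aeval_mem {M : ℕ} {P : Ideal (MvPolynomial (Fin (M + 1)) ℂ)} [P.IsPrime] (hP : Homog P)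
    {l : Fin (M + 1)} (h : coordFun P l ≠ 0)
    {Q : MvPolynomial (Fin (M + 1)) ℂ} (hQ : Q ∈ P) : aeval (fun i => ratio P i l) Q = 0 := by
  rw [← MvPolynomial.sum_homogeneousComponent Q, map_sum]
  refine Finset.sum_eq_zero fun d _ => ?_
  exact (Pool.Agent.H17R.gen_eq_zero_iff h (MvPolynomial.homogeneousComponent_isHomogeneous d Q)).2
    (hP Q hQ d)

/-- A monic equation over a subalgebra. -/
private theorem Noe_monic {K : Type} [Field K] [Algebra ℂ K] (A : Subalgebra ℂ K) (s : ℕ) (e : Fin s → A)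
    (y : K) (h : y ^ s + ∑ t, (e t : K) * y ^ (t : ℕ) = 0) : IsIntegral A y := by
  refine ⟨Polynomial.X ^ s + ∑ t : Fin s, Polynomial.C (e t) * Polynomial.X ^ (t : ℕ),
    Polynomial.monic_X_pow_add (Polynomial.degree_sum_fin_lt _), ?_⟩
  rw [Polynomial.eval₂_add, Polynomial.eval₂_X_pow, Polynomial.eval₂_finsetSum]
  rw [← h]
  congr 1
  refine Finset.sum_congr rfl fun t _ => ?_
  rw [Polynomial.eval₂_mul, Polynomial.eval₂_C, Polynomial.eval₂_X_pow]
  rfl

private theorem Noe_algebraic {ι K : Type} [Field K] [Algebra ℂ K] {a : ι → K}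
    (ha : IntermediateField.adjoin ℂ (Set.range a) = ⊤) {s : ℕ} (b : Fin s → K)
    (hb : ∀ i, IsIntegral (Algebra.adjoin ℂ (Set.range b)) (a i)) :
    Algebra.IsAlgebraic (Algebra.adjoin ℂ (Set.range b)) K := by
  constructor
  intro x
  have hx : x ∈ IntermediateField.adjoin ℂ (Set.range a) := by
    rw [ha]; exact IntermediateField.mem_top
  induction hx using IntermediateField.adjoin_induction with
  | mem y hy =>
    obtain ⟨i, rfl⟩ := hy
    exact (hb i).isAlgebraic
  | algebraMap y =>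
    have h1 : algebraMap ℂ K y =
        algebraMap (Algebra.adjoin ℂ (Set.range b)) K (algebraMap ℂ (Algebra.adjoin ℂ (Set.range b)) y) := rfl
    rw [h1]
    exact isAlgebraic_algebraMap _
  | add y z _ _ hy hz => exact hy.add hz
  | inv y _ hy => exact hy.inv
  | mul y z _ _ hy hz => exact hy.mul hz

open scoped IntermediateField.algebraAdjoinAdjoin in
/-- `r` elements over which the field is algebraic are independent. -/
private theorem Noe_indep {K : Type} [Field K] [Algebra ℂ K] {r : ℕ} (b : Fin r → K)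
    (halg : Algebra.IsAlgebraic (Algebra.adjoin ℂ (Set.range b)) K)
    {z : Fin r → K} (hz : IsTranscendenceBasis ℂ z) : AlgebraicIndependent ℂ b := by
  have h1 : Algebra.IsAlgebraic (IntermediateField.adjoin ℂ (Set.range b)) K :=
    (IsFractionRing.comap_isAlgebraic_iff (A := Algebra.adjoin ℂ (Set.range b))
      (K := IntermediateField.adjoin ℂ (Set.range b)) (C := K)).mp halg
  obtain ⟨J, hJ⟩ := Pool.Agent.H92.GT.exists_index h1 hz
  have hinj : Function.Injective J := by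
    intro i j hij
    have h2 := hJ.1.injective
    exact h2 (by
      show b (J i) = b (J j)
      rw [hij])
  have hbij : Function.Bijective J := Finite.injective_iff_bijective.1 hinj
  obtain ⟨e, he⟩ : ∃ e : Fin r ≃ Fin r, ∀ i, e i = J i := ⟨Equiv.ofBijective J hbij, fun _ => rfl⟩
  have h3 := hJ.1.comp (e.symm : Fin r → Fin r) e.symm.injective
  have h4 : ((fun i => b (J i)) ∘ (e.symm : Fin r → Fin r)) = b := by
    funext i
    show b (J (e.symm i)) = b i
    rw [← he, Equiv.apply_symm_apply]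
  rwa [h4] at h3

theorem noether_quad {M r : ℕ} {P : Ideal (MvPolynomial (Fin (M + 1)) ℂ)} [P.IsPrime]
    (hP : Homog P) (hz : ∃ z : Fin r → FunField P, IsTranscendenceBasis ℂ z) {b : Fin (M + 1)}
    (hb : X b ∉ P) (t l : Fin r → Module.Dual ℂ (Fin (M + 1) → ℂ))
    (hl : ∀ y ∈ Zer P, y b = 0 → (∀ a, l a y = 0) → y = 0) :
    AlgebraicIndependent ℂ (fun a => aeval (fun i => ratio P i b) (quad b (t a) (l a))) ∧
      ∀ i, IsIntegral (Algebra.adjoin ℂ
        (Set.range fun a => aeval (fun i => ratio P i b) (quad b (t a) (l a)))) (ratio P i b) := by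
  have hcf : coordFun P b ≠ 0 := Pool.Agent.H17R.coordFun_ne_zero_iff.2 hb
  obtain ⟨x, hx⟩ : ∃ x : Fin (M + 1) → FunField P, x = fun i => ratio P i b := ⟨_, rfl⟩
  obtain ⟨β, hβ⟩ : ∃ β : Fin r → FunField P, β = fun a => aeval x (quad b (t a) (l a)) := ⟨_, rfl⟩
  have hxb : x b = 1 := by
    rw [hx]
    exact Pool.Agent.H17R.ratio_self hcf
  have hF := Noe_base (P := P) t l hl
  have hint : ∀ i, IsIntegral (Algebra.adjoin ℂ (Set.range β)) (x i) := by
    intro i
    obtain ⟨s, c, _, _, hrel⟩ := Pool.Agent.H5.DG.exists_relation hP hF i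
    refine IsIntegral.of_pow (n := 2) (by norm_num) ?_
    have hmem : ∀ Q : MvPolynomial (Fin (r + 1)) ℂ, aeval x (aeval (Noe_F b t l) Q) ∈
        Algebra.adjoin ℂ (Set.range β) := by
      intro Q
      have h1 : aeval x (aeval (Noe_F b t l) Q) = aeval (fun a => aeval x (Noe_F b t l a)) Q := by
        rw [← AlgHom.comp_apply, MvPolynomial.comp_aeval]
      rw [h1]
      have h2 : ∀ a, aeval x (Noe_F b t l a) ∈ Algebra.adjoin ℂ (Set.range β) := by
        intro a
        refine Fin.cases ?_ (fun a => ?_) a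
        · rw [Noe_F, Fin.cons_zero, map_pow, aeval_X, hxb, one_pow]
          exact one_mem _
        · rw [Noe_F, Fin.cons_succ]
          exact Algebra.subset_adjoin ⟨a, by rw [hβ]⟩
      induction Q using MvPolynomial.induction_on with
      | C a =>
        rw [aeval_C]
        exact Subalgebra.algebraMap_mem _ _
      | add p q hp hq =>
        rw [map_add]
        exact add_mem (hp (by rw [← AlgHom.comp_apply, MvPolynomial.comp_aeval])) (hq (by rw [← AlgHom.comp_apply, MvPolynomial.comp_aeval]))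
      | mul_X p n hp =>
        rw [map_mul, aeval_X]
        exact mul_mem (hp (by rw [← AlgHom.comp_apply, MvPolynomial.comp_aeval])) (h2 n)
    refine Noe_monic _ s (fun j => ⟨aeval x (aeval (Noe_F b t l) (c j)), hmem (c j)⟩) (x i ^ 2) ?_
    have h3 := Noe_aeval_mem hP hcf hrel
    rw [← hx, map_add, map_sum, map_pow, map_pow, aeval_X] at h3
    rw [← h3]
    congr 1
    refine Finset.sum_congr rfl fun j _ => ?_
    rw [map_mul, map_pow, map_pow, aeval_X]
  have halg := Noe_algebraic (a := x) (by rw [hx]; exact Pool.Agent.H17R.adjoin_ratio hcf) β hint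
  obtain ⟨z, hz⟩ := hz
  have hind := Noe_indep β halg hz
  rw [hβ, hx] at hind
  refine ⟨hind, ?_⟩
  rw [hβ, hx] at hint
  exact hint

end Pool.Agent.H39.SZ

end
end

section

/-!
# Project SY, module Aff: the affine expression of a morphism

`A ∈ I` is zero on `Zer I`.  `aff_mem`: `aeval_mem_of_maps` (module `DG3.Into`; `variety I \ ∅` is not
empty: the class of `x`), `eval_aeval`, and `P` is homogeneous (`Pool.Agent.H13.SM.cone_smul` with the
factor `(eval x (F α b))⁻¹`).  `aff_eq`, `base_ne`: `compat`.  `aff_smul`: homogeneity (`hom`).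
`exists_tuple`: `base` at the class of `x`, whose `rep` is a multiple of `x`
(`Pool.Agent.H17.vanishesAt_mk_iff`).  `aff_iff`: `morph_mk` (module `DG3.Points`),
`Projectivization.mk_eq_mk_iff'`, the coordinate `b`.
-/

open MvPolynomial
open Pool.Agent.H17 (PN VanishesAt)
open Pool.Agent.H5.DG (Homog variety)
open Pool.Agent.H5.DG3

noncomputable section

namespace Pool.Agent.H39.SY

variable {N M m s q : ℕ} {P : Ideal (MvPolynomial (Fin (M + 1)) ℂ)}
  {G : Fin m → MvPolynomial (Fin (M + 1)) ℂ} {I : Ideal (MvPolynomial (Fin (N + 1)) ℂ)}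
  {F : Fin s → Fin (M + 1) → MvPolynomial (Fin (N + 1)) ℂ}

private theorem Aff_eq_smul {A : Fin (M + 1) → MvPolynomial (Fin (N + 1)) ℂ}
    (x : Fin (N + 1) → ℂ) (b : Fin (M + 1)) :
    aff A b x = (eval x (A b))⁻¹ • (fun a => eval x (A a)) := by
  funext a
  simp only [aff, Pi.smul_apply, smul_eq_mul, div_eq_inv_mul]

private theorem Aff_eval_smul {L e : ℕ} {Q : MvPolynomial (Fin (L + 1)) ℂ} (hQ : Q.IsHomogeneous e)
    (c : ℂ) (v : Fin (L + 1) → ℂ) : eval (c • v) Q = c ^ e * eval v Q :=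
  Pool.Agent.H17.eval_smul_of_isHomogeneous hQ c v

private theorem Aff_mk_mem {x : Fin (N + 1) → ℂ} (hx : x ∈ Zer I) (hx0 : x ≠ 0) :
    (Projectivization.mk ℂ x hx0 : PN N) ∈ variety I \ ∅ :=
  ⟨fun Q hQ _ hk => (Pool.Agent.H17.vanishesAt_mk_iff hk x hx0).2 (hx Q hQ), fun h => h⟩

private theorem Aff_compat (h : RamifiedMorphism q P G I ∅ ∅ F) {x : Fin (N + 1) → ℂ}
    (hx : x ∈ Zer I) (α β : Fin s) (a b : Fin (M + 1)) :
    eval x (F α a) * eval x (F β b) = eval x (F α b) * eval x (F β a) := by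
  have h1 := hx _ (h.morphism.compat α β a b)
  rw [map_sub, map_mul, map_mul] at h1
  exact sub_eq_zero.1 h1

theorem aff_mem [I.IsPrime] (hP : Homog P) (h : RamifiedMorphism q P G I ∅ ∅ F)
    {x : Fin (N + 1) → ℂ} (hx : x ∈ Zer I) (hx0 : x ≠ 0) {α : Fin s} {b : Fin (M + 1)}
    (hb : eval x (F α b) ≠ 0) : aff (F α) b x ∈ Zer P := by
  have h1 : ∀ Q ∈ P, eval (fun a => eval x (F α a)) Q = 0 := by
    intro Q hQ
    rw [← Pool.Agent.H5.DG.eval_aeval]
    exact hx _ (aeval_mem_of_maps hP h.homog h.closedB ⟨_, Aff_mk_mem hx hx0⟩ h.morphism h.maps α hQ)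
  rw [Aff_eq_smul]
  exact Pool.Agent.H13.SM.cone_smul hP h1 _

theorem aff_self {A : Fin (M + 1) → MvPolynomial (Fin (N + 1)) ℂ} {x : Fin (N + 1) → ℂ}
    {b : Fin (M + 1)} (hb : eval x (A b) ≠ 0) : aff A b x b = 1 :=
  div_self hb

theorem aff_eq (h : RamifiedMorphism q P G I ∅ ∅ F) {x : Fin (N + 1) → ℂ} (hx : x ∈ Zer I)
    {α β : Fin s} {b : Fin (M + 1)} (hb : eval x (F α b) ≠ 0) (hb' : eval x (F β b) ≠ 0) :
    aff (F α) b x = aff (F β) b x := by
  funext a
  show eval x (F α a) / eval x (F α b) = eval x (F β a) / eval x (F β b)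
  rw [div_eq_div_iff hb hb', Aff_compat h hx α β a b, mul_comm]

theorem base_ne (h : RamifiedMorphism q P G I ∅ ∅ F) {x : Fin (N + 1) → ℂ} (hx : x ∈ Zer I)
    {α β : Fin s} {a b : Fin (M + 1)} (hb : eval x (F α b) ≠ 0) (ha : eval x (F β a) ≠ 0) :
    eval x (F β b) ≠ 0 := by
  intro h0
  have h1 := Aff_compat h hx α β a b
  rw [h0, mul_zero] at h1
  exact mul_ne_zero hb ha h1.symm

theorem aff_smul (h : RamifiedMorphism q P G I ∅ ∅ F) {c : ℂ} (hc : c ≠ 0)
    (x : Fin (N + 1) → ℂ) (α : Fin s) (b : Fin (M + 1)) :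
    aff (F α) b (c • x) = aff (F α) b x := by
  obtain ⟨e, he⟩ := h.morphism.hom α
  funext a
  show eval (c • x) (F α a) / eval (c • x) (F α b) = eval x (F α a) / eval x (F α b)
  rw [Aff_eval_smul (he a), Aff_eval_smul (he b),
    mul_div_mul_left _ _ (pow_ne_zero e hc)]

theorem eval_smul_ne (h : RamifiedMorphism q P G I ∅ ∅ F) {c : ℂ} (hc : c ≠ 0)
    (x : Fin (N + 1) → ℂ) (α : Fin s) (b : Fin (M + 1)) :
    eval (c • x) (F α b) ≠ 0 ↔ eval x (F α b) ≠ 0 := by
  obtain ⟨e, he⟩ := h.morphism.hom α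
  rw [Aff_eval_smul (he b)]
  exact ⟨fun h1 h2 => h1 (by rw [h2, mul_zero]), fun h1 => mul_ne_zero (pow_ne_zero e hc) h1⟩

theorem exists_tuple (h : RamifiedMorphism q P G I ∅ ∅ F) {x : Fin (N + 1) → ℂ} (hx : x ∈ Zer I)
    (hx0 : x ≠ 0) : ∃ α a, eval x (F α a) ≠ 0 := by
  obtain ⟨α, a, ha⟩ := h.morphism.base _ (Aff_mk_mem hx hx0)
  obtain ⟨e, he⟩ := h.morphism.hom α
  exact ⟨α, a, fun h0 => ha ((Pool.Agent.H17.vanishesAt_mk_iff (he a) x hx0).2 h0)⟩

/-- The forms `G` at the affine values. -/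
theorem eval_aff {g : MvPolynomial (Fin (M + 1)) ℂ} {d : ℕ} (hg : g.IsHomogeneous d)
    {A : Fin (M + 1) → MvPolynomial (Fin (N + 1)) ℂ} {x : Fin (N + 1) → ℂ} {b : Fin (M + 1)}
    (hb : eval x (A b) ≠ 0) :
    eval (aff A b x) g = (eval x (A b))⁻¹ ^ d * eval x (aeval A g) := by
  rw [Aff_eq_smul, Aff_eval_smul hg, Pool.Agent.H5.DG.eval_aeval]

end Pool.Agent.H39.SY

end
end

section

/-!
# Project SY, module Mult3: multiplicities along a chart

`x = σ u₀`.  The class of `x` is in `variety I \ ∅` (`Homog`, `vanishesAt_mk_iff`), `h.mult` gives a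
tuple `α'`, not zero at `x`, and a form `T`, `T (x) ≠ 0`, with
`T * L ∈ radical (span {L} ⊔ I) ^ 2 ⊔ I`, `L = aeval (F α') (G j)`.  As in
`Pool.Agent.H39.SX.fderiv_eq_zero_of_ramM` (module SX.Ram, model): `eval (σ u₀) L = 0` (the values
`F α' a` at `x` are proportional to the values `F α a`; `eval_aff`), all elements of the radical vanish
at `σ u₀`, so the derivative of `u ↦ eval (σ u) (T * L)` at `u₀` is zero, and so is that of
`u ↦ eval (σ u) L`.  Near `u₀` the function of the conclusion is `(eval (σ u) (F α' b))⁻¹ ^ d *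
eval (σ u) L` (`base_ne`, `aff_eq`, `eval_aff`), so its derivative at `u₀` is zero.
-/

open MvPolynomial Filter Topology
open Pool.Agent.H5.DG (Homog)
open Pool.Agent.H5.DG3

noncomputable section

namespace Pool.Agent.H39.SY

variable {N M m s n : ℕ} {P : Ideal (MvPolynomial (Fin (M + 1)) ℂ)}
  {G : Fin m → MvPolynomial (Fin (M + 1)) ℂ} {I : Ideal (MvPolynomial (Fin (N + 1)) ℂ)}
  {F : Fin s → Fin (M + 1) → MvPolynomial (Fin (N + 1)) ℂ}

private theorem Mult3_analytic {τ : (Fin n → ℂ) → Fin (N + 1) → ℂ} {u : Fin n → ℂ}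
    (hτ : AnalyticAt ℂ τ u) (g : MvPolynomial (Fin (N + 1)) ℂ) :
    AnalyticAt ℂ (fun u' => eval (τ u') g) u := by
  have h := AnalyticAt.aeval_mvPolynomial (f := τ) (z := u) (analyticAt_pi_iff.1 hτ) g
  simpa only [MvPolynomial.aeval_eq_eval] using h

private theorem Mult3_mul {τ : (Fin n → ℂ) → Fin (N + 1) → ℂ} {u : Fin n → ℂ}
    (hτ : AnalyticAt ℂ τ u) (a b : MvPolynomial (Fin (N + 1)) ℂ) :
    fderiv ℂ (fun u' => eval (τ u') (a * b)) u =
      eval (τ u) a • fderiv ℂ (fun u' => eval (τ u') b) u +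
        eval (τ u) b • fderiv ℂ (fun u' => eval (τ u') a) u := by
  have h : (fun u' => eval (τ u') (a * b)) = (fun u' => eval (τ u') a * eval (τ u') b) := by
    funext u'
    rw [map_mul]
  rw [h]
  exact fderiv_fun_mul (Mult3_analytic hτ a).differentiableAt (Mult3_analytic hτ b).differentiableAt

private theorem Mult3_add {τ : (Fin n → ℂ) → Fin (N + 1) → ℂ} {u : Fin n → ℂ}
    (hτ : AnalyticAt ℂ τ u) (a b : MvPolynomial (Fin (N + 1)) ℂ) :
    fderiv ℂ (fun u' => eval (τ u') (a + b)) u =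
      fderiv ℂ (fun u' => eval (τ u') a) u + fderiv ℂ (fun u' => eval (τ u') b) u := by
  have h : (fun u' => eval (τ u') (a + b)) = (fun u' => eval (τ u') a + eval (τ u') b) := by
    funext u'
    rw [map_add]
  rw [h]
  exact fderiv_fun_add (Mult3_analytic hτ a).differentiableAt (Mult3_analytic hτ b).differentiableAt

private theorem Mult3_form {τ : (Fin n → ℂ) → Fin (N + 1) → ℂ} {u : Fin n → ℂ}
    (hτ : AnalyticAt ℂ τ u) (hP : ∀ᶠ u' in 𝓝 u, ∀ Q ∈ I, eval (τ u') Q = 0)
    {L T : MvPolynomial (Fin (N + 1)) ℂ} (hT : eval (τ u) T ≠ 0)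
    (hTL : T * L ∈ (Ideal.radical (Ideal.span {L} ⊔ I)) ^ 2 ⊔ I)
    (h : eval (τ u) L = 0) : fderiv ℂ (fun u' => eval (τ u') L) u = 0 := by
  classical
  have hP0 : ∀ Q ∈ I, eval (τ u) Q = 0 := hP.self_of_nhds
  have hrad : Ideal.radical (Ideal.span {L} ⊔ I) ≤ RingHom.ker (eval (τ u)) := by
    refine ((RingHom.ker_isPrime (eval (τ u))).radical_le_iff).2 (sup_le ?_ fun Q hQ => ?_)
    · rw [Ideal.span_singleton_le_iff_mem]
      exact h
    · exact hP0 Q hQ
  have hsq : ∀ g ∈ Ideal.radical (Ideal.span {L} ⊔ I) * Ideal.radical (Ideal.span {L} ⊔ I),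
      fderiv ℂ (fun u' => eval (τ u') g) u = 0 := by
    intro g hg
    induction hg using Submodule.mul_induction_on' with
    | mem_mul_mem a ha b hb =>
      have h1 : eval (τ u) a = 0 := hrad ha
      have h2 : eval (τ u) b = 0 := hrad hb
      rw [Mult3_mul hτ, h1, h2]
      ext v
      simp
    | add a _ b _ ha hb => rw [Mult3_add hτ, ha, hb, add_zero]
  have hPd : ∀ g ∈ I, fderiv ℂ (fun u' => eval (τ u') g) u = 0 := by
    intro g hg
    have h1 : (fun u' => eval (τ u') g) =ᶠ[𝓝 u] fun _ => 0 := by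
      filter_upwards [hP] with u' hu'
      exact hu' g hg
    rw [h1.fderiv_eq]
    exact fderiv_const_apply 0
  obtain ⟨g₁, hg₁, g₂, hg₂, hg⟩ := Submodule.mem_sup.1 hTL
  rw [sq] at hg₁
  have h1 : fderiv ℂ (fun u' => eval (τ u') (T * L)) u = 0 := by
    rw [← hg, Mult3_add hτ, hsq g₁ hg₁, hPd g₂ hg₂, add_zero]
  rw [Mult3_mul hτ, h] at h1
  ext v
  have h2 := congrArg (fun L : (Fin n → ℂ) →L[ℂ] ℂ => L v) h1
  simpa [hT] using h2

theorem fderiv_eq_zero_of_mult {q : ℕ} (h : RamifiedMorphism q P G I ∅ ∅ F)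
    {g : MvPolynomial (Fin (M + 1)) ℂ} {d : ℕ} (hG : g.IsHomogeneous d)
    {σ : (Fin n → ℂ) → Fin (N + 1) → ℂ} {u₀ : Fin n → ℂ} (hσ : AnalyticAt ℂ σ u₀)
    (hσI : ∀ᶠ u in 𝓝 u₀, σ u ∈ Zer I) (hσ0 : σ u₀ ≠ 0)
    (hm : PullbackMult 2 I F g (Projectivization.mk ℂ (σ u₀) hσ0)) {α : Fin s}
    {b : Fin (M + 1)} (hb : eval (σ u₀) (F α b) ≠ 0) (h0 : eval (aff (F α) b (σ u₀)) g = 0) :
    fderiv ℂ (fun u => eval (aff (F α) b (σ u)) g) u₀ = 0 := by
  have hx : σ u₀ ∈ Zer I := hσI.self_of_nhds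
  obtain ⟨β, ⟨a, ha⟩, T, e, hTe, hT, hTL⟩ := hm
  obtain ⟨eβ, heβ⟩ := h.morphism.hom β
  have ha' : eval (σ u₀) (F β a) ≠ 0 := by
    intro h1
    exact ha ((Pool.Agent.H17.vanishesAt_mk_iff (heβ a) _ _).2 h1)
  have hT' : eval (σ u₀) T ≠ 0 := by
    intro h1
    exact hT ((Pool.Agent.H17.vanishesAt_mk_iff hTe _ _).2 h1)
  have hb' : eval (σ u₀) (F β b) ≠ 0 := base_ne h hx hb ha'
  have hL0 : eval (σ u₀) (aeval (F β) g) = 0 := by
    rw [aff_eq h hx hb hb', eval_aff hG hb'] at h0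
    exact (mul_eq_zero.1 h0).resolve_left (pow_ne_zero _ (inv_ne_zero hb'))
  have hd := Mult3_form hσ hσI hT' hTL hL0
  have hc1 : ∀ᶠ u in 𝓝 u₀, eval (σ u) (F α b) ≠ 0 :=
    (Mult3_analytic hσ (F α b)).continuousAt.eventually_ne hb
  have hc2 : ∀ᶠ u in 𝓝 u₀, eval (σ u) (F β b) ≠ 0 :=
    (Mult3_analytic hσ (F β b)).continuousAt.eventually_ne hb'
  have heq : (fun u => eval (aff (F α) b (σ u)) g) =ᶠ[𝓝 u₀]
      fun u => (eval (σ u) (F β b))⁻¹ ^ d * eval (σ u) (aeval (F β) g) := by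
    filter_upwards [hσI, hc1, hc2] with u hu h1 h2
    rw [aff_eq h hu h1 h2, eval_aff hG h2]
  rw [heq.fderiv_eq]
  have hA : DifferentiableAt ℂ (fun u => (eval (σ u) (F β b))⁻¹ ^ d) u₀ :=
    (((Mult3_analytic hσ (F β b)).inv hb').pow d).differentiableAt
  have hB : DifferentiableAt ℂ (fun u => eval (σ u) (aeval (F β) g)) u₀ :=
    (Mult3_analytic hσ _).differentiableAt
  rw [fderiv_fun_mul hA hB, hd, hL0]
  ext v
  simp only [ContinuousLinearMap.add_apply, ContinuousLinearMap.smul_apply, smul_eq_mul,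
    ContinuousLinearMap.zero_apply, mul_zero, zero_mul, add_zero]

end Pool.Agent.H39.SY

end
end
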