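import Pool.Agent.H94.DG.M45
import Pool.Agent.H94.DG.M47
import Pool.Agent.H94.DG.M48
import Pool.Agent.H94.DG.M52

/-! The parts of this file: H39.SZ.Lift4, H39.SY.Cover3, H5.DG4.Exc4. -/

section

/-!
# Project SZ, module Lift4: lifting with a Lipschitz estimate

`ℓ` from `exists_inf`, `τ`, `L` from `exists_tan`, `t a = τ a - (2 * ℓ a y) • ℓ a`,
`B a = quad b (t a) (ℓ a)`.  If `y' b = 1`: `eval y' (B a) - eval y (B a) = t a (y' - y) +
ℓ a y' ^ 2 - ℓ a y ^ 2 = τ a (y' - y) + ℓ a (y' - y) ^ 2` (`eval_quad`).  There is a constant `K ≥ 0` with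
`‖ℓ a v‖ ≤ K ‖v‖` for all `a`, `v` (finite dimension), so for `y'` near `y` on the slice
`‖y' - y‖ ≤ L (‖z - z₀‖ + K ^ 2 ‖y' - y‖ ^ 2)` with `z = B (y')`, `z₀ = B (y)` (replace `L` by `|L|`), and
if moreover `|L| * K ^ 2 * ‖y' - y‖ ≤ 1 / 2` then `‖y' - y‖ ≤ 2 |L| ‖z - z₀‖`.  Now
`Pool.Agent.H13.SM.open_at` (with `noether_quad`, `a i = ratio P i b`, `mem_pts_iff`; model: the end of
the proof of `exists_lift3` in `Pool.Agent.H39.SY.Hold3`) for the neighbourhood `V ∩` (this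
neighbourhood of `y`) gives `y'`.
-/

open MvPolynomial Filter Topology
open Pool.Agent.H17LG.Variety (FunField ratio)
open Pool.Agent.H5.DG (Homog)
open Pool.Agent.H39.SY (Zer)

noncomputable section

namespace Pool.Agent.H39.SZ

private theorem Lift4_bound {M n : ℕ} (l : Fin n → Module.Dual ℂ (Fin (M + 1) → ℂ)) :
    ∃ K : ℝ, 0 ≤ K ∧ ∀ a v, ‖l a v‖ ≤ K * ‖v‖ := by
  refine ⟨∑ a, ‖LinearMap.toContinuousLinearMap (l a)‖,
    Finset.sum_nonneg fun a _ => norm_nonneg _, fun a v => ?_⟩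
  have h1 := (LinearMap.toContinuousLinearMap (l a)).le_opNorm v
  refine h1.trans (mul_le_mul_of_nonneg_right ?_ (norm_nonneg _))
  exact Finset.single_le_sum (f := fun a => ‖LinearMap.toContinuousLinearMap (l a)‖)
    (fun j _ => norm_nonneg _) (Finset.mem_univ a)

theorem exists_lift4 {M n : ℕ} {P : Ideal (MvPolynomial (Fin (M + 1)) ℂ)} [P.IsPrime]
    (hP : Homog P) (hz : ∃ z : Fin n → FunField P, IsTranscendenceBasis ℂ z) {b : Fin (M + 1)}
    (hb : X b ∉ P) {y : Fin (M + 1) → ℂ} (hy : y ∈ Zer P) (hyb : y b = 1) :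
    ∃ (B : Fin n → MvPolynomial (Fin (M + 1)) ℂ) (L : ℝ),
      ∀ V ∈ 𝓝 y, ∀ᶠ z in 𝓝 (fun a => eval y (B a)), ∃ y' ∈ V, y' ∈ Zer P ∧ y' b = 1 ∧
        (∀ a, eval y' (B a) = z a) ∧ ‖y' - y‖ ≤ L * ‖z - fun a => eval y (B a)‖ := by
  have hcb : Pool.Agent.H17GT.coordFun P b ≠ 0 := Pool.Agent.H17R.coordFun_ne_zero_iff.2 hb
  obtain ⟨l, hl⟩ := exists_inf hP hz hb
  obtain ⟨τ, L, hτ⟩ := exists_tan hP hz hb hy hyb
  obtain ⟨hind, hint⟩ := noether_quad hP hz hb (fun a => τ a - (2 * l a y) • l a) l hl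
  have hya : y ∈ Pool.Agent.H13.SM.pts (fun i => ratio P i b) :=
    (Pool.Agent.H13.SM.mem_pts_iff hP hcb).2 ⟨hyb, hy⟩
  obtain ⟨K, hK0, hK⟩ := Lift4_bound l
  refine ⟨fun a => quad b (τ a - (2 * l a y) • l a) (l a), 2 * |L|, ?_⟩
  intro V hV
  have hU : {w : Fin (M + 1) → ℂ | (w ∈ Zer P → w b = 1 →
      ‖w - y‖ ≤ L * ‖fun a => τ a (w - y)‖) ∧ |L| * K ^ 2 * ‖w - y‖ ≤ 1 / 2} ∈ 𝓝 y := by
    have h1 : ∀ᶠ w in 𝓝 y, |L| * K ^ 2 * ‖w - y‖ ≤ 1 / 2 := by
      have h2 : ContinuousAt (fun w : Fin (M + 1) → ℂ => |L| * K ^ 2 * ‖w - y‖) y := by fun_prop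
      have h3 : |L| * K ^ 2 * ‖y - y‖ < 1 / 2 := by
        rw [sub_self, norm_zero, mul_zero]
        norm_num
      exact (h2.eventually_lt continuousAt_const h3).mono fun w hw => hw.le
    exact hτ.and h1
  have himg := Pool.Agent.H13.SM.open_at hind
    (B := fun a => quad b (τ a - (2 * l a y) • l a) (l a)) (fun _ => rfl) hint hya
    (Filter.inter_mem hV hU)
  filter_upwards [himg] with z hz1
  obtain ⟨y', ⟨hy'a, hy'V, hy'U⟩, hy'z⟩ := hz1
  obtain ⟨hy'b, hy'P⟩ := (Pool.Agent.H13.SM.mem_pts_iff hP hcb).1 hy'a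
  refine ⟨y', hy'V, hy'P, hy'b, fun a => congrFun hy'z a, ?_⟩
  have h1 := hy'U.1 hy'P hy'b
  have h2 := hy'U.2
  subst hy'z
  set D : Fin n → ℂ := (fun a => eval y' (quad b (τ a - (2 * l a y) • l a) (l a))) -
    fun a => eval y (quad b (τ a - (2 * l a y) • l a) (l a)) with hD
  have h3 : ∀ a, τ a (y' - y) = D a - l a (y' - y) ^ 2 := by
    intro a
    rw [hD, Pi.sub_apply, eval_quad, eval_quad, hy'b, hyb, LinearMap.sub_apply,
      LinearMap.sub_apply, LinearMap.smul_apply, LinearMap.smul_apply, map_sub, map_sub,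
      smul_eq_mul, smul_eq_mul]
    ring
  have h4 : ‖fun a => τ a (y' - y)‖ ≤ ‖D‖ + K ^ 2 * ‖y' - y‖ ^ 2 := by
    refine (pi_norm_le_iff_of_nonneg (by positivity)).2 fun a => ?_
    rw [h3 a]
    refine (norm_sub_le _ _).trans (add_le_add (norm_le_pi_norm D a) ?_)
    rw [norm_pow, ← mul_pow]
    exact pow_le_pow_left₀ (norm_nonneg _) (hK a _) 2
  have h5 : ‖y' - y‖ ≤ |L| * (‖D‖ + K ^ 2 * ‖y' - y‖ ^ 2) := by
    refine h1.trans ?_
    exact mul_le_mul (le_abs_self L) h4 (norm_nonneg _) (abs_nonneg L)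
  have h6 : |L| * K ^ 2 * ‖y' - y‖ * ‖y' - y‖ ≤ 1 / 2 * ‖y' - y‖ :=
    mul_le_mul_of_nonneg_right h2 (norm_nonneg _)
  nlinarith [h5, h6]

end Pool.Agent.H39.SZ

end
end

section

/-!
# Project SY, module Cover3: finitely many charts over a neighbourhood of a point

`S = {x ∈ Zer I | ‖x‖ = 1}` is compact.  Every `x ∈ S` has an open neighbourhood `O x` and there are
either a piece `W` with: if `x' ∈ O x ∩ Zer I`, `eval x' (F β b) ≠ 0`, `aff (F β) b x' = y'` then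
`y' = W u` for some `u ∈ U W`; or a neighbourhood `V x` of `y` with: if `x' ∈ O x ∩ Zer I`,
`eval x' (F β b) ≠ 0` then `aff (F β) b x' ∉ V x`.  PROOF.  (A) If `eval x (F α b) ≠ 0` and
`aff (F α) b x = y`: a chart `σ` at `x` (`exists_chart`, `x l ≠ 0`), `W = fun u => aff (F α) b (σ u)`;
for `x' ∈ Zer I` near `x` the vector `u = fun k => x' (J k) / x' l - x (J k) / x l` is near `0`, so in
`U W`, and `x' = (x' l / x l) • σ u` (`near`), `aff (F β) b x' = aff (F α) b x' = W u` (`aff_eq`,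
`aff_smul`).  (B) If `eval x (F α b) ≠ 0` and `aff (F α) b x ≠ y` use the continuity of `aff (F α) b`
at `x` and two disjoint neighbourhoods.  (C) If `eval x (F β b) = 0` for all `β`: take `α`, `a` with
`eval x (F α a) ≠ 0` (`exists_tuple`); near `x` one has `‖eval x' (F α b)‖ * (‖y‖ + 1) <
‖eval x' (F α a)‖`, so (`base_ne`, `aff_eq`) `‖aff (F β) b x' a‖ > ‖y‖ + 1`, not in the ball of radius
`1` around `y`.  Finitely many `O x` cover `S` (`IsCompact.elim_nhds_subcover`).  If `y'` is near `y`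
(in all `V x`), `y' ∈ Zer P`, `y' b = 1` take `x'` with `aff (F β) b x' = y'` (`hsurj`), divided by its
norm (`aff_smul`).
-/

open MvPolynomial Filter Topology
open Pool.Agent.H17LG.Variety (FunField)
open Pool.Agent.H5.DG (Homog)
open Pool.Agent.H5.DG3

noncomputable section

namespace Pool.Agent.H39.SY

variable {N M m s q n : ℕ} {P : Ideal (MvPolynomial (Fin (M + 1)) ℂ)}
  {G : Fin m → MvPolynomial (Fin (M + 1)) ℂ} {I : Ideal (MvPolynomial (Fin (N + 1)) ℂ)}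
  [I.IsPrime] {F : Fin s → Fin (M + 1) → MvPolynomial (Fin (N + 1)) ℂ}

private theorem Cover3_aff_cont {A : Fin (M + 1) → MvPolynomial (Fin (N + 1)) ℂ} {b : Fin (M + 1)}
    {x : Fin (N + 1) → ℂ} (hb : eval x (A b) ≠ 0) : ContinuousAt (aff A b) x := by
  refine continuousAt_pi.2 fun a => ?_
  have h1 : ContinuousAt (fun z : Fin (N + 1) → ℂ => eval z (A a)) x :=
    (MvPolynomial.continuous_eval (A a)).continuousAt
  have h2 : ContinuousAt (fun z : Fin (N + 1) → ℂ => eval z (A b)) x :=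
    (MvPolynomial.continuous_eval (A b)).continuousAt
  exact h1.div h2 hb

private theorem Cover3_ev_ne {Q : MvPolynomial (Fin (N + 1)) ℂ} {x : Fin (N + 1) → ℂ}
    (hb : eval x Q ≠ 0) : ∀ᶠ z in 𝓝 x, eval z Q ≠ 0 :=
  (MvPolynomial.continuous_eval Q).continuousAt.eventually_ne hb

/-- the local statement -/
private theorem Cover3_local (h : RamifiedMorphism q P G I ∅ ∅ F)
    (hz : ∃ z : Fin n → FunField I, IsTranscendenceBasis ℂ z)
    {b : Fin (M + 1)} {y : Fin (M + 1) → ℂ}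
    (hsm : ∀ x ∈ Zer I, x ≠ 0 → ∀ α, eval x (F α b) ≠ 0 → aff (F α) b x = y →
      Module.finrank ℂ (Pool.Agent.H13.SM.conTan I x) ≤ n + 1)
    (U : ((Fin n → ℂ) → Fin (M + 1) → ℂ) → Set (Fin n → ℂ))
    (hU : ∀ W, IsPiece I F b y W → U W ∈ 𝓝 (0 : Fin n → ℂ)) {x : Fin (N + 1) → ℂ} (hx : x ∈ Zer I)
    (hx0 : x ≠ 0) :
    ∃ L : List ((Fin n → ℂ) → Fin (M + 1) → ℂ), (∀ W ∈ L, IsPiece I F b y W) ∧ ∃ V ∈ 𝓝 y,
      ∀ᶠ x' in 𝓝 x, x' ∈ Zer I → ∀ β, eval x' (F β b) ≠ 0 → aff (F β) b x' ∈ V →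
        ∃ W ∈ L, ∃ u ∈ U W, W u = aff (F β) b x' := by
  by_cases hex : ∃ α, eval x (F α b) ≠ 0
  · obtain ⟨α, hα⟩ := hex
    by_cases hy : aff (F α) b x = y
    · obtain ⟨l, hl⟩ : ∃ l, x l ≠ 0 := by
        by_contra hc
        push Not at hc
        exact hx0 (funext hc)
      obtain ⟨J, σ, hσ⟩ := exists_chartAt h.homog hz hx (hsm x hx hx0 α hα hy) hl
      have hp : IsPiece I F b y (fun u : Fin n → ℂ => aff (F α) b (σ u)) :=
        ⟨x, l, J, σ, α, hσ, hα, rfl, by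
          show aff (F α) b (σ 0) = y
          rw [hσ.zero]
          exact hy⟩
      refine ⟨[fun u : Fin n → ℂ => aff (F α) b (σ u)], ?_, Set.univ, Filter.univ_mem, ?_⟩
      · intro W hW
        rw [List.mem_singleton] at hW
        rw [hW]
        exact hp
      · have hg : ContinuousAt (fun z : Fin (N + 1) → ℂ => fun k => z (J k) / z l - x (J k) / x l) x := by
          refine continuousAt_pi.2 fun k => ?_
          have c1 : ContinuousAt (fun z : Fin (N + 1) → ℂ => z (J k)) x := (continuous_apply _).continuousAt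
          have c2 : ContinuousAt (fun z : Fin (N + 1) → ℂ => z l) x := (continuous_apply _).continuousAt
          exact (c1.div c2 hl).sub continuousAt_const
        have hg0 : (fun k => x (J k) / x l - x (J k) / x l) = (0 : Fin n → ℂ) := by
          funext k
          rw [sub_self]
          rfl
        have hUx : ∀ᶠ z in 𝓝 x, (fun k => z (J k) / z l - x (J k) / x l) ∈
            U (fun u : Fin n → ℂ => aff (F α) b (σ u)) := by
          apply hg.eventually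
          show U (fun u : Fin n → ℂ => aff (F α) b (σ u)) ∈ 𝓝 (fun k => x (J k) / x l - x (J k) / x l)
          rw [hg0]
          exact hU _ hp
        have hlx : ∀ᶠ z : Fin (N + 1) → ℂ in 𝓝 x, z l ≠ 0 :=
          (continuous_apply l).continuousAt.eventually_ne hl
        filter_upwards [hUx, hlx, hσ.near, Cover3_ev_ne hα] with z hz1 hz2 hz3 hz4 hzI β hβ _
        refine ⟨_, List.mem_singleton.2 rfl, _, hz1, ?_⟩
        show aff (F α) b (σ (fun k => z (J k) / z l - x (J k) / x l)) = aff (F β) b z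
        have e1 : aff (F β) b z = aff (F α) b z := aff_eq h hzI hβ hz4
        have hc : z l / x l ≠ 0 := div_ne_zero hz2 hl
        rw [e1, ← aff_smul h hc (σ (fun k => z (J k) / z l - x (J k) / x l)) α b, ← hz3 hzI]
    · obtain ⟨V1, V, hV1, hV, hd⟩ := t2_separation_nhds hy
      refine ⟨[], fun W hW => absurd hW List.not_mem_nil, V, hV, ?_⟩
      filter_upwards [(Cover3_aff_cont hα).eventually hV1, Cover3_ev_ne hα] with z hz1 hz2 hzI β hβ hzV
      exfalso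
      rw [aff_eq h hzI hβ hz2] at hzV
      exact (Set.disjoint_left.1 hd hz1) hzV
  · push Not at hex
    obtain ⟨α, a, ha⟩ := exists_tuple h hx hx0
    refine ⟨[], fun W hW => absurd hW List.not_mem_nil, Metric.ball y 1, Metric.ball_mem_nhds y one_pos, ?_⟩
    have c1 : ContinuousAt (fun z : Fin (N + 1) → ℂ => ‖eval z (F α b)‖ * (‖y‖ + 1)) x :=
      ((MvPolynomial.continuous_eval (F α b)).norm.mul continuous_const).continuousAt
    have c2 : ContinuousAt (fun z : Fin (N + 1) → ℂ => ‖eval z (F α a)‖) x :=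
      (MvPolynomial.continuous_eval (F α a)).norm.continuousAt
    have hlt : ‖eval x (F α b)‖ * (‖y‖ + 1) < ‖eval x (F α a)‖ := by
      rw [hex α, norm_zero, zero_mul]
      exact norm_pos_iff.2 ha
    filter_upwards [c1.eventually_lt c2 hlt] with z hz1 hzI β hβ hzV
    exfalso
    have hza : eval z (F α a) ≠ 0 := by
      intro h0
      rw [h0, norm_zero] at hz1
      have : 0 ≤ ‖eval z (F α b)‖ * (‖y‖ + 1) := by positivity
      linarith
    have hzb : eval z (F α b) ≠ 0 := base_ne h hzI hβ hza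
    rw [aff_eq h hzI hβ hzb, Metric.mem_ball, dist_eq_norm] at hzV
    have h1 : ‖aff (F α) b z‖ < ‖y‖ + 1 := by
      have := norm_sub_norm_le (aff (F α) b z) y
      linarith
    have h2 : ‖aff (F α) b z a‖ ≤ ‖aff (F α) b z‖ := norm_le_pi_norm _ a
    have h3 : ‖aff (F α) b z a‖ = ‖eval z (F α a)‖ / ‖eval z (F α b)‖ := by
      show ‖eval z (F α a) / eval z (F α b)‖ = _
      rw [norm_div]
    have h4 : 0 < ‖eval z (F α b)‖ := norm_pos_iff.2 hzb
    have h5 : ‖y‖ + 1 < ‖eval z (F α a)‖ / ‖eval z (F α b)‖ := by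
      rw [lt_div_iff₀ h4]
      linarith [mul_comm (‖eval z (F α b)‖) (‖y‖ + 1)]
    linarith

theorem exists_cover3 (h : RamifiedMorphism q P G I ∅ ∅ F)
    (hz : ∃ z : Fin n → FunField I, IsTranscendenceBasis ℂ z)
    {b : Fin (M + 1)} {y : Fin (M + 1) → ℂ}
    (hsm : ∀ x ∈ Zer I, x ≠ 0 → ∀ α, eval x (F α b) ≠ 0 → aff (F α) b x = y →
      Module.finrank ℂ (Pool.Agent.H13.SM.conTan I x) ≤ n + 1)
    (hsurj : ∀ y' ∈ Zer P, y' b = 1 →
      ∃ x ∈ Zer I, x ≠ 0 ∧ ∃ α, eval x (F α b) ≠ 0 ∧ aff (F α) b x = y')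
    (U : ((Fin n → ℂ) → Fin (M + 1) → ℂ) → Set (Fin n → ℂ))
    (hU : ∀ W, IsPiece I F b y W → U W ∈ 𝓝 (0 : Fin n → ℂ)) :
    ∃ (k : ℕ) (W : Fin k → (Fin n → ℂ) → Fin (M + 1) → ℂ), (∀ i, IsPiece I F b y (W i)) ∧
      ∀ᶠ y' in 𝓝 y, y' ∈ Zer P → y' b = 1 → ∃ i, ∃ u ∈ U (W i), W i u = y' := by
  have hcl : IsClosed (Zer I) := by
    have : Zer I = ⋂ Q ∈ I, {x | eval x Q = 0} := by
      ext x
      simp [Zer]
    rw [this]
    exact isClosed_biInter fun Q _ => isClosed_eq (MvPolynomial.continuous_eval Q) continuous_const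
  have hS : IsCompact (Zer I ∩ Metric.sphere 0 1) :=
    (isCompact_sphere 0 1).inter_left hcl
  have key : ∃ L : List ((Fin n → ℂ) → Fin (M + 1) → ℂ), (∀ W ∈ L, IsPiece I F b y W) ∧ ∃ V ∈ 𝓝 y,
      ∀ x' ∈ Zer I ∩ Metric.sphere 0 1, x' ∈ Zer I → ∀ β, eval x' (F β b) ≠ 0 → aff (F β) b x' ∈ V →
        ∃ W ∈ L, ∃ u ∈ U W, W u = aff (F β) b x' := by
    refine hS.induction_on (p := fun T => ∃ L : List ((Fin n → ℂ) → Fin (M + 1) → ℂ),
      (∀ W ∈ L, IsPiece I F b y W) ∧ ∃ V ∈ 𝓝 y,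
      ∀ x' ∈ T, x' ∈ Zer I → ∀ β, eval x' (F β b) ≠ 0 → aff (F β) b x' ∈ V →
        ∃ W ∈ L, ∃ u ∈ U W, W u = aff (F β) b x') ?_ ?_ ?_ ?_
    · exact ⟨[], fun W hW => absurd hW List.not_mem_nil, Set.univ, Filter.univ_mem,
        fun x' hx' => absurd hx' (Set.notMem_empty x')⟩
    · rintro T T' hTT ⟨L, hL, V, hV, hh⟩
      exact ⟨L, hL, V, hV, fun x' hx' => hh x' (hTT hx')⟩
    · rintro T T' ⟨L, hL, V, hV, hh⟩ ⟨L', hL', V', hV', hh'⟩
      refine ⟨L ++ L', ?_, V ∩ V', Filter.inter_mem hV hV', ?_⟩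
      · intro W hW
        rcases List.mem_append.1 hW with h1 | h1
        · exact hL W h1
        · exact hL' W h1
      · intro x' hx' hI β hβ hv
        rcases hx' with h1 | h1
        · obtain ⟨W, hW, hu⟩ := hh x' h1 hI β hβ hv.1
          exact ⟨W, List.mem_append.2 (Or.inl hW), hu⟩
        · obtain ⟨W, hW, hu⟩ := hh' x' h1 hI β hβ hv.2
          exact ⟨W, List.mem_append.2 (Or.inr hW), hu⟩
    · rintro x ⟨hxI, hx1⟩
      have hx0 : x ≠ 0 := by
        rintro rfl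
        rw [mem_sphere_zero_iff_norm, norm_zero] at hx1
        exact zero_ne_one hx1
      obtain ⟨L, hL, V, hV, hh⟩ := Cover3_local h hz hsm U hU hxI hx0
      exact ⟨_, mem_nhdsWithin_of_mem_nhds hh, L, hL, V, hV, fun x' hx' => hx'⟩
  obtain ⟨L, hL, V, hV, hh⟩ := key
  refine ⟨L.length, fun i => L.get i, fun i => hL _ (List.get_mem L i), ?_⟩
  filter_upwards [hV] with y' hy' hyP hyb
  obtain ⟨x, hxI, hx0, α, hα, hxy⟩ := hsurj y' hyP hyb
  have hn : ‖x‖ ≠ 0 := norm_ne_zero_iff.2 hx0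
  have hc : ((‖x‖ : ℝ) : ℂ)⁻¹ ≠ 0 := inv_ne_zero (by exact_mod_cast hn)
  have h1 : ((‖x‖ : ℝ) : ℂ)⁻¹ • x ∈ Zer I := Pool.Agent.H13.SM.cone_smul h.homog hxI _
  have h2 : ((‖x‖ : ℝ) : ℂ)⁻¹ • x ∈ Metric.sphere (0 : Fin (N + 1) → ℂ) 1 := by
    rw [mem_sphere_zero_iff_norm, norm_smul, norm_inv, Complex.norm_real, Real.norm_eq_abs, abs_norm,
      inv_mul_cancel₀ hn]
  have h3 : eval (((‖x‖ : ℝ) : ℂ)⁻¹ • x) (F α b) ≠ 0 := (eval_smul_ne h hc x α b).2 hα
  have h4 : aff (F α) b (((‖x‖ : ℝ) : ℂ)⁻¹ • x) = y' := by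
    rw [aff_smul h hc, hxy]
  obtain ⟨W, hW, u, hu, huv⟩ := hh _ ⟨h1, h2⟩ h1 α h3 (by rw [h4]; exact hy')
  obtain ⟨i, hi⟩ := List.get_of_mem hW
  refine ⟨i, u, ?_, ?_⟩
  · show u ∈ U (L.get i)
    rw [hi]
    exact hu
  · show L.get i u = y'
    rw [hi, huv, h4]

end Pool.Agent.H39.SY

end
end

section

/-!
# Project DG4, module Exc4: the exceptional set
-/

open MvPolynomial
open Pool.Agent.H17 (PN VanishesAt ZariskiClosedIn)
open Pool.Agent.H17LG.Variety (FunField)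
open Pool.Agent.H5.DG (Homog variety)
open Pool.Agent.H5.DG3 (IsMorphism morph RamifiedMorphism)

noncomputable section

namespace Pool.Agent.H5.DG4

variable {N M m s : ℕ}

theorem excSet_closed4 {A N₀ k : ℕ} {P : Ideal (MvPolynomial (Fin (M + 1)) ℂ)}
    {G : Fin m → MvPolynomial (Fin (M + 1)) ℂ}
    {I : Ideal (MvPolynomial (Fin (N + 1)) ℂ)} (hI : Homog I) {B Z : Set (PN N)}
    (hZ : ZariskiClosedIn Set.univ Z) {F : Fin s → Fin (M + 1) → MvPolynomial (Fin (N + 1)) ℂ}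
    (hF : IsMorphism I (variety I \ B) F) {Δ : MvPolynomial (Fin (M + 1)) ℂ}
    (hk : Δ.IsHomogeneous k) :
    ZariskiClosedIn (variety I \ B) (excSet A N₀ P G I B Z F Δ) := by
  obtain ⟨S, hS, hZS⟩ := hZ
  refine ⟨{Q | ∃ T ∈ S, ∃ α, ∃ (a : ℕ) (τ : Fin s → MvPolynomial (Fin (N + 1)) ℂ),
    RamifiedSection A N₀ P G I B F a τ ∧ ∃ β, Q = T * aeval (F α) Δ * τ β}, ?_, ?_⟩
  · rintro Q ⟨T, hT, α, a, τ, hτ, β, rfl⟩
    obtain ⟨n, hn⟩ := hS T hT
    obtain ⟨e, he⟩ := hF.hom α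
    obtain ⟨e', -, he'⟩ := hτ.isSection.hom β
    exact ⟨_, (hn.mul (hk.aeval _ he)).mul he'⟩
  · ext x
    change (x ∈ variety I \ B ∧ (x ∈ Z ∨ VanishesAt Δ (morph F x) ∨
      ∀ a τ, RamifiedSection A N₀ P G I B F a τ → ∀ α, VanishesAt (τ α) x)) ↔
      (x ∈ variety I \ B ∧ ∀ Q ∈ {Q | ∃ T ∈ S, ∃ α, ∃ (a : ℕ)
        (τ : Fin s → MvPolynomial (Fin (N + 1)) ℂ), RamifiedSection A N₀ P G I B F a τ ∧
        ∃ β, Q = T * aeval (F α) Δ * τ β}, VanishesAt Q x)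
    refine and_congr_right fun hx => ⟨?_, fun h => ?_⟩
    · rintro (h | h | h) Q ⟨T, hT, α, a, τ, hτ, β, rfl⟩
      · rw [hZS] at h
        have h1 : eval x.rep T = 0 := h.2 T hT
        change eval x.rep (T * aeval (F α) Δ * τ β) = 0
        rw [map_mul, map_mul, h1, zero_mul, zero_mul]
      · have h1 : eval x.rep (aeval (F α) Δ) = 0 :=
          (Pool.Agent.H5.DG3.vanishesAt_morph_iff hF hI hx.1 hx hk).1 h α
        change eval x.rep (T * aeval (F α) Δ * τ β) = 0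
        rw [map_mul, map_mul, h1, mul_zero, zero_mul]
      · have h1 : eval x.rep (τ β) = 0 := h a τ hτ β
        change eval x.rep (T * aeval (F α) Δ * τ β) = 0
        rw [map_mul, h1, mul_zero]
    · by_cases hxZ : x ∈ Z
      · exact Or.inl hxZ
      right
      by_cases hxΔ : VanishesAt Δ (morph F x)
      · exact Or.inl hxΔ
      right
      rw [hZS] at hxZ
      have h1 : ∃ T ∈ S, ¬ VanishesAt T x := by
        by_contra hcon
        push Not at hcon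
        exact hxZ ⟨Set.mem_univ x, hcon⟩
      obtain ⟨T, hT, hTx⟩ := h1
      rw [Pool.Agent.H5.DG3.vanishesAt_morph_iff hF hI hx.1 hx hk] at hxΔ
      push Not at hxΔ
      obtain ⟨α, hα⟩ := hxΔ
      intro a τ hτ β
      have h2 : eval x.rep (T * aeval (F α) Δ * τ β) = 0 := h _ ⟨T, hT, α, a, τ, hτ, β, rfl⟩
      rw [map_mul, map_mul] at h2
      rcases mul_eq_zero.1 h2 with h3 | h3
      · rcases mul_eq_zero.1 h3 with h4 | h4
        · exact absurd h4 hTx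
        · exact absurd h4 hα
      · exact h3

/-- A variety on which three forms do not vanish identically has points where all three are not
zero. -/
private theorem exists_common {I : Ideal (MvPolynomial (Fin (N + 1)) ℂ)} [I.IsPrime] {x : PN N}
    (hx : x ∈ variety I) {R₁ R₂ R₃ : MvPolynomial (Fin (N + 1)) ℂ} {d₁ d₂ d₃ : ℕ}
    (h₁ : R₁.IsHomogeneous d₁) (h₂ : R₂.IsHomogeneous d₂) (h₃ : R₃.IsHomogeneous d₃)
    (h₁I : R₁ ∉ I) (h₂I : R₂ ∉ I) (h₃I : R₃ ∉ I) :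
    ∃ y ∈ variety I, ¬ VanishesAt R₁ y ∧ ¬ VanishesAt R₂ y ∧ ¬ VanishesAt R₃ y := by
  have hIp : I.IsPrime := inferInstance
  obtain ⟨i, hi⟩ : ∃ i, x.rep i ≠ 0 := by
    by_contra hcon
    push Not at hcon
    exact x.rep_nonzero (funext hcon)
  have hXI : (X i : MvPolynomial (Fin (N + 1)) ℂ) ∉ I := by
    intro h
    have h2 := hx _ h 1 (isHomogeneous_X ℂ i)
    unfold VanishesAt at h2
    rw [eval_X] at h2
    exact hi h2
  have h4 : X i * R₁ * R₂ * R₃ ∉ I := by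
    intro h
    rcases hIp.mem_or_mem h with h | h
    · rcases hIp.mem_or_mem h with h | h
      · rcases hIp.mem_or_mem h with h | h
        · exact hXI h
        · exact h₁I h
      · exact h₂I h
    · exact h₃I h
  have h5 : ∃ v : Fin (N + 1) → ℂ, (∀ R ∈ I, eval v R = 0) ∧ eval v (X i * R₁ * R₂ * R₃) ≠ 0 := by
    by_contra hcon
    push Not at hcon
    exact h4 (Pool.Agent.H5.DG.mem_of_forall I hcon)
  obtain ⟨v, hv, hne⟩ := h5
  rw [map_mul, map_mul, map_mul, eval_X] at hne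
  have hv0 : v ≠ 0 := by
    rintro rfl
    exact hne (by rw [Pi.zero_apply, zero_mul, zero_mul, zero_mul])
  refine ⟨Projectivization.mk ℂ v hv0, fun R hR k hk => ?_, ?_, ?_, ?_⟩
  · rw [Pool.Agent.H17.vanishesAt_mk_iff hk]
    exact hv R hR
  · rw [Pool.Agent.H17.vanishesAt_mk_iff h₁]
    exact right_ne_zero_of_mul (left_ne_zero_of_mul (left_ne_zero_of_mul hne))
  · rw [Pool.Agent.H17.vanishesAt_mk_iff h₂]
    exact right_ne_zero_of_mul (left_ne_zero_of_mul hne)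
  · rw [Pool.Agent.H17.vanishesAt_mk_iff h₃]
    exact right_ne_zero_of_mul hne

theorem not_subset4 {A N₀ k w : ℕ} {P : Ideal (MvPolynomial (Fin (M + 1)) ℂ)} [P.IsPrime]
    (hP : Homog P) {G : Fin m → MvPolynomial (Fin (M + 1)) ℂ}
    {I : Ideal (MvPolynomial (Fin (N + 1)) ℂ)} [I.IsPrime] {B Z : Set (PN N)}
    {F : Fin s → Fin (M + 1) → MvPolynomial (Fin (N + 1)) ℂ} (h : FiniteMorphism P I B Z F)
    (hw : 1 ≤ w) (hz : ∃ z : Fin w → FunField I, IsTranscendenceBasis ℂ z)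
    (hzP : ∃ z : Fin w → FunField P, IsTranscendenceBasis ℂ z)
    (hZ : ¬ (variety I \ B ⊆ Z)) {Δ : MvPolynomial (Fin (M + 1)) ℂ} (hk : Δ.IsHomogeneous k)
    (hΔ : Δ ∉ P) (hτ : ∃ a τ, RamifiedSection A N₀ P G I B F a τ ∧ ∃ α, τ α ∉ I) :
    ¬ (variety I \ B ⊆ excSet A N₀ P G I B Z F Δ) := by
  obtain ⟨a, τ, hτ, α, hα⟩ := hτ
  have hR : RamifiedMorphism 2 P (fun j : Fin 0 => j.elim0) I B Z F :=
    ⟨h.homog, h.closedB, h.closedZ, h.morphism, h.maps, h.finite, fun x _ j => j.elim0⟩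
  have h1 := Pool.Agent.H5.DG3.not_subset_of_dim hP hR hw hz hzP hZ hk hΔ
  obtain ⟨x, hx, hx'⟩ := Set.not_subset.1 h1
  obtain ⟨S, hS, hSe⟩ := Pool.Agent.H5.DG3.excSet_closed h.homog h.closedZ h.morphism hk
  obtain ⟨R₁, hR₁, hR₁x⟩ : ∃ R ∈ S, ¬ VanishesAt R x := by
    by_contra hcon
    push Not at hcon
    exact hx' (by rw [hSe]; exact ⟨hx, hcon⟩)
  obtain ⟨d₁, hd₁⟩ := hS R₁ hR₁
  obtain ⟨S', hS', hBS⟩ := h.closedB
  obtain ⟨R₂, hR₂, hR₂x⟩ : ∃ R ∈ S', ¬ VanishesAt R x := by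
    by_contra hcon
    push Not at hcon
    exact hx.2 (by rw [hBS]; exact ⟨Set.mem_univ _, hcon⟩)
  obtain ⟨d₂, hd₂⟩ := hS' R₂ hR₂
  obtain ⟨e, -, hd₃⟩ := hτ.isSection.hom α
  obtain ⟨y, hy, hy₁, hy₂, hy₃⟩ := exists_common hx.1 hd₁ hd₂ hd₃
    (fun hcon => hR₁x (hx.1 _ hcon _ hd₁)) (fun hcon => hR₂x (hx.1 _ hcon _ hd₂)) hα
  have hyU : y ∈ variety I \ B := by
    refine ⟨hy, fun hcon => hy₂ ?_⟩
    rw [hBS] at hcon
    exact hcon.2 R₂ hR₂
  have hyE : y ∉ Pool.Agent.H5.DG3.excSet I B Z F Δ := by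
    intro hcon
    rw [hSe] at hcon
    exact hy₁ (hcon.2 R₁ hR₁)
  intro hsub
  have hy4 := (hsub hyU).2
  rcases hy4 with h2 | h2 | h2
  · exact hyE ⟨hyU, Or.inl h2⟩
  · exact hyE ⟨hyU, Or.inr h2⟩
  · exact hy₃ (h2 a τ hτ α)

end Pool.Agent.H5.DG4

end
end
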