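import Pool.Agent.H94.DG.M12
import Pool.Agent.H94.DG.M29
import Pool.Agent.H94.DG.M37
import Pool.Agent.H94.DG.M41
import Pool.Agent.H94.DG.M43
import Pool.Agent.H94.DG.M46
import Pool.Agent.H94.DG.M47

/-! The parts of this file: H5.DG4.CluK, H5.DG4.FieldLgt, H39.SY.Count3, H5.DG4.SecK. -/

section

/-!
# Project DG4, module CluK: the estimate for one cluster at a valuation

This is the inequality `cluster_ord` (module `Pool.Agent.H5.DG.E0`) for the normalised point, with the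
scaling `evVW_Phi_scale`: see `EG3_est` (private) in module `Pool.Agent.H5.DG3.EG3`; copy the parts `hcl` and
`hscale` of its proof (`c j = 1`, `J = univ`, `u (Φ v (δ v) * det ^ (κ - t)) = u (x₁ ^ e) * κ + u (x₁ ^ e) * (κ - t) + ..`).
-/

open MvPolynomial
open Pool.Agent.H5.DG

noncomputable section

namespace Pool.Agent.H5.DG4

section

variable {K : Type} [Field K] [Algebra ℂ K]

private lemma CluK_dot_smul_right {m : ℕ} (t x : Fin m → K) (s : K) :
    dot t (fun a => s * x a) = s * dot t x := by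
  unfold dot
  rw [Finset.mul_sum]
  exact Finset.sum_congr rfl fun a _ => by ring

private lemma CluK_der_dot {m : ℕ} (δ : Derivation ℂ K K) (t : Fin m → ℂ) (x : Fin m → K) :
    dot (toL K t) (fun a => δ (x a)) = δ (dot (toL K t) x) := by
  unfold dot toL
  rw [map_sum]
  refine Finset.sum_congr rfl fun a _ => ?_
  rw [δ.leibniz, δ.map_algebraMap, smul_zero, add_zero, smul_eq_mul]

private lemma CluK_aeval_scale {σ : Type} [Fintype σ] {G : MvPolynomial σ ℂ} {e : ℕ}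
    (hG : G.IsHomogeneous e) (c : K) (x : σ → K) :
    aeval (fun i => c * x i) G = c ^ e * aeval x G := by
  rw [aeval_def, aeval_def, eval₂_eq, eval₂_eq, Finset.mul_sum]
  refine Finset.sum_congr rfl fun m hm => ?_
  have h5 : ∑ i ∈ m.support, m i = e := by
    have := hG (mem_support_iff.1 hm)
    rw [Finsupp.weight_apply, Finsupp.sum] at this
    simpa using this
  simp only [mul_pow, Finset.prod_mul_distrib]
  rw [Finset.prod_pow_eq_pow_sum, h5]
  ring

section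

variable {u : AddValuation K (WithTop ℤ)}

private lemma CluK_mul_eq {f g : K} {a b : ℤ} (hf : u f = ((a : ℤ) : WithTop ℤ))
    (hg : u g = ((b : ℤ) : WithTop ℤ)) : u (f * g) = ((a + b : ℤ) : WithTop ℤ) := by
  rw [u.map_mul, hf, hg, ← WithTop.coe_add]

private lemma CluK_mul_le {f g : K} {a b : ℤ} (hf : ((a : ℤ) : WithTop ℤ) ≤ u f)
    (hg : ((b : ℤ) : WithTop ℤ) ≤ u g) : ((a + b : ℤ) : WithTop ℤ) ≤ u (f * g) := by
  rw [u.map_mul, WithTop.coe_add]
  exact add_le_add hf hg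

private lemma CluK_pow {f : K} {a : ℤ} (h : u f = ((a : ℤ) : WithTop ℤ)) (m : ℕ) :
    u (f ^ m) = ((m * a : ℤ) : WithTop ℤ) := by
  induction m with
  | zero => simp
  | succ m ih =>
    rw [pow_succ, CluK_mul_eq ih h]
    congr 1
    push_cast
    ring

private lemma CluK_prod {ι : Type} (S : Finset ι) {f : ι → K} {a : ι → ℤ}
    (h : ∀ j ∈ S, u (f j) = ((a j : ℤ) : WithTop ℤ)) :
    u (∏ j ∈ S, f j) = ((∑ j ∈ S, a j : ℤ) : WithTop ℤ) := by
  classical
  induction S using Finset.induction_on with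
  | empty => simp
  | insert i S hi ih =>
    rw [Finset.prod_insert hi, Finset.sum_insert hi]
    exact CluK_mul_eq (h i (Finset.mem_insert_self i S))
      (ih fun j hj => h j (Finset.mem_insert_of_mem hj))

private lemma CluK_ne {f : K} {a : ℤ} (h : u f = ((a : ℤ) : WithTop ℤ)) : f ≠ 0 := by
  rintro rfl
  rw [u.map_zero] at h
  exact absurd h.symm (WithTop.coe_ne_top)

private lemma CluK_exists {f : K} (h : f ≠ 0) : ∃ a : ℤ, u f = ((a : ℤ) : WithTop ℤ) := by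
  have := (u.ne_top_iff).2 h
  exact ⟨(u f).untop this, by simp⟩

private lemma CluK_inv {f : K} {a : ℤ} (h : u f = ((a : ℤ) : WithTop ℤ)) :
    u f⁻¹ = ((-a : ℤ) : WithTop ℤ) := by
  obtain ⟨c, hc⟩ := CluK_exists (u := u) (inv_ne_zero (CluK_ne h))
  have h1 := CluK_mul_eq h hc
  rw [mul_inv_cancel₀ (CluK_ne h), u.map_one] at h1
  have h2 : 0 = a + c := by exact_mod_cast h1
  rw [hc]
  congr 1
  omega

end

end

theorem cluster_val4 {K : Type} [Field K] [Algebra ℂ K] {u : AddValuation K (WithTop ℤ)}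
    (hu : ∀ c : ℂ, 0 ≤ u (algebraMap ℂ K c)) {n κ e m : ℕ} {N : Polynomial (PV n)} {φ : PVW n}
    (hD : DGData κ N φ) (hom : ∃ k, (Del κ N).IsHomogeneous k) {v : Fin (n + 2) → K}
    {p : Fin m → Fin (n + 2) → ℂ} (hp : ∀ j, p j ∈ Gam N ℂ) (hinj : Function.Injective p)
    (hΔ : MvPolynomial.aeval v (Del κ N) ≠ 0) (T : Finset (Fin (n + 2) → ℂ))
    (hT : ∀ τ ∈ T, τ ∈ Gam N ℂ) (hTv : ∀ τ ∈ T, dot (toL K τ) v = 0) (hJT : ∀ j, p j ∉ T)
    {x₁ : K} {r : ℕ} (hx₁ : u x₁ = ((-(r : ℤ) : ℤ) : WithTop ℤ))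
    (hv0 : ∀ a, 0 ≤ u ((x₁⁻¹) ^ e * v a)) (hv1 : ∃ a, u ((x₁⁻¹) ^ e * v a) = 0) {o : Fin m → ℕ}
    (ho : ∀ j, u ((x₁⁻¹) ^ e * dot (toL K (p j)) v) = ((o j : ℤ) : WithTop ℤ)) {g₀ : K}
    (hg₀ : u g₀ = 1) {det : K} {δ : Derivation ℂ K K} {L : ℕ} {a : Fin m → ℕ}
    (ha : ∀ j, a j ≤ o j)
    (h1 : ∀ j, ((-(L : ℤ) + a j : ℤ) : WithTop ℤ) ≤
      u (det * δ ((x₁⁻¹) ^ e * dot (toL K (p j)) v)))
    (h2 : ∀ f, 0 ≤ u f → ((-(L : ℤ) : ℤ) : WithTop ℤ) ≤ u (det * δ f)) :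
    ((-((κ : ℤ) * (e * r)) - ((κ - T.card : ℕ) : ℤ) * (e * r) -
      ((κ - T.card : ℕ) : ℤ) * L + ∑ j, (a j : ℤ) : ℤ) : WithTop ℤ) ≤
      u (evVW (Phi φ T.card) v (fun a => δ (v a)) * det ^ (κ - T.card)) := by
  classical
  set s : K := x₁⁻¹ with hs
  have hx0 : x₁ ≠ 0 := CluK_ne hx₁
  have hs0 : s ≠ 0 := inv_ne_zero hx0
  have hxs1 : x₁ * s = 1 := mul_inv_cancel₀ hx0
  set vh : Fin (n + 2) → K := fun a => s ^ e * v a with hvh
  set w : Fin (n + 2) → K := fun a => det * δ (vh a) with hw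
  have hdot : ∀ t : Fin (n + 2) → ℂ, dot (toL K t) vh = s ^ e * dot (toL K t) v := fun t => by
    rw [hvh, CluK_dot_smul_right]
  have hdotw : ∀ t : Fin (n + 2) → ℂ, dot (toL K t) w = det * δ (dot (toL K t) vh) := by
    intro t
    rw [hw, CluK_dot_smul_right, CluK_der_dot]
  have hg : u (g₀⁻¹) = ((-1 : ℤ) : WithTop ℤ) := CluK_inv (a := 1) (by rw [hg₀]; rfl)
  have hgL : u ((g₀⁻¹) ^ L) = ((-(L : ℤ) : ℤ) : WithTop ℤ) := by
    rw [CluK_pow hg]
    congr 1
    ring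
  have hga : ∀ j, u (g₀ ^ a j) = ((a j : ℤ) : WithTop ℤ) := by
    intro j
    rw [CluK_pow (a := 1) (by rw [hg₀]; rfl)]
    congr 1
    ring
  -- the cluster inequality
  have hcl := cluster_ord hD.pos hD.norm hD.nondeg hD.chow (Finset.univ : Finset (Fin m)) p
    (fun j _ => hp j) (fun _ _ _ _ h => hinj h) T hT (fun j _ => hJT j) u hu vh w hv0 hv1
    (by
      obtain ⟨k, hk⟩ := hom
      have h5 : MvPolynomial.aeval vh (Del κ N) = (s ^ e) ^ k * MvPolynomial.aeval v (Del κ N) := by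
        rw [hvh]
        exact CluK_aeval_scale hk (s ^ e) v
      rw [h5]
      exact mul_ne_zero (pow_ne_zero _ (pow_ne_zero _ hs0)) hΔ)
    (fun τ hτ => by rw [hdot, hTv τ hτ, mul_zero])
    (fun τ hτ => by rw [hdotw, hdot, hTv τ hτ, mul_zero, map_zero, mul_zero])
    (fun j => g₀ ^ a j) ((g₀⁻¹) ^ L) (fun j _ => by
      rw [hga]
      exact_mod_cast Nat.zero_le _)
    (fun j _ => by
      rw [hdot, ho j, hga]
      exact_mod_cast ha j)
    (fun j _ => by
      rw [hdotw, hdot, CluK_mul_eq hgL (hga j)]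
      exact h1 j)
    (fun b => by
      rw [hgL]
      exact h2 _ (hv0 b))
  rw [CluK_mul_eq (CluK_pow hgL (κ - T.card)) (CluK_prod Finset.univ fun j _ => hga j)] at hcl
  -- scaling
  have hscale : evVW (Phi φ T.card) v (fun a => δ (v a)) * det ^ (κ - T.card) =
      (x₁ ^ e) ^ κ * (x₁ ^ e) ^ (κ - T.card) * evVW (Phi φ T.card) vh w := by
    have hv' : ∀ a, v a = x₁ ^ e * vh a := by
      intro a
      rw [hvh]
      show v a = x₁ ^ e * (s ^ e * v a)
      rw [← mul_assoc, ← mul_pow, hxs1, one_pow, one_mul]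
    have h1 := evVW_Phi_scale hD.norm hD.chow T.card vh (fun a => δ (vh a)) (x₁ ^ e) (x₁ ^ e)
      (δ (x₁ ^ e))
    have h2 := evVW_Phi_scale hD.norm hD.chow T.card vh (fun a => δ (vh a)) 1 det 0
    have e1 : (fun i => x₁ ^ e * vh i) = v := funext fun a => (hv' a).symm
    have e2 : (fun i => x₁ ^ e * δ (vh i) + δ (x₁ ^ e) * vh i) = fun a => δ (v a) := by
      funext a
      have h3 : δ (v a) = δ (x₁ ^ e * vh a) := congrArg δ (hv' a)
      show x₁ ^ e * δ (vh a) + δ (x₁ ^ e) * vh a = δ (v a)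
      rw [h3, δ.leibniz (x₁ ^ e) (vh a), smul_eq_mul, smul_eq_mul, mul_comm (vh a)]
    have e3 : (fun i => (1 : K) * vh i) = vh := funext fun a => one_mul _
    have e4 : (fun i => det * δ (vh i) + 0 * vh i) = w := by
      funext a
      rw [hw, zero_mul, add_zero]
    rw [e1, e2] at h1
    rw [e3, e4, one_pow, one_mul] at h2
    rw [h1, h2]
    ring
  have hxe : u (x₁ ^ e) = ((-((e : ℤ) * r) : ℤ) : WithTop ℤ) := by
    rw [CluK_pow hx₁]
    congr 1
    ring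
  rw [hscale]
  have h5 := CluK_mul_le ((CluK_mul_eq (CluK_pow hxe κ) (CluK_pow hxe (κ - T.card))).ge) hcl
  refine le_trans (le_of_eq ?_) h5
  congr 1
  ring

end Pool.Agent.H5.DG4

end
end

section

/-!
# Project DG4, module FieldLgt: the theorem over function fields

As `EG3_core` (module `Pool.Agent.H5.DG3.EG3`), for the product over the clusters.  `K` has transcendence
degree `w = k' + 1`; `exists_index` for the point `y` gives a transcendence basis `y (I i)`;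
`Pool.Agent.H92.GT.isLogGeneralType_of_function` with `x = y`, `j₀ = a₀`.  For every cluster `γ c`:
`v_c b = aeval y (B_c b)`, `T_c` = the constants (`finite_constants`), `T_c.card < κ_c`
(`card_constants_lt`: `v_c` is not proportional to a constant point, since `K` is algebraic over
`ℂ (v_c b / v_c b')` by `point_algebraic` (module PointK); for the same reason `w ≤ n_c + 1`), `δ_c` a
derivation with `Φ_c (v_c, δ_c v_c) ≠ 0` (`phi_ne_zero`), `dot (p j) v_c = c j * G (ι j) (y) ≠ 0`, so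
`p j ∉ T_c`.
`Θ = (∏ c, Φ_c (v_c, δ_c v_c)) ^ k * t / (∏ c, ∏ j, dot (p j) v_c) ^ k`, `M = k * ∑ c, (κ_c - T_c.card)`.
At a prime divisor `E`: `r`, `b` as in `EG3_core` (`E.ord (y b) = - r` minimal), `cluster_val4` with
`e = e_c`, `x₁ = y b`, `L = loss k' r`, `a j = o j - 1` (`E` not in `Bd`) or `L = loss k' r + 1`, `a j = o j` (in general);
`point_unit` gives `hv1`.  `E.ord t ≥ - a * r + k * #{j ∈ S, ..}` by `h1` (`E` not in `Bd`; the `j` of the
clusters with `o j ≥ 1` are distinct elements of `S`), `E.ord t ≥ - a * r` by `h0`.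
Numbers: `Γ.num` and `hnum` give `a + 1 ≤ k * ∑ c, e_c * (len_c - (n_c + 6) * κ_c)`, `loss k' r ≤ r * (k' + 1)`,
`k' + 1 = w ≤ n_c + 1`, `1 ≤ e_c`.
-/

open MvPolynomial
open Pool.Agent.H17LG.Variety (IsLogGeneralType)
open Pool.Agent.H23.Fano (PrimeDivisorOver)
open Pool.Agent.H5.DG

noncomputable section

namespace Pool.Agent.H5.DG4

section

open Pool.Agent.H23 (dualDer dualDer_apply)
open Pool.Agent.H92.GT (loss localDer_loss exists_const_of_D_eq_zero isLogGeneralType_of_function exists_index)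

section

variable {K : Type} [Field K] [Algebra ℂ K]

private lemma FL4_der_sum {ι : Type*} (S : Finset ι) (D : ι → Derivation ℂ K K) (g : K) :
    (∑ i ∈ S, D i) g = ∑ i ∈ S, D i g := by
  classical
  induction S using Finset.induction_on with
  | empty => simp
  | insert a S ha ih => rw [Finset.sum_insert ha, Finset.sum_insert ha, Derivation.add_apply, ih]

private lemma FL4_aeval_scale {σ : Type} [Fintype σ] {G : MvPolynomial σ ℂ} {e : ℕ}
    (hG : G.IsHomogeneous e) (c : K) (x : σ → K) :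
    aeval (fun i => c * x i) G = c ^ e * aeval x G := by
  rw [aeval_def, aeval_def, eval₂_eq, eval₂_eq, Finset.mul_sum]
  refine Finset.sum_congr rfl fun m hm => ?_
  have h5 : ∑ i ∈ m.support, m i = e := by
    have := hG (mem_support_iff.1 hm)
    rw [Finsupp.weight_apply, Finsupp.sum] at this
    simpa using this
  simp only [mul_pow, Finset.prod_mul_distrib]
  rw [Finset.prod_pow_eq_pow_sum, h5]
  ring

private lemma FL4_scale_mem {M : ℕ} {P : Ideal (MvPolynomial (Fin (M + 1)) ℂ)} (hP : Homog P)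
    {y : Fin (M + 1) → K} (hyP : ∀ g ∈ P, aeval y g = 0) (s : K) :
    ∀ g ∈ P, aeval (fun i => s * y i) g = 0 := by
  intro g hg
  rw [← MvPolynomial.sum_homogeneousComponent g, map_sum]
  refine Finset.sum_eq_zero fun k _ => ?_
  rw [FL4_aeval_scale (homogeneousComponent_isHomogeneous k g), hyP _ (hP g hg k), mul_zero]

private lemma FL4_comb {M n : ℕ} (y : Fin (M + 1) → K) (l : Fin (n + 2) → ℂ)
    (F : Fin (n + 2) → MvPolynomial (Fin (M + 1)) ℂ) :
    dot (toL K l) (fun a => aeval y (F a)) = aeval y (comb l F) := by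
  unfold dot toL comb
  rw [map_sum]
  refine Finset.sum_congr rfl fun a _ => ?_
  rw [map_mul, aeval_C]

private lemma FL4_base {M r e : ℕ} {P : Ideal (MvPolynomial (Fin (M + 1)) ℂ)}
    {B : Fin r → MvPolynomial (Fin (M + 1)) ℂ} (hB : BaseFree P e B) {y : Fin (M + 1) → K}
    (hyP : ∀ g ∈ P, aeval y g = 0) {a₀ : Fin (M + 1)} (hy1 : y a₀ = 1) :
    ∃ b₀, aeval y (B b₀) ≠ 0 := by
  by_contra hcon
  push Not at hcon
  obtain ⟨k, hk⟩ := hB.base a₀
  have h1 : Ideal.span (Set.range B) ⊔ P ≤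
      RingHom.ker (aeval y : MvPolynomial (Fin (M + 1)) ℂ →ₐ[ℂ] K) := by
    refine sup_le (Ideal.span_le.2 ?_) fun g hg => ?_
    · rintro - ⟨a, rfl⟩
      exact hcon a
    · exact hyP g hg
  have h2 := h1 hk
  rw [RingHom.mem_ker, map_pow, aeval_X, hy1, one_pow] at h2
  exact one_ne_zero h2

private lemma FL4_alg {M r e : ℕ} {P : Ideal (MvPolynomial (Fin (M + 1)) ℂ)} (hP : Homog P)
    {B : Fin r → MvPolynomial (Fin (M + 1)) ℂ} (hB : BaseFree P e B) {y : Fin (M + 1) → K}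
    (hyP : ∀ g ∈ P, aeval y g = 0) {a₀ : Fin (M + 1)} (hy1 : y a₀ = 1)
    (halg : Algebra.IsAlgebraic (IntermediateField.adjoin ℂ (Set.range y)) K) {b₀ : Fin r}
    (hb₀ : aeval y (B b₀) ≠ 0) :
    Algebra.IsAlgebraic (IntermediateField.adjoin ℂ (Set.range fun b =>
      aeval y (B b) / aeval y (B b₀))) K := by
  obtain ⟨K₀, hK₀⟩ : ∃ K₀ : IntermediateField ℂ K, K₀ = IntermediateField.adjoin ℂ
    (Set.range fun b => aeval y (B b) / aeval y (B b₀)) := ⟨_, rfl⟩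
  rw [← hK₀]
  have hx : ∀ a, IsAlgebraic K₀ (y a) := by
    intro a
    have h1 := Pool.Agent.H5.DG3.point_algebraic hP hB hyP hb₀ a a₀
    rw [hy1, div_one, ← hK₀] at h1
    exact h1
  have hall : ∀ z ∈ IntermediateField.adjoin ℂ (Set.range y), IsAlgebraic K₀ z := by
    intro z hz
    induction hz using IntermediateField.adjoin_induction with
    | mem y hy =>
      obtain ⟨i, rfl⟩ := hy
      exact hx i
    | algebraMap c =>
      have h1 : algebraMap ℂ K c = algebraMap K₀ K (algebraMap ℂ K₀ c) := rfl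
      rw [h1]
      exact isAlgebraic_algebraMap _
    | add y y' _ _ h1 h2 => exact h1.add h2
    | inv y _ h1 => exact h1.inv
    | mul y y' _ _ h1 h2 => exact h1.mul h2
  refine ⟨fun f => ?_⟩
  obtain ⟨q, hq0, hq⟩ := halg.isAlgebraic f
  have hmem : ∀ x : IntermediateField.adjoin ℂ (Set.range y),
      algebraMap (IntermediateField.adjoin ℂ (Set.range y)) K x ∈ algebraicClosure K₀ K :=
    fun x => mem_algebraicClosure_iff.2 (hall x.1 x.2)
  obtain ⟨ψ, hψ⟩ : ∃ ψ : IntermediateField.adjoin ℂ (Set.range y) →+* algebraicClosure K₀ K,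
      ∀ x, ((ψ x : algebraicClosure K₀ K) : K) = x := by
    refine ⟨(algebraMap (IntermediateField.adjoin ℂ (Set.range y)) K).codRestrict
      (algebraicClosure K₀ K) hmem, fun x => rfl⟩
  have hC : IsAlgebraic (algebraicClosure K₀ K) f := by
    refine ⟨q.map ψ, ?_, ?_⟩
    · rwa [Ne, Polynomial.map_eq_zero]
    · rw [Polynomial.aeval_def, Polynomial.eval₂_map]
      rw [Polynomial.aeval_def] at hq
      have h1 : (algebraMap (algebraicClosure K₀ K) K).comp ψ =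
          algebraMap (IntermediateField.adjoin ℂ (Set.range y)) K := by
        ext x
        exact hψ x
      rw [h1]
      exact hq
  exact hC.restrictScalars K₀

private lemma FL4_index {n k : ℕ} {v : Fin (n + 2) → K} {b₀ : Fin (n + 2)} (hb₀ : v b₀ ≠ 0)
    (halg : Algebra.IsAlgebraic (IntermediateField.adjoin ℂ (Set.range fun b => v b / v b₀)) K)
    {z : Fin (k + 1) → K} (hz : IsTranscendenceBasis ℂ z) :
    k ≤ n ∧ ¬ ∃ (x : Fin (n + 2) → ℂ) (f : K), ∀ a, v a = algebraMap ℂ K (x a) * f := by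
  classical
  obtain ⟨J, hJ⟩ := exists_index halg hz
  have htr : ∀ i, Transcendental ℂ (v (J i) / v b₀) := hJ.1.transcendental
  have hinj : Function.Injective J := by
    intro a b hab
    exact hJ.1.injective (congrArg (fun j => v j / v b₀) hab)
  have hb : ∀ i, J i ≠ b₀ := by
    intro i h
    apply htr i
    rw [h, div_self hb₀]
    exact isAlgebraic_one
  constructor
  · have h1 : (Finset.univ.image J).card = k + 1 := by
      rw [Finset.card_image_of_injective _ hinj, Finset.card_univ, Fintype.card_fin]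
    have h2 : Finset.univ.image J ⊆ (Finset.univ : Finset (Fin (n + 2))).erase b₀ := by
      intro j hj
      obtain ⟨i, -, rfl⟩ := Finset.mem_image.1 hj
      exact Finset.mem_erase.2 ⟨hb i, Finset.mem_univ _⟩
    have h3 := Finset.card_le_card h2
    rw [h1, Finset.card_erase_of_mem (Finset.mem_univ _), Finset.card_univ, Fintype.card_fin] at h3
    omega
  · rintro ⟨x, f, hx⟩
    apply htr 0
    have hf : f ≠ 0 := by
      rintro rfl
      exact hb₀ (by rw [hx, mul_zero])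
    have h1 : v (J 0) / v b₀ = algebraMap ℂ K (x (J 0) / x b₀) := by
      rw [hx (J 0), hx b₀, mul_div_mul_right _ _ hf, map_div₀]
    rw [h1]
    exact isAlgebraic_algebraMap _

section

variable {u : AddValuation K (WithTop ℤ)}

private lemma FL4_poly_ord (hu : ∀ c : ℂ, 0 ≤ u (algebraMap ℂ K c)) {M : ℕ}
    {y : Fin (M + 1) → K} (hreg : ∀ a, 0 ≤ u (y a)) (p : MvPolynomial (Fin (M + 1)) ℂ) :
    0 ≤ u (aeval y p) := by
  induction p using MvPolynomial.induction_on with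
  | C a =>
    rw [aeval_C]
    exact hu a
  | add p q hp hq =>
    rw [map_add]
    exact (le_min hp hq).trans (u.map_add _ _)
  | mul_X p i hp =>
    rw [map_mul, aeval_X, u.map_mul]
    exact add_nonneg hp (hreg i)

omit [Algebra ℂ K] in
private lemma FL4_mul_eq {f g : K} {a b : ℤ} (hf : u f = ((a : ℤ) : WithTop ℤ))
    (hg : u g = ((b : ℤ) : WithTop ℤ)) : u (f * g) = ((a + b : ℤ) : WithTop ℤ) := by
  rw [u.map_mul, hf, hg, ← WithTop.coe_add]

omit [Algebra ℂ K] in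
private lemma FL4_mul_le {f g : K} {a b : ℤ} (hf : ((a : ℤ) : WithTop ℤ) ≤ u f)
    (hg : ((b : ℤ) : WithTop ℤ) ≤ u g) : ((a + b : ℤ) : WithTop ℤ) ≤ u (f * g) := by
  rw [u.map_mul, WithTop.coe_add]
  exact add_le_add hf hg

omit [Algebra ℂ K] in
private lemma FL4_pow {f : K} {a : ℤ} (h : u f = ((a : ℤ) : WithTop ℤ)) (m : ℕ) :
    u (f ^ m) = ((m * a : ℤ) : WithTop ℤ) := by
  induction m with
  | zero => simp
  | succ m ih =>
    rw [pow_succ, FL4_mul_eq ih h]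
    congr 1
    push_cast
    ring

omit [Algebra ℂ K] in
private lemma FL4_pow_le {f : K} {a : ℤ} (h : ((a : ℤ) : WithTop ℤ) ≤ u f) (m : ℕ) :
    ((m * a : ℤ) : WithTop ℤ) ≤ u (f ^ m) := by
  induction m with
  | zero => simp
  | succ m ih =>
    rw [pow_succ]
    refine le_trans (le_of_eq ?_) (FL4_mul_le ih h)
    congr 1
    push_cast
    ring

omit [Algebra ℂ K] in
private lemma FL4_prod {ι : Type} (S : Finset ι) {f : ι → K} {a : ι → ℤ}
    (h : ∀ j ∈ S, u (f j) = ((a j : ℤ) : WithTop ℤ)) :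
    u (∏ j ∈ S, f j) = ((∑ j ∈ S, a j : ℤ) : WithTop ℤ) := by
  classical
  induction S using Finset.induction_on with
  | empty => simp
  | insert i S hi ih =>
    rw [Finset.prod_insert hi, Finset.sum_insert hi]
    exact FL4_mul_eq (h i (Finset.mem_insert_self i S))
      (ih fun j hj => h j (Finset.mem_insert_of_mem hj))

omit [Algebra ℂ K] in
private lemma FL4_prod_le {ι : Type} (S : Finset ι) {f : ι → K} {a : ι → ℤ}
    (h : ∀ j ∈ S, ((a j : ℤ) : WithTop ℤ) ≤ u (f j)) :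
    ((∑ j ∈ S, a j : ℤ) : WithTop ℤ) ≤ u (∏ j ∈ S, f j) := by
  classical
  induction S using Finset.induction_on with
  | empty => simp
  | insert i S hi ih =>
    rw [Finset.prod_insert hi, Finset.sum_insert hi]
    exact FL4_mul_le (h i (Finset.mem_insert_self i S))
      (ih fun j hj => h j (Finset.mem_insert_of_mem hj))

omit [Algebra ℂ K] in
private lemma FL4_ne {f : K} {a : ℤ} (h : u f = ((a : ℤ) : WithTop ℤ)) : f ≠ 0 := by
  rintro rfl
  rw [u.map_zero] at h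
  exact absurd h.symm (WithTop.coe_ne_top)

omit [Algebra ℂ K] in
private lemma FL4_exists {f : K} (h : f ≠ 0) : ∃ a : ℤ, u f = ((a : ℤ) : WithTop ℤ) := by
  have := (u.ne_top_iff).2 h
  exact ⟨(u f).untop this, by simp⟩

omit [Algebra ℂ K] in
private lemma FL4_inv {f : K} {a : ℤ} (h : u f = ((a : ℤ) : WithTop ℤ)) :
    u f⁻¹ = ((-a : ℤ) : WithTop ℤ) := by
  obtain ⟨c, hc⟩ := FL4_exists (u := u) (inv_ne_zero (FL4_ne h))
  have h1 := FL4_mul_eq h hc
  rw [mul_inv_cancel₀ (FL4_ne h), u.map_one] at h1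
  have h2 : 0 = a + c := by exact_mod_cast h1
  rw [hc]
  congr 1
  omega

end

end

private lemma FL4_num {n κ e k t r ℓ : ℕ} (he : 1 ≤ e) (hk : k ≤ n) (hℓ : ℓ ≤ r * (k + 1)) :
    (κ : ℤ) * (e * r) + ((κ - t : ℕ) : ℤ) * (e * r) + ((κ - t : ℕ) : ℤ) * ℓ ≤
      e * ((n + 6) * κ) * r := by
  have h1 : κ * (e * r) + (κ - t) * (e * r) + (κ - t) * ℓ ≤ e * ((n + 6) * κ) * r := by
    have h2 : (κ - t) * (e * r) ≤ κ * (e * r) := Nat.mul_le_mul_right _ (Nat.sub_le _ _)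
    have h3 : (κ - t) * ℓ ≤ κ * (r * (n + 1)) :=
      Nat.mul_le_mul (Nat.sub_le _ _) (hℓ.trans (Nat.mul_le_mul_left _ (by omega)))
    have h4 : κ * (r * (n + 1)) ≤ e * (κ * (r * (n + 1))) := Nat.le_mul_of_pos_left _ he
    have h5 : e * ((n + 6) * κ) * r = κ * (e * r) + κ * (e * r) + e * (κ * (r * (n + 1))) +
      3 * (κ * (e * r)) := by ring
    have h6 : 0 ≤ κ * (e * r) := Nat.zero_le _
    omega
  exact_mod_cast h1

/-- The function for one cluster. -/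
private theorem FL4_cluster {A M m : ℕ} {P : Ideal (MvPolynomial (Fin (M + 1)) ℂ)}
    {G : Fin m → MvPolynomial (Fin (M + 1)) ℂ} (hP : Homog P) (γ : Cluster A P G) {K : Type}
    [Field K] [Algebra ℂ K] [Algebra.EssFiniteType ℂ K] {y : Fin (M + 1) → K}
    (hyP : ∀ g ∈ P, aeval y g = 0) {a₀ : Fin (M + 1)} (hy1 : y a₀ = 1)
    (halg : Algebra.IsAlgebraic (IntermediateField.adjoin ℂ (Set.range y)) K)
    (hΔ : aeval y γ.form ≠ 0) (hG : ∀ j, aeval y (G (γ.ι j)) ≠ 0) {k : ℕ}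
    {I : Fin (k + 1) → Fin (M + 1)} (hz : IsTranscendenceBasis ℂ fun i => y (I i))
    {B : Module.Basis (Fin (k + 1)) K Ω[K⁄ℂ]}
    (hB : ∀ i, B i = KaehlerDifferential.D ℂ K (y (I i))) :
    ∃ (t : ℕ) (θ : K), t < γ.κ ∧ θ ≠ 0 ∧
      ∀ (E : Pool.Agent.H23.PrimeDivisorOver K (k + 1)) (g₀ : K)
      (bE : Module.Basis (Fin (k + 1)) K Ω[K⁄ℂ]), E.ord g₀ = 1 →
      (∀ i f, 0 ≤ E.ord f → 0 ≤ E.ord (dualDer bE i f)) →
      (∀ i, i ≠ 0 → ∀ f, E.ord f ≤ E.ord (dualDer bE i f)) →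
      (∀ f, E.ord f ≤ E.ord (g₀ * dualDer bE 0 f)) → ∀ (b : Fin (M + 1)) (r : ℕ),
      E.ord (y b) = ((-(r : ℤ) : ℤ) : WithTop ℤ) → (∀ i, 0 ≤ E.ord ((y b)⁻¹ * y i)) →
      (((γ.e : ℤ) * (γ.len - (γ.n + 6) * γ.κ) * r -
        ({j | 0 < E.ord (aeval (fun i => (y b)⁻¹ * y i) (G (γ.ι j)))} :
          Set (Fin γ.len)).ncard : ℤ) : WithTop ℤ) ≤
        E.ord (θ * (bE.toMatrix B).det ^ (γ.κ - t)) ∧
      (((γ.e : ℤ) * (γ.len - (γ.n + 6) * γ.κ) * r - ((γ.κ - t : ℕ) : ℤ) : ℤ) : WithTop ℤ) ≤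
        E.ord (θ * (bE.toMatrix B).det ^ (γ.κ - t)) := by
  classical
  obtain ⟨v, hv⟩ : ∃ v : Fin (γ.n + 2) → K, v = fun a => aeval y (γ.B a) := ⟨_, rfl⟩
  have hva : ∀ a, v a = aeval y (γ.B a) := fun a => by rw [hv]
  have hΔ' : aeval v (Del γ.κ γ.N) ≠ 0 := by
    have h1 : aeval y γ.form = aeval v (Del γ.κ γ.N) := by
      unfold Cluster.form
      rw [hv, MvPolynomial.comp_aeval_apply]
    rwa [h1] at hΔ
  -- the index
  obtain ⟨b₀, hb₀⟩ := FL4_base γ.base hyP hy1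
  have halg' : Algebra.IsAlgebraic (IntermediateField.adjoin ℂ
      (Set.range fun b => v b / v b₀)) K := by
    rw [hv]
    exact FL4_alg hP γ.base hyP hy1 halg hb₀
  obtain ⟨hkn, hprop⟩ := FL4_index (v := v) (b₀ := b₀) (by rwa [hva]) halg' hz
  -- the constants
  have hD := γ.data
  have hfin := finite_constants hD.norm v hΔ'
  obtain ⟨T, hTdef⟩ : ∃ T : Finset (Fin (γ.n + 2) → ℂ), T = hfin.toFinset := ⟨_, rfl⟩
  have hT : ∀ τ, τ ∈ T ↔ τ ∈ Gam γ.N ℂ ∧ dot (toL K τ) v = 0 := by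
    intro τ
    rw [hTdef, Set.Finite.mem_toFinset]
    rfl
  have hTκ : T.card < γ.κ :=
    card_constants_lt hD.pos hD.norm hD.nondeg v hΔ' hprop T fun τ hτ => (hT τ).1 hτ
  have hdot : ∀ j, dot (toL K (γ.p j)) v =
      algebraMap ℂ K (γ.c j) * aeval y (G (γ.ι j)) := by
    intro j
    have h1 := hyP _ (γ.eq j)
    rw [map_sub, map_mul, aeval_C, sub_eq_zero] at h1
    rw [h1, hv, FL4_comb]
  have hdot0 : ∀ j, dot (toL K (γ.p j)) v ≠ 0 := by
    intro j
    rw [hdot]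
    refine mul_ne_zero ?_ (hG j)
    rw [Ne, map_eq_zero]
    exact γ.cne j
  have hJT : ∀ j, γ.p j ∉ T := fun j hj => hdot0 j ((hT _).1 hj).2
  -- the derivation
  obtain ⟨μ, hμ⟩ := phi_ne_zero hD.pos hD.norm hD.chow (fun i => dualDer B i) (by
    intro f hf
    obtain ⟨z, hz'⟩ := exists_const_of_D_eq_zero (K := K) (f := f) (by
      rw [← B.sum_repr (KaehlerDifferential.D ℂ (K) f)]
      refine Finset.sum_eq_zero fun a _ => ?_
      rw [← dualDer_apply, hf a, zero_smul])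
    exact ⟨z, hz'.symm⟩) v hΔ' T hT
  obtain ⟨δ, hδ⟩ : ∃ δ : Derivation ℂ K K,
    δ = ∑ i : Fin (k + 1), algebraMap ℂ (K) (μ i) • dualDer B i := ⟨_, rfl⟩
  have hδapp : ∀ g, δ g = ∑ i : Fin (k + 1), algebraMap ℂ (K) (μ i) * dualDer B i g := by
    intro g
    rw [hδ, FL4_der_sum]
    rfl
  have hΦ : evVW (Phi γ.φ T.card) v (fun a => δ (v a)) ≠ 0 := by
    have h1 : (fun a => δ (v a)) = fun a => ∑ i, algebraMap ℂ (K) (μ i) *
        dualDer B i (v a) := funext fun a => hδapp _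
    rw [h1]
    exact hμ
  refine ⟨T.card, evVW (Phi γ.φ T.card) v (fun a => δ (v a)) *
    (∏ j, dot (toL K (γ.p j)) v)⁻¹, hTκ, mul_ne_zero hΦ
      (inv_ne_zero (Finset.prod_ne_zero_iff.2 fun j _ => hdot0 j)), ?_⟩
  intro E g₀ bE hg₀ hreg hlog hlog0 b r hr hmin
  have hyb : y b ≠ 0 := FL4_ne hr
  have hr' : ∀ j, ((-(r : ℤ) : ℤ) : WithTop ℤ) ≤ E.ord (y j) := by
    intro j
    have h1 : E.ord (y j) = E.ord ((y b)⁻¹ * y j) + E.ord (y b) := by
      rw [← E.ord.map_mul]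
      congr 1
      rw [mul_comm (y b)⁻¹ (y j), mul_assoc, inv_mul_cancel₀ hyb, mul_one]
    rw [h1, hr]
    exact le_add_of_nonneg_left (hmin j)
  have hℓ : loss k r ≤ r * (k + 1) := by
    unfold loss
    split_ifs
    · positivity
    · exact le_rfl
  have hδ1 : ∀ f, 0 ≤ E.ord f → ((-(loss k r : ℤ) : ℤ) : WithTop ℤ) ≤
      E.ord ((bE.toMatrix B).det * δ f) := by
    intro f hf
    rw [hδapp, Finset.mul_sum]
    apply E.ord.map_le_sum
    intro a _
    have h2 := (localDer_loss (v := E.ord) hg₀ hreg hlog hlog0 hB a (n := r)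
      (fun j => hr' (I j))).1 f hf
    have h3 : (bE.toMatrix B).det * (algebraMap ℂ (K) (μ a) * dualDer B a f) =
        algebraMap ℂ (K) (μ a) * ((bE.toMatrix B).det * dualDer B a f) := by ring
    rw [h3, E.ord.map_mul]
    exact h2.trans (le_add_of_nonneg_left (E.ord_const _))
  have hδ2 : ∀ f (t : ℤ), ((t : ℤ) : WithTop ℤ) ≤ E.ord f →
      ((t - 1 - (loss k r : ℤ) : ℤ) : WithTop ℤ) ≤ E.ord ((bE.toMatrix B).det * δ f) := by
    intro f t hf
    rw [hδapp, Finset.mul_sum]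
    apply E.ord.map_le_sum
    intro a _
    have h2 := (localDer_loss (v := E.ord) hg₀ hreg hlog hlog0 hB a (n := r)
      (fun j => hr' (I j))).2 f t hf
    have h3 : (bE.toMatrix B).det * (algebraMap ℂ (K) (μ a) * dualDer B a f) =
        algebraMap ℂ (K) (μ a) * ((bE.toMatrix B).det * dualDer B a f) := by ring
    rw [h3, E.ord.map_mul]
    exact h2.trans (le_add_of_nonneg_left (E.ord_const _))
  -- the scaled point
  obtain ⟨yh, hyh⟩ : ∃ yh : Fin (M + 1) → K, yh = fun i => (y b)⁻¹ * y i := ⟨_, rfl⟩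
  have hsv : ∀ a, ((y b)⁻¹) ^ γ.e * v a = aeval yh (γ.B a) := by
    intro a
    rw [hyh, FL4_aeval_scale (γ.base.hom a), hva]
  have hsG : ∀ j, ((y b)⁻¹) ^ γ.e * dot (toL K (γ.p j)) v =
      algebraMap ℂ K (γ.c j) * aeval yh (G (γ.ι j)) := by
    intro j
    rw [hyh, FL4_aeval_scale (γ.homG j), hdot]
    ring
  have hyh0 : ∀ i, 0 ≤ E.ord (yh i) := by
    intro i
    rw [hyh]
    exact hmin i
  have hyhb : E.ord (yh b) = 0 := by
    rw [hyh]
    show E.ord ((y b)⁻¹ * y b) = 0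
    rw [inv_mul_cancel₀ hyb, E.ord.map_one]
  have hyhP : ∀ g ∈ P, aeval yh g = 0 := by
    rw [hyh]
    exact FL4_scale_mem hP hyP _
  have hv0 : ∀ a, 0 ≤ E.ord (((y b)⁻¹) ^ γ.e * v a) := by
    intro a
    rw [hsv]
    exact FL4_poly_ord E.ord_const hyh0 _
  have hv1 : ∃ a, E.ord (((y b)⁻¹) ^ γ.e * v a) = 0 := by
    obtain ⟨a, ha⟩ := Pool.Agent.H5.DG3.point_unit (Pool.Agent.H23.toFano E) γ.base hyhP hyh0 hyhb
    exact ⟨a, by rw [hsv]; exact ha⟩
  have hordG : ∀ j, E.ord (((y b)⁻¹) ^ γ.e * dot (toL K (γ.p j)) v) =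
      E.ord (aeval yh (G (γ.ι j))) := by
    intro j
    rw [hsG, E.ord.map_mul, Pool.Agent.H92.GT.val_const E.ord_const (γ.cne j), zero_add]
  have hexo : ∀ j, ∃ o : ℕ, E.ord (((y b)⁻¹) ^ γ.e * dot (toL K (γ.p j)) v) =
      ((o : ℤ) : WithTop ℤ) := by
    intro j
    obtain ⟨a, ha⟩ := FL4_exists (u := E.ord) (mul_ne_zero
      (pow_ne_zero γ.e (inv_ne_zero hyb)) (hdot0 j))
    have h1 : 0 ≤ a := by
      have h2 : 0 ≤ E.ord (aeval yh (G (γ.ι j))) := FL4_poly_ord E.ord_const hyh0 _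
      rw [← hordG, ha] at h2
      exact_mod_cast h2
    refine ⟨a.toNat, ?_⟩
    rw [ha]
    congr 1
    omega
  choose o ho using hexo
  have hcount : ((({j | 0 < E.ord (aeval (fun i => (y b)⁻¹ * y i) (G (γ.ι j)))} :
      Set (Fin γ.len)).ncard : ℕ) : ℤ) = ∑ j, (o j : ℤ) - ∑ j, ((o j - 1 : ℕ) : ℤ) := by
    have h1 : ({j | 0 < E.ord (aeval (fun i => (y b)⁻¹ * y i) (G (γ.ι j)))} :
        Set (Fin γ.len)) =
        (((Finset.univ : Finset (Fin γ.len)).filter fun j => 0 < o j : Finset (Fin γ.len)) :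
          Set (Fin γ.len)) := by
      ext j
      rw [Set.mem_ofPred_eq, Finset.coe_filter, Set.mem_ofPred_eq, ← hyh, ← hordG, ho]
      constructor
      · intro h
        exact ⟨Finset.mem_univ _, by exact_mod_cast h⟩
      · intro h
        exact_mod_cast h.2
    rw [h1, Set.ncard_coe_finset, Finset.card_filter, ← Finset.sum_sub_distrib]
    push_cast
    refine Finset.sum_congr rfl fun j _ => ?_
    split_ifs with h <;> omega
  -- the product of the linear forms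
  have hxe : E.ord ((y b) ^ γ.e) = ((-((γ.e : ℤ) * r) : ℤ) : WithTop ℤ) := by
    rw [FL4_pow hr]
    congr 1
    ring
  have hLj : ∀ j ∈ (Finset.univ : Finset (Fin γ.len)), E.ord (dot (toL K (γ.p j)) v) =
      (((o j : ℤ) - γ.e * r : ℤ) : WithTop ℤ) := by
    intro j _
    have h5 : dot (toL K (γ.p j)) v =
        (y b) ^ γ.e * (((y b)⁻¹) ^ γ.e * dot (toL K (γ.p j)) v) := by
      rw [← mul_assoc, ← mul_pow, mul_inv_cancel₀ hyb, one_pow, one_mul]
    rw [h5, FL4_mul_eq hxe (ho j)]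
    congr 1
    ring
  have hprod := FL4_inv (FL4_prod Finset.univ hLj)
  rw [Finset.sum_sub_distrib, Finset.sum_const, Finset.card_univ, Fintype.card_fin,
    nsmul_eq_mul] at hprod
  have hcomm : evVW (Phi γ.φ T.card) v (fun a => δ (v a)) *
      (∏ j, dot (toL K (γ.p j)) v)⁻¹ * (bE.toMatrix B).det ^ (γ.κ - T.card) =
      evVW (Phi γ.φ T.card) v (fun a => δ (v a)) * (bE.toMatrix B).det ^ (γ.κ - T.card) *
      (∏ j, dot (toL K (γ.p j)) v)⁻¹ := by ring
  have hnum := FL4_num (t := T.card) (κ := γ.κ) γ.base.pos hkn hℓ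
  rw [hcomm]
  constructor
  · have h1 := cluster_val4 (u := E.ord) E.ord_const hD γ.hom γ.mem γ.pinj hΔ' T
      (fun τ hτ => ((hT τ).1 hτ).1) (fun τ hτ => ((hT τ).1 hτ).2) hJT hr hv0 hv1 ho hg₀
      (det := (bE.toMatrix B).det) (δ := δ) (L := loss k r) (a := fun j => o j - 1)
      (fun j => Nat.sub_le _ _)
      (fun j => by
        by_cases hoj : o j = 0
        · refine le_trans (le_of_eq ?_) (hδ1 _ (by rw [ho j]; exact_mod_cast Nat.zero_le _))
          rw [hoj]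
          congr 1
          simp
        · refine le_trans (le_of_eq ?_) (hδ2 _ (o j) (ho j).ge)
          congr 1
          have : ((o j - 1 : ℕ) : ℤ) = (o j : ℤ) - 1 := by omega
          rw [this]
          ring)
      hδ1
    refine le_trans ?_ (FL4_mul_le h1 hprod.ge)
    rw [hcount]
    refine WithTop.coe_le_coe.mpr ?_
    linarith
  · have h1 := cluster_val4 (u := E.ord) E.ord_const hD γ.hom γ.mem γ.pinj hΔ' T
      (fun τ hτ => ((hT τ).1 hτ).1) (fun τ hτ => ((hT τ).1 hτ).2) hJT hr hv0 hv1 ho hg₀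
      (det := (bE.toMatrix B).det) (δ := δ) (L := loss k r + 1) (a := o)
      (fun j => le_rfl)
      (fun j => by
        refine le_trans (le_of_eq ?_) (hδ2 _ (o j) (ho j).ge)
        congr 1
        push_cast
        ring)
      (fun f hf => by
        refine le_trans (le_of_eq ?_) (hδ2 f 0 hf)
        congr 1
        push_cast
        ring)
    refine le_trans ?_ (FL4_mul_le h1 hprod.ge)
    refine WithTop.coe_le_coe.mpr ?_
    push_cast
    linarith

private lemma FL4_ncard {A M m : ℕ} {P : Ideal (MvPolynomial (Fin (M + 1)) ℂ)}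
    {G : Fin m → MvPolynomial (Fin (M + 1)) ℂ} {S : Finset (Fin m)} (Γ : Partition A P G S)
    (p : Fin m → Prop) :
    ∑ c, ({j | p ((Γ.γ c).ι j)} : Set (Fin (Γ.γ c).len)).ncard ≤ {j | j ∈ S ∧ p j}.ncard := by
  classical
  have h1 : ∀ c, ({j | p ((Γ.γ c).ι j)} : Set (Fin (Γ.γ c).len)).ncard =
      ((Finset.univ : Finset (Fin (Γ.γ c).len)).filter fun j => p ((Γ.γ c).ι j)).card := by
    intro c
    rw [← Set.ncard_coe_finset]
    congr 1
    ext j
    simp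
  have h2 : {j | j ∈ S ∧ p j}.ncard = (S.filter fun j => p j).card := by
    rw [← Set.ncard_coe_finset]
    congr 1
    ext j
    simp
  rw [h2, Finset.sum_congr rfl fun c _ => h1 c, ← Finset.card_sigma]
  obtain ⟨f, hf⟩ : ∃ f : (Σ c, Fin (Γ.γ c).len) → Fin m, ∀ c j, f ⟨c, j⟩ = (Γ.γ c).ι j :=
    ⟨fun x => (Γ.γ x.1).ι x.2, fun _ _ => rfl⟩
  have hinj : Function.Injective f := by
    rintro ⟨c, j⟩ ⟨c', j'⟩ h
    rw [hf, hf] at h
    obtain rfl := Γ.disj _ _ _ _ h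
    rw [(Γ.γ c).inj h]
  rw [← Finset.card_image_of_injective _ hinj]
  refine Finset.card_le_card fun i hi => ?_
  obtain ⟨⟨c, j⟩, hj, rfl⟩ := Finset.mem_image.1 hi
  have h3 := (Finset.mem_filter.1 (Finset.mem_sigma.1 hj).2).2
  rw [hf]
  exact Finset.mem_filter.2 ⟨Γ.mem c j, h3⟩

/-- The theorem over function fields. -/
private theorem FL4_core {A M m : ℕ} {P : Ideal (MvPolynomial (Fin (M + 1)) ℂ)}
    {G : Fin m → MvPolynomial (Fin (M + 1)) ℂ} {S : Finset (Fin m)} (hP : Homog P)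
    (Γ : Partition A P G S) {K : Type} [Field K] [Algebra ℂ K] [Algebra.EssFiniteType ℂ K]
    {y : Fin (M + 1) → K} (hyP : ∀ g ∈ P, aeval y g = 0) {a₀ : Fin (M + 1)} (hy1 : y a₀ = 1)
    (halg : Algebra.IsAlgebraic (IntermediateField.adjoin ℂ (Set.range y)) K)
    (hΔ : aeval y Γ.form ≠ 0) (hG : ∀ j ∈ S, aeval y (G j) ≠ 0) {k' : ℕ}
    {I : Fin (k' + 1) → Fin (M + 1)} (hz : IsTranscendenceBasis ℂ fun i => y (I i))
    (Bd : Pool.Agent.H23.PrimeDivisorOver K (k' + 1) → Prop) {t : K}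
    (ht : t ≠ 0) {k a : ℕ} (hk : 1 ≤ k)
    (hnum : A * a ≤ (A - 1) * (k * ∑ j ∈ S, (G j).totalDegree))
    (h0 : ∀ (E : Pool.Agent.H23.PrimeDivisorOver K (k' + 1)) (b : Fin (M + 1)), y b ≠ 0 →
      (∀ i, 0 ≤ E.ord ((y b)⁻¹ * y i)) → 0 ≤ E.ord ((y b)⁻¹ ^ a * t))
    (h1 : ∀ E : Pool.Agent.H23.PrimeDivisorOver K (k' + 1), ¬ Bd E → ∀ b : Fin (M + 1), y b ≠ 0 →
      (∀ i, 0 ≤ E.ord ((y b)⁻¹ * y i)) →
      (((k * {j | j ∈ S ∧ 0 < E.ord (aeval (fun i => (y b)⁻¹ * y i) (G j))}.ncard : ℕ) : ℤ) :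
        WithTop ℤ) ≤ E.ord ((y b)⁻¹ ^ a * t)) : Pool.Agent.H17LG.IsLogGeneralType Bd := by
  classical
  obtain ⟨B, hB⟩ := H23.exists_basis_kaehler hz
  have hΔc : ∀ c, aeval y (Γ.γ c).form ≠ 0 := by
    intro c h
    apply hΔ
    unfold Partition.form
    rw [map_prod]
    exact Finset.prod_eq_zero (Finset.mem_univ c) h
  choose τ θ hτ hθ hest using fun c => FL4_cluster hP (Γ.γ c) hyP hy1 halg (hΔc c)
    (fun j => hG _ (Γ.mem c j)) hz hB
  -- numbers
  have hnumΓ := Γ.num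
  have hA : 1 ≤ A := by
    refine Nat.pos_of_ne_zero fun h => ?_
    exact absurd (Nat.lt_of_lt_of_le hnumΓ (Nat.mul_eq_zero.2 (Or.inl h)).le) (Nat.not_lt_zero _)
  have hlen : ∀ c, ((Γ.γ c).n + 6) * (Γ.γ c).κ ≤ (Γ.γ c).len := by
    intro c
    have h2 := (Γ.γ c).card
    have h3 : ((Γ.γ c).n + 6) * (Γ.γ c).κ ≤ 2 * A * (((Γ.γ c).n + 6) * (Γ.γ c).κ) :=
      Nat.le_mul_of_pos_left _ (by omega)
    have h4 : 2 * A * (((Γ.γ c).n + 6) * (Γ.γ c).κ) = 2 * A * ((Γ.γ c).n + 6) * (Γ.γ c).κ := by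
      ring
    omega
  obtain ⟨σ, hσ⟩ : ∃ σ : ℕ, σ = ∑ c, (Γ.γ c).e * ((Γ.γ c).len - ((Γ.γ c).n + 6) * (Γ.γ c).κ) :=
    ⟨_, rfl⟩
  rw [← hσ] at hnumΓ
  have haσ : a + 1 ≤ k * σ := by
    have h2 : A * a < A * (k * σ) := by
      calc A * a ≤ (A - 1) * (k * ∑ j ∈ S, (G j).totalDegree) := hnum
        _ = k * ((A - 1) * ∑ j ∈ S, (G j).totalDegree) := by ring
        _ < k * (A * σ) := Nat.mul_lt_mul_of_pos_left hnumΓ (by omega)
        _ = A * (k * σ) := by ring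
    exact Nat.lt_of_mul_lt_mul_left h2
  have hσZ : (σ : ℤ) = ∑ c, ((Γ.γ c).e : ℤ) * ((Γ.γ c).len - ((Γ.γ c).n + 6) * (Γ.γ c).κ) := by
    rw [hσ]
    push_cast
    refine Finset.sum_congr rfl fun c _ => ?_
    rw [Nat.cast_sub (hlen c)]
    push_cast
    ring
  obtain ⟨s, hs⟩ : ∃ s : ℕ, s = ∑ c, ((Γ.γ c).κ - τ c) := ⟨_, rfl⟩
  have hs1 : 1 ≤ s := by
    have h2 : ∃ c : Fin Γ.ν, True := by
      by_contra hcon
      push Not at hcon
      have h3 : σ = 0 := by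
        rw [hσ]
        exact Finset.sum_eq_zero fun c _ => (hcon c).elim
      rw [h3] at haσ
      omega
    obtain ⟨c, -⟩ := h2
    have h3 : (Γ.γ c).κ - τ c ≤ s := by
      rw [hs]
      exact Finset.single_le_sum (f := fun c => (Γ.γ c).κ - τ c) (fun _ _ => Nat.zero_le _)
        (Finset.mem_univ c)
    have h4 := hτ c
    omega
  refine isLogGeneralType_of_function (K := K) hz (b := B) (M := k * s)
    (Nat.mul_pos (by omega) (by omega)) hy1 halg
    (Θ := (∏ c, θ c) ^ k * t)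
    (mul_ne_zero (pow_ne_zero _ (Finset.prod_ne_zero_iff.2 fun c _ => hθ c)) ht) ?_
  intro E g₀ bE hg₀ hreg hlog hlog0 i
  -- the minimal order
  obtain ⟨b, -, hb⟩ := Finset.exists_min_image Finset.univ (fun j => E.ord (y j))
    ⟨a₀, Finset.mem_univ _⟩
  have hb' : ∀ j, E.ord (y b) ≤ E.ord (y j) := fun j => hb j (Finset.mem_univ _)
  have hle0 : E.ord (y b) ≤ 0 := by
    have := hb' a₀
    rwa [hy1, E.ord.map_one] at this
  have hyb : y b ≠ 0 := by
    intro h0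
    rw [h0, E.ord.map_zero] at hle0
    exact absurd hle0 (by simp)
  obtain ⟨r, hr⟩ : ∃ r : ℕ, E.ord (y b) = ((-(r : ℤ) : ℤ) : WithTop ℤ) := by
    obtain ⟨a, ha⟩ := FL4_exists (u := E.ord) hyb
    rw [ha] at hle0
    have h2 : a ≤ 0 := by exact_mod_cast hle0
    refine ⟨(-a).toNat, ?_⟩
    rw [ha]
    congr 1
    omega
  have hy0 : ∀ i, 0 ≤ E.ord ((y b)⁻¹ * y i) := by
    intro j
    have h1 : E.ord (y j) = E.ord ((y b)⁻¹ * y j) + E.ord (y b) := by
      rw [← E.ord.map_mul]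
      congr 1
      rw [mul_comm (y b)⁻¹ (y j), mul_assoc, inv_mul_cancel₀ hyb, mul_one]
    have h2 := hb' j
    rw [h1, hr] at h2
    induction hc : E.ord ((y b)⁻¹ * y j) using WithTop.recTopCoe with
    | top => exact le_top
    | coe a =>
      rw [hc] at h2
      have h3 : -(r : ℤ) ≤ a + -(r : ℤ) := by exact_mod_cast h2
      exact_mod_cast (by omega : (0 : ℤ) ≤ a)
  have hyi : ((-(r : ℤ) : ℤ) : WithTop ℤ) ≤ E.ord (y i) := by
    rw [← hr]
    exact hb' i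
  have hΘ : (∏ c, θ c) ^ k * t * y i * (bE.toMatrix B).det ^ (k * s) =
      (∏ c, θ c * (bE.toMatrix B).det ^ ((Γ.γ c).κ - τ c)) ^ k *
        ((y b) ^ a * ((y b)⁻¹ ^ a * t)) * y i := by
    have h2 : (y b) ^ a * ((y b)⁻¹ ^ a * t) = t := by
      rw [← mul_assoc, ← mul_pow, mul_inv_cancel₀ hyb, one_pow, one_mul]
    rw [h2, Finset.prod_mul_distrib, mul_pow, Finset.prod_pow_eq_pow_sum, ← hs, mul_comm k s,
      pow_mul]
    ring
  have hya : E.ord ((y b) ^ a) = ((a * (-(r : ℤ)) : ℤ) : WithTop ℤ) := FL4_pow hr a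
  have hrσ : (0 : ℤ) ≤ (r : ℤ) * (k * σ - (a + 1)) := by
    refine mul_nonneg (Nat.cast_nonneg r) ?_
    have h2 : ((a : ℤ) + 1) ≤ k * σ := by exact_mod_cast haσ
    linarith
  have hsumr : ∑ c, ((Γ.γ c).e : ℤ) * ((Γ.γ c).len - ((Γ.γ c).n + 6) * (Γ.γ c).κ) * r =
      σ * r := by
    rw [hσZ, Finset.sum_mul]
  rw [hΘ]
  constructor
  · intro hE
    have h2 := FL4_prod_le (u := E.ord) Finset.univ fun c _ =>
      (hest c E g₀ bE hg₀ hreg hlog hlog0 b r hr hy0).1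
    have h3 := FL4_mul_le (FL4_mul_le (FL4_pow_le h2 k)
      (FL4_mul_le hya.ge (h1 E hE b hyb hy0))) hyi
    refine le_trans ?_ h3
    have h4 := FL4_ncard Γ fun j => 0 < E.ord (aeval (fun i => (y b)⁻¹ * y i) (G j))
    rw [Finset.sum_sub_distrib, hsumr]
    obtain ⟨x, hx⟩ : ∃ x : ℕ, x = ∑ c, ({j | 0 < E.ord (aeval (fun i => (y b)⁻¹ * y i)
      (G ((Γ.γ c).ι j)))} : Set (Fin (Γ.γ c).len)).ncard := ⟨_, rfl⟩
    rw [← hx] at h4
    have hx' : ((∑ c, ((({j | 0 < E.ord (aeval (fun i => (y b)⁻¹ * y i)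
      (G ((Γ.γ c).ι j)))} : Set (Fin (Γ.γ c).len)).ncard : ℕ) : ℤ)) : ℤ) = x := by
      rw [hx]
      push_cast
      rfl
    rw [hx']
    obtain ⟨x', hx''⟩ : ∃ x' : ℕ, x' = {j | j ∈ S ∧ 0 < E.ord (aeval (fun i => (y b)⁻¹ * y i)
      (G j))}.ncard := ⟨_, rfl⟩
    rw [← hx''] at h4 ⊢
    have h5 : (k : ℤ) * x ≤ k * x' := by
      exact_mod_cast Nat.mul_le_mul_left k h4
    refine WithTop.coe_le_coe.mpr ?_
    push_cast
    linarith
  · have h2 := FL4_prod_le (u := E.ord) Finset.univ fun c _ =>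
      (hest c E g₀ bE hg₀ hreg hlog hlog0 b r hr hy0).2
    have h3 := FL4_mul_le (FL4_mul_le (FL4_pow_le h2 k)
      (FL4_mul_le hya.ge (h0 E b hyb hy0))) hyi
    rw [Finset.sum_sub_distrib, hsumr] at h3
    have hx' : ((∑ c, (((Γ.γ c).κ - τ c : ℕ) : ℤ)) : ℤ) = s := by
      rw [hs]
      push_cast
      rfl
    rw [hx'] at h3
    refine le_trans ?_ (add_le_add h3 (le_refl (((k * s : ℕ) : ℤ) : WithTop ℤ)))
    rw [← WithTop.coe_add]
    refine WithTop.coe_le_coe.mpr ?_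
    push_cast
    linarith

end

theorem field_lgt4 {A M m : ℕ} {P : Ideal (MvPolynomial (Fin (M + 1)) ℂ)}
    {G : Fin m → MvPolynomial (Fin (M + 1)) ℂ} {S : Finset (Fin m)} (hP : Homog P)
    (Γ : Partition A P G S) {K : Type} [Field K] [Algebra ℂ K] [Algebra.EssFiniteType ℂ K]
    {y : Fin (M + 1) → K} (hyP : ∀ g ∈ P, aeval y g = 0) {a₀ : Fin (M + 1)} (hy1 : y a₀ = 1)
    (halg : Algebra.IsAlgebraic (IntermediateField.adjoin ℂ (Set.range y)) K)
    (hΔ : aeval y Γ.form ≠ 0) (hG : ∀ j ∈ S, aeval y (G j) ≠ 0) {w : ℕ} (hw : 1 ≤ w)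
    (hz : ∃ z : Fin w → K, IsTranscendenceBasis ℂ z) (Bd : PrimeDivisorOver K w → Prop) {t : K}
    (ht : t ≠ 0) {k a : ℕ} (hk : 1 ≤ k)
    (hnum : A * a ≤ (A - 1) * (k * ∑ j ∈ S, (G j).totalDegree))
    (h0 : ∀ (E : PrimeDivisorOver K w) (b : Fin (M + 1)), y b ≠ 0 →
      (∀ i, 0 ≤ E.ord ((y b)⁻¹ * y i)) → 0 ≤ E.ord ((y b)⁻¹ ^ a * t))
    (h1 : ∀ E : PrimeDivisorOver K w, ¬ Bd E → ∀ b : Fin (M + 1), y b ≠ 0 →
      (∀ i, 0 ≤ E.ord ((y b)⁻¹ * y i)) →
      (((k * {j | j ∈ S ∧ 0 < E.ord (aeval (fun i => (y b)⁻¹ * y i) (G j))}.ncard : ℕ) : ℤ) :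
        WithTop ℤ) ≤ E.ord ((y b)⁻¹ ^ a * t)) : IsLogGeneralType Bd := by
  obtain ⟨k', rfl⟩ : ∃ k', w = k' + 1 := ⟨w - 1, by omega⟩
  obtain ⟨z, hz⟩ := hz
  obtain ⟨I, hI⟩ := Pool.Agent.H92.GT.exists_index halg hz
  refine Pool.Agent.H17LG.isLogGeneralType_translate (K := K)
    (B := fun E => Bd (Pool.Agent.H23.toFano E)) (fun E => Iff.rfl) ?_
  exact FL4_core hP Γ hyP hy1 halg hΔ hG hI _ ht hk hnum
    (fun E b hb h => h0 (Pool.Agent.H23.toFano E) b hb h)
    (fun E hE b hb h => h1 (Pool.Agent.H23.toFano E) hE b hb h)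

end Pool.Agent.H5.DG4

end
end

section

/-!
# Project SY, module Count3: the number of ramified sections through a point

`Y` is a projective variety of dimension `r`.  There is a number `κ` such that the following is true
for all integral sections `G j = 0` of `Y`, pairwise different.  Let `X` be a projective variety of
dimension `r` with a finite morphism to `Y` such that the inverse images of all the `G j = 0` have
multiplicities at least two outside of a closed set `B`.  If `y` is a point of `Y` such that `X` is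
smooth at all points over `y`, and none of them is in `B`, then at most `κ` of the `G j` vanish
at `y`.
-/

open Topology Filter MvPolynomial
open Pool.Agent.H17 (PN VanishesAt ZariskiClosedIn)
open Pool.Agent.H17LG.Variety (FunField)
open Pool.Agent.H5.DG (Homog variety)
open Pool.Agent.H5.DG3

noncomputable section

namespace Pool.Agent.H39.SY

/-- The morphism in affine coordinates. -/
theorem morph_eq_aff {N M m s q : ℕ} {P : Ideal (MvPolynomial (Fin (M + 1)) ℂ)}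
    {G : Fin m → MvPolynomial (Fin (M + 1)) ℂ} {I : Ideal (MvPolynomial (Fin (N + 1)) ℂ)}
    {F : Fin s → Fin (M + 1) → MvPolynomial (Fin (N + 1)) ℂ}
    (h : RamifiedMorphism q P G I ∅ ∅ F) {x : Fin (N + 1) → ℂ} (hx : x ∈ Zer I) (hx0 : x ≠ 0)
    {α : Fin s} {b : Fin (M + 1)} (hb : eval x (F α b) ≠ 0) {y : Fin (M + 1) → ℂ}
    (hy : aff (F α) b x = y) (hy0 : y ≠ 0) :
    morph F (Projectivization.mk ℂ x hx0) = Projectivization.mk ℂ y hy0 := by
  have hα : (fun a => eval x (F α a)) ≠ 0 := fun h0 => hb (congrFun h0 b)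
  rw [morph_mk h.morphism hx0 hx hα, Projectivization.mk_eq_mk_iff']
  refine ⟨eval x (F α b), ?_⟩
  funext a
  rw [Pi.smul_apply, smul_eq_mul, ← hy]
  exact mul_div_cancel₀ _ hb

end Pool.Agent.H39.SY

end
end

section

/-!
# Project DG4, module SecK: sections at the generic point of a closed subvariety

`x i = ratio Q i j₀`, `y i = F α i (x) / F α a₀ (x)`, `t = τ α (x) / F α a₀ (x) ^ a`.
`section_ord_nonneg`: `(y b)⁻¹ ^ a * t = τ α (x) / F α b (x) ^ a`; the equation of `integral`, divided by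
`F α b (x) ^ (a * n)`, has the coefficients `c (n - i) ((y b)⁻¹ y)` (`aeval_eq_pow_mul`), of order `≥ 0`
since all the `(y b)⁻¹ y i` are regular; `ord_root_nonneg`.
`section_ord_ge`: a chart `j₁` with regular coordinates `x' i = ratio Q i j₁` as in
`Pool.Agent.H5.DG3.strongly_of_linearField` (module `Pool.Agent.H5.DG3.Sub3`).
`Pool.Agent.H5.DG3.exists_ord_zero` (module Centre), for the set of all products `T * F β c` such that `T`
satisfies the condition of `VanishesTimes` for `β`: `T (x')` and `F β c (x')` have order `0`.  With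
`u = F β b (x')`: `ord u = 0` since `(y b)⁻¹ y c = F β c (x') / u` is regular (`compat`, and
`x' = (x j₁)⁻¹ x`), `(y b)⁻¹ ^ a * t = τ β (x') / u ^ a` (`IsSection.compat`), and
`G j ((y b)⁻¹ y) = L j (x') / u ^ d` with `L j = aeval (F β) (G j)`.  All elements of
`radical (span {L j} ⊔ I)` have order `≥ 1` at `x'` if `L j (x')` has positive order, and order `≥ 0` in
any case; so the elements of the `k`-th power of the product have order `≥ k` times the number of the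
`j ∈ J` with `ord (L j (x')) > 0` (models: `CE_ideal` and `ord_ge_of_mult` in module Centre).
-/

open MvPolynomial
open Pool.Agent.H17 (PN VanishesAt ZariskiClosedIn)
open Pool.Agent.H17GT (coordFun)
open Pool.Agent.H17LG.Variety (FunField ratio)
open Pool.Agent.H23.Fano (PrimeDivisorOver)
open Pool.Agent.H5.DG (Homog variety valAt)
open Pool.Agent.H5.DG3 (IsMorphism morph CentreIn)

noncomputable section

namespace Pool.Agent.H5.DG4

variable {N M m s w a k : ℕ} {I : Ideal (MvPolynomial (Fin (N + 1)) ℂ)} {B : Set (PN N)}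
  {F : Fin s → Fin (M + 1) → MvPolynomial (Fin (N + 1)) ℂ}
  {τ : Fin s → MvPolynomial (Fin (N + 1)) ℂ} {J : Finset (Fin m)}
  {G : Fin m → MvPolynomial (Fin (M + 1)) ℂ}

/-! ### Auxiliary lemmas -/

section

variable {K : Type} [Field K] {u : AddValuation K (WithTop ℤ)}

private lemma SK_mul_le {f g : K} {a b : ℤ} (hf : ((a : ℤ) : WithTop ℤ) ≤ u f)
    (hg : ((b : ℤ) : WithTop ℤ) ≤ u g) : ((a + b : ℤ) : WithTop ℤ) ≤ u (f * g) := by
  rw [u.map_mul, WithTop.coe_add]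
  exact add_le_add hf hg

private lemma SK_pow_zero {f : K} (h : u f = 0) (m : ℕ) : u (f ^ m) = 0 := by
  induction m with
  | zero => simp
  | succ m ih => rw [pow_succ, u.map_mul, ih, h, add_zero]

private lemma SK_pos_iff {f : K} : 0 < u f ↔ ((1 : ℤ) : WithTop ℤ) ≤ u f := by
  induction u f using WithTop.recTopCoe with
  | top => simp
  | coe a =>
    constructor
    · intro h
      have h1 : (0 : ℤ) < a := by exact_mod_cast h
      exact_mod_cast (by omega : (1 : ℤ) ≤ a)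
    · intro h
      have h1 : (1 : ℤ) ≤ a := by exact_mod_cast h
      exact_mod_cast (by omega : (0 : ℤ) < a)

private lemma SK_both_zero {a b : WithTop ℤ} (ha : 0 ≤ a) (hb : 0 ≤ b) (h : a + b = 0) :
    a = 0 ∧ b = 0 := by
  have h1 : a ≤ 0 := by
    calc a ≤ a + b := le_add_of_nonneg_right hb
      _ = 0 := h
  have h2 : b ≤ 0 := by
    calc b ≤ a + b := le_add_of_nonneg_left ha
      _ = 0 := h
  exact ⟨le_antisymm h1 ha, le_antisymm h2 hb⟩

private lemma SK_div {a b : K} (hb : u b = 0) : u (a / b) = u a := by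
  have hb0 : b ≠ 0 := by
    rintro rfl
    rw [u.map_zero] at hb
    exact absurd hb (by simp)
  have h1 : u (a / b) + u b = u a := by
    rw [← u.map_mul, div_mul_cancel₀ _ hb0]
  rwa [hb, add_zero] at h1

private lemma SK_alg {p q t : K} (hp : p ≠ 0) (hq : q ≠ 0) (a : ℕ) :
    (p / q)⁻¹ ^ a * (t / q ^ a) = t / p ^ a := by
  rw [inv_div, div_pow]
  field_simp

private lemma SK_alg1 {p q t : K} (hp : p ≠ 0) (hq : q ≠ 0) :
    (p / q)⁻¹ * (t / q) = t / p := by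
  field_simp

private lemma SK_root {n a : ℕ} {v T t : K} (hv : v ≠ 0) (ht : t = v ^ a * T) {A D : ℕ → K}
    (hA : ∀ i, i < n → A i = v ^ (a * (n - i)) * D i)
    (h : t ^ n + ∑ i ∈ Finset.range n, A i * t ^ i = 0) :
    T ^ n + ∑ i ∈ Finset.range n, D i * T ^ i = 0 := by
  have h2 : ∀ i ∈ Finset.range n, A i * t ^ i = v ^ (a * n) * (D i * T ^ i) := by
    intro i hi
    have hi' := Finset.mem_range.1 hi
    have h6 : v ^ (a * n) = v ^ (a * (n - i)) * v ^ (a * i) := by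
      rw [← pow_add, ← mul_add]
      congr 2
      omega
    rw [hA i hi', ht, mul_pow, ← pow_mul, h6]
    ring
  rw [Finset.sum_congr rfl h2, ← Finset.mul_sum, ht, mul_pow, ← pow_mul, ← mul_add] at h
  exact (mul_eq_zero.1 h).resolve_left (pow_ne_zero _ hv)

variable [Algebra ℂ K]

/-- The polynomials whose value has order at least `c`. -/
private def SK_ideal (u : AddValuation K (WithTop ℤ)) {q : ℕ} (y : Fin q → K)
    (hy : ∀ G : MvPolynomial (Fin q) ℂ, 0 ≤ u (aeval y G)) (c : WithTop ℤ) :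
    Ideal (MvPolynomial (Fin q) ℂ) where
  carrier := {G | c ≤ u (aeval y G)}
  add_mem' := by
    intro G H hG hH
    rw [Set.mem_ofPred_eq, map_add]
    exact (le_min hG hH).trans (u.map_add _ _)
  zero_mem' := by
    rw [Set.mem_ofPred_eq, map_zero, u.map_zero]
    exact le_top
  smul_mem' := by
    intro G H hH
    rw [Set.mem_ofPred_eq, smul_eq_mul, map_mul, u.map_mul]
    exact le_trans hH (le_add_of_nonneg_left (hy G))

private lemma SK_nonneg (hu : ∀ c : ℂ, 0 ≤ u (algebraMap ℂ K c)) {q : ℕ} {y : Fin q → K}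
    (hy : ∀ i, 0 ≤ u (y i)) (G : MvPolynomial (Fin q) ℂ) : 0 ≤ u (aeval y G) := by
  induction G using MvPolynomial.induction_on with
  | C a =>
    rw [aeval_C]
    exact hu a
  | add p p' h h' =>
    rw [map_add]
    exact (le_min h h').trans (u.map_add _ _)
  | mul_X p i h =>
    rw [map_mul, aeval_X, u.map_mul]
    exact add_nonneg h (hy i)

private lemma SK_le_ideal {q : ℕ} {y : Fin q → K} {I : Ideal (MvPolynomial (Fin q) ℂ)}
    (hy : ∀ G : MvPolynomial (Fin q) ℂ, 0 ≤ u (aeval y G)) (hI : ∀ G ∈ I, aeval y G = 0)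
    (c : WithTop ℤ) : I ≤ SK_ideal u y hy c := by
  intro G hG
  show c ≤ u (aeval y G)
  rw [hI G hG, u.map_zero]
  exact le_top

private lemma SK_rad {q : ℕ} {y : Fin q → K}
    (hy : ∀ G : MvPolynomial (Fin q) ℂ, 0 ≤ u (aeval y G)) {J : Ideal (MvPolynomial (Fin q) ℂ)}
    (h1 : J ≤ SK_ideal u y hy ((1 : ℤ) : WithTop ℤ)) :
    Ideal.radical J ≤ SK_ideal u y hy ((1 : ℤ) : WithTop ℤ) := by
  intro G hG
  obtain ⟨t, ht⟩ := hG
  have h3 : ((1 : ℤ) : WithTop ℤ) ≤ u (aeval y (G ^ t)) := h1 ht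
  show ((1 : ℤ) : WithTop ℤ) ≤ u (aeval y G)
  by_contra h4
  rw [← SK_pos_iff, not_lt] at h4
  have h5 : u (aeval y G) = 0 := le_antisymm h4 (hy G)
  rw [map_pow, SK_pow_zero h5] at h3
  exact absurd h3 (by exact_mod_cast (by norm_num : ¬ (1 : ℤ) ≤ 0))

private lemma SK_mulI {q : ℕ} {y : Fin q → K}
    (hy : ∀ G : MvPolynomial (Fin q) ℂ, 0 ≤ u (aeval y G)) {J₁ J₂ : Ideal (MvPolynomial (Fin q) ℂ)}
    {n₁ n₂ : ℕ} (h1 : J₁ ≤ SK_ideal u y hy (((n₁ : ℕ) : ℤ) : WithTop ℤ))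
    (h2 : J₂ ≤ SK_ideal u y hy (((n₂ : ℕ) : ℤ) : WithTop ℤ)) :
    J₁ * J₂ ≤ SK_ideal u y hy (((n₁ + n₂ : ℕ) : ℤ) : WithTop ℤ) := by
  rw [Ideal.mul_le]
  intro G hG H hH
  show (((n₁ + n₂ : ℕ) : ℤ) : WithTop ℤ) ≤ u (aeval y (G * H))
  rw [map_mul]
  have h3 := SK_mul_le (a := (n₁ : ℤ)) (b := (n₂ : ℤ)) (h1 hG) (h2 hH)
  rw [Nat.cast_add]
  exact h3

end

/-- The value of a section at the generic point, with respect to the frame `F α a₀ ^ a`. -/
def secAt (Q : Ideal (MvPolynomial (Fin (N + 1)) ℂ)) [Q.IsPrime] (j₀ : Fin (N + 1))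
    (F : Fin s → Fin (M + 1) → MvPolynomial (Fin (N + 1)) ℂ) (a : ℕ)
    (τ : Fin s → MvPolynomial (Fin (N + 1)) ℂ) (α : Fin s) (a₀ : Fin (M + 1)) : FunField Q :=
  aeval (fun i => ratio Q i j₀) (τ α) / valAt Q j₀ (F α) a₀ ^ a

theorem section_ne_zero (hτ : IsSection I F a τ) (Q : Ideal (MvPolynomial (Fin (N + 1)) ℂ))
    [Q.IsPrime] (hQ : Homog Q) (hIQ : I ≤ Q) {j₀ : Fin (N + 1)} (hj₀ : coordFun Q j₀ ≠ 0)
    {α β : Fin s} {a₀ : Fin (M + 1)} (ha₀ : F α a₀ ∉ Q) (hβ : τ β ∉ Q) :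
    secAt Q j₀ F a τ α a₀ ≠ 0 := by
  obtain ⟨e, he, heτ⟩ := hτ.hom α
  have hprime : Q.IsPrime := inferInstance
  have h1 : τ α ∉ Q := by
    intro hcon
    have h2 := hIQ (hτ.compat α β a₀)
    have h3 : τ β * F α a₀ ^ a ∈ Q := by
      have h4 : τ β * F α a₀ ^ a = τ α * F β a₀ ^ a -
          (τ α * F β a₀ ^ a - τ β * F α a₀ ^ a) := by ring
      rw [h4]
      exact Ideal.sub_mem _ (Ideal.mul_mem_right _ _ hcon) h2
    rcases hprime.mem_or_mem h3 with h4 | h4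
    · exact hβ h4
    · exact ha₀ (hprime.mem_of_pow_mem _ h4)
  have h2 : aeval (fun i => ratio Q i j₀) (τ α) ≠ 0 := fun h3 =>
    h1 ((Pool.Agent.H5.DG.eval_ratio_zero_iff Q hj₀ heτ).1 h3)
  have h3 : valAt Q j₀ (F α) a₀ ≠ 0 := fun h4 =>
    ha₀ ((Pool.Agent.H5.DG.eval_ratio_zero_iff Q hj₀ (he a₀)).1 h4)
  exact div_ne_zero h2 (pow_ne_zero _ h3)

theorem section_ord_nonneg (hτ : IsSection I F a τ) (Q : Ideal (MvPolynomial (Fin (N + 1)) ℂ))
    [Q.IsPrime] (hQ : Homog Q) (hIQ : I ≤ Q) {j₀ : Fin (N + 1)} (hj₀ : coordFun Q j₀ ≠ 0)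
    {α : Fin s} {a₀ : Fin (M + 1)} (ha₀ : F α a₀ ∉ Q) (E : PrimeDivisorOver (FunField Q) w)
    {b : Fin (M + 1)} (hb : valAt Q j₀ (F α) b / valAt Q j₀ (F α) a₀ ≠ 0)
    (hreg : ∀ i, 0 ≤ E.ord ((valAt Q j₀ (F α) b / valAt Q j₀ (F α) a₀)⁻¹ *
      (valAt Q j₀ (F α) i / valAt Q j₀ (F α) a₀))) :
    0 ≤ E.ord ((valAt Q j₀ (F α) b / valAt Q j₀ (F α) a₀)⁻¹ ^ a * secAt Q j₀ F a τ α a₀) := by
  obtain ⟨e, he, heτ⟩ := hτ.hom α
  have hV0 : valAt Q j₀ (F α) a₀ ≠ 0 := fun h4 =>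
    ha₀ ((Pool.Agent.H5.DG.eval_ratio_zero_iff Q hj₀ (he a₀)).1 h4)
  have hVb : valAt Q j₀ (F α) b ≠ 0 := fun h4 => hb (by rw [h4, zero_div])
  obtain ⟨x, hx⟩ : ∃ x : Fin (N + 1) → FunField Q, x = fun i => ratio Q i j₀ := ⟨_, rfl⟩
  obtain ⟨V, hV⟩ : ∃ V : Fin (M + 1) → FunField Q, V = valAt Q j₀ (F α) := ⟨_, rfl⟩
  have hVx : ∀ i, V i = aeval x (F α i) := by
    intro i
    rw [hV, hx]
    rfl
  unfold secAt
  rw [← hV] at hV0 hVb hb hreg ⊢
  rw [← hx]
  obtain ⟨z, hz⟩ : ∃ z : Fin (M + 1) → FunField Q, z = fun i =>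
    (V b / V a₀)⁻¹ * (V i / V a₀) := ⟨_, rfl⟩
  have hzV : ∀ i, V i = V b * z i := by
    intro i
    rw [hz]
    show V i = V b * ((V b / V a₀)⁻¹ * (V i / V a₀))
    rw [SK_alg1 hVb hV0, mul_div_cancel₀ _ hVb]
  have hzreg : ∀ i, 0 ≤ E.ord (z i) := by
    intro i
    rw [hz]
    exact hreg i
  obtain ⟨n, c, hc, hint⟩ := hτ.integral
  have h1 := Pool.Agent.H5.DG.eval_ratio_mem Q hQ hj₀ (hIQ (hint α))
  rw [← hx, map_add, map_pow, map_sum] at h1
  simp only [map_mul, map_pow] at h1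
  rw [SK_alg hVb hV0]
  have h3 : (aeval x (τ α) / V b ^ a) ^ n + ∑ i ∈ Finset.range n,
      aeval z (c (n - i)) * (aeval x (τ α) / V b ^ a) ^ i = 0 := by
    refine SK_root hVb (mul_div_cancel₀ _ (pow_ne_zero _ hVb)).symm
      (A := fun i => aeval x (aeval (F α) (c (n - i)))) (fun i _ => ?_) h1
    show aeval x (aeval (F α) (c (n - i))) = V b ^ (a * (n - i)) * aeval z (c (n - i))
    rw [← AlgHom.comp_apply, MvPolynomial.comp_aeval]
    refine Pool.Agent.H5.DG.aeval_eq_pow_mul (hc (n - i)) fun i => ?_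
    rw [← hVx]
    exact hzV i
  exact ord_root_nonneg E.ord (c := fun i => aeval z (c i))
    (fun i => SK_nonneg E.ord_const hzreg (c i)) h3

theorem section_ord_ge (hI : Homog I) (hF : IsMorphism I (variety I \ B) F)
    (hτ : IsSection I F a τ) (hG : ∀ j, ∃ d, (G j).IsHomogeneous d)
    (hv : ∀ x ∈ variety I \ B, ∃ α, (∃ b, ¬ VanishesAt (F α b) x) ∧
      VanishesTimes k I J (fun j => aeval (F α) (G j)) (τ α) x)
    (Q : Ideal (MvPolynomial (Fin (N + 1)) ℂ)) [Q.IsPrime] (hQ : Homog Q) (hIQ : I ≤ Q)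
    {j₀ : Fin (N + 1)} (hj₀ : coordFun Q j₀ ≠ 0) {α : Fin s} {a₀ : Fin (M + 1)}
    (ha₀ : F α a₀ ∉ Q) (E : PrimeDivisorOver (FunField Q) w) (hE : ¬ CentreIn Q B E)
    {b : Fin (M + 1)} (hb : valAt Q j₀ (F α) b / valAt Q j₀ (F α) a₀ ≠ 0)
    (hreg : ∀ i, 0 ≤ E.ord ((valAt Q j₀ (F α) b / valAt Q j₀ (F α) a₀)⁻¹ *
      (valAt Q j₀ (F α) i / valAt Q j₀ (F α) a₀))) :
    (((k * {j | j ∈ J ∧ 0 < E.ord (aeval (fun i =>
      (valAt Q j₀ (F α) b / valAt Q j₀ (F α) a₀)⁻¹ *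
        (valAt Q j₀ (F α) i / valAt Q j₀ (F α) a₀)) (G j))}.ncard : ℕ) : ℤ) : WithTop ℤ) ≤
      E.ord ((valAt Q j₀ (F α) b / valAt Q j₀ (F α) a₀)⁻¹ ^ a * secAt Q j₀ F a τ α a₀) := by
  classical
  obtain ⟨e, he, heτ⟩ := hτ.hom α
  have hV0 : valAt Q j₀ (F α) a₀ ≠ 0 := fun h4 =>
    ha₀ ((Pool.Agent.H5.DG.eval_ratio_zero_iff Q hj₀ (he a₀)).1 h4)
  have hVb : valAt Q j₀ (F α) b ≠ 0 := fun h4 => hb (by rw [h4, zero_div])
  obtain ⟨x, hx⟩ : ∃ x : Fin (N + 1) → FunField Q, x = fun i => ratio Q i j₀ := ⟨_, rfl⟩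
  obtain ⟨V, hV⟩ : ∃ V : Fin (M + 1) → FunField Q, V = valAt Q j₀ (F α) := ⟨_, rfl⟩
  have hVx : ∀ i, V i = aeval x (F α i) := by
    intro i
    rw [hV, hx]
    rfl
  unfold secAt
  rw [← hV] at hV0 hVb hb hreg ⊢
  rw [← hx]
  -- a chart
  obtain ⟨j₁, -, hj₁⟩ := Finset.exists_min_image Finset.univ (fun i => E.ord (x i))
    ⟨j₀, Finset.mem_univ _⟩
  have hx₁ : x j₁ ≠ 0 := by
    intro hcon
    have h1 := hj₁ j₀ (Finset.mem_univ _)
    have h2 : x j₀ = 1 := by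
      rw [hx]
      exact Subtype.ext (div_self hj₀)
    rw [hcon, h2, E.ord.map_zero, E.ord.map_one] at h1
    exact absurd h1 (by simp)
  have hj₁c : coordFun Q j₁ ≠ 0 := by
    intro hcon
    apply hx₁
    rw [hx]
    apply Subtype.ext
    show coordFun Q j₁ / coordFun Q j₀ = 0
    rw [hcon, zero_div]
  have hxx : ∀ i, ratio Q i j₁ = x i / x j₁ := by
    intro i
    rw [hx]
    apply Subtype.ext
    show coordFun Q i / coordFun Q j₁ =
      (coordFun Q i / coordFun Q j₀) / (coordFun Q j₁ / coordFun Q j₀)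
    rw [div_div_div_cancel_right₀ hj₀]
  have hreg₁ : ∀ i, 0 ≤ E.ord (ratio Q i j₁) := by
    intro i
    rw [hxx]
    obtain ⟨n, hn⟩ : ∃ n : ℤ, E.ord (x j₁) = ((n : ℤ) : WithTop ℤ) := by
      rcases h1 : E.ord (x j₁) with _ | n
      · exact absurd ((AddValuation.top_iff E.ord).1 h1) hx₁
      · exact ⟨n, rfl⟩
    have h2 : E.ord (x i / x j₁) + E.ord (x j₁) = E.ord (x i) := by
      rw [← E.ord.map_mul, div_mul_cancel₀ _ hx₁]
    have h3 := hj₁ i (Finset.mem_univ _)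
    rw [hn] at h2 h3
    rcases h4 : E.ord (x i / x j₁) with _ | l
    · exact le_top
    · rw [h4] at h2
      rw [← h2] at h3
      have h5 : ((l : ℤ) : WithTop ℤ) + ((n : ℤ) : WithTop ℤ) = ((l + n : ℤ) : WithTop ℤ) := rfl
      have h6 : ((n : ℤ) : WithTop ℤ) ≤ ((l + n : ℤ) : WithTop ℤ) := by
        rw [← h5]
        exact h3
      have h7 : n ≤ l + n := by exact_mod_cast h6
      have h8 : (0 : ℤ) ≤ l := by omega
      have h9 : ((0 : ℤ) : WithTop ℤ) ≤ ((l : ℤ) : WithTop ℤ) := by exact_mod_cast h8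
      exact h9
  -- the tuple
  obtain ⟨T', ⟨β, c, T, d, hT', hTd, hTτ⟩, hT0⟩ :=
    Pool.Agent.H5.DG3.exists_ord_zero hI Q hQ hIQ hE hj₁c hreg₁
    {T' | ∃ (β : Fin s) (c : Fin (M + 1)) (T : MvPolynomial (Fin (N + 1)) ℂ) (d : ℕ),
      T' = T * F β c ∧ T.IsHomogeneous d ∧
      T * τ β ∈ (∏ j ∈ J, Ideal.radical (Ideal.span {aeval (F β) (G j)} ⊔ I)) ^ k ⊔ I}
    (by
      rintro T' ⟨β, c, T, d, rfl, hTd, -⟩
      obtain ⟨e, he⟩ := hF.hom β
      exact ⟨d + e, hTd.mul (he c)⟩)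
    (fun p hp => by
      obtain ⟨β, ⟨c, hc⟩, T, d, hTd, hTx, hTL⟩ := hv p hp
      refine ⟨T * F β c, ⟨β, c, T, d, rfl, hTd, hTL⟩, ?_⟩
      intro hcon
      unfold VanishesAt at hcon
      rw [map_mul, mul_eq_zero] at hcon
      exact hcon.elim hTx hc)
  obtain ⟨x', hx'⟩ : ∃ x' : Fin (N + 1) → FunField Q, x' = fun i => ratio Q i j₁ := ⟨_, rfl⟩
  have hx'reg : ∀ i, 0 ≤ E.ord (x' i) := by
    rw [hx']
    exact hreg₁
  have hy : ∀ R : MvPolynomial (Fin (N + 1)) ℂ, 0 ≤ E.ord (aeval x' R) :=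
    SK_nonneg E.ord_const hx'reg
  rw [← hx', hT', map_mul, E.ord.map_mul] at hT0
  obtain ⟨hTz, hβz⟩ := SK_both_zero (hy T) (hy (F β c)) hT0
  have hI0 : ∀ R ∈ I, aeval x' R = 0 := by
    intro R hR
    rw [hx']
    exact Pool.Agent.H5.DG.eval_ratio_mem Q hQ hj₁c (hIQ hR)
  have hI0' : ∀ R ∈ I, aeval x R = 0 := by
    intro R hR
    rw [hx]
    exact Pool.Agent.H5.DG.eval_ratio_mem Q hQ hj₀ (hIQ hR)
  -- the two points are proportional
  obtain ⟨e', he', heτ'⟩ := hτ.hom β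
  have hx'x : ∀ i, x' i = (x j₁)⁻¹ * x i := by
    intro i
    rw [hx']
    show ratio Q i j₁ = _
    rw [hxx, div_eq_inv_mul]
  obtain ⟨ρ, hρ⟩ : ∃ ρ, ρ = (x j₁)⁻¹ ^ e' := ⟨_, rfl⟩
  have hρ0 : ρ ≠ 0 := by
    rw [hρ]
    exact pow_ne_zero _ (inv_ne_zero hx₁)
  have h1 : ∀ i, aeval x' (F β i) = ρ * aeval x (F β i) := by
    intro i
    rw [hρ]
    exact Pool.Agent.H5.DG.aeval_eq_pow_mul (he' i) hx'x
  have h1τ : aeval x' (τ β) = ρ ^ a * aeval x (τ β) := by
    rw [hρ, ← pow_mul]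
    exact Pool.Agent.H5.DG.aeval_eq_pow_mul heτ' hx'x
  have h2 : ∀ i i', aeval x (F β i) * V i' = aeval x (F β i') * V i := by
    intro i i'
    have h3 := hI0' _ (hF.compat β α i i')
    rw [map_sub, map_mul, map_mul, sub_eq_zero] at h3
    rw [hVx, hVx]
    exact h3
  have hne : ∀ f : FunField Q, E.ord f = 0 → f ≠ 0 := by
    intro f hf hcon
    rw [hcon, E.ord.map_zero] at hf
    exact absurd hf (by simp)
  -- the coordinate with index `b`
  have hc0 : aeval x (F β c) ≠ 0 := by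
    intro hcon
    apply hne _ hβz
    rw [h1, hcon, mul_zero]
  have hb0 : aeval x (F β b) ≠ 0 := by
    intro hcon
    have h3 := h2 b c
    rw [hcon, zero_mul] at h3
    exact mul_ne_zero hc0 hVb h3.symm
  have hb0' : aeval x' (F β b) ≠ 0 := by
    rw [h1]
    exact mul_ne_zero hρ0 hb0
  have hquot : ∀ i, (V b / V a₀)⁻¹ * (V i / V a₀) = aeval x' (F β i) / aeval x' (F β b) := by
    intro i
    rw [h1, h1, mul_div_mul_left _ _ hρ0]
    have h3 := h2 b i
    rw [SK_alg1 hVb hV0, div_eq_div_iff hVb hb0, mul_comm (V i), h3]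
  have hordb : E.ord (aeval x' (F β b)) = 0 := by
    have h3 := hreg c
    rw [hquot] at h3
    have h4 : E.ord (aeval x' (F β c) / aeval x' (F β b)) + E.ord (aeval x' (F β b)) =
        E.ord (aeval x' (F β c)) := by
      rw [← E.ord.map_mul, div_mul_cancel₀ _ hb0']
    rw [hβz] at h4
    exact (SK_both_zero h3 (hy _) h4).2
  -- the section
  have hsec : (V b / V a₀)⁻¹ ^ a * (aeval x (τ α) / V a₀ ^ a) =
      aeval x' (τ β) / aeval x' (F β b) ^ a := by
    have h3 := hI0' _ (hτ.compat α β b)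
    rw [map_sub, map_mul, map_mul, map_pow, map_pow, sub_eq_zero, ← hVx] at h3
    rw [SK_alg hVb hV0, h1, h1τ, mul_pow, mul_div_mul_left _ _ (pow_ne_zero _ hρ0),
      div_eq_div_iff (pow_ne_zero _ hVb) (pow_ne_zero _ hb0), h3]
  have hgoal : E.ord ((V b / V a₀)⁻¹ ^ a * (aeval x (τ α) / V a₀ ^ a)) =
      E.ord (aeval x' (τ β)) := by
    rw [hsec, SK_div (SK_pow_zero hordb a)]
  rw [hgoal]
  -- the forms
  have hform : ∀ j, E.ord (aeval (fun i => (V b / V a₀)⁻¹ * (V i / V a₀)) (G j)) =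
      E.ord (aeval x' (aeval (F β) (G j))) := by
    intro j
    obtain ⟨d', hd'⟩ := hG j
    have h3 : aeval x' (aeval (F β) (G j)) = aeval x' (F β b) ^ d' *
        aeval (fun i => (V b / V a₀)⁻¹ * (V i / V a₀)) (G j) := by
      rw [← AlgHom.comp_apply, MvPolynomial.comp_aeval]
      refine Pool.Agent.H5.DG.aeval_eq_pow_mul hd' fun i => ?_
      rw [hquot, mul_div_cancel₀ _ hb0']
    rw [h3, E.ord.map_mul, SK_pow_zero hordb, zero_add]
  have hset : {j | j ∈ J ∧ 0 < E.ord (aeval (fun i => (V b / V a₀)⁻¹ * (V i / V a₀)) (G j))} =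
      ((J.filter fun j => 0 < E.ord (aeval x' (aeval (F β) (G j))) : Finset (Fin m)) :
        Set (Fin m)) := by
    ext j
    rw [Finset.mem_coe, Finset.mem_filter, ← hform]
    rfl
  rw [hset, Set.ncard_coe_finset]
  have hprod : ∀ S : Finset (Fin m),
      (∏ j ∈ S, Ideal.radical (Ideal.span {aeval (F β) (G j)} ⊔ I)) ≤
      SK_ideal E.ord x' hy ((((S.filter fun j =>
        0 < E.ord (aeval x' (aeval (F β) (G j)))).card : ℕ) : ℤ) : WithTop ℤ) := by
    intro S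
    induction S using Finset.induction_on with
    | empty =>
      rw [Finset.filter_empty, Finset.card_empty]
      intro R _
      show (((0 : ℕ) : ℤ) : WithTop ℤ) ≤ E.ord (aeval x' R)
      exact_mod_cast hy R
    | insert i S hi ih =>
      rw [Finset.prod_insert hi, Finset.filter_insert]
      by_cases hvi : 0 < E.ord (aeval x' (aeval (F β) (G i)))
      · rw [if_pos hvi, Finset.card_insert_of_notMem
          (fun h => hi (Finset.mem_filter.1 h).1),
          Nat.add_comm (S.filter fun j => 0 < E.ord (aeval x' (aeval (F β) (G j)))).card 1]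
        refine SK_mulI hy (n₁ := 1) ?_ ih
        have h5 : Ideal.span {aeval (F β) (G i)} ⊔ I ≤
            SK_ideal E.ord x' hy ((1 : ℤ) : WithTop ℤ) := by
          refine sup_le ?_ (SK_le_ideal hy hI0 _)
          rw [Ideal.span_le, Set.singleton_subset_iff]
          exact SK_pos_iff.mp hvi
        exact SK_rad hy h5
      · rw [if_neg hvi]
        exact (Ideal.mul_le.2 fun r _ y hy' => Ideal.mul_mem_left _ _ hy').trans ih
  have hpow : ∀ r : ℕ, (∏ j ∈ J, Ideal.radical (Ideal.span {aeval (F β) (G j)} ⊔ I)) ^ r ≤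
      SK_ideal E.ord x' hy (((r * (J.filter fun j =>
        0 < E.ord (aeval x' (aeval (F β) (G j)))).card : ℕ) : ℤ) : WithTop ℤ) := by
    intro r
    induction r with
    | zero =>
      rw [zero_mul]
      intro R _
      show (((0 : ℕ) : ℤ) : WithTop ℤ) ≤ E.ord (aeval x' R)
      exact_mod_cast hy R
    | succ r ih =>
      rw [pow_succ, add_mul, one_mul]
      exact SK_mulI hy ih (hprod J)
  have h5 := (sup_le (hpow k) (SK_le_ideal hy hI0 _)) hTτ
  have h6 : (((k * (J.filter fun j => 0 < E.ord (aeval x' (aeval (F β) (G j)))).card : ℕ) : ℤ) :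
      WithTop ℤ) ≤ E.ord (aeval x' (T * τ β)) := h5
  rwa [map_mul, E.ord.map_mul, hTz, zero_add] at h6

end Pool.Agent.H5.DG4

end
end
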