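import Pool.Agent.H94.DG.H5.DG.D2Pt
import Pool.Agent.H94.DG.M08
import Pool.Agent.H94.DG.M32
import Pool.Agent.H94.DG.M41

/-! The parts of this file: H5.DG2.Defs, H39.SY.GenSm, H39.SY.Jac3. -/

section

/-!
# Project DG2: definitions

`p 0, …, p (m - 1)` are distinct points of the curve of the norm form `N`.
-/

open MvPolynomial

noncomputable section

namespace Pool.Agent.H5.DG

/-- Many distinct points of the curve given by `N`. -/
structure Pkg2 {n m : ℕ} (p : Fin m → Fin (n + 2) → ℂ) (κ : ℕ) (N : Polynomial (PV n))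
    (φ : PVW n) : Prop where
  data : DGData κ N φ
  del : Del κ N ≠ 0
  hom : ∃ k, (Del κ N).IsHomogeneous k
  mem : ∀ j, p j ∈ Gam N ℂ
  inj : Function.Injective p
  card : (2 * n + 8) * κ < m

end Pool.Agent.H5.DG

end
end

section

/-!
# Project SY, module GenSm: integral sections are generically smooth

`exists_jac`: for a prime ideal `Q` of transcendence degree at most `n` (`TD`, module DG2.TrLt) there is
`g ∉ Q` such that the tangent space at all zeros `y` of `Q` with `g (y) ≠ 0` has dimension at most `n`;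
`g` is homogeneous if `Q` is.  PROOF.  `R = ℂ[y] ⧸ Q`, `K` its field of fractions.  The module
`Ω[K⁄ℂ]` has dimension `n' ≤ n` over `K` (characteristic zero; `Pool.Agent.H23.exists_basis_kaehler`),
it is generated by the `d y i`, and the relations are generated by the `∑ i, (∂ f / ∂ y i) d y i`,
`f ∈ Q` (`KaehlerDifferential.exact_kerCotangentToTensor_mapBaseChange`, or: derivations `R → K` are
the vectors `v : Fin (M + 1) → K` with `∑ i, v i * ∂ f / ∂ y i = 0` for all `f ∈ Q`; such a vector gives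
a derivation of `K`, and the space of derivations of `K` has dimension `n'`).  So the matrix with the
rows `(∂ f / ∂ y i)_i`, `f ∈ Q`, has rank `M + 1 - n'` over `K`; choose `c = M + 1 - n'` elements
`f k` of `Q` and a set of `c` columns whose minor `g` is not zero in `K`.  For homogeneous `Q` the `f k`
can be taken homogeneous (the homogeneous components of the elements of `Q` have gradients which span
the same space), then the minor is homogeneous.

`exists_generic`: `Q` from `IntegralSection`, `g` from `exists_jac`, multiplied by nothing.  If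
`y ≠ 0` is a zero of `P` and of `G` then it is a zero of `Q` (choose `i` with `y i ≠ 0`,
`X i ^ k * T ∈ P ⊔ span {G}`).  `P < Q` since `G ∉ P`, so `TD Q (n + 1)` by `TD.lt`.  If `y ≠ 0` is a
zero of `Q` then `conTan (P ⊔ span {G}) y ≤ conTan Q y`: for `T ∈ Q` and `y i ≠ 0`,
`X i ^ k * T ∈ P ⊔ span {G}`, and the gradient of `X i ^ k * T` at `y` is `y i ^ k` times the gradient
of `T`.
-/

open MvPolynomial
open Pool.Agent.H5.DG (Homog IntegralSection TD)
open Pool.Agent.H13.SM (conTan)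

noncomputable section

namespace Pool.Agent.H39.SY

/-- A nonzero minor of independent rows. -/
private theorem GenSm_minor {K : Type} [Field K] {c m : ℕ} {N : Fin c → Fin m → K}
    (h : LinearIndependent K N) :
    ∃ e : Fin c → Fin m, (Matrix.of fun k l => N k (e l)).det ≠ 0 := by
  classical
  let A : Matrix (Fin c) (Fin m) K := Matrix.of N
  have hA : LinearIndependent K A.row := h
  have hrk : A.rank = c := by
    have h1 := hA.rank_matrix
    rwa [Fintype.card_fin] at h1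
  obtain ⟨κ, a, ha, hsp, hlin⟩ := exists_linearIndependent' K A.col
  have hfk : Finite κ := Finite.of_injective a ha
  have : Fintype κ := Fintype.ofFinite κ
  have hcard : Fintype.card κ = c := by
    have h1 := finrank_span_eq_card hlin
    rw [hsp, ← Matrix.rank_eq_finrank_span_cols, hrk] at h1
    exact h1.symm
  let e : Fin c ≃ κ := (Fintype.equivFinOfCardEq hcard).symm
  refine ⟨fun l => a (e l), ?_⟩
  have h2 : LinearIndependent K (A.submatrix id (fun l => a (e l))).col :=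
    hlin.comp e e.injective
  rw [Matrix.linearIndependent_cols_iff_isUnit, Matrix.isUnit_iff_isUnit_det] at h2
  exact h2.ne_zero

/-- The derivation given by a vector. -/
private def GenSm_D {σ : Type} [Fintype σ] {K : Type} [Field K] [Algebra ℂ K]
    (a : MvPolynomial σ ℂ →ₐ[ℂ] K) (v : σ → K) (f : MvPolynomial σ ℂ) : K :=
  ∑ i, v i * a (pderiv i f)

section

variable {σ : Type} [Fintype σ] {K : Type} [Field K] [Algebra ℂ K]
  (a : MvPolynomial σ ℂ →ₐ[ℂ] K) (v : σ → K)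

private theorem GenSm_D_add (f g : MvPolynomial σ ℂ) :
    GenSm_D a v (f + g) = GenSm_D a v f + GenSm_D a v g := by
  unfold GenSm_D
  rw [← Finset.sum_add_distrib]
  refine Finset.sum_congr rfl fun i _ => ?_
  rw [map_add, map_add, mul_add]

private theorem GenSm_D_zero : GenSm_D a v 0 = 0 := by
  unfold GenSm_D
  refine Finset.sum_eq_zero fun i _ => ?_
  rw [map_zero, map_zero, mul_zero]

private theorem GenSm_D_sum {ι : Type} (s : Finset ι) (F : ι → MvPolynomial σ ℂ) :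
    GenSm_D a v (∑ j ∈ s, F j) = ∑ j ∈ s, GenSm_D a v (F j) := by
  classical
  induction s using Finset.induction_on with
  | empty => rw [Finset.sum_empty, Finset.sum_empty, GenSm_D_zero]
  | insert j s hj ih => rw [Finset.sum_insert hj, Finset.sum_insert hj, GenSm_D_add, ih]

private theorem GenSm_D_mul (f g : MvPolynomial σ ℂ) :
    GenSm_D a v (f * g) = a f * GenSm_D a v g + a g * GenSm_D a v f := by
  unfold GenSm_D
  rw [Finset.mul_sum, Finset.mul_sum, ← Finset.sum_add_distrib]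
  refine Finset.sum_congr rfl fun i _ => ?_
  rw [Derivation.leibniz, smul_eq_mul, smul_eq_mul, map_add, map_mul, map_mul]
  ring

private theorem GenSm_D_C (c : ℂ) : GenSm_D a v (C c) = 0 := by
  unfold GenSm_D
  refine Finset.sum_eq_zero fun i _ => ?_
  rw [pderiv_C, map_zero, mul_zero]

private theorem GenSm_D_X [DecidableEq σ] (j : σ) : GenSm_D a v (X j) = v j := by
  unfold GenSm_D
  rw [Finset.sum_eq_single j]
  · rw [pderiv_X_self, map_one, mul_one]
  · intro i _ hi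
    rw [pderiv_X_of_ne hi.symm, map_zero, mul_zero]
  · intro h
    exact absurd (Finset.mem_univ _) h

private theorem GenSm_D_pow (f : MvPolynomial σ ℂ) (n : ℕ) :
    GenSm_D a v (f ^ n) = (n : K) * a f ^ (n - 1) * GenSm_D a v f := by
  unfold GenSm_D
  rw [Finset.mul_sum]
  refine Finset.sum_congr rfl fun i _ => ?_
  rw [pderiv_pow, map_mul, map_mul, map_pow, map_natCast]
  ring

private theorem GenSm_D_theta {D : ℕ} (θ : MvPolynomial (Fin D) ℂ →ₐ[ℂ] MvPolynomial σ ℂ)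
    (h : ∀ i, GenSm_D a v (θ (X i)) = 0) (b : MvPolynomial (Fin D) ℂ) :
    GenSm_D a v (θ b) = 0 := by
  induction b using MvPolynomial.induction_on with
  | C c =>
    have h1 : θ (C c) = C c := θ.commutes c
    rw [h1, GenSm_D_C]
  | add p q hp hq => rw [map_add, GenSm_D_add, hp, hq, add_zero]
  | mul_X p i hp => rw [map_mul, GenSm_D_mul, hp, h, mul_zero, mul_zero, add_zero]

private theorem GenSm_D_eval {D : ℕ} (θ : MvPolynomial (Fin D) ℂ →ₐ[ℂ] MvPolynomial σ ℂ)
    (h : ∀ i, GenSm_D a v (θ (X i)) = 0) (r : MvPolynomial σ ℂ)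
    (p : Polynomial (MvPolynomial (Fin D) ℂ)) :
    GenSm_D a v (Polynomial.eval₂ θ.toRingHom r p) =
      a (Polynomial.eval₂ θ.toRingHom r (Polynomial.derivative p)) * GenSm_D a v r := by
  induction p using Polynomial.induction_on' with
  | add p q hp hq =>
    rw [Polynomial.eval₂_add, GenSm_D_add, hp, hq, map_add, Polynomial.eval₂_add, map_add,
      add_mul]
  | monomial n b =>
    rw [Polynomial.eval₂_monomial, GenSm_D_mul, Polynomial.derivative_monomial,
      Polynomial.eval₂_monomial]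
    have h1 : GenSm_D a v (θ.toRingHom b) = 0 := GenSm_D_theta a v θ h b
    rw [h1, mul_zero, add_zero, GenSm_D_pow, map_mul, map_mul, map_mul, map_pow, map_natCast,
      map_natCast]
    ring

private theorem GenSm_inj {Q : Ideal (MvPolynomial σ ℂ)} (ha : ∀ f, a f = 0 ↔ f ∈ Q)
    {D : ℕ} (hD : TD Q D) {z : Fin D → MvPolynomial σ ℂ}
    (hz : AlgebraicIndependent ℂ fun i => Ideal.Quotient.mkₐ ℂ Q (z i))
    (hv : ∀ f ∈ Q, GenSm_D a v f = 0) (hvz : ∀ i, GenSm_D a v (z i) = 0)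
    (r : MvPolynomial σ ℂ) : GenSm_D a v r = 0 := by
  classical
  let θ : MvPolynomial (Fin D) ℂ →ₐ[ℂ] MvPolynomial σ ℂ := aeval z
  have hθ : ∀ i, GenSm_D a v (θ (X i)) = 0 := by
    intro i
    have h1 : θ (X i) = z i := aeval_X _ _
    rw [h1, hvz]
  -- the relation
  have hnot : ¬ Transcendental (Algebra.adjoin ℂ (Set.range fun i => Ideal.Quotient.mkₐ ℂ Q (z i)))
      (Ideal.Quotient.mkₐ ℂ Q r) := by
    intro ht
    have ho := (hz.option_iff_transcendental _).2 ht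
    refine hD (fun i => ((finSuccEquivLast i).elim r z)) ?_
    have he := (algebraicIndependent_equiv (R := ℂ) (finSuccEquivLast (n := D))).2 ho
    convert he using 1
    funext i
    simp only [Function.comp_apply]
    cases finSuccEquivLast i <;> rfl
  have hex : ∃ n : ℕ, ∃ p : Polynomial (MvPolynomial (Fin D) ℂ), p ≠ 0 ∧ p.natDegree = n ∧
      Polynomial.eval₂ θ.toRingHom r p ∈ Q := by
    have halg : IsAlgebraic (Algebra.adjoin ℂ (Set.range fun i => Ideal.Quotient.mkₐ ℂ Q (z i)))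
        (Ideal.Quotient.mkₐ ℂ Q r) := by
      by_contra h1
      exact hnot h1
    obtain ⟨P, hP0, hP⟩ := halg
    let e := hz.aevalEquiv
    let es := e.symm.toAlgHom.toRingHom
    refine ⟨_, P.map es, ?_, rfl, ?_⟩
    · intro h1
      apply hP0
      exact (Polynomial.map_eq_zero_iff (f := es) e.symm.injective).1 h1
    · rw [← Ideal.Quotient.eq_zero_iff_mem]
      rw [← hP, Polynomial.aeval_def, Polynomial.eval₂_map, Polynomial.hom_eval₂]
      congr 1
      refine RingHom.ext fun b => ?_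
      obtain ⟨b, rfl⟩ := e.surjective b
      show Ideal.Quotient.mk Q (aeval z (e.symm (e b))) = _
      rw [AlgEquiv.symm_apply_apply]
      have h2 := hz.algebraMap_aevalEquiv b
      rw [h2]
      exact (comp_aeval_apply (f := z) (Ideal.Quotient.mkₐ ℂ Q) b)
  obtain ⟨p, hp0, hpn, hpQ⟩ := Nat.find_spec hex
  have hmin : ∀ q : Polynomial (MvPolynomial (Fin D) ℂ), q ≠ 0 → q.natDegree < p.natDegree →
      Polynomial.eval₂ θ.toRingHom r q ∉ Q := by
    intro q hq0 hq hqQ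
    rw [hpn] at hq
    exact Nat.find_min hex hq ⟨q, hq0, rfl, hqQ⟩
  have hdeg : p.natDegree ≠ 0 := by
    intro h0
    obtain ⟨b, rfl⟩ := Polynomial.natDegree_eq_zero.1 h0
    rw [Polynomial.eval₂_C] at hpQ
    have hb : aeval (fun i => Ideal.Quotient.mkₐ ℂ Q (z i)) b = 0 := by
      rw [← comp_aeval_apply (f := z) (Ideal.Quotient.mkₐ ℂ Q) b]
      exact Ideal.Quotient.eq_zero_iff_mem.2 hpQ
    have hb0 := hz.eq_zero_of_aeval_eq_zero b hb
    apply hp0
    rw [hb0, Polynomial.C_0]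
  have hder : Polynomial.derivative p ≠ 0 := by
    intro h0
    exact hdeg (Polynomial.derivative_eq_zero.1 h0)
  have hnQ := hmin _ hder (Polynomial.natDegree_derivative_lt hdeg)
  have h3 := GenSm_D_eval a v θ hθ r p
  rw [hv _ hpQ] at h3
  rcases mul_eq_zero.1 h3.symm with h4 | h4
  · exact absurd ((ha _).1 h4) hnQ
  · exact h4

/-- The tangent space at the generic point. -/
private def GenSm_W (Q : Ideal (MvPolynomial σ ℂ)) : Submodule K (σ → K) where
  carrier := {v | ∀ f ∈ Q, GenSm_D a v f = 0}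
  add_mem' := by
    intro u w hu hw f hf
    have h1 := hu f hf
    have h2 := hw f hf
    unfold GenSm_D at h1 h2 ⊢
    simp only [Pi.add_apply, add_mul, Finset.sum_add_distrib, h1, h2, add_zero]
  zero_mem' := by
    intro f _
    unfold GenSm_D
    simp
  smul_mem' := by
    intro c u hu f hf
    have h1 := hu f hf
    unfold GenSm_D at h1 ⊢
    simp only [Pi.smul_apply, smul_eq_mul, mul_assoc, ← Finset.mul_sum, h1, mul_zero]

private theorem GenSm_finrank {Q : Ideal (MvPolynomial σ ℂ)} (hQ : Q.IsPrime)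
    (ha : ∀ f, a f = 0 ↔ f ∈ Q) {n : ℕ} (hTD : TD Q n) :
    Module.finrank K (GenSm_W a Q) ≤ n := by
  classical
  obtain ⟨D, hD, z, hz⟩ := Pool.Agent.H5.DG.exists_TD hQ
  have hDn : D ≤ n := by
    by_contra hlt
    refine hTD (fun i => z (Fin.castLE (by omega) i)) ?_
    exact hz.comp (Fin.castLE (by omega : n + 1 ≤ D)) (Fin.castLE_injective _)
  let φ : GenSm_W a Q →ₗ[K] (Fin D → K) :=
    { toFun := fun v i => GenSm_D a v.1 (z i)
      map_add' := by
        intro u w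
        funext i
        show GenSm_D a (u.1 + w.1) (z i) = GenSm_D a u.1 (z i) + GenSm_D a w.1 (z i)
        unfold GenSm_D
        simp only [Pi.add_apply, add_mul, Finset.sum_add_distrib]
      map_smul' := by
        intro c u
        funext i
        show GenSm_D a (c • u.1) (z i) = c * GenSm_D a u.1 (z i)
        unfold GenSm_D
        simp only [Pi.smul_apply, smul_eq_mul, mul_assoc, ← Finset.mul_sum] }
  have hφ : Function.Injective φ := by
    rw [← LinearMap.ker_eq_bot, LinearMap.ker_eq_bot']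
    intro v hv
    have h1 : ∀ i, GenSm_D a v.1 (z i) = 0 := fun i => congrFun hv i
    apply Subtype.ext
    funext j
    rw [← GenSm_D_X a v.1 j]
    exact GenSm_inj a v.1 ha hD hz v.2 h1 (X j)
  have h2 := LinearMap.finrank_le_finrank_of_injective hφ
  rw [Module.finrank_fin_fun] at h2
  exact h2.trans hDn

end

private theorem GenSm_indep {M n : ℕ} {K : Type} [Field K] [Algebra ℂ K]
    (a : MvPolynomial (Fin (M + 1)) ℂ →ₐ[ℂ] K) {Q : Ideal (MvPolynomial (Fin (M + 1)) ℂ)}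
    (hQh : Homog Q) (hW : Module.finrank K (GenSm_W a Q) ≤ n) :
    ∃ f : Fin (M + 1 - n) → MvPolynomial (Fin (M + 1)) ℂ,
      (∀ j, f j ∈ Q ∧ ∃ d, (f j).IsHomogeneous d) ∧
      LinearIndependent K fun (j : Fin (M + 1 - n)) (i : Fin (M + 1)) => a (pderiv i (f j)) := by
  classical
  obtain ⟨b, hbS, hspan, hli⟩ := exists_linearIndependent K
    {u : Fin (M + 1) → K | ∃ f : MvPolynomial (Fin (M + 1)) ℂ,
      (f ∈ Q ∧ ∃ d, f.IsHomogeneous d) ∧ (fun i => a (pderiv i f)) = u}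
  have hfin : Finite b := hli.finite
  have : Fintype b := Fintype.ofFinite b
  let φ : (Fin (M + 1) → K) →ₗ[K] (b → K) :=
    LinearMap.pi fun u => ∑ i, (u : Fin (M + 1) → K) i • (LinearMap.proj i)
  have hφ : ∀ v (u : b), φ v u = ∑ i, (u : Fin (M + 1) → K) i * v i := by
    intro v u
    simp [φ, LinearMap.sum_apply]
  have hker : LinearMap.ker φ ≤ GenSm_W a Q := by
    intro v hv
    have hv' : ∀ u : b, ∑ i, (u : Fin (M + 1) → K) i * v i = 0 := fun u => by
      rw [← hφ, LinearMap.mem_ker.mp hv, Pi.zero_apply]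
    let ψ : (Fin (M + 1) → K) →ₗ[K] K := ∑ i, v i • (LinearMap.proj i)
    have hψ : ∀ u, ψ u = ∑ i, v i * u i := by
      intro u
      simp [ψ, LinearMap.sum_apply]
    have h1 : Submodule.span K b ≤ LinearMap.ker ψ := by
      rw [Submodule.span_le]
      intro u hu
      rw [SetLike.mem_coe, LinearMap.mem_ker, hψ, ← hv' ⟨u, hu⟩]
      exact Finset.sum_congr rfl fun i _ => mul_comm _ _
    have h0 : ∀ f ∈ Q, ∀ d, f.IsHomogeneous d → GenSm_D a v f = 0 := by
      intro f hf d hd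
      have h2 : (fun i => a (pderiv i f)) ∈ Submodule.span K b := by
        rw [hspan]
        exact Submodule.subset_span ⟨f, ⟨hf, d, hd⟩, rfl⟩
      have h3 := LinearMap.mem_ker.mp (h1 h2)
      rwa [hψ] at h3
    intro f hf
    rw [← sum_homogeneousComponent f, GenSm_D_sum]
    exact Finset.sum_eq_zero fun k _ =>
      h0 _ (hQh f hf k) k (homogeneousComponent_isHomogeneous k f)
  have hrk := LinearMap.finrank_range_add_finrank_ker φ
  have h1 : Module.finrank K (LinearMap.range φ) ≤ Fintype.card b := by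
    have h2 := Submodule.finrank_le (LinearMap.range φ)
    rwa [Module.finrank_fintype_fun_eq_card] at h2
  have h2 := Submodule.finrank_mono hker
  rw [Module.finrank_fintype_fun_eq_card, Fintype.card_fin] at hrk
  have hcard : Fintype.card (Fin (M + 1 - n)) ≤ Fintype.card b := by
    rw [Fintype.card_fin]
    omega
  obtain ⟨e⟩ := Function.Embedding.nonempty_of_card_le hcard
  choose g hg using fun u : b => hbS u.2
  refine ⟨fun j => g (e j), fun j => (hg (e j)).1, ?_⟩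
  have h3 := hli.comp e e.injective
  have h4 : (fun (j : Fin (M + 1 - n)) (i : Fin (M + 1)) => a (pderiv i (g (e j)))) =
      (Subtype.val : b → Fin (M + 1) → K) ∘ e := by
    funext j
    exact (hg (e j)).2
  rw [h4]
  exact h3

private theorem GenSm_det_hom {τ : Type} {c : ℕ} {A : Matrix (Fin c) (Fin c) (MvPolynomial τ ℂ)}
    {d : Fin c → ℕ} (h : ∀ k l, (A k l).IsHomogeneous (d k)) :
    A.det.IsHomogeneous (∑ k, d k) := by
  classical
  rw [Matrix.det_apply]
  refine MvPolynomial.IsHomogeneous.sum _ _ _ fun π _ => ?_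
  have h1 : (∏ i, A (π i) i).IsHomogeneous (∑ k, d k) := by
    have h2 := MvPolynomial.IsHomogeneous.prod Finset.univ (fun i => A (π i) i)
      (fun i => d (π i)) (fun i _ => h (π i) i)
    rwa [Equiv.sum_comp π d] at h2
  rcases Int.units_eq_one_or (Equiv.Perm.sign π) with h3 | h3
  · rw [h3, one_smul]
    exact h1
  · rw [h3]
    have h4 : (-1 : ℤˣ) • (∏ i, A (π i) i) = -(∏ i, A (π i) i) := by
      rw [Units.neg_smul, one_smul]
    rw [h4]
    exact h1.neg

theorem exists_jac {M n : ℕ} {Q : Ideal (MvPolynomial (Fin (M + 1)) ℂ)} (hQ : Q.IsPrime)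
    (hQh : Homog Q) (hTD : TD Q n) :
    ∃ (g : MvPolynomial (Fin (M + 1)) ℂ) (d : ℕ), g.IsHomogeneous d ∧ g ∉ Q ∧
      ∀ y : Fin (M + 1) → ℂ, (∀ T ∈ Q, eval y T = 0) → eval y g ≠ 0 →
        Module.finrank ℂ (conTan Q y) ≤ n := by
  classical
  have : IsDomain (MvPolynomial (Fin (M + 1)) ℂ ⧸ Q) := Ideal.Quotient.isDomain Q
  let R := MvPolynomial (Fin (M + 1)) ℂ ⧸ Q
  let K := FractionRing R
  let a : MvPolynomial (Fin (M + 1)) ℂ →ₐ[ℂ] K :=
    (IsScalarTower.toAlgHom ℂ R K).comp (Ideal.Quotient.mkₐ ℂ Q)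
  have ha : ∀ f, a f = 0 ↔ f ∈ Q := by
    intro f
    rw [← Ideal.Quotient.eq_zero_iff_mem]
    exact map_eq_zero_iff (algebraMap R K) (IsFractionRing.injective R K)
  obtain ⟨f, hf, hli⟩ := GenSm_indep a hQh (GenSm_finrank a hQ ha hTD)
  obtain ⟨e, he⟩ := GenSm_minor hli
  choose hfQ d hd using hf
  let A : Matrix (Fin (M + 1 - n)) (Fin (M + 1 - n)) (MvPolynomial (Fin (M + 1)) ℂ) :=
    Matrix.of fun k l => pderiv (e l) (f k)
  refine ⟨A.det, ∑ k, (d k - 1), GenSm_det_hom fun k l => (hd k).pderiv, ?_, ?_⟩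
  · intro h
    apply he
    have h1 := (ha _).2 h
    have h2 : a A.det = (A.map a).det := (a : _ →+* K).map_det A
    rw [h2] at h1
    exact h1
  · intro y hy hyg
    have h1 : eval y A.det = (A.map (eval y)).det := (eval y).map_det A
    rw [h1] at hyg
    let B : Matrix (Fin (M + 1 - n)) (Fin (M + 1)) ℂ := Matrix.of fun k i => eval y (pderiv i (f k))
    have hB : LinearIndependent ℂ B.row := by
      rw [Fintype.linearIndependent_iff]
      intro c hc k
      have h2 : Matrix.vecMul c (A.map (eval y)) = 0 := by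
        funext l
        have h3 := congrFun hc (e l)
        rw [Finset.sum_apply] at h3
        exact h3
      exact congrFun (Matrix.eq_zero_of_vecMul_eq_zero hyg h2) k
    have hrk : B.rank = M + 1 - n := by
      have h2 := hB.rank_matrix
      rwa [Fintype.card_fin] at h2
    have hle : conTan Q y ≤ LinearMap.ker B.mulVecLin := by
      intro v hv
      rw [LinearMap.mem_ker, Matrix.mulVecLin_apply]
      funext k
      have h2 := hv (f k) (hfQ k)
      show ∑ i, B k i * v i = 0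
      rw [← h2]
      exact Finset.sum_congr rfl fun i _ => mul_comm _ _
    have h2 := Submodule.finrank_mono hle
    have h3 := LinearMap.finrank_range_add_finrank_ker B.mulVecLin
    rw [Module.finrank_fintype_fun_eq_card, Fintype.card_fin] at h3
    have h4 : Module.finrank ℂ (LinearMap.range B.mulVecLin) = M + 1 - n := hrk
    omega

theorem exists_generic {M n : ℕ} {P : Ideal (MvPolynomial (Fin (M + 1)) ℂ)} (hP : P.IsPrime)
    (hTD : TD P (n + 2)) {G : MvPolynomial (Fin (M + 1)) ℂ} (hGP : G ∉ P)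
    (hint : IntegralSection P G) :
    ∃ (Q : Ideal (MvPolynomial (Fin (M + 1)) ℂ)) (g : MvPolynomial (Fin (M + 1)) ℂ) (d : ℕ),
      Q.IsPrime ∧ Homog Q ∧ P < Q ∧ G ∈ Q ∧ (∃ i, X i ∉ Q) ∧
      (∀ T ∈ Q, ∀ i, ∃ k : ℕ, X i ^ k * T ∈ P ⊔ Ideal.span {G}) ∧
      g.IsHomogeneous d ∧ g ∉ Q ∧
      (∀ y : Fin (M + 1) → ℂ, y ≠ 0 → (∀ T ∈ P, eval y T = 0) → eval y G = 0 →
        ∀ T ∈ Q, eval y T = 0) ∧
      ∀ y : Fin (M + 1) → ℂ, y ≠ 0 → (∀ T ∈ Q, eval y T = 0) → eval y g ≠ 0 →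
        Module.finrank ℂ (conTan (P ⊔ Ideal.span {G}) y) ≤ n + 1 := by
  obtain ⟨Q, hQ, hQh, hPQ, hGQ, hX, hsat⟩ := hint
  have hlt : P < Q := lt_of_le_of_ne hPQ fun h => hGP (h ▸ hGQ)
  have hTQ : TD Q (n + 1) := hTD.lt hP hQ hlt
  obtain ⟨g, d, hg, hgQ, hjac⟩ := exists_jac hQ hQh hTQ
  refine ⟨Q, g, d, hQ, hQh, hlt, hGQ, hX, hsat, hg, hgQ, ?_, ?_⟩
  · intro y hy0 hyP hyG T hT
    obtain ⟨i, hi⟩ := Function.ne_iff.1 hy0
    obtain ⟨k, hk⟩ := hsat T hT i
    obtain ⟨p, hp, q, hq, hpq⟩ := Submodule.mem_sup.1 hk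
    obtain ⟨q', rfl⟩ := Ideal.mem_span_singleton'.1 hq
    have h1 := congrArg (eval y) hpq
    rw [map_add, map_mul, map_mul, map_pow, eval_X, hyP p hp, hyG, mul_zero, add_zero] at h1
    rcases mul_eq_zero.1 h1.symm with h2 | h2
    · exact absurd h2 (pow_ne_zero k hi)
    · exact h2
  · intro y hy0 hyQ hyg
    refine le_trans (Submodule.finrank_mono ?_) (hjac y hyQ hyg)
    intro v hv T hT
    obtain ⟨i, hi⟩ := Function.ne_iff.1 hy0
    obtain ⟨k, hk⟩ := hsat T hT i
    have h1 := hv _ hk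
    have h2 : ∀ j, eval y (pderiv j (X i ^ k * T)) = y i ^ k * eval y (pderiv j T) := by
      intro j
      rw [Derivation.leibniz, smul_eq_mul, smul_eq_mul, map_add, map_mul, map_mul, hyQ T hT,
        zero_mul, add_zero, map_pow, eval_X]
    have h3 : y i ^ k * ∑ j, v j * eval y (pderiv j T) = 0 := by
      rw [Finset.mul_sum, ← h1]
      refine Finset.sum_congr rfl fun j _ => ?_
      rw [h2]
      ring
    rcases mul_eq_zero.1 h3 with h4 | h4
    · exact absurd h4 (pow_ne_zero k hi)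
    · exact h4

end Pool.Agent.H39.SY

end
end

section

/-!
# Project SY, module Jac3: the Jacobian determinant near a hypersurface whose preimage is critical

`W` maps `ℂ ^ (n + 1)` to the zero set of `P`, and the tangent space of `P + (G)` at `W u₀` has
dimension at most `n`.

PROOF.  If `eval (W u₀) G ≠ 0` use continuity of the determinant.  Let `eval (W u₀) G = 0`,
`γ u = ‖eval (W u) G‖`.  By `norm_fderiv_sq_le` (module SX.Grad) for `u ↦ eval (W u) G` (`h0`) there is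
`A` with `‖fderiv ℂ (fun u => eval (W u) G) u‖ ^ 2 ≤ A γ u` near `u₀`.  Choose `f : Fin (M + 1 - n) → _`
in `P ⊔ span {G}` with linearly independent gradients at `W u₀` (see the proof of
`Pool.Agent.H13.SM.exists_indep`: the gradients of the elements of the ideal span a space of dimension
at least `M + 1 - n`), `f j = p j + a j * G`, so `eval (W u) (f j) = eval (W u) (a j) * eval (W u) G`
near `u₀` and `‖fderiv (fun u => eval (W u) (f j)) u‖ ^ 2 ≤ A' γ u` (`γ u ≤ 1` near `u₀`, so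
`γ ^ 2 ≤ γ`).  By `Inv_exists_coords` (module H13.SM.Inv) there are `n` coordinates `y (I k)` such that
the gradients of the `f j` at `W u₀` and the coordinate functions `y (I k)` have no common zero, so the
gradients of the `f j` and the coordinate vectors `e (I k)` span `ℂ ^ (M + 1)` at `W u₀`, hence also at
`W u` for `u` near `u₀`, with bounded coefficients (Cramer's rule: the matrix is invertible near `u₀`
and its inverse is continuous).  So for every polynomial `B a`: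
`fderiv (fun u => eval (W u) (B a)) u = ∑ k, c a k • fderiv (fun u => W u (I k)) u + R a`, with bounded
`c a k` and `‖R a‖ ^ 2 ≤ A'' γ u`.  The determinant of the matrix without `R` is zero (its `n + 1` rows
are combinations of `n` vectors), all entries are bounded, so `‖det‖ ≤ A''' * ∑ ‖R a‖` (the determinant
is a polynomial; or multilinearity in the rows: `det` is the sum over the subsets of the rows).
The gradient of `g` at `y` is `fun i => eval y (pderiv i g)`, `Inv_hasFDerivAt_eval`.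
-/

open MvPolynomial Filter Topology
open Pool.Agent.H13.SM (conTan)

noncomputable section

namespace Pool.Agent.H39.SY

/-- the gradient as a functional -/
private def jac3_grd {M : ℕ} (g : MvPolynomial (Fin (M + 1)) ℂ) (y : Fin (M + 1) → ℂ) :
    (Fin (M + 1) → ℂ) →L[ℂ] ℂ :=
  ∑ i, eval y (pderiv i g) • (ContinuousLinearMap.proj i : (Fin (M + 1) → ℂ) →L[ℂ] ℂ)

private theorem jac3_grd_cont {M : ℕ} (g : MvPolynomial (Fin (M + 1)) ℂ) :
    Continuous (jac3_grd g) := by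
  unfold jac3_grd
  exact continuous_finsetSum _ fun i _ => (MvPolynomial.continuous_eval _).smul continuous_const

private theorem jac3_grd_apply {M : ℕ} (g : MvPolynomial (Fin (M + 1)) ℂ) (y v : Fin (M + 1) → ℂ) :
    jac3_grd g y v = ∑ i, eval y (pderiv i g) * v i := by
  unfold jac3_grd
  rw [sum_apply]
  exact Finset.sum_congr rfl fun i _ => rfl

/-- enough independent gradients -/
private theorem jac3_indep {M n : ℕ} {Q : Ideal (MvPolynomial (Fin (M + 1)) ℂ)} {x : Fin (M + 1) → ℂ}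
    (h : Module.finrank ℂ (conTan Q x) ≤ n) :
    ∃ (c k : ℕ) (f : Fin c → MvPolynomial (Fin (M + 1)) ℂ), c + k = M + 1 ∧ k ≤ n ∧ (∀ j, f j ∈ Q) ∧
      LinearIndependent ℂ fun (j : Fin c) (i : Fin (M + 1)) => eval x (pderiv i (f j)) := by
  classical
  obtain ⟨b, hbS, hspan, hli⟩ := exists_linearIndependent ℂ
    {u : Fin (M + 1) → ℂ | ∃ T ∈ Q, (fun i => eval x (pderiv i T)) = u}
  have hfin : Finite b := hli.finite
  have : Fintype b := Fintype.ofFinite b
  let φ : (Fin (M + 1) → ℂ) →ₗ[ℂ] (b → ℂ) :=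
    LinearMap.pi fun u => ∑ i, (u : Fin (M + 1) → ℂ) i • (LinearMap.proj i)
  have hφ : ∀ v (u : b), φ v u = ∑ i, (u : Fin (M + 1) → ℂ) i * v i := by
    intro v u
    simp [φ, LinearMap.sum_apply]
  have hker : LinearMap.ker φ ≤ conTan Q x := by
    intro v hv T hT
    have hv' : ∀ u : b, ∑ i, (u : Fin (M + 1) → ℂ) i * v i = 0 := fun u => by
      rw [← hφ, LinearMap.mem_ker.mp hv, Pi.zero_apply]
    let ψ : (Fin (M + 1) → ℂ) →ₗ[ℂ] ℂ := ∑ i, v i • (LinearMap.proj i)
    have hψ : ∀ u, ψ u = ∑ i, v i * u i := by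
      intro u
      simp [ψ, LinearMap.sum_apply]
    have h1 : Submodule.span ℂ b ≤ LinearMap.ker ψ := by
      rw [Submodule.span_le]
      intro u hu
      rw [SetLike.mem_coe, LinearMap.mem_ker, hψ, ← hv' ⟨u, hu⟩]
      exact Finset.sum_congr rfl fun i _ => mul_comm _ _
    have h2 : (fun i => eval x (pderiv i T)) ∈ Submodule.span ℂ b := by
      rw [hspan]
      exact Submodule.subset_span ⟨T, hT, rfl⟩
    have h3 := LinearMap.mem_ker.mp (h1 h2)
    rwa [hψ] at h3
  have hrk := LinearMap.finrank_range_add_finrank_ker φ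
  have h1 : Module.finrank ℂ (LinearMap.range φ) ≤ Fintype.card b := by
    have := Submodule.finrank_le (LinearMap.range φ)
    rwa [Module.finrank_fintype_fun_eq_card] at this
  have h2 := Submodule.finrank_mono hker
  rw [Module.finrank_fintype_fun_eq_card, Fintype.card_fin] at hrk
  have hcard : Fintype.card (Fin (M + 1 - n)) ≤ Fintype.card b := by
    rw [Fintype.card_fin]
    omega
  obtain ⟨e⟩ := Function.Embedding.nonempty_of_card_le hcard
  choose g hg using fun u : b => hbS u.2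
  refine ⟨M + 1 - n, M + 1 - (M + 1 - n), fun j => g (e j), by omega, by omega, fun j => (hg (e j)).1, ?_⟩
  have h3 := hli.comp e e.injective
  have h4 : (fun (j : Fin (M + 1 - n)) (i : Fin (M + 1)) => eval x (pderiv i (g (e j)))) =
      (Subtype.val : b → Fin (M + 1) → ℂ) ∘ e := by
    funext j
    exact (hg (e j)).2
  rw [h4]
  exact h3

/-- the determinant is Lipschitz on bounded sets -/
private theorem jac3_det_lip (m : ℕ) (K : ℝ) : ∃ C : ℝ, 0 ≤ C ∧
    ∀ A F : (Fin m → ℂ) →L[ℂ] (Fin m → ℂ), ‖A‖ ≤ K → ‖F‖ ≤ K → ‖A.det - F.det‖ ≤ C * ‖A - F‖ := by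
  classical
  let μ : ContinuousMultilinearMap ℂ (fun _ : Fin m => Fin m → ℂ) ℂ :=
    { toMultilinearMap := (Matrix.detRowAlternating : (Fin m → ℂ) [⋀^Fin m]→ₗ[ℂ] ℂ).toMultilinearMap
      cont := by
        have : Continuous fun N : Matrix (Fin m) (Fin m) ℂ => N.det := Continuous.matrix_det continuous_id
        exact this }
  have hμ : ∀ A : (Fin m → ℂ) →L[ℂ] (Fin m → ℂ),
      A.det = μ (fun i j => A (Pi.single j 1) i) := by
    intro A
    have h1 : A.det = (LinearMap.toMatrix' (A : (Fin m → ℂ) →ₗ[ℂ] (Fin m → ℂ))).det := by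
      rw [LinearMap.det_toMatrix']
    rw [h1]
    rfl
  have hn : ∀ A : (Fin m → ℂ) →L[ℂ] (Fin m → ℂ),
      ‖(fun i j => A (Pi.single j 1) i : Fin m → Fin m → ℂ)‖ ≤ ‖A‖ := by
    intro A
    refine (pi_norm_le_iff_of_nonneg (norm_nonneg _)).2 fun i => ?_
    refine (pi_norm_le_iff_of_nonneg (norm_nonneg _)).2 fun j => ?_
    calc ‖A (Pi.single j 1) i‖ ≤ ‖A (Pi.single j 1)‖ := norm_le_pi_norm _ _
      _ ≤ ‖A‖ * ‖(Pi.single j 1 : Fin m → ℂ)‖ := ContinuousLinearMap.le_opNorm _ _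
      _ ≤ ‖A‖ * 1 := by
          refine mul_le_mul_of_nonneg_left ?_ (norm_nonneg _)
          refine (pi_norm_le_iff_of_nonneg zero_le_one).2 fun i => ?_
          rcases eq_or_ne i j with h | h
          · subst h
            rw [Pi.single_eq_same, norm_one]
          · rw [Pi.single_eq_of_ne h, norm_zero]
            exact zero_le_one
      _ = ‖A‖ := mul_one _
  refine ⟨‖μ‖ * m * (|K|) ^ (m - 1), by positivity, fun A F hA hF => ?_⟩
  have h1 := μ.norm_image_sub_le (fun i j => A (Pi.single j 1) i) (fun i j => F (Pi.single j 1) i)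
  rw [← hμ, ← hμ, Fintype.card_fin] at h1
  refine h1.trans ?_
  have h2 : ‖(fun i j => A (Pi.single j 1) i : Fin m → Fin m → ℂ) -
      (fun i j => F (Pi.single j 1) i : Fin m → Fin m → ℂ)‖ ≤ ‖A - F‖ := hn (A - F)
  have h3 : max ‖(fun i j => A (Pi.single j 1) i : Fin m → Fin m → ℂ)‖
      ‖(fun i j => F (Pi.single j 1) i : Fin m → Fin m → ℂ)‖ ≤ |K| :=
    max_le (((hn A).trans hA).trans (le_abs_self K)) (((hn F).trans hF).trans (le_abs_self K))
  have h4 : max ‖(fun i j => A (Pi.single j 1) i : Fin m → Fin m → ℂ)‖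
      ‖(fun i j => F (Pi.single j 1) i : Fin m → Fin m → ℂ)‖ ^ (m - 1) ≤ |K| ^ (m - 1) :=
    pow_le_pow_left₀ (le_max_of_le_left (norm_nonneg _)) h3 _
  have h5 : (0 : ℝ) ≤ ‖μ‖ * m := by positivity
  exact mul_le_mul (mul_le_mul_of_nonneg_left h4 h5) h2 (norm_nonneg _) (by positivity)

/-- the derivatives of the elements of the ideal -/
private theorem jac3_ideal {n M : ℕ} {P : Ideal (MvPolynomial (Fin (M + 1)) ℂ)}
    {W : (Fin (n + 1) → ℂ) → Fin (M + 1) → ℂ} {u₀ : Fin (n + 1) → ℂ} (hW : AnalyticAt ℂ W u₀)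
    (hWP : ∀ᶠ u in 𝓝 u₀, ∀ T ∈ P, eval (W u) T = 0) {G : MvPolynomial (Fin (M + 1)) ℂ}
    (h0 : ∀ᶠ u in 𝓝 u₀, eval (W u) G = 0 → fderiv ℂ (fun u' => eval (W u') G) u = 0)
    {f : MvPolynomial (Fin (M + 1)) ℂ} (hf : f ∈ P ⊔ Ideal.span {G}) :
    ∃ C : ℝ, 0 ≤ C ∧ ∀ᶠ u in 𝓝 u₀, ‖fderiv ℂ (fun u' => eval (W u') f) u‖ ^ 2 ≤ C * ‖eval (W u) G‖ := by
  have han : ∀ g : MvPolynomial (Fin (M + 1)) ℂ, AnalyticAt ℂ (fun u => eval (W u) g) u₀ := by
    intro g
    exact AnalyticAt.comp (g := fun y => eval y g) (AnalyticOnNhd.eval_mvPolynomial g _ (Set.mem_univ _)) hW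
  obtain ⟨A, hA0, hA⟩ := Pool.Agent.H39.SX.norm_fderiv_sq_le (han G) h0
  obtain ⟨p, hp, q, hq, hpq⟩ := Submodule.mem_sup.1 hf
  obtain ⟨a, ha⟩ := Ideal.mem_span_singleton'.1 hq
  subst ha
  subst hpq
  -- bounds
  set K : ℝ := ‖eval (W u₀) a‖ + 1 with hK
  set K1 : ℝ := ‖fderiv ℂ (fun u => eval (W u) a) u₀‖ + 1 with hK1
  set K2 : ℝ := ‖eval (W u₀) G‖ + 1 with hK2
  have e1 : ∀ᶠ u in 𝓝 u₀, ‖eval (W u) a‖ ≤ K := by
    have h1 : ContinuousAt (fun u => ‖eval (W u) a‖) u₀ := (han a).continuousAt.norm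
    filter_upwards [h1.eventually (Iio_mem_nhds (lt_add_one (‖eval (W u₀) a‖)))] with w hw using le_of_lt hw
  have e2 : ∀ᶠ u in 𝓝 u₀, ‖fderiv ℂ (fun u => eval (W u) a) u‖ ≤ K1 := by
    have h1 : ContinuousAt (fun u => ‖fderiv ℂ (fun u => eval (W u) a) u‖) u₀ := (han a).fderiv.continuousAt.norm
    filter_upwards [h1.eventually (Iio_mem_nhds (lt_add_one (‖fderiv ℂ (fun u => eval (W u) a) u₀‖)))] with w hw
      using le_of_lt hw
  have e3 : ∀ᶠ u in 𝓝 u₀, ‖eval (W u) G‖ ≤ K2 := by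
    have h1 : ContinuousAt (fun u => ‖eval (W u) G‖) u₀ := (han G).continuousAt.norm
    filter_upwards [h1.eventually (Iio_mem_nhds (lt_add_one (‖eval (W u₀) G‖)))] with w hw using le_of_lt hw
  have hK0 : 0 ≤ K := by positivity
  have hK10 : 0 ≤ K1 := by positivity
  have hK20 : 0 ≤ K2 := by positivity
  refine ⟨2 * (K ^ 2 * A + K1 ^ 2 * K2), by positivity, ?_⟩
  filter_upwards [hWP.eventually_nhds, (han a).eventually_analyticAt, (han G).eventually_analyticAt, hA, e1, e2, e3]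
    with u h1 h2 h3 h4 h5 h6 h7
  have h8 : (fun u' => eval (W u') (p + a * G)) =ᶠ[𝓝 u] fun u' => eval (W u') a * eval (W u') G := by
    filter_upwards [h1] with w hw
    rw [map_add, map_mul, hw p hp, zero_add]
  have h9 : fderiv ℂ (fun u' => eval (W u') (p + a * G)) u =
      eval (W u) a • fderiv ℂ (fun u' => eval (W u') G) u + eval (W u) G • fderiv ℂ (fun u' => eval (W u') a) u := by
    rw [h8.fderiv_eq]
    exact (h2.differentiableAt.hasFDerivAt.mul h3.differentiableAt.hasFDerivAt).fderiv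
  rw [h9]
  set D1 := ‖fderiv ℂ (fun u' => eval (W u') G) u‖ with hD1
  set D2 := ‖fderiv ℂ (fun u' => eval (W u') a) u‖ with hD2
  set γ := ‖eval (W u) G‖ with hγ
  have h10 : ‖eval (W u) a • fderiv ℂ (fun u' => eval (W u') G) u + eval (W u) G • fderiv ℂ (fun u' => eval (W u') a) u‖
      ≤ K * D1 + γ * K1 := by
    refine (norm_add_le _ _).trans ?_
    rw [norm_smul, norm_smul]
    exact add_le_add (mul_le_mul_of_nonneg_right h5 (norm_nonneg _)) (mul_le_mul_of_nonneg_left h6 (norm_nonneg _))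
  have hD10 : 0 ≤ D1 := norm_nonneg _
  have hγ0 : 0 ≤ γ := norm_nonneg _
  calc ‖eval (W u) a • fderiv ℂ (fun u' => eval (W u') G) u + eval (W u) G • fderiv ℂ (fun u' => eval (W u') a) u‖ ^ 2
      ≤ (K * D1 + γ * K1) ^ 2 := pow_le_pow_left₀ (norm_nonneg _) h10 2
    _ ≤ 2 * ((K * D1) ^ 2 + (γ * K1) ^ 2) := by nlinarith only [sq_nonneg (K * D1 - γ * K1)]
    _ = 2 * (K ^ 2 * D1 ^ 2 + K1 ^ 2 * (γ * γ)) := by ring
    _ ≤ 2 * (K ^ 2 * (A * γ) + K1 ^ 2 * (K2 * γ)) := by
        refine mul_le_mul_of_nonneg_left (add_le_add ?_ ?_) (by norm_num)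
        · exact mul_le_mul_of_nonneg_left h4 (sq_nonneg _)
        · exact mul_le_mul_of_nonneg_left (mul_le_mul_of_nonneg_right h7 hγ0) (sq_nonneg _)
    _ = 2 * (K ^ 2 * A + K1 ^ 2 * K2) * γ := by ring

theorem jac_sq_le3 {n M : ℕ} {P : Ideal (MvPolynomial (Fin (M + 1)) ℂ)}
    {W : (Fin (n + 1) → ℂ) → Fin (M + 1) → ℂ} {u₀ : Fin (n + 1) → ℂ} (hW : AnalyticAt ℂ W u₀)
    (hWP : ∀ᶠ u in 𝓝 u₀, ∀ T ∈ P, eval (W u) T = 0) {G : MvPolynomial (Fin (M + 1)) ℂ}
    (hdim : Module.finrank ℂ (conTan (P ⊔ Ideal.span {G}) (W u₀)) ≤ n)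
    (h0 : ∀ᶠ u in 𝓝 u₀, eval (W u) G = 0 → fderiv ℂ (fun u' => eval (W u') G) u = 0)
    (B : Fin (n + 1) → MvPolynomial (Fin (M + 1)) ℂ) :
    ∃ C : ℝ, 0 ≤ C ∧ ∀ᶠ u in 𝓝 u₀,
      ‖(fderiv ℂ (fun u' a => eval (W u') (B a)) u).det‖ ^ 2 ≤ C * ‖eval (W u) G‖ := by
  classical
  obtain ⟨c, k, f, hckM, hkn, hfQ, hfli⟩ := jac3_indep hdim
  have hck : c + k = Fintype.card (Fin (M + 1)) := by
    rw [Fintype.card_fin]
    exact hckM
  obtain ⟨I, hI⟩ := Pool.Agent.H13.SM.Inv_exists_coords hck hfli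
  choose Cf hCf0 hCf using fun j => jac3_ideal hW hWP h0 (hfQ j)
  have hWc : ContinuousAt W u₀ := hW.continuousAt
  -- the map `Φ`
  let Φ : (Fin (M + 1) → ℂ) → ((Fin (M + 1) → ℂ) →L[ℂ] (Fin c → ℂ) × (Fin k → ℂ)) := fun y =>
    (ContinuousLinearMap.pi fun j => jac3_grd (f j) y).prod
      (ContinuousLinearMap.pi fun i => (ContinuousLinearMap.proj (I i) : (Fin (M + 1) → ℂ) →L[ℂ] ℂ))
  have hΦc : Continuous Φ := by
    have h1 : Continuous fun y => (ContinuousLinearMap.pi fun j => jac3_grd (f j) y :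
        (Fin (M + 1) → ℂ) →L[ℂ] (Fin c → ℂ)) := by
      have h2 : Continuous fun y : Fin (M + 1) → ℂ => (fun j => jac3_grd (f j) y) :=
        continuous_pi fun j => jac3_grd_cont (f j)
      exact (ContinuousLinearMap.piEquivL (𝕜 := ℂ) (E := Fin (M + 1) → ℂ) (fun _ : Fin c => ℂ)).continuous.comp h2
    exact (ContinuousLinearMap.prodₗᵢ ℂ :
      (((Fin (M + 1) → ℂ) →L[ℂ] (Fin c → ℂ)) × ((Fin (M + 1) → ℂ) →L[ℂ] (Fin k → ℂ))) ≃ₗᵢ[ℂ] _).continuous.comp
      (h1.prodMk continuous_const)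
  have hΦinj : Function.Injective (Φ (W u₀) : (Fin (M + 1) → ℂ) →ₗ[ℂ] (Fin c → ℂ) × (Fin k → ℂ)) := by
    rw [injective_iff_map_eq_zero]
    intro v hv
    apply hI v
    · intro j
      have h1 := congrFun (congrArg Prod.fst hv) j
      have h2 : jac3_grd (f j) (W u₀) v = 0 := h1
      rwa [jac3_grd_apply] at h2
    · intro i
      have h1 := congrFun (congrArg Prod.snd hv) i
      exact h1
  have hdimE : Module.finrank ℂ (Fin (M + 1) → ℂ) = Module.finrank ℂ ((Fin c → ℂ) × (Fin k → ℂ)) := by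
    rw [Module.finrank_prod, Module.finrank_fintype_fun_eq_card, Module.finrank_fintype_fun_eq_card,
      Module.finrank_fintype_fun_eq_card, Fintype.card_fin, Fintype.card_fin, Fintype.card_fin, hckM]
  let Lc : (Fin (M + 1) → ℂ) ≃L[ℂ] (Fin c → ℂ) × (Fin k → ℂ) :=
    (LinearEquiv.ofInjectiveOfFinrankEq (Φ (W u₀) : (Fin (M + 1) → ℂ) →ₗ[ℂ] (Fin c → ℂ) × (Fin k → ℂ))
      hΦinj hdimE).toContinuousLinearEquiv
  have hLc : (Lc : (Fin (M + 1) → ℂ) →L[ℂ] (Fin c → ℂ) × (Fin k → ℂ)) = Φ (W u₀) := by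
    ext1 v
    rfl
  have hΦW : ContinuousAt (fun u => Φ (W u)) u₀ := hΦc.continuousAt.comp hWc
  have hinv : ContinuousAt (fun u => ContinuousLinearMap.inverse (Φ (W u))) u₀ := by
    have h1 : ContinuousAt (ContinuousLinearMap.inverse :
        ((Fin (M + 1) → ℂ) →L[ℂ] (Fin c → ℂ) × (Fin k → ℂ)) → _) (Φ (W u₀)) := by
      rw [← hLc]
      exact (contDiffAt_map_inverse (n := 0) Lc).continuousAt
    exact ContinuousAt.comp (f := fun u => Φ (W u)) h1 hΦW
  have hrng : ∀ᶠ u in 𝓝 u₀, (ContinuousLinearMap.inverse (Φ (W u))).comp (Φ (W u)) = ContinuousLinearMap.id ℂ _ := by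
    have h1 : Set.range ((↑) : ((Fin (M + 1) → ℂ) ≃L[ℂ] (Fin c → ℂ) × (Fin k → ℂ)) → _) ∈ 𝓝 (Φ (W u₀)) := by
      rw [← hLc]
      exact ContinuousLinearEquiv.nhds Lc
    filter_upwards [hΦW.eventually h1] with u hu
    obtain ⟨e, he⟩ := hu
    have he' : (e : (Fin (M + 1) → ℂ) →L[ℂ] (Fin c → ℂ) × (Fin k → ℂ)) = Φ (W u) := he
    rw [← he', ContinuousLinearMap.inverse_equiv]
    exact e.coe_symm_comp_coe
  -- the bounded factor
  let Bg : (Fin (M + 1) → ℂ) → ((Fin (M + 1) → ℂ) →L[ℂ] (Fin (n + 1) → ℂ)) := fun y =>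
    ContinuousLinearMap.pi fun a => jac3_grd (B a) y
  have hBg : Continuous Bg := by
    have h2 : Continuous fun y : Fin (M + 1) → ℂ => (fun a => jac3_grd (B a) y) :=
      continuous_pi fun a => jac3_grd_cont (B a)
    exact (ContinuousLinearMap.piEquivL (𝕜 := ℂ) (E := Fin (M + 1) → ℂ) (fun _ : Fin (n + 1) => ℂ)).continuous.comp h2
  let Λ : (Fin (n + 1) → ℂ) → ((Fin c → ℂ) × (Fin k → ℂ) →L[ℂ] (Fin (n + 1) → ℂ)) := fun u =>
    (Bg (W u)).comp (ContinuousLinearMap.inverse (Φ (W u)))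
  have hΛ : ContinuousAt Λ u₀ := (hBg.continuousAt.comp hWc).clm_comp hinv
  have hD : ContinuousAt (fun u => fderiv ℂ W u) u₀ := hW.fderiv.continuousAt
  let R : (Fin (n + 1) → ℂ) → ((Fin (n + 1) → ℂ) →L[ℂ] (Fin c → ℂ)) := fun u =>
    ContinuousLinearMap.pi fun j => fderiv ℂ (fun u' => eval (W u') (f j)) u
  let S : (Fin (n + 1) → ℂ) → ((Fin (n + 1) → ℂ) →L[ℂ] (Fin k → ℂ)) := fun u =>
    (ContinuousLinearMap.pi fun i => (ContinuousLinearMap.proj (I i) : (Fin (M + 1) → ℂ) →L[ℂ] ℂ)).comp (fderiv ℂ W u)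
  have hS : ContinuousAt S u₀ := continuousAt_const.clm_comp hD
  let Em : (Fin (n + 1) → ℂ) → ((Fin (n + 1) → ℂ) →L[ℂ] (Fin (n + 1) → ℂ)) := fun u =>
    (Λ u).comp ((ContinuousLinearMap.inl ℂ (Fin c → ℂ) (Fin k → ℂ)).comp (R u))
  let Fm : (Fin (n + 1) → ℂ) → ((Fin (n + 1) → ℂ) →L[ℂ] (Fin (n + 1) → ℂ)) := fun u =>
    (Λ u).comp ((ContinuousLinearMap.inr ℂ (Fin c → ℂ) (Fin k → ℂ)).comp (S u))
  have hFm : ContinuousAt Fm u₀ := hΛ.clm_comp (continuousAt_const.clm_comp hS)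
  have hFdet : ∀ u, (Fm u).det = 0 := by
    intro u
    have h1 : LinearMap.ker (S u : (Fin (n + 1) → ℂ) →ₗ[ℂ] (Fin k → ℂ)) ≠ ⊥ := by
      apply LinearMap.ker_ne_bot_of_finrank_lt
      rw [Module.finrank_fintype_fun_eq_card, Module.finrank_fintype_fun_eq_card, Fintype.card_fin, Fintype.card_fin]
      omega
    obtain ⟨v, hv, hv0⟩ := (Submodule.ne_bot_iff _).1 h1
    by_contra hcon
    have h2 : LinearMap.det (Fm u : (Fin (n + 1) → ℂ) →ₗ[ℂ] (Fin (n + 1) → ℂ)) ≠ 0 := hcon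
    have h3 : LinearMap.ker (Fm u : (Fin (n + 1) → ℂ) →ₗ[ℂ] (Fin (n + 1) → ℂ)) = ⊥ := by
      by_contra h4
      exact h2 (LinearMap.det_eq_zero_iff_ker_ne_bot.2 h4)
    apply hv0
    have h4 : v ∈ LinearMap.ker (Fm u : (Fin (n + 1) → ℂ) →ₗ[ℂ] (Fin (n + 1) → ℂ)) := by
      rw [LinearMap.mem_ker]
      show (Λ u) ((ContinuousLinearMap.inr ℂ (Fin c → ℂ) (Fin k → ℂ)) (S u v)) = 0
      have h5 : S u v = 0 := hv
      rw [h5, map_zero, map_zero]
    rw [h3] at h4
    exact (Submodule.mem_bot ℂ).1 h4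
  -- the decomposition of the Jacobian matrix
  have hdec : ∀ᶠ u in 𝓝 u₀, fderiv ℂ (fun u' a => eval (W u') (B a)) u = Em u + Fm u := by
    filter_upwards [hrng, hW.eventually_analyticAt] with u h1 h2
    have hgr : ∀ g : MvPolynomial (Fin (M + 1)) ℂ,
        HasFDerivAt (fun u' => eval (W u') g) ((jac3_grd g (W u)).comp (fderiv ℂ W u)) u := by
      intro g
      exact (Pool.Agent.H13.SM.Inv_hasFDerivAt_eval g (W u)).comp u h2.differentiableAt.hasFDerivAt
    have h3 : HasFDerivAt (fun u' a => eval (W u') (B a)) ((Bg (W u)).comp (fderiv ℂ W u)) u := by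
      have h4 : HasFDerivAt (fun u' a => eval (W u') (B a))
          (ContinuousLinearMap.pi fun a => (jac3_grd (B a) (W u)).comp (fderiv ℂ W u)) u :=
        hasFDerivAt_pi.2 fun a => hgr (B a)
      exact h4
    rw [h3.fderiv]
    have h4 : (Bg (W u)).comp (fderiv ℂ W u) = (Λ u).comp ((Φ (W u)).comp (fderiv ℂ W u)) := by
      show _ = ((Bg (W u)).comp (ContinuousLinearMap.inverse (Φ (W u)))).comp ((Φ (W u)).comp (fderiv ℂ W u))
      rw [ContinuousLinearMap.comp_assoc, ← ContinuousLinearMap.comp_assoc (ContinuousLinearMap.inverse (Φ (W u))), h1,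
        ContinuousLinearMap.id_comp]
    rw [h4]
    ext v a
    have h5 : (Φ (W u)) (fderiv ℂ W u v) = (ContinuousLinearMap.inl ℂ (Fin c → ℂ) (Fin k → ℂ)) (R u v) +
        (ContinuousLinearMap.inr ℂ (Fin c → ℂ) (Fin k → ℂ)) (S u v) := by
      refine Prod.ext ?_ ?_
      · funext j
        have h6 : fderiv ℂ (fun u' => eval (W u') (f j)) u = (jac3_grd (f j) (W u)).comp (fderiv ℂ W u) := (hgr (f j)).fderiv
        show jac3_grd (f j) (W u) (fderiv ℂ W u v) = fderiv ℂ (fun u' => eval (W u') (f j)) u v + 0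
        rw [h6, add_zero]
        rfl
      · funext i
        show fderiv ℂ W u v (I i) = 0 + fderiv ℂ W u v (I i)
        rw [zero_add]
    show (Λ u) ((Φ (W u)) (fderiv ℂ W u v)) a = ((Λ u) ((ContinuousLinearMap.inl ℂ (Fin c → ℂ) (Fin k → ℂ)) (R u v)) +
      (Λ u) ((ContinuousLinearMap.inr ℂ (Fin c → ℂ) (Fin k → ℂ)) (S u v))) a
    rw [h5, map_add]
  -- bounds
  set K1 : ℝ := ‖Λ u₀‖ + 1 with hK1
  set K2 : ℝ := ‖Fm u₀‖ + 1 with hK2
  have hR : ∀ᶠ u in 𝓝 u₀, ‖R u‖ ^ 2 ≤ (∑ j, Cf j) * ‖eval (W u) G‖ := by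
    filter_upwards [eventually_all.2 hCf] with u hu
    have h1 : ‖R u‖ ≤ Real.sqrt ((∑ j, Cf j) * ‖eval (W u) G‖) := by
      refine ContinuousLinearMap.opNorm_le_bound _ (Real.sqrt_nonneg _) fun v => ?_
      refine (pi_norm_le_iff_of_nonneg (by positivity)).2 fun j => ?_
      show ‖fderiv ℂ (fun u' => eval (W u') (f j)) u v‖ ≤ _
      refine (ContinuousLinearMap.le_opNorm _ _).trans (mul_le_mul_of_nonneg_right ?_ (norm_nonneg _))
      refine Real.le_sqrt_of_sq_le ((hu j).trans (mul_le_mul_of_nonneg_right ?_ (norm_nonneg _)))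
      exact Finset.single_le_sum (fun i _ => hCf0 i) (Finset.mem_univ j)
    calc ‖R u‖ ^ 2 ≤ Real.sqrt ((∑ j, Cf j) * ‖eval (W u) G‖) ^ 2 := pow_le_pow_left₀ (norm_nonneg _) h1 2
      _ = (∑ j, Cf j) * ‖eval (W u) G‖ := Real.sq_sqrt (mul_nonneg (Finset.sum_nonneg fun i _ => hCf0 i) (norm_nonneg _))
  have hCs : 0 ≤ ∑ j, Cf j := Finset.sum_nonneg fun i _ => hCf0 i
  have e1 : ∀ᶠ u in 𝓝 u₀, ‖Λ u‖ ≤ K1 := by
    filter_upwards [hΛ.norm.eventually (Iio_mem_nhds (lt_add_one (‖Λ u₀‖)))] with w hw using le_of_lt hw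
  have e2 : ∀ᶠ u in 𝓝 u₀, ‖Fm u‖ ≤ K2 := by
    filter_upwards [hFm.norm.eventually (Iio_mem_nhds (lt_add_one (‖Fm u₀‖)))] with w hw using le_of_lt hw
  have e3 : ∀ᶠ u in 𝓝 u₀, ‖eval (W u) G‖ ≤ ‖eval (W u₀) G‖ + 1 := by
    have h1 : ContinuousAt (fun u => ‖eval (W u) G‖) u₀ :=
      ((MvPolynomial.continuous_eval G).continuousAt.comp hWc).norm
    filter_upwards [h1.eventually (Iio_mem_nhds (lt_add_one (‖eval (W u₀) G‖)))] with w hw using le_of_lt hw
  have hK10 : 0 ≤ K1 := by positivity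
  have hK20 : 0 ≤ K2 := by positivity
  set K3 : ℝ := Real.sqrt ((∑ j, Cf j) * (‖eval (W u₀) G‖ + 1)) with hK3
  have hK30 : 0 ≤ K3 := Real.sqrt_nonneg _
  obtain ⟨C, hC0, hC⟩ := jac3_det_lip (n + 1) (K1 * K3 + K2)
  refine ⟨C ^ 2 * K1 ^ 2 * ∑ j, Cf j, by positivity, ?_⟩
  filter_upwards [hdec, hR, e1, e2, e3] with u h1 h2 h3 h4 h5
  have h6 : ‖R u‖ ≤ K3 := by
    refine Real.le_sqrt_of_sq_le (h2.trans (mul_le_mul_of_nonneg_left h5 hCs))
  have h7 : ‖Em u‖ ≤ K1 * ‖R u‖ := by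
    refine ContinuousLinearMap.opNorm_le_bound _ (by positivity) fun v => ?_
    show ‖(Λ u) ((ContinuousLinearMap.inl ℂ (Fin c → ℂ) (Fin k → ℂ)) (R u v))‖ ≤ _
    have h8 : ‖(ContinuousLinearMap.inl ℂ (Fin c → ℂ) (Fin k → ℂ)) (R u v)‖ = ‖R u v‖ := by
      rw [ContinuousLinearMap.inl_apply, Prod.norm_mk, norm_zero]
      exact max_eq_left (norm_nonneg _)
    calc ‖(Λ u) ((ContinuousLinearMap.inl ℂ (Fin c → ℂ) (Fin k → ℂ)) (R u v))‖
        ≤ ‖Λ u‖ * ‖(ContinuousLinearMap.inl ℂ (Fin c → ℂ) (Fin k → ℂ)) (R u v)‖ := ContinuousLinearMap.le_opNorm _ _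
      _ ≤ K1 * (‖R u‖ * ‖v‖) := by
          rw [h8]
          exact mul_le_mul h3 (ContinuousLinearMap.le_opNorm _ _) (norm_nonneg _) hK10
      _ = K1 * ‖R u‖ * ‖v‖ := by ring
  have h8 : ‖Em u‖ ≤ K1 * K3 := h7.trans (mul_le_mul_of_nonneg_left h6 hK10)
  have h9 : ‖Em u + Fm u‖ ≤ K1 * K3 + K2 := (norm_add_le _ _).trans (add_le_add h8 h4)
  have h10 : ‖Fm u‖ ≤ K1 * K3 + K2 := h4.trans (le_add_of_nonneg_left (by positivity))
  have h11 := hC (Em u + Fm u) (Fm u) h9 h10
  rw [hFdet u, sub_zero, add_sub_cancel_right] at h11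
  rw [h1]
  calc ‖(Em u + Fm u).det‖ ^ 2 ≤ (C * (K1 * ‖R u‖)) ^ 2 :=
        pow_le_pow_left₀ (norm_nonneg _) (h11.trans (mul_le_mul_of_nonneg_left h7 hC0)) 2
    _ = C ^ 2 * K1 ^ 2 * ‖R u‖ ^ 2 := by ring
    _ ≤ C ^ 2 * K1 ^ 2 * ((∑ j, Cf j) * ‖eval (W u) G‖) := mul_le_mul_of_nonneg_left h2 (by positivity)
    _ = C ^ 2 * K1 ^ 2 * (∑ j, Cf j) * ‖eval (W u) G‖ := by ring

end Pool.Agent.H39.SY

end
end
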