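import Pool.Agent.H94.DG.M06
import Pool.Agent.H94.DG.M08

/-! The parts of this file: H5.DG2.BaseY, H5.DG2.EigenC, H5.DG2.Naka, H5.DG2.LinForms. -/

section

/-!
# Project DG2, module BaseY: the forms `B a` have no common zero on the variety

If `y ≠ 0` is a zero of `P` and of all `B a`, then `eval y (G (ι j)) = 0` for all `j` (`c j ≠ 0`), so at least `m' > k` of the `G i` vanish at `y`.
So the common zeros of `span (range B) ⊔ P` are contained in `{0}` and `X i` lies in its radical
(`MvPolynomial.vanishingIdeal_zeroLocus_eq_radical`; see `mem_of_forall` in FinalDefs and module NullId).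
-/

open MvPolynomial

noncomputable section

namespace Pool.Agent.H5.DG

theorem baseFree_of_few {M m m' n e k : ℕ} {P : Ideal (MvPolynomial (Fin (M + 1)) ℂ)} (he : 1 ≤ e)
    {G : Fin m → MvPolynomial (Fin (M + 1)) ℂ} {B : Fin n → MvPolynomial (Fin (M + 1)) ℂ}
    (hB : ∀ a, (B a).IsHomogeneous e)
    (hk : ∀ y : Fin (M + 1) → ℂ, y ≠ 0 → (∀ g ∈ P, eval y g = 0) →
      {j | eval y (G j) = 0}.ncard ≤ k) {ι : Fin m' → Fin m} (hι : Function.Injective ι)
    (hm : k < m') {p : Fin m' → Fin n → ℂ} {c : Fin m' → ℂ}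
    (h : ∀ j, c j ≠ 0 ∧ C (c j) * G (ι j) - comb (p j) B ∈ P) : BaseFree P e B := by
  refine ⟨he, hB, fun i => ?_⟩
  have h1 : (X i : MvPolynomial (Fin (M + 1)) ℂ) ∈ (Ideal.span (Set.range B) ⊔ P).radical := by
    rw [← MvPolynomial.vanishingIdeal_zeroLocus_eq_radical (K := ℂ),
      MvPolynomial.mem_vanishingIdeal_iff]
    intro y hy
    rw [MvPolynomial.aeval_eq_eval]
    have hy' : ∀ g ∈ Ideal.span (Set.range B) ⊔ P, eval y g = 0 := by
      intro g hg
      have h2 := hy g hg
      rwa [MvPolynomial.aeval_eq_eval] at h2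
    have hP : ∀ g ∈ P, eval y g = 0 := fun g hg => hy' g (Ideal.mem_sup_right hg)
    have hBz : ∀ a, eval y (B a) = 0 := fun a =>
      hy' _ (Ideal.mem_sup_left (Ideal.subset_span ⟨a, rfl⟩))
    by_cases h0 : y = 0
    · rw [h0]
      simp
    · exfalso
      have h2 := hk y h0 hP
      have h3 : Set.range ι ⊆ {j | eval y (G j) = 0} := by
        rintro _ ⟨j, rfl⟩
        obtain ⟨h4, h5⟩ := h j
        have h6 := hP _ h5
        rw [map_sub, map_mul, eval_C, comb, map_sum] at h6
        have h7 : ∑ a, eval y (C (p j a) * B a) = 0 :=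
          Finset.sum_eq_zero fun a _ => by rw [map_mul, hBz a, mul_zero]
        rw [h7, sub_zero] at h6
        exact (mul_eq_zero.1 h6).resolve_left h4
      have h4 := Set.ncard_le_ncard h3 (Set.toFinite _)
      rw [← Set.image_univ, Set.ncard_image_of_injective _ hι, Set.ncard_univ, Nat.card_eq_fintype_card,
        Fintype.card_fin] at h4
      omega
  obtain ⟨k', hk'⟩ := h1
  exact ⟨k', hk'⟩

end Pool.Agent.H5.DG

end
end

section

/-!
# Project DG2, module EigenC: regular functions on a projective variety are constant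

Let `μ G' ∈ P + (G)` for all monomials `μ` of degree `K` (`K` large, from `h`, by the pigeonhole principle on the exponents).  Taking
homogeneous components (`P` homogeneous): `μ G' ≡ a_μ G` modulo `P` with `a_μ` of degree `K`.  So multiplication by `g = G' / G` in the
fraction field of `R / P` (`G ∉ P`) maps the finite-dimensional `ℂ`-space `V` = image of the forms of degree `K` in `R / P` into itself; `V ≠ 0` since
some `X i ∉ P` (`X i ^ K`; if all `X i ∈ P` then `G ∈ P` since `1 ≤ e`).  An eigenvalue `c` (`Module.End.exists_eigenvalue`): `(g - c) x = 0`,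
`x ≠ 0`, so `g = c`, i.e. `G' - C c * G ∈ P`.
-/

open MvPolynomial

noncomputable section

namespace Pool.Agent.H5.DG

private theorem EigenC_homComp {σ : Type} {F : MvPolynomial σ ℂ} {e : ℕ} (hF : F.IsHomogeneous e)
    (G : MvPolynomial σ ℂ) (j : ℕ) :
    homogeneousComponent (j + e) (G * F) = homogeneousComponent j G * F := by
  have h1 : homogeneousComponent (j + e) (G * F) =
      ∑ i ∈ Finset.range (G.totalDegree + 1),
        homogeneousComponent (j + e) (homogeneousComponent i G * F) := by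
    rw [← map_sum, ← Finset.sum_mul, sum_homogeneousComponent]
  have h2 : ∀ i ∈ Finset.range (G.totalDegree + 1),
      homogeneousComponent (j + e) (homogeneousComponent i G * F) =
        if i = j then homogeneousComponent j G * F else 0 := by
    intro i _
    have h3 : (homogeneousComponent i G * F) ∈ homogeneousSubmodule σ ℂ (i + e) :=
      (homogeneousComponent_isHomogeneous i G).mul hF
    rw [homogeneousComponent_of_mem h3]
    by_cases h : i = j
    · rw [if_pos (by omega), if_pos h, h]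
    · rw [if_neg (by omega), if_neg h]
  rw [h1, Finset.sum_congr rfl h2, Finset.sum_ite_eq']
  split_ifs with h
  · rfl
  · rw [homogeneousComponent_eq_zero _ _ (by
      rw [Finset.mem_range] at h
      omega), zero_mul]

private theorem EigenC_deg {M K : ℕ} {a : MvPolynomial (Fin (M + 1)) ℂ} (ha : a.IsHomogeneous K)
    {d : Fin (M + 1) →₀ ℕ} (hd : d ∈ a.support) : d.degree = K := by
  have h1 := ha (mem_support_iff.mp hd)
  rw [Finsupp.degree_eq_weight_one]
  exact h1

private theorem EigenC_fin (M K : ℕ) :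
    ∃ S : Set (MvPolynomial (Fin (M + 1)) ℂ), S.Finite ∧
      homogeneousSubmodule (Fin (M + 1)) ℂ K ≤ Submodule.span ℂ S := by
  refine ⟨(fun d => monomial d (1 : ℂ)) '' {d : Fin (M + 1) →₀ ℕ | d.degree ≤ K},
    (Finsupp.finite_of_degree_le K).image _, ?_⟩
  intro a ha
  have ha' : a.IsHomogeneous K := ha
  rw [a.as_sum]
  refine Submodule.sum_mem _ fun d hd => ?_
  have h1 : monomial d (coeff d a) = coeff d a • monomial d (1 : ℂ) := by
    rw [smul_monomial, smul_eq_mul, mul_one]
  rw [h1]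
  exact Submodule.smul_mem _ _ (Submodule.subset_span ⟨d, (EigenC_deg ha' hd).le, rfl⟩)

theorem const_of_sat {M e : ℕ} (P : Ideal (MvPolynomial (Fin (M + 1)) ℂ)) [P.IsPrime]
    (hP : Homog P) (he : 1 ≤ e) {G G' : MvPolynomial (Fin (M + 1)) ℂ} (hG : G.IsHomogeneous e)
    (hG' : G'.IsHomogeneous e) (hGP : G ∉ P)
    (h : ∀ i, ∃ k : ℕ, X i ^ k * G' ∈ P ⊔ Ideal.span {G}) : ∃ c : ℂ, G' - C c * G ∈ P := by
  classical
  choose k hk using h
  set K := ∑ i, k i with hK
  have hmon : ∀ (d : Fin (M + 1) →₀ ℕ), d.degree = K → ∀ a : ℂ,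
      monomial d a * G' ∈ P ⊔ Ideal.span {G} := by
    intro d hd a
    obtain ⟨i, hi⟩ : ∃ i, k i ≤ d i := by
      by_contra hcon
      push Not at hcon
      have h1 : ∑ i, d i < ∑ i, k i :=
        Finset.sum_lt_sum_of_nonempty Finset.univ_nonempty (fun i _ => hcon i)
      rw [Finsupp.degree_eq_sum] at hd
      omega
    have h2 : monomial d a = monomial (d - Finsupp.single i (k i)) a * X i ^ k i := by
      rw [X_pow_eq_monomial, monomial_mul, mul_one, tsub_add_cancel_of_le]
      rw [Finsupp.single_le_iff]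
      exact hi
    rw [h2, mul_assoc]
    exact Ideal.mul_mem_left _ _ (hk i)
  have hhom : ∀ a : MvPolynomial (Fin (M + 1)) ℂ, a.IsHomogeneous K →
      ∃ b : MvPolynomial (Fin (M + 1)) ℂ, b.IsHomogeneous K ∧ a * G' - b * G ∈ P := by
    intro a ha
    have h0 : a * G' = ∑ d ∈ a.support, monomial d (coeff d a) * G' := by
      rw [← Finset.sum_mul, ← a.as_sum]
    have h1 : a * G' ∈ P ⊔ Ideal.span {G} := by
      rw [h0]
      exact Ideal.sum_mem _ fun d hd => hmon d (EigenC_deg ha hd) _
    obtain ⟨p, hp, q, hq, hpq⟩ := Submodule.mem_sup.mp h1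
    obtain ⟨b, hb⟩ := Ideal.mem_span_singleton'.mp hq
    refine ⟨homogeneousComponent K b, homogeneousComponent_isHomogeneous K b, ?_⟩
    have h2 : homogeneousComponent (K + e) (a * G') = a * G' := by
      have h3 : a * G' ∈ homogeneousSubmodule (Fin (M + 1)) ℂ (K + e) := ha.mul hG'
      rw [homogeneousComponent_of_mem h3, if_pos rfl]
    rw [← hpq, ← hb, map_add, EigenC_homComp hG] at h2
    rw [← hpq, ← hb, ← h2, add_sub_cancel_right]
    exact hP p hp _
  -- some coordinate is not in the ideal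
  obtain ⟨i₀, hi₀⟩ : ∃ i, (X i : MvPolynomial (Fin (M + 1)) ℂ) ∉ P := by
    by_contra hcon
    push Not at hcon
    apply hGP
    rw [G.as_sum]
    refine Ideal.sum_mem _ fun d hd => ?_
    have h1 : d.degree = e := EigenC_deg hG hd
    obtain ⟨i, hi⟩ : ∃ i, 1 ≤ d i := by
      by_contra hc2
      push Not at hc2
      have h2 : ∑ i, d i = 0 := Finset.sum_eq_zero fun i _ => by
        have := hc2 i
        omega
      rw [Finsupp.degree_eq_sum] at h1
      omega
    have h2 : monomial d (coeff d G) =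
        monomial (d - Finsupp.single i 1) (coeff d G) * X i := by
      rw [show (X i : MvPolynomial (Fin (M + 1)) ℂ) = X i ^ 1 by rw [pow_one],
        X_pow_eq_monomial, monomial_mul, mul_one, tsub_add_cancel_of_le]
      rw [Finsupp.single_le_iff]
      exact hi
    rw [h2]
    exact Ideal.mul_mem_left _ _ (hcon i)
  -- the fraction field
  let A := MvPolynomial (Fin (M + 1)) ℂ ⧸ P
  let F := FractionRing A
  let φ : MvPolynomial (Fin (M + 1)) ℂ →ₐ[ℂ] F :=
    (IsScalarTower.toAlgHom ℂ A F).comp (Ideal.Quotient.mkₐ ℂ P)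
  have hker : ∀ x, φ x = 0 ↔ x ∈ P := by
    intro x
    have h1 : φ x = algebraMap A F (Ideal.Quotient.mk P x) := rfl
    rw [h1, map_eq_zero_iff _ (IsFractionRing.injective A F), Ideal.Quotient.eq_zero_iff_mem]
  have hGne : φ G ≠ 0 := fun h0 => hGP ((hker G).mp h0)
  set g : F := φ G' / φ G with hg
  let V : Submodule ℂ F := Submodule.map φ.toLinearMap (homogeneousSubmodule (Fin (M + 1)) ℂ K)
  have hVfin : Module.Finite ℂ V := by
    obtain ⟨S, hS, hle⟩ := EigenC_fin M K
    have h1 : V ≤ Submodule.span ℂ (φ.toLinearMap '' S) := by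
      rw [Submodule.span_image]
      exact Submodule.map_mono hle
    have h2 : Module.Finite ℂ (Submodule.span ℂ (φ.toLinearMap '' S)) :=
      Module.Finite.span_of_finite ℂ (hS.image _)
    exact Submodule.finiteDimensional_of_le h1
  have hmap : ∀ v ∈ V, LinearMap.mulLeft ℂ g v ∈ V := by
    intro v hv
    obtain ⟨a, ha, rfl⟩ := hv
    obtain ⟨b, hb, hab⟩ := hhom a ha
    refine ⟨b, hb, ?_⟩
    have h1 : φ (a * G' - b * G) = 0 := (hker _).mpr hab
    rw [map_sub, map_mul, map_mul, sub_eq_zero] at h1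
    show φ b = g * φ a
    rw [hg, div_mul_eq_mul_div, eq_div_iff hGne, ← h1, mul_comm]
  let T : Module.End ℂ V := (LinearMap.mulLeft ℂ g).restrict hmap
  have hnt : Nontrivial V := by
    have hx : φ (X i₀ ^ K) ∈ V := ⟨X i₀ ^ K, isHomogeneous_X_pow i₀ K, rfl⟩
    refine ⟨⟨⟨φ (X i₀ ^ K), hx⟩, 0, ?_⟩⟩
    intro h0
    have h1 : φ (X i₀ ^ K) = 0 := congrArg Subtype.val h0
    exact hi₀ (Ideal.IsPrime.mem_of_pow_mem inferInstance K ((hker _).mp h1))
  obtain ⟨c, hc⟩ := Module.End.exists_eigenvalue T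
  obtain ⟨v, hv⟩ := hc.exists_hasEigenvector
  refine ⟨c, ?_⟩
  have h1 : g * (v : F) = c • (v : F) := by
    have := hv.apply_eq_smul
    exact congrArg Subtype.val this
  have hv0 : (v : F) ≠ 0 := by
    intro h0
    exact hv.2 (Subtype.ext h0)
  have h2 : g = algebraMap ℂ F c := by
    rw [Algebra.smul_def] at h1
    exact mul_right_cancel₀ hv0 h1
  rw [← hker, map_sub, map_mul]
  have h3 : φ (C c) = algebraMap ℂ F c := φ.commutes c
  rw [h3, ← h2, hg, div_mul_cancel₀ _ hGne, sub_self]

end Pool.Agent.H5.DG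

end
end

section

/-!
# Project DG2, module Naka: Nakayama's lemma for the coordinate ring

`L` is an `O`-module by `θ`.  `M_d` = the `O`-submodule of `L` spanned by the (finitely many) values
at `y` of the monomials of degree `d`.  `G_p = comb p B` with `p a = π (t a)`, `G_q = comb q B`,
`q a = π (τ a)` have values in `𝔪 M_e`.  For large `d` every monomial of degree `d` lies in the ideal
of `hX`, so `M_d ≤ N_d ⊔ 𝔪 • M_d` with `N_d = ∑ i, ℓ i (y) * M_(d-1)`, and `M_d ≤ N_d` by Nakayama's
lemma.  So the module generated by the monomials of small degree over the subring of the conclusion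
contains all monomials.
-/

open MvPolynomial

noncomputable section

namespace Pool.Agent.H5.DG

private theorem Naka_homComp {σ : Type} {F : MvPolynomial σ ℂ} {e : ℕ} (hF : F.IsHomogeneous e)
    (G : MvPolynomial σ ℂ) (j : ℕ) :
    homogeneousComponent (j + e) (G * F) = homogeneousComponent j G * F := by
  have h1 : homogeneousComponent (j + e) (G * F) =
      ∑ i ∈ Finset.range (G.totalDegree + 1),
        homogeneousComponent (j + e) (homogeneousComponent i G * F) := by
    rw [← map_sum, ← Finset.sum_mul, sum_homogeneousComponent]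
  have h2 : ∀ i ∈ Finset.range (G.totalDegree + 1),
      homogeneousComponent (j + e) (homogeneousComponent i G * F) =
        if i = j then homogeneousComponent j G * F else 0 := by
    intro i _
    have h3 : (homogeneousComponent i G * F) ∈ homogeneousSubmodule σ ℂ (i + e) :=
      (homogeneousComponent_isHomogeneous i G).mul hF
    rw [homogeneousComponent_of_mem h3]
    by_cases h : i = j
    · rw [if_pos (by omega), if_pos h, h]
    · rw [if_neg (by omega), if_neg h]
  rw [h1, Finset.sum_congr rfl h2, Finset.sum_ite_eq']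
  split_ifs with h
  · rfl
  · rw [homogeneousComponent_eq_zero _ _ (by
      rw [Finset.mem_range] at h
      omega), zero_mul]

theorem naka {O L : Type} [CommRing O] [IsLocalRing O] [Field L] [Algebra ℂ L] (θ : O →+* L)
    (π : O →+* ℂ) (γ : ℂ →+* O) (hγ : ∀ z, θ (γ z) = algebraMap ℂ L z) (hπ : ∀ z, π (γ z) = z)
    {M n e s : ℕ} {P : Ideal (MvPolynomial (Fin (M + 1)) ℂ)} (hP : Homog P)
    {B : Fin (n + 2) → MvPolynomial (Fin (M + 1)) ℂ} (hB : ∀ a, (B a).IsHomogeneous e)
    {t τ : Fin (n + 2) → O} {y : Fin (M + 1) → L} (hy : ∀ g ∈ P, aeval y g = 0)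
    (ht : ∑ a, θ (t a) * aeval y (B a) = 0) (hτ : ∑ a, θ (τ a) * aeval y (B a) = 0)
    {ℓ : Fin s → MvPolynomial (Fin (M + 1)) ℂ} (hℓ : ∀ i, (ℓ i).IsHomogeneous 1)
    (hX : ∀ i, ∃ k : ℕ, X i ^ k ∈ P ⊔ Ideal.span {comb (fun a => π (t a)) B} ⊔
      Ideal.span {comb (fun a => π (τ a)) B} ⊔ Ideal.span (Set.range ℓ)) (i : Fin (M + 1)) :
    IsIntegral (Subring.closure (Set.range θ ∪ Set.range fun i => aeval y (ℓ i))) (y i) := by
  classical
  letI : Algebra O L := θ.toAlgebra
  have hsmul : ∀ (o : O) (x : L), o • x = θ o * x := fun o x => rfl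
  -- the monomials
  obtain ⟨mon, hmon⟩ : ∃ mon : (Fin (M + 1) →₀ ℕ) → L,
    ∀ μ, mon μ = aeval y (monomial μ (1 : ℂ)) := ⟨_, fun _ => rfl⟩
  obtain ⟨Md, hMd⟩ : ∃ Md : ℕ → Submodule O L,
    ∀ d, Md d = Submodule.span O (mon '' {μ | μ.degree = d}) := ⟨_, fun _ => rfl⟩
  have hfg : ∀ d, (Md d).FG := by
    intro d
    rw [hMd]
    refine Submodule.fg_span (Set.Finite.image _ ?_)
    exact (Finsupp.finite_of_degree_le d).subset fun μ hμ => le_of_eq hμ
  have hmonMd : ∀ μ, mon μ ∈ Md μ.degree := by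
    intro μ
    rw [hMd]
    exact Submodule.subset_span ⟨μ, rfl, rfl⟩
  have hform : ∀ (d : ℕ) (h : MvPolynomial (Fin (M + 1)) ℂ), h.IsHomogeneous d →
      aeval y h ∈ Md d := by
    intro d h hh
    rw [h.as_sum, map_sum]
    refine Submodule.sum_mem _ fun μ hμ => ?_
    have h1 : aeval y (monomial μ (coeff μ h)) = γ (coeff μ h) • mon μ := by
      rw [hsmul, hγ, hmon, ← MvPolynomial.aeval_C (R := ℂ) y, ← map_mul, C_mul_monomial, mul_one]
    rw [h1]
    refine Submodule.smul_mem _ _ ?_
    have h2 : μ.degree = d := by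
      have h3 := hh (mem_support_iff.1 hμ)
      rw [Finsupp.weight_apply, Finsupp.sum_fintype _ _ (by simp)] at h3
      rw [Finsupp.degree_eq_sum, ← h3]
      simp
    rw [← h2]
    exact hmonMd μ
  -- the maximal ideal
  have hmax : ∀ o : O, π o = 0 → o ∈ IsLocalRing.maximalIdeal O := by
    intro o ho
    rw [IsLocalRing.mem_maximalIdeal, mem_nonunits_iff]
    intro hu
    exact (hu.map π).ne_zero ho
  have hG : ∀ (t : Fin (n + 2) → O), ∑ a, θ (t a) * aeval y (B a) = 0 → ∀ (d : ℕ)
      (a' : MvPolynomial (Fin (M + 1)) ℂ), a'.IsHomogeneous d →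
      aeval y (a' * comb (fun a => π (t a)) B) ∈ IsLocalRing.maximalIdeal O • Md (d + e) := by
    intro t ht d a' ha'
    have h1 : aeval y (a' * comb (fun a => π (t a)) B) =
        ∑ b, (γ (π (t b)) - t b) • aeval y (a' * B b) := by
      have h2 : ∑ b, (γ (π (t b)) - t b) • aeval y (a' * B b) =
          aeval y a' * (∑ b, algebraMap ℂ L (π (t b)) * aeval y (B b)) -
            aeval y a' * ∑ b, θ (t b) * aeval y (B b) := by
        rw [Finset.mul_sum, Finset.mul_sum, ← Finset.sum_sub_distrib]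
        refine Finset.sum_congr rfl fun b _ => ?_
        rw [hsmul, map_sub, hγ, map_mul]
        ring
      rw [h2, ht, mul_zero, sub_zero, map_mul]
      congr 1
      unfold comb
      rw [map_sum]
      refine Finset.sum_congr rfl fun b _ => ?_
      rw [map_mul, aeval_C]
    rw [h1]
    refine Submodule.sum_mem _ fun b _ => Submodule.smul_mem_smul (hmax _ ?_)
      (hform _ _ (ha'.mul (hB b)))
    rw [map_sub, hπ, sub_self]
  -- the relations
  choose k hk using hX
  obtain ⟨K, hK⟩ : ∃ K : ℕ, K = (∑ i, k i) + e + 1 := ⟨_, rfl⟩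
  obtain ⟨Nd, hNd⟩ : ∃ Nd : ℕ → Submodule O L, ∀ d, Nd d =
    ⨆ i, Submodule.map (LinearMap.mulLeft O (aeval y (ℓ i))) (Md (d - 1)) := ⟨_, fun _ => rfl⟩
  have hstep : ∀ d, K ≤ d → Md d ≤ Nd d ⊔ IsLocalRing.maximalIdeal O • Md d := by
    intro d hd
    rw [hMd d, Submodule.span_le]
    rintro _ ⟨μ, hμ, rfl⟩
    have hμd : μ.degree = d := hμ
    obtain ⟨i, hi⟩ : ∃ i, k i ≤ μ i := by
      by_contra hcon
      push Not at hcon
      have h1 : ∑ i, μ i ≤ ∑ i, k i := Finset.sum_le_sum fun i _ => (hcon i).le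
      rw [Finsupp.degree_eq_sum] at hμd
      omega
    have h1 : monomial μ (1 : ℂ) ∈ P ⊔ Ideal.span {comb (fun a => π (t a)) B} ⊔
        Ideal.span {comb (fun a => π (τ a)) B} ⊔ Ideal.span (Set.range ℓ) := by
      have h2 : (monomial μ (1 : ℂ) : MvPolynomial (Fin (M + 1)) ℂ) =
          monomial (μ - Finsupp.single i (k i)) 1 * X i ^ k i := by
        rw [X_pow_eq_monomial, monomial_mul, mul_one, tsub_add_cancel_of_le]
        exact Finsupp.single_le_iff.2 hi
      rw [h2]
      exact Ideal.mul_mem_left _ _ (hk i)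
    obtain ⟨g₃, hg₃, l', hl', hsum1⟩ := Submodule.mem_sup.1 h1
    obtain ⟨g₂, hg₂, b', hb', hsum2⟩ := Submodule.mem_sup.1 hg₃
    obtain ⟨g, hg, a', ha', hsum3⟩ := Submodule.mem_sup.1 hg₂
    obtain ⟨a, rfl⟩ := Ideal.mem_span_singleton'.1 ha'
    obtain ⟨b, rfl⟩ := Ideal.mem_span_singleton'.1 hb'
    obtain ⟨h, rfl⟩ := (Submodule.mem_span_range_iff_exists_fun _).1 hl'
    have hd1 : d = (d - e) + e := by omega
    have hd2 : d = (d - 1) + 1 := by omega
    have hcomb : ∀ t : Fin (n + 2) → O, (comb (fun a => π (t a)) B).IsHomogeneous e := fun t =>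
      comb_isHomogeneous _ hB
    have h3 : (monomial μ (1 : ℂ) : MvPolynomial (Fin (M + 1)) ℂ) =
        homogeneousComponent d g +
          homogeneousComponent (d - e) a * comb (fun a => π (t a)) B +
          homogeneousComponent (d - e) b * comb (fun a => π (τ a)) B +
          ∑ i, homogeneousComponent (d - 1) (h i) * ℓ i := by
      have h4 : homogeneousComponent d (monomial μ (1 : ℂ) : MvPolynomial (Fin (M + 1)) ℂ) =
          monomial μ 1 := by
        refine homogeneousComponent_eq_self ?_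
        exact isHomogeneous_monomial _ hμd
      rw [← h4, ← hsum1, ← hsum2, ← hsum3, map_add, map_add, map_add, map_sum]
      congr 1
      · congr 1
        · congr 1
          conv_lhs => rw [hd1]
          exact Naka_homComp (hcomb t) a (d - e)
        · conv_lhs => rw [hd1]
          exact Naka_homComp (hcomb τ) b (d - e)
      · refine Finset.sum_congr rfl fun j _ => ?_
        rw [smul_eq_mul]
        conv_lhs => rw [hd2]
        exact Naka_homComp (hℓ j) (h j) (d - 1)
    rw [SetLike.mem_coe, hmon, h3, map_add, map_add, map_add, hy _ (hP g hg d), zero_add, map_sum,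
      ← hMd d]
    have ha2 := hG t ht (d - e) _ (homogeneousComponent_isHomogeneous (d - e) a)
    have hb2 := hG τ hτ (d - e) _ (homogeneousComponent_isHomogeneous (d - e) b)
    rw [← hd1] at ha2 hb2
    refine Submodule.add_mem _ (Submodule.mem_sup_right (Submodule.add_mem _ ha2 hb2))
      (Submodule.mem_sup_left (Submodule.sum_mem _ fun j _ => ?_))
    rw [hNd]
    refine Submodule.mem_iSup_of_mem j ?_
    refine ⟨aeval y (homogeneousComponent (d - 1) (h j)),
      hform _ _ (homogeneousComponent_isHomogeneous (d - 1) (h j)), ?_⟩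
    rw [LinearMap.mulLeft_apply, map_mul, mul_comm]
  have hnak : ∀ d, K ≤ d → Md d ≤ Nd d := fun d hd =>
    Submodule.le_of_le_smul_of_le_jacobson_bot (hfg d)
      (IsLocalRing.maximalIdeal_le_jacobson _) (hstep d hd)
  -- the module over the subring
  obtain ⟨A, hA⟩ : ∃ A : Subring L,
    A = Subring.closure (Set.range θ ∪ Set.range fun i => aeval y (ℓ i)) := ⟨_, rfl⟩
  rw [← hA]
  have hθA : ∀ o, θ o ∈ A := by
    intro o
    rw [hA]
    exact Subring.subset_closure (Or.inl ⟨o, rfl⟩)
  have hℓA : ∀ j, aeval y (ℓ j) ∈ A := by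
    intro j
    rw [hA]
    exact Subring.subset_closure (Or.inr ⟨j, rfl⟩)
  obtain ⟨W, hW⟩ : ∃ W : Submodule A L, W = Submodule.span A (mon '' {μ | μ.degree < K}) :=
    ⟨_, rfl⟩
  have hWsmul : ∀ a ∈ A, ∀ x ∈ W, a * x ∈ W := fun a ha x hx => W.smul_mem ⟨a, ha⟩ hx
  let W' : Submodule O L :=
    { carrier := W
      add_mem' := fun {a b} ha hb => W.add_mem ha hb
      zero_mem' := W.zero_mem
      smul_mem' := fun o x hx => hWsmul _ (hθA o) x hx }
  have hMW : ∀ d, Md d ≤ W' := by
    intro d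
    induction d using Nat.strong_induction_on with
    | _ d ih =>
      rcases lt_or_ge d K with hlt | hge
      · rw [hMd d, Submodule.span_le]
        rintro _ ⟨μ, hμ, rfl⟩
        have hμd : μ.degree = d := hμ
        change mon μ ∈ W
        rw [hW]
        exact Submodule.subset_span ⟨μ, by rw [Set.mem_ofPred_eq, hμd]; exact hlt, rfl⟩
      · refine (hnak d hge).trans ?_
        rw [hNd]
        refine iSup_le fun j => ?_
        rw [Submodule.map_le_iff_le_comap]
        intro x hx
        exact hWsmul _ (hℓA j) x (ih (d - 1) (by omega) hx)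
  have hall : ∀ μ, mon μ ∈ W := fun μ => hMW _ (hmonMd μ)
  have hone : (1 : L) ∈ W := by
    have h1 := hall 0
    rwa [hmon, monomial_zero', C_1, map_one] at h1
  refine isIntegral_of_smul_mem_submodule (R := A) (A := L) W ?_ ?_ (y i) ?_
  · intro hcon
    rw [hcon, Submodule.mem_bot] at hone
    exact one_ne_zero hone
  · rw [hW]
    refine Submodule.fg_span (Set.Finite.image _ ?_)
    refine (Finsupp.finite_of_degree_le K).subset fun μ hμ => ?_
    have h1 : μ.degree < K := hμ
    exact h1.le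
  · intro x hx
    have h1 : W ≤ W.comap (LinearMap.mulLeft A (y i)) := by
      conv_lhs => rw [hW]
      rw [Submodule.span_le]
      rintro _ ⟨μ, -, rfl⟩
      change y i * mon μ ∈ W
      have h2 : y i * mon μ = mon (Finsupp.single i 1 + μ) := by
        have h3 : (monomial (Finsupp.single i 1 + μ) (1 : ℂ) : MvPolynomial (Fin (M + 1)) ℂ) =
            X i * monomial μ 1 := by
          rw [X, monomial_mul, mul_one]
        rw [hmon, hmon, h3, map_mul, aeval_X]
      rw [h2]
      exact hall _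
    exact h1 hx

end Pool.Agent.H5.DG

end
end

section

/-!
# Project DG2, module LinForms: linear forms without common zero

Induction on `s`.  A homogeneous ideal `I` has finitely many minimal primes (`Ideal.finite_minimalPrimes_of_isNoetherianRing` for the
quotient, or `Ideal.minimalPrimes` with the Noetherian instance), and they are homogeneous (`Ideal.IsPrime.homogeneousCore`: the
homogeneous core of a minimal prime `Q` of `I` is a prime ideal between `I` and `Q`; see `Homog` as `Ideal.IsHomogeneous` for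
`MvPolynomial.homogeneousSubmodule`).
`s = 0`: for a homogeneous prime `Q ≥ I` the element `X i` is algebraic over `ℂ` modulo `Q`: a monic relation, homogeneous components:
`X i ^ k ∈ Q`, so `X i ∈ Q`.  So `X i` lies in all minimal primes of `I`, in the radical of `I`.
`s + 1`: choose a linear form `ℓ = ∑ c_i X_i` which lies in no minimal prime `Q` of `I` with `∃ i, X i ∉ Q` (a `ℂ`-vector space is not a
finite union of proper subspaces: `Subspace.exists_eq_top_of_iUnion_eq_univ`; or choose `c` with finitely many non-zero linear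
conditions).  `I ⊔ span {ℓ}` is homogeneous; a homogeneous prime `Q' ≥ I ⊔ span {ℓ}` contains a minimal prime `Q` of `I`; if all `X i ∈ Q`:
`TD_of_X_mem`; otherwise `Q < Q'` and `TD.lt`.  Induction hypothesis for `I ⊔ span {ℓ}`; `Fin.cons ℓ ..`.
-/

open MvPolynomial

noncomputable section

namespace Pool.Agent.H5.DG

attribute [local instance] MvPolynomial.gradedAlgebra

private theorem lf_homog_iff {M : ℕ} (I : Ideal (MvPolynomial (Fin (M + 1)) ℂ)) :
    Homog I ↔ I.IsHomogeneous (homogeneousSubmodule (Fin (M + 1)) ℂ) := by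
  constructor
  · intro h i r hr
    have := h r hr i
    rw [← MvPolynomial.decomposition.decompose'_apply] at this
    exact this
  · intro h p hp k
    exact mem_iff_homogeneousComponent_mem h p |>.1 hp k

private theorem lf_core {M : ℕ} {I Q : Ideal (MvPolynomial (Fin (M + 1)) ℂ)} (hI : Homog I)
    (hQ : Q.IsPrime) (hIQ : I ≤ Q) :
    ∃ Q' : Ideal (MvPolynomial (Fin (M + 1)) ℂ), Q'.IsPrime ∧ Homog Q' ∧ I ≤ Q' ∧ Q' ≤ Q := by
  refine ⟨(Q.homogeneousCore (homogeneousSubmodule (Fin (M + 1)) ℂ)).toIdeal,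
    hQ.homogeneousCore, (lf_homog_iff _).2 (HomogeneousIdeal.isHomogeneous _), ?_,
    Ideal.toIdeal_homogeneousCore_le _ _⟩
  have h1 := (lf_homog_iff _).1 hI
  have h2 : I = (I.homogeneousCore (homogeneousSubmodule (Fin (M + 1)) ℂ)).toIdeal :=
    h1.toIdeal_homogeneousCore_eq_self.symm
  rw [h2]
  exact Ideal.homogeneousCore_mono _ hIQ

private theorem lf_X_mem {M : ℕ} {Q : Ideal (MvPolynomial (Fin (M + 1)) ℂ)} (hQ : Q.IsPrime)
    (hh : Homog Q) (h : TD Q 0) (i : Fin (M + 1)) : X i ∈ Q := by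
  have h1 := h (fun _ => X i)
  have h2 : ¬ Transcendental ℂ (Ideal.Quotient.mkₐ ℂ Q (X i)) := by
    intro h3
    apply h1
    have : Unique (Fin (0 + 1)) := inferInstanceAs (Unique (Fin 1))
    exact algebraicIndependent_unique_type_iff.2 h3
  rw [Transcendental, not_not] at h2
  obtain ⟨p, hp0, hp⟩ := h2
  rw [Polynomial.aeval_algHom_apply] at hp
  have hp' : Polynomial.aeval (X i : MvPolynomial (Fin (M + 1)) ℂ) p ∈ Q :=
    Ideal.Quotient.eq_zero_iff_mem.1 hp
  have h3 := hh _ hp' p.natDegree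
  have h4 : homogeneousComponent p.natDegree
      (Polynomial.aeval (X i : MvPolynomial (Fin (M + 1)) ℂ) p)
      = p.leadingCoeff • (X i : MvPolynomial (Fin (M + 1)) ℂ) ^ p.natDegree := by
    rw [Polynomial.aeval_eq_sum_range, map_sum, Finset.sum_range_succ,
      Finset.sum_eq_zero, zero_add]
    · rw [map_smul, homogeneousComponent_of_mem (n := p.natDegree) (m := p.natDegree)
        ((mem_homogeneousSubmodule _ _).2 (isHomogeneous_X_pow _ _)), if_pos rfl]
      rfl
    · intro j hj
      rw [map_smul, homogeneousComponent_of_mem (m := p.natDegree) (n := j)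
        ((mem_homogeneousSubmodule _ _).2 (isHomogeneous_X_pow _ _)), if_neg, smul_zero]
      have := Finset.mem_range.1 hj
      omega
  rw [h4] at h3
  have h5 : (X i : MvPolynomial (Fin (M + 1)) ℂ) ^ p.natDegree ∈ Q := by
    have h6 := Q.mul_mem_left (C (p.leadingCoeff)⁻¹) h3
    rwa [smul_eq_C_mul, ← mul_assoc, ← C_mul, inv_mul_cancel₀, C_1, one_mul] at h6
    exact Polynomial.leadingCoeff_ne_zero.2 hp0
  exact hQ.mem_of_pow_mem _ h5

private theorem lf_exists_form {M : ℕ} (S : Set (Ideal (MvPolynomial (Fin (M + 1)) ℂ)))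
    (hS : S.Finite) (hX : ∀ Q ∈ S, ∃ i, X i ∉ Q) :
    ∃ ℓ : MvPolynomial (Fin (M + 1)) ℂ, ℓ.IsHomogeneous 1 ∧ ∀ Q ∈ S, ℓ ∉ Q := by
  classical
  let φ : (Fin (M + 1) → ℂ) →ₗ[ℂ] MvPolynomial (Fin (M + 1)) ℂ :=
    ∑ i, (LinearMap.proj i : (Fin (M + 1) → ℂ) →ₗ[ℂ] ℂ).smulRight (X i)
  have hφ : ∀ c, φ c = ∑ i, c i • X i := by
    intro c
    simp [φ]
  have := hS.to_subtype
  by_contra hcon
  push Not at hcon
  have h1 : ⋃ Q : S, (((Q.1.restrictScalars ℂ).comap φ : Submodule ℂ (Fin (M + 1) → ℂ)) :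
      Set (Fin (M + 1) → ℂ)) = Set.univ := by
    rw [Set.eq_univ_iff_forall]
    intro c
    obtain ⟨Q, hQ, hc⟩ := hcon (φ c) (by
      rw [hφ]
      refine IsHomogeneous.sum _ _ _ fun i _ => ?_
      rw [smul_eq_C_mul]
      simpa using (isHomogeneous_C (Fin (M + 1)) (c i)).mul (isHomogeneous_X ℂ i))
    exact Set.mem_iUnion.2 ⟨⟨Q, hQ⟩, hc⟩
  obtain ⟨Q, hQ⟩ := Subspace.exists_eq_top_of_iUnion_eq_univ h1
  obtain ⟨i, hi⟩ := hX Q.1 Q.2
  apply hi
  have h2 : (Pi.single i 1 : Fin (M + 1) → ℂ) ∈ (Q.1.restrictScalars ℂ).comap φ := by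
    rw [hQ]; trivial
  have h3 : φ (Pi.single i 1) ∈ Q.1 := h2
  rw [hφ] at h3
  have h4 : ∑ j, (Pi.single i 1 : Fin (M + 1) → ℂ) j • (X j : MvPolynomial (Fin (M + 1)) ℂ)
      = X i := by
    rw [Finset.sum_eq_single i]
    · simp
    · intro j _ hj
      simp [Pi.single_eq_of_ne hj]
    · simp
  rwa [h4] at h3

theorem exists_linear {M : ℕ} (s : ℕ) (I : Ideal (MvPolynomial (Fin (M + 1)) ℂ)) (hI : Homog I)
    (h : ∀ Q : Ideal (MvPolynomial (Fin (M + 1)) ℂ), Q.IsPrime → Homog Q → I ≤ Q → TD Q s) :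
    ∃ ℓ : Fin s → MvPolynomial (Fin (M + 1)) ℂ, (∀ i, (ℓ i).IsHomogeneous 1) ∧
      ∀ i, ∃ k : ℕ, X i ^ k ∈ I ⊔ Ideal.span (Set.range ℓ) := by
  induction s generalizing I with
  | zero =>
    refine ⟨Fin.elim0, fun i => i.elim0, fun i => ?_⟩
    have h1 : X i ∈ I.radical := by
      rw [Ideal.radical_eq_sInf, Submodule.mem_sInf]
      rintro J ⟨hIJ, hJ⟩
      obtain ⟨Q, hQ1, hQ2, hQ3, hQ4⟩ := lf_core hI hJ hIJ
      exact hQ4 (lf_X_mem hQ1 hQ2 (h Q hQ1 hQ2 hQ3) i)
    obtain ⟨k, hk⟩ := h1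
    exact ⟨k, Ideal.mem_sup_left hk⟩
  | succ s ih =>
    have hfin : I.minimalPrimes.Finite := Ideal.finite_minimalPrimes_of_isNoetherianRing _ I
    obtain ⟨l, hl1, hl2⟩ := lf_exists_form {Q ∈ I.minimalPrimes | ∃ i, X i ∉ Q}
      (hfin.subset fun Q hQ => hQ.1) (fun Q hQ => hQ.2)
    have hJ : Homog (I ⊔ Ideal.span {l}) := by
      rw [lf_homog_iff]
      refine Ideal.IsHomogeneous.sup ((lf_homog_iff _).1 hI) (Ideal.homogeneous_span _ _ ?_)
      rintro x hx
      rw [Set.mem_singleton_iff] at hx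
      subst hx
      exact ⟨1, hl1⟩
    obtain ⟨ℓ, hℓ1, hℓ2⟩ := ih (I ⊔ Ideal.span {l}) hJ (by
      intro Q' hQ'1 hQ'2 hQ'3
      have hIQ' : I ≤ Q' := le_sup_left.trans hQ'3
      obtain ⟨Q, hQ, hQQ'⟩ := Ideal.exists_minimalPrimes_le hIQ'
      by_cases hX : ∀ i, X i ∈ Q
      · exact TD_of_X_mem (fun i => hQQ' (hX i)) s
      · push Not at hX
        have hlQ : l ∉ Q := hl2 Q ⟨hQ, hX⟩
        have hlQ' : l ∈ Q' := hQ'3 (Ideal.mem_sup_right (Ideal.subset_span rfl))
        have hQp : Q.IsPrime := hQ.1.1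
        obtain ⟨Q₂, h1, h2, h3, h4⟩ := lf_core hI hQp hQ.1.2
        have h5 : Q₂ = Q := le_antisymm h4 (hQ.2 ⟨h1, h3⟩ h4)
        rw [h5] at h2
        exact TD.lt hQp hQ'1 (lt_of_le_of_ne hQQ' fun he => hlQ (he ▸ hlQ'))
          (h Q hQp h2 hQ.1.2))
    refine ⟨Fin.cons l ℓ, ?_, ?_⟩
    · intro i
      refine Fin.cases ?_ (fun j => ?_) i
      · simpa using hl1
      · simpa using hℓ1 j
    · intro i
      obtain ⟨k, hk⟩ := hℓ2 i
      refine ⟨k, ?_⟩
      have hle : I ⊔ Ideal.span {l} ⊔ Ideal.span (Set.range ℓ) ≤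
          I ⊔ Ideal.span (Set.range (Fin.cons l ℓ : Fin (s + 1) → _)) := by
        rw [sup_assoc, ← Ideal.span_union]
        refine sup_le_sup le_rfl (Ideal.span_mono ?_)
        rw [Fin.range_cons]
        rintro x (hx | hx)
        · exact Set.mem_insert_iff.2 (Or.inl hx)
        · exact Set.mem_insert_iff.2 (Or.inr hx)
      exact hle hk

end Pool.Agent.H5.DG

end
end
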