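import Pool.Agent.H94.DG.M26

/-! The parts of this file: H5.DG2.CoeffSplit, H5.DG2.Place, H5.DG2.Trans. -/

section

/-!
# Project DG2, module CoeffSplit: the leading coefficient of the norm form is a product of linear forms

For `k ∈ ℕ` (`k ≥ 1`) let `t_s (k)` be the factors of `N (·; k)` over `ℂ` (`hN.split ℂ k`).  By `size_abs` (module SizeLem; `t_s (k) ∈ Gam N ℂ`,
`mem_Gam_iff`) `‖t_s (k)‖ ≤ C * k`, so the vectors `t_s (k) / k` stay in a compact set of `Fin κ → Fin (n + 2) → ℂ` and a subsequence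
converges to `ξ` (`IsCompact.tendsto_subseq`); `ξ s 1 = 1` since `t_s (k) 1 = k`.  For fixed `w`: `val N w k / k ^ κ → eval w (N.coeff κ)`
(`val_eq_sum`, `natDegree_le`), and `val N w k / k ^ κ = ∏ s, dot (t_s (k) / k) w → ∏ s, dot (ξ s) w`.  So the two polynomials agree at all
points (`MvPolynomial.funext`).  `coeff_ne`: apply `aeval v`; each factor is `dot (toL L (ξ s)) v ≠ 0` since `ξ s ≠ 0`.
-/

open MvPolynomial Filter Topology

noncomputable section

namespace Pool.Agent.H5.DG

variable {n κ : ℕ} {N : Polynomial (PV n)}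

private theorem CoeffSplit_cne (k : ℕ) : ((k : ℂ) + 1) ≠ 0 := by
  exact_mod_cast Nat.succ_ne_zero k

private theorem CoeffSplit_lim (c : ℕ → ℂ) (κ : ℕ) :
    Tendsto (fun k : ℕ => (∑ i ∈ Finset.range (κ + 1), c i * ((k : ℂ) + 1) ^ i) /
      ((k : ℂ) + 1) ^ κ) atTop (𝓝 (c κ)) := by
  have h0 : Tendsto (fun k : ℕ => (((k : ℂ) + 1))⁻¹) atTop (𝓝 0) := by
    have h1 : Tendsto (fun k : ℕ => ((1 : ℂ) / ((k : ℂ) + 1))) atTop (𝓝 0) :=
      tendsto_one_div_add_atTop_nhds_zero_nat
    refine h1.congr fun k => ?_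
    rw [one_div]
  have h2 : ∀ i ∈ Finset.range κ, Tendsto (fun k : ℕ => c i * (((k : ℂ) + 1)⁻¹) ^ (κ - i)) atTop
      (𝓝 0) := by
    intro i hi
    have h3 : κ - i ≠ 0 := by
      have := Finset.mem_range.mp hi
      omega
    have h4 := (h0.pow (κ - i)).const_mul (c i)
    rwa [zero_pow h3, mul_zero] at h4
  have h5 : Tendsto (fun k : ℕ => ∑ i ∈ Finset.range κ, c i * (((k : ℂ) + 1)⁻¹) ^ (κ - i)) atTop
      (𝓝 (∑ _i ∈ Finset.range κ, 0)) := tendsto_finsetSum _ h2
  rw [Finset.sum_const_zero] at h5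
  have h6 := h5.add_const (c κ)
  rw [zero_add] at h6
  refine h6.congr fun k => ?_
  rw [Finset.sum_range_succ, add_div, mul_div_assoc,
    div_self (pow_ne_zero κ (CoeffSplit_cne k)), mul_one, Finset.sum_div]
  congr 1
  refine Finset.sum_congr rfl fun i hi => ?_
  have h7 : i ≤ κ := (Finset.mem_range.mp hi).le
  rw [mul_div_assoc]
  congr 1
  rw [inv_pow, ← one_div, div_eq_div_iff (pow_ne_zero _ (CoeffSplit_cne k))
    (pow_ne_zero _ (CoeffSplit_cne k)), one_mul, ← pow_add]
  congr 1
  omega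

theorem coeff_split (hκ : 1 ≤ κ) (hN : IsPreNorm κ N) : ∃ ξ : Fin κ → Fin (n + 2) → ℂ,
    (∀ s, ξ s 1 = 1) ∧ N.coeff κ = ∏ s, ∑ a, C (ξ s a) * X a := by
  obtain ⟨B, hB1, hB⟩ := size_abs hκ hN
  choose t ht1 ht2 using fun k : ℕ => hN.split ℂ ((k : ℂ) + 1)
  have hmem : ∀ k s, t k s ∈ Gam N ℂ := fun k s =>
    (mem_Gam_iff (ht1 k) (ht2 k) (t k s) (ht1 k s).2).mpr ⟨s, rfl⟩
  have hnk : ∀ k : ℕ, ‖(k : ℂ) + 1‖ = (k : ℝ) + 1 := by
    intro k
    have h1 : ((k : ℂ) + 1) = (((k : ℝ) + 1 : ℝ) : ℂ) := by push_cast; rfl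
    rw [h1, Complex.norm_real, Real.norm_of_nonneg (by positivity)]
  set T : ℕ → Fin κ → Fin (n + 2) → ℂ := fun k s a => t k s a / ((k : ℂ) + 1) with hT
  have hTb : ∀ k, T k ∈ Metric.closedBall (0 : Fin κ → Fin (n + 2) → ℂ) B := by
    intro k
    rw [mem_closedBall_zero_iff, pi_norm_le_iff_of_nonneg (by linarith)]
    intro s
    rw [pi_norm_le_iff_of_nonneg (by linarith)]
    intro a
    have h1 := hB (t k s) (hmem k s)
    rw [(ht1 k s).2, hnk k, max_eq_right (by linarith [Nat.cast_nonneg (α := ℝ) k])] at h1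
    have h2 : ‖t k s a‖ ≤ ‖t k s‖ := norm_le_pi_norm (t k s) a
    have h3 : (0 : ℝ) < (k : ℝ) + 1 := by positivity
    change ‖t k s a / ((k : ℂ) + 1)‖ ≤ B
    rw [norm_div, hnk k, div_le_iff₀ h3]
    exact h2.trans h1
  obtain ⟨ξ, -, φ, hφ, hlim⟩ := (isCompact_closedBall (0 : Fin κ → Fin (n + 2) → ℂ) B).tendsto_subseq
    hTb
  have hcoord : ∀ s a, Tendsto (fun k => T (φ k) s a) atTop (𝓝 (ξ s a)) := by
    intro s a
    have h1 := tendsto_pi_nhds.mp hlim s
    exact tendsto_pi_nhds.mp h1 a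
  refine ⟨ξ, ?_, ?_⟩
  · intro s
    have h1 := hcoord s 1
    have h2 : (fun k => T (φ k) s 1) = fun _ => (1 : ℂ) := by
      funext k
      change t (φ k) s 1 / (((φ k : ℕ) : ℂ) + 1) = 1
      rw [(ht1 (φ k) s).2, div_self (CoeffSplit_cne _)]
    rw [h2] at h1
    exact tendsto_nhds_unique h1 tendsto_const_nhds
  · refine MvPolynomial.funext fun w => ?_
    rw [map_prod]
    have hR : Tendsto (fun k => ∏ s, dot (T (φ k) s) w) atTop
        (𝓝 (∏ s, dot (ξ s) w)) := by
      refine tendsto_finsetProd _ fun s _ => ?_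
      unfold dot
      exact tendsto_finsetSum _ fun a _ => (hcoord s a).mul_const (w a)
    have hL := (CoeffSplit_lim (fun i => MvPolynomial.aeval w (N.coeff i)) κ).comp hφ.tendsto_atTop
    have heq : ∀ k : ℕ, (∑ i ∈ Finset.range (κ + 1), MvPolynomial.aeval w (N.coeff i) *
        ((k : ℂ) + 1) ^ i) / ((k : ℂ) + 1) ^ κ = ∏ s, dot (T k s) w := by
      intro k
      rw [← val_eq_sum (natDegree_le hN) w ((k : ℂ) + 1), ht2 k w]
      have h1 : ∀ s, dot (t k s) w = ((k : ℂ) + 1) * dot (T k s) w := by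
        intro s
        unfold dot
        rw [Finset.mul_sum]
        refine Finset.sum_congr rfl fun a _ => ?_
        change t k s a * w a = ((k : ℂ) + 1) * (t k s a / ((k : ℂ) + 1) * w a)
        rw [← mul_assoc, mul_div_cancel₀ _ (CoeffSplit_cne k)]
      rw [Finset.prod_congr rfl fun s _ => h1 s, Finset.prod_mul_distrib, Finset.prod_const,
        Finset.card_univ, Fintype.card_fin, mul_div_cancel_left₀ _
          (pow_ne_zero κ (CoeffSplit_cne k))]
    have hL' : Tendsto (fun k => ∏ s, dot (T (φ k) s) w) atTop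
        (𝓝 (MvPolynomial.aeval w (N.coeff κ))) := hL.congr fun k => heq (φ k)
    have h2 := tendsto_nhds_unique hL' hR
    have h3 : MvPolynomial.aeval w (N.coeff κ) = MvPolynomial.eval w (N.coeff κ) := by
      rw [← MvPolynomial.coe_aeval_eq_eval]
      rfl
    rw [← h3, h2]
    refine Finset.prod_congr rfl fun s _ => ?_
    rw [map_sum]
    unfold dot
    refine Finset.sum_congr rfl fun a _ => ?_
    rw [map_mul, MvPolynomial.eval_C, MvPolynomial.eval_X]

/-- The leading coefficient does not vanish at vectors which are linearly independent over `ℂ`. -/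
theorem coeff_ne (hκ : 1 ≤ κ) (hN : IsPreNorm κ N) {L : Type} [Field L] [Algebra ℂ L]
    (v : Fin (n + 2) → L) (hv : ∀ x : Fin (n + 2) → ℂ, dot (toL L x) v = 0 → x = 0) :
    MvPolynomial.aeval v (N.coeff κ) ≠ 0 := by
  obtain ⟨ξ, hξ, he⟩ := coeff_split hκ hN
  rw [he, map_prod]
  refine Finset.prod_ne_zero_iff.mpr fun s _ => ?_
  have h1 : MvPolynomial.aeval v (∑ a, C (ξ s a) * X a : MvPolynomial (Fin (n + 2)) ℂ) =
      dot (toL L (ξ s)) v := by
    rw [map_sum]
    unfold dot toL
    refine Finset.sum_congr rfl fun a _ => ?_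
    rw [map_mul, MvPolynomial.aeval_C, MvPolynomial.aeval_X]
  rw [h1]
  intro h2
  have h3 := hv (ξ s) h2
  have h4 := hξ s
  rw [h3] at h4
  exact zero_ne_one h4

end Pool.Agent.H5.DG

end
end

section

/-!
# Project DG2, module Place: a place of the algebraic closure of `ℂ(u)` over `u = c`

`A` = the image of `Polynomial.aeval uu` (a subring of `Omg` isomorphic to `ℂ[X]` by `aeval_uu_injective`), `P` = the prime ideal
generated by `uu - c`; `LocalSubring.ofPrime A P`, `LocalSubring.exists_le_valuationSubring` give a valuation subring `O ⊇ A` with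
`uu - c` in its maximal ideal (it contains `ℂ`).  The residue field `k` of `O` is algebraic over `ℂ`: for `x ∈ O` there is a
non-zero `A ∈ ℂ[X][Y]` with `A (uu, x) = 0` (`omg_algebraic`); divide by the largest power of `X - c` which divides all coefficients
(`aeval uu` is injective, `Omg` is a field); then `A (c, Y) ≠ 0` and `A (c, residue of x) = 0`.  `ℂ` is algebraically closed, so `ℂ → k` is
bijective (`IsAlgClosed.algebraMap_bijective_of_isIntegral`); `π` = residue map followed by the inverse.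
-/

open MvPolynomial

noncomputable section

namespace Pool.Agent.H5.DG

/-- A place of `Omg` with values in `ℂ`. -/
structure IsPlace (O : ValuationSubring Omg) (π : O →+* ℂ) : Prop where
  const : ∀ z : ℂ, ∃ h : algebraMap ℂ Omg z ∈ O, π ⟨algebraMap ℂ Omg z, h⟩ = z

/-- A valuation ring which contains `ℂ[u]` and in which `u - c` is not a unit. -/
private theorem exists_valuationSubring (c : ℂ) : ∃ O : ValuationSubring Omg,
    (∀ p : Polynomial ℂ, Polynomial.aeval uu p ∈ O) ∧
      Polynomial.aeval uu (Polynomial.X - Polynomial.C c) ∈ O.nonunits := by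
  set g : Polynomial ℂ →+* Omg := (Polynomial.aeval uu : Polynomial ℂ →ₐ[ℂ] Omg).toRingHom with hg
  have hinj : Function.Injective g := aeval_uu_injective
  let a : g.range := ⟨g (Polynomial.X - Polynomial.C c), ⟨_, rfl⟩⟩
  have hne : Ideal.span {a} ≠ ⊤ := by
    intro h
    have h1 : (1 : g.range) ∈ Ideal.span {a} := by rw [h]; trivial
    rw [Ideal.mem_span_singleton'] at h1
    obtain ⟨⟨b, ⟨p, hp⟩⟩, hb⟩ := h1
    have h2 : b * g (Polynomial.X - Polynomial.C c) = 1 := congrArg Subtype.val hb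
    rw [← hp, ← map_mul, ← map_one g] at h2
    have h3 := hinj h2
    have h4 := congrArg (Polynomial.eval c) h3
    simp at h4
  obtain ⟨O, hO1, hO2⟩ := Ideal.image_subset_nonunits_valuationSubring _ hne
  refine ⟨O, fun p => hO1 ⟨p, rfl⟩, hO2 ⟨a, Ideal.subset_span rfl, rfl⟩⟩

theorem exists_place (c : ℂ) : ∃ (O : ValuationSubring Omg) (π : O →+* ℂ), IsPlace O π ∧
    ∃ h : uu ∈ O, π ⟨uu, h⟩ = c := by
  obtain ⟨O, hO1, hO2⟩ := exists_valuationSubring c
  set g : Polynomial ℂ →+* Omg := (Polynomial.aeval uu : Polynomial ℂ →ₐ[ℂ] Omg).toRingHom with hg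
  have hinj : Function.Injective g := aeval_uu_injective
  have hgC : ∀ z : ℂ, g (Polynomial.C z) = algebraMap ℂ Omg z := fun z => Polynomial.aeval_C uu z
  have hgX : g Polynomial.X = uu := Polynomial.aeval_X uu
  -- the map `ℂ[X] → O`
  let h : Polynomial ℂ →+* O := g.codRestrict O.toSubring (fun p => hO1 p)
  have hsub : O.subtype.comp h = g := by ext <;> rfl
  let r : O →+* IsLocalRing.ResidueField O := IsLocalRing.residue O
  -- the map `ℂ → k`
  let φ : ℂ →+* IsLocalRing.ResidueField O := (r.comp h).comp Polynomial.C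
  have hXc : r (h (Polynomial.X - Polynomial.C c)) = 0 := by
    rw [IsLocalRing.residue_eq_zero_iff]
    rw [ValuationSubring.mem_nonunits_iff_exists_mem_maximalIdeal] at hO2
    obtain ⟨h1, h2⟩ := hO2
    exact h2
  have hcomp : r.comp h = φ.comp (Polynomial.evalRingHom c) := by
    apply Polynomial.ringHom_ext
    · intro z
      simp [φ]
    · have h5 := hXc
      rw [map_sub, map_sub, sub_eq_zero] at h5
      simpa [φ] using h5
  let _alg : Algebra ℂ (IsLocalRing.ResidueField O) := φ.toAlgebra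
  have hint : Algebra.IsIntegral ℂ (IsLocalRing.ResidueField O) := by
    rw [← Algebra.isAlgebraic_iff_isIntegral]
    refine ⟨fun y => ?_⟩
    obtain ⟨x, rfl⟩ := IsLocalRing.residue_surjective y
    obtain ⟨A, hA0, hA⟩ := omg_algebraic (x : Omg)
    have hnu : ¬ IsUnit (Polynomial.C (Polynomial.X - Polynomial.C c) : Polynomial (Polynomial ℂ)) := by
      rw [Polynomial.isUnit_C]
      exact Polynomial.not_isUnit_X_sub_C c
    obtain ⟨B, hB1, hB2⟩ :=
      (FiniteMultiplicity.of_not_isUnit hnu hA0).exists_eq_pow_mul_and_not_dvd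
    have hB0 : (B.map g).eval (x : Omg) = 0 := by
      have h6 : (A.map g).eval (x : Omg) = 0 := hA
      rw [hB1, Polynomial.map_mul, Polynomial.map_pow, Polynomial.map_C, Polynomial.eval_mul,
        Polynomial.eval_pow, Polynomial.eval_C] at h6
      rcases mul_eq_zero.mp h6 with h7 | h7
      · exfalso
        have h8 : g (Polynomial.X - Polynomial.C c) = 0 := eq_zero_of_pow_eq_zero h7
        exact Polynomial.X_sub_C_ne_zero c (hinj (h8.trans (map_zero g).symm))
      · exact h7
    have hB3 : (B.map h).eval x = 0 := by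
      have h9 : O.subtype ((B.map h).eval x) = 0 := by
        rw [← Polynomial.eval_map_apply, Polynomial.map_map, hsub]
        exact hB0
      exact Subtype.ext h9
    have hB4 : ((B.map (Polynomial.evalRingHom c)).map φ).eval (r x) = 0 := by
      rw [Polynomial.map_map, ← hcomp, ← Polynomial.map_map, Polynomial.eval_map_apply, hB3, map_zero]
    refine ⟨B.map (Polynomial.evalRingHom c), ?_, ?_⟩
    · intro h10
      apply hB2
      rw [Polynomial.C_dvd_iff_dvd_coeff]
      intro i
      rw [Polynomial.dvd_iff_isRoot]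
      have h11 := congrArg (fun q => Polynomial.coeff q i) h10
      simpa [Polynomial.coeff_map] using h11
    · rw [Polynomial.aeval_def, ← Polynomial.eval_map]
      exact hB4
  have hbij : Function.Bijective φ :=
    IsAlgClosed.algebraMap_bijective_of_isIntegral (k := ℂ) (K := IsLocalRing.ResidueField O)
  let e : ℂ ≃+* IsLocalRing.ResidueField O := RingEquiv.ofBijective φ hbij
  have hrC : ∀ z : ℂ, r (h (Polynomial.C z)) = φ z := fun z => rfl
  refine ⟨O, (e.symm : IsLocalRing.ResidueField O →+* ℂ).comp r, ⟨fun z => ?_⟩, ?_⟩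
  · have hz : algebraMap ℂ Omg z ∈ O := by rw [← hgC]; exact hO1 _
    refine ⟨hz, ?_⟩
    have h12 : (⟨algebraMap ℂ Omg z, hz⟩ : O) = h (Polynomial.C z) := Subtype.ext (hgC z).symm
    rw [h12]
    change e.symm (r (h (Polynomial.C z))) = z
    rw [hrC, RingEquiv.symm_apply_eq]
    rfl
  · have hz : uu ∈ O := by rw [← hgX]; exact hO1 _
    refine ⟨hz, ?_⟩
    have h12 : (⟨uu, hz⟩ : O) = h Polynomial.X := Subtype.ext hgX.symm
    rw [h12]
    change e.symm (r (h Polynomial.X)) = c
    rw [RingEquiv.symm_apply_eq]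
    have h13 := congrArg (fun f : Polynomial ℂ →+* IsLocalRing.ResidueField O => f Polynomial.X) hcomp
    change r (h Polynomial.X) = φ c
    simpa using h13

end Pool.Agent.H5.DG

end
end

section

/-!
# Project DG2, module Trans: the Galois group permutes the factors of the norm form transitively

Fix `s`.  For `g : Omg ≃ₐ[RatFunc ℂ] Omg` the vector `g ∘ t s` is again some `t s'`: it lies in `Gam N Omg` (apply `g` to
`val N w uu = aeval w (Th N)`, `val_eq_Th`) and its coordinate `1` is `uu`, use `mem_Gam_iff`.  Let `𝒪` be the finite set of the `g ∘ t s`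
(a subset of the image of `t`), `Q = ∏ τ ∈ 𝒪, ∑ a, C (τ a) * X a`.  `Q` is fixed by the group (which permutes `𝒪`), so `Q = map Q₀`
(`exists_of_fixed_poly`).  `Q` divides `map (Th N) = ∏ s, ∑ a, C (t s a) * X a` (equality of polynomials over the infinite field `Omg`:
`MvPolynomial.funext`; the product over the subset `𝒪` of the image of `t` divides the product over all `s`); the quotient is fixed by
the group as well (domain), so `Th N = Q₀ * H₀` over `RatFunc ℂ`.  `Th_clear` for `Q₀` and `H₀`: `Th G₁ = q₁ Q₀`, `Th G₂ = q₂ H₀`, so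
`Th (G₁ * G₂) = Th (C (..) * N)`, `N ∣ G₁ * G₂` by `Th_injective` (the polynomial `q₁ q₂` of `u` is `Th` of an element of `Polynomial (PV n)`).  `N` is
prime (`hN.irred`, `PV n` is a UFD).  `N ∣ G₂` is impossible: `Th N` would divide `q₂ H₀ ≠ 0`, but `totalDegree (Th N) = κ`,
`totalDegree H₀ = κ - 𝒪.card < κ` (`totalDegree_mul_of_isDomain`).  `N ∣ G₁` gives `κ ≤ totalDegree Q₀ = 𝒪.card ≤ (image of t).card ≤ κ`.
So `𝒪` = image of `t` and `t` is injective.
-/

open MvPolynomial

noncomputable section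

namespace Pool.Agent.H5.DG

variable {n κ : ℕ} {N : Polynomial (PV n)}

/-- The linear form with the coefficients `τ`. -/
private def Trans_lin (τ : Fin (n + 2) → Omg) : MvPolynomial (Fin (n + 2)) Omg :=
  ∑ a, MvPolynomial.C (τ a) * MvPolynomial.X a

private theorem Trans_lin_eval (τ w : Fin (n + 2) → Omg) :
    MvPolynomial.eval w (Trans_lin τ) = dot τ w := by
  simp [Trans_lin, dot]

private theorem Trans_lin_homog (τ : Fin (n + 2) → Omg) : (Trans_lin τ).IsHomogeneous 1 := by
  unfold Trans_lin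
  refine MvPolynomial.IsHomogeneous.sum _ _ _ fun a _ => ?_
  have h := (MvPolynomial.isHomogeneous_C (Fin (n + 2)) (τ a)).mul
    (MvPolynomial.isHomogeneous_X Omg a)
  simpa using h

private theorem Trans_lin_ne {τ : Fin (n + 2) → Omg} (h : τ 0 = 1) : Trans_lin τ ≠ 0 := by
  intro h0
  have h1 := Trans_lin_eval τ (Pi.single 0 1)
  rw [h0, map_zero] at h1
  have h2 : dot τ (Pi.single 0 1 : Fin (n + 2) → Omg) = τ 0 := by
    simp [dot, Pi.single_apply]
  rw [h2, h] at h1
  exact zero_ne_one h1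

private theorem Trans_lin_map (g : Omg ≃ₐ[RatFunc ℂ] Omg) (τ : Fin (n + 2) → Omg) :
    MvPolynomial.map (g : Omg →+* Omg) (Trans_lin τ) = Trans_lin fun a => g (τ a) := by
  simp [Trans_lin]

/-- The Galois group permutes the factors. -/
private theorem Trans_mem {t : Fin κ → Fin (n + 2) → Omg} (ht : Factors N t)
    (g : Omg ≃ₐ[RatFunc ℂ] Omg) (s : Fin κ) : ∃ s', (fun a => g (t s a)) = t s' := by
  have hu : g uu = uu := g.commutes _
  have hmem : (fun a => g (t s a)) ∈ Gam N Omg := by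
    refine ⟨?_, fun w hw => ?_⟩
    · show g (t s 0) = 1
      rw [ht.zero, map_one]
    · show val N w (g (t s 1)) = 0
      rw [ht.one, hu, val_eq_Th]
      have h1 : MvPolynomial.aeval w (Th N) =
          g (MvPolynomial.aeval (fun a => g.symm (w a)) (Th N)) := by
        have h2 := MvPolynomial.comp_aeval_apply (fun a => g.symm (w a))
          (g : Omg →ₐ[RatFunc ℂ] Omg) (Th N)
        rw [AlgEquiv.coe_toAlgHom] at h2
        rw [h2]
        congr 1
        congr 1
        funext a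
        exact (g.apply_symm_apply _).symm
      have h3 : dot (t s) (fun a => g.symm (w a)) = 0 := by
        have h4 : g (dot (t s) fun a => g.symm (w a)) = 0 := by
          rw [← hw]
          simp [dot]
        exact (map_eq_zero_iff g g.injective).1 h4
      rw [h1, ← val_eq_Th, ht.split, Finset.prod_eq_zero (Finset.mem_univ s) h3, map_zero]
  exact (mem_Gam_iff (fun s => ⟨ht.zero s, ht.one s⟩) ht.split _
    (by show g (t s 1) = uu; rw [ht.one, hu])).1 hmem

/-- The norm form over the algebraic closure. -/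
private def Trans_Ph : Polynomial (PV n) →+* MvPolynomial (Fin (n + 2)) Omg :=
  (MvPolynomial.map (algebraMap (RatFunc ℂ) Omg)).comp Th

private theorem Trans_split {t : Fin κ → Fin (n + 2) → Omg} (ht : Factors N t) :
    Trans_Ph N = ∏ s, Trans_lin (t s) := by
  have : Infinite Omg := Infinite.of_injective (algebraMap ℂ Omg) (algebraMap ℂ Omg).injective
  refine MvPolynomial.funext fun w => ?_
  rw [map_prod]
  simp only [Trans_lin_eval]
  rw [← ht.split, val_eq_Th]
  show MvPolynomial.eval w (MvPolynomial.map (algebraMap (RatFunc ℂ) Omg) (Th N)) = _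
  rw [MvPolynomial.eval_map]
  rfl

private theorem Trans_mapC (q : Polynomial ℂ) :
    Th (n := n) (q.map MvPolynomial.C) =
      MvPolynomial.C (algebraMap (Polynomial ℂ) (RatFunc ℂ) q) := by
  have h : (Th (n := n)).comp (Polynomial.mapRingHom MvPolynomial.C) =
      MvPolynomial.C.comp (algebraMap (Polynomial ℂ) (RatFunc ℂ)) := by
    refine Polynomial.ringHom_ext (fun c => ?_) ?_
    · simp only [RingHom.comp_apply, Polynomial.coe_mapRingHom, Polynomial.map_C, Th,
        Polynomial.coe_eval₂RingHom, Polynomial.eval₂_C, MvPolynomial.map_C]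
      rfl
    · simp only [RingHom.comp_apply, Polynomial.coe_mapRingHom, Polynomial.map_X, Th,
        Polynomial.coe_eval₂RingHom, Polynomial.eval₂_X, RatFunc.algebraMap_X]
  exact congrArg (fun f => f q) h

/-- the main step -/
private theorem Trans_orbit {t : Fin κ → Fin (n + 2) → Omg} (ht : Factors N t)
    (hN : IsNormForm κ N) (s₀ : Fin κ) :
    Function.Injective t ∧ ∀ s', ∃ g : Omg ≃ₐ[RatFunc ℂ] Omg, (fun a => g (t s₀ a)) = t s' := by
  classical
  set R : Finset (Fin (n + 2) → Omg) := Finset.univ.image t with hR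
  set O : Finset (Fin (n + 2) → Omg) :=
    R.filter fun τ => ∃ g : Omg ≃ₐ[RatFunc ℂ] Omg, (fun a => g (t s₀ a)) = τ with hO
  have hO1 : ∀ g : Omg ≃ₐ[RatFunc ℂ] Omg, ∀ τ ∈ O, (fun a => g (τ a)) ∈ O := by
    intro g τ hτ
    rw [hO, Finset.mem_filter] at hτ ⊢
    obtain ⟨-, g', rfl⟩ := hτ
    have h1 : (fun a => g (g' (t s₀ a))) = fun a => (g'.trans g) (t s₀ a) := rfl
    refine ⟨?_, g'.trans g, rfl⟩
    obtain ⟨s', hs'⟩ := Trans_mem ht (g'.trans g) s₀
    rw [hR, Finset.mem_image]
    exact ⟨s', Finset.mem_univ _, hs'.symm⟩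
  have hO0 : ∀ τ ∈ O, τ 0 = 1 := by
    intro τ hτ
    rw [hO, Finset.mem_filter, hR, Finset.mem_image] at hτ
    obtain ⟨⟨s, -, rfl⟩, -⟩ := hτ
    exact ht.zero s
  have hOs : t s₀ ∈ O := by
    rw [hO, Finset.mem_filter, hR, Finset.mem_image]
    exact ⟨⟨s₀, Finset.mem_univ _, rfl⟩, AlgEquiv.refl, rfl⟩
  set P : MvPolynomial (Fin (n + 2)) Omg := ∏ s, Trans_lin (t s) with hP
  set Q : MvPolynomial (Fin (n + 2)) Omg := ∏ τ ∈ O, Trans_lin τ with hQ
  have hPN : Trans_Ph N = P := Trans_split ht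
  have hP0 : P ≠ 0 := Finset.prod_ne_zero_iff.2 fun s _ => Trans_lin_ne (ht.zero s)
  have hQ0 : Q ≠ 0 := Finset.prod_ne_zero_iff.2 fun τ hτ => Trans_lin_ne (hO0 τ hτ)
  have hPd : P.totalDegree = κ := by
    have h := MvPolynomial.IsHomogeneous.prod (Finset.univ : Finset (Fin κ))
      (fun s => Trans_lin (t s)) (fun _ => 1) (fun s _ => Trans_lin_homog (t s))
    have h1 := h.totalDegree hP0
    rw [h1]
    simp
  have hQd : Q.totalDegree = O.card := by
    have h := MvPolynomial.IsHomogeneous.prod O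
      (fun τ => Trans_lin τ) (fun _ => 1) (fun τ _ => Trans_lin_homog τ)
    have h1 := h.totalDegree hQ0
    rw [h1]
    simp
  -- `Q` divides `P`
  have hdvd : Q ∣ P := by
    have hex : ∀ τ : Fin (n + 2) → Omg, τ ∈ O → ∃ s, t s = τ := by
      intro τ hτ
      rw [hO, Finset.mem_filter, hR, Finset.mem_image] at hτ
      obtain ⟨⟨s, -, h⟩, -⟩ := hτ
      exact ⟨s, h⟩
    have : Nonempty (Fin κ) := ⟨s₀⟩
    choose! f hf using hex
    have hinj : Set.InjOn f O := by
      intro τ hτ τ' hτ' h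
      rw [← hf τ hτ, ← hf τ' hτ', h]
    have h1 : Q = ∏ s ∈ O.image f, Trans_lin (t s) := by
      rw [Finset.prod_image hinj]
      exact Finset.prod_congr rfl fun τ hτ => by rw [hf τ hτ]
    rw [h1, hP]
    exact Finset.prod_dvd_prod_of_subset _ _ _ (Finset.subset_univ _)
  obtain ⟨H, hH⟩ := hdvd
  have hH0 : H ≠ 0 := by
    rintro rfl
    rw [mul_zero] at hH
    exact hP0 hH
  have hQg : ∀ g : Omg ≃ₐ[RatFunc ℂ] Omg, MvPolynomial.map (g : Omg →+* Omg) Q = Q := by
    intro g
    rw [hQ, map_prod]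
    simp only [Trans_lin_map]
    refine Finset.prod_nbij' (fun τ => fun a => g (τ a)) (fun τ => fun a => g.symm (τ a))
      (fun τ hτ => hO1 g τ hτ) (fun τ hτ => hO1 g.symm τ hτ) (fun τ _ => ?_) (fun τ _ => ?_)
      (fun τ _ => rfl)
    · funext a
      exact g.symm_apply_apply _
    · funext a
      exact g.apply_symm_apply _
  have hPg : ∀ g : Omg ≃ₐ[RatFunc ℂ] Omg, MvPolynomial.map (g : Omg →+* Omg) P = P := by
    intro g
    rw [← hPN]
    show MvPolynomial.map (g : Omg →+* Omg) (MvPolynomial.map (algebraMap (RatFunc ℂ) Omg) (Th N)) =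
      MvPolynomial.map (algebraMap (RatFunc ℂ) Omg) (Th N)
    rw [MvPolynomial.map_map]
    congr 1
    congr 1
    ext x
    exact g.commutes x
  have hHg : ∀ g : Omg ≃ₐ[RatFunc ℂ] Omg, MvPolynomial.map (g : Omg →+* Omg) H = H := by
    intro g
    have h1 := hPg g
    rw [hH, map_mul, hQg g] at h1
    exact mul_left_cancel₀ hQ0 h1
  obtain ⟨Q₀, hQ₀⟩ := exists_of_fixed_poly Q hQg
  obtain ⟨H₀, hH₀⟩ := exists_of_fixed_poly H hHg
  have hmi : Function.Injective
      (MvPolynomial.map (σ := Fin (n + 2)) (algebraMap (RatFunc ℂ) Omg)) :=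
    MvPolynomial.map_injective _ (algebraMap (RatFunc ℂ) Omg).injective
  have hTh : Th N = Q₀ * H₀ := by
    apply hmi
    rw [map_mul, hQ₀, hH₀, ← hH]
    exact hPN
  obtain ⟨q₁, G₁, hq₁, hG₁⟩ := Th_clear Q₀
  obtain ⟨q₂, G₂, hq₂, hG₂⟩ := Th_clear H₀
  have hdv : N ∣ G₁ * G₂ := by
    refine ⟨(q₁ * q₂).map MvPolynomial.C, Th_injective ?_⟩
    rw [map_mul, map_mul, hG₁, hG₂, hTh, Trans_mapC, map_mul, map_mul]
    ring
  have hprime : Prime N := hN.irred.prime
  -- the degree of a multiple of `N`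
  have hdeg : ∀ (q : Polynomial ℂ) (G : Polynomial (PV n)) (A : MvPolynomial (Fin (n + 2)) Omg)
      (A₀ : MvPolynomial (Fin (n + 2)) (RatFunc ℂ)), q ≠ 0 → A ≠ 0 →
      MvPolynomial.map (algebraMap (RatFunc ℂ) Omg) A₀ = A →
      Th G = MvPolynomial.C (algebraMap (Polynomial ℂ) (RatFunc ℂ) q) * A₀ → N ∣ G →
      κ ≤ A.totalDegree := by
    intro q G A A₀ hq hA hA₀ hG hNG
    obtain ⟨B, rfl⟩ := hNG
    have h1 : P * Trans_Ph B =
        MvPolynomial.C (algebraMap (RatFunc ℂ) Omg (algebraMap (Polynomial ℂ) (RatFunc ℂ) q)) *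
          A := by
      rw [← hPN, ← map_mul, ← hA₀]
      show MvPolynomial.map (algebraMap (RatFunc ℂ) Omg) (Th (N * B)) = _
      rw [hG, map_mul, MvPolynomial.map_C]
    have hc : (MvPolynomial.C (algebraMap (RatFunc ℂ) Omg
        (algebraMap (Polynomial ℂ) (RatFunc ℂ) q)) : MvPolynomial (Fin (n + 2)) Omg) ≠ 0 := by
      rw [Ne, MvPolynomial.C_eq_zero, map_eq_zero]
      intro h
      exact hq ((map_eq_zero_iff _ (RatFunc.algebraMap_injective ℂ)).1 h)
    have hB0 : Trans_Ph B ≠ 0 := by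
      intro h
      rw [h, mul_zero] at h1
      exact mul_ne_zero hc hA h1.symm
    have h2 := congrArg MvPolynomial.totalDegree h1
    rw [MvPolynomial.totalDegree_mul_of_isDomain hP0 hB0,
      MvPolynomial.totalDegree_mul_of_isDomain hc hA, MvPolynomial.totalDegree_C, zero_add,
      hPd] at h2
    omega
  have hsum : κ = O.card + H.totalDegree := by
    rw [← hPd, hH, MvPolynomial.totalDegree_mul_of_isDomain hQ0 hH0, hQd]
  have hOpos : 0 < O.card := Finset.card_pos.2 ⟨_, hOs⟩
  have hcard : κ ≤ O.card := by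
    rcases hprime.dvd_or_dvd hdv with h | h
    · have h1 := hdeg q₁ G₁ Q Q₀ hq₁ hQ0 hQ₀ hG₁ h
      rwa [hQd] at h1
    · have h1 := hdeg q₂ G₂ H H₀ hq₂ hH0 hH₀ hG₂ h
      omega
  have hOR : O ⊆ R := Finset.filter_subset _ _
  have hRcard : R.card ≤ κ := by
    rw [hR]
    refine Finset.card_image_le.trans ?_
    simp
  have hOeq : O = R := Finset.eq_of_subset_of_card_le hOR (hRcard.trans hcard)
  have hinj : Function.Injective t := by
    have h1 : R.card = (Finset.univ : Finset (Fin κ)).card := by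
      have h2 := Finset.card_le_card hOR
      rw [Finset.card_univ, Fintype.card_fin]
      omega
    have h2 := Finset.card_image_iff.1 h1
    intro a b hab
    exact h2 (Finset.mem_coe.2 (Finset.mem_univ a)) (Finset.mem_coe.2 (Finset.mem_univ b)) hab
  refine ⟨hinj, fun s' => ?_⟩
  have h1 : t s' ∈ O := by
    rw [hOeq, hR]
    exact Finset.mem_image_of_mem _ (Finset.mem_univ _)
  rw [hO, Finset.mem_filter] at h1
  exact h1.2

theorem Factors.trans {t : Fin κ → Fin (n + 2) → Omg} (ht : Factors N t) (hN : IsNormForm κ N) :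
    Function.Injective t ∧
      ∀ s s', ∃ g : Omg ≃ₐ[RatFunc ℂ] Omg, ∀ a, g (t s a) = t s' a := by
  constructor
  · intro s s' h
    exact (Trans_orbit ht hN s).1 h
  · intro s s'
    obtain ⟨g, hg⟩ := (Trans_orbit ht hN s).2 s'
    exact ⟨g, fun a => congrFun hg a⟩

end Pool.Agent.H5.DG

end
end
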