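import Pool.Agent.H94.DG.H5.DG.ChowDvd
import Pool.Agent.H94.DG.M12
import Pool.Agent.H94.DG.M22
import Pool.Agent.H94.DG.M36
import Pool.Agent.H94.DG.M44
import Pool.Agent.H94.DG.M46
import Pool.Agent.H94.DG.M47
import Pool.Agent.H94.DG.M56
import Pool.Agent.H94.DG.M57
import Pool.Agent.H94.DG.M58

/-! The parts of this file: H5.DG2.Pack1, H5.DG2.PlaceT, H5.DG2.TwoForms, H5.DG2.DelV, H5.DG4.Pack4, H5.DG4.Part4. -/

section

/-!
# Project DG2, module Pack1: the package for vectors which span the space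

`J ≃ Fin J.card` (`J.orderEmbOfFin rfl`) gives `ι`; `p j a = c (ι j) * ∑ b', x b' * M b' a`, where `x` are the coordinates of `l (ι j)`;
`B a = ∑ b', M⁻¹ a b' • b b'` (the rows of `M⁻¹` in the basis `b`), so `c (ι j) • l (ι j) = ∑ a, p j a • B a` (`M * M⁻¹ = 1`); `B` is
independent since `M⁻¹` is invertible.  The `p j` are distinct: `p i = p j` would give `l (ι i) = (c (ι i))⁻¹ * c (ι j) • l (ι j)`.
`hspan` gives: if `dot (p j) w = 0` for all `j` then the linear form `x ↦ dot (x M) w` vanishes on the `l (ι j)`, so it is zero and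
`M.mulVec w = 0`, `w = 0`.  Then `nondeg_of_span hκ hN Finset.univ p ..`, `del_ne_zero hκ hN`, `exists_chow_eq hκ hN.pre hΔ`, `chow_dvd`,
`del_homogeneous hN.pre` as in `Pool.Agent.H5.DG.Package`.
-/

open MvPolynomial

noncomputable section

namespace Pool.Agent.H5.DG

theorem pack_span {n m κ : ℕ} {V : Type} [AddCommGroup V] [Module ℂ V]
    (b : Module.Basis (Fin (n + 2)) ℂ V) (l : Fin m → V)
    (hl : ∀ i j, i ≠ j → ∀ c : ℂ, l i ≠ c • l j) {N : Polynomial (PV n)} {J : Finset (Fin m)}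
    {M : Matrix (Fin (n + 2)) (Fin (n + 2)) ℂ} {c : Fin m → ℂ} (hM : IsUnit M.det) (hκ : 1 ≤ κ)
    (hN : IsNormForm κ N)
    (hc : ∀ j ∈ J, c j ≠ 0 ∧ (fun a => c j * ∑ b', b.repr (l j) b' * M b' a) ∈ Gam N ℂ)
    (hcard : (2 * n + 8) * κ < J.card) (hspan : Submodule.span ℂ (l '' J) = ⊤) :
    ∃ (ι : Fin J.card → Fin m) (φ : PVW n) (p : Fin J.card → Fin (n + 2) → ℂ)
      (c' : Fin J.card → ℂ) (B : Fin (n + 2) → V),
      Function.Injective ι ∧ Pkg2 p κ N φ ∧ LinearIndependent ℂ B ∧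
      ∀ j, c' j ≠ 0 ∧ c' j • l (ι j) = ∑ a, p j a • B a := by
  classical
  -- the indices
  set ι : Fin J.card → Fin m := fun i => J.orderEmbOfFin rfl i with hι
  have hιmem : ∀ i, ι i ∈ J := fun i => Finset.orderEmbOfFin_mem J rfl i
  have hιinj : Function.Injective ι := (J.orderEmbOfFin rfl).injective
  have hιsurj : ∀ j ∈ J, ∃ i, ι i = j := by
    intro j hj
    have h1 : (j : Fin m) ∈ Set.range (J.orderEmbOfFin rfl) := by
      rw [Finset.range_orderEmbOfFin]
      exact hj
    exact h1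
  set p : Fin J.card → Fin (n + 2) → ℂ :=
    fun j a => c (ι j) * ∑ b', b.repr (l (ι j)) b' * M b' a with hp
  set B : Fin (n + 2) → V := fun a => ∑ b', M⁻¹ a b' • b b' with hB
  have hMM : M * M⁻¹ = 1 := Matrix.mul_nonsing_inv M hM
  have hMM' : M⁻¹ * M = 1 := Matrix.nonsing_inv_mul M hM
  have hcomb : ∀ g : Fin (n + 2) → ℂ, ∑ a, g a • B a = ∑ b', (∑ a, g a * M⁻¹ a b') • b b' := by
    intro g
    simp only [hB, Finset.smul_sum, Finset.sum_smul, smul_smul]
    exact Finset.sum_comm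
  have hlin : LinearIndependent ℂ B := by
    rw [Fintype.linearIndependent_iff]
    intro g hg
    rw [hcomb] at hg
    have h1 := (Fintype.linearIndependent_iff.1 b.linearIndependent) _ hg
    have h2 : Matrix.vecMul g M⁻¹ = 0 := by
      funext b'
      exact h1 b'
    have h3 : g = 0 := by
      have h4 : Matrix.vecMul (Matrix.vecMul g M⁻¹) M = g := by
        rw [Matrix.vecMul_vecMul, hMM', Matrix.vecMul_one]
      rw [← h4, h2, Matrix.zero_vecMul]
    intro i
    rw [h3]
    rfl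
  have hrep : ∀ j, c (ι j) • l (ι j) = ∑ a, p j a • B a := by
    intro j
    rw [hcomb]
    have h1 : ∀ b', ∑ a, p j a * M⁻¹ a b' = c (ι j) * b.repr (l (ι j)) b' := by
      intro b'
      have h2 : ∑ a, p j a * M⁻¹ a b' =
          c (ι j) * ∑ b'', b.repr (l (ι j)) b'' * (M * M⁻¹) b'' b' := by
        simp only [hp, Matrix.mul_apply, Finset.mul_sum, Finset.sum_mul]
        rw [Finset.sum_comm]
        refine Finset.sum_congr rfl fun x _ => Finset.sum_congr rfl fun y _ => ?_
        ring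
      rw [h2, hMM]
      congr 1
      rw [Finset.sum_eq_single b']
      · rw [Matrix.one_apply_eq, mul_one]
      · intro b'' _ hne
        rw [Matrix.one_apply_ne hne, mul_zero]
      · intro h
        exact absurd (Finset.mem_univ _) h
    simp only [h1]
    rw [← b.sum_repr (l (ι j))]
    rw [Finset.smul_sum]
    refine Finset.sum_congr rfl fun b' _ => ?_
    rw [b.sum_repr, smul_smul]
  have hpinj : Function.Injective p := by
    intro i j hij
    by_contra hne
    have h1 : c (ι i) • l (ι i) = c (ι j) • l (ι j) := by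
      rw [hrep i, hrep j, hij]
    have hci : c (ι i) ≠ 0 := (hc _ (hιmem i)).1
    refine hl (ι i) (ι j) (fun h => hne (hιinj h)) ((c (ι i))⁻¹ * c (ι j)) ?_
    rw [mul_smul, ← h1, smul_smul, inv_mul_cancel₀ hci, one_smul]
  have hmem : ∀ j, p j ∈ Gam N ℂ := fun j => (hc _ (hιmem j)).2
  have hsp : ∀ w : Fin (n + 2) → ℂ, (∀ j ∈ (Finset.univ : Finset (Fin J.card)),
      dot (p j) w = 0) → w = 0 := by
    intro w hw
    have h1 : ∀ j : Fin J.card, ∑ b', b.repr (l (ι j)) b' * (M.mulVec w) b' = 0 := by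
      intro j
      have h2 : dot (p j) w = c (ι j) * ∑ b', b.repr (l (ι j)) b' * (M.mulVec w) b' := by
        unfold dot
        simp only [hp, Matrix.mulVec, dotProduct, Finset.mul_sum, Finset.sum_mul]
        rw [Finset.sum_comm]
        refine Finset.sum_congr rfl fun x _ => Finset.sum_congr rfl fun y _ => ?_
        ring
      have h3 := hw j (Finset.mem_univ _)
      rw [h2] at h3
      exact (mul_eq_zero.1 h3).resolve_left (hc _ (hιmem j)).1
    have h4 : ∀ v : V, ∑ b', b.repr v b' * (M.mulVec w) b' = 0 := by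
      intro v
      have hv : v ∈ Submodule.span ℂ (l '' J) := by
        rw [hspan]
        exact Submodule.mem_top
      induction hv using Submodule.span_induction with
      | mem x hx =>
        obtain ⟨j, hj, rfl⟩ := hx
        obtain ⟨i, hi⟩ := hιsurj j hj
        rw [← hi]
        exact h1 i
      | zero => simp
      | add x y _ _ hx hy =>
        simp only [map_add, Finsupp.add_apply, add_mul, Finset.sum_add_distrib, hx, hy, add_zero]
      | smul a x _ hx =>
        simp only [map_smul, Finsupp.smul_apply, smul_eq_mul, mul_assoc]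
        rw [← Finset.mul_sum, hx, mul_zero]
    have h5 : M.mulVec w = 0 := by
      funext b'
      have h6 := h4 (b b')
      rw [Finset.sum_eq_single b'] at h6
      · rw [b.repr_self, Finsupp.single_eq_same, one_mul] at h6
        exact h6
      · intro b'' _ hne
        rw [b.repr_self, Finsupp.single_eq_of_ne hne, zero_mul]
      · intro h
        exact absurd (Finset.mem_univ _) h
    exact Matrix.eq_zero_of_mulVec_eq_zero hM.ne_zero h5
  have hΔ := del_ne_zero hκ hN
  obtain ⟨φ, hφ⟩ := exists_chow_eq hκ hN.pre hΔ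
  refine ⟨ι, φ, p, fun j => c (ι j), B, hιinj, ⟨⟨hκ, hN, ?_, ⟨hφ, fun p hp w hw =>
    chow_dvd hκ hN.pre hΔ hφ p hp w hw⟩⟩, hΔ, del_homogeneous hN.pre, hmem, hpinj, hcard⟩, hlin,
    fun j => ⟨(hc _ (hιmem j)).1, hrep j⟩⟩
  exact nondeg_of_span hκ hN Finset.univ p (fun j _ => hmem j) hsp

end Pool.Agent.H5.DG

end
end

section

/-!
# Project DG2, module PlaceT: a place which maps a given factor of the norm form to a given point of the curve

`exists_place (p 1)`: `O`, `π`.  All `t s' a ∈ O`: `size_val` with the valuation of `O` (trivial on `ℂ ⊆ O`, `uu ∈ O`; `t s' ∈ Gam N Omg`,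
`mem_Gam_iff`).  Apply `π` to `val N w uu = ∏ s', dot (t s') w` for `w` with complex coordinates: `val N w (p 1) = ∏ s', dot (π ∘ t s') w`
(`val_eq_sum`); `π ∘ t s'` has coordinates `1` and `p 1` at `0`, `1`.  Since `p ∈ Gam N ℂ`, `p = π ∘ t s'` for some `s'` (`mem_Gam_iff`).
`ht.trans hN` gives `g` with `g ∘ t s = t s'`; take `O.comap g` and `π ∘ g`.
-/

open MvPolynomial

noncomputable section

namespace Pool.Agent.H5.DG

variable {n κ : ℕ} {N : Polynomial (PV n)}

theorem Factors.exists_place {t : Fin κ → Fin (n + 2) → Omg} (ht : Factors N t)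
    (hN : IsNormForm κ N) (s : Fin κ) {p : Fin (n + 2) → ℂ} (hp : p ∈ Gam N ℂ) :
    ∃ (O : ValuationSubring Omg) (π : O →+* ℂ), IsPlace O π ∧
      ∀ a, ∃ h : t s a ∈ O, π ⟨t s a, h⟩ = p a := by
  obtain ⟨O, π, hπ, huu, hπu⟩ := Pool.Agent.H5.DG.exists_place (p 1)
  have hκ : 1 ≤ κ := by
    have := s.2
    omega
  have ht1 : ∀ s, t s 0 = 1 ∧ t s 1 = uu := fun s => ⟨ht.zero s, ht.one s⟩
  have hc : ∀ z : ℂ, algebraMap ℂ Omg z ∈ O := by
    intro z
    obtain ⟨h, -⟩ := hπ.const z
    exact h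
  have hν : ∀ c : ℂ, c ≠ 0 → O.valuation (algebraMap ℂ Omg c) = 1 := by
    intro c hc0
    have h1 := (O.valuation_le_one_iff _).2 (hc c)
    have h2 := (O.valuation_le_one_iff _).2 (hc c⁻¹)
    have h3 : O.valuation (algebraMap ℂ Omg c) * O.valuation (algebraMap ℂ Omg c⁻¹) = 1 := by
      rw [← map_mul, ← map_mul, mul_inv_cancel₀ hc0, map_one, map_one]
    refine le_antisymm h1 ?_
    calc (1 : O.ValueGroup) = _ := h3.symm
      _ ≤ O.valuation (algebraMap ℂ Omg c) * 1 := mul_le_mul_right h2 _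
      _ = _ := mul_one _
  have hmem : ∀ s' a, t s' a ∈ O := by
    intro s' a
    have h1 : t s' ∈ Gam N Omg := (mem_Gam_iff ht1 ht.split (t s') (ht.one s')).2 ⟨s', rfl⟩
    have h2 := size_val hκ hN.pre O.valuation hν (t s') h1 a
    rw [ht.one s'] at h2
    rw [← O.valuation_le_one_iff]
    exact h2.trans (max_le le_rfl ((O.valuation_le_one_iff _).2 huu))
  obtain ⟨σ, hσ⟩ : ∃ σ : Fin κ → Fin (n + 2) → ℂ, σ = fun s' a => π ⟨t s' a, hmem s' a⟩ :=
    ⟨_, rfl⟩
  have hval : ∀ w : Fin (n + 2) → ℂ, val N w (p 1) = ∏ s', dot (σ s') w := by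
    intro w
    obtain ⟨c, hcd⟩ : ∃ c : ℂ →+* O, c = (algebraMap ℂ Omg).codRestrict O hc := ⟨_, rfl⟩
    have hcs : ∀ z, O.subtype (c z) = algebraMap ℂ Omg z := by
      intro z
      rw [hcd]
      rfl
    have hcπ : ∀ z, π (c z) = z := by
      intro z
      obtain ⟨h, e⟩ := hπ.const z
      rw [hcd]
      exact e
    have h1 := ht.split (algebraMap ℂ Omg ∘ w)
    rw [val_eq_sum (natDegree_le hN.pre)] at h1 ⊢
    have h2 : (∑ i ∈ Finset.range (κ + 1), c (MvPolynomial.aeval w (N.coeff i)) *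
        (⟨uu, huu⟩ : O) ^ i) = ∏ s', ∑ a, (⟨t s' a, hmem s' a⟩ : O) * c (w a) := by
      apply O.subtype_injective
      rw [map_sum, map_prod]
      refine Eq.trans ?_ (h1.trans ?_)
      · refine Finset.sum_congr rfl fun i _ => ?_
        rw [map_mul, map_pow, hcs, MvPolynomial.aeval_algebraMap_apply]
        rfl
      · refine Finset.prod_congr rfl fun s' _ => ?_
        rw [map_sum]
        refine Finset.sum_congr rfl fun a _ => ?_
        rw [map_mul, hcs]
        rfl
    have h3 := congrArg π h2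
    rw [map_sum, map_prod] at h3
    refine Eq.trans ?_ (h3.trans ?_)
    · refine Finset.sum_congr rfl fun i _ => ?_
      rw [map_mul, map_pow, hcπ, hπu]
    · refine Finset.prod_congr rfl fun s' _ => ?_
      rw [map_sum, hσ]
      refine Finset.sum_congr rfl fun a _ => ?_
      rw [map_mul, hcπ]
  have hσ1 : ∀ s', σ s' 0 = 1 ∧ σ s' 1 = p 1 := by
    intro s'
    rw [hσ]
    constructor
    · have h1 : (⟨t s' 0, hmem s' 0⟩ : O) = 1 := Subtype.ext (ht.zero s')
      show π ⟨t s' 0, hmem s' 0⟩ = 1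
      rw [h1, map_one]
    · have h1 : (⟨t s' 1, hmem s' 1⟩ : O) = ⟨uu, huu⟩ := Subtype.ext (ht.one s')
      show π ⟨t s' 1, hmem s' 1⟩ = p 1
      rw [h1, hπu]
  obtain ⟨s', hs'⟩ := (mem_Gam_iff hσ1 hval p rfl).1 hp
  obtain ⟨g, hg⟩ := (ht.trans hN).2 s s'
  obtain ⟨f, hf⟩ : ∃ f : Omg →+* Omg, f = (g : Omg →+* Omg) := ⟨_, rfl⟩
  have hfc : ∀ z : ℂ, f (algebraMap ℂ Omg z) = algebraMap ℂ Omg z := by
    intro z
    rw [hf, IsScalarTower.algebraMap_apply ℂ (RatFunc ℂ) Omg]
    exact g.commutes _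
  have hft : ∀ a, f (t s a) = t s' a := by
    intro a
    rw [hf]
    exact hg a
  refine ⟨O.comap f, π.comp ((f.comp (O.comap f).subtype).codRestrict O fun x => x.2),
    ⟨fun z => ?_⟩, fun a => ?_⟩
  · have h1 : algebraMap ℂ Omg z ∈ O.comap f := by
      rw [ValuationSubring.mem_comap, hfc]
      exact hc z
    refine ⟨h1, ?_⟩
    obtain ⟨h, e⟩ := hπ.const z
    refine Eq.trans ?_ e
    rw [RingHom.comp_apply]
    exact congrArg π (Subtype.ext (hfc z))
  · have h1 : t s a ∈ O.comap f := by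
      rw [ValuationSubring.mem_comap, hft]
      exact hmem s' a
    refine ⟨h1, ?_⟩
    have h2 : p a = π ⟨t s' a, hmem s' a⟩ := by
      rw [hs', hσ]
    rw [h2, RingHom.comp_apply]
    exact congrArg π (Subtype.ext (hft a))

end Pool.Agent.H5.DG

end
end

section

/-!
# Project DG2, module TwoForms: points where the exceptional form vanishes

`N (v; ·)` has degree exactly `κ` by `coeff_ne`, so, if `Del κ N` vanishes at `v`, `N (v; ·)` has a common root `u` with `∂N/∂v₀ (v; ·)` or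
with its derivative (`Polynomial.resultant` of the polynomials `atV N v`, `atV (dN 0 N) v` (degree `≤ κ`) over the algebraically closed
field `L`: `Polynomial.resultant_map_map`, `Polynomial.resultant_add_right_deg`, `Polynomial.resultant_eq_zero_iff`; compare with modules
ResEval, PtsRoots).  `u` is not in the image of `ℂ`: for `u ∈ ℂ` the factors of `N (·; u)` over `ℂ` (`hN.split ℂ u`; the identity
`val N w u = ∏ ..` is one of polynomials in `w`, so it holds over `L`) give `dot (toL L t) v = 0` with `t 0 = 1`, against `hv`.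
`exists_emb` gives `j` with `j uu = u`; `exists_factors`, `exists_der`, `Factors.identities` at `w = v`: some `dot (j ∘ t s) v = 0`.  If
`val (dN 0 N) v u = 0`: all terms but that of `s` vanish in the sum, so `dot (j ∘ t s') v = 0` for some `s' ≠ s`; `τ = t s' - t s`, which is
not `0` by `Factors.trans`.  Otherwise the product over `s' ≠ s` is not zero, and `N' (v; u) = 0` gives `dot (j ∘ d ∘ t s) v = 0`:
`τ = d ∘ t s`, `τ 0 = d 1 = 0`, `τ 1 = d uu = 1`.
-/

open MvPolynomial

noncomputable section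

namespace Pool.Agent.H5.DG

variable {n κ : ℕ} {N : Polynomial (PV n)}

private theorem twoForms_root {L : Type} [Field L] [Algebra ℂ L] [IsAlgClosed L]
    (hN : IsPreNorm κ N) (v : Fin (n + 2) → L) (hc : MvPolynomial.aeval v (N.coeff κ) ≠ 0)
    (g : Polynomial L) (hg : g.natDegree ≤ κ)
    (h0 : Polynomial.resultant (atV N v) g κ κ = 0) :
    ∃ u : L, val N v u = 0 ∧ g.eval u = 0 := by
  classical
  obtain ⟨hdeg, hlead⟩ := atV_natDegree hN v hc
  have h := Polynomial.resultant_eq_prod_eval (atV N v) g κ hg (IsAlgClosed.splits _)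
  rw [hdeg, hlead, h0] at h
  have h1 := (mul_eq_zero.mp h.symm).resolve_left (pow_ne_zero _ hc)
  rw [Multiset.prod_eq_zero_iff, Multiset.mem_map] at h1
  obtain ⟨u, hu, hgu⟩ := h1
  refine ⟨u, ?_, hgu⟩
  exact (Polynomial.mem_roots'.mp hu).2

/-- a common root of `N (v; ·)` and of `D_0 N (v; ·)` or of the derivative -/
private theorem twoForms_common (hκ : 1 ≤ κ) (hN : IsPreNorm κ N) {L : Type} [Field L]
    [Algebra ℂ L] [IsAlgClosed L] (v : Fin (n + 2) → L)
    (hc : MvPolynomial.aeval v (N.coeff κ) ≠ 0)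
    (hdel : MvPolynomial.aeval v (Del κ N) = 0) :
    ∃ u : L, val N v u = 0 ∧ (val (dN 0 N) v u = 0 ∨
      (Polynomial.derivative (atV N v)).eval u = 0) := by
  rw [Del, map_mul, map_mul] at hdel
  rcases mul_eq_zero.mp hdel with h | h
  · have h1 := (mul_eq_zero.mp h).resolve_left hc
    have h2 : Polynomial.resultant (atV N v) (atV (dN 0 N) v) κ κ = 0 := by
      rw [← h1]
      unfold atV res0
      rw [Polynomial.resultant_map_map]
      rfl
    obtain ⟨u, hu, hg⟩ := twoForms_root hN v hc (atV (dN 0 N) v)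
      ((Polynomial.natDegree_map_le).trans (natDegree_dN_le hN 0)) h2
    exact ⟨u, hu, Or.inl hg⟩
  · have h2 : Polynomial.resultant (atV N v) (Polynomial.derivative (atV N v)) κ κ = 0 := by
      rw [← h, atV, Polynomial.derivative_map, Polynomial.resultant_map_map]
      rfl
    obtain ⟨u, hu, hg⟩ := twoForms_root hN v hc (Polynomial.derivative (atV N v))
      ((Polynomial.natDegree_derivative_le _).trans
        (by have := (atV_natDegree hN v hc).1; omega)) h2
    exact ⟨u, hu, Or.inr hg⟩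

/-- the roots of `N (v; ·)` are not complex -/
private theorem twoForms_notC (hN : IsPreNorm κ N) {L : Type} [Field L] [Algebra ℂ L]
    (v : Fin (n + 2) → L) (hv : ∀ x : Fin (n + 2) → ℂ, dot (toL L x) v = 0 → x = 0) {u : L}
    (hu : val N v u = 0) (c : ℂ) : u ≠ algebraMap ℂ L c := by
  intro huc
  subst huc
  obtain ⟨t, ht1, ht⟩ := hN.split ℂ c
  have h1 : (∑ i ∈ Finset.range (κ + 1), N.coeff i * MvPolynomial.C (c ^ i)) =
      ∏ s, (∑ a, MvPolynomial.C (t s a) * MvPolynomial.X a : PV n) := by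
    refine MvPolynomial.funext fun w => ?_
    have h2 := ht w
    rw [val_eq_sum (natDegree_le hN)] at h2
    rw [map_sum, map_prod]
    simp only [map_mul, MvPolynomial.eval_C, map_sum, MvPolynomial.eval_X]
    exact h2
  rw [val_eq_sum (natDegree_le hN)] at hu
  have h2 := congrArg (MvPolynomial.aeval v : PV n →ₐ[ℂ] L) h1
  rw [map_sum, map_prod] at h2
  simp only [map_mul, MvPolynomial.aeval_C, map_sum, MvPolynomial.aeval_X, map_pow] at h2
  rw [hu] at h2
  obtain ⟨s, _, hs⟩ := Finset.prod_eq_zero_iff.mp h2.symm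
  have h3 : t s = 0 := hv (t s) hs
  have h4 := (ht1 s).1
  rw [h3, Pi.zero_apply] at h4
  exact zero_ne_one h4

/-- all terms but that of `s` vanish -/
private theorem twoForms_single {L : Type} [Field L] (a : Fin κ → L) (x : Fin κ → L) {s : Fin κ}
    (hs : x s = 0) : ∑ s', a s' * ∏ s'' ∈ Finset.univ.erase s', x s'' =
      a s * ∏ s'' ∈ Finset.univ.erase s, x s'' := by
  refine Finset.sum_eq_single s ?_ ?_
  · intro b _ hb
    rw [Finset.prod_eq_zero (Finset.mem_erase.mpr ⟨hb.symm, Finset.mem_univ s⟩) hs, mul_zero]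
  · intro h
    exact absurd (Finset.mem_univ s) h

theorem two_forms (hκ : 1 ≤ κ) (hN : IsNormForm κ N) {L : Type} [Field L] [Algebra ℂ L]
    [IsAlgClosed L] (v : Fin (n + 2) → L)
    (hv : ∀ x : Fin (n + 2) → ℂ, dot (toL L x) v = 0 → x = 0)
    (hdel : MvPolynomial.aeval v (Del κ N) = 0) :
    ∃ (t : Fin κ → Fin (n + 2) → Omg) (s : Fin κ) (τ : Fin (n + 2) → Omg) (j : Omg →ₐ[ℂ] L),
      Factors N t ∧ dot (fun a => j (t s a)) v = 0 ∧ τ 0 = 0 ∧ τ ≠ 0 ∧
        dot (fun a => j (τ a)) v = 0 := by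
  have hpre := hN.pre
  have hc := coeff_ne hκ hpre v hv
  obtain ⟨u, hu, hg⟩ := twoForms_common hκ hpre v hc hdel
  obtain ⟨j, hj⟩ := exists_emb u (twoForms_notC hpre v hv hu)
  obtain ⟨t, ht⟩ := exists_factors hpre
  obtain ⟨d, hd⟩ := exists_der
  obtain ⟨i1, i2, i3⟩ := ht.identities d hd j v
  rw [hj] at i1 i2 i3
  rw [hu] at i1
  obtain ⟨s, _, hs⟩ := Finset.prod_eq_zero_iff.mp i1.symm
  obtain ⟨hinj, _⟩ := ht.trans hN
  -- the case of a second factor
  have key : ∏ s' ∈ Finset.univ.erase s, dot (fun a => j (t s' a)) v = 0 →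
      ∃ (t : Fin κ → Fin (n + 2) → Omg) (s : Fin κ) (τ : Fin (n + 2) → Omg) (j : Omg →ₐ[ℂ] L),
        Factors N t ∧ dot (fun a => j (t s a)) v = 0 ∧ τ 0 = 0 ∧ τ ≠ 0 ∧
          dot (fun a => j (τ a)) v = 0 := by
    intro h
    obtain ⟨s', hs', h0⟩ := Finset.prod_eq_zero_iff.mp h
    have hne : s' ≠ s := (Finset.mem_erase.mp hs').1
    refine ⟨t, s, fun a => t s' a - t s a, j, ht, hs, ?_, ?_, ?_⟩
    · show t s' 0 - t s 0 = 0
      rw [ht.zero, ht.zero, sub_self]
    · intro h1
      apply hne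
      apply hinj
      funext a
      have h2 := congrFun h1 a
      exact sub_eq_zero.mp h2
    · have h1 : dot (fun a => j (t s' a - t s a)) v =
          dot (fun a => j (t s' a)) v - dot (fun a => j (t s a)) v := by
        simp only [dot, map_sub, sub_mul, Finset.sum_sub_distrib]
      rw [h1, h0, hs, sub_self]
  rcases hg with hg | hg
  · rw [hg] at i2
    have h1 := twoForms_single (fun _ => (1 : L)) (fun s' => dot (fun a => j (t s' a)) v) hs
    simp only [one_mul] at h1
    exact key (h1.symm.trans i2.symm)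
  · rw [hg] at i3
    have h1 := twoForms_single (fun s' => dot (fun a => j (d (t s' a))) v)
      (fun s' => dot (fun a => j (t s' a)) v) hs
    rcases mul_eq_zero.mp (h1.symm.trans i3.symm) with h2 | h2
    · refine ⟨t, s, fun a => d (t s a), j, ht, hs, ?_, ?_, h2⟩
      · show d (t s 0) = 0
        rw [ht.zero]
        exact d.map_one_eq_zero
      · intro h3
        have h4 : d (t s 1) = 0 := congrFun h3 1
        rw [ht.one, hd] at h4
        exact one_ne_zero h4
    · exact key h2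

end Pool.Agent.H5.DG

end
end

section

/-!
# Project DG2, module DelV: the exceptional form does not vanish on the variety

`L` = algebraic closure of the fraction field of `R / P`, `y i` = image of `X i`, `v a = aeval y (B a)`; suppose `aeval v (Del κ N) = 0`.
`two_forms`: `t`, `s`, `τ`, `j`.  `Factors.exists_place` for `p`: `O`, `π`.  Scale `τ` by the inverse of a coordinate of maximal value
(`ValuationSubring`): `τ a ∈ O` for all `a`, some coordinate `1`; `q a = π (τ a)`, `q ≠ 0`, `q 0 = 0`.  `Gp = comb p B`, `Gq = comb q B`.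
* `Gp ∉ P` (`hind`, `p 0 = 1`).  `Gq ∉ Q` (the prime ideal `Q` of `hp'`): otherwise `const_of_sat` gives `Gq - C c * Gp ∈ P`, so `q = c p` by `hind`,
  and `q 0 = 0`, `p 0 = 1` give `c = 0`, `q = 0`.
* `exists_TD` for `P`: `TD P D`, and `D` independent elements.  `P < Q` (`Gp ∈ Q`); `Q < 𝔪 = span (range X)` (`Q` is homogeneous and contains no
  non-zero constants; some `X i ∉ Q`), so `¬ TD Q 0` (`TD.not_zero`) and `D ≥ 2` (`TD.lt`, `TD.mono`).  Write `D = s' + 2`.
* homogeneous primes `Q' ≥ P ⊔ span {Gp} ⊔ span {Gq}`: `TD Q' s'`: if all `X i ∈ Q'`: `TD_of_X_mem`; otherwise `X i ∉ Q'` for some `i`, and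
  `Q ≤ Q'` (`q' ∈ Q`: `X i ^ k * q' ∈ P ⊔ span {Gp} ≤ Q'`), `Q < Q'` because of `Gq`; `TD.lt` twice.
* `exists_linear s'` and `naka` with `θ = j ∘ O.subtype`; the subring of `naka` is contained in that of `no_independent`
  (`IsIntegral` over a larger ring: `IsIntegral.tower_top` or directly), so `no_independent` with the `D = s' + 2` independent elements
  (`aeval y g = 0 ↔ g ∈ P`, so they are independent in `L`) gives a contradiction.
-/

open MvPolynomial

noncomputable section

namespace Pool.Agent.H5.DG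

private theorem dv_homog_iff {M : ℕ} (I : Ideal (MvPolynomial (Fin (M + 1)) ℂ)) :
    letI : GradedRing (homogeneousSubmodule (Fin (M + 1)) ℂ) := MvPolynomial.gradedAlgebra
    Homog I ↔ I.IsHomogeneous (homogeneousSubmodule (Fin (M + 1)) ℂ) := by
  constructor
  · intro h i p hp
    have := h p hp i
    rwa [← decomposition.decompose'_apply] at this
  · intro h p hp k
    have := h k hp
    rwa [← decomposition.decompose'_apply]

private theorem dv_homog_span {M e : ℕ} {G : MvPolynomial (Fin (M + 1)) ℂ}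
    (hG : G.IsHomogeneous e) : Homog (Ideal.span {G}) := by
  let _ : GradedRing (homogeneousSubmodule (Fin (M + 1)) ℂ) := MvPolynomial.gradedAlgebra
  rw [dv_homog_iff]
  refine Ideal.homogeneous_span _ _ fun x hx => ?_
  rw [Set.mem_singleton_iff.1 hx]
  exact ⟨e, hG⟩

private theorem dv_homog_sup {M : ℕ} {I J : Ideal (MvPolynomial (Fin (M + 1)) ℂ)}
    (hI : Homog I) (hJ : Homog J) : Homog (I ⊔ J) := by
  let _ : GradedRing (homogeneousSubmodule (Fin (M + 1)) ℂ) := MvPolynomial.gradedAlgebra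
  rw [dv_homog_iff] at *
  exact hI.sup hJ

/-- The ideal of the polynomials without constant term. -/
private abbrev dvm (M : ℕ) : Ideal (MvPolynomial (Fin (M + 1)) ℂ) :=
  RingHom.ker (constantCoeff : MvPolynomial (Fin (M + 1)) ℂ →+* ℂ)

private theorem dv_lt {M : ℕ} {Q : Ideal (MvPolynomial (Fin (M + 1)) ℂ)} (hQ : Q.IsPrime)
    (hQh : Homog Q) (hX : ∃ i, X i ∉ Q) : Q < dvm M := by
  refine lt_of_le_of_ne ?_ ?_
  · intro q hq
    have h1 := hQh q hq 0
    rw [homogeneousComponent_zero] at h1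
    rw [RingHom.mem_ker]
    by_contra h2
    refine hQ.ne_top ?_
    refine Ideal.eq_top_of_isUnit_mem _ h1 ?_
    exact (IsUnit.mk0 _ h2).map C
  · intro h
    obtain ⟨i, hi⟩ := hX
    refine hi ?_
    rw [h, RingHom.mem_ker]
    simp

private theorem dv_integral {L : Type} [CommRing L] {A A' : Subring L} (h : A ≤ A') {x : L}
    (hx : IsIntegral A x) : IsIntegral A' x := by
  obtain ⟨p, hm, hp⟩ := hx
  refine ⟨p.map (Subring.inclusion h), hm.map _, ?_⟩
  rw [Polynomial.eval₂_map]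
  exact hp

private theorem dv_scale {n : ℕ} (O : ValuationSubring Omg) {τ : Fin (n + 2) → Omg}
    (h : τ ≠ 0) : ∃ b, τ b ≠ 0 ∧ ∀ a, τ a / τ b ∈ O := by
  obtain ⟨b, hb⟩ := Finite.exists_max fun a => O.valuation (τ a)
  have hb0 : τ b ≠ 0 := by
    intro h0
    apply h
    funext a
    have := hb a
    simp only [h0, map_zero, le_zero_iff, map_eq_zero] at this
    simpa using this
  refine ⟨b, hb0, fun a => ?_⟩
  rw [← ValuationSubring.valuation_le_one_iff, map_div₀]
  exact div_le_one_of_le₀ (hb a) zero_le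

/-- **The exceptional form does not vanish on the variety.** -/
theorem del_notMem {M n κ e : ℕ} {N : Polynomial (PV n)} (hκ : 1 ≤ κ) (hN : IsNormForm κ N)
    (P : Ideal (MvPolynomial (Fin (M + 1)) ℂ)) [P.IsPrime] (hP : Homog P) (he : 1 ≤ e)
    {B : Fin (n + 2) → MvPolynomial (Fin (M + 1)) ℂ} (hB : ∀ a, (B a).IsHomogeneous e)
    (hind : ∀ x : Fin (n + 2) → ℂ, comb x B ∈ P → x = 0) {p : Fin (n + 2) → ℂ}
    (hp : p ∈ Gam N ℂ) (hp' : IntegralSection P (comb p B)) : aeval B (Del κ N) ∉ P := by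
  intro hdel
  classical
  -- the generic point
  let L : Type := AlgebraicClosure (FractionRing (MvPolynomial (Fin (M + 1)) ℂ ⧸ P))
  let ψ : (MvPolynomial (Fin (M + 1)) ℂ ⧸ P) →ₐ[ℂ] L :=
    IsScalarTower.toAlgHom ℂ (MvPolynomial (Fin (M + 1)) ℂ ⧸ P) L
  have hψ : Function.Injective ψ := by
    have h1 : Function.Injective (algebraMap (MvPolynomial (Fin (M + 1)) ℂ ⧸ P)
        (FractionRing (MvPolynomial (Fin (M + 1)) ℂ ⧸ P))) := IsFractionRing.injective _ _
    have h2 : Function.Injective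
        (algebraMap (FractionRing (MvPolynomial (Fin (M + 1)) ℂ ⧸ P)) L) :=
      (algebraMap (FractionRing (MvPolynomial (Fin (M + 1)) ℂ ⧸ P)) L).injective
    intro a b hab
    apply h1
    apply h2
    rw [← IsScalarTower.algebraMap_apply, ← IsScalarTower.algebraMap_apply]
    exact hab
  let y : Fin (M + 1) → L := fun i => ψ (Ideal.Quotient.mkₐ ℂ P (X i))
  have hy : ∀ g, aeval y g = ψ (Ideal.Quotient.mkₐ ℂ P g) := by
    intro g
    have : aeval y = ψ.comp (Ideal.Quotient.mkₐ ℂ P) := by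
      apply MvPolynomial.algHom_ext
      intro i
      rw [aeval_X]
      rfl
    rw [this]
    rfl
  have hyP : ∀ g, aeval y g = 0 ↔ g ∈ P := by
    intro g
    rw [hy, map_eq_zero_iff ψ hψ]
    exact Ideal.Quotient.eq_zero_iff_mem
  have hcomb : ∀ x : Fin (n + 2) → ℂ,
      aeval y (comb x B) = dot (toL L x) fun a => aeval y (B a) := by
    intro x
    unfold comb dot toL
    rw [map_sum]
    refine Finset.sum_congr rfl fun a _ => ?_
    rw [map_mul, ← MvPolynomial.algebraMap_eq, AlgHom.commutes]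
  have hv : ∀ x : Fin (n + 2) → ℂ, dot (toL L x) (fun a => aeval y (B a)) = 0 → x = 0 := by
    intro x hx
    rw [← hcomb, hyP] at hx
    exact hind x hx
  have hdel' : MvPolynomial.aeval (fun a => aeval y (B a)) (Del κ N) = 0 := by
    have h1 : aeval (fun a => aeval y (B a)) (Del κ N) = aeval y (aeval B (Del κ N)) := by
      rw [← AlgHom.comp_apply]
      congr 1
      apply MvPolynomial.algHom_ext
      intro i
      rw [aeval_X, AlgHom.comp_apply, aeval_X]
    rw [h1, hyP]
    exact hdel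
  obtain ⟨t, s, τ, j, ht, h1, hτ0, hτne, h2⟩ := two_forms hκ hN _ hv hdel'
  obtain ⟨O, π, hπ, htO⟩ := Factors.exists_place ht hN s hp
  obtain ⟨b, hb0, hbO⟩ := dv_scale O hτne
  let T : Fin (n + 2) → O := fun a => ⟨t s a, (htO a).choose⟩
  have hT : ∀ a, π (T a) = p a := fun a => (htO a).choose_spec
  let T' : Fin (n + 2) → O := fun a => ⟨τ a / τ b, hbO a⟩
  set q : Fin (n + 2) → ℂ := fun a => π (T' a) with hq
  have hqb : q b = 1 := by
    have : T' b = 1 := Subtype.ext (div_self hb0)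
    rw [hq]
    simp only [this, map_one]
  have hq0 : q 0 = 0 := by
    have : T' 0 = 0 := Subtype.ext (by
      change τ 0 / τ b = 0
      rw [hτ0, zero_div])
    rw [hq]
    simp only [this, map_zero]
  have hp0 : p 0 = 1 := hp.1
  have hGp : comb p B ∉ P := by
    intro h
    have := hind p h
    rw [this] at hp0
    exact zero_ne_one hp0
  obtain ⟨Q, hQ, hQh, hPQ, hGQ, hXQ, hsat⟩ := hp'
  have hGq : comb q B ∉ Q := by
    intro h
    obtain ⟨c, hc⟩ := const_of_sat P hP he (comb_isHomogeneous p hB) (comb_isHomogeneous q hB) hGp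
      (fun i => hsat _ h i)
    have h3 : comb q B - C c * comb p B = comb (fun a => q a - c * p a) B := by
      unfold comb
      rw [Finset.mul_sum, ← Finset.sum_sub_distrib]
      refine Finset.sum_congr rfl fun a _ => ?_
      rw [C_sub, C_mul]
      ring
    rw [h3] at hc
    have h4 := hind _ hc
    have h5 : c = 0 := by
      have := congrFun h4 0
      simp only [hq0, hp0, mul_one, zero_sub, Pi.zero_apply, neg_eq_zero] at this
      exact this
    have h6 := congrFun h4 b
    simp only [hqb, h5, zero_mul, sub_zero, Pi.zero_apply] at h6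
    exact one_ne_zero h6
  obtain ⟨D, hD, f, hf⟩ := exists_TD (Q := P) inferInstance
  have hPQlt : P < Q := lt_of_le_of_ne hPQ fun h => hGp (h ▸ hGQ)
  have hQm : Q < dvm M := dv_lt hQ hQh hXQ
  have hmp : (dvm M).IsPrime := RingHom.ker_isPrime _
  have hQ0 : ¬ TD Q 0 := TD.not_zero hQ hmp hQm
  have hD2 : 2 ≤ D := by
    by_contra h
    exact hQ0 (TD.lt inferInstance hQ hPQlt (TD.mono (by omega) hD))
  obtain ⟨s', rfl⟩ : ∃ s', D = s' + 2 := ⟨D - 2, by omega⟩
  have hI : Homog (P ⊔ Ideal.span {comb p B} ⊔ Ideal.span {comb q B}) :=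
    dv_homog_sup (dv_homog_sup hP (dv_homog_span (comb_isHomogeneous p hB)))
      (dv_homog_span (comb_isHomogeneous q hB))
  obtain ⟨ℓ, hℓ, hXℓ⟩ := exists_linear s' _ hI (by
    intro Q' hQ' hQh' hle
    by_cases hX : ∀ i, X i ∈ Q'
    · exact TD_of_X_mem hX s'
    · push Not at hX
      obtain ⟨i, hi⟩ := hX
      have h7 : Q ≤ Q' := by
        intro q' hq'
        obtain ⟨k, hk⟩ := hsat q' hq' i
        have h8 : X i ^ k * q' ∈ Q' := hle (Ideal.mem_sup_left hk)
        exact (hQ'.mem_or_mem h8).resolve_left fun h9 => hi (hQ'.mem_of_pow_mem _ h9)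
      have h8 : Q < Q' := lt_of_le_of_ne h7 fun h9 => hGq (by
        rw [h9]
        exact hle (Ideal.mem_sup_right (Ideal.subset_span rfl)))
      exact TD.lt hQ hQ' h8 (TD.lt inferInstance hQ hPQlt hD))
  let θ : O →+* L := (j : Omg →+* L).comp O.subtype
  let γ : ℂ →+* O := (algebraMap ℂ Omg).codRestrict O.toSubring fun z => (hπ.const z).choose
  have hγ : ∀ z, θ (γ z) = algebraMap ℂ L z := fun z => j.commutes z
  have hπγ : ∀ z, π (γ z) = z := fun z => (hπ.const z).choose_spec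
  have hpT : p = fun a => π (T a) := funext fun a => (hT a).symm
  have hint : ∀ i, IsIntegral (Subring.closure (Set.range j ∪
      Set.range fun i => aeval y (ℓ i))) (y i) := by
    intro i
    have h3 : ∑ a, θ (T a) * aeval y (B a) = 0 := h1
    have h4 : ∑ a, θ (T' a) * aeval y (B a) = 0 := by
      have h5 : ∀ a, θ (T' a) * aeval y (B a) = j (τ b)⁻¹ * (j (τ a) * aeval y (B a)) := by
        intro a
        change j (τ a / τ b) * _ = _
        rw [div_eq_mul_inv, map_mul]
        ring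
      rw [Finset.sum_congr rfl fun a _ => h5 a, ← Finset.mul_sum]
      have h6 : ∑ a, j (τ a) * aeval y (B a) = 0 := h2
      rw [h6, mul_zero]
    have h5 := naka θ π γ hγ hπγ hP hB (fun g hg => (hyP g).2 hg) h3 h4 hℓ (by
      intro i
      obtain ⟨k, hk⟩ := hXℓ i
      refine ⟨k, ?_⟩
      rw [hpT] at hk
      exact hk) i
    refine dv_integral (Subring.closure_mono ?_) h5
    refine Set.union_subset_union_left _ ?_
    rintro _ ⟨x, rfl⟩
    exact ⟨(x : Omg), rfl⟩
  refine no_independent j (fun i => aeval y (ℓ i)) y hint f ?_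
  have h3 : (fun i => aeval y (f i)) = ψ ∘ fun i => Ideal.Quotient.mkₐ ℂ P (f i) :=
    funext fun i => hy (f i)
  rw [h3]
  exact hf.map' hψ

end Pool.Agent.H5.DG

end
end

section

/-!
# Project DG4, module Pack4: the package with many points

`pack4` is `Pool.Agent.H5.DG.pack2` (module `Pool.Agent.H5.DG2.Pack`), `vpack4` is
`Pool.Agent.H5.DG.vpack` (module `Pool.Agent.H5.DG2.VPack`), with the additional conclusions
`K n * κ < m'` for a given function `K` (take `max ρ (max N' (max (2 * n + 8) (K n)))` in `partA`; in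
the case of the subspace `W` it comes from the induction hypothesis) and that the `G (ι j)` have
degree `e`. Copy the proofs.
-/

open MvPolynomial

noncomputable section

namespace Pool.Agent.H5.DG4

open Pool.Agent.H5.DG

theorem pack4 (K : ℕ → ℕ) (D ρ : ℕ) : ∃ N₀ : ℕ, ∀ (V : Type) [AddCommGroup V] [Module ℂ V]
    [FiniteDimensional ℂ V], Module.finrank ℂ V ≤ D → ∀ (m : ℕ) (l : Fin m → V), N₀ ≤ m →
    (∀ i j, i ≠ j → ∀ c : ℂ, l i ≠ c • l j) →
    ∃ (n m' κ : ℕ) (ι : Fin m' → Fin m) (N : Polynomial (PV n)) (φ : PVW n)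
      (p : Fin m' → Fin (n + 2) → ℂ) (c : Fin m' → ℂ) (B : Fin (n + 2) → V),
      Function.Injective ι ∧ Pkg2 p κ N φ ∧ K n * κ < m' ∧ ρ < m' ∧ LinearIndependent ℂ B ∧
      ∀ j, c j ≠ 0 ∧ c j • l (ι j) = ∑ a, p j a • B a := by
  classical
  induction D with
  | zero =>
    refine ⟨2, ?_⟩
    intro V _ _ _ hV m l hm hl
    exfalso
    have h0 : Module.finrank ℂ V = 0 := Nat.le_zero.1 hV
    have h1 : Subsingleton V := Module.finrank_zero_iff.1 h0
    exact hl ⟨0, by omega⟩ ⟨1, by omega⟩ (by simp) 0 (Subsingleton.elim _ _)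
  | succ D ih =>
    obtain ⟨N', hN'⟩ := ih
    rcases D with - | n
    · refine ⟨2, ?_⟩
      intro V _ _ _ hV m l hm hl
      exfalso
      have hne : l ⟨1, by omega⟩ ≠ 0 := by
        intro h
        refine hl ⟨1, by omega⟩ ⟨0, by omega⟩ (by simp) 0 ?_
        rw [h, zero_smul]
      have h1 : Module.finrank ℂ V = 1 := by
        have h2 : Module.finrank ℂ V ≠ 0 := by
          intro h3
          have h4 : Subsingleton V := Module.finrank_zero_iff.1 h3
          exact hne (Subsingleton.elim _ _)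
        omega
      obtain ⟨c, hc⟩ := exists_smul_eq_of_finrank_eq_one h1 hne (l ⟨0, by omega⟩)
      exact hl ⟨0, by omega⟩ ⟨1, by omega⟩ (by simp) c hc.symm
    · obtain ⟨N₁, hN₁⟩ := partA n (max (2 * n + 8) (max (K n) (max ρ N')))
      refine ⟨max 2 (max N' N₁), ?_⟩
      intro V _ _ _ hV m l hm hl
      have hm2 : 2 ≤ m := (le_max_left _ _).trans hm
      have hmN' : N' ≤ m := ((le_max_left _ _).trans (le_max_right _ _)).trans hm
      have hmN₁ : N₁ ≤ m := ((le_max_right _ _).trans (le_max_right _ _)).trans hm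
      by_cases hfr : Module.finrank ℂ V ≤ n + 1
      · exact hN' V hfr m l hmN' hl
      have hfr2 : Module.finrank ℂ V = n + 2 := by omega
      have hl0 : ∀ j, l j ≠ 0 := by
        intro j h
        obtain ⟨i, hi⟩ : ∃ i : Fin m, i ≠ j := by
          by_cases hj : j.1 = 0
          · exact ⟨⟨1, by omega⟩, fun h1 => by
              have h2 := congrArg Fin.val h1
              simp only at h2
              omega⟩
          · exact ⟨⟨0, by omega⟩, fun h1 => hj (by rw [← h1])⟩
        refine hl j i hi.symm 0 ?_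
        rw [h, zero_smul]
      let b : Module.Basis (Fin (n + 2)) ℂ V := Module.finBasisOfFinrankEq ℂ V hfr2
      obtain ⟨M, κ, N, J, c, hM, hκ, hN, hJ, hc⟩ := hN₁ m (fun j a => b.repr (l j) a) hmN₁
        (by
          intro j h
          apply hl0 j
          have h1 : b.repr (l j) = 0 := by
            ext a
            exact congrFun h a
          exact (map_eq_zero_iff _ b.repr.injective).1 h1)
      have hJ1 : max (2 * n + 8) (max (K n) (max ρ N')) < J.card :=
        lt_of_le_of_lt (Nat.le_mul_of_pos_right _ hκ) hJ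
      have hJρ : ρ < J.card :=
        lt_of_le_of_lt (((le_max_left _ _).trans (le_max_right _ _)).trans
          (le_max_right _ _)) hJ1
      have hJN' : N' ≤ J.card :=
        (lt_of_le_of_lt (((le_max_right _ _).trans (le_max_right _ _)).trans
          (le_max_right _ _)) hJ1).le
      have hJK : K n * κ < J.card :=
        lt_of_le_of_lt (Nat.mul_le_mul_right κ ((le_max_left _ _).trans (le_max_right _ _))) hJ
      have hJn : (2 * n + 8) * κ < J.card :=
        lt_of_le_of_lt (Nat.mul_le_mul_right κ (le_max_left _ _)) hJ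
      by_cases hspan : Submodule.span ℂ (l '' J) = ⊤
      · obtain ⟨ι, φ, p, c', B, hι, hpkg, hB, hcp⟩ :=
          pack_span b l hl hM hκ hN hc hJn hspan
        exact ⟨n, J.card, κ, ι, N, φ, p, c', B, hι, hpkg, hJK, hJρ, hB, hcp⟩
      · let W : Submodule ℂ V := Submodule.span ℂ (l '' J)
        have hW : Module.finrank ℂ W ≤ n + 1 := by
          have h1 : Module.finrank ℂ W < Module.finrank ℂ V := Submodule.finrank_lt hspan
          omega
        have hmem : ∀ i : Fin J.card, l (J.orderEmbOfFin rfl i) ∈ W := fun i =>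
          Submodule.subset_span ⟨_, Finset.mem_coe.2 (J.orderEmbOfFin_mem rfl i), rfl⟩
        obtain ⟨n', m', κ', ι, N₂, φ, p, c', B, hι, hpkg, hK', hρ, hB, hcp⟩ :=
          hN' W hW J.card (fun i => ⟨l (J.orderEmbOfFin rfl i), hmem i⟩) hJN' (by
            intro i j hij a h
            refine hl (J.orderEmbOfFin rfl i) (J.orderEmbOfFin rfl j)
              (fun h1 => hij ((J.orderEmbOfFin rfl).injective h1)) a ?_
            exact congrArg Subtype.val h)
        refine ⟨n', m', κ', fun i => J.orderEmbOfFin rfl (ι i), N₂, φ, p, c',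
          fun a => (B a : V), ?_, hpkg, hK', hρ, ?_, ?_⟩
        · exact (J.orderEmbOfFin rfl).injective.comp hι
        · exact hB.map' W.subtype W.ker_subtype
        · intro j
          refine ⟨(hcp j).1, ?_⟩
          have h1 := congrArg W.subtype (hcp j).2
          rw [map_smul, map_sum] at h1
          simp only [map_smul] at h1
          exact h1

private theorem pk4_pigeon {m δ K : ℕ} (hm : δ * K < m) (e : Fin m → ℕ)
    (he : ∀ j, 1 ≤ e j ∧ e j ≤ δ) : ∃ (e₀ m₁ : ℕ) (ι : Fin m₁ → Fin m), 1 ≤ e₀ ∧ e₀ ≤ δ ∧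
      K < m₁ ∧ Function.Injective ι ∧ ∀ i, e (ι i) = e₀ := by
  classical
  have h1 : (Finset.Icc 1 δ).card * K < (Finset.univ : Finset (Fin m)).card := by
    rw [Nat.card_Icc, Nat.add_sub_cancel, Finset.card_univ, Fintype.card_fin]
    exact hm
  obtain ⟨e₀, he₀, h2⟩ := Finset.exists_lt_card_fiber_of_mul_lt_card_of_maps_to
    (f := e) (fun j _ => Finset.mem_Icc.2 (he j)) h1
  rw [Finset.mem_Icc] at he₀
  refine ⟨e₀, _, (Finset.univ.filter fun j => e j = e₀).orderEmbOfFin rfl, he₀.1, he₀.2, h2,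
    ((Finset.univ.filter fun j => e j = e₀).orderEmbOfFin rfl).injective, fun i => ?_⟩
  have h3 := Finset.orderEmbOfFin_mem (Finset.univ.filter fun j => e j = e₀) rfl i
  exact (Finset.mem_filter.1 h3).2

private instance pk4_fin (M e : ℕ) :
    FiniteDimensional ℂ (homogeneousSubmodule (Fin (M + 1)) ℂ e) :=
  Module.Finite.iff_fg.2 (homogeneousSubmodule_fg (Fin (M + 1)) ℂ e)

private abbrev pk4_sub {M : ℕ} (P : Ideal (MvPolynomial (Fin (M + 1)) ℂ)) (e : ℕ) :
    Submodule ℂ (homogeneousSubmodule (Fin (M + 1)) ℂ e) :=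
  (P.restrictScalars ℂ).comap (homogeneousSubmodule (Fin (M + 1)) ℂ e).subtype

private theorem pk4_mk_zero {M : ℕ} (P : Ideal (MvPolynomial (Fin (M + 1)) ℂ)) {e : ℕ}
    (h : homogeneousSubmodule (Fin (M + 1)) ℂ e) :
    (pk4_sub P e).mkQ h = 0 ↔ (h : MvPolynomial (Fin (M + 1)) ℂ) ∈ P := by
  rw [Submodule.mkQ_apply, Submodule.Quotient.mk_eq_zero]
  rfl

private theorem pk4_comb {M n : ℕ} (P : Ideal (MvPolynomial (Fin (M + 1)) ℂ)) {e : ℕ}
    (B : Fin n → homogeneousSubmodule (Fin (M + 1)) ℂ e) (x : Fin n → ℂ) :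
    comb x (fun a => (B a : MvPolynomial (Fin (M + 1)) ℂ)) ∈ P ↔
      ∑ a, x a • (pk4_sub P e).mkQ (B a) = 0 := by
  have h1 : ∑ a, x a • (pk4_sub P e).mkQ (B a) = (pk4_sub P e).mkQ (∑ a, x a • B a) := by
    rw [map_sum]
    simp only [map_smul]
  rw [h1, pk4_mk_zero]
  have h2 : ((∑ a, x a • B a : homogeneousSubmodule (Fin (M + 1)) ℂ e) :
      MvPolynomial (Fin (M + 1)) ℂ) =
      comb x (fun a => (B a : MvPolynomial (Fin (M + 1)) ℂ)) := by
    unfold comb
    rw [AddSubmonoidClass.coe_finsetSum]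
    refine Finset.sum_congr rfl fun a _ => ?_
    rw [Submodule.coe_smul, MvPolynomial.smul_eq_C_mul]
  rw [h2]

theorem vpack4 (K : ℕ → ℕ) (M δ ρ : ℕ) : ∃ N₀ : ℕ, ∀ (P : Ideal (MvPolynomial (Fin (M + 1)) ℂ))
    (m : ℕ) (G : Fin m → MvPolynomial (Fin (M + 1)) ℂ), N₀ ≤ m →
    (∀ j, ∃ e, 1 ≤ e ∧ e ≤ δ ∧ (G j).IsHomogeneous e) →
    (∀ i j, i ≠ j → ∀ c : ℂ, G i - C c * G j ∉ P) →
    ∃ (e n m' κ : ℕ) (ι : Fin m' → Fin m) (N : Polynomial (PV n)) (φ : PVW n)
      (p : Fin m' → Fin (n + 2) → ℂ) (c : Fin m' → ℂ)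
      (B : Fin (n + 2) → MvPolynomial (Fin (M + 1)) ℂ),
      1 ≤ e ∧ Function.Injective ι ∧ Pkg2 p κ N φ ∧ K n * κ < m' ∧ ρ < m' ∧
      (∀ a, (B a).IsHomogeneous e) ∧ (∀ j, (G (ι j)).IsHomogeneous e) ∧
      (∀ x : Fin (n + 2) → ℂ, comb x B ∈ P → x = 0) ∧
      ∀ j, c j ≠ 0 ∧ C (c j) * G (ι j) - comb (p j) B ∈ P := by
  classical
  choose L hL using fun e : ℕ =>
    pack4 K (Module.finrank ℂ (homogeneousSubmodule (Fin (M + 1)) ℂ e)) ρ
  refine ⟨δ * (∑ e ∈ Finset.range (δ + 1), L e) + 1, fun P m G hm hdeg hmul => ?_⟩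
  choose ee h1 h2 h3 using hdeg
  obtain ⟨e, m₁, ι₁, he1, heδ, hKm, hι₁, hee⟩ :=
    pk4_pigeon (Nat.lt_of_succ_le hm) ee fun j => ⟨h1 j, h2 j⟩
  have hKe : L e ≤ m₁ := by
    refine le_trans ?_ hKm.le
    exact Finset.single_le_sum (f := L) (fun _ _ => Nat.zero_le _)
      (Finset.mem_range.2 (Nat.lt_succ_of_le heδ))
  have hG : ∀ i, G (ι₁ i) ∈ homogeneousSubmodule (Fin (M + 1)) ℂ e := by
    intro i
    rw [mem_homogeneousSubmodule, ← hee i]
    exact h3 _
  set H := homogeneousSubmodule (Fin (M + 1)) ℂ e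
  set l : Fin m₁ → H ⧸ pk4_sub P e := fun i => (pk4_sub P e).mkQ ⟨G (ι₁ i), hG i⟩ with hl
  have hlm : ∀ i j, i ≠ j → ∀ c : ℂ, l i ≠ c • l j := by
    intro i j hij c hc
    refine hmul (ι₁ i) (ι₁ j) (fun h => hij (hι₁ h)) c ?_
    rw [← sub_eq_zero, hl] at hc
    simp only at hc
    rw [← map_smul, ← map_sub, pk4_mk_zero] at hc
    rw [Submodule.coe_sub, Submodule.coe_smul, MvPolynomial.smul_eq_C_mul] at hc
    exact hc
  obtain ⟨n, m', κ, ι₂, N, φ, p, c, B, hι₂, hpkg, hK', hρ, hB, hc⟩ :=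
    hL e (H ⧸ pk4_sub P e) (Submodule.finrank_quotient_le _) m₁ l hKe hlm
  choose B' hB' using fun a => (pk4_sub P e).mkQ_surjective (B a)
  refine ⟨e, n, m', κ, ι₁ ∘ ι₂, N, φ, p, c, fun a => (B' a : MvPolynomial (Fin (M + 1)) ℂ), he1,
    hι₁.comp hι₂, hpkg, hK', hρ, fun a => ?_, fun j => ?_, fun x hx => ?_,
    fun j => ⟨(hc j).1, ?_⟩⟩
  · exact (mem_homogeneousSubmodule e _).1 (B' a).2
  · exact (mem_homogeneousSubmodule e _).1 (hG (ι₂ j))
  · rw [pk4_comb] at hx
    simp only [hB'] at hx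
    exact funext fun a => Fintype.linearIndependent_iff.1 hB x hx a
  · have h4 := (hc j).2
    have h5 : ∑ a, p j a • B a = (pk4_sub P e).mkQ (∑ a, p j a • B' a) := by
      rw [map_sum]
      simp only [map_smul, hB']
    rw [h5, hl, ← sub_eq_zero, ← map_smul, ← map_sub, pk4_mk_zero] at h4
    have h6 : ((∑ a, p j a • B' a : H) : MvPolynomial (Fin (M + 1)) ℂ) =
        comb (p j) (fun a => (B' a : MvPolynomial (Fin (M + 1)) ℂ)) := by
      unfold comb
      rw [AddSubmonoidClass.coe_finsetSum]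
      refine Finset.sum_congr rfl fun a _ => ?_
      rw [Submodule.coe_smul, MvPolynomial.smul_eq_C_mul]
    rw [Submodule.coe_sub, Submodule.coe_smul, MvPolynomial.smul_eq_C_mul, h6] at h4
    exact h4

end Pool.Agent.H5.DG4

end
end

section

/-!
# Project DG4, module Part4: partitions into clusters

`exists_cluster` (helper98): the package `vpack4`.  `exists_cluster_lin`: a cluster in a set `S` such
that only a small part of the forms `G j`, `j ∈ S`, vanishes at any point.  `exists_partition`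
(helper98): a partition of a good set `S`.
-/

open MvPolynomial
open Pool.Agent.H17 (PN VanishesAt)
open Pool.Agent.H5.DG

noncomputable section

namespace Pool.Agent.H5.DG4

theorem exists_cluster (A M δ k : ℕ) : ∃ N₀ : ℕ, ∀ (m : ℕ)
    (P : Ideal (MvPolynomial (Fin (M + 1)) ℂ)) [P.IsPrime]
    (G : Fin m → MvPolynomial (Fin (M + 1)) ℂ), Homog P →
    (∀ j, ∃ e, 1 ≤ e ∧ e ≤ δ ∧ (G j).IsHomogeneous e) →
    (∀ i j, i ≠ j → ∀ c : ℂ, G i - C c * G j ∉ P) → (∀ j, IntegralSection P (G j)) →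
    AtMostThrough k P G → ∀ S : Finset (Fin m), N₀ ≤ S.card →
    ∃ γ : Cluster A P G, ∀ j, γ.ι j ∈ S := by
  obtain ⟨N₀, hN₀⟩ := vpack4 (fun n => 2 * A * (n + 6)) M δ k
  refine ⟨N₀, fun m P _ G hP hdeg hne hint hthr S hS => ?_⟩
  have hf : Function.Injective (S.orderEmbOfFin rfl) := (S.orderEmbOfFin rfl).injective
  obtain ⟨e, n, m', κ, ι, N, φ, p, c, B, he, hι, hpkg, hK, hm', hB, hhom, hind, hc⟩ :=
    hN₀ P S.card (fun j => G (S.orderEmbOfFin rfl j)) hS (fun j => hdeg _)
      (fun i j hij c => hne _ _ (fun h => hij (hf h)) c)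
  have hGh : ∀ j, ∃ d, (G j).IsHomogeneous d := fun j => by
    obtain ⟨d, -, -, hd⟩ := hdeg j
    exact ⟨d, hd⟩
  have hι' : Function.Injective (fun j => S.orderEmbOfFin rfl (ι j)) := fun i j hij => hι (hf hij)
  have hbase : BaseFree P e B := by
    refine baseFree_of_few (k := k) he hB (fun y hy hyP => ?_) hι' hm' hc
    have h1 := hthr (Projectivization.mk ℂ y hy) (fun Q hQ d hd => by
      rw [Pool.Agent.H17.vanishesAt_mk_iff hd]
      exact hyP Q hQ)
    refine le_trans (le_of_eq ?_) h1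
    congr 1
    ext j
    obtain ⟨d, hd⟩ := hGh j
    simp only [Set.mem_ofPred_eq]
    rw [Pool.Agent.H17.vanishesAt_mk_iff hd]
  have hj : 0 < m' := by omega
  have hdel : aeval B (Del κ N) ∉ P :=
    del_notMem hpkg.data.pos hpkg.data.norm P hP he hB hind (hpkg.mem ⟨0, hj⟩)
      ((hint _).congr (hc ⟨0, hj⟩).1 (hc ⟨0, hj⟩).2)
  exact ⟨{ n := n, κ := κ, len := m', e := e, N := N, φ := φ, p := p,
           ι := fun j => S.orderEmbOfFin rfl (ι j), c := c, B := B, inj := hι',
           data := hpkg.data, hom := hpkg.hom, mem := hpkg.mem, pinj := hpkg.inj, card := hK,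
           base := hbase, cne := fun j => (hc j).1, eq := fun j => (hc j).2, homG := hhom,
           del := hdel }, fun j => S.orderEmbOfFin_mem rfl _⟩

/-- A cluster of a subfamily. -/
private def part4_map {A M m n : ℕ} {P : Ideal (MvPolynomial (Fin (M + 1)) ℂ)}
    {G : Fin m → MvPolynomial (Fin (M + 1)) ℂ} {f : Fin n → Fin m} (hf : Function.Injective f)
    (γ : Cluster A P fun i => G (f i)) : Cluster A P G :=
  { n := γ.n, κ := γ.κ, len := γ.len, e := γ.e, N := γ.N, φ := γ.φ, p := γ.p,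
    ι := fun j => f (γ.ι j), c := γ.c, B := γ.B, inj := hf.comp γ.inj, data := γ.data,
    hom := γ.hom, mem := γ.mem, pinj := γ.pinj, card := γ.card, base := γ.base, cne := γ.cne,
    eq := γ.eq, homG := γ.homG, del := γ.del }

/-- A cluster in a large set `S` such that only a small part of the forms vanishes at any point. -/
theorem exists_cluster_lin (A M δ : ℕ) : ∃ N₂ : ℕ, ∀ (m : ℕ)
    (P : Ideal (MvPolynomial (Fin (M + 1)) ℂ)) [P.IsPrime]
    (G : Fin m → MvPolynomial (Fin (M + 1)) ℂ), Homog P →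
    (∀ j, ∃ e, 1 ≤ e ∧ e ≤ δ ∧ (G j).IsHomogeneous e) →
    (∀ i j, i ≠ j → ∀ c : ℂ, G i - C c * G j ∉ P) → (∀ j, IntegralSection P (G j)) →
    ∀ S : Finset (Fin m), N₂ ≤ S.card →
    (∀ y ∈ variety P, N₂ * {j | j ∈ S ∧ VanishesAt (G j) y}.ncard ≤ S.card) →
    ∃ γ : Cluster A P G, ∀ j, γ.ι j ∈ S := by
  obtain ⟨k₀, hk₀⟩ := exists_subfamily M δ
  obtain ⟨N₀, hN₀⟩ := exists_cluster A M δ k₀
  refine ⟨2 ^ (N₀ + 2), fun m P _ G hP hdeg hne hint S hS hpos => ?_⟩
  obtain ⟨f, hf, hfS, hthr⟩ := hk₀ N₀ m P G (fun j => by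
    obtain ⟨e, -, he, hG⟩ := hdeg j
    exact ⟨e, he, hG⟩) S hS hpos
  obtain ⟨γ, -⟩ := hN₀ N₀ P (fun i => G (f i)) hP (fun i => hdeg _)
    (fun i j hij c => hne _ _ (fun h => hij (hf h)) c) (fun i => hint _) hthr Finset.univ
    (by rw [Finset.card_univ, Fintype.card_fin])
  exact ⟨part4_map hf γ, fun j => hfS _⟩

/-- Disjoint clusters which contain all but fewer than `N₀` elements of `S`. -/
private theorem part4_clusters {A M N₀ m : ℕ} {P : Ideal (MvPolynomial (Fin (M + 1)) ℂ)}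
    {G : Fin m → MvPolynomial (Fin (M + 1)) ℂ}
    {S₀ : Finset (Fin m)}
    (h : ∀ S ⊆ S₀, N₀ ≤ S.card → ∃ γ : Cluster A P G, ∀ j, γ.ι j ∈ S) :
    ∀ (s : ℕ) (S : Finset (Fin m)), S ⊆ S₀ → S.card = s → ∃ (ν : ℕ) (γ : Fin ν → Cluster A P G),
      (∀ a j, (γ a).ι j ∈ S) ∧ (∀ a b i j, (γ a).ι i = (γ b).ι j → a = b) ∧
      S.card ≤ N₀ + ∑ a, (γ a).len ∧
      ∀ w : Fin m → ℕ, ∀ D, (∀ j, w j ≤ D) →
        ∑ j ∈ S, w j ≤ D * N₀ + ∑ a, ∑ j, w ((γ a).ι j) := by
  classical
  intro s
  induction s using Nat.strong_induction_on with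
  | _ s ih =>
    intro S hSS hs
    by_cases hS : N₀ ≤ S.card
    · obtain ⟨γ₀, hγ₀⟩ := h S hSS hS
      have hlen : 0 < γ₀.len := by
        have := γ₀.card
        omega
      set T : Finset (Fin m) := Finset.univ.image γ₀.ι with hT
      have hTS : T ⊆ S := by
        intro x hx
        obtain ⟨j, -, rfl⟩ := Finset.mem_image.1 hx
        exact hγ₀ j
      have hTc : T.card = γ₀.len := by
        rw [hT, Finset.card_image_of_injective _ γ₀.inj, Finset.card_univ, Fintype.card_fin]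
      have hcard : (S \ T).card = S.card - γ₀.len := by
        rw [Finset.card_sdiff_of_subset hTS, hTc]
      have hTle : T.card ≤ S.card := Finset.card_le_card hTS
      obtain ⟨ν, γ, h1, h2, h3, h4⟩ := ih (S \ T).card (by omega) (S \ T)
        (Finset.sdiff_subset.trans hSS) rfl
      refine ⟨ν + 1, Fin.cons γ₀ γ, ?_, ?_, ?_, ?_⟩
      · intro a
        refine Fin.cases ?_ (fun a => ?_) a
        · exact hγ₀
        · exact fun j => (Finset.mem_sdiff.1 (h1 a j)).1
      · intro a b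
        refine Fin.cases ?_ (fun a => ?_) a <;> refine Fin.cases ?_ (fun b => ?_) b
        · intro _ _ _
          rfl
        · rw [Fin.cons_zero, Fin.cons_succ]
          intro i j hij
          exfalso
          refine (Finset.mem_sdiff.1 (h1 b j)).2 ?_
          rw [← hij]
          exact Finset.mem_image_of_mem _ (Finset.mem_univ _)
        · rw [Fin.cons_zero, Fin.cons_succ]
          intro i j hij
          exfalso
          refine (Finset.mem_sdiff.1 (h1 a i)).2 ?_
          rw [hij]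
          exact Finset.mem_image_of_mem _ (Finset.mem_univ _)
        · rw [Fin.cons_succ, Fin.cons_succ]
          intro i j hij
          rw [h2 a b i j hij]
      · rw [Fin.sum_univ_succ]
        simp only [Fin.cons_zero, Fin.cons_succ]
        omega
      · intro w D hw
        rw [Fin.sum_univ_succ]
        change _ ≤ D * N₀ + (∑ j, w (γ₀.ι j) + ∑ a, ∑ j, w ((γ a).ι j))
        have h5 := h4 w D hw
        have h6 : ∑ j ∈ S, w j = ∑ j ∈ S \ T, w j + ∑ j ∈ T, w j :=
          (Finset.sum_sdiff hTS).symm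
        have h7 : ∑ j ∈ T, w j = ∑ j, w (γ₀.ι j) := by
          rw [hT, Finset.sum_image fun a _ b _ hab => γ₀.inj hab]
        omega
    · refine ⟨0, fun a => a.elim0, fun a => a.elim0, fun a => a.elim0, ?_, ?_⟩
      · rw [Fin.sum_univ_zero]
        omega
      · intro w D hw
        rw [Fin.sum_univ_zero, add_zero]
        calc ∑ j ∈ S, w j ≤ ∑ _j ∈ S, D := Finset.sum_le_sum fun j _ => hw j
          _ = S.card * D := by rw [Finset.sum_const, smul_eq_mul]
          _ ≤ D * N₀ := by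
            rw [mul_comm]
            exact Nat.mul_le_mul_left _ (by omega)

/-- The weights of one cluster. -/
private theorem part4_len {A K len : ℕ} (hA : 1 ≤ A) (h : 2 * A * K < len) :
    (2 * A - 1) * len ≤ 2 * A * (len - K) := by
  obtain ⟨A, rfl⟩ : ∃ a, A = a + 1 := ⟨A - 1, by omega⟩
  have h1 : K ≤ len := by nlinarith only [h]
  obtain ⟨d, rfl⟩ : ∃ d, len = K + d := ⟨len - K, by omega⟩
  have h2 : K + d - K = d := by omega
  have h3 : 2 * (A + 1) - 1 = 2 * A + 1 := by omega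
  rw [h2, h3]
  nlinarith only [h]

/-- **A partition of a good set.** -/
theorem exists_partition (A M δ : ℕ) (hA : 1 ≤ A) : ∃ N₁ : ℕ, ∀ (m : ℕ)
    (P : Ideal (MvPolynomial (Fin (M + 1)) ℂ)) [P.IsPrime]
    (G : Fin m → MvPolynomial (Fin (M + 1)) ℂ), Homog P →
    (∀ j, ∃ e, 1 ≤ e ∧ e ≤ δ ∧ (G j).IsHomogeneous e) →
    (∀ i j, i ≠ j → ∀ c : ℂ, G i - C c * G j ∉ P) → (∀ j, IntegralSection P (G j)) →
    ∀ S : Finset (Fin m), GoodSet N₁ P G S → Nonempty (Partition A P G S) := by
  obtain ⟨N₂, hN₂⟩ := exists_cluster_lin A M δ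
  obtain ⟨L, hL⟩ : ∃ L, L = 4 * A * (δ + 1) := ⟨_, rfl⟩
  have hL0 : 0 < L := by
    rw [hL]
    positivity
  refine ⟨L * (N₂ + 2), fun m P _ G hP hdeg hne hint S hgood => ?_⟩
  have hS : L * (N₂ + 2) ≤ S.card := hgood.1
  obtain ⟨t, ht⟩ : ∃ t, t = S.card / L := ⟨_, rfl⟩
  have ht1 : N₂ + 2 ≤ t := by
    rw [ht, Nat.le_div_iff_mul_le hL0, mul_comm]
    exact hS
  have ht2 : t * L ≤ S.card := by
    rw [ht]
    exact Nat.div_mul_le_self _ _
  have ht3 : S.card < (t + 1) * L := by
    rw [← Nat.div_lt_iff_lt_mul hL0, ← ht]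
    exact Nat.lt_succ_self _
  have hcl : ∀ R ⊆ S, t + 1 ≤ R.card → ∃ γ : Cluster A P G, ∀ j, γ.ι j ∈ R := by
    intro R hRS hR
    refine hN₂ m P G hP hdeg hne hint R (by omega) fun y hy => ?_
    have h1 := hgood.2 y hy
    have h2 : {j | j ∈ R ∧ VanishesAt (G j) y}.ncard ≤ {j | j ∈ S ∧ VanishesAt (G j) y}.ncard :=
      Set.ncard_le_ncard (fun j hj => ⟨hRS hj.1, hj.2⟩) (Set.toFinite _)
    have h3 : L * (N₂ * {j | j ∈ R ∧ VanishesAt (G j) y}.ncard) < L * (t + 1) := by
      calc L * (N₂ * {j | j ∈ R ∧ VanishesAt (G j) y}.ncard) ≤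
            L * ((N₂ + 2) * {j | j ∈ S ∧ VanishesAt (G j) y}.ncard) :=
          Nat.mul_le_mul_left _ (Nat.mul_le_mul (by omega) h2)
        _ = L * (N₂ + 2) * {j | j ∈ S ∧ VanishesAt (G j) y}.ncard := by ring
        _ ≤ S.card := h1
        _ < (t + 1) * L := ht3
        _ = L * (t + 1) := mul_comm _ _
    have h4 := Nat.lt_of_mul_lt_mul_left h3
    omega
  obtain ⟨ν, γ, h1, h2, -, h4⟩ := part4_clusters hcl S.card S (Finset.Subset.refl S) rfl
  have hw : ∀ j, (G j).totalDegree ≤ δ := fun j => by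
    obtain ⟨e, -, he, hG⟩ := hdeg j
    exact hG.totalDegree_le.trans he
  have h5 := h4 (fun j => (G j).totalDegree) δ hw
  have h6 : ∑ a, ∑ j, (G ((γ a).ι j)).totalDegree ≤ ∑ a, (γ a).e * (γ a).len := by
    refine Finset.sum_le_sum fun a _ => ?_
    calc ∑ j, (G ((γ a).ι j)).totalDegree ≤ ∑ _j : Fin (γ a).len, (γ a).e :=
          Finset.sum_le_sum fun j _ => ((γ a).homG j).totalDegree_le
      _ = (γ a).e * (γ a).len := by
        rw [Finset.sum_const, Finset.card_univ, Fintype.card_fin, smul_eq_mul, mul_comm]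
  have hS2 : 1 < S.card := by
    have : 1 * (N₂ + 2) ≤ L * (N₂ + 2) := Nat.mul_le_mul_right _ hL0
    omega
  have h7 : S.card ≤ ∑ j ∈ S, (G j).totalDegree := by
    rw [Finset.card_eq_sum_ones]
    refine Finset.sum_le_sum fun j hj => ?_
    obtain ⟨i, -, hij⟩ := Finset.exists_mem_ne hS2 j
    have h0 : G j ≠ 0 := by
      intro h0
      refine hne j i hij.symm 0 ?_
      rw [h0, C_0, zero_mul, sub_zero]
      exact P.zero_mem
    obtain ⟨e, he, -, hG⟩ := hdeg j
    rw [hG.totalDegree h0]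
    exact he
  have h8 : (2 * A - 1) * ∑ a, (γ a).e * (γ a).len ≤
      2 * A * ∑ a, (γ a).e * ((γ a).len - ((γ a).n + 6) * (γ a).κ) := by
    rw [Finset.mul_sum, Finset.mul_sum]
    refine Finset.sum_le_sum fun a _ => ?_
    have h9 := part4_len (K := ((γ a).n + 6) * (γ a).κ) hA (by
      have := (γ a).card
      rwa [← mul_assoc])
    calc (2 * A - 1) * ((γ a).e * (γ a).len) = (γ a).e * ((2 * A - 1) * (γ a).len) := by ring
      _ ≤ (γ a).e * (2 * A * ((γ a).len - ((γ a).n + 6) * (γ a).κ)) := Nat.mul_le_mul_left _ h9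
      _ = _ := by ring
  refine ⟨⟨ν, γ, h1, h2, ?_⟩⟩
  -- numbers
  have h10 : 2 * A * (δ * (t + 1)) ≤ S.card := by
    have h11 : 2 * A * (δ * (t + 1)) ≤ t * L := by
      rw [hL]
      have h12 : t + 1 ≤ 2 * t := by omega
      calc 2 * A * (δ * (t + 1)) ≤ 2 * A * (δ * (2 * t)) :=
            Nat.mul_le_mul_left _ (Nat.mul_le_mul_left _ h12)
        _ = t * (4 * A * δ) := by ring
        _ ≤ t * (4 * A * (δ + 1)) := Nat.mul_le_mul_left _ (Nat.mul_le_mul_left _ (by omega))
    omega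
  generalize ∑ a, (γ a).e * ((γ a).len - ((γ a).n + 6) * (γ a).κ) = X at h8 ⊢
  generalize ∑ a, (γ a).e * (γ a).len = Y at h6 h8
  generalize ∑ j ∈ S, (G j).totalDegree = W at h5 h7 ⊢
  generalize ∑ a, ∑ j, (G ((γ a).ι j)).totalDegree = Z at h5 h6
  generalize δ * (t + 1) = R at *
  obtain ⟨A, rfl⟩ : ∃ a, A = a + 1 := ⟨A - 1, by omega⟩
  have h9 : 2 * (A + 1) - 1 = 2 * A + 1 := by omega
  have h11 : A + 1 - 1 = A := by omega
  rw [h9] at h8
  rw [h11]
  have h12 : W ≤ R + Y := by omega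
  have h13 : (2 * A + 1) * W ≤ (2 * A + 1) * R + 2 * (A + 1) * X :=
    calc (2 * A + 1) * W ≤ (2 * A + 1) * (R + Y) := Nat.mul_le_mul_left _ h12
      _ ≤ _ := by
        rw [mul_add]
        omega
  have h14 : (2 * A + 1) * R < W ∨ R = 0 := by
    rcases Nat.eq_zero_or_pos R with h | h
    · exact Or.inr h
    · left
      have : (2 * A + 1) * R < 2 * (A + 1) * R := by nlinarith only [h]
      omega
  have h15 : 0 < W := by omega
  rcases h14 with h | h
  · nlinarith only [h13, h]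
  · rw [h] at h13
    nlinarith only [hS2, h7, h13]

end Pool.Agent.H5.DG4

end
end
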