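import Pool.Agent.H94.DG.H39.SY.SurjA
import Pool.Agent.H94.DG.M39
import Pool.Agent.H94.DG.M52
import Pool.Agent.H94.DG.M56

/-! The parts of this file: H39.SY.RelA, H39.SY.RelB, H39.SY.JacB3, H39.SY.SurjB. -/

section

/-!
# Project SY, module RelA: the transcendence degree of the preimage of a set of codimension two

`X i₀ ∉ 𝔮`, `A a = X i₀ * F α a`, a form of degree `e + 1 ≥ 1`, `Q' = 𝔮.comap (aeval A)`: a homogeneous
prime ideal (`aeval A` multiplies the degree of forms by `e + 1` and `𝔮` is homogeneous).  For a form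
`T` of degree `d` one has `aeval A T = X i₀ ^ d * aeval (F α) T`, so `Q ≤ Q'` (`Q` is homogeneous) and
`g ∈ Q'`, `g ∉ Q`: `P < Q < Q'`, and `TD Q' n` by `TD.lt` twice.  Suppose that `f` is algebraically
independent.  `FunField 𝔮` is algebraic over the field generated by the `u a = valAt 𝔮 j₀ (F α) a /
valAt 𝔮 j₀ (F α) b` (`morph_algebraic` with `B = Z = ∅`; it has a finite transcendence basis: see the
uses of `FunField` in DG3/DG; `variety 𝔮 \ ∅` is not empty since `X i₀ ∉ 𝔮`), so by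
`Pool.Agent.H92.GT.exists_index` some of them form a transcendence basis, so there is `J : Fin n → _`
with `fun i => u (J i)` independent.  Then `X b, X (J 0), …` are independent modulo `Q'`: a relation
`R`, `R ≠ 0`, has a homogeneous component `R' ≠ 0` which is a relation too; `R' (A b, A (J i)) ∈ 𝔮`
gives `R' (1, u (J i)) = 0` (`eval_ratio_zero_iff`, divide by a power of the value of `A b`), so the
polynomial `R' (1, ·)` is zero, so `R' = 0`.  This contradicts `TD Q' n`.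
-/

open MvPolynomial
open Pool.Agent.H17 (PN VanishesAt ZariskiClosedIn)
open Pool.Agent.H17GT (coordFun)
open Pool.Agent.H17LG.Variety (FunField ratio)
open Pool.Agent.H5.DG (Homog TD variety valAt)
open Pool.Agent.H5.DG3

noncomputable section

namespace Pool.Agent.H39.SY

open scoped IntermediateField.algebraAdjoinAdjoin in
/-- A finite transcendence basis of the function field. -/
private theorem RelA_basis {N : ℕ} (𝔮 : Ideal (MvPolynomial (Fin (N + 1)) ℂ)) [𝔮.IsPrime]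
    {j₀ : Fin (N + 1)} (hj₀ : coordFun 𝔮 j₀ ≠ 0) :
    ∃ (w : ℕ) (z : Fin w → FunField 𝔮), IsTranscendenceBasis ℂ z := by
  have hadj := Pool.Agent.H17R.adjoin_ratio hj₀
  have halg : Algebra.IsAlgebraic (IntermediateField.adjoin ℂ (Set.range fun i => ratio 𝔮 i j₀))
      (FunField 𝔮) := by
    refine ⟨fun z => ?_⟩
    have hz : z ∈ IntermediateField.adjoin ℂ (Set.range fun i => ratio 𝔮 i j₀) := by
      rw [hadj]
      trivial
    exact isAlgebraic_algebraMap (A := FunField 𝔮)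
      (⟨z, hz⟩ : IntermediateField.adjoin ℂ (Set.range fun i => ratio 𝔮 i j₀))
  have h1 : Algebra.IsAlgebraic (Algebra.adjoin ℂ (Set.range fun i => ratio 𝔮 i j₀))
      (FunField 𝔮) :=
    (IsFractionRing.comap_isAlgebraic_iff
      (A := Algebra.adjoin ℂ (Set.range fun i => ratio 𝔮 i j₀))
      (K := IntermediateField.adjoin ℂ (Set.range fun i => ratio 𝔮 i j₀))
      (C := FunField 𝔮)).mpr halg
  obtain ⟨u, hu, hub⟩ := exists_isTranscendenceBasis_subset (R := ℂ)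
    (Set.range fun i => ratio 𝔮 i j₀)
  have hfin : Finite u := ((Set.finite_range _).subset hu).to_subtype
  exact ⟨Nat.card u, fun i => (Finite.equivFin u).symm i,
    (isTranscendenceBasis_equiv (Finite.equivFin u).symm).2 hub⟩

private theorem RelA_homComp_aeval {m k e : ℕ} {F : Fin m → MvPolynomial (Fin k) ℂ}
    (he : 1 ≤ e) (hF : ∀ a, (F a).IsHomogeneous e) (b : MvPolynomial (Fin m) ℂ) (j : ℕ) :
    homogeneousComponent (e * j) (aeval F b) = aeval F (homogeneousComponent j b) := by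
  have h1 : homogeneousComponent (e * j) (aeval F b) =
      ∑ i ∈ Finset.range (b.totalDegree + 1),
        homogeneousComponent (e * j) (aeval F (homogeneousComponent i b)) := by
    rw [← map_sum, ← map_sum, sum_homogeneousComponent]
  have h2 : ∀ i ∈ Finset.range (b.totalDegree + 1),
      homogeneousComponent (e * j) (aeval F (homogeneousComponent i b)) =
        if i = j then aeval F (homogeneousComponent j b) else 0 := by
    intro i _
    have h3 : (aeval F (homogeneousComponent i b)) ∈ homogeneousSubmodule (Fin k) ℂ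
        (e * i) := (homogeneousComponent_isHomogeneous i b).aeval F hF
    rw [homogeneousComponent_of_mem h3]
    by_cases h : i = j
    · rw [if_pos (by rw [h]), if_pos h, h]
    · rw [if_neg (fun h4 => h (Nat.eq_of_mul_eq_mul_left (by omega) h4).symm), if_neg h]
  rw [h1, Finset.sum_congr rfl h2, Finset.sum_ite_eq']
  split_ifs with h
  · rfl
  · rw [homogeneousComponent_eq_zero _ _ (by
      rw [Finset.mem_range] at h
      omega), map_zero]

/-- Values of forms at multiples. -/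
private theorem RelA_scale {m : ℕ} {A : Type} [CommRing A] [Algebra ℂ A]
    {G : MvPolynomial (Fin m) ℂ} {n : ℕ} (hG : G.IsHomogeneous n) (c : A) (x : Fin m → A) :
    aeval (fun i => c * x i) G = c ^ n * aeval x G := by
  rw [aeval_def, aeval_def, eval₂_eq, eval₂_eq, Finset.mul_sum]
  refine Finset.sum_congr rfl fun m hm => ?_
  have h5 : ∑ i ∈ m.support, m i = n := by
    have := hG (mem_support_iff.1 hm)
    rw [Finsupp.weight_apply, Finsupp.sum] at this
    simpa using this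
  simp only [mul_pow, Finset.prod_mul_distrib]
  rw [Finset.prod_pow_eq_pow_sum, h5]
  ring

/-- A form which vanishes on the affine chart is zero. -/
private theorem RelA_dehom {n k : ℕ} {R : MvPolynomial (Fin (n + 1)) ℂ} (hR : R.IsHomogeneous k)
    (h : aeval (Fin.cons (1 : MvPolynomial (Fin n) ℂ) X) R = 0) : R = 0 := by
  have h1 : (X 0 : MvPolynomial (Fin (n + 1)) ℂ) * R = 0 := by
    refine MvPolynomial.funext fun c => ?_
    rw [map_mul, eval_X, map_zero]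
    by_cases hc : c 0 = 0
    · rw [hc, zero_mul]
    · have h2 : c = fun i => c 0 * (c i / c 0) := by
        funext i
        rw [mul_div_cancel₀ _ hc]
      have h3 : eval c R = c 0 ^ k * eval (fun i => c i / c 0) R := by
        conv_lhs => rw [h2]
        exact RelA_scale (A := ℂ) hR (c 0) fun i => c i / c 0
      have h4 : eval (fun i => c i / c 0) R = 0 := by
        have h5 := congrArg (eval fun i : Fin n => c i.succ / c 0) h
        rw [map_zero] at h5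
        rw [← h5]
        have h6 : ∀ q : MvPolynomial (Fin (n + 1)) ℂ,
            eval (fun i : Fin n => c i.succ / c 0) (aeval (Fin.cons (1 : MvPolynomial (Fin n) ℂ) X) q) =
              eval (fun i => c i / c 0) q := by
          intro q
          induction q using MvPolynomial.induction_on with
          | C a => simp
          | add p q hp hq => rw [map_add, map_add, map_add, hp, hq]
          | mul_X p i hp =>
            rw [map_mul, map_mul, map_mul, hp, aeval_X, eval_X]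
            congr 1
            refine Fin.cases ?_ (fun i => ?_) i
            · rw [Fin.cons_zero, map_one, div_self hc]
            · rw [Fin.cons_succ, eval_X]
        exact (h6 R).symm
      rw [h3, h4, mul_zero, mul_zero]
  exact (mul_eq_zero.1 h1).resolve_left (X_ne_zero 0)

theorem no_indep {N M m s q n d : ℕ} {P : Ideal (MvPolynomial (Fin (M + 1)) ℂ)}
    {G : Fin m → MvPolynomial (Fin (M + 1)) ℂ} {I : Ideal (MvPolynomial (Fin (N + 1)) ℂ)}
    {F : Fin s → Fin (M + 1) → MvPolynomial (Fin (N + 1)) ℂ} (hPp : P.IsPrime)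
    (h : RamifiedMorphism q P G I ∅ ∅ F) (hTD : TD P (n + 2))
    {Q : Ideal (MvPolynomial (Fin (M + 1)) ℂ)} (hQp : Q.IsPrime) (hQ : Homog Q) (hPQ : P < Q)
    {g : MvPolynomial (Fin (M + 1)) ℂ} (hg : g.IsHomogeneous d) (hgQ : g ∉ Q)
    (𝔮 : Ideal (MvPolynomial (Fin (N + 1)) ℂ)) [𝔮.IsPrime] (h𝔮 : Homog 𝔮) (hI𝔮 : I ≤ 𝔮)
    (hX : ∃ i, X i ∉ 𝔮) {α : Fin s} {b : Fin (M + 1)} (hb : F α b ∉ 𝔮)
    (hQ𝔮 : ∀ T ∈ Q, aeval (F α) T ∈ 𝔮) (hg𝔮 : aeval (F α) g ∈ 𝔮) (f : Fin n → FunField 𝔮) :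
    ¬ AlgebraicIndependent ℂ f := by
  classical
  intro hf
  obtain ⟨i₀, hi₀⟩ := hX
  have hj₀ : coordFun 𝔮 i₀ ≠ 0 := Pool.Agent.H17R.coordFun_ne_zero_iff.2 hi₀
  obtain ⟨e, he⟩ := h.morphism.hom α
  -- the forms `A a`
  obtain ⟨A, hA⟩ : ∃ A : Fin (M + 1) → MvPolynomial (Fin (N + 1)) ℂ,
    A = fun a => X i₀ * F α a := ⟨_, rfl⟩
  have hAh : ∀ a, (A a).IsHomogeneous (e + 1) := by
    intro a
    have h1 := (isHomogeneous_X ℂ i₀).mul (he a)
    rw [hA, add_comm e 1]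
    exact h1
  have hAs : ∀ (T : MvPolynomial (Fin (M + 1)) ℂ) (k : ℕ), T.IsHomogeneous k →
      aeval A T = X i₀ ^ k * aeval (F α) T := by
    intro T k hT
    rw [hA]
    exact RelA_scale hT (X i₀) (F α)
  -- the ideal `Q'`
  obtain ⟨Q', hQ'⟩ : ∃ Q' : Ideal (MvPolynomial (Fin (M + 1)) ℂ),
    Q' = 𝔮.comap (aeval A : MvPolynomial (Fin (M + 1)) ℂ →ₐ[ℂ] MvPolynomial (Fin (N + 1)) ℂ) :=
      ⟨_, rfl⟩
  have hmem : ∀ T, T ∈ Q' ↔ aeval A T ∈ 𝔮 := by
    intro T
    rw [hQ', Ideal.mem_comap]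
  have hQ'p : Q'.IsPrime := by
    rw [hQ']
    exact Ideal.IsPrime.comap _
  have hle : Q ≤ Q' := by
    intro T hT
    rw [hmem, ← sum_homogeneousComponent T, map_sum]
    refine Ideal.sum_mem _ fun k _ => ?_
    rw [hAs _ k (homogeneousComponent_isHomogeneous k T)]
    exact 𝔮.mul_mem_left _ (hQ𝔮 _ (hQ T hT k))
  have hlt : Q < Q' := by
    refine lt_of_le_of_ne hle fun heq => hgQ ?_
    rw [heq, hmem, hAs g d hg]
    exact 𝔮.mul_mem_left _ hg𝔮
  have hTDQ : TD Q' n := (hTD.lt hPp hQp hPQ).lt hQp hQ'p hlt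
  -- the function field
  obtain ⟨w, z, hz⟩ := RelA_basis 𝔮 hj₀
  have hne : ¬ (variety 𝔮 \ ∅ ⊆ (∅ : Set (PN N))) := by
    intro hcon
    apply hi₀
    rw [← MvPolynomial.IsPrime.vanishingIdeal_zeroLocus (K := ℂ) 𝔮,
      MvPolynomial.mem_vanishingIdeal_iff]
    intro x hx
    rw [aeval_X]
    by_contra hx0
    have hx1 : x ≠ 0 := by
      rintro rfl
      exact hx0 rfl
    refine hcon (a := Projectivization.mk ℂ x hx1) ⟨fun R hR k hk => ?_, fun h => h⟩
    rw [Pool.Agent.H17.vanishesAt_mk_iff hk]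
    have h1 := hx R hR
    rwa [MvPolynomial.aeval_eq_eval] at h1
  have halg := morph_algebraic h.homog h.closedB h.closedZ h.morphism h.finite 𝔮 h𝔮 hI𝔮 hne
    ⟨z, hz⟩ hj₀ hb
  obtain ⟨J, hJ⟩ := Pool.Agent.H92.GT.exists_index halg hz
  have hnw : n ≤ w := by
    have h1 := hf.cardinalMk_le_trdeg
    rw [← hJ.cardinalMk_eq_trdeg, Cardinal.mk_fin, Cardinal.mk_fin] at h1
    exact_mod_cast h1
  obtain ⟨J', hJ'⟩ : ∃ J' : Fin n → Fin (M + 1), J' = fun i => J (Fin.castLE hnw i) := ⟨_, rfl⟩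
  have hind : AlgebraicIndependent ℂ fun i => valAt 𝔮 i₀ (F α) (J' i) / valAt 𝔮 i₀ (F α) b := by
    rw [hJ']
    exact hJ.1.comp (Fin.castLE hnw) (Fin.castLE_injective _)
  have hvb : valAt 𝔮 i₀ (F α) b ≠ 0 := fun h0 =>
    hb ((Pool.Agent.H5.DG.eval_ratio_zero_iff 𝔮 hj₀ (he b)).1 h0)
  have hr1 : ratio 𝔮 i₀ i₀ = 1 := Pool.Agent.H17R.ratio_self hj₀
  -- the coordinates
  obtain ⟨K, hK⟩ : ∃ K : Fin (n + 1) → Fin (M + 1), K = Fin.cons b J' := ⟨_, rfl⟩
  refine hTDQ (fun i => X (K i)) ?_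
  rw [algebraicIndependent_iff]
  intro R hR
  have h1 : aeval (fun i => A (K i)) R ∈ 𝔮 := by
    have h2 : Ideal.Quotient.mkₐ ℂ Q' (aeval (fun i => X (K i)) R) = 0 := by
      rw [← hR]
      exact (comp_aeval_apply (f := fun i => (X (K i) : MvPolynomial (Fin (M + 1)) ℂ))
        (Ideal.Quotient.mkₐ ℂ Q') R)
    have h3 : aeval (fun i => X (K i)) R ∈ Q' := Ideal.Quotient.eq_zero_iff_mem.1 h2
    rw [hmem, comp_aeval_apply] at h3
    simpa only [aeval_X] using h3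
  have h2 : ∀ j, homogeneousComponent j R = 0 := by
    intro j
    have hRj := homogeneousComponent_isHomogeneous j R
    have h3 : aeval (fun i => A (K i)) (homogeneousComponent j R) ∈ 𝔮 := by
      rw [← RelA_homComp_aeval (Nat.succ_pos e) (fun i => hAh (K i)) R j]
      exact h𝔮 _ h1 _
    have h4 := Pool.Agent.H5.DG.eval_ratio_mem 𝔮 h𝔮 hj₀ h3
    have h5 : aeval (fun i => ratio 𝔮 i i₀) (aeval (fun i => A (K i)) (homogeneousComponent j R)) =
        aeval (fun i => valAt 𝔮 i₀ (F α) b *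
          (valAt 𝔮 i₀ (F α) (K i) / valAt 𝔮 i₀ (F α) b)) (homogeneousComponent j R) := by
      rw [comp_aeval_apply]
      congr 2
      funext i
      rw [mul_div_cancel₀ _ hvb, hA, map_mul, aeval_X, hr1, one_mul]
      rfl
    rw [h5, RelA_scale hRj] at h4
    have h6 := (mul_eq_zero.1 h4).resolve_left (pow_ne_zero _ hvb)
    have h7 : aeval (fun i => valAt 𝔮 i₀ (F α) (K i) / valAt 𝔮 i₀ (F α) b)
        (homogeneousComponent j R) =
        aeval (fun i => valAt 𝔮 i₀ (F α) (J' i) / valAt 𝔮 i₀ (F α) b)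
          (aeval (Fin.cons (1 : MvPolynomial (Fin n) ℂ) X) (homogeneousComponent j R)) := by
      rw [comp_aeval_apply]
      congr 2
      funext i
      rw [hK]
      refine Fin.cases ?_ (fun i => ?_) i
      · rw [Fin.cons_zero, Fin.cons_zero, map_one, div_self hvb]
      · rw [Fin.cons_succ, Fin.cons_succ, aeval_X]
    rw [h7] at h6
    exact RelA_dehom hRj (hind.eq_zero_of_aeval_eq_zero _ h6)
  rw [← sum_homogeneousComponent R]
  exact Finset.sum_eq_zero fun j _ => h2 j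

end Pool.Agent.H39.SY

end
end

section

/-!
# Project SY, module RelB: a relation on the preimage of a set of codimension two

For every `α` and `b` let `𝔞 = I ⊔ span {aeval (F α) T | T ∈ Q} ⊔ span {aeval (F α) g}`.  Its minimal
primes `𝔮` are finitely many (`Ideal.finite_minimalPrimes_of_isNoetherianRing`) and homogeneous
(`𝔞` is homogeneous: `F α` are forms of the same degree, `Q` is homogeneous; for a prime `𝔮` the ideal
of the polynomials all of whose components are in `𝔮` is prime and contained in `𝔮`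
(`Ideal.homogeneousCore`, `Ideal.IsPrime.homogeneousCore`, or by hand), so a minimal prime is
homogeneous).  If `X l ∉ 𝔮` and `F α b ∉ 𝔮`: the `n` elements `aeval (fun i => algebraMap ℂ _ c *
ratio 𝔮 i l) (Λ a)` of `FunField 𝔮` are dependent (`no_indep`), which gives `R 𝔮 ≠ 0` such that
`aeval Λ (R 𝔮)` is zero at the point `c * ratio 𝔮 i l`.  If `x ∈ Zer 𝔮`, `x l = c` then
`eval (fun a => eval x (Λ a)) (R 𝔮) = 0`: a polynomial `T` which is zero at the point
`(c * ratio 𝔮 i l)_i` is zero at `x` (`Pool.Agent.H13.SM.mem_pts_iff` for `c⁻¹ • x`, or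
homogenise).  Otherwise (`X l ∈ 𝔮` or `F α b ∈ 𝔮`) take `R 𝔮 = 1`.  `R` = the product over all `α`, `b`
and `𝔮`.  If `x` is as in the statement then `aeval (F α) T` is zero at `x` for all `T ∈ Q` and for
`T = g` (`eval_aff`; `Q` is homogeneous), so the kernel of `eval x` contains `𝔞` and a minimal prime `𝔮`
(`Ideal.exists_minimalPrimes_le`), with `X l ∉ 𝔮` (`x l = c ≠ 0`) and `F α b ∉ 𝔮`.
-/

open MvPolynomial
open Pool.Agent.H17GT (coordFun)
open Pool.Agent.H17LG.Variety (FunField ratio)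
open Pool.Agent.H5.DG (Homog TD)
open Pool.Agent.H5.DG3

noncomputable section

namespace Pool.Agent.H39.SY

attribute [local instance] MvPolynomial.gradedAlgebra in
private theorem RelB_homog_iff {N : ℕ} {I : Ideal (MvPolynomial (Fin (N + 1)) ℂ)} :
    I.IsHomogeneous (homogeneousSubmodule (Fin (N + 1)) ℂ) ↔ Homog I := by
  constructor
  · intro h p hp k
    have h1 := h k hp
    rw [← decomposition.decompose'_apply]
    exact h1
  · intro h k p hp
    have h1 := h p hp k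
    rw [← decomposition.decompose'_apply] at h1
    exact h1

/-- Minimal primes of homogeneous ideals are homogeneous. -/
private theorem RelB_min_homog {N : ℕ} {I 𝔮 : Ideal (MvPolynomial (Fin (N + 1)) ℂ)} (hI : Homog I)
    (h𝔮 : 𝔮 ∈ I.minimalPrimes) : Homog 𝔮 := by
  let _ := MvPolynomial.gradedAlgebra (σ := Fin (N + 1)) (R := ℂ)
  rw [← RelB_homog_iff] at hI ⊢
  have h1 : (𝔮.homogeneousCore (homogeneousSubmodule (Fin (N + 1)) ℂ)).toIdeal.IsPrime :=
    h𝔮.1.1.homogeneousCore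
  have h2 : I ≤ (𝔮.homogeneousCore (homogeneousSubmodule (Fin (N + 1)) ℂ)).toIdeal :=
    hI.toIdeal_homogeneousCore_eq_self.symm.trans_le (Ideal.homogeneousCore_mono _ h𝔮.1.2)
  have h3 := h𝔮.2 ⟨h1, h2⟩ (Ideal.toIdeal_homogeneousCore_le _ 𝔮)
  have h4 : (𝔮.homogeneousCore (homogeneousSubmodule (Fin (N + 1)) ℂ)).toIdeal = 𝔮 :=
    le_antisymm (Ideal.toIdeal_homogeneousCore_le _ 𝔮) h3
  rw [← h4]
  exact HomogeneousIdeal.isHomogeneous _

/-- An ideal generated by a homogeneous ideal and by forms is homogeneous. -/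
private theorem RelB_sup_homog {N : ℕ} {I : Ideal (MvPolynomial (Fin (N + 1)) ℂ)} (hI : Homog I)
    {S : Set (MvPolynomial (Fin (N + 1)) ℂ)} (hS : ∀ p ∈ S, ∃ d, p.IsHomogeneous d) :
    Homog (I ⊔ Ideal.span S) := by
  let _ := MvPolynomial.gradedAlgebra (σ := Fin (N + 1)) (R := ℂ)
  rw [← RelB_homog_iff] at hI ⊢
  refine hI.sup (Ideal.homogeneous_span _ _ fun p hp => ?_)
  obtain ⟨d, hd⟩ := hS p hp
  exact ⟨d, (mem_homogeneousSubmodule d p).2 hd⟩

/-- A relation between functions gives a relation at the points. -/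
private theorem RelB_point {N n : ℕ} (𝔮 : Ideal (MvPolynomial (Fin (N + 1)) ℂ)) [𝔮.IsPrime]
    (h𝔮 : Homog 𝔮) {l : Fin (N + 1)} (hl : X l ∉ 𝔮) {c : ℂ} (hc : c ≠ 0)
    (Λ : Fin n → MvPolynomial (Fin (N + 1)) ℂ) {R : MvPolynomial (Fin n) ℂ}
    (hR : aeval (fun a => aeval (fun i => algebraMap ℂ (FunField 𝔮) c * ratio 𝔮 i l) (Λ a)) R = 0)
    {x : Fin (N + 1) → ℂ} (hx : ∀ T ∈ 𝔮, eval x T = 0) (hxl : x l = c) :
    eval (fun a => eval x (Λ a)) R = 0 := by
  have hcf : coordFun 𝔮 l ≠ 0 := Pool.Agent.H17R.coordFun_ne_zero_iff.2 hl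
  have h1 : aeval (fun i => algebraMap ℂ (FunField 𝔮) c * ratio 𝔮 i l) (aeval Λ R) = 0 := by
    rw [← hR, ← AlgHom.comp_apply, comp_aeval]
  have h2 : aeval (fun i => ratio 𝔮 i l)
      (aeval (fun i => (C c * X i : MvPolynomial (Fin (N + 1)) ℂ)) (aeval Λ R)) = 0 := by
    rw [← AlgHom.comp_apply, comp_aeval]
    have h3 : (fun i => (aeval fun i => ratio 𝔮 i l : MvPolynomial (Fin (N + 1)) ℂ →ₐ[ℂ] _)
        (C c * X i)) = fun i => algebraMap ℂ (FunField 𝔮) c * ratio 𝔮 i l := by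
      funext i
      rw [map_mul, aeval_X, aeval_C]
    rw [h3]
    exact h1
  have hw : (c⁻¹ • x) ∈ Pool.Agent.H13.SM.pts (fun i => ratio 𝔮 i l) := by
    refine (Pool.Agent.H13.SM.mem_pts_iff h𝔮 hcf).2 ⟨?_, ?_⟩
    · rw [Pi.smul_apply, smul_eq_mul, hxl, inv_mul_cancel₀ hc]
    · exact Pool.Agent.H13.SM.cone_smul h𝔮 hx c⁻¹
  have h4 := hw _ h2
  have h5 : ∀ T : MvPolynomial (Fin (N + 1)) ℂ,
      eval (c⁻¹ • x) (aeval (fun i => (C c * X i : MvPolynomial (Fin (N + 1)) ℂ)) T) =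
        eval x T := by
    intro T
    rw [← coe_aeval_eq_eval, ← coe_aeval_eq_eval]
    show aeval (c⁻¹ • x) (aeval (fun i => (C c * X i : MvPolynomial (Fin (N + 1)) ℂ)) T) =
      aeval x T
    rw [← AlgHom.comp_apply, comp_aeval]
    congr 2
    funext i
    rw [map_mul, aeval_X, aeval_C, Pi.smul_apply, smul_eq_mul]
    show c * (c⁻¹ * x i) = x i
    rw [mul_inv_cancel_left₀ hc]
  rw [h5] at h4
  have h6 : eval x (aeval Λ R) = eval (fun a => eval x (Λ a)) R := by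
    rw [← coe_aeval_eq_eval, ← coe_aeval_eq_eval]
    show aeval x (aeval Λ R) = aeval _ R
    rw [← AlgHom.comp_apply, comp_aeval]
    rfl
  rw [← h6]
  exact h4

theorem exists_rel3 {N M m s q n d : ℕ} {P : Ideal (MvPolynomial (Fin (M + 1)) ℂ)}
    {G : Fin m → MvPolynomial (Fin (M + 1)) ℂ} {I : Ideal (MvPolynomial (Fin (N + 1)) ℂ)}
    {F : Fin s → Fin (M + 1) → MvPolynomial (Fin (N + 1)) ℂ} (hPp : P.IsPrime)
    (h : RamifiedMorphism q P G I ∅ ∅ F) (hTD : TD P (n + 2))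
    {Q : Ideal (MvPolynomial (Fin (M + 1)) ℂ)} (hQp : Q.IsPrime) (hQ : Homog Q) (hPQ : P < Q)
    {g : MvPolynomial (Fin (M + 1)) ℂ} (hg : g.IsHomogeneous d) (hgQ : g ∉ Q)
    (l : Fin (N + 1)) {c : ℂ} (hc : c ≠ 0) (Λ : Fin n → MvPolynomial (Fin (N + 1)) ℂ) :
    ∃ R : MvPolynomial (Fin n) ℂ, R ≠ 0 ∧ ∀ x ∈ Zer I, x l = c → ∀ α b, eval x (F α b) ≠ 0 →
      (∀ T ∈ Q, eval (aff (F α) b x) T = 0) → eval (aff (F α) b x) g = 0 →
      eval (fun a => eval x (Λ a)) R = 0 := by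
  classical
  obtain ⟨S, hS⟩ : ∃ S : Fin s → Set (MvPolynomial (Fin (N + 1)) ℂ), ∀ α, S α =
      {p | ∃ T ∈ Q, (∃ k, T.IsHomogeneous k) ∧ p = aeval (F α) T} ∪ {aeval (F α) g} :=
    ⟨_, fun _ => rfl⟩
  have hSh : ∀ α, ∀ p ∈ S α, ∃ k, p.IsHomogeneous k := by
    intro α p hp
    obtain ⟨e, he⟩ := h.morphism.hom α
    rw [hS α] at hp
    rcases hp with ⟨T, -, ⟨k, hk⟩, rfl⟩ | hp
    · exact ⟨_, hk.aeval (F α) he⟩
    · rw [Set.mem_singleton_iff.1 hp]
      exact ⟨_, hg.aeval (F α) he⟩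
  have hhom : ∀ α, Homog (I ⊔ Ideal.span (S α)) := fun α => RelB_sup_homog h.homog (hSh α)
  have hfin : ∀ α, (I ⊔ Ideal.span (S α)).minimalPrimes.Finite := fun α =>
    Ideal.finite_minimalPrimes_of_isNoetherianRing _ _
  have key : ∀ (α : Fin s) (b : Fin (M + 1)) (𝔮 : Ideal (MvPolynomial (Fin (N + 1)) ℂ)),
      ∃ R : MvPolynomial (Fin n) ℂ, R ≠ 0 ∧ (𝔮 ∈ (I ⊔ Ideal.span (S α)).minimalPrimes →
        ∀ x : Fin (N + 1) → ℂ, (∀ T ∈ 𝔮, eval x T = 0) → x l = c → eval x (F α b) ≠ 0 →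
          eval (fun a => eval x (Λ a)) R = 0) := by
    intro α b 𝔮
    by_cases h𝔮 : 𝔮 ∈ (I ⊔ Ideal.span (S α)).minimalPrimes
    · by_cases hl : X l ∈ 𝔮
      · refine ⟨1, one_ne_zero, fun _ x hx hxl _ => ?_⟩
        have h1 := hx _ hl
        rw [eval_X, hxl] at h1
        exact absurd h1 hc
      by_cases hb : F α b ∈ 𝔮
      · exact ⟨1, one_ne_zero, fun _ x hx _ hne => absurd (hx _ hb) hne⟩
      have : 𝔮.IsPrime := h𝔮.1.1
      have h𝔮h := RelB_min_homog (hhom α) h𝔮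
      have hle : I ⊔ Ideal.span (S α) ≤ 𝔮 := h𝔮.1.2
      have hIle : I ≤ 𝔮 := le_sup_left.trans hle
      have hSle : ∀ p ∈ S α, p ∈ 𝔮 := fun p hp =>
        hle (Ideal.mem_sup_right (Ideal.subset_span hp))
      have hQ𝔮 : ∀ T ∈ Q, aeval (F α) T ∈ 𝔮 := by
        intro T hT
        rw [← sum_homogeneousComponent T, map_sum]
        refine Ideal.sum_mem _ fun k _ => hSle _ ?_
        rw [hS α]
        exact Or.inl ⟨_, hQ T hT k, ⟨k, homogeneousComponent_isHomogeneous k T⟩, rfl⟩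
      have hg𝔮 : aeval (F α) g ∈ 𝔮 := hSle _ (by rw [hS α]; exact Or.inr rfl)
      have h1 := no_indep hPp h hTD hQp hQ hPQ hg hgQ 𝔮 h𝔮h hIle ⟨l, hl⟩ hb hQ𝔮 hg𝔮
        (fun a => aeval (fun i => algebraMap ℂ (FunField 𝔮) c * ratio 𝔮 i l) (Λ a))
      rw [algebraicIndependent_iff] at h1
      push Not at h1
      obtain ⟨R, hR0, hR⟩ := h1
      exact ⟨R, hR, fun _ x hx hxl _ => RelB_point 𝔮 h𝔮h hl hc Λ hR0 hx hxl⟩
    · exact ⟨1, one_ne_zero, fun h' => absurd h' h𝔮⟩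
  choose R hR0 hR using key
  refine ⟨∏ α, ∏ b, ∏ 𝔮 ∈ (hfin α).toFinset, R α b 𝔮, ?_, ?_⟩
  · exact Finset.prod_ne_zero_iff.2 fun α _ => Finset.prod_ne_zero_iff.2 fun b _ =>
      Finset.prod_ne_zero_iff.2 fun 𝔮 _ => hR0 α b 𝔮
  · intro x hx hxl α b hb hQx hgx
    obtain ⟨e, he⟩ := h.morphism.hom α
    have hform : ∀ (T : MvPolynomial (Fin (M + 1)) ℂ) (k : ℕ), T.IsHomogeneous k →
        eval (aff (F α) b x) T = 0 → eval x (aeval (F α) T) = 0 := by
      intro T k hT h0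
      rw [eval_aff hT hb] at h0
      exact (mul_eq_zero.1 h0).resolve_left (pow_ne_zero _ (inv_ne_zero hb))
    have hker : I ⊔ Ideal.span (S α) ≤ RingHom.ker (eval x) := by
      refine sup_le (fun p hp => hx p hp) (Ideal.span_le.2 fun p hp => ?_)
      rw [hS α] at hp
      rcases hp with ⟨T, hT, ⟨k, hk⟩, rfl⟩ | hp
      · exact hform T k hk (hQx T hT)
      · rw [Set.mem_singleton_iff.1 hp]
        exact hform g d hg hgx
    have : (RingHom.ker (eval x)).IsPrime := RingHom.ker_isPrime _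
    obtain ⟨𝔮, h𝔮, h𝔮le⟩ := Ideal.exists_minimalPrimes_le hker
    have h1 := hR α b 𝔮 h𝔮 x (fun T hT => h𝔮le hT) hxl hb
    rw [map_prod]
    refine Finset.prod_eq_zero (Finset.mem_univ α) ?_
    rw [map_prod]
    refine Finset.prod_eq_zero (Finset.mem_univ b) ?_
    rw [map_prod]
    exact Finset.prod_eq_zero ((hfin α).mem_toFinset.2 h𝔮) h1

end Pool.Agent.H39.SY

end
end

section

/-!
# Project SY, module JacB3: the square of the Jacobian is divisible by the product of the ramified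
divisors
-/

open Topology Filter MvPolynomial
open Pool.Agent.H17LG.Variety (FunField)
open Pool.Agent.H5.DG (Homog IntegralSection TD)
open Pool.Agent.H5.DG3
open Pool.Agent.H13.SM (conTan)
open Pool.Agent.H39.SX (hartogs linMod linMod_add dense_lines)

noncomputable section

namespace Pool.Agent.H39.SY

private theorem JacB3_bound {E : Type*} [TopologicalSpace E] {w H : E → ℂ} {u : E}
    (hw : ContinuousAt w u) (hH : ContinuousAt H u) (hne : H u ≠ 0) :
    ∃ C : ℝ, 0 ≤ C ∧ ∀ᶠ u' in 𝓝 u, ‖w u'‖ ≤ C * ‖H u'‖ := by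
  have h1 : ∀ᶠ u' in 𝓝 u, ‖w u'‖ < ‖w u‖ + 1 := hw.norm.eventually_lt_const (lt_add_one _)
  have hpos : 0 < ‖H u‖ := norm_pos_iff.2 hne
  have h2 : ∀ᶠ u' in 𝓝 u, ‖H u‖ / 2 < ‖H u'‖ := hH.norm.eventually_const_lt (half_lt_self hpos)
  refine ⟨(‖w u‖ + 1) / (‖H u‖ / 2), by positivity, ?_⟩
  filter_upwards [h1, h2] with u' h3 h4
  calc ‖w u'‖ ≤ ‖w u‖ + 1 := h3.le
    _ = (‖w u‖ + 1) / (‖H u‖ / 2) * (‖H u‖ / 2) := by field_simp
    _ ≤ (‖w u‖ + 1) / (‖H u‖ / 2) * ‖H u'‖ :=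
      mul_le_mul_of_nonneg_left h4.le (by positivity)

private theorem JacB3_det {n : ℕ} {Φ : (Fin n → ℂ) → Fin n → ℂ} {u : Fin n → ℂ}
    (h : AnalyticAt ℂ Φ u) : AnalyticAt ℂ (fun u' => (fderiv ℂ Φ u').det) u := by
  have h1 : ∀ u', (fderiv ℂ Φ u').det =
      (Matrix.of fun c k => fderiv ℂ Φ u' (Pi.single k 1) c).det := by
    intro u'
    rw [ContinuousLinearMap.det, ← LinearMap.det_toMatrix']
    congr 1
  have h2 : (fun u' => (fderiv ℂ Φ u').det) = fun u' =>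
      ∑ σ : Equiv.Perm (Fin n), ((Equiv.Perm.sign σ : ℤ) : ℂ) *
        ∏ k, fderiv ℂ Φ u' (Pi.single k 1) (σ k) := by
    funext u'
    rw [h1, Matrix.det_apply']
    rfl
  rw [h2]
  refine Finset.analyticAt_fun_sum _ fun σ _ => ?_
  refine analyticAt_const.mul (Finset.analyticAt_fun_prod _ fun k _ => ?_)
  have h3 := h.fderiv
  have h4 : AnalyticAt ℂ (fun u' => fderiv ℂ Φ u' (Pi.single k 1)) u :=
    ((ContinuousLinearMap.apply ℂ (Fin n → ℂ) (Pi.single k (1 : ℂ) : Fin n → ℂ)).analyticAt _).comp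
      h3
  exact (ContinuousLinearMap.proj (R := ℂ) (φ := fun _ : Fin n => ℂ) (σ k)).analyticAt _ |>.comp h4

private theorem JacB3_eval {N n : ℕ} {σ : (Fin n → ℂ) → Fin (N + 1) → ℂ} {u : Fin n → ℂ}
    (hσ : AnalyticAt ℂ σ u) (T : MvPolynomial (Fin (N + 1)) ℂ) :
    AnalyticAt ℂ (fun u' => eval (σ u') T) u := by
  have h1 : AnalyticAt ℂ (fun y : Fin (N + 1) → ℂ => eval y T) (σ u) :=
    AnalyticOnNhd.eval_mvPolynomial T _ (Set.mem_univ _)
  exact h1.comp hσ

/-- The affine expression of the morphism along a chart is analytic. -/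
theorem analyticAt_aff {N M n : ℕ} {σ : (Fin n → ℂ) → Fin (N + 1) → ℂ} {u : Fin n → ℂ}
    (hσ : AnalyticAt ℂ σ u) {A : Fin (M + 1) → MvPolynomial (Fin (N + 1)) ℂ} {b : Fin (M + 1)}
    (hb : eval (σ u) (A b) ≠ 0) : AnalyticAt ℂ (fun u' => aff A b (σ u')) u :=
  AnalyticAt.pi fun a => (JacB3_eval hσ (A a)).div (JacB3_eval hσ (A b)) hb

theorem jac_bound3 {N M s n k q : ℕ} {P : Ideal (MvPolynomial (Fin (M + 1)) ℂ)} [P.IsPrime]
    {G : Fin k → MvPolynomial (Fin (M + 1)) ℂ} {I : Ideal (MvPolynomial (Fin (N + 1)) ℂ)}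
    [I.IsPrime] {F : Fin s → Fin (M + 1) → MvPolynomial (Fin (N + 1)) ℂ} (hP : Homog P)
    (hTD : TD P (n + 2)) (hTD1 : ¬ TD P 1) (h : RamifiedMorphism q P G I ∅ ∅ F)
    (hz : ∃ z : Fin (n + 1) → FunField I, IsTranscendenceBasis ℂ z)
    (hzP : ∃ z : Fin (n + 1) → FunField P, IsTranscendenceBasis ℂ z)
    (hGh : ∀ j, ∃ d, (G j).IsHomogeneous d) (hGP : ∀ j, G j ∉ P)
    (hne : ∀ i j, i ≠ j → ∀ c : ℂ, G i - C c * G j ∉ P) (hint : ∀ j, IntegralSection P (G j))
    {x : Fin (N + 1) → ℂ} {l : Fin (N + 1)} {J : Fin (n + 1) → Fin (N + 1)}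
    {σ : (Fin (n + 1) → ℂ) → Fin (N + 1) → ℂ} (hc : Chart I x l J σ) {α : Fin s}
    {b : Fin (M + 1)} (hb : eval x (F α b) ≠ 0)
    (hm : ∀ᶠ u in 𝓝 0, ∀ (hu : σ u ≠ 0) (j : Fin k),
      PullbackMult 2 I F (G j) (Projectivization.mk ℂ (σ u) hu))
    (B : Fin (n + 1) → MvPolynomial (Fin (M + 1)) ℂ) :
    ∃ C : ℝ, 0 ≤ C ∧ ∀ᶠ u in 𝓝 0,
      ‖(fderiv ℂ (fun u' a => eval (aff (F α) b (σ u')) (B a)) u).det‖ ^ 2 ≤
        C * ∏ j, ‖eval (aff (F α) b (σ u)) (G j)‖ := by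
  classical
  obtain ⟨W, hWdef⟩ : ∃ W : (Fin (n + 1) → ℂ) → Fin (M + 1) → ℂ,
    W = fun u => aff (F α) b (σ u) := ⟨_, rfl⟩
  have hWu : ∀ u, W u = aff (F α) b (σ u) := fun u => congrFun hWdef u
  obtain ⟨Φ, hΦdef⟩ : ∃ Φ : (Fin (n + 1) → ℂ) → Fin (n + 1) → ℂ,
    Φ = fun u a => eval (W u) (B a) := ⟨_, rfl⟩
  have hPp : P.IsPrime := inferInstance
  have hIp : I.IsPrime := inferInstance
  -- analyticity
  have hWan : ∀ u, AnalyticAt ℂ σ u → eval (σ u) (F α b) ≠ 0 → AnalyticAt ℂ W u := by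
    intro u hu hbu
    rw [hWdef]
    exact analyticAt_aff hu hbu
  have hevan : ∀ u, AnalyticAt ℂ W u → ∀ T : MvPolynomial (Fin (M + 1)) ℂ,
      AnalyticAt ℂ (fun u' => eval (W u') T) u := fun u hu T => JacB3_eval hu T
  have hΦan : ∀ u, AnalyticAt ℂ W u → AnalyticAt ℂ Φ u := by
    intro u hu
    rw [hΦdef]
    exact AnalyticAt.pi fun a => hevan u hu (B a)
  -- the point `x`
  have hx : x ∈ Zer I := by
    have h1 := hc.coord.self_of_nhds.1
    rwa [hc.zero] at h1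
  have hbI : F α b ∉ I := fun hcon => hb (hx _ hcon)
  have hb0 : eval (σ 0) (F α b) ≠ 0 := by
    rw [hc.zero]
    exact hb
  have hbne : ∀ᶠ u in 𝓝 (0 : Fin (n + 1) → ℂ), eval (σ u) (F α b) ≠ 0 :=
    (JacB3_eval hc.an (F α b)).continuousAt.eventually_ne hb0
  -- the sections
  choose d hd using hGh
  choose Q g dg hQp hQh hPQ hGQ hXQ hsat hgh hgQ hzero hfin using
    fun j => exists_generic hPp hTD (hGP j) (hint j)
  have hnotin : ∀ i j, i ≠ j → G i ∉ Q j := by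
    intro i j hij
    exact not_mem_of_ne hPp hP hTD1 (hQp j) (hQp i) (hd j) (hd i) (hGP j) (hGP i)
      (hne j i (Ne.symm hij)) (hne i j hij) (hPQ j).le (hGQ j) (hPQ i).le (hGQ i) (hXQ j) (hXQ i)
      (hsat j) (hsat i)
  -- the values
  have hWP : ∀ u, σ u ∈ Zer I → σ u l = x l → eval (σ u) (F α b) ≠ 0 → W u ∈ Zer P := by
    intro u h1 h2 h3
    rw [hWu]
    refine aff_mem hP h h1 ?_ h3
    intro h4
    rw [h4] at h2
    exact hc.ne h2.symm
  have hWb : ∀ u, eval (σ u) (F α b) ≠ 0 → W u b = 1 := by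
    intro u h3
    rw [hWu]
    exact aff_self h3
  have hW0 : ∀ u, eval (σ u) (F α b) ≠ 0 → W u ≠ 0 := by
    intro u h3 h4
    have h5 := hWb u h3
    rw [h4, Pi.zero_apply] at h5
    exact zero_ne_one h5
  -- the bad set
  obtain ⟨bad, hbad⟩ : ∃ bad : (Fin (M + 1) → ℂ) → Prop, ∀ v, bad v ↔
      ∃ j, eval v (G j) = 0 ∧ ((∃ i, i ≠ j ∧ eval v (G i) = 0) ∨ eval v (g j) = 0) :=
    ⟨_, fun v => Iff.rfl⟩
  obtain ⟨Z, hZdef⟩ : ∃ Z : Set (Fin (n + 1) → ℂ), ∀ u, u ∈ Z ↔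
      (σ u ∈ Zer I ∧ σ u l = x l ∧ ∀ k, σ u (J k) = x (J k) + x l * u k) ∧
        eval (σ u) (F α b) ≠ 0 ∧ bad (W u) := ⟨{u | _}, fun u => Iff.rfl⟩
  have hW00 : AnalyticAt ℂ W 0 := hWan 0 hc.an hb0
  have hw : AnalyticAt ℂ (fun u => (fderiv ℂ Φ u).det ^ 2) 0 := (JacB3_det (hΦan 0 hW00)).pow 2
  have hHan : ∀ u, AnalyticAt ℂ W u → AnalyticAt ℂ (fun u => ∏ j, eval (W u) (G j)) u := by
    intro u hu
    exact Finset.analyticAt_fun_prod _ fun j _ => hevan u hu (G j)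
  have hHne : ¬ ∀ᶠ u in 𝓝 (0 : Fin (n + 1) → ℂ), ∏ j, eval (W u) (G j) = 0 := by
    intro hcon
    have hT : ∏ j, aeval (F α) (G j) ∉ I := by
      rw [hIp.prod_mem_iff]
      rintro ⟨j, -, hj⟩
      exact aeval_notMem hP h (by omega) hz hzP (hd j) (hGP j) hbI hj
    obtain ⟨e, he⟩ := h.morphism.hom α
    have hTh : (∏ j, aeval (F α) (G j)).IsHomogeneous (∑ j, e * d j) :=
      IsHomogeneous.prod _ _ _ fun j _ => (hd j).aeval _ he
    refine hc.nz _ _ hTh hT ?_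
    filter_upwards [hcon, hbne] with u h1 h2
    rw [map_prod, Finset.prod_eq_zero_iff]
    rw [Finset.prod_eq_zero_iff] at h1
    obtain ⟨j, hj, h3⟩ := h1
    refine ⟨j, hj, ?_⟩
    rw [hWu, eval_aff (hd j) h2] at h3
    exact (mul_eq_zero.1 h3).resolve_left (pow_ne_zero _ (inv_ne_zero h2))
  have hloc : ∀ᶠ u in 𝓝 (0 : Fin (n + 1) → ℂ), u ∉ Z → ∃ C : ℝ, ∀ᶠ u' in 𝓝 u,
      ‖(fderiv ℂ Φ u').det ^ 2‖ ≤ C * ‖∏ j, eval (W u') (G j)‖ := by
    filter_upwards [hc.an.eventually_analyticAt,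
      eventually_eventually_nhds.2 hc.an.eventually_analyticAt,
      eventually_eventually_nhds.2 hbne, eventually_eventually_nhds.2 hc.coord,
      eventually_eventually_nhds.2 hm] with u h1 h1' h2 h3 hmu hu
    have h2u := h2.self_of_nhds
    have h3u := h3.self_of_nhds
    have hWuan : AnalyticAt ℂ W u := hWan u h1 h2u
    by_cases hH0 : ∏ j, eval (W u) (G j) = 0
    · rw [Finset.prod_eq_zero_iff] at hH0
      obtain ⟨j, -, hj⟩ := hH0
      have hnb : ¬ bad (W u) := fun hcon => hu ((hZdef u).2 ⟨h3u, h2u, hcon⟩)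
      rw [hbad] at hnb
      push Not at hnb
      obtain ⟨hn1, hn2⟩ := hnb j hj
      have hWuP : W u ∈ Zer P := hWP u h3u.1 h3u.2.1 h2u
      have hslice := finrank_slice (b := b) hP (hd j) hWuP hj (hWb u h2u)
        (hfin j (W u) (hW0 u h2u) (hzero j (W u) (hW0 u h2u) hWuP hj) hn2)
      obtain ⟨C₁, hC₁, h5⟩ := jac_sq_le3 (P := P ⊔ Ideal.span {X b - 1}) (G := G j) hWuan (by
        filter_upwards [h2, h3] with u' h6 h7 T hT
        obtain ⟨T₁, hT₁, T₂, hT₂, rfl⟩ := Submodule.mem_sup.1 hT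
        obtain ⟨T₃, rfl⟩ := Ideal.mem_span_singleton'.1 hT₂
        rw [map_add, hWP u' h7.1 h7.2.1 h6 T₁ hT₁, map_mul, map_sub, eval_X, hWb u' h6, map_one,
          sub_self, mul_zero, add_zero]) hslice (by
        filter_upwards [h1', h2, eventually_eventually_nhds.2 h3, hmu] with u' h6 h7 h8 hm' h9
        have h10 := h8.self_of_nhds
        have hσne : σ u' ≠ 0 := fun h12 => hc.ne (by
          have h13 := h10.2.1
          rw [h12, Pi.zero_apply] at h13
          exact h13.symm)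
        have h11 := fderiv_eq_zero_of_mult h (hd j) h6 (h8.mono fun _ h => h.1) hσne
          (hm' hσne j) h7 (by
            rw [← hWu]
            exact h9)
        have h12 : (fun u' => eval (W u') (G j)) = fun u => eval (aff (F α) b (σ u)) (G j) :=
          funext fun u' => by rw [hWu]
        rw [h12]
        exact h11) B
      have hrest : ∏ i ∈ Finset.univ.erase j, eval (W u) (G i) ≠ 0 :=
        Finset.prod_ne_zero_iff.2 fun i hi => hn1 i (Finset.ne_of_mem_erase hi)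
      have hcont : ContinuousAt (fun u => ∏ i ∈ Finset.univ.erase j, eval (W u) (G i)) u :=
        (Finset.analyticAt_fun_prod _ fun i _ => hevan u hWuan (G i)).continuousAt
      obtain ⟨C₂, hC₂, h6⟩ := JacB3_bound (w := fun _ => (1 : ℂ)) continuousAt_const hcont hrest
      refine ⟨C₁ * C₂, ?_⟩
      filter_upwards [h5, h6] with u' h7 h8
      rw [norm_one] at h8
      rw [norm_pow, ← Finset.mul_prod_erase Finset.univ _ (Finset.mem_univ j), norm_mul, hΦdef]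
      calc ‖(fderiv ℂ (fun u a => eval (W u) (B a)) u').det‖ ^ 2 ≤ C₁ * ‖eval (W u') (G j)‖ := h7
        _ = C₁ * ‖eval (W u') (G j)‖ * 1 := (mul_one _).symm
        _ ≤ C₁ * ‖eval (W u') (G j)‖ *
            (C₂ * ‖∏ i ∈ Finset.univ.erase j, eval (W u') (G i)‖) :=
          mul_le_mul_of_nonneg_left h8 (mul_nonneg hC₁ (norm_nonneg _))
        _ = _ := by ring
    · obtain ⟨C, -, hC⟩ := JacB3_bound (w := fun u => (fderiv ℂ Φ u).det ^ 2)
        ((JacB3_det (hΦan u hWuan)).pow 2).continuousAt (hHan u hWuan).continuousAt hH0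
      exact ⟨C, hC⟩
  have hZ : ∀ v : Fin (n + 1) → ℂ, v ≠ 0 → ∃ D : Set (Fin (n + 1) → ℂ), Dense D ∧
      ∀ u ∈ D, ∀ t : ℂ, u + t • v ∉ Z := by
    intro v hv
    obtain ⟨b', hb'⟩ : ∃ b', v b' ≠ 0 := Function.ne_iff.1 hv
    obtain ⟨Λ, hΛ⟩ : ∃ Λ : Fin n → MvPolynomial (Fin (N + 1)) ℂ, Λ = fun a =>
      C (x l)⁻¹ * (X (J (b'.succAbove a)) - C (v (b'.succAbove a) / v b') * X (J b')) :=
      ⟨_, rfl⟩
    have hR1 : ∀ i j, ∃ R : MvPolynomial (Fin n) ℂ, R ≠ 0 ∧ (i ≠ j →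
        ∀ y ∈ Zer I, y l = x l → ∀ α b, eval y (F α b) ≠ 0 →
          (∀ T ∈ Q j, eval (aff (F α) b y) T = 0) → eval (aff (F α) b y) (G i) = 0 →
          eval (fun a => eval y (Λ a)) R = 0) := by
      intro i j
      by_cases hij : i = j
      · exact ⟨1, one_ne_zero, fun h => absurd hij h⟩
      · obtain ⟨R, hR, h⟩ := exists_rel3 hPp h hTD (hQp j) (hQh j) (hPQ j) (hd i)
          (hnotin i j hij) l hc.ne Λ
        exact ⟨R, hR, fun _ => h⟩
    choose R₁ hR₁ hR₁' using hR1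
    choose R₂ hR₂ hR₂' using fun j => exists_rel3 hPp h hTD (hQp j) (hQh j) (hPQ j) (hgh j)
      (hgQ j) l hc.ne Λ
    obtain ⟨R, hRdef⟩ : ∃ R, R = (∏ i, ∏ j, R₁ i j) * ∏ j, R₂ j := ⟨_, rfl⟩
    have hR : R ≠ 0 := by
      rw [hRdef]
      exact mul_ne_zero (Finset.prod_ne_zero_iff.2 fun i _ => Finset.prod_ne_zero_iff.2
        fun j _ => hR₁ i j) (Finset.prod_ne_zero_iff.2 fun j _ => hR₂ j)
    refine ⟨_, dense_lines hb' hR (fun a => eval x (Λ a)), ?_⟩
    intro u hu t hcon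
    apply hu
    obtain ⟨⟨h1, h1', h2⟩, h3, h4⟩ := (hZdef _).1 hcon
    have h5 : (fun a => eval x (Λ a) + linMod v b' u a) =
        fun a => eval (σ (u + t • v)) (Λ a) := by
      funext a
      rw [← linMod_add hb' u t, hΛ]
      simp only [map_sub, map_mul, eval_X, eval_C, h2, linMod]
      have hxl := hc.ne
      field_simp
      ring
    obtain ⟨j, h6, h7⟩ := (hbad _).1 h4
    have h8 : ∀ T ∈ Q j, eval (aff (F α) b (σ (u + t • v))) T = 0 := by
      rw [← hWu]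
      exact hzero j _ (hW0 _ h3) (hWP _ h1 h1' h3) h6
    rw [hWu] at h7
    rw [h5, hRdef, map_mul, map_prod, map_prod]
    rcases h7 with ⟨i, hij, h7⟩ | h7
    · refine mul_eq_zero_of_left (Finset.prod_eq_zero (Finset.mem_univ i) ?_) _
      rw [map_prod]
      exact Finset.prod_eq_zero (Finset.mem_univ j) (hR₁' i j hij _ h1 h1' _ _ h3 h8 h7)
    · exact mul_eq_zero_of_right _ (Finset.prod_eq_zero (Finset.mem_univ j)
        (hR₂' j _ h1 h1' _ _ h3 h8 h7))
  obtain ⟨C, hC0, hC⟩ := hartogs hw (hHan 0 hW00) hHne Z hloc hZ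
  refine ⟨C, hC0, ?_⟩
  filter_upwards [hC] with u hu
  rw [norm_pow, norm_prod] at hu
  simp only [hΦdef, hWu] at hu
  exact hu

end Pool.Agent.H39.SY

end
end

section

/-!
# Project SY, module SurjB: the morphism is surjective

`S = {x ∈ Zer I | ‖x‖ = 1}` is compact.  The set of the pairs `(x, y)`, `y b = 1`,
`eval x (F α a) = y a * eval x (F α b)` for all `α`, `a`, is closed.  If `y` is not the image of a point
then no point near `y` is; but the general points of `Y` are in the image and they are dense.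
-/

open MvPolynomial Filter Topology
open Pool.Agent.H17LG.Variety (FunField ratio)
open Pool.Agent.H5.DG (Homog)
open Pool.Agent.H5.DG3

noncomputable section

namespace Pool.Agent.H39.SY

variable {N M m s q n : ℕ} {P : Ideal (MvPolynomial (Fin (M + 1)) ℂ)} [P.IsPrime]
  {G : Fin m → MvPolynomial (Fin (M + 1)) ℂ} {I : Ideal (MvPolynomial (Fin (N + 1)) ℂ)}
  [I.IsPrime] {F : Fin s → Fin (M + 1) → MvPolynomial (Fin (N + 1)) ℂ}

theorem exists_pre (hP : Homog P) (h : RamifiedMorphism q P G I ∅ ∅ F) (hn : 1 ≤ n)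
    (hz : ∃ z : Fin n → FunField I, IsTranscendenceBasis ℂ z)
    (hzP : ∃ z : Fin n → FunField P, IsTranscendenceBasis ℂ z) {b : Fin (M + 1)}
    {y : Fin (M + 1) → ℂ} (hy : y ∈ Zer P) (hyb : y b = 1) :
    ∃ x ∈ Zer I, x ≠ 0 ∧ ∃ α, eval x (F α b) ≠ 0 ∧ aff (F α) b x = y := by
  classical
  have hXb : (X b : MvPolynomial (Fin (M + 1)) ℂ) ∉ P := by
    intro h1
    have h2 := hy _ h1
    rw [eval_X, hyb] at h2
    exact one_ne_zero h2
  obtain ⟨f, hf0, hf⟩ := exists_pre_generic hP h hn hz hzP hXb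
  by_contra hcon
  -- the graph
  have hcl : IsClosed (Zer I) := by
    have : Zer I = ⋂ Q ∈ I, {x | eval x Q = 0} := by
      ext x
      simp [Zer]
    rw [this]
    exact isClosed_biInter fun Q _ => isClosed_eq (MvPolynomial.continuous_eval Q) continuous_const
  have hS : IsCompact (Zer I ∩ Metric.sphere (0 : Fin (N + 1) → ℂ) 1) :=
    (isCompact_sphere 0 1).inter_left hcl
  obtain ⟨E, hE⟩ : ∃ E : (Fin (M + 1) → ℂ) → (Fin (N + 1) → ℂ) → Prop, ∀ y' x', E y' x' ↔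
      ∀ α a, eval x' (F α a) = y' a * eval x' (F α b) := ⟨_, fun _ _ => Iff.rfl⟩
  have hEc : IsClosed {p : (Fin (M + 1) → ℂ) × (Fin (N + 1) → ℂ) | E p.1 p.2} := by
    simp only [hE, Set.setOf_forall]
    refine isClosed_iInter fun α => isClosed_iInter fun a => ?_
    refine isClosed_eq ((MvPolynomial.continuous_eval _).comp continuous_snd) ?_
    exact ((continuous_apply a).comp continuous_fst).mul
      ((MvPolynomial.continuous_eval _).comp continuous_snd)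
  have hno : ∀ x' ∈ Zer I ∩ Metric.sphere (0 : Fin (N + 1) → ℂ) 1, ¬ E y x' := by
    rintro x' ⟨hx', hx1⟩ hEx
    have hx0 : x' ≠ 0 := by
      rintro rfl
      rw [mem_sphere_zero_iff_norm, norm_zero] at hx1
      exact zero_ne_one hx1
    obtain ⟨α, a, ha⟩ := exists_tuple h hx' hx0
    rw [hE] at hEx
    have hb : eval x' (F α b) ≠ 0 := by
      intro h1
      apply ha
      rw [hEx α a, h1, mul_zero]
    refine hcon ⟨x', hx', hx0, α, hb, ?_⟩
    funext c
    unfold aff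
    rw [hEx α c, mul_div_cancel_right₀ _ hb]
  have hnear : ∀ᶠ y' in 𝓝 y, ∀ x' ∈ Zer I ∩ Metric.sphere (0 : Fin (N + 1) → ℂ) 1,
      ¬ E y' x' :=
    hS.eventually_forall_of_forall_eventually fun x' hx' =>
      hEc.isOpen_compl.mem_nhds (hno x' hx')
  have hyl := Pool.Agent.H17R.coordFun_ne_zero_iff.2 hXb
  obtain ⟨zP, hzP'⟩ := hzP
  refine Pool.Agent.H13.SM.not_eventually_zero (Pool.Agent.H17R.adjoin_ratio hyl) hzP'
    ((Pool.Agent.H13.SM.mem_pts_iff hP hyl).2 ⟨hyb, hy⟩) hf0 ?_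
  filter_upwards [hnear] with y' h1 h2
  obtain ⟨h3, h4⟩ := (Pool.Agent.H13.SM.mem_pts_iff hP hyl).1 h2
  by_contra h5
  obtain ⟨x, hxI, hx0, α, hα, hxy⟩ := hf y' h4 h3 h5
  have hnx : ‖x‖ ≠ 0 := norm_ne_zero_iff.2 hx0
  have hc : ((‖x‖ : ℝ) : ℂ)⁻¹ ≠ 0 := inv_ne_zero (by exact_mod_cast hnx)
  have h6 : ((‖x‖ : ℝ) : ℂ)⁻¹ • x ∈ Zer I := Pool.Agent.H13.SM.cone_smul h.homog hxI _
  have h7 : ((‖x‖ : ℝ) : ℂ)⁻¹ • x ∈ Metric.sphere (0 : Fin (N + 1) → ℂ) 1 := by
    rw [mem_sphere_zero_iff_norm, norm_smul, norm_inv, Complex.norm_real, norm_norm,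
      inv_mul_cancel₀ hnx]
  refine h1 _ ⟨h6, h7⟩ ((hE _ _).2 fun β a => ?_)
  have hα' : eval (((‖x‖ : ℝ) : ℂ)⁻¹ • x) (F α b) ≠ 0 := (eval_smul_ne h hc x α b).2 hα
  have hxy' : aff (F α) b (((‖x‖ : ℝ) : ℂ)⁻¹ • x) = y' := by
    rw [aff_smul h hc]
    exact hxy
  by_cases hβ : eval (((‖x‖ : ℝ) : ℂ)⁻¹ • x) (F β a) = 0
  · by_cases hβb : eval (((‖x‖ : ℝ) : ℂ)⁻¹ • x) (F β b) = 0
    · rw [hβ, hβb, mul_zero]
    · rw [← hxy', aff_eq h h6 hα' hβb]
      unfold aff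
      rw [div_mul_cancel₀ _ hβb]
  · have hβb : eval (((‖x‖ : ℝ) : ℂ)⁻¹ • x) (F β b) ≠ 0 := base_ne h h6 hα' hβ
    rw [← hxy', aff_eq h h6 hα' hβb]
    unfold aff
    rw [div_mul_cancel₀ _ hβb]

end Pool.Agent.H39.SY

end
end
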