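import Pool.Agent.H94.DG.M60
import Pool.Agent.H94.DG.M62

/-! The parts of this file: H39.SZ.Count4, H5.DG4.Main5. -/

section

/-!
# Project SZ, module Count4: the number of ramified sections through a point is at most `2 r`

`Y` is a projective variety of dimension `r`, the `G j = 0` are pairwise different integral sections
of `Y`.  Let `X` be a projective variety of dimension `r` with a finite morphism to `Y` such that the
inverse images of all the `G j = 0` have multiplicities at least two outside of a closed set `B`.  If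
`y` is a point of `Y` such that `X` is smooth at all points over `y`, and none of them is in `B`, then
at most `2 r` of the `G j` vanish at `y`.
-/

open Topology Filter MvPolynomial
open Pool.Agent.H17 (PN VanishesAt ZariskiClosedIn)
open Pool.Agent.H17GT (coordFun)
open Pool.Agent.H17LG.Variety (FunField ratio)
open Pool.Agent.H5.DG (Homog IntegralSection TD variety)
open Pool.Agent.H5.DG3
open Pool.Agent.H13.SM (conTan)
open Pool.Agent.H39.SY

noncomputable section

namespace Pool.Agent.H39.SZ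

private theorem Count4_notMem {N : ℕ} {B : Set (PN N)} (hB : ZariskiClosedIn Set.univ B)
    {x : Fin (N + 1) → ℂ} (hx : x ≠ 0) (hxB : Projectivization.mk ℂ x hx ∉ B) :
    ∀ᶠ x' in 𝓝 x, ∀ hx' : x' ≠ 0, Projectivization.mk ℂ x' hx' ∉ B := by
  obtain ⟨S, hS, hSB⟩ := hB
  obtain ⟨T, hT, hTx⟩ : ∃ T ∈ S, ¬ VanishesAt T (Projectivization.mk ℂ x hx) := by
    by_contra hcon
    push Not at hcon
    exact hxB (by rw [hSB]; exact ⟨trivial, hcon⟩)
  obtain ⟨d, hd⟩ := hS T hT
  rw [Pool.Agent.H17.vanishesAt_mk_iff hd] at hTx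
  have h1 : ∀ᶠ x' in 𝓝 x, eval x' T ≠ 0 :=
    (MvPolynomial.continuous_eval T).continuousAt.eventually_ne hTx
  filter_upwards [h1] with x' hx1 hx' hcon
  rw [hSB] at hcon
  have h2 := hcon.2 T hT
  rw [Pool.Agent.H17.vanishesAt_mk_iff hd] at h2
  exact hx1 h2

theorem count_le {M r m : ℕ} (hr : 1 ≤ r) {P : Ideal (MvPolynomial (Fin (M + 1)) ℂ)}
    [P.IsPrime] (hP : Homog P) (hzP : ∃ z : Fin r → FunField P, IsTranscendenceBasis ℂ z)
    {G : Fin m → MvPolynomial (Fin (M + 1)) ℂ} (hGh : ∀ j, ∃ d, (G j).IsHomogeneous d)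
    (hne : ∀ i j, i ≠ j → ∀ c : ℂ, G i - C c * G j ∉ P) (hint : ∀ j, IntegralSection P (G j))
    {N s q : ℕ} {I : Ideal (MvPolynomial (Fin (N + 1)) ℂ)} [I.IsPrime] {S : Set (PN N)}
    {F : Fin s → Fin (M + 1) → MvPolynomial (Fin (N + 1)) ℂ}
    (hz : ∃ z : Fin r → FunField I, IsTranscendenceBasis ℂ z)
    (h : RamifiedMorphism q P G I ∅ ∅ F) (hS : ZariskiClosedIn Set.univ S)
    (hmult : ∀ x ∈ variety I \ S, ∀ j, PullbackMult 2 I F (G j) x) {x : PN M}
    (hx : x ∈ variety P) (hsm : ∀ x' ∈ variety I, morph F x' = x →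
      x' ∉ S ∧ Module.finrank ℂ (conTan I x'.rep) ≤ r + 1) :
    {j | VanishesAt (G j) x}.ncard ≤ 2 * r := by
  classical
  obtain ⟨n, rfl⟩ : ∃ n, r = n + 1 := ⟨r - 1, by omega⟩
  by_contra hcon
  push Not at hcon
  -- a representative
  obtain ⟨b, hb⟩ : ∃ b, x.rep b ≠ 0 := Function.ne_iff.1 x.rep_nonzero
  obtain ⟨y, hydef⟩ : ∃ y : Fin (M + 1) → ℂ, y = (x.rep b)⁻¹ • x.rep := ⟨_, rfl⟩
  have hyb : y b = 1 := by
    rw [hydef, Pi.smul_apply, smul_eq_mul, inv_mul_cancel₀ hb]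
  have hrepP : ∀ T ∈ P, eval x.rep T = 0 := by
    intro T hT
    rw [← sum_homogeneousComponent T, map_sum]
    exact Finset.sum_eq_zero fun e _ => hx _ (hP T hT e) e (homogeneousComponent_isHomogeneous e T)
  have hy : y ∈ Zer P := by
    rw [hydef]
    exact Pool.Agent.H13.SM.cone_smul hP hrepP _
  have hXb : X b ∉ P := by
    intro h1
    have h2 := hy _ h1
    rw [eval_X, hyb] at h2
    exact one_ne_zero h2
  -- the forms through the point
  have hcard : 2 * (n + 1) + 1 ≤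
      (Finset.univ.filter fun j => VanishesAt (G j) x).card := by
    have h1 : {j | VanishesAt (G j) x}.ncard =
        (Finset.univ.filter fun j => VanishesAt (G j) x).card := by
      rw [← Set.ncard_coe_finset]
      congr 1
      ext j
      simp
    omega
  obtain ⟨T, hT, hTc⟩ := Finset.exists_subset_card_eq hcard
  obtain ⟨k, hk, ι, hι, hιT⟩ : ∃ k, k = 2 * (n + 1) + 1 ∧ ∃ ι : Fin k → Fin m,
      Function.Injective ι ∧ ∀ i, VanishesAt (G (ι i)) x :=
    ⟨_, rfl, T.orderEmbOfFin hTc, (T.orderEmbOfFin hTc).injective, fun i =>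
      (Finset.mem_filter.1 (hT (Finset.orderEmbOfFin_mem T hTc i))).2⟩
  obtain ⟨G', hG'⟩ : ∃ G' : Fin k → MvPolynomial (Fin (M + 1)) ℂ, G' = fun i => G (ι i) :=
    ⟨_, rfl⟩
  have hG'h : ∀ j, ∃ d, (G' j).IsHomogeneous d := by
    rw [hG']
    exact fun j => hGh _
  have hG'y : ∀ j, eval y (G' j) = 0 := by
    intro j
    obtain ⟨e, he⟩ := hG'h j
    have h1 : eval x.rep (G' j) = 0 := by
      rw [hG']
      exact hιT j
    have h2 := Pool.Agent.H17.eval_smul_of_isHomogeneous he (x.rep b)⁻¹ x.rep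
    rw [h1, mul_zero] at h2
    rw [hydef]
    exact h2
  have hG'ne : ∀ i j, i ≠ j → ∀ c : ℂ, G' i - C c * G' j ∉ P := by
    rw [hG']
    exact fun i j hij => hne _ _ fun h => hij (hι h)
  have hG'P : ∀ j, G' j ∉ P := by
    intro j
    obtain ⟨i, hi⟩ : ∃ i : Fin k, i ≠ j := by
      have : Nontrivial (Fin k) := Fin.nontrivial_iff_two_le.2 (by omega)
      exact exists_ne j
    have h1 := hG'ne j i (Ne.symm hi) 0
    rwa [C_0, zero_mul, sub_zero] at h1
  have hG'int : ∀ j, IntegralSection P (G' j) := by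
    rw [hG']
    exact fun j => hint _
  have h' : RamifiedMorphism q P G' I ∅ ∅ F := by
    rw [hG']
    exact ⟨h.homog, h.closedB, h.closedZ, h.morphism, h.maps, h.finite, fun x hx j =>
      h.mult x hx (ι j)⟩
  obtain ⟨hTD, hTD1⟩ := TD_cone hP ⟨b, hXb⟩ hzP
  have hTD1' : ¬ TD P 1 := fun h1 => hTD1 (h1.mono (by omega))
  obtain ⟨Bq, L, hL⟩ := exists_lift4 hP hzP hXb hy hyb
  have hy0 : y ≠ 0 := by
    intro h1
    rw [h1, Pi.zero_apply] at hyb
    exact zero_ne_one hyb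
  have hmky : Projectivization.mk ℂ y hy0 = x := by
    conv_rhs => rw [← x.mk_rep]
    rw [Projectivization.mk_eq_mk_iff']
    exact ⟨_, hydef.symm⟩
  -- the points over `y`
  have hover : ∀ x' ∈ Zer I, ∀ hx'0 : x' ≠ 0, ∀ α, eval x' (F α b) ≠ 0 → aff (F α) b x' = y →
      Projectivization.mk ℂ x' hx'0 ∉ S ∧ Module.finrank ℂ (conTan I x') ≤ n + 1 + 1 := by
    intro x' hx' hx'0 α hb' haff
    have h1 : Projectivization.mk ℂ x' hx'0 ∈ variety I := by
      intro Q hQ e he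
      rw [Pool.Agent.H17.vanishesAt_mk_iff he]
      exact hx' Q hQ
    obtain ⟨h2, h3⟩ := hsm _ h1 ((morph_eq_aff h' hx' hx'0 hb' haff hy0).trans hmky)
    refine ⟨h2, ?_⟩
    obtain ⟨c, hc, hrep⟩ := Pool.Agent.H17.exists_smul_rep x' hx'0
    have h4 : (Projectivization.mk ℂ x' hx'0).rep = c • x' := hrep
    rwa [h4, conTan_smul h'.homog hc] at h3
  -- the pieces
  have hpiece : ∀ W : (Fin (n + 1) → ℂ) → Fin (M + 1) → ℂ, ∃ (U : Set (Fin (n + 1) → ℂ)) (C : ℝ),
      IsPiece I F b y W → IsOpen U ∧ (0 : Fin (n + 1) → ℂ) ∈ U ∧ Bornology.IsBounded U ∧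
        (∀ u ∈ U, AnalyticAt ℂ W u) ∧
        ∀ u ∈ U, ‖(fderiv ℂ (fun u' a => eval (W u') (Bq a)) u).det‖ ^ 2 ≤
          C * ∏ j, ‖eval (W u) (G' j)‖ := by
    intro W
    by_cases hW : IsPiece I F b y W
    · obtain ⟨x', l, J, σ, α, hc, hb', hWσ, hW0⟩ := hW
      have hx' : x' ∈ Zer I := by
        have h1 := hc.coord.self_of_nhds.1
        rwa [hc.zero] at h1
      have hx'0 : x' ≠ 0 := fun h1 => hc.ne (by rw [h1]; rfl)
      have haff : aff (F α) b x' = y := by
        rw [hWσ] at hW0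
        simp only [hc.zero] at hW0
        exact hW0
      have hm : ∀ᶠ u in 𝓝 0, ∀ (hu : σ u ≠ 0) (j : Fin k),
          PullbackMult 2 I F (G' j) (Projectivization.mk ℂ (σ u) hu) := by
        have h1 := Count4_notMem hS hx'0 (hover x' hx' hx'0 α hb' haff).1
        have h2 : Filter.Tendsto σ (𝓝 0) (𝓝 x') := by
          have h3 := hc.an.continuousAt.tendsto
          rwa [hc.zero] at h3
        filter_upwards [h2.eventually h1, hc.coord] with u h3 h4 hu j
        rw [hG']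
        refine hmult _ ⟨?_, h3 hu⟩ _
        intro Q hQ e he
        rw [Pool.Agent.H17.vanishesAt_mk_iff he]
        exact h4.1 Q hQ
      obtain ⟨C, -, hC⟩ := jac_bound3 hP hTD hTD1' h' hz hzP hG'h hG'P hG'ne hG'int hc hb' hm
        Bq
      have han : ∀ᶠ u in 𝓝 (0 : Fin (n + 1) → ℂ), AnalyticAt ℂ W u := by
        refine AnalyticAt.eventually_analyticAt ?_
        rw [hWσ]
        refine analyticAt_aff hc.an ?_
        rw [hc.zero]
        exact hb'
      obtain ⟨ρ, hρ, hball⟩ := Metric.eventually_nhds_iff_ball.1 (han.and hC)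
      refine ⟨Metric.ball 0 ρ, C, fun _ => ⟨Metric.isOpen_ball, Metric.mem_ball_self hρ,
        Metric.isBounded_ball, fun u hu => (hball u hu).1, fun u hu => ?_⟩⟩
      rw [hWσ]
      exact (hball u hu).2
    · exact ⟨∅, 0, fun h => absurd h hW⟩
  choose U C hUC using hpiece
  obtain ⟨t, W, hW, hcov⟩ := exists_cover3 (n := n + 1) (b := b) (y := y) h' hz
    (fun x' hx' hx'0 α hb' haff => (hover x' hx' hx'0 α hb' haff).2)
    (fun y' hy' hyb' => exists_pre hP h' (by omega) hz hzP hy' hyb') U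
    (fun W hW => (hUC W hW).1.mem_nhds (hUC W hW).2.1)
  have hfinal := card_le_of_vol3 (d := 1) (by omega) (W := W) (y := y) Bq G' hG'y
    (U := fun i => U (W i)) (fun i => (hUC _ (hW i)).1) (fun i => (hUC _ (hW i)).2.2.1)
    (fun i => (hUC _ (hW i)).2.2.2.1) (C := fun i => C (W i))
    (fun i => (hUC _ (hW i)).2.2.2.2) (L := L) (by
      filter_upwards [hL _ hcov] with z hz
      obtain ⟨y', hy'V, hy'P, hy'b, hy'B, hy'L⟩ := hz
      obtain ⟨i, u, hu, huy⟩ := hy'V hy'P hy'b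
      exact ⟨i, u, hu, fun a => by rw [huy]; exact hy'B a, by
        rw [huy, pow_one]
        exact hy'L⟩)
  omega

end Pool.Agent.H39.SZ

end
end

section

/-!
# Project DG4, module Main5: models at the points where many hypersurfaces meet
-/

open MvPolynomial
open Pool.Agent.H17 (PN VanishesAt)
open Pool.Agent.H17LG.Variety (FunField)
open Pool.Agent.H5.DG (Homog variety IntegralSection AtMostThrough)
open Pool.Agent.H5.DG3 (MorphismTheorem)
open Pool.Agent.H39.SZ (HasModels)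

noncomputable section

namespace Pool.Agent.H5.DG4

variable {M m : ℕ}

private theorem Main5_dim {r : ℕ} {P : Ideal (MvPolynomial (Fin (M + 1)) ℂ)} [P.IsPrime]
    {y : PN M} (hy : y ∈ variety P) (hzP : ∃ z : Fin r → FunField P, IsTranscendenceBasis ℂ z) :
    r ≤ M := by
  obtain ⟨b, hb⟩ : ∃ b, y.rep b ≠ 0 := Function.ne_iff.1 y.rep_nonzero
  refine Pool.Agent.H39.SZ.dim_le (b := b)
    (Pool.Agent.H17R.coordFun_ne_zero_iff.2 fun hX => hb ?_) hzP
  have h3 := hy _ hX 1 (isHomogeneous_X ℂ b)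
  have h4 : eval y.rep (X b : MvPolynomial (Fin (M + 1)) ℂ) = 0 := h3
  rwa [eval_X] at h4

/-- A point with a model lies on at most `2 M` of the hypersurfaces (helper39). -/
theorem atMostThrough_of_models {k : ℕ} {P : Ideal (MvPolynomial (Fin (M + 1)) ℂ)} [P.IsPrime]
    (hP : Homog P) {G : Fin m → MvPolynomial (Fin (M + 1)) ℂ}
    (hG : ∀ j, ∃ e, (G j).IsHomogeneous e) (hne : ∀ i j, i ≠ j → ∀ c : ℂ, G i - C c * G j ∉ P)
    (hint : ∀ j, IntegralSection P (G j)) (h : HasModels k P G) :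
    AtMostThrough (max (2 * M) k) P G := by
  intro y hy
  by_cases hk : k < {j | VanishesAt (G j) y}.ncard
  · refine le_trans ?_ (le_max_left _ _)
    obtain ⟨r, hr, hzP, N, s, I, hI, B, F, hmod⟩ := h y hy hk
    refine (Pool.Agent.H39.SZ.count_le hr hP hzP hG hne hint hmod.dim hmod.ramified hmod.closed
      (fun x hx => hmod.mult x hx.1 hx.2) hy fun x hx hxy => hmod.smooth x hx hxy).trans ?_
    exact Nat.mul_le_mul_left 2 (Main5_dim hy hzP)
  · exact (not_lt.1 hk).trans (le_max_right _ _)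

/-- **The main theorem.** -/
theorem main_final (M δ A : ℕ) (hA : 2 ≤ A) : ∃ N₀ : ℕ, 1 ≤ N₀ ∧ ∀ (m : ℕ)
    (P : Ideal (MvPolynomial (Fin (M + 1)) ℂ)) [P.IsPrime]
    (G : Fin m → MvPolynomial (Fin (M + 1)) ℂ), Homog P →
    (∀ j, ∃ e, 1 ≤ e ∧ e ≤ δ ∧ (G j).IsHomogeneous e) →
    (∀ i j, i ≠ j → ∀ c : ℂ, G i - C c * G j ∉ P) → (∀ j, IntegralSection P (G j)) →
    ∃ (d : ℕ) (Δ : MvPolynomial (Fin (M + 1)) ℂ), Δ ∉ P ∧ Δ.IsHomogeneous d ∧
      PartialTheorem A N₀ P G Δ ∧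
      (N₀ ≤ m → HasModels (m / N₀) P G → MorphismTheorem 2 P G Δ) := by
  obtain ⟨N₁, hN₁, h⟩ := main_partial M δ A (by omega)
  obtain ⟨K, hK⟩ : ∃ K, K = 2 * (N₁ + 1) * (2 * M + 1) := ⟨_, rfl⟩
  have hK1 : 2 * (N₁ + 1) ≤ K := by
    rw [hK]
    exact Nat.le_mul_of_pos_right _ (by omega)
  refine ⟨K, by omega, fun m P _ G hP hdeg hne hint => ?_⟩
  obtain ⟨d, Δ, hΔ, hd, h1, h2⟩ := h m P G hP hdeg hne hint
  refine ⟨d, Δ, hΔ, hd, h1 K (by omega), fun hm hmod => ?_⟩
  have hGh : ∀ j, ∃ e, (G j).IsHomogeneous e := fun j => by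
    obtain ⟨e, -, -, he⟩ := hdeg j
    exact ⟨e, he⟩
  refine h2 hA _ (atMostThrough_of_models hP hGh hne hint hmod) ?_
  rcases le_total (2 * M) (m / K) with h3 | h3
  · rw [max_eq_right h3]
    have h4 : 2 * (N₁ + 1) * (m / K) ≤ m :=
      (Nat.mul_le_mul_right _ hK1).trans (Nat.mul_div_le m K)
    have h5 : (N₁ + 1) * (m / K + 1) = (N₁ + 1) * (m / K) + (N₁ + 1) := by ring
    have h6 : 2 * (N₁ + 1) * (m / K) = 2 * ((N₁ + 1) * (m / K)) := by ring
    omega
  · rw [max_eq_left h3]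
    have h4 : (N₁ + 1) * (2 * M + 1) ≤ K := by
      rw [hK]
      calc (N₁ + 1) * (2 * M + 1) = 1 * ((N₁ + 1) * (2 * M + 1)) := (one_mul _).symm
        _ ≤ 2 * ((N₁ + 1) * (2 * M + 1)) := Nat.mul_le_mul_right _ (by norm_num)
        _ = 2 * (N₁ + 1) * (2 * M + 1) := by ring
    omega

end Pool.Agent.H5.DG4

end
end
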